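import Pool.Agent.Lib.MP_923aff_ag.FG
/-!
# JOB AUT: finiteness of the automorphism group of a rational map of degree at least `2`

`rmap F` is the map of the projective line given by a coprime pair `F`. The finite set
`S = {p | f (f (f p)) = f (f p)}` (preimage of the preimage of the fixed points) has at least three points:
let `A = Fix f`, `A1 = f⁻¹ A`, `A ⊆ A1 ⊆ S = f⁻¹ A1`, `A` is not empty. If `S` has at most two points, then `A = A1` or
`A1 = S`. If `A1 = f⁻¹ A1` and `A ≠ A1` then `A = {a}`, `A1 = {a, b}`, `f a = f b = a`, but `b` has a preimage in `A1`, contradiction.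
If `A = f⁻¹ A` then `f⁻¹ a = {a}` for all `a ∈ A`. Move `a` to `(1, 0)` (2-transitivity): `F_1 = c y ^ d`, the fixed form is
`y (c x y ^ (d - 1) - F_0)` and `F_0 (1, 0) ≠ 0`, so the second factor has a zero which is not `a` (`d ≥ 2`): `A = {a, b}`.
Move `b` to `(0, 1)`: `F_0 = c' x ^ d`, fixed form `x y (c y ^ (d - 1) - c' x ^ (d - 1))`, a third zero, contradiction.
An element of `PGL₂` which fixes three points is `1`, so the automorphisms inject into the maps `S → S`.
-/

set_option autoImplicit false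

namespace Pool.Agent.MRat

open scoped MatrixGroups LinearAlgebra.Projectivization

variable {k : Type} [Field k] [IsAlgClosed k] [CharZero k]

private theorem aut_mk_eq {v w : Fin 2 → k} (hv : v ≠ 0) (hw : w ≠ 0) :
    Projectivization.mk k v hv = Projectivization.mk k w hw ↔ lin w v = 0 := by
  rw [Projectivization.mk_eq_mk_iff', lin_eq_zero hw]
  exact ⟨fun ⟨c, h⟩ => ⟨c, h.symm⟩, fun ⟨c, h⟩ => ⟨c, h.symm⟩⟩

private theorem aut_smul_ne {c : k} {v : Fin 2 → k} (h : c • v ≠ 0) : c ≠ 0 := by
  rintro rfl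
  exact h (zero_smul _ _)

/-- The self-map of the projective line given by a homogeneous coprime pair of degree `d`. -/
def rmap {d : ℕ} {F : (Fin 2 → k) → (Fin 2 → k)} (hF : F ∈ SM k d) (cF : Cop F) :
    ℙ k (Fin 2 → k) → ℙ k (Fin 2 → k) :=
  fun p => Projectivization.lift (fun v : {v : Fin 2 → k // v ≠ 0} =>
    Projectivization.mk k (F v.1) (cF v.1 v.2)) (by
      rintro ⟨a, ha⟩ ⟨b, hb⟩ t hab
      dsimp only at hab
      subst hab
      rw [Projectivization.mk_eq_mk_iff']
      exact ⟨t ^ d, (SM.hom hF t b).symm⟩) p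

theorem rmap_mk {d : ℕ} {F : (Fin 2 → k) → (Fin 2 → k)} (hF : F ∈ SM k d) (cF : Cop F)
    (v : Fin 2 → k) (hv : v ≠ 0) : rmap hF cF (Projectivization.mk k v hv) =
      Projectivization.mk k (F v) (cF v hv) := rfl

private theorem aut_fix_iff {d : ℕ} {F : (Fin 2 → k) → (Fin 2 → k)} (hF : F ∈ SM k d)
    (cF : Cop F) {v : Fin 2 → k} (hv : v ≠ 0) : rmap hF cF (Projectivization.mk k v hv) =
      Projectivization.mk k v hv ↔ lin v (F v) = 0 := by
  rw [rmap_mk, aut_mk_eq]

private theorem aut_fib_iff {d : ℕ} {F : (Fin 2 → k) → (Fin 2 → k)} (hF : F ∈ SM k d)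
    (cF : Cop F) {v w : Fin 2 → k} (hv : v ≠ 0) (hw : w ≠ 0) :
    rmap hF cF (Projectivization.mk k v hv) = Projectivization.mk k w hw ↔ lin w (F v) = 0 := by
  rw [rmap_mk, aut_mk_eq]

private theorem aut_zeros {n : ℕ} {H : (Fin 2 → k) → k} (hH : H ∈ Form k n) (h0 : H ≠ 0)
    (S : Set (ℙ k (Fin 2 → k))) (hS : ∀ (v : Fin 2 → k) (hv : v ≠ 0),
      Projectivization.mk k v hv ∈ S → H v = 0) : S.Finite := by
  obtain ⟨Z, _, hZ0, hZ⟩ := Form.zeros_finite hH h0
  have hfin : (⋃ z ∈ Z, {p : ℙ k (Fin 2 → k) | ∃ hz : z ≠ 0, p = Projectivization.mk k z hz}).Finite := by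
    apply Set.Finite.biUnion (Finset.finite_toSet Z)
    intro z _
    apply Set.Subsingleton.finite
    rintro p ⟨hz, rfl⟩ q ⟨_, rfl⟩
    rfl
  apply hfin.subset
  intro p hp
  induction p using Projectivization.ind with
  | _ v hv =>
    obtain ⟨z, hz, c, hc⟩ := hZ v hv (hS v hv hp)
    rw [Set.mem_iUnion₂]
    refine ⟨z, hz, hZ0 z hz, ?_⟩
    rw [Projectivization.mk_eq_mk_iff']
    exact ⟨c, hc.symm⟩

private theorem aut_lin_mem {d : ℕ} {F : (Fin 2 → k) → (Fin 2 → k)} (hF : F ∈ SM k d)
    (w : Fin 2 → k) : (fun v => lin w (F v)) ∈ Form k d := by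
  have h0 : (fun v => F v 0) ∈ Form k d := hF 0
  have h1 : (fun v => F v 1) ∈ Form k d := hF 1
  exact (Form k d).sub_mem ((Form k d).smul_mem (w 0) h1) ((Form k d).smul_mem (w 1) h0)

private theorem aut_fix_mem {d : ℕ} {F : (Fin 2 → k) → (Fin 2 → k)} (hF : F ∈ SM k d) :
    (fun v => lin v (F v)) ∈ Form k (d + 1) := by
  have h0 : (fun v => F v 0) ∈ Form k d := hF 0
  have h1 : (fun v => F v 1) ∈ Form k d := hF 1
  have e0 : (fun v : Fin 2 → k => v 0) ∈ Form k 1 := by
    have h := Form.monom_mem (k := k) (i := 1) (j := 0) (n := 1) rfl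
    have e : (fun v : Fin 2 → k => v 0 ^ 1 * v 1 ^ 0) = fun v => v 0 := by
      funext v
      ring
    rwa [e] at h
  have e1 : (fun v : Fin 2 → k => v 1) ∈ Form k 1 := by
    have h := Form.monom_mem (k := k) (i := 0) (j := 1) (n := 1) rfl
    have e : (fun v : Fin 2 → k => v 0 ^ 0 * v 1 ^ 1) = fun v => v 1 := by
      funext v
      ring
    rwa [e] at h
  exact (Form k (d + 1)).sub_mem (Form.mul_mem (Nat.add_comm 1 d) e0 h1)
    (Form.mul_mem (Nat.add_comm 1 d) e1 h0)

private theorem aut_lin_pow_mem (w : Fin 2 → k) (n : ℕ) : (fun v => lin w v ^ n) ∈ Form k n := by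
  induction n with
  | zero =>
      have h := Form.monom_mem (k := k) (i := 0) (j := 0) (n := 0) rfl
      have e : (fun v : Fin 2 → k => v 0 ^ 0 * v 1 ^ 0) = fun v => lin w v ^ 0 := by
        funext v
        ring
      rwa [e] at h
  | succ n ih =>
      have h := Form.mul_mem (l := n + 1) rfl ih (lin_mem w)
      have e : (fun v : Fin 2 → k => lin w v ^ n * lin w v) = fun v => lin w v ^ (n + 1) := by
        funext v
        ring
      rwa [e] at h

private theorem aut_power (w : Fin 2 → k) (hw : w ≠ 0) (n : ℕ) : ∀ (L : (Fin 2 → k) → k),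
    L ∈ Form k n → L ≠ 0 → (∀ v : Fin 2 → k, v ≠ 0 → L v = 0 → lin w v = 0) →
    ∃ c : k, c ≠ 0 ∧ ∀ v, L v = c * lin w v ^ n := by
  induction n with
  | zero =>
      intro L hL hL0 _
      obtain ⟨c, hc⟩ := Form.const hL
      refine ⟨c, ?_, ?_⟩
      · rintro rfl
        exact hL0 (funext hc)
      · intro v
        rw [hc v, pow_zero, mul_one]
  | succ n ih =>
      intro L hL hL0 hz
      obtain ⟨v0, hv0, hLv0⟩ := Form.exists_zero hL
      have hLw : L w = 0 := by
        obtain ⟨c, hc⟩ := (lin_eq_zero hw).1 (hz v0 hv0 hLv0)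
        have hc0 : c ≠ 0 := by
          apply aut_smul_ne (v := w)
          rw [← hc]
          exact hv0
        rw [hc, Form.hom hL] at hLv0
        exact (mul_eq_zero.1 hLv0).resolve_left (pow_ne_zero _ hc0)
      obtain ⟨G, hG, hLG⟩ := Form.factor hL hw hLw
      have hG0 : G ≠ 0 := by
        rintro rfl
        apply hL0
        funext v
        rw [hLG v]
        simp
      obtain ⟨c, hc0, hc⟩ := ih G hG hG0 (by
        intro v hv hGv
        apply hz v hv
        rw [hLG v, hGv, mul_zero])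
      refine ⟨c, hc0, ?_⟩
      intro v
      rw [hLG v, hc v]
      ring

private theorem aut_lin_ne {d : ℕ} (hd : 1 ≤ d) {F : (Fin 2 → k) → (Fin 2 → k)}
    (hF : F ∈ SM k d) (cF : Cop F) (w : Fin 2 → k) (hw : w ≠ 0) :
    (fun v => lin w (F v)) ≠ 0 := by
  intro h
  obtain ⟨d', rfl⟩ : ∃ d', d = d' + 1 := ⟨d - 1, by omega⟩
  have hall : ∀ v, ∃ c : k, F v = c • w := by
    intro v
    rw [← lin_eq_zero hw]
    exact congrFun h v
  have hi : ∃ i : Fin 2, w i ≠ 0 := by
    by_contra hcon
    apply hw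
    funext i
    by_contra hi
    exact hcon ⟨i, hi⟩
  obtain ⟨i, hi⟩ := hi
  obtain ⟨v0, hv0, hv⟩ := Form.exists_zero (hF i)
  obtain ⟨c, hc⟩ := hall v0
  apply cF v0 hv0
  have h1 : F v0 i = c * w i := by rw [hc]; rfl
  have h2 : F v0 i = 0 := hv
  rw [h2] at h1
  have hc0 : c = 0 := (mul_eq_zero.1 h1.symm).resolve_right hi
  rw [hc, hc0, zero_smul]

theorem rmap_fix_finite {d : ℕ} (hd : 2 ≤ d) {F : (Fin 2 → k) → (Fin 2 → k)} (hF : F ∈ SM k d)
    (cF : Cop F) : {p | rmap hF cF p = p}.Finite := by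
  obtain ⟨h1, h2⟩ := SM.fix_ne_zero hd hF cF
  apply aut_zeros h1 h2
  intro v hv hp
  exact (aut_fix_iff hF cF hv).1 hp

theorem rmap_fix_nonempty {d : ℕ} {F : (Fin 2 → k) → (Fin 2 → k)} (hF : F ∈ SM k d)
    (cF : Cop F) : ∃ p, rmap hF cF p = p := by
  obtain ⟨v, hv, h⟩ := Form.exists_zero (aut_fix_mem hF)
  exact ⟨Projectivization.mk k v hv, (aut_fix_iff hF cF hv).2 h⟩

theorem rmap_fiber_finite {d : ℕ} (hd : 1 ≤ d) {F : (Fin 2 → k) → (Fin 2 → k)} (hF : F ∈ SM k d)
    (cF : Cop F) (q : ℙ k (Fin 2 → k)) : {p | rmap hF cF p = q}.Finite := by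
  induction q using Projectivization.ind with
  | _ w hw =>
    apply aut_zeros (aut_lin_mem hF w) (aut_lin_ne hd hF cF w hw)
    intro v hv hp
    exact (aut_fib_iff hF cF hv hw).1 hp

theorem rmap_surj {d : ℕ} (hd : 1 ≤ d) {F : (Fin 2 → k) → (Fin 2 → k)} (hF : F ∈ SM k d)
    (cF : Cop F) : Function.Surjective (rmap hF cF) := by
  intro q
  induction q using Projectivization.ind with
  | _ w hw =>
    obtain ⟨v, hv, h⟩ := SM.onto hd hF cF w hw
    refine ⟨Projectivization.mk k v hv, ?_⟩
    rw [rmap_mk]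
    congr 1

private theorem aut_exists_indep (w : Fin 2 → k) (hw : w ≠ 0) :
    ∃ u : Fin 2 → k, lin w u ≠ 0 := by
  by_cases h0 : w 0 = 0
  · refine ⟨![1, 0], ?_⟩
    have h1 : w 1 ≠ 0 := by
      intro h1
      apply hw
      funext i
      fin_cases i
      · exact h0
      · exact h1
    unfold lin
    simpa using h1
  · refine ⟨![0, 1], ?_⟩
    unfold lin
    simpa using h0

private theorem aut_plucker (w u v x : Fin 2 → k) :
    lin v x * lin w u = lin w v * lin u x - lin u v * lin w x := by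
  unfold lin
  ring

private theorem aut_vec_zero {w u x : Fin 2 → k} (h : lin w u ≠ 0) (hw : lin w x = 0)
    (hu : lin u x = 0) : x = 0 := by
  unfold lin at h hw hu
  have e0 : x 0 * (w 0 * u 1 - w 1 * u 0) = 0 := by linear_combination u 0 * hw - w 0 * hu
  have e1 : x 1 * (w 0 * u 1 - w 1 * u 0) = 0 := by linear_combination u 1 * hw - w 1 * hu
  funext i
  fin_cases i
  · exact (mul_eq_zero.1 e0).resolve_right h
  · exact (mul_eq_zero.1 e1).resolve_right h

/-- A point `a` fixed by `f` with `f⁻¹ a = {a}` is not the only fixed point. -/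
theorem rmap_exists_other {d : ℕ} (hd : 2 ≤ d) {F : (Fin 2 → k) → (Fin 2 → k)} (hF : F ∈ SM k d)
    (cF : Cop F) (a : ℙ k (Fin 2 → k)) (ha : ∀ p, rmap hF cF p = a ↔ p = a) :
    ∃ b, b ≠ a ∧ rmap hF cF b = b := by
  induction a using Projectivization.ind with
  | _ w hw =>
    obtain ⟨c, hc0, hc⟩ := aut_power w hw d (fun v => lin w (F v)) (aut_lin_mem hF w)
      (aut_lin_ne (by omega) hF cF w hw) (by
        intro v hv hz
        rw [← aut_mk_eq hv hw, ← ha]
        exact (aut_fib_iff hF cF hv hw).2 hz)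
    by_contra hcon
    have hz : ∀ v : Fin 2 → k, v ≠ 0 → lin v (F v) = 0 → lin w v = 0 := by
      intro v hv hz
      rw [← aut_mk_eq hv hw]
      by_contra hne
      exact hcon ⟨_, hne, (aut_fix_iff hF cF hv).2 hz⟩
    obtain ⟨h1, h2⟩ := SM.fix_ne_zero hd hF cF
    obtain ⟨e, he0, he⟩ := aut_power w hw (d + 1) _ h1 h2 hz
    obtain ⟨u, hu⟩ := aut_exists_indep w hw
    obtain ⟨m, rfl⟩ : ∃ m, d = m + 1 := ⟨d - 1, by omega⟩
    have hM := aut_lin_mem hF u
    have hR : (fun v => lin w u * e * lin w v ^ (m + 1) + c * (lin u v * lin w v ^ m)) ∈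
        Form k (m + 1) :=
      (Form k (m + 1)).add_mem ((Form k (m + 1)).smul_mem (lin w u * e) (aut_lin_pow_mem w (m + 1)))
        ((Form k (m + 1)).smul_mem c (Form.mul_mem (Nat.add_comm 1 m) (lin_mem u)
          (aut_lin_pow_mem w m)))
    have hlw : lin w ≠ 0 := by
      intro h
      exact hu (congrFun h u)
    have hcan := Form.cancel (lin_mem w) hlw hM hR (by
      intro v
      have e1 := aut_plucker w u v (F v)
      have e2 := hc v
      have e3 := he v
      rw [e2, e3] at e1
      linear_combination -e1)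
    have hself : lin w w = 0 := by unfold lin; ring
    have hMw : lin u (F w) = 0 := by
      have h := congrFun hcan w
      rw [h, hself]
      have hm : m ≠ 0 := by omega
      rw [zero_pow hm, zero_pow (Nat.succ_ne_zero m)]
      ring
    have hLw : lin w (F w) = 0 := by
      have h := hc w
      rw [h, hself, zero_pow (Nat.succ_ne_zero m), mul_zero]
    exact cF w hw (aut_vec_zero hu hLw hMw)

/-- Two totally ramified fixed points: there is a third fixed point. -/
theorem rmap_exists_third {d : ℕ} (hd : 2 ≤ d) {F : (Fin 2 → k) → (Fin 2 → k)} (hF : F ∈ SM k d)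
    (cF : Cop F) (a b : ℙ k (Fin 2 → k)) (hab : a ≠ b) (ha : ∀ p, rmap hF cF p = a ↔ p = a)
    (hb : ∀ p, rmap hF cF p = b ↔ p = b) : ∃ c, c ≠ a ∧ c ≠ b ∧ rmap hF cF c = c := by
  induction a using Projectivization.ind with
  | _ w hw =>
  induction b using Projectivization.ind with
  | _ u hu =>
    obtain ⟨c, hc0, hc⟩ := aut_power w hw d (fun v => lin w (F v)) (aut_lin_mem hF w)
      (aut_lin_ne (by omega) hF cF w hw) (by
        intro v hv hz
        rw [← aut_mk_eq hv hw, ← ha]
        exact (aut_fib_iff hF cF hv hw).2 hz)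
    obtain ⟨e, he0, he⟩ := aut_power u hu d (fun v => lin u (F v)) (aut_lin_mem hF u)
      (aut_lin_ne (by omega) hF cF u hu) (by
        intro v hv hz
        rw [← aut_mk_eq hv hu, ← hb]
        exact (aut_fib_iff hF cF hv hu).2 hz)
    have hwu : lin w u ≠ 0 := by
      intro h
      exact hab ((aut_mk_eq hu hw).2 h).symm
    obtain ⟨m, rfl⟩ : ∃ m, d = m + 2 := ⟨d - 2, by omega⟩
    have hR : (fun v => e * lin u v ^ (m + 1) - c * lin w v ^ (m + 1)) ∈ Form k (m + 1) :=
      (Form k (m + 1)).sub_mem ((Form k (m + 1)).smul_mem e (aut_lin_pow_mem u (m + 1)))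
        ((Form k (m + 1)).smul_mem c (aut_lin_pow_mem w (m + 1)))
    obtain ⟨v, hv, hz⟩ := Form.exists_zero hR
    have hboth : ¬ (lin w v = 0 ∧ lin u v = 0) := by
      rintro ⟨h1, h2⟩
      exact hv (aut_vec_zero hwu h1 h2)
    have hnw : lin w v ≠ 0 := by
      intro h
      rw [h, zero_pow (Nat.succ_ne_zero m), mul_zero, sub_zero] at hz
      exact hboth ⟨h, eq_zero_of_pow_eq_zero ((mul_eq_zero.1 hz).resolve_left he0)⟩
    have hnu : lin u v ≠ 0 := by
      intro h
      rw [h, zero_pow (Nat.succ_ne_zero m), mul_zero, zero_sub, neg_eq_zero] at hz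
      exact hboth ⟨eq_zero_of_pow_eq_zero ((mul_eq_zero.1 hz).resolve_left hc0), h⟩
    refine ⟨Projectivization.mk k v hv, ?_, ?_, ?_⟩
    · intro h
      exact hnw ((aut_mk_eq hv hw).1 h)
    · intro h
      exact hnu ((aut_mk_eq hv hu).1 h)
    · rw [aut_fix_iff]
      have e1 := aut_plucker w u v (F v)
      have e2 := hc v
      have e3 := he v
      rw [e2, e3] at e1
      apply (mul_eq_zero.1 _).resolve_right hwu
      rw [e1]
      linear_combination (lin w v * lin u v) * hz

theorem rmap_three {d : ℕ} (hd : 2 ≤ d) {F : (Fin 2 → k) → (Fin 2 → k)} (hF : F ∈ SM k d)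
    (cF : Cop F) : ∃ p q r, p ≠ q ∧ p ≠ r ∧ q ≠ r ∧
      (∀ x, x = p ∨ x = q ∨ x = r → rmap hF cF (rmap hF cF (rmap hF cF x)) =
        rmap hF cF (rmap hF cF x)) := by
  obtain ⟨a, ha⟩ := rmap_fix_nonempty hF cF
  have hsurj := rmap_surj (by omega) hF cF
  by_cases hfa : ∀ p, rmap hF cF p = a ↔ p = a
  · obtain ⟨b, hba, hb⟩ := rmap_exists_other hd hF cF a hfa
    by_cases hfb : ∀ p, rmap hF cF p = b ↔ p = b
    · obtain ⟨c, hca, hcb, hc⟩ := rmap_exists_third hd hF cF a b hba.symm hfa hfb
      refine ⟨a, b, c, hba.symm, hca.symm, hcb.symm, ?_⟩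
      rintro x (rfl | rfl | rfl)
      · simp only [ha]
      · simp only [hb]
      · simp only [hc]
    · have hex : ∃ c, rmap hF cF c = b ∧ c ≠ b := by
        by_contra hcon
        apply hfb
        intro p
        constructor
        · intro h
          by_contra hne
          exact hcon ⟨p, h, hne⟩
        · rintro rfl
          exact hb
      obtain ⟨c, hc, hcb⟩ := hex
      have hca : c ≠ a := by
        rintro rfl
        rw [ha] at hc
        exact hba hc.symm
      refine ⟨a, b, c, hba.symm, hca.symm, hcb.symm, ?_⟩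
      rintro x (rfl | rfl | rfl)
      · simp only [ha]
      · simp only [hb]
      · simp only [hc, hb]
  · have hex : ∃ b, rmap hF cF b = a ∧ b ≠ a := by
      by_contra hcon
      apply hfa
      intro p
      constructor
      · intro h
        by_contra hne
        exact hcon ⟨p, h, hne⟩
      · rintro rfl
        exact ha
    obtain ⟨b, hb, hba⟩ := hex
    obtain ⟨c, hc⟩ := hsurj b
    have hca : c ≠ a := by
      rintro rfl
      rw [ha] at hc
      exact hba hc.symm
    have hcb : c ≠ b := by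
      rintro rfl
      rw [hb] at hc
      exact hba hc.symm
    refine ⟨a, b, c, hba.symm, hca.symm, hcb.symm, ?_⟩
    rintro x (rfl | rfl | rfl)
    · simp only [ha]
    · simp only [hb, ha]
    · simp only [hc, hb, ha]

private theorem aut_cramer (v w x : Fin 2 → k) :
    lin v w • x = lin x w • v + lin v x • w := by
  funext i
  unfold lin
  fin_cases i
  · simp
    ring
  · simp
    ring

private theorem aut_lin_smul (c : k) (v w : Fin 2 → k) : lin v (c • w) = c * lin v w := by
  unfold lin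
  simp
  ring

private theorem aut_lin_add (v w x : Fin 2 → k) : lin v (w + x) = lin v w + lin v x := by
  unfold lin
  simp
  ring

private theorem aut_lin_self (v : Fin 2 → k) : lin v v = 0 := by
  unfold lin
  ring

private theorem aut_lin_swap (v w : Fin 2 → k) : lin v w = -lin w v := by
  unfold lin
  ring

/-- An element of `PGL₂` with three fixed points is trivial. -/
theorem pgl_three_fixed (g : PGL(2, k)) {p q r : ℙ k (Fin 2 → k)} (hpq : p ≠ q) (hpr : p ≠ r)
    (hqr : q ≠ r) (hp : g • p = p) (hq : g • q = q) (hr : g • r = r) : g = 1 := by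
  induction g using Matrix.ProjGenLinGroup.induction_on with
  | mk A =>
  induction p using Projectivization.ind with
  | _ v hv =>
  induction q using Projectivization.ind with
  | _ w hw =>
  induction r using Projectivization.ind with
  | _ u hu =>
    rw [Projectivization.PGL.mk_smul_mk, Projectivization.mk_eq_mk_iff'] at hp hq hr
    obtain ⟨a, ha⟩ := hp
    obtain ⟨b, hb⟩ := hq
    obtain ⟨c, hc⟩ := hr
    have hA : ∀ x : Fin 2 → k, A • x = A.val.mulVec x := fun x => rfl
    rw [hA] at ha hb hc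
    have d1 : lin v w ≠ 0 := fun h => hpq ((aut_mk_eq hw hv).2 h).symm
    have d2 : lin v u ≠ 0 := fun h => hpr ((aut_mk_eq hu hv).2 h).symm
    have d3 : lin w u ≠ 0 := fun h => hqr ((aut_mk_eq hu hw).2 h).symm
    have hall : ∀ x : Fin 2 → k, lin v w • A.val.mulVec x =
        (lin x w * a) • v + (lin v x * b) • w := by
      intro x
      rw [← Matrix.mulVec_smul, aut_cramer, Matrix.mulVec_add, Matrix.mulVec_smul,
        Matrix.mulVec_smul, ← ha, ← hb, smul_smul, smul_smul]
    have hu2 := hall u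
    rw [← hc, smul_smul, mul_comm, ← smul_smul, aut_cramer, smul_add, smul_smul, smul_smul] at hu2
    have hca : c = a := by
      have h := congrArg (lin w) hu2
      rw [aut_lin_add, aut_lin_add, aut_lin_smul, aut_lin_smul, aut_lin_smul, aut_lin_smul,
        aut_lin_self, mul_zero, mul_zero, add_zero, add_zero] at h
      have h1 : lin w v ≠ 0 := by
        rw [aut_lin_swap]
        exact neg_ne_zero.2 d1
      have h2 := mul_right_cancel₀ h1 h
      have h3 : lin u w ≠ 0 := by
        rw [aut_lin_swap]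
        exact neg_ne_zero.2 d3
      rw [mul_comm] at h2
      exact mul_left_cancel₀ h3 h2
    have hcb : c = b := by
      have h := congrArg (lin v) hu2
      rw [aut_lin_add, aut_lin_add, aut_lin_smul, aut_lin_smul, aut_lin_smul, aut_lin_smul,
        aut_lin_self, mul_zero, mul_zero, zero_add, zero_add] at h
      have h2 := mul_right_cancel₀ d1 h
      rw [mul_comm] at h2
      exact mul_left_cancel₀ d2 h2
    have hscal : ∀ x : Fin 2 → k, A.val.mulVec x = c • x := by
      intro x
      have h := hall x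
      rw [← hca, ← hcb, mul_comm (lin x w), mul_comm (lin v x), ← smul_smul, ← smul_smul,
        ← smul_add, ← aut_cramer, smul_comm] at h
      exact smul_right_injective _ d1 h
    rw [Matrix.ProjGenLinGroup.mk_eq_one, Matrix.GeneralLinearGroup.mem_center_iff_val_mem_range_scalar]
    refine ⟨c, ?_⟩
    ext i j
    have h := congrFun (hscal (Pi.single j 1)) i
    rw [Matrix.mulVec_single_one] at h
    have h2 : A.val i j = c * (Pi.single j 1 : Fin 2 → k) i := h
    rw [h2, Matrix.scalar_apply, Matrix.diagonal_apply]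
    by_cases hij : i = j
    · subst hij
      simp
    · rw [if_neg hij, Pi.single_eq_of_ne hij, mul_zero]

/-- The elements of `PGL₂` commuting with a rational map of degree at least `2` are finitely many. -/
theorem rmap_aut_finite {d : ℕ} (hd : 2 ≤ d) {F : (Fin 2 → k) → (Fin 2 → k)} (hF : F ∈ SM k d)
    (cF : Cop F) : {g : PGL(2, k) | ∀ p, rmap hF cF (g • p) = g • rmap hF cF p}.Finite := by
  obtain ⟨p, q, r, hpq, hpr, hqr, hS⟩ := rmap_three hd hF cF
  have hfin : {x | rmap hF cF (rmap hF cF (rmap hF cF x)) = rmap hF cF (rmap hF cF x)}.Finite := by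
    have h1 := rmap_fix_finite hd hF cF
    have h2 : ∀ T : Set (ℙ k (Fin 2 → k)), T.Finite → {x | rmap hF cF x ∈ T}.Finite := by
      intro T hT
      have h3 : {x | rmap hF cF x ∈ T} = ⋃ y ∈ T, {x | rmap hF cF x = y} := by
        ext x
        simp
      rw [h3]
      exact hT.biUnion (fun y _ => rmap_fiber_finite (by omega) hF cF y)
    exact h2 _ (h2 _ h1)
  have hmem : ∀ g ∈ {g : PGL(2, k) | ∀ p, rmap hF cF (g • p) = g • rmap hF cF p}, ∀ x,
      rmap hF cF (rmap hF cF (rmap hF cF x)) = rmap hF cF (rmap hF cF x) →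
      rmap hF cF (rmap hF cF (rmap hF cF (g • x))) = rmap hF cF (rmap hF cF (g • x)) := by
    intro g hg x hx
    have hg' : ∀ p, rmap hF cF (g • p) = g • rmap hF cF p := hg
    rw [hg', hg', hg', hx]
  apply Set.Finite.of_finite_image (f := fun g => (g • p, g • q, g • r))
  · apply (hfin.prod (hfin.prod hfin)).subset
    rintro _ ⟨g, hg, rfl⟩
    exact ⟨hmem g hg p (hS p (Or.inl rfl)), hmem g hg q (hS q (Or.inr (Or.inl rfl))),
      hmem g hg r (hS r (Or.inr (Or.inr rfl)))⟩
  · intro g _ h _ hgh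
    simp only [Prod.mk.injEq] at hgh
    obtain ⟨e1, e2, e3⟩ := hgh
    have hone : h⁻¹ * g = 1 := by
      apply pgl_three_fixed _ hpq hpr hqr
      · rw [mul_smul, e1, inv_smul_smul]
      · rw [mul_smul, e2, inv_smul_smul]
      · rw [mul_smul, e3, inv_smul_smul]
    exact (inv_mul_eq_one.1 hone).symm

end Pool.Agent.MRat
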