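import Pool.Agent.Lib.MP_923aff_ag.ConC
/-!
# JOB AMBA: the calculus of definable predicates and functions (logic part)

Here `DP k P` means: `P` is a definable predicate; `DF k f`: `f` is a definable function.
-/

set_option autoImplicit false
set_option linter.unusedSectionVars false

namespace Pool.Agent.MRat

variable {k : Type} [Field k] [IsAlgClosed k] [CharZero k]
variable {α β γ δ : Type} [Amb k α] [Amb k β] [Amb k γ] [Amb k δ]

/-- Preimage under a reindexing of coordinates. -/
theorem amba_reidx {m n : ℕ} {s : Set (Fin m → k)} (hs : Con k m s) (σ : Fin m → Fin n) :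
    Con k n {x | (fun j => x (σ j)) ∈ s} := by
  have h := hs.preimage (fun j => (MvPolynomial.X (σ j) : MvPolynomial (Fin n) k))
  simpa using h

/-- Elimination of a block of existential quantifiers. -/
theorem amba_ex (n m : ℕ) {S : Set (Fin (n + m) → k)} (hS : Con k (n + m) S) :
    Con k n {x | ∃ y : Fin m → k, Fin.append x y ∈ S} := by
  induction m with
  | zero =>
    have h := amba_reidx (n := n) hS (fun j => j)
    convert h using 1
    ext x
    simp only [Set.mem_ofPred_eq]
    constructor
    · rintro ⟨y, hy⟩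
      convert hy using 1
      funext j
      exact (Fin.append_left x y j).symm
    · intro hx
      refine ⟨Fin.elim0, ?_⟩
      convert hx using 1
      funext j
      exact Fin.append_left x _ j
  | succ m ih =>
    have h1 : Con k (n + m) {a | ∃ y, (Fin.snoc a y : Fin (n + m + 1) → k) ∈ S} :=
      Con.proj hS
    have h2 := ih h1
    convert h2 using 1
    ext x
    simp only [Set.mem_ofPred_eq]
    constructor
    · rintro ⟨y, hy⟩
      refine ⟨Fin.init y, y (Fin.last m), ?_⟩
      rw [← Fin.append_snoc, Fin.snoc_init_self]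
      exact hy
    · rintro ⟨y, t, hy⟩
      refine ⟨Fin.snoc y t, ?_⟩
      rw [Fin.append_snoc]
      exact hy

/-- A map which in coordinates is a reindexing. -/
def AmbaR (k : Type) [Field k] {α β : Type} [Amb k α] [Amb k β] (f : α → β) : Prop :=
  ∃ σ : Fin (Amb.dim k β) → Fin (Amb.dim k α), ∀ a j,
    Amb.e (k := k) (f a) j = Amb.e (k := k) a (σ j)

theorem AmbaR.id : AmbaR k (fun a : α => a) := ⟨fun j => j, fun _ _ => rfl⟩

theorem AmbaR.comp {g : β → γ} (hg : AmbaR k g) {f : α → β} (hf : AmbaR k f) :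
    AmbaR k (fun a => g (f a)) := by
  obtain ⟨σ, hσ⟩ := hg
  obtain ⟨τ, hτ⟩ := hf
  exact ⟨fun j => τ (σ j), fun a j => by rw [hσ, hτ]⟩

theorem amba_e_prod (p : α × β) :
    Amb.e (k := k) p = Fin.append (Amb.e (k := k) p.1) (Amb.e (k := k) p.2) := rfl

theorem amba_e_prod_symm (z : Fin (Amb.dim k (α × β)) → k) :
    (Amb.e (k := k) (α := α × β)).symm z =
      ((Amb.e (k := k) (α := α)).symm (fun i => z (Fin.castAdd _ i)),
        (Amb.e (k := k) (α := β)).symm (fun i => z (Fin.natAdd _ i))) := rfl

theorem AmbaR.fst : AmbaR k (fun p : α × β => p.1) :=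
  ⟨fun j => Fin.castAdd _ j, fun p j => by
    rw [amba_e_prod]; exact (Fin.append_left _ _ j).symm⟩

theorem AmbaR.snd : AmbaR k (fun p : α × β => p.2) :=
  ⟨fun j => Fin.natAdd _ j, fun p j => by
    rw [amba_e_prod]; exact (Fin.append_right _ _ j).symm⟩

theorem AmbaR.mk {f : α → β} {g : α → γ} (hf : AmbaR k f) (hg : AmbaR k g) :
    AmbaR k (fun a => (f a, g a)) := by
  obtain ⟨σ, hσ⟩ := hf
  obtain ⟨τ, hτ⟩ := hg
  refine ⟨fun j => Fin.addCases (motive := fun _ => Fin (Amb.dim k α)) σ τ j, fun a j => ?_⟩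
  rw [amba_e_prod]
  refine Fin.addCases (fun i => ?_) (fun i => ?_) j
  · beta_reduce; rw [Fin.append_left, Fin.addCases_left]; exact hσ a i
  · beta_reduce; rw [Fin.append_right, Fin.addCases_right]; exact hτ a i

theorem amba_e_pi {n : ℕ} (f : Fin n → α) (j : Fin (n * Amb.dim k α)) :
    Amb.e (k := k) f j =
      Amb.e (k := k) (f (finProdFinEquiv.symm j).1) (finProdFinEquiv.symm j).2 := rfl

theorem AmbaR.eval {n : ℕ} (i : Fin n) : AmbaR k (fun f : Fin n → α => f i) := by
  refine ⟨fun j => finProdFinEquiv (i, j), fun f j => ?_⟩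
  rw [amba_e_pi]
  rw [Equiv.symm_apply_apply]

theorem DP.congr {P Q : α → Prop} (hP : DP k P) (h : ∀ a, P a ↔ Q a) : DP k Q := by
  have : P = Q := funext fun a => propext (h a)
  rwa [← this]
theorem DP.const (p : Prop) : DP k (fun _ : α => p) := by
  by_cases hp : p
  · have h : {x : Fin (Amb.dim k α) → k | p} = Set.univ := by ext; simp [hp]
    show Con k _ {x : Fin (Amb.dim k α) → k | p}
    rw [h]; exact Con.univ
  · have h : {x : Fin (Amb.dim k α) → k | p} = ∅ := by ext; simp [hp]
    show Con k _ {x : Fin (Amb.dim k α) → k | p}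
    rw [h]; exact Con.empty
theorem DP.not {P : α → Prop} (hP : DP k P) : DP k (fun a => ¬ P a) := Con.compl _ hP
theorem DP.and {P Q : α → Prop} (hP : DP k P) (hQ : DP k Q) : DP k (fun a => P a ∧ Q a) :=
  Con.inter _ _ hP hQ
theorem DP.or {P Q : α → Prop} (hP : DP k P) (hQ : DP k Q) : DP k (fun a => P a ∨ Q a) :=
  Con.union hP hQ
theorem DP.imp {P Q : α → Prop} (hP : DP k P) (hQ : DP k Q) : DP k (fun a => P a → Q a) :=
  (hP.not.or hQ).congr fun a => by tauto
theorem DP.iff {P Q : α → Prop} (hP : DP k P) (hQ : DP k Q) : DP k (fun a => P a ↔ Q a) :=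
  ((hP.imp hQ).and (hQ.imp hP)).congr fun a => by tauto

/-- quantifiers over ambient types -/
theorem DP.ex {P : α → β → Prop} (hP : DP k (fun p : α × β => P p.1 p.2)) :
    DP k (fun a => ∃ b, P a b) := by
  have h := amba_ex (k := k) (Amb.dim k α) (Amb.dim k β) hP
  unfold DP
  convert h using 1
  ext x
  have key : ∀ y : Fin (Amb.dim k β) → k,
      (Fin.append x y ∈ {z : Fin (Amb.dim k (α × β)) → k |
        (fun p : α × β => P p.1 p.2) ((Amb.e (k := k) (α := α × β)).symm z)}) ↔
      P ((Amb.e (k := k) (α := α)).symm x) ((Amb.e (k := k) (α := β)).symm y) := by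
    intro y
    have h3 : (Amb.e (k := k) (α := α × β)).symm (Fin.append x y) =
        ((Amb.e (k := k) (α := α)).symm x, (Amb.e (k := k) (α := β)).symm y) := by
      rw [amba_e_prod_symm]
      simp
    show (fun p : α × β => P p.1 p.2)
      ((Amb.e (k := k) (α := α × β)).symm (Fin.append x y)) ↔ _
    rw [h3]
  constructor
  · rintro ⟨b, hb⟩
    refine ⟨Amb.e (k := k) b, (key _).2 ?_⟩
    simpa using hb
  · rintro ⟨y, hy⟩
    exact ⟨(Amb.e (k := k) (α := β)).symm y, (key _).1 hy⟩
theorem DP.all {P : α → β → Prop} (hP : DP k (fun p : α × β => P p.1 p.2)) :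
    DP k (fun a => ∀ b, P a b) := by
  have h : DP k (fun p : α × β => ¬ P p.1 p.2) := hP.not
  exact (DP.ex (P := fun a b => ¬ P a b) h).not.congr fun a => by simp
/-- finite quantifiers -/
theorem DP.fex {ι : Type} [Finite ι] {P : ι → α → Prop} (hP : ∀ i, DP k (P i)) :
    DP k (fun a => ∃ i, P i a) := by
  have h := Con.iUnion hP
  unfold DP
  convert h using 1
  ext x
  simp
theorem DP.fall {ι : Type} [Finite ι] {P : ι → α → Prop} (hP : ∀ i, DP k (P i)) :
    DP k (fun a => ∀ i, P i a) := by
  have h := Con.iInter hP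
  unfold DP
  convert h using 1
  ext x
  simp

/-- substitution of a coordinate map -/
theorem DP.amba_comp {P : β → Prop} (hP : DP k P) {f : α → β} (hf : AmbaR k f) :
    DP k (fun a => P (f a)) := by
  obtain ⟨σ, hσ⟩ := hf
  have h := amba_reidx (k := k) hP σ
  unfold DP
  convert h using 1
  ext x
  simp only [Set.mem_ofPred_eq]
  have : (fun j => x (σ j)) = Amb.e (k := k) (f ((Amb.e (k := k) (α := α)).symm x)) := by
    funext j
    rw [hσ]
    simp
  rw [this]
  simp

/-- The diagonal is definable. -/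
theorem amba_diag : DP k (fun p : β × β => p.2 = p.1) := by
  have h : ∀ j : Fin (Amb.dim k β), Con k (Amb.dim k (β × β))
      {z | MvPolynomial.eval z (MvPolynomial.X (Fin.natAdd (Amb.dim k β) j) -
        MvPolynomial.X (Fin.castAdd (Amb.dim k β) j) :
          MvPolynomial (Fin (Amb.dim k (β × β))) k) = 0} := fun j => Con.zero _
  have h2 := Con.iInter h
  unfold DP
  convert h2 using 1
  ext z
  simp only [Set.mem_ofPred_eq, Set.mem_iInter, amba_e_prod_symm]
  rw [EmbeddingLike.apply_eq_iff_eq, funext_iff]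
  refine forall_congr' fun j => ?_
  rw [map_sub, MvPolynomial.eval_X, MvPolynomial.eval_X, sub_eq_zero]

/-- A coordinate map is definable. -/
theorem AmbaR.df {f : α → β} (hf : AmbaR k f) : DF k f :=
  DP.amba_comp (amba_diag (k := k) (β := β)) (f := fun p : α × β => (f p.1, p.2))
    (AmbaR.mk (AmbaR.comp hf AmbaR.fst) AmbaR.snd)

/-- substitution -/
theorem DP.comp {P : β → Prop} (hP : DP k P) {f : α → β} (hf : DF k f) :
    DP k (fun a => P (f a)) := by
  have h1 : DP k (fun p : α × β => P p.2) := hP.amba_comp AmbaR.snd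
  have h2 : DP k (fun p : α × β => p.2 = f p.1 ∧ P p.2) := DP.and hf h1
  exact (DP.ex (P := fun a b => b = f a ∧ P b) h2).congr fun a => by simp
theorem DP.eq {f g : α → β} (hf : DF k f) (hg : DF k g) : DP k (fun a => f a = g a) := by
  have h2 : DP k (fun p : α × β => p.2 = f p.1 ∧ p.2 = g p.1) := DP.and hf hg
  exact (DP.ex (P := fun a b => b = f a ∧ b = g a) h2).congr fun a => by simp

theorem DF.id : DF k (fun a : α => a) := AmbaR.id.df
theorem DF.const (b : β) : DF k (fun _ : α => b) := by
  have h : ∀ j : Fin (Amb.dim k β), Con k (Amb.dim k (α × β))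
      {z | MvPolynomial.eval z (MvPolynomial.X (Fin.natAdd (Amb.dim k α) j) -
        MvPolynomial.C (Amb.e (k := k) b j) :
          MvPolynomial (Fin (Amb.dim k (α × β))) k) = 0} := fun j => Con.zero _
  have h2 := Con.iInter h
  unfold DF DP
  convert h2 using 1
  ext z
  simp only [Set.mem_ofPred_eq, Set.mem_iInter, amba_e_prod_symm]
  rw [Equiv.symm_apply_eq, funext_iff]
  refine forall_congr' fun j => ?_
  rw [map_sub, MvPolynomial.eval_X, MvPolynomial.eval_C, sub_eq_zero]
theorem DF.comp {g : β → γ} (hg : DF k g) {f : α → β} (hf : DF k f) :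
    DF k (fun a => g (f a)) := by
  have h1 : DP k (fun q : (α × γ) × β => q.2 = f q.1.1) :=
    DP.amba_comp (P := fun p : α × β => p.2 = f p.1) hf
      (f := fun q : (α × γ) × β => (q.1.1, q.2))
      (AmbaR.mk (AmbaR.comp AmbaR.fst AmbaR.fst) AmbaR.snd)
  have h2 : DP k (fun q : (α × γ) × β => q.1.2 = g q.2) :=
    DP.amba_comp (P := fun p : β × γ => p.2 = g p.1) hg
      (f := fun q : (α × γ) × β => (q.2, q.1.2))
      (AmbaR.mk AmbaR.snd (AmbaR.comp AmbaR.snd AmbaR.fst))
  have h3 : DP k (fun q : (α × γ) × β => q.2 = f q.1.1 ∧ q.1.2 = g q.2) := h1.and h2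
  exact (DP.ex (P := fun (p : α × γ) (b : β) => b = f p.1 ∧ p.2 = g b) h3).congr
    fun a => by simp
theorem DF.fst : DF k (fun p : α × β => p.1) := AmbaR.fst.df
theorem DF.snd : DF k (fun p : α × β => p.2) := AmbaR.snd.df
theorem DF.fst' {f : α → β × γ} (hf : DF k f) : DF k (fun a => (f a).1) :=
  DF.comp (g := fun p : β × γ => p.1) DF.fst hf
theorem DF.snd' {f : α → β × γ} (hf : DF k f) : DF k (fun a => (f a).2) :=
  DF.comp (g := fun p : β × γ => p.2) DF.snd hf
theorem DF.mk {f : α → β} {g : α → γ} (hf : DF k f) (hg : DF k g) :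
    DF k (fun a => (f a, g a)) := by
  have h1 : DP k (fun q : α × (β × γ) => q.2.1 = f q.1) :=
    DP.amba_comp (P := fun p : α × β => p.2 = f p.1) hf
      (f := fun q : α × (β × γ) => (q.1, q.2.1))
      (AmbaR.mk AmbaR.fst (AmbaR.comp AmbaR.fst AmbaR.snd))
  have h2 : DP k (fun q : α × (β × γ) => q.2.2 = g q.1) :=
    DP.amba_comp (P := fun p : α × γ => p.2 = g p.1) hg
      (f := fun q : α × (β × γ) => (q.1, q.2.2))
      (AmbaR.mk AmbaR.fst (AmbaR.comp AmbaR.snd AmbaR.snd))
  exact (h1.and h2).congr fun q => by rw [Prod.ext_iff]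
theorem DF.pi {n : ℕ} {f : α → Fin n → β} (hf : ∀ i, DF k (fun a => f a i)) : DF k f := by
  have h1 : ∀ i, DP k (fun q : α × (Fin n → β) => q.2 i = f q.1 i) := fun i =>
    DP.amba_comp (P := fun p : α × β => p.2 = f p.1 i) (hf i)
      (f := fun q : α × (Fin n → β) => (q.1, q.2 i))
      (AmbaR.mk AmbaR.fst (AmbaR.comp (AmbaR.eval i) AmbaR.snd))
  exact (DP.fall h1).congr fun q => by rw [funext_iff]
theorem DF.apply {n : ℕ} {f : α → Fin n → β} (hf : DF k f) (i : Fin n) :
    DF k (fun a => f a i) :=
  DF.comp (g := fun h : Fin n → β => h i) (AmbaR.eval i).df hf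
theorem DF.matrix {m n : ℕ} {f : α → Matrix (Fin m) (Fin n) β}
    (hf : ∀ i j, DF k (fun a => f a i j)) : DF k f :=
  DF.pi (β := Fin n → β) (f := f) fun i => DF.pi fun j => hf i j
theorem DF.entry {m n : ℕ} {f : α → Matrix (Fin m) (Fin n) β} (hf : DF k f) (i : Fin m)
    (j : Fin n) : DF k (fun a => f a i j) :=
  DF.apply (f := fun a => f a i) (DF.apply (β := Fin n → β) (f := f) hf i) j
open Classical in
theorem DF.ite {P : α → Prop} (hP : DP k P) {f g : α → β} (hf : DF k f) (hg : DF k g) :
    DF k (fun a => if P a then f a else g a) := by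
  have h1 : DP k (fun q : α × β => P q.1) := hP.amba_comp AmbaR.fst
  refine ((h1.and hf).or (h1.not.and hg)).congr fun q => ?_
  by_cases h : P q.1 <;> simp [h]
/-- definable functions by their graph -/
theorem DF.of_graph {f : α → β} {R : α → β → Prop} (hR : DP k (fun p : α × β => R p.1 p.2))
    (h : ∀ a b, R a b ↔ b = f a) : DF k f :=
  hR.congr fun p => h p.1 p.2
/-- definable choice under unique existence on a definable set -/
theorem DF.choice [Inhabited β] {s : Set α} (hs : DP k (fun a => a ∈ s)) {R : α → β → Prop}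
    (hR : DP k (fun p : α × β => p.1 ∈ s ∧ R p.1 p.2)) (h : ∀ a ∈ s, ∃! b, R a b) :
    ∃ f : α → β, DF k f ∧ ∀ a ∈ s, R a (f a) := by
  classical
  refine ⟨fun a => if ha : a ∈ s then (h a ha).choose else default, ?_, ?_⟩
  · have h1 : DP k (fun q : α × β => q.1 ∈ s) :=
      DP.amba_comp (P := fun a => a ∈ s) hs AmbaR.fst
    have h2 : DP k (fun q : α × β => q.2 = default) := DF.const default
    refine (hR.or (h1.not.and h2)).congr fun q => ?_
    by_cases hq : q.1 ∈ s
    · simp only [hq, true_and, not_true_eq_false, false_and, or_false, dif_pos]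
      constructor
      · intro hr
        exact (h q.1 hq).choose_spec.2 _ hr
      · intro hr
        rw [hr]
        exact (h q.1 hq).choose_spec.1
    · simp [hq]
  · intro a ha
    simp only [ha, dif_pos]
    exact (h a ha).choose_spec.1
theorem DF.congr {f g : α → β} (hf : DF k f) (h : ∀ a, f a = g a) : DF k g := by
  have : f = g := funext h
  rwa [← this]
/-- for predicates on `k ^ n` definable = constructible -/
theorem dp_pi_iff {n : ℕ} {P : (Fin n → k) → Prop} : DP k P ↔ Con k n {x | P x} := by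
  let d : ℕ := @Amb.dim k inferInstance k _
  have hd : d = 1 := rfl
  let z : Fin d := ⟨0, by rw [hd]; exact Nat.one_pos⟩
  have he : ∀ (x : Fin n → k) (j : Fin (n * d)),
      (Amb.e (k := k) x : Fin (n * d) → k) j = x (finProdFinEquiv.symm j).1 := fun x j => rfl
  constructor
  · intro h
    have h2 := amba_reidx (k := k) (n := n) (show Con k (n * d) _ from h)
      (fun j => (finProdFinEquiv.symm j).1)
    convert h2 using 1
    ext x
    simp only [Set.mem_ofPred_eq]
    have : (fun j : Fin (n * d) => x (finProdFinEquiv.symm j).1) =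
      Amb.e (k := k) x := by funext j; rfl
    rw [this]
    exact (by rw [Equiv.symm_apply_apply] :
      P x ↔ P ((Amb.e (k := k) (α := Fin n → k)).symm (Amb.e (k := k) x)))
  · intro h
    have h2 := amba_reidx (k := k) (n := n * d) h
      (fun i => finProdFinEquiv (i, z))
    show Con k (n * d) _
    convert h2 using 1
    ext x
    simp only [Set.mem_ofPred_eq]
    have : (fun j : Fin n => x (finProdFinEquiv (j, z))) =
      (Amb.e (k := k) (α := Fin n → k)).symm x := by
      funext j
      have h3 := he ((Amb.e (k := k) (α := Fin n → k)).symm x) (finProdFinEquiv (j, z))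
      rw [Equiv.symm_apply_apply] at h3
      rw [← h3]
      exact (congrFun (Equiv.apply_symm_apply (Amb.e (k := k) (α := Fin n → k)) x) _).symm
    show _ ↔ P (fun j : Fin n => x (finProdFinEquiv (j, z)))
    rw [this]

end Pool.Agent.MRat
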