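import Pool.Agent.Lib.MP_923aff_ag.AmbA
/-!
# JOB AMBB: arithmetic of definable functions
-/

set_option autoImplicit false

namespace Pool.Agent.MRat

variable {k : Type} [Field k] [IsAlgClosed k] [CharZero k]
variable {α β γ δ : Type} [Amb k α] [Amb k β] [Amb k γ] [Amb k δ]

/-- A relation between finitely many definable `k`-valued functions given by a polynomial. -/
theorem ambb_poly {n : ℕ} (p : MvPolynomial (Fin n) k) {f : α → Fin n → k}
    (hf : ∀ i, DF k (fun a => f a i)) : DP k (fun a => MvPolynomial.eval (f a) p = 0) := by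
  have h1 : DP k (fun v : Fin n → k => MvPolynomial.eval v p = 0) :=
    dp_pi_iff.2 (Con.zero p)
  exact h1.comp (DF.pi hf)

theorem ambb_add : DF k (fun p : k × k => p.1 + p.2) := by
  have h := ambb_poly (k := k) (α := (k × k) × k)
    (MvPolynomial.X 2 - MvPolynomial.X 0 - MvPolynomial.X 1 : MvPolynomial (Fin 3) k)
    (f := fun p => ![p.1.1, p.1.2, p.2]) (by
      intro i
      fin_cases i
      · exact DF.fst' DF.fst
      · exact DF.snd' DF.fst
      · exact DF.snd)
  refine h.congr fun p => ?_
  simp only [map_sub, MvPolynomial.eval_X]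
  constructor
  · intro h
    have h' : p.2 - p.1.1 - p.1.2 = 0 := h
    linear_combination h'
  · intro h
    show p.2 - p.1.1 - p.1.2 = 0
    linear_combination h

theorem ambb_mul : DF k (fun p : k × k => p.1 * p.2) := by
  have h := ambb_poly (k := k) (α := (k × k) × k)
    (MvPolynomial.X 2 - MvPolynomial.X 0 * MvPolynomial.X 1 : MvPolynomial (Fin 3) k)
    (f := fun p => ![p.1.1, p.1.2, p.2]) (by
      intro i
      fin_cases i
      · exact DF.fst' DF.fst
      · exact DF.snd' DF.fst
      · exact DF.snd)
  refine h.congr fun p => ?_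
  simp only [map_sub, map_mul, MvPolynomial.eval_X]
  constructor
  · intro h
    have h' : p.2 - p.1.1 * p.1.2 = 0 := h
    linear_combination h'
  · intro h
    show p.2 - p.1.1 * p.1.2 = 0
    linear_combination h

theorem DF.add {f g : α → k} (hf : DF k f) (hg : DF k g) : DF k (fun a => f a + g a) :=
  ambb_add.comp (hf.mk hg)

theorem DF.mul {f g : α → k} (hf : DF k f) (hg : DF k g) : DF k (fun a => f a * g a) :=
  ambb_mul.comp (hf.mk hg)

theorem DF.neg {f : α → k} (hf : DF k f) : DF k (fun a => - f a) := by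
  have h : DF k (fun a => (-1 : k) * f a) := DF.mul (DF.const (-1 : k)) hf
  exact h.congr fun a => by ring

theorem DF.sub {f g : α → k} (hf : DF k f) (hg : DF k g) : DF k (fun a => f a - g a) := by
  have h := hf.add hg.neg
  exact h.congr fun a => by ring

theorem ambb_inv : DF k (fun x : k => x⁻¹) := by
  have h1 : DP k (fun p : k × k => p.1 = 0) := DP.eq DF.fst (DF.const (0 : k))
  have h2 : DP k (fun p : k × k => p.2 = 0) := DP.eq DF.snd (DF.const (0 : k))
  have h3 : DP k (fun p : k × k => p.1 * p.2 = 1) :=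
    DP.eq (DF.mul DF.fst DF.snd) (DF.const (1 : k))
  refine ((h1.not.and h3).or (h1.and h2)).congr fun p => ?_
  constructor
  · rintro (⟨_, h⟩ | ⟨h, h'⟩)
    · exact eq_inv_of_mul_eq_one_right h
    · show p.2 = p.1⁻¹
      rw [h, h', inv_zero]
  · intro h
    have h' : p.2 = p.1⁻¹ := h
    by_cases h0 : p.1 = 0
    · right
      refine ⟨h0, ?_⟩
      rw [h', h0, inv_zero]
    · left
      exact ⟨h0, by rw [h', mul_inv_cancel₀ h0]⟩

theorem DF.inv {f : α → k} (hf : DF k f) : DF k (fun a => (f a)⁻¹) :=
  ambb_inv.comp hf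

theorem DF.div {f g : α → k} (hf : DF k f) (hg : DF k g) : DF k (fun a => f a / g a) :=
  (hf.mul hg.inv).congr fun _ => (div_eq_mul_inv _ _).symm

theorem DF.pow {f : α → k} (hf : DF k f) (n : ℕ) : DF k (fun a => f a ^ n) := by
  induction n with
  | zero => exact (DF.const (1 : k)).congr fun a => (pow_zero _).symm
  | succ n ih => exact (ih.mul hf).congr fun a => (pow_succ _ _).symm

theorem DF.zpow {f : α → k} (hf : DF k f) (n : ℤ) : DF k (fun a => f a ^ n) := by
  cases n with
  | ofNat n => exact (hf.pow n).congr fun a => (zpow_natCast _ _).symm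
  | negSucc n => exact (hf.pow (n + 1)).inv.congr fun a => (zpow_negSucc _ _).symm

theorem DF.sum {ι : Type} (t : Finset ι) {f : ι → α → k} (hf : ∀ i ∈ t, DF k (f i)) :
    DF k (fun a => ∑ i ∈ t, f i a) := by
  classical
  induction t using Finset.induction_on with
  | empty => exact (DF.const (0 : k)).congr fun a => by simp
  | insert i t hi ih =>
    have h1 := hf i (Finset.mem_insert_self _ _)
    have h2 := ih fun j hj => hf j (Finset.mem_insert_of_mem hj)
    exact (h1.add h2).congr fun a => by rw [Finset.sum_insert hi]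

theorem DF.prod {ι : Type} (t : Finset ι) {f : ι → α → k} (hf : ∀ i ∈ t, DF k (f i)) :
    DF k (fun a => ∏ i ∈ t, f i a) := by
  classical
  induction t using Finset.induction_on with
  | empty => exact (DF.const (1 : k)).congr fun a => by simp
  | insert i t hi ih =>
    have h1 := hf i (Finset.mem_insert_self _ _)
    have h2 := ih fun j hj => hf j (Finset.mem_insert_of_mem hj)
    exact (h1.mul h2).congr fun a => by rw [Finset.prod_insert hi]

theorem DF.det {n : ℕ} {f : α → Matrix (Fin n) (Fin n) k} (hf : DF k f) :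
    DF k (fun a => (f a).det) := by
  have h : DF k (fun a => ∑ σ : Equiv.Perm (Fin n),
      (((Equiv.Perm.sign σ : ℤˣ) : ℤ) : k) * ∏ i, f a (σ i) i) := by
    refine DF.sum _ fun σ _ => ?_
    refine DF.mul (DF.const _) ?_
    exact DF.prod _ fun i _ => hf.entry (σ i) i
  exact h.congr fun a => (Matrix.det_apply' _).symm

theorem DF.mmul {l m n : ℕ} {f : α → Matrix (Fin l) (Fin m) k} {g : α → Matrix (Fin m) (Fin n) k}
    (hf : DF k f) (hg : DF k g) : DF k (fun a => f a * g a) := by
  refine DF.matrix fun i j => ?_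
  have h : DF k (fun a => ∑ t : Fin m, f a i t * g a t j) :=
    DF.sum _ fun t _ => (hf.entry i t).mul (hg.entry t j)
  exact h.congr fun a => (Matrix.mul_apply).symm

theorem DF.mulVec {m n : ℕ} {f : α → Matrix (Fin m) (Fin n) k} {g : α → Fin n → k}
    (hf : DF k f) (hg : DF k g) : DF k (fun a => (f a).mulVec (g a)) := by
  refine DF.pi fun i => ?_
  have h : DF k (fun a => ∑ t : Fin n, f a i t * g a t) :=
    DF.sum _ fun t _ => (hf.entry i t).mul (hg.apply t)
  exact h.congr fun a => rfl

theorem DF.minv {n : ℕ} {f : α → Matrix (Fin n) (Fin n) k} (hf : DF k f) :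
    DF k (fun a => (f a)⁻¹) := by
  refine DF.matrix fun i j => ?_
  have h1 : DF k (fun a => ((f a).updateRow j (Pi.single i 1)).det) := by
    refine DF.det (DF.matrix fun i' j' => ?_)
    by_cases h : i' = j
    · subst h
      refine (DF.const (Pi.single (M := fun _ => k) i (1 : k) j')).congr fun a => ?_
      rw [Matrix.updateRow_self]
    · refine (hf.entry i' j').congr fun a => ?_
      rw [Matrix.updateRow_ne h]
  refine (hf.det.inv.mul h1).congr fun a => ?_
  rw [Matrix.inv_def, Ring.inverse_eq_inv', Matrix.smul_apply, smul_eq_mul, Matrix.adjugate_apply]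

end Pool.Agent.MRat
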