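import Pool.Agent.Lib.MP_923aff_ag.AmbB
/-!
# JOB AMBC: finiteness in definable families

`uniform_finite` is `Con.uniform` (ConC) transported to ambient types. `bounded_card`,
`DP.ncard_eq`, `DP.finite` for a general ambient type: work with the coordinates (a subset of
`k ^ n` is finite iff its `n` coordinate projections are finite; its cardinality is at most the product).
(exactly `m` elements) = there are pairwise different `b₁ .. b_m` in the fibre which exhaust it
(quantify over the ambient type `Fin m → β`).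
-/

set_option autoImplicit false

namespace Pool.Agent.MRat

variable {k : Type} [Field k] [IsAlgClosed k] [CharZero k]
variable {α β γ δ : Type} [Amb k α] [Amb k β] [Amb k γ] [Amb k δ]

omit [IsAlgClosed k] [CharZero k] in
/-- coordinates of a point of `α × k` -/
theorem ambC_prod_symm (x : Fin (Amb.dim k α + 1) → k) :
    (Amb.e (k := k) (α := α × k)).symm x
      = ((Amb.e (k := k) (α := α)).symm (fun i => x (Fin.castSucc i)), x (Fin.last _)) := by
  rfl

omit [IsAlgClosed k] [CharZero k] in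
/-- a coordinate is a definable function -/
theorem ambC_coord (j : Fin (Amb.dim k β)) : DF k (fun b : β => Amb.e (k := k) b j) := by
  change Con k (Amb.dim k β + 1) _
  have h := Con.zero (k := k) (n := Amb.dim k β + 1)
    (MvPolynomial.X (Fin.last _) - MvPolynomial.X (Fin.castSucc j))
  convert h using 1
  ext x
  change ((fun p : β × k => p.2 = Amb.e (k := k) p.1 j)
    ((Amb.e (k := k) (α := β × k)).symm x)) ↔ _
  rw [ambC_prod_symm]
  simp only [Equiv.apply_symm_apply, map_sub, MvPolynomial.eval_X, sub_eq_zero]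
  exact Iff.rfl

/-- Uniform finiteness: a definable family of subsets of `k`. -/
theorem uniform_finite {R : α → k → Prop} (hR : DP k (fun p : α × k => R p.1 p.2)) :
    ∃ N : ℕ, ∀ a, ({y | R a y}.Finite ∧ {y | R a y}.ncard ≤ N) ∨
      ({y | ¬ R a y}.Finite ∧ {y | ¬ R a y}.ncard ≤ N) := by
  have hS : Con k (Amb.dim k α + 1) {x : Fin (Amb.dim k α + 1) → k |
      R ((Amb.e (k := k) (α := α)).symm (fun i => x (Fin.castSucc i))) (x (Fin.last _))} := hR
  obtain ⟨N, hN⟩ := Con.uniform hS
  refine ⟨N, fun a => ?_⟩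
  have h := hN (Amb.e (k := k) a)
  have e : ∀ y, ((Fin.snoc (Amb.e (k := k) a) y : Fin (Amb.dim k α + 1) → k) ∈
      {x : Fin (Amb.dim k α + 1) → k |
      R ((Amb.e (k := k) (α := α)).symm (fun i => x (Fin.castSucc i))) (x (Fin.last _))})
      ↔ R a y := by
    intro y
    rw [Set.mem_ofPred_eq]
    simp only [Fin.snoc_castSucc, Fin.snoc_last]
    rw [show (fun i => Amb.e (k := k) a i) = Amb.e (k := k) a from rfl, Equiv.symm_apply_apply]
  simp only [e] at h
  exact h

/-- the projections of a family to the coordinates -/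
theorem ambC_proj {R : α → β → Prop} (hR : DP k (fun p : α × β => R p.1 p.2))
    (j : Fin (Amb.dim k β)) :
    DP k (fun p : α × k => ∃ b, R p.1 b ∧ Amb.e (k := k) b j = p.2) := by
  refine DP.ex (P := fun (p : α × k) (b : β) => R p.1 b ∧ Amb.e (k := k) b j = p.2) ?_
  refine DP.and ?_ ?_
  · exact DP.comp (P := fun q : α × β => R q.1 q.2) hR
      (f := fun q : (α × k) × β => (q.1.1, q.2)) (DF.mk (DF.fst' DF.fst) DF.snd)
  · exact DP.eq (DF.comp (ambC_coord j) DF.snd) (DF.snd' DF.fst)

/-- a uniform bound for the coordinate projections, when they are finite -/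
theorem ambC_bound {R : α → β → Prop} (hR : DP k (fun p : α × β => R p.1 p.2)) :
    ∃ N : ℕ, ∀ a, ∀ j : Fin (Amb.dim k β), {y | ∃ b, R a b ∧ Amb.e (k := k) b j = y}.Finite →
      {y | ∃ b, R a b ∧ Amb.e (k := k) b j = y}.ncard ≤ N := by
  classical
  have h := fun j : Fin (Amb.dim k β) => uniform_finite
    (R := fun a y => ∃ b, R a b ∧ Amb.e (k := k) b j = y) (ambC_proj hR j)
  choose N hN using h
  refine ⟨∑ j, N j, fun a j hfin => ?_⟩
  have hle : N j ≤ ∑ j, N j := Finset.single_le_sum (fun _ _ => Nat.zero_le _) (Finset.mem_univ j)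
  rcases hN j a with h | h
  · exact h.2.trans hle
  · exfalso
    have hinf : Infinite k := IsAlgClosed.instInfinite
    refine Set.infinite_univ (α := k) ?_
    have : (Set.univ : Set k) = {y | ∃ b, R a b ∧ Amb.e (k := k) b j = y} ∪
        {y | ¬ ∃ b, R a b ∧ Amb.e (k := k) b j = y} := by
      ext y
      simp only [Set.mem_univ, Set.mem_union, Set.mem_ofPred_eq, true_iff]
      exact em _
    rw [this]
    exact hfin.union h.1

omit [IsAlgClosed k] [CharZero k] [Amb k α] in
theorem ambC_proj_eq {R : α → β → Prop} (a : α) (j : Fin (Amb.dim k β)) :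
    {y | ∃ b, R a b ∧ Amb.e (k := k) b j = y} = (fun b => Amb.e (k := k) b j) '' {b | R a b} := rfl

omit [IsAlgClosed k] [CharZero k] in
/-- a set is finite and small when its coordinate projections are -/
theorem ambC_card {S : Set β} {N : ℕ}
    (hfin : ∀ j : Fin (Amb.dim k β), ((fun b => Amb.e (k := k) b j) '' S).Finite)
    (hN : ∀ j : Fin (Amb.dim k β), ((fun b => Amb.e (k := k) b j) '' S).ncard ≤ N) :
    S.Finite ∧ S.ncard ≤ N ^ Amb.dim k β := by
  classical
  set T : Finset (Fin (Amb.dim k β) → k) := Fintype.piFinset fun j => (hfin j).toFinset with hT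
  have hmaps : ∀ b ∈ S, Amb.e (k := k) b ∈ (T : Set (Fin (Amb.dim k β) → k)) := by
    intro b hb
    rw [Finset.mem_coe, hT, Fintype.mem_piFinset]
    intro j
    rw [Set.Finite.mem_toFinset]
    exact ⟨b, hb, rfl⟩
  have hinj : Set.InjOn (Amb.e (k := k) (α := β)) S := (Amb.e (k := k) (α := β)).injective.injOn
  have himg : (Amb.e (k := k) (α := β)) '' S ⊆ (T : Set (Fin (Amb.dim k β) → k)) := by
    rintro _ ⟨b, hb, rfl⟩
    exact hmaps b hb
  have hfinS : S.Finite :=
    Set.Finite.of_finite_image (T.finite_toSet.subset himg) hinj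
  refine ⟨hfinS, ?_⟩
  have h1 : S.ncard ≤ (T : Set (Fin (Amb.dim k β) → k)).ncard := by
    rw [← hinj.ncard_image]
    exact Set.ncard_le_ncard himg T.finite_toSet
  refine h1.trans ?_
  rw [Set.ncard_coe_finset, hT, Fintype.card_piFinset]
  calc ∏ j, (hfin j).toFinset.card ≤ ∏ _j : Fin (Amb.dim k β), N := by
        refine Finset.prod_le_prod' fun j _ => ?_
        rw [← Set.ncard_eq_toFinset_card _ (hfin j)]
        exact hN j
    _ = N ^ Amb.dim k β := by simp

/-- A definable family of finite sets has bounded cardinality. -/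
theorem bounded_card {s : Set α} (hs : DP k (fun a => a ∈ s)) {R : α → β → Prop}
    (hR : DP k (fun p : α × β => p.1 ∈ s ∧ R p.1 p.2)) (hfin : ∀ a ∈ s, {b | R a b}.Finite) :
    ∃ N : ℕ, ∀ a ∈ s, {b | R a b}.ncard ≤ N := by
  obtain ⟨N, hN⟩ := ambC_bound (R := fun a b => a ∈ s ∧ R a b) hR
  refine ⟨N ^ Amb.dim k β, fun a ha => ?_⟩
  have e : {b | a ∈ s ∧ R a b} = {b | R a b} := by
    ext b; simp [ha]
  have hf : ∀ j : Fin (Amb.dim k β),
      ((fun b => Amb.e (k := k) b j) '' {b | a ∈ s ∧ R a b}).Finite := by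
    intro j
    rw [e]
    exact (hfin a ha).image _
  have h := ambC_card (k := k) (S := {b | a ∈ s ∧ R a b}) hf (fun j => hN a j (hf j))
  rw [e] at h
  exact h.2

/-- The sets where a definable family of finite sets has exactly `m` elements are definable. -/
theorem DP.ncard_eq {s : Set α} (hs : DP k (fun a => a ∈ s)) {R : α → β → Prop}
    (hR : DP k (fun p : α × β => p.1 ∈ s ∧ R p.1 p.2)) (hfin : ∀ a ∈ s, {b | R a b}.Finite)
    (m : ℕ) : DP k (fun a => a ∈ s ∧ {b | R a b}.ncard = m) := by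
  have hR' : DP k (fun p : α × β => p.1 ∈ s ∧ R p.1 p.2) := hR
  have h1 : DP k (fun q : α × (Fin m → β) => (∀ i, q.1 ∈ s ∧ R q.1 (q.2 i)) ∧
      (∀ i j : Fin m, i ≠ j → ¬ q.2 i = q.2 j) ∧
      ∀ b, (q.1 ∈ s ∧ R q.1 b) → ∃ i, b = q.2 i) := by
    refine DP.and ?_ (DP.and ?_ ?_)
    · refine DP.fall fun i => ?_
      exact DP.comp (P := fun p : α × β => p.1 ∈ s ∧ R p.1 p.2) hR'
        (f := fun q : α × (Fin m → β) => (q.1, q.2 i)) (DF.mk DF.fst (DF.apply DF.snd i))
    · refine DP.fall fun i => DP.fall fun j => ?_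
      exact DP.imp (DP.const _) (DP.not (DP.eq (DF.apply DF.snd i) (DF.apply DF.snd j)))
    · refine DP.all (P := fun (q : α × (Fin m → β)) (b : β) =>
        (q.1 ∈ s ∧ R q.1 b) → ∃ i, b = q.2 i) ?_
      refine DP.imp ?_ ?_
      · exact DP.comp (P := fun p : α × β => p.1 ∈ s ∧ R p.1 p.2) hR'
          (f := fun q : (α × (Fin m → β)) × β => (q.1.1, q.2)) (DF.mk (DF.fst' DF.fst) DF.snd)
      · refine DP.fex fun i => ?_
        exact DP.eq DF.snd (DF.apply (DF.snd' DF.fst) i)
  have h2 := DP.ex (P := fun (a : α) (c : Fin m → β) => (∀ i, a ∈ s ∧ R a (c i)) ∧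
      (∀ i j : Fin m, i ≠ j → ¬ c i = c j) ∧ ∀ b, (a ∈ s ∧ R a b) → ∃ i, b = c i) h1
  refine DP.congr (DP.and hs h2) fun a => ?_
  refine and_congr_right fun ha => ?_
  constructor
  · rintro ⟨c, hc1, hc2, hc3⟩
    have hset : {b | R a b} = Set.range c := by
      ext b
      constructor
      · intro hb
        obtain ⟨i, hi⟩ := hc3 b ⟨ha, hb⟩
        exact ⟨i, hi.symm⟩
      · rintro ⟨i, rfl⟩
        exact (hc1 i).2
    have hinj : Function.Injective c := by
      intro i j hij
      by_contra hne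
      exact hc2 i j hne hij
    rw [hset, ← Set.image_univ, Set.ncard_image_of_injective _ hinj, Set.ncard_univ]
    simp
  · intro hm
    have hf := hfin a ha
    have hcard : hf.toFinset.card = m := by
      rw [← Set.ncard_eq_toFinset_card _ hf]; exact hm
    let eqv := hf.toFinset.equivFinOfCardEq hcard
    refine ⟨fun i => (eqv.symm i : β), fun i => ⟨ha, ?_⟩, fun i j hij h => hij ?_, ?_⟩
    · have := (eqv.symm i).2
      rw [Set.Finite.mem_toFinset] at this
      exact this
    · exact eqv.symm.injective (Subtype.ext h)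
    · rintro b ⟨-, hb⟩
      have hb' : b ∈ hf.toFinset := by
        rw [Set.Finite.mem_toFinset]; exact hb
      exact ⟨eqv ⟨b, hb'⟩, by simp⟩

/-- Finiteness is definable. -/
theorem DP.finite {R : α → β → Prop} (hR : DP k (fun p : α × β => R p.1 p.2)) :
    DP k (fun a => {b | R a b}.Finite) := by
  classical
  obtain ⟨N, hN⟩ := ambC_bound hR
  have hinf : Infinite k := IsAlgClosed.instInfinite
  have h1 : ∀ j : Fin (Amb.dim k β), DP k (fun a : α => ∃ c : Fin N → k,
      ∀ y, (∃ b, R a b ∧ Amb.e (k := k) b j = y) → ∃ i, y = c i) := by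
    intro j
    refine DP.ex (P := fun (a : α) (c : Fin N → k) =>
      ∀ y, (∃ b, R a b ∧ Amb.e (k := k) b j = y) → ∃ i, y = c i) ?_
    refine DP.all (P := fun (q : α × (Fin N → k)) (y : k) =>
      (∃ b, R q.1 b ∧ Amb.e (k := k) b j = y) → ∃ i, y = q.2 i) ?_
    refine DP.imp ?_ ?_
    · exact DP.comp (P := fun p : α × k => ∃ b, R p.1 b ∧ Amb.e (k := k) b j = p.2)
        (ambC_proj hR j) (f := fun q : (α × (Fin N → k)) × k => (q.1.1, q.2))
        (DF.mk (DF.fst' DF.fst) DF.snd)
    · refine DP.fex fun i => ?_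
      exact DP.eq DF.snd (DF.apply (DF.snd' DF.fst) i)
  refine DP.congr (DP.fall h1) fun a => ?_
  constructor
  · intro h
    have hf : ∀ j : Fin (Amb.dim k β), ((fun b => Amb.e (k := k) b j) '' {b | R a b}).Finite := by
      intro j
      obtain ⟨c, hc⟩ := h j
      refine (Set.finite_range c).subset ?_
      rintro y ⟨b, hb, rfl⟩
      obtain ⟨i, hi⟩ := hc _ ⟨b, hb, rfl⟩
      exact ⟨i, hi.symm⟩
    exact (ambC_card (k := k) hf (fun j => hN a j (hf j))).1
  · intro hfin j
    have hf : ((fun b => Amb.e (k := k) b j) '' {b | R a b}).Finite := hfin.image _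
    have hcard : hf.toFinset.card ≤ N := by
      rw [← Set.ncard_eq_toFinset_card _ hf]
      exact hN a j hf
    obtain ⟨T, hT1, hT2⟩ := Infinite.exists_superset_card_eq hf.toFinset N hcard
    let eqv := T.equivFinOfCardEq hT2
    refine ⟨fun i => (eqv.symm i : k), ?_⟩
    rintro y ⟨b, hb, rfl⟩
    have hy : Amb.e (k := k) b j ∈ T := hT1 (by
      rw [Set.Finite.mem_toFinset]
      exact ⟨b, hb, rfl⟩)
    exact ⟨eqv ⟨_, hy⟩, by simp⟩

end Pool.Agent.MRat
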