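import Pool.Agent.Lib.MP_923aff_ag.AmbC
/-!
# JOB AMBD: canonical finite multisections

For `β = k`: `R' a b` iff (`{b | R a b}` is finite and `R a b`) or (it is infinite and `b` is the least
natural number `j` (cast to `k`) with `R a j`; this `j` is at most the bound `N` of `uniform_finite`).
For `β = k ^ n` by induction on `n`: for `S ⊆ α × (k × k ^ n)` first choose `P' ⊆` the projection to
`α × k`, restrict `S` to it, then apply the induction hypothesis over `α × k`. The choice depends only on the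
set `{b | R a b}`. Transport to a general ambient type along the definable bijection `Amb.e`.
-/

set_option autoImplicit false
set_option linter.unusedSectionVars false

namespace Pool.Agent.MRat

variable {k : Type} [Field k] [IsAlgClosed k] [CharZero k]
variable {α β γ δ : Type} [Amb k α] [Amb k β] [Amb k γ] [Amb k δ]

/-- canonical finite multisections exist for families of subsets of `β` -/
def AmbD_MS (k : Type) [Field k] (β : Type) [Amb k β] : Prop :=
  ∀ (α : Type) [Amb k α] (R : α → β → Prop), DP k (fun p : α × β => R p.1 p.2) →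
    ∃ (R' : α → β → Prop) (N : ℕ), DP k (fun p : α × β => R' p.1 p.2) ∧
      (∀ a b, R' a b → R a b) ∧ (∀ a, (∃ b, R a b) → ∃ b, R' a b) ∧
      (∀ a, {b | R' a b}.Finite ∧ {b | R' a b}.ncard ≤ N) ∧
      (∀ a a', (∀ b, R a b ↔ R a' b) → ∀ b, R' a b ↔ R' a' b)

/-- The coordinate functions of an ambient type are definable. -/
theorem AmbD_df_coord (i : Fin (Amb.dim k β)) :
    DF k (fun b : β => (Amb.e (k := k) (α := β) b) i) := by
  have h : Con k (Amb.dim k β + 1) {x | MvPolynomial.eval x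
      (MvPolynomial.X (Fin.natAdd (Amb.dim k β) (0 : Fin 1)) -
        MvPolynomial.X (Fin.castAdd 1 i) : MvPolynomial (Fin (Amb.dim k β + 1)) k) = 0} :=
    Con.zero _
  have h2 : {x : Fin (Amb.dim k β + 1) → k | MvPolynomial.eval x
      (MvPolynomial.X (Fin.natAdd (Amb.dim k β) (0 : Fin 1)) -
        MvPolynomial.X (Fin.castAdd 1 i) : MvPolynomial (Fin (Amb.dim k β + 1)) k) = 0}
      = {x | x (Fin.natAdd (Amb.dim k β) (0 : Fin 1)) =
        (Amb.e (k := k) (α := β) ((Amb.e (k := k) (α := β)).symm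
          (fun j => x (Fin.castAdd 1 j)))) i} := by
    ext x
    simp [sub_eq_zero]
  rw [h2] at h
  exact h

theorem AmbD_df_e : DF k (fun b : β => (Amb.e (k := k) (α := β) b)) :=
  DF.pi fun i => AmbD_df_coord i

theorem AmbD_df_e_symm :
    DF k (fun x : Fin (Amb.dim k β) → k => (Amb.e (k := k) (α := β)).symm x) := by
  refine DF.of_graph (R := fun x b => x = Amb.e (k := k) (α := β) b) ?_ ?_
  · exact DP.eq DF.fst (DF.comp AmbD_df_e DF.snd)
  · intro x b
    rw [Equiv.eq_symm_apply]
    exact eq_comm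

theorem AmbD_MS_k : AmbD_MS k k := by
  classical
  intro α _ R hR
  obtain ⟨N, hN⟩ := uniform_finite hR
  have hinf : ∀ a, {y | R a y}.Finite → ¬ {y | ¬ R a y}.Finite := by
    intro a h1 h2
    have : (Set.univ : Set k).Finite := by
      refine (h1.union h2).subset ?_
      intro y _
      by_cases hy : R a y
      · exact Or.inl hy
      · exact Or.inr hy
    exact Set.infinite_univ this
  refine ⟨fun a b => ({y | R a y}.Finite ∧ R a b) ∨
    (¬ {y | R a y}.Finite ∧ ∃ j : Fin (N + 1), b = ((j : ℕ) : k) ∧ R a ((j : ℕ) : k) ∧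
      ∀ i : Fin (N + 1), i < j → ¬ R a ((i : ℕ) : k)), N + 1, ?_, ?_, ?_, ?_, ?_⟩
  · have hRj : ∀ j : Fin (N + 1), DP k (fun p : α × k => R p.1 ((j : ℕ) : k)) := fun j =>
      DP.comp hR (DF.mk DF.fst (DF.const _))
    have hf : DP k (fun p : α × k => {y | R p.1 y}.Finite) :=
      DP.comp (DP.finite hR) DF.fst
    refine DP.or (DP.and hf hR) (DP.and (DP.not hf) (DP.fex fun j => ?_))
    refine DP.and (DP.eq DF.snd (DF.const _)) (DP.and (hRj j) (DP.fall fun i => ?_))
    exact DP.imp (DP.const _) (DP.not (hRj i))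
  · rintro a b (⟨_, h⟩ | ⟨_, j, rfl, h, _⟩)
    · exact h
    · exact h
  · rintro a ⟨b, hb⟩
    by_cases hfin : {y | R a y}.Finite
    · exact ⟨b, Or.inl ⟨hfin, hb⟩⟩
    · -- some natural number at most N is in the fibre
      have hc := (hN a).resolve_left fun h => hfin h.1
      have hex : ∃ j : Fin (N + 1), R a ((j : ℕ) : k) := by
        by_contra hcon
        push Not at hcon
        have hsub : Set.range (fun j : Fin (N + 1) => ((j : ℕ) : k)) ⊆ {y | ¬ R a y} := by
          rintro _ ⟨j, rfl⟩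
          exact hcon j
        have hle := Set.ncard_le_ncard hsub hc.1
        have hinj : Function.Injective (fun j : Fin (N + 1) => ((j : ℕ) : k)) := by
          intro i j hij
          exact Fin.ext (Nat.cast_injective hij)
        rw [← Set.image_univ, Set.ncard_image_of_injective _ hinj, Set.ncard_univ,
          Nat.card_fin] at hle
        have := hc.2
        omega
      obtain ⟨j, hj, hmin⟩ := (wellFounded_lt : WellFounded
        ((· < ·) : Fin (N + 1) → Fin (N + 1) → Prop)).has_min {j | R a ((j : ℕ) : k)} hex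
      exact ⟨_, Or.inr ⟨hfin, j, rfl, hj, fun i hi hR => hmin i hR hi⟩⟩
  · intro a
    by_cases hfin : {y | R a y}.Finite
    · have hsub : {b | ({y | R a y}.Finite ∧ R a b) ∨
          (¬ {y | R a y}.Finite ∧ ∃ j : Fin (N + 1), b = ((j : ℕ) : k) ∧ R a ((j : ℕ) : k) ∧
          ∀ i : Fin (N + 1), i < j → ¬ R a ((i : ℕ) : k))} ⊆ {y | R a y} := by
        rintro b (⟨_, h⟩ | ⟨h, _⟩)
        · exact h
        · exact absurd hfin h
      refine ⟨hfin.subset hsub, (Set.ncard_le_ncard hsub hfin).trans ?_⟩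
      rcases hN a with h | h
      · exact h.2.trans (Nat.le_succ _)
      · exact absurd h.1 (hinf a hfin)
    · have hsub : {b | ({y | R a y}.Finite ∧ R a b) ∨
          (¬ {y | R a y}.Finite ∧ ∃ j : Fin (N + 1), b = ((j : ℕ) : k) ∧ R a ((j : ℕ) : k) ∧
          ∀ i : Fin (N + 1), i < j → ¬ R a ((i : ℕ) : k))}
          ⊆ (fun j : Fin (N + 1) => ((j : ℕ) : k)) '' Set.univ := by
        rintro b (⟨h, _⟩ | ⟨_, j, rfl, _⟩)
        · exact absurd h hfin
        · exact ⟨j, trivial, rfl⟩
      have hfi : ((fun j : Fin (N + 1) => ((j : ℕ) : k)) '' Set.univ).Finite :=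
        Set.toFinite _
      refine ⟨hfi.subset hsub, (Set.ncard_le_ncard hsub hfi).trans ?_⟩
      refine (Set.ncard_image_le (Set.toFinite _)).trans ?_
      rw [Set.ncard_univ, Nat.card_fin]
  · intro a a' h b
    have : R a = R a' := funext fun b => propext (h b)
    simp only [this]

theorem AmbD_MS_prod (hβ : AmbD_MS k β) (hγ : AmbD_MS k γ) : AmbD_MS k (β × γ) := by
  classical
  intro α _ R hR
  have hP : DP k (fun p : α × β => ∃ c : γ, R p.1 (p.2, c)) := by
    refine DP.ex (P := fun (p : α × β) (c : γ) => R p.1 (p.2, c)) ?_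
    exact DP.comp hR (f := fun q : (α × β) × γ => (q.1.1, (q.1.2, q.2)))
      (DF.mk (DF.comp DF.fst DF.fst) (DF.mk (DF.comp DF.snd DF.fst) DF.snd))
  obtain ⟨P', N1, hP', hPsub, hPex, hPfin, hPcan⟩ :=
    hβ α (fun a b => ∃ c, R a (b, c)) hP
  have hR1 : DP k (fun q : (α × β) × γ => P' q.1.1 q.1.2 ∧ R q.1.1 (q.1.2, q.2)) := by
    refine DP.and ?_ ?_
    · exact DP.comp hP' DF.fst
    · exact DP.comp hR (f := fun q : (α × β) × γ => (q.1.1, (q.1.2, q.2)))
        (DF.mk (DF.comp DF.fst DF.fst) (DF.mk (DF.comp DF.snd DF.fst) DF.snd))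
  obtain ⟨S', N2, hS', hSsub, hSex, hSfin, hScan⟩ :=
    hγ (α × β) (fun ab c => P' ab.1 ab.2 ∧ R ab.1 (ab.2, c)) hR1
  refine ⟨fun a bc => S' (a, bc.1) bc.2, N1 * N2, ?_, ?_, ?_, ?_, ?_⟩
  · exact DP.comp hS' (f := fun q : α × (β × γ) => ((q.1, q.2.1), q.2.2))
      (DF.mk (DF.mk DF.fst (DF.comp DF.fst DF.snd)) (DF.comp DF.snd DF.snd))
  · intro a bc h
    exact (hSsub _ _ h).2
  · rintro a ⟨⟨b, c⟩, h⟩
    obtain ⟨b', hb'⟩ := hPex a ⟨b, c, h⟩
    obtain ⟨c', hc'⟩ := hPsub a b' hb'
    obtain ⟨c'', hc''⟩ := hSex (a, b') ⟨c', hb', hc'⟩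
    exact ⟨(b', c''), hc''⟩
  · intro a
    have hsub : {bc : β × γ | S' (a, bc.1) bc.2} ⊆
        ((((hPfin a).1.toFinset.biUnion fun b =>
          ((hSfin (a, b)).1.toFinset.image fun c => (b, c))) : Finset (β × γ)) :
            Set (β × γ)) := by
      rintro ⟨b, c⟩ h
      have h1 := (hSsub _ _ h).1
      simp only [Finset.coe_biUnion, Set.mem_iUnion]
      refine ⟨b, ?_, ?_⟩
      · simpa using h1
      · simp only [Finset.coe_image, Set.mem_image]
        exact ⟨c, by simpa using h, rfl⟩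
    refine ⟨(Finset.finite_toSet _).subset hsub, ?_⟩
    refine (Set.ncard_le_ncard hsub (Finset.finite_toSet _)).trans ?_
    rw [Set.ncard_coe_finset]
    refine (Finset.card_biUnion_le_card_mul _ _ N2 ?_).trans ?_
    · intro b _
      refine Finset.card_image_le.trans ?_
      have := (hSfin (a, b)).2
      rwa [Set.ncard_eq_toFinset_card _ (hSfin (a, b)).1] at this
    · have := (hPfin a).2
      rw [Set.ncard_eq_toFinset_card _ (hPfin a).1] at this
      exact Nat.mul_le_mul_right _ this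
  · intro a a' h bc
    have hP2 : ∀ b, P' a b ↔ P' a' b :=
      hPcan a a' fun b => exists_congr fun c => h (b, c)
    refine hScan (a, bc.1) (a', bc.1) (fun c => ?_) bc.2
    exact and_congr (hP2 bc.1) (h (bc.1, c))

theorem AmbD_MS_transport (hβ : AmbD_MS k β) {f : β → γ} {g : γ → β} (hf : DF k f) (hg : DF k g)
    (hfg : ∀ c, f (g c) = c) (hgf : ∀ b, g (f b) = b) : AmbD_MS k γ := by
  intro α _ R hR
  have h1 : DP k (fun p : α × β => R p.1 (f p.2)) :=
    DP.comp hR (f := fun p : α × β => (p.1, f p.2)) (DF.mk DF.fst (DF.comp hf DF.snd))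
  obtain ⟨S, N, hS, hsub, hex, hfin, hcan⟩ := hβ α (fun a b => R a (f b)) h1
  refine ⟨fun a c => S a (g c), N, ?_, ?_, ?_, ?_, ?_⟩
  · exact DP.comp hS (f := fun p : α × γ => (p.1, g p.2)) (DF.mk DF.fst (DF.comp hg DF.snd))
  · intro a c h
    have := hsub a _ h
    simpa only [hfg] using this
  · rintro a ⟨c, hc⟩
    obtain ⟨b, hb⟩ := hex a ⟨g c, by simpa only [hfg] using hc⟩
    exact ⟨f b, by simpa only [hgf] using hb⟩
  · intro a
    have hs : {c | S a (g c)} ⊆ f '' {b | S a b} := by
      intro c hc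
      exact ⟨g c, hc, hfg c⟩
    refine ⟨((hfin a).1.image f).subset hs, ?_⟩
    exact (Set.ncard_le_ncard hs ((hfin a).1.image f)).trans
      ((Set.ncard_image_le (hfin a).1).trans (hfin a).2)
  · intro a a' h c
    exact hcan a a' (fun b => h (f b)) (g c)

theorem AmbD_MS_unit : AmbD_MS k Unit := by
  intro α _ R hR
  refine ⟨R, 1, hR, fun _ _ h => h, fun _ h => h, fun a => ⟨Set.toFinite _, ?_⟩,
    fun a a' h b => h b⟩
  have h := Set.ncard_le_ncard (Set.subset_univ {b | R a b}) (Set.toFinite _)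
  simpa [Set.ncard_univ] using h

theorem AmbD_MS_pi (n : ℕ) : AmbD_MS k (Fin n → k) := by
  induction n with
  | zero =>
    refine AmbD_MS_transport (β := Unit) AmbD_MS_unit (f := fun _ => fun i => Fin.elim0 i)
      (g := fun _ => ()) (DF.const _) (DF.const _) ?_ ?_
    · intro c
      exact Subsingleton.elim _ _
    · intro b
      rfl
  | succ n ih =>
    refine AmbD_MS_transport (β := k × (Fin n → k)) (AmbD_MS_prod AmbD_MS_k ih)
      (f := fun p => (Fin.cons p.1 p.2 : Fin (n + 1) → k))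
      (g := fun v => (v 0, fun j => v j.succ)) ?_ ?_ ?_ ?_
    · refine DF.pi fun i => ?_
      refine Fin.cases ?_ (fun j => ?_) i
      · simpa only [Fin.cons_zero] using (DF.fst : DF k (fun p : k × (Fin n → k) => p.1))
      · simpa only [Fin.cons_succ] using
          (DF.apply (DF.snd : DF k (fun p : k × (Fin n → k) => p.2)) j)
    · exact DF.mk (DF.apply DF.id 0) (DF.pi fun j => DF.apply DF.id j.succ)
    · intro c
      funext i
      refine Fin.cases ?_ (fun j => ?_) i <;> simp
    · rintro ⟨b, v⟩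
      simp

/-- Canonical finite multisections. -/
theorem multisection {R : α → β → Prop} (hR : DP k (fun p : α × β => R p.1 p.2)) :
    ∃ (R' : α → β → Prop) (N : ℕ), DP k (fun p : α × β => R' p.1 p.2) ∧
      (∀ a b, R' a b → R a b) ∧ (∀ a, (∃ b, R a b) → ∃ b, R' a b) ∧
      (∀ a, {b | R' a b}.Finite ∧ {b | R' a b}.ncard ≤ N) ∧
      (∀ a a', (∀ b, R a b ↔ R a' b) → ∀ b, R' a b ↔ R' a' b) := by
  have h : AmbD_MS k β := AmbD_MS_transport (AmbD_MS_pi (Amb.dim k β))
    (f := fun x => (Amb.e (k := k) (α := β)).symm x) (g := fun b => Amb.e (k := k) (α := β) b)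
    AmbD_df_e_symm AmbD_df_e (fun c => Equiv.symm_apply_apply _ _)
    (fun b => Equiv.apply_symm_apply _ _)
  exact h α R hR

end Pool.Agent.MRat
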