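import Pool.Agent.Lib.MP_923aff_ag.AmbD
/-!
# JOB AMBE: sums over finite fibres, separation of points

`DF.finsum`: the value `v` is characterised by: there is `m ≤ N` and `b : Fin m → β` injective, which
enumerates the fibre, and `v = ∑ i, f a (b i)`.
`separating`: take all monomials with exponents `≤ N` in the coordinates of `Amb.e`; for distinct points the
product over `y ∈ F`, `y ≠ x`, of a coordinate difference `(z_i - y_i)/(x_i - y_i)` is such a combination.
-/

set_option autoImplicit false

namespace Pool.Agent.MRat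

variable {k : Type} [Field k] [IsAlgClosed k] [CharZero k]
variable {α β γ δ : Type} [Amb k α] [Amb k β] [Amb k γ] [Amb k δ]

/-- Sums over a definable family of finite sets of bounded size. -/
theorem DF.finsum {R : α → β → Prop} (hR : DP k (fun p : α × β => R p.1 p.2)) {N : ℕ}
    (hN : ∀ a, {b | R a b}.Finite ∧ {b | R a b}.ncard ≤ N) {f : α → β → k}
    (hf : DF k (fun p : α × β => f p.1 p.2)) :
    DF k (fun a => ∑ᶠ b ∈ {b | R a b}, f a b) := by
  classical
  have hchar : ∀ (a : α) (v : k), (v = ∑ᶠ b ∈ {b | R a b}, f a b) ↔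
      ∃ m : Fin (N + 1), ∃ b : Fin (m : ℕ) → β, ((∀ i j, b i = b j → i = j) ∧
        (∀ i, R a (b i)) ∧ (∀ x, R a x → ∃ i, x = b i)) ∧ v = ∑ i, f a (b i) := by
    intro a v
    have hgen : ∀ (m : ℕ) (b : Fin m → β), (∀ i j, b i = b j → i = j) → (∀ i, R a (b i)) →
        (∀ x, R a x → ∃ i, x = b i) → ∑ᶠ x ∈ {b | R a b}, f a x = ∑ i, f a (b i) := by
      intro m b h1 h2 h3
      have hset : {x | R a x} = ((Finset.univ.image b : Finset β) : Set β) := by
        ext x
        simp only [Finset.coe_image, Finset.coe_univ, Set.image_univ, Set.mem_range]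
        constructor
        · intro hx
          obtain ⟨i, hi⟩ := h3 x hx
          exact ⟨i, hi.symm⟩
        · rintro ⟨i, rfl⟩
          exact h2 i
      rw [hset, finsum_mem_coe_finset, Finset.sum_image]
      intro i _ j _ hij
      exact h1 i j hij
    constructor
    · intro hv
      obtain ⟨hfin, hcard⟩ := hN a
      let S : Finset β := hfin.toFinset
      have hS : S.card = {b | R a b}.ncard := (Set.ncard_eq_toFinset_card _ hfin).symm
      have hSN : S.card < N + 1 := by omega
      let e := S.equivFin.symm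
      refine ⟨⟨S.card, hSN⟩, fun i => (e i : β), ⟨?_, ?_, ?_⟩, ?_⟩
      · intro i j hij
        exact e.injective (Subtype.ext hij)
      · intro i
        have := (e i).2
        exact hfin.mem_toFinset.1 this
      · intro x hx
        refine ⟨e.symm ⟨x, hfin.mem_toFinset.2 hx⟩, ?_⟩
        simp
      · rw [hv]
        apply hgen
        · intro i j hij
          exact e.injective (Subtype.ext hij)
        · intro i
          have := (e i).2
          exact hfin.mem_toFinset.1 this
        · intro x hx
          refine ⟨e.symm ⟨x, hfin.mem_toFinset.2 hx⟩, ?_⟩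
          simp
    · rintro ⟨m, b, ⟨h1, h2, h3⟩, rfl⟩
      exact (hgen m b h1 h2 h3).symm
  refine DP.congr (P := fun p : α × k => ∃ m : Fin (N + 1), ∃ b : Fin (m : ℕ) → β,
      ((∀ i j, b i = b j → i = j) ∧
        (∀ i, R p.1 (b i)) ∧ (∀ x, R p.1 x → ∃ i, x = b i)) ∧ p.2 = ∑ i, f p.1 (b i)) ?_
      (fun p => (hchar p.1 p.2).symm)
  refine DP.fex fun m => ?_
  refine DP.ex (P := fun (p : α × k) (b : Fin (m : ℕ) → β) => ((∀ i j, b i = b j → i = j) ∧
        (∀ i, R p.1 (b i)) ∧ (∀ x, R p.1 x → ∃ i, x = b i)) ∧ p.2 = ∑ i, f p.1 (b i)) ?_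
  have hb : ∀ i, DF k (fun q : (α × k) × (Fin (m : ℕ) → β) => q.2 i) := fun i =>
    DF.apply DF.snd i
  have ha : DF k (fun q : (α × k) × (Fin (m : ℕ) → β) => q.1.1) := DF.fst' DF.fst
  refine DP.and (DP.and ?_ (DP.and ?_ ?_)) ?_
  · exact DP.fall fun i => DP.fall fun j => DP.imp (DP.eq (hb i) (hb j)) (DP.const _)
  · exact DP.fall fun i => DP.comp hR (DF.mk ha (hb i))
  · refine DP.all (P := fun (q : (α × k) × (Fin (m : ℕ) → β)) (x : β) =>
      R q.1.1 x → ∃ i, x = q.2 i) ?_
    refine DP.imp ?_ ?_
    · exact DP.comp hR (f := fun q : ((α × k) × (Fin (m : ℕ) → β)) × β => (q.1.1.1, q.2))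
        (DF.mk (DF.fst' (DF.fst' DF.fst)) DF.snd)
    · refine DP.fex fun i => DP.eq DF.snd ?_
      exact DF.apply (DF.snd' DF.fst) i
  · refine DP.eq (DF.snd' DF.fst) ?_
    refine DF.sum _ fun i _ => ?_
    exact DF.comp hf (f := fun q : (α × k) × (Fin (m : ℕ) → β) => (q.1.1, q.2 i))
      (DF.mk ha (hb i))

/-- Coordinates are definable functions. -/
theorem ambE_coord (α : Type) [Amb k α] (i : Fin (Amb.dim k α)) :
    DF k (fun a : α => Amb.e (k := k) a i) := by
  have h := Con.zero (k := k) (n := Amb.dim k (α × k))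
    (MvPolynomial.X (Fin.natAdd (Amb.dim k α) (0 : Fin 1)) -
      MvPolynomial.X (Fin.castAdd 1 i))
  unfold DF DP
  convert h using 1
  ext x
  simp only [Set.mem_ofPred_eq, map_sub, MvPolynomial.eval_X, sub_eq_zero]
  have h1 : ((Amb.e (k := k) (α := α × k)).symm x).2 = x (Fin.natAdd (Amb.dim k α) (0 : Fin 1)) := by
    rfl
  have h2 : Amb.e (k := k) ((Amb.e (k := k) (α := α × k)).symm x).1 i = x (Fin.castAdd 1 i) := by
    have : ((Amb.e (k := k) (α := α × k)).symm x).1
      = (Amb.e (k := k) (α := α)).symm (fun j => x (Fin.castAdd 1 j)) := rfl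
    rw [this, Equiv.apply_symm_apply]
  rw [h1, h2]

/-- Separation of points: for at most `N` points of an ambient type there is a finite list of
definable functions, depending only on `N`, whose linear combinations separate them. -/
theorem separating (α : Type) [Amb k α] (N : ℕ) :
    ∃ (M : ℕ) (p : Fin M → α → k), (∀ i, DF k (p i)) ∧
      ∀ (F : Finset α), F.card ≤ N → ∀ x ∈ F, ∃ c : Fin M → k,
        (∑ i, c i * p i x = 1) ∧ ∀ y ∈ F, y ≠ x → ∑ i, c i * p i y = 0 := by
  classical
  set n := Amb.dim k α with hn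
  let I := Fin n → Fin (N + 1)
  let eI := Fintype.equivFin I
  refine ⟨Fintype.card I, fun i a => ∏ j : Fin n, (Amb.e (k := k) a j) ^ ((eI.symm i j : Fin (N + 1)) : ℕ),
    ?_, ?_⟩
  · intro i
    exact DF.prod _ fun j _ => DF.pow (ambE_coord α j) _
  · intro F hF x hx
    -- the separating coordinates
    have hsep : ∀ y : α, ∃ j : Option (Fin n), ∀ _ : y ≠ x, ∃ j', j = some j' ∧
        Amb.e (k := k) y j' ≠ Amb.e (k := k) x j' := by
      intro y
      by_cases hy : y = x
      · exact ⟨none, fun h => absurd hy h⟩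
      · have : Amb.e (k := k) y ≠ Amb.e (k := k) x := fun h => hy ((Amb.e (k := k)).injective h)
        obtain ⟨j, hj⟩ := Function.ne_iff.1 this
        exact ⟨some j, fun _ => ⟨j, rfl, hj⟩⟩
    choose J hJ using hsep
    -- the polynomial factors
    let fac : α → MvPolynomial (Fin n) k := fun y => match J y with
      | none => 1
      | some j => MvPolynomial.C ((Amb.e (k := k) x j - Amb.e (k := k) y j)⁻¹) *
          (MvPolynomial.X j - MvPolynomial.C (Amb.e (k := k) y j))
    have hfx : ∀ y, y ≠ x → MvPolynomial.eval (Amb.e (k := k) x) (fac y) = 1 := by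
      intro y hy
      obtain ⟨j, hj, hne⟩ := hJ y hy
      have : fac y = MvPolynomial.C ((Amb.e (k := k) x j - Amb.e (k := k) y j)⁻¹) *
          (MvPolynomial.X j - MvPolynomial.C (Amb.e (k := k) y j)) := by
        simp only [fac]; rw [hj]
      rw [this]
      simp only [map_mul, MvPolynomial.eval_C, map_sub, MvPolynomial.eval_X]
      exact inv_mul_cancel₀ (sub_ne_zero.2 (Ne.symm hne))
    have hfy : ∀ y, y ≠ x → MvPolynomial.eval (Amb.e (k := k) y) (fac y) = 0 := by
      intro y hy
      obtain ⟨j, hj, hne⟩ := hJ y hy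
      have : fac y = MvPolynomial.C ((Amb.e (k := k) x j - Amb.e (k := k) y j)⁻¹) *
          (MvPolynomial.X j - MvPolynomial.C (Amb.e (k := k) y j)) := by
        simp only [fac]; rw [hj]
      rw [this]
      simp
    have hfd : ∀ y, (fac y).totalDegree ≤ 1 := by
      intro y
      simp only [fac]
      cases J y with
      | none => simp
      | some j =>
        simp only
        refine (MvPolynomial.totalDegree_mul _ _).trans ?_
        rw [MvPolynomial.totalDegree_C, zero_add]
        refine (MvPolynomial.totalDegree_sub_C_le _ _).trans ?_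
        rw [MvPolynomial.totalDegree_X]
    let P : MvPolynomial (Fin n) k := ∏ y ∈ F.erase x, fac y
    have hPd : P.totalDegree ≤ N := by
      refine (MvPolynomial.totalDegree_finsetProd _ _).trans ?_
      refine (Finset.sum_le_card_nsmul _ _ 1 (fun y _ => hfd y)).trans ?_
      rw [smul_eq_mul, mul_one]
      exact (Finset.card_erase_le).trans hF
    have hdeg : ∀ d ∈ P.support, ∀ j, d j < N + 1 := by
      intro d hd j
      have h1 := MvPolynomial.le_totalDegree hd
      have h2 : d j ≤ d.sum fun _ e => e := by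
        rw [Finsupp.sum_fintype _ _ (fun _ => rfl)]
        exact Finset.single_le_sum (f := fun j => d j) (fun _ _ => Nat.zero_le _) (Finset.mem_univ j)
      omega
    let toF : I → (Fin n →₀ ℕ) := fun μ => Finsupp.equivFunOnFinite.symm (fun j => ((μ j : Fin (N+1)) : ℕ))
    have htoF : Function.Injective toF := by
      intro μ ν h
      have h' := Finsupp.equivFunOnFinite.symm.injective h
      funext j
      exact Fin.ext (congrFun h' j)
    have heval : ∀ z : Fin n → k, ∑ μ : I, P.coeff (toF μ) * ∏ j, z j ^ ((μ j : Fin (N+1)) : ℕ)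
        = MvPolynomial.eval z P := by
      intro z
      rw [MvPolynomial.eval_eq']
      have h1 : ∑ μ : I, P.coeff (toF μ) * ∏ j, z j ^ ((μ j : Fin (N+1)) : ℕ)
          = ∑ d ∈ Finset.univ.image toF, P.coeff d * ∏ j, z j ^ d j := by
        rw [Finset.sum_image (fun _ _ _ _ h => htoF h)]
        rfl
      rw [h1]
      symm
      apply Finset.sum_subset
      · intro d hd
        rw [Finset.mem_image]
        refine ⟨fun j => ⟨d j, hdeg d hd j⟩, Finset.mem_univ _, ?_⟩
        ext j
        rfl
      · intro d _ hd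
        rw [MvPolynomial.notMem_support_iff.1 hd, zero_mul]
    have hsum : ∀ a : α, ∑ i, P.coeff (toF (eI.symm i)) *
        ∏ j : Fin n, (Amb.e (k := k) a j) ^ ((eI.symm i j : Fin (N + 1)) : ℕ)
        = MvPolynomial.eval (Amb.e (k := k) a) P := by
      intro a
      rw [← heval]
      exact Equiv.sum_comp eI.symm (fun μ : I => P.coeff (toF μ) *
        ∏ j : Fin n, (Amb.e (k := k) a j) ^ ((μ j : Fin (N + 1)) : ℕ))
    refine ⟨fun i => P.coeff (toF (eI.symm i)), ?_, ?_⟩
    · rw [hsum x, map_prod]
      exact Finset.prod_eq_one fun y hy => hfx y (Finset.ne_of_mem_erase hy)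
    · intro y hy hyx
      rw [hsum y, map_prod]
      exact Finset.prod_eq_zero (Finset.mem_erase.2 ⟨hyx, hy⟩) (hfy y hyx)

end Pool.Agent.MRat
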