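import Pool.Agent.Lib.MP_923aff_ag.RDefs
/-!
# JOB BL: projective spaces of forms, of pairs of forms and `ℙ¹` as `P(W)` for block data

`n_proj_of`: `Φ : ℙ k V → ℙ k B.W`, `Φ [v] = [φ v]` is a definable bijection (DM.of_graph with `isrep`; or
`Projectivization.map`) commuting with `t` and `w`; apply `ncl_congr`, `tcl_congr`, `NGood.congr'` to
`id × Φ` and `n_proj` (`NA6.lean`).

`blkForm_equiv`: `φ F = ((c_i, c_{n-i})_{i < p}, c_{n/2})` where `c = coeffE k n F`; `(dg c 1 • F) v = F (c⁻¹ v0, v1)`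
so the coefficient `c_i` of `v0 ^ i v1 ^ (n - i)` is multiplied by `c ^ (-i)`; `(sw k • F) v = F (v1, v0)`, so
`w` exchanges `c_i` and `c_{n-i}`.

`blkSM_equiv`: `φ F = (coefficient i of F0, coefficient d - i of F1)_{i ≤ d}`;
`(dg c 1 • F) v = (c F0 (c⁻¹ v0, v1), F1 (c⁻¹ v0, v1))`; `(sw k • F) v = (F1 (v1, v0), F0 (v1, v0))`.
-/

set_option autoImplicit false

namespace Pool.Agent.MRat

open scoped MatrixGroups LinearAlgebra.Projectivization

noncomputable section

variable {k : Type} [Field k] [IsAlgClosed k] [CharZero k]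
variable {X Y Z : Type} [DT k X] [DT k Y] [DT k Z]

private theorem BL1_ne {B : Blk k} {V : Type} [AddCommGroup V] [Module k V]
    (φ : V ≃ₗ[k] B.W) {v : V} (hv : v ≠ 0) : φ v ≠ 0 := by
  intro h
  exact hv (φ.map_eq_zero_iff.1 h)

private def BL1_Phi {B : Blk k} {V : Type} [AddCommGroup V] [Module k V]
    (φ : V ≃ₗ[k] B.W) (x : ℙ k V) : ℙ k B.W :=
  Projectivization.mk k (φ x.rep) (BL1_ne φ x.rep_nonzero)

private theorem BL1_Phi_mk {B : Blk k} {V : Type} [AddCommGroup V] [Module k V]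
    (φ : V ≃ₗ[k] B.W) {v : V} (hv : v ≠ 0) :
    BL1_Phi φ (Projectivization.mk k v hv) = Projectivization.mk k (φ v) (BL1_ne φ hv) := by
  unfold BL1_Phi
  obtain ⟨u, hu⟩ := Projectivization.exists_smul_eq_mk_rep k v hv
  rw [Projectivization.mk_eq_mk_iff]
  refine ⟨u, ?_⟩
  rw [← hu, Units.smul_def, Units.smul_def, map_smul]

private theorem BL1_Phi_bij {B : Blk k} {V : Type} [AddCommGroup V] [Module k V]
    (φ : V ≃ₗ[k] B.W) : Function.Bijective (BL1_Phi φ) := by
  constructor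
  · intro x y hxy
    induction x using Projectivization.ind with
    | h v hv =>
      induction y using Projectivization.ind with
      | h w hw =>
        rw [BL1_Phi_mk, BL1_Phi_mk, Projectivization.mk_eq_mk_iff] at hxy
        obtain ⟨u, hu⟩ := hxy
        rw [Projectivization.mk_eq_mk_iff]
        refine ⟨u, ?_⟩
        apply φ.injective
        rw [← hu, Units.smul_def, Units.smul_def, map_smul]
  · intro y
    induction y using Projectivization.ind with
    | h w hw =>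
      have hv : φ.symm w ≠ 0 := by
        intro h
        exact hw (φ.symm.map_eq_zero_iff.1 h)
      refine ⟨Projectivization.mk k (φ.symm w) hv, ?_⟩
      rw [BL1_Phi_mk]
      congr 1
      exact φ.apply_symm_apply w

private theorem BL1_Phi_dm {B : Blk k} {V : Type} [AddCommGroup V] [Module k V] [DT k V]
    [DMod k V] (φ : V ≃ₗ[k] B.W) (dφ : DM k (fun v => φ v)) : DM k (BL1_Phi φ) := by
  refine DM.of_graph (R := fun (p : ℙ k V) q => ∃ v : V, MRat.isrep v p ∧
    MRat.isrep (φ v) q) ?_ ?_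
  · have h1 : DM k (fun q : (ℙ k V × ℙ k B.W) × V => φ q.2) := DM.comp dφ (by fun_prop)
    exact DM.ex (DM.and (DM.isrep (by fun_prop) (by fun_prop)) (DM.isrep h1 (by fun_prop)))
  · intro p q
    constructor
    · rintro ⟨v, ⟨hv, hp⟩, ⟨hw, hq⟩⟩
      subst hp
      rw [← hq, BL1_Phi_mk]
    · rintro rfl
      exact ⟨p.rep, ⟨p.rep_nonzero, p.mk_rep⟩, ⟨BL1_ne φ p.rep_nonzero, rfl⟩⟩

/-- Projective bundles whose fibre is an `N`-space `ℙ(V)` isomorphic to `P(W)` for block data. -/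
theorem n_proj_of {m : ℕ} {A : NA k Y} {s : Set Y} (h : NGood m A s) (B : Blk k)
    (hab : ∀ i, (m : ℤ) ∣ B.a i - B.b i) {V : Type} [AddCommGroup V] [Module k V] [DT k V]
    [DMod k V] (C : NA k (ℙ k V)) (φ : V ≃ₗ[k] B.W) (dφ : DM k (fun v => φ v))
    (ht : ∀ (c : kˣ) (v : V) (x : ℙ k V), MRat.isrep v x →
      MRat.isrep (φ.symm (B.tv c (φ v))) (C.t c x))
    (hw : ∀ (v : V) (x : ℙ k V), MRat.isrep v x → MRat.isrep (φ.symm (B.wv (φ v))) (C.w x)) :
    ncl (A.prod C) (s ×ˢ Set.univ) = (br B.dim) • ncl A s ∧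
    tcl (A.prod C).toTA (s ×ˢ Set.univ) = (br B.dim) • tcl A.toTA s ∧
    NGood m (A.prod C) (s ×ˢ Set.univ) := by
  obtain ⟨h1, h2, h3⟩ := n_proj h B hab
  have dPhi := BL1_Phi_dm φ dφ
  have bPhi := BL1_Phi_bij φ
  have et : ∀ (c : kˣ) (x : ℙ k V), BL1_Phi φ (C.t c x) = (PW B).t c (BL1_Phi φ x) := by
    intro c x
    induction x using Projectivization.ind with
    | h v hv =>
      obtain ⟨h4, h5⟩ := ht c v _ ⟨hv, rfl⟩
      rw [← h5, BL1_Phi_mk, BL1_Phi_mk, PW_t_mk]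
      congr 1
      exact φ.apply_symm_apply _
  have ew : ∀ (x : ℙ k V), BL1_Phi φ (C.w x) = (PW B).w (BL1_Phi φ x) := by
    intro x
    induction x using Projectivization.ind with
    | h v hv =>
      obtain ⟨h4, h5⟩ := hw v _ ⟨hv, rfl⟩
      rw [← h5, BL1_Phi_mk, BL1_Phi_mk, PW_w_mk]
      congr 1
      exact φ.apply_symm_apply _
  have st1 : (A.prod C).St (s ×ˢ Set.univ) := h.st.prod _ (NA.St.univ _)
  have st2 : (A.prod (PW B)).St (s ×ˢ Set.univ) := h.st.prod _ (NA.St.univ _)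
  have hf : DM k (fun p : Y × ℙ k V => (p.1, BL1_Phi φ p.2)) :=
    DM.mk (by fun_prop) (DM.comp dPhi (by fun_prop))
  have bij : Set.BijOn (fun p : Y × ℙ k V => (p.1, BL1_Phi φ p.2)) (s ×ˢ Set.univ)
      (s ×ˢ Set.univ) := by
    refine ⟨?_, ?_, ?_⟩
    · rintro ⟨y, x⟩ ⟨hy, -⟩
      exact ⟨hy, trivial⟩
    · rintro ⟨y, x⟩ - ⟨y', x'⟩ - he
      simp only [Prod.mk.injEq] at he
      rw [Prod.mk.injEq]
      exact ⟨he.1, bPhi.1 he.2⟩
    · rintro ⟨y, z⟩ ⟨hy, -⟩
      obtain ⟨x, rfl⟩ := bPhi.2 z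
      exact ⟨(y, x), ⟨hy, trivial⟩, rfl⟩
  have ft : ∀ c, ∀ p ∈ s ×ˢ (Set.univ : Set (ℙ k V)),
      (fun p : Y × ℙ k V => (p.1, BL1_Phi φ p.2)) ((A.prod C).t c p) =
        (A.prod (PW B)).t c ((fun p : Y × ℙ k V => (p.1, BL1_Phi φ p.2)) p) := by
    rintro c ⟨y, x⟩ -
    exact Prod.ext rfl (et c x)
  have fw : ∀ p ∈ s ×ˢ (Set.univ : Set (ℙ k V)),
      (fun p : Y × ℙ k V => (p.1, BL1_Phi φ p.2)) ((A.prod C).w p) =
        (A.prod (PW B)).w ((fun p : Y × ℙ k V => (p.1, BL1_Phi φ p.2)) p) := by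
    rintro ⟨y, x⟩ -
    exact Prod.ext rfl (ew x)
  refine ⟨?_, ?_, ?_⟩
  · rw [ncl_congr st1 st2 _ hf bij ft fw, h1]
  · rw [tcl_congr st1.toSt st2.toSt _ hf bij ft, h2]
  · exact NGood.congr' st1 h3 _ hf bij ft fw

/-- The block data of binary forms of degree `n`. -/
def blkForm (k : Type) [Field k] (n : ℕ) : Blk k where
  p := (n + 1) / 2
  q := (n + 1) % 2
  e := -(n : ℤ)
  a i := -((i : ℕ) : ℤ)
  b i := ((i : ℕ) : ℤ) - n
  hab i := by ring
  h _ := -((n / 2 : ℕ) : ℤ)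
  hh j := by
    have := j.2
    omega
  ε _ := 1
  hε _ := by simp

theorem blkForm_dim (n : ℕ) : (blkForm k n).dim = n + 1 := by
  unfold Blk.dim blkForm
  simp only
  omega

private theorem BL2_coeff_of {n : ℕ} (c : Fin (n + 1) → k) : coeffE k n (Form.of c) = c :=
  (coeffE k n).apply_symm_apply c

private theorem BL2_dg_inv_smul (a : kˣ) (v : Fin 2 → k) :
    (dg a 1)⁻¹ • v = ![(a : k)⁻¹ * v 0, v 1] := by
  rw [inv_smul_eq_iff]
  show v = (!![(a : k), 0; 0, ((1 : kˣ) : k)]).mulVec ![(a : k)⁻¹ * v 0, v 1]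
  funext i
  fin_cases i <;> simp [Matrix.mulVec, dotProduct, Fin.sum_univ_two]

private theorem BL2_sw_smul (v : Fin 2 → k) : sw k • v = ![v 1, v 0] := by
  show (!![(0 : k), 1; 1, 0]).mulVec v = _
  funext i
  fin_cases i <;> simp [Matrix.mulVec, dotProduct, Fin.sum_univ_two]

private theorem BL2_sw_inv_smul (v : Fin 2 → k) : (sw k)⁻¹ • v = ![v 1, v 0] := by
  rw [inv_smul_eq_iff, BL2_sw_smul]
  funext i
  fin_cases i <;> simp

private theorem BL2_coeff_dg {n : ℕ} (c : kˣ) (F : Form k n) (i : Fin (n + 1)) :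
    coeffE k n (dg c 1 • F) i = ((c ^ (-((i : ℕ) : ℤ)) : kˣ) : k) * coeffE k n F i := by
  have h : dg c 1 • F = Form.of (fun i : Fin (n + 1) =>
      ((c ^ (-((i : ℕ) : ℤ)) : kˣ) : k) * coeffE k n F i) := by
    apply Subtype.ext
    funext v
    rw [form_gl_apply, BL2_dg_inv_smul, form_eq, Form.of_apply]
    refine Finset.sum_congr rfl fun j _ => ?_
    simp only [Matrix.cons_val_zero, Matrix.cons_val_one, mul_pow, zpow_neg, zpow_natCast,
      Units.val_inv_eq_inv_val, Units.val_pow_eq_pow_val, inv_pow]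
    ring
  rw [h, BL2_coeff_of]

private theorem BL2_coeff_sw {n : ℕ} (F : Form k n) (i : Fin (n + 1)) :
    coeffE k n (sw k • F) i = coeffE k n F (Fin.rev i) := by
  have h : sw k • F = Form.of (fun i : Fin (n + 1) => coeffE k n F (Fin.rev i)) := by
    apply Subtype.ext
    funext v
    rw [form_gl_apply, BL2_sw_inv_smul, form_eq, Form.of_apply]
    rw [← Equiv.sum_comp Fin.revPerm]
    refine Finset.sum_congr rfl fun j _ => ?_
    have hj := j.2
    have e1 : ((Fin.revPerm j : Fin (n + 1)) : ℕ) = n - (j : ℕ) := by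
      rw [Fin.revPerm_apply, Fin.val_rev]
      omega
    have e2 : n - (n - (j : ℕ)) = (j : ℕ) := by omega
    rw [e1, e2]
    simp only [Matrix.cons_val_zero, Matrix.cons_val_one, Fin.revPerm_apply]
    ring
  rw [h, BL2_coeff_of]

omit [IsAlgClosed k] [CharZero k] in
private theorem BL2_lt (n : ℕ) (i : Fin ((n + 1) / 2)) : (i : ℕ) < n + 1 := by
  have := i.2
  omega

/-- coefficients to block data -/
private def BL2_to (k : Type) [Field k] (n : ℕ) (c : Fin (n + 1) → k) : (blkForm k n).W :=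
  (fun i : Fin ((n + 1) / 2) => (c ⟨i, BL2_lt n i⟩, c (Fin.rev ⟨i, BL2_lt n i⟩)),
    fun _ : Fin ((n + 1) % 2) => c ⟨n / 2, by omega⟩)

/-- block data to coefficients -/
private def BL2_inv (k : Type) [Field k] (n : ℕ) (w : (blkForm k n).W) (i : Fin (n + 1)) : k :=
  if h : (i : ℕ) < (n + 1) / 2 then (w.1 ⟨i, h⟩).1
  else if h2 : n - (i : ℕ) < (n + 1) / 2 then (w.1 ⟨n - i, h2⟩).2
  else w.2 ⟨0, by
    have := i.2
    show 0 < (n + 1) % 2
    omega⟩

private theorem BL2_left (n : ℕ) (c : Fin (n + 1) → k) : BL2_inv k n (BL2_to k n c) = c := by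
  funext i
  have hi := i.2
  unfold BL2_inv
  split_ifs with h h2
  · rfl
  · show c _ = c i
    congr 1
    apply Fin.ext
    rw [Fin.val_rev]
    show n + 1 - (n - (i : ℕ) + 1) = i
    omega
  · show c _ = c i
    congr 1
    apply Fin.ext
    show n / 2 = (i : ℕ)
    omega

private theorem BL2_right (n : ℕ) (w : (blkForm k n).W) : BL2_to k n (BL2_inv k n w) = w := by
  refine Prod.ext (funext fun i => Prod.ext ?_ ?_) (funext fun j => ?_)
  · have hi : (i : ℕ) < (n + 1) / 2 := i.2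
    show BL2_inv k n w ⟨i, BL2_lt n i⟩ = _
    unfold BL2_inv
    rw [dif_pos hi]
  · have hi : (i : ℕ) < (n + 1) / 2 := i.2
    show BL2_inv k n w (Fin.rev ⟨i, BL2_lt n i⟩) = _
    have e : ((Fin.rev ⟨i, BL2_lt n i⟩ : Fin (n + 1)) : ℕ) = n - (i : ℕ) := by
      rw [Fin.val_rev]
      show n + 1 - ((i : ℕ) + 1) = _
      omega
    unfold BL2_inv
    rw [dif_neg (by rw [e]; omega), dif_pos (by rw [e]; omega)]
    refine congrArg (fun x => (w.1 x).2) (Fin.ext ?_)
    show n - ((Fin.rev ⟨i, BL2_lt n i⟩ : Fin (n + 1)) : ℕ) = i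
    rw [e]
    omega
  · have hj : (j : ℕ) < (n + 1) % 2 := j.2
    show BL2_inv k n w ⟨n / 2, by omega⟩ = _
    unfold BL2_inv
    rw [dif_neg (by show ¬ (n / 2 < (n + 1) / 2); omega),
      dif_neg (by show ¬ (n - n / 2 < (n + 1) / 2); omega)]
    refine congrArg w.2 (Fin.ext ?_)
    show 0 = (j : ℕ)
    omega

/-- The linear equivalence from coefficients to block data. -/
private def BL2_E (k : Type) [Field k] [IsAlgClosed k] [CharZero k] (n : ℕ) :
    (Fin (n + 1) → k) ≃ₗ[k] (blkForm k n).W where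
  toFun := BL2_to k n
  map_add' _ _ := rfl
  map_smul' _ _ := rfl
  invFun := BL2_inv k n
  left_inv := BL2_left n
  right_inv := BL2_right n

theorem blkForm_equiv (n : ℕ) : ∃ φ : Form k n ≃ₗ[k] (blkForm k n).W, DM k (fun v => φ v) ∧
    (∀ (c : kˣ) (v : Form k n), φ (dg c 1 • v) = (blkForm k n).tv c (φ v)) ∧
    (∀ v : Form k n, φ (sw k • v) = (blkForm k n).wv (φ v)) := by
  refine ⟨(coeffE k n).trans (BL2_E k n), ?_, ?_, ?_⟩
  · show DM k (fun v : Form k n => BL2_to k n (coeffE k n v))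
    unfold BL2_to
    have h : ∀ i : Fin (n + 1), DM k (fun v : Form k n => coeffE k n v i) := fun i => by fun_prop
    exact DM.mk (DM.pi fun i => DM.mk (h _) (h _)) (DM.pi fun j => h _)
  · intro c F
    show BL2_to k n (coeffE k n (dg c 1 • F)) = (blkForm k n).tv c (BL2_to k n (coeffE k n F))
    refine Prod.ext (funext fun i => Prod.ext ?_ ?_) (funext fun j => ?_)
    · exact BL2_coeff_dg c F _
    · have hi : (i : ℕ) < (n + 1) / 2 := i.2
      have e : (((Fin.rev ⟨i, BL2_lt n i⟩ : Fin (n + 1)) : ℕ) : ℤ) = (n : ℤ) - ((i : ℕ) : ℤ) := by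
        rw [Fin.val_rev]
        show ((n + 1 - ((i : ℕ) + 1) : ℕ) : ℤ) = _
        omega
      refine (BL2_coeff_dg c F _).trans ?_
      rw [e, neg_sub]
      rfl
    · exact BL2_coeff_dg c F _
  · intro F
    show BL2_to k n (coeffE k n (sw k • F)) = (blkForm k n).wv (BL2_to k n (coeffE k n F))
    refine Prod.ext (funext fun i => Prod.ext ?_ ?_) (funext fun j => ?_)
    · exact BL2_coeff_sw F _
    · refine (BL2_coeff_sw F _).trans ?_
      rw [Fin.rev_rev]
      rfl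
    · have hj : (j : ℕ) < (n + 1) % 2 := j.2
      refine (BL2_coeff_sw F _).trans ?_
      have e : (Fin.rev ⟨n / 2, by omega⟩ : Fin (n + 1)) = ⟨n / 2, by omega⟩ := by
        apply Fin.ext
        rw [Fin.val_rev]
        show n + 1 - (n / 2 + 1) = n / 2
        omega
      rw [e]
      show _ = ((1 : kˣ) : k) * coeffE k n F ⟨n / 2, by omega⟩
      rw [Units.val_one, one_mul]

/-- The block data of pairs of binary forms of degree `d`. -/
def blkSM (k : Type) [Field k] (d : ℕ) : Blk k where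
  p := d + 1
  q := 0
  e := 1 - (d : ℤ)
  a i := 1 - ((i : ℕ) : ℤ)
  b i := ((i : ℕ) : ℤ) - d
  hab i := by ring
  h j := j.elim0
  hh j := j.elim0
  ε j := j.elim0
  hε j := j.elim0

theorem blkSM_dim (d : ℕ) : (blkSM k d).dim = 2 * d + 2 := by
  unfold Blk.dim blkSM
  simp only
  omega

private theorem BL3_dg_smul (a : kˣ) (v : Fin 2 → k) : dg a 1 • v = ![(a : k) * v 0, v 1] := by
  show (!![(a : k), 0; 0, ((1 : kˣ) : k)]).mulVec v = _
  funext i
  fin_cases i <;> simp [Matrix.mulVec, dotProduct, Fin.sum_univ_two]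

private theorem BL3_dg1 {d : ℕ} (c : kˣ) (F : SM k d) :
    (smE k d (dg c 1 • F)).1 = (c : k) • (dg c 1 • (smE k d F).1) := by
  apply Subtype.ext
  funext v
  show (dg c 1 • F.1 ((dg c 1)⁻¹ • v)) 0 = (c : k) * F.1 ((dg c 1)⁻¹ • v) 0
  rw [BL3_dg_smul]
  rfl

private theorem BL3_dg2 {d : ℕ} (c : kˣ) (F : SM k d) :
    (smE k d (dg c 1 • F)).2 = dg c 1 • (smE k d F).2 := by
  apply Subtype.ext
  funext v
  show (dg c 1 • F.1 ((dg c 1)⁻¹ • v)) 1 = F.1 ((dg c 1)⁻¹ • v) 1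
  rw [BL3_dg_smul]
  rfl

private theorem BL3_sw1 {d : ℕ} (F : SM k d) :
    (smE k d (sw k • F)).1 = sw k • (smE k d F).2 := by
  apply Subtype.ext
  funext v
  show (sw k • F.1 ((sw k)⁻¹ • v)) 0 = F.1 ((sw k)⁻¹ • v) 1
  rw [BL2_sw_smul]
  rfl

private theorem BL3_sw2 {d : ℕ} (F : SM k d) :
    (smE k d (sw k • F)).2 = sw k • (smE k d F).1 := by
  apply Subtype.ext
  funext v
  show (sw k • F.1 ((sw k)⁻¹ • v)) 1 = F.1 ((sw k)⁻¹ • v) 0
  rw [BL2_sw_smul]
  rfl

private theorem BL3_t1 {d : ℕ} (c : kˣ) (F : SM k d) (i : Fin (d + 1)) :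
    coeffE k d (smE k d (dg c 1 • F)).1 i =
      ((c ^ (1 - ((i : ℕ) : ℤ)) : kˣ) : k) * coeffE k d (smE k d F).1 i := by
  rw [BL3_dg1, map_smul]
  show (c : k) * coeffE k d (dg c 1 • (smE k d F).1) i = _
  rw [BL2_coeff_dg, ← mul_assoc, ← Units.val_mul]
  congr 2
  rw [sub_eq_add_neg, zpow_add, zpow_one]

private theorem BL3_t2 {d : ℕ} (c : kˣ) (F : SM k d) (i : Fin (d + 1)) :
    coeffE k d (smE k d (dg c 1 • F)).2 (Fin.rev i) =
      ((c ^ (((i : ℕ) : ℤ) - d) : kˣ) : k) * coeffE k d (smE k d F).2 (Fin.rev i) := by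
  have hi := i.2
  have e : (((Fin.rev i : Fin (d + 1)) : ℕ) : ℤ) = (d : ℤ) - ((i : ℕ) : ℤ) := by
    rw [Fin.val_rev]
    omega
  rw [BL3_dg2, BL2_coeff_dg, e, neg_sub]

private theorem BL3_w1 {d : ℕ} (F : SM k d) (i : Fin (d + 1)) :
    coeffE k d (smE k d (sw k • F)).1 i = coeffE k d (smE k d F).2 (Fin.rev i) := by
  rw [BL3_sw1, BL2_coeff_sw]

private theorem BL3_w2 {d : ℕ} (F : SM k d) (i : Fin (d + 1)) :
    coeffE k d (smE k d (sw k • F)).2 (Fin.rev i) = coeffE k d (smE k d F).1 i := by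
  rw [BL3_sw2, BL2_coeff_sw, Fin.rev_rev]

/-- The linear equivalence from pairs of forms to block data. -/
private def BL3_E (k : Type) [Field k] [IsAlgClosed k] [CharZero k] (d : ℕ) :
    SM k d ≃ₗ[k] (blkSM k d).W where
  toFun F := (fun i : Fin (d + 1) => (coeffE k d (smE k d F).1 i,
    coeffE k d (smE k d F).2 (Fin.rev i)), fun j : Fin 0 => j.elim0)
  map_add' F G := by
    have h1 : (smE k d (F + G)).1 = (smE k d F).1 + (smE k d G).1 := rfl
    have h2 : (smE k d (F + G)).2 = (smE k d F).2 + (smE k d G).2 := rfl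
    refine Prod.ext (funext fun i => Prod.ext ?_ ?_) (funext fun j : Fin 0 => j.elim0)
    · show coeffE k d (smE k d (F + G)).1 i = _
      rw [h1, map_add]
      rfl
    · show coeffE k d (smE k d (F + G)).2 (Fin.rev (n := d + 1) i) = _
      rw [h2, map_add]
      rfl
  map_smul' c F := by
    have h1 : (smE k d (c • F)).1 = c • (smE k d F).1 := rfl
    have h2 : (smE k d (c • F)).2 = c • (smE k d F).2 := rfl
    refine Prod.ext (funext fun i => Prod.ext ?_ ?_) (funext fun j : Fin 0 => j.elim0)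
    · show coeffE k d (smE k d (c • F)).1 i = _
      rw [h1, map_smul]
      rfl
    · show coeffE k d (smE k d (c • F)).2 (Fin.rev (n := d + 1) i) = _
      rw [h2, map_smul]
      rfl
  invFun w := (smE k d).symm ((coeffE k d).symm (fun i => (w.1 i).1),
    (coeffE k d).symm (fun i : Fin (d + 1) => (w.1 (Fin.rev (n := d + 1) i)).2))
  left_inv F := by
    show (smE k d).symm ((coeffE k d).symm (fun i => coeffE k d (smE k d F).1 i),
      (coeffE k d).symm (fun i : Fin (d + 1) =>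
        coeffE k d (smE k d F).2 (Fin.rev (Fin.rev i)))) = F
    simp only [Fin.rev_rev]
    have h1 : (coeffE k d).symm (fun i => coeffE k d (smE k d F).1 i) = (smE k d F).1 :=
      (coeffE k d).symm_apply_apply _
    have h2 : (coeffE k d).symm (fun i => coeffE k d (smE k d F).2 i) = (smE k d F).2 :=
      (coeffE k d).symm_apply_apply _
    rw [h1, h2]
    exact (smE k d).symm_apply_apply F
  right_inv w := by
    refine Prod.ext (funext fun i => Prod.ext ?_ ?_) (funext fun j : Fin 0 => j.elim0)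
    · show coeffE k d (smE k d ((smE k d).symm (_, _))).1 i = _
      rw [Equiv.apply_symm_apply, LinearEquiv.apply_symm_apply]
    · show coeffE k d (smE k d ((smE k d).symm (_, _))).2 (Fin.rev (n := d + 1) i) = _
      rw [Equiv.apply_symm_apply, LinearEquiv.apply_symm_apply]
      exact congrArg (fun x : Fin (d + 1) => (w.1 x).2) (Fin.rev_rev (n := d + 1) i)

theorem blkSM_equiv (d : ℕ) : ∃ φ : SM k d ≃ₗ[k] (blkSM k d).W, DM k (fun v => φ v) ∧
    (∀ (c : kˣ) (v : SM k d), φ (dg c 1 • v) = (blkSM k d).tv c (φ v)) ∧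
    (∀ v : SM k d, φ (sw k • v) = (blkSM k d).wv (φ v)) := by
  refine ⟨BL3_E k d, ?_, ?_, ?_⟩
  · show DM k (fun F : SM k d => ((fun i : Fin (d + 1) => (coeffE k d (smE k d F).1 i,
      coeffE k d (smE k d F).2 (Fin.rev i)), fun j : Fin 0 => (j.elim0 : k)) :
      (Fin (d + 1) → k × k) × (Fin 0 → k)))
    have h0 : DM k (fun F : SM k d => smE k d F) := DM.smE DM.id'
    have h1 : ∀ i : Fin (d + 1), DM k (fun F : SM k d => coeffE k d (smE k d F).1 i) :=
      fun i => DM.comp (DM.apply i) (DM.coeffE h0.fst)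
    have h2 : ∀ i : Fin (d + 1), DM k (fun F : SM k d => coeffE k d (smE k d F).2 i) :=
      fun i => DM.comp (DM.apply i) (DM.coeffE h0.snd)
    exact DM.mk (DM.pi fun i => DM.mk (h1 _) (h2 _)) (DM.pi fun j => j.elim0)
  · intro c F
    refine Prod.ext (funext fun i => Prod.ext ?_ ?_) (funext fun j : Fin 0 => j.elim0)
    · exact BL3_t1 c F i
    · exact BL3_t2 c F i
  · intro F
    refine Prod.ext (funext fun i => Prod.ext ?_ ?_) (funext fun j : Fin 0 => j.elim0)
    · exact BL3_w1 F i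
    · exact BL3_w2 F i

/-- Projective bundles with fibre the binary forms of degree `n`. -/
theorem bl_form {m : ℕ} {A : NA k Y} {s : Set Y} (h : NGood m A s) (n : ℕ)
    (hm : m = 1 ∨ (m = 2 ∧ Even n)) :
    ncl (A.prod (NA.ofPGL k (ℙ k (Form k n)))) (s ×ˢ Set.univ) = (br (n + 1)) • ncl A s ∧
    tcl (A.prod (NA.ofPGL k (ℙ k (Form k n)))).toTA (s ×ˢ Set.univ) =
      (br (n + 1)) • tcl A.toTA s ∧
    NGood m (A.prod (NA.ofPGL k (ℙ k (Form k n)))) (s ×ˢ Set.univ) := by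
  obtain ⟨φ, dφ, ht, hw⟩ := blkForm_equiv (k := k) n
  rw [← blkForm_dim (k := k) n]
  refine n_proj_of h (blkForm k n) ?_ (NA.ofPGL k (ℙ k (Form k n))) φ dφ ?_ ?_
  · intro i
    show (m : ℤ) ∣ -((i : ℕ) : ℤ) - (((i : ℕ) : ℤ) - n)
    rcases hm with rfl | ⟨rfl, hn⟩
    · exact one_dvd _
    · obtain ⟨r, rfl⟩ := hn
      refine ⟨(r : ℤ) - (i : ℕ), ?_⟩
      push_cast
      ring
  · rintro c v x ⟨hv, rfl⟩
    rw [← ht, LinearEquiv.symm_apply_apply]
    refine ⟨(smul_ne_zero_iff_ne _).mpr hv, ?_⟩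
    show _ = tor c • Projectivization.mk k v hv
    rw [tor_eq, form_pgl_mk]
  · rintro v x ⟨hv, rfl⟩
    rw [← hw, LinearEquiv.symm_apply_apply]
    refine ⟨(smul_ne_zero_iff_ne _).mpr hv, ?_⟩
    show _ = swp k • Projectivization.mk k v hv
    rw [swp_eq, form_pgl_mk]

/-- Projective bundles with fibre the pairs of binary forms of degree `d`. -/
theorem bl_sm {m : ℕ} {A : NA k Y} {s : Set Y} (h : NGood m A s) (d : ℕ)
    (hm : m = 1 ∨ (m = 2 ∧ Odd d)) :
    ncl (A.prod (NA.ofPGL k (ℙ k (SM k d)))) (s ×ˢ Set.univ) = (br (2 * d + 2)) • ncl A s ∧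
    tcl (A.prod (NA.ofPGL k (ℙ k (SM k d)))).toTA (s ×ˢ Set.univ) =
      (br (2 * d + 2)) • tcl A.toTA s ∧
    NGood m (A.prod (NA.ofPGL k (ℙ k (SM k d)))) (s ×ˢ Set.univ) := by
  obtain ⟨φ, dφ, ht, hw⟩ := blkSM_equiv (k := k) d
  rw [← blkSM_dim (k := k) d]
  refine n_proj_of h (blkSM k d) ?_ (NA.ofPGL k (ℙ k (SM k d))) φ dφ ?_ ?_
  · intro i
    show (m : ℤ) ∣ 1 - ((i : ℕ) : ℤ) - (((i : ℕ) : ℤ) - d)
    rcases hm with rfl | ⟨rfl, hn⟩
    · exact one_dvd _
    · obtain ⟨r, rfl⟩ := hn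
      refine ⟨(r : ℤ) + 1 - (i : ℕ), ?_⟩
      push_cast
      ring
  · rintro c v x ⟨hv, rfl⟩
    rw [← ht, LinearEquiv.symm_apply_apply]
    refine ⟨(smul_ne_zero_iff_ne _).mpr hv, ?_⟩
    show _ = tor c • Projectivization.mk k v hv
    rw [tor_eq, sm_pgl_mk]
  · rintro v x ⟨hv, rfl⟩
    rw [← hw, LinearEquiv.symm_apply_apply]
    refine ⟨(smul_ne_zero_iff_ne _).mpr hv, ?_⟩
    show _ = swp k • Projectivization.mk k v hv
    rw [swp_eq, sm_pgl_mk]

/-- The block data of the standard representation. -/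
private def BL1_blk (k : Type) [Field k] : Blk k where
  p := 1
  q := 0
  e := 1
  a _ := 1
  b _ := 0
  hab _ := by ring
  h j := j.elim0
  hh j := j.elim0
  ε j := j.elim0
  hε j := j.elim0

private def BL1_equiv (k : Type) [Field k] : (Fin 2 → k) ≃ₗ[k] (BL1_blk k).W where
  toFun v := (fun _ => (v 0, v 1), fun j => Fin.elim0 j)
  map_add' v w := by
    refine Prod.ext ?_ ?_
    · rfl
    · funext j
      exact Fin.elim0 j
  map_smul' c v := by
    refine Prod.ext ?_ ?_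
    · rfl
    · funext j
      exact Fin.elim0 j
  invFun w := ![(w.1 (0 : Fin 1)).1, (w.1 (0 : Fin 1)).2]
  left_inv v := by
    funext i
    fin_cases i <;> rfl
  right_inv w := by
    refine Prod.ext ?_ ?_
    · funext i
      have hi : i = (0 : Fin 1) := Subsingleton.elim (α := Fin 1) _ _
      subst hi
      rfl
    · funext j
      exact Fin.elim0 j

/-- Projective bundles with fibre `ℙ¹`. -/
theorem bl_P1 {A : NA k Y} {s : Set Y} (h : NGood 1 A s) :
    ncl (A.prod (NA.ofPGL k (PL k))) (s ×ˢ Set.univ) = (br 2) • ncl A s ∧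
    tcl (A.prod (NA.ofPGL k (PL k))).toTA (s ×ˢ Set.univ) = (br 2) • tcl A.toTA s ∧
    NGood 1 (A.prod (NA.ofPGL k (PL k))) (s ×ˢ Set.univ) := by
  refine n_proj_of h (BL1_blk k) (fun i => by simp) (NA.ofPGL k (PL k)) (BL1_equiv k) ?_ ?_ ?_
  · refine DM.mk (DM.pi fun i => ?_) (DM.pi fun j => Fin.elim0 j)
    show DM k (fun v : Fin 2 → k => (v 0, v 1))
    exact DM.mk (DM.apply 0) (DM.apply 1)
  · rintro c v x ⟨hv, rfl⟩
    have e : (BL1_equiv k).symm ((BL1_blk k).tv c ((BL1_equiv k) v)) = ![(c : k) * v 0, v 1] := by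
      funext i
      fin_cases i
      · show ((c ^ (1 : ℤ) : kˣ) : k) * v 0 = (c : k) * v 0
        rw [zpow_one]
      · show ((c ^ (0 : ℤ) : kˣ) : k) * v 1 = v 1
        rw [zpow_zero, Units.val_one, one_mul]
    rw [e]
    refine ⟨?_, ?_⟩
    · intro h0
      apply hv
      have h1 := congrFun h0 0
      have h2 := congrFun h0 1
      simp at h1 h2
      funext i
      fin_cases i
      · exact h1
      · exact h2
    · symm
      show tor c • Projectivization.mk k v hv = _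
      unfold tor
      rw [gm_smul_mk]
      congr 1
      funext i
      fin_cases i <;> simp
  · rintro v x ⟨hv, rfl⟩
    have e : (BL1_equiv k).symm ((BL1_blk k).wv ((BL1_equiv k) v)) = ![v 1, v 0] := by
      funext i
      fin_cases i <;> rfl
    rw [e]
    refine ⟨?_, ?_⟩
    · intro h0
      apply hv
      have h1 := congrFun h0 0
      have h2 := congrFun h0 1
      simp at h1 h2
      funext i
      fin_cases i
      · exact h2
      · exact h1
    · symm
      show swp k • Projectivization.mk k v hv = _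
      unfold swp
      rw [gm_smul_mk]
      congr 1
      funext i
      fin_cases i <;> simp

/-- The class of the orbits under the normaliser of the torus. -/
theorem ncl_relN [MulAction PGL(2, k) Y] [DAct k PGL(2, k) Y] (s : Set Y) :
    ncl (NA.ofPGL k Y) s = clq k s (relN k) := by
  unfold ncl
  apply clq_congr
  intro x _ y _
  constructor
  · rintro ⟨c, hc | hc⟩
    · exact ⟨c, Or.inl hc⟩
    · refine ⟨c, Or.inr ?_⟩
      rw [mul_smul]
      exact hc
  · rintro ⟨c, hc | hc⟩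
    · exact ⟨c, Or.inl hc⟩
    · refine ⟨c, Or.inr ?_⟩
      rw [mul_smul] at hc
      exact hc

/-- The `N`-space of a product. -/
theorem ofPGL_prod [MulAction PGL(2, k) Y] [DAct k PGL(2, k) Y] [MulAction PGL(2, k) Z]
    [DAct k PGL(2, k) Z] : NA.ofPGL k (Y × Z) = (NA.ofPGL k Y).prod (NA.ofPGL k Z) := rfl

end

end Pool.Agent.MRat
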