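import Pool.Agent.Lib.MP_923aff_ag.HB
/-!
# JOB BRA: elimination of imaginaries

Every definable equivalence relation is the kernel of a definable map. Proof: let `F x` be the
canonical finite subset of the class of `x` (`class_multisection`), `N` its bound, and `p i`
(`i : Fin M`) the functions of `separating α (2 * N)`. Take `π x = (∑ z ∈ F x, p i z)_i` together
with the constant part: if `F x ≠ F y` (as sets) for non-equivalent `x`, `y` they are even disjoint;
pick `a ∈ F x` and a combination `c` of the `p i` equal to `1` at `a` and `0` at the other points of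
`F x ∪ F y`; then `∑ i, c i * (∑ z ∈ F x, p i z) = 1 ≠ 0 = ∑ i, c i * (∑ z ∈ F y, p i z)`.
Definability: `DF.finsum`, `DF.pi`.
-/

set_option autoImplicit false

namespace Pool.Agent.MRat

variable {k : Type} [Field k] [IsAlgClosed k] [CharZero k]
variable {α β γ δ : Type} [Amb k α] [Amb k β] [Amb k γ] [Amb k δ]

theorem elim_imag {s : Set α} {r : α → α → Prop} (h : Good k s r) :
    ∃ (m : ℕ) (π : α → Fin m → k), DF k π ∧ ∀ x ∈ s, ∀ y ∈ s, (r x y ↔ π x = π y) := by
  classical
  obtain ⟨F, N, hF, hFs, hFne, hFfin, hFcan⟩ := class_multisection h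
  obtain ⟨M, p, hp, hsep⟩ := separating (k := k) α (2 * N)
  refine ⟨M, fun x i => ∑ᶠ z ∈ {z | F x z}, p i z, ?_, ?_⟩
  · apply DF.pi
    intro i
    exact DF.finsum (k := k) (R := F) hF hFfin (f := fun _ z => p i z) ((hp i).comp DF.snd)
  · intro x hx y hy
    have hsum : ∀ x i, ∑ᶠ z ∈ {z | F x z}, p i z = ∑ z ∈ (hFfin x).1.toFinset, p i z := by
      intro x i
      rw [finsum_mem_eq_finite_toFinset_sum _ (hFfin x).1]
    constructor
    · intro hxy
      funext i
      have hset : {z | F x z} = {z | F y z} := by
        ext z
        exact hFcan x hx y hy hxy z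
      show ∑ᶠ z ∈ {z | F x z}, p i z = ∑ᶠ z ∈ {z | F y z}, p i z
      rw [hset]
    · intro hπ
      by_contra hxy
      obtain ⟨a, ha⟩ := hFne x hx
      have hcard : ((hFfin x).1.toFinset ∪ (hFfin y).1.toFinset).card ≤ 2 * N := by
        refine (Finset.card_union_le _ _).trans ?_
        rw [← Set.ncard_eq_toFinset_card _ (hFfin x).1, ← Set.ncard_eq_toFinset_card _ (hFfin y).1]
        have h1 := (hFfin x).2
        have h2 := (hFfin y).2
        omega
      obtain ⟨c, hc1, hc0⟩ := hsep _ hcard a (by simp [ha])
      have hval : ∀ S : Finset α, S ⊆ (hFfin x).1.toFinset ∪ (hFfin y).1.toFinset →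
          ∑ i, c i * ∑ z ∈ S, p i z = if a ∈ S then 1 else 0 := by
        intro S hS
        calc ∑ i, c i * ∑ z ∈ S, p i z = ∑ z ∈ S, ∑ i, c i * p i z := by
              rw [Finset.sum_comm]
              apply Finset.sum_congr rfl
              intro i _
              rw [Finset.mul_sum]
          _ = ∑ z ∈ S, if z = a then 1 else 0 := by
              apply Finset.sum_congr rfl
              intro z hz
              by_cases hza : z = a
              · rw [if_pos hza, hza, hc1]
              · rw [if_neg hza, hc0 z (hS hz) hza]
          _ = if a ∈ S then 1 else 0 := by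
              rw [Finset.sum_ite_eq']
      have e1 := hval _ Finset.subset_union_left
      have e2 := hval _ Finset.subset_union_right
      have e3 : ∀ i, ∑ z ∈ (hFfin x).1.toFinset, p i z = ∑ z ∈ (hFfin y).1.toFinset, p i z := by
        intro i
        rw [← hsum, ← hsum]
        exact congrFun hπ i
      have hay : a ∉ (hFfin y).1.toFinset := by
        intro hay
        have hay' : F y a := by simpa using hay
        obtain ⟨has, hya⟩ := hFs y hy a hay'
        obtain ⟨_, hxa⟩ := hFs x hx a ha
        exact hxy (h.trans x hx a has y hy hxa (h.symm y hy a has hya))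
      rw [if_pos (by simp [ha])] at e1
      rw [if_neg hay] at e2
      simp_rw [e3] at e1
      rw [e2] at e1
      exact zero_ne_one e1

end Pool.Agent.MRat
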