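import Pool.Agent.Lib.MP_923aff_ag.HB
/-!
# JOB BRB: additive invariants of affine pieces extend to constructible sets

An (affine) piece of `k ^ n` is a set `{x | p x = 0 for all p ∈ I, q x ≠ 0}`.
For polynomials `p 0, .., p (r-1)` and `ε : Fin r → Bool` the atom of `A` is
`A ∩ ⋂ i, {p i = 0 or ≠ 0 according to ε i}`; atoms of a piece are pieces.
Additivity gives `c A = ∑ ε, c (atom ε)` (induction on `r`). A constructible set `S` is a union of atoms of
`univ` for a suitable list (induction on `Con`); define `cc S` as the sum of `c` over the atoms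
contained in `S`, empty atoms being harmless since `c ∅ = 0` (from additivity applied with `p = 0` to `∅`).
It does not depend on the list (compare two lists with their concatenation).
-/

set_option autoImplicit false

namespace Pool.Agent.MRat

/-- Affine pieces: basic locally closed subsets of `k ^ n`. -/
def IsPiece (k : Type) [Field k] {n : ℕ} (A : Set (Fin n → k)) : Prop :=
  ∃ (I : Set (MvPolynomial (Fin n) k)) (q : MvPolynomial (Fin n) k),
    A = {x | (∀ p ∈ I, MvPolynomial.eval x p = 0) ∧ MvPolynomial.eval x q ≠ 0}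

/-- `f` is given on `A` by fractions of polynomials with nowhere vanishing denominators. -/
def RatlOn (k : Type) [Field k] {n m : ℕ} (A : Set (Fin n → k)) (f : (Fin n → k) → (Fin m → k)) :
    Prop :=
  ∃ P Q : Fin m → MvPolynomial (Fin n) k, ∀ x ∈ A, ∀ j,
    MvPolynomial.eval x (Q j) ≠ 0 ∧ f x j = MvPolynomial.eval x (P j) / MvPolynomial.eval x (Q j)

/-- An additive and isomorphism invariant function on affine pieces with values in `K`. -/
structure PieceInv (k : Type) [Field k] (K : Type*) [AddCommGroup K] where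
  c : ∀ n : ℕ, Set (Fin n → k) → K
  add : ∀ (n : ℕ) (A : Set (Fin n → k)) (p : MvPolynomial (Fin n) k), IsPiece k A →
    c n A = c n (A ∩ {x | MvPolynomial.eval x p = 0}) + c n (A ∩ {x | MvPolynomial.eval x p ≠ 0})
  iso : ∀ (n m : ℕ) (A : Set (Fin n → k)) (B : Set (Fin m → k)), IsPiece k A → IsPiece k B →
    ∀ (f : (Fin n → k) → (Fin m → k)) (g : (Fin m → k) → (Fin n → k)),
      RatlOn k A f → RatlOn k B g → (∀ x ∈ A, f x ∈ B ∧ g (f x) = x) →
      (∀ y ∈ B, g y ∈ A ∧ f (g y) = y) → c n A = c m B

variable {k : Type} [Field k] {K : Type*} [AddCommGroup K] {n : ℕ}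

/-! ### Helper notions -/

section brb

variable {k : Type} [Field k] {n : ℕ}

private theorem brb_zero_piece (p : MvPolynomial (Fin n) k) :
    IsPiece k {x | MvPolynomial.eval x p = 0} :=
  ⟨{p}, 1, by ext x; simp⟩

private theorem brb_ne_piece (p : MvPolynomial (Fin n) k) :
    IsPiece k {x | MvPolynomial.eval x p ≠ 0} :=
  ⟨∅, p, by ext x; simp⟩

private theorem brb_univ_piece : IsPiece k (Set.univ : Set (Fin n → k)) :=
  ⟨∅, 1, by ext x; simp⟩

private theorem brb_empty_piece : IsPiece k (∅ : Set (Fin n → k)) :=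
  ⟨∅, 0, by ext x; simp⟩

end brb

theorem IsPiece.inter {A B : Set (Fin n → k)} (hA : IsPiece k A) (hB : IsPiece k B) :
    IsPiece k (A ∩ B) := by
  obtain ⟨I, q, rfl⟩ := hA
  obtain ⟨J, q', rfl⟩ := hB
  refine ⟨I ∪ J, q * q', ?_⟩
  ext x
  simp only [Set.mem_inter_iff, Set.mem_ofPred_eq, Set.mem_union, map_mul, ne_eq, mul_eq_zero,
    not_or]
  constructor
  · rintro ⟨⟨h1, h2⟩, h3, h4⟩
    refine ⟨?_, h2, h4⟩
    rintro p (hp | hp)
    · exact h1 p hp
    · exact h3 p hp
  · rintro ⟨h1, h2, h4⟩
    exact ⟨⟨fun p hp => h1 p (Or.inl hp), h2⟩, fun p hp => h1 p (Or.inr hp), h4⟩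

private theorem brb_z {A : Set (Fin n → k)} (hA : IsPiece k A) (p : MvPolynomial (Fin n) k) :
    IsPiece k (A ∩ {x | MvPolynomial.eval x p = 0}) := hA.inter (brb_zero_piece p)

private theorem brb_nz {A : Set (Fin n → k)} (hA : IsPiece k A) (p : MvPolynomial (Fin n) k) :
    IsPiece k (A ∩ {x | MvPolynomial.eval x p ≠ 0}) := hA.inter (brb_ne_piece p)

theorem IsPiece.con {A : Set (Fin n → k)} (hA : IsPiece k A) : Con k n A := by
  obtain ⟨I, q, rfl⟩ := hA
  obtain ⟨s, hs⟩ : (Ideal.span I).FG := IsNoetherian.noetherian (Ideal.span I)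
  have key : ∀ x : Fin n → k, (∀ p ∈ I, MvPolynomial.eval x p = 0) ↔
      (∀ p ∈ s, MvPolynomial.eval x p = 0) := by
    intro x
    have h1 : ∀ T : Set (MvPolynomial (Fin n) k), (∀ p ∈ T, MvPolynomial.eval x p = 0) ↔
        Ideal.span T ≤ RingHom.ker (MvPolynomial.eval x) := by
      intro T
      rw [Ideal.span_le]
      exact Iff.rfl
    rw [h1, ← hs]
    exact (h1 _).symm
  have e : {x : Fin n → k | (∀ p ∈ I, MvPolynomial.eval x p = 0) ∧ MvPolynomial.eval x q ≠ 0} =
      (⋂ p : s, {x | MvPolynomial.eval x (p : MvPolynomial (Fin n) k) = 0}) ∩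
        {x | MvPolynomial.eval x q = 0}ᶜ := by
    ext x
    simp only [Set.mem_ofPred_eq, Set.mem_inter_iff, Set.mem_iInter, Set.mem_compl_iff]
    rw [key x]
    constructor
    · rintro ⟨h1, h2⟩
      exact ⟨fun p => h1 p p.2, h2⟩
    · rintro ⟨h1, h2⟩
      exact ⟨fun p hp => h1 ⟨p, hp⟩, h2⟩
  rw [e]
  exact Con.inter _ _ (Con.iInter fun p => Con.zero _) (Con.compl _ (Con.zero q))

/-- The list `L` of polynomials resolves `S` on `A`: every atom of `A` is contained in `S` or
disjoint from `S`. -/
private def brbRes (S : Set (Fin n → k)) :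
    List (MvPolynomial (Fin n) k) → Set (Fin n → k) → Prop
  | [], A => A ⊆ S ∨ A ∩ S = ∅
  | p :: L, A => brbRes S L (A ∩ {x | MvPolynomial.eval x p = 0}) ∧
      brbRes S L (A ∩ {x | MvPolynomial.eval x p ≠ 0})

open Classical in
/-- The sum of `c` over the atoms of `A` contained in `S`. -/
private noncomputable def brbVal (c : PieceInv k K) (S : Set (Fin n → k)) :
    List (MvPolynomial (Fin n) k) → Set (Fin n → k) → K
  | [], A => if A ⊆ S then c.c n A else 0
  | p :: L, A => brbVal c S L (A ∩ {x | MvPolynomial.eval x p = 0}) +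
      brbVal c S L (A ∩ {x | MvPolynomial.eval x p ≠ 0})

private theorem brb_c_empty (c : PieceInv k K) : c.c n (∅ : Set (Fin n → k)) = 0 := by
  have h := c.add n ∅ 0 brb_empty_piece
  rw [Set.empty_inter, Set.empty_inter] at h
  exact left_eq_add.1 h

private theorem brbRes_mono {S : Set (Fin n → k)} (L : List (MvPolynomial (Fin n) k))
    {A B : Set (Fin n → k)} (hBA : B ⊆ A) (h : brbRes S L A) : brbRes S L B := by
  induction L generalizing A B with
  | nil =>
    rcases h with h | h
    · exact Or.inl (hBA.trans h)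
    · exact Or.inr (Set.subset_empty_iff.1 (h ▸ Set.inter_subset_inter_left S hBA))
  | cons p L ih =>
    exact ⟨ih (Set.inter_subset_inter_left _ hBA) h.1, ih (Set.inter_subset_inter_left _ hBA) h.2⟩

private theorem brbRes_of_nil {S : Set (Fin n → k)} (L : List (MvPolynomial (Fin n) k))
    {A : Set (Fin n → k)} (h : brbRes S [] A) : brbRes S L A := by
  induction L generalizing A with
  | nil => exact h
  | cons p L ih =>
    exact ⟨ih (brbRes_mono [] Set.inter_subset_left h), ih (brbRes_mono [] Set.inter_subset_left h)⟩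

private theorem brbRes_append_left {S : Set (Fin n → k)} (L L' : List (MvPolynomial (Fin n) k))
    {A : Set (Fin n → k)} (h : brbRes S L A) : brbRes S (L ++ L') A := by
  induction L generalizing A with
  | nil => exact brbRes_of_nil L' h
  | cons p L ih => exact ⟨ih h.1, ih h.2⟩

private theorem brbRes_append_right {S : Set (Fin n → k)} (L L' : List (MvPolynomial (Fin n) k))
    {A : Set (Fin n → k)} (h : brbRes S L' A) : brbRes S (L ++ L') A := by
  induction L generalizing A with
  | nil => exact h
  | cons p L ih =>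
    exact ⟨ih (brbRes_mono L' Set.inter_subset_left h),
      ih (brbRes_mono L' Set.inter_subset_left h)⟩

private theorem brbRes_compl {S : Set (Fin n → k)} (L : List (MvPolynomial (Fin n) k))
    {A : Set (Fin n → k)} (h : brbRes S L A) : brbRes Sᶜ L A := by
  induction L generalizing A with
  | nil =>
    rcases h with h | h
    · right
      ext x
      simp only [Set.mem_inter_iff, Set.mem_compl_iff, Set.mem_empty_iff_false, iff_false, not_and,
        not_not]
      exact fun hx => h hx
    · left
      intro x hx hxS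
      have : x ∈ A ∩ S := ⟨hx, hxS⟩
      rw [h] at this
      exact this
  | cons p L ih => exact ⟨ih h.1, ih h.2⟩

private theorem brbRes_inter {S T : Set (Fin n → k)} (L : List (MvPolynomial (Fin n) k))
    {A : Set (Fin n → k)} (h : brbRes S L A) (h' : brbRes T L A) : brbRes (S ∩ T) L A := by
  induction L generalizing A with
  | nil =>
    rcases h with h | h
    · rcases h' with h' | h'
      · exact Or.inl (Set.subset_inter h h')
      · right
        rw [Set.inter_comm S T, ← Set.inter_assoc, h', Set.empty_inter]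
    · right
      rw [← Set.inter_assoc, h, Set.empty_inter]
  | cons p L ih => exact ⟨ih h.1 h'.1, ih h.2 h'.2⟩

private theorem brbRes_union {S T : Set (Fin n → k)} (L : List (MvPolynomial (Fin n) k))
    {A : Set (Fin n → k)} (h : brbRes S L A) (h' : brbRes T L A) : brbRes (S ∪ T) L A := by
  have h1 := brbRes_compl L (brbRes_inter L (brbRes_compl L h) (brbRes_compl L h'))
  rwa [← Set.compl_union, compl_compl] at h1

private theorem brbRes_exists {S : Set (Fin n → k)} (hS : Con k n S) :
    ∃ L, brbRes S L (Set.univ : Set (Fin n → k)) := by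
  induction hS with
  | zero p =>
    refine ⟨[p], Or.inl Set.inter_subset_right, Or.inr ?_⟩
    ext x
    simp only [Set.mem_inter_iff, Set.mem_univ, Set.mem_ofPred_eq, true_and,
      Set.mem_empty_iff_false, iff_false, not_and]
    exact fun h1 h2 => h1 h2
  | compl s _ ih =>
    obtain ⟨L, h⟩ := ih
    exact ⟨L, brbRes_compl L h⟩
  | inter s t _ _ ih1 ih2 =>
    obtain ⟨L, h⟩ := ih1
    obtain ⟨L', h'⟩ := ih2
    exact ⟨L ++ L', brbRes_inter _ (brbRes_append_left L L' h) (brbRes_append_right L L' h')⟩

private theorem brbVal_subset (c : PieceInv k K) {S : Set (Fin n → k)}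
    (L : List (MvPolynomial (Fin n) k)) {A : Set (Fin n → k)} (hA : IsPiece k A) (h : A ⊆ S) :
    brbVal c S L A = c.c n A := by
  induction L generalizing A with
  | nil => exact if_pos h
  | cons p L ih =>
    show brbVal c S L _ + brbVal c S L _ = _
    rw [ih (brb_z hA p) (Set.inter_subset_left.trans h),
      ih (brb_nz hA p) (Set.inter_subset_left.trans h), ← c.add n A p hA]

private theorem brbVal_disj (c : PieceInv k K) {S : Set (Fin n → k)}
    (L : List (MvPolynomial (Fin n) k)) {A : Set (Fin n → k)} (h : A ∩ S = ∅) :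
    brbVal c S L A = 0 := by
  classical
  induction L generalizing A with
  | nil =>
    unfold brbVal
    by_cases hs : A ⊆ S
    · rw [if_pos hs]
      rw [Set.inter_eq_left.2 hs] at h
      rw [h]
      exact brb_c_empty c
    · exact if_neg hs
  | cons p L ih =>
    show brbVal c S L _ + brbVal c S L _ = _
    rw [ih, ih, add_zero]
    · exact Set.subset_empty_iff.1 (h ▸ Set.inter_subset_inter_left S Set.inter_subset_left)
    · exact Set.subset_empty_iff.1 (h ▸ Set.inter_subset_inter_left S Set.inter_subset_left)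

private theorem brbVal_split (c : PieceInv k K) {S : Set (Fin n → k)}
    (L : List (MvPolynomial (Fin n) k)) {A : Set (Fin n → k)} (hA : IsPiece k A)
    (h : brbRes S L A) (p : MvPolynomial (Fin n) k) :
    brbVal c S L A = brbVal c S L (A ∩ {x | MvPolynomial.eval x p = 0}) +
      brbVal c S L (A ∩ {x | MvPolynomial.eval x p ≠ 0}) := by
  induction L generalizing A with
  | nil =>
    rcases h with h | h
    · rw [brbVal_subset c [] hA h, brbVal_subset c [] (brb_z hA p) (Set.inter_subset_left.trans h),
        brbVal_subset c [] (brb_nz hA p) (Set.inter_subset_left.trans h), ← c.add n A p hA]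
    · rw [brbVal_disj c [] h, brbVal_disj c [], brbVal_disj c [], add_zero]
      · exact Set.subset_empty_iff.1 (h ▸ Set.inter_subset_inter_left S Set.inter_subset_left)
      · exact Set.subset_empty_iff.1 (h ▸ Set.inter_subset_inter_left S Set.inter_subset_left)
  | cons q L ih =>
    show brbVal c S L _ + brbVal c S L _ = (brbVal c S L _ + brbVal c S L _) +
      (brbVal c S L _ + brbVal c S L _)
    rw [ih (brb_z hA q) h.1, ih (brb_nz hA q) h.2,
      Set.inter_right_comm A {x | MvPolynomial.eval x q = 0} {x | MvPolynomial.eval x p = 0},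
      Set.inter_right_comm A {x | MvPolynomial.eval x q = 0} {x | MvPolynomial.eval x p ≠ 0},
      Set.inter_right_comm A {x | MvPolynomial.eval x q ≠ 0} {x | MvPolynomial.eval x p = 0},
      Set.inter_right_comm A {x | MvPolynomial.eval x q ≠ 0} {x | MvPolynomial.eval x p ≠ 0}]
    exact add_add_add_comm _ _ _ _

private theorem brbVal_indep (c : PieceInv k K) {S : Set (Fin n → k)}
    (L L' : List (MvPolynomial (Fin n) k)) {A : Set (Fin n → k)} (hA : IsPiece k A)
    (h : brbRes S L A) (h' : brbRes S L' A) : brbVal c S L A = brbVal c S L' A := by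
  induction L generalizing A with
  | nil =>
    rcases h with h | h
    · rw [brbVal_subset c [] hA h, brbVal_subset c L' hA h]
    · rw [brbVal_disj c [] h, brbVal_disj c L' h]
  | cons p L ih =>
    show brbVal c S L _ + brbVal c S L _ = _
    rw [ih (brb_z hA p) h.1 (brbRes_mono L' Set.inter_subset_left h'),
      ih (brb_nz hA p) h.2 (brbRes_mono L' Set.inter_subset_left h'),
      ← brbVal_split c L' hA h' p]

private theorem brbVal_union (c : PieceInv k K) {S T : Set (Fin n → k)}
    (L : List (MvPolynomial (Fin n) k)) {A : Set (Fin n → k)} (hA : IsPiece k A)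
    (h : brbRes S L A) (h' : brbRes T L A) (hd : Disjoint S T) :
    brbVal c (S ∪ T) L A = brbVal c S L A + brbVal c T L A := by
  induction L generalizing A with
  | nil =>
    rcases h with h | h
    · have h2 : A ∩ T = ∅ :=
        Set.disjoint_iff_inter_eq_empty.1 (hd.mono_left h)
      rw [brbVal_subset c [] hA (h.trans Set.subset_union_left), brbVal_subset c [] hA h,
        brbVal_disj c [] h2, add_zero]
    · rcases h' with h' | h'
      · rw [brbVal_subset c [] hA (h'.trans Set.subset_union_right), brbVal_subset c [] hA h',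
          brbVal_disj c [] h, zero_add]
      · rw [brbVal_disj c [] h, brbVal_disj c [] h', brbVal_disj c [], add_zero]
        rw [Set.inter_union_distrib_left, h, h', Set.union_empty]
  | cons p L ih =>
    show brbVal c (S ∪ T) L _ + brbVal c (S ∪ T) L _ = (brbVal c S L _ + brbVal c S L _) +
      (brbVal c T L _ + brbVal c T L _)
    rw [ih (brb_z hA p) h.1 h'.1, ih (brb_nz hA p) h.2 h'.2]
    exact add_add_add_comm _ _ _ _

private theorem brbVal_piece (c : PieceInv k K) {S : Set (Fin n → k)} (hS : IsPiece k S)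
    (L : List (MvPolynomial (Fin n) k)) {A : Set (Fin n → k)} (hA : IsPiece k A)
    (h : brbRes S L A) : brbVal c S L A = c.c n (A ∩ S) := by
  induction L generalizing A with
  | nil =>
    rcases h with h | h
    · rw [brbVal_subset c [] hA h, Set.inter_eq_left.2 h]
    · rw [brbVal_disj c [] h, h, brb_c_empty c]
  | cons p L ih =>
    show brbVal c S L _ + brbVal c S L _ = _
    rw [ih (brb_z hA p) h.1, ih (brb_nz hA p) h.2, Set.inter_right_comm A _ S,
      Set.inter_right_comm A _ S, ← c.add n (A ∩ S) p (hA.inter hS)]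

private theorem brb_pieces {S : Set (Fin n → k)} (L : List (MvPolynomial (Fin n) k))
    {A : Set (Fin n → k)} (hA : IsPiece k A) (h : brbRes S L A) :
    ∃ (ι : Type) (_ : Finite ι) (B : ι → Set (Fin n → k)), (∀ i, IsPiece k (B i)) ∧
      (∀ i j, i ≠ j → Disjoint (B i) (B j)) ∧ A ∩ S = ⋃ i, B i := by
  induction L generalizing A with
  | nil =>
    rcases h with h | h
    · refine ⟨Unit, inferInstance, fun _ => A, fun _ => hA, fun i j hij => (hij rfl).elim, ?_⟩
      rw [Set.iUnion_const, Set.inter_eq_left.2 h]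
    · refine ⟨Empty, inferInstance, fun i => i.elim, fun i => i.elim, fun i => i.elim, ?_⟩
      rw [Set.iUnion_of_empty, h]
  | cons p L ih =>
    obtain ⟨ι, hι, B, hB1, hB2, hB3⟩ := ih (brb_z hA p) h.1
    obtain ⟨ι', hι', B', hB1', hB2', hB3'⟩ := ih (brb_nz hA p) h.2
    have hB0 : ∀ i, B i ⊆ {x | MvPolynomial.eval x p = 0} := fun i x hx => by
      have : x ∈ A ∩ {x | MvPolynomial.eval x p = 0} ∩ S := by
        rw [hB3]; exact Set.mem_iUnion.2 ⟨i, hx⟩
      exact this.1.2
    have hB0' : ∀ i, B' i ⊆ {x | MvPolynomial.eval x p ≠ 0} := fun i x hx => by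
      have : x ∈ A ∩ {x | MvPolynomial.eval x p ≠ 0} ∩ S := by
        rw [hB3']; exact Set.mem_iUnion.2 ⟨i, hx⟩
      exact this.1.2
    have hd : ∀ i j, Disjoint (B i) (B' j) := fun i j => by
      rw [Set.disjoint_left]
      intro x hx hx'
      exact hB0' j hx' (hB0 i hx)
    refine ⟨ι ⊕ ι', inferInstance, Sum.elim B B', ?_, ?_, ?_⟩
    · rintro (i | i)
      · exact hB1 i
      · exact hB1' i
    · rintro (i | i) (j | j) hij
      · exact hB2 i j (fun h => hij (h ▸ rfl))
      · exact hd i j
      · exact (hd j i).symm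
      · exact hB2' i j (fun h => hij (h ▸ rfl))
    · rw [Set.iUnion_sum]
      simp only [Sum.elim_inl, Sum.elim_inr]
      rw [← hB3, ← hB3']
      ext x
      simp only [Set.mem_inter_iff, Set.mem_union, Set.mem_ofPred_eq]
      tauto

/-- every constructible set is a finite disjoint union of pieces -/
theorem Con.pieces {S : Set (Fin n → k)} (hS : Con k n S) :
    ∃ (r : ℕ) (A : Fin r → Set (Fin n → k)), (∀ i, IsPiece k (A i)) ∧
      (∀ i j, i ≠ j → Disjoint (A i) (A j)) ∧ S = ⋃ i, A i := by
  obtain ⟨L, hL⟩ := brbRes_exists hS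
  obtain ⟨ι, hι, B, hB1, hB2, hB3⟩ := brb_pieces L brb_univ_piece hL
  let e := Finite.equivFin ι
  refine ⟨Nat.card ι, fun i => B (e.symm i), fun i => hB1 _, fun i j hij => hB2 _ _ ?_, ?_⟩
  · exact fun h => hij (e.symm.injective h)
  · rw [Set.univ_inter] at hB3
    rw [hB3]
    exact (e.symm.surjective.iUnion_comp B).symm

open Classical in
/-- The extension of a piece invariant to constructible sets. -/
theorem PieceInv.exists_ext (c : PieceInv k K) (n : ℕ) :
    ∃ cc : Set (Fin n → k) → K, (∀ A, IsPiece k A → cc A = c.c n A) ∧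
      ∀ S T : Set (Fin n → k), Con k n S → Con k n T → Disjoint S T →
        cc (S ∪ T) = cc S + cc T := by
  let cc : Set (Fin n → k) → K := fun S =>
    if h : ∃ L, brbRes S L (Set.univ : Set (Fin n → k)) then brbVal c S h.choose Set.univ else 0
  have key : ∀ (S : Set (Fin n → k)) (L : List (MvPolynomial (Fin n) k)),
      brbRes S L (Set.univ : Set (Fin n → k)) → cc S = brbVal c S L Set.univ := by
    intro S L hL
    have hex : ∃ L, brbRes S L (Set.univ : Set (Fin n → k)) := ⟨L, hL⟩
    show (if h : ∃ L, brbRes S L (Set.univ : Set (Fin n → k)) then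
      brbVal c S h.choose Set.univ else 0) = _
    rw [dif_pos hex]
    exact brbVal_indep c _ _ brb_univ_piece hex.choose_spec hL
  refine ⟨cc, fun A hA => ?_, fun S T hS hT hd => ?_⟩
  · obtain ⟨L, hL⟩ := brbRes_exists hA.con
    rw [key A L hL, brbVal_piece c hA L brb_univ_piece hL, Set.univ_inter]
  · obtain ⟨L, hL⟩ := brbRes_exists hS
    obtain ⟨L', hL'⟩ := brbRes_exists hT
    have h1 := brbRes_append_left L L' hL
    have h2 := brbRes_append_right L L' hL'
    rw [key S _ h1, key T _ h2, key (S ∪ T) _ (brbRes_union _ h1 h2)]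
    exact brbVal_union c _ brb_univ_piece h1 h2 hd

/-- The extension of a piece invariant to constructible sets. -/
noncomputable def PieceInv.cc (c : PieceInv k K) (n : ℕ) : Set (Fin n → k) → K :=
  (c.exists_ext n).choose

theorem PieceInv.cc_piece (c : PieceInv k K) {A : Set (Fin n → k)} (hA : IsPiece k A) :
    c.cc n A = c.c n A :=
  (c.exists_ext n).choose_spec.1 A hA

theorem PieceInv.cc_union (c : PieceInv k K) {S T : Set (Fin n → k)} (hS : Con k n S)
    (hT : Con k n T) (hd : Disjoint S T) : c.cc n (S ∪ T) = c.cc n S + c.cc n T :=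
  (c.exists_ext n).choose_spec.2 S T hS hT hd

theorem PieceInv.cc_empty (c : PieceInv k K) : c.cc n ∅ = 0 := by
  rw [c.cc_piece brb_empty_piece]
  exact brb_c_empty c

theorem PieceInv.cc_iUnion (c : PieceInv k K) {ι : Type} [Fintype ι] {S : ι → Set (Fin n → k)}
    (hS : ∀ i, Con k n (S i)) (hd : ∀ i j, i ≠ j → Disjoint (S i) (S j)) :
    c.cc n (⋃ i, S i) = ∑ i, c.cc n (S i) := by
  classical
  have key : ∀ t : Finset ι, Con k n (⋃ i ∈ t, S i) ∧
      c.cc n (⋃ i ∈ t, S i) = ∑ i ∈ t, c.cc n (S i) := by
    intro t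
    induction t using Finset.induction_on with
    | empty =>
      simp only [Finset.notMem_empty, Set.iUnion_of_empty, Set.iUnion_empty, Finset.sum_empty]
      exact ⟨Con.empty, c.cc_empty⟩
    | insert a t ha ih =>
      rw [Finset.set_biUnion_insert, Finset.sum_insert ha, ← ih.2]
      refine ⟨(hS a).union ih.1, c.cc_union (hS a) ih.1 ?_⟩
      rw [Set.disjoint_iUnion₂_right]
      intro i hi
      exact hd a i (fun h => ha (h ▸ hi))
  have h := (key Finset.univ).2
  simpa using h

end Pool.Agent.MRat
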