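import Pool.Agent.Lib.MP_923aff_ag.BrB
/-!
# JOB BRC: invariance under definable bijections

Let `f : S → S'` be a bijection of constructible sets with definable graph, `g` its inverse. By
`PR.of_graph_on` the coordinates of `f` and `g` agree on `S`, `S'` with `PR` functions. Refine: `S` is a finite
disjoint union of pieces `A` on which `f` is `RatlOn`, with `f(A)` inside one member of a partition of
`S'` into pieces on which `g` is `RatlOn`. `f(A)` is constructible (image), hence a finite disjoint union of pieces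
`B`; the set `A ∩ f⁻¹ B` is a piece (clear denominators: the denominators do not vanish on `A`), `f : A ∩ f⁻¹ B → B` is
bijective, rational with rational inverse. Sum up.
-/

set_option autoImplicit false

namespace Pool.Agent.MRat

section clear
variable {k : Type} [Field k]

private theorem brc_clear {n m : ℕ} (P Q : Fin m → MvPolynomial (Fin n) k)
    (p : MvPolynomial (Fin m) k) :
    ∃ N D : MvPolynomial (Fin n) k, ∀ x : Fin n → k, (∀ j, MvPolynomial.eval x (Q j) ≠ 0) →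
      MvPolynomial.eval x D ≠ 0 ∧
      MvPolynomial.eval (fun j => MvPolynomial.eval x (P j) / MvPolynomial.eval x (Q j)) p
        = MvPolynomial.eval x N / MvPolynomial.eval x D := by
  induction p using MvPolynomial.induction_on with
  | C a =>
    exact ⟨MvPolynomial.C a, 1, fun x _ => by simp⟩
  | add p q hp hq =>
    obtain ⟨N1, D1, h1⟩ := hp
    obtain ⟨N2, D2, h2⟩ := hq
    refine ⟨N1 * D2 + D1 * N2, D1 * D2, fun x hx => ?_⟩
    obtain ⟨a1, b1⟩ := h1 x hx
    obtain ⟨a2, b2⟩ := h2 x hx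
    refine ⟨by simp [a1, a2], ?_⟩
    rw [map_add, b1, b2, div_add_div _ _ a1 a2]
    simp
  | mul_X p j hp =>
    obtain ⟨N1, D1, h1⟩ := hp
    refine ⟨N1 * P j, D1 * Q j, fun x hx => ?_⟩
    obtain ⟨a1, b1⟩ := h1 x hx
    refine ⟨by simp [a1, hx j], ?_⟩
    rw [map_mul, b1, MvPolynomial.eval_X, div_mul_div_comm]
    simp

private theorem brc_ratlOn_mono {n m : ℕ} {A B : Set (Fin n → k)} {f : (Fin n → k) → (Fin m → k)}
    (h : RatlOn k B f) (hAB : A ⊆ B) : RatlOn k A f := by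
  obtain ⟨P, Q, h⟩ := h
  exact ⟨P, Q, fun x hx j => h x (hAB hx) j⟩

end clear

variable {k : Type} [Field k] [IsAlgClosed k] [CharZero k] {K : Type*} [AddCommGroup K]

theorem piece_preimage {n m : ℕ} {A : Set (Fin n → k)} {B : Set (Fin m → k)} (hA : IsPiece k A)
    (hB : IsPiece k B) {f : (Fin n → k) → (Fin m → k)} (hf : RatlOn k A f) :
    IsPiece k (A ∩ f ⁻¹' B) := by
  obtain ⟨I, q, rfl⟩ := hA
  obtain ⟨J, s, rfl⟩ := hB
  obtain ⟨P, Q, hPQ⟩ := hf
  choose N D hND using brc_clear P Q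
  have key : ∀ x ∈ {x : Fin n → k | (∀ p ∈ I, MvPolynomial.eval x p = 0) ∧
      MvPolynomial.eval x q ≠ 0}, ∀ r : MvPolynomial (Fin m) k,
      MvPolynomial.eval (f x) r = 0 ↔ MvPolynomial.eval x (N r) = 0 := by
    intro x hx r
    have h1 := hPQ x hx
    have h2 := hND r x (fun j => (h1 j).1)
    have h3 : f x = fun j => MvPolynomial.eval x (P j) / MvPolynomial.eval x (Q j) :=
      funext fun j => (h1 j).2
    rw [h3, h2.2, div_eq_zero_iff]
    exact ⟨fun h => h.resolve_right h2.1, fun h => Or.inl h⟩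
  refine ⟨I ∪ N '' J, q * N s, ?_⟩
  ext x
  constructor
  · rintro ⟨hx, hx1, hx2⟩
    refine ⟨?_, ?_⟩
    · rintro p (hp | ⟨r, hr, rfl⟩)
      · exact hx.1 p hp
      · exact (key x hx r).1 (hx1 r hr)
    · rw [map_mul]
      exact mul_ne_zero hx.2 (fun h => hx2 ((key x hx s).2 h))
  · rintro ⟨h1, h2⟩
    rw [map_mul] at h2
    have hx : x ∈ {x : Fin n → k | (∀ p ∈ I, MvPolynomial.eval x p = 0) ∧
      MvPolynomial.eval x q ≠ 0} := ⟨fun p hp => h1 p (Or.inl hp), left_ne_zero_of_mul h2⟩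
    refine ⟨hx, fun r hr => ?_, fun h => ?_⟩
    · exact (key x hx r).2 (h1 _ (Or.inr ⟨r, hr, rfl⟩))
    · exact right_ne_zero_of_mul h2 ((key x hx s).1 h)

/-- a finite constructible cover has a finite constructible partition subordinate to it -/
private theorem brc_disjoint {n : ℕ} {N : ℕ} {T : Fin N → Set (Fin n → k)}
    (hT : ∀ i, Con k n (T i)) : ∃ U : Fin N → Set (Fin n → k), (∀ i, Con k n (U i)) ∧
      (∀ i, U i ⊆ T i) ∧ (∀ i j, i ≠ j → Disjoint (U i) (U j)) ∧ (⋃ i, U i) = ⋃ i, T i := by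
  classical
  refine ⟨fun i => T i \ ⋃ j : {j // j < i}, T j, fun i => ?_, fun i => Set.sdiff_subset,
    fun i j hij => ?_, ?_⟩
  · exact (hT i).diff (Con.iUnion fun j => hT j)
  · rcases lt_or_gt_of_ne hij with h | h
    · rw [Set.disjoint_left]
      rintro x ⟨hx, _⟩ ⟨_, hx2⟩
      exact hx2 (Set.mem_iUnion.2 ⟨⟨i, h⟩, hx⟩)
    · rw [Set.disjoint_left]
      rintro x ⟨_, hx2⟩ ⟨hx, _⟩
      exact hx2 (Set.mem_iUnion.2 ⟨⟨j, h⟩, hx⟩)
  · apply Set.Subset.antisymm
    · exact Set.iUnion_mono fun i => Set.sdiff_subset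
    · intro x hx
      obtain ⟨i0, hi0⟩ := Set.mem_iUnion.1 hx
      have hex : ∃ t : ℕ, ∃ h : t < N, x ∈ T ⟨t, h⟩ := ⟨i0.1, i0.2, hi0⟩
      obtain ⟨h, hxt⟩ := Nat.find_spec hex
      refine Set.mem_iUnion.2 ⟨⟨Nat.find hex, h⟩, hxt, fun hx' => ?_⟩
      obtain ⟨⟨j, hj⟩, hxj⟩ := Set.mem_iUnion.1 hx'
      exact Nat.find_min hex (m := j.1) hj ⟨j.2, hxj⟩

/-- A definable function is rational on the members of a finite partition into pieces. -/
theorem exists_rational_pieces {n m : ℕ} {S : Set (Fin n → k)} (hS : Con k n S)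
    {f : (Fin n → k) → (Fin m → k)}
    (hf : DP k (fun p : (Fin n → k) × (Fin m → k) => p.1 ∈ S ∧ p.2 = f p.1)) :
    ∃ (r : ℕ) (A : Fin r → Set (Fin n → k)), (∀ i, IsPiece k (A i)) ∧
      (∀ i j, i ≠ j → Disjoint (A i) (A j)) ∧ S = ⋃ i, A i ∧ ∀ i, RatlOn k (A i) f := by
  classical
  have hgr : ∀ j : Fin m, Con k (n + 1)
      {z : Fin (n + 1) → k | (Fin.init z : Fin n → k) ∈ S ∧
        z (Fin.last n) = f (Fin.init z : Fin n → k) j} := by
    intro j
    refine dp_pi_iff.1 ?_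
    have hinit : DF k (fun z : Fin (n + 1) → k => (Fin.init z : Fin n → k)) :=
      DF.pi fun i => DF.apply DF.id (Fin.castSucc i)
    have h1 : DP k (fun q : (Fin (n + 1) → k) × (Fin m → k) =>
        ((Fin.init q.1 : Fin n → k) ∈ S ∧ q.2 = f (Fin.init q.1 : Fin n → k)) ∧
          q.2 j = q.1 (Fin.last n)) := by
      refine DP.and ?_ ?_
      · exact hf.comp (f := fun q : (Fin (n + 1) → k) × (Fin m → k) =>
          ((Fin.init q.1 : Fin n → k), q.2)) (DF.mk (DF.comp hinit DF.fst) DF.snd)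
      · exact DP.eq (DF.apply DF.snd j) (DF.apply DF.fst (Fin.last n))
    refine (DP.ex (P := fun (z : Fin (n + 1) → k) (b : Fin m → k) =>
      ((Fin.init z : Fin n → k) ∈ S ∧ b = f (Fin.init z : Fin n → k)) ∧
          b j = z (Fin.last n)) h1).congr fun z => ?_
    constructor
    · rintro ⟨b, ⟨h1, rfl⟩, h2⟩
      exact ⟨h1, h2.symm⟩
    · rintro ⟨h1, h2⟩
      exact ⟨_, ⟨h1, rfl⟩, h2.symm⟩
  choose g hg hgf using fun j => PR.of_graph_on hS (f := fun x => f x j) (hgr j)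
  choose r A P Q hA hcov hPQ using hg
  let e := Fintype.equivFin (∀ j, Fin (r j))
  obtain ⟨U, hU, hUT, hUd, hUU⟩ := brc_disjoint (k := k) (n := n)
    (N := Fintype.card (∀ j, Fin (r j)))
    (T := fun i => S ∩ ⋂ j, A j ((e.symm i) j))
    (fun i => Con.inter _ _ hS (Con.iInter fun j => hA j _))
  have hUS : (⋃ i, U i) = S := by
    rw [hUU]
    apply Set.Subset.antisymm
    · exact Set.iUnion_subset fun i => Set.inter_subset_left
    · intro x hx
      choose c hc using fun j => hcov j x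
      refine Set.mem_iUnion.2 ⟨e c, hx, ?_⟩
      rw [Set.mem_iInter]
      intro j
      rw [Equiv.symm_apply_apply]
      exact hc j
  choose s B hB hBd hUB using fun i => (hU i).pieces
  let e' := Fintype.equivFin (Σ i : Fin (Fintype.card (∀ j, Fin (r j))), Fin (s i))
  refine ⟨Fintype.card (Σ i : Fin (Fintype.card (∀ j, Fin (r j))), Fin (s i)),
    fun t => B (e'.symm t).1 (e'.symm t).2, fun t => hB _ _, fun t t' htt => ?_, ?_, fun t => ?_⟩
  · have hne : e'.symm t ≠ e'.symm t' := fun h => htt (e'.symm.injective h)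
    show Disjoint (B (e'.symm t).1 (e'.symm t).2) (B (e'.symm t').1 (e'.symm t').2)
    generalize e'.symm t = a at hne ⊢
    generalize e'.symm t' = b at hne ⊢
    obtain ⟨a1, a2⟩ := a
    obtain ⟨b1, b2⟩ := b
    by_cases h : a1 = b1
    · subst h
      exact hBd a1 a2 b2 (fun h => hne (by rw [h]))
    · have h3 := hUd a1 b1 h
      refine Set.disjoint_of_subset ?_ ?_ h3
      · show B a1 a2 ⊆ U a1
        rw [hUB a1]
        exact Set.subset_iUnion (B a1) a2
      · show B b1 b2 ⊆ U b1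
        rw [hUB b1]
        exact Set.subset_iUnion (B b1) b2
  · rw [← hUS]
    ext x
    simp only [Set.mem_iUnion]
    constructor
    · rintro ⟨i, hi⟩
      rw [hUB i] at hi
      obtain ⟨l, hl⟩ := Set.mem_iUnion.1 hi
      exact ⟨e' ⟨i, l⟩, by rw [Equiv.symm_apply_apply]; exact hl⟩
    · rintro ⟨t, ht⟩
      refine ⟨(e'.symm t).1, ?_⟩
      rw [hUB]
      exact Set.mem_iUnion.2 ⟨_, ht⟩
  · refine ⟨fun j => P j ((e.symm (e'.symm t).1) j), fun j => Q j ((e.symm (e'.symm t).1) j),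
      fun x hx j => ?_⟩
    have hxU : x ∈ U (e'.symm t).1 := by
      rw [hUB]
      exact Set.mem_iUnion.2 ⟨_, hx⟩
    have hxT := hUT _ hxU
    have h1 := hPQ j _ x (Set.mem_iInter.1 hxT.2 j)
    refine ⟨h1.1, ?_⟩
    rw [← h1.2]
    exact (hgf j x hxT.1).symm

theorem PieceInv.cc_bij (c : PieceInv k K) {n m : ℕ} {S : Set (Fin n → k)} {S' : Set (Fin m → k)}
    (hS : Con k n S) (hS' : Con k m S') {f : (Fin n → k) → (Fin m → k)}
    (hf : DP k (fun p : (Fin n → k) × (Fin m → k) => p.1 ∈ S ∧ p.2 = f p.1))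
    (hb : Set.BijOn f S S') : c.cc n S = c.cc m S' := by
  classical
  have hinv := hb.invOn_invFunOn
  have hb' : Set.BijOn (Function.invFunOn f S) S' S := hb.symm hinv.symm
  set g := Function.invFunOn f S with hgdef
  have hgr : DP k (fun p : (Fin m → k) × (Fin n → k) => p.1 ∈ S' ∧ p.2 = g p.1) := by
    have h1 : DP k (fun q : (Fin m → k) × (Fin n → k) => q.2 ∈ S ∧ q.1 = f q.2) :=
      hf.comp (f := fun q : (Fin m → k) × (Fin n → k) => (q.2, q.1)) (DF.mk DF.snd DF.fst)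
    refine h1.congr fun q => ?_
    constructor
    · rintro ⟨h2, h3⟩
      rw [h3]
      exact ⟨hb.mapsTo h2, (hinv.1 h2).symm⟩
    · rintro ⟨h2, h3⟩
      rw [h3]
      exact ⟨hb'.mapsTo h2, (hinv.2 h2).symm⟩
  obtain ⟨r, A, hA, hAd, hAU, hAf⟩ := exists_rational_pieces hS hf
  obtain ⟨s, B, hB, hBd, hBU, hBg⟩ := exists_rational_pieces hS' hgr
  have hAS : ∀ i, A i ⊆ S := fun i => by rw [hAU]; exact Set.subset_iUnion A i
  have hBS : ∀ i, B i ⊆ S' := fun i => by rw [hBU]; exact Set.subset_iUnion B i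
  have pA : ∀ i j, IsPiece k (A i ∩ f ⁻¹' (B j)) := fun i j => piece_preimage (hA i) (hB j) (hAf i)
  have pB : ∀ i j, IsPiece k (B j ∩ g ⁻¹' (A i)) := fun i j => piece_preimage (hB j) (hA i) (hBg j)
  have e1 : S = ⋃ p : Fin r × Fin s, A p.1 ∩ f ⁻¹' (B p.2) := by
    ext x
    simp only [Set.mem_iUnion, Prod.exists]
    constructor
    · intro hx
      have h1 := hb.mapsTo hx
      rw [hAU] at hx
      rw [hBU] at h1
      obtain ⟨i, hi⟩ := Set.mem_iUnion.1 hx
      obtain ⟨j, hj⟩ := Set.mem_iUnion.1 h1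
      exact ⟨i, j, hi, hj⟩
    · rintro ⟨i, j, hi, hj⟩
      exact hAS i hi
  have e2 : S' = ⋃ p : Fin r × Fin s, B p.2 ∩ g ⁻¹' (A p.1) := by
    ext y
    simp only [Set.mem_iUnion, Prod.exists]
    constructor
    · intro hy
      have h1 := hb'.mapsTo hy
      rw [hAU] at h1
      rw [hBU] at hy
      obtain ⟨i, hi⟩ := Set.mem_iUnion.1 h1
      obtain ⟨j, hj⟩ := Set.mem_iUnion.1 hy
      exact ⟨i, j, hj, hi⟩
    · rintro ⟨i, j, hj, hi⟩
      exact hBS j hj
  have c1 : c.cc n S = ∑ p : Fin r × Fin s, c.cc n (A p.1 ∩ f ⁻¹' (B p.2)) := by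
    conv_lhs => rw [e1]
    refine c.cc_iUnion (fun p => (pA p.1 p.2).con) fun p p' hne => ?_
    rw [Set.disjoint_left]
    rintro x ⟨hx1, hx2⟩ ⟨hx3, hx4⟩
    apply hne
    refine Prod.ext ?_ ?_
    · by_contra h
      exact Set.disjoint_left.1 (hAd _ _ h) hx1 hx3
    · by_contra h
      exact Set.disjoint_left.1 (hBd _ _ h) hx2 hx4
  have c2 : c.cc m S' = ∑ p : Fin r × Fin s, c.cc m (B p.2 ∩ g ⁻¹' (A p.1)) := by
    conv_lhs => rw [e2]
    refine c.cc_iUnion (fun p => (pB p.1 p.2).con) fun p p' hne => ?_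
    rw [Set.disjoint_left]
    rintro x ⟨hx1, hx2⟩ ⟨hx3, hx4⟩
    apply hne
    refine Prod.ext ?_ ?_
    · by_contra h
      exact Set.disjoint_left.1 (hAd _ _ h) hx2 hx4
    · by_contra h
      exact Set.disjoint_left.1 (hBd _ _ h) hx1 hx3
  rw [c1, c2]
  refine Finset.sum_congr rfl fun p _ => ?_
  rw [c.cc_piece (pA p.1 p.2), c.cc_piece (pB p.1 p.2)]
  refine c.iso n m _ _ (pA p.1 p.2) (pB p.1 p.2) f g
    (brc_ratlOn_mono (hAf p.1) Set.inter_subset_left)
    (brc_ratlOn_mono (hBg p.2) Set.inter_subset_left) ?_ ?_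
  · rintro x ⟨hx1, hx2⟩
    have h1 : g (f x) = x := hinv.1 (hAS _ hx1)
    refine ⟨⟨hx2, ?_⟩, h1⟩
    show g (f x) ∈ A p.1
    rw [h1]
    exact hx1
  · rintro y ⟨hy1, hy2⟩
    have h1 : f (g y) = y := hinv.2 (hBS _ hy1)
    refine ⟨⟨hy2, ?_⟩, h1⟩
    show f (g y) ∈ B p.2
    rw [h1]
    exact hy1

end Pool.Agent.MRat
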