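import Pool.Agent.Lib.MP_923aff_ag.BrA
import Pool.Agent.Lib.MP_923aff_ag.BrC
/-!
# JOB BRD: the homomorphism `MK k → K` attached to an invariant of pieces

For a generator `(n, s, r)` choose `π` by `elim_imag`; `Φ (n, s, r) = cc (π '' s)`. Independence of `π` and the
relation `Rels.map`: if `f : s → s'` induces a bijection of the quotients then `π x ↦ π' (f x)` is a
well defined bijection `π '' s → π' '' s'` with definable graph: `cc_bij`. `Rels.add`: `π '' s` is the disjoint union of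
`π '' (s ∩ t)` and `π '' (s \ t)` because `t` is saturated.
-/

set_option autoImplicit false

namespace Pool.Agent.MRat

variable {k : Type} [Field k] [IsAlgClosed k] [CharZero k] {K : Type*} [AddCommGroup K]

theorem brd_con {n a : ℕ} {s : Set (Fin n → k)} (hs : DP k (fun x => x ∈ s))
    {π : (Fin n → k) → (Fin a → k)} (hπ : DF k π) : Con k a (π '' s) := by
  have h : DP k (fun y : Fin a → k => ∃ x : Fin n → k, x ∈ s ∧ π x = y) :=
    DP.ex (P := fun (y : Fin a → k) (x : Fin n → k) => x ∈ s ∧ π x = y)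
      (DP.and (hs.comp (f := fun p : (Fin a → k) × (Fin n → k) => p.2) DF.snd)
        (DP.eq (hπ.comp DF.snd) DF.fst))
  exact dp_pi_iff.1 h

theorem brd_key (c : PieceInv k K) {n m a b : ℕ} {s : Set (Fin n → k)}
    {r : (Fin n → k) → (Fin n → k) → Prop} {s' : Set (Fin m → k)}
    {r' : (Fin m → k) → (Fin m → k) → Prop} (h : Good k s r) (h' : Good k s' r')
    {π : (Fin n → k) → (Fin a → k)} (hπ : DF k π) (hπr : ∀ x ∈ s, ∀ y ∈ s, (r x y ↔ π x = π y))
    {π' : (Fin m → k) → (Fin b → k)} (hπ' : DF k π')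
    (hπr' : ∀ x ∈ s', ∀ y ∈ s', (r' x y ↔ π' x = π' y))
    (f : (Fin n → k) → (Fin m → k)) (hf : DF k f)
    (maps : ∀ x ∈ s, f x ∈ s') (iff : ∀ x ∈ s, ∀ y ∈ s, (r x y ↔ r' (f x) (f y)))
    (surj : ∀ y ∈ s', ∃ x ∈ s, r' (f x) y) : c.cc a (π '' s) = c.cc b (π' '' s') := by
  classical
  set F : (Fin a → k) → (Fin b → k) :=
    fun y => if h : ∃ x ∈ s, π x = y then π' (f h.choose) else 0 with hF
  have hFx : ∀ x ∈ s, F (π x) = π' (f x) := by
    intro x hx
    have hex : ∃ x' ∈ s, π x' = π x := ⟨x, hx, rfl⟩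
    simp only [hF, dif_pos hex]
    obtain ⟨h1, h2⟩ := hex.choose_spec
    refine (hπr' _ (maps _ h1) _ (maps _ hx)).1 ((iff _ h1 _ hx).1 ((hπr _ h1 _ hx).2 h2))
  refine c.cc_bij (f := F) (brd_con h.ds hπ) (brd_con h'.ds hπ') ?_ ⟨?_, ?_, ?_⟩
  · have hd : DP k (fun p : (Fin a → k) × (Fin b → k) =>
        ∃ x : Fin n → k, x ∈ s ∧ p.1 = π x ∧ p.2 = π' (f x)) :=
      DP.ex (P := fun (p : (Fin a → k) × (Fin b → k)) (x : Fin n → k) =>
          x ∈ s ∧ p.1 = π x ∧ p.2 = π' (f x))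
        (DP.and (h.ds.comp (f := fun q : ((Fin a → k) × (Fin b → k)) × (Fin n → k) => q.2) DF.snd)
          (DP.and (DP.eq (DF.fst.comp DF.fst) (hπ.comp DF.snd))
            (DP.eq (DF.snd.comp DF.fst) ((hπ'.comp hf).comp DF.snd))))
    refine hd.congr fun p => ⟨?_, ?_⟩
    · rintro ⟨x, hx, h1, h2⟩
      exact ⟨⟨x, hx, h1.symm⟩, by rw [h1, hFx x hx, h2]⟩
    · rintro ⟨⟨x, hx, h1⟩, h2⟩
      exact ⟨x, hx, h1.symm, by rw [h2, ← h1, hFx x hx]⟩
  · rintro _ ⟨x, hx, rfl⟩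
    exact ⟨f x, maps x hx, (hFx x hx).symm⟩
  · rintro _ ⟨x, hx, rfl⟩ _ ⟨y, hy, rfl⟩ hxy
    rw [hFx x hx, hFx y hy] at hxy
    exact (hπr x hx y hy).1 ((iff x hx y hy).2 ((hπr' _ (maps x hx) _ (maps y hy)).2 hxy))
  · rintro _ ⟨y, hy, rfl⟩
    obtain ⟨x, hx, hxy⟩ := surj y hy
    exact ⟨π x, ⟨x, hx, rfl⟩, by rw [hFx x hx]; exact (hπr' _ (maps x hx) _ hy).1 hxy⟩

/-- the value on a generator -/
noncomputable def brd_val (c : PieceInv k K) (g : Gen k) : K :=
  c.cc (elim_imag g.good).choose ((elim_imag g.good).choose_spec.choose '' g.s)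

theorem brd_val_eq (c : PieceInv k K) {n a : ℕ} {s : Set (Fin n → k)}
    {r : (Fin n → k) → (Fin n → k) → Prop} (h : Good k s r)
    {π : (Fin n → k) → (Fin a → k)} (hπ : DF k π) (hπr : ∀ x ∈ s, ∀ y ∈ s, (r x y ↔ π x = π y)) :
    brd_val c ⟨n, s, r, h⟩ = c.cc a (π '' s) := by
  obtain ⟨h1, h2⟩ := (elim_imag h).choose_spec.choose_spec
  exact brd_key c h h h1 h2 hπ hπr (fun x => x) DF.id (fun _ hx => hx)
    (fun _ _ _ _ => Iff.rfl) (fun y hy => ⟨y, hy, h.refl y hy⟩)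

theorem brd_rel (c : PieceInv k K) {z : FreeAbelianGroup (Gen k)} (hz : Rels k z) :
    FreeAbelianGroup.lift (brd_val c) z = 0 := by
  cases hz with
  | add n s t r h h1 h2 sat =>
    obtain ⟨m, π, hπ, hπr⟩ := elim_imag h
    simp only [map_sub, FreeAbelianGroup.lift_apply_of]
    rw [brd_val_eq c h hπ hπr, brd_val_eq c h1 hπ (fun x hx y hy => hπr x hx.1 y hy.1),
      brd_val_eq c h2 hπ (fun x hx y hy => hπr x hx.1 y hy.1)]
    have hu : π '' s = π '' (s ∩ t) ∪ π '' (s \ t) := by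
      rw [← Set.image_union, Set.inter_union_sdiff]
    have hd : Disjoint (π '' (s ∩ t)) (π '' (s \ t)) := by
      rw [Set.disjoint_left]
      rintro _ ⟨x, hx, rfl⟩ ⟨y, hy, hxy⟩
      exact hy.2 (sat x hx.1 y hy.1 ((hπr x hx.1 y hy.1).2 hxy.symm) hx.2)
    rw [hu, c.cc_union (brd_con h1.ds hπ) (brd_con h2.ds hπ) hd]
    abel
  | map n m s r s' r' h h' f hf maps iff surj =>
    obtain ⟨a, π, hπ, hπr⟩ := elim_imag h
    obtain ⟨b, π', hπ', hπr'⟩ := elim_imag h'
    simp only [map_sub, FreeAbelianGroup.lift_apply_of]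
    rw [brd_val_eq c h hπ hπr, brd_val_eq c h' hπ' hπr', sub_eq_zero]
    exact brd_key c h h' hπ hπr hπ' hπr' f hf maps iff surj

theorem PieceInv.exists_hom (c : PieceInv k K) :
    ∃ Φ : MK k →+ K, ∀ (n : ℕ) (A : Set (Fin n → k)), Con k n A → Φ (scl k A) = c.cc n A := by
  have hle : AddSubgroup.closure {z | Rels k z} ≤ (FreeAbelianGroup.lift (brd_val c)).ker := by
    rw [AddSubgroup.closure_le]
    intro z hz
    exact brd_rel c hz
  let Φ : MK k →+ K := QuotientAddGroup.lift (AddSubgroup.closure {z | Rels k z})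
    (FreeAbelianGroup.lift (brd_val c)) hle
  have hΦ : ∀ g : Gen k, Φ (MK.of k g) = brd_val c g := by
    intro g
    show FreeAbelianGroup.lift (brd_val c) (FreeAbelianGroup.of g) = _
    exact FreeAbelianGroup.lift_apply_of _ _
  refine ⟨Φ, fun n A hA => ?_⟩
  have hA' : DP k (fun x => x ∈ A) := dp_pi_iff.2 hA
  have hg : Good k A (fun x y : Fin n → k => x = y) :=
    { ds := hA'
      dr := ((hA'.comp (f := fun p : (Fin n → k) × (Fin n → k) => p.1) DF.fst).and
        ((hA'.comp (f := fun p : (Fin n → k) × (Fin n → k) => p.2) DF.snd).and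
          (DP.eq DF.fst DF.snd)))
      refl := fun _ _ => rfl
      symm := fun _ _ _ _ h => h.symm
      trans := fun _ _ _ _ _ _ h1 h2 => h1.trans h2 }
  have hg' : Good k {x : Fin (Amb.dim k (Fin n → k)) → k |
      (Amb.e (k := k) (α := Fin n → k)).symm x ∈ A}
      (fun x y => (Amb.e (k := k) (α := Fin n → k)).symm x =
        (Amb.e (k := k) (α := Fin n → k)).symm y) :=
    { ds := hg.ds.comp DF.e_symm
      dr := hg.dr.comp (f := fun p : (Fin (Amb.dim k (Fin n → k)) → k) ×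
          (Fin (Amb.dim k (Fin n → k)) → k) =>
          ((Amb.e (k := k) (α := Fin n → k)).symm p.1, (Amb.e (k := k) (α := Fin n → k)).symm p.2))
        ((DF.e_symm.comp DF.fst).mk (DF.e_symm.comp DF.snd))
      refl := fun _ _ => rfl
      symm := fun _ _ _ _ h => h.symm
      trans := fun _ _ _ _ _ _ h1 h2 => h1.trans h2 }
  have h1 : scl k A = MK.of k ⟨_, _, _, hg'⟩ := by
    unfold scl cls
    rw [dif_pos hg']
  rw [h1, hΦ]
  obtain ⟨h2, h3⟩ := (elim_imag hg').choose_spec.choose_spec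
  have := brd_key c hg' hg h2 h3 (π' := fun x => x) DF.id (fun _ _ _ _ => Iff.rfl)
    (Amb.e (k := k) (α := Fin n → k)).symm DF.e_symm (fun _ hx => hx)
    (fun _ _ _ _ => Iff.rfl)
    (fun y hy => ⟨Amb.e (k := k) (α := Fin n → k) y, by
      show (Amb.e (k := k) (α := Fin n → k)).symm (Amb.e (k := k) (α := Fin n → k) y) ∈ A
      rw [Equiv.symm_apply_apply]; exact hy, Equiv.symm_apply_apply _ _⟩)
  rw [Set.image_id'] at this
  exact this

end Pool.Agent.MRat
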