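import Pool.Agent.Lib.MP_923aff_ag.HB
/-!
# Quasi-affine varieties and their Grothendieck group
-/

set_option autoImplicit false

namespace Pool.Agent.MRat

variable (k : Type) [Field k]

/-- A quasi-affine variety over `k`: a locally closed subset of `k ^ n`. -/
structure QVar where
  n : ℕ
  carrier : Set (Fin n → k)
  lc : ∃ I J : Set (MvPolynomial (Fin n) k), carrier =
    {x | (∀ p ∈ I, MvPolynomial.eval x p = 0) ∧ ∃ q ∈ J, MvPolynomial.eval x q ≠ 0}

/-- Zariski closed subsets of `k ^ n`. -/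
def ZClosed {n : ℕ} (Z : Set (Fin n → k)) : Prop :=
  ∃ I : Set (MvPolynomial (Fin n) k), Z = {x | ∀ p ∈ I, MvPolynomial.eval x p = 0}

/-- `f` is regular on `X`: locally each coordinate is a quotient of polynomials. -/
def IsRegular {n m : ℕ} (X : Set (Fin n → k)) (f : (Fin n → k) → (Fin m → k)) : Prop :=
  ∀ x ∈ X, ∀ j, ∃ P Q : MvPolynomial (Fin n) k, MvPolynomial.eval x Q ≠ 0 ∧
    ∀ y ∈ X, MvPolynomial.eval y Q ≠ 0 → f y j = MvPolynomial.eval y P / MvPolynomial.eval y Q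

/-- Isomorphism of quasi-affine varieties. -/
def QVar.Iso (X Y : QVar k) : Prop :=
  ∃ (f : (Fin X.n → k) → (Fin Y.n → k)) (g : (Fin Y.n → k) → (Fin X.n → k)),
    IsRegular k X.carrier f ∧ IsRegular k Y.carrier g ∧
    (∀ x ∈ X.carrier, f x ∈ Y.carrier ∧ g (f x) = x) ∧
    (∀ y ∈ Y.carrier, g y ∈ X.carrier ∧ f (g y) = y)

/-- The scissor and isomorphism relations. -/
def QRels : Set (FreeAbelianGroup (QVar k)) :=
  {z | ∃ X Y : QVar k, X.Iso k Y ∧ z = FreeAbelianGroup.of X - FreeAbelianGroup.of Y} ∪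
  {z | ∃ (n : ℕ) (X U V : Set (Fin n → k)) (hX : _) (hU : _) (hV : _),
    ZClosed k U ∧ V = X \ U ∧
    z = FreeAbelianGroup.of (⟨n, X, hX⟩ : QVar k) - FreeAbelianGroup.of ⟨n, X ∩ U, hU⟩
      - FreeAbelianGroup.of ⟨n, V, hV⟩}

/-- The Grothendieck group of (quasi-affine) varieties over `k`. -/
def KVar : Type := FreeAbelianGroup (QVar k) ⧸ AddSubgroup.closure (QRels k)

noncomputable instance : AddCommGroup (KVar k) :=
  inferInstanceAs (AddCommGroup (FreeAbelianGroup (QVar k) ⧸ AddSubgroup.closure (QRels k)))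

/-- The class of a quasi-affine variety. -/
def QVar.cl (X : QVar k) : KVar k := QuotientAddGroup.mk (FreeAbelianGroup.of X)

/-- Affine space. -/
def QVar.aff (n : ℕ) : QVar k :=
  ⟨n, Set.univ, ∅, {1}, by ext x; simp⟩

end Pool.Agent.MRat
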