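import Pool.Agent.Lib.MP_923aff_ag.BrD
import Pool.Agent.Lib.MP_923aff_ag.BrDefs
/-!
# JOB BRE: the Grothendieck group of quasi-affine varieties

`c n A` = class of the quasi-affine variety `A` for a piece `A` (junk otherwise) is a `PieceInv`. A locally closed set
`X = {I = 0} ∩ {some q ∈ J ≠ 0}`: `J` may be taken finite (Noetherian: the ideal generated by `J` is generated by finitely
many elements), so `X` is a finite union of pieces; peeling off the open piece `{I = 0, q ≠ 0}` (its complement in `X` is closed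
in `X`) shows by induction that the class of `X` in `KVar k` is `cc X`.
-/

set_option autoImplicit false

namespace Pool.Agent.MRat

section aux

variable {k : Type} [Field k] {n : ℕ}

/-- the common zero set of `J` is that of a finite subset of `J` -/
private theorem BRE_fin (J : Set (MvPolynomial (Fin n) k)) :
    ∃ J' : Finset (MvPolynomial (Fin n) k), (↑J' ⊆ J) ∧
      ∀ x : Fin n → k, (∀ p ∈ J', MvPolynomial.eval x p = 0) → ∀ p ∈ J, MvPolynomial.eval x p = 0 := by
  have hfg : (Submodule.span (MvPolynomial (Fin n) k) J).FG := IsNoetherian.noetherian _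
  obtain ⟨J', hJ', hs⟩ := (Submodule.fg_span_iff_fg_span_finset_subset J).1 hfg
  refine ⟨J', hJ', fun x hx p hp => ?_⟩
  have hp' : p ∈ Submodule.span (MvPolynomial (Fin n) k) (J' : Set (MvPolynomial (Fin n) k)) := by
    rw [← hs]; exact Submodule.subset_span hp
  refine Submodule.span_induction (p := fun q _ => MvPolynomial.eval x q = 0) ?_ ?_ ?_ ?_ hp'
  · intro q hq
    exact hx q (by simpa using hq)
  · exact map_zero _
  · intro a b _ _ ha hb
    rw [map_add, ha, hb, add_zero]
  · intro a b _ hb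
    rw [smul_eq_mul, map_mul, hb, mul_zero]

/-- locally closed sets given by a finite set of open conditions -/
private def BRE_set (I : Set (MvPolynomial (Fin n) k)) (J : Finset (MvPolynomial (Fin n) k)) :
    Set (Fin n → k) :=
  {x | (∀ p ∈ I, MvPolynomial.eval x p = 0) ∧ ∃ q ∈ J, MvPolynomial.eval x q ≠ 0}

private theorem BRE_set_empty (I : Set (MvPolynomial (Fin n) k)) :
    BRE_set I (∅ : Finset (MvPolynomial (Fin n) k)) = ∅ := by
  ext x
  simp [BRE_set]

private theorem BRE_lc (I : Set (MvPolynomial (Fin n) k)) (J : Finset (MvPolynomial (Fin n) k)) :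
    ∃ I' J' : Set (MvPolynomial (Fin n) k), BRE_set I J =
      {x | (∀ p ∈ I', MvPolynomial.eval x p = 0) ∧ ∃ q ∈ J', MvPolynomial.eval x q ≠ 0} :=
  ⟨I, ↑J, by ext x; simp [BRE_set]⟩

private theorem BRE_piece_lc {A : Set (Fin n → k)} (hA : IsPiece k A) :
    ∃ I J : Set (MvPolynomial (Fin n) k), A =
      {x | (∀ p ∈ I, MvPolynomial.eval x p = 0) ∧ ∃ q ∈ J, MvPolynomial.eval x q ≠ 0} := by
  obtain ⟨I, q, rfl⟩ := hA
  exact ⟨I, {q}, by ext x; simp⟩

private theorem BRE_piece_empty : IsPiece k (∅ : Set (Fin n → k)) :=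
  ⟨∅, 0, by ext x; simp⟩

private theorem BRE_piece_zero {A : Set (Fin n → k)} (hA : IsPiece k A)
    (p : MvPolynomial (Fin n) k) : IsPiece k (A ∩ {x | MvPolynomial.eval x p = 0}) :=
  hA.inter ⟨{p}, 1, by ext x; simp⟩

private theorem BRE_piece_ne {A : Set (Fin n → k)} (hA : IsPiece k A)
    (p : MvPolynomial (Fin n) k) : IsPiece k (A ∩ {x | MvPolynomial.eval x p ≠ 0}) :=
  hA.inter ⟨∅, p, by ext x; simp⟩

open Classical in
private theorem BRE_insert (I : Set (MvPolynomial (Fin n) k)) (q : MvPolynomial (Fin n) k)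
    (J : Finset (MvPolynomial (Fin n) k)) :
    BRE_set I (insert q J) ∩ {x | MvPolynomial.eval x q = 0} = BRE_set (insert q I) J := by
  ext x
  simp only [BRE_set, Set.mem_inter_iff, Set.mem_ofPred_eq, Finset.mem_insert, Set.mem_insert_iff]
  constructor
  · rintro ⟨⟨h1, r, hr, h2⟩, h3⟩
    refine ⟨?_, ?_⟩
    · rintro p (rfl | hp)
      · exact h3
      · exact h1 p hp
    · rcases hr with rfl | hr
      · exact absurd h3 h2
      · exact ⟨r, hr, h2⟩
  · rintro ⟨h1, r, hr, h2⟩
    exact ⟨⟨fun p hp => h1 p (Or.inr hp), r, Or.inr hr, h2⟩, h1 q (Or.inl rfl)⟩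

open Classical in
private theorem BRE_insert' (I : Set (MvPolynomial (Fin n) k)) (q : MvPolynomial (Fin n) k)
    (J : Finset (MvPolynomial (Fin n) k)) :
    BRE_set I (insert q J) \ {x | MvPolynomial.eval x q = 0} =
      {x | (∀ p ∈ I, MvPolynomial.eval x p = 0) ∧ MvPolynomial.eval x q ≠ 0} := by
  ext x
  simp only [BRE_set, Set.mem_sdiff, Set.mem_ofPred_eq, Finset.mem_insert]
  constructor
  · rintro ⟨⟨h1, r, hr, h2⟩, h3⟩
    exact ⟨h1, h3⟩
  · rintro ⟨h1, h2⟩
    exact ⟨⟨h1, q, Or.inl rfl, h2⟩, h2⟩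

private theorem BRE_zclosed (q : MvPolynomial (Fin n) k) :
    ZClosed k {x : Fin n → k | MvPolynomial.eval x q = 0} :=
  ⟨{q}, by ext x; simp⟩

private theorem BRE_mk_eq_zero {z : FreeAbelianGroup (QVar k)} (hz : z ∈ QRels k) :
    (QuotientAddGroup.mk z : FreeAbelianGroup (QVar k) ⧸ AddSubgroup.closure (QRels k)) = 0 :=
  (QuotientAddGroup.eq_zero_iff z).2 (AddSubgroup.subset_closure hz)

/-- scissor relation -/
private theorem BRE_scissor {X U V W : Set (Fin n → k)} (hX : _) (hV : _) (hW : _)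
    (hU : ZClosed k U) (eW : X ∩ U = W) (eV : X \ U = V) :
    (⟨n, X, hX⟩ : QVar k).cl k = (⟨n, W, hW⟩ : QVar k).cl k + (⟨n, V, hV⟩ : QVar k).cl k := by
  subst eW eV
  have h := BRE_mk_eq_zero (k := k) (z := FreeAbelianGroup.of (⟨n, X, hX⟩ : QVar k) -
    FreeAbelianGroup.of ⟨n, X ∩ U, hW⟩ - FreeAbelianGroup.of ⟨n, X \ U, hV⟩)
    (Or.inr ⟨n, X, U, X \ U, hX, hW, hV, hU, rfl, rfl⟩)
  rw [QuotientAddGroup.mk_sub, QuotientAddGroup.mk_sub, sub_sub, sub_eq_zero] at h
  exact h

private theorem BRE_iso {X Y : QVar k} (h : X.Iso k Y) : X.cl k = Y.cl k := by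
  have h := BRE_mk_eq_zero (k := k) (z := FreeAbelianGroup.of X - FreeAbelianGroup.of Y)
    (Or.inl ⟨X, Y, h, rfl⟩)
  rw [QuotientAddGroup.mk_sub, sub_eq_zero] at h
  exact h

open Classical in
/-- the invariant of pieces given by the class of a variety -/
private noncomputable def BRE_c (k : Type) [Field k] (n : ℕ) (A : Set (Fin n → k)) : KVar k :=
  if h : IsPiece k A then (⟨n, A, BRE_piece_lc h⟩ : QVar k).cl k else 0

private theorem BRE_c_of {A : Set (Fin n → k)} (h : IsPiece k A) :
    BRE_c k n A = (⟨n, A, BRE_piece_lc h⟩ : QVar k).cl k := dif_pos h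

private theorem BRE_ratl {m : ℕ} {A : Set (Fin n → k)} {f : (Fin n → k) → (Fin m → k)}
    (h : RatlOn k A f) : IsRegular k A f := by
  obtain ⟨P, Q, h⟩ := h
  intro x hx j
  exact ⟨P j, Q j, (h x hx j).1, fun y hy _ => (h y hy j).2⟩

/-- the invariant of pieces given by the class of a variety -/
private noncomputable def BRE_inv (k : Type) [Field k] : PieceInv k (KVar k) where
  c := BRE_c k
  add := by
    intro n A p hA
    rw [BRE_c_of hA, BRE_c_of (BRE_piece_zero hA p), BRE_c_of (BRE_piece_ne hA p)]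
    refine BRE_scissor _ _ _ (BRE_zclosed p) rfl ?_
    ext x
    simp
  iso := by
    intro n m A B hA hB f g hf hg h1 h2
    rw [BRE_c_of hA, BRE_c_of hB]
    exact BRE_iso ⟨f, g, BRE_ratl hf, BRE_ratl hg, h1, h2⟩

end aux

section main

variable {k : Type} [Field k] [IsAlgClosed k] [CharZero k]

private theorem BRE_set_con {n : ℕ} (J : Finset (MvPolynomial (Fin n) k)) :
    ∀ I : Set (MvPolynomial (Fin n) k), Con k n (BRE_set I J) := by
  classical
  induction J using Finset.induction_on with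
  | empty => intro I; rw [BRE_set_empty]; exact Con.empty
  | insert q J _ ih =>
      intro I
      rw [← Set.inter_union_sdiff (BRE_set I (insert q J)) {x | MvPolynomial.eval x q = 0},
        BRE_insert, BRE_insert']
      exact (ih _).union (IsPiece.con ⟨I, q, rfl⟩)

private theorem BRE_set_cl {n : ℕ} (J : Finset (MvPolynomial (Fin n) k)) :
    ∀ I : Set (MvPolynomial (Fin n) k), (⟨n, BRE_set I J, BRE_lc I J⟩ : QVar k).cl k =
      (BRE_inv k).cc n (BRE_set I J) := by
  classical
  induction J using Finset.induction_on with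
  | empty =>
      intro I
      have h1 : IsPiece k (BRE_set I (∅ : Finset (MvPolynomial (Fin n) k))) := by
        rw [BRE_set_empty]; exact BRE_piece_empty
      rw [PieceInv.cc_piece _ h1]
      exact (BRE_c_of h1).symm
  | insert q J _ ih =>
      intro I
      have hP : IsPiece k {x : Fin n → k | (∀ p ∈ I, MvPolynomial.eval x p = 0) ∧
        MvPolynomial.eval x q ≠ 0} := ⟨I, q, rfl⟩
      rw [BRE_scissor (BRE_lc I (insert q J)) (BRE_piece_lc hP) (BRE_lc (insert q I) J)
        (BRE_zclosed q) (BRE_insert I q J) (BRE_insert' I q J), ih]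
      have h2 : (⟨n, _, BRE_piece_lc hP⟩ : QVar k).cl k = (BRE_inv k).cc n _ :=
        (BRE_c_of hP).symm.trans (PieceInv.cc_piece (BRE_inv k) hP).symm
      rw [h2]
      have h3 : BRE_set I (insert q J) = BRE_set (insert q I) J ∪
          {x : Fin n → k | (∀ p ∈ I, MvPolynomial.eval x p = 0) ∧ MvPolynomial.eval x q ≠ 0} := by
        rw [← BRE_insert I q J, ← BRE_insert' I q J, Set.inter_union_sdiff]
      rw [h3]
      refine (PieceInv.cc_union (BRE_inv k) (BRE_set_con J _) hP.con ?_).symm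
      rw [← BRE_insert I q J, ← BRE_insert' I q J]
      exact disjoint_sdiff_self_right.mono_left Set.inter_subset_right

private theorem BRE_eq (X : QVar k) : ∃ (I : Set (MvPolynomial (Fin X.n) k))
    (J : Finset (MvPolynomial (Fin X.n) k)), X.carrier = BRE_set I J := by
  obtain ⟨I, J, h⟩ := X.lc
  obtain ⟨J', hJ', h'⟩ := BRE_fin J
  refine ⟨I, J', ?_⟩
  rw [h]
  ext x
  simp only [BRE_set, Set.mem_ofPred_eq]
  constructor
  · rintro ⟨h1, q, hq, h2⟩
    refine ⟨h1, ?_⟩
    by_contra h3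
    push Not at h3
    exact h2 (h' x h3 q hq)
  · rintro ⟨h1, q, hq, h2⟩
    exact ⟨h1, q, hJ' hq, h2⟩

theorem QVar.con (X : QVar k) : Con k X.n X.carrier := by
  obtain ⟨I, J, h⟩ := BRE_eq X
  rw [h]
  exact BRE_set_con J I

/-- `MK k` maps to the Grothendieck group of varieties, compatibly with classes. -/
theorem exists_toKVar : ∃ Φ : MK k →+ KVar k, ∀ X : QVar k, Φ (scl k X.carrier) = X.cl k := by
  obtain ⟨Φ, hΦ⟩ := PieceInv.exists_hom (BRE_inv k)
  refine ⟨Φ, fun X => ?_⟩
  rw [hΦ _ _ X.con]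
  obtain ⟨I, J, h⟩ := BRE_eq X
  obtain ⟨n, S, hS⟩ := X
  simp only at h I J ⊢
  subst h
  exact (BRE_set_cl J I).symm

end main

end Pool.Agent.MRat
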