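import Pool.Agent.Lib.MP_923aff_ag.Defs

/-!
# JOB CONA: Boolean operations, polynomial preimages, closure properties of `PR`
-/

set_option autoImplicit false

namespace Pool.Agent.MRat

variable {k : Type} [Field k] {n m : ℕ}

theorem Con.univ : Con k n Set.univ := by
  have h := Con.zero (k := k) (n := n) 0
  have e : {x : Fin n → k | MvPolynomial.eval x (0 : MvPolynomial (Fin n) k) = 0} = Set.univ := by
    ext x; simp
  rwa [e] at h

theorem Con.empty : Con k n ∅ := by
  have h := Con.compl _ (Con.univ (k := k) (n := n))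
  rwa [Set.compl_univ] at h

theorem Con.union {s t : Set (Fin n → k)} (hs : Con k n s) (ht : Con k n t) : Con k n (s ∪ t) := by
  have h := Con.compl _ (Con.inter _ _ (Con.compl _ hs) (Con.compl _ ht))
  have e : (sᶜ ∩ tᶜ)ᶜ = s ∪ t := by
    rw [← Set.compl_union, compl_compl]
  rwa [e] at h

theorem Con.diff {s t : Set (Fin n → k)} (hs : Con k n s) (ht : Con k n t) : Con k n (s \ t) := by
  rw [Set.diff_eq]
  exact Con.inter _ _ hs (Con.compl _ ht)

private theorem cona_biUnion {ι : Type} {s : ι → Set (Fin n → k)} (hs : ∀ i, Con k n (s i))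
    (t : Finset ι) : Con k n (⋃ i ∈ t, s i) := by
  classical
  induction t using Finset.induction_on with
  | empty => simpa using Con.empty
  | insert a t ha ih =>
    rw [Finset.set_biUnion_insert]
    exact (hs a).union ih

theorem Con.iUnion {ι : Type} [Finite ι] {s : ι → Set (Fin n → k)} (hs : ∀ i, Con k n (s i)) :
    Con k n (⋃ i, s i) := by
  haveI := Fintype.ofFinite ι
  have h := cona_biUnion hs Finset.univ
  simpa using h

theorem Con.iInter {ι : Type} [Finite ι] {s : ι → Set (Fin n → k)} (hs : ∀ i, Con k n (s i)) :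
    Con k n (⋂ i, s i) := by
  have h := Con.compl _ (Con.iUnion fun i => Con.compl _ (hs i))
  rw [← Set.compl_iInter, compl_compl] at h
  exact h

/-- Preimage under a polynomial map. -/
theorem Con.preimage {s : Set (Fin m → k)} (hs : Con k m s)
    (P : Fin m → MvPolynomial (Fin n) k) :
    Con k n {x | (fun j => MvPolynomial.eval x (P j)) ∈ s} := by
  induction hs with
  | zero p =>
    have h := Con.zero (k := k) (n := n) (MvPolynomial.bind₁ P p)
    have e : {x : Fin n → k | MvPolynomial.eval x (MvPolynomial.bind₁ P p) = 0}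
        = {x | (fun j => MvPolynomial.eval x (P j)) ∈
            {y : Fin m → k | MvPolynomial.eval y p = 0}} := by
      ext x
      simp only [Set.mem_setOf_eq]
      have key : ∀ q : MvPolynomial (Fin m) k, MvPolynomial.eval x (MvPolynomial.bind₁ P q)
          = MvPolynomial.eval (fun j => MvPolynomial.eval x (P j)) q := by
        intro q
        induction q using MvPolynomial.induction_on with
        | C a => rw [MvPolynomial.bind₁_C_right, MvPolynomial.eval_C, MvPolynomial.eval_C]
        | add a b ha hb => rw [map_add, map_add, map_add, ha, hb]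
        | mul_X a i ha =>
          rw [map_mul, map_mul, map_mul, ha, MvPolynomial.bind₁_X_right, MvPolynomial.eval_X]
      rw [key]
    rwa [e] at h
  | compl s _ ih => exact Con.compl _ ih
  | inter s t _ _ ih1 ih2 => exact Con.inter _ _ ih1 ih2

/-- Clearing denominators. -/
private theorem cona_clear (P Q : Fin m → MvPolynomial (Fin n) k) (p : MvPolynomial (Fin m) k) :
    ∃ N D : MvPolynomial (Fin n) k, ∀ x : Fin n → k, (∀ j, MvPolynomial.eval x (Q j) ≠ 0) →
      MvPolynomial.eval x D ≠ 0 ∧
      MvPolynomial.eval (fun j => MvPolynomial.eval x (P j) / MvPolynomial.eval x (Q j)) p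
        = MvPolynomial.eval x N / MvPolynomial.eval x D := by
  induction p using MvPolynomial.induction_on with
  | C a =>
    refine ⟨MvPolynomial.C a, 1, fun x _ => ?_⟩
    simp
  | add p q hp hq =>
    obtain ⟨N, D, h⟩ := hp
    obtain ⟨N', D', h'⟩ := hq
    refine ⟨N * D' + N' * D, D * D', fun x hx => ?_⟩
    obtain ⟨h1, h2⟩ := h x hx
    obtain ⟨h3, h4⟩ := h' x hx
    refine ⟨by simp [h1, h3], ?_⟩
    rw [map_add, h2, h4, map_add, map_mul, map_mul, map_mul]
    field_simp
  | mul_X p j hp =>
    obtain ⟨N, D, h⟩ := hp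
    refine ⟨N * P j, D * Q j, fun x hx => ?_⟩
    obtain ⟨h1, h2⟩ := h x hx
    refine ⟨by simp [h1, hx j], ?_⟩
    rw [map_mul, h2, MvPolynomial.eval_X, map_mul, map_mul]
    have := hx j
    field_simp

/-- Preimage under a rational map, on the set where the denominators do not vanish. -/
private theorem cona_preimage_rat {s : Set (Fin m → k)} (hs : Con k m s)
    (P Q : Fin m → MvPolynomial (Fin n) k) :
    ∃ T : Set (Fin n → k), Con k n T ∧ ∀ x, (∀ j, MvPolynomial.eval x (Q j) ≠ 0) →
      (x ∈ T ↔ (fun j => MvPolynomial.eval x (P j) / MvPolynomial.eval x (Q j)) ∈ s) := by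
  induction hs with
  | zero p =>
    obtain ⟨N, D, h⟩ := cona_clear P Q p
    refine ⟨_, Con.zero N, fun x hx => ?_⟩
    obtain ⟨h1, h2⟩ := h x hx
    simp only [Set.mem_setOf_eq]
    rw [h2, div_eq_zero_iff]
    simp [h1]
  | compl s _ ih =>
    obtain ⟨T, hT, h⟩ := ih
    refine ⟨_, Con.compl _ hT, fun x hx => ?_⟩
    rw [Set.mem_compl_iff, Set.mem_compl_iff, h x hx]
  | inter s t _ _ ih1 ih2 =>
    obtain ⟨T, hT, h⟩ := ih1
    obtain ⟨T', hT', h'⟩ := ih2
    refine ⟨_, Con.inter _ _ hT hT', fun x hx => ?_⟩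
    rw [Set.mem_inter_iff, Set.mem_inter_iff, h x hx, h' x hx]

/-- Preimage under a map with piecewise rational coordinates. -/
theorem Con.preimage_pr {s : Set (Fin m → k)} (hs : Con k m s)
    (f : Fin m → (Fin n → k) → k) (hf : ∀ j, PR k n (f j)) :
    Con k n {x | (fun j => f j x) ∈ s} := by
  choose r A P Q hA hcov hPQ using hf
  choose T hT hTs using fun c : (∀ j, Fin (r j)) =>
    cona_preimage_rat hs (fun j => P j (c j)) (fun j => Q j (c j))
  have e : {x : Fin n → k | (fun j => f j x) ∈ s}
      = ⋃ c : (∀ j, Fin (r j)), (⋂ j, A j (c j)) ∩ T c := by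
    ext x
    simp only [Set.mem_setOf_eq, Set.mem_iUnion, Set.mem_inter_iff, Set.mem_iInter]
    have key : ∀ c : (∀ j, Fin (r j)), (∀ j, x ∈ A j (c j)) →
        (x ∈ T c ↔ (fun j => f j x) ∈ s) := by
      intro c hc
      rw [hTs c x fun j => (hPQ j (c j) x (hc j)).1]
      have : (fun j => MvPolynomial.eval x (P j (c j)) / MvPolynomial.eval x (Q j (c j)))
          = fun j => f j x := by
        funext j
        exact ((hPQ j (c j) x (hc j)).2).symm
      rw [this]
    constructor
    · intro hx
      choose c hc using fun j => hcov j x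
      exact ⟨c, hc, (key c hc).2 hx⟩
    · rintro ⟨c, hc, hx⟩
      exact (key c hc).1 hx
  rw [e]
  exact Con.iUnion fun c => Con.inter _ _ (Con.iInter fun j => hA j (c j)) (hT c)

/-- `PR` with pieces indexed by a finite type. -/
private theorem cona_PR_of_finite {ι : Type} [Finite ι] {f : (Fin n → k) → k}
    (A : ι → Set (Fin n → k)) (P Q : ι → MvPolynomial (Fin n) k)
    (hA : ∀ i, Con k n (A i)) (hc : ∀ x, ∃ i, x ∈ A i)
    (h : ∀ i, ∀ x ∈ A i, MvPolynomial.eval x (Q i) ≠ 0 ∧
      f x = MvPolynomial.eval x (P i) / MvPolynomial.eval x (Q i)) : PR k n f := by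
  let e := Finite.equivFin ι
  refine ⟨Nat.card ι, fun i => A (e.symm i), fun i => P (e.symm i), fun i => Q (e.symm i),
    fun i => hA _, fun x => ?_, fun i x hx => h _ x hx⟩
  obtain ⟨i, hi⟩ := hc x
  exact ⟨e i, by simpa using hi⟩

theorem PR.poly (p : MvPolynomial (Fin n) k) : PR k n (fun x => MvPolynomial.eval x p) :=
  cona_PR_of_finite (ι := Unit) (fun _ => Set.univ) (fun _ => p) (fun _ => 1)
    (fun _ => Con.univ) (fun _ => ⟨(), Set.mem_univ _⟩) (fun _ x _ => by simp)

theorem PR.const (c : k) : PR k n (fun _ => c) := by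
  have h := PR.poly (n := n) (MvPolynomial.C c)
  simpa using h

theorem PR.proj (i : Fin n) : PR k n (fun x => x i) := by
  have h := PR.poly (k := k) (n := n) (MvPolynomial.X i)
  simpa using h

theorem PR.comp {f : (Fin m → k) → k} (hf : PR k m f) {g : Fin m → (Fin n → k) → k}
    (hg : ∀ j, PR k n (g j)) : PR k n (fun x => f (fun j => g j x)) := by
  obtain ⟨r0, B, U, V, hB, hBc, hUV⟩ := hf
  have hg' := hg
  choose r A P Q hA hcov hPQ using hg
  choose N D hND using fun (i : Fin r0) (c : ∀ j, Fin (r j)) =>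
    cona_clear (fun j => P j (c j)) (fun j => Q j (c j)) (U i)
  choose N' D' hND' using fun (i : Fin r0) (c : ∀ j, Fin (r j)) =>
    cona_clear (fun j => P j (c j)) (fun j => Q j (c j)) (V i)
  refine cona_PR_of_finite (ι := Fin r0 × (∀ j, Fin (r j)))
    (fun ic => {x | (fun j => g j x) ∈ B ic.1} ∩ ⋂ j, A j (ic.2 j))
    (fun ic => N ic.1 ic.2 * D' ic.1 ic.2) (fun ic => D ic.1 ic.2 * N' ic.1 ic.2)
    (fun ic => Con.inter _ _ ((hB ic.1).preimage_pr g hg') (Con.iInter fun j => hA j (ic.2 j)))
    (fun x => ?_) (fun ic x hx => ?_)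
  · obtain ⟨i, hi⟩ := hBc (fun j => g j x)
    choose c hc using fun j => hcov j x
    exact ⟨(i, c), hi, Set.mem_iInter.2 hc⟩
  · obtain ⟨i, c⟩ := ic
    obtain ⟨hx1, hx2⟩ := hx
    simp only [Set.mem_setOf_eq] at hx1
    rw [Set.mem_iInter] at hx2
    have hgx : (fun j => MvPolynomial.eval x (P j (c j)) / MvPolynomial.eval x (Q j (c j)))
        = fun j => g j x := by
      funext j
      exact ((hPQ j (c j) x (hx2 j)).2).symm
    obtain ⟨h1, h2⟩ := hND i c x fun j => (hPQ j (c j) x (hx2 j)).1
    obtain ⟨h3, h4⟩ := hND' i c x fun j => (hPQ j (c j) x (hx2 j)).1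
    rw [hgx] at h2 h4
    obtain ⟨h5, h6⟩ := hUV i _ hx1
    rw [h4] at h5
    have h7 : MvPolynomial.eval x (N' i c) ≠ 0 := fun h0 => h5 (by rw [h0, zero_div])
    refine ⟨by simp [h1, h7], ?_⟩
    simp only [map_mul]
    rw [h6, h2, h4]
    field_simp

theorem PR.add {f g : (Fin n → k) → k} (hf : PR k n f) (hg : PR k n g) :
    PR k n (fun x => f x + g x) := by
  have h := PR.comp (PR.poly (k := k) (n := 2) (MvPolynomial.X 0 + MvPolynomial.X 1))
    (g := ![f, g]) (fun j => by fin_cases j <;> simpa)
  simpa using h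

theorem PR.neg {f : (Fin n → k) → k} (hf : PR k n f) : PR k n (fun x => - f x) := by
  have h := PR.comp (PR.poly (k := k) (n := 1) (-MvPolynomial.X 0))
    (g := ![f]) (fun j => by fin_cases j; simpa)
  simpa using h

theorem PR.mul {f g : (Fin n → k) → k} (hf : PR k n f) (hg : PR k n g) :
    PR k n (fun x => f x * g x) := by
  have h := PR.comp (PR.poly (k := k) (n := 2) (MvPolynomial.X 0 * MvPolynomial.X 1))
    (g := ![f, g]) (fun j => by fin_cases j <;> simpa)
  simpa using h

private theorem cona_PR_inv0 : PR k 1 (fun y => (y 0)⁻¹) := by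
  refine cona_PR_of_finite (ι := Bool)
    (fun b => if b then {y | MvPolynomial.eval y (MvPolynomial.X 0 : MvPolynomial (Fin 1) k) = 0}
      else {y | MvPolynomial.eval y (MvPolynomial.X 0 : MvPolynomial (Fin 1) k) = 0}ᶜ)
    (fun b => if b then 0 else 1) (fun b => if b then 1 else MvPolynomial.X 0)
    (fun b => ?_) (fun y => ?_) (fun b y hy => ?_)
  · cases b
    · exact Con.compl _ (Con.zero _)
    · exact Con.zero _
  · by_cases h : y 0 = 0
    · exact ⟨true, by simpa using h⟩
    · exact ⟨false, by simpa using h⟩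
  · cases b
    · have : y 0 ≠ 0 := by simpa using hy
      simp [this]
    · have : y 0 = 0 := by simpa using hy
      simp [this]

theorem PR.inv {f : (Fin n → k) → k} (hf : PR k n f) : PR k n (fun x => (f x)⁻¹) := by
  have h := PR.comp (cona_PR_inv0 (k := k)) (g := ![f]) (fun j => by fin_cases j; simpa)
  simpa using h

theorem PR.zero_set {f : (Fin n → k) → k} (hf : PR k n f) : Con k n {x | f x = 0} := by
  have h := (Con.zero (k := k) (n := 1) (MvPolynomial.X 0)).preimage_pr ![f]
    (fun j => by fin_cases j; simpa)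
  simpa using h

/-- Pieces: if `f` agrees on each member of a finite constructible cover with a `PR` function. -/
theorem PR.pieces {ι : Type} [Finite ι] {A : ι → Set (Fin n → k)} (hA : ∀ i, Con k n (A i))
    (hc : ∀ x, ∃ i, x ∈ A i) {f : (Fin n → k) → k} {g : ι → (Fin n → k) → k}
    (hg : ∀ i, PR k n (g i)) (hfg : ∀ i, ∀ x ∈ A i, f x = g i x) : PR k n f := by
  choose r B P Q hB hcov hPQ using hg
  refine cona_PR_of_finite (ι := (i : ι) × Fin (r i)) (fun ij => A ij.1 ∩ B ij.1 ij.2)
    (fun ij => P ij.1 ij.2) (fun ij => Q ij.1 ij.2)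
    (fun ij => Con.inter _ _ (hA _) (hB _ _)) (fun x => ?_) (fun ij x hx => ?_)
  · obtain ⟨i, hi⟩ := hc x
    obtain ⟨j, hj⟩ := hcov i x
    exact ⟨⟨i, j⟩, hi, hj⟩
  · obtain ⟨h1, h2⟩ := hPQ ij.1 ij.2 x hx.2
    exact ⟨h1, by rw [hfg _ x hx.1, h2]⟩

open Classical in
theorem PR.ite {s : Set (Fin n → k)} (hs : Con k n s) {f g : (Fin n → k) → k} (hf : PR k n f)
    (hg : PR k n g) : PR k n (fun x => if x ∈ s then f x else g x) := by
  refine PR.pieces (ι := Bool) (A := fun b => if b then s else sᶜ)
    (g := fun b => if b then f else g) (fun b => ?_) (fun x => ?_) (fun b => ?_) (fun b x hx => ?_)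
  · cases b
    · exact Con.compl _ hs
    · exact hs
  · by_cases h : x ∈ s
    · exact ⟨true, by simpa using h⟩
    · exact ⟨false, by simpa using h⟩
  · cases b
    · simpa using hg
    · simpa using hf
  · cases b
    · have : x ∉ s := by simpa using hx
      simp [this]
    · have : x ∈ s := by simpa using hx
      simp [this]

theorem PR.sum {ι : Type} (t : Finset ι) {f : ι → (Fin n → k) → k} (hf : ∀ i ∈ t, PR k n (f i)) :
    PR k n (fun x => ∑ i ∈ t, f i x) := by
  classical
  induction t using Finset.induction_on with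
  | empty => simpa using PR.const (k := k) (n := n) 0
  | insert a t ha ih =>
    have h := (hf a (Finset.mem_insert_self a t)).add
      (ih fun i hi => hf i (Finset.mem_insert_of_mem hi))
    simpa [Finset.sum_insert ha] using h

end Pool.Agent.MRat
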