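import Pool.Agent.Lib.MP_923aff_ag.ConA
/-!
# JOB CONB: piecewise rational families of univariate polynomials; Euclid
-/

set_option autoImplicit false

namespace Pool.Agent.MRat

open Polynomial

/-- A family of univariate polynomials of bounded degree with piecewise rational coefficients. -/
def PP (k : Type) [Field k] (n : ℕ) (G : (Fin n → k) → k[X]) : Prop :=
  (∃ D : ℕ, ∀ a, (G a).natDegree ≤ D) ∧ ∀ i, PR k n (fun a => (G a).coeff i)

variable {k : Type} [Field k] {n : ℕ}

theorem PP.const (p : k[X]) : PP k n (fun _ => p) :=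
  ⟨⟨p.natDegree, fun _ => le_rfl⟩, fun _ => PR.const _⟩

theorem PP.C {f : (Fin n → k) → k} (hf : PR k n f) : PP k n (fun a => C (f a)) := by
  refine ⟨⟨0, fun a => by simp⟩, fun i => ?_⟩
  by_cases hi : i = 0
  · subst hi
    simpa using hf
  · have h : (fun a : Fin n → k => (Polynomial.C (f a)).coeff i) = fun _ => (0 : k) := by
      funext a
      simp [coeff_C, hi]
    rw [h]
    exact PR.const 0

theorem PP.add {G H : (Fin n → k) → k[X]} (hG : PP k n G) (hH : PP k n H) :
    PP k n (fun a => G a + H a) := by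
  obtain ⟨⟨D, hD⟩, hc⟩ := hG
  obtain ⟨⟨E, hE⟩, hd⟩ := hH
  refine ⟨⟨max D E, fun a => ?_⟩, fun i => ?_⟩
  · exact (natDegree_add_le _ _).trans (max_le_max (hD a) (hE a))
  · simp only [coeff_add]
    exact PR.add (hc i) (hd i)

theorem PP.mul {G H : (Fin n → k) → k[X]} (hG : PP k n G) (hH : PP k n H) :
    PP k n (fun a => G a * H a) := by
  obtain ⟨⟨D, hD⟩, hc⟩ := hG
  obtain ⟨⟨E, hE⟩, hd⟩ := hH
  refine ⟨⟨D + E, fun a => ?_⟩, fun i => ?_⟩
  · exact natDegree_mul_le.trans (add_le_add (hD a) (hE a))
  · simp only [coeff_mul]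
    exact PR.sum (Finset.HasAntidiagonal.antidiagonal i)
      (f := fun (x : ℕ × ℕ) a => (G a).coeff x.1 * (H a).coeff x.2)
      (fun x _ => PR.mul (hc x.1) (hd x.2))

theorem PP.pow {G : (Fin n → k) → k[X]} (hG : PP k n G) (j : ℕ) : PP k n (fun a => G a ^ j) := by
  induction j with
  | zero => simpa using PP.const (k := k) (n := n) 1
  | succ j ih =>
    simp only [pow_succ]
    exact PP.mul ih hG

open Classical in
theorem PP.ite {s : Set (Fin n → k)} (hs : Con k n s) {G H : (Fin n → k) → k[X]} (hG : PP k n G)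
    (hH : PP k n H) : PP k n (fun a => if a ∈ s then G a else H a) := by
  obtain ⟨⟨D, hD⟩, hc⟩ := hG
  obtain ⟨⟨E, hE⟩, hd⟩ := hH
  refine ⟨⟨max D E, fun a => ?_⟩, fun i => ?_⟩
  · by_cases h : a ∈ s
    · simp only [h, if_true]
      exact (hD a).trans (le_max_left _ _)
    · simp only [h, if_false]
      exact (hE a).trans (le_max_right _ _)
  · have h : (fun a : Fin n → k => (if a ∈ s then G a else H a).coeff i) =
        fun a => if a ∈ s then (G a).coeff i else (H a).coeff i := by
      funext a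
      split_ifs <;> rfl
    rw [h]
    exact PR.ite hs (hc i) (hd i)

theorem PP.pieces {ι : Type} [Finite ι] {A : ι → Set (Fin n → k)} (hA : ∀ i, Con k n (A i))
    (hc : ∀ x, ∃ i, x ∈ A i) {f : (Fin n → k) → k[X]} {g : ι → (Fin n → k) → k[X]}
    (hg : ∀ i, PP k n (g i)) (hfg : ∀ i, ∀ x ∈ A i, f x = g i x) : PP k n f := by
  have := Fintype.ofFinite ι
  choose D hD using fun i => (hg i).1
  refine ⟨⟨Finset.univ.sup D, fun a => ?_⟩, fun j => ?_⟩
  · obtain ⟨i, hi⟩ := hc a
    rw [hfg i a hi]
    exact (hD i a).trans (Finset.le_sup (f := D) (Finset.mem_univ i))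
  · exact PR.pieces hA hc (g := fun i a => (g i a).coeff j) (fun i => (hg i).2 j)
      (fun i x hx => by simp only [hfg i x hx])

private theorem conb_pow {f : (Fin n → k) → k} (hf : PR k n f) (j : ℕ) :
    PR k n (fun a => f a ^ j) := by
  induction j with
  | zero => simpa using PR.const (k := k) (n := n) 1
  | succ j ih =>
    simp only [pow_succ]
    exact PR.mul ih hf

theorem PP.eval {G : (Fin n → k) → k[X]} (hG : PP k n G) {f : (Fin n → k) → k} (hf : PR k n f) :
    PR k n (fun a => (G a).eval (f a)) := by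
  obtain ⟨⟨D, hD⟩, hc⟩ := hG
  have h : (fun a : Fin n → k => (G a).eval (f a)) =
      fun a => ∑ i ∈ Finset.range (D + 1), (G a).coeff i * f a ^ i := by
    funext a
    exact eval_eq_sum_range' (Nat.lt_succ_of_le (hD a)) _
  rw [h]
  exact PR.sum (Finset.range (D + 1)) (f := fun i a => (G a).coeff i * f a ^ i)
    (fun i _ => PR.mul (hc i) (conb_pow hf i))

theorem PP.zero_set {G : (Fin n → k) → k[X]} (hG : PP k n G) : Con k n {a | G a = 0} := by
  obtain ⟨⟨D, hD⟩, hc⟩ := hG
  have h : {a | G a = 0} = ⋂ i : Fin (D + 1), {a | (G a).coeff i = 0} := by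
    ext a
    simp only [Set.mem_ofPred_eq, Set.mem_iInter]
    constructor
    · intro h i
      rw [h, coeff_zero]
    · intro h
      ext i
      rw [coeff_zero]
      by_cases hi : i < D + 1
      · exact h ⟨i, hi⟩
      · exact coeff_eq_zero_of_natDegree_lt (lt_of_le_of_lt (hD a) (by omega))
  rw [h]
  exact Con.iInter (fun i => PR.zero_set (hc i))

private theorem conb_natDegree_le {G : (Fin n → k) → k[X]} (hG : PP k n G) (j : ℕ) :
    Con k n {a | (G a).natDegree ≤ j} := by
  obtain ⟨⟨D, hD⟩, hc⟩ := hG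
  have h : {a | (G a).natDegree ≤ j} =
      ⋂ i : Fin (D + 1), {a | j < (i : ℕ) → (G a).coeff i = 0} := by
    ext a
    simp only [Set.mem_ofPred_eq, Set.mem_iInter]
    constructor
    · intro h i hi
      exact coeff_eq_zero_of_natDegree_lt (lt_of_le_of_lt h hi)
    · intro h
      rw [natDegree_le_iff_coeff_eq_zero]
      intro i hi
      by_cases hi' : i < D + 1
      · exact h ⟨i, hi'⟩ hi
      · exact coeff_eq_zero_of_natDegree_lt (lt_of_le_of_lt (hD a) (by omega))
  rw [h]
  refine Con.iInter (fun i => ?_)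
  by_cases hi : j < (i : ℕ)
  · simpa [hi] using PR.zero_set (hc i)
  · simpa [hi] using (Con.univ (k := k) (n := n))

theorem PP.natDegree_set {G : (Fin n → k) → k[X]} (hG : PP k n G) (j : ℕ) :
    Con k n {a | (G a).natDegree = j} := by
  cases j with
  | zero =>
    simpa using conb_natDegree_le hG 0
  | succ j =>
    have h : {a | (G a).natDegree = j + 1} =
        {a | (G a).natDegree ≤ j + 1} \ {a | (G a).natDegree ≤ j} := by
      ext a
      simp only [Set.mem_ofPred_eq, Set.mem_sdiff]
      omega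
    rw [h]
    exact Con.diff (conb_natDegree_le hG _) (conb_natDegree_le hG _)

theorem PP.lc {G : (Fin n → k) → k[X]} (hG : PP k n G) : PR k n (fun a => (G a).leadingCoeff) := by
  obtain ⟨D, hD⟩ := hG.1
  refine PR.pieces (ι := Fin (D + 1)) (A := fun i => {a | (G a).natDegree = (i : ℕ)})
    (fun i => PP.natDegree_set hG i) (fun a => ⟨⟨(G a).natDegree, Nat.lt_succ_of_le (hD a)⟩, rfl⟩)
    (g := fun i a => (G a).coeff i) (fun i => hG.2 i) ?_
  intro i a ha
  simp only [Set.mem_ofPred_eq] at ha
  rw [leadingCoeff, ha]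

private theorem conb_lt {a b : WithBot ℕ} {N : ℕ} (h : a < b)
    (h2 : b < ((N + 1 : ℕ) : WithBot ℕ)) : a < (N : WithBot ℕ) := by
  induction b using WithBot.recBotCoe with
  | bot => exact absurd h (not_lt_bot)
  | coe b =>
    induction a using WithBot.recBotCoe with
    | bot => exact WithBot.bot_lt_coe _
    | coe a =>
      have h3 : b < N + 1 := WithBot.coe_lt_coe.1 h2
      have h4 : a < b := WithBot.coe_lt_coe.1 h
      have h5 : a < N := by omega
      exact WithBot.coe_lt_coe.2 h5

/-- the set where one step of the division is performed -/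
private def conbS (G H : (Fin n → k) → k[X]) : Set (Fin n → k) :=
  {a | H a ≠ 0 ∧ G a ≠ 0 ∧ (H a).natDegree ≤ (G a).natDegree}

private theorem conbS_con {G H : (Fin n → k) → k[X]} (hG : PP k n G) (hH : PP k n H) :
    Con k n (conbS G H) := by
  obtain ⟨D, hD⟩ := hG.1
  have h : conbS G H = ({a | H a = 0}ᶜ ∩ {a | G a = 0}ᶜ) ∩
      ⋃ i : Fin (D + 1), ({a | (G a).natDegree = (i : ℕ)} ∩ {a | (H a).natDegree ≤ (i : ℕ)}) := by
    ext a
    simp only [conbS, Set.mem_ofPred_eq, Set.mem_inter_iff, Set.mem_compl_iff, Set.mem_iUnion]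
    constructor
    · rintro ⟨h1, h2, h3⟩
      exact ⟨⟨h1, h2⟩, ⟨⟨(G a).natDegree, Nat.lt_succ_of_le (hD a)⟩, rfl, h3⟩⟩
    · rintro ⟨⟨h1, h2⟩, ⟨i, h3, h4⟩⟩
      exact ⟨h1, h2, h3 ▸ h4⟩
  rw [h]
  exact Con.inter _ _ (Con.inter _ _ (Con.compl _ (PP.zero_set hH)) (Con.compl _ (PP.zero_set hG)))
    (Con.iUnion (fun i => Con.inter _ _ (PP.natDegree_set hG _) (conb_natDegree_le hH _)))

/-- the quotient term of one step of the division -/
private noncomputable def conbT (G H : (Fin n → k) → k[X]) (a : Fin n → k) : k[X] :=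
  Polynomial.C ((G a).leadingCoeff * ((H a).leadingCoeff)⁻¹) *
    X ^ ((G a).natDegree - (H a).natDegree)

private theorem conbT_pp {G H : (Fin n → k) → k[X]} (hG : PP k n G) (hH : PP k n H) :
    PP k n (conbT G H) := by
  obtain ⟨D, hD⟩ := hG.1
  obtain ⟨E, hE⟩ := hH.1
  refine PP.pieces (ι := Fin (D + 1) × Fin (E + 1))
    (A := fun i => {a | (G a).natDegree = (i.1 : ℕ)} ∩ {a | (H a).natDegree = (i.2 : ℕ)})
    (fun i => Con.inter _ _ (PP.natDegree_set hG _) (PP.natDegree_set hH _))
    (fun a => ⟨(⟨(G a).natDegree, Nat.lt_succ_of_le (hD a)⟩,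
      ⟨(H a).natDegree, Nat.lt_succ_of_le (hE a)⟩), rfl, rfl⟩)
    (g := fun i a => Polynomial.C ((G a).leadingCoeff * ((H a).leadingCoeff)⁻¹) *
      X ^ ((i.1 : ℕ) - (i.2 : ℕ))) ?_ ?_
  · intro i
    exact PP.mul (PP.C (PR.mul (PP.lc hG) (PR.inv (PP.lc hH)))) (PP.const _)
  · intro i a ha
    obtain ⟨h1, h2⟩ := ha
    simp only [Set.mem_ofPred_eq] at h1 h2
    simp only [conbT]
    rw [h1, h2]

private theorem conb_step {p q : k[X]} (hq : q ≠ 0) (hp : p ≠ 0)
    (hd : q.natDegree ≤ p.natDegree) :
    (p - Polynomial.C (p.leadingCoeff * (q.leadingCoeff)⁻¹) *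
      X ^ (p.natDegree - q.natDegree) * q).degree < p.degree := by
  have hlq : q.leadingCoeff ≠ 0 := leadingCoeff_ne_zero.2 hq
  have hlp : p.leadingCoeff ≠ 0 := leadingCoeff_ne_zero.2 hp
  have hc : p.leadingCoeff * (q.leadingCoeff)⁻¹ ≠ 0 := mul_ne_zero hlp (inv_ne_zero hlq)
  refine degree_sub_lt_left ?_ hp ?_
  · rw [degree_mul, degree_C_mul_X_pow _ hc, degree_eq_natDegree hp, degree_eq_natDegree hq]
    norm_cast
    omega
  · rw [leadingCoeff_mul, leadingCoeff_C_mul_X_pow, mul_assoc, inv_mul_cancel₀ hlq, mul_one]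

private theorem conb_divmod (N : ℕ) : ∀ G H : (Fin n → k) → k[X], PP k n G → PP k n H →
    (∀ a, (G a).degree < (N : WithBot ℕ)) →
    PP k n (fun a => G a % H a) ∧ PP k n (fun a => G a / H a) := by
  classical
  induction N with
  | zero =>
    intro G H hG hH hN
    have h0 : ∀ a, G a = 0 := fun a => by
      have := hN a
      rw [Nat.cast_zero] at this
      by_contra h
      exact absurd this (not_lt.2 (zero_le_degree_iff.2 h))
    have h1 : (fun a => G a % H a) = fun _ => 0 := by
      funext a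
      rw [h0 a, EuclideanDomain.zero_mod]
    have h2 : (fun a => G a / H a) = fun _ => 0 := by
      funext a
      rw [h0 a, EuclideanDomain.zero_div]
    rw [h1, h2]
    exact ⟨PP.const 0, PP.const 0⟩
  | succ N ih =>
    intro G H hG hH hN
    have hS := conbS_con hG hH
    have hT := conbT_pp hG hH
    have hG' : PP k n (fun a => if a ∈ conbS G H then G a + (Polynomial.C (-1)) * (conbT G H a * H a) else 0) :=
      PP.ite hS (PP.add hG (PP.mul (PP.const _) (PP.mul hT hH))) (PP.const 0)
    obtain ⟨i1, i2⟩ := ih _ H hG' hH (by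
      intro a
      by_cases ha : a ∈ conbS G H
      · simp only [ha, if_true]
        have hs := conb_step ha.1 ha.2.1 ha.2.2
        have he : G a + (Polynomial.C (-1)) * (conbT G H a * H a) =
            G a - Polynomial.C ((G a).leadingCoeff * ((H a).leadingCoeff)⁻¹) *
              X ^ ((G a).natDegree - (H a).natDegree) * H a := by
          simp only [conbT, map_neg, map_one]
          ring
        rw [he]
        exact conb_lt hs (hN a)
      · simp only [ha, if_false, degree_zero]
        exact WithBot.bot_lt_coe _)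
    have hm : ∀ a, G a % H a = if a ∈ conbS G H then
        (if a ∈ conbS G H then G a + (Polynomial.C (-1)) * (conbT G H a * H a) else 0) % H a
        else G a := by
      intro a
      by_cases ha : a ∈ conbS G H
      · simp only [ha, if_true]
        have h0 : (Polynomial.C (-1) * (conbT G H a * H a)) % H a = 0 :=
          EuclideanDomain.mod_eq_zero.2 (Dvd.dvd.mul_left (dvd_mul_left _ _) _)
        rw [Polynomial.add_mod, h0, add_zero]
      · simp only [ha, if_false]
        by_cases hH0 : H a = 0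
        · rw [hH0, EuclideanDomain.mod_zero]
        · rw [mod_eq_self_iff hH0]
          by_cases hG0 : G a = 0
          · rw [hG0, degree_zero]
            exact bot_lt_iff_ne_bot.2 (fun h => hH0 (degree_eq_bot.1 h))
          · have : ¬ (H a).natDegree ≤ (G a).natDegree := fun h => ha ⟨hH0, hG0, h⟩
            exact degree_lt_degree (not_le.1 this)
    have hd : ∀ a, G a / H a = if a ∈ conbS G H then conbT G H a +
        (if a ∈ conbS G H then G a + (Polynomial.C (-1)) * (conbT G H a * H a) else 0) / H a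
        else 0 := by
      intro a
      have hma := hm a
      by_cases ha : a ∈ conbS G H
      · simp only [ha, if_true] at hma ⊢
        have e1 := EuclideanDomain.div_add_mod (G a) (H a)
        have e2 := EuclideanDomain.div_add_mod
          (G a + (Polynomial.C (-1)) * (conbT G H a * H a)) (H a)
        rw [← hma] at e2
        refine mul_left_cancel₀ ha.1 ?_
        generalize (G a + (Polynomial.C (-1)) * (conbT G H a * H a)) / H a = Q2 at e2 ⊢
        generalize G a / H a = Q1 at e1 ⊢
        generalize G a % H a = R at e1 e2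
        rw [map_neg, map_one] at e2
        linear_combination e1 - e2
      · simp only [ha, if_false] at hma ⊢
        by_cases hH0 : H a = 0
        · rw [hH0, EuclideanDomain.div_zero]
        · exact (Polynomial.div_eq_zero_iff hH0).2 ((mod_eq_self_iff hH0).1 hma)
    refine ⟨?_, ?_⟩
    · rw [funext hm]
      exact PP.ite hS i1 hG
    · rw [funext hd]
      exact PP.ite hS (PP.add hT i2) (PP.const 0)

/-- Division with remainder (recursion on the degree bound, pieces by `natDegree`). -/
theorem PP.mod {G H : (Fin n → k) → k[X]} (hG : PP k n G) (hH : PP k n H) :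
    PP k n (fun a => G a % H a) := by
  obtain ⟨D, hD⟩ := hG.1
  exact (conb_divmod (D + 1) G H hG hH (fun a => lt_of_le_of_lt
    (degree_le_of_natDegree_le (hD a)) (by exact_mod_cast Nat.lt_succ_self D))).1

theorem PP.div {G H : (Fin n → k) → k[X]} (hG : PP k n G) (hH : PP k n H) :
    PP k n (fun a => G a / H a) := by
  obtain ⟨D, hD⟩ := hG.1
  exact (conb_divmod (D + 1) G H hG hH (fun a => lt_of_le_of_lt
    (degree_le_of_natDegree_le (hD a)) (by exact_mod_cast Nat.lt_succ_self D))).2

private theorem conb_gcd (N : ℕ) : ∀ G H : (Fin n → k) → k[X], PP k n G → PP k n H →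
    (∀ a, (H a).degree < (N : WithBot ℕ)) →
    ∃ K : (Fin n → k) → k[X], PP k n K ∧ ∀ a, K a ∣ G a ∧ K a ∣ H a ∧
      ∀ d, d ∣ G a → d ∣ H a → d ∣ K a := by
  classical
  induction N with
  | zero =>
    intro G H hG hH hN
    have h0 : ∀ a, H a = 0 := fun a => by
      have := hN a
      rw [Nat.cast_zero] at this
      by_contra h
      exact absurd this (not_lt.2 (zero_le_degree_iff.2 h))
    exact ⟨G, hG, fun a => ⟨dvd_rfl, by rw [h0 a]; exact dvd_zero _, fun d h _ => h⟩⟩
  | succ N ih =>
    intro G H hG hH hN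
    obtain ⟨S, hS, hmem⟩ : ∃ S : Set (Fin n → k), Con k n S ∧ ∀ a, a ∈ S ↔ H a = 0 :=
      ⟨_, PP.zero_set hH, fun a => Iff.rfl⟩
    obtain ⟨K, hK, hKd⟩ := ih (fun a => if a ∈ S then G a else H a)
      (fun a => if a ∈ S then 0 else G a % H a)
      (PP.ite hS hG hH) (PP.ite hS (PP.const 0) (PP.mod hG hH)) (by
        intro a
        by_cases ha : H a = 0
        · simp only [hmem, ha, if_true, degree_zero]
          exact WithBot.bot_lt_coe _
        · simp only [hmem, ha, if_false]
          have hs : (G a % H a).degree < (H a).degree := EuclideanDomain.mod_lt (G a) ha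
          exact conb_lt hs (hN a))
    refine ⟨K, hK, fun a => ?_⟩
    have hka := hKd a
    by_cases ha : H a = 0
    · simp only [hmem, ha, if_true] at hka
      rw [ha]
      exact hka
    · simp only [hmem, ha, if_false] at hka
      obtain ⟨k1, k2, k3⟩ := hka
      refine ⟨?_, k1, fun d d1 d2 => ?_⟩
      · rw [← EuclideanDomain.div_add_mod (G a) (H a)]
        exact dvd_add (Dvd.dvd.mul_right k1 _) k2
      · refine k3 d d2 ?_
        exact (EuclideanDomain.dvd_mod_iff d2).2 d1

/-- Some greatest common divisor (Euclid). -/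
theorem PP.gcd {G H : (Fin n → k) → k[X]} (hG : PP k n G) (hH : PP k n H) :
    ∃ K : (Fin n → k) → k[X], PP k n K ∧ ∀ a, K a ∣ G a ∧ K a ∣ H a ∧
      ∀ d, d ∣ G a → d ∣ H a → d ∣ K a := by
  obtain ⟨D, hD⟩ := hH.1
  exact conb_gcd (D + 1) G H hG hH (fun a => lt_of_le_of_lt
    (degree_le_of_natDegree_le (hD a)) (by exact_mod_cast Nat.lt_succ_self D))

end Pool.Agent.MRat
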