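import Pool.Agent.Lib.MP_923aff_ag.ConB
/-!
# JOB CONC: normal form, projection, uniform finiteness
-/

set_option autoImplicit false

namespace Pool.Agent.MRat

open Polynomial

variable {k : Type} [Field k] [IsAlgClosed k] [CharZero k] {n : ℕ}

/-! ### auxiliary facts -/

omit [IsAlgClosed k] [CharZero k] in
theorem conc_eval_snoc (p : MvPolynomial (Fin (n + 1)) k) :
    ∃ q : (MvPolynomial (Fin n) k)[X], ∀ (a : Fin n → k) (y : k),
      MvPolynomial.eval (Fin.snoc a y : Fin (n + 1) → k) p =
        (q.map (MvPolynomial.eval a)).eval y := by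
  refine ⟨MvPolynomial.finSuccEquiv k n (MvPolynomial.rename (finRotate (n + 1)) p),
    fun a y => ?_⟩
  rw [← MvPolynomial.eval_eq_eval_mv_eval', MvPolynomial.eval_rename]
  have h : (Fin.snoc a y : Fin (n + 1) → k) =
      (Fin.cons y a : Fin (n + 1) → k) ∘ finRotate (n + 1) := by
    rw [Fin.snoc_eq_cons_rotate]
    rfl
  rw [h]

omit [IsAlgClosed k] [CharZero k] in
theorem conc_pp_mv (q : (MvPolynomial (Fin n) k)[X]) :
    PP k n (fun a => q.map (MvPolynomial.eval a)) := by
  refine ⟨⟨q.natDegree, fun a => natDegree_map_le⟩, fun i => ?_⟩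
  simp only [coeff_map]
  exact PR.poly _

omit [IsAlgClosed k] [CharZero k] in
/-- roots of `G` which are not roots of `H` -/
theorem conc_div_root {G H K : k[X]} (hG : G ≠ 0) {D : ℕ} (hD : G.natDegree ≤ D)
    (h1 : K ∣ G) (h2 : K ∣ H ^ D) (h3 : ∀ d, d ∣ G → d ∣ H ^ D → d ∣ K) (y : k) :
    (G / K).IsRoot y ↔ G.IsRoot y ∧ ¬ H.IsRoot y := by
  have hK : K ≠ 0 := fun h => hG (by rw [h, zero_dvd_iff] at h1; exact h1)
  have hmul : K * (G / K) = G := EuclideanDomain.mul_div_cancel' hK h1
  have hq : G / K ≠ 0 := fun h => hG (by rw [← hmul, h, mul_zero])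
  constructor
  · intro hr
    refine ⟨?_, fun hH => ?_⟩
    · rw [IsRoot.def, ← hmul, eval_mul, IsRoot.def.1 hr, mul_zero]
    · have hle : G.rootMultiplicity y ≤ D := (by
        classical
        rw [← count_roots]
        exact (Multiset.count_le_card _ _).trans (card_roots' G) :
          G.rootMultiplicity y ≤ G.natDegree).trans hD
      have hd1 : (X - C y) ^ G.rootMultiplicity y ∣ G := pow_rootMultiplicity_dvd G y
      have hd2 : (X - C y) ^ G.rootMultiplicity y ∣ H ^ D :=
        (pow_dvd_pow _ hle).trans (pow_dvd_pow_of_dvd (dvd_iff_isRoot.2 hH) D)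
      have hd3 := h3 _ hd1 hd2
      have hd4 : (X - C y) ^ (G.rootMultiplicity y + 1) ∣ G := by
        rw [pow_succ]
        calc _ ∣ K * (G / K) := mul_dvd_mul hd3 (dvd_iff_isRoot.2 hr)
          _ = G := hmul
      have := (le_rootMultiplicity_iff hG).2 hd4
      omega
  · rintro ⟨hr, hH⟩
    have hKy : K.eval y ≠ 0 := by
      intro h0
      obtain ⟨c, hc⟩ := h2
      apply hH
      have : (H ^ D).eval y = 0 := by rw [hc, eval_mul, h0, zero_mul]
      rw [eval_pow] at this
      by_contra hne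
      exact pow_ne_zero D hne this
    have : K.eval y * (G / K).eval y = 0 := by rw [← eval_mul, hmul]; exact hr
    exact (mul_eq_zero.1 this).resolve_left hKy

omit [IsAlgClosed k] [CharZero k] in
theorem conc_gcd_root {G H K : k[X]} (h1 : K ∣ G) (h2 : K ∣ H)
    (h3 : ∀ d, d ∣ G → d ∣ H → d ∣ K) (y : k) :
    K.IsRoot y ↔ G.IsRoot y ∧ H.IsRoot y := by
  rw [← dvd_iff_isRoot, ← dvd_iff_isRoot, ← dvd_iff_isRoot]
  exact ⟨fun h => ⟨h.trans h1, h.trans h2⟩, fun h => h3 _ h.1 h.2⟩

/-- Normal form of a constructible subset of `k ^ (n + 1)` over `k ^ n`. -/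
theorem normal_form {S : Set (Fin (n + 1) → k)} (hS : Con k (n + 1) S) :
    ∃ (A : Set (Fin n → k)) (G : (Fin n → k) → k[X]), Con k n A ∧ PP k n G ∧ (∀ a, G a ≠ 0) ∧
      (∀ a ∈ A, ∀ y, (Fin.snoc a y : Fin (n + 1) → k) ∈ S ↔ (G a).IsRoot y) ∧
      (∀ a ∉ A, ∀ y, (Fin.snoc a y : Fin (n + 1) → k) ∈ S ↔ ¬ (G a).IsRoot y) := by
  classical
  induction hS with
  | zero p =>
    obtain ⟨q, hqe⟩ := conc_eval_snoc p
    have hq : PP k n (fun a => q.map (MvPolynomial.eval a)) := conc_pp_mv q
    obtain ⟨Z, hZd⟩ : ∃ Z : Set (Fin n → k), ∀ a, a ∈ Z ↔ q.map (MvPolynomial.eval a) = 0 :=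
      ⟨{a | q.map (MvPolynomial.eval a) = 0}, fun a => Iff.rfl⟩
    have hZ : Con k n Z := by
      have h := hq.zero_set
      have h' : {a | q.map (MvPolynomial.eval a) = 0} = Z := by
        ext a
        rw [hZd]
        rfl
      rwa [h'] at h
    refine ⟨Zᶜ, fun a => if a ∈ Z then 1 else q.map (MvPolynomial.eval a), hZ.compl,
      PP.ite hZ (PP.const 1) hq, ?_, ?_, ?_⟩
    · intro a
      by_cases h : a ∈ Z
      · simp only [h, if_true]; exact one_ne_zero
      · simp only [h, if_false]; exact fun h' => h ((hZd a).2 h')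
    · intro a ha y
      have h : a ∉ Z := ha
      simp only [h, if_false]
      show MvPolynomial.eval _ p = 0 ↔ _
      rw [hqe]
      rfl
    · intro a ha y
      have h : a ∈ Z := by
        by_contra h'; exact ha h'
      simp only [h, if_true]
      show MvPolynomial.eval _ p = 0 ↔ _
      rw [hqe, (hZd a).1 h]
      simp
  | compl s hs ih =>
    obtain ⟨A, G, hA, hG, h0, h1, h2⟩ := ih
    refine ⟨Aᶜ, G, hA.compl, hG, h0, fun a ha y => ?_, fun a ha y => ?_⟩
    · rw [Set.mem_compl_iff, h2 a ha y, not_not]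
    · rw [Set.mem_compl_iff, h1 a (by by_contra h; exact ha h) y]
  | inter s t hs ht ihs iht =>
    obtain ⟨A1, G1, hA1, hG1, h01, h11, h21⟩ := ihs
    obtain ⟨A2, G2, hA2, hG2, h02, h12, h22⟩ := iht
    obtain ⟨D1, hD1⟩ := hG1.1
    obtain ⟨D2, hD2⟩ := hG2.1
    obtain ⟨K, hK, hK'⟩ := PP.gcd hG1 hG2
    obtain ⟨K1, hK1, hK1'⟩ := PP.gcd hG1 (hG2.pow D1)
    obtain ⟨K2, hK2, hK2'⟩ := PP.gcd hG2 (hG1.pow D2)
    have ne_div : ∀ {G K : k[X]}, G ≠ 0 → K ∣ G → G / K ≠ 0 := by
      intro G K hG h1 h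
      have hK : K ≠ 0 := fun h => hG (by rw [h, zero_dvd_iff] at h1; exact h1)
      have hmul : K * (G / K) = G := EuclideanDomain.mul_div_cancel' hK h1
      exact hG (by rw [← hmul, h, mul_zero])
    refine ⟨A1 ∪ A2, fun a => if a ∈ A1 then (if a ∈ A2 then K a else G1 a / K1 a)
      else (if a ∈ A2 then G2 a / K2 a else G1 a * G2 a), hA1.union hA2,
      PP.ite hA1 (PP.ite hA2 hK (hG1.div hK1)) (PP.ite hA2 (hG2.div hK2) (hG1.mul hG2)),
      ?_, ?_, ?_⟩
    · intro a
      by_cases m1 : a ∈ A1 <;> by_cases m2 : a ∈ A2 <;> simp only [m1, m2, if_true, if_false]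
      · intro h
        have := (hK' a).1
        rw [h, zero_dvd_iff] at this
        exact h01 a this
      · exact ne_div (h01 a) (hK1' a).1
      · exact ne_div (h02 a) (hK2' a).1
      · exact mul_ne_zero (h01 a) (h02 a)
    · intro a ha y
      rw [Set.mem_inter_iff]
      by_cases m1 : a ∈ A1 <;> by_cases m2 : a ∈ A2 <;> simp only [m1, m2, if_true, if_false]
      · rw [h11 a m1, h12 a m2, conc_gcd_root (hK' a).1 (hK' a).2.1 (hK' a).2.2]
      · rw [h11 a m1, h22 a m2, conc_div_root (h01 a) (hD1 a) (hK1' a).1 (hK1' a).2.1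
          (hK1' a).2.2]
      · rw [h21 a m1, h12 a m2, conc_div_root (h02 a) (hD2 a) (hK2' a).1 (hK2' a).2.1
          (hK2' a).2.2, and_comm]
      · exact absurd ha (by simp [m1, m2])
    · intro a ha y
      have m1 : a ∉ A1 := fun h => ha (Or.inl h)
      have m2 : a ∉ A2 := fun h => ha (Or.inr h)
      simp only [m1, m2, if_false]
      rw [Set.mem_inter_iff, h21 a m1, h22 a m2, root_mul, not_or]

theorem Con.proj {S : Set (Fin (n + 1) → k)} (hS : Con k (n + 1) S) :
    Con k n {a | ∃ y, (Fin.snoc a y : Fin (n + 1) → k) ∈ S} := by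
  obtain ⟨A, G, hA, hG, h0, h1, h2⟩ := normal_form hS
  have hd := hG.natDegree_set 0
  have : {a | ∃ y, (Fin.snoc a y : Fin (n + 1) → k) ∈ S} =
      (A ∩ {a | (G a).natDegree = 0}ᶜ) ∪ Aᶜ := by
    ext a
    simp only [Set.mem_ofPred_eq, Set.mem_union, Set.mem_inter_iff, Set.mem_compl_iff]
    by_cases ha : a ∈ A
    · simp only [ha, true_and, not_true, or_false]
      simp only [h1 a ha]
      constructor
      · rintro ⟨y, hy⟩ h
        rw [natDegree_eq_zero] at h
        obtain ⟨c, hc⟩ := h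
        rw [IsRoot.def, ← hc, eval_C] at hy
        exact h0 a (by rw [← hc, hy, C_0])
      · intro h
        apply IsAlgClosed.exists_root
        intro h'
        exact h (natDegree_eq_of_degree_eq_some h')
    · simp only [ha, false_and, not_false_eq_true, or_true, iff_true]
      simp only [h2 a ha]
      by_contra hcon
      push Not at hcon
      have hz : G a = 0 := by
        apply Polynomial.funext
        intro y
        rw [eval_zero]
        exact hcon y
      exact h0 a hz
  rw [this]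
  exact (hA.inter _ _ hd.compl).union hA.compl

theorem Con.uniform {S : Set (Fin (n + 1) → k)} (hS : Con k (n + 1) S) :
    ∃ N : ℕ, ∀ a : Fin n → k,
      ({y | (Fin.snoc a y : Fin (n + 1) → k) ∈ S}.Finite ∧
        {y | (Fin.snoc a y : Fin (n + 1) → k) ∈ S}.ncard ≤ N) ∨
      ({y | (Fin.snoc a y : Fin (n + 1) → k) ∉ S}.Finite ∧
        {y | (Fin.snoc a y : Fin (n + 1) → k) ∉ S}.ncard ≤ N) := by
  classical
  obtain ⟨A, G, hA, hG, h0, h1, h2⟩ := normal_form hS
  obtain ⟨D, hD⟩ := hG.1
  refine ⟨D, fun a => ?_⟩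
  have hfin : ({y | (G a).IsRoot y} : Set k) = ((G a).roots.toFinset : Set k) := by
    ext y
    simp [h0 a]
  have hF : ({y | (G a).IsRoot y} : Set k).Finite := by rw [hfin]; exact Finset.finite_toSet _
  have hC : ({y | (G a).IsRoot y} : Set k).ncard ≤ D := by
    rw [hfin, Set.ncard_coe_finset]
    exact (Multiset.toFinset_card_le _).trans ((card_roots' _).trans (hD a))
  by_cases ha : a ∈ A
  · left
    have : {y | (Fin.snoc a y : Fin (n + 1) → k) ∈ S} = {y | (G a).IsRoot y} := by
      ext y; exact h1 a ha y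
    rw [this]
    exact ⟨hF, hC⟩
  · right
    have : {y | (Fin.snoc a y : Fin (n + 1) → k) ∉ S} = {y | (G a).IsRoot y} := by
      ext y
      rw [Set.mem_ofPred_eq, h2 a ha y, not_not]
      rfl
    rw [this]
    exact ⟨hF, hC⟩

/-- A function with constructible graph is piecewise rational (characteristic zero). -/
theorem PR.of_graph {f : (Fin n → k) → k}
    (hf : Con k (n + 1) {z | z (Fin.last n) = f (Fin.init z)}) : PR k n f := by
  classical
  obtain ⟨A, G, hA, hG, h0, h1, h2⟩ := normal_form hf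
  obtain ⟨D, hD⟩ := hG.1
  have hmem : ∀ a (y : k), ((Fin.snoc a y : Fin (n + 1) → k) ∈
      {z : Fin (n + 1) → k | z (Fin.last n) = f (Fin.init z)}) ↔ y = f a := by
    intro a y
    simp
  have hroot : ∀ a (y : k), (G a).IsRoot y ↔ y = f a := by
    intro a y
    by_cases ha : a ∈ A
    · rw [← h1 a ha y, hmem]
    · exfalso
      have hfin : ({y | (G a).IsRoot y} : Set k) = ((G a).roots.toFinset : Set k) := by
        ext y
        simp [h0 a]
      have hF : ({y | (G a).IsRoot y} : Set k).Finite := by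
        rw [hfin]; exact Finset.finite_toSet _
      have hcof : ({y | (G a).IsRoot y} : Set k)ᶜ = {f a} := by
        ext y
        rw [Set.mem_compl_iff, Set.mem_ofPred_eq, ← h2 a ha y, hmem]
        rfl
      have : (Set.univ : Set k).Finite := by
        rw [← Set.union_compl_self ({y | (G a).IsRoot y} : Set k), hcof]
        exact hF.union (Set.finite_singleton _)
      exact Set.infinite_univ this
  have hroots : ∀ a, (G a).roots = Multiset.replicate (G a).natDegree (f a) := by
    intro a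
    rw [Multiset.eq_replicate]
    refine ⟨splits_iff_card_roots.1 (IsAlgClosed.splits (G a)), fun y hy => ?_⟩
    exact (hroot a y).1 ((mem_roots (h0 a)).1 hy)
  have hpos : ∀ a, (G a).natDegree ≠ 0 := by
    intro a h
    have h' := hroots a
    rw [h, Multiset.replicate_zero] at h'
    have : f a ∈ (G a).roots := (mem_roots (h0 a)).2 ((hroot a _).2 rfl)
    rw [h'] at this
    exact absurd this (Multiset.notMem_zero _)
  have key : ∀ a, f a = -((G a).coeff ((G a).natDegree - 1)) *
      (((G a).natDegree : k) * (G a).coeff (G a).natDegree)⁻¹ := by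
    intro a
    have hv := (IsAlgClosed.splits (G a)).nextCoeff_eq_neg_sum_roots_mul_leadingCoeff
    rw [hroots a, Multiset.sum_replicate, nextCoeff_of_natDegree_pos (Nat.pos_of_ne_zero (hpos a)),
      nsmul_eq_mul] at hv
    rw [hv]
    have hl : (G a).leadingCoeff ≠ 0 := leadingCoeff_ne_zero.2 (h0 a)
    have hn : ((G a).natDegree : k) ≠ 0 := Nat.cast_ne_zero.2 (hpos a)
    rw [← Polynomial.leadingCoeff]
    field_simp
  refine PR.pieces (ι := Fin (D + 1)) (A := fun j => {a | (G a).natDegree = j})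
    (g := fun j a => -((G a).coeff ((j : ℕ) - 1)) * (((j : ℕ) : k) * (G a).coeff j)⁻¹)
    (fun j => hG.natDegree_set j) (fun a => ⟨⟨(G a).natDegree, Nat.lt_succ_of_le (hD a)⟩, rfl⟩)
    (fun j => ?_) (fun j a ha => ?_)
  · exact (hG.2 _).neg.mul ((PR.const _).mul (hG.2 _)).inv
  · have ha' : (G a).natDegree = j := ha
    show f a = -((G a).coeff ((j : ℕ) - 1)) * (((j : ℕ) : k) * (G a).coeff j)⁻¹
    rw [← ha']
    exact key a

/-- A function defined on a constructible set with constructible graph. -/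
theorem PR.of_graph_on {s : Set (Fin n → k)} (hs : Con k n s) {f : (Fin n → k) → k}
    (hf : Con k (n + 1) {z | Fin.init z ∈ s ∧ z (Fin.last n) = f (Fin.init z)}) :
    ∃ g, PR k n g ∧ ∀ x ∈ s, g x = f x := by
  classical
  refine ⟨fun x => if x ∈ s then f x else 0, PR.of_graph ?_, fun x hx => by simp [hx]⟩
  have hs' : Con k (n + 1) {z : Fin (n + 1) → k | (Fin.init z : Fin n → k) ∈ s} := by
    have := hs.preimage (n := n + 1) (fun j => MvPolynomial.X (Fin.castSucc j))
    simp only [MvPolynomial.eval_X] at this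
    exact this
  have h0 : Con k (n + 1) {z : Fin (n + 1) → k | z (Fin.last n) = 0} := by
    have := Con.zero (MvPolynomial.X (Fin.last n) : MvPolynomial (Fin (n + 1)) k)
    simp only [MvPolynomial.eval_X] at this
    exact this
  have : {z : Fin (n + 1) → k | z (Fin.last n) =
      (fun x => if x ∈ s then f x else 0) (Fin.init z)} =
      {z : Fin (n + 1) → k | (Fin.init z : Fin n → k) ∈ s ∧
        z (Fin.last n) = f (Fin.init z)} ∪
        ({z : Fin (n + 1) → k | (Fin.init z : Fin n → k) ∈ s}ᶜ ∩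
          {z : Fin (n + 1) → k | z (Fin.last n) = 0}) := by
    ext z
    simp only [Set.mem_ofPred_eq, Set.mem_union, Set.mem_inter_iff, Set.mem_compl_iff]
    by_cases hz : (Fin.init z : Fin n → k) ∈ s <;> simp [hz]
  rw [this]
  exact hf.union (hs'.compl.inter _ _ h0)

end Pool.Agent.MRat
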