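import Pool.Agent.Lib.MP_923aff_ag.AmbE
/-!
# Definable types

`DT k X`: the type `X` has a chart, i.e. a surjection from a definable subset of an ambient type
with a definable kernel. `DM k f`: the function `f` between definable types is definable.
`Prop` is a definable type, so that `DM k P` for `P : X → Prop` says that `P` is a definable
predicate. The tactic `fun_prop` proves definability.
-/

set_option autoImplicit false

namespace Pool.Agent.MRat

/-- Definable types. -/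
class DT (k : Type) [Field k] (X : Type) where
  A : Type
  amb : Amb k A
  R : A → X → Prop
  fn : ∀ a x y, R a x → R a y → x = y
  sur : ∀ x, ∃ a, R a x
  ker : DP k (fun p : A × A => ∃ x, R p.1 x ∧ R p.2 x)

attribute [instance_reducible, instance] DT.amb

section
variable {k : Type} [Field k] [IsAlgClosed k] [CharZero k]
variable {α β γ δ : Type} [Amb k α] [Amb k β] [Amb k γ] [Amb k δ]

/-- Codes: a definable type from an injection into an ambient type with definable range. -/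
@[reducible] def DT.ofCode {X : Type} (c : X → α) (hc : Function.Injective c)
    (hr : DP k (fun a : α => ∃ x, c x = a)) : DT k X where
  A := α
  amb := inferInstance
  R a x := c x = a
  fn a x y h1 h2 := hc (h1.trans h2.symm)
  sur x := ⟨c x, rfl⟩
  ker := by
    have h1 : DP k (fun p : α × α => (∃ x, c x = p.1) ∧ p.1 = p.2) :=
      DP.and (DP.comp hr DF.fst) (DP.eq DF.fst DF.snd)
    refine h1.congr ?_
    rintro ⟨a, b⟩
    constructor
    · rintro ⟨⟨x, hx⟩, hab⟩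
      exact ⟨x, hx, hx.trans hab⟩
    · rintro ⟨x, hx, hy⟩
      exact ⟨⟨x, hx⟩, hx.symm.trans hy⟩

instance : DT k k := DT.ofCode (fun x => x) (fun _ _ h => h)
  ((DP.const True).congr (fun a => by simp))

instance : DT k Unit := DT.ofCode (fun x => x) (fun _ _ h => h)
  ((DP.const True).congr (fun a => by simp))

instance : DT k kˣ := DT.ofCode (fun x => (x : k)) (fun _ _ h => Units.ext h)
  ((DP.not (DP.eq DF.id (DF.const (0 : k)))).congr (fun a => by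
    constructor
    · intro h; exact ⟨Units.mk0 a h, rfl⟩
    · rintro ⟨x, rfl⟩; exact x.ne_zero))

open Classical in
/-- `Prop` as a definable type (two points). -/
noncomputable instance : DT k Prop := DT.ofCode (fun p => if p then (1 : k) else 0)
  (by
    intro p q h
    by_cases hp : p <;> by_cases hq : q <;> simp_all)
  ((DP.or (DP.eq DF.id (DF.const (1 : k))) (DP.eq DF.id (DF.const (0 : k)))).congr (fun a => by
    constructor
    · rintro (rfl | rfl)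
      · exact ⟨True, by simp⟩
      · exact ⟨False, by simp⟩
    · rintro ⟨x, rfl⟩
      by_cases hx : x <;> simp [hx]))

instance : DT k Bool := DT.ofCode (fun p => if p then (1 : k) else 0)
  (by
    intro p q h
    cases p <;> cases q <;> simp_all)
  ((DP.or (DP.eq DF.id (DF.const (1 : k))) (DP.eq DF.id (DF.const (0 : k)))).congr (fun a => by
    constructor
    · rintro (rfl | rfl)
      · exact ⟨true, by simp⟩
      · exact ⟨false, by simp⟩
    · rintro ⟨x, rfl⟩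
      cases x <;> simp))

instance (n : ℕ) : DT k (Fin n) := DT.ofCode (fun i => ((i : ℕ) : k))
  (by
    intro p q h
    exact Fin.ext (Nat.cast_injective h))
  ((DP.fex (fun i : Fin n => DP.eq DF.id (DF.const ((i : ℕ) : k)))).congr (fun a => by
    constructor
    · rintro ⟨i, rfl⟩; exact ⟨i, rfl⟩
    · rintro ⟨i, rfl⟩; exact ⟨i, rfl⟩))

end

section prod
variable {k : Type} [Field k] [IsAlgClosed k] [CharZero k]
variable {X Y Z : Type} [DT k X] [DT k Y] [DT k Z]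

instance : DT k (X × Y) where
  A := DT.A k X × DT.A k Y
  amb := inferInstance
  R a p := DT.R a.1 p.1 ∧ DT.R a.2 p.2
  fn a x y h1 h2 := Prod.ext (DT.fn _ _ _ h1.1 h2.1) (DT.fn _ _ _ h1.2 h2.2)
  sur x := by
    obtain ⟨a, ha⟩ := DT.sur (k := k) x.1
    obtain ⟨b, hb⟩ := DT.sur (k := k) x.2
    exact ⟨(a, b), ha, hb⟩
  ker := by
    have h1 := DP.comp (α := (DT.A k X × DT.A k Y) × (DT.A k X × DT.A k Y))
      (DT.ker (k := k) (X := X)) (f := fun p => (p.1.1, p.2.1))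
      (DF.mk (DF.fst' DF.fst) (DF.fst' DF.snd))
    have h2 := DP.comp (α := (DT.A k X × DT.A k Y) × (DT.A k X × DT.A k Y))
      (DT.ker (k := k) (X := Y)) (f := fun p => (p.1.2, p.2.2))
      (DF.mk (DF.snd' DF.fst) (DF.snd' DF.snd))
    refine (h1.and h2).congr ?_
    rintro ⟨⟨a, b⟩, ⟨a', b'⟩⟩
    constructor
    · rintro ⟨⟨x, hx, hx'⟩, ⟨y, hy, hy'⟩⟩
      exact ⟨(x, y), ⟨hx, hy⟩, ⟨hx', hy'⟩⟩
    · rintro ⟨⟨x, y⟩, ⟨hx, hy⟩, ⟨hx', hy'⟩⟩
      exact ⟨⟨x, hx, hx'⟩, ⟨y, hy, hy'⟩⟩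

instance (n : ℕ) : DT k (Fin n → X) where
  A := Fin n → DT.A k X
  amb := inferInstance
  R a p := ∀ i, DT.R (a i) (p i)
  fn a x y h1 h2 := funext fun i => DT.fn _ _ _ (h1 i) (h2 i)
  sur x := by
    choose a ha using fun i => DT.sur (k := k) (x i)
    exact ⟨a, ha⟩
  ker := by
    have h1 : ∀ i : Fin n, DP k (fun p : (Fin n → DT.A k X) × (Fin n → DT.A k X) =>
        ∃ x, DT.R (p.1 i) x ∧ DT.R (p.2 i) x) := fun i =>
      DP.comp (α := (Fin n → DT.A k X) × (Fin n → DT.A k X))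
      (DT.ker (k := k) (X := X)) (f := fun p => (p.1 i, p.2 i))
      (DF.mk (DF.apply DF.fst i) (DF.apply DF.snd i))
    refine (DP.fall h1).congr ?_
    rintro ⟨a, b⟩
    constructor
    · intro h
      choose x hx hx' using h
      exact ⟨x, hx, hx'⟩
    · rintro ⟨x, hx, hx'⟩ i
      exact ⟨x i, hx i, hx' i⟩

end prod

section DS
variable {k : Type} [Field k] [IsAlgClosed k] [CharZero k]
variable {X Y Z : Type} [DT k X] [DT k Y] [DT k Z]

/-- Definable predicates on definable types (see `DM_iff_DS`). -/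
def DS (k : Type) [Field k] {X : Type} [DT k X] (P : X → Prop) : Prop :=
  DP k (fun a : DT.A k X => ∃ x, DT.R a x ∧ P x)

omit [IsAlgClosed k] [CharZero k] in
theorem DS_def {P : X → Prop} : DS k P ↔ DP k (fun a : DT.A k X => ∃ x, DT.R a x ∧ P x) := Iff.rfl

theorem DS.congr {P Q : X → Prop} (hP : DS k P) (h : ∀ x, P x ↔ Q x) : DS k Q :=
  DP.congr hP (fun a => by simp [h])

theorem DT.dom : DP k (fun a : DT.A k X => ∃ x, DT.R a x) := by
  refine (DP.comp (DT.ker (k := k) (X := X)) (f := fun a => (a, a)) (DF.mk DF.id DF.id)).congr ?_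
  intro a
  simp

theorem DS.const (p : Prop) : DS k (fun _ : X => p) :=
  (DP.and DT.dom (DP.const p)).congr (fun a => by simp)

theorem DS.not {P : X → Prop} (hP : DS k P) : DS k (fun x => ¬ P x) := by
  refine (DP.and DT.dom (DP.not hP)).congr ?_
  intro a
  constructor
  · rintro ⟨⟨x, hx⟩, h⟩
    exact ⟨x, hx, fun hP => h ⟨x, hx, hP⟩⟩
  · rintro ⟨x, hx, h⟩
    refine ⟨⟨x, hx⟩, ?_⟩
    rintro ⟨y, hy, h'⟩
    exact h (DT.fn _ _ _ hx hy ▸ h')

theorem DS.and {P Q : X → Prop} (hP : DS k P) (hQ : DS k Q) : DS k (fun x => P x ∧ Q x) := by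
  refine (DP.and hP hQ).congr ?_
  intro a
  constructor
  · rintro ⟨⟨x, hx, h⟩, ⟨y, hy, h'⟩⟩
    exact ⟨x, hx, h, DT.fn _ _ _ hx hy ▸ h'⟩
  · rintro ⟨x, hx, h, h'⟩
    exact ⟨⟨x, hx, h⟩, ⟨x, hx, h'⟩⟩

theorem DS.or {P Q : X → Prop} (hP : DS k P) (hQ : DS k Q) : DS k (fun x => P x ∨ Q x) :=
  ((hP.not.and hQ.not).not).congr (fun x => by tauto)

theorem DS.imp {P Q : X → Prop} (hP : DS k P) (hQ : DS k Q) : DS k (fun x => P x → Q x) :=
  (hP.not.or hQ).congr (fun x => by tauto)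

theorem DS.iff {P Q : X → Prop} (hP : DS k P) (hQ : DS k Q) : DS k (fun x => P x ↔ Q x) :=
  ((hP.imp hQ).and (hQ.imp hP)).congr (fun x => by tauto)

theorem DS.ex {P : X → Y → Prop} (hP : DS k (fun p : X × Y => P p.1 p.2)) :
    DS k (fun x => ∃ y, P x y) := by
  have hP' : DP k (fun p : DT.A k X × DT.A k Y =>
      ∃ x : X × Y, (DT.R p.1 x.1 ∧ DT.R p.2 x.2) ∧ P x.1 x.2) := hP
  refine (DP.ex (β := DT.A k Y)
    (P := fun a b => ∃ x : X × Y, (DT.R a x.1 ∧ DT.R b x.2) ∧ P x.1 x.2) hP').congr ?_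
  intro a
  constructor
  · rintro ⟨b, ⟨x, y⟩, ⟨hx, hy⟩, h⟩
    exact ⟨x, hx, y, h⟩
  · rintro ⟨x, hx, y, h⟩
    obtain ⟨b, hb⟩ := DT.sur (k := k) y
    exact ⟨b, (x, y), ⟨hx, hb⟩, h⟩

theorem DS.all {P : X → Y → Prop} (hP : DS k (fun p : X × Y => P p.1 p.2)) :
    DS k (fun x => ∀ y, P x y) :=
  ((DS.ex (P := fun x y => ¬ P x y) hP.not).not).congr (fun x => by simp)

theorem DS.fex {ι : Type} [Finite ι] {P : ι → X → Prop} (hP : ∀ i, DS k (P i)) :
    DS k (fun x => ∃ i, P i x) :=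
  (DP.fex hP).congr (fun a => by
    constructor
    · rintro ⟨i, x, hx, h⟩
      exact ⟨x, hx, i, h⟩
    · rintro ⟨x, hx, i, h⟩
      exact ⟨i, x, hx, h⟩)

theorem DS.fall {ι : Type} [Finite ι] {P : ι → X → Prop} (hP : ∀ i, DS k (P i)) :
    DS k (fun x => ∀ i, P i x) :=
  ((DS.fex (P := fun i x => ¬ P i x) fun i => (hP i).not).not).congr
    (fun x => by simp)

theorem DS.eq : DS k (fun p : X × X => p.1 = p.2) := by
  refine (DT.ker (k := k) (X := X)).congr ?_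
  rintro ⟨a, b⟩
  constructor
  · rintro ⟨x, hx, hx'⟩
    exact ⟨(x, x), ⟨hx, hx'⟩, rfl⟩
  · rintro ⟨⟨x, y⟩, ⟨hx, hy⟩, h⟩
    dsimp only at h
    subst h
    exact ⟨x, hx, hy⟩

/-- Projections. -/
theorem DS.fst {P : X → Prop} (hP : DS k P) : DS k (fun p : X × Y => P p.1) := by
  refine (DP.and (DP.comp hP (DF.fst (k := k) (α := DT.A k X) (β := DT.A k Y)))
    (DP.comp (DT.dom (k := k) (X := Y)) (DF.snd (k := k) (α := DT.A k X) (β := DT.A k Y)))).congr ?_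
  rintro ⟨a, b⟩
  constructor
  · rintro ⟨⟨x, hx, h⟩, ⟨y, hy⟩⟩
    exact ⟨(x, y), ⟨hx, hy⟩, h⟩
  · rintro ⟨⟨x, y⟩, ⟨hx, hy⟩, h⟩
    exact ⟨⟨x, hx, h⟩, ⟨y, hy⟩⟩

theorem DS.snd {P : Y → Prop} (hP : DS k P) : DS k (fun p : X × Y => P p.2) := by
  refine (DP.and (DP.comp (DT.dom (k := k) (X := X)) (DF.fst (k := k) (α := DT.A k X)
    (β := DT.A k Y))) (DP.comp hP (DF.snd (k := k) (α := DT.A k X) (β := DT.A k Y)))).congr ?_
  rintro ⟨a, b⟩
  constructor
  · rintro ⟨⟨x, hx⟩, ⟨y, hy, h⟩⟩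
    exact ⟨(x, y), ⟨hx, hy⟩, h⟩
  · rintro ⟨⟨x, y⟩, ⟨hx, hy⟩, h⟩
    exact ⟨⟨x, hx⟩, ⟨y, hy, h⟩⟩

end DS

/-- Definable functions between definable types. -/
@[fun_prop]
def DM (k : Type) [Field k] {X Y : Type} [DT k X] [DT k Y] (f : X → Y) : Prop :=
  DP k (fun p : DT.A k X × DT.A k Y => ∃ x, DT.R p.1 x ∧ DT.R p.2 (f x))

section DM
variable {k : Type} [Field k] [IsAlgClosed k] [CharZero k]
variable {X Y Z W : Type} [DT k X] [DT k Y] [DT k Z] [DT k W]

theorem DM_iff_graph {f : X → Y} : DM k f ↔ DS k (fun p : X × Y => p.2 = f p.1) := by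
  have h : ∀ p : DT.A k X × DT.A k Y, (∃ x, DT.R p.1 x ∧ DT.R p.2 (f x)) ↔
      (∃ x : X × Y, DT.R (k := k) p x ∧ x.2 = f x.1) := by
    rintro ⟨a, b⟩
    constructor
    · rintro ⟨x, hx, h⟩
      exact ⟨(x, f x), ⟨hx, h⟩, rfl⟩
    · rintro ⟨⟨x, y⟩, ⟨hx, hy⟩, h⟩
      dsimp only at h
      subst h
      exact ⟨x, hx, hy⟩
  exact ⟨fun h' => DP.congr h' h, fun h' => DP.congr h' (fun p => (h p).symm)⟩

/-- preimage of a definable predicate under a definable map -/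
theorem DS.comp {P : Y → Prop} (hP : DS k P) {f : X → Y} (hf : DM k f) :
    DS k (fun x => P (f x)) := by
  rw [DM_iff_graph] at hf
  refine (DS.ex (P := fun x y => y = f x ∧ P y) (hf.and hP.snd)).congr ?_
  intro x
  constructor
  · rintro ⟨y, rfl, h⟩; exact h
  · intro h; exact ⟨f x, rfl, h⟩

@[fun_prop]
theorem DM.comp {g : Y → Z} (hg : DM k g) {f : X → Y} (hf : DM k f) : DM k (fun x => g (f x)) := by
  rw [DM_iff_graph] at *
  have h1 : DS k (fun p : (X × Z) × Y => p.2 = f p.1.1) := by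
    refine (DP.and (DP.comp hf (DF.mk (DF.fst' DF.fst) DF.snd :
      DF k (fun p : (DT.A k X × DT.A k Z) × DT.A k Y => (p.1.1, p.2))))
      (DP.comp (DT.dom (k := k) (X := Z)) (DF.snd' DF.fst :
      DF k (fun p : (DT.A k X × DT.A k Z) × DT.A k Y => p.1.2)))).congr ?_
    rintro ⟨⟨a, c⟩, b⟩
    constructor
    · rintro ⟨⟨⟨x, y⟩, ⟨hx, hy⟩, h⟩, ⟨z, hz⟩⟩
      exact ⟨((x, z), y), ⟨⟨hx, hz⟩, hy⟩, h⟩
    · rintro ⟨⟨⟨x, z⟩, y⟩, ⟨⟨hx, hz⟩, hy⟩, h⟩
      exact ⟨⟨(x, y), ⟨hx, hy⟩, h⟩, ⟨z, hz⟩⟩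
  have h2 : DS k (fun p : (X × Z) × Y => p.1.2 = g p.2) := by
    refine (DP.and (DP.comp hg (DF.mk DF.snd (DF.snd' DF.fst) :
      DF k (fun p : (DT.A k X × DT.A k Z) × DT.A k Y => (p.2, p.1.2))))
      (DP.comp (DT.dom (k := k) (X := X)) (DF.fst' DF.fst :
      DF k (fun p : (DT.A k X × DT.A k Z) × DT.A k Y => p.1.1)))).congr ?_
    rintro ⟨⟨a, c⟩, b⟩
    constructor
    · rintro ⟨⟨⟨y, z⟩, ⟨hy, hz⟩, h⟩, ⟨x, hx⟩⟩
      exact ⟨((x, z), y), ⟨⟨hx, hz⟩, hy⟩, h⟩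
    · rintro ⟨⟨⟨x, z⟩, y⟩, ⟨⟨hx, hz⟩, hy⟩, h⟩
      exact ⟨⟨(y, z), ⟨hy, hz⟩, h⟩, ⟨x, hx⟩⟩
  refine (DS.ex (P := fun (p : X × Z) y => y = f p.1 ∧ p.2 = g y) (h1.and h2)).congr ?_
  rintro ⟨x, z⟩
  constructor
  · rintro ⟨y, rfl, h⟩; exact h
  · intro h; exact ⟨f x, rfl, h⟩

@[fun_prop]
theorem DM.id' : DM k (fun x : X => x) := by
  rw [DM_iff_graph]
  exact (DS.eq).congr (fun p => eq_comm)

/-- The graph of a map with definable values on the chart. -/
theorem DM_iff_DS {P : X → Prop} : DM k P ↔ DS k P := by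
  classical
  constructor
  · intro h
    refine (DP.comp (α := DT.A k X) h (f := fun a => (a, (1 : k)))
      (DF.mk DF.id (DF.const _))).congr ?_
    intro a
    constructor
    · rintro ⟨x, hx, h1⟩
      refine ⟨x, hx, ?_⟩
      by_contra hP
      have h2 : (if P x then (1 : k) else 0) = 1 := h1
      simp [hP] at h2
    · rintro ⟨x, hx, h1⟩
      refine ⟨x, hx, ?_⟩
      show (if P x then (1 : k) else 0) = 1
      simp [h1]
  · intro h
    have h1 : DP k (fun p : DT.A k X × k => (∃ x, DT.R p.1 x ∧ P x) ∧ p.2 = 1) :=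
      DP.and (DP.comp h DF.fst) (DP.eq DF.snd (DF.const _))
    have h2 : DP k (fun p : DT.A k X × k => (∃ x, DT.R p.1 x ∧ ¬ P x) ∧ p.2 = 0) :=
      DP.and (DP.comp h.not DF.fst) (DP.eq DF.snd (DF.const _))
    refine (h1.or h2).congr ?_
    rintro ⟨a, b⟩
    constructor
    · rintro (⟨⟨x, hx, h⟩, hb⟩ | ⟨⟨x, hx, h⟩, hb⟩)
      · refine ⟨x, hx, ?_⟩
        show (if P x then (1 : k) else 0) = b
        simp [h]; exact hb.symm
      · refine ⟨x, hx, ?_⟩
        show (if P x then (1 : k) else 0) = b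
        simp [h]; exact hb.symm
    · rintro ⟨x, hx, hb⟩
      have hb' : (if P x then (1 : k) else 0) = b := hb
      by_cases hP : P x
      · left; exact ⟨⟨x, hx, hP⟩, by simpa [hP] using hb'.symm⟩
      · right; exact ⟨⟨x, hx, hP⟩, by simpa [hP] using hb'.symm⟩

theorem DM.congr {f g : X → Y} (hf : DM k f) (h : ∀ x, f x = g x) : DM k g := by
  have : f = g := funext h
  exact this ▸ hf

theorem DM.congr_iff {P Q : X → Prop} (hP : DM k P) (h : ∀ x, P x ↔ Q x) : DM k Q :=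
  hP.congr (fun x => propext (h x))

@[fun_prop]
theorem DM.not {P : X → Prop} (hP : DM k P) : DM k (fun x => ¬ P x) :=
  DM_iff_DS.2 (DM_iff_DS.1 hP).not

@[fun_prop]
theorem DM.and {P Q : X → Prop} (hP : DM k P) (hQ : DM k Q) : DM k (fun x => P x ∧ Q x) :=
  DM_iff_DS.2 ((DM_iff_DS.1 hP).and (DM_iff_DS.1 hQ))

@[fun_prop]
theorem DM.or {P Q : X → Prop} (hP : DM k P) (hQ : DM k Q) : DM k (fun x => P x ∨ Q x) :=
  DM_iff_DS.2 ((DM_iff_DS.1 hP).or (DM_iff_DS.1 hQ))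

theorem DM.imp {P Q : X → Prop} (hP : DM k P) (hQ : DM k Q) : DM k (fun x => P x → Q x) :=
  DM_iff_DS.2 ((DM_iff_DS.1 hP).imp (DM_iff_DS.1 hQ))

@[fun_prop]
theorem DM.iff {P Q : X → Prop} (hP : DM k P) (hQ : DM k Q) : DM k (fun x => P x ↔ Q x) :=
  DM_iff_DS.2 ((DM_iff_DS.1 hP).iff (DM_iff_DS.1 hQ))

@[fun_prop]
theorem DM.ex {P : X → Y → Prop} (hP : DM k (fun p : X × Y => P p.1 p.2)) :
    DM k (fun x => ∃ y, P x y) :=
  DM_iff_DS.2 (DM_iff_DS.1 hP).ex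

@[fun_prop]
theorem DM.all {P : X → Y → Prop} (hP : DM k (fun p : X × Y => P p.1 p.2)) :
    DM k (fun x => ∀ y, P x y) :=
  DM_iff_DS.2 (DM_iff_DS.1 hP).all

@[fun_prop]
theorem DM.fst {f : X → Y × Z} (hf : DM k f) : DM k (fun x => (f x).1) := by
  have h : DM k (fun p : Y × Z => p.1) := by
    rw [DM_iff_graph]
    have h1 : DS k (fun p : (Y × Z) × Y => p.2 = p.1.1) := by
      refine (DP.and (DP.comp (DT.ker (k := k) (X := Y)) (DF.mk DF.snd (DF.fst' DF.fst) :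
        DF k (fun p : (DT.A k Y × DT.A k Z) × DT.A k Y => (p.2, p.1.1))))
        (DP.comp (DT.dom (k := k) (X := Z)) (DF.snd' DF.fst :
        DF k (fun p : (DT.A k Y × DT.A k Z) × DT.A k Y => p.1.2)))).congr ?_
      rintro ⟨⟨a, c⟩, b⟩
      constructor
      · rintro ⟨⟨y, hy, hy'⟩, ⟨z, hz⟩⟩
        exact ⟨((y, z), y), ⟨⟨hy', hz⟩, hy⟩, rfl⟩
      · rintro ⟨⟨⟨y, z⟩, y'⟩, ⟨⟨hy, hz⟩, hy'⟩, h⟩
        dsimp only at h
        subst h
        exact ⟨⟨y', hy', hy⟩, ⟨z, hz⟩⟩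
    exact h1
  exact h.comp hf

@[fun_prop]
theorem DM.snd {f : X → Y × Z} (hf : DM k f) : DM k (fun x => (f x).2) := by
  have h : DM k (fun p : Y × Z => p.2) := by
    rw [DM_iff_graph]
    have h1 : DS k (fun p : (Y × Z) × Z => p.2 = p.1.2) := by
      refine (DP.and (DP.comp (DT.ker (k := k) (X := Z)) (DF.mk DF.snd (DF.snd' DF.fst) :
        DF k (fun p : (DT.A k Y × DT.A k Z) × DT.A k Z => (p.2, p.1.2))))
        (DP.comp (DT.dom (k := k) (X := Y)) (DF.fst' DF.fst :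
        DF k (fun p : (DT.A k Y × DT.A k Z) × DT.A k Z => p.1.1)))).congr ?_
      rintro ⟨⟨a, c⟩, b⟩
      constructor
      · rintro ⟨⟨z, hz, hz'⟩, ⟨y, hy⟩⟩
        exact ⟨((y, z), z), ⟨⟨hy, hz'⟩, hz⟩, rfl⟩
      · rintro ⟨⟨⟨y, z⟩, z'⟩, ⟨⟨hy, hz⟩, hz'⟩, h⟩
        dsimp only at h
        subst h
        exact ⟨⟨z', hz', hz⟩, ⟨y, hy⟩⟩
    exact h1
  exact h.comp hf

@[fun_prop]
theorem DM.mk {f : X → Y} {g : X → Z} (hf : DM k f) (hg : DM k g) : DM k (fun x => (f x, g x)) := by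
  refine (DP.and (DP.comp hf (DF.mk DF.fst (DF.fst' DF.snd) :
    DF k (fun p : DT.A k X × (DT.A k Y × DT.A k Z) => (p.1, p.2.1))))
    (DP.comp hg (DF.mk DF.fst (DF.snd' DF.snd) :
    DF k (fun p : DT.A k X × (DT.A k Y × DT.A k Z) => (p.1, p.2.2))))).congr ?_
  rintro ⟨a, ⟨b, c⟩⟩
  constructor
  · rintro ⟨⟨x, hx, hb⟩, ⟨x', hx', hc⟩⟩
    have := DT.fn _ _ _ hx hx'
    subst this
    exact ⟨x, hx, hb, hc⟩
  · rintro ⟨x, hx, hb, hc⟩
    exact ⟨⟨x, hx, hb⟩, ⟨x, hx, hc⟩⟩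

/-- Constants. -/
@[fun_prop]
theorem DM.const' (y : Y) : DM k (fun _ : X => y) := by
  obtain ⟨b, hb⟩ := DT.sur (k := k) y
  have h1 : DS k (fun z : Y => z = y) := by
    refine (DP.comp (DT.ker (k := k) (X := Y)) (DF.mk DF.id (DF.const b) :
      DF k (fun p : DT.A k Y => (p, b)))).congr ?_
    intro a
    constructor
    · rintro ⟨x, hx, hx'⟩
      have := DT.fn _ _ _ hb hx'
      subst this
      exact ⟨y, hx, rfl⟩
    · rintro ⟨x, hx, rfl⟩
      exact ⟨x, hx, hb⟩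
  rw [DM_iff_graph]
  exact (h1.snd).congr (fun p => Iff.rfl)

@[fun_prop]
theorem DM.eq {f g : X → Y} (hf : DM k f) (hg : DM k g) :
    DM k (fun x => f x = g x) := by
  have h := DM_iff_DS.2 (DS.eq (k := k) (X := Y))
  exact h.comp (hf.mk hg)

@[fun_prop]
theorem DM.ne {f g : X → Y} (hf : DM k f) (hg : DM k g) :
    DM k (fun x => f x ≠ g x) := (hf.eq hg).not

theorem DM.fex {ι : Type} [Finite ι] {P : ι → X → Prop} (hP : ∀ i, DM k (P i)) :
    DM k (fun x => ∃ i, P i x) :=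
  DM_iff_DS.2 (DS.fex fun i => DM_iff_DS.1 (hP i))

theorem DM.fall {ι : Type} [Finite ι] {P : ι → X → Prop} (hP : ∀ i, DM k (P i)) :
    DM k (fun x => ∀ i, P i x) :=
  DM_iff_DS.2 (DS.fall fun i => DM_iff_DS.1 (hP i))

/-- A function is definable if its graph is. -/
theorem DM.of_graph {f : X → Y} {R : X → Y → Prop} (hR : DM k (fun p : X × Y => R p.1 p.2))
    (h : ∀ x y, R x y ↔ y = f x) : DM k f := by
  rw [DM_iff_graph, ← DM_iff_DS]
  exact hR.congr_iff (fun p => h _ _)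

theorem DM.graph {f : X → Y} (hf : DM k f) : DM k (fun p : X × Y => p.2 = f p.1) := by
  fun_prop

example (f : X → Y) (hf : DM k f) (g : Y → X → Z) (hg : DM k (fun p : Y × X => g p.1 p.2)) :
    DM k (fun x => g (f x) x) := by fun_prop

example (f : X → Y) (hf : DM k f) (g : Y → X → Z) (hg : DM k (fun p : Y × X => g p.1 p.2)) :
    DM k (fun x => ∃ y, g (f x) x = g y x) := by fun_prop

example (f : X → Y) (hf : DM k f) (g : Y → X → Z) (hg : DM k (fun p : Y × X => g p.1 p.2)) :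
    DM k (fun p : X × Y => ∃ y, g (f p.1) p.1 = g y p.1 ∧ p.2 = y) := by fun_prop

example (s : Set X) (hs : DM k (fun x => x ∈ s)) : DM k (fun p : X × Y => p.1 ∈ s) := by fun_prop

end DM

end Pool.Agent.MRat
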