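import Pool.Agent.Lib.MP_923aff_ag.DT
/-!
# Definable maps: case distinctions, choice, finite families, arithmetic
-/

set_option autoImplicit false

namespace Pool.Agent.MRat

variable {k : Type} [Field k] [IsAlgClosed k] [CharZero k]
variable {X Y Z W : Type} [DT k X] [DT k Y] [DT k Z] [DT k W]

@[fun_prop]
theorem DM.ite {P : X → Prop} {inst : ∀ x, Decidable (P x)} (hP : DM k P) {f g : X → Y}
    (hf : DM k f) (hg : DM k g) : DM k (fun x => if P x then f x else g x) := by
  refine DM.of_graph (R := fun x y => (P x ∧ y = f x) ∨ (¬ P x ∧ y = g x)) (by fun_prop) ?_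
  intro x y
  by_cases h : P x <;> simp [h]

/-- Definable choice under unique existence on a definable set. -/
theorem DM.choice [Nonempty Y] {s : Set X} (hs : DM k (fun x => x ∈ s)) {R : X → Y → Prop}
    (hR : DM k (fun p : X × Y => p.1 ∈ s ∧ R p.1 p.2)) (h : ∀ x ∈ s, ∃! y, R x y) :
    ∃ f : X → Y, DM k f ∧ ∀ x ∈ s, R x (f x) := by
  classical
  obtain ⟨y0⟩ := ‹Nonempty Y›
  choose! f hf hf' using h
  refine ⟨fun x => if x ∈ s then f x else y0, ?_, ?_⟩
  · refine DM.of_graph (R := fun x y => (x ∈ s ∧ R x y) ∨ (x ∉ s ∧ y = y0)) ?_ ?_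
    · exact hR.or (by fun_prop)
    · intro x y
      by_cases hx : x ∈ s
      · simp only [hx, true_and, not_true_eq_false, false_and, or_false, if_true]
        exact ⟨fun hh => hf' x hx y hh, fun hh => hh ▸ hf x hx⟩
      · simp [hx]
  · intro x hx
    simp only [hx, if_true]
    exact hf x hx

/-- Maps out of a product with a finite type. -/
theorem DM.of_finite {ι : Type} [DT k ι] [Finite ι] {f : X × ι → Y}
    (hf : ∀ i, DM k (fun x => f (x, i))) : DM k f := by
  refine DM.of_graph (R := fun p y => ∃ i, p.2 = i ∧ y = f (p.1, i)) ?_ ?_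
  · refine (DM.fex (P := fun (i : ι) (q : (X × ι) × Y) => q.1.2 = i ∧ q.2 = f (q.1.1, i))
      (fun i => ?_))
    have := hf i
    have h2 : DM k (fun q : (X × ι) × Y => f (q.1.1, i)) :=
      DM.comp this (by fun_prop : DM k (fun q : (X × ι) × Y => q.1.1))
    exact DM.and (by fun_prop) (DM.eq (by fun_prop) h2)
  · rintro ⟨x, i⟩ y
    simp

@[fun_prop]
theorem DM.apply {n : ℕ} (i : Fin n) : DM k (fun f : Fin n → Y => f i) := by
  rw [DM_iff_graph]
  refine (DP.and (DP.comp (DT.ker (k := k) (X := Y)) (DF.mk DF.snd (DF.apply DF.fst i) :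
    DF k (fun p : (Fin n → DT.A k Y) × DT.A k Y => (p.2, p.1 i))))
    (DP.comp (DT.dom (k := k) (X := Fin n → Y)) (DF.fst :
    DF k (fun p : (Fin n → DT.A k Y) × DT.A k Y => p.1)))).congr ?_
  rintro ⟨a, b⟩
  constructor
  · rintro ⟨⟨y, hy, hy'⟩, ⟨g, hg⟩⟩
    refine ⟨(g, y), ⟨hg, hy⟩, ?_⟩
    exact DT.fn _ _ _ hy' (hg i)
  · rintro ⟨⟨g, y⟩, ⟨hg, hy⟩, h⟩
    dsimp only at h
    subst h
    exact ⟨⟨g i, hy, hg i⟩, ⟨g, hg⟩⟩

@[fun_prop]
theorem DM.pi {n : ℕ} {f : X → Fin n → Y} (hf : ∀ i, DM k (fun x => f x i)) :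
    DM k (fun x i => f x i) := by
  refine DM.of_graph (R := fun x y => ∀ i, y i = f x i) ?_ ?_
  · refine DM.fall (fun i => ?_)
    have := hf i
    fun_prop
  · intro x y
    exact ⟨fun h => funext h, fun h i => congrFun h i⟩

theorem DM.apply₂ {n : ℕ} {f : X → Fin n → Y} {g : X → Fin n} (hf : DM k f) (hg : DM k g) :
    DM k (fun x => f x (g x)) := by
  have h1 : DM k (fun p : X × Fin n => f p.1 p.2) := by
    refine DM.of_finite (fun i => ?_)
    exact DM.comp (DM.apply i) hf
  exact DM.comp h1 (DM.mk DM.id' hg)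

section arith

@[fun_prop]
theorem DM.add {f g : X → k} (hf : DM k f) (hg : DM k g) : DM k (fun x => f x + g x) := by
  have h : DM k (fun p : k × k => p.1 + p.2) := by
    rw [DM_iff_graph]
    refine (DP.eq (DF.snd) (DF.add (DF.fst' DF.fst) (DF.snd' DF.fst)) :
      DP k (fun p : (k × k) × k => p.2 = p.1.1 + p.1.2)).congr ?_
    rintro ⟨⟨a, b⟩, c⟩
    constructor
    · intro h; exact ⟨((a, b), c), ⟨⟨rfl, rfl⟩, rfl⟩, h⟩
    · rintro ⟨⟨⟨a', b'⟩, c'⟩, ⟨⟨h1, h2⟩, h3⟩, h⟩
      have h1' : a' = a := h1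
      have h2' : b' = b := h2
      have h3' : c' = c := h3
      subst h1' h2' h3'
      exact h
  exact h.comp (hf.mk hg)

@[fun_prop]
theorem DM.mul {f g : X → k} (hf : DM k f) (hg : DM k g) : DM k (fun x => f x * g x) := by
  have h : DM k (fun p : k × k => p.1 * p.2) := by
    rw [DM_iff_graph]
    refine (DP.eq (DF.snd) (DF.mul (DF.fst' DF.fst) (DF.snd' DF.fst)) :
      DP k (fun p : (k × k) × k => p.2 = p.1.1 * p.1.2)).congr ?_
    rintro ⟨⟨a, b⟩, c⟩
    constructor
    · intro h; exact ⟨((a, b), c), ⟨⟨rfl, rfl⟩, rfl⟩, h⟩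
    · rintro ⟨⟨⟨a', b'⟩, c'⟩, ⟨⟨h1, h2⟩, h3⟩, h⟩
      have h1' : a' = a := h1
      have h2' : b' = b := h2
      have h3' : c' = c := h3
      subst h1' h2' h3'
      exact h
  exact h.comp (hf.mk hg)

@[fun_prop]
theorem DM.neg {f : X → k} (hf : DM k f) : DM k (fun x => - f x) := by
  have h : DM k (fun x => (-1 : k) * f x) := by fun_prop
  exact h.congr (fun x => by ring)

@[fun_prop]
theorem DM.sub {f g : X → k} (hf : DM k f) (hg : DM k g) : DM k (fun x => f x - g x) := by
  have h : DM k (fun x => f x + (-1 : k) * g x) := by fun_prop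
  exact h.congr (fun x => by ring)

@[fun_prop]
theorem DM.inv {f : X → k} (hf : DM k f) : DM k (fun x => (f x)⁻¹) := by
  refine DM.of_graph (R := fun x y => (f x = 0 ∧ y = 0) ∨ (f x ≠ 0 ∧ f x * y = 1)) (by fun_prop) ?_
  intro x y
  by_cases h : f x = 0
  · simp [h]
  · simp only [h, false_and, ne_eq, not_false_eq_true, true_and, false_or]
    constructor
    · intro h'; exact eq_inv_of_mul_eq_one_right h'
    · rintro rfl; exact mul_inv_cancel₀ h

@[fun_prop]
theorem DM.div {f g : X → k} (hf : DM k f) (hg : DM k g) : DM k (fun x => f x / g x) := by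
  have h : DM k (fun x => f x * (g x)⁻¹) := by fun_prop
  exact h.congr (fun x => by rw [div_eq_mul_inv])

@[fun_prop]
theorem DM.pow {f : X → k} (hf : DM k f) (n : ℕ) : DM k (fun x => f x ^ n) := by
  induction n with
  | zero => exact (DM.const' (1 : k)).congr (fun x => by simp)
  | succ n ih => exact (ih.mul hf).congr (fun x => by rw [pow_succ])

@[fun_prop]
theorem DM.zpow {f : X → k} (hf : DM k f) (n : ℤ) : DM k (fun x => f x ^ n) := by
  cases n with
  | ofNat n => exact (hf.pow n).congr (fun x => by simp)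
  | negSucc n => exact ((hf.pow (n + 1)).inv).congr (fun x => by simp [zpow_negSucc])

@[fun_prop]
theorem DM.sum {ι : Type} (t : Finset ι) {f : ι → X → k} (hf : ∀ i ∈ t, DM k (f i)) :
    DM k (fun x => ∑ i ∈ t, f i x) := by
  classical
  induction t using Finset.induction_on with
  | empty => exact (DM.const' (0 : k)).congr (fun x => by simp)
  | insert a t ha ih =>
    have h1 := hf a (Finset.mem_insert_self _ _)
    have h2 := ih (fun i hi => hf i (Finset.mem_insert_of_mem hi))
    exact (h1.add h2).congr (fun x => by rw [Finset.sum_insert ha])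

@[fun_prop]
theorem DM.prod {ι : Type} (t : Finset ι) {f : ι → X → k} (hf : ∀ i ∈ t, DM k (f i)) :
    DM k (fun x => ∏ i ∈ t, f i x) := by
  classical
  induction t using Finset.induction_on with
  | empty => exact (DM.const' (1 : k)).congr (fun x => by simp)
  | insert a t ha ih =>
    have h1 := hf a (Finset.mem_insert_self _ _)
    have h2 := ih (fun i hi => hf i (Finset.mem_insert_of_mem hi))
    exact (h1.mul h2).congr (fun x => by rw [Finset.prod_insert ha])

end arith

section units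

/-- The coercion from units. -/
@[fun_prop]
theorem DM.coe {f : X → kˣ} (hf : DM k f) : DM k (fun x => (f x : k)) := by
  have h : DM k (fun u : kˣ => (u : k)) := by
    rw [DM_iff_graph]
    refine (DP.and (DP.eq DF.fst DF.snd) (DP.comp (DT.dom (k := k) (X := kˣ)) DF.fst) :
      DP k (fun p : k × k => p.1 = p.2 ∧ ∃ u : kˣ, (u : k) = p.1)).congr ?_
    rintro ⟨a, b⟩
    constructor
    · rintro ⟨h, ⟨u, hu⟩⟩
      exact ⟨(u, b), ⟨hu, rfl⟩, (h.symm.trans hu.symm)⟩
    · rintro ⟨⟨u, c⟩, ⟨hu, hc⟩, h⟩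
      have hu' : (u : k) = a := hu
      have hc' : c = b := hc
      dsimp only at h
      exact ⟨by rw [← hu', ← hc', h], ⟨u, hu⟩⟩
  exact h.comp hf

/-- A map to units is definable if its values are. -/
theorem DM.to_units {f : X → kˣ} (hf : DM k (fun x => (f x : k))) : DM k f := by
  refine DM.of_graph (R := fun x u => (u : k) = (f x : k))
    (DM.eq (by fun_prop) (DM.comp hf (by fun_prop : DM k (fun p : X × kˣ => p.1)))) ?_
  intro x y
  exact ⟨fun h => Units.ext h, fun h => by rw [h]⟩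

@[fun_prop]
theorem DM.umul {f g : X → kˣ} (hf : DM k f) (hg : DM k g) : DM k (fun x => f x * g x) :=
  DM.to_units (by simp only [Units.val_mul]; fun_prop)

@[fun_prop]
theorem DM.uinv {f : X → kˣ} (hf : DM k f) : DM k (fun x => (f x)⁻¹) :=
  DM.to_units (by simp only [Units.val_inv_eq_inv_val]; fun_prop)

@[fun_prop]
theorem DM.udiv {f g : X → kˣ} (hf : DM k f) (hg : DM k g) : DM k (fun x => f x / g x) :=
  DM.to_units (by simp only [Units.val_div_eq_div_val]; fun_prop)

@[fun_prop]
theorem DM.upow {f : X → kˣ} (hf : DM k f) (n : ℕ) : DM k (fun x => f x ^ n) :=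
  DM.to_units (by simp only [Units.val_pow_eq_pow_val]; fun_prop)

@[fun_prop]
theorem DM.uzpow {f : X → kˣ} (hf : DM k f) (n : ℤ) : DM k (fun x => f x ^ n) :=
  DM.to_units (by simp only [Units.val_zpow_eq_zpow_val]; fun_prop)

@[fun_prop]
theorem DM.usmul {f : X → kˣ} {g : X → k} (hf : DM k f) (hg : DM k g) :
    DM k (fun x => f x • g x) := by
  simp only [Units.smul_def, smul_eq_mul]; fun_prop

end units

end Pool.Agent.MRat
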