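import Pool.Agent.Lib.MP_923aff_ag.DTb
/-!
# More definable types: subtypes, quotients, matrices, `GL`, `PGL`, projective spaces
-/

set_option autoImplicit false

namespace Pool.Agent.MRat

open scoped MatrixGroups LinearAlgebra.Projectivization

variable {k : Type} [Field k] [IsAlgClosed k] [CharZero k]
variable {X Y Z W : Type} [DT k X] [DT k Y] [DT k Z] [DT k W]

/-- Definable types by an injection into a definable type. -/
@[reducible] def DT.ofInj {V : Type} (c : V → X) (hc : Function.Injective c)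
    (hr : DM k (fun x : X => ∃ v, c v = x)) : DT k V where
  A := DT.A k X
  amb := inferInstance
  R a v := DT.R a (c v)
  fn a x y h1 h2 := hc (DT.fn _ _ _ h1 h2)
  sur x := DT.sur (c x)
  ker := by
    have h1 := DS.and (DM_iff_DS.1 (DM.comp hr (DM.fst (DM.id' (k := k) (X := X × X)))))
      (DS.eq (k := k) (X := X))
    refine DP.congr h1 ?_
    rintro ⟨a, b⟩
    constructor
    · rintro ⟨⟨x, y⟩, ⟨hx, hy⟩, ⟨v, hv⟩, h⟩
      dsimp only at h hv
      subst h hv
      exact ⟨v, hx, hy⟩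
    · rintro ⟨v, hx, hy⟩
      exact ⟨(c v, c v), ⟨hx, hy⟩, ⟨v, rfl⟩, rfl⟩

/-- If the structure of `V` comes from the injection `c`, then `c` is definable and a map into `V`
is definable iff its composition with `c` is. -/
theorem DT.ofInj_coe {V : Type} (c : V → X) (hc : Function.Injective c)
    (hr : DM k (fun x : X => ∃ v, c v = x)) :
    letI := DT.ofInj c hc hr
    DM k c := by
  let := DT.ofInj c hc hr
  rw [DM_iff_graph]
  have h1 := DS.and (DM_iff_DS.1 (DM.comp hr (DM.fst (DM.id' (k := k) (X := X × X)))))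
    (DS.eq (k := k) (X := X))
  refine DP.congr h1 ?_
  rintro ⟨a, b⟩
  constructor
  · rintro ⟨⟨x, y⟩, ⟨hx, hy⟩, ⟨v, hv⟩, h⟩
    dsimp only at h hv
    subst h hv
    exact ⟨(v, c v), ⟨hx, hy⟩, rfl⟩
  · rintro ⟨⟨v, y⟩, ⟨hx, hy⟩, h⟩
    dsimp only at h
    subst h
    exact ⟨(c v, c v), ⟨hx, hy⟩, ⟨v, rfl⟩, rfl⟩

theorem DT.ofInj_iff {V : Type} (c : V → X) (hc : Function.Injective c)
    (hr : DM k (fun x : X => ∃ v, c v = x)) {f : Y → V} :
    letI := DT.ofInj c hc hr
    (DM k f ↔ DM k (fun y => c (f y))) := by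
  let := DT.ofInj c hc hr
  constructor
  · intro h
    exact DM.comp (DT.ofInj_coe c hc hr) h
  · intro h
    have h2 := DT.ofInj_coe c hc hr
    refine DM.of_graph (R := fun y v => c v = c (f y)) ?_ ?_
    · exact DM.eq (DM.comp h2 (DM.snd DM.id')) (DM.comp h (DM.fst DM.id'))
    · intro y v
      exact ⟨fun h => hc h, fun h => by rw [h]⟩

/-- Definable types by a surjection from a definable type with definable kernel. -/
@[reducible] def DT.ofSurj {V : Type} (q : X → V) (hq : Function.Surjective q)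
    (hk : DM k (fun p : X × X => q p.1 = q p.2)) : DT k V where
  A := DT.A k X
  amb := inferInstance
  R a v := ∃ x, DT.R a x ∧ q x = v
  fn a x y h1 h2 := by
    obtain ⟨x', hx', rfl⟩ := h1
    obtain ⟨y', hy', rfl⟩ := h2
    rw [DT.fn _ _ _ hx' hy']
  sur v := by
    obtain ⟨x, rfl⟩ := hq v
    obtain ⟨a, ha⟩ := DT.sur (k := k) x
    exact ⟨a, x, ha, rfl⟩
  ker := by
    refine DP.congr (DM_iff_DS.1 hk) ?_
    rintro ⟨a, b⟩
    constructor
    · rintro ⟨⟨x, y⟩, ⟨hx, hy⟩, h⟩
      exact ⟨q x, ⟨x, hx, rfl⟩, ⟨y, hy, h.symm⟩⟩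
    · rintro ⟨v, ⟨x, hx, rfl⟩, ⟨y, hy, h⟩⟩
      exact ⟨(x, y), ⟨hx, hy⟩, h.symm⟩

theorem DT.ofSurj_coe {V : Type} (q : X → V) (hq : Function.Surjective q)
    (hk : DM k (fun p : X × X => q p.1 = q p.2)) :
    letI := DT.ofSurj q hq hk
    DM k q := by
  have hk' := DM_iff_DS.1 hk
  let := DT.ofSurj q hq hk
  rw [DM_iff_graph]
  refine DP.congr hk' ?_
  rintro ⟨a, b⟩
  constructor
  · rintro ⟨⟨x, y⟩, ⟨hx, hy⟩, h⟩
    exact ⟨(x, q y), ⟨hx, ⟨y, hy, rfl⟩⟩, h.symm⟩
  · rintro ⟨⟨x, v⟩, ⟨hx, ⟨y, hy, hyv⟩⟩, h⟩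
    dsimp only at h hyv
    subst h
    exact ⟨(x, y), ⟨hx, hy⟩, hyv.symm⟩

/-- Maps out of a quotient. -/
theorem DT.ofSurj_iff {V : Type} (q : X → V) (hq : Function.Surjective q)
    (hk : DM k (fun p : X × X => q p.1 = q p.2)) {f : V → Y} :
    letI := DT.ofSurj q hq hk
    (DM k f ↔ DM k (fun x => f (q x))) := by
  let := DT.ofSurj q hq hk
  have h2 := DT.ofSurj_coe q hq hk
  constructor
  · intro h
    exact DM.comp h h2
  · intro h
    refine DM.of_graph (R := fun v y => ∃ x, q x = v ∧ y = f (q x)) ?_ ?_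
    · refine DM.ex (DM.and (DM.eq (DM.comp h2 (by fun_prop)) (by fun_prop)) (DM.eq (by fun_prop)
        (DM.comp h (by fun_prop))))
    · intro v y
      constructor
      · rintro ⟨x, rfl, h⟩; exact h
      · rintro rfl
        obtain ⟨x, hx⟩ := hq v
        exact ⟨x, hx, by rw [hx]⟩

section sub

/-- A definable subset as a definable type. -/
@[reducible] def DT.sub {P : X → Prop} (hP : DM k P) : DT k {x // P x} :=
  DT.ofInj (fun x : {x // P x} => (x : X)) Subtype.val_injective (by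
    refine hP.congr_iff (fun x => ?_)
    simp)

/-- A definable set as a definable type. -/
@[reducible] def DT.set {s : Set X} (hs : DM k (fun x => x ∈ s)) : DT k s :=
  DT.ofInj (fun x : s => (x : X)) Subtype.val_injective (by
    refine hs.congr_iff (fun x => ?_)
    simp)

/-- Transport along an equivalence. -/
@[reducible] def DT.ofEquiv {V : Type} (e : V ≃ X) : DT k V :=
  DT.ofInj e e.injective ((DM.const' True).congr_iff (fun x => by
    simp only [true_iff]; exact ⟨e.symm x, by simp⟩))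

end sub

section matrix

variable {l m n : ℕ}

instance : DT k (Matrix (Fin m) (Fin n) Y) := inferInstanceAs (DT k (Fin m → Fin n → Y))

theorem DM.entry {f : X → Matrix (Fin m) (Fin n) Y} (hf : DM k f) (i : Fin m) (j : Fin n) :
    DM k (fun x => f x i j) := by
  have h : DM k (fun g : Fin m → Fin n → Y => g i j) := by fun_prop
  exact DM.comp h hf

theorem DM.matrix {f : X → Matrix (Fin m) (Fin n) Y} (hf : ∀ i j, DM k (fun x => f x i j)) :
    DM k f := by
  have h : DM k (fun x => (fun i j => f x i j : Fin m → Fin n → Y)) := by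
    refine DM.pi (fun i => DM.pi (fun j => hf i j))
  exact h

@[fun_prop]
theorem DM.mmul {f : X → Matrix (Fin l) (Fin m) k} {g : X → Matrix (Fin m) (Fin n) k}
    (hf : DM k f) (hg : DM k g) : DM k (fun x => f x * g x) := by
  refine DM.matrix (fun i j => ?_)
  simp only [Matrix.mul_apply]
  fun_prop

@[fun_prop]
theorem DM.mulVec {f : X → Matrix (Fin m) (Fin n) k} {g : X → Fin n → k}
    (hf : DM k f) (hg : DM k g) : DM k (fun x => (f x).mulVec (g x)) := by
  refine DM.pi (fun i => ?_)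
  simp only [Matrix.mulVec, dotProduct]
  fun_prop

@[fun_prop]
theorem DM.det {f : X → Matrix (Fin n) (Fin n) k} (hf : DM k f) :
    DM k (fun x => (f x).det) := by
  simp only [Matrix.det_apply]
  refine DM.sum _ (fun σ _ => ?_)
  rcases Int.units_eq_one_or (Equiv.Perm.sign σ) with h | h <;> rw [h] <;>
    simp only [one_smul, Units.neg_smul] <;> fun_prop

theorem gl_range : DM k (fun M : Matrix (Fin n) (Fin n) k =>
    ∃ g : GL (Fin n) k, (g : Matrix (Fin n) (Fin n) k) = M) := by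
  have h : DM k (fun M : Matrix (Fin n) (Fin n) k => M.det ≠ 0) := by fun_prop
  refine h.congr_iff (fun M => ?_)
  constructor
  · intro h
    exact ⟨Matrix.GeneralLinearGroup.mkOfDetNeZero M h, rfl⟩
  · rintro ⟨g, rfl⟩
    exact (Matrix.isUnit_iff_isUnit_det _).1 g.isUnit |>.ne_zero

instance : DT k (GL (Fin n) k) :=
  DT.ofInj (fun g : GL (Fin n) k => (g : Matrix (Fin n) (Fin n) k)) Units.val_injective gl_range

@[fun_prop]
theorem DM.gl_coe {f : X → GL (Fin n) k} (hf : DM k f) :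
    DM k (fun x => ((f x : GL (Fin n) k) : Matrix (Fin n) (Fin n) k)) :=
  DM.comp (DT.ofInj_coe (fun g : GL (Fin n) k => (g : Matrix (Fin n) (Fin n) k))
    Units.val_injective gl_range) hf

theorem DM.to_gl {f : X → GL (Fin n) k}
    (hf : DM k (fun x => ((f x : GL (Fin n) k) : Matrix (Fin n) (Fin n) k))) : DM k f :=
  (DT.ofInj_iff (fun g : GL (Fin n) k => (g : Matrix (Fin n) (Fin n) k))
    Units.val_injective gl_range).2 hf

@[fun_prop]
theorem DM.gl_mul {f g : X → GL (Fin n) k} (hf : DM k f) (hg : DM k g) :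
    DM k (fun x => f x * g x) :=
  DM.to_gl (by simp only [Units.val_mul]; fun_prop)

@[fun_prop]
theorem DM.gl_inv {f : X → GL (Fin n) k} (hf : DM k f) : DM k (fun x => (f x)⁻¹) := by
  refine DM.of_graph (R := fun x g => (f x : GL (Fin n) k) * g = 1) (by fun_prop) ?_
  intro x y
  exact ⟨fun h => eq_inv_of_mul_eq_one_right h, fun h => by rw [h, mul_inv_cancel]⟩

@[fun_prop]
theorem DM.gl_scalar {f : X → kˣ} (hf : DM k f) :
    DM k (fun x => Matrix.GeneralLinearGroup.scalar (Fin n) (f x)) := by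
  refine DM.to_gl (DM.matrix (fun i j => ?_))
  by_cases hij : i = j
  · subst hij
    refine (DM.coe hf).congr (fun u => ?_)
    simp [Matrix.GeneralLinearGroup.coe_scalar]
  · refine (DM.const' (0 : k)).congr (fun u => ?_)
    simp [Matrix.GeneralLinearGroup.coe_scalar, hij]

theorem pgl_ker : DM k (fun p : GL (Fin n) k × GL (Fin n) k =>
    (Matrix.ProjGenLinGroup.mk p.1 : PGL(n, k)) = Matrix.ProjGenLinGroup.mk p.2) := by
  have h : DM k (fun p : GL (Fin n) k × GL (Fin n) k => ∃ u : kˣ,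
      p.1 * Matrix.GeneralLinearGroup.scalar (Fin n) u = p.2) := by
    fun_prop
  refine h.congr_iff (fun p => ?_)
  exact Matrix.ProjGenLinGroup.mk_eq_mk_iff.symm

instance : DT k PGL(n, k) :=
  DT.ofSurj (Matrix.ProjGenLinGroup.mk : GL (Fin n) k → PGL(n, k))
    Matrix.ProjGenLinGroup.mk_surjective pgl_ker

@[fun_prop]
theorem DM.pgl_mk {f : X → GL (Fin n) k} (hf : DM k f) :
    DM k (fun x => (Matrix.ProjGenLinGroup.mk (f x) : PGL(n, k))) :=
  DM.comp (DT.ofSurj_coe (Matrix.ProjGenLinGroup.mk : GL (Fin n) k → PGL(n, k))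
    Matrix.ProjGenLinGroup.mk_surjective pgl_ker) hf

/-- Definable maps out of `PGL × X`. -/
theorem DM.pgl_iff {f : PGL(n, k) × X → Y} :
    DM k f ↔ DM k (fun p : GL (Fin n) k × X => f (Matrix.ProjGenLinGroup.mk p.1, p.2)) := by
  constructor
  · intro h
    exact DM.comp h (by fun_prop)
  · intro h
    refine DM.of_graph (R := fun p y => ∃ g : GL (Fin n) k, Matrix.ProjGenLinGroup.mk g = p.1 ∧
      y = f (Matrix.ProjGenLinGroup.mk g, p.2)) ?_ ?_
    · refine DM.ex (DM.and (by fun_prop) (DM.eq (by fun_prop) ?_))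
      exact DM.comp h (by fun_prop :
        DM k (fun q : ((PGL(n, k) × X) × Y) × GL (Fin n) k => (q.2, q.1.1.2)))
    · rintro ⟨g, x⟩ y
      constructor
      · rintro ⟨g', h1, h2⟩
        dsimp only at h1 h2
        rw [h2, h1]
      · rintro rfl
        obtain ⟨g', rfl⟩ := Matrix.ProjGenLinGroup.mk_surjective g
        exact ⟨g', rfl, rfl⟩

@[fun_prop]
theorem DM.pgl_mul {f g : X → PGL(n, k)} (hf : DM k f) (hg : DM k g) :
    DM k (fun x => f x * g x) := by
  refine DM.of_graph (R := fun x y => ∃ a b : GL (Fin n) k,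
    Matrix.ProjGenLinGroup.mk a = f x ∧ Matrix.ProjGenLinGroup.mk b = g x ∧
      y = Matrix.ProjGenLinGroup.mk (a * b)) (by fun_prop) ?_
  intro x y
  constructor
  · rintro ⟨a, b, h1, h2, h3⟩
    rw [h3, ← h1, ← h2, map_mul]
  · intro h
    obtain ⟨a, ha⟩ := Matrix.ProjGenLinGroup.mk_surjective (f x)
    obtain ⟨b, hb⟩ := Matrix.ProjGenLinGroup.mk_surjective (g x)
    exact ⟨a, b, ha, hb, by rw [h, ← ha, ← hb, map_mul]⟩

@[fun_prop]
theorem DM.pgl_inv {f : X → PGL(n, k)} (hf : DM k f) : DM k (fun x => (f x)⁻¹) := by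
  refine DM.of_graph (R := fun x g => f x * g = 1) (by fun_prop) ?_
  intro x y
  exact ⟨fun h => eq_inv_of_mul_eq_one_right h, fun h => by rw [h, mul_inv_cancel]⟩

end matrix

end Pool.Agent.MRat
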