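import Pool.Agent.Lib.MP_923aff_ag.HA
/-!
# JOB HB: the line lemma and the affine line lemma
-/

set_option autoImplicit false

namespace Pool.Agent.MRat

open Polynomial

variable {k : Type} [Field k] [IsAlgClosed k] [CharZero k]
variable {α β γ δ : Type} [Amb k α] [Amb k β] [Amb k γ] [Amb k δ]

/-- A system of multipliers: `R x y c` means that some arrow `x → y` multiplies by `c`. -/
structure Mult (k : Type) [Field k] {α : Type} [Amb k α] (s : Set α) (R : α → α → k → Prop) :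
    Prop where
  ds : DP k (fun x => x ∈ s)
  dR : DP k (fun p : α × α × k => p.1 ∈ s ∧ p.2.1 ∈ s ∧ R p.1 p.2.1 p.2.2)
  ne : ∀ x ∈ s, ∀ y ∈ s, ∀ c, R x y c → c ≠ 0
  one : ∀ x ∈ s, R x x 1
  inv : ∀ x ∈ s, ∀ y ∈ s, ∀ c, R x y c → R y x c⁻¹
  comp : ∀ x ∈ s, ∀ y ∈ s, ∀ z ∈ s, ∀ c c', R x y c → R y z c' → R x z (c' * c)
  fin : ∀ x ∈ s, {c | R x x c}.Finite

/-- The relation on `α × k` given by the multipliers. -/
def lrel (k : Type) [Field k] {α : Type} (R : α → α → k → Prop) : α × k → α × k → Prop :=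
  fun p q => ∃ c, R p.1 q.1 c ∧ q.2 = c * p.2

theorem Mult.good {s : Set α} {R : α → α → k → Prop} (h : Mult k s R) :
    Good k s (fun x y => ∃ c, R x y c) where
  ds := h.ds
  dr := by
    have hf : DF k (fun q : (α × α) × k => ((q.1.1, q.1.2, q.2) : α × α × k)) :=
      DF.mk (DF.fst' DF.fst) (DF.mk (DF.snd' DF.fst) DF.snd)
    have h1 := DP.comp h.dR hf
    have h2 : DP k (fun p : α × α => ∃ c : k, p.1 ∈ s ∧ p.2 ∈ s ∧ R p.1 p.2 c) :=
      DP.ex (P := fun (p : α × α) (c : k) => p.1 ∈ s ∧ p.2 ∈ s ∧ R p.1 p.2 c) h1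
    refine h2.congr fun p => ?_
    constructor
    · rintro ⟨c, h1, h2, h3⟩
      exact ⟨h1, h2, c, h3⟩
    · rintro ⟨h1, h2, c, h3⟩
      exact ⟨c, h1, h2, h3⟩
  refl := fun x hx => ⟨1, h.one x hx⟩
  symm := fun x hx y hy ⟨c, hc⟩ => ⟨c⁻¹, h.inv x hx y hy c hc⟩
  trans := fun x hx y hy z hz ⟨c, hc⟩ ⟨c', hc'⟩ => ⟨c' * c, h.comp x hx y hy z hz c c' hc hc'⟩

private theorem HB_mono {s : Set α} {R : α → α → k → Prop} (h : Mult k s R) {t : Set α}
    (ht : DP k (fun x => x ∈ t)) (hts : t ⊆ s) : Mult k t R where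
  ds := ht
  dR := by
    have h1 : DP k (fun p : α × α × k => p.1 ∈ t) := DP.comp ht DF.fst
    have h2 : DP k (fun p : α × α × k => p.2.1 ∈ t) := DP.comp ht (DF.fst' DF.snd)
    refine ((h1.and h2).and h.dR).congr fun p => ?_
    constructor
    · rintro ⟨⟨h1, h2⟩, h3, h4, h5⟩
      exact ⟨h1, h2, h5⟩
    · rintro ⟨h1, h2, h5⟩
      exact ⟨⟨h1, h2⟩, hts h1, hts h2, h5⟩
  ne := fun x hx y hy => h.ne x (hts hx) y (hts hy)
  one := fun x hx => h.one x (hts hx)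
  inv := fun x hx y hy => h.inv x (hts hx) y (hts hy)
  comp := fun x hx y hy z hz => h.comp x (hts hx) y (hts hy) z (hts hz)
  fin := fun x hx => h.fin x (hts hx)

private theorem HB_dprod {s : Set α} (hs : DP k (fun x => x ∈ s)) {U : Set k}
    (hU : DP k (fun x => x ∈ U)) : DP k (fun x : α × k => x ∈ s ×ˢ U) := by
  have h1 : DP k (fun x : α × k => x.1 ∈ s) := DP.comp hs DF.fst
  have h2 : DP k (fun x : α × k => x.2 ∈ U) := DP.comp hU DF.snd
  exact (h1.and h2).congr fun x => Iff.rfl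

private theorem HB_duniv : DP k (fun x : k => x ∈ (Set.univ : Set k)) :=
  (DP.const (α := k) True).congr fun x => by simp

theorem Mult.good_line {s : Set α} {R : α → α → k → Prop} (h : Mult k s R) :
    Good k (s ×ˢ (Set.univ : Set k)) (lrel k R) where
  ds := HB_dprod h.ds HB_duniv
  dr := by
    have hf : DF k (fun q : ((α × k) × (α × k)) × k =>
        ((q.1.1.1, q.1.2.1, q.2) : α × α × k)) :=
      DF.mk (DF.fst' (DF.fst' DF.fst)) (DF.mk (DF.fst' (DF.snd' DF.fst)) DF.snd)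
    have h1 := DP.comp h.dR hf
    have h3 : DP k (fun q : ((α × k) × (α × k)) × k => q.1.2.2 = q.2 * q.1.1.2) :=
      DP.eq (DF.snd' (DF.snd' DF.fst)) (DF.mul DF.snd (DF.snd' (DF.fst' DF.fst)))
    have h2 : DP k (fun p : (α × k) × (α × k) => ∃ c : k, (p.1.1 ∈ s ∧ p.2.1 ∈ s ∧
        R p.1.1 p.2.1 c) ∧ p.2.2 = c * p.1.2) :=
      DP.ex (P := fun (p : (α × k) × (α × k)) (c : k) => (p.1.1 ∈ s ∧ p.2.1 ∈ s ∧
        R p.1.1 p.2.1 c) ∧ p.2.2 = c * p.1.2) (h1.and h3)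
    refine h2.congr fun p => ?_
    constructor
    · rintro ⟨c, ⟨h1, h2, h3⟩, h4⟩
      exact ⟨⟨h1, trivial⟩, ⟨h2, trivial⟩, c, h3, h4⟩
    · rintro ⟨⟨h1, -⟩, ⟨h2, -⟩, c, h3, h4⟩
      exact ⟨c, ⟨h1, h2, h3⟩, h4⟩
  refl := fun x hx => ⟨1, h.one x.1 hx.1, by simp⟩
  symm := by
    rintro x hx y hy ⟨c, hc, he⟩
    have := h.ne _ hx.1 _ hy.1 _ hc
    refine ⟨c⁻¹, h.inv _ hx.1 _ hy.1 _ hc, ?_⟩
    rw [he, inv_mul_cancel_left₀ this]
  trans := by
    rintro x hx y hy z hz ⟨c, hc, he⟩ ⟨c', hc', he'⟩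
    refine ⟨c' * c, h.comp _ hx.1 _ hy.1 _ hz.1 _ _ hc hc', ?_⟩
    rw [he', he, mul_assoc]

/-- A finite multiplicative group of scalars consists of all roots of unity of some order. -/
private theorem HB_roots (G : Set k) (hf : G.Finite) (h0 : ∀ c ∈ G, c ≠ 0) (h1 : (1 : k) ∈ G)
    (hi : ∀ c ∈ G, c⁻¹ ∈ G) (hm : ∀ c ∈ G, ∀ c' ∈ G, c' * c ∈ G) :
    0 < G.ncard ∧ ∀ c, c ∈ G ↔ c ^ G.ncard = 1 := by
  classical
  have hpos : 0 < G.ncard := (Set.ncard_pos hf).2 ⟨1, h1⟩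
  refine ⟨hpos, ?_⟩
  have hcard : G.ncard = hf.toFinset.card := Set.ncard_eq_toFinset_card G hf
  have key : ∀ c ∈ G, c ^ G.ncard = 1 := by
    intro c hc
    have hp : ∏ g ∈ hf.toFinset, g ≠ 0 := by
      rw [Finset.prod_ne_zero_iff]
      intro g hg
      exact h0 g (hf.mem_toFinset.1 hg)
    have hb : ∏ g ∈ hf.toFinset, c * g = ∏ g ∈ hf.toFinset, g := by
      refine Finset.prod_bij' (fun g _ => c * g) (fun g _ => c⁻¹ * g) ?_ ?_ ?_ ?_ ?_
      · intro g hg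
        exact hf.mem_toFinset.2 (hm g (hf.mem_toFinset.1 hg) c hc)
      · intro g hg
        exact hf.mem_toFinset.2 (hm g (hf.mem_toFinset.1 hg) c⁻¹ (hi c hc))
      · intro g hg
        exact inv_mul_cancel_left₀ (h0 c hc) g
      · intro g hg
        exact mul_inv_cancel_left₀ (h0 c hc) g
      · intro g hg
        rfl
    rw [Finset.prod_mul_distrib, Finset.prod_const] at hb
    rw [hcard]
    exact mul_right_cancel₀ hp (by rw [hb, one_mul])
  intro c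
  refine ⟨key c, fun hc => ?_⟩
  have hsub : hf.toFinset ⊆ Polynomial.nthRootsFinset G.ncard (1 : k) := by
    intro g hg
    rw [Polynomial.mem_nthRootsFinset hpos]
    exact key g (hf.mem_toFinset.1 hg)
  have heq : hf.toFinset = Polynomial.nthRootsFinset G.ncard (1 : k) := by
    refine Finset.eq_of_subset_of_card_le hsub ?_
    rw [← hcard]
    unfold Polynomial.nthRootsFinset
    exact (Multiset.toFinset_card_le _).trans (Polynomial.card_nthRoots _ _)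
  have : c ∈ Polynomial.nthRootsFinset G.ncard (1 : k) := (Polynomial.mem_nthRootsFinset hpos 1).2 hc
  rw [← heq] at this
  exact hf.mem_toFinset.1 this

private theorem HB_group {s : Set α} {R : α → α → k → Prop} (h : Mult k s R) {x : α}
    (hx : x ∈ s) : 0 < {c | R x x c}.ncard ∧ ∀ c, R x x c ↔ c ^ {c | R x x c}.ncard = 1 :=
  HB_roots {c | R x x c} (h.fin x hx) (fun c hc => h.ne x hx x hx c hc) (h.one x hx)
    (fun c hc => h.inv x hx x hx c hc) (fun c hc c' hc' => h.comp x hx x hx x hx c c' hc hc')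

private theorem HB_same {s : Set α} {R : α → α → k → Prop} (h : Mult k s R) {x y : α}
    (hx : x ∈ s) (hy : y ∈ s) {c : k} (hc : R x y c) : {c | R x x c} = {c | R y y c} := by
  have h0 := h.ne x hx y hy c hc
  have hc' := h.inv x hx y hy c hc
  ext d
  constructor
  · intro hd
    have h1 := h.comp y hy x hx y hy _ _ (h.comp y hy x hx x hx _ _ hc' hd) hc
    have : c * (d * c⁻¹) = d := by field_simp
    rwa [this] at h1
  · intro hd
    have h1 := h.comp x hx y hy x hx _ _ (h.comp x hx y hy y hy _ _ hc hd) hc'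
    have : c⁻¹ * (d * c) = d := by field_simp
    rwa [this] at h1

/-- The comparison on a piece where the groups of multipliers have constant order. -/
private theorem HB_piece {s : Set α} {R : α → α → k → Prop} (h : Mult k s R) {m : ℕ} (hm : 0 < m)
    (hc : ∀ x ∈ s, {c | R x x c}.ncard = m) {U : Set k} (hU : DP k (fun x => x ∈ U))
    (hU' : ∀ v e : k, e ≠ 0 → (v ^ m / e ∈ U ↔ v ∈ U)) :
    cls k (s ×ˢ U) (lrel k R) = cls k (s ×ˢ U) (rprod k (fun x y => ∃ c, R x y c)) := by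
  have hroot : ∀ x ∈ s, ∀ c, R x x c ↔ c ^ m = 1 := by
    intro x hx c
    have := (HB_group h hx).2 c
    rwa [hc x hx] at this
  have hT : DP k (fun p : α × α × k => p.1 ∈ s ∧ p.2.1 ∈ s ∧ ∃ c, R p.1 p.2.1 c ∧ p.2.2 = c ^ m) := by
    have hf : DF k (fun q : (α × α × k) × k => ((q.1.1, q.1.2.1, q.2) : α × α × k)) :=
      DF.mk (DF.fst' DF.fst) (DF.mk (DF.fst' (DF.snd' DF.fst)) DF.snd)
    have h1 := DP.comp h.dR hf
    have h3 : DP k (fun q : (α × α × k) × k => q.1.2.2 = q.2 ^ m) :=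
      DP.eq (DF.snd' (DF.snd' DF.fst)) (DF.pow DF.snd m)
    have h2 : DP k (fun p : α × α × k => ∃ c : k, (p.1 ∈ s ∧ p.2.1 ∈ s ∧
        R p.1 p.2.1 c) ∧ p.2.2 = c ^ m) :=
      DP.ex (P := fun (p : α × α × k) (c : k) => (p.1 ∈ s ∧ p.2.1 ∈ s ∧
        R p.1 p.2.1 c) ∧ p.2.2 = c ^ m) (h1.and h3)
    refine h2.congr fun p => ?_
    constructor
    · rintro ⟨c, ⟨h1, h2, h3⟩, h4⟩
      exact ⟨h1, h2, c, h3, h4⟩
    · rintro ⟨h1, h2, c, h3, h4⟩
      exact ⟨c, ⟨h1, h2, h3⟩, h4⟩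
  obtain ⟨e, he, he0, hee⟩ := h90_one h.good
    (fun x y d => x ∈ s ∧ y ∈ s ∧ ∃ c, R x y c ∧ d = c ^ m) hT
    (by
      rintro x hx y hy ⟨c, hc⟩
      exact ⟨c ^ m, hx, hy, c, hc, rfl⟩)
    (by
      rintro x hx y hy - d d' ⟨-, -, c, hc, rfl⟩ ⟨-, -, c', hc', rfl⟩
      have h1 := h.comp x hx y hy x hx _ _ hc (h.inv x hx y hy _ hc')
      rw [hroot x hx] at h1
      have h0 := h.ne x hx y hy c' hc'
      rw [mul_pow, inv_pow] at h1
      have h0' : c' ^ m ≠ 0 := pow_ne_zero _ h0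
      field_simp at h1
      exact h1)
    (fun x hx => ⟨hx, hx, 1, h.one x hx, by simp⟩)
    (by
      rintro x hx y hy z hz - - d d' ⟨-, -, c, hc, rfl⟩ ⟨-, -, c', hc', rfl⟩
      exact ⟨hx, hz, c' * c, h.comp x hx y hy z hz _ _ hc hc', by rw [mul_pow]⟩)
  have hee' : ∀ x ∈ s, ∀ y ∈ s, ∀ c, R x y c → e y = c ^ m * e x :=
    fun x hx y hy c hc => hee x hx y hy ⟨c, hc⟩ _ ⟨hx, hy, c, hc, rfl⟩
  have hdU : DP k (fun x : α × k => x ∈ s ×ˢ U) := HB_dprod h.ds hU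
  have hsub : s ×ˢ U ⊆ s ×ˢ (Set.univ : Set k) := Set.prod_mono le_rfl (Set.subset_univ _)
  refine cls_map (h.good_line.mono hdU hsub) (h.good.prodk.mono hdU hsub)
    (fun p => (p.1, p.2 ^ m / e p.1)) ?_ ?_ ?_ ?_
  · exact DF.mk DF.fst (DF.div (DF.pow DF.snd m) (DF.comp he DF.fst))
  · rintro ⟨x, v⟩ ⟨hx, hv⟩
    exact ⟨hx, (hU' v (e x) (he0 x hx)).2 hv⟩
  · rintro ⟨x, v⟩ ⟨hx, hv⟩ ⟨y, w⟩ ⟨hy, hw⟩
    have hex := he0 x hx
    constructor
    · rintro ⟨c, hc, hcw⟩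
      refine ⟨⟨c, hc⟩, ?_⟩
      have h0 : c ^ m ≠ 0 := pow_ne_zero _ (h.ne x hx y hy c hc)
      simp only at hcw
      simp only [hcw, hee' x hx y hy c hc, mul_pow]
      rw [mul_div_mul_left _ _ h0]
    · rintro ⟨⟨c, hc⟩, hcw⟩
      simp only at hcw hc
      have hc0 : c ≠ 0 := h.ne x hx y hy c hc
      have h0 : c ^ m ≠ 0 := pow_ne_zero _ hc0
      rw [hee' x hx y hy c hc] at hcw
      have h2 : w ^ m = (c * v) ^ m := by
        rw [div_eq_div_iff hex (mul_ne_zero h0 hex)] at hcw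
        have h3 : w ^ m * e x = (c ^ m * v ^ m) * e x := by rw [← hcw]; ring
        rw [mul_pow]
        exact mul_right_cancel₀ hex h3
      by_cases hv0 : v = 0
      · subst hv0
        rw [mul_zero, zero_pow hm.ne', pow_eq_zero_iff hm.ne'] at h2
        subst h2
        exact ⟨c, hc, by simp⟩
      · have h3 : (w / (c * v)) ^ m = 1 := by
          rw [div_pow, h2, div_self (pow_ne_zero _ (mul_ne_zero hc0 hv0))]
        have h4 : R y y (w / (c * v)) := (hroot y hy _).2 h3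
        refine ⟨w / (c * v) * c, h.comp x hx y hy y hy _ _ hc h4, ?_⟩
        simp only
        field_simp
  · rintro ⟨y, w⟩ ⟨hy, hw⟩
    have hey := he0 y hy
    obtain ⟨v, hv⟩ := IsAlgClosed.exists_pow_nat_eq (w * e y) hm
    have hv' : v ^ m / e y = w := by rw [hv, mul_div_cancel_right₀ _ hey]
    refine ⟨(y, v), ⟨hy, (hU' v (e y) hey).1 (by rw [hv']; exact hw)⟩, ⟨1, h.one y hy⟩, hv'⟩

private theorem HB_main {s : Set α} {R : α → α → k → Prop} (h : Mult k s R)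
    {U : Set k} (hU : DP k (fun x => x ∈ U))
    (hU' : ∀ m : ℕ, 0 < m → ∀ v e : k, e ≠ 0 → (v ^ m / e ∈ U ↔ v ∈ U)) :
    cls k (s ×ˢ U) (lrel k R) = cls k (s ×ˢ U) (rprod k (fun x y => ∃ c, R x y c)) := by
  have hR : DP k (fun p : α × k => p.1 ∈ s ∧ R p.1 p.1 p.2) := by
    have hf : DF k (fun q : α × k => ((q.1, q.1, q.2) : α × α × k)) :=
      DF.mk DF.fst (DF.mk DF.fst DF.snd)
    refine (DP.comp h.dR hf).congr fun p => ?_
    constructor
    · rintro ⟨h1, -, h2⟩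
      exact ⟨h1, h2⟩
    · rintro ⟨h1, h2⟩
      exact ⟨h1, h1, h2⟩
  obtain ⟨N, hN⟩ := bounded_card h.ds (R := fun x c => R x x c) hR h.fin
  have hA : ∀ i : ℕ, DP k (fun a => a ∈ s ∧ {b | R a a b}.ncard = i) :=
    fun i => DP.ncard_eq h.ds (R := fun x c => R x x c) hR h.fin i
  set A : ℕ → Set α := fun i => {a | a ∈ s ∧ {b | R a a b}.ncard = i} with hAdef
  have hAd : ∀ i, DP k (fun x => x ∈ A i) := fun i => hA i
  have hAU : ∀ i, DP k (fun x : α × k => x ∈ A i ×ˢ (Set.univ : Set k)) :=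
    fun i => HB_dprod (hAd i) HB_duniv
  have hdU : DP k (fun x : α × k => x ∈ s ×ˢ U) := HB_dprod h.ds hU
  have hsub : s ×ˢ U ⊆ s ×ˢ (Set.univ : Set k) := Set.prod_mono le_rfl (Set.subset_univ _)
  have hcov : ∀ x ∈ s ×ˢ U, ∃ i ∈ Finset.range (N + 1), x ∈ A i ×ˢ (Set.univ : Set k) := by
    rintro ⟨x, v⟩ ⟨hx, hv⟩
    exact ⟨_, Finset.mem_range.2 (Nat.lt_succ_of_le (hN x hx)), ⟨hx, rfl⟩, trivial⟩
  have hint : ∀ i, (s ×ˢ U) ∩ (A i ×ˢ (Set.univ : Set k)) = A i ×ˢ U := by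
    intro i
    ext ⟨x, v⟩
    constructor
    · rintro ⟨⟨hx, hv⟩, ⟨hxA, -⟩⟩
      exact ⟨hxA, hv⟩
    · rintro ⟨hxA, hv⟩
      exact ⟨⟨hxA.1, hv⟩, ⟨hxA, trivial⟩⟩
  rw [cls_sum (Finset.range (N + 1)) (h.good_line.mono hdU hsub)
      (fun i => A i ×ˢ (Set.univ : Set k)) (fun i _ => hAU i) hcov
      (by
        rintro i - j - ⟨x, v⟩ ⟨hx, hv⟩ ⟨y, w⟩ ⟨hy, hw⟩ ⟨c, hc, -⟩ ⟨hxA, -⟩ ⟨hyA, -⟩
        have := HB_same h hx hy hc
        rw [← hxA.2, ← hyA.2]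
        exact congrArg Set.ncard this),
    cls_sum (Finset.range (N + 1)) (h.good.prodk.mono hdU hsub)
      (fun i => A i ×ˢ (Set.univ : Set k)) (fun i _ => hAU i) hcov
      (by
        rintro i - j - ⟨x, v⟩ ⟨hx, hv⟩ ⟨y, w⟩ ⟨hy, hw⟩ ⟨⟨c, hc⟩, -⟩ ⟨hxA, -⟩ ⟨hyA, -⟩
        have := HB_same h hx hy hc
        rw [← hxA.2, ← hyA.2]
        exact congrArg Set.ncard this)]
  refine Finset.sum_congr rfl fun i _ => ?_
  simp only [hint]
  rcases Nat.eq_zero_or_pos i with rfl | hi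
  · have hemp : A 0 ×ˢ U = ∅ := by
      ext ⟨x, v⟩
      simp only [Set.mem_prod, Set.mem_empty_iff_false, iff_false]
      rintro ⟨hxA, -⟩
      exact (HB_group h hxA.1).1.ne' hxA.2
    rw [hemp, cls_empty, cls_empty]
  · exact HB_piece (HB_mono h (hAd i) fun x hx => hx.1) hi (fun x hx => hx.2) hU (hU' i hi)

/-- The line lemma. -/
theorem line_lemma {s : Set α} {R : α → α → k → Prop} (h : Mult k s R) :
    cls k (s ×ˢ (Set.univ : Set k)) (lrel k R) =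
      (X : ℤ[X]) • cls k s (fun x y => ∃ c, R x y c) := by
  rw [X_smul_cls h.good]
  exact HB_main h HB_duniv (fun m _ v e _ => by simp)

/-- The line lemma without the zero section. -/
theorem line_lemma_units {s : Set α} {R : α → α → k → Prop} (h : Mult k s R) :
    cls k (s ×ˢ {v : k | v ≠ 0}) (lrel k R) =
      (X - 1 : ℤ[X]) • cls k s (fun x y => ∃ c, R x y c) := by
  rw [← cls_units h.good]
  refine HB_main h ?_ ?_
  · exact (DP.eq DF.id (DF.const (0 : k))).not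
  · intro m hm v e he
    simp only [Set.mem_ofPred_eq, ne_eq, div_eq_zero_iff, he, or_false, pow_eq_zero_iff hm.ne']

/-- Affine multipliers: `R x y c b` means that some arrow `x → y` acts by `v ↦ c v + b`. -/
structure Aff (k : Type) [Field k] {α : Type} [Amb k α] (s : Set α) (R : α → α → k → k → Prop) :
    Prop where
  ds : DP k (fun x => x ∈ s)
  dR : DP k (fun p : α × α × k × k => p.1 ∈ s ∧ p.2.1 ∈ s ∧ R p.1 p.2.1 p.2.2.1 p.2.2.2)
  ne : ∀ x ∈ s, ∀ y ∈ s, ∀ c b, R x y c b → c ≠ 0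
  one : ∀ x ∈ s, R x x 1 0
  inv : ∀ x ∈ s, ∀ y ∈ s, ∀ c b, R x y c b → R y x c⁻¹ (-(c⁻¹ * b))
  comp : ∀ x ∈ s, ∀ y ∈ s, ∀ z ∈ s, ∀ c b c' b', R x y c b → R y z c' b' →
    R x z (c' * c) (c' * b + b')
  fin : ∀ x ∈ s, {p : k × k | R x x p.1 p.2}.Finite

/-- The relation on `α × k` given by affine multipliers. -/
def arel (k : Type) [Field k] {α : Type} (R : α → α → k → k → Prop) : α × k → α × k → Prop :=
  fun p q => ∃ c b, R p.1 q.1 c b ∧ q.2 = c * p.2 + b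

theorem Aff.good {s : Set α} {R : α → α → k → k → Prop} (h : Aff k s R) :
    Good k s (fun x y => ∃ c b, R x y c b) where
  ds := h.ds
  dr := by
    have hf : DF k (fun q : (α × α) × (k × k) => ((q.1.1, q.1.2, q.2.1, q.2.2) : α × α × k × k)) :=
      DF.mk (DF.fst' DF.fst) (DF.mk (DF.snd' DF.fst) (DF.mk (DF.fst' DF.snd) (DF.snd' DF.snd)))
    have h1 := DP.comp h.dR hf
    have h2 : DP k (fun p : α × α => ∃ c : k × k, p.1 ∈ s ∧ p.2 ∈ s ∧ R p.1 p.2 c.1 c.2) :=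
      DP.ex (P := fun (p : α × α) (c : k × k) => p.1 ∈ s ∧ p.2 ∈ s ∧ R p.1 p.2 c.1 c.2) h1
    refine h2.congr fun p => ?_
    constructor
    · rintro ⟨c, h1, h2, h3⟩
      exact ⟨h1, h2, c.1, c.2, h3⟩
    · rintro ⟨h1, h2, c, b, h3⟩
      exact ⟨(c, b), h1, h2, h3⟩
  refl := fun x hx => ⟨1, 0, h.one x hx⟩
  symm := fun x hx y hy ⟨c, b, hc⟩ => ⟨c⁻¹, _, h.inv x hx y hy c b hc⟩
  trans := fun x hx y hy z hz ⟨c, b, hc⟩ ⟨c', b', hc'⟩ =>
    ⟨c' * c, _, h.comp x hx y hy z hz c b c' b' hc hc'⟩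

theorem Aff.good_line {s : Set α} {R : α → α → k → k → Prop} (h : Aff k s R) :
    Good k (s ×ˢ (Set.univ : Set k)) (arel k R) where
  ds := HB_dprod h.ds HB_duniv
  dr := by
    have hf : DF k (fun q : ((α × k) × (α × k)) × (k × k) =>
        ((q.1.1.1, q.1.2.1, q.2.1, q.2.2) : α × α × k × k)) :=
      DF.mk (DF.fst' (DF.fst' DF.fst)) (DF.mk (DF.fst' (DF.snd' DF.fst))
        (DF.mk (DF.fst' DF.snd) (DF.snd' DF.snd)))
    have h1 := DP.comp h.dR hf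
    have h3 : DP k (fun q : ((α × k) × (α × k)) × (k × k) =>
        q.1.2.2 = q.2.1 * q.1.1.2 + q.2.2) :=
      DP.eq (DF.snd' (DF.snd' DF.fst))
        (DF.add (DF.mul (DF.fst' DF.snd) (DF.snd' (DF.fst' DF.fst))) (DF.snd' DF.snd))
    have h2 : DP k (fun p : (α × k) × (α × k) => ∃ c : k × k, (p.1.1 ∈ s ∧ p.2.1 ∈ s ∧
        R p.1.1 p.2.1 c.1 c.2) ∧ p.2.2 = c.1 * p.1.2 + c.2) :=
      DP.ex (P := fun (p : (α × k) × (α × k)) (c : k × k) => (p.1.1 ∈ s ∧ p.2.1 ∈ s ∧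
        R p.1.1 p.2.1 c.1 c.2) ∧ p.2.2 = c.1 * p.1.2 + c.2) (h1.and h3)
    refine h2.congr fun p => ?_
    constructor
    · rintro ⟨c, ⟨h1, h2, h3⟩, h4⟩
      exact ⟨⟨h1, trivial⟩, ⟨h2, trivial⟩, c.1, c.2, h3, h4⟩
    · rintro ⟨⟨h1, -⟩, ⟨h2, -⟩, c, b, h3, h4⟩
      exact ⟨(c, b), ⟨h1, h2, h3⟩, h4⟩
  refl := fun x hx => ⟨1, 0, h.one x.1 hx.1, by simp⟩
  symm := by
    rintro x hx y hy ⟨c, b, hc, he⟩
    have := h.ne _ hx.1 _ hy.1 _ _ hc
    refine ⟨c⁻¹, _, h.inv _ hx.1 _ hy.1 _ _ hc, ?_⟩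
    rw [he]
    field_simp
    ring
  trans := by
    rintro x hx y hy z hz ⟨c, b, hc, he⟩ ⟨c', b', hc', he'⟩
    refine ⟨c' * c, _, h.comp _ hx.1 _ hy.1 _ hz.1 _ _ _ _ hc hc', ?_⟩
    rw [he', he]
    ring

private theorem HB_aff_fin {s : Set α} {R : α → α → k → k → Prop} (h : Aff k s R) {z y : α}
    (hz : z ∈ s) (hy : y ∈ s) : {q : k × k | R z y q.1 q.2}.Finite := by
  by_cases hex : ∃ q : k × k, R z y q.1 q.2
  · obtain ⟨⟨c0, b0⟩, h0⟩ := hex
    have hc0 : c0 ≠ 0 := h.ne z hz y hy c0 b0 h0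
    have hinv := h.inv z hz y hy c0 b0 h0
    refine Set.Finite.of_injOn (f := fun q : k × k =>
      (q.1 * c0⁻¹, q.1 * (-(c0⁻¹ * b0)) + q.2)) ?_ ?_ (h.fin y hy)
    · rintro ⟨c, b⟩ hq
      exact h.comp y hy z hz y hy _ _ _ _ hinv hq
    · rintro ⟨c, b⟩ - ⟨c', b'⟩ - heq
      simp only [Prod.mk.injEq] at heq
      have h1 : c = c' := mul_right_cancel₀ (inv_ne_zero hc0) heq.1
      subst h1
      rw [Prod.mk.injEq]
      exact ⟨rfl, add_left_cancel heq.2⟩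
  · convert Set.finite_empty
    ext q
    simp only [Set.mem_ofPred_eq, Set.mem_empty_iff_false, iff_false]
    exact fun hq => hex ⟨q, hq⟩

/-- An equivariant section of an affine line bundle. -/
theorem aff_section {s : Set α} {R : α → α → k → k → Prop} (h : Aff k s R) :
    ∃ σ : α → k, DF k σ ∧ ∀ x ∈ s, ∀ y ∈ s, ∀ c b, R x y c b → σ y = c * σ x + b := by
  obtain ⟨F, N, hF, hF1, hF2, hF3, hF4⟩ := class_multisection h.good
  set D : α → α × k × k → Prop := fun y p => y ∈ s ∧ F y p.1 ∧ p.1 ∈ s ∧ R p.1 y p.2.1 p.2.2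
    with hD
  have hDd : DP k (fun p : α × (α × k × k) => D p.1 p.2) := by
    have hf : DF k (fun q : α × (α × k × k) =>
        ((q.2.1, q.1, q.2.2.1, q.2.2.2) : α × α × k × k)) :=
      DF.mk (DF.fst' DF.snd) (DF.mk DF.fst (DF.mk (DF.fst' (DF.snd' DF.snd))
        (DF.snd' (DF.snd' DF.snd))))
    have h1 := DP.comp h.dR hf
    have hg : DF k (fun q : α × (α × k × k) => ((q.1, q.2.1) : α × α)) :=
      DF.mk DF.fst (DF.fst' DF.snd)
    have h2 := DP.comp hF hg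
    refine (h1.and h2).congr fun p => ?_
    constructor
    · rintro ⟨⟨h1, h2, h3⟩, h4⟩
      exact ⟨h2, h4, h1, h3⟩
    · rintro ⟨h2, h4, h1, h3⟩
      exact ⟨⟨h1, h2, h3⟩, h4⟩
  have hDfin : ∀ y, {p | D y p}.Finite := by
    intro y
    by_cases hy : y ∈ s
    · refine Set.Finite.subset ((hF3 y).1.biUnion (t := fun z =>
        (fun q : k × k => (z, q)) '' {q : k × k | z ∈ s ∧ R z y q.1 q.2}) fun z hz => ?_) ?_
      · refine Set.Finite.image _ ?_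
        by_cases hzs : z ∈ s
        · exact (HB_aff_fin h hzs hy).subset fun q hq => hq.2
        · convert Set.finite_empty
          ext q
          simp [hzs]
      · rintro ⟨z, q⟩ ⟨-, h1, h2, h3⟩
        simp only [Set.mem_iUnion]
        exact ⟨z, h1, q, ⟨h2, h3⟩, rfl⟩
    · convert Set.finite_empty
      ext p
      simp only [Set.mem_ofPred_eq, Set.mem_empty_iff_false, iff_false]
      exact fun hp => hy hp.1
  have hDun : DP k (fun a : α => a ∈ (Set.univ : Set α)) :=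
    (DP.const (α := α) True).congr fun x => by simp
  obtain ⟨M, hM⟩ := bounded_card (s := (Set.univ : Set α)) hDun (R := D)
    (hDd.congr fun p => by simp) (fun a _ => hDfin a)
  have hDN : ∀ a, {b | D a b}.Finite ∧ {b | D a b}.ncard ≤ M :=
    fun a => ⟨hDfin a, hM a trivial⟩
  have hS : DF k (fun y => ∑ᶠ p ∈ {p | D y p}, (p.2.2 : k)) :=
    DF.finsum (N := M) (R := D) hDd hDN (f := fun _ p => p.2.2) (DF.snd' (DF.snd' DF.snd))
  have hC : DF k (fun y => ∑ᶠ p ∈ {p | D y p}, (1 : k)) :=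
    DF.finsum (N := M) (R := D) hDd hDN (f := fun _ p => 1) (DF.const 1)
  refine ⟨_, DF.div hS hC, ?_⟩
  intro x hx y hy c b hc
  have hc0 := h.ne x hx y hy c b hc
  have hrxy : ∃ c b, R x y c b := ⟨c, b, hc⟩
  have hFxy := hF4 x hx y hy hrxy
  -- the bijection between the index sets
  have hbij : Set.BijOn (fun p : α × k × k => (p.1, c * p.2.1, c * p.2.2 + b))
      {p | D x p} {p | D y p} := by
    refine ⟨?_, ?_, ?_⟩
    · rintro ⟨z, c1, b1⟩ ⟨-, h1, h2, h3⟩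
      exact ⟨hy, (hFxy z).1 h1, h2, h.comp z h2 x hx y hy _ _ _ _ h3 hc⟩
    · rintro ⟨z, c1, b1⟩ - ⟨z', c1', b1'⟩ - heq
      simp only [Prod.mk.injEq] at heq
      obtain ⟨rfl, h2, h3⟩ := heq
      have h2' := mul_left_cancel₀ hc0 h2
      have h3' := mul_left_cancel₀ hc0 (add_right_cancel h3)
      subst h2' h3'
      rfl
    · rintro ⟨z, c1, b1⟩ ⟨-, h1, h2, h3⟩
      have hinv := h.inv x hx y hy _ _ hc
      refine ⟨(z, c⁻¹ * c1, c⁻¹ * b1 + (-(c⁻¹ * b))), ⟨hx, (hFxy z).2 h1, h2,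
        h.comp z h2 y hy x hx _ _ _ _ h3 hinv⟩, ?_⟩
      simp only [Prod.mk.injEq, true_and]
      constructor
      · exact mul_inv_cancel_left₀ hc0 c1
      · field_simp
        ring
  have hCeq : ∑ᶠ p ∈ {p | D y p}, (1 : k) = ∑ᶠ p ∈ {p | D x p}, (1 : k) :=
    (finsum_mem_eq_of_bijOn _ hbij (fun p _ => rfl)).symm
  have hSeq : ∑ᶠ p ∈ {p | D y p}, (p.2.2 : k) =
      c * ∑ᶠ p ∈ {p | D x p}, (p.2.2 : k) + b * ∑ᶠ p ∈ {p | D x p}, (1 : k) := by
    rw [← finsum_mem_eq_of_bijOn _ hbij (f := fun p => c * p.2.2 + b)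
      (g := fun p => p.2.2) (fun p _ => rfl)]
    rw [finsum_mem_add_distrib (hDfin x), mul_finsum_mem' _ c (hDfin x),
      mul_finsum_mem' _ b (hDfin x)]
    simp only [mul_one]
  have hCne : ∑ᶠ p ∈ {p | D x p}, (1 : k) ≠ 0 := by
    have h1 : ∑ᶠ p ∈ {p | D x p}, (1 : k) = ({p | D x p}.ncard : k) := by
      rw [finsum_mem_eq_finite_toFinset_sum _ (hDfin x), Finset.sum_const, nsmul_eq_mul, mul_one,
        Set.ncard_eq_toFinset_card _ (hDfin x)]
    rw [h1]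
    obtain ⟨z, hz⟩ := hF2 x hx
    obtain ⟨hzs, hrz⟩ := hF1 x hx z hz
    obtain ⟨c1, b1, h1⟩ := hrz
    have hinv := h.inv x hx z hzs _ _ h1
    have hne : ({p | D x p} : Set (α × k × k)).Nonempty := ⟨(z, _, _), hx, hz, hzs, hinv⟩
    exact Nat.cast_ne_zero.2 ((Set.ncard_pos (hDfin x)).2 hne).ne'
  rw [hCeq, hSeq, add_div, mul_div_assoc, mul_div_assoc, div_self hCne, mul_one]

/-- The affine line lemma. -/
theorem affine_line_lemma {s : Set α} {R : α → α → k → k → Prop} (h : Aff k s R) :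
    cls k (s ×ˢ (Set.univ : Set k)) (arel k R) =
      (X : ℤ[X]) • cls k s (fun x y => ∃ c b, R x y c b) := by
  have hM : Mult k s (fun x y c => ∃ b, R x y c b) := by
    refine ⟨h.ds, ?_, ?_, ?_, ?_, ?_, ?_⟩
    · have hf : DF k (fun q : (α × α × k) × k =>
          ((q.1.1, q.1.2.1, q.1.2.2, q.2) : α × α × k × k)) :=
        DF.mk (DF.fst' DF.fst) (DF.mk (DF.fst' (DF.snd' DF.fst))
          (DF.mk (DF.snd' (DF.snd' DF.fst)) DF.snd))
      have h1 := DP.comp h.dR hf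
      have h2 : DP k (fun p : α × α × k => ∃ b : k, p.1 ∈ s ∧ p.2.1 ∈ s ∧ R p.1 p.2.1 p.2.2 b) :=
        DP.ex (P := fun (p : α × α × k) (b : k) => p.1 ∈ s ∧ p.2.1 ∈ s ∧ R p.1 p.2.1 p.2.2 b) h1
      refine h2.congr fun p => ?_
      constructor
      · rintro ⟨c, h1, h2, h3⟩
        exact ⟨h1, h2, c, h3⟩
      · rintro ⟨h1, h2, c, h3⟩
        exact ⟨c, h1, h2, h3⟩
    · rintro x hx y hy c ⟨b, hb⟩
      exact h.ne x hx y hy c b hb
    · intro x hx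
      exact ⟨0, h.one x hx⟩
    · rintro x hx y hy c ⟨b, hb⟩
      exact ⟨_, h.inv x hx y hy c b hb⟩
    · rintro x hx y hy z hz c c' ⟨b, hb⟩ ⟨b', hb'⟩
      exact ⟨_, h.comp x hx y hy z hz _ _ _ _ hb hb'⟩
    · intro x hx
      refine ((h.fin x hx).image Prod.fst).subset ?_
      rintro c ⟨b, hb⟩
      exact ⟨(c, b), hb, rfl⟩
  obtain ⟨σ, hσ, hσe⟩ := aff_section h
  have h1 := line_lemma hM
  have h2 : cls k (s ×ˢ (Set.univ : Set k)) (arel k R) =
      cls k (s ×ˢ (Set.univ : Set k)) (lrel k (fun x y c => ∃ b, R x y c b)) := by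
    refine cls_map h.good_line hM.good_line (fun p => (p.1, p.2 - σ p.1)) ?_ ?_ ?_ ?_
    · exact DF.mk DF.fst (DF.sub DF.snd (DF.comp hσ DF.fst))
    · rintro ⟨x, v⟩ ⟨hx, -⟩
      exact ⟨hx, trivial⟩
    · rintro ⟨x, v⟩ ⟨hx, -⟩ ⟨y, w⟩ ⟨hy, -⟩
      constructor
      · rintro ⟨c, b, hc, he⟩
        refine ⟨c, ⟨b, hc⟩, ?_⟩
        simp only at he ⊢
        rw [he, hσe x hx y hy c b hc]
        ring
      · rintro ⟨c, ⟨b, hc⟩, he⟩
        refine ⟨c, b, hc, ?_⟩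
        simp only at he ⊢
        rw [hσe x hx y hy c b hc] at he
        linear_combination he
    · rintro ⟨y, w⟩ ⟨hy, -⟩
      refine ⟨(y, w + σ y), ⟨hy, trivial⟩, 1, ⟨0, h.one y hy⟩, ?_⟩
      simp
  rw [h2, h1]

end Pool.Agent.MRat
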