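import Pool.Agent.Lib.MP_923aff_ag.DTc
import Pool.Agent.Lib.MP_923aff_ag.HB
/-!
# JOB DTM: classes of definable sets modulo definable equivalence relations, for definable types
-/

set_option autoImplicit false

namespace Pool.Agent.MRat

open scoped MatrixGroups LinearAlgebra.Projectivization

/-- The variable of the polynomial ring acting on `MK k` (the class of the affine line). -/
noncomputable abbrev L : Polynomial ℤ := Polynomial.X

/-- `[n] = 1 + L + ... + L ^ (n - 1)`. -/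
noncomputable def br (n : ℕ) : Polynomial ℤ := ∑ i ∈ Finset.range n, L ^ i

/-- `r` is a definable equivalence relation on the definable subset `s` of the definable type `X`. -/
structure DQ (k : Type) [Field k] [IsAlgClosed k] [CharZero k] {X : Type} [DT k X] (s : Set X)
    (r : X → X → Prop) : Prop where
  ds : DM k (fun x => x ∈ s)
  dr : DM k (fun p : X × X => p.1 ∈ s ∧ p.2 ∈ s ∧ r p.1 p.2)
  refl : ∀ x ∈ s, r x x
  symm : ∀ x ∈ s, ∀ y ∈ s, r x y → r y x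
  trans : ∀ x ∈ s, ∀ y ∈ s, ∀ z ∈ s, r x y → r y z → r x z

/-- The class of `s` modulo `r`. -/
noncomputable def clq (k : Type) [Field k] {X : Type} [DT k X] (s : Set X) (r : X → X → Prop) :
    MK k :=
  cls k {a : DT.A k X | ∃ x, DT.R a x ∧ x ∈ s} (fun a b => ∃ x y, DT.R a x ∧ DT.R b y ∧ r x y)

/-- The class of a definable set. -/
noncomputable def cl (k : Type) [Field k] {X : Type} [DT k X] (s : Set X) : MK k :=
  clq k s (fun x y => x = y)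

section
variable {k : Type} [Field k] [IsAlgClosed k] [CharZero k]
variable {X Y Z W : Type} [DT k X] [DT k Y] [DT k Z] [DT k W]

/-- The data on the chart. -/
theorem DQ.good {s : Set X} {r : X → X → Prop} (h : DQ k s r) :
    Good k {a : DT.A k X | ∃ x, DT.R a x ∧ x ∈ s} (fun a b => ∃ x y, DT.R a x ∧ DT.R b y ∧ r x y) where
  ds := DM_iff_DS.1 h.ds
  dr := by
    refine DP.congr (DM_iff_DS.1 h.dr) ?_
    rintro ⟨a, b⟩
    constructor
    · rintro ⟨⟨x, y⟩, ⟨hx, hy⟩, hxs, hys, hxy⟩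
      exact ⟨⟨x, hx, hxs⟩, ⟨y, hy, hys⟩, ⟨x, y, hx, hy, hxy⟩⟩
    · rintro ⟨⟨x, hx, hxs⟩, ⟨y, hy, hys⟩, ⟨x', y', hx', hy', hxy⟩⟩
      have e1 := DT.fn _ _ _ hx hx'
      have e2 := DT.fn _ _ _ hy hy'
      subst e1 e2
      exact ⟨(x, y), ⟨hx, hy⟩, hxs, hys, hxy⟩
  refl := by
    rintro a ⟨x, hx, hxs⟩
    exact ⟨x, x, hx, hx, h.refl x hxs⟩
  symm := by
    rintro a ⟨x, hx, hxs⟩ b ⟨y, hy, hys⟩ ⟨x', y', hx', hy', hxy⟩
    have e1 := DT.fn _ _ _ hx hx'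
    have e2 := DT.fn _ _ _ hy hy'
    subst e1 e2
    exact ⟨y, x, hy, hx, h.symm x hxs y hys hxy⟩
  trans := by
    rintro a ⟨x, hx, hxs⟩ b ⟨y, hy, hys⟩ c ⟨z, hz, hzs⟩ ⟨x', y', hx', hy', hxy⟩
      ⟨y'', z', hy'', hz', hyz⟩
    have e1 := DT.fn _ _ _ hx hx'
    have e2 := DT.fn _ _ _ hy hy'
    have e3 := DT.fn _ _ _ hy hy''
    have e4 := DT.fn _ _ _ hz hz'
    subst e1 e2 e3 e4
    exact ⟨x, z, hx, hz, h.trans x hxs y hys z hzs hxy hyz⟩

/-- The relation on the chart, for points of the chart over the set. -/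
private theorem dtm_rel {r : X → X → Prop} {a b : DT.A k X} {x y : X} (hx : DT.R a x)
    (hy : DT.R b y) : (∃ x y, DT.R a x ∧ DT.R b y ∧ r x y) ↔ r x y := by
  constructor
  · rintro ⟨x', y', hx', hy', hxy⟩
    have e1 := DT.fn _ _ _ hx hx'
    have e2 := DT.fn _ _ _ hy hy'
    subst e1 e2
    exact hxy
  · intro hxy
    exact ⟨x, y, hx, hy, hxy⟩

private theorem dtm_mem {s : Set X} {a : DT.A k X} {x : X} (hx : DT.R a x) :
    (∃ x, DT.R a x ∧ x ∈ s) ↔ x ∈ s := by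
  constructor
  · rintro ⟨x', hx', h⟩
    have e1 := DT.fn _ _ _ hx hx'
    subst e1
    exact h
  · intro h
    exact ⟨x, hx, h⟩

/-- The universal comparison tool: correspondences. -/
theorem clq_corr {s : Set X} {r : X → X → Prop} {s' : Set Y} {r' : Y → Y → Prop} (h : DQ k s r)
    (h' : DQ k s' r') (F : X → Y → Prop) (hF : DM k (fun p : X × Y => F p.1 p.2))
    (left : ∀ x ∈ s, ∃ y ∈ s', F x y) (right : ∀ y ∈ s', ∃ x ∈ s, F x y)
    (iff : ∀ x ∈ s, ∀ y ∈ s', F x y → ∀ x' ∈ s, ∀ y' ∈ s', F x' y' → (r x x' ↔ r' y y')) :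
    clq k s r = clq k s' r' := by
  have hds : DP k (fun p : DT.A k X × DT.A k Y =>
      ∃ x y, DT.R p.1 x ∧ DT.R p.2 y ∧ x ∈ s ∧ y ∈ s' ∧ F x y) := by
    have h1 : DM k (fun p : X × Y => p.1 ∈ s ∧ p.2 ∈ s' ∧ F p.1 p.2) :=
      DM.and (DM.comp h.ds (DM.fst DM.id')) (DM.and (DM.comp h'.ds (DM.snd DM.id')) hF)
    refine DP.congr (DM_iff_DS.1 h1) ?_
    rintro ⟨a, b⟩
    constructor
    · rintro ⟨⟨x, y⟩, ⟨hx, hy⟩, h1, h2, h3⟩
      exact ⟨x, y, hx, hy, h1, h2, h3⟩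
    · rintro ⟨x, y, hx, hy, h1, h2, h3⟩
      exact ⟨(x, y), ⟨hx, hy⟩, h1, h2, h3⟩
  have hsub : ∀ p : DT.A k X × DT.A k Y,
      (∃ x y, DT.R p.1 x ∧ DT.R p.2 y ∧ x ∈ s ∧ y ∈ s' ∧ F x y) →
        p.1 ∈ {a : DT.A k X | ∃ x, DT.R a x ∧ x ∈ s} := by
    rintro p ⟨x, y, hx, hy, h1, h2, h3⟩
    exact ⟨x, hx, h1⟩
  have hsub' : ∀ p : DT.A k X × DT.A k Y,
      (∃ x y, DT.R p.1 x ∧ DT.R p.2 y ∧ x ∈ s ∧ y ∈ s' ∧ F x y) →
        p.2 ∈ {a : DT.A k Y | ∃ x, DT.R a x ∧ x ∈ s'} := by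
    rintro p ⟨x, y, hx, hy, h1, h2, h3⟩
    exact ⟨y, hy, h2⟩
  have hg : Good k {p : DT.A k X × DT.A k Y |
      ∃ x y, DT.R p.1 x ∧ DT.R p.2 y ∧ x ∈ s ∧ y ∈ s' ∧ F x y}
      (fun p q => ∃ x y, DT.R p.1 x ∧ DT.R q.1 y ∧ r x y) :=
    { ds := hds
      dr := by
        have h1 := DP.comp hds (DF.fst (α := DT.A k X × DT.A k Y) (β := DT.A k X × DT.A k Y))
        have h2 := DP.comp hds (DF.snd (α := DT.A k X × DT.A k Y) (β := DT.A k X × DT.A k Y))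
        have h3 := DP.comp h.good.dr
          (f := fun p : (DT.A k X × DT.A k Y) × (DT.A k X × DT.A k Y) => (p.1.1, p.2.1))
          (DF.mk (DF.fst' DF.fst) (DF.fst' DF.snd))
        refine DP.congr (h1.and (h2.and h3)) ?_
        intro p
        constructor
        · rintro ⟨q1, q2, q3, q4, q5⟩
          exact ⟨q1, q2, q5⟩
        · rintro ⟨q1, q2, q3⟩
          exact ⟨q1, q2, hsub _ q1, hsub _ q2, q3⟩
      refl := fun p hp => h.good.refl _ (hsub p hp)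
      symm := fun p hp q hq hpq => h.good.symm _ (hsub p hp) _ (hsub q hq) hpq
      trans := fun p hp q hq t ht hpq hqt =>
        h.good.trans _ (hsub p hp) _ (hsub q hq) _ (hsub t ht) hpq hqt }
  have e1 := cls_map hg h.good (fun p => p.1) DF.fst hsub (fun p _ q _ => Iff.rfl) (by
    rintro a ⟨x, hx, hxs⟩
    obtain ⟨y, hys, hF1⟩ := left x hxs
    obtain ⟨b, hb⟩ := DT.sur (k := k) y
    exact ⟨(a, b), ⟨x, y, hx, hb, hxs, hys, hF1⟩, h.good.refl a ⟨x, hx, hxs⟩⟩)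
  have e2 := cls_map hg h'.good (fun p => p.2) DF.snd hsub' (by
    rintro p ⟨x, y, hx, hy, hxs, hys, hF1⟩ q ⟨x', y', hx', hy', hxs', hys', hF2⟩
    rw [dtm_rel hx hx', dtm_rel hy hy']
    exact iff x hxs y hys hF1 x' hxs' y' hys' hF2) (by
    rintro b ⟨y, hy, hys⟩
    obtain ⟨x, hxs, hF1⟩ := right y hys
    obtain ⟨a, ha⟩ := DT.sur (k := k) x
    exact ⟨(a, b), ⟨x, y, ha, hy, hxs, hys, hF1⟩, h'.good.refl b ⟨y, hy, hys⟩⟩)
  unfold clq
  rw [← e1, ← e2]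

/-- Comparison by a definable map which is onto up to equivalence. -/
theorem clq_map {s : Set X} {r : X → X → Prop} {s' : Set Y} {r' : Y → Y → Prop} (h : DQ k s r)
    (h' : DQ k s' r') (f : X → Y) (hf : DM k f) (maps : ∀ x ∈ s, f x ∈ s')
    (iff : ∀ x ∈ s, ∀ y ∈ s, (r x y ↔ r' (f x) (f y))) (surj : ∀ y ∈ s', ∃ x ∈ s, r' (f x) y) :
    clq k s r = clq k s' r' := by
  refine clq_corr h h' (fun x y => f x ∈ s' ∧ y ∈ s' ∧ r' (f x) y) ?_ ?_ ?_ ?_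
  · exact DM.comp h'.dr (f := fun p : X × Y => (f p.1, p.2))
      (DM.mk (DM.comp hf (DM.fst DM.id')) (DM.snd DM.id'))
  · intro x hx
    exact ⟨f x, maps x hx, maps x hx, maps x hx, h'.refl _ (maps x hx)⟩
  · intro y hy
    obtain ⟨x, hx, hxy⟩ := surj y hy
    exact ⟨x, hx, maps x hx, hy, hxy⟩
  · rintro x hx y hy ⟨q1, -, q2⟩ x' hx' y' hy' ⟨q3, -, q4⟩
    rw [iff x hx x' hx']
    constructor
    · intro q5
      exact h'.trans _ hy _ q1 _ hy' (h'.symm _ q1 _ hy q2) (h'.trans _ q1 _ q3 _ hy' q5 q4)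
    · intro q5
      exact h'.trans _ q1 _ hy _ q3 q2 (h'.trans _ hy _ hy' _ q3 q5 (h'.symm _ q3 _ hy' q4))

/-- Two generators with the same set and the same relation on it. -/
private theorem dtm_of_congr {n : ℕ} {s : Set (Fin n → k)} {r r' : (Fin n → k) → (Fin n → k) → Prop}
    (h : Good k s r) (h' : Good k s r') (hr : ∀ x ∈ s, ∀ y ∈ s, (r x y ↔ r' x y)) :
    MK.of k ⟨n, s, r, h⟩ = MK.of k ⟨n, s, r', h'⟩ := by
  show (QuotientAddGroup.mk (FreeAbelianGroup.of (⟨n, s, r, h⟩ : Gen k)) :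
    FreeAbelianGroup (Gen k) ⧸ AddSubgroup.closure {z | Rels k z}) =
      QuotientAddGroup.mk (FreeAbelianGroup.of (⟨n, s, r', h'⟩ : Gen k))
  rw [QuotientAddGroup.eq_iff_sub_mem]
  exact AddSubgroup.subset_closure (Rels.map n n s r s r' h h' (fun x => x) DF.id
    (fun _ hx => hx) hr (fun y hy => ⟨y, hy, h'.refl y hy⟩))

theorem clq_congr {s : Set X} {r r' : X → X → Prop} (hr : ∀ x ∈ s, ∀ y ∈ s, (r x y ↔ r' x y)) :
    clq k s r = clq k s r' := by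
  have key : ∀ a ∈ {a : DT.A k X | ∃ x, DT.R a x ∧ x ∈ s},
      ∀ b ∈ {a : DT.A k X | ∃ x, DT.R a x ∧ x ∈ s},
      ((∃ x y, DT.R a x ∧ DT.R b y ∧ r x y) ↔ (∃ x y, DT.R a x ∧ DT.R b y ∧ r' x y)) := by
    rintro a ⟨x, hx, hxs⟩ b ⟨y, hy, hys⟩
    rw [dtm_rel hx hy, dtm_rel hx hy]
    exact hr x hxs y hys
  unfold clq cls
  by_cases h : Good k {x : Fin (Amb.dim k (DT.A k X)) → k |
      (Amb.e (k := k) (α := DT.A k X)).symm x ∈ {a : DT.A k X | ∃ x, DT.R a x ∧ x ∈ s}}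
      (fun x y => (fun a b => ∃ x y, DT.R a x ∧ DT.R b y ∧ r x y)
        ((Amb.e (k := k) (α := DT.A k X)).symm x) ((Amb.e (k := k) (α := DT.A k X)).symm y))
  · have h2 := h.congr (r' := fun x y => (fun a b => ∃ x y, DT.R a x ∧ DT.R b y ∧ r' x y)
        ((Amb.e (k := k) (α := DT.A k X)).symm x) ((Amb.e (k := k) (α := DT.A k X)).symm y))
        (fun x hx y hy => key _ hx _ hy)
    rw [dif_pos h, dif_pos h2]
    exact dtm_of_congr h h2 (fun x hx y hy => key _ hx _ hy)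
  · have h2 : ¬ Good k {x : Fin (Amb.dim k (DT.A k X)) → k |
      (Amb.e (k := k) (α := DT.A k X)).symm x ∈ {a : DT.A k X | ∃ x, DT.R a x ∧ x ∈ s}}
      (fun x y => (fun a b => ∃ x y, DT.R a x ∧ DT.R b y ∧ r' x y)
        ((Amb.e (k := k) (α := DT.A k X)).symm x)
        ((Amb.e (k := k) (α := DT.A k X)).symm y)) := fun h3 =>
      h (h3.congr (fun x hx y hy => (key _ hx _ hy).symm))
    rw [dif_neg h, dif_neg h2]

theorem DQ.congr {s : Set X} {r r' : X → X → Prop} (h : DQ k s r)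
    (hr : ∀ x ∈ s, ∀ y ∈ s, (r x y ↔ r' x y)) : DQ k s r' where
  ds := h.ds
  dr := h.dr.congr_iff fun p =>
    ⟨fun hp => ⟨hp.1, hp.2.1, (hr _ hp.1 _ hp.2.1).1 hp.2.2⟩,
      fun hp => ⟨hp.1, hp.2.1, (hr _ hp.1 _ hp.2.1).2 hp.2.2⟩⟩
  refl := fun x hx => (hr x hx x hx).1 (h.refl x hx)
  symm := fun x hx y hy hxy => (hr y hy x hx).1 (h.symm x hx y hy ((hr x hx y hy).2 hxy))
  trans := fun x hx y hy z hz hxy hyz =>
    (hr x hx z hz).1 (h.trans x hx y hy z hz ((hr x hx y hy).2 hxy) ((hr y hy z hz).2 hyz))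

theorem DQ.inter {s t : Set X} {r : X → X → Prop} (h : DQ k s r) (ht : DM k (fun x => x ∈ t)) :
    DQ k (s ∩ t) r where
  ds := (h.ds.and ht).congr_iff fun _ => Iff.rfl
  dr := (h.dr.and ((DM.comp ht (f := fun p : X × X => p.1) (DM.fst DM.id')).and
      (DM.comp ht (f := fun p : X × X => p.2) (DM.snd DM.id')))).congr_iff fun p =>
    ⟨fun hp => ⟨⟨hp.1.1, hp.2.1⟩, ⟨hp.1.2.1, hp.2.2⟩, hp.1.2.2⟩,
      fun hp => ⟨⟨hp.1.1, hp.2.1.1, hp.2.2⟩, hp.1.2, hp.2.1.2⟩⟩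
  refl := fun x hx => h.refl x hx.1
  symm := fun x hx y hy => h.symm x hx.1 y hy.1
  trans := fun x hx y hy z hz => h.trans x hx.1 y hy.1 z hz.1

theorem DQ.diff {s t : Set X} {r : X → X → Prop} (h : DQ k s r) (ht : DM k (fun x => x ∈ t)) :
    DQ k (s \ t) r := by
  have h1 : s \ t = s ∩ tᶜ := rfl
  rw [h1]
  exact h.inter (ht.not.congr_iff fun _ => Iff.rfl)

theorem DQ.mono {s t : Set X} {r : X → X → Prop} (h : DQ k s r) (ht : DM k (fun x => x ∈ t))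
    (hts : t ⊆ s) : DQ k t r := by
  have h1 := h.inter ht
  rwa [Set.inter_eq_right.2 hts] at h1

theorem DQ.eq {s : Set X} (h : DM k (fun x => x ∈ s)) : DQ k s (fun x y => x = y) where
  ds := h
  dr := (DM.comp h (f := fun p : X × X => p.1) (DM.fst DM.id')).and
    ((DM.comp h (f := fun p : X × X => p.2) (DM.snd DM.id')).and
      (DM.eq (DM.fst DM.id') (DM.snd DM.id')))
  refl := fun _ _ => rfl
  symm := fun _ _ _ _ h => h.symm
  trans := fun _ _ _ _ _ _ h h' => h.trans h'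

/-- pull back of an equivalence relation under a definable map -/
theorem DQ.comap {s : Set X} {s' : Set Y} {r' : Y → Y → Prop} (hs : DM k (fun x => x ∈ s))
    (h' : DQ k s' r') (f : X → Y) (hf : DM k f) (maps : ∀ x ∈ s, f x ∈ s') :
    DQ k s (fun x y => r' (f x) (f y)) where
  ds := hs
  dr := by
    have h1 := DM.comp h'.dr (f := fun p : X × X => (f p.1, f p.2))
      (DM.mk (DM.comp hf (DM.fst DM.id')) (DM.comp hf (DM.snd DM.id')))
    refine ((DM.comp hs (f := fun p : X × X => p.1) (DM.fst DM.id')).and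
      ((DM.comp hs (f := fun p : X × X => p.2) (DM.snd DM.id')).and h1)).congr_iff fun p => ?_
    constructor
    · rintro ⟨q1, q2, q3, q4, q5⟩
      exact ⟨q1, q2, q5⟩
    · rintro ⟨q1, q2, q5⟩
      exact ⟨q1, q2, maps _ q1, maps _ q2, q5⟩
  refl := fun x hx => h'.refl _ (maps x hx)
  symm := fun x hx y hy hxy => h'.symm _ (maps x hx) _ (maps y hy) hxy
  trans := fun x hx y hy z hz hxy hyz => h'.trans _ (maps x hx) _ (maps y hy) _ (maps z hz) hxy hyz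

/-- Additivity. -/
theorem clq_split {s : Set X} {r : X → X → Prop} (h : DQ k s r) (t : Set X)
    (ht : DM k (fun x => x ∈ t)) (sat : ∀ x ∈ s, ∀ y ∈ s, r x y → x ∈ t → y ∈ t) :
    clq k s r = clq k (s ∩ t) r + clq k (s \ t) r := by
  have h1 := cls_split h.good {a : DT.A k X | ∃ x, DT.R a x ∧ x ∈ t} (DM_iff_DS.1 ht) (by
    rintro a ⟨x, hx, hxs⟩ b ⟨y, hy, hys⟩ hab hat
    rw [dtm_rel hx hy] at hab
    have hxt : x ∈ t := (dtm_mem hx).1 hat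
    exact ⟨y, hy, sat x hxs y hys hab hxt⟩)
  have e1 : {a : DT.A k X | ∃ x, DT.R a x ∧ x ∈ s} ∩ {a : DT.A k X | ∃ x, DT.R a x ∧ x ∈ t} =
      {a : DT.A k X | ∃ x, DT.R a x ∧ x ∈ s ∩ t} := by
    ext a
    constructor
    · rintro ⟨⟨x, hx, hxs⟩, hat⟩
      exact ⟨x, hx, hxs, (dtm_mem hx).1 hat⟩
    · rintro ⟨x, hx, hxs, hxt⟩
      exact ⟨⟨x, hx, hxs⟩, ⟨x, hx, hxt⟩⟩
  have e2 : {a : DT.A k X | ∃ x, DT.R a x ∧ x ∈ s} \ {a : DT.A k X | ∃ x, DT.R a x ∧ x ∈ t} =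
      {a : DT.A k X | ∃ x, DT.R a x ∧ x ∈ s \ t} := by
    ext a
    constructor
    · rintro ⟨⟨x, hx, hxs⟩, hat⟩
      exact ⟨x, hx, hxs, fun hxt => hat ⟨x, hx, hxt⟩⟩
    · rintro ⟨x, hx, hxs, hxt⟩
      exact ⟨⟨x, hx, hxs⟩, fun hat => hxt ((dtm_mem hx).1 hat)⟩
  rw [e1, e2] at h1
  exact h1

/-- Additivity for a disjoint union. -/
theorem clq_union {s t : Set X} {r : X → X → Prop} (h : DQ k (s ∪ t) r)
    (hs : DM k (fun x => x ∈ s)) (ht : DM k (fun x => x ∈ t)) (hd : ∀ x ∈ s, x ∉ t)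
    (sat : ∀ x ∈ s, ∀ y ∈ t, ¬ r x y) : clq k (s ∪ t) r = clq k s r + clq k t r := by
  have h1 := clq_split h s hs fun x _ y hy hxy hxs => by
    rcases hy with hy | hy
    · exact hy
    · exact absurd hxy (sat x hxs y hy)
  have h2 : (s ∪ t) ∩ s = s := Set.inter_eq_right.2 Set.subset_union_left
  have h3 : (s ∪ t) \ s = t := by
    ext x
    constructor
    · rintro ⟨hx | hx, hxs⟩
      · exact absurd hx hxs
      · exact hx
    · intro hx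
      exact ⟨Or.inr hx, fun hxs => hd x hxs hx⟩
  rw [h2, h3] at h1
  exact h1

theorem clq_empty (r : X → X → Prop) : clq k (∅ : Set X) r = 0 := by
  have e1 : {a : DT.A k X | ∃ x, DT.R a x ∧ x ∈ (∅ : Set X)} = ∅ := by
    ext a
    constructor
    · rintro ⟨x, -, hx⟩
      exact hx.elim
    · intro h
      exact h.elim
  unfold clq
  rw [e1]
  exact cls_empty _

/-- Finite additivity. -/
theorem clq_sum {ι : Type} (I : Finset ι) {s : Set X} {r : X → X → Prop} (h : DQ k s r)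
    (A : ι → Set X) (hA : ∀ i ∈ I, DM k (fun x => x ∈ A i)) (hc : ∀ x ∈ s, ∃ i ∈ I, x ∈ A i)
    (hd : ∀ i ∈ I, ∀ j ∈ I, ∀ x ∈ s, ∀ y ∈ s, r x y → x ∈ A i → y ∈ A j → i = j) :
    clq k s r = ∑ i ∈ I, clq k (s ∩ A i) r := by
  classical
  induction I using Finset.induction_on generalizing s with
  | empty =>
    have h1 : s = ∅ := by
      ext x
      constructor
      · intro hx
        obtain ⟨i, hi, -⟩ := hc x hx
        exact absurd hi (Finset.notMem_empty i)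
      · intro hx
        exact hx.elim
    rw [h1, clq_empty, Finset.sum_empty]
  | insert i I' hi ih =>
    have hAi := hA i (Finset.mem_insert_self i I')
    rw [Finset.sum_insert hi, clq_split h (A i) hAi fun x hx y hy hxy hxi => by
      obtain ⟨j, hj, hyj⟩ := hc y hy
      rw [hd i (Finset.mem_insert_self i I') j hj x hx y hy hxy hxi hyj]
      exact hyj]
    congr 1
    rw [ih (h.diff hAi) (fun j hj => hA j (Finset.mem_insert_of_mem hj)) ?_ ?_]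
    · apply Finset.sum_congr rfl
      intro j hj
      congr 1
      ext x
      constructor
      · rintro ⟨⟨hx, -⟩, hxj⟩
        exact ⟨hx, hxj⟩
      · rintro ⟨hx, hxj⟩
        refine ⟨⟨hx, fun hxi => hi ?_⟩, hxj⟩
        rw [hd i (Finset.mem_insert_self i I') j (Finset.mem_insert_of_mem hj) x hx x hx
          (h.refl x hx) hxi hxj]
        exact hj
    · rintro x ⟨hx, hxi⟩
      obtain ⟨j, hj, hxj⟩ := hc x hx
      rcases Finset.mem_insert.1 hj with rfl | hj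
      · exact absurd hxj hxi
      · exact ⟨j, hj, hxj⟩
    · intro j hj l hl x hx y hy
      exact hd j (Finset.mem_insert_of_mem hj) l (Finset.mem_insert_of_mem hl) x hx.1 y hy.1

/-- One class. -/
theorem clq_one_class {s : Set X} {r : X → X → Prop} (h : DQ k s r) (x : X) (hx : x ∈ s)
    (hr : ∀ y ∈ s, r x y) : clq k s r = cl k (Set.univ : Set Unit) := by
  have hg : DQ k (Set.univ : Set Unit) (fun x y => x = y) :=
    DQ.eq ((DM.const' True).congr_iff fun x => by simp)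
  refine clq_map h hg (fun _ => ()) (DM.const' ()) ?_ ?_ ?_
  · intro _ _
    trivial
  · intro y hy z hz
    exact ⟨fun _ => rfl, fun _ => h.trans y hy x hx z hz (h.symm x hx y hy (hr y hy)) (hr z hz)⟩
  · intro y _
    exact ⟨x, hx, rfl⟩

theorem cl_map {s : Set X} {s' : Set Y} (hs : DM k (fun x => x ∈ s)) (hs' : DM k (fun x => x ∈ s'))
    (f : X → Y) (hf : DM k f) (h : Set.BijOn f s s') : cl k s = cl k s' :=
  clq_map (DQ.eq hs) (DQ.eq hs') f hf h.mapsTo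
    (fun _ hx _ hy => (h.injOn.eq_iff hx hy).symm) fun _ hy => h.surjOn hy

theorem cl_union {s t : Set X} (hs : DM k (fun x => x ∈ s)) (ht : DM k (fun x => x ∈ t))
    (hd : Disjoint s t) : cl k (s ∪ t) = cl k s + cl k t :=
  clq_union (DQ.eq ((hs.or ht).congr_iff fun _ => Iff.rfl)) hs ht
    (fun _ hx hxt => Set.disjoint_left.1 hd hx hxt)
    fun x hx _ hy hxy => Set.disjoint_left.1 hd hx (hxy ▸ hy)

/-- For an ambient type the two notions of class agree (chart of `k`). -/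
theorem cl_k (s : Set k) (hs : DM k (fun x => x ∈ s)) : cl k s = scl k s := by
  have e1 : {a : k | ∃ x : k, x = a ∧ x ∈ s} = s := by
    ext a
    simp
  have e2 : (fun a b : k => ∃ x y : k, x = a ∧ y = b ∧ x = y) = (fun a b => a = b) := by
    funext a b
    simp
  show cls k {a : k | ∃ x : k, x = a ∧ x ∈ s} (fun a b : k => ∃ x y : k, x = a ∧ y = b ∧ x = y) =
    scl k s
  rw [e1, e2]
  rfl

/-- Multiplication by the affine line. -/
theorem X_smul_clq {s : Set X} {r : X → X → Prop} (h : DQ k s r) :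
    L • clq k s r = clq k (s ×ˢ (Set.univ : Set k)) (fun p q => r p.1 q.1 ∧ p.2 = q.2) := by
  have h1 := X_smul_cls h.good
  show (Polynomial.X : Polynomial ℤ) • cls k _ _ =
    cls k {a : DT.A k X × k | ∃ x : X × k, (DT.R a.1 x.1 ∧ x.2 = a.2) ∧
      x ∈ s ×ˢ (Set.univ : Set k)}
      (fun a b => ∃ x y : X × k, (DT.R a.1 x.1 ∧ x.2 = a.2) ∧ (DT.R b.1 y.1 ∧ y.2 = b.2) ∧
        (r x.1 y.1 ∧ x.2 = y.2))
  rw [h1]
  congr 1
  · ext ⟨a, c⟩
    constructor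
    · rintro ⟨⟨x, hx, hxs⟩, -⟩
      exact ⟨(x, c), ⟨hx, rfl⟩, hxs, trivial⟩
    · rintro ⟨⟨x, c'⟩, ⟨hx, -⟩, hxs, -⟩
      exact ⟨⟨x, hx, hxs⟩, trivial⟩
  · funext ⟨a, c⟩ ⟨b, d⟩
    apply propext
    constructor
    · rintro ⟨⟨x, y, hx, hy, hxy⟩, hcd⟩
      exact ⟨(x, c), (y, d), ⟨hx, rfl⟩, ⟨hy, rfl⟩, hxy, hcd⟩
    · rintro ⟨⟨x, c'⟩, ⟨y, d'⟩, ⟨hx, hc⟩, ⟨hy, hd⟩, hxy, hcd⟩
      exact ⟨⟨x, y, hx, hy, hxy⟩, hc.symm.trans (hcd.trans hd)⟩

theorem units_smul_clq {s : Set X} {r : X → X → Prop} (h : DQ k s r) :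
    (L - 1) • clq k s r =
      clq k (s ×ˢ (Set.univ : Set kˣ)) (fun p q => r p.1 q.1 ∧ p.2 = q.2) := by
  have h1 := cls_units h.good
  show (Polynomial.X - 1 : Polynomial ℤ) • cls k _ _ =
    cls k {a : DT.A k X × k | ∃ x : X × kˣ, (DT.R a.1 x.1 ∧ (x.2 : k) = a.2) ∧
      x ∈ s ×ˢ (Set.univ : Set kˣ)}
      (fun a b => ∃ x y : X × kˣ, (DT.R a.1 x.1 ∧ (x.2 : k) = a.2) ∧
        (DT.R b.1 y.1 ∧ (y.2 : k) = b.2) ∧ (r x.1 y.1 ∧ x.2 = y.2))
  rw [← h1]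
  have e1 : ({a : DT.A k X × k | ∃ x : X × kˣ, (DT.R a.1 x.1 ∧ (x.2 : k) = a.2) ∧
      x ∈ s ×ˢ (Set.univ : Set kˣ)}) =
      {a : DT.A k X | ∃ x, DT.R a x ∧ x ∈ s} ×ˢ {x : k | x ≠ 0} := by
    ext ⟨a, c⟩
    constructor
    · rintro ⟨⟨x, u⟩, ⟨hx, hu⟩, hxs, -⟩
      refine ⟨⟨x, hx, hxs⟩, ?_⟩
      have hu' : (u : k) = c := hu
      show c ≠ 0
      rw [← hu']
      exact u.ne_zero
    · rintro ⟨⟨x, hx, hxs⟩, hc⟩
      exact ⟨(x, Units.mk0 c hc), ⟨hx, rfl⟩, hxs, trivial⟩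
  rw [e1]
  have hg : Good k ({a : DT.A k X | ∃ x, DT.R a x ∧ x ∈ s} ×ˢ {x : k | x ≠ 0})
      (rprod k (fun a b : DT.A k X => ∃ x y, DT.R a x ∧ DT.R b y ∧ r x y)) := by
    have h2 := h.good.prodk
    refine h2.mono ?_ (Set.prod_mono_right (Set.subset_univ _))
    exact (DP.comp h.good.ds (DF.fst (α := DT.A k X) (β := k))).and
      (DP.not (DP.eq DF.snd (DF.const (0 : k))))
  refine cls_congr hg ?_
  rintro ⟨a, c⟩ ⟨-, hc⟩ ⟨b, d⟩ ⟨-, hd⟩
  constructor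
  · rintro ⟨⟨x, y, hx, hy, hxy⟩, hcd⟩
    refine ⟨(x, Units.mk0 c hc), (y, Units.mk0 d hd), ⟨hx, rfl⟩, ⟨hy, rfl⟩, hxy, ?_⟩
    exact Units.ext hcd
  · rintro ⟨⟨x, u⟩, ⟨y, v⟩, ⟨hx, hu⟩, ⟨hy, hv⟩, hxy, huv⟩
    have hu' : (u : k) = c := hu
    have hv' : (v : k) = d := hv
    have huv' : u = v := huv
    exact ⟨⟨x, y, hx, hy, hxy⟩, by rw [← hu', ← hv', huv']⟩

theorem X_pow_smul_clq {s : Set X} {r : X → X → Prop} (h : DQ k s r) (n : ℕ) :
    (L ^ n) • clq k s r =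
      clq k (s ×ˢ (Set.univ : Set (Fin n → k))) (fun p q => r p.1 q.1 ∧ p.2 = q.2) := by
  have h1 := X_pow_smul_cls h.good n
  show (Polynomial.X ^ n : Polynomial ℤ) • cls k _ _ =
    cls k {a : DT.A k X × (Fin n → k) | ∃ x : X × (Fin n → k),
      (DT.R a.1 x.1 ∧ ∀ i, x.2 i = a.2 i) ∧ x ∈ s ×ˢ (Set.univ : Set (Fin n → k))}
      (fun a b => ∃ x y : X × (Fin n → k), (DT.R a.1 x.1 ∧ ∀ i, x.2 i = a.2 i) ∧
        (DT.R b.1 y.1 ∧ ∀ i, y.2 i = b.2 i) ∧ (r x.1 y.1 ∧ x.2 = y.2))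
  rw [h1]
  congr 1
  · ext ⟨a, c⟩
    constructor
    · rintro ⟨⟨x, hx, hxs⟩, -⟩
      exact ⟨(x, c), ⟨hx, fun _ => rfl⟩, hxs, trivial⟩
    · rintro ⟨⟨x, c'⟩, ⟨hx, -⟩, hxs, -⟩
      exact ⟨⟨x, hx, hxs⟩, trivial⟩
  · funext ⟨a, c⟩ ⟨b, d⟩
    apply propext
    constructor
    · rintro ⟨⟨x, y, hx, hy, hxy⟩, hcd⟩
      exact ⟨(x, c), (y, d), ⟨hx, fun _ => rfl⟩, ⟨hy, fun _ => rfl⟩, hxy, hcd⟩
    · rintro ⟨⟨x, c'⟩, ⟨y, d'⟩, ⟨hx, hc⟩, ⟨hy, hd⟩, hxy, hcd⟩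
      exact ⟨⟨x, y, hx, hy, hxy⟩, (funext hc).symm.trans (hcd.trans (funext hd))⟩

/-- The product of a class with a definable set whose class is a polynomial times the point. -/
theorem clq_prod_of_cl {s : Set X} {r : X → X → Prop} (h : DQ k s r) {t : Set Y}
    (ht : DM k (fun y => y ∈ t)) :
    DQ k (s ×ˢ t) (fun p q => r p.1 q.1 ∧ p.2 = q.2) where
  ds := (DM.comp h.ds (f := fun p : X × Y => p.1) (DM.fst DM.id')).and
    (DM.comp ht (f := fun p : X × Y => p.2) (DM.snd DM.id'))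
  dr := by
    have h1 := DM.comp h.dr (f := fun p : (X × Y) × (X × Y) => (p.1.1, p.2.1)) (by fun_prop)
    have h2 := DM.comp ht (f := fun p : (X × Y) × (X × Y) => p.1.2) (by fun_prop)
    have h3 := DM.comp ht (f := fun p : (X × Y) × (X × Y) => p.2.2) (by fun_prop)
    have h4 : DM k (fun p : (X × Y) × (X × Y) => p.1.2 = p.2.2) := by fun_prop
    refine (h1.and (h2.and (h3.and h4))).congr_iff ?_
    rintro ⟨⟨x, y⟩, ⟨x', y'⟩⟩
    simp only [Set.mem_prod]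
    tauto
  refl := by
    rintro ⟨x, y⟩ ⟨hx, hy⟩
    exact ⟨h.refl x hx, rfl⟩
  symm := by
    rintro ⟨x, y⟩ ⟨hx, hy⟩ ⟨x', y'⟩ ⟨hx', hy'⟩ ⟨h1, h2⟩
    exact ⟨h.symm x hx x' hx' h1, h2.symm⟩
  trans := by
    rintro ⟨x, y⟩ ⟨hx, hy⟩ ⟨x', y'⟩ ⟨hx', hy'⟩ ⟨x'', y''⟩ ⟨hx'', hy''⟩ ⟨h1, h2⟩ ⟨h3, h4⟩
    exact ⟨h.trans x hx x' hx' x'' hx'' h1 h3, h2.trans h4⟩

end

end Pool.Agent.MRat
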