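import Pool.Agent.Lib.MP_923aff_ag.DTm
/-!
# JOB DTN: `G_m` lemma, line lemma, affine line lemma, Hilbert 90, for definable types
-/

set_option autoImplicit false

namespace Pool.Agent.MRat

open scoped MatrixGroups LinearAlgebra.Projectivization

/-- A definable action of a definable group. -/
class DAct (k G X : Type) [Field k] [IsAlgClosed k] [CharZero k] [Group G] [DT k G] [DT k X]
    [MulAction G X] : Prop where
  dm : DM k (fun p : G × X => p.1 • p.2)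

/-- Definable group (multiplication and inversion are definable). -/
class DGrp (k G : Type) [Field k] [IsAlgClosed k] [CharZero k] [Group G] [DT k G] : Prop where
  dmul : DM k (fun p : G × G => p.1 * p.2)
  dinv : DM k (fun p : G => p⁻¹)

section
variable {k : Type} [Field k] [IsAlgClosed k] [CharZero k]
variable {X Y Z W : Type} [DT k X] [DT k Y] [DT k Z] [DT k W]
variable {G : Type} [Group G] [DT k G]

@[fun_prop]
theorem DM.smul [MulAction G X] [DAct k G X] {f : Z → G} {g : Z → X} (hf : DM k f)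
    (hg : DM k g) : DM k (fun z => f z • g z) :=
  DM.comp (DAct.dm (k := k) (G := G) (X := X)) (hf.mk hg)

/-- The orbit relation. -/
def orel (G : Type) [Group G] {X : Type} [MulAction G X] : X → X → Prop :=
  fun x y => ∃ g : G, g • x = y

/-- A stable definable set. -/
structure GSet (k G : Type) [Field k] [IsAlgClosed k] [CharZero k] [Group G] {X : Type} [DT k X]
    [MulAction G X] (s : Set X) : Prop where
  ds : DM k (fun x => x ∈ s)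
  st : ∀ (g : G), ∀ x ∈ s, g • x ∈ s

/-- The class of `s / G`. -/
noncomputable def orb (k G : Type) [Field k] [Group G] {X : Type} [DT k X] [MulAction G X]
    (s : Set X) : MK k := clq k s (orel G)

theorem GSet.dq [MulAction G X] [DAct k G X] {s : Set X} (h : GSet k G s) : DQ k s (orel G) where
  ds := h.ds
  dr := by
    have hs := h.ds
    have h1 : DM k (fun p : X × X => ∃ g : G, g • p.1 = p.2) := by fun_prop
    exact DM.and (by fun_prop) (DM.and (by fun_prop) h1)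
  refl := fun x _ => ⟨1, one_smul _ _⟩
  symm := by
    rintro x _ y _ ⟨g, rfl⟩
    exact ⟨g⁻¹, inv_smul_smul _ _⟩
  trans := by
    rintro x _ y _ z _ ⟨g, rfl⟩ ⟨g', rfl⟩
    exact ⟨g' * g, mul_smul _ _ _⟩

/-- A system of multipliers: `R x y c` means that some arrow `x → y` multiplies by `c`. -/
structure DMult (k : Type) [Field k] [IsAlgClosed k] [CharZero k] {X : Type} [DT k X] (s : Set X)
    (R : X → X → kˣ → Prop) : Prop where
  ds : DM k (fun x => x ∈ s)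
  dR : DM k (fun p : X × X × kˣ => p.1 ∈ s ∧ p.2.1 ∈ s ∧ R p.1 p.2.1 p.2.2)
  one : ∀ x ∈ s, R x x 1
  inv : ∀ x ∈ s, ∀ y ∈ s, ∀ c, R x y c → R y x c⁻¹
  comp : ∀ x ∈ s, ∀ y ∈ s, ∀ z ∈ s, ∀ c c', R x y c → R y z c' → R x z (c' * c)
  fin : ∀ x ∈ s, {c | R x x c}.Finite


/-- The relation on the chart. -/
private def DTN_ch (k : Type) [Field k] {X : Type} [DT k X]
    (R : X → X → kˣ → Prop) : DT.A k X → DT.A k X → k → Prop :=
  fun a b c => ∃ x y, DT.R a x ∧ DT.R b y ∧ ∃ u : kˣ, (u : k) = c ∧ R x y u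

private theorem DTN_Mult {s : Set X} {R : X → X → kˣ → Prop} (h : DMult k s R) :
    Mult k {a : DT.A k X | ∃ x, DT.R a x ∧ x ∈ s} (DTN_ch k R) where
  ds := DM_iff_DS.1 h.ds
  dR := by
    refine DP.congr (DM_iff_DS.1 h.dR) ?_
    rintro ⟨a, b, c⟩
    constructor
    · rintro ⟨⟨x, y, u⟩, ⟨hx, hy, hu⟩, hxs, hys, hR⟩
      exact ⟨⟨x, hx, hxs⟩, ⟨y, hy, hys⟩, x, y, hx, hy, u, hu, hR⟩
    · rintro ⟨⟨x, hx, hxs⟩, ⟨y, hy, hys⟩, x', y', hx', hy', u, hu, hR⟩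
      have e1 := DT.fn _ _ _ hx hx'
      have e2 := DT.fn _ _ _ hy hy'
      subst e1 e2
      exact ⟨(x, y, u), ⟨hx, hy, hu⟩, hxs, hys, hR⟩
  ne := by
    rintro a _ b _ c ⟨x, y, _, _, u, rfl, _⟩
    exact u.ne_zero
  one := by
    rintro a ⟨x, hx, hxs⟩
    exact ⟨x, x, hx, hx, 1, rfl, h.one x hxs⟩
  inv := by
    rintro a ⟨x, hx, hxs⟩ b ⟨y, hy, hys⟩ c ⟨x', y', hx', hy', u, rfl, hR⟩
    have e1 := DT.fn _ _ _ hx hx'
    have e2 := DT.fn _ _ _ hy hy'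
    subst e1 e2
    exact ⟨y, x, hy, hx, u⁻¹, by simp, h.inv x hxs y hys u hR⟩
  comp := by
    rintro a ⟨x, hx, hxs⟩ b ⟨y, hy, hys⟩ c ⟨z, hz, hzs⟩ d d' ⟨x', y', hx', hy', u, rfl, hR⟩
      ⟨y'', z', hy'', hz', u', rfl, hR'⟩
    have e1 := DT.fn _ _ _ hx hx'
    have e2 := DT.fn _ _ _ hy hy'
    have e3 := DT.fn _ _ _ hy hy''
    have e4 := DT.fn _ _ _ hz hz'
    subst e1 e2 e3 e4
    exact ⟨x, z, hx, hz, u' * u, by simp, h.comp x hxs y hys z hzs u u' hR hR'⟩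
  fin := by
    rintro a ⟨x, hx, hxs⟩
    refine ((h.fin x hxs).image (fun u : kˣ => (u : k))).subset ?_
    rintro c ⟨x', y', hx', hy', u, rfl, hR⟩
    have e1 := DT.fn _ _ _ hx hx'
    have e2 := DT.fn _ _ _ hx hy'
    subst e1 e2
    exact ⟨u, hR, rfl⟩

omit [IsAlgClosed k] [CharZero k] in
private theorem DTN_base {s : Set X} {R : X → X → kˣ → Prop} :
    clq k s (fun x y => ∃ c, R x y c) =
      cls k {a : DT.A k X | ∃ x, DT.R a x ∧ x ∈ s} (fun a b => ∃ c, DTN_ch k R a b c) := by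
  unfold clq
  congr 1
  funext a b
  refine propext ⟨?_, ?_⟩
  · rintro ⟨x, y, hx, hy, u, hR⟩
    exact ⟨u, x, y, hx, hy, u, rfl, hR⟩
  · rintro ⟨c, x, y, hx, hy, u, _, hR⟩
    exact ⟨x, y, hx, hy, u, hR⟩

private theorem DTN_DQ {s : Set X} {R : X → X → kˣ → Prop} (h : DMult k s R) :
    DQ k s (fun x y => ∃ c, R x y c) where
  ds := h.ds
  dr := by
    have h1 : DM k (fun q : (X × X) × kˣ => q.1.1 ∈ s ∧ q.1.2 ∈ s ∧ R q.1.1 q.1.2 q.2) :=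
      DM.comp h.dR (by fun_prop : DM k (fun q : (X × X) × kˣ => (q.1.1, q.1.2, q.2)))
    refine (DM.ex (P := fun (p : X × X) (c : kˣ) => p.1 ∈ s ∧ p.2 ∈ s ∧ R p.1 p.2 c) h1).congr_iff ?_
    intro p
    constructor
    · rintro ⟨c, h1, h2, h3⟩
      exact ⟨h1, h2, c, h3⟩
    · rintro ⟨h1, h2, c, h3⟩
      exact ⟨c, h1, h2, h3⟩
  refl := fun x hx => ⟨1, h.one x hx⟩
  symm := fun x hx y hy ⟨c, hc⟩ => ⟨c⁻¹, h.inv x hx y hy c hc⟩
  trans := fun x hx y hy z hz ⟨c, hc⟩ ⟨c', hc'⟩ => ⟨c' * c, h.comp x hx y hy z hz c c' hc hc'⟩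

private theorem DTN_DQ_line {s : Set X} {R : X → X → kˣ → Prop} (h : DMult k s R) :
    DQ k (s ×ˢ (Set.univ : Set k)) (fun p q => ∃ c : kˣ, R p.1 q.1 c ∧ q.2 = c * p.2) where
  ds := by
    have hs := h.ds
    exact (DM.comp hs (by fun_prop : DM k (fun p : X × k => p.1))).congr_iff (fun p => by simp)
  dr := by
    have h1 : DM k (fun q : ((X × k) × (X × k)) × kˣ => q.1.1.1 ∈ s ∧ q.1.2.1 ∈ s ∧
        R q.1.1.1 q.1.2.1 q.2) :=
      DM.comp h.dR (by fun_prop :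
        DM k (fun q : ((X × k) × (X × k)) × kˣ => (q.1.1.1, q.1.2.1, q.2)))
    have h2 : DM k (fun q : ((X × k) × (X × k)) × kˣ => q.1.2.2 = (q.2 : k) * q.1.1.2) := by
      fun_prop
    refine (DM.ex (P := fun (p : (X × k) × (X × k)) (c : kˣ) => (p.1.1 ∈ s ∧ p.2.1 ∈ s ∧
      R p.1.1 p.2.1 c) ∧ p.2.2 = (c : k) * p.1.2) (h1.and h2)).congr_iff ?_
    intro p
    constructor
    · rintro ⟨c, ⟨h1, h2, h3⟩, h4⟩
      exact ⟨⟨h1, trivial⟩, ⟨h2, trivial⟩, c, h3, h4⟩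
    · rintro ⟨⟨h1, -⟩, ⟨h2, -⟩, c, h3, h4⟩
      exact ⟨c, ⟨h1, h2, h3⟩, h4⟩
  refl := fun x hx => ⟨1, h.one x.1 hx.1, by simp⟩
  symm := by
    rintro x hx y hy ⟨c, hc, he⟩
    refine ⟨c⁻¹, h.inv _ hx.1 _ hy.1 _ hc, ?_⟩
    rw [he]
    simp
  trans := by
    rintro x hx y hy z hz ⟨c, hc, he⟩ ⟨c', hc', he'⟩
    refine ⟨c' * c, h.comp _ hx.1 _ hy.1 _ hz.1 _ _ hc hc', ?_⟩
    rw [he', he, Units.val_mul, mul_assoc]

private theorem DTN_DQ_units {s : Set X} {R : X → X → kˣ → Prop} (h : DMult k s R) :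
    DQ k (s ×ˢ (Set.univ : Set kˣ)) (fun p q => ∃ c : kˣ, R p.1 q.1 c ∧ q.2 = c * p.2) where
  ds := by
    have hs := h.ds
    exact (DM.comp hs (by fun_prop : DM k (fun p : X × kˣ => p.1))).congr_iff (fun p => by simp)
  dr := by
    have h1 : DM k (fun q : ((X × kˣ) × (X × kˣ)) × kˣ => q.1.1.1 ∈ s ∧ q.1.2.1 ∈ s ∧
        R q.1.1.1 q.1.2.1 q.2) :=
      DM.comp h.dR (by fun_prop :
        DM k (fun q : ((X × kˣ) × (X × kˣ)) × kˣ => (q.1.1.1, q.1.2.1, q.2)))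
    have h2 : DM k (fun q : ((X × kˣ) × (X × kˣ)) × kˣ => q.1.2.2 = q.2 * q.1.1.2) := by
      fun_prop
    refine (DM.ex (P := fun (p : (X × kˣ) × (X × kˣ)) (c : kˣ) => (p.1.1 ∈ s ∧ p.2.1 ∈ s ∧
      R p.1.1 p.2.1 c) ∧ p.2.2 = c * p.1.2) (h1.and h2)).congr_iff ?_
    intro p
    constructor
    · rintro ⟨c, ⟨h1, h2, h3⟩, h4⟩
      exact ⟨⟨h1, trivial⟩, ⟨h2, trivial⟩, c, h3, h4⟩
    · rintro ⟨⟨h1, -⟩, ⟨h2, -⟩, c, h3, h4⟩
      exact ⟨c, ⟨h1, h2, h3⟩, h4⟩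
  refl := fun x hx => ⟨1, h.one x.1 hx.1, by simp⟩
  symm := by
    rintro x hx y hy ⟨c, hc, he⟩
    refine ⟨c⁻¹, h.inv _ hx.1 _ hy.1 _ hc, ?_⟩
    rw [he]
    simp
  trans := by
    rintro x hx y hy z hz ⟨c, hc, he⟩ ⟨c', hc', he'⟩
    refine ⟨c' * c, h.comp _ hx.1 _ hy.1 _ hz.1 _ _ hc hc', ?_⟩
    rw [he', he, mul_assoc]

/-- The line lemma. -/
theorem line_DT {s : Set X} {R : X → X → kˣ → Prop} (h : DMult k s R) :
    DQ k s (fun x y => ∃ c, R x y c) ∧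
    DQ k (s ×ˢ (Set.univ : Set k)) (fun p q => ∃ c : kˣ, R p.1 q.1 c ∧ q.2 = c * p.2) ∧
    clq k (s ×ˢ (Set.univ : Set k)) (fun p q => ∃ c : kˣ, R p.1 q.1 c ∧ q.2 = c * p.2) =
      L • clq k s (fun x y => ∃ c, R x y c) := by
  refine ⟨DTN_DQ h, DTN_DQ_line h, ?_⟩
  have h1 := line_lemma (DTN_Mult h)
  have h2 : clq k (s ×ˢ (Set.univ : Set k))
      (fun p q => ∃ c : kˣ, R p.1 q.1 c ∧ q.2 = c * p.2) =
      cls k ({a : DT.A k X | ∃ x, DT.R a x ∧ x ∈ s} ×ˢ (Set.univ : Set k))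
        (lrel k (DTN_ch k R)) := by
    unfold clq
    have e1 : {a : DT.A k (X × k) | ∃ x, DT.R a x ∧ x ∈ s ×ˢ (Set.univ : Set k)} =
        ({a : DT.A k X | ∃ x, DT.R a x ∧ x ∈ s} ×ˢ (Set.univ : Set k)) := by
      ext ⟨a, v⟩
      constructor
      · rintro ⟨⟨x, w⟩, ⟨hx, hv⟩, hxs, -⟩
        exact ⟨⟨x, hx, hxs⟩, trivial⟩
      · rintro ⟨⟨x, hx, hxs⟩, -⟩
        exact ⟨(x, v), ⟨hx, rfl⟩, hxs, trivial⟩
    have e2 : (fun a b : DT.A k (X × k) => ∃ x y, DT.R a x ∧ DT.R b y ∧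
        ∃ c : kˣ, R x.1 y.1 c ∧ y.2 = c * x.2) = lrel k (DTN_ch k R) := by
      funext a b
      obtain ⟨a, v⟩ := a
      obtain ⟨b, w⟩ := b
      refine propext ⟨?_, ?_⟩
      · rintro ⟨⟨x, v'⟩, ⟨y, w'⟩, ⟨hx, hv⟩, ⟨hy, hw⟩, u, hR, hu⟩
        have hv' : v' = v := hv
        have hw' : w' = w := hw
        subst hv' hw'
        exact ⟨u, ⟨x, y, hx, hy, u, rfl, hR⟩, hu⟩
      · rintro ⟨c, ⟨x, y, hx, hy, u, rfl, hR⟩, hu⟩
        exact ⟨(x, v), (y, w), ⟨hx, rfl⟩, ⟨hy, rfl⟩, u, hR, hu⟩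
    exact congrArg₂ (fun S r => cls k S r) e1 e2
  rw [h2, h1, DTN_base (R := R)]

/-- The line lemma without zero section. -/
theorem line_DT_units {s : Set X} {R : X → X → kˣ → Prop} (h : DMult k s R) :
    DQ k (s ×ˢ (Set.univ : Set kˣ)) (fun p q => ∃ c : kˣ, R p.1 q.1 c ∧ q.2 = c * p.2) ∧
    clq k (s ×ˢ (Set.univ : Set kˣ)) (fun p q => ∃ c : kˣ, R p.1 q.1 c ∧ q.2 = c * p.2) =
      (L - 1) • clq k s (fun x y => ∃ c, R x y c) := by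
  refine ⟨DTN_DQ_units h, ?_⟩
  have h1 := line_lemma_units (DTN_Mult h)
  have h2 : clq k (s ×ˢ (Set.univ : Set kˣ))
      (fun p q => ∃ c : kˣ, R p.1 q.1 c ∧ q.2 = c * p.2) =
      cls k ({a : DT.A k X | ∃ x, DT.R a x ∧ x ∈ s} ×ˢ {v : k | v ≠ 0})
        (lrel k (DTN_ch k R)) := by
    have hg := (DTN_DQ_units h).good
    unfold clq
    have e1 : {a : DT.A k (X × kˣ) | ∃ x, DT.R a x ∧ x ∈ s ×ˢ (Set.univ : Set kˣ)} =
        ({a : DT.A k X | ∃ x, DT.R a x ∧ x ∈ s} ×ˢ {v : k | v ≠ 0}) := by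
      ext ⟨a, v⟩
      constructor
      · rintro ⟨⟨x, w⟩, ⟨hx, hv⟩, hxs, -⟩
        have hv' : (w : k) = v := hv
        exact ⟨⟨x, hx, hxs⟩, fun h0 => w.ne_zero (hv'.trans h0)⟩
      · rintro ⟨⟨x, hx, hxs⟩, hv⟩
        exact ⟨(x, Units.mk0 v hv), ⟨hx, rfl⟩, hxs, trivial⟩
    refine (cls_congr hg ?_).trans (congrArg (fun S => cls k S (lrel k (DTN_ch k R))) e1)
    rintro ⟨a, v⟩ ⟨⟨x, v0⟩, ⟨hx, hv⟩, hxs, -⟩ ⟨b, w⟩ ⟨⟨y, w0⟩, ⟨hy, hw⟩, hys, -⟩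
    have hv' : (v0 : k) = v := hv
    have hw' : (w0 : k) = w := hw
    constructor
    · rintro ⟨⟨x', v1⟩, ⟨y', w1⟩, ⟨hx', hv1⟩, ⟨hy', hw1⟩, u, hR, hu⟩
      have hv1' : (v1 : k) = v := hv1
      have hw1' : (w1 : k) = w := hw1
      have hu' : w1 = u * v1 := hu
      refine ⟨u, ⟨x', y', hx', hy', u, rfl, hR⟩, ?_⟩
      show w = u * v
      rw [← hw1', ← hv1', hu', Units.val_mul]
    · rintro ⟨c, ⟨x', y', hx', hy', u, rfl, hR⟩, hu⟩
      have hu' : w = (u : k) * v := hu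
      refine ⟨(x', v0), (y', w0), ⟨hx', hv⟩, ⟨hy', hw⟩, u, hR, ?_⟩
      ext
      rw [hw', hu', Units.val_mul, hv']
  rw [h2, h1, DTN_base (R := R)]

/-- The `G_m` lemma: an action of `kˣ` on `s / r` with finite stabilisers. -/
theorem gm_lemma {s : Set X} {r : X → X → Prop} (h : DQ k s r) (a : kˣ → X → X)
    (da : DM k (fun p : kˣ × X => a p.1 p.2)) (a_mem : ∀ c, ∀ x ∈ s, a c x ∈ s)
    (a_one : ∀ x ∈ s, r (a 1 x) x) (a_mul : ∀ b c, ∀ x ∈ s, r (a (b * c) x) (a b (a c x)))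
    (a_r : ∀ c, ∀ x ∈ s, ∀ y ∈ s, r x y → r (a c x) (a c y))
    (fin : ∀ x ∈ s, {c : kˣ | r (a c x) x}.Finite) :
    DQ k s (fun x y => ∃ c : kˣ, r (a c x) y) ∧
    clq k s r = (L - 1) • clq k s (fun x y => ∃ c : kˣ, r (a c x) y) := by
  have hM : DMult k s (fun x y c => r (a c x) y) := by
    refine ⟨h.ds, ?_, a_one, ?_, ?_, ?_⟩
    · have hs := h.ds
      have h1 : DM k (fun p : X × X × kˣ => a p.2.2 p.1 ∈ s ∧ p.2.1 ∈ s ∧ r (a p.2.2 p.1) p.2.1) := by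
        have h2 : DM k (fun p : X × X × kˣ => a p.2.2 p.1) :=
          DM.comp da (by fun_prop : DM k (fun p : X × X × kˣ => (p.2.2, p.1)))
        exact DM.comp h.dr (DM.mk h2 (by fun_prop))
      have h3 : DM k (fun p : X × X × kˣ => p.1 ∈ s) := by fun_prop
      refine (h3.and h1).congr_iff ?_
      rintro ⟨x, y, c⟩
      constructor
      · rintro ⟨h1, _, h2, h3⟩
        exact ⟨h1, h2, h3⟩
      · rintro ⟨h1, h2, h3⟩
        exact ⟨h1, a_mem c x h1, h2, h3⟩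
    · intro x hx y hy c hc
      have hcx := a_mem c x hx
      have hcy := a_mem c⁻¹ y hy
      have hccx := a_mem c⁻¹ _ hcx
      have h1 := a_r c⁻¹ _ hcx y hy hc
      have h2 := a_mul c⁻¹ c x hx
      rw [inv_mul_cancel] at h2
      have h1x := a_mem 1 x hx
      have h3 := h.trans _ h1x _ hccx _ hcy h2 h1
      have h4 := h.symm _ h1x _ hx (a_one x hx)
      exact h.symm _ hx _ hcy (h.trans _ hx _ h1x _ hcy h4 h3)
    · intro x hx y hy z hz c c' hc hc'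
      have hcx := a_mem c x hx
      have hcy := a_mem c' y hy
      have hccx := a_mem c' _ hcx
      have h1 := a_r c' _ hcx y hy hc
      have h2 := a_mul c' c x hx
      have h12 := a_mem (c' * c) x hx
      exact h.trans _ h12 _ hccx _ hz h2 (h.trans _ hccx _ hcy _ hz h1 hc')
    · exact fin
  obtain ⟨h1, h2⟩ := line_DT_units hM
  refine ⟨DTN_DQ hM, ?_⟩
  rw [← h2]
  symm
  refine clq_map h1 h (fun p => a p.2⁻¹ p.1) ?_ ?_ ?_ ?_
  · exact DM.comp da (by fun_prop : DM k (fun p : X × kˣ => (p.2⁻¹, p.1)))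
  · rintro ⟨x, v⟩ ⟨hx, -⟩
    exact a_mem _ x hx
  · rintro ⟨x, v⟩ ⟨hx, -⟩ ⟨y, w⟩ ⟨hy, -⟩
    have hx' : x ∈ s := hx
    have hy' : y ∈ s := hy
    show (∃ c : kˣ, r (a c x) y ∧ w = c * v) ↔ r (a v⁻¹ x) (a w⁻¹ y)
    constructor
    · rintro ⟨c, hc, rfl⟩
      have hcx := a_mem c x hx'
      have hv := a_mem v⁻¹ x hx'
      have hw := a_mem (c * v)⁻¹ y hy'
      have hww := a_mem (c * v)⁻¹ _ hcx
      have h3 := a_r (c * v)⁻¹ _ hcx y hy' hc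
      have h4 := a_mul (c * v)⁻¹ c x hx'
      have e : (c * v)⁻¹ * c = v⁻¹ := by
        rw [mul_inv_rev, mul_assoc, inv_mul_cancel, mul_one]
      rw [e] at h4
      exact h.trans _ hv _ hww _ hw h4 h3
    · intro h3
      refine ⟨w * v⁻¹, ?_, by simp⟩
      have hv := a_mem v⁻¹ x hx'
      have hw := a_mem w⁻¹ y hy'
      have hwv := a_mem w _ hv
      have hww := a_mem w _ hw
      have h4 := a_r w _ hv _ hw h3
      have h5 := a_mul w v⁻¹ x hx'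
      have h6 := a_mul w w⁻¹ y hy'
      rw [mul_inv_cancel] at h6
      have h1y := a_mem 1 y hy'
      have hmx := a_mem (w * v⁻¹) x hx'
      have h7 := h.trans _ hww _ h1y _ hy' (h.symm _ h1y _ hww h6) (a_one y hy')
      exact h.trans _ hmx _ hwv _ hy' h5 (h.trans _ hwv _ hww _ hy' h4 h7)
  · intro y hy
    refine ⟨(y, 1), ⟨hy, trivial⟩, ?_⟩
    show r (a 1⁻¹ y) y
    rw [inv_one]
    exact a_one y hy

/-- Affine multipliers: `R x y c b` means that some arrow `x → y` acts by `v ↦ c v + b`. -/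
structure DAff (k : Type) [Field k] [IsAlgClosed k] [CharZero k] {X : Type} [DT k X] (s : Set X)
    (R : X → X → kˣ → k → Prop) : Prop where
  ds : DM k (fun x => x ∈ s)
  dR : DM k (fun p : X × X × kˣ × k => p.1 ∈ s ∧ p.2.1 ∈ s ∧ R p.1 p.2.1 p.2.2.1 p.2.2.2)
  one : ∀ x ∈ s, R x x 1 0
  inv : ∀ x ∈ s, ∀ y ∈ s, ∀ c b, R x y c b → R y x c⁻¹ (-((c⁻¹ : kˣ) * b))
  comp : ∀ x ∈ s, ∀ y ∈ s, ∀ z ∈ s, ∀ c b c' b', R x y c b → R y z c' b' →
    R x z (c' * c) (c' * b + b')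
  fin : ∀ x ∈ s, {p : kˣ × k | R x x p.1 p.2}.Finite

/-- The affine relation on the chart. -/
private def DTN_cha (k : Type) [Field k] {X : Type} [DT k X]
    (R : X → X → kˣ → k → Prop) : DT.A k X → DT.A k X → k → k → Prop :=
  fun a b c d => ∃ x y, DT.R a x ∧ DT.R b y ∧ ∃ u : kˣ, (u : k) = c ∧ R x y u d

private theorem DTN_Aff {s : Set X} {R : X → X → kˣ → k → Prop} (h : DAff k s R) :
    Aff k {a : DT.A k X | ∃ x, DT.R a x ∧ x ∈ s} (DTN_cha k R) where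
  ds := DM_iff_DS.1 h.ds
  dR := by
    refine DP.congr (DM_iff_DS.1 h.dR) ?_
    rintro ⟨a, b, c, d⟩
    constructor
    · rintro ⟨⟨x, y, u, d'⟩, ⟨hx, hy, hu, hd⟩, hxs, hys, hR⟩
      have hd' : d' = d := hd
      subst hd'
      exact ⟨⟨x, hx, hxs⟩, ⟨y, hy, hys⟩, x, y, hx, hy, u, hu, hR⟩
    · rintro ⟨⟨x, hx, hxs⟩, ⟨y, hy, hys⟩, x', y', hx', hy', u, hu, hR⟩
      have e1 := DT.fn _ _ _ hx hx'
      have e2 := DT.fn _ _ _ hy hy'
      subst e1 e2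
      exact ⟨(x, y, u, d), ⟨hx, hy, hu, rfl⟩, hxs, hys, hR⟩
  ne := by
    rintro a _ b _ c d ⟨x, y, _, _, u, rfl, _⟩
    exact u.ne_zero
  one := by
    rintro a ⟨x, hx, hxs⟩
    exact ⟨x, x, hx, hx, 1, rfl, h.one x hxs⟩
  inv := by
    rintro a ⟨x, hx, hxs⟩ b ⟨y, hy, hys⟩ c d ⟨x', y', hx', hy', u, rfl, hR⟩
    have e1 := DT.fn _ _ _ hx hx'
    have e2 := DT.fn _ _ _ hy hy'
    subst e1 e2
    refine ⟨y, x, hy, hx, u⁻¹, by simp, ?_⟩
    have := h.inv x hxs y hys u d hR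
    rw [← Units.val_inv_eq_inv_val]
    exact this
  comp := by
    rintro a ⟨x, hx, hxs⟩ b ⟨y, hy, hys⟩ c ⟨z, hz, hzs⟩ d e d' e' ⟨x', y', hx', hy', u, rfl, hR⟩
      ⟨y'', z', hy'', hz', u', rfl, hR'⟩
    have e1 := DT.fn _ _ _ hx hx'
    have e2 := DT.fn _ _ _ hy hy'
    have e3 := DT.fn _ _ _ hy hy''
    have e4 := DT.fn _ _ _ hz hz'
    subst e1 e2 e3 e4
    exact ⟨x, z, hx, hz, u' * u, by simp, h.comp x hxs y hys z hzs u e u' e' hR hR'⟩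
  fin := by
    rintro a ⟨x, hx, hxs⟩
    refine ((h.fin x hxs).image (fun u : kˣ × k => ((u.1 : k), u.2))).subset ?_
    rintro ⟨c, d⟩ ⟨x', y', hx', hy', u, hu, hR⟩
    have e1 := DT.fn _ _ _ hx hx'
    have e2 := DT.fn _ _ _ hx hy'
    subst e1 e2
    exact ⟨(u, d), hR, Prod.ext hu rfl⟩

private theorem DTN_DQa {s : Set X} {R : X → X → kˣ → k → Prop} (h : DAff k s R) :
    DQ k s (fun x y => ∃ c b, R x y c b) where
  ds := h.ds
  dr := by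
    have h1 : DM k (fun q : (X × X) × (kˣ × k) => q.1.1 ∈ s ∧ q.1.2 ∈ s ∧
        R q.1.1 q.1.2 q.2.1 q.2.2) :=
      DM.comp h.dR (by fun_prop :
        DM k (fun q : (X × X) × (kˣ × k) => (q.1.1, q.1.2, q.2.1, q.2.2)))
    refine (DM.ex (P := fun (p : X × X) (c : kˣ × k) => p.1 ∈ s ∧ p.2 ∈ s ∧
      R p.1 p.2 c.1 c.2) h1).congr_iff ?_
    intro p
    constructor
    · rintro ⟨c, h1, h2, h3⟩
      exact ⟨h1, h2, c.1, c.2, h3⟩
    · rintro ⟨h1, h2, c, b, h3⟩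
      exact ⟨(c, b), h1, h2, h3⟩
  refl := fun x hx => ⟨1, 0, h.one x hx⟩
  symm := fun x hx y hy ⟨c, b, hc⟩ => ⟨c⁻¹, _, h.inv x hx y hy c b hc⟩
  trans := fun x hx y hy z hz ⟨c, b, hc⟩ ⟨c', b', hc'⟩ =>
    ⟨c' * c, _, h.comp x hx y hy z hz c b c' b' hc hc'⟩

private theorem DTN_DQa_line {s : Set X} {R : X → X → kˣ → k → Prop} (h : DAff k s R) :
    DQ k (s ×ˢ (Set.univ : Set k)) (fun p q => ∃ c b, R p.1 q.1 c b ∧ q.2 = c * p.2 + b) where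
  ds := by
    have hs := h.ds
    exact (DM.comp hs (by fun_prop : DM k (fun p : X × k => p.1))).congr_iff (fun p => by simp)
  dr := by
    have h1 : DM k (fun q : ((X × k) × (X × k)) × (kˣ × k) => q.1.1.1 ∈ s ∧ q.1.2.1 ∈ s ∧
        R q.1.1.1 q.1.2.1 q.2.1 q.2.2) :=
      DM.comp h.dR (by fun_prop :
        DM k (fun q : ((X × k) × (X × k)) × (kˣ × k) => (q.1.1.1, q.1.2.1, q.2.1, q.2.2)))
    have h2 : DM k (fun q : ((X × k) × (X × k)) × (kˣ × k) =>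
        q.1.2.2 = (q.2.1 : k) * q.1.1.2 + q.2.2) := by
      fun_prop
    refine (DM.ex (P := fun (p : (X × k) × (X × k)) (c : kˣ × k) => (p.1.1 ∈ s ∧ p.2.1 ∈ s ∧
      R p.1.1 p.2.1 c.1 c.2) ∧ p.2.2 = (c.1 : k) * p.1.2 + c.2) (h1.and h2)).congr_iff ?_
    intro p
    constructor
    · rintro ⟨c, ⟨h1, h2, h3⟩, h4⟩
      exact ⟨⟨h1, trivial⟩, ⟨h2, trivial⟩, c.1, c.2, h3, h4⟩
    · rintro ⟨⟨h1, -⟩, ⟨h2, -⟩, c, b, h3, h4⟩
      exact ⟨(c, b), ⟨h1, h2, h3⟩, h4⟩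
  refl := fun x hx => ⟨1, 0, h.one x.1 hx.1, by simp⟩
  symm := by
    rintro x hx y hy ⟨c, b, hc, he⟩
    refine ⟨c⁻¹, _, h.inv _ hx.1 _ hy.1 _ _ hc, ?_⟩
    rw [he, mul_add]
    simp
  trans := by
    rintro x hx y hy z hz ⟨c, b, hc, he⟩ ⟨c', b', hc', he'⟩
    refine ⟨c' * c, _, h.comp _ hx.1 _ hy.1 _ hz.1 _ _ _ _ hc hc', ?_⟩
    rw [he', he, Units.val_mul]
    ring

/-- The affine line lemma. -/
theorem aff_DT {s : Set X} {R : X → X → kˣ → k → Prop} (h : DAff k s R) :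
    DQ k s (fun x y => ∃ c b, R x y c b) ∧
    DQ k (s ×ˢ (Set.univ : Set k)) (fun p q => ∃ c b, R p.1 q.1 c b ∧ q.2 = c * p.2 + b) ∧
    clq k (s ×ˢ (Set.univ : Set k)) (fun p q => ∃ c b, R p.1 q.1 c b ∧ q.2 = c * p.2 + b) =
      L • clq k s (fun x y => ∃ c b, R x y c b) := by
  refine ⟨DTN_DQa h, DTN_DQa_line h, ?_⟩
  have h1 := affine_line_lemma (DTN_Aff h)
  have h0 : clq k s (fun x y => ∃ c b, R x y c b) =
      cls k {a : DT.A k X | ∃ x, DT.R a x ∧ x ∈ s} (fun a b => ∃ c d, DTN_cha k R a b c d) := by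
    unfold clq
    congr 1
    funext a b
    refine propext ⟨?_, ?_⟩
    · rintro ⟨x, y, hx, hy, u, d, hR⟩
      exact ⟨u, d, x, y, hx, hy, u, rfl, hR⟩
    · rintro ⟨c, d, x, y, hx, hy, u, _, hR⟩
      exact ⟨x, y, hx, hy, u, d, hR⟩
  have h2 : clq k (s ×ˢ (Set.univ : Set k))
      (fun p q => ∃ c b, R p.1 q.1 c b ∧ q.2 = c * p.2 + b) =
      cls k ({a : DT.A k X | ∃ x, DT.R a x ∧ x ∈ s} ×ˢ (Set.univ : Set k))
        (arel k (DTN_cha k R)) := by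
    unfold clq
    have e1 : {a : DT.A k (X × k) | ∃ x, DT.R a x ∧ x ∈ s ×ˢ (Set.univ : Set k)} =
        ({a : DT.A k X | ∃ x, DT.R a x ∧ x ∈ s} ×ˢ (Set.univ : Set k)) := by
      ext ⟨a, v⟩
      constructor
      · rintro ⟨⟨x, w⟩, ⟨hx, hv⟩, hxs, -⟩
        exact ⟨⟨x, hx, hxs⟩, trivial⟩
      · rintro ⟨⟨x, hx, hxs⟩, -⟩
        exact ⟨(x, v), ⟨hx, rfl⟩, hxs, trivial⟩
    have e2 : (fun a b : DT.A k (X × k) => ∃ x y, DT.R a x ∧ DT.R b y ∧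
        ∃ c d, R x.1 y.1 c d ∧ y.2 = c * x.2 + d) = arel k (DTN_cha k R) := by
      funext a b
      obtain ⟨a, v⟩ := a
      obtain ⟨b, w⟩ := b
      refine propext ⟨?_, ?_⟩
      · rintro ⟨⟨x, v'⟩, ⟨y, w'⟩, ⟨hx, hv⟩, ⟨hy, hw⟩, u, d, hR, hu⟩
        have hv' : v' = v := hv
        have hw' : w' = w := hw
        subst hv' hw'
        exact ⟨u, d, ⟨x, y, hx, hy, u, rfl, hR⟩, hu⟩
      · rintro ⟨c, d, ⟨x, y, hx, hy, u, rfl, hR⟩, hu⟩
        exact ⟨(x, v), (y, w), ⟨hx, rfl⟩, ⟨hy, rfl⟩, u, d, hR, hu⟩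
    exact congrArg₂ (fun S r => cls k S r) e1 e2
  rw [h2, h1, h0]

/-- Hilbert 90 for a groupoid of transition matrices. -/
theorem h90_DT {n : ℕ} {s : Set X} {r : X → X → Prop} (h : DQ k s r)
    (T : X → X → GL (Fin n) k → Prop)
    (hT : DM k (fun p : X × X × GL (Fin n) k => p.1 ∈ s ∧ p.2.1 ∈ s ∧ T p.1 p.2.1 p.2.2))
    (ex : ∀ x ∈ s, ∀ y ∈ s, r x y → ∃ M, T x y M)
    (uniq : ∀ x ∈ s, ∀ y ∈ s, r x y → ∀ M M', T x y M → T x y M' → M = M')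
    (one : ∀ x ∈ s, T x x 1)
    (comp : ∀ x ∈ s, ∀ y ∈ s, ∀ z ∈ s, r x y → r y z → ∀ M M', T x y M → T y z M' →
      T x z (M' * M)) :
    ∃ B : X → GL (Fin n) k, DM k B ∧
      ∀ x ∈ s, ∀ y ∈ s, r x y → ∀ M, T x y M → B y = M * B x := by
  classical
  let T' : DT.A k X → DT.A k X → Matrix (Fin n) (Fin n) k → Prop := fun a b M =>
    ∃ x y, (DT.R a x ∧ DT.R b y) ∧ x ∈ s ∧ y ∈ s ∧
      ∃ g : GL (Fin n) k, (g : Matrix (Fin n) (Fin n) k) = M ∧ T x y g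
  have hT' : DP k (fun p : DT.A k X × DT.A k X × Matrix (Fin n) (Fin n) k =>
      T' p.1 p.2.1 p.2.2) := by
    refine DP.congr (DM_iff_DS.1 hT) ?_
    rintro ⟨a, b, M⟩
    constructor
    · rintro ⟨⟨x, y, g⟩, ⟨hx, hy, hg⟩, hxs, hys, hR⟩
      refine ⟨x, y, ⟨hx, hy⟩, hxs, hys, g, ?_, hR⟩
      ext i j
      exact hg i j
    · rintro ⟨x, y, ⟨hx, hy⟩, hxs, hys, g, hg, hR⟩
      refine ⟨(x, y, g), ⟨hx, hy, ?_⟩, hxs, hys, hR⟩
      intro i j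
      exact congrFun (congrFun hg i) j
  obtain ⟨B', hB', hdet, heq⟩ := h90 h.good T' hT' (by
      rintro a ⟨x, hx, hxs⟩ b ⟨y, hy, hys⟩ ⟨x', y', hx', hy', hr⟩
      have e1 := DT.fn _ _ _ hx hx'
      have e2 := DT.fn _ _ _ hy hy'
      subst e1 e2
      obtain ⟨M, hM⟩ := ex x hxs y hys hr
      exact ⟨M, x, y, ⟨hx, hy⟩, hxs, hys, M, rfl, hM⟩)
    (by
      rintro a ⟨x, hx, hxs⟩ b ⟨y, hy, hys⟩ ⟨x', y', hx', hy', hr⟩ M M'
        ⟨x1, y1, ⟨hx1, hy1⟩, _, _, g, rfl, hg⟩ ⟨x2, y2, ⟨hx2, hy2⟩, _, _, g', rfl, hg'⟩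
      have e1 := DT.fn _ _ _ hx hx'
      have e2 := DT.fn _ _ _ hy hy'
      have e3 := DT.fn _ _ _ hx hx1
      have e4 := DT.fn _ _ _ hy hy1
      have e5 := DT.fn _ _ _ hx hx2
      have e6 := DT.fn _ _ _ hy hy2
      subst e1 e2 e3 e4 e5 e6
      rw [uniq x hxs y hys hr g g' hg hg'])
    (by
      rintro a ⟨x, hx, hxs⟩
      exact ⟨x, x, ⟨hx, hx⟩, hxs, hxs, 1, rfl, one x hxs⟩)
    (by
      rintro a ⟨x, hx, hxs⟩ b ⟨y, hy, hys⟩ c ⟨z, hz, hzs⟩ ⟨x', y', hx', hy', hr⟩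
        ⟨y'', z', hy'', hz', hr'⟩ M M'
        ⟨x1, y1, ⟨hx1, hy1⟩, _, _, g, rfl, hg⟩ ⟨y2, z2, ⟨hy2, hz2⟩, _, _, g', rfl, hg'⟩
      have e1 := DT.fn _ _ _ hx hx'
      have e2 := DT.fn _ _ _ hy hy'
      have e3 := DT.fn _ _ _ hx hx1
      have e4 := DT.fn _ _ _ hy hy1
      have e5 := DT.fn _ _ _ hy hy''
      have e6 := DT.fn _ _ _ hz hz'
      have e7 := DT.fn _ _ _ hy hy2
      have e8 := DT.fn _ _ _ hz hz2
      subst e1 e2 e3 e4 e5 e6 e7 e8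
      exact ⟨x, z, ⟨hx, hz⟩, hxs, hzs, g' * g, rfl,
        comp x hxs y hys z hzs hr hr' g g' hg hg'⟩)
  -- the value does not depend on the representative
  have hwd : ∀ x ∈ s, ∀ a b, DT.R a x → DT.R b x → B' a = B' b := by
    intro x hxs a b ha hb
    have h1 := heq a ⟨x, ha, hxs⟩ b ⟨x, hb, hxs⟩ ⟨x, x, ha, hb, h.refl x hxs⟩ 1
      ⟨x, x, ⟨ha, hb⟩, hxs, hxs, 1, rfl, one x hxs⟩
    rw [h1, one_mul]
  choose ch hch using (DT.sur (k := k) (X := X))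
  let B : X → GL (Fin n) k := fun x => if hx : x ∈ s then
    Matrix.GeneralLinearGroup.mkOfDetNeZero (B' (ch x)) (hdet (ch x) ⟨x, hch x, hx⟩) else 1
  have hBs : ∀ x, x ∈ s → ∀ a, DT.R a x → ((B x : GL (Fin n) k) : Matrix (Fin n) (Fin n) k) = B' a := by
    intro x hx a ha
    simp only [B]
    rw [dif_pos hx]
    exact hwd x hx (ch x) a (hch x) ha
  have hBn : ∀ x, x ∉ s → B x = 1 := by
    intro x hx
    simp only [B]
    rw [dif_neg hx]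
  refine ⟨B, ?_, ?_⟩
  · have hs : DP k (fun a : DT.A k X => ∃ x, DT.R a x ∧ x ∈ s) := DM_iff_DS.1 h.ds
    have hd := DT.dom (k := k) (X := X)
    have h1 : DP k (fun p : DT.A k X × Matrix (Fin n) (Fin n) k =>
        (∃ x, DT.R p.1 x ∧ x ∈ s) ∧ p.2 = B' p.1) :=
      DP.and (DP.comp hs DF.fst) (DP.eq DF.snd (DF.comp hB' DF.fst))
    have h2 : DP k (fun p : DT.A k X × Matrix (Fin n) (Fin n) k =>
        ((∃ x, DT.R p.1 x) ∧ ¬ (∃ x, DT.R p.1 x ∧ x ∈ s)) ∧ p.2 = 1) :=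
      DP.and (DP.and (DP.comp hd DF.fst) (DP.not (DP.comp hs DF.fst)))
        (DP.eq DF.snd (DF.const 1))
    have key : ∀ (a : DT.A k X) (M : Matrix (Fin n) (Fin n) k),
        (((∃ x, DT.R a x ∧ x ∈ s) ∧ M = B' a) ∨
          (((∃ x, DT.R a x) ∧ ¬ (∃ x, DT.R a x ∧ x ∈ s)) ∧ M = 1)) ↔
        ∃ x, DT.R a x ∧ ∀ i j, ((B x : GL (Fin n) k) : Matrix (Fin n) (Fin n) k) i j = M i j := by
      intro a M
      constructor
      · rintro (⟨⟨x, hx, hxs⟩, hM⟩ | ⟨⟨⟨x, hx⟩, hxs⟩, hM⟩)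
        · refine ⟨x, hx, ?_⟩
          intro i j
          rw [hBs x hxs a hx, hM]
        · have hxs' : x ∉ s := fun hh => hxs ⟨x, hx, hh⟩
          refine ⟨x, hx, ?_⟩
          intro i j
          rw [hBn x hxs', hM]
          rfl
      · rintro ⟨x, hx, hM⟩
        by_cases hxs : x ∈ s
        · left
          refine ⟨⟨x, hx, hxs⟩, ?_⟩
          rw [← hBs x hxs a hx]
          ext i j
          exact (hM i j).symm
        · right
          refine ⟨⟨⟨x, hx⟩, ?_⟩, ?_⟩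
          · rintro ⟨y, hy, hys⟩
            have := DT.fn _ _ _ hx hy
            subst this
            exact hxs hys
          · have h3 : M = ((B x : GL (Fin n) k) : Matrix (Fin n) (Fin n) k) := by
              ext i j
              exact (hM i j).symm
            rw [h3, hBn x hxs]
            rfl
    exact DP.congr (DP.or h1 h2) (fun p => key p.1 p.2)
  · intro x hx y hy hr M hM
    apply Units.ext
    rw [hBs y hy (ch y) (hch y)]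
    have h1 := heq (ch x) ⟨x, hch x, hx⟩ (ch y) ⟨y, hch y, hy⟩ ⟨x, y, hch x, hch y, hr⟩ M
      ⟨x, y, ⟨hch x, hch y⟩, hx, hy, M, rfl, hM⟩
    rw [h1, Units.val_mul, hBs x hx (ch x) (hch x)]

/-- Hilbert 90 for a group action whose stabilisers act trivially on the representation. -/
theorem h90_group [MulAction G X] [DAct k G X] {n : ℕ} {s : Set X} (h : GSet k G s)
    (ρ : G →* GL (Fin n) k) (dρ : DM k (fun g => ρ g))
    (free : ∀ x ∈ s, ∀ g : G, g • x = x → ρ g = 1) :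
    ∃ B : X → GL (Fin n) k, DM k B ∧ ∀ g : G, ∀ x ∈ s, B (g • x) = ρ g * B x := by
  have hds := h.ds
  obtain ⟨B, hB, hBe⟩ := h90_DT h.dq (n := n) (fun x y M => ∃ g : G, g • x = y ∧ M = ρ g)
    (by
      have h1 : DM k (fun p : X × X × GL (Fin n) k => ∃ g : G, g • p.1 = p.2.1 ∧ p.2.2 = ρ g) := by
        refine DM.ex (DM.and (by fun_prop) (DM.eq (by fun_prop) ?_))
        exact DM.comp dρ (by fun_prop : DM k (fun q : (X × X × GL (Fin n) k) × G => q.2))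
      exact DM.and (by fun_prop) (DM.and (by fun_prop) h1))
    (by
      rintro x _ y _ ⟨g, hg⟩
      exact ⟨ρ g, g, hg, rfl⟩)
    (by
      rintro x hx y _ _ M M' ⟨g, hg, rfl⟩ ⟨g', hg', rfl⟩
      have h1 : (g⁻¹ * g') • x = x := by
        rw [mul_smul, hg', ← hg, inv_smul_smul]
      have h2 := free x hx _ h1
      rw [map_mul, map_inv] at h2
      exact (inv_mul_eq_one.1 h2))
    (by
      intro x _
      exact ⟨1, one_smul _ _, (map_one ρ).symm⟩)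
    (by
      rintro x _ y _ z _ _ _ M M' ⟨g, rfl, rfl⟩ ⟨g', rfl, rfl⟩
      exact ⟨g' * g, mul_smul _ _ _, (map_mul ρ _ _).symm⟩)
  refine ⟨B, hB, ?_⟩
  intro g x hx
  exact hBe x hx (g • x) (h.st g x hx) ⟨g, rfl⟩ (ρ g) ⟨g, rfl, rfl⟩

end

end Pool.Agent.MRat
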