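import Pool.Agent.Lib.MP_923aff_ag.DTn
/-!
# JOB DTP: projective spaces as definable types; projective bundles
-/

set_option autoImplicit false

namespace Pool.Agent.MRat

open scoped MatrixGroups LinearAlgebra.Projectivization

/-- Definable vector spaces. -/
class DMod (k V : Type) [Field k] [IsAlgClosed k] [CharZero k] [AddCommGroup V] [Module k V]
    [DT k V] : Prop where
  dadd : DM k (fun p : V × V => p.1 + p.2)
  dsmul : DM k (fun p : k × V => p.1 • p.2)

section
variable {k : Type} [Field k] [IsAlgClosed k] [CharZero k]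
variable {X Y Z W : Type} [DT k X] [DT k Y] [DT k Z] [DT k W]
variable {G : Type} [Group G] [DT k G]
variable {V V' : Type} [AddCommGroup V] [Module k V] [DT k V] [DMod k V]
  [AddCommGroup V'] [Module k V'] [DT k V'] [DMod k V']

@[fun_prop]
theorem DM.vadd {f g : X → V} (hf : DM k f) (hg : DM k g) : DM k (fun x => f x + g x) :=
  DM.comp (DMod.dadd (k := k) (V := V)) (hf.mk hg)

@[fun_prop]
theorem DM.vsmul {f : X → k} {g : X → V} (hf : DM k f) (hg : DM k g) :
    DM k (fun x => f x • g x) :=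
  DM.comp (DMod.dsmul (k := k) (V := V)) (hf.mk hg)

@[fun_prop]
theorem DM.vsmul' {f : X → kˣ} {g : X → V} (hf : DM k f) (hg : DM k g) :
    DM k (fun x => f x • g x) := by
  simp only [Units.smul_def]; fun_prop

instance : DMod k k where
  dadd := by fun_prop
  dsmul := by simp only [smul_eq_mul]; fun_prop

instance (n : ℕ) : DMod k (Fin n → V) where
  dadd := by
    refine DM.pi (fun i => ?_)
    show DM k (fun p : (Fin n → V) × (Fin n → V) => p.1 i + p.2 i)
    fun_prop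
  dsmul := by
    refine DM.pi (fun i => ?_)
    show DM k (fun p : k × (Fin n → V) => p.1 • p.2 i)
    fun_prop

instance : DMod k (V × V') where
  dadd := by
    show DM k (fun p : (V × V') × (V × V') => (p.1.1 + p.2.1, p.1.2 + p.2.2))
    fun_prop
  dsmul := by
    show DM k (fun p : k × (V × V') => (p.1 • p.2.1, p.1 • p.2.2))
    fun_prop

theorem proj_dom : DM k (fun v : V => v ≠ 0) := by fun_prop

theorem proj_ker : letI := DT.sub (k := k) (proj_dom (k := k) (V := V));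
    DM k (fun p : {v : V // v ≠ 0} × {v : V // v ≠ 0} =>
      Projectivization.mk k p.1.1 p.1.2 = Projectivization.mk k p.2.1 p.2.2) := by
  let := DT.sub (k := k) (proj_dom (k := k) (V := V))
  have hc : DM k (fun v : {v : V // v ≠ 0} => (v : V)) := DT.ofInj_coe _ _ _
  have h1 : DM k (fun q : ({v : V // v ≠ 0} × {v : V // v ≠ 0}) × kˣ => (q.1.1 : V)) :=
    DM.comp hc (by fun_prop)
  have h2 : DM k (fun q : ({v : V // v ≠ 0} × {v : V // v ≠ 0}) × kˣ => (q.1.2 : V)) :=
    DM.comp hc (by fun_prop)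
  have h : DM k (fun p : {v : V // v ≠ 0} × {v : V // v ≠ 0} => ∃ u : kˣ, u • (p.2 : V) = p.1) := by
    refine DM.ex (DM.eq (DM.vsmul' (by fun_prop) h2) h1)
  refine h.congr_iff (fun p => ?_)
  rw [Projectivization.mk_eq_mk_iff]

/-- Projective space as a definable type. -/
instance : DT k (ℙ k V) :=
  letI := DT.sub (k := k) (proj_dom (k := k) (V := V))
  DT.ofSurj (fun v : {v : V // v ≠ 0} => Projectivization.mk k v.1 v.2) (by
    intro p
    induction p using Projectivization.ind with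
    | h v hv => exact ⟨⟨v, hv⟩, rfl⟩) proj_ker

/-- `v` represents `p`. -/
def isrep (v : V) (p : ℙ k V) : Prop := ∃ h : v ≠ 0, Projectivization.mk k v h = p

theorem DTp_isrep : DM k (fun q : V × ℙ k V => isrep q.1 q.2) := by
  let := DT.sub (k := k) (proj_dom (k := k) (V := V))
  have hc : DM k (fun v : {v : V // v ≠ 0} => (v : V)) := DT.ofInj_coe _ _ _
  have hm : DM k (fun v : {v : V // v ≠ 0} => Projectivization.mk k v.1 v.2) :=
    DT.ofSurj_coe (fun v : {v : V // v ≠ 0} => Projectivization.mk k v.1 v.2) (by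
      intro p
      induction p using Projectivization.ind with
      | h v hv => exact ⟨⟨v, hv⟩, rfl⟩) proj_ker
  have h1 : DM k (fun q : (V × ℙ k V) × {v : V // v ≠ 0} => (q.2 : V)) :=
    DM.comp hc (by fun_prop)
  have h2 : DM k (fun q : (V × ℙ k V) × {v : V // v ≠ 0} =>
      Projectivization.mk k q.2.1 q.2.2) :=
    DM.comp hm (by fun_prop)
  have h : DM k (fun q : V × ℙ k V => ∃ w : {v : V // v ≠ 0}, (w : V) = q.1 ∧
      Projectivization.mk k w.1 w.2 = q.2) := by
    refine DM.ex (DM.and (DM.eq h1 (by fun_prop)) (DM.eq h2 (by fun_prop)))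
  refine h.congr_iff (fun q => ?_)
  constructor
  · rintro ⟨⟨w, hw⟩, h1, h2⟩
    dsimp only at h1
    subst h1
    exact ⟨hw, h2⟩
  · rintro ⟨hw, h⟩
    exact ⟨⟨q.1, hw⟩, rfl, h⟩

theorem DM.isrep {f : X → V} {g : X → ℙ k V} (hf : DM k f) (hg : DM k g) :
    DM k (fun x => isrep (f x) (g x)) :=
  DM.comp DTp_isrep (hf.mk hg)

theorem DM.pmk {f : X → V} (hf : DM k f) (h : ∀ x, f x ≠ 0) :
    DM k (fun x => Projectivization.mk k (f x) (h x)) := by
  refine DM.of_graph (R := fun x p => MRat.isrep (f x) p) ?_ ?_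
  · exact DM.isrep (DM.comp hf (by fun_prop)) (by fun_prop)
  · intro x p
    constructor
    · rintro ⟨h1, h2⟩
      exact h2.symm
    · rintro rfl
      exact ⟨h x, rfl⟩

/-- Maps out of projective space times something. -/
theorem DM.of_proj {f : ℙ k V × X → Y} (F : V × X → Y) (hF : DM k F)
    (h : ∀ (v : V) (hv : v ≠ 0) (x : X), f (Projectivization.mk k v hv, x) = F (v, x)) :
    DM k f := by
  refine DM.of_graph (R := fun p y => ∃ v : V, MRat.isrep v p.1 ∧ y = F (v, p.2)) ?_ ?_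
  · refine DM.ex (DM.and (DM.isrep (by fun_prop) (by fun_prop)) (DM.eq (by fun_prop) ?_))
    exact DM.comp hF (by fun_prop)
  · rintro ⟨p, x⟩ y
    constructor
    · rintro ⟨v, ⟨hv, hp⟩, rfl⟩
      dsimp only at hp
      rw [← hp, h]
    · rintro rfl
      induction p using Projectivization.ind with
      | h v hv => exact ⟨v, ⟨hv, rfl⟩, h v hv x⟩

/-- A definable linear action gives a definable action on the projective space. -/
instance [DistribMulAction G V] [SMulCommClass G k V] [DAct k G V] : DAct k G (ℙ k V) where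
  dm := by
    refine DM.of_graph (R := fun (p : G × ℙ k V) q => ∃ v : V, MRat.isrep v p.2 ∧
      MRat.isrep (p.1 • v) q) ?_ ?_
    · exact DM.ex (DM.and (DM.isrep (by fun_prop) (by fun_prop))
        (DM.isrep (by fun_prop) (by fun_prop)))
    · rintro ⟨g, p⟩ q
      constructor
      · rintro ⟨v, ⟨hv, hp⟩, ⟨hw, hq⟩⟩
        dsimp only at hp hq ⊢
        rw [← hp, ← hq]
        rfl
      · rintro rfl
        induction p using Projectivization.ind with
        | h v hv =>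
          exact ⟨v, ⟨hv, rfl⟩, (smul_ne_zero_iff_ne g).mpr hv, rfl⟩

instance {n : ℕ} : DAct k (GL (Fin n) k) (Fin n → k) where
  dm := by
    show DM k (fun p : GL (Fin n) k × (Fin n → k) =>
      (p.1 : Matrix (Fin n) (Fin n) k).mulVec p.2)
    fun_prop

instance {n : ℕ} : DGrp k (GL (Fin n) k) where
  dmul := by fun_prop
  dinv := by fun_prop

instance {n : ℕ} : DGrp k PGL(n, k) where
  dmul := by fun_prop
  dinv := by fun_prop

instance {n : ℕ} : DAct k PGL(n, k) (ℙ k (Fin n → k)) where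
  dm := by
    rw [DM.pgl_iff]
    show DM k (fun p : GL (Fin n) k × ℙ k (Fin n → k) => p.1 • p.2)
    fun_prop

/-- The vector with last nonzero coordinate `i`, equal to one. -/
def DTp_ext {n : ℕ} (i : ℕ) (w : Fin i → k) : Fin n → k :=
  fun j => if h : (j : ℕ) < i then w ⟨j, h⟩ else if (j : ℕ) = i then 1 else 0

theorem DTp_ext_ne {n : ℕ} {i : ℕ} (hi : i < n) (w : Fin i → k) :
    DTp_ext (n := n) i w ≠ 0 := by
  intro h
  have := congrFun h ⟨i, hi⟩
  simp [DTp_ext] at this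

theorem DTp_ext_dm {n : ℕ} (i : ℕ) : DM k (fun w : Fin i → k => DTp_ext (n := n) i w) := by
  refine DM.pi (fun j => ?_)
  unfold DTp_ext
  by_cases h : (j : ℕ) < i
  · simp only [h, dite_true]
    fun_prop
  · simp only [h, dite_false]
    fun_prop

/-- The cells. -/
def DTp_cell (k : Type) [Field k] {n : ℕ} (i : ℕ) : Set (ℙ k (Fin n → k)) :=
  {p | ∃ v : Fin n → k, isrep v p ∧ ∀ j : Fin n, ((j : ℕ) = i → v j = 1) ∧ (i < j → v j = 0)}

theorem DTp_cell_dm {n : ℕ} (i : ℕ) : DM k (fun p : ℙ k (Fin n → k) => p ∈ DTp_cell k i) := by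
  have h : DM k (fun q : ℙ k (Fin n → k) × (Fin n → k) => isrep q.2 q.1 ∧
      ∀ j : Fin n, ((j : ℕ) = i → q.2 j = 1) ∧ (i < j → q.2 j = 0)) := by
    refine DM.and (DM.isrep (by fun_prop) (by fun_prop)) (DM.fall (fun j => ?_))
    refine DM.and (DM.imp (by fun_prop) (by fun_prop)) (DM.imp (by fun_prop) (by fun_prop))
  exact DM.ex (P := fun (p : ℙ k (Fin n → k)) (v : Fin n → k) => isrep v p ∧
      ∀ j : Fin n, ((j : ℕ) = i → v j = 1) ∧ (i < j → v j = 0)) h

theorem DTp_cell_cover {n : ℕ} (p : ℙ k (Fin n → k)) :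
    ∃ i ∈ Finset.range n, p ∈ DTp_cell k i := by
  classical
  induction p using Projectivization.ind with
  | h v hv =>
    have h1 : (Finset.univ.filter (fun j : Fin n => v j ≠ 0)).Nonempty := by
      by_contra h
      rw [Finset.not_nonempty_iff_eq_empty, Finset.filter_eq_empty_iff] at h
      apply hv
      funext j
      have := h (Finset.mem_univ j)
      simpa using this
    obtain ⟨i, hi, hmax⟩ := (Finset.univ.filter (fun j : Fin n => v j ≠ 0)).exists_max_image
      (fun j => (j : ℕ)) h1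
    have hvi : v i ≠ 0 := by simpa using hi
    refine ⟨i, Finset.mem_range.2 i.2, (v i)⁻¹ • v, ⟨?_, ?_⟩, ?_⟩
    · exact smul_ne_zero (inv_ne_zero hvi) hv
    · rw [Projectivization.mk_eq_mk_iff]
      exact ⟨(Units.mk0 (v i) hvi)⁻¹, by simp [Units.smul_def]⟩
    · intro j
      constructor
      · intro hj
        have : j = i := Fin.ext hj
        subst this
        simp [hvi]
      · intro hj
        have : v j = 0 := by
          by_contra hvj
          have := hmax j (by simpa using hvj)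
          omega
        simp [this]

theorem DTp_cell_disj {n : ℕ} (p : ℙ k (Fin n → k)) {i j : ℕ} (hi' : i < n) (hj' : j < n)
    (hi : p ∈ DTp_cell k i) (hj : p ∈ DTp_cell k j) : i = j := by
  obtain ⟨v, ⟨hv, hvp⟩, h1⟩ := hi
  obtain ⟨w, ⟨hw, hwp⟩, h2⟩ := hj
  have h := hvp.trans hwp.symm
  rw [Projectivization.mk_eq_mk_iff] at h
  obtain ⟨u, hu⟩ := h
  have key : ∀ l : Fin n, (u : k) * w l = v l := fun l => by
    have := congrFun hu l
    simpa [Units.smul_def] using this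
  by_contra hne
  rcases lt_or_gt_of_ne hne with h | h
  · have h3 := key ⟨j, hj'⟩
    rw [(h2 ⟨j, hj'⟩).1 rfl, (h1 ⟨j, hj'⟩).2 h] at h3
    simp at h3
  · have h3 := key ⟨i, hi'⟩
    rw [(h2 ⟨i, hi'⟩).2 h, (h1 ⟨i, hi'⟩).1 rfl] at h3
    simp at h3

theorem DTp_ext_mem {n : ℕ} {i : ℕ} (hi : i < n) (w : Fin i → k) :
    Projectivization.mk k (DTp_ext (n := n) i w) (DTp_ext_ne hi w) ∈ DTp_cell k i := by
  refine ⟨DTp_ext i w, ⟨DTp_ext_ne hi w, rfl⟩, fun j => ⟨fun hj => ?_, fun hj => ?_⟩⟩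
  · simp [DTp_ext, hj]
  · have h1 : ¬ ((j : ℕ) < i) := by omega
    have h2 : ¬ ((j : ℕ) = i) := by omega
    simp [DTp_ext, h1, h2]

theorem DTp_ext_surj {n : ℕ} {i : ℕ} (hi : i < n) {p : ℙ k (Fin n → k)} (hp : p ∈ DTp_cell k i) :
    ∃ w : Fin i → k, Projectivization.mk k (DTp_ext (n := n) i w) (DTp_ext_ne hi w) = p := by
  obtain ⟨v, ⟨hv, hvp⟩, h1⟩ := hp
  refine ⟨fun j => v ⟨j, j.2.trans hi⟩, ?_⟩
  rw [← hvp]
  congr 1
  funext j
  unfold DTp_ext
  by_cases h : (j : ℕ) < i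
  · simp [h]
  · simp only [h, dite_false]
    by_cases h2 : (j : ℕ) = i
    · simp [h2, (h1 j).1 h2]
    · simp only [h2, if_false]
      exact ((h1 j).2 (by omega)).symm

theorem DTp_ext_inj {n : ℕ} {i : ℕ} (hi : i < n) {w w' : Fin i → k}
    (h : Projectivization.mk k (DTp_ext (n := n) i w) (DTp_ext_ne hi w) =
      Projectivization.mk k (DTp_ext (n := n) i w') (DTp_ext_ne hi w')) : w = w' := by
  rw [Projectivization.mk_eq_mk_iff] at h
  obtain ⟨u, hu⟩ := h
  have h1 := congrFun hu ⟨i, hi⟩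
  have h2 : (u : k) = 1 := by simpa [DTp_ext, Units.smul_def] using h1
  have h3 : u = 1 := Units.ext h2
  subst h3
  rw [one_smul] at hu
  funext j
  have h4 := congrFun hu ⟨j, j.2.trans hi⟩
  simpa [DTp_ext] using h4.symm

/-- The class of `s/r × P^(n-1)`. -/
theorem br_smul_clq {s : Set X} {r : X → X → Prop} (h : DQ k s r) (n : ℕ) :
    (br n) • clq k s r =
      clq k (s ×ˢ (Set.univ : Set (ℙ k (Fin n → k)))) (fun p q => r p.1 q.1 ∧ p.2 = q.2) := by
  have hd := clq_prod_of_cl (Y := ℙ k (Fin n → k)) h (t := Set.univ)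
    (DM.const' True)
  rw [clq_sum (Finset.range n) hd (fun i => {p | p.2 ∈ DTp_cell k i}), br, Finset.sum_smul]
  · refine Finset.sum_congr rfl (fun i hi => ?_)
    have hi' : i < n := Finset.mem_range.1 hi
    rw [X_pow_smul_clq h i]
    have hsrc := clq_prod_of_cl (Y := Fin i → k) h (t := Set.univ) (DM.const' True)
    have hcell : DM k (fun p : X × ℙ k (Fin n → k) => p.2 ∈ DTp_cell k i) :=
      DM.comp (f := fun p : X × ℙ k (Fin n → k) => p.2) (DTp_cell_dm i) (by fun_prop)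
    have htgt := hd.inter (t := {p : X × ℙ k (Fin n → k) | p.2 ∈ DTp_cell k i}) hcell
    refine clq_map hsrc htgt
      (fun p => (p.1, Projectivization.mk k (DTp_ext (n := n) i p.2) (DTp_ext_ne hi' p.2)))
      ?_ ?_ ?_ ?_
    · refine DM.mk (by fun_prop) ?_
      exact DM.pmk (DM.comp (DTp_ext_dm i) (by fun_prop)) _
    · rintro ⟨x, w⟩ ⟨hx, -⟩
      exact ⟨⟨hx, trivial⟩, DTp_ext_mem hi' w⟩
    · rintro ⟨x, w⟩ - ⟨y, w'⟩ -
      constructor
      · rintro ⟨h1, h2⟩
        dsimp only at h1 h2 ⊢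
        subst h2
        exact ⟨h1, rfl⟩
      · rintro ⟨h1, h2⟩
        exact ⟨h1, DTp_ext_inj hi' h2⟩
    · rintro ⟨x, p⟩ ⟨⟨hx, -⟩, hp⟩
      obtain ⟨w, hw⟩ := DTp_ext_surj hi' hp
      exact ⟨(x, w), ⟨hx, trivial⟩, h.refl x hx, hw⟩
  · intro i _
    exact DM.comp (f := fun p : X × ℙ k (Fin n → k) => p.2) (DTp_cell_dm i) (by fun_prop)
  · rintro ⟨x, p⟩ -
    exact DTp_cell_cover p
  · rintro i hi j hj ⟨x, p⟩ - ⟨y, q⟩ - ⟨-, hpq⟩ hp hq
    dsimp only at hpq
    subst hpq
    exact DTp_cell_disj p (Finset.mem_range.1 hi) (Finset.mem_range.1 hj) hp hq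

/-- The projective bundle formula where the stabilisers act trivially on the representation. -/
theorem proj_bundle_free [MulAction G X] [DAct k G X] {n : ℕ} {s : Set X} (h : GSet k G s)
    (ρ : G →* GL (Fin n) k) (dρ : DM k (fun g => ρ g))
    (free : ∀ x ∈ s, ∀ g : G, g • x = x → ρ g = 1) :
    clq k (s ×ˢ (Set.univ : Set (ℙ k (Fin n → k))))
      (fun p q => ∃ g : G, g • p.1 = q.1 ∧ ρ g • p.2 = q.2) = (br n) • orb k G s := by
  obtain ⟨B, hB, hBe⟩ := h90_group h ρ dρ free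
  unfold orb
  rw [br_smul_clq h.dq n]
  have htgt := clq_prod_of_cl (Y := ℙ k (Fin n → k)) h.dq (t := Set.univ) (DM.const' True)
  have hf : DM k (fun p : X × ℙ k (Fin n → k) => (p.1, (B p.1)⁻¹ • p.2)) := by
    have hB' : DM k (fun p : X × ℙ k (Fin n → k) => B p.1) := DM.comp hB (by fun_prop)
    exact DM.mk (by fun_prop) (DM.smul hB'.gl_inv (by fun_prop))
  have hds : DM k (fun p : X × ℙ k (Fin n → k) => p ∈ s ×ˢ (Set.univ : Set (ℙ k (Fin n → k)))) :=
    htgt.ds
  have key : ∀ p ∈ s ×ˢ (Set.univ : Set (ℙ k (Fin n → k))),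
      ∀ q ∈ s ×ˢ (Set.univ : Set (ℙ k (Fin n → k))),
      (orel G p.1 q.1 ∧ (B p.1)⁻¹ • p.2 = (B q.1)⁻¹ • q.2 ↔
        ∃ g : G, g • p.1 = q.1 ∧ ρ g • p.2 = q.2) := by
    rintro ⟨x, p⟩ ⟨hx, -⟩ ⟨y, q⟩ ⟨hy, -⟩
    dsimp only at hx hy ⊢
    constructor
    · rintro ⟨⟨g, rfl⟩, h2⟩
      refine ⟨g, rfl, ?_⟩
      rw [hBe g x hx, mul_inv_rev, mul_smul, smul_left_cancel_iff, eq_inv_smul_iff] at h2
      exact h2
    · rintro ⟨g, rfl, rfl⟩
      refine ⟨⟨g, rfl⟩, ?_⟩
      rw [hBe g x hx, mul_inv_rev, mul_smul, inv_smul_smul]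
  have hsrc : DQ k (s ×ˢ (Set.univ : Set (ℙ k (Fin n → k))))
      (fun p q => ∃ g : G, g • p.1 = q.1 ∧ ρ g • p.2 = q.2) := by
    refine (DQ.comap hds htgt (fun p => (p.1, (B p.1)⁻¹ • p.2)) hf ?_).congr key
    rintro ⟨x, p⟩ ⟨hx, -⟩
    exact ⟨hx, trivial⟩
  refine clq_map hsrc htgt (fun p => (p.1, (B p.1)⁻¹ • p.2)) hf ?_ ?_ ?_
  · rintro ⟨x, p⟩ ⟨hx, -⟩
    exact ⟨hx, trivial⟩
  · intro p hp q hq
    exact (key p hp q hq).symm
  · rintro ⟨x, p⟩ ⟨hx, -⟩
    refine ⟨(x, B x • p), ⟨hx, trivial⟩, ⟨1, one_smul _ _⟩, ?_⟩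
    dsimp only
    rw [inv_smul_smul]

end

end Pool.Agent.MRat
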