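import Mathlib

/-!
# Constructible sets over an algebraically closed field and the group `MK`

Definitions only.
-/

set_option autoImplicit false

namespace Pool.Agent.MRat

/-- Constructible subsets of `k ^ n`. -/
inductive Con (k : Type) [Field k] (n : ℕ) : Set (Fin n → k) → Prop
  | zero (p : MvPolynomial (Fin n) k) : Con k n {x | MvPolynomial.eval x p = 0}
  | compl (s : Set (Fin n → k)) : Con k n s → Con k n sᶜ
  | inter (s t : Set (Fin n → k)) : Con k n s → Con k n t → Con k n (s ∩ t)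

/-- Piecewise rational functions on `k ^ n`. -/
def PR (k : Type) [Field k] (n : ℕ) (f : (Fin n → k) → k) : Prop :=
  ∃ (m : ℕ) (A : Fin m → Set (Fin n → k)) (P Q : Fin m → MvPolynomial (Fin n) k),
    (∀ i, Con k n (A i)) ∧ (∀ x, ∃ i, x ∈ A i) ∧
    ∀ i, ∀ x ∈ A i, MvPolynomial.eval x (Q i) ≠ 0 ∧
      f x = MvPolynomial.eval x (P i) / MvPolynomial.eval x (Q i)

/-- An ambient type: a type identified with some `k ^ n`. -/
class Amb (k : Type) [Field k] (α : Type) where
  dim : ℕ
  e : α ≃ (Fin dim → k)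

section inst
variable (k : Type) [Field k]

instance : Amb k k := ⟨1, (Equiv.funUnique (Fin 1) k).symm⟩

instance : Amb k Unit := ⟨0, Equiv.ofUnique _ _⟩

instance (α β : Type) [Amb k α] [Amb k β] : Amb k (α × β) :=
  ⟨Amb.dim k α + Amb.dim k β,
    ((Amb.e (k := k) (α := α)).prodCongr (Amb.e (k := k) (α := β))).trans
      (Fin.appendEquiv _ _)⟩

instance (n : ℕ) (α : Type) [Amb k α] : Amb k (Fin n → α) :=
  ⟨n * Amb.dim k α,
    ((Equiv.arrowCongr (Equiv.refl (Fin n)) (Amb.e (k := k) (α := α))).trans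
      (Equiv.curry (Fin n) (Fin (Amb.dim k α)) k).symm).trans
      (Equiv.arrowCongr finProdFinEquiv (Equiv.refl k))⟩

instance (m n : ℕ) (α : Type) [Amb k α] : Amb k (Matrix (Fin m) (Fin n) α) :=
  inferInstanceAs (Amb k (Fin m → Fin n → α))

end inst

/-- Definable predicates on ambient types. -/
def DP (k : Type) [Field k] {α : Type} [Amb k α] (P : α → Prop) : Prop :=
  Con k (Amb.dim k α) {x | P ((Amb.e (k := k) (α := α)).symm x)}

/-- Definable functions between ambient types. -/
def DF (k : Type) [Field k] {α β : Type} [Amb k α] [Amb k β] (f : α → β) : Prop :=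
  DP k (fun p : α × β => p.2 = f p.1)

/-- `r` is a definable equivalence relation on the definable set `s`. -/
structure Good (k : Type) [Field k] {α : Type} [Amb k α] (s : Set α) (r : α → α → Prop) :
    Prop where
  ds : DP k (fun x => x ∈ s)
  dr : DP k (fun p : α × α => p.1 ∈ s ∧ p.2 ∈ s ∧ r p.1 p.2)
  refl : ∀ x ∈ s, r x x
  symm : ∀ x ∈ s, ∀ y ∈ s, r x y → r y x
  trans : ∀ x ∈ s, ∀ y ∈ s, ∀ z ∈ s, r x y → r y z → r x z

/-- Generators of `MK`. -/
structure Gen (k : Type) [Field k] where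
  n : ℕ
  s : Set (Fin n → k)
  r : (Fin n → k) → (Fin n → k) → Prop
  good : Good k s r

/-- The defining relations of `MK`. -/
inductive Rels (k : Type) [Field k] : FreeAbelianGroup (Gen k) → Prop
  | add (n : ℕ) (s t : Set (Fin n → k)) (r : (Fin n → k) → (Fin n → k) → Prop)
      (h : Good k s r) (h1 : Good k (s ∩ t) r) (h2 : Good k (s \ t) r)
      (sat : ∀ x ∈ s, ∀ y ∈ s, r x y → x ∈ t → y ∈ t) :
      Rels k (FreeAbelianGroup.of ⟨n, s, r, h⟩ - FreeAbelianGroup.of ⟨n, s ∩ t, r, h1⟩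
        - FreeAbelianGroup.of ⟨n, s \ t, r, h2⟩)
  | map (n m : ℕ) (s : Set (Fin n → k)) (r : (Fin n → k) → (Fin n → k) → Prop)
      (s' : Set (Fin m → k)) (r' : (Fin m → k) → (Fin m → k) → Prop)
      (h : Good k s r) (h' : Good k s' r') (f : (Fin n → k) → (Fin m → k)) (hf : DF k f)
      (maps : ∀ x ∈ s, f x ∈ s') (iff : ∀ x ∈ s, ∀ y ∈ s, (r x y ↔ r' (f x) (f y)))
      (surj : ∀ y ∈ s', ∃ x ∈ s, r' (f x) y) :
      Rels k (FreeAbelianGroup.of ⟨n, s, r, h⟩ - FreeAbelianGroup.of ⟨m, s', r', h'⟩)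

/-- The Grothendieck group of constructible sets modulo constructible equivalence relations. -/
def MK (k : Type) [Field k] : Type :=
  FreeAbelianGroup (Gen k) ⧸ AddSubgroup.closure {z | Rels k z}

noncomputable instance (k : Type) [Field k] : AddCommGroup (MK k) :=
  inferInstanceAs (AddCommGroup (FreeAbelianGroup (Gen k) ⧸ AddSubgroup.closure {z | Rels k z}))

end Pool.Agent.MRat
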