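import Pool.Agent.Lib.MP_923aff_ag.FADefs
/-!
# JOB FAA: actions of finite groups: orbit relations, additivity, isomorphisms, induction, scaling

`FAct.St.dq`: the orbit relation is a finite disjunction (`DM.fex`). `fcl_congr`: `clq_map`.
`fcl_induce`: `clq_map` for the inclusion. `fcl_scaling`: `gm_lemma` with `r = A.rel`, then `clq_map` along `π`.
`stab_dm`: the set of all sets `S : Set F` is finite; `DM.fex`.
-/

set_option autoImplicit false

namespace Pool.Agent.MRat

open scoped MatrixGroups LinearAlgebra.Projectivization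

variable {k : Type} [Field k] [IsAlgClosed k] [CharZero k]
variable {F H : Type} [Group F] [Finite F] [Group H] [Finite H]
variable {X Y Z : Type} [DT k X] [DT k Y] [DT k Z]
variable {V V' : Type} [AddCommGroup V] [Module k V] [DT k V] [FDM k V]
  [AddCommGroup V'] [Module k V'] [DT k V'] [FDM k V']

theorem FAct.a_inv (A : FAct k F X) (g : F) (x : X) : A.a g⁻¹ (A.a g x) = x := by
  rw [← A.a_mul]; simp [A.a_one]

theorem FAct.a_inv' (A : FAct k F X) (g : F) (x : X) : A.a g (A.a g⁻¹ x) = x := by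
  rw [← A.a_mul]; simp [A.a_one]

theorem FAct.rel_refl (A : FAct k F X) (x : X) : A.rel x x := ⟨1, A.a_one x⟩

theorem FAct.rel_symm (A : FAct k F X) {x y : X} (h : A.rel x y) : A.rel y x := by
  obtain ⟨g, rfl⟩ := h; exact ⟨g⁻¹, A.a_inv g x⟩

theorem FAct.rel_trans (A : FAct k F X) {x y z : X} (h : A.rel x y) (h' : A.rel y z) :
    A.rel x z := by
  obtain ⟨g, rfl⟩ := h; obtain ⟨g', rfl⟩ := h'; exact ⟨g' * g, A.a_mul _ _ _⟩

theorem FAct.rel_dm (A : FAct k F X) : DM k (fun p : X × X => A.rel p.1 p.2) := by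
  refine DM.fex (fun g => ?_)
  exact DM.eq (DM.comp (A.d g) (DM.fst DM.id')) (DM.snd DM.id')

theorem FAct.St.dq {A : FAct k F X} {s : Set X} (h : A.St s) : DQ k s A.rel where
  ds := h.ds
  dr := (DM.comp h.ds (f := fun p : X × X => p.1) (DM.fst DM.id')).and
    ((DM.comp h.ds (f := fun p : X × X => p.2) (DM.snd DM.id')).and A.rel_dm)
  refl := fun x _ => A.rel_refl x
  symm := fun _ _ _ _ h => A.rel_symm h
  trans := fun _ _ _ _ _ _ h h' => A.rel_trans h h'

theorem FAct.St.mem_iff {A : FAct k F X} {s : Set X} (h : A.St s) (g : F) (x : X) :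
    A.a g x ∈ s ↔ x ∈ s := by
  constructor
  · intro hx
    have := h.st g⁻¹ _ hx
    rwa [A.a_inv] at this
  · exact h.st g x

theorem FAct.St.univ (A : FAct k F X) : A.St Set.univ where
  ds := (DM.const' True).congr_iff fun x => by simp
  st := fun _ _ _ => trivial

theorem FAct.St.empty (A : FAct k F X) : A.St ∅ where
  ds := (DM.const' False).congr_iff fun x => by simp
  st := fun _ _ hx => hx.elim

theorem FAct.St.union {A : FAct k F X} {s s' : Set X} (h : A.St s) (h' : A.St s') :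
    A.St (s ∪ s') where
  ds := (h.ds.or h'.ds).congr_iff fun _ => Iff.rfl
  st := by
    rintro g x (hx | hx)
    · exact Or.inl (h.st g x hx)
    · exact Or.inr (h'.st g x hx)

theorem FAct.St.inter {A : FAct k F X} {s s' : Set X} (h : A.St s) (h' : A.St s') :
    A.St (s ∩ s') where
  ds := (h.ds.and h'.ds).congr_iff fun _ => Iff.rfl
  st := fun g x hx => ⟨h.st g x hx.1, h'.st g x hx.2⟩

theorem FAct.St.diff {A : FAct k F X} {s s' : Set X} (h : A.St s) (h' : A.St s') :
    A.St (s \ s') where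
  ds := (h.ds.and h'.ds.not).congr_iff fun _ => Iff.rfl
  st := fun g x hx => ⟨h.st g x hx.1, fun hx' => hx.2 ((h'.mem_iff g x).1 hx')⟩

theorem FAct.St.prod {A : FAct k F X} {s : Set X} (h : A.St s) {B : FAct k F Y} {s' : Set Y}
    (h' : B.St s') : (A.prod B).St (s ×ˢ s') where
  ds := ((DM.comp h.ds (f := fun p : X × Y => p.1) (DM.fst DM.id')).and
    (DM.comp h'.ds (f := fun p : X × Y => p.2) (DM.snd DM.id'))).congr_iff fun _ => Iff.rfl
  st := fun g x hx => ⟨h.st g x.1 hx.1, h'.st g x.2 hx.2⟩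

theorem FAct.St.comap {A : FAct k F X} {s : Set X} (h : A.St s) (φ : H →* F) :
    (A.comap φ).St s where
  ds := h.ds
  st := fun g x hx => h.st (φ g) x hx

/-- Conditions on the stabiliser are definable. -/
theorem stab_dm (A : FAct k F X) (P : Set F → Prop) : DM k (fun x => P {g | A.a g x = x}) := by
  have h1 : DM k (fun x => ∃ S : Set F, P S ∧ ∀ g, (g ∈ S ↔ A.a g x = x)) :=
    DM.fex (fun S => DM.and (DM.const' _) (DM.fall (fun g =>
      DM.iff (DM.const' _) (DM.eq (A.d g) DM.id'))))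
  refine h1.congr_iff fun x => ?_
  constructor
  · rintro ⟨S, hS, hS'⟩
    have : S = {g | A.a g x = x} := Set.ext hS'
    rwa [← this]
  · intro h
    exact ⟨_, h, fun _ => Iff.rfl⟩

/-- The points whose stabiliser satisfies a condition invariant under conjugation. -/
theorem stab_st {A : FAct k F X} {s : Set X} (h : A.St s) (P : Set F → Prop)
    (hP : ∀ (g : F) (S : Set F), P S → P {x | g⁻¹ * x * g ∈ S}) :
    A.St {x ∈ s | P {g | A.a g x = x}} where
  ds := (h.ds.and (stab_dm A P)).congr_iff fun _ => Iff.rfl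
  st := by
    rintro g x ⟨hx, hPx⟩
    refine ⟨h.st g x hx, ?_⟩
    have h1 := hP g _ hPx
    have h2 : {y | g⁻¹ * y * g ∈ {g | A.a g x = x}} = {h | A.a h (A.a g x) = A.a g x} := by
      ext y
      simp only [Set.mem_setOf_eq]
      rw [A.a_mul, A.a_mul]
      constructor
      · intro h3
        have := congrArg (A.a g) h3
        rwa [A.a_inv'] at this
      · intro h3
        rw [h3, A.a_inv]
    rwa [h2] at h1

theorem fcl_empty (A : FAct k F X) : fcl A ∅ = 0 := clq_empty _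

theorem fcl_union {A : FAct k F X} {s s' : Set X} (h : A.St s) (h' : A.St s')
    (hd : Disjoint s s') : fcl A (s ∪ s') = fcl A s + fcl A s' := by
  refine clq_union (h.union h').dq h.ds h'.ds (fun _ hx hx' => Set.disjoint_left.1 hd hx hx') ?_
  rintro x hx y hy ⟨g, rfl⟩
  exact Set.disjoint_left.1 hd (h.st g x hx) hy

theorem fcl_split {A : FAct k F X} {s t : Set X} (h : A.St s) (h' : A.St t) (hs : t ⊆ s) :
    fcl A s = fcl A t + fcl A (s \ t) := by
  have h1 := clq_split h.dq t h'.ds (by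
    rintro x _ y _ ⟨g, rfl⟩ hx
    exact h'.st g x hx)
  rw [Set.inter_eq_right.2 hs] at h1
  exact h1

/-- Equivariant bijections. -/
theorem fcl_congr {A : FAct k F X} {B : FAct k F Y} {s : Set X} {s' : Set Y} (h : A.St s)
    (h' : B.St s') (f : X → Y) (hf : DM k f) (bij : Set.BijOn f s s')
    (fa : ∀ g, ∀ x ∈ s, f (A.a g x) = B.a g (f x)) : fcl A s = fcl B s' := by
  refine clq_map h.dq h'.dq f hf bij.mapsTo ?_ ?_
  · intro x hx y hy
    constructor
    · rintro ⟨g, rfl⟩
      exact ⟨g, (fa g x hx).symm⟩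
    · rintro ⟨g, hg⟩
      refine ⟨g, bij.injOn (h.st g x hx) hy ?_⟩
      rw [fa g x hx, hg]
  · intro y hy
    obtain ⟨x, hx, rfl⟩ := bij.surjOn hy
    exact ⟨x, hx, B.rel_refl _⟩

/-- The class only depends on the orbit relation. -/
theorem fcl_rel {A : FAct k F X} {B : FAct k H X} {s : Set X}
    (h : ∀ x ∈ s, ∀ y ∈ s, (A.rel x y ↔ B.rel x y)) : fcl A s = fcl B s := clq_congr h

theorem fcl_comap (A : FAct k F X) (φ : H →* F) (hφ : Function.Surjective φ) (s : Set X) :
    fcl (A.comap φ) s = fcl A s := by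
  refine fcl_rel fun x _ y _ => ?_
  constructor
  · rintro ⟨g, hg⟩
    exact ⟨φ g, hg⟩
  · rintro ⟨g, hg⟩
    obtain ⟨h, rfl⟩ := hφ g
    exact ⟨h, hg⟩

theorem fcl_trivial {A : FAct k F X} {s : Set X} (h : ∀ g, ∀ x ∈ s, A.a g x = x) :
    fcl A s = cl k s := by
  refine clq_congr fun x hx y _ => ?_
  constructor
  · rintro ⟨g, hg⟩
    rwa [h g x hx] at hg
  · rintro rfl
    exact A.rel_refl x

/-- Induction: `s` is induced from the `H`-stable subset `t`. -/
theorem fcl_induce {A : FAct k F X} {s t : Set X} (h : A.St s) (φ : H →* F)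
    (h' : (A.comap φ).St t) (hts : t ⊆ s) (cov : ∀ x ∈ s, ∃ g, A.a g x ∈ t)
    (res : ∀ x ∈ t, ∀ g, A.a g x ∈ t → ∃ h, φ h = g) : fcl A s = fcl (A.comap φ) t := by
  symm
  refine clq_map h'.dq h.dq (fun x => x) DM.id' (fun x hx => hts hx) ?_ ?_
  · intro x hx y hy
    constructor
    · rintro ⟨g, hg⟩
      exact ⟨φ g, hg⟩
    · rintro ⟨g, rfl⟩
      obtain ⟨h, rfl⟩ := res x hx g hy
      exact ⟨h, rfl⟩
  · intro y hy
    obtain ⟨g, hg⟩ := cov y hy
    exact ⟨_, hg, g⁻¹, A.a_inv g y⟩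

/-- The projective bundle formula on an induced space. -/
theorem nice_induce {A : FAct k F X} {s t : Set X} (h : A.St s) (φ : H →* F)
    (h' : (A.comap φ).St t) (hts : t ⊆ s) (cov : ∀ x ∈ s, ∃ g, A.a g x ∈ t)
    (res : ∀ x ∈ t, ∀ g, A.a g x ∈ t → ∃ h, φ h = g) (ρ : Representation k F V)
    (hn : Nice (A.comap φ) t (ρ.comp φ)) : Nice A s ρ := by
  unfold Nice at hn ⊢
  rw [fcl_induce h φ h' hts cov res, ← hn]
  have h1 : (A.prod (PRep ρ)).St (s ×ˢ (Set.univ : Set (ℙ k V))) := h.prod (FAct.St.univ _)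
  have h2 : ((A.prod (PRep ρ)).comap φ).St (t ×ˢ (Set.univ : Set (ℙ k V))) :=
    ⟨(h'.prod (FAct.St.univ ((PRep ρ).comap φ))).ds, fun g x hx => ⟨h'.st g x.1 hx.1, trivial⟩⟩
  rw [fcl_induce h1 φ h2 (Set.prod_mono_left hts)
    (fun x hx => by
      obtain ⟨g, hg⟩ := cov x.1 hx.1
      exact ⟨g, hg, trivial⟩)
    (fun x hx g hg => res x.1 hx.1 g hg.1)]
  exact fcl_rel fun _ _ _ _ => Iff.rfl

/-- The projective bundle formula can be checked on a subgroup which together with elements acting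
trivially generates the group. -/
theorem nice_restrict {A : FAct k F X} {s : Set X} (h : A.St s) (φ : H →* F)
    (ρ : Representation k F V)
    (hφ : ∀ g : F, ∃ h : H, (∀ x ∈ s, A.a g x = A.a (φ h) x) ∧ ρ g = ρ (φ h)) :
    Nice A s ρ ↔ Nice (A.comap φ) s (ρ.comp φ) := by
  have e1 : fcl A s = fcl (A.comap φ) s := by
    refine fcl_rel fun x hx y _ => ?_
    constructor
    · rintro ⟨g, hg⟩
      obtain ⟨h, h1, -⟩ := hφ g
      exact ⟨h, (h1 x hx).symm.trans hg⟩
    · rintro ⟨g, hg⟩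
      exact ⟨φ g, hg⟩
  have e2 : fcl (A.prod (PRep ρ)) (s ×ˢ (Set.univ : Set (ℙ k V))) =
      fcl ((A.comap φ).prod (PRep (ρ.comp φ))) (s ×ˢ (Set.univ : Set (ℙ k V))) := by
    refine fcl_rel fun x hx y _ => ?_
    constructor
    · rintro ⟨g, hg⟩
      obtain ⟨h, h1, h2⟩ := hφ g
      refine ⟨h, ?_⟩
      rw [← hg]
      refine Prod.ext (h1 x.1 hx.1).symm ?_
      have h3 : ∀ p : ℙ k V, (PRep (ρ.comp φ)).a h p = (PRep ρ).a g p := by
        intro p
        induction p using Projectivization.ind with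
        | h v hv =>
          rw [PRep_mk, PRep_mk]
          simp only [h2]
          rfl
      exact h3 x.2
    · rintro ⟨g, hg⟩
      exact ⟨φ g, hg⟩
  unfold Nice
  rw [e1, e2]

theorem nice_empty (A : FAct k F X) (ρ : Representation k F V) : Nice A ∅ ρ := by
  unfold Nice
  rw [Set.empty_prod, fcl_empty, fcl_empty, smul_zero]

theorem nice_union {A : FAct k F X} {s s' : Set X} (h : A.St s) (h' : A.St s')
    (hd : Disjoint s s') {ρ : Representation k F V} (hn : Nice A s ρ) (hn' : Nice A s' ρ) :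
    Nice A (s ∪ s') ρ := by
  unfold Nice at hn hn' ⊢
  rw [Set.union_prod, fcl_union (h.prod (FAct.St.univ _)) (h'.prod (FAct.St.univ _)), hn, hn',
    fcl_union h h' hd, smul_add]
  rw [Set.disjoint_left] at hd ⊢
  exact fun x hx hx' => hd hx.1 hx'.1

/-- If `s` is the union of `t` and its complement it is enough to treat both. -/
theorem nice_split {A : FAct k F X} {s t : Set X} (h : A.St s) (h' : A.St t)
    {ρ : Representation k F V} (hn : Nice A (s ∩ t) ρ) (hn' : Nice A (s \ t) ρ) :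
    Nice A s ρ := by
  have h1 := nice_union (h.inter h') (h.diff h') (by
    rw [Set.disjoint_left]
    exact fun x hx hx' => hx'.2 hx.2) hn hn'
  rwa [Set.inter_union_diff] at h1

/-- Transport of the projective bundle formula along an equivariant bijection of the base. -/
theorem nice_congr {A : FAct k F X} {B : FAct k F Y} {s : Set X} {s' : Set Y} (h : A.St s)
    (h' : B.St s') (f : X → Y) (hf : DM k f) (bij : Set.BijOn f s s')
    (fa : ∀ g, ∀ x ∈ s, f (A.a g x) = B.a g (f x)) (ρ : Representation k F V) :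
    Nice A s ρ ↔ Nice B s' ρ := by
  have e1 := fcl_congr h h' f hf bij fa
  have e2 : fcl (A.prod (PRep ρ)) (s ×ˢ (Set.univ : Set (ℙ k V))) =
      fcl (B.prod (PRep ρ)) (s' ×ˢ (Set.univ : Set (ℙ k V))) := by
    refine fcl_congr (h.prod (FAct.St.univ _)) (h'.prod (FAct.St.univ _))
      (fun p => (f p.1, p.2)) (DM.mk (DM.comp hf (DM.fst DM.id')) (DM.snd DM.id')) ?_ ?_
    · refine ⟨fun p hp => ⟨bij.mapsTo hp.1, trivial⟩, ?_, ?_⟩
      · intro p hp q hq hpq
        have hpq' : (f p.1, p.2) = (f q.1, q.2) := hpq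
        rw [Prod.mk.injEq] at hpq'
        exact Prod.ext (bij.injOn hp.1 hq.1 hpq'.1) hpq'.2
      · rintro ⟨y, v⟩ ⟨hy, -⟩
        obtain ⟨x, hx, hxy⟩ := bij.surjOn hy
        exact ⟨(x, v), ⟨hx, trivial⟩, Prod.ext hxy rfl⟩
    · intro g p hp
      exact Prod.ext (fa g p.1 hp.1) rfl
  unfold Nice
  rw [e1, e2]

/-- A free action of `kˣ` on `s` with quotient `s'`. -/
theorem fcl_scaling {A : FAct k F X} {B : FAct k F Y} {s : Set X} {s' : Set Y} (h : A.St s)
    (h' : B.St s') (π : X → Y) (hπ : DM k π) (maps : ∀ x ∈ s, π x ∈ s')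
    (surj : ∀ y ∈ s', ∃ x ∈ s, π x = y) (πa : ∀ g, ∀ x ∈ s, π (A.a g x) = B.a g (π x))
    (l : kˣ → X → X) (dl : DM k (fun p : kˣ × X => l p.1 p.2)) (l_mem : ∀ c, ∀ x ∈ s, l c x ∈ s)
    (l_one : ∀ x ∈ s, l 1 x = x) (l_mul : ∀ b c, ∀ x ∈ s, l (b * c) x = l b (l c x))
    (free : ∀ c, ∀ x ∈ s, l c x = x → c = 1)
    (fib : ∀ x ∈ s, ∀ x' ∈ s, (π x = π x' ↔ ∃ c, l c x = x'))
    (la : ∀ c g, ∀ x ∈ s, l c (A.a g x) = A.a g (l c x)) :
    fcl A s = (L - 1) • fcl B s' := by
  have hπl : ∀ c, ∀ x ∈ s, π (l c x) = π x := fun c x hx =>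
    ((fib x hx (l c x) (l_mem c x hx)).2 ⟨c, rfl⟩).symm
  have linj : ∀ b c, ∀ x ∈ s, l b x = l c x → b = c := by
    intro b c x hx hbc
    have h1 : l (c⁻¹ * b) x = x := by
      rw [l_mul _ _ x hx, hbc, ← l_mul _ _ x hx, inv_mul_cancel, l_one x hx]
    have h2 := free _ x hx h1
    have h3 : b = c * (c⁻¹ * b) := by rw [mul_inv_cancel_left]
    rw [h3, h2, mul_one]
  have h1 := gm_lemma h.dq l dl l_mem (fun x hx => by rw [l_one x hx]; exact A.rel_refl x)
    (fun b c x hx => by rw [l_mul b c x hx]; exact A.rel_refl _)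
    (fun c x hx y _ hxy => by
      obtain ⟨g, rfl⟩ := hxy
      exact ⟨g, (la c g x hx).symm⟩)
    (fun x hx => by
      have h2 : {c : kˣ | A.rel (l c x) x} = ⋃ g : F, {c : kˣ | A.a g (l c x) = x} := by
        ext c
        simp only [Set.mem_setOf_eq, Set.mem_iUnion]
        rfl
      rw [h2]
      refine Set.finite_iUnion fun g => Set.Subsingleton.finite ?_
      intro b hb c hc
      refine linj b c x hx ?_
      have hb' : A.a g (l b x) = x := hb
      have hc' : A.a g (l c x) = x := hc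
      rw [← A.a_inv g (l b x), ← A.a_inv g (l c x), hb', hc'])
  unfold fcl
  rw [h1.2]
  congr 1
  refine clq_map h1.1 h'.dq π hπ maps ?_ ?_
  · intro x hx y hy
    constructor
    · rintro ⟨c, g, hg⟩
      refine ⟨g, ?_⟩
      rw [← hπl c x hx, ← πa g _ (l_mem c x hx), hg]
    · rintro ⟨g, hg⟩
      rw [← πa g x hx] at hg
      obtain ⟨c, hc⟩ := (fib _ (h.st g x hx) y hy).1 hg
      exact ⟨c, g, by rw [← la c g x hx, hc]⟩
  · intro y hy
    obtain ⟨x, hx, rfl⟩ := surj y hy
    exact ⟨x, hx, B.rel_refl _⟩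

end Pool.Agent.MRat
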