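import Pool.Agent.Lib.MP_923aff_ag.FA1
/-!
# JOB FAB: the sum formula for projective bundles and its consequences

`fcl_sum`: decompose `P(V0 × V1)` into `{v1 = 0} ≅ P(V0)`, `{v0 = 0} ≅ P(V1)` and the rest, which maps to
`P(V0) × P(V1)` by `[v0, v1] ↦ ([v0], [v1])`; `kˣ` acts on the rest by `[v0, v1] ↦ [c v0, v1]`, simply transitively
on the fibres (`fcl_scaling`). `fcl_proj_equiv`: `fcl_congr` with `Projectivization.map`.
`nice_twist`: `P(V1)` is the same `F`-space for `ρ1` and `ρ1'`, so both sides of the sum formula agree.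
Use `br (a + b) = br a + br b + (L - 1) * br a * br b`.
-/

set_option autoImplicit false

namespace Pool.Agent.MRat

open scoped MatrixGroups LinearAlgebra.Projectivization

variable {k : Type} [Field k] [IsAlgClosed k] [CharZero k]
variable {F H : Type} [Group F] [Finite F] [Group H] [Finite H]
variable {X Y Z : Type} [DT k X] [DT k Y] [DT k Z]
variable {V V' V0 V1 : Type} [AddCommGroup V] [Module k V] [DT k V] [FDM k V]
  [AddCommGroup V'] [Module k V'] [DT k V'] [FDM k V']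
  [AddCommGroup V0] [Module k V0] [DT k V0] [FDM k V0]
  [AddCommGroup V1] [Module k V1] [DT k V1] [FDM k V1]

theorem br_zero : br 0 = 0 := by simp [br]

theorem br_one : br 1 = 1 := by simp [br]

theorem br_add (a b : ℕ) : br (a + b) = br a + br b + (L - 1) * (br a * br b) := by
  have h1 : (L - 1) * br a = L ^ a - 1 := mul_geom_sum L a
  have h2 : br (a + b) = br a + L ^ a * br b := by
    unfold br
    rw [Finset.sum_range_add, Finset.mul_sum]
    congr 1
    refine Finset.sum_congr rfl fun i _ => ?_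
    rw [pow_add]
  have h3 : (L - 1) * (br a * br b) = (L ^ a - 1) * br b := by
    rw [← mul_assoc, h1]
  rw [h2, h3]
  ring

omit [DT k V] [FDM k V] [IsAlgClosed k] [CharZero k] in
theorem FAB_isrep {v w : V} {hv : v ≠ 0} :
    isrep w (Projectivization.mk k v hv) ↔ ∃ c : k, c ≠ 0 ∧ w = c • v := by
  constructor
  · rintro ⟨hw, h⟩
    rw [Projectivization.mk_eq_mk_iff'] at h
    obtain ⟨c, hc⟩ := h
    refine ⟨c, ?_, hc.symm⟩
    rintro rfl
    rw [zero_smul] at hc
    exact hw hc.symm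
  · rintro ⟨c, hc, rfl⟩
    refine ⟨smul_ne_zero hc hv, ?_⟩
    rw [Projectivization.mk_eq_mk_iff']
    exact ⟨c, rfl⟩

/-- Maps induced by linear injections are definable. -/
theorem FAB_map_dm (f : V →ₗ[k] V') (hf : Function.Injective f) :
    DM k (fun p : ℙ k V => Projectivization.map f hf p) := by
  have h1 : DM k f := lin_dm f
  refine DM.of_graph (R := fun q p => ∃ v : V, isrep v q ∧ isrep (f v) p) ?_ ?_
  · refine DM.ex ?_
    exact DM.and (DM.isrep (DM.snd DM.id') (by fun_prop))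
      (DM.isrep (DM.comp h1 (by fun_prop)) (by fun_prop))
  · intro q p
    induction q using Projectivization.ind with
    | h v hv =>
      have hfv : f v ≠ 0 := fun h => hv (hf (by rw [h, map_zero]))
      constructor
      · rintro ⟨v', ⟨hv', h3⟩, ⟨hv2, h4⟩⟩
        rw [← h4]
        exact congrArg (Projectivization.map f hf) h3
      · rintro rfl
        exact ⟨v, ⟨hv, rfl⟩, ⟨hfv, rfl⟩⟩

/-- Points with nonzero first component. -/
private def nz0 (k V0 V1 : Type) [Field k] [AddCommGroup V0] [Module k V0]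
    [AddCommGroup V1] [Module k V1] : Set (ℙ k (V0 × V1)) :=
  {p | ∃ v : V0 × V1, isrep v p ∧ v.1 ≠ 0}

private def nz1 (k V0 V1 : Type) [Field k] [AddCommGroup V0] [Module k V0]
    [AddCommGroup V1] [Module k V1] : Set (ℙ k (V0 × V1)) :=
  {p | ∃ v : V0 × V1, isrep v p ∧ v.2 ≠ 0}

omit [DT k V0] [FDM k V0] [DT k V1] [FDM k V1] [IsAlgClosed k] [CharZero k] in
private theorem mem_nz0 {v : V0 × V1} {hv : v ≠ 0} :
    Projectivization.mk k v hv ∈ nz0 k V0 V1 ↔ v.1 ≠ 0 := by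
  constructor
  · rintro ⟨w, hw, h⟩
    rw [FAB_isrep] at hw
    obtain ⟨c, hc, rfl⟩ := hw
    intro h1
    exact h (by rw [Prod.smul_fst, h1, smul_zero])
  · intro h
    exact ⟨v, ⟨hv, rfl⟩, h⟩

omit [DT k V0] [FDM k V0] [DT k V1] [FDM k V1] [IsAlgClosed k] [CharZero k] in
private theorem mem_nz1 {v : V0 × V1} {hv : v ≠ 0} :
    Projectivization.mk k v hv ∈ nz1 k V0 V1 ↔ v.2 ≠ 0 := by
  constructor
  · rintro ⟨w, hw, h⟩
    rw [FAB_isrep] at hw
    obtain ⟨c, hc, rfl⟩ := hw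
    intro h1
    exact h (by rw [Prod.smul_snd, h1, smul_zero])
  · intro h
    exact ⟨v, ⟨hv, rfl⟩, h⟩

private theorem nz0_dm : DM k (fun p : ℙ k (V0 × V1) => p ∈ nz0 k V0 V1) := by
  refine DM.ex (DM.and (DM.isrep (DM.snd DM.id') (DM.fst DM.id')) ?_)
  fun_prop

private theorem nz1_dm : DM k (fun p : ℙ k (V0 × V1) => p ∈ nz1 k V0 V1) := by
  refine DM.ex (DM.and (DM.isrep (DM.snd DM.id') (DM.fst DM.id')) ?_)
  fun_prop

omit [Finite F] in
private theorem nz0_a (ρ0 : Representation k F V0) (ρ1 : Representation k F V1) (g : F)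
    (p : ℙ k (V0 × V1)) : (PRep (ρ0.prod ρ1)).a g p ∈ nz0 k V0 V1 ↔ p ∈ nz0 k V0 V1 := by
  induction p using Projectivization.ind with
  | h v hv =>
    rw [PRep_mk, mem_nz0, mem_nz0]
    exact not_congr (map_eq_zero_iff (ρ0 g) (rep_inj ρ0 g))

omit [Finite F] in
private theorem nz1_a (ρ0 : Representation k F V0) (ρ1 : Representation k F V1) (g : F)
    (p : ℙ k (V0 × V1)) : (PRep (ρ0.prod ρ1)).a g p ∈ nz1 k V0 V1 ↔ p ∈ nz1 k V0 V1 := by
  induction p using Projectivization.ind with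
  | h v hv =>
    rw [PRep_mk, mem_nz1, mem_nz1]
    exact not_congr (map_eq_zero_iff (ρ1 g) (rep_inj ρ1 g))

omit [DT k V0] [FDM k V0] [DT k V1] [FDM k V1] [IsAlgClosed k] [CharZero k] in
private theorem nz_or (p : ℙ k (V0 × V1)) : p ∈ nz0 k V0 V1 ∨ p ∈ nz1 k V0 V1 := by
  induction p using Projectivization.ind with
  | h v hv =>
    rw [mem_nz0, mem_nz1]
    by_contra h
    push Not at h
    exact hv (Prod.ext h.1 h.2)

/-- The first projection. -/
private theorem ex_q0 [Nonempty (ℙ k V0)] : ∃ q0 : ℙ k (V0 × V1) → ℙ k V0, DM k q0 ∧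
    ∀ (v : V0 × V1) (hv : v ≠ 0) (h0 : v.1 ≠ 0),
      q0 (Projectivization.mk k v hv) = Projectivization.mk k v.1 h0 := by
  obtain ⟨f, hf, h⟩ := DM.choice (k := k) (s := nz0 k V0 V1) (nz0_dm (k := k))
    (R := fun (p : ℙ k (V0 × V1)) (q : ℙ k V0) => ∃ v : V0 × V1, isrep v p ∧ isrep v.1 q) (by
      refine DM.and (DM.comp (nz0_dm (k := k)) (DM.fst DM.id')) (DM.ex ?_)
      exact DM.and (DM.isrep (by fun_prop) (by fun_prop)) (DM.isrep (by fun_prop) (by fun_prop)))
    (by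
      intro p hp
      induction p using Projectivization.ind with
      | h v hv =>
        rw [mem_nz0] at hp
        refine ⟨Projectivization.mk k v.1 hp, ⟨v, ⟨hv, rfl⟩, ⟨hp, rfl⟩⟩, ?_⟩
        rintro q ⟨w, hw, ⟨hw1, rfl⟩⟩
        rw [FAB_isrep] at hw
        obtain ⟨c, hc, rfl⟩ := hw
        rw [Projectivization.mk_eq_mk_iff']
        exact ⟨c, rfl⟩)
  refine ⟨f, hf, fun v hv h0 => ?_⟩
  obtain ⟨w, hw, ⟨hw1, hw2⟩⟩ := h _ (mem_nz0.2 h0 : Projectivization.mk k v hv ∈ nz0 k V0 V1)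
  rw [← hw2]
  rw [FAB_isrep] at hw
  obtain ⟨c, hc, rfl⟩ := hw
  rw [Projectivization.mk_eq_mk_iff']
  exact ⟨c, rfl⟩

/-- The second projection. -/
private theorem ex_q1 [Nonempty (ℙ k V1)] : ∃ q1 : ℙ k (V0 × V1) → ℙ k V1, DM k q1 ∧
    ∀ (v : V0 × V1) (hv : v ≠ 0) (h1 : v.2 ≠ 0),
      q1 (Projectivization.mk k v hv) = Projectivization.mk k v.2 h1 := by
  obtain ⟨f, hf, h⟩ := DM.choice (k := k) (s := nz1 k V0 V1) (nz1_dm (k := k))
    (R := fun (p : ℙ k (V0 × V1)) (q : ℙ k V1) => ∃ v : V0 × V1, isrep v p ∧ isrep v.2 q) (by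
      refine DM.and (DM.comp (nz1_dm (k := k)) (DM.fst DM.id')) (DM.ex ?_)
      exact DM.and (DM.isrep (by fun_prop) (by fun_prop)) (DM.isrep (by fun_prop) (by fun_prop)))
    (by
      intro p hp
      induction p using Projectivization.ind with
      | h v hv =>
        rw [mem_nz1] at hp
        refine ⟨Projectivization.mk k v.2 hp, ⟨v, ⟨hv, rfl⟩, ⟨hp, rfl⟩⟩, ?_⟩
        rintro q ⟨w, hw, ⟨hw1, rfl⟩⟩
        rw [FAB_isrep] at hw
        obtain ⟨c, hc, rfl⟩ := hw
        rw [Projectivization.mk_eq_mk_iff']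
        exact ⟨c, rfl⟩)
  refine ⟨f, hf, fun v hv h0 => ?_⟩
  obtain ⟨w, hw, ⟨hw1, hw2⟩⟩ := h _ (mem_nz1.2 h0 : Projectivization.mk k v hv ∈ nz1 k V0 V1)
  rw [← hw2]
  rw [FAB_isrep] at hw
  obtain ⟨c, hc, rfl⟩ := hw
  rw [Projectivization.mk_eq_mk_iff']
  exact ⟨c, rfl⟩

omit [DT k V0] [FDM k V0] [DT k V1] [FDM k V1] [IsAlgClosed k] [CharZero k] [Module k V1] in
private theorem sc_ne (c : kˣ) {v : V0 × V1} (hv : v ≠ 0) : ((c : k) • v.1, v.2) ≠ (0 : V0 × V1) := by
  intro h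
  rw [Prod.mk_eq_zero] at h
  refine hv (Prod.ext ?_ h.2)
  exact (smul_eq_zero.1 h.1).resolve_left c.ne_zero

/-- Scaling the first component. -/
private noncomputable def sc (c : kˣ) : ℙ k (V0 × V1) → ℙ k (V0 × V1) :=
  Projectivization.map (LinearMap.prodMap ((c : k) • LinearMap.id) LinearMap.id) (by
    rw [← LinearMap.ker_eq_bot, LinearMap.ker_eq_bot']
    intro v hv
    by_contra h
    exact sc_ne c h hv)

omit [DT k V0] [FDM k V0] [DT k V1] [FDM k V1] [IsAlgClosed k] [CharZero k] in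
private theorem sc_mk (c : kˣ) {v : V0 × V1} (hv : v ≠ 0) :
    sc c (Projectivization.mk k v hv) = Projectivization.mk k ((c : k) • v.1, v.2) (sc_ne c hv) :=
  rfl

private theorem sc_dm : DM k (fun q : kˣ × ℙ k (V0 × V1) => sc q.1 q.2) := by
  refine DM.of_graph (R := fun (q : kˣ × ℙ k (V0 × V1)) p =>
    ∃ v : V0 × V1, isrep v q.2 ∧ isrep ((q.1 : k) • v.1, v.2) p) ?_ ?_
  · refine DM.ex (DM.and (DM.isrep (by fun_prop) (by fun_prop)) (DM.isrep ?_ (by fun_prop)))
    fun_prop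
  · rintro ⟨c, q⟩ p
    induction q using Projectivization.ind with
    | h v hv =>
      constructor
      · rintro ⟨v', ⟨hv', h3⟩, ⟨hv2, h4⟩⟩
        dsimp only at h3 h4 hv2 ⊢
        rw [← h4, ← h3, sc_mk]
      · rintro rfl
        exact ⟨v, ⟨hv, rfl⟩, ⟨sc_ne c hv, rfl⟩⟩

private theorem fcl_sum0 (A : FAct k F X) {s : Set X} (hs : A.St s) (ρ0 : Representation k F V0)
    (ρ1 : Representation k F V1) (h0 : (PRep (ρ0.prod ρ1)).St (nz1 k V0 V1)ᶜ) :
    fcl (A.prod (PRep (ρ0.prod ρ1))) (s ×ˢ (nz1 k V0 V1)ᶜ) =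
      fcl (A.prod (PRep ρ0)) (s ×ˢ (Set.univ : Set (ℙ k V0))) := by
  symm
  refine fcl_congr (hs.prod (FAct.St.univ _)) (hs.prod h0)
    (fun p => (p.1, Projectivization.map (LinearMap.inl k V0 V1) LinearMap.inl_injective p.2))
    ?_ ?_ ?_
  · exact DM.mk (DM.fst DM.id') (DM.comp (FAB_map_dm (LinearMap.inl k V0 V1) _) (DM.snd DM.id'))
  · refine ⟨?_, ?_, ?_⟩
    · rintro ⟨x, p⟩ ⟨hx, -⟩
      induction p using Projectivization.ind with
      | h v hv =>
        refine ⟨hx, ?_⟩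
        show Projectivization.mk k (LinearMap.inl k V0 V1 v) _ ∉ nz1 k V0 V1
        rw [mem_nz1]
        simp
    · rintro ⟨x, p⟩ - ⟨y, q⟩ - h
      rw [Prod.mk.injEq] at h
      exact Prod.ext h.1 (Projectivization.map_injective _ LinearMap.inl_injective h.2)
    · rintro ⟨x, p⟩ ⟨hx, hp⟩
      induction p using Projectivization.ind with
      | h v hv =>
        have hp' : ¬ v.2 ≠ 0 := fun h => hp (mem_nz1.2 h)
        rw [not_ne_iff] at hp'
        have hv0 : v.1 ≠ 0 := fun h => hv (Prod.ext h hp')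
        refine ⟨(x, Projectivization.mk k v.1 hv0), ⟨hx, trivial⟩, ?_⟩
        refine Prod.ext rfl ?_
        show Projectivization.mk k (LinearMap.inl k V0 V1 v.1) _ = _
        congr 1
        exact Prod.ext rfl hp'.symm
  · rintro g ⟨x, p⟩ -
    induction p using Projectivization.ind with
    | h v hv =>
      refine Prod.ext rfl ?_
      show Projectivization.mk k (LinearMap.inl k V0 V1 (ρ0 g v)) _ =
        Projectivization.mk k ((ρ0.prod ρ1) g (LinearMap.inl k V0 V1 v)) _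
      congr 1
      refine Prod.ext rfl ?_
      show 0 = ρ1 g 0
      rw [map_zero]

private theorem fcl_sum1 (A : FAct k F X) {s : Set X} (hs : A.St s) (ρ0 : Representation k F V0)
    (ρ1 : Representation k F V1) (h0 : (PRep (ρ0.prod ρ1)).St (nz0 k V0 V1)ᶜ) :
    fcl (A.prod (PRep (ρ0.prod ρ1))) (s ×ˢ (nz0 k V0 V1)ᶜ) =
      fcl (A.prod (PRep ρ1)) (s ×ˢ (Set.univ : Set (ℙ k V1))) := by
  symm
  refine fcl_congr (hs.prod (FAct.St.univ _)) (hs.prod h0)
    (fun p => (p.1, Projectivization.map (LinearMap.inr k V0 V1) LinearMap.inr_injective p.2))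
    ?_ ?_ ?_
  · exact DM.mk (DM.fst DM.id') (DM.comp (FAB_map_dm (LinearMap.inr k V0 V1) _) (DM.snd DM.id'))
  · refine ⟨?_, ?_, ?_⟩
    · rintro ⟨x, p⟩ ⟨hx, -⟩
      induction p using Projectivization.ind with
      | h v hv =>
        refine ⟨hx, ?_⟩
        show Projectivization.mk k (LinearMap.inr k V0 V1 v) _ ∉ nz0 k V0 V1
        rw [mem_nz0]
        simp
    · rintro ⟨x, p⟩ - ⟨y, q⟩ - h
      rw [Prod.mk.injEq] at h
      exact Prod.ext h.1 (Projectivization.map_injective _ LinearMap.inr_injective h.2)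
    · rintro ⟨x, p⟩ ⟨hx, hp⟩
      induction p using Projectivization.ind with
      | h v hv =>
        have hp' : ¬ v.1 ≠ 0 := fun h => hp (mem_nz0.2 h)
        rw [not_ne_iff] at hp'
        have hv0 : v.2 ≠ 0 := fun h => hv (Prod.ext hp' h)
        refine ⟨(x, Projectivization.mk k v.2 hv0), ⟨hx, trivial⟩, ?_⟩
        refine Prod.ext rfl ?_
        show Projectivization.mk k (LinearMap.inr k V0 V1 v.2) _ = _
        congr 1
        exact Prod.ext hp'.symm rfl
  · rintro g ⟨x, p⟩ -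
    induction p using Projectivization.ind with
    | h v hv =>
      refine Prod.ext rfl ?_
      show Projectivization.mk k (LinearMap.inr k V0 V1 (ρ1 g v)) _ =
        Projectivization.mk k ((ρ0.prod ρ1) g (LinearMap.inr k V0 V1 v)) _
      congr 1
      refine Prod.ext ?_ rfl
      show 0 = ρ0 g 0
      rw [map_zero]

private theorem fcl_sum2 (A : FAct k F X) {s : Set X} (hs : A.St s) (ρ0 : Representation k F V0)
    (ρ1 : Representation k F V1) (h0 : (PRep (ρ0.prod ρ1)).St (nz0 k V0 V1 ∩ nz1 k V0 V1)) :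
    fcl (A.prod (PRep (ρ0.prod ρ1))) (s ×ˢ (nz0 k V0 V1 ∩ nz1 k V0 V1)) =
      (L - 1) • fcl ((A.prod (PRep ρ0)).prod (PRep ρ1))
        ((s ×ˢ (Set.univ : Set (ℙ k V0))) ×ˢ (Set.univ : Set (ℙ k V1))) := by
  rcases isEmpty_or_nonempty (ℙ k V0) with hn0 | hn0
  · have e1 : s ×ˢ (nz0 k V0 V1 ∩ nz1 k V0 V1) = ∅ := by
      rw [Set.eq_empty_iff_forall_notMem]
      rintro ⟨x, p⟩ ⟨-, hp, -⟩
      induction p using Projectivization.ind with
      | h v hv =>
        change Projectivization.mk k v hv ∈ nz0 k V0 V1 at hp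
        rw [mem_nz0] at hp
        exact hn0.false (Projectivization.mk k v.1 hp)
    have e2 : ((s ×ˢ (Set.univ : Set (ℙ k V0))) ×ˢ (Set.univ : Set (ℙ k V1))) = ∅ := by
      rw [Set.eq_empty_iff_forall_notMem]
      rintro ⟨⟨x, p⟩, q⟩ -
      exact hn0.false p
    rw [e1, e2, fcl_empty, fcl_empty, smul_zero]
  rcases isEmpty_or_nonempty (ℙ k V1) with hn1 | hn1
  · have e1 : s ×ˢ (nz0 k V0 V1 ∩ nz1 k V0 V1) = ∅ := by
      rw [Set.eq_empty_iff_forall_notMem]
      rintro ⟨x, p⟩ ⟨-, -, hp⟩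
      induction p using Projectivization.ind with
      | h v hv =>
        change Projectivization.mk k v hv ∈ nz1 k V0 V1 at hp
        rw [mem_nz1] at hp
        exact hn1.false (Projectivization.mk k v.2 hp)
    have e2 : ((s ×ˢ (Set.univ : Set (ℙ k V0))) ×ˢ (Set.univ : Set (ℙ k V1))) = ∅ := by
      rw [Set.eq_empty_iff_forall_notMem]
      rintro ⟨⟨x, p⟩, q⟩ -
      exact hn1.false q
    rw [e1, e2, fcl_empty, fcl_empty, smul_zero]
  obtain ⟨q0, hq0, hq0'⟩ := ex_q0 (k := k) (V0 := V0) (V1 := V1)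
  obtain ⟨q1, hq1, hq1'⟩ := ex_q1 (k := k) (V0 := V0) (V1 := V1)
  refine fcl_scaling (hs.prod h0) ((hs.prod (FAct.St.univ _)).prod (FAct.St.univ _))
    (fun p => ((p.1, q0 p.2), q1 p.2)) ?_ ?_ ?_ ?_ (fun c p => (p.1, sc c p.2)) ?_ ?_ ?_ ?_ ?_ ?_ ?_
  · exact DM.mk (DM.mk (DM.fst DM.id') (DM.comp hq0 (DM.snd DM.id')))
      (DM.comp hq1 (DM.snd DM.id'))
  · rintro ⟨x, p⟩ ⟨hx, -⟩
    exact ⟨⟨hx, trivial⟩, trivial⟩
  · rintro ⟨⟨x, p⟩, q⟩ ⟨⟨hx, -⟩, -⟩
    induction p using Projectivization.ind with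
    | h v hv =>
      induction q using Projectivization.ind with
      | h w hw =>
        have hvw : (v, w) ≠ (0 : V0 × V1) := fun h => hv (congrArg Prod.fst h)
        refine ⟨(x, Projectivization.mk k (v, w) hvw), ⟨hx, mem_nz0.2 hv, mem_nz1.2 hw⟩, ?_⟩
        exact Prod.ext (Prod.ext rfl (hq0' (v, w) hvw hv)) (hq1' (v, w) hvw hw)
  · rintro g ⟨x, p⟩ ⟨hx, hp0, hp1⟩
    induction p using Projectivization.ind with
    | h v hv =>
      change Projectivization.mk k v hv ∈ nz0 k V0 V1 at hp0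
      change Projectivization.mk k v hv ∈ nz1 k V0 V1 at hp1
      rw [mem_nz0] at hp0
      rw [mem_nz1] at hp1
      refine Prod.ext (Prod.ext rfl ?_) ?_
      · show q0 ((PRep (ρ0.prod ρ1)).a g (Projectivization.mk k v hv)) =
          (PRep ρ0).a g (q0 (Projectivization.mk k v hv))
        rw [PRep_mk, hq0' v hv hp0, PRep_mk]
        exact hq0' _ _ (rep_ne ρ0 g hp0)
      · show q1 ((PRep (ρ0.prod ρ1)).a g (Projectivization.mk k v hv)) =
          (PRep ρ1).a g (q1 (Projectivization.mk k v hv))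
        rw [PRep_mk, hq1' v hv hp1, PRep_mk]
        exact hq1' _ _ (rep_ne ρ1 g hp1)
  · refine DM.mk (by fun_prop) ?_
    exact DM.comp (sc_dm (k := k) (V0 := V0) (V1 := V1))
      (f := fun q : kˣ × (X × ℙ k (V0 × V1)) => (q.1, q.2.2)) (by fun_prop)
  · rintro c ⟨x, p⟩ ⟨hx, hp0, hp1⟩
    induction p using Projectivization.ind with
    | h v hv =>
      change Projectivization.mk k v hv ∈ nz0 k V0 V1 at hp0
      change Projectivization.mk k v hv ∈ nz1 k V0 V1 at hp1
      rw [mem_nz0] at hp0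
      rw [mem_nz1] at hp1
      refine ⟨hx, ?_, ?_⟩
      · show sc c (Projectivization.mk k v hv) ∈ nz0 k V0 V1
        rw [sc_mk, mem_nz0]
        exact smul_ne_zero c.ne_zero hp0
      · show sc c (Projectivization.mk k v hv) ∈ nz1 k V0 V1
        rw [sc_mk, mem_nz1]
        exact hp1
  · rintro ⟨x, p⟩ -
    induction p using Projectivization.ind with
    | h v hv =>
      refine Prod.ext rfl ?_
      show sc 1 (Projectivization.mk k v hv) = Projectivization.mk k v hv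
      rw [sc_mk]
      congr 1
      exact Prod.ext (by simp) rfl
  · rintro b c ⟨x, p⟩ -
    induction p using Projectivization.ind with
    | h v hv =>
      refine Prod.ext rfl ?_
      show sc (b * c) (Projectivization.mk k v hv) = sc b (sc c (Projectivization.mk k v hv))
      rw [sc_mk, sc_mk, sc_mk]
      congr 1
      exact Prod.ext (by simp [mul_smul]) rfl
  · rintro c ⟨x, p⟩ ⟨hx, hp0, hp1⟩ h
    induction p using Projectivization.ind with
    | h v hv =>
      change Projectivization.mk k v hv ∈ nz0 k V0 V1 at hp0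
      change Projectivization.mk k v hv ∈ nz1 k V0 V1 at hp1
      rw [mem_nz0] at hp0
      rw [mem_nz1] at hp1
      have h2 : sc c (Projectivization.mk k v hv) = Projectivization.mk k v hv :=
        congrArg Prod.snd h
      rw [sc_mk, Projectivization.mk_eq_mk_iff'] at h2
      obtain ⟨a, ha⟩ := h2
      have ha1 : a • v.1 = (c : k) • v.1 := congrArg Prod.fst ha
      have ha2 : a • v.2 = v.2 := congrArg Prod.snd ha
      have ha3 : a = 1 := by
        have : (a - 1) • v.2 = 0 := by rw [sub_smul, ha2, one_smul, sub_self]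
        exact sub_eq_zero.1 ((smul_eq_zero.1 this).resolve_right hp1)
      have ha4 : (c : k) = 1 := by
        have : ((c : k) - 1) • v.1 = 0 := by
          rw [sub_smul, ← ha1, ha3, sub_self]
        exact sub_eq_zero.1 ((smul_eq_zero.1 this).resolve_right hp0)
      exact Units.ext ha4
  · rintro ⟨x, p⟩ ⟨hx, hp0, hp1⟩ ⟨y, q⟩ ⟨hy, hq2, hq3⟩
    induction p using Projectivization.ind with
    | h v hv =>
      induction q using Projectivization.ind with
      | h w hw =>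
        change Projectivization.mk k v hv ∈ nz0 k V0 V1 at hp0
        change Projectivization.mk k v hv ∈ nz1 k V0 V1 at hp1
        rw [mem_nz0] at hp0
        rw [mem_nz1] at hp1
        change Projectivization.mk k w hw ∈ nz0 k V0 V1 at hq2
        change Projectivization.mk k w hw ∈ nz1 k V0 V1 at hq3
        rw [mem_nz0] at hq2
        rw [mem_nz1] at hq3
        show (((x, q0 (Projectivization.mk k v hv)), q1 (Projectivization.mk k v hv)) =
          ((y, q0 (Projectivization.mk k w hw)), q1 (Projectivization.mk k w hw))) ↔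
          ∃ c, (x, sc c (Projectivization.mk k v hv)) = (y, Projectivization.mk k w hw)
        rw [hq0' v hv hp0, hq1' v hv hp1, hq0' w hw hq2, hq1' w hw hq3]
        simp only [Prod.mk.injEq, Projectivization.mk_eq_mk_iff', sc_mk]
        constructor
        · rintro ⟨⟨h1, a, ha⟩, b, hb⟩
          have ha0 : a ≠ 0 := fun h => hp0 (by rw [← ha, h, zero_smul])
          have hb0 : b ≠ 0 := fun h => hp1 (by rw [← hb, h, zero_smul])
          refine ⟨Units.mk0 (b * a⁻¹) (mul_ne_zero hb0 (inv_ne_zero ha0)), h1, b, ?_⟩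
          refine Prod.ext ?_ hb
          show b • w.1 = (b * a⁻¹) • v.1
          rw [← ha, smul_smul, mul_assoc, inv_mul_cancel₀ ha0, mul_one]
        · rintro ⟨c, h1, a, ha⟩
          have ha1 : a • w.1 = (c : k) • v.1 := congrArg Prod.fst ha
          have ha2 : a • w.2 = v.2 := congrArg Prod.snd ha
          refine ⟨⟨h1, (c : k)⁻¹ * a, ?_⟩, a, ha2⟩
          rw [mul_smul, ha1, smul_smul, inv_mul_cancel₀ c.ne_zero, one_smul]
  · rintro c g ⟨x, p⟩ -
    induction p using Projectivization.ind with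
    | h v hv =>
      refine Prod.ext rfl ?_
      show sc c ((PRep (ρ0.prod ρ1)).a g (Projectivization.mk k v hv)) =
        (PRep (ρ0.prod ρ1)).a g (sc c (Projectivization.mk k v hv))
      rw [PRep_mk, sc_mk, sc_mk, PRep_mk]
      congr 1
      refine Prod.ext ?_ rfl
      show (c : k) • ρ0 g v.1 = ρ0 g ((c : k) • v.1)
      rw [map_smul]

/-- The sum formula. -/
theorem fcl_sum (A : FAct k F X) {s : Set X} (hs : A.St s) (ρ0 : Representation k F V0)
    (ρ1 : Representation k F V1) :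
    fcl (A.prod (PRep (ρ0.prod ρ1))) (s ×ˢ (Set.univ : Set (ℙ k (V0 × V1)))) =
      fcl (A.prod (PRep ρ0)) (s ×ˢ (Set.univ : Set (ℙ k V0))) +
      fcl (A.prod (PRep ρ1)) (s ×ˢ (Set.univ : Set (ℙ k V1))) +
      (L - 1) • fcl ((A.prod (PRep ρ0)).prod (PRep ρ1))
        ((s ×ˢ (Set.univ : Set (ℙ k V0))) ×ˢ (Set.univ : Set (ℙ k V1))) := by
  have st0 : (PRep (ρ0.prod ρ1)).St (nz0 k V0 V1) := ⟨nz0_dm, fun g p hp => (nz0_a ρ0 ρ1 g p).2 hp⟩
  have st1 : (PRep (ρ0.prod ρ1)).St (nz1 k V0 V1) := ⟨nz1_dm, fun g p hp => (nz1_a ρ0 ρ1 g p).2 hp⟩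
  have st0' : (PRep (ρ0.prod ρ1)).St (nz0 k V0 V1)ᶜ :=
    ⟨DM.not nz0_dm, fun g p hp h => hp ((nz0_a ρ0 ρ1 g p).1 h)⟩
  have st1' : (PRep (ρ0.prod ρ1)).St (nz1 k V0 V1)ᶜ :=
    ⟨DM.not nz1_dm, fun g p hp h => hp ((nz1_a ρ0 ρ1 g p).1 h)⟩
  have e1 : fcl (A.prod (PRep (ρ0.prod ρ1))) (s ×ˢ (Set.univ : Set (ℙ k (V0 × V1)))) =
      fcl (A.prod (PRep (ρ0.prod ρ1))) (s ×ˢ (nz1 k V0 V1)ᶜ) +
      fcl (A.prod (PRep (ρ0.prod ρ1))) (s ×ˢ (nz1 k V0 V1)) := by
    rw [← fcl_union (hs.prod st1') (hs.prod st1)]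
    · congr 1
      ext ⟨x, p⟩
      simp only [Set.mem_prod, Set.mem_univ, Set.mem_union, Set.mem_compl_iff]
      tauto
    · rw [Set.disjoint_left]
      rintro ⟨x, p⟩ ⟨-, h1⟩ ⟨-, h2⟩
      exact h1 h2
  have e2 : fcl (A.prod (PRep (ρ0.prod ρ1))) (s ×ˢ (nz1 k V0 V1)) =
      fcl (A.prod (PRep (ρ0.prod ρ1))) (s ×ˢ (nz0 k V0 V1)ᶜ) +
      fcl (A.prod (PRep (ρ0.prod ρ1))) (s ×ˢ (nz0 k V0 V1 ∩ nz1 k V0 V1)) := by
    rw [← fcl_union (hs.prod st0') (hs.prod (st0.inter st1))]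
    · congr 1
      ext ⟨x, p⟩
      have := nz_or p
      simp only [Set.mem_prod, Set.mem_inter_iff, Set.mem_union, Set.mem_compl_iff]
      tauto
    · rw [Set.disjoint_left]
      rintro ⟨x, p⟩ ⟨-, h1⟩ ⟨-, h2, -⟩
      exact h1 h2
  rw [e1, e2, fcl_sum0 A hs ρ0 ρ1 st1', fcl_sum1 A hs ρ0 ρ1 st0',
    fcl_sum2 A hs ρ0 ρ1 (st0.inter st1), add_assoc]

/-- Projectively equivalent representations. -/
theorem fcl_proj_equiv (A : FAct k F X) {s : Set X} (hs : A.St s) (ρ : Representation k F V)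
    (ρ' : Representation k F V') (e : V ≃ₗ[k] V')
    (he : ∀ g, ∃ c : k, c ≠ 0 ∧ ∀ v, e (ρ g v) = c • ρ' g (e v)) :
    fcl (A.prod (PRep ρ)) (s ×ˢ (Set.univ : Set (ℙ k V))) =
      fcl (A.prod (PRep ρ')) (s ×ˢ (Set.univ : Set (ℙ k V'))) := by
  refine fcl_congr (hs.prod (FAct.St.univ _)) (hs.prod (FAct.St.univ _))
    (fun p => (p.1, Projectivization.map e.toLinearMap e.injective p.2)) ?_ ?_ ?_
  · exact DM.mk (DM.fst DM.id') (DM.comp (FAB_map_dm e.toLinearMap e.injective) (DM.snd DM.id'))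
  · refine ⟨?_, ?_, ?_⟩
    · rintro ⟨x, p⟩ ⟨hx, -⟩
      exact ⟨hx, trivial⟩
    · rintro ⟨x, p⟩ - ⟨y, q⟩ - h
      rw [Prod.mk.injEq] at h
      exact Prod.ext h.1 (Projectivization.map_injective _ e.injective h.2)
    · rintro ⟨x, p⟩ ⟨hx, -⟩
      induction p using Projectivization.ind with
      | h w hw =>
        have hv : e.symm w ≠ 0 := fun h => hw ((map_eq_zero_iff e.symm e.symm.injective).1 h)
        refine ⟨(x, Projectivization.mk k (e.symm w) hv), ⟨hx, trivial⟩, ?_⟩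
        refine Prod.ext rfl ?_
        show Projectivization.mk k (e (e.symm w)) _ = _
        congr 1
        exact e.apply_symm_apply w
  · rintro g ⟨x, p⟩ -
    induction p using Projectivization.ind with
    | h v hv =>
      refine Prod.ext rfl ?_
      show Projectivization.mk k (e (ρ g v)) _ = Projectivization.mk k (ρ' g (e v)) _
      obtain ⟨c, hc, h⟩ := he g
      rw [Projectivization.mk_eq_mk_iff']
      exact ⟨c, (h v).symm⟩

theorem nice_equiv {A : FAct k F X} {s : Set X} (hs : A.St s) (ρ : Representation k F V)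
    (ρ' : Representation k F V') (e : V ≃ₗ[k] V')
    (he : ∀ g, ∃ c : k, c ≠ 0 ∧ ∀ v, e (ρ g v) = c • ρ' g (e v)) :
    Nice A s ρ ↔ Nice A s ρ' := by
  unfold Nice
  rw [fcl_proj_equiv A hs ρ ρ' e he, LinearEquiv.finrank_eq e]

theorem nice_zero {A : FAct k F X} {s : Set X} (hs : A.St s) (ρ : Representation k F V)
    (h : Module.finrank k V = 0) : Nice A s ρ := by
  have := FDM.fin k V
  have h1 : Subsingleton V := Module.finrank_zero_iff.1 h
  unfold Nice
  have e2 : s ×ˢ (Set.univ : Set (ℙ k V)) = ∅ := by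
    rw [Set.eq_empty_iff_forall_notMem]
    rintro ⟨x, p⟩ -
    induction p using Projectivization.ind with
    | h v hv => exact hv (Subsingleton.elim _ _)
  rw [e2, fcl_empty, h, br_zero, zero_smul]

theorem nice_line {A : FAct k F X} {s : Set X} (hs : A.St s) (ρ : Representation k F V)
    (h : Module.finrank k V = 1) : Nice A s ρ := by
  have := FDM.fin k V
  obtain ⟨v, hv, hv1⟩ := finrank_eq_one_iff'.1 h
  have hp : ∀ p : ℙ k V, p = Projectivization.mk k v hv := by
    intro p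
    induction p using Projectivization.ind with
    | h w hw =>
      rw [Projectivization.mk_eq_mk_iff']
      exact hv1 w
  unfold Nice
  rw [h, br_one, one_smul]
  refine fcl_congr (hs.prod (FAct.St.univ _)) hs Prod.fst (DM.fst DM.id') ?_ ?_
  · refine ⟨?_, ?_, ?_⟩
    · rintro ⟨x, p⟩ ⟨hx, -⟩
      exact hx
    · rintro ⟨x, p⟩ - ⟨y, q⟩ - h
      exact Prod.ext h ((hp p).trans (hp q).symm)
    · intro x hx
      exact ⟨(x, Projectivization.mk k v hv), ⟨hx, trivial⟩, rfl⟩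
  · intro g x _
    rfl

theorem nice_prod {A : FAct k F X} {s : Set X} (hs : A.St s) (ρ0 : Representation k F V0)
    (ρ1 : Representation k F V1) (h0 : Nice A s ρ0) (h1 : Nice A s ρ1)
    (h01 : Nice (A.prod (PRep ρ0)) (s ×ˢ (Set.univ : Set (ℙ k V0))) ρ1) :
    Nice A s (ρ0.prod ρ1) := by
  have := FDM.fin k V0
  have := FDM.fin k V1
  unfold Nice at *
  rw [fcl_sum A hs ρ0 ρ1, h01, h0, h1, Module.finrank_prod, br_add]
  simp only [add_smul, mul_smul]
  congr 2
  rw [smul_smul, smul_smul, mul_comm]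

private theorem PRep_twist {ρ1 ρ1' : Representation k F V1}
    (h : ∀ g, ∃ c : k, c ≠ 0 ∧ ∀ v, ρ1' g v = c • ρ1 g v) : PRep ρ1' = PRep ρ1 := by
  have h1 : (PRep ρ1').a = (PRep ρ1).a := by
    funext g p
    induction p using Projectivization.ind with
    | h v hv =>
      rw [PRep_mk, PRep_mk, Projectivization.mk_eq_mk_iff']
      obtain ⟨c, hc, h⟩ := h g
      exact ⟨c, (h v).symm⟩
  generalize PRep ρ1' = B at h1 ⊢
  generalize PRep ρ1 = C at h1 ⊢
  cases B
  cases C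
  simp only at h1
  subst h1
  rfl

theorem nice_twist {A : FAct k F X} {s : Set X} (hs : A.St s) (ρ0 : Representation k F V0)
    (ρ1 ρ1' : Representation k F V1) (h : ∀ g, ∃ c : k, c ≠ 0 ∧ ∀ v, ρ1' g v = c • ρ1 g v) :
    Nice A s (ρ0.prod ρ1) ↔ Nice A s (ρ0.prod ρ1') := by
  unfold Nice
  rw [fcl_sum A hs ρ0 ρ1, fcl_sum A hs ρ0 ρ1', PRep_twist h]

theorem niceOn_equiv {N : Set F} (ρ : Representation k F V)
    (ρ' : Representation k F V') (e : V ≃ₗ[k] V')
    (he : ∀ g, ∃ c : k, c ≠ 0 ∧ ∀ v, e (ρ g v) = c • ρ' g (e v)) :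
    NiceOn (k := k) N ρ ↔ NiceOn (k := k) N ρ' := by
  unfold NiceOn
  constructor
  · intro h X _ A s hs hN
    exact (nice_equiv hs ρ ρ' e he).1 (h X A s hs hN)
  · intro h X _ A s hs hN
    exact (nice_equiv hs ρ ρ' e he).2 (h X A s hs hN)

theorem niceOn_line {N : Set F} (ρ : Representation k F V) (h : Module.finrank k V ≤ 1) :
    NiceOn (k := k) N ρ := by
  intro X _ A s hs _
  rcases Nat.le_one_iff_eq_zero_or_eq_one.1 h with h | h
  · exact nice_zero hs ρ h
  · exact nice_line hs ρ h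

theorem niceOn_prod {N : Set F} (ρ0 : Representation k F V0) (ρ1 : Representation k F V1)
    (h0 : NiceOn (k := k) N ρ0) (hN : ∀ g ∈ N, ρ0 g = 1) (h1 : NiceOn (k := k) N ρ1) :
    NiceOn (k := k) N (ρ0.prod ρ1) := by
  intro X _ A s hs hA
  refine nice_prod hs ρ0 ρ1 (h0 X A s hs hA) (h1 X A s hs hA) ?_
  refine h1 _ _ _ (hs.prod (FAct.St.univ _)) ?_
  rintro g hg ⟨x, p⟩ ⟨hx, -⟩
  refine Prod.ext (hA g hg x hx) ?_
  induction p using Projectivization.ind with
  | h v hv =>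
    show (PRep ρ0).a g (Projectivization.mk k v hv) = Projectivization.mk k v hv
    rw [PRep_mk]
    congr 1
    rw [hN g hg]
    rfl

theorem niceOn_twist {N : Set F} (ρ0 : Representation k F V0)
    (ρ1 ρ1' : Representation k F V1) (h : ∀ g, ∃ c : k, c ≠ 0 ∧ ∀ v, ρ1' g v = c • ρ1 g v) :
    NiceOn (k := k) N (ρ0.prod ρ1) ↔ NiceOn (k := k) N (ρ0.prod ρ1') := by
  unfold NiceOn
  constructor
  · intro h' X _ A s hs hN
    exact (nice_twist hs ρ0 ρ1 ρ1' h).1 (h' X A s hs hN)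
  · intro h' X _ A s hs hN
    exact (nice_twist hs ρ0 ρ1 ρ1' h).2 (h' X A s hs hN)

theorem niceOn_mono {N N' : Set F} (hN : N ⊆ N') {ρ : Representation k F V}
    (h : NiceOn (k := k) N ρ) : NiceOn (k := k) N' ρ := by
  intro X _ A s hs hA
  exact h X A s hs (fun g hg => hA g (hN hg))

end Pool.Agent.MRat
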