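import Pool.Agent.Lib.MP_923aff_ag.FA1
/-!
# JOB FAC: Hilbert 90 for finite groups

Use `proj_bundle_free` of `DTp`: `letI` the `MulAction F X` given by `A`, `DT k F` from an equivalence of `F` with
`Fin n` (`DT.ofEquiv`), `DAct` from `DM.of_finite` (or `DM.of_graph` and `DM.fex`), and the homomorphism
`F →* GL (Fin n) k` given by `ρ` and a definable basis of `V` (`FDM.ex`).
-/

set_option autoImplicit false

namespace Pool.Agent.MRat

open scoped MatrixGroups LinearAlgebra.Projectivization

variable {k : Type} [Field k] [IsAlgClosed k] [CharZero k]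
variable {F : Type} [Group F] [Finite F]
variable {X : Type} [DT k X]
variable {V : Type} [AddCommGroup V] [Module k V] [DT k V] [FDM k V]

/-- The map of projective spaces given by a linear isomorphism is definable. -/
theorem FAC_map {V' : Type} [AddCommGroup V'] [Module k V'] [DT k V'] [FDM k V']
    (e : V ≃ₗ[k] V') : DM k (fun p : ℙ k V =>
      Projectivization.map (e : V →ₗ[k] V') e.injective p) := by
  have h1 : DM k (e : V →ₗ[k] V') := lin_dm (e : V →ₗ[k] V')
  have hne : ∀ v : V, v ≠ 0 → (e : V →ₗ[k] V') v ≠ 0 := fun v hv h => hv (by simpa using h)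
  have h2 : DM k (fun q : ℙ k V × Unit =>
      Projectivization.map (e : V →ₗ[k] V') e.injective q.1) := by
    refine DM.of_graph (R := fun q p => ∃ v : V, isrep v q.1 ∧ isrep ((e : V →ₗ[k] V') v) p) ?_ ?_
    · refine DM.ex ?_
      refine DM.and (DM.isrep (DM.snd DM.id') (by fun_prop)) (DM.isrep ?_ (by fun_prop))
      exact DM.comp h1 (by fun_prop)
    · rintro ⟨q, u⟩ p
      induction q using Projectivization.ind with
      | h v hv =>
        constructor
        · rintro ⟨v', ⟨hv', h3⟩, ⟨hv2, h4⟩⟩
          rw [← h4]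
          have h5 := congrArg (Projectivization.map (e : V →ₗ[k] V') e.injective) h3
          exact h5
        · rintro rfl
          exact ⟨v, ⟨hv, rfl⟩, ⟨hne v hv, rfl⟩⟩
  exact DM.comp h2 (f := fun p : ℙ k V => (p, ())) (by fun_prop)

/-- The representation transported along a linear isomorphism. -/
noncomputable def FAC_rep {V' : Type} [AddCommGroup V'] [Module k V'] (e : V ≃ₗ[k] V')
    (ρ : Representation k F V) : Representation k F V' where
  toFun g := (e : V →ₗ[k] V') ∘ₗ ρ g ∘ₗ (e.symm : V' →ₗ[k] V)
  map_one' := by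
    ext v
    simp
  map_mul' g h := by
    ext v
    simp

/-- The matrices of a representation. -/
noncomputable def FAC_mat {n : ℕ} (ρ : Representation k F (Fin n → k)) :
    F →* Matrix (Fin n) (Fin n) k where
  toFun g := LinearMap.toMatrix' (ρ g)
  map_one' := by
    rw [map_one]
    exact LinearMap.toMatrix'_one
  map_mul' g h := by
    rw [map_mul]
    exact LinearMap.toMatrix'_mul _ _

/-- The case of `k ^ n`. -/
theorem FAC_main {A : FAct k F X} {s : Set X} (hs : A.St s) {n : ℕ}
    (ρ : Representation k F (Fin n → k))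
    (free : ∀ x ∈ s, ∀ g, A.a g x = x → ρ g = 1) :
    fcl (A.prod (PRep ρ)) (s ×ˢ (Set.univ : Set (ℙ k (Fin n → k)))) = br n • fcl A s := by
  let _ : MulAction F X :=
    { smul := fun g x => A.a g x
      one_smul := A.a_one
      mul_smul := A.a_mul }
  let _ : DT k F := DT.ofEquiv (Finite.equivFin F)
  have _ : DAct k F X := ⟨by
    have h1 : DM k (fun p : X × F => A.a p.2 p.1) := DM.of_finite (fun g => A.d g)
    exact DM.comp h1 (f := fun p : F × X => (p.2, p.1)) (by fun_prop)⟩
  have dR : DM k (fun g : F => (FAC_mat ρ).toHomUnits g) := by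
    have h1 : DM k (fun p : Unit × F => (FAC_mat ρ).toHomUnits p.2) := by
      refine DM.of_finite ?_
      intro g
      show DM k (fun _ : Unit => (FAC_mat ρ).toHomUnits g)
      exact DM.const' ((FAC_mat ρ).toHomUnits g)
    exact DM.comp h1 (f := fun g : F => ((), g)) (by fun_prop)
  have hG : GSet k F s := ⟨hs.ds, hs.st⟩
  have key := proj_bundle_free hG (FAC_mat ρ).toHomUnits dR (by
    intro x hx g hg
    have h1 := free x hx g hg
    apply Units.ext
    show LinearMap.toMatrix' (ρ g) = 1
    rw [h1]
    exact LinearMap.toMatrix'_one)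
  refine Eq.trans ?_ key
  refine clq_congr ?_
  rintro ⟨x, p⟩ _ ⟨y, q⟩ _
  have hact : ∀ (g : F) (p : ℙ k (Fin n → k)),
      (PRep ρ).a g p = (FAC_mat ρ).toHomUnits g • p := by
    intro g p
    induction p using Projectivization.ind with
    | h v hv =>
      rw [PRep_mk]
      show _ = Projectivization.mk k ((FAC_mat ρ).toHomUnits g • v) _
      congr 1
      show ρ g v = (LinearMap.toMatrix' (ρ g)).mulVec v
      rw [LinearMap.toMatrix'_mulVec]
  constructor
  · rintro ⟨g, hg⟩
    have h1 := congrArg Prod.fst hg
    have h2 := congrArg Prod.snd hg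
    exact ⟨g, h1, (hact g p).symm.trans h2⟩
  · rintro ⟨g, h1, h2⟩
    exact ⟨g, Prod.ext h1 ((hact g p).trans h2)⟩

/-- The projective bundle formula if the stabilisers act trivially on the representation. -/
theorem nice_free {A : FAct k F X} {s : Set X} (hs : A.St s) (ρ : Representation k F V)
    (free : ∀ x ∈ s, ∀ g, A.a g x = x → ρ g = 1) : Nice A s ρ := by
  obtain ⟨n, e, he, he'⟩ := FDM.ex (k := k) (V := V)
  have h1 := FAC_main hs (FAC_rep e ρ) (by
    intro x hx g hg
    have h2 := free x hx g hg
    apply LinearMap.ext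
    intro v
    show e (ρ g (e.symm v)) = v
    rw [h2]
    simp)
  have hn : Module.finrank k V = n := by
    rw [e.finrank_eq, Module.finrank_fin_fun]
  unfold Nice
  rw [hn, ← h1]
  refine fcl_congr (FAct.St.prod hs (FAct.St.univ _)) (FAct.St.prod hs (FAct.St.univ _))
    (fun q : X × ℙ k V => (q.1, Projectivization.map (e : V →ₗ[k] (Fin n → k)) e.injective q.2))
    ?_ ?_ ?_
  · exact DM.mk (DM.fst DM.id') (DM.comp (FAC_map e) (DM.snd DM.id'))
  · refine ⟨?_, ?_, ?_⟩
    · rintro ⟨x, p⟩ ⟨hx, -⟩
      exact ⟨hx, trivial⟩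
    · rintro ⟨x, p⟩ _ ⟨y, q⟩ _ h
      have h2 := congrArg Prod.fst h
      have h3 := congrArg Prod.snd h
      have h4 := Projectivization.map_injective (e : V →ₗ[k] (Fin n → k)) e.injective h3
      exact Prod.ext h2 h4
    · rintro ⟨x, q⟩ ⟨hx, -⟩
      induction q using Projectivization.ind with
      | h w hw =>
        have hw' : e.symm w ≠ 0 := fun h => hw (by simpa using h)
        refine ⟨(x, Projectivization.mk k (e.symm w) hw'), ⟨hx, trivial⟩, ?_⟩
        refine Prod.ext rfl ?_
        show Projectivization.map (e : V →ₗ[k] (Fin n → k)) e.injective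
          (Projectivization.mk k (e.symm w) hw') = Projectivization.mk k w hw
        rw [Projectivization.map_mk]
        congr 1
        simp
  · rintro g ⟨x, p⟩ _
    refine Prod.ext rfl ?_
    show Projectivization.map (e : V →ₗ[k] (Fin n → k)) e.injective ((PRep ρ).a g p) =
      (PRep (FAC_rep e ρ)).a g (Projectivization.map (e : V →ₗ[k] (Fin n → k)) e.injective p)
    induction p using Projectivization.ind with
    | h v hv =>
      rw [PRep_mk, Projectivization.map_mk, Projectivization.map_mk, PRep_mk]
      congr 1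
      show e (ρ g v) = e (ρ g (e.symm (e v)))
      rw [LinearEquiv.symm_apply_apply]

end Pool.Agent.MRat
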