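import Pool.Agent.Lib.MP_923aff_ag.FA2
/-!
# JOB FAD: complements of stable subspaces, induction principle, commutative groups

`rep_compl`: average a linear projection onto `U` over the finite group (characteristic zero); the kernel of the
average is a stable complement. `rep_model`: a basis of `U`. `nice_of_compl`: `LinearMap.coprod i0 i1` is an
equivariant isomorphism `V0 × V1 ≃ V` (`nice_equiv`). `niceOn_induct`: strong induction on the dimension.
`niceOn_comm`: a minimal non-zero stable subspace is contained in an eigenspace of every element, so every line in it is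
stable (or use Mathlib on irreducible representations of commutative groups).
-/

set_option autoImplicit false

namespace Pool.Agent.MRat

open scoped MatrixGroups LinearAlgebra.Projectivization

variable {k : Type} [Field k] [IsAlgClosed k] [CharZero k]
variable {F H : Type} [Group F] [Finite F] [Group H] [Finite H]
variable {X Y Z : Type} [DT k X] [DT k Y] [DT k Z]
variable {V V' V0 V1 : Type} [AddCommGroup V] [Module k V] [DT k V] [FDM k V]
  [AddCommGroup V'] [Module k V'] [DT k V'] [FDM k V']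
  [AddCommGroup V0] [Module k V0] [DT k V0] [FDM k V0]
  [AddCommGroup V1] [Module k V1] [DT k V1] [FDM k V1]

theorem rep_compl (ρ : Representation k F V) (U : Submodule k V)
    (hU : ∀ g, ∀ v ∈ U, ρ g v ∈ U) :
    ∃ U' : Submodule k V, IsCompl U U' ∧ ∀ g, ∀ v ∈ U', ρ g v ∈ U' := by
  classical
  have := Fintype.ofFinite F
  obtain ⟨π, hπ⟩ := U.subtype.exists_leftInverse_of_injective (by simp)
  have hπ' : ∀ u : V, ∀ hu : u ∈ U, (π u : V) = u := by
    intro u hu
    have h1 := LinearMap.congr_fun hπ ⟨u, hu⟩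
    exact congrArg Subtype.val h1
  have hne : (Fintype.card F : k) ≠ 0 := by
    exact_mod_cast Fintype.card_ne_zero
  have hinv : ∀ g v, ρ g (ρ g⁻¹ v) = v := fun g v => by
    rw [← Module.End.mul_apply, ← map_mul, mul_inv_cancel, map_one, Module.End.one_apply]
  let P : V →ₗ[k] V := (Fintype.card F : k)⁻¹ •
    ∑ g : F, (ρ g) ∘ₗ (U.subtype ∘ₗ π) ∘ₗ (ρ g⁻¹)
  have hP : ∀ v, P v = (Fintype.card F : k)⁻¹ • ∑ g : F, ρ g (π (ρ g⁻¹ v) : V) := by
    intro v
    simp only [P, LinearMap.smul_apply, LinearMap.sum_apply, LinearMap.comp_apply]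
    rfl
  have hproj : LinearMap.IsProj U P := by
    constructor
    · intro v
      rw [hP]
      exact U.smul_mem _ (U.sum_mem fun g _ => hU g _ (π (ρ g⁻¹ v)).2)
    · intro u hu
      rw [hP]
      have h1 : ∀ g ∈ (Finset.univ : Finset F), ρ g (π (ρ g⁻¹ u) : V) = u := by
        intro g _
        rw [hπ' _ (hU g⁻¹ u hu), hinv]
      rw [Finset.sum_congr rfl h1, Finset.sum_const, Finset.card_univ, ← Nat.cast_smul_eq_nsmul k,
        smul_smul, inv_mul_cancel₀ hne, one_smul]
  refine ⟨LinearMap.ker P, hproj.isCompl, ?_⟩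
  intro g v hv
  rw [LinearMap.mem_ker] at hv ⊢
  have h2 : P (ρ g v) = ρ g (P v) := by
    rw [hP, hP, map_smul, map_sum]
    congr 1
    refine Fintype.sum_equiv (Equiv.mulLeft g⁻¹) _ _ fun h => ?_
    rw [Equiv.coe_mulLeft, ← Module.End.mul_apply (ρ g) (ρ (g⁻¹ * h)), ← map_mul,
      mul_inv_cancel_left, mul_inv_rev, inv_inv, map_mul, Module.End.mul_apply]
  rw [h2, hv, map_zero]

theorem rep_model (ρ : Representation k F V) (U : Submodule k V)
    (hU : ∀ g, ∀ v ∈ U, ρ g v ∈ U) :
    ∃ (ρ0 : Representation k F (Fin (Module.finrank k U) → k))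
      (i : (Fin (Module.finrank k U) → k) →ₗ[k] V), Function.Injective i ∧
      LinearMap.range i = U ∧ ∀ g v, i (ρ0 g v) = ρ g (i v) := by
  have := FDM.fin k V
  let e : U ≃ₗ[k] (Fin (Module.finrank k U) → k) := (Module.finBasis k U).equivFun
  let i : (Fin (Module.finrank k U) → k) →ₗ[k] V := U.subtype ∘ₗ e.symm.toLinearMap
  have hi : Function.Injective i := U.injective_subtype.comp e.symm.injective
  let r : F → ((Fin (Module.finrank k U) → k) →ₗ[k] (Fin (Module.finrank k U) → k)) := fun g =>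
    e.toLinearMap ∘ₗ ((ρ g).restrict (hU g)) ∘ₗ e.symm.toLinearMap
  have hr : ∀ g v, i (r g v) = ρ g (i v) := by
    intro g v
    change U.subtype (e.symm (e (((ρ g).restrict (hU g)) (e.symm v)))) = _
    rw [LinearEquiv.symm_apply_apply]
    rfl
  let ρ0 : Representation k F (Fin (Module.finrank k U) → k) :=
    { toFun := r
      map_one' := by
        apply LinearMap.ext
        intro v
        apply hi
        rw [hr, map_one]
        rfl
      map_mul' := fun g h => by
        apply LinearMap.ext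
        intro v
        apply hi
        rw [hr, map_mul, Module.End.mul_apply, Module.End.mul_apply, hr, hr] }
  refine ⟨ρ0, i, hi, ?_, hr⟩
  change LinearMap.range (U.subtype ∘ₗ e.symm.toLinearMap) = U
  rw [LinearMap.range_comp, LinearEquiv.range, Submodule.map_top, Submodule.range_subtype]

private theorem faj_equiv (ρ : Representation k F V)
    (ρ0 : Representation k F V0) (ρ1 : Representation k F V1) (i0 : V0 →ₗ[k] V)
    (i1 : V1 →ₗ[k] V) (inj0 : Function.Injective i0) (inj1 : Function.Injective i1)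
    (hc : IsCompl (LinearMap.range i0) (LinearMap.range i1))
    (e0 : ∀ g v, i0 (ρ0 g v) = ρ g (i0 v)) (e1 : ∀ g v, i1 (ρ1 g v) = ρ g (i1 v)) :
    ∃ e : V ≃ₗ[k] (V0 × V1), ∀ g, ∃ c : k, c ≠ 0 ∧ ∀ v, e (ρ g v) = c • (ρ0.prod ρ1) g (e v) := by
  have hbij : Function.Bijective (LinearMap.coprod i0 i1) := by
    constructor
    · rw [← LinearMap.ker_eq_bot, LinearMap.ker_eq_bot']
      rintro ⟨v, w⟩ h
      rw [LinearMap.coprod_apply] at h
      have h1 : i0 v = i1 (-w) := by
        rw [map_neg]
        exact eq_neg_of_add_eq_zero_left h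
      have h2 : i0 v ∈ LinearMap.range i0 ⊓ LinearMap.range i1 :=
        ⟨⟨v, rfl⟩, ⟨-w, h1.symm⟩⟩
      rw [hc.inf_eq_bot, Submodule.mem_bot] at h2
      have h3 : v = 0 := inj0 (by rw [h2, map_zero])
      have h4 : w = 0 := by
        apply inj1
        rw [map_zero]
        rw [h2, zero_add] at h
        exact h
      rw [h3, h4]
      rfl
    · rw [← LinearMap.range_eq_top, LinearMap.range_coprod]
      exact hc.sup_eq_top
  let E := LinearEquiv.ofBijective (LinearMap.coprod i0 i1) hbij
  refine ⟨E.symm, fun g => ⟨1, one_ne_zero, fun v => ?_⟩⟩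
  rw [one_smul, LinearEquiv.symm_apply_eq]
  obtain ⟨w, rfl⟩ := E.surjective v
  rw [LinearEquiv.symm_apply_apply]
  change ρ g (i0 w.1 + i1 w.2) = i0 (ρ0 g w.1) + i1 (ρ1 g w.2)
  rw [e0, e1, map_add]

theorem nice_of_compl {A : FAct k F X} {s : Set X} (hs : A.St s) (ρ : Representation k F V)
    (ρ0 : Representation k F V0) (ρ1 : Representation k F V1) (i0 : V0 →ₗ[k] V)
    (i1 : V1 →ₗ[k] V) (inj0 : Function.Injective i0) (inj1 : Function.Injective i1)
    (hc : IsCompl (LinearMap.range i0) (LinearMap.range i1))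
    (e0 : ∀ g v, i0 (ρ0 g v) = ρ g (i0 v)) (e1 : ∀ g v, i1 (ρ1 g v) = ρ g (i1 v)) :
    Nice A s ρ ↔ Nice A s (ρ0.prod ρ1) := by
  obtain ⟨e, he⟩ := faj_equiv ρ ρ0 ρ1 i0 i1 inj0 inj1 hc e0 e1
  exact nice_equiv hs ρ (ρ0.prod ρ1) e he

theorem niceOn_of_compl {N : Set F} (ρ : Representation k F V)
    (ρ0 : Representation k F V0) (ρ1 : Representation k F V1) (i0 : V0 →ₗ[k] V)
    (i1 : V1 →ₗ[k] V) (inj0 : Function.Injective i0) (inj1 : Function.Injective i1)
    (hc : IsCompl (LinearMap.range i0) (LinearMap.range i1))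
    (e0 : ∀ g v, i0 (ρ0 g v) = ρ g (i0 v)) (e1 : ∀ g v, i1 (ρ1 g v) = ρ g (i1 v)) :
    NiceOn (k := k) N ρ ↔ NiceOn (k := k) N (ρ0.prod ρ1) := by
  obtain ⟨e, he⟩ := faj_equiv ρ ρ0 ρ1 i0 i1 inj0 inj1 hc e0 e1
  exact niceOn_equiv ρ (ρ0.prod ρ1) e he

/-- If every non-zero representation contains a non-zero subrepresentation for which the projective bundle
formula holds over all spaces then it holds for all representations. -/
theorem niceOn_induct
    (small : ∀ (n : ℕ) (ρ : Representation k F (Fin n → k)), 0 < n →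
      ∃ U : Submodule k (Fin n → k), U ≠ ⊥ ∧ (∀ g, ∀ v ∈ U, ρ g v ∈ U) ∧
        ∀ (m : ℕ) (ρ0 : Representation k F (Fin m → k)) (i : (Fin m → k) →ₗ[k] (Fin n → k)),
          Function.Injective i → LinearMap.range i = U → (∀ g v, i (ρ0 g v) = ρ g (i v)) →
            NiceOn (k := k) ∅ ρ0)
    (ρ : Representation k F V) : NiceOn (k := k) ∅ ρ := by
  have key : ∀ (n : ℕ) (ρ : Representation k F (Fin n → k)), NiceOn (k := k) ∅ ρ := by
    intro n
    induction n using Nat.strong_induction_on with
    | _ n ih =>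
    intro ρ
    rcases Nat.eq_zero_or_pos n with hn | hn
    · refine niceOn_line ρ ?_
      rw [Module.finrank_fin_fun]
      omega
    · obtain ⟨U, hU0, hU, hsm⟩ := small n ρ hn
      obtain ⟨U', hc, hU'⟩ := rep_compl ρ U hU
      obtain ⟨ρ0, i0, inj0, r0, e0⟩ := rep_model ρ U hU
      obtain ⟨ρ1, i1, inj1, r1, e1⟩ := rep_model ρ U' hU'
      have hc' : IsCompl (LinearMap.range i0) (LinearMap.range i1) := by rw [r0, r1]; exact hc
      rw [niceOn_of_compl ρ ρ0 ρ1 i0 i1 inj0 inj1 hc' e0 e1]
      refine niceOn_prod ρ0 ρ1 (hsm _ ρ0 i0 inj0 r0 e0) (fun g hg => hg.elim) (ih _ ?_ ρ1)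
      have h1 := Submodule.finrank_add_eq_of_isCompl hc
      rw [Module.finrank_fin_fun] at h1
      have h2 : 0 < Module.finrank k U := by
        rw [Module.finrank_pos_iff]
        exact Submodule.nontrivial_iff_ne_bot.2 hU0
      omega
  obtain ⟨n, e, -, -⟩ := FDM.ex (k := k) (V := V)
  let ρ' : Representation k F (Fin n → k) :=
    { toFun := fun g => e.toLinearMap ∘ₗ (ρ g) ∘ₗ e.symm.toLinearMap
      map_one' := by
        apply LinearMap.ext
        intro v
        change e (ρ 1 (e.symm v)) = v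
        rw [map_one, Module.End.one_apply, LinearEquiv.apply_symm_apply]
      map_mul' := fun g h => by
        apply LinearMap.ext
        intro v
        change e (ρ (g * h) (e.symm v)) = e (ρ g (e.symm (e (ρ h (e.symm v)))))
        rw [map_mul, Module.End.mul_apply, LinearEquiv.symm_apply_apply] }
  refine (niceOn_equiv ρ ρ' e (fun g => ⟨1, one_ne_zero, fun v => ?_⟩)).2 (key n ρ')
  change e (ρ g v) = (1 : k) • e (ρ g (e.symm (e v)))
  rw [one_smul, LinearEquiv.symm_apply_apply]

/-- Commutative groups. -/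
theorem niceOn_comm (hF : ∀ g h : F, g * h = h * g) (ρ : Representation k F V) :
    NiceOn (k := k) ∅ ρ := by
  refine niceOn_induct ?_ ρ
  intro n ρ hn
  -- a minimal non-zero stable subspace
  have hnt : Nontrivial (Fin n → k) := by
    have : Nonempty (Fin n) := ⟨⟨0, hn⟩⟩
    infer_instance
  let S : Set (Submodule k (Fin n → k)) := {W | W ≠ ⊥ ∧ ∀ g, ∀ v ∈ W, ρ g v ∈ W}
  have hS : S.Nonempty := ⟨⊤, top_ne_bot, fun _ _ _ => trivial⟩
  obtain ⟨W, ⟨hW0, hW⟩, hmin⟩ := (wellFounded_lt (α := Submodule k (Fin n → k))).has_min S hS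
  have hnW : Nontrivial W := Submodule.nontrivial_iff_ne_bot.2 hW0
  -- every element acts on it by a scalar
  have hscal : ∀ g, ∃ μ : k, ∀ v ∈ W, ρ g v = μ • v := by
    intro g
    obtain ⟨μ, hμ⟩ := Module.End.exists_eigenvalue ((ρ g).restrict (hW g))
    obtain ⟨w, hw⟩ := hμ.exists_hasEigenvector
    refine ⟨μ, ?_⟩
    let W' : Submodule k (Fin n → k) := W ⊓ LinearMap.ker (ρ g - μ • LinearMap.id)
    have hker : ∀ v, v ∈ LinearMap.ker (ρ g - μ • LinearMap.id) ↔ ρ g v = μ • v := by
      intro v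
      rw [LinearMap.mem_ker, LinearMap.sub_apply, LinearMap.smul_apply, LinearMap.id_apply,
        sub_eq_zero]
    have hW' : W' ∈ S := by
      refine ⟨?_, ?_⟩
      · intro hbot
        have h1 : (w : Fin n → k) ∈ W' := by
          refine ⟨w.2, (hker _).2 ?_⟩
          have := hw.apply_eq_smul
          exact congrArg Subtype.val this
        rw [hbot, Submodule.mem_bot] at h1
        exact hw.2 (Subtype.ext h1)
      · intro h v hv
        refine ⟨hW h v hv.1, (hker _).2 ?_⟩
        have h1 := (hker v).1 hv.2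
        rw [← Module.End.mul_apply, ← map_mul, hF g h, map_mul, Module.End.mul_apply, h1, map_smul]
    have hle : W' ≤ W := inf_le_left
    have heq : W' = W := by
      by_contra hne
      exact hmin W' hW' (lt_of_le_of_ne hle hne)
    intro v hv
    rw [← heq] at hv
    exact (hker v).1 hv.2
  obtain ⟨v, hv, hv0⟩ := Submodule.exists_mem_ne_zero_of_ne_bot hW0
  refine ⟨Submodule.span k {v}, ?_, ?_, ?_⟩
  · rw [Ne, Submodule.span_singleton_eq_bot]
    exact hv0
  · intro g w hw
    rw [Submodule.mem_span_singleton] at hw ⊢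
    obtain ⟨c, rfl⟩ := hw
    obtain ⟨μ, hμ⟩ := hscal g
    exact ⟨c * μ, by rw [map_smul, hμ v hv, smul_smul]⟩
  · intro m ρ0 i inj hr _
    refine niceOn_line ρ0 ?_
    have h1 := LinearMap.finrank_range_of_inj inj
    rw [hr, finrank_span_singleton hv0] at h1
    omega

end Pool.Agent.MRat
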