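import Pool.Agent.Lib.MP_923aff_ag.FA3
import Pool.Agent.Lib.MP_923aff_ag.FA4
/-!
# JOB FAE: dihedral groups of order `2 m`, `m` an odd prime

`fcl_invAct`: with `b = (x - 1) / (x + 1)` the inversion becomes `b ↦ -b`; `x = 1` and `x = -1` give `fcl A s` each; the
rest is `b ∈ kˣ` minus `{1, -1}`: `(L - 1) • fcl A s` by `fcl_scaling` minus the part `b ∈ {1, -1}`, which is induced
from the kernel of `χ`.
`nice_E`: `P¹` is `{0, ∞}` (induced from the kernel of `χ = det ρ`, class `fcl (A.comap χ.ker.subtype) s`) and `kˣ`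
(coordinate `x = v 0 / v 1`); `x ↦ x ^ m` maps the quotient of the latter bijectively to the quotient of
`s × invAct χ`, since `ζ ^ 2` is a primitive `m`-th root of unity.
`niceOn_dihedral`: `niceOn_induct`. Take an eigenvector `v` of `ρ σ`, eigenvalue `ζ`. If `ρ w v` is proportional to `v`, the
line of `v` is stable; if `ζ = 1` the line of `v + ρ w v` is stable; otherwise the span of `v` and `ρ w v` is the
representation `E` of `nice_E`. For `E` over any space: the points fixed by `σ` (`nice_E`), the points with trivial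
stabiliser (`nice_free`), and the points with a stabiliser of order two: induced (`nice_induce`) from the group `{1, w}`
(`niceOn_comm`) and `{x | w x = x, σ x ≠ x}`.
-/

set_option autoImplicit false

namespace Pool.Agent.MRat

open scoped MatrixGroups LinearAlgebra.Projectivization

variable {k : Type} [Field k] [IsAlgClosed k] [CharZero k]
variable {F : Type} [Group F] [Finite F]
variable {X Y Z : Type} [DT k X] [DT k Y] [DT k Z]
variable {V : Type} [AddCommGroup V] [Module k V] [DT k V] [FDM k V]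

open Classical in
/-- The action on `kˣ` in which the elements with `χ g ≠ 1` act by inversion. -/
noncomputable def invAct (χ : F →* kˣ) (hχ : ∀ g, χ g = 1 ∨ χ g = -1) : FAct k F kˣ where
  a g x := if χ g = 1 then x else x⁻¹
  a_one x := by simp
  a_mul g h x := by
    have h1 : (-1 : kˣ) ≠ 1 := by
      intro h
      have h2 := congrArg Units.val h
      simp only [Units.val_neg, Units.val_one] at h2
      have h3 : (2 : k) = 0 := by linear_combination -h2
      exact two_ne_zero h3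
    rw [map_mul]
    rcases hχ g with hg | hg <;> rcases hχ h with hh | hh <;> simp [hg, hh, h1]
  d g := by
    by_cases h : χ g = 1
    · simp only [h, if_true]; exact DM.id'
    · simp only [h, if_false]; exact DM.uinv DM.id'

private theorem fae_two : (-1 : kˣ) ≠ 1 := by
  intro h
  have h2 := congrArg Units.val h
  simp only [Units.val_neg, Units.val_one] at h2
  have h3 : (2 : k) = 0 := by linear_combination -h2
  exact two_ne_zero h3

/-- Scaling by a character. -/
private noncomputable def faeSc (χ : F →* kˣ) : FAct k F kˣ where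
  a g x := χ g * x
  a_one x := by simp
  a_mul g h x := by rw [map_mul, mul_assoc]
  d g := DM.umul (DM.const' _) DM.id'

open Classical in
/-- The Cayley transform. -/
private noncomputable def faeCay (b : kˣ) : kˣ :=
  if h : (b : k) - 1 ≠ 0 ∧ (b : k) + 1 ≠ 0 then
    Units.mk0 (((b : k) - 1) / ((b : k) + 1)) (div_ne_zero h.1 h.2) else 1

open Classical in
private theorem faeCay_coe (b : kˣ) : (faeCay b : k) =
    if (b : k) - 1 ≠ 0 ∧ (b : k) + 1 ≠ 0 then ((b : k) - 1) / ((b : k) + 1) else 1 := by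
  unfold faeCay
  split_ifs <;> simp

private theorem faeCay_dm : DM k (faeCay : kˣ → kˣ) := by
  apply DM.to_units
  refine DM.congr ?_ (fun b => (faeCay_coe b).symm)
  refine DM.ite ?_ ?_ ?_
  · fun_prop
  · fun_prop
  · fun_prop

private theorem fae_ne_iff (b : kˣ) : (b ≠ 1 ∧ b ≠ -1) ↔ ((b : k) - 1 ≠ 0 ∧ (b : k) + 1 ≠ 0) := by
  rw [sub_ne_zero, ← Units.val_one, Units.val_one, ne_eq, ne_eq, Units.ext_iff, Units.ext_iff]
  simp only [Units.val_one, Units.val_neg, ne_eq]
  rw [add_eq_zero_iff_eq_neg]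

private theorem faeCay_of {b : kˣ} (h : b ≠ 1 ∧ b ≠ -1) :
    (faeCay b : k) = ((b : k) - 1) / ((b : k) + 1) := by
  rw [faeCay_coe, if_pos ((fae_ne_iff b).1 h)]

private theorem faeCay_bij : Set.BijOn (faeCay : kˣ → kˣ) {b | b ≠ 1 ∧ b ≠ -1}
    {b | b ≠ 1 ∧ b ≠ -1} := by
  have h2 : (2 : k) ≠ 0 := two_ne_zero
  refine ⟨?_, ?_, ?_⟩
  · intro b hb
    have h1 := (fae_ne_iff b).1 hb
    show faeCay b ≠ 1 ∧ faeCay b ≠ -1
    rw [fae_ne_iff, faeCay_of hb]
    constructor
    · intro h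
      rw [sub_eq_zero, div_eq_one_iff_eq h1.2] at h
      apply h2
      linear_combination -h
    · intro h
      rw [add_eq_zero_iff_eq_neg, div_eq_iff h1.2] at h
      have h3 : (2 : k) * b = 0 := by linear_combination h
      rcases mul_eq_zero.1 h3 with h4 | h4
      · exact h2 h4
      · exact b.ne_zero h4
  · intro b hb c hc h
    have h1 := (fae_ne_iff b).1 hb
    have h3 := (fae_ne_iff c).1 hc
    have h4 := congrArg Units.val h
    rw [faeCay_of hb, faeCay_of hc, div_eq_div_iff h1.2 h3.2] at h4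
    apply Units.ext
    have h5 : (2 : k) * (b - c) = 0 := by linear_combination h4
    rcases mul_eq_zero.1 h5 with h6 | h6
    · exact absurd h6 h2
    · exact sub_eq_zero.1 h6
  · intro y hy
    have h1 := (fae_ne_iff y).1 hy
    have h3 : (1 : k) - y ≠ 0 := by
      intro h
      apply h1.1
      linear_combination -h
    have h4 : (1 : k) + y ≠ 0 := by
      intro h
      apply h1.2
      linear_combination h
    let b : kˣ := Units.mk0 ((1 + (y : k)) / (1 - y)) (div_ne_zero h4 h3)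
    have hb : (b : k) = (1 + (y : k)) / (1 - y) := rfl
    have e1 : (b : k) - 1 = 2 * y / (1 - y) := by
      rw [hb]; field_simp; ring
    have e2 : (b : k) + 1 = 2 / (1 - y) := by
      rw [hb]; field_simp; ring
    have hb' : b ≠ 1 ∧ b ≠ -1 := by
      rw [fae_ne_iff, e1, e2]
      exact ⟨div_ne_zero (mul_ne_zero h2 y.ne_zero) h3, div_ne_zero h2 h3⟩
    refine ⟨b, hb', ?_⟩
    apply Units.ext
    rw [faeCay_of hb', e1, e2]
    field_simp

private theorem faeCay_inv {b : kˣ} (h : b ≠ 1 ∧ b ≠ -1) :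
    faeCay b⁻¹ = -1 * faeCay b := by
  have h1 := (fae_ne_iff b).1 h
  have h' : b⁻¹ ≠ 1 ∧ b⁻¹ ≠ -1 := by
    refine ⟨fun h2 => h.1 (inv_eq_one.1 h2), fun h2 => h.2 ?_⟩
    rw [inv_eq_iff_eq_inv] at h2
    rw [h2]
    simp
  have h1' := (fae_ne_iff b⁻¹).1 h'
  apply Units.ext
  rw [Units.val_mul, faeCay_of h, faeCay_of h', Units.val_neg, Units.val_one]
  have hb := b.ne_zero
  rw [Units.val_inv_eq_inv_val] at h1' ⊢
  have e1 : (b : k)⁻¹ - 1 = (1 - b) / b := by field_simp
  have e2 : (b : k)⁻¹ + 1 = (1 + b) / b := by field_simp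
  have h3 : (1 : k) + b ≠ 0 := by rw [add_comm]; exact h1.2
  have h4 := h1.2
  rw [e1, e2, div_div_div_cancel_right₀ hb, div_eq_iff h3]
  rw [neg_mul, one_mul, neg_mul, div_mul_eq_mul_div, eq_neg_iff_add_eq_zero]
  field_simp
  ring

theorem fcl_invAct (A : FAct k F X) {s : Set X} (hs : A.St s) (χ : F →* kˣ)
    (hχ : ∀ g, χ g = 1 ∨ χ g = -1) (g1 : F) (h1 : χ g1 = -1) :
    fcl (A.prod (invAct χ hχ)) (s ×ˢ (Set.univ : Set kˣ)) =
      (1 + L) • fcl A s - fcl (A.comap χ.ker.subtype) s := by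
  classical
  have h2 : (-1 : kˣ) ≠ 1 := fae_two
  have hneg : (-1 : kˣ)⁻¹ = -1 := by simp
  have hinv : ∀ g x, (invAct χ hχ).a g x = if χ g = 1 then x else x⁻¹ := fun g x => rfl
  have hinv2 : ∀ g x, (invAct χ hχ).a g x = x ∨ (invAct χ hχ).a g x = x⁻¹ := by
    intro g x
    rw [hinv]
    split_ifs
    · exact Or.inl rfl
    · exact Or.inr rfl
  have st1 : (invAct χ hχ).St {1} := by
    refine ⟨?_, ?_⟩
    · exact DM.eq DM.id' (DM.const' _)
    · rintro g x hx
      rw [Set.mem_singleton_iff] at hx ⊢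
      subst hx
      rcases hinv2 g 1 with h | h
      · exact h
      · rw [h, inv_one]
  have st2 : (invAct χ hχ).St {-1} := by
    refine ⟨?_, ?_⟩
    · exact DM.eq DM.id' (DM.const' _)
    · rintro g x hx
      rw [Set.mem_singleton_iff] at hx ⊢
      subst hx
      rcases hinv2 g (-1) with h | h
      · exact h
      · rw [h, hneg]
  have st3 : (invAct χ hχ).St {b | b ≠ 1 ∧ b ≠ -1} := by
    refine ⟨?_, ?_⟩
    · exact DM.and (DM.ne DM.id' (DM.const' _)) (DM.ne DM.id' (DM.const' _))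
    · rintro g x hx
      rcases hinv2 g x with h | h
      · rw [h]; exact hx
      · rw [h]
        refine ⟨fun h3 => hx.1 (inv_eq_one.1 h3), fun h3 => hx.2 ?_⟩
        rw [inv_eq_iff_eq_inv] at h3
        rw [h3, hneg]
  have sc : ∀ g x, (faeSc χ).a g x = χ g * x := fun g x => rfl
  have su : (faeSc χ).St ({b | b = 1 ∨ b = -1} : Set kˣ) := by
    refine ⟨?_, ?_⟩
    · exact DM.or (DM.eq DM.id' (DM.const' _)) (DM.eq DM.id' (DM.const' _))
    · rintro g x hx
      rw [Set.mem_ofPred_eq, sc]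
      rcases hx with rfl | rfl <;> rcases hχ g with h | h <;> rw [h]
      · left; simp
      · right; simp
      · right; simp
      · left; simp
  have sv : (faeSc χ).St ({b | b ≠ 1 ∧ b ≠ -1} : Set kˣ) := by
    refine ⟨?_, ?_⟩
    · exact DM.and (DM.ne DM.id' (DM.const' _)) (DM.ne DM.id' (DM.const' _))
    · rintro g x hx
      rw [Set.mem_ofPred_eq, sc]
      rcases hχ g with h | h
      · rw [h, one_mul]; exact hx
      · rw [h]
        constructor
        · intro h3
          apply hx.2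
          have : x = -1 * (-1 * x) := by simp
          rw [this, h3, mul_one]
        · intro h3
          apply hx.1
          have : x = -1 * (-1 * x) := by simp
          rw [this, h3]; simp
  -- the decomposition for the inversion
  have e0 : (s ×ˢ (Set.univ : Set kˣ)) = (s ×ˢ ({1} : Set kˣ)) ∪ ((s ×ˢ ({-1} : Set kˣ)) ∪
      (s ×ˢ ({b | b ≠ 1 ∧ b ≠ -1} : Set kˣ))) := by
    ext ⟨x, b⟩
    simp only [Set.mem_prod, Set.mem_univ, and_true, Set.mem_union, Set.mem_singleton_iff,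
      Set.mem_ofPred_eq]
    tauto
  have d1 : Disjoint (s ×ˢ ({-1} : Set kˣ)) (s ×ˢ ({b | b ≠ 1 ∧ b ≠ -1} : Set kˣ)) := by
    rw [Set.disjoint_left]
    rintro ⟨x, b⟩ ⟨_, hb⟩ ⟨_, hb'⟩
    exact hb'.2 hb
  have d0 : Disjoint (s ×ˢ ({1} : Set kˣ)) ((s ×ˢ ({-1} : Set kˣ)) ∪
      (s ×ˢ ({b | b ≠ 1 ∧ b ≠ -1} : Set kˣ))) := by
    rw [Set.disjoint_left]
    rintro ⟨x, b⟩ ⟨_, hb⟩ (⟨_, hb'⟩ | ⟨_, hb'⟩)
    · rw [Set.mem_singleton_iff] at hb hb'
      simp only at hb hb'
      exact h2 (hb'.symm.trans hb)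
    · exact hb'.1 hb
  rw [e0, fcl_union (hs.prod st1) ((hs.prod st2).union (hs.prod st3)) d0,
    fcl_union (hs.prod st2) (hs.prod st3) d1]
  have c1 : ∀ c : kˣ, (invAct χ hχ).St {c} → fcl (A.prod (invAct χ hχ)) (s ×ˢ ({c} : Set kˣ)) =
      fcl A s := by
    intro c hc
    refine fcl_congr (hs.prod hc) hs Prod.fst (DM.fst DM.id') ⟨?_, ?_, ?_⟩ ?_
    · rintro ⟨x, b⟩ h; exact h.1
    · rintro ⟨x, b⟩ h ⟨x', b'⟩ h' hh
      have q1 : b = c := h.2
      have q2 : b' = c := h'.2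
      rw [q1, q2]
      exact Prod.ext hh rfl
    · intro x hx
      exact ⟨(x, c), ⟨hx, rfl⟩, rfl⟩
    · rintro g ⟨x, b⟩ h
      rfl
  rw [c1 1 st1, c1 (-1) st2]
  -- the Cayley transform
  have c3 : fcl (A.prod (invAct χ hχ)) (s ×ˢ ({b | b ≠ 1 ∧ b ≠ -1} : Set kˣ)) =
      fcl (A.prod (faeSc χ)) (s ×ˢ ({b | b ≠ 1 ∧ b ≠ -1} : Set kˣ)) := by
    have hb : Set.BijOn (faeCay : kˣ → kˣ) {b | b ≠ 1 ∧ b ≠ -1} {b | b ≠ 1 ∧ b ≠ -1} :=
      faeCay_bij
    refine fcl_congr (hs.prod st3) (hs.prod sv) (fun p => (p.1, faeCay p.2)) ?_ ⟨?_, ?_, ?_⟩ ?_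
    · exact DM.mk (DM.fst DM.id') (DM.comp faeCay_dm (DM.snd DM.id'))
    · rintro ⟨x, b⟩ h
      exact ⟨h.1, hb.mapsTo h.2⟩
    · rintro ⟨x, b⟩ h ⟨x', b'⟩ h' hh
      have q1 := congrArg Prod.fst hh
      have q2 := congrArg Prod.snd hh
      exact Prod.ext q1 (hb.injOn h.2 h'.2 q2)
    · rintro ⟨x, b⟩ h
      obtain ⟨b', hb', e⟩ := hb.surjOn h.2
      exact ⟨(x, b'), ⟨h.1, hb'⟩, Prod.ext rfl e⟩
    · rintro g ⟨x, b⟩ h
      refine Prod.ext rfl ?_
      show faeCay ((invAct χ hχ).a g b) = χ g * faeCay b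
      rw [hinv]
      rcases hχ g with hg | hg
      · rw [if_pos hg, hg, one_mul]
      · rw [if_neg (by rw [hg]; exact h2), hg]
        exact faeCay_inv h.2
  rw [c3]
  -- scaling
  have c4 : fcl (A.prod (faeSc χ)) (s ×ˢ (Set.univ : Set kˣ)) = (L - 1) • fcl A s := by
    refine fcl_scaling (hs.prod (FAct.St.univ _)) hs Prod.fst (DM.fst DM.id') ?_ ?_ ?_
      (fun c p => (p.1, c * p.2)) ?_ ?_ ?_ ?_ ?_ ?_ ?_
    · rintro ⟨x, b⟩ h; exact h.1
    · intro x hx
      exact ⟨(x, 1), ⟨hx, trivial⟩, rfl⟩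
    · rintro g ⟨x, b⟩ h
      rfl
    · fun_prop
    · rintro c ⟨x, b⟩ h
      exact ⟨h.1, trivial⟩
    · rintro ⟨x, b⟩ h
      exact Prod.ext rfl (one_mul _)
    · rintro b c ⟨x, b'⟩ h
      exact Prod.ext rfl (mul_assoc _ _ _)
    · rintro c ⟨x, b⟩ h hh
      have q2 := congrArg Prod.snd hh
      simpa using q2
    · rintro ⟨x, b⟩ h ⟨x', b'⟩ h'
      constructor
      · intro q
        refine ⟨b' / b, Prod.ext q ?_⟩
        simp
      · rintro ⟨c, q⟩
        have q1 := congrArg Prod.fst q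
        exact q1
    · rintro c g ⟨x, b⟩ h
      refine Prod.ext rfl ?_
      show c * (χ g * b) = χ g * (c * b)
      rw [mul_left_comm]
  have e1 : (s ×ˢ (Set.univ : Set kˣ)) = (s ×ˢ ({b | b = 1 ∨ b = -1} : Set kˣ)) ∪
      (s ×ˢ ({b | b ≠ 1 ∧ b ≠ -1} : Set kˣ)) := by
    ext ⟨x, b⟩
    simp only [Set.mem_prod, Set.mem_univ, and_true, Set.mem_union, Set.mem_ofPred_eq]
    tauto
  have d2 : Disjoint (s ×ˢ ({b | b = 1 ∨ b = -1} : Set kˣ))
      (s ×ˢ ({b | b ≠ 1 ∧ b ≠ -1} : Set kˣ)) := by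
    rw [Set.disjoint_left]
    rintro ⟨x, b⟩ ⟨_, hb⟩ ⟨_, hb'⟩
    rcases hb with hb | hb
    · exact hb'.1 hb
    · exact hb'.2 hb
  rw [e1, fcl_union (hs.prod su) (hs.prod sv) d2] at c4
  -- the induced part
  have su1 : ((faeSc χ).comap χ.ker.subtype).St ({1} : Set kˣ) := by
    refine ⟨DM.eq DM.id' (DM.const' _), ?_⟩
    rintro ⟨g, hg⟩ x hx
    rw [Set.mem_singleton_iff] at hx ⊢
    subst hx
    show χ g * 1 = 1
    rw [MonoidHom.mem_ker] at hg
    rw [hg, one_mul]
  have hs1 : (A.comap χ.ker.subtype).St s := hs.comap _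
  have c5 : fcl (A.prod (faeSc χ)) (s ×ˢ ({b | b = 1 ∨ b = -1} : Set kˣ)) =
      fcl (A.comap χ.ker.subtype) s := by
    have q0 : ((A.prod (faeSc χ)).comap χ.ker.subtype).St (s ×ˢ ({1} : Set kˣ)) :=
      ⟨(hs1.prod su1).ds, (hs1.prod su1).st⟩
    rw [fcl_induce (hs.prod su) χ.ker.subtype q0]
    · refine fcl_congr q0 hs1 Prod.fst (DM.fst DM.id') ⟨?_, ?_, ?_⟩ ?_
      · rintro ⟨x, b⟩ h; exact h.1
      · rintro ⟨x, b⟩ h ⟨x', b'⟩ h' hh
        have q1 : b = 1 := h.2
        have q2 : b' = 1 := h'.2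
        rw [q1, q2]
        exact Prod.ext hh rfl
      · intro x hx
        exact ⟨(x, 1), ⟨hx, rfl⟩, rfl⟩
      · rintro g ⟨x, b⟩ h
        rfl
    · rintro ⟨x, b⟩ ⟨hx, hb⟩
      exact ⟨hx, Or.inl hb⟩
    · rintro ⟨x, b⟩ ⟨hx, hb | hb⟩
      · exact ⟨1, by rw [FAct.a_one]; exact ⟨hx, hb⟩⟩
      · refine ⟨g1, hs.st g1 x hx, ?_⟩
        show χ g1 * b = 1
        rw [h1]
        have hb' : b = -1 := hb
        rw [hb']
        simp
    · rintro ⟨x, b⟩ ⟨hx, hb⟩ g ⟨_, hg⟩
      have hg' : χ g * b = 1 := hg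
      have hb' : b = 1 := hb
      rw [hb', mul_one] at hg'
      exact ⟨⟨g, hg'⟩, rfl⟩
  rw [c5] at c4
  have c6 : fcl (A.prod (faeSc χ)) (s ×ˢ ({b | b ≠ 1 ∧ b ≠ -1} : Set kˣ)) =
      (L - 1) • fcl A s - fcl (A.comap χ.ker.subtype) s := eq_sub_of_add_eq' c4
  rw [c6, add_smul, sub_smul, one_smul]
  abel

/-! ### The two-dimensional representation -/

open Classical in
/-- The quotient of the coordinates. -/
private noncomputable def faeQ (v : Fin 2 → k) : kˣ :=
  if h : v 0 ≠ 0 ∧ v 1 ≠ 0 then Units.mk0 (v 0 / v 1) (div_ne_zero h.1 h.2) else 1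

open Classical in
private theorem faeQ_coe (v : Fin 2 → k) : (faeQ v : k) =
    if v 0 ≠ 0 ∧ v 1 ≠ 0 then v 0 / v 1 else 1 := by
  unfold faeQ
  split_ifs <;> simp

private theorem faeQ_dm : DM k (faeQ : (Fin 2 → k) → kˣ) := by
  apply DM.to_units
  refine DM.congr ?_ (fun b => (faeQ_coe b).symm)
  refine DM.ite ?_ ?_ ?_
  · fun_prop
  · fun_prop
  · fun_prop

private theorem faeQ_of {v : Fin 2 → k} (h : v 0 ≠ 0 ∧ v 1 ≠ 0) : (faeQ v : k) = v 0 / v 1 := by
  rw [faeQ_coe, if_pos h]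

private theorem faeQ_smul (c : kˣ) (v : Fin 2 → k) : faeQ (c • v) = faeQ v := by
  apply Units.ext
  have hc := c.ne_zero
  by_cases h : v 0 ≠ 0 ∧ v 1 ≠ 0
  · have h' : (c • v) 0 ≠ 0 ∧ (c • v) 1 ≠ 0 :=
      ⟨mul_ne_zero hc h.1, mul_ne_zero hc h.2⟩
    rw [faeQ_of h, faeQ_of h']
    show (c : k) * v 0 / ((c : k) * v 1) = v 0 / v 1
    exact mul_div_mul_left _ _ hc
  · have h' : ¬ ((c • v) 0 ≠ 0 ∧ (c • v) 1 ≠ 0) := by
      rintro ⟨h1, h2⟩
      exact h ⟨right_ne_zero_of_mul h1, right_ne_zero_of_mul h2⟩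
    rw [faeQ_coe, faeQ_coe, if_neg h, if_neg h']

/-- The coordinate on the projective line. -/
private noncomputable def faeU (p : ℙ k (Fin 2 → k)) : kˣ := faeQ p.rep

private theorem faeU_mk (v : Fin 2 → k) (hv : v ≠ 0) :
    faeU (Projectivization.mk k v hv) = faeQ v := by
  obtain ⟨a, ha⟩ := Projectivization.exists_smul_eq_mk_rep k v hv
  unfold faeU
  rw [← ha, faeQ_smul]

private theorem faeU_dm : DM k (faeU : ℙ k (Fin 2 → k) → kˣ) := by
  have h1 : DM k (fun q : ℙ k (Fin 2 → k) × Unit => faeU q.1) := by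
    refine DM.of_proj (fun q : (Fin 2 → k) × Unit => faeQ q.1) (DM.comp faeQ_dm (DM.fst DM.id')) ?_
    intro v hv x
    exact faeU_mk v hv
  exact DM.comp h1 (f := fun p : ℙ k (Fin 2 → k) => (p, ())) (by fun_prop)

/-- The points with non-zero coordinates. -/
private def faeT (k : Type) [Field k] : Set (ℙ k (Fin 2 → k)) :=
  {p | ∃ v : Fin 2 → k, isrep v p ∧ v 0 ≠ 0 ∧ v 1 ≠ 0}

private theorem faeT_dm : DM k (fun p : ℙ k (Fin 2 → k) => p ∈ faeT k) := by
  have h : DM k (fun q : ℙ k (Fin 2 → k) × (Fin 2 → k) => isrep q.2 q.1 ∧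
      q.2 0 ≠ 0 ∧ q.2 1 ≠ 0) := by
    refine DM.and (DM.isrep (by fun_prop) (by fun_prop)) ?_
    fun_prop
  exact DM.ex (P := fun (p : ℙ k (Fin 2 → k)) (v : Fin 2 → k) => isrep v p ∧
      v 0 ≠ 0 ∧ v 1 ≠ 0) h

private theorem faeT_mk {v : Fin 2 → k} (hv : v ≠ 0) :
    Projectivization.mk k v hv ∈ faeT k ↔ v 0 ≠ 0 ∧ v 1 ≠ 0 := by
  constructor
  · rintro ⟨w, ⟨hw, hwv⟩, h0, h1⟩
    rw [Projectivization.mk_eq_mk_iff] at hwv
    obtain ⟨c, hc⟩ := hwv
    rw [← hc] at h0 h1
    exact ⟨right_ne_zero_of_mul h0, right_ne_zero_of_mul h1⟩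
  · intro h
    exact ⟨v, ⟨hv, rfl⟩, h.1, h.2⟩

private theorem fae_ne {v : Fin 2 → k} (h : v 0 ≠ 0 ∧ v 1 ≠ 0) : v ≠ 0 := by
  intro hv
  apply h.1
  rw [hv]
  rfl

/-- Points with the same coordinate are equal. -/
private theorem faeU_inj {p q : ℙ k (Fin 2 → k)} (hp : p ∈ faeT k) (hq : q ∈ faeT k)
    (h : faeU p = faeU q) : p = q := by
  obtain ⟨v, ⟨hv, rfl⟩, hv'⟩ := hp
  obtain ⟨w, ⟨hw, rfl⟩, hw'⟩ := hq
  rw [faeU_mk, faeU_mk] at h
  have h1 := congrArg Units.val h
  rw [faeQ_of hv', faeQ_of hw', div_eq_div_iff hv'.2 hw'.2] at h1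
  rw [Projectivization.mk_eq_mk_iff']
  refine ⟨v 1 / w 1, ?_⟩
  have hw1 := hw'.2
  funext i
  fin_cases i
  · show v 1 / w 1 * w 0 = v 0
    field_simp
    linear_combination -h1
  · show v 1 / w 1 * w 1 = v 1
    field_simp

private theorem fae_e0 : (![1, 0] : Fin 2 → k) ≠ 0 := by
  intro h
  have := congrFun h 0
  simp at this

private theorem fae_e1 : (![0, 1] : Fin 2 → k) ≠ 0 := by
  intro h
  have := congrFun h 1
  simp at this

private theorem fae_types {σ w : F}
    (gen : ∀ g : F, ∃ i : ℕ, g = σ ^ i ∨ g = σ ^ i * w)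
    {ρ : Representation k F (Fin 2 → k)} {ζ : k}
    (h1 : ∀ v, ρ σ v = ![ζ * v 0, ζ⁻¹ * v 1]) (h2 : ∀ v, ρ w v = ![v 1, v 0]) (g : F) :
    ∃ i : ℕ, (g = σ ^ i ∧ ∀ v, ρ g v = ![ζ ^ i * v 0, ζ⁻¹ ^ i * v 1]) ∨
      (g = σ ^ i * w ∧ ∀ v, ρ g v = ![ζ ^ i * v 1, ζ⁻¹ ^ i * v 0]) := by
  have h3 : ∀ i : ℕ, ∀ v, ρ (σ ^ i) v = ![ζ ^ i * v 0, ζ⁻¹ ^ i * v 1] := by
    intro i
    induction i with
    | zero =>
        intro v
        rw [pow_zero, map_one]
        funext j
        fin_cases j <;> simp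
    | succ i ih =>
        intro v
        rw [pow_succ', map_mul, Module.End.mul_apply, h1, ih]
        funext j
        fin_cases j
        · simp [pow_succ']; ring
        · simp [pow_succ']; ring
  obtain ⟨i, rfl | rfl⟩ := gen g
  · exact ⟨i, Or.inl ⟨rfl, h3 i⟩⟩
  · refine ⟨i, Or.inr ⟨rfl, ?_⟩⟩
    intro v
    rw [map_mul, Module.End.mul_apply, h2, h3]
    simp

private theorem fae_det1 {f : (Fin 2 → k) →ₗ[k] (Fin 2 → k)} {a b : k}
    (h : ∀ v, f v = ![a * v 0, b * v 1]) : LinearMap.det f = a * b := by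
  have e : f = Matrix.toLin' !![a, 0; 0, b] := by
    apply LinearMap.ext
    intro v
    rw [h, Matrix.toLin'_apply]
    funext j
    fin_cases j <;> simp [Matrix.mulVec, dotProduct, Fin.sum_univ_two]
  rw [e, LinearMap.det_toLin', Matrix.det_fin_two_of]
  ring

private theorem fae_det2 {f : (Fin 2 → k) →ₗ[k] (Fin 2 → k)} {a b : k}
    (h : ∀ v, f v = ![a * v 1, b * v 0]) : LinearMap.det f = -(a * b) := by
  have e : f = Matrix.toLin' !![0, a; b, 0] := by
    apply LinearMap.ext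
    intro v
    rw [h, Matrix.toLin'_apply]
    funext j
    fin_cases j <;> simp [Matrix.mulVec, dotProduct, Fin.sum_univ_two]
  rw [e, LinearMap.det_toLin', Matrix.det_fin_two_of]
  ring

theorem nice_E {A : FAct k F X} {s : Set X} (hs : A.St s) (σ w : F) (m : ℕ) (hm : m.Prime)
    (hm2 : m ≠ 2) (gen : ∀ g : F, ∃ i : ℕ, g = σ ^ i ∨ g = σ ^ i * w)
    (triv : ∀ x ∈ s, A.a σ x = x) (ρ : Representation k F (Fin 2 → k)) (ζ : k) (hζ : ζ ^ m = 1)
    (hζ1 : ζ ≠ 1) (h1 : ∀ v, ρ σ v = ![ζ * v 0, ζ⁻¹ * v 1]) (h2 : ∀ v, ρ w v = ![v 1, v 0]) :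
    Nice A s ρ := by
  classical
  have hζ0 : ζ ≠ 0 := by
    rintro rfl
    rw [zero_pow hm.ne_zero] at hζ
    exact zero_ne_one hζ
  have types := fae_types gen h1 h2
  have hpow : ∀ i : ℕ, ζ ^ i * ζ⁻¹ ^ i = 1 := by
    intro i
    rw [← mul_pow, mul_inv_cancel₀ hζ0, one_pow]
  -- the character
  let χ : F →* kˣ := MonoidHom.toHomUnits (LinearMap.det.comp ρ)
  have hχv : ∀ g, (χ g : k) = LinearMap.det (ρ g) := fun g => rfl
  have hχ : ∀ g, χ g = 1 ∨ χ g = -1 := by
    intro g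
    obtain ⟨i, ⟨_, h⟩ | ⟨_, h⟩⟩ := types g
    · left
      apply Units.ext
      rw [hχv, fae_det1 h, hpow, Units.val_one]
    · right
      apply Units.ext
      rw [hχv, fae_det2 h, hpow, Units.val_neg, Units.val_one]
  have hχw : χ w = -1 := by
    apply Units.ext
    rw [hχv, fae_det2 (a := 1) (b := 1) (by intro v; rw [h2]; simp), Units.val_neg, Units.val_one,
      mul_one]
  have hneg : (-1 : kˣ) ≠ 1 := fae_two
  have hχ1 : ∀ g, χ g = 1 → ∃ i : ℕ, g = σ ^ i ∧ ∀ v, ρ g v = ![ζ ^ i * v 0, ζ⁻¹ ^ i * v 1] := by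
    intro g hg
    obtain ⟨i, h | ⟨_, h⟩⟩ := types g
    · exact ⟨i, h⟩
    · exfalso
      apply hneg
      have hq : χ g = -1 := by
        apply Units.ext
        rw [hχv, fae_det2 h, hpow, Units.val_neg, Units.val_one]
      exact hq.symm.trans hg
  have hχ2 : ∀ g, χ g = -1 → ∃ i : ℕ, g = σ ^ i * w ∧
      ∀ v, ρ g v = ![ζ ^ i * v 1, ζ⁻¹ ^ i * v 0] := by
    intro g hg
    obtain ⟨i, ⟨_, h⟩ | h⟩ := types g
    · exfalso
      apply hneg
      have hq : χ g = 1 := by
        apply Units.ext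
        rw [hχv, fae_det1 h, hpow, Units.val_one]
      exact hg.symm.trans hq
    · exact ⟨i, h⟩
  have he2 : ∀ i : ℕ, ((ζ ^ i) ^ 2) ^ m = 1 := by
    intro i
    calc ((ζ ^ i) ^ 2) ^ m = (ζ ^ m) ^ (i * 2) := by ring
      _ = 1 := by rw [hζ, one_pow]
  have hzi : ∀ i : ℕ, ζ ^ i ≠ 0 := fun i => pow_ne_zero _ hζ0
  have hzi' : ∀ i : ℕ, ζ⁻¹ ^ i ≠ 0 := fun i => pow_ne_zero _ (inv_ne_zero hζ0)
  -- stability of the two parts of the projective line
  have stT : (PRep ρ).St (faeT k) := by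
    refine ⟨faeT_dm, ?_⟩
    intro g p hp
    obtain ⟨v, ⟨hv, rfl⟩, hv'⟩ := hp
    rw [PRep_mk, faeT_mk]
    obtain ⟨i, ⟨_, h⟩ | ⟨_, h⟩⟩ := types g
    · rw [h]
      exact ⟨mul_ne_zero (hzi i) hv'.1, mul_ne_zero (hzi' i) hv'.2⟩
    · rw [h]
      exact ⟨mul_ne_zero (hzi i) hv'.2, mul_ne_zero (hzi' i) hv'.1⟩
  have stN : (PRep ρ).St (Set.univ \ faeT k) := (FAct.St.univ _).diff stT
  unfold Nice
  have hbr : br (Module.finrank k (Fin 2 → k)) = 1 + L := by
    rw [Module.finrank_fin_fun]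
    simp [br, Finset.sum_range_succ]
  have e0 : (s ×ˢ (Set.univ : Set (ℙ k (Fin 2 → k)))) = (s ×ˢ (faeT k)) ∪
      (s ×ˢ (Set.univ \ faeT k)) := by
    ext ⟨x, b⟩
    simp only [Set.mem_prod, Set.mem_univ, and_true, Set.mem_union, Set.mem_sdiff, true_and]
    tauto
  have d0 : Disjoint (s ×ˢ (faeT k)) (s ×ˢ (Set.univ \ faeT k)) := by
    rw [Set.disjoint_left]
    rintro ⟨x, b⟩ ⟨_, hb⟩ ⟨_, hb'⟩
    exact hb'.2 hb
  rw [hbr, e0, fcl_union (hs.prod stT) (hs.prod stN) d0]
  -- the two fixed points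
  have c1 : fcl (A.prod (PRep ρ)) (s ×ˢ (Set.univ \ faeT k)) = fcl (A.comap χ.ker.subtype) s := by
    have su1 : ((PRep ρ).comap χ.ker.subtype).St
        ({Projectivization.mk k ![1, 0] fae_e0} : Set (ℙ k (Fin 2 → k))) := by
      refine ⟨DM.eq DM.id' (DM.const' _), ?_⟩
      rintro ⟨g, hg⟩ x hx
      rw [Set.mem_singleton_iff] at hx ⊢
      subst hx
      show (PRep ρ).a g (Projectivization.mk k ![1, 0] fae_e0) = Projectivization.mk k ![1, 0] fae_e0
      rw [MonoidHom.mem_ker] at hg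
      obtain ⟨i, _, h⟩ := hχ1 g hg
      rw [PRep_mk, Projectivization.mk_eq_mk_iff']
      refine ⟨ζ ^ i, ?_⟩
      rw [h]
      funext j
      fin_cases j <;> simp
    have hs1 : (A.comap χ.ker.subtype).St s := hs.comap _
    have q0 : ((A.prod (PRep ρ)).comap χ.ker.subtype).St
        (s ×ˢ ({Projectivization.mk k ![1, 0] fae_e0} : Set (ℙ k (Fin 2 → k)))) :=
      ⟨(hs1.prod su1).ds, (hs1.prod su1).st⟩
    have cases : ∀ p : ℙ k (Fin 2 → k), p ∈ Set.univ \ faeT k →
        p = Projectivization.mk k ![1, 0] fae_e0 ∨ p = Projectivization.mk k ![0, 1] fae_e1 := by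
      intro p hp
      induction p using Projectivization.ind with
      | h v hv =>
          have hp2 := hp.2
          rw [faeT_mk] at hp2
          by_cases h0 : v 0 = 0
          · right
            rw [Projectivization.mk_eq_mk_iff']
            refine ⟨v 1, ?_⟩
            funext j
            fin_cases j
            · simp [h0]
            · simp
          · left
            have h3 : v 1 = 0 := by
              by_contra h3
              exact hp2 ⟨h0, h3⟩
            rw [Projectivization.mk_eq_mk_iff']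
            refine ⟨v 0, ?_⟩
            funext j
            fin_cases j
            · simp
            · simp [h3]
    rw [fcl_induce (hs.prod stN) χ.ker.subtype q0]
    · refine fcl_congr q0 hs1 Prod.fst (DM.fst DM.id') ⟨?_, ?_, ?_⟩ ?_
      · rintro ⟨x, b⟩ h; exact h.1
      · rintro ⟨x, b⟩ h ⟨x', b'⟩ h' hh
        have q1 : b = Projectivization.mk k ![1, 0] fae_e0 := h.2
        have q2 : b' = Projectivization.mk k ![1, 0] fae_e0 := h'.2
        rw [q1, q2]
        exact Prod.ext hh rfl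
      · intro x hx
        exact ⟨(x, _), ⟨hx, rfl⟩, rfl⟩
      · rintro g ⟨x, b⟩ h
        rfl
    · rintro ⟨x, b⟩ ⟨hx, hb⟩
      have hb' : b = Projectivization.mk k ![1, 0] fae_e0 := hb
      subst hb'
      refine ⟨hx, trivial, ?_⟩
      rw [faeT_mk]
      simp
    · rintro ⟨x, b⟩ ⟨hx, hb⟩
      rcases cases b hb with h | h
      · exact ⟨1, by rw [FAct.a_one]; exact ⟨hx, h⟩⟩
      · refine ⟨w, hs.st w x hx, ?_⟩
        show (PRep ρ).a w b = _
        rw [h, PRep_mk, Projectivization.mk_eq_mk_iff']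
        refine ⟨1, ?_⟩
        rw [h2]
        simp
    · rintro ⟨x, b⟩ ⟨hx, hb⟩ g ⟨_, hg⟩
      have hb' : b = Projectivization.mk k ![1, 0] fae_e0 := hb
      have hg' : (PRep ρ).a g b = Projectivization.mk k ![1, 0] fae_e0 := hg
      rw [hb', PRep_mk, Projectivization.mk_eq_mk_iff'] at hg'
      obtain ⟨c, hc⟩ := hg'
      rcases hχ g with h | h
      · exact ⟨⟨g, h⟩, rfl⟩
      · exfalso
        obtain ⟨i, _, h'⟩ := hχ2 g h
        rw [h'] at hc
        have := congrFun hc 1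
        simp at this
        exact hzi i this.symm
  -- the rest
  have prim : IsPrimitiveRoot ζ m := by
    have := Fact.mk hm
    have h3 : orderOf ζ = m := orderOf_eq_prime hζ hζ1
    rw [← h3]
    exact IsPrimitiveRoot.orderOf ζ
  have prim2 : IsPrimitiveRoot (ζ ^ 2) m := by
    apply prim.pow_of_coprime
    rw [Nat.coprime_primes Nat.prime_two hm]
    exact fun h => hm2 h.symm
  have : NeZero m := ⟨hm.ne_zero⟩
  have uact : ∀ (g : F) (p : ℙ k (Fin 2 → k)), p ∈ faeT k →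
      faeU ((PRep ρ).a g p) ^ m = (invAct χ hχ).a g (faeU p ^ m) := by
    intro g p hp
    have hgp := stT.st g p hp
    obtain ⟨v, ⟨hv, rfl⟩, hv'⟩ := hp
    rw [PRep_mk] at hgp ⊢
    rw [faeU_mk, faeU_mk]
    rw [faeT_mk] at hgp
    apply Units.ext
    have hinv : (invAct χ hχ).a g (faeQ v ^ m) =
      if χ g = 1 then faeQ v ^ m else (faeQ v ^ m)⁻¹ := rfl
    rw [hinv, Units.val_pow_eq_pow_val, faeQ_of hgp]
    rcases hχ g with h | h
    · obtain ⟨i, _, h'⟩ := hχ1 g h
      rw [if_pos h, h', Units.val_pow_eq_pow_val, faeQ_of hv']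
      simp only [Matrix.cons_val_zero, Matrix.cons_val_one]
      have hv1 := hv'.2
      have e : ζ ^ i * v 0 / (ζ⁻¹ ^ i * v 1) = (ζ ^ i) ^ 2 * (v 0 / v 1) := by
        rw [inv_pow]
        field_simp
      rw [e, mul_pow, he2 i, one_mul]
    · obtain ⟨i, _, h'⟩ := hχ2 g h
      rw [if_neg (by rw [h]; exact hneg), h', Units.val_inv_eq_inv_val, Units.val_pow_eq_pow_val,
        faeQ_of hv']
      simp only [Matrix.cons_val_zero, Matrix.cons_val_one]
      have hv1 := hv'.1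
      have e : ζ ^ i * v 1 / (ζ⁻¹ ^ i * v 0) = (ζ ^ i) ^ 2 * (v 1 / v 0) := by
        rw [inv_pow]
        field_simp
      rw [e, mul_pow, he2 i, one_mul, ← inv_pow, inv_div]
  have trivi : ∀ (i : ℕ), ∀ x ∈ s, A.a (σ ^ i) x = x := by
    intro i
    induction i with
    | zero => intro x _; rw [pow_zero, A.a_one]
    | succ i ih =>
        intro x hx
        rw [pow_succ, A.a_mul, triv x hx, ih x hx]
  have c2 : fcl (A.prod (PRep ρ)) (s ×ˢ (faeT k)) =
      fcl (A.prod (invAct χ hχ)) (s ×ˢ (Set.univ : Set kˣ)) := by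
    have hst1 := hs.prod stT
    have hst2 := hs.prod (FAct.St.univ (invAct χ hχ))
    refine clq_map hst1.dq hst2.dq (fun q => (q.1, faeU q.2 ^ m)) ?_ ?_ ?_ ?_
    · exact DM.mk (DM.fst DM.id') (DM.upow (DM.comp faeU_dm (DM.snd DM.id')) m)
    · rintro ⟨x, p⟩ h
      exact ⟨h.1, trivial⟩
    · rintro ⟨x, p⟩ ⟨hx, hp⟩ ⟨y, q⟩ ⟨hy, hq⟩
      constructor
      · rintro ⟨g, hg⟩
        have g1 : A.a g x = y := congrArg Prod.fst hg
        have g2 : (PRep ρ).a g p = q := congrArg Prod.snd hg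
        refine ⟨g, Prod.ext g1 ?_⟩
        show (invAct χ hχ).a g (faeU p ^ m) = faeU q ^ m
        rw [← uact g p hp, g2]
      · rintro ⟨g, hg⟩
        have g1 : A.a g x = y := congrArg Prod.fst hg
        have g2 : (invAct χ hχ).a g (faeU p ^ m) = faeU q ^ m := congrArg Prod.snd hg
        rw [← uact g p hp] at g2
        have hp' := stT.st g p hp
        -- the two coordinates differ by a root of unity
        have h5 : ((faeU q / faeU ((PRep ρ).a g p) : kˣ) : k) ^ m = 1 := by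
          rw [← Units.val_pow_eq_pow_val, div_pow, g2, div_self', Units.val_one]
        obtain ⟨j, _, hj⟩ := prim2.eq_pow_of_pow_eq_one h5
        refine ⟨σ ^ j * g, ?_⟩
        rw [FAct.a_mul]
        refine Prod.ext ?_ ?_
        · show A.a (σ ^ j) (A.a g x) = y
          rw [g1, trivi j y hy]
        · show (PRep ρ).a (σ ^ j) ((PRep ρ).a g p) = q
          have hp2 := stT.st (σ ^ j) _ hp'
          apply faeU_inj hp2 hq
          obtain ⟨v, ⟨hv, hpv⟩, hv'⟩ := hp'
          have hst : (PRep ρ).a g p = Projectivization.mk k v hv := hpv.symm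
          rw [hst] at hj hp2 ⊢
          rw [PRep_mk] at hp2 ⊢
          rw [faeU_mk] at hj ⊢
          rw [faeT_mk] at hp2
          have hσj : ∀ v, ρ (σ ^ j) v = ![ζ ^ j * v 0, ζ⁻¹ ^ j * v 1] := by
            have hχσ : χ (σ ^ j) = 1 := by
              have hσ1 : χ σ = 1 := by
                apply Units.ext
                rw [hχv, fae_det1 h1, mul_inv_cancel₀ hζ0, Units.val_one]
              rw [map_pow, hσ1, one_pow]
            clear hj hp2
            have hgen : ∀ j : ℕ, ∀ v, ρ (σ ^ j) v = ![ζ ^ j * v 0, ζ⁻¹ ^ j * v 1] := by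
              intro i
              induction i with
              | zero =>
                  intro v
                  rw [pow_zero, map_one]
                  funext j
                  fin_cases j <;> simp
              | succ i ih =>
                  intro v
                  rw [pow_succ', map_mul, Module.End.mul_apply, h1, ih]
                  funext j
                  fin_cases j
                  · simp [pow_succ']; ring
                  · simp [pow_succ']; ring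
            exact hgen j
          apply Units.ext
          rw [faeQ_of hp2, hσj]
          simp only [Matrix.cons_val_zero, Matrix.cons_val_one]
          have hq' : (faeU q : k) = (ζ ^ 2) ^ j * (faeQ v : k) := by
            rw [hj, Units.val_div_eq_div_val, div_mul_cancel₀ _ (Units.ne_zero _)]
          rw [hq', faeQ_of hv', inv_pow, ← pow_mul, mul_comm 2 j, pow_mul]
          have hv1 := hv'.2
          field_simp
    · rintro ⟨x, c⟩ ⟨hx, _⟩
      obtain ⟨b, hb⟩ := IsAlgClosed.exists_pow_nat_eq (c : k) hm.pos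
      have hb0 : b ≠ 0 := by
        rintro rfl
        rw [zero_pow hm.ne_zero] at hb
        exact c.ne_zero hb.symm
      have hv : (![b, 1] : Fin 2 → k) 0 ≠ 0 ∧ (![b, 1] : Fin 2 → k) 1 ≠ 0 := by
        simp [hb0]
      refine ⟨(x, Projectivization.mk k ![b, 1] (fae_ne hv)), ⟨hx, (faeT_mk _).2 hv⟩, ?_⟩
      have e : faeU (Projectivization.mk k ![b, 1] (fae_ne hv)) ^ m = c := by
        rw [faeU_mk]
        apply Units.ext
        rw [Units.val_pow_eq_pow_val, faeQ_of hv]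
        simp [hb]
      show (A.prod (invAct χ hχ)).rel
        (x, faeU (Projectivization.mk k ![b, 1] (fae_ne hv)) ^ m) (x, c)
      rw [e]
      exact FAct.rel_refl _ _
  rw [c1, c2, fcl_invAct A hs χ hχ w hχw]
  abel


/-! ### The representation `E` over arbitrary spaces -/

omit [Finite F] in
private theorem fae_conj {σ w : F} (hw : w * w = 1) (hwσ : w * σ * w = σ⁻¹) (i : ℕ) :
    w * σ ^ i * w = (σ ^ i)⁻¹ := by
  induction i with
  | zero => rw [pow_zero, mul_one, hw, inv_one]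
  | succ i ih =>
      calc w * σ ^ (i + 1) * w = w * σ ^ i * (w * w) * σ * w := by
            rw [hw, pow_succ]; group
        _ = (w * σ ^ i * w) * (w * σ * w) := by group
        _ = (σ ^ (i + 1))⁻¹ := by rw [ih, hwσ, pow_succ', mul_inv_rev]

private theorem fae_pow {G : Type} [Group G] [Finite G] {g h : G}
    (hh : h ∈ Subgroup.zpowers g) : ∃ j : ℕ, g ^ j = h :=
  mem_powers_iff_mem_zpowers.2 hh

private theorem fae_normal {σ w : F} (hw : w * w = 1) (hwσ : w * σ * w = σ⁻¹)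
    (gen : ∀ g : F, ∃ i : ℕ, g = σ ^ i ∨ g = σ ^ i * w) (g h : F)
    (hh : h ∈ Subgroup.zpowers σ) : g * h * g⁻¹ ∈ Subgroup.zpowers σ := by
  have hwi : w⁻¹ = w := inv_eq_of_mul_eq_one_left hw
  have hs : σ ∈ Subgroup.zpowers σ := Subgroup.mem_zpowers σ
  have h1 : ∀ h ∈ Subgroup.zpowers σ, w * h * w⁻¹ ∈ Subgroup.zpowers σ := by
    intro h hh
    obtain ⟨j, rfl⟩ := fae_pow hh
    rw [hwi, fae_conj hw hwσ]
    exact inv_mem (pow_mem hs j)
  obtain ⟨i, rfl | rfl⟩ := gen g
  · exact mul_mem (mul_mem (pow_mem hs i) hh) (inv_mem (pow_mem hs i))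
  · have e : σ ^ i * w * h * (σ ^ i * w)⁻¹ = σ ^ i * (w * h * w⁻¹) * (σ ^ i)⁻¹ := by group
    rw [e]
    exact mul_mem (mul_mem (pow_mem hs i) (h1 h hh)) (inv_mem (pow_mem hs i))

/-- An element of the cyclic group of order `m` which fixes a point not fixed by the whole group. -/
private theorem fae_one {A : FAct k F X} {σ : F} {m : ℕ} (hm : m.Prime) (hσ : σ ^ m = 1)
    {x : X} (hx : ¬ ∀ h ∈ Subgroup.zpowers σ, A.a h x = x) {g : F}
    (hg : g ∈ Subgroup.zpowers σ) (hgx : A.a g x = x) : g = 1 := by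
  by_contra hg1
  apply hx
  intro h hh
  have := Fact.mk hm
  have hσ1 : σ ≠ 1 := by
    rintro rfl
    rw [Subgroup.zpowers_one_eq_bot, Subgroup.mem_bot] at hg
    exact hg1 hg
  have hord : orderOf σ = m := orderOf_eq_prime hσ hσ1
  have hcard : Nat.card (Subgroup.zpowers σ) = m := by rw [Nat.card_zpowers, hord]
  have h1 : (⟨h, hh⟩ : Subgroup.zpowers σ) ∈
      Subgroup.zpowers (⟨g, hg⟩ : Subgroup.zpowers σ) := by
    apply mem_zpowers_of_prime_card hcard
    intro h2
    exact hg1 (congrArg Subtype.val h2)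
  obtain ⟨j, hj⟩ := fae_pow h1
  have h3 : g ^ j = h := congrArg Subtype.val hj
  rw [← h3]
  clear hj h3
  induction j with
  | zero => rw [pow_zero, A.a_one]
  | succ j ih => rw [pow_succ, A.a_mul, hgx, ih]

private theorem niceOn_E {σ w : F} {m : ℕ} (hm : m.Prime) (hm2 : m ≠ 2) (hσ : σ ^ m = 1)
    (hw : w * w = 1) (hwσ : w * σ * w = σ⁻¹) (gen : ∀ g : F, ∃ i : ℕ, g = σ ^ i ∨ g = σ ^ i * w)
    (ρ : Representation k F (Fin 2 → k)) (ζ : k) (hζ : ζ ^ m = 1) (hζ1 : ζ ≠ 1)
    (h1 : ∀ v, ρ σ v = ![ζ * v 0, ζ⁻¹ * v 1]) (h2 : ∀ v, ρ w v = ![v 1, v 0]) :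
    NiceOn (k := k) ∅ ρ := by
  classical
  intro X _ A s hs _
  have hnor := fae_normal hw hwσ gen
  have st1 : A.St {x ∈ s | ∀ h ∈ Subgroup.zpowers σ, h ∈ {g | A.a g x = x}} := by
    refine stab_st hs (fun S => ∀ h ∈ Subgroup.zpowers σ, h ∈ S) ?_
    intro g S hS h hh
    have := hnor g⁻¹ h hh
    rw [inv_inv] at this
    exact hS _ this
  have st2 : A.St {x ∈ s | ∃ h ∈ {g | A.a g x = x}, h ∉ Subgroup.zpowers σ} := by
    refine stab_st hs (fun S => ∃ h ∈ S, h ∉ Subgroup.zpowers σ) ?_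
    rintro g S ⟨h, hS, hh⟩
    refine ⟨g * h * g⁻¹, ?_, ?_⟩
    · have e : g⁻¹ * (g * h * g⁻¹) * g = h := by group
      show g⁻¹ * (g * h * g⁻¹) * g ∈ S
      rw [e]
      exact hS
    · intro h3
      apply hh
      have := hnor g⁻¹ _ h3
      have e : g⁻¹ * (g * h * g⁻¹) * g⁻¹⁻¹ = h := by group
      rw [e] at this
      exact this
  have hσmem : σ ∈ Subgroup.zpowers σ := Subgroup.mem_zpowers σ
  refine nice_split hs st1 ?_ ?_
  · refine nice_E (hs.inter st1) σ w m hm hm2 gen ?_ ρ ζ hζ hζ1 h1 h2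
    rintro x ⟨_, _, hx⟩
    exact hx σ hσmem
  set s' := s \ {x ∈ s | ∀ h ∈ Subgroup.zpowers σ, h ∈ {g | A.a g x = x}} with hs'
  have hs'st : A.St s' := hs.diff st1
  have hs'x : ∀ x ∈ s', ¬ ∀ h ∈ Subgroup.zpowers σ, A.a h x = x := by
    rintro x ⟨hx, hx'⟩ h
    exact hx' ⟨hx, h⟩
  refine nice_split hs'st st2 ?_ ?_
  · -- the points with a stabiliser of order two
    obtain ⟨r, hr⟩ := hm.odd_of_ne_two hm2
    set s2 := s' ∩ {x ∈ s | ∃ h ∈ {g | A.a g x = x}, h ∉ Subgroup.zpowers σ} with hs2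
    have hs2st : A.St s2 := hs'st.inter st2
    have hwfix : ∀ x, A.a w x = x → ∀ g ∈ Subgroup.zpowers w, A.a g x = x := by
      intro x hx g hg
      obtain ⟨j, rfl⟩ := fae_pow hg
      clear hg
      induction j with
      | zero => rw [pow_zero, A.a_one]
      | succ j ih => rw [pow_succ, A.a_mul, hx, ih]
    have hfin : Finite (Subgroup.zpowers w) := inferInstance
    have ht : (A.comap (Subgroup.zpowers w).subtype).St {x | x ∈ s2 ∧ A.a w x = x} := by
      refine ⟨DM.and hs2st.ds (DM.eq (A.d w) DM.id'), ?_⟩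
      rintro ⟨g, hg⟩ x ⟨hx, hx'⟩
      have e : (A.comap (Subgroup.zpowers w).subtype).a ⟨g, hg⟩ x = x := hwfix x hx' g hg
      rw [e]
      exact ⟨hx, hx'⟩
    refine nice_induce hs2st (Subgroup.zpowers w).subtype ht (fun x hx => hx.1) ?_ ?_ ρ ?_
    · intro x hx
      obtain ⟨h, hh, hh'⟩ := hx.2.2
      obtain ⟨i, hi | hi⟩ := gen h
      · exact absurd (by rw [hi]; exact pow_mem hσmem i) hh'
      · refine ⟨(σ ^ (i * (r + 1)))⁻¹, hs2st.st _ x hx, ?_⟩
        rw [← A.a_mul]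
        have e1 : w * (σ ^ (i * (r + 1)))⁻¹ = (σ ^ (i * (r + 1)))⁻¹ * (σ ^ i * w) := by
          have e2 : w * (σ ^ (i * (r + 1)))⁻¹ = σ ^ (i * (r + 1)) * w := by
            rw [← fae_conj hw hwσ, ← mul_assoc, ← mul_assoc, hw, one_mul]
          have e3 : σ ^ (i * (r + 1)) * σ ^ (i * (r + 1)) = σ ^ i := by
            rw [← pow_add]
            have e4 : i * (r + 1) + i * (r + 1) = m * i + i := by rw [hr]; ring
            rw [e4, pow_add, pow_mul, hσ, one_pow, one_mul]
          rw [e2, ← e3]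
          group
        rw [e1, A.a_mul, ← hi]
        have hh2 : A.a h x = x := hh
        rw [hh2]
    · rintro x ⟨hx, hwx⟩ g ⟨hgx, hwgx⟩
      have key : ∀ i : ℕ, A.a w (A.a (σ ^ i) x) = A.a (σ ^ i) x → σ ^ i = 1 := by
        intro i hi
        have k1 : A.a (w * σ ^ i * w) x = A.a (σ ^ i) x := by
          rw [A.a_mul, A.a_mul, hwx, hi]
        rw [fae_conj hw hwσ] at k1
        have k2 : A.a (σ ^ i * σ ^ i) x = x := by
          rw [A.a_mul, ← k1, A.a_inv']
        have k3 : σ ^ i * σ ^ i = 1 :=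
          fae_one hm hσ (hs'x x hx.1) (mul_mem (pow_mem hσmem i) (pow_mem hσmem i)) k2
        have k4 : (σ ^ i) ^ m = 1 := by
          rw [← pow_mul, mul_comm, pow_mul, hσ, one_pow]
        rw [hr, pow_succ, pow_mul, pow_two, k3, one_pow, one_mul] at k4
        exact k4
      obtain ⟨i, hi | hi⟩ := gen g
      · have e := key i (by rw [← hi]; exact hwgx)
        refine ⟨1, ?_⟩
        rw [map_one, hi, e]
      · have e0 : A.a g x = A.a (σ ^ i) x := by rw [hi, A.a_mul, hwx]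
        rw [e0] at hwgx
        have e := key i hwgx
        refine ⟨⟨w, Subgroup.mem_zpowers w⟩, ?_⟩
        show w = g
        rw [hi, e, one_mul]
    · have hcomm : ∀ g h : Subgroup.zpowers w, g * h = h * g := by
        rintro ⟨g, hg⟩ ⟨h, hh⟩
        obtain ⟨j, rfl⟩ := fae_pow hg
        obtain ⟨l, rfl⟩ := fae_pow hh
        apply Subtype.ext
        show w ^ j * w ^ l = w ^ l * w ^ j
        rw [← pow_add, ← pow_add, add_comm]
      exact niceOn_comm hcomm (ρ.comp (Subgroup.zpowers w).subtype) X _ _ ht (by simp)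
  · -- the points with trivial stabiliser
    refine nice_free (hs'st.diff st2) ρ ?_
    rintro x ⟨hx, hx2⟩ g hg
    have hgN : g ∈ Subgroup.zpowers σ := by
      by_contra h
      exact hx2 ⟨hx.1, g, hg, h⟩
    rw [fae_one hm hσ (hs'x x hx) hgN hg, map_one]

private theorem fae_stable {σ w : F} (gen : ∀ g : F, ∃ i : ℕ, g = σ ^ i ∨ g = σ ^ i * w)
    (ρ : Representation k F V) (U : Submodule k V) (h1 : ∀ v ∈ U, ρ σ v ∈ U)
    (h2 : ∀ v ∈ U, ρ w v ∈ U) (g : F) (v : V) (hv : v ∈ U) : ρ g v ∈ U := by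
  have h3 : ∀ i : ℕ, ∀ v ∈ U, ρ (σ ^ i) v ∈ U := by
    intro i
    induction i with
    | zero => intro v hv; rw [pow_zero, map_one]; exact hv
    | succ i ih =>
        intro v hv
        rw [pow_succ, map_mul, Module.End.mul_apply]
        exact ih _ (h1 v hv)
  obtain ⟨i, rfl | rfl⟩ := gen g
  · exact h3 i v hv
  · rw [map_mul, Module.End.mul_apply]
    exact h3 i _ (h2 v hv)

/-- The projective bundle formula for dihedral groups of order `2 m`, `m` an odd prime. -/
theorem niceOn_dihedral (σ w : F) (m : ℕ) (hm : m.Prime) (hm2 : m ≠ 2) (hσ : σ ^ m = 1)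
    (hw : w * w = 1) (hwσ : w * σ * w = σ⁻¹) (gen : ∀ g : F, ∃ i : ℕ, g = σ ^ i ∨ g = σ ^ i * w)
    (ρ : Representation k F V) : NiceOn (k := k) ∅ ρ := by
  classical
  refine niceOn_induct ?_ ρ
  intro n ρ hn
  -- stable lines
  have line : ∀ u : Fin n → k, u ≠ 0 → (∃ a : k, ρ σ u = a • u) → (∃ b : k, ρ w u = b • u) →
      ∃ U : Submodule k (Fin n → k), U ≠ ⊥ ∧ (∀ g, ∀ v ∈ U, ρ g v ∈ U) ∧
        ∀ (m : ℕ) (ρ0 : Representation k F (Fin m → k)) (i : (Fin m → k) →ₗ[k] (Fin n → k)),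
          Function.Injective i → LinearMap.range i = U → (∀ g v, i (ρ0 g v) = ρ g (i v)) →
            NiceOn (k := k) ∅ ρ0 := by
    rintro u hu ⟨a, ha⟩ ⟨b, hb⟩
    refine ⟨Submodule.span k {u}, ?_, ?_, ?_⟩
    · rw [ne_eq, Submodule.span_singleton_eq_bot]
      exact hu
    · refine fae_stable gen ρ _ ?_ ?_
      · intro v hv
        rw [Submodule.mem_span_singleton] at hv ⊢
        obtain ⟨c, rfl⟩ := hv
        exact ⟨c * a, by rw [map_smul, ha, mul_smul]⟩
      · intro v hv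
        rw [Submodule.mem_span_singleton] at hv ⊢
        obtain ⟨c, rfl⟩ := hv
        exact ⟨c * b, by rw [map_smul, hb, mul_smul]⟩
    · intro m' ρ0 i hi hr _
      refine niceOn_line ρ0 ?_
      have e := LinearMap.finrank_range_of_inj hi
      rw [hr] at e
      rw [← e, finrank_span_singleton hu]
  have : Nonempty (Fin n) := ⟨⟨0, hn⟩⟩
  obtain ⟨ζ, hζe⟩ := Module.End.exists_eigenvalue (ρ σ)
  obtain ⟨v, hv⟩ := hζe.exists_hasEigenvector
  have hv0 : v ≠ 0 := hv.2
  have hσv : ρ σ v = ζ • v := hv.apply_eq_smul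
  have hpow : ∀ i : ℕ, ρ (σ ^ i) v = ζ ^ i • v := by
    intro i
    induction i with
    | zero => rw [pow_zero, map_one, pow_zero, one_smul]; rfl
    | succ i ih =>
        rw [pow_succ', map_mul, Module.End.mul_apply, ih, map_smul, hσv, smul_smul, pow_succ]
  have hζ : ζ ^ m = 1 := by
    have h3 := hpow m
    rw [hσ, map_one, Module.End.one_apply] at h3
    have h4 : (ζ ^ m - 1) • v = 0 := by rw [sub_smul, one_smul, ← h3, sub_self]
    rcases smul_eq_zero.1 h4 with h5 | h5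
    · exact sub_eq_zero.1 h5
    · exact absurd h5 hv0
  have hζ0 : ζ ≠ 0 := by
    rintro rfl
    rw [zero_pow hm.ne_zero] at hζ
    exact zero_ne_one hζ
  have hww : ρ w (ρ w v) = v := by
    rw [← Module.End.mul_apply, ← map_mul, hw, map_one, Module.End.one_apply]
  have hσinv : ρ σ⁻¹ v = ζ⁻¹ • v := by
    apply rep_inj ρ σ
    rw [← Module.End.mul_apply, ← map_mul, mul_inv_cancel, map_one, Module.End.one_apply,
      map_smul, hσv, smul_smul, inv_mul_cancel₀ hζ0, one_smul]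
  have hσwv : ρ σ (ρ w v) = ζ⁻¹ • ρ w v := by
    have e : σ * w = w * σ⁻¹ := by
      rw [← hwσ, ← mul_assoc, ← mul_assoc, hw, one_mul]
    rw [← Module.End.mul_apply, ← map_mul, e, map_mul, Module.End.mul_apply, hσinv, map_smul]
  by_cases hp : ∃ b : k, ρ w v = b • v
  · exact line v hv0 ⟨ζ, hσv⟩ hp
  by_cases hζ1 : ζ = 1
  · refine line (v + ρ w v) ?_ ⟨1, ?_⟩ ⟨1, ?_⟩
    · intro h
      apply hp
      refine ⟨-1, ?_⟩
      rw [neg_smul, one_smul]
      exact eq_neg_of_add_eq_zero_right h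
    · rw [map_add, hσv, hσwv, hζ1, inv_one, one_smul, one_smul, one_smul]
    · rw [map_add, hww, one_smul, add_comm]
  -- the two-dimensional representation
  let j : (Fin 2 → k) →ₗ[k] (Fin n → k) :=
    (LinearMap.toSpanSingleton k _ v).comp (LinearMap.proj 0) +
      (LinearMap.toSpanSingleton k _ (ρ w v)).comp (LinearMap.proj 1)
  have hj : ∀ x : Fin 2 → k, j x = x 0 • v + x 1 • ρ w v := fun x => rfl
  have hjinj : Function.Injective j := by
    rw [injective_iff_map_eq_zero]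
    intro x hx
    rw [hj] at hx
    have hx1 : x 1 = 0 := by
      by_contra h
      apply hp
      refine ⟨-(x 0 / x 1), ?_⟩
      have h3 : x 1 • ρ w v = (-(x 0)) • v := by
        rw [neg_smul]
        exact eq_neg_of_add_eq_zero_right hx
      have h4 : ρ w v = (x 1)⁻¹ • x 1 • ρ w v := by
        rw [smul_smul, inv_mul_cancel₀ h, one_smul]
      rw [h4, h3, smul_smul]
      congr 1
      field_simp
    have hx0 : x 0 = 0 := by
      rw [hx1, zero_smul, add_zero] at hx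
      rcases smul_eq_zero.1 hx with h | h
      · exact h
      · exact absurd h hv0
    funext l
    fin_cases l
    · exact hx0
    · exact hx1
  have hjσ : ∀ x : Fin 2 → k, ρ σ (j x) = j ![ζ * x 0, ζ⁻¹ * x 1] := by
    intro x
    rw [hj, hj, map_add, map_smul, map_smul, hσv, hσwv, smul_smul, smul_smul]
    simp only [Matrix.cons_val_zero, Matrix.cons_val_one]
    rw [mul_comm (x 0), mul_comm (x 1)]
  have hjw : ∀ x : Fin 2 → k, ρ w (j x) = j ![x 1, x 0] := by
    intro x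
    rw [hj, hj, map_add, map_smul, map_smul, hww]
    simp only [Matrix.cons_val_zero, Matrix.cons_val_one]
    rw [add_comm]
  refine ⟨LinearMap.range j, ?_, ?_, ?_⟩
  · intro h
    have h3 : j ![1, 0] ∈ LinearMap.range j := ⟨_, rfl⟩
    rw [h, Submodule.mem_bot] at h3
    exact fae_e0 (hjinj (by rw [h3, map_zero]))
  · refine fae_stable gen ρ _ ?_ ?_
    · rintro _ ⟨x, rfl⟩
      exact ⟨_, (hjσ x).symm⟩
    · rintro _ ⟨x, rfl⟩
      exact ⟨_, (hjw x).symm⟩
  · intro m' ρ0 i hi hr hρ0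
    let e : (Fin m' → k) ≃ₗ[k] (Fin 2 → k) :=
      ((LinearEquiv.ofInjective i hi).trans (LinearEquiv.ofEq _ _ hr)).trans
        (LinearEquiv.ofInjective j hjinj).symm
    have hje : ∀ x, j (e x) = i x := by
      intro x
      have h3 : LinearEquiv.ofInjective j hjinj (e x) =
          LinearEquiv.ofEq _ _ hr (LinearEquiv.ofInjective i hi x) := by
        show LinearEquiv.ofInjective j hjinj ((LinearEquiv.ofInjective j hjinj).symm _) = _
        rw [LinearEquiv.apply_symm_apply]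
        rfl
      exact congrArg Subtype.val h3
    let ρE : Representation k F (Fin 2 → k) :=
      { toFun := fun g => e.toLinearMap ∘ₗ ρ0 g ∘ₗ e.symm.toLinearMap
        map_one' := by
          apply LinearMap.ext
          intro x
          simp
        map_mul' := by
          intro g h
          apply LinearMap.ext
          intro x
          simp }
    have hρE : ∀ g x, ρE g x = e (ρ0 g (e.symm x)) := fun g x => rfl
    have hjρ : ∀ g x, j (ρE g x) = ρ g (j x) := by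
      intro g x
      rw [hρE, hje, hρ0, ← hje, LinearEquiv.apply_symm_apply]
    have hE : NiceOn (k := k) ∅ ρE := by
      refine niceOn_E hm hm2 hσ hw hwσ gen ρE ζ hζ hζ1 ?_ ?_
      · intro x
        apply hjinj
        rw [hjρ, hjσ]
      · intro x
        apply hjinj
        rw [hjρ, hjw]
    refine (niceOn_equiv ρ0 ρE e ?_).2 hE
    intro g
    refine ⟨1, one_ne_zero, ?_⟩
    intro x
    rw [one_smul, hρE, LinearEquiv.symm_apply_apply]

end Pool.Agent.MRat
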