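import Pool.Agent.Lib.MP_923aff_ag.FA2
/-!
# JOB FAF: monomial representations

`exists_abs`: for `0 < r` the representation `ρ` is given by signed permutation matrices `M g` (entries `0, 1, -1`, one in
each row and column) of size three acting on the three blocks; the squares of the entries form a representation as well.
`fcl_mono`: for a vector `v : Fin r → k` let `piv v` be its first non-zero coordinate (`0` for `v = 0`); the map
`(y, [x]) ↦ (y, [i ↦ piv (x i) • x i])` is definable, onto, equivariant, and two points have the same image iff they differ by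
signs of the blocks. `clq_map`.
-/

set_option autoImplicit false

namespace Pool.Agent.MRat

open scoped MatrixGroups LinearAlgebra.Projectivization

variable {k : Type} [Field k] [IsAlgClosed k] [CharZero k]
variable {F : Type} [Group F] [Finite F]
variable {X : Type} [DT k X]

/-- `ρ` permutes the three blocks up to signs and `ρ'` permutes them in the same way without signs. -/
def MonoPair {r : ℕ} (ρ ρ' : Representation k F (Fin 3 → Fin r → k)) : Prop :=
  ∀ g, ∃ (σ : Equiv.Perm (Fin 3)) (e : Fin 3 → k), (∀ i, e i = 1 ∨ e i = -1) ∧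
    (∀ x i, ρ g x (σ i) = e i • x i) ∧ ∀ x i, ρ' g x (σ i) = x i

omit [IsAlgClosed k] in
private theorem FAF_uniq {r : ℕ} (hr : 0 < r) {f : (Fin 3 → Fin r → k) → (Fin 3 → Fin r → k)}
    {σ σ' : Equiv.Perm (Fin 3)} {e e' : Fin 3 → k} (he : ∀ i, e i = 1 ∨ e i = -1)
    (h : ∀ x i, f x (σ i) = e i • x i) (h' : ∀ x i, f x (σ' i) = e' i • x i) : σ = σ' := by
  refine Equiv.ext fun i => ?_
  by_contra hne
  set x : Fin 3 → Fin r → k := Pi.single i (fun _ => 1) with hx
  set j := σ'.symm (σ i) with hj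
  have hji : j ≠ i := by
    intro h1
    apply hne
    rw [← h1, hj, Equiv.apply_symm_apply]
    rw [← hj, h1]
  have h1 := h x i
  have h2 := h' x j
  rw [hj, Equiv.apply_symm_apply, ← hj] at h2
  rw [h2] at h1
  have h3 := congrFun h1 ⟨0, hr⟩
  have h4 : x j = 0 := by rw [hx]; exact Pi.single_eq_of_ne hji _
  have h5 : x i ⟨0, hr⟩ = 1 := by rw [hx, Pi.single_eq_same]
  simp only [Pi.smul_apply, smul_eq_mul, h4, Pi.zero_apply, mul_zero, h5, mul_one] at h3
  rcases he i with h6 | h6 <;> rw [h6] at h3 <;> simp at h3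

omit [IsAlgClosed k] [Finite F] in
/-- The permutation of the blocks as a homomorphism. -/
private theorem FAF_hom {r : ℕ} (hr : 0 < r) (ρ : Representation k F (Fin 3 → Fin r → k))
    (h : ∀ g, ∃ (σ : Equiv.Perm (Fin 3)) (e : Fin 3 → k), (∀ i, e i = 1 ∨ e i = -1) ∧
      ∀ x i, ρ g x (σ i) = e i • x i) :
    ∃ S : F →* Equiv.Perm (Fin 3), ∀ g, ∃ e : Fin 3 → k, (∀ i, e i = 1 ∨ e i = -1) ∧
      ∀ x i, ρ g x (S g i) = e i • x i := by
  choose σ e he h1 using h
  refine ⟨{ toFun := σ, map_one' := ?_, map_mul' := ?_ }, fun g => ⟨e g, he g, h1 g⟩⟩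
  · refine FAF_uniq (k := k) hr (he 1) (h1 1) (e' := fun _ => 1) ?_
    intro x i
    simp
  · intro g g'
    refine FAF_uniq (k := k) hr (he (g * g')) (h1 (g * g'))
      (e' := fun i => e g (σ g' i) * e g' i) ?_
    intro x i
    rw [map_mul, Module.End.mul_apply, Equiv.Perm.mul_apply, h1 g, h1 g', smul_smul]

theorem exists_abs {r : ℕ} (ρ : Representation k F (Fin 3 → Fin r → k))
    (h : ∀ g, ∃ (σ : Equiv.Perm (Fin 3)) (e : Fin 3 → k), (∀ i, e i = 1 ∨ e i = -1) ∧
      ∀ x i, ρ g x (σ i) = e i • x i) :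
    ∃ ρ' : Representation k F (Fin 3 → Fin r → k), MonoPair ρ ρ' := by
  rcases Nat.eq_zero_or_pos r with hr | hr
  · subst hr
    refine ⟨1, fun g => ?_⟩
    obtain ⟨σ, e, he, h1⟩ := h g
    exact ⟨σ, e, he, h1, fun x i => funext fun j => j.elim0⟩
  · obtain ⟨S, hS⟩ := FAF_hom hr ρ h
    let ρ' : Representation k F (Fin 3 → Fin r → k) :=
      { toFun := fun g => LinearMap.funLeft k (Fin r → k) (⇑((S g)⁻¹ : Equiv.Perm (Fin 3)))
        map_one' := by
          refine LinearMap.ext fun x => funext fun i => ?_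
          simp [LinearMap.funLeft_apply]
        map_mul' := fun g g' => by
          refine LinearMap.ext fun x => funext fun i => ?_
          simp [LinearMap.funLeft_apply] }
    refine ⟨ρ', fun g => ?_⟩
    obtain ⟨e, he, h1⟩ := hS g
    refine ⟨S g, e, he, h1, fun x i => ?_⟩
    show x ((S g)⁻¹ (S g i)) = x i
    simp

/-- Twisting by the sign of the permutation of the blocks: if `ρ` permutes the blocks up to signs there is a
representation `ρ'` with `ρ' g = sign σ • ρ g`. -/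
theorem exists_sign {r : ℕ} (ρ : Representation k F (Fin 3 → Fin r → k))
    (h : ∀ g, ∃ (σ : Equiv.Perm (Fin 3)) (e : Fin 3 → k), (∀ i, e i = 1 ∨ e i = -1) ∧
      ∀ x i, ρ g x (σ i) = e i • x i) :
    ∃ ρ' : Representation k F (Fin 3 → Fin r → k), ∀ g, ∀ (σ : Equiv.Perm (Fin 3))
      (e : Fin 3 → k), (∀ i, e i = 1 ∨ e i = -1) → (∀ x i, ρ g x (σ i) = e i • x i) →
      ∀ x i, ρ' g x (σ i) = ((Equiv.Perm.sign σ : ℤ) : k) • e i • x i := by
  rcases Nat.eq_zero_or_pos r with hr | hr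
  · subst hr
    exact ⟨1, fun g σ e he h1 x i => funext fun j => j.elim0⟩
  · obtain ⟨S, hS⟩ := FAF_hom hr ρ h
    let ρ' : Representation k F (Fin 3 → Fin r → k) :=
      { toFun := fun g => ((Equiv.Perm.sign (S g) : ℤ) : k) • ρ g
        map_one' := by simp
        map_mul' := fun g g' => by
          simp only [map_mul, Units.val_mul, Int.cast_mul]
          rw [smul_mul_smul_comm] }
    refine ⟨ρ', fun g σ e he h1 x i => ?_⟩
    obtain ⟨e', he', h1'⟩ := hS g
    have h2 : σ = S g := FAF_uniq (k := k) hr he h1 h1'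
    show (((Equiv.Perm.sign (S g) : ℤ) : k) • ρ g) x (σ i) = _
    rw [LinearMap.smul_apply, Pi.smul_apply, h1 x i, h2]

section piv
variable {r : ℕ}

open Classical in
/-- The first non-zero coordinate. -/
private noncomputable def FAF_piv (v : Fin r → k) : k :=
  ∑ i, if (∀ j, j < i → v j = 0) then v i else 0

omit [IsAlgClosed k] [CharZero k] in
private theorem FAF_piv_eq {v : Fin r → k} {i : Fin r} (h : ∀ j, j < i → v j = 0) (hi : v i ≠ 0) :
    FAF_piv v = v i := by
  classical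
  unfold FAF_piv
  rw [Finset.sum_eq_single i]
  · rw [if_pos h]
  · intro j _ hj
    rcases lt_or_gt_of_ne hj with h1 | h1
    · rw [h j h1]; simp
    · rw [if_neg]
      intro h2
      exact hi (h2 i h1)
  · intro h1
    exact absurd (Finset.mem_univ _) h1

omit [IsAlgClosed k] [CharZero k] in
private theorem FAF_piv_ne {v : Fin r → k} (hv : v ≠ 0) : FAF_piv v ≠ 0 := by
  obtain ⟨i0, hi0⟩ := Function.ne_iff.1 hv
  obtain ⟨i, hi, hmin⟩ := WellFounded.has_min (wellFounded_lt (α := Fin r)) {i | v i ≠ 0} ⟨i0, hi0⟩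
  rw [FAF_piv_eq (i := i) (fun j hj => by
    by_contra h
    exact hmin j h hj) hi]
  exact hi

omit [IsAlgClosed k] [CharZero k] in
private theorem FAF_piv_smul (c : k) (v : Fin r → k) : FAF_piv (c • v) = c * FAF_piv v := by
  classical
  unfold FAF_piv
  rw [Finset.mul_sum]
  refine Finset.sum_congr rfl fun i _ => ?_
  by_cases hc : c = 0
  · simp [hc]
  · have : (∀ j, j < i → (c • v) j = 0) ↔ (∀ j, j < i → v j = 0) := by
      simp [hc]
    by_cases h : ∀ j, j < i → v j = 0
    · rw [if_pos h, if_pos (this.2 h)]; rfl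
    · rw [if_neg h, if_neg (fun h' => h (this.1 h'))]; simp

/-- The square. -/
private noncomputable def FAF_sq (v : Fin r → k) : Fin r → k := FAF_piv v • v

omit [IsAlgClosed k] [CharZero k] in
private theorem FAF_sq_smul (c : k) (v : Fin r → k) : FAF_sq (c • v) = (c * c) • FAF_sq v := by
  unfold FAF_sq
  rw [FAF_piv_smul, smul_smul, smul_smul]
  congr 1; ring

omit [IsAlgClosed k] [CharZero k] in
private theorem FAF_sq_ne {v : Fin r → k} (hv : v ≠ 0) : FAF_sq v ≠ 0 := by
  unfold FAF_sq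
  exact smul_ne_zero (FAF_piv_ne hv) hv

omit [IsAlgClosed k] [CharZero k] in
private theorem FAF_sq_zero : FAF_sq (0 : Fin r → k) = 0 := by
  unfold FAF_sq; simp

omit [IsAlgClosed k] [CharZero k] in
private theorem FAF_sq_eq {v w : Fin r → k} (h : FAF_sq v = FAF_sq w) : v = w ∨ v = -w := by
  by_cases hv : v = 0
  · left
    subst hv
    rw [FAF_sq_zero] at h
    by_contra hw
    exact FAF_sq_ne (fun h' => hw h'.symm) h.symm
  · have hw : w ≠ 0 := by
      rintro rfl
      rw [FAF_sq_zero] at h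
      exact FAF_sq_ne hv h
    have ha := FAF_piv_ne hv
    have hb := FAF_piv_ne hw
    have h2 : FAF_piv v • v = FAF_piv w • w := h
    have h3 : FAF_piv v * FAF_piv v = FAF_piv w * FAF_piv w := by
      rw [← FAF_piv_smul, ← FAF_piv_smul, h2]
    rcases mul_self_eq_mul_self_iff.1 h3 with h4 | h4
    · left
      rw [h4] at h2
      exact smul_right_injective _ hb h2
    · right
      rw [h4, neg_smul, ← smul_neg] at h2
      have h5 := smul_right_injective _ hb h2
      exact neg_eq_iff_eq_neg.1 h5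

omit [CharZero k] in
private theorem FAF_sq_surj (w : Fin r → k) : ∃ v, FAF_sq v = w := by
  by_cases hw : w = 0
  · exact ⟨0, by rw [hw, FAF_sq_zero]⟩
  · have hb := FAF_piv_ne hw
    obtain ⟨c, hc⟩ := IsAlgClosed.exists_eq_mul_self (FAF_piv w)
    have hc0 : c ≠ 0 := by
      rintro rfl
      apply hb; rw [hc]; simp
    refine ⟨c⁻¹ • w, ?_⟩
    rw [FAF_sq_smul]
    unfold FAF_sq
    rw [smul_smul, hc]
    have : c⁻¹ * c⁻¹ * (c * c) = 1 := by field_simp
    rw [this, one_smul]

private theorem FAF_piv_dm : DM k (fun v : Fin r → k => FAF_piv v) := by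
  classical
  unfold FAF_piv
  refine DM.sum _ fun i _ => DM.ite ?_ (DM.apply i) (DM.const' 0)
  refine DM.fall fun j => DM.imp (DM.const' _) (DM.eq (DM.apply j) (DM.const' 0))

/-- The map on blocks. -/
private noncomputable def FAF_sqV (x : Fin 3 → Fin r → k) : Fin 3 → Fin r → k :=
  fun i => FAF_sq (x i)

private theorem FAF_sqV_dm : DM k (fun x : Fin 3 → Fin r → k => FAF_sqV x) := by
  unfold FAF_sqV
  refine DM.pi fun i => ?_
  have h : DM k (fun v : Fin r → k => FAF_sq v) := by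
    unfold FAF_sq
    exact DM.vsmul FAF_piv_dm DM.id'
  exact DM.comp h (DM.apply i)

omit [IsAlgClosed k] [CharZero k] in
private theorem FAF_sqV_ne {x : Fin 3 → Fin r → k} (hx : x ≠ 0) : FAF_sqV x ≠ 0 := by
  obtain ⟨i, hi⟩ := Function.ne_iff.1 hx
  intro h
  exact FAF_sq_ne hi (congrFun h i)

omit [IsAlgClosed k] [CharZero k] in
private theorem FAF_sqV_smul (c : k) (x : Fin 3 → Fin r → k) :
    FAF_sqV (c • x) = (c * c) • FAF_sqV x := by
  funext i
  exact FAF_sq_smul c (x i)

/-- The map on the projective space. -/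
private noncomputable def FAF_sqP (p : ℙ k (Fin 3 → Fin r → k)) : ℙ k (Fin 3 → Fin r → k) :=
  Projectivization.mk k (FAF_sqV p.rep) (FAF_sqV_ne p.rep_nonzero)

omit [IsAlgClosed k] [CharZero k] in
private theorem FAF_sqP_mk {x : Fin 3 → Fin r → k} (hx : x ≠ 0) :
    FAF_sqP (Projectivization.mk k x hx) = Projectivization.mk k (FAF_sqV x) (FAF_sqV_ne hx) := by
  obtain ⟨a, ha⟩ := Projectivization.exists_smul_eq_mk_rep k x hx
  unfold FAF_sqP
  rw [Projectivization.mk_eq_mk_iff]
  refine ⟨a * a, ?_⟩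
  rw [← ha, Units.smul_def, Units.smul_def, FAF_sqV_smul]
  simp

private theorem FAF_sqP_dm : DM k (fun p : ℙ k (Fin 3 → Fin r → k) => FAF_sqP p) := by
  refine DM.of_graph (R := fun p q => ∃ v : Fin 3 → Fin r → k, isrep v p ∧
    isrep (FAF_sqV v) q) ?_ ?_
  · refine DM.ex (DM.and (DM.isrep (by fun_prop) (by fun_prop)) (DM.isrep ?_ (by fun_prop)))
    exact DM.comp FAF_sqV_dm (by fun_prop)
  · intro p q
    constructor
    · rintro ⟨v, ⟨hv, rfl⟩, ⟨hv', rfl⟩⟩
      rw [FAF_sqP_mk]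
    · rintro rfl
      induction p using Projectivization.ind with
      | h v hv => exact ⟨v, ⟨hv, rfl⟩, ⟨FAF_sqV_ne hv, (FAF_sqP_mk hv).symm⟩⟩

omit [CharZero k] in
private theorem FAF_sqP_surj (q : ℙ k (Fin 3 → Fin r → k)) : ∃ p, FAF_sqP p = q := by
  induction q using Projectivization.ind with
  | h w hw =>
    choose f hf using fun v : Fin r → k => FAF_sq_surj (k := k) v
    have h0 : FAF_sqV (fun i => f (w i)) = w := funext fun i => hf (w i)
    have h1 : (fun i => f (w i)) ≠ 0 := by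
      intro h
      apply hw
      rw [← h0, h]
      funext i
      exact FAF_sq_zero
    refine ⟨Projectivization.mk k _ h1, ?_⟩
    rw [FAF_sqP_mk]
    simp only [h0]

omit [Finite F] in
private theorem FAF_equi (ρ ρ' : Representation k F (Fin 3 → Fin r → k)) (h : MonoPair ρ ρ') (g : F)
    (p : ℙ k (Fin 3 → Fin r → k)) :
    FAF_sqP ((PRep ρ).a g p) = (PRep ρ').a g (FAF_sqP p) := by
  induction p using Projectivization.ind with
  | h v hv =>
    rw [PRep_mk, FAF_sqP_mk, FAF_sqP_mk, PRep_mk]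
    obtain ⟨σ, e, he, h1, h2⟩ := h g
    have key : FAF_sqV (ρ g v) = ρ' g (FAF_sqV v) := by
      funext j
      obtain ⟨i, rfl⟩ := σ.surjective j
      rw [h2]
      show FAF_sq (ρ g v (σ i)) = FAF_sq (v i)
      rw [h1, FAF_sq_smul]
      rcases he i with h3 | h3 <;> rw [h3] <;> simp
    simp only [key]

omit [Finite F] in
/-- Two points with the same image differ by signs. -/
private theorem FAF_fib {p q : ℙ k (Fin 3 → Fin r → k)} (h : FAF_sqP p = FAF_sqP q)
    (ρ : Representation k F (Fin 3 → Fin r → k)) {P : F → Prop}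
    (signs : ∀ e : Fin 3 → k, (∀ i, e i = 1 ∨ e i = -1) → ∃ g, P g ∧
      ∃ c : k, (c = 1 ∨ c = -1) ∧ ∀ x i, ρ g x i = (c * e i) • x i) :
    ∃ g, P g ∧ (PRep ρ).a g p = q := by
  induction p using Projectivization.ind with
  | h v hv =>
  induction q using Projectivization.ind with
  | h w hw =>
    rw [FAF_sqP_mk, FAF_sqP_mk, Projectivization.mk_eq_mk_iff] at h
    obtain ⟨u, hu⟩ := h
    obtain ⟨c, hc⟩ := IsAlgClosed.exists_eq_mul_self (u : k)
    have hc0 : c ≠ 0 := by
      rintro rfl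
      apply u.ne_zero
      rw [hc]; simp
    have h1 : ∀ i, ∃ e : k, (e = 1 ∨ e = -1) ∧ e • v i = c • w i := by
      intro i
      have h2 : FAF_sq (v i) = FAF_sq (c • w i) := by
        rw [FAF_sq_smul, ← hc]
        exact (congrFun hu i).symm
      rcases FAF_sq_eq h2 with h3 | h3
      · exact ⟨1, Or.inl rfl, by rw [one_smul, h3]⟩
      · exact ⟨-1, Or.inr rfl, by rw [h3]; simp⟩
    choose e he he' using h1
    obtain ⟨g, hg, c', hc', hρ⟩ := signs e he
    refine ⟨g, hg, ?_⟩
    rw [PRep_mk, Projectivization.mk_eq_mk_iff']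
    refine ⟨c' * c, ?_⟩
    funext i
    rw [hρ, Pi.smul_apply, mul_smul, mul_smul, he']

end piv

/-- The quotient by the signs. -/
theorem fcl_mono {A : FAct k F X} {s : Set X} (hs : A.St s) {r : ℕ}
    (ρ ρ' : Representation k F (Fin 3 → Fin r → k)) (h : MonoPair ρ ρ')
    (signs : ∀ e : Fin 3 → k, (∀ i, e i = 1 ∨ e i = -1) → ∃ g, (∀ x ∈ s, A.a g x = x) ∧
      ∃ c : k, (c = 1 ∨ c = -1) ∧ ∀ x i, ρ g x i = (c * e i) • x i) :
    fcl (A.prod (PRep ρ)) (s ×ˢ (Set.univ : Set (ℙ k (Fin 3 → Fin r → k)))) =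
      fcl (A.prod (PRep ρ')) (s ×ˢ (Set.univ : Set (ℙ k (Fin 3 → Fin r → k)))) := by
  unfold fcl
  refine clq_map (hs.prod (FAct.St.univ (PRep ρ))).dq (hs.prod (FAct.St.univ (PRep ρ'))).dq
    (fun p => (p.1, FAF_sqP p.2)) ?_ ?_ ?_ ?_
  · exact DM.mk (by fun_prop) (DM.comp FAF_sqP_dm (by fun_prop))
  · rintro ⟨y, p⟩ ⟨hy, -⟩
    exact ⟨hy, trivial⟩
  · rintro ⟨y, p⟩ ⟨hy, -⟩ ⟨y', p'⟩ ⟨hy', -⟩
    constructor
    · rintro ⟨g, hg⟩
      refine ⟨g, ?_⟩
      simp only [FAct.prod_a, Prod.mk.injEq] at hg ⊢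
      exact ⟨hg.1, by rw [← FAF_equi ρ ρ' h, hg.2]⟩
    · rintro ⟨g, hg⟩
      simp only [FAct.prod_a, Prod.mk.injEq] at hg
      have h1 : FAF_sqP ((PRep ρ).a g p) = FAF_sqP p' := by
        rw [FAF_equi ρ ρ' h]; exact hg.2
      obtain ⟨g0, hg0, h2⟩ := FAF_fib h1 ρ signs
      refine ⟨g0 * g, ?_⟩
      rw [FAct.a_mul]
      simp only [FAct.prod_a, Prod.mk.injEq]
      refine ⟨?_, h2⟩
      dsimp only at hy
      rw [hg0 _ (hs.st g y hy)]
      exact hg.1
  · rintro ⟨y, q⟩ ⟨hy, -⟩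
    obtain ⟨p, hp⟩ := FAF_sqP_surj q
    refine ⟨(y, p), ⟨hy, trivial⟩, ?_⟩
    dsimp only
    rw [hp]
    exact FAct.rel_refl _ _

end Pool.Agent.MRat
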