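import Pool.Agent.Lib.MP_923aff_ag.FA4
/-!
# JOB FAG: representations of groups with a normal Klein four group: decomposition

`V ^ {v1, v2}` has the complement `M1 + M2 + M3`, where `v1 = 1`, `v2 = -1` on `M1` and `M2 = c M1`, `M3 = c² M1`
(projections `(1 ± v1) (1 ± v2) / 4`). In the case of `S4`, `τ` acts on `M1`; decompose `M1` into the eigenspaces
of `τ` for `1` and `-1` and take bases `b` of them; the three blocks have the bases `b`, `c b`, `c² b`. The images of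
`V ^ {v1, v2}` (stable under all of `F`) and of the two other parts are read off in these bases.
-/

set_option autoImplicit false
set_option linter.unusedSectionVars false
set_option linter.unusedSimpArgs false

namespace Pool.Agent.MRat

open scoped MatrixGroups LinearAlgebra.Projectivization

variable {k : Type} [Field k] [IsAlgClosed k] [CharZero k]
variable {F : Type} [Group F] [Finite F]
variable {X Y Z : Type} [DT k X] [DT k Y] [DT k Z]
variable {V : Type} [AddCommGroup V] [Module k V] [DT k V] [FDM k V]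

/-- `F` is a quotient of `A4`: `{1, v1, v2, v1 * v2}` is normal and `c` permutes `v1, v2, v1 * v2` cyclically. -/
structure A4Data {F : Type} [Group F] (v1 v2 c : F) : Prop where
  h11 : v1 * v1 = 1
  h22 : v2 * v2 = 1
  h12 : v1 * v2 = v2 * v1
  c3 : c ^ 3 = 1
  cv1 : c * v1 * c⁻¹ = v2
  cv2 : c * v2 * c⁻¹ = v1 * v2
  gen : ∀ g : F, ∃ v : F, (v = 1 ∨ v = v1 ∨ v = v2 ∨ v = v1 * v2) ∧ ∃ i : ℕ, g = v * c ^ i

/-- The same for `S4`, with the involution `τ` centralising `v1` and inverting `c`. -/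
structure S4Data {F : Type} [Group F] (v1 v2 c τ : F) : Prop where
  h11 : v1 * v1 = 1
  h22 : v2 * v2 = 1
  h12 : v1 * v2 = v2 * v1
  c3 : c ^ 3 = 1
  cv1 : c * v1 * c⁻¹ = v2
  cv2 : c * v2 * c⁻¹ = v1 * v2
  ττ : τ * τ = 1
  τc : τ * c * τ = c⁻¹
  τv1 : τ * v1 * τ = v1
  τv2 : τ * v2 * τ = v1 * v2
  gen : ∀ g : F, ∃ v : F, (v = 1 ∨ v = v1 ∨ v = v2 ∨ v = v1 * v2) ∧
    ∃ i : ℕ, g = v * c ^ i ∨ g = v * c ^ i * τ

/-- Three blocks: `v1` and `v2` act by signs and `c` permutes the blocks cyclically. -/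
def StdAct {r : ℕ} (v1 v2 c : F) (ρ : Representation k F (Fin 3 → Fin r → k)) : Prop :=
  (∀ x, ρ v1 x = ![x 0, -x 1, -x 2]) ∧ (∀ x, ρ v2 x = ![-x 0, x 1, -x 2]) ∧
    ∀ x, ρ c x = ![x 2, x 0, x 1]

private theorem FAG_rep {V W : Type} [AddCommGroup V] [Module k V] [AddCommGroup W] [Module k W]
    (ρ : Representation k F V) (Q : V →ₗ[k] W) (J : W →ₗ[k] V) (h : ∀ w, Q (J w) = w)
    (hk : ∀ g v, Q v = 0 → Q (ρ g v) = 0) :
    ∃ ρ' : Representation k F W, ∀ g v, Q (ρ g v) = ρ' g (Q v) := by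
  have key : ∀ g v, Q (ρ g (J (Q v))) = Q (ρ g v) := by
    intro g v
    have h1 : Q (v - J (Q v)) = 0 := by rw [map_sub, h, sub_self]
    have h2 := hk g _ h1
    rw [map_sub, map_sub, sub_eq_zero] at h2
    exact h2.symm
  refine ⟨{ toFun := fun g => Q ∘ₗ ρ g ∘ₗ J, map_one' := ?_, map_mul' := ?_ }, ?_⟩
  · ext1 w; simp [h]
  · intro a b; ext1 w; simp [key]
  · intro g v; exact (key g v).symm

private theorem FAG_split {V : Type} [AddCommGroup V] [Module k V] [Module.Finite k V]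
    (P : V →ₗ[k] V) (hP : ∀ v, P (P v) = P v) :
    ∃ (r : ℕ) (q : V →ₗ[k] (Fin r → k)) (j : (Fin r → k) →ₗ[k] V),
      (∀ v, j (q v) = P v) ∧ ∀ y, q (j y) = y := by
  let E := (Module.finBasis k (LinearMap.range P)).equivFun
  refine ⟨_, E.toLinearMap ∘ₗ P.rangeRestrict, (LinearMap.range P).subtype ∘ₗ E.symm.toLinearMap,
    ?_, ?_⟩
  · intro v
    simp
  · intro y
    simp only [LinearMap.comp_apply, LinearEquiv.coe_coe]
    have : P.rangeRestrict ((LinearMap.range P).subtype (E.symm y)) = E.symm y := by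
      obtain ⟨z, hz⟩ := (E.symm y).2
      apply Subtype.ext
      rw [LinearMap.codRestrict_apply, Submodule.subtype_apply, ← hz, hP]
    rw [this, LinearEquiv.apply_symm_apply]

private theorem FAG_block {V : Type} [AddCommGroup V] [Module k V] [Module.Finite k V]
    (A B C P : V →ₗ[k] V)
    (hBB : ∀ v, B (B v) = v) (hBA : ∀ v, B (A v) = A (B v))
    (hPP : ∀ v, P (P v) = P v) (hPA : ∀ v, P (A v) = P v) (hPB : ∀ v, P (B v) = - P v)
    (hAP : ∀ v, A (P v) = P v)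
    (h3 : ∀ v, C (C (C v)) = v)
    (hCA : ∀ v, C (A v) = B (C v)) (hCB : ∀ v, C (B v) = A (B (C v))) :
    ∃ (r : ℕ) (Q : V →ₗ[k] (Fin 3 → Fin r → k)) (J : (Fin 3 → Fin r → k) →ₗ[k] V),
      (∀ x, Q (J x) = x) ∧ (∀ v, J (Q v) = P v + C (P (C (C v))) + C (C (P (C v)))) ∧
      (∀ v, Q (A v) = ![Q v 0, -Q v 1, -Q v 2]) ∧
      (∀ v, Q (B v) = ![-Q v 0, Q v 1, -Q v 2]) ∧
      (∀ v, Q (C v) = ![Q v 2, Q v 0, Q v 1]) ∧
      (∀ (T : V →ₗ[k] V) (ε : k), (∀ v, P (T v) = ε • P v) →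
        (∀ v, C (T v) = T (C (C v))) → (∀ v, C (C (T v)) = T (C v)) →
        ∀ v, Q (T v) = ![ε • Q v 0, ε • Q v 2, ε • Q v 1]) ∧
      (∀ v, (∀ i, Q v i = 0) ↔ P v = 0 ∧ P (C v) = 0 ∧ P (C (C v)) = 0) ∧
      (∀ (W : Type) [AddCommGroup W] [Module k W] (S : V →ₗ[k] W), (∀ v, S (P v) = 0) → (∀ v, S (C (P v)) = 0) →
        (∀ v, S (C (C (P v))) = 0) → ∀ x, S (J x) = 0) := by
  obtain ⟨r, q, j, hjq, hqj⟩ := FAG_split P hPP
  have hqP : ∀ v, q (P v) = q v := fun v => by rw [← hjq, hqj]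
  have hPj : ∀ y, P (j y) = j y := fun y => by rw [← hjq, hqj]
  have qA : ∀ v, q (A v) = q v := fun v => by rw [← hqP, hPA, hqP]
  have qB : ∀ v, q (B v) = -q v := fun v => by rw [← hqP, hPB, map_neg, hqP]
  have two : ∀ v : Fin r → k, v = -v → v = 0 := by
    intro v hv
    have : (2 : k) • v = 0 := by
      rw [two_smul]; nth_rewrite 2 [hv]; simp
    exact (smul_eq_zero.1 this).resolve_left two_ne_zero
  have hCCA : ∀ v, C (C (A v)) = A (B (C (C v))) := fun v => by rw [hCA, hCB]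
  have hCCB : ∀ v, C (C (B v)) = A (C (C v)) := fun v => by
    rw [hCB, hCA, hCB, hBA, hBB]
  have qCj : ∀ y, q (C (j y)) = 0 := by
    intro y
    apply two
    have h1 : C (j y) = B (C (j y)) := by rw [← hCA, ← hPj, hAP]
    nth_rewrite 1 [h1]
    rw [qB]
  have qCCj : ∀ y, q (C (C (j y))) = 0 := by
    intro y
    apply two
    have h1 : C (C (j y)) = A (B (C (C (j y)))) := by rw [← hCCA, ← hPj, hAP]
    nth_rewrite 1 [h1]
    rw [qA, qB]
  have hQ1 : ∀ v, ((LinearMap.pi ![q, q ∘ₗ C ∘ₗ C, q ∘ₗ C] : V →ₗ[k] (Fin 3 → Fin r → k)) v) =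
      ![q v, q (C (C v)), q (C v)] := by
    intro v
    ext i
    fin_cases i <;> rfl
  refine ⟨r, LinearMap.pi ![q, q ∘ₗ C ∘ₗ C, q ∘ₗ C],
    j ∘ₗ LinearMap.proj 0 + C ∘ₗ j ∘ₗ LinearMap.proj 1 + C ∘ₗ C ∘ₗ j ∘ₗ LinearMap.proj 2,
    ?_, ?_, ?_, ?_, ?_, ?_, ?_, ?_⟩
  · intro x
    rw [hQ1]
    simp only [LinearMap.add_apply, LinearMap.comp_apply, LinearMap.proj_apply, map_add, h3, hqj,
      qCj, qCCj]
    ext i
    fin_cases i <;> simp
  · intro v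
    rw [hQ1]
    simp [hjq]
  · intro v
    rw [hQ1, hQ1, qA, hCCA, hCA, qA, qB, qB]
    simp
  · intro v
    rw [hQ1, hQ1, qB, hCCB, hCB, qA, qA, qB]
    simp
  · intro v
    rw [hQ1, hQ1, h3]
    simp
  · intro T ε hT h1 h2 v
    have qT : ∀ v, q (T v) = ε • q v := fun v => by rw [← hqP, hT, map_smul, hqP]
    rw [hQ1, hQ1, qT, h2, h1, qT, qT]
    simp
  · intro v
    have hq0 : ∀ v, q v = 0 ↔ P v = 0 := by
      intro v
      constructor
      · intro h; rw [← hjq, h, map_zero]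
      · intro h; rw [← hqP, h, map_zero]
    rw [hQ1]
    constructor
    · intro h
      exact ⟨(hq0 _).1 (h 0), (hq0 _).1 (h 2), (hq0 _).1 (h 1)⟩
    · rintro ⟨h0, h1, h2⟩ i
      fin_cases i
      · exact (hq0 _).2 h0
      · exact (hq0 _).2 h2
      · exact (hq0 _).2 h1
  · intro W _ _ S h0 h1 h2 x
    simp only [LinearMap.add_apply, LinearMap.comp_apply, LinearMap.proj_apply, map_add]
    rw [← hPj, ← hPj (x 1), ← hPj (x 2), h0, h1, h2]
    simp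

private theorem FAG_pow {V : Type} [AddCommGroup V] [Module k V] (c : F) 
    (ρ : Representation k F V) (K : V → Prop) (h3 : ∀ v, K v → K (ρ c v)) :
    ∀ (i : ℕ) v, K v → K (ρ (c ^ i) v) := by
  intro i
  induction i with
  | zero => intro v hv; simpa using hv
  | succ i ih =>
    intro v hv
    rw [pow_succ, map_mul]
    exact ih _ (h3 v hv)

private theorem FAG_four {V : Type} [AddCommGroup V] [Module k V] (v1 v2 : F) 
    (ρ : Representation k F V) (K : V → Prop) (h1 : ∀ v, K v → K (ρ v1 v))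
    (h2 : ∀ v, K v → K (ρ v2 v)) (w : F) (hw : w = 1 ∨ w = v1 ∨ w = v2 ∨ w = v1 * v2) :
    ∀ v, K v → K (ρ w v) := by
  intro v hv
  rcases hw with rfl | rfl | rfl | rfl
  · simpa using hv
  · exact h1 v hv
  · exact h2 v hv
  · rw [map_mul]
    exact h1 _ (h2 v hv)

/-- The relations of the operators `A`, `B`, `C`. -/
private structure FAG_rel {V : Type} [AddCommGroup V] [Module k V] (A B C : V →ₗ[k] V) : Prop where
  AA : ∀ v, A (A v) = v
  BB : ∀ v, B (B v) = v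
  BA : ∀ v, B (A v) = A (B v)
  CCC : ∀ v, C (C (C v)) = v
  CA : ∀ v, C (A v) = B (C v)
  CB : ∀ v, C (B v) = A (B (C v))

private theorem FAG_main {V : Type} [AddCommGroup V] [Module k V] [Module.Finite k V]
    (A B C : V →ₗ[k] V) (h : FAG_rel A B C) :
    ∃ P0 P1 : V →ₗ[k] V,
      (∀ v, P0 (P0 v) = P0 v) ∧ (∀ v, P0 (A v) = P0 v) ∧ (∀ v, P0 (B v) = P0 v) ∧
      (∀ v, P0 (C v) = C (P0 v)) ∧
      (∀ v, P1 (P1 v) = P1 v) ∧ (∀ v, P1 (A v) = P1 v) ∧ (∀ v, P1 (B v) = - P1 v) ∧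
      (∀ v, A (P1 v) = P1 v) ∧ (∀ v, B (P1 v) = -P1 v) ∧
      (∀ v, P0 (P1 v) = 0) ∧ (∀ v, P1 (P0 v) = 0) ∧
      (∀ v, P0 v + (P1 v + C (P1 (C (C v))) + C (C (P1 (C v)))) = v) ∧
      (∀ v, P1 (C (P1 v)) = 0) ∧ (∀ v, P1 (C (C (P1 v))) = 0) ∧
      (∀ T : V →ₗ[k] V, (∀ v, T (A v) = A (T v)) → (∀ v, T (B v) = A (B (T v))) →
        (∀ v, P0 (T v) = T (P0 v)) ∧ (∀ v, P1 (T v) = T (P1 v))) := by
  obtain ⟨AA, BB, BA, CCC, CA, CB⟩ := h
  have h0 : ∀ v, ((4⁻¹ : k) • (LinearMap.id + A + B + A ∘ₗ B) : V →ₗ[k] V) v =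
    (4⁻¹ : k) • (v + A v + B v + A (B v)) := fun v => rfl
  have h1 : ∀ v, ((4⁻¹ : k) • (LinearMap.id + A - B - A ∘ₗ B) : V →ₗ[k] V) v =
    (4⁻¹ : k) • (v + A v - B v - A (B v)) := fun v => rfl
  refine ⟨(4⁻¹ : k) • (LinearMap.id + A + B + A ∘ₗ B), (4⁻¹ : k) • (LinearMap.id + A - B - A ∘ₗ B),
    ?_, ?_, ?_, ?_, ?_, ?_, ?_, ?_, ?_, ?_, ?_, ?_, ?_, ?_, ?_⟩
  · intro v; simp only [h0, h1, map_add, map_sub, map_smul, AA, BB, BA, CCC, CA, CB]; module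
  · intro v; simp only [h0, h1, map_add, map_sub, map_smul, AA, BB, BA, CCC, CA, CB]; module
  · intro v; simp only [h0, h1, map_add, map_sub, map_smul, AA, BB, BA, CCC, CA, CB]; module
  · intro v; simp only [h0, h1, map_add, map_sub, map_smul, AA, BB, BA, CCC, CA, CB]; module
  · intro v; simp only [h0, h1, map_add, map_sub, map_smul, AA, BB, BA, CCC, CA, CB]; module
  · intro v; simp only [h0, h1, map_add, map_sub, map_smul, AA, BB, BA, CCC, CA, CB]; module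
  · intro v; simp only [h0, h1, map_add, map_sub, map_smul, AA, BB, BA, CCC, CA, CB]; module
  · intro v; simp only [h0, h1, map_add, map_sub, map_smul, AA, BB, BA, CCC, CA, CB]; module
  · intro v; simp only [h0, h1, map_add, map_sub, map_smul, AA, BB, BA, CCC, CA, CB]; module
  · intro v; simp only [h0, h1, map_add, map_sub, map_smul, AA, BB, BA, CCC, CA, CB]; module
  · intro v; simp only [h0, h1, map_add, map_sub, map_smul, AA, BB, BA, CCC, CA, CB]; module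
  · intro v; simp only [h0, h1, map_add, map_sub, map_smul, AA, BB, BA, CCC, CA, CB]; module
  · intro v; simp only [h0, h1, map_add, map_sub, map_smul, AA, BB, BA, CCC, CA, CB]; module
  · intro v; simp only [h0, h1, map_add, map_sub, map_smul, AA, BB, BA, CCC, CA, CB]; module
  · intro T hA hB
    constructor
    · intro v; simp only [h0, h1, map_add, map_sub, map_smul, AA, BB, BA, hA, hB]; module
    · intro v; simp only [h0, h1, map_add, map_sub, map_smul, AA, BB, BA, hA, hB]; module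

private theorem FAG_q0 {V : Type} [AddCommGroup V] [Module k V] {r : ℕ} {P : V →ₗ[k] V}
    {q : V →ₗ[k] (Fin r → k)} {j : (Fin r → k) →ₗ[k] V} (hjq : ∀ v, j (q v) = P v)
    (hqj : ∀ y, q (j y) = y) (v : V) : q v = 0 ↔ P v = 0 := by
  constructor
  · intro h; rw [← hjq, h, map_zero]
  · intro h
    have : q (P v) = q v := by rw [← hjq, hqj]
    rw [← this, h, map_zero]

private theorem FAG_Q0 {V : Type} [AddCommGroup V] [Module k V] {r : ℕ} 
    {Q : V →ₗ[k] (Fin 3 → Fin r → k)} {v : V} {p : Prop} (h : (∀ i, Q v i = 0) ↔ p) :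
    Q v = 0 ↔ p := by
  rw [← h]
  exact funext_iff

private theorem FAG_rho {V : Type} [AddCommGroup V] [Module k V] (ρ : Representation k F V)
    (a b : F) (v : V) : ρ (a * b) v = ρ a (ρ b v) := by rw [map_mul]; rfl

private theorem FAG_eps {V : Type} [AddCommGroup V] [Module k V] (ε : k) (hε : ε = 1 ∨ ε = -1)
    (A B T P0 P1 : V →ₗ[k] V) (BA : ∀ v, B (A v) = A (B v)) (hA : ∀ v, T (A v) = A (T v))
    (hB : ∀ v, T (B v) = A (B (T v))) (TT : ∀ v, T (T v) = v)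
    (p11 : ∀ v, P1 (P1 v) = P1 v) (p1A : ∀ v, P1 (A v) = P1 v) (p1B : ∀ v, P1 (B v) = -P1 v)
    (a1 : ∀ v, A (P1 v) = P1 v) (p01 : ∀ v, P0 (P1 v) = 0) (p0T : ∀ v, P0 (T v) = T (P0 v))
    (p1T : ∀ v, P1 (T v) = T (P1 v)) :
    ∃ P : V →ₗ[k] V, (∀ v, P v = (2⁻¹ : k) • (P1 v + ε • T (P1 v))) ∧
      (∀ v, P (P v) = P v) ∧ (∀ v, P (A v) = P v) ∧ (∀ v, P (B v) = -P v) ∧
      (∀ v, A (P v) = P v) ∧ (∀ v, P (T v) = ε • P v) ∧ (∀ v, P1 (P v) = P v) ∧
      (∀ v, P0 (P v) = 0) := by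
  have hP : ∀ v, ((2⁻¹ : k) • (P1 + ε • T ∘ₗ P1) : V →ₗ[k] V) v =
    (2⁻¹ : k) • (P1 v + ε • T (P1 v)) := fun v => rfl
  refine ⟨(2⁻¹ : k) • (P1 + ε • T ∘ₗ P1), hP, ?_, ?_, ?_, ?_, ?_, ?_, ?_⟩
  · intro v
    simp only [hP, map_add, map_smul, p11, p1T, TT]
    rcases hε with rfl | rfl <;> module
  · intro v
    simp only [hP, map_add, map_smul, p1A, p11, p1T, TT]
  · intro v
    simp only [hP, map_add, map_smul, p1B, p11, p1T, TT, map_neg]
    module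
  · intro v
    simp only [hP, map_add, map_smul, ← hA, a1]
  · intro v
    simp only [hP, map_add, map_smul, p1T, TT]
    rcases hε with rfl | rfl <;> module
  · intro v
    simp only [hP, map_add, map_smul, p1T, p11]
  · intro v
    simp only [hP, map_add, map_smul, p0T, p01, map_zero, smul_zero, add_zero]

theorem A4_decomp {v1 v2 c : F} (h : A4Data v1 v2 c) (ρ : Representation k F V) :
    ∃ (r0 r : ℕ) (ρ0 : Representation k F (Fin r0 → k))
      (ρ1 : Representation k F (Fin 3 → Fin r → k))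
      (e : V ≃ₗ[k] ((Fin r0 → k) × (Fin 3 → Fin r → k))),
      (∀ g v, e (ρ g v) = (ρ0.prod ρ1) g (e v)) ∧ ρ0 v1 = 1 ∧ ρ0 v2 = 1 ∧
      StdAct v1 v2 c ρ1 := by
  haveI := FDM.fin k V
  have hr : FAG_rel (ρ v1) (ρ v2) (ρ c) := by
    constructor
    · intro v; rw [← FAG_rho, h.h11, map_one]; rfl
    · intro v; rw [← FAG_rho, h.h22, map_one]; rfl
    · intro v; rw [← FAG_rho, ← FAG_rho, h.h12]
    · intro v
      have : c * c * c = 1 := by rw [← h.c3, pow_succ, pow_succ, pow_one]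
      rw [← FAG_rho, ← FAG_rho, this, map_one]; rfl
    · intro v
      rw [← FAG_rho, ← FAG_rho, ← h.cv1]; congr 2; group
    · intro v
      rw [← FAG_rho, ← FAG_rho, ← FAG_rho, ← h.cv2]; congr 2; group
  obtain ⟨P0, P1, p00, p0A, p0B, p0C, p11, p1A, p1B, a1, b1, p01, p10, psum, pc, pcc, -⟩ :=
    FAG_main _ _ _ hr
  obtain ⟨r, Q, J, hQJ, hJQ, QA, QB, QC, -, hQ0, hJ0⟩ := FAG_block (ρ v1) (ρ v2) (ρ c) P1
    hr.BB hr.BA p11 p1A p1B a1 hr.CCC hr.CA hr.CB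
  obtain ⟨r0, q, j, hjq, hqj⟩ := FAG_split P0 p00
  have hq0 := FAG_q0 hjq hqj
  have hPj : ∀ y, P0 (j y) = j y := fun y => by rw [← hjq, hqj]
  have hqJ : ∀ x, q (J x) = 0 := by
    apply hJ0 _ q
    · intro v; rw [hq0, p01]
    · intro v; rw [hq0, p0C, p01, map_zero]
    · intro v; rw [hq0, p0C, p0C, p01, map_zero, map_zero]
  have hQj : ∀ y, Q (j y) = 0 := by
    intro y
    rw [FAG_Q0 (hQ0 _), ← hPj, ← p0C, ← p0C, p10, p10, p10]
    simp
  obtain ⟨ρ0, h0⟩ := FAG_rep ρ q j hqj (by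
    intro g v hv
    obtain ⟨w, hw, i, rfl⟩ := h.gen g
    rw [FAG_rho]
    refine FAG_four v1 v2 ρ (fun v => q v = 0) ?_ ?_ w hw _
      (FAG_pow c ρ (fun v => q v = 0) ?_ i v hv)
    · intro v hv; rw [hq0] at *; rw [p0A, hv]
    · intro v hv; rw [hq0] at *; rw [p0B, hv]
    · intro v hv; rw [hq0] at *; rw [p0C, hv, map_zero])
  obtain ⟨ρ1, h1⟩ := FAG_rep ρ Q J hQJ (by
    intro g v hv
    obtain ⟨w, hw, i, rfl⟩ := h.gen g
    rw [FAG_rho]
    refine FAG_four v1 v2 ρ (fun v => Q v = 0) ?_ ?_ w hw _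
      (FAG_pow c ρ (fun v => Q v = 0) ?_ i v hv)
    · intro v hv; rw [QA, hv]; ext i; fin_cases i <;> simp
    · intro v hv; rw [QB, hv]; ext i; fin_cases i <;> simp
    · intro v hv; rw [QC, hv]; ext i; fin_cases i <;> simp)
  refine ⟨r0, r, ρ0, ρ1, LinearEquiv.ofLinearMap (q.prod Q) (j.coprod J) ?_ ?_, ?_, ?_, ?_, ?_, ?_, ?_⟩
  · apply LinearMap.ext
    rintro ⟨y, x⟩
    simp [hqj, hqJ, hQj, hQJ]
  · apply LinearMap.ext
    intro v
    simp [hjq, hJQ]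
    exact psum v
  · intro g v
    simp [h0, h1]
  · apply LinearMap.ext
    intro y
    rw [← hqj y, ← h0, Module.End.one_apply, ← sub_eq_zero, ← map_sub, hq0, map_sub, p0A, sub_self]
  · apply LinearMap.ext
    intro y
    rw [← hqj y, ← h0, Module.End.one_apply, ← sub_eq_zero, ← map_sub, hq0, map_sub, p0B, sub_self]
  · intro x
    rw [← hQJ x, ← h1, QA, hQJ]
  · intro x
    rw [← hQJ x, ← h1, QB, hQJ]
  · intro x
    rw [← hQJ x, ← h1, QC, hQJ]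

theorem S4_decomp {v1 v2 c τ : F} (h : S4Data v1 v2 c τ) (ρ : Representation k F V) :
    ∃ (r0 rp rm : ℕ) (ρ0 : Representation k F (Fin r0 → k))
      (ρp : Representation k F (Fin 3 → Fin rp → k))
      (ρm : Representation k F (Fin 3 → Fin rm → k))
      (e : V ≃ₗ[k] ((Fin r0 → k) × ((Fin 3 → Fin rp → k) × (Fin 3 → Fin rm → k)))),
      (∀ g v, e (ρ g v) = (ρ0.prod (ρp.prod ρm)) g (e v)) ∧ ρ0 v1 = 1 ∧ ρ0 v2 = 1 ∧
      StdAct v1 v2 c ρp ∧ (∀ x, ρp τ x = ![x 0, x 2, x 1]) ∧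
      StdAct v1 v2 c ρm ∧ ∀ x, ρm τ x = ![-x 0, -x 2, -x 1] := by
  haveI := FDM.fin k V
  have hr : FAG_rel (ρ v1) (ρ v2) (ρ c) := by
    constructor
    · intro v; rw [← FAG_rho, h.h11, map_one]; rfl
    · intro v; rw [← FAG_rho, h.h22, map_one]; rfl
    · intro v; rw [← FAG_rho, ← FAG_rho, h.h12]
    · intro v
      have : c * c * c = 1 := by rw [← h.c3, pow_succ, pow_succ, pow_one]
      rw [← FAG_rho, ← FAG_rho, this, map_one]; rfl
    · intro v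
      rw [← FAG_rho, ← FAG_rho, ← h.cv1]; congr 2; group
    · intro v
      rw [← FAG_rho, ← FAG_rho, ← FAG_rho, ← h.cv2]; congr 2; group
  have TT : ∀ v, ρ τ (ρ τ v) = v := by
    intro v; rw [← FAG_rho, h.ττ, map_one]; rfl
  have TA : ∀ v, ρ τ (ρ v1 v) = ρ v1 (ρ τ v) := by
    intro v
    have := h.τv1
    rw [← FAG_rho, ← FAG_rho]
    congr 2
    calc τ * v1 = τ * v1 * (τ * τ) := by rw [h.ττ, mul_one]
      _ = (τ * v1 * τ) * τ := by group
      _ = v1 * τ := by rw [h.τv1]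
  have TB : ∀ v, ρ τ (ρ v2 v) = ρ v1 (ρ v2 (ρ τ v)) := by
    intro v
    rw [← FAG_rho, ← FAG_rho, ← FAG_rho]
    congr 2
    calc τ * v2 = τ * v2 * (τ * τ) := by rw [h.ττ, mul_one]
      _ = (τ * v2 * τ) * τ := by group
      _ = v1 * v2 * τ := by rw [h.τv2]
  have CT : ∀ v, ρ c (ρ τ v) = ρ τ (ρ c (ρ c v)) := by
    intro v
    rw [← FAG_rho, ← FAG_rho, ← FAG_rho]
    congr 2
    have h3 : c⁻¹ = c * c := by
      rw [inv_eq_iff_mul_eq_one, ← h.c3, pow_succ, pow_succ, pow_one, mul_assoc]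
    calc c * τ = τ * τ * c * τ := by rw [h.ττ, one_mul]
      _ = τ * (τ * c * τ) := by group
      _ = τ * c * c := by rw [h.τc, h3, mul_assoc]
  have CCT : ∀ v, ρ c (ρ c (ρ τ v)) = ρ τ (ρ c v) := by
    intro v
    rw [CT, CT, hr.CCC]
  obtain ⟨P0, P1, p00, p0A, p0B, p0C, p11, p1A, p1B, a1, b1, p01, p10, psum, pc, pcc, pT⟩ :=
    FAG_main _ _ _ hr
  obtain ⟨p0T, p1T⟩ := pT (ρ τ) TA TB
  obtain ⟨Pp, pp, pp2, ppA, ppB, App, ppT, p1p, p0p⟩ := FAG_eps 1 (Or.inl rfl) (ρ v1) (ρ v2)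
    (ρ τ) P0 P1 hr.BA TA TB TT p11 p1A p1B a1 p01 p0T p1T
  obtain ⟨Pm, pm, pm2, pmA, pmB, Apm, pmT, p1m, p0m⟩ := FAG_eps (-1) (Or.inr rfl) (ρ v1) (ρ v2)
    (ρ τ) P0 P1 hr.BA TA TB TT p11 p1A p1B a1 p01 p0T p1T
  obtain ⟨rp, Qp, Jp, hQJp, hJQp, QAp, QBp, QCp, QTp, hQ0p, hJ0p⟩ :=
    FAG_block (ρ v1) (ρ v2) (ρ c) Pp hr.BB hr.BA pp2 ppA ppB App hr.CCC hr.CA hr.CB
  obtain ⟨rm, Qm, Jm, hQJm, hJQm, QAm, QBm, QCm, QTm, hQ0m, hJ0m⟩ :=
    FAG_block (ρ v1) (ρ v2) (ρ c) Pm hr.BB hr.BA pm2 pmA pmB Apm hr.CCC hr.CA hr.CB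
  have QTp := QTp (ρ τ) 1 ppT CT CCT
  have QTm := QTm (ρ τ) (-1) pmT CT CCT
  obtain ⟨r0, q, j, hjq, hqj⟩ := FAG_split P0 p00
  have hq0 := FAG_q0 hjq hqj
  have hPj : ∀ y, P0 (j y) = j y := fun y => by rw [← hjq, hqj]
  have hqJp : ∀ x, q (Jp x) = 0 := by
    apply hJ0p _ q
    · intro v; rw [hq0, p0p]
    · intro v; rw [hq0, p0C, p0p, map_zero]
    · intro v; rw [hq0, p0C, p0C, p0p, map_zero, map_zero]
  have hqJm : ∀ x, q (Jm x) = 0 := by
    apply hJ0m _ q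
    · intro v; rw [hq0, p0m]
    · intro v; rw [hq0, p0C, p0m, map_zero]
    · intro v; rw [hq0, p0C, p0C, p0m, map_zero, map_zero]
  have hpz : ∀ v, P1 v = 0 → Pp v = 0 := fun v hv => by rw [pp, hv]; simp
  have hmz : ∀ v, P1 v = 0 → Pm v = 0 := fun v hv => by rw [pm, hv]; simp
  have hQjp : ∀ y, Qp (j y) = 0 := by
    intro y
    rw [FAG_Q0 (hQ0p _), ← hPj, ← p0C, ← p0C]
    exact ⟨hpz _ (p10 _), hpz _ (p10 _), hpz _ (p10 _)⟩
  have hQjm : ∀ y, Qm (j y) = 0 := by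
    intro y
    rw [FAG_Q0 (hQ0m _), ← hPj, ← p0C, ← p0C]
    exact ⟨hmz _ (p10 _), hmz _ (p10 _), hmz _ (p10 _)⟩
  have hpm : ∀ v, Pp (Pm v) = 0 := by
    intro v
    simp only [pp, pm, map_add, map_smul, p11, p1T, TT]
    module
  have hmp : ∀ v, Pm (Pp v) = 0 := by
    intro v
    simp only [pp, pm, map_add, map_smul, p11, p1T, TT]
    module
  have hpcm : ∀ v, Pp (ρ c (Pm v)) = 0 := fun v => hpz _ (by rw [← p1m, pc])
  have hpccm : ∀ v, Pp (ρ c (ρ c (Pm v))) = 0 := fun v => hpz _ (by rw [← p1m, pcc])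
  have hmcp : ∀ v, Pm (ρ c (Pp v)) = 0 := fun v => hmz _ (by rw [← p1p, pc])
  have hmccp : ∀ v, Pm (ρ c (ρ c (Pp v))) = 0 := fun v => hmz _ (by rw [← p1p, pcc])
  have hQmJp : ∀ x, Qm (Jp x) = 0 := by
    apply hJ0p _ Qm
    · intro v; rw [FAG_Q0 (hQ0m _)]; exact ⟨hmp _, hmcp _, hmccp _⟩
    · intro v; rw [FAG_Q0 (hQ0m _), hr.CCC]; exact ⟨hmcp _, hmccp _, hmp _⟩
    · intro v; rw [FAG_Q0 (hQ0m _), hr.CCC]; exact ⟨hmccp _, hmp _, hmcp _⟩
  have hQpJm : ∀ x, Qp (Jm x) = 0 := by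
    apply hJ0m _ Qp
    · intro v; rw [FAG_Q0 (hQ0p _)]; exact ⟨hpm _, hpcm _, hpccm _⟩
    · intro v; rw [FAG_Q0 (hQ0p _), hr.CCC]; exact ⟨hpcm _, hpccm _, hpm _⟩
    · intro v; rw [FAG_Q0 (hQ0p _), hr.CCC]; exact ⟨hpccm _, hpm _, hpcm _⟩
  have hgen : ∀ (K : V → Prop), (∀ v, K v → K (ρ v1 v)) → (∀ v, K v → K (ρ v2 v)) →
      (∀ v, K v → K (ρ c v)) → (∀ v, K v → K (ρ τ v)) → ∀ g v, K v → K (ρ g v) := by
    intro K k1 k2 k3 k4 g v hv
    obtain ⟨w, hw, i, rfl | rfl⟩ := h.gen g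
    · rw [FAG_rho]
      exact FAG_four v1 v2 ρ K k1 k2 w hw _ (FAG_pow c ρ K k3 i v hv)
    · rw [FAG_rho, FAG_rho]
      exact FAG_four v1 v2 ρ K k1 k2 w hw _ (FAG_pow c ρ K k3 i _ (k4 v hv))
  obtain ⟨ρ0, h0⟩ := FAG_rep ρ q j hqj (by
    apply hgen (fun v => q v = 0)
    · intro v hv; rw [hq0] at *; rw [p0A, hv]
    · intro v hv; rw [hq0] at *; rw [p0B, hv]
    · intro v hv; rw [hq0] at *; rw [p0C, hv, map_zero]
    · intro v hv; rw [hq0] at *; rw [p0T, hv, map_zero])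
  obtain ⟨ρp, hp⟩ := FAG_rep ρ Qp Jp hQJp (by
    apply hgen (fun v => Qp v = 0)
    · intro v hv; rw [QAp, hv]; ext i; fin_cases i <;> simp
    · intro v hv; rw [QBp, hv]; ext i; fin_cases i <;> simp
    · intro v hv; rw [QCp, hv]; ext i; fin_cases i <;> simp
    · intro v hv; rw [QTp, hv]; ext i; fin_cases i <;> simp)
  obtain ⟨ρm, hm⟩ := FAG_rep ρ Qm Jm hQJm (by
    apply hgen (fun v => Qm v = 0)
    · intro v hv; rw [QAm, hv]; ext i; fin_cases i <;> simp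
    · intro v hv; rw [QBm, hv]; ext i; fin_cases i <;> simp
    · intro v hv; rw [QCm, hv]; ext i; fin_cases i <;> simp
    · intro v hv; rw [QTm, hv]; ext i; fin_cases i <;> simp)
  refine ⟨r0, rp, rm, ρ0, ρp, ρm,
    LinearEquiv.ofLinearMap (q.prod (Qp.prod Qm)) (j.coprod (Jp.coprod Jm)) ?_ ?_,
    ?_, ?_, ?_, ⟨?_, ?_, ?_⟩, ?_, ⟨?_, ?_, ?_⟩, ?_⟩
  · apply LinearMap.ext
    rintro ⟨y, x, z⟩
    simp [hqj, hqJp, hqJm, hQjp, hQjm, hQJp, hQJm, hQmJp, hQpJm]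
  · apply LinearMap.ext
    intro v
    have h1 : ∀ w, Pp w + Pm w = P1 w := by
      intro w
      simp only [pp, pm]
      module
    have h2 := psum v
    simp only [← h1, map_add] at h2
    change j (q v) + (Jp (Qp v) + Jm (Qm v)) = v
    rw [hjq, hJQp, hJQm]
    refine Eq.trans ?_ h2
    abel
  · intro g v
    simp [h0, hp, hm]
  · apply LinearMap.ext
    intro y
    rw [← hqj y, ← h0, Module.End.one_apply, ← sub_eq_zero, ← map_sub, hq0, map_sub, p0A, sub_self]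
  · apply LinearMap.ext
    intro y
    rw [← hqj y, ← h0, Module.End.one_apply, ← sub_eq_zero, ← map_sub, hq0, map_sub, p0B, sub_self]
  · intro x
    rw [← hQJp x, ← hp, QAp, hQJp]
  · intro x
    rw [← hQJp x, ← hp, QBp, hQJp]
  · intro x
    rw [← hQJp x, ← hp, QCp, hQJp]
  · intro x
    rw [← hQJp x, ← hp, QTp, hQJp, one_smul, one_smul, one_smul]
  · intro x
    rw [← hQJm x, ← hm, QAm, hQJm]
  · intro x
    rw [← hQJm x, ← hm, QBm, hQJm]
  · intro x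
    rw [← hQJm x, ← hm, QCm, hQJm]
  · intro x
    rw [← hQJm x, ← hm, QTm, hQJm, neg_one_smul, neg_one_smul, neg_one_smul]

end Pool.Agent.MRat
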