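import Pool.Agent.Lib.MP_923aff_ag.FA5
import Pool.Agent.Lib.MP_923aff_ag.FA6
import Pool.Agent.Lib.MP_923aff_ag.FA7
/-!
# JOB FAH: the Klein four lemma: projective bundles over spaces on which `v1`, `v2` act trivially

`niceOn_triv_A4`: `nice_restrict` to the subgroup of powers of `c` and `niceOn_comm`. `niceOn_triv_S4`: `nice_restrict` to the
subgroup of all `c ^ i`, `c ^ i * τ` and `niceOn_dihedral` (`m = 3`). `niceOn_std_A4`, `niceOn_std_S4`: `exists_abs`,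
`fcl_mono` and the previous lemmas for `ρ'` (both `fcl` of the projective bundles agree, `Nice` for `ρ'`); the block sign vectors
are, up to a common sign, those of `1, v1, v2, v1 * v2`.
`niceOn_mixed_S4`: `niceOn_twist` with the representation of `exists_sign` for `ρm`; the sum of the two is of the form of
`niceOn_std_S4` with `rp + rm` (`niceOn_equiv`).
-/

set_option autoImplicit false

namespace Pool.Agent.MRat

open scoped MatrixGroups LinearAlgebra.Projectivization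

variable {k : Type} [Field k] [IsAlgClosed k] [CharZero k]
variable {F : Type} [Group F] [Finite F]
variable {X Y Z : Type} [DT k X] [DT k Y] [DT k Z]
variable {V : Type} [AddCommGroup V] [Module k V] [DT k V] [FDM k V]

section
omit [IsAlgClosed k] [CharZero k] [Finite F]

/-- signed block permutations -/
private def SP {r : ℕ} (ρ : Representation k F (Fin 3 → Fin r → k)) (g : F)
    (σ : Equiv.Perm (Fin 3)) (e : Fin 3 → k) : Prop :=
  (∀ i, e i = 1 ∨ e i = -1) ∧ ∀ x i, ρ g x (σ i) = e i • x i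

private theorem SP.one {r : ℕ} (ρ : Representation k F (Fin 3 → Fin r → k)) :
    SP ρ 1 1 (fun _ => 1) :=
  ⟨fun _ => Or.inl rfl, fun x i => by simp⟩

private theorem SP.mul {r : ℕ} {ρ : Representation k F (Fin 3 → Fin r → k)} {g g' : F}
    {σ σ' : Equiv.Perm (Fin 3)} {e e' : Fin 3 → k} (h : SP ρ g σ e) (h' : SP ρ g' σ' e') :
    SP ρ (g * g') (σ * σ') (fun i => e (σ' i) * e' i) := by
  refine ⟨fun i => ?_, fun x i => ?_⟩
  · rcases h.1 (σ' i) with h1 | h1 <;> rcases h'.1 i with h2 | h2 <;> simp [h1, h2]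
  · rw [map_mul, Module.End.mul_apply, Equiv.Perm.mul_apply, h.2, h'.2, smul_smul]

private theorem SP.pow {r : ℕ} {ρ : Representation k F (Fin 3 → Fin r → k)} {g : F}
    {σ : Equiv.Perm (Fin 3)} {e : Fin 3 → k} (h : SP ρ g σ e) (n : ℕ) :
    ∃ σ' e', SP ρ (g ^ n) σ' e' := by
  induction n with
  | zero => exact ⟨_, _, by rw [pow_zero]; exact SP.one ρ⟩
  | succ n ih =>
    obtain ⟨σ', e', h'⟩ := ih
    exact ⟨_, _, by rw [pow_succ]; exact h'.mul h⟩

private theorem SP.v1 {r : ℕ} {v1 v2 c : F} {ρ : Representation k F (Fin 3 → Fin r → k)}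
    (h : StdAct v1 v2 c ρ) : SP ρ v1 1 ![1, -1, -1] := by
  refine ⟨fun i => ?_, fun x i => ?_⟩
  · fin_cases i <;> simp
  · rw [h.1]; fin_cases i <;> simp

private theorem SP.v2 {r : ℕ} {v1 v2 c : F} {ρ : Representation k F (Fin 3 → Fin r → k)}
    (h : StdAct v1 v2 c ρ) : SP ρ v2 1 ![-1, 1, -1] := by
  refine ⟨fun i => ?_, fun x i => ?_⟩
  · fin_cases i <;> simp
  · rw [h.2.1]; fin_cases i <;> simp

private theorem SP.c {r : ℕ} {v1 v2 c : F} {ρ : Representation k F (Fin 3 → Fin r → k)}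
    (h : StdAct v1 v2 c ρ) : SP ρ c (finRotate 3) (fun _ => 1) := by
  refine ⟨fun i => Or.inl rfl, fun x i => ?_⟩
  rw [h.2.2]; fin_cases i <;> simp

private theorem SP.t1 {r : ℕ} {τ : F} {ρ : Representation k F (Fin 3 → Fin r → k)}
    (h : ∀ x, ρ τ x = ![x 0, x 2, x 1]) : SP ρ τ (Equiv.swap 1 2) (fun _ => 1) := by
  refine ⟨fun i => Or.inl rfl, fun x i => ?_⟩
  rw [h]; fin_cases i <;> simp [Equiv.swap_apply_def]

private theorem SP.t2 {r : ℕ} {τ : F} {ρ : Representation k F (Fin 3 → Fin r → k)}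
    (h : ∀ x, ρ τ x = ![-x 0, -x 2, -x 1]) : SP ρ τ (Equiv.swap 1 2) (fun _ => -1) := by
  refine ⟨fun i => Or.inr rfl, fun x i => ?_⟩
  rw [h]; fin_cases i <;> simp [Equiv.swap_apply_def]

private theorem SP.uniq {r : ℕ} (hr : 0 < r) {f : (Fin 3 → Fin r → k) → (Fin 3 → Fin r → k)}
    {σ σ' : Equiv.Perm (Fin 3)} {e e' : Fin 3 → k} (h : ∀ x i, f x (σ i) = e i • x i)
    (h' : ∀ x i, f x (σ' i) = e' i • x i) (he : ∀ i, e i ≠ 0) : σ = σ' := by
  ext1 i
  set x : Fin 3 → Fin r → k := Pi.single i (fun _ => 1) with hx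
  have h1 := h x i
  have h2 := h' x (σ'.symm (σ i))
  rw [Equiv.apply_symm_apply, h1] at h2
  by_cases hi : σ'.symm (σ i) = i
  · rw [← hi, Equiv.apply_symm_apply, hi]
  · exfalso
    have h3 := congrFun h2 ⟨0, hr⟩
    simp only [hx, Pi.smul_apply, Pi.single_eq_same, Pi.single_eq_of_ne hi, Pi.zero_apply,
      smul_eq_mul, mul_one, mul_zero] at h3
    exact he i h3

end

omit [Finite F] [IsAlgClosed k] [CharZero k] in
private theorem mono_A4 {v1 v2 c : F} (h : A4Data v1 v2 c) {r : ℕ}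
    {ρ : Representation k F (Fin 3 → Fin r → k)} (hρ : StdAct v1 v2 c ρ) (g : F) :
    ∃ (σ : Equiv.Perm (Fin 3)) (e : Fin 3 → k), SP ρ g σ e := by
  obtain ⟨v, hv, i, rfl⟩ := h.gen g
  obtain ⟨σ, e, h1⟩ := (SP.c hρ).pow i
  rcases hv with rfl | rfl | rfl | rfl
  · exact ⟨_, _, (SP.one ρ).mul h1⟩
  · exact ⟨_, _, (SP.v1 hρ).mul h1⟩
  · exact ⟨_, _, (SP.v2 hρ).mul h1⟩
  · exact ⟨_, _, ((SP.v1 hρ).mul (SP.v2 hρ)).mul h1⟩

omit [Finite F] [IsAlgClosed k] [CharZero k] in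
private theorem mono_S4 {v1 v2 c τ : F} (h : S4Data v1 v2 c τ) {r : ℕ}
    {ρ : Representation k F (Fin 3 → Fin r → k)} (hρ : StdAct v1 v2 c ρ)
    (hτ : ∃ σ e, SP ρ τ σ e) (g : F) :
    ∃ (σ : Equiv.Perm (Fin 3)) (e : Fin 3 → k), SP ρ g σ e := by
  obtain ⟨v, hv, i, hg⟩ := h.gen g
  obtain ⟨σ, e, h1⟩ := (SP.c hρ).pow i
  obtain ⟨σ', e', h2⟩ := hτ
  have h3 : ∃ (σ : Equiv.Perm (Fin 3)) (e : Fin 3 → k), SP ρ (v * c ^ i) σ e := by
    rcases hv with rfl | rfl | rfl | rfl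
    · exact ⟨_, _, (SP.one ρ).mul h1⟩
    · exact ⟨_, _, (SP.v1 hρ).mul h1⟩
    · exact ⟨_, _, (SP.v2 hρ).mul h1⟩
    · exact ⟨_, _, ((SP.v1 hρ).mul (SP.v2 hρ)).mul h1⟩
  rcases hg with rfl | rfl
  · exact h3
  · obtain ⟨_, _, h4⟩ := h3
    exact ⟨_, _, h4.mul h2⟩

omit [Finite F] in
/-- the sign vectors -/
private theorem signs_std {v1 v2 c : F} {r : ℕ}
    {ρ : Representation k F (Fin 3 → Fin r → k)} (hρ : StdAct v1 v2 c ρ)
    (A : FAct k F X) {s : Set X} (h1 : ∀ x ∈ s, A.a v1 x = x)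
    (h2 : ∀ x ∈ s, A.a v2 x = x) (e : Fin 3 → k) (he : ∀ i, e i = 1 ∨ e i = -1) :
    ∃ g, (∀ x ∈ s, A.a g x = x) ∧ ∃ c : k, (c = 1 ∨ c = -1) ∧ ∀ x i, ρ g x i = (c * e i) • x i := by
  have h12 : ∀ x ∈ s, A.a (v1 * v2) x = x := fun x hx => by rw [A.a_mul, h2 x hx, h1 x hx]
  have key : ∀ (g : F) (c : k) (f : Fin 3 → k), (∀ x ∈ s, A.a g x = x) → (c = 1 ∨ c = -1) →
      (∀ i, f i = c * e i) → (∀ x i, ρ g x i = f i • x i) →
      ∃ g, (∀ x ∈ s, A.a g x = x) ∧ ∃ c : k, (c = 1 ∨ c = -1) ∧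
        ∀ x i, ρ g x i = (c * e i) • x i := by
    intro g c f hg hc hf h
    exact ⟨g, hg, c, hc, fun x i => by rw [h, hf]⟩
  have k1 := fun (x : Fin 3 → Fin r → k) (i : Fin 3) => (SP.one ρ).2 x i
  have k2 := fun (x : Fin 3 → Fin r → k) (i : Fin 3) => (SP.v1 hρ).2 x i
  have k3 := fun (x : Fin 3 → Fin r → k) (i : Fin 3) => (SP.v2 hρ).2 x i
  have k4 := fun (x : Fin 3 → Fin r → k) (i : Fin 3) => ((SP.v1 hρ).mul (SP.v2 hρ)).2 x i
  rcases he 0 with e0 | e0 <;> rcases he 1 with e1 | e1 <;> rcases he 2 with e2 | e2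
  · exact key 1 1 _ (fun x _ => A.a_one x) (Or.inl rfl)
      (fun i => by fin_cases i <;> simp [e0, e1, e2]) k1
  · exact key (v1 * v2) (-1) _ h12 (Or.inr rfl)
      (fun i => by fin_cases i <;> simp [e0, e1, e2]) k4
  · exact key v2 (-1) _ h2 (Or.inr rfl)
      (fun i => by fin_cases i <;> simp [e0, e1, e2]) k3
  · exact key v1 1 _ h1 (Or.inl rfl)
      (fun i => by fin_cases i <;> simp [e0, e1, e2]) k2
  · exact key v1 (-1) _ h1 (Or.inr rfl)
      (fun i => by fin_cases i <;> simp [e0, e1, e2]) k2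
  · exact key v2 1 _ h2 (Or.inl rfl)
      (fun i => by fin_cases i <;> simp [e0, e1, e2]) k3
  · exact key (v1 * v2) 1 _ h12 (Or.inl rfl)
      (fun i => by fin_cases i <;> simp [e0, e1, e2]) k4
  · exact key 1 (-1) _ (fun x _ => A.a_one x) (Or.inr rfl)
      (fun i => by fin_cases i <;> simp [e0, e1, e2]) k1

omit [Finite F] in
private theorem monoPair_one {r : ℕ} {ρ ρ' : Representation k F (Fin 3 → Fin r → k)}
    (h : MonoPair ρ ρ') {g : F} {e : Fin 3 → k} (hg : SP ρ g 1 e) : ρ' g = 1 := by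
  rcases Nat.eq_zero_or_pos r with rfl | hr
  · refine LinearMap.ext fun x => ?_
    funext i j
    exact j.elim0
  · obtain ⟨σ, e', he', h1, h2⟩ := h g
    have h3 : σ = 1 := by
      refine SP.uniq hr h1 hg.2 (fun i => ?_)
      rcases he' i with h4 | h4 <;> simp [h4]
    subst h3
    refine LinearMap.ext fun x => ?_
    funext i
    exact h2 x i

omit [Finite F] in
private theorem a_trivial {v1 v2 : F} (A : FAct k F X) {s : Set X}
    (h1 : ∀ x ∈ s, A.a v1 x = x) (h2 : ∀ x ∈ s, A.a v2 x = x) {v : F}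
    (hv : v = 1 ∨ v = v1 ∨ v = v2 ∨ v = v1 * v2) (x : X) (hx : x ∈ s) : A.a v x = x := by
  rcases hv with rfl | rfl | rfl | rfl
  · exact A.a_one x
  · exact h1 x hx
  · exact h2 x hx
  · rw [A.a_mul, h2 x hx, h1 x hx]

omit [Finite F] [IsAlgClosed k] [CharZero k] [DT k V] [FDM k V] in
private theorem rho_trivial {v1 v2 : F} (ρ : Representation k F V)
    (h1 : ρ v1 = 1) (h2 : ρ v2 = 1) {v : F}
    (hv : v = 1 ∨ v = v1 ∨ v = v2 ∨ v = v1 * v2) : ρ v = 1 := by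
  rcases hv with rfl | rfl | rfl | rfl
  · exact map_one ρ
  · exact h1
  · exact h2
  · rw [map_mul, h1, h2, one_mul]

theorem niceOn_triv_A4 {v1 v2 c : F} (h : A4Data v1 v2 c) (ρ : Representation k F V)
    (h1 : ρ v1 = 1) (h2 : ρ v2 = 1) : NiceOn (k := k) {v1, v2} ρ := by
  intro X _ A s hs hA
  have a1 : ∀ x ∈ s, A.a v1 x = x := hA v1 (by simp)
  have a2 : ∀ x ∈ s, A.a v2 x = x := hA v2 (by simp)
  let H : Subgroup F := Subgroup.zpowers c
  have key : ∀ g : F, ∃ h : H, (∀ x ∈ s, A.a g x = A.a (H.subtype h) x) ∧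
      ρ g = ρ (H.subtype h) := by
    intro g
    obtain ⟨v, hv, i, rfl⟩ := h.gen g
    refine ⟨⟨c ^ i, Subgroup.npow_mem_zpowers c i⟩, fun x hx => ?_, ?_⟩
    · rw [A.a_mul, a_trivial A a1 a2 hv _ (hs.st _ _ hx)]
      rfl
    · rw [map_mul, rho_trivial ρ h1 h2 hv, one_mul]
      rfl
  rw [nice_restrict hs H.subtype ρ key]
  refine niceOn_comm ?_ _ X _ s (hs.comap _) (by simp)
  rintro ⟨a, ⟨i, rfl⟩⟩ ⟨b, ⟨j, rfl⟩⟩
  ext
  simp only [Subgroup.coe_mul]
  exact (Commute.zpow_zpow_self c i j).eq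

theorem niceOn_triv_S4 {v1 v2 c τ : F} (h : S4Data v1 v2 c τ) (ρ : Representation k F V)
    (h1 : ρ v1 = 1) (h2 : ρ v2 = 1) : NiceOn (k := k) {v1, v2} ρ := by
  intro X _ A s hs hA
  have a1 : ∀ x ∈ s, A.a v1 x = x := hA v1 (by simp)
  have a2 : ∀ x ∈ s, A.a v2 x = x := hA v2 (by simp)
  have hc2 : c⁻¹ = c ^ 2 := by
    rw [inv_eq_iff_mul_eq_one, ← pow_succ', h.c3]
  have hτc : ∀ i : ℕ, τ * c ^ i = c ^ (2 * i) * τ := by
    intro i
    induction i with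
    | zero => simp
    | succ i ih =>
      have h3 : τ * c = c ^ 2 * τ := by
        rw [← hc2, ← h.τc, mul_assoc (τ * c) τ τ, h.ττ, mul_one]
      rw [pow_succ, ← mul_assoc, ih, mul_assoc, h3, ← mul_assoc, ← pow_add, mul_add, mul_one]
  let H : Subgroup F :=
    { carrier := {g | ∃ i : ℕ, g = c ^ i ∨ g = c ^ i * τ}
      mul_mem' := by
        rintro a b ⟨i, rfl | rfl⟩ ⟨j, rfl | rfl⟩
        · exact ⟨i + j, Or.inl (by rw [pow_add])⟩
        · exact ⟨i + j, Or.inr (by rw [pow_add, mul_assoc])⟩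
        · exact ⟨i + 2 * j, Or.inr (by rw [mul_assoc, hτc, ← mul_assoc, ← pow_add])⟩
        · exact ⟨i + 2 * j, Or.inl (by
            rw [mul_assoc, ← mul_assoc τ, hτc, mul_assoc, h.ττ, mul_one, ← pow_add])⟩
      one_mem' := ⟨0, Or.inl (by simp)⟩
      inv_mem' := by
        rintro a ⟨i, rfl | rfl⟩
        · refine ⟨2 * i, Or.inl ?_⟩
          rw [← inv_pow, hc2, ← pow_mul]
        · refine ⟨i, Or.inr ?_⟩
          have hτ : τ⁻¹ = τ := by rw [inv_eq_iff_mul_eq_one, h.ττ]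
          have h5 : c ^ (2 * (2 * i)) = c ^ i := by
            have h4 : 2 * (2 * i) = 3 * i + i := by ring
            rw [h4, pow_add, pow_mul, h.c3, one_pow, one_mul]
          rw [mul_inv_rev, hτ, ← inv_pow, hc2, ← pow_mul, hτc, h5] }
  have key : ∀ g : F, ∃ h : H, (∀ x ∈ s, A.a g x = A.a (H.subtype h) x) ∧
      ρ g = ρ (H.subtype h) := by
    intro g
    obtain ⟨v, hv, i, rfl | rfl⟩ := h.gen g
    · refine ⟨⟨c ^ i, i, Or.inl rfl⟩, fun x hx => ?_, ?_⟩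
      · rw [A.a_mul, a_trivial A a1 a2 hv _ (hs.st _ _ hx)]
        rfl
      · rw [map_mul, rho_trivial ρ h1 h2 hv, one_mul]
        rfl
    · refine ⟨⟨c ^ i * τ, i, Or.inr rfl⟩, fun x hx => ?_, ?_⟩
      · rw [mul_assoc, A.a_mul, a_trivial A a1 a2 hv _ (hs.st _ _ hx)]
        rfl
      · rw [mul_assoc, map_mul, rho_trivial ρ h1 h2 hv, one_mul]
        rfl
  rw [nice_restrict hs H.subtype ρ key]
  have hcH : c ∈ H := ⟨1, Or.inl (by simp)⟩
  have hτH : τ ∈ H := ⟨0, Or.inr (by simp)⟩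
  refine niceOn_dihedral (⟨c, hcH⟩ : H) (⟨τ, hτH⟩ : H) 3 (by norm_num) (by norm_num) ?_ ?_ ?_ ?_ _
    X _ s (hs.comap _) (by simp)
  · ext; simpa using h.c3
  · ext; simpa using h.ττ
  · ext; simpa using h.τc
  · rintro ⟨g, i, hg | hg⟩
    · exact ⟨i, Or.inl (by ext; simpa using hg)⟩
    · exact ⟨i, Or.inr (by ext; simpa using hg)⟩

theorem niceOn_std_A4 {v1 v2 c : F} (h : A4Data v1 v2 c) {r : ℕ}
    (ρ : Representation k F (Fin 3 → Fin r → k)) (hρ : StdAct v1 v2 c ρ) :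
    NiceOn (k := k) {v1, v2} ρ := by
  intro X _ A s hs hA
  obtain ⟨ρ', h'⟩ := exists_abs ρ (mono_A4 h hρ)
  have h1 := niceOn_triv_A4 h ρ' (monoPair_one h' (SP.v1 hρ)) (monoPair_one h' (SP.v2 hρ))
    X A s hs hA
  unfold Nice at h1 ⊢
  rw [← h1]
  exact fcl_mono hs ρ ρ' h' (signs_std hρ A (hA v1 (by simp)) (hA v2 (by simp)))

theorem niceOn_std_S4 {v1 v2 c τ : F} (h : S4Data v1 v2 c τ) {r : ℕ}
    (ρ : Representation k F (Fin 3 → Fin r → k)) (hρ : StdAct v1 v2 c ρ)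
    (hτ : ∀ x, ρ τ x = ![x 0, x 2, x 1]) : NiceOn (k := k) {v1, v2} ρ := by
  intro X _ A s hs hA
  obtain ⟨ρ', h'⟩ := exists_abs ρ (mono_S4 h hρ ⟨_, _, SP.t1 hτ⟩)
  have h1 := niceOn_triv_S4 h ρ' (monoPair_one h' (SP.v1 hρ)) (monoPair_one h' (SP.v2 hρ))
    X A s hs hA
  unfold Nice at h1 ⊢
  rw [← h1]
  exact fcl_mono hs ρ ρ' h' (signs_std hρ A (hA v1 (by simp)) (hA v2 (by simp)))

/-- gluing the blocks -/
private def glue (rp rm : ℕ) :
    ((Fin 3 → Fin rp → k) × (Fin 3 → Fin rm → k)) ≃ₗ[k] (Fin 3 → Fin (rp + rm) → k) where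
  toFun p := fun i => Fin.append (p.1 i) (p.2 i)
  map_add' p q := by
    funext i j
    refine Fin.addCases (fun j => ?_) (fun j => ?_) j <;> simp
  map_smul' c p := by
    funext i j
    refine Fin.addCases (fun j => ?_) (fun j => ?_) j <;> simp
  invFun f := (fun i j => f i (Fin.castAdd _ j), fun i j => f i (Fin.natAdd _ j))
  left_inv p := by
    refine Prod.ext ?_ ?_ <;> funext i j <;> simp
  right_inv f := by
    funext i j
    refine Fin.addCases (fun j => ?_) (fun j => ?_) j <;> simp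

omit [IsAlgClosed k] [CharZero k] in
private theorem glue_apply (rp rm : ℕ) (p : (Fin 3 → Fin rp → k) × (Fin 3 → Fin rm → k))
    (i : Fin 3) : glue rp rm p i = Fin.append (p.1 i) (p.2 i) := rfl

omit [Finite F] [IsAlgClosed k] [CharZero k] in
private theorem exists_glue {rp rm : ℕ} (ρ1 : Representation k F (Fin 3 → Fin rp → k))
    (ρ2 : Representation k F (Fin 3 → Fin rm → k)) :
    ∃ ρ : Representation k F (Fin 3 → Fin (rp + rm) → k),
      ∀ g x, glue rp rm ((ρ1.prod ρ2) g x) = ρ g (glue rp rm x) := by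
  refine ⟨{ toFun := fun g => (glue rp rm).toLinearMap ∘ₗ ((ρ1.prod ρ2) g) ∘ₗ
              (glue rp rm).symm.toLinearMap
            map_one' := ?_
            map_mul' := ?_ }, ?_⟩
  · refine LinearMap.ext fun x => ?_
    simp only [map_one, LinearMap.comp_apply, LinearEquiv.coe_coe, Module.End.one_apply,
      LinearEquiv.apply_symm_apply]
  · intro g h
    refine LinearMap.ext fun x => ?_
    simp only [map_mul, LinearMap.comp_apply, LinearEquiv.coe_coe, Module.End.mul_apply,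
      LinearEquiv.symm_apply_apply]
  · intro g x
    change _ = glue rp rm ((ρ1.prod ρ2) g ((glue rp rm).symm (glue rp rm x)))
    rw [LinearEquiv.symm_apply_apply]

theorem niceOn_mixed_S4 {v1 v2 c τ : F} (h : S4Data v1 v2 c τ) {rp rm : ℕ}
    (ρp : Representation k F (Fin 3 → Fin rp → k)) (hp : StdAct v1 v2 c ρp)
    (hpτ : ∀ x, ρp τ x = ![x 0, x 2, x 1])
    (ρm : Representation k F (Fin 3 → Fin rm → k)) (hm : StdAct v1 v2 c ρm)
    (hmτ : ∀ x, ρm τ x = ![-x 0, -x 2, -x 1]) :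
    NiceOn (k := k) {v1, v2} (ρp.prod ρm) := by
  obtain ⟨ρ', h'⟩ := exists_sign ρm (mono_S4 h hm ⟨_, _, SP.t2 hmτ⟩)
  have htw : ∀ g, ∃ c : k, c ≠ 0 ∧ ∀ v, ρ' g v = c • ρm g v := by
    intro g
    obtain ⟨σ, e, he⟩ := mono_S4 h hm ⟨_, _, SP.t2 hmτ⟩ g
    refine ⟨((Equiv.Perm.sign σ : ℤ) : k), ?_, fun v => ?_⟩
    · rcases Int.units_eq_one_or (Equiv.Perm.sign σ) with h1 | h1 <;> simp [h1]
    · funext i
      have h1 := h' g σ e he.1 he.2 v (σ.symm i)
      rw [Equiv.apply_symm_apply] at h1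
      have h2 := he.2 v (σ.symm i)
      rw [Equiv.apply_symm_apply] at h2
      rw [Pi.smul_apply, h1, h2]
  rw [niceOn_twist ρp ρm ρ' htw]
  obtain ⟨ρs, hs⟩ := exists_glue ρp ρ'
  rw [niceOn_equiv (ρp.prod ρ') ρs (glue rp rm)
    (fun g => ⟨1, one_ne_zero, fun v => by rw [one_smul, hs]⟩)]
  have hv1 : ∀ x, ρ' v1 x = ![x 0, -x 1, -x 2] := fun x => by
    funext i
    have h1 := h' v1 1 _ (SP.v1 hm).1 (SP.v1 hm).2 x i
    rw [Equiv.Perm.one_apply] at h1
    rw [h1]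
    fin_cases i <;> simp
  have hv2 : ∀ x, ρ' v2 x = ![-x 0, x 1, -x 2] := fun x => by
    funext i
    have h1 := h' v2 1 _ (SP.v2 hm).1 (SP.v2 hm).2 x i
    rw [Equiv.Perm.one_apply] at h1
    rw [h1]
    fin_cases i <;> simp
  have hc : ∀ x, ρ' c x = ![x 2, x 0, x 1] := fun x => by
    have h1 := fun i => h' c (finRotate 3) _ (SP.c hm).1 (SP.c hm).2 x i
    rw [sign_finRotate] at h1
    funext i
    have h2 := h1 ((finRotate 3).symm i)
    rw [Equiv.apply_symm_apply] at h2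
    rw [h2]
    fin_cases i <;> simp <;> rfl
  have ht : ∀ x, ρ' τ x = ![x 0, x 2, x 1] := fun x => by
    have h1 := fun i => h' τ (Equiv.swap 1 2) _ (SP.t2 hmτ).1 (SP.t2 hmτ).2 x i
    rw [Equiv.Perm.sign_swap (by decide)] at h1
    funext i
    have h2 := h1 ((Equiv.swap 1 2 : Equiv.Perm (Fin 3)).symm i)
    rw [Equiv.apply_symm_apply] at h2
    rw [h2]
    fin_cases i <;> simp [Equiv.swap_apply_def]
  have hs' : ∀ g x, ρs g x = glue rp rm ((ρp.prod ρ') g ((glue rp rm).symm x)) := fun g x => by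
    rw [hs, LinearEquiv.apply_symm_apply]
  have ext' : ∀ g x y, (ρp.prod ρ') g ((glue rp rm).symm x) = (glue rp rm).symm y →
      ρs g x = y := fun g x y h => by
    rw [hs', h, LinearEquiv.apply_symm_apply]
  have gs : ∀ x : Fin 3 → Fin (rp + rm) → k, (glue rp rm).symm x =
      (fun i j => x i (Fin.castAdd _ j), fun i j => x i (Fin.natAdd _ j)) := fun x => rfl
  refine niceOn_std_S4 h ρs ⟨fun x => ext' _ _ _ ?_, fun x => ext' _ _ _ ?_,
    fun x => ext' _ _ _ ?_⟩ (fun x => ext' _ _ _ ?_)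
  · rw [gs, gs, Representation.prod_apply_apply, hv1, hp.1]
    refine Prod.ext ?_ ?_ <;> funext i j <;> fin_cases i <;> simp
  · rw [gs, gs, Representation.prod_apply_apply, hv2, hp.2.1]
    refine Prod.ext ?_ ?_ <;> funext i j <;> fin_cases i <;> simp
  · rw [gs, gs, Representation.prod_apply_apply, hc, hp.2.2]
    refine Prod.ext ?_ ?_ <;> funext i j <;> fin_cases i <;> simp
  · rw [gs, gs, Representation.prod_apply_apply, ht, hpτ]
    refine Prod.ext ?_ ?_ <;> funext i j <;> fin_cases i <;> simp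

/-- The Klein four lemma for `A4`. -/
theorem niceOn_A4 {v1 v2 c : F} (h : A4Data v1 v2 c) (ρ : Representation k F V) :
    NiceOn (k := k) {v1, v2} ρ := by
  obtain ⟨r0, r, ρ0, ρ1, e, he, h1, h2, h3⟩ := A4_decomp h ρ
  rw [niceOn_equiv ρ (ρ0.prod ρ1) e (fun g => ⟨1, one_ne_zero, fun v => by rw [one_smul, he]⟩)]
  refine niceOn_prod ρ0 ρ1 (niceOn_triv_A4 h ρ0 h1 h2) ?_ (niceOn_std_A4 h ρ1 h3)
  rintro g (rfl | rfl)
  · exact h1
  · exact h2

/-- The Klein four lemma for `S4`. -/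
theorem niceOn_S4 {v1 v2 c τ : F} (h : S4Data v1 v2 c τ) (ρ : Representation k F V) :
    NiceOn (k := k) {v1, v2} ρ := by
  obtain ⟨r0, rp, rm, ρ0, ρp, ρm, e, he, h1, h2, h3, h4, h5, h6⟩ := S4_decomp h ρ
  rw [niceOn_equiv ρ (ρ0.prod (ρp.prod ρm)) e
    (fun g => ⟨1, one_ne_zero, fun v => by rw [one_smul, he]⟩)]
  refine niceOn_prod ρ0 (ρp.prod ρm) (niceOn_triv_S4 h ρ0 h1 h2) ?_
    (niceOn_mixed_S4 h ρp h3 h4 ρm h5 h6)
  rintro g (rfl | rfl)
  · exact h1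
  · exact h2

end Pool.Agent.MRat
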