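import Pool.Agent.Lib.MP_923aff_ag.PC
/-!
# JOB FAI: products with a class which is a polynomial in the affine line; weighted projective spaces

`clq_prod_poly`: there is an additive map `MK k →+ MK k` with `clq k t r' ↦ clq k (s ×ˢ t) (r × r')` (lift along
`FreeAbelianGroup` and the quotient; the two kinds of relations `Rels.add`, `Rels.map` are respected by `clq_split` and
`clq_map`; see MKA.lean for the module structure, which is constructed in the same way); it commutes with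
multiplication by `L` (`X_smul_clq`), hence is linear over `ℤ[L]`, and sends `ptc k` to `clq k s r`.
`wproj`: induction on `n`: the part `v 0 = 0` is the same problem for `n - 1`; on the part `v 0 ≠ 0` restrict to the slice
`v 0 = 1` (`clq_map` by the inclusion), on which the group of `m 0`-th roots of unity acts: class `L ^ (n - 1)` by
`line_DT`, adding the coordinates one at a time. The more general `wlin` (one point with a group of multipliers)
may be proved first.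
-/

set_option autoImplicit false

namespace Pool.Agent.MRat

open scoped MatrixGroups LinearAlgebra.Projectivization

variable {k : Type} [Field k] [IsAlgClosed k] [CharZero k]
variable {X Y Z : Type} [DT k X] [DT k Y] [DT k Z]

section amb

variable {α β γ : Type} [Amb k α] [Amb k β] [Amb k γ]

private theorem FAI_good {s : Set α} {r : α → α → Prop} {t : Set β} {r' : β → β → Prop}
    (h : Good k s r) (h' : Good k t r') :
    Good k (s ×ˢ t) (fun p q => r p.1 q.1 ∧ r' p.2 q.2) where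
  ds := ((h.ds.comp (DF.fst (α := α) (β := β))).and
    (h'.ds.comp (DF.snd (α := α) (β := β)))).congr fun p => Iff.rfl
  dr := by
    have h1 : DP k (fun p : (α × β) × (α × β) => p.1.1 ∈ s ∧ p.2.1 ∈ s ∧ r p.1.1 p.2.1) :=
      h.dr.comp (f := fun p : (α × β) × (α × β) => (p.1.1, p.2.1))
        (DF.mk (DF.fst' DF.fst) (DF.fst' DF.snd))
    have h2 : DP k (fun p : (α × β) × (α × β) => p.1.2 ∈ t ∧ p.2.2 ∈ t ∧ r' p.1.2 p.2.2) :=
      h'.dr.comp (f := fun p : (α × β) × (α × β) => (p.1.2, p.2.2))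
        (DF.mk (DF.snd' DF.fst) (DF.snd' DF.snd))
    refine (h1.and h2).congr ?_
    rintro ⟨⟨a, b⟩, ⟨c, d⟩⟩
    simp only [Set.mem_prod]
    tauto
  refl := by
    rintro ⟨a, b⟩ ⟨ha, hb⟩
    exact ⟨h.refl a ha, h'.refl b hb⟩
  symm := by
    rintro ⟨a, b⟩ ⟨ha, hb⟩ ⟨c, d⟩ ⟨hc, hd⟩ ⟨h1, h2⟩
    exact ⟨h.symm a ha c hc h1, h'.symm b hb d hd h2⟩
  trans := by
    rintro ⟨a, b⟩ ⟨ha, hb⟩ ⟨c, d⟩ ⟨hc, hd⟩ ⟨e, f⟩ ⟨he, hf⟩ ⟨h1, h2⟩ ⟨h3, h4⟩
    exact ⟨h.trans a ha c hc e he h1 h3, h'.trans b hb d hd f hf h2 h4⟩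

private theorem FAI_rels {s : Set α} {r : α → α → Prop} (hs : Good k s r)
    (z : FreeAbelianGroup (Gen k)) (hz : Rels k z) :
    FreeAbelianGroup.lift
      (fun g : Gen k => cls k (s ×ˢ g.s) (fun p q => r p.1 q.1 ∧ g.r p.2 q.2)) z = 0 := by
  rcases hz with ⟨n, s', t, r', h, h1, h2, sat⟩ |
    ⟨n, m, s1, r1, s', r', h, h', f, hf, maps, iff, surj⟩
  · rw [map_sub, map_sub, FreeAbelianGroup.lift_apply_of, FreeAbelianGroup.lift_apply_of,
      FreeAbelianGroup.lift_apply_of]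
    simp only
    rw [cls_split (FAI_good hs h) (s ×ˢ (s' ∩ t)) (FAI_good hs h1).ds]
    · have e1 : (s ×ˢ s') ∩ (s ×ˢ (s' ∩ t)) = s ×ˢ (s' ∩ t) := by
        ext ⟨x, y⟩
        simp only [Set.mem_inter_iff, Set.mem_prod]
        tauto
      have e2 : (s ×ˢ s') \ (s ×ˢ (s' ∩ t)) = s ×ˢ (s' \ t) := by
        ext ⟨x, y⟩
        simp only [Set.mem_inter_iff, Set.mem_prod, Set.mem_sdiff]
        tauto
      rw [e1, e2]
      abel
    · rintro ⟨x, a⟩ ⟨hx, ha⟩ ⟨y, b⟩ ⟨hy, hb⟩ ⟨-, hr⟩ ⟨-, -, hat⟩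
      exact ⟨hy, hb, sat a ha b hb hr hat⟩
  · rw [map_sub, FreeAbelianGroup.lift_apply_of, FreeAbelianGroup.lift_apply_of, sub_eq_zero]
    refine cls_map (FAI_good hs h) (FAI_good hs h') (fun p => (p.1, f p.2))
      (DF.mk DF.fst (hf.comp DF.snd)) ?_ ?_ ?_
    · rintro ⟨x, a⟩ ⟨hx, ha⟩
      exact ⟨hx, maps a ha⟩
    · rintro ⟨x, a⟩ ⟨hx, ha⟩ ⟨y, b⟩ ⟨hy, hb⟩
      exact and_congr Iff.rfl (iff a ha b hb)
    · rintro ⟨y, b⟩ ⟨hy, hb⟩
      obtain ⟨x, hx, hr⟩ := surj b hb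
      exact ⟨(y, x), ⟨hy, hx⟩, hs.refl y hy, hr⟩

private theorem FAI_exists {s : Set α} {r : α → α → Prop} (hs : Good k s r) :
    ∃ φ : MK k →+ MK k, ∀ g : Gen k,
      φ (MK.of k g) = cls k (s ×ˢ g.s) (fun p q => r p.1 q.1 ∧ g.r p.2 q.2) := by
  refine ⟨QuotientAddGroup.lift _ (FreeAbelianGroup.lift
      (fun g : Gen k => cls k (s ×ˢ g.s) (fun p q => r p.1 q.1 ∧ g.r p.2 q.2))) ?_, ?_⟩
  · intro z hz
    have h : AddSubgroup.closure {z | Rels k z} ≤ (FreeAbelianGroup.lift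
      (fun g : Gen k => cls k (s ×ˢ g.s) (fun p q => r p.1 q.1 ∧ g.r p.2 q.2))).ker := by
      rw [AddSubgroup.closure_le]
      intro w hw
      exact FAI_rels hs w hw
    exact h hz
  · intro g
    exact FreeAbelianGroup.lift_apply_of _ _

private theorem FAI_cls {s : Set α} {r : α → α → Prop} (hs : Good k s r) (φ : MK k →+ MK k)
    (hφ : ∀ g : Gen k, φ (MK.of k g) = cls k (s ×ˢ g.s) (fun p q => r p.1 q.1 ∧ g.r p.2 q.2))
    {t : Set β} {r' : β → β → Prop} (ht : Good k t r') :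
    φ (cls k t r') = cls k (s ×ˢ t) (fun p q => r p.1 q.1 ∧ r' p.2 q.2) := by
  have h' := MKB_good_coord ht
  have e1 : cls k t r' = MK.of k ⟨_, _, _, h'⟩ := dif_pos h'
  rw [e1, hφ]
  refine cls_map (FAI_good hs h') (FAI_good hs ht)
    (fun p => (p.1, (Amb.e (k := k) (α := β)).symm p.2))
    (DF.mk DF.fst (DF.e_symm.comp DF.snd)) ?_ ?_ ?_
  · rintro ⟨x, a⟩ ⟨hx, ha⟩
    exact ⟨hx, ha⟩
  · rintro ⟨x, a⟩ _ ⟨y, b⟩ _
    exact Iff.rfl
  · rintro ⟨y, b⟩ ⟨hy, hb⟩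
    refine ⟨(y, Amb.e (k := k) (α := β) b), ⟨hy, ?_⟩, hs.refl y hy, ?_⟩
    · change (Amb.e (k := k) (α := β)).symm (Amb.e (k := k) (α := β) b) ∈ t
      rw [Equiv.symm_apply_apply]
      exact hb
    · change r' ((Amb.e (k := k) (α := β)).symm (Amb.e (k := k) (α := β) b)) b
      rw [Equiv.symm_apply_apply]
      exact ht.refl b hb

omit [IsAlgClosed k] [CharZero k] in
private theorem FAI_ind {φ ψ : MK k →+ MK k} (h : ∀ g : Gen k, φ (MK.of k g) = ψ (MK.of k g))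
    (z : MK k) : φ z = ψ z := by
  let π : FreeAbelianGroup (Gen k) →+ MK k :=
    QuotientAddGroup.mk' (AddSubgroup.closure {z | Rels k z})
  have h1 : ∀ w, φ (π w) = ψ (π w) := by
    intro w
    induction w using FreeAbelianGroup.induction_on with
    | zero => rw [map_zero, map_zero, map_zero]
    | of g => exact h g
    | neg g hg => rw [map_neg, map_neg, map_neg, hg]
    | add x y hx hy => rw [map_add, map_add, map_add, hx, hy]
  obtain ⟨w, rfl⟩ := QuotientAddGroup.mk_surjective z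
  exact h1 w

private theorem FAI_X {s : Set α} {r : α → α → Prop} (hs : Good k s r) (φ : MK k →+ MK k)
    (hφ : ∀ g : Gen k, φ (MK.of k g) = cls k (s ×ˢ g.s) (fun p q => r p.1 q.1 ∧ g.r p.2 q.2))
    (z : MK k) : φ ((Polynomial.X : Polynomial ℤ) • z) = (Polynomial.X : Polynomial ℤ) • φ z := by
  have h1 : ∀ z, (φ.comp (lmul k)) z = ((lmul k).comp φ) z := by
    refine FAI_ind ?_
    intro g
    rw [AddMonoidHom.comp_apply, AddMonoidHom.comp_apply, MKB_lmul_of, hφ,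
      FAI_cls hs φ hφ g.good.prodk, ← X_smul_eq, X_smul_cls (FAI_good hs g.good)]
    refine cls_map (FAI_good hs g.good.prodk) (FAI_good hs g.good).prodk
      (fun p => ((p.1, p.2.1), p.2.2)) ?_ ?_ ?_ ?_
    · exact DF.mk (DF.mk DF.fst (DF.fst' DF.snd)) (DF.snd' DF.snd)
    · rintro ⟨x, a, c⟩ ⟨hx, ha, -⟩
      exact ⟨⟨hx, ha⟩, trivial⟩
    · rintro ⟨x, a, c⟩ _ ⟨y, b, d⟩ _
      exact ⟨fun h => ⟨⟨h.1, h.2.1⟩, h.2.2⟩, fun h => ⟨h.1.1, h.1.2, h.2⟩⟩
    · rintro ⟨⟨y, b⟩, d⟩ ⟨⟨hy, hb⟩, -⟩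
      exact ⟨(y, b, d), ⟨hy, hb, trivial⟩, ⟨hs.refl y hy, g.good.refl b hb⟩, rfl⟩
  have h2 := h1 z
  rw [AddMonoidHom.comp_apply, AddMonoidHom.comp_apply, ← X_smul_eq, ← X_smul_eq] at h2
  exact h2

private theorem FAI_poly {s : Set α} {r : α → α → Prop} (hs : Good k s r) (φ : MK k →+ MK k)
    (hφ : ∀ g : Gen k, φ (MK.of k g) = cls k (s ×ˢ g.s) (fun p q => r p.1 q.1 ∧ g.r p.2 q.2))
    (p : Polynomial ℤ) (z : MK k) : φ (p • z) = p • φ z := by
  have h1 : ∀ (n : ℕ) (z : MK k),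
      φ ((Polynomial.X ^ n : Polynomial ℤ) • z) = (Polynomial.X ^ n : Polynomial ℤ) • φ z := by
    intro n
    induction n with
    | zero => intro z; rw [pow_zero, one_smul, one_smul]
    | succ n ih => intro z; rw [pow_succ, mul_smul, mul_smul, ih, FAI_X hs φ hφ]
  have h2 : ∀ (a : ℤ) (z : MK k), (Polynomial.C a : Polynomial ℤ) • z = a • z := by
    intro a z
    have e : (Polynomial.C a : Polynomial ℤ) = ((a : ℤ) : Polynomial ℤ) := by simp
    rw [e, Int.cast_smul_eq_zsmul]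
  induction p using Polynomial.induction_on' with
  | add p q hp hq => rw [add_smul, add_smul, map_add, hp, hq]
  | monomial n a =>
    rw [← Polynomial.C_mul_X_pow_eq_monomial, mul_smul, mul_smul, h2, h2, map_zsmul, h1]

end amb

theorem clq_prod_dq {s : Set X} {r : X → X → Prop} (h : DQ k s r) {t : Set Y}
    {r' : Y → Y → Prop} (h' : DQ k t r') :
    DQ k (s ×ˢ t) (fun a b => r a.1 b.1 ∧ r' a.2 b.2) where
  ds := (DM.comp h.ds (f := fun p : X × Y => p.1) (DM.fst DM.id')).and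
    (DM.comp h'.ds (f := fun p : X × Y => p.2) (DM.snd DM.id'))
  dr := by
    have h1 := DM.comp h.dr (f := fun p : (X × Y) × (X × Y) => (p.1.1, p.2.1)) (by fun_prop)
    have h2 := DM.comp h'.dr (f := fun p : (X × Y) × (X × Y) => (p.1.2, p.2.2)) (by fun_prop)
    refine (h1.and h2).congr_iff ?_
    rintro ⟨⟨x, y⟩, ⟨x', y'⟩⟩
    simp only [Set.mem_prod]
    tauto
  refl := by
    rintro ⟨x, y⟩ ⟨hx, hy⟩
    exact ⟨h.refl x hx, h'.refl y hy⟩
  symm := by
    rintro ⟨x, y⟩ ⟨hx, hy⟩ ⟨x', y'⟩ ⟨hx', hy'⟩ ⟨h1, h2⟩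
    exact ⟨h.symm x hx x' hx' h1, h'.symm y hy y' hy' h2⟩
  trans := by
    rintro ⟨x, y⟩ ⟨hx, hy⟩ ⟨x', y'⟩ ⟨hx', hy'⟩ ⟨x'', y''⟩ ⟨hx'', hy''⟩ ⟨h1, h2⟩ ⟨h3, h4⟩
    exact ⟨h.trans x hx x' hx' x'' hx'' h1 h3, h'.trans y hy y' hy' y'' hy'' h2 h4⟩

private theorem FAI_clq {s : Set X} {r : X → X → Prop} (h : DQ k s r) (φ : MK k →+ MK k)
    (hφ : ∀ g : Gen k, φ (MK.of k g) = cls k ({a : DT.A k X | ∃ x, DT.R a x ∧ x ∈ s} ×ˢ g.s)
      (fun p q => (∃ x y, DT.R p.1 x ∧ DT.R q.1 y ∧ r x y) ∧ g.r p.2 q.2)) {t : Set Y}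
    {r' : Y → Y → Prop} (h' : DQ k t r') :
    φ (clq k t r') = clq k (s ×ˢ t) (fun a b => r a.1 b.1 ∧ r' a.2 b.2) := by
  have h1 := FAI_cls h.good φ hφ h'.good
  unfold clq
  rw [h1]
  congr 1
  · ext ⟨a, b⟩
    constructor
    · rintro ⟨⟨x, hx, hxs⟩, ⟨y, hy, hyt⟩⟩
      exact ⟨(x, y), ⟨hx, hy⟩, hxs, hyt⟩
    · rintro ⟨⟨x, y⟩, ⟨hx, hy⟩, hxs, hyt⟩
      exact ⟨⟨x, hx, hxs⟩, ⟨y, hy, hyt⟩⟩
  · funext ⟨a, b⟩ ⟨c, d⟩
    apply propext
    constructor
    · rintro ⟨⟨x, y, hx, hy, hxy⟩, ⟨z, w, hz, hw, hzw⟩⟩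
      exact ⟨(x, z), (y, w), ⟨hx, hz⟩, ⟨hy, hw⟩, hxy, hzw⟩
    · rintro ⟨⟨x, z⟩, ⟨y, w⟩, ⟨hx, hz⟩, ⟨hy, hw⟩, hxy, hzw⟩
      exact ⟨⟨x, y, hx, hy, hxy⟩, ⟨z, w, hz, hw, hzw⟩⟩

theorem clq_prod_poly {s : Set X} {r : X → X → Prop} (h : DQ k s r) {t : Set Y}
    {r' : Y → Y → Prop} (h' : DQ k t r') {p : Polynomial ℤ} (hp : clq k t r' = p • ptc k) :
    clq k (s ×ˢ t) (fun a b => r a.1 b.1 ∧ r' a.2 b.2) = p • clq k s r := by
  obtain ⟨φ, hφ⟩ := FAI_exists h.good
  rw [← FAI_clq h φ hφ h', hp, FAI_poly h.good φ hφ]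
  congr 1
  have hu : DQ k (Set.univ : Set Unit) (fun x y => x = y) :=
    DQ.eq ((DM.const' True).congr_iff fun x => by simp)
  show φ (clq k (Set.univ : Set Unit) (fun x y => x = y)) = clq k s r
  rw [FAI_clq h φ hφ hu]
  refine clq_map (clq_prod_dq h hu) h (fun p => p.1) (by fun_prop) ?_ ?_ ?_
  · rintro ⟨x, u⟩ ⟨hx, -⟩
    exact hx
  · rintro ⟨x, u⟩ ⟨hx, -⟩ ⟨y, u'⟩ ⟨hy, -⟩
    exact ⟨fun h => h.1, fun h => ⟨h, rfl⟩⟩
  · intro x hx
    exact ⟨(x, ()), ⟨hx, trivial⟩, h.refl x hx⟩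

private theorem FAI_univ : DM k (fun x : X => x ∈ (Set.univ : Set X)) :=
  (DM.const' True).congr_iff fun x => by simp

private theorem FAI_wdq (n : ℕ) (w : Fin n → ℕ) (m : ℕ) :
    DQ k (Set.univ : Set (Fin n → k))
      (fun v u => ∃ c : kˣ, c ^ m = 1 ∧ ∀ i, u i = (c : k) ^ w i * v i) where
  ds := FAI_univ
  dr := by
    have h1 : DM k (fun p : (Fin n → k) × (Fin n → k) =>
        ∃ c : kˣ, c ^ m = 1 ∧ ∀ i, p.2 i = (c : k) ^ w i * p.1 i) :=
      DM.ex (DM.and (by fun_prop) (DM.fall fun i => by fun_prop))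
    exact h1.congr_iff fun p => by simp
  refl := fun x _ => ⟨1, one_pow _, fun i => by simp⟩
  symm := by
    rintro x - y - ⟨c, hc, h⟩
    refine ⟨c⁻¹, by rw [inv_pow, hc, inv_one], fun i => ?_⟩
    rw [h i, ← mul_assoc, ← mul_pow, Units.inv_mul, one_pow, one_mul]
  trans := by
    rintro x - y - z - ⟨c, hc, h⟩ ⟨c', hc', h'⟩
    refine ⟨c' * c, by rw [mul_pow, hc, hc', one_mul], fun i => ?_⟩
    rw [h' i, h i, Units.val_mul, mul_pow, mul_assoc]

private theorem FAI_root_fin (m : ℕ) (hm : 1 ≤ m) : {c : kˣ | c ^ m = 1}.Finite := by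
  have : NeZero m := ⟨by omega⟩
  have h0 : Finite (rootsOfUnity m k) := inferInstance
  have h1 : ((rootsOfUnity m k : Subgroup kˣ) : Set kˣ).Finite := Set.finite_coe_iff.1 h0
  refine h1.subset ?_
  intro c hc
  exact (mem_rootsOfUnity m c).2 hc

private theorem FAI_mult (n : ℕ) (w : Fin (n + 1) → ℕ) (m : ℕ) (hm : 1 ≤ m) :
    DMult k (Set.univ : Set (Fin n → k)) (fun v u c =>
      ∃ d : kˣ, d ^ m = 1 ∧ (∀ i, u i = (d : k) ^ w (Fin.succ i) * v i) ∧ c = d ^ w 0) where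
  ds := FAI_univ
  dR := by
    have h1 : DM k (fun p : (Fin n → k) × (Fin n → k) × kˣ =>
        ∃ d : kˣ, d ^ m = 1 ∧ (∀ i, p.2.1 i = (d : k) ^ w (Fin.succ i) * p.1 i) ∧
          p.2.2 = d ^ w 0) :=
      DM.ex (DM.and (by fun_prop) (DM.and (DM.fall fun i => by fun_prop) (by fun_prop)))
    exact h1.congr_iff fun p => by simp
  one := fun x _ => ⟨1, one_pow _, fun i => by simp, by simp⟩
  inv := by
    rintro x - y - c ⟨d, hd, h, rfl⟩
    refine ⟨d⁻¹, by rw [inv_pow, hd, inv_one], fun i => ?_, by rw [inv_pow]⟩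
    rw [h i, ← mul_assoc, ← mul_pow, Units.inv_mul, one_pow, one_mul]
  comp := by
    rintro x - y - z - c c' ⟨d, hd, h, rfl⟩ ⟨d', hd', h', rfl⟩
    refine ⟨d' * d, by rw [mul_pow, hd, hd', one_mul], fun i => ?_, by rw [mul_pow]⟩
    rw [h' i, h i, Units.val_mul, mul_pow, mul_assoc]
  fin := by
    intro x _
    refine (FAI_root_fin m hm).subset ?_
    rintro c ⟨d, hd, -, rfl⟩
    show (d ^ w 0) ^ m = 1
    rw [← pow_mul, mul_comm, pow_mul, hd, one_pow]

/-- The group of `m`-th roots of unity acting diagonally on `kⁿ`. -/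
theorem wlin (n : ℕ) (w : Fin n → ℕ) (m : ℕ) (hm : 1 ≤ m) :
    DQ k (Set.univ : Set (Fin n → k))
      (fun v u => ∃ c : kˣ, c ^ m = 1 ∧ ∀ i, u i = (c : k) ^ w i * v i) ∧
    clq k (Set.univ : Set (Fin n → k))
      (fun v u => ∃ c : kˣ, c ^ m = 1 ∧ ∀ i, u i = (c : k) ^ w i * v i) = L ^ n • ptc k := by
  refine ⟨FAI_wdq n w m, ?_⟩
  induction n with
  | zero =>
    rw [pow_zero, one_smul]
    exact clq_one_class (FAI_wdq 0 w m) (fun _ => 0) trivial
      (fun y _ => ⟨1, one_pow _, fun i => i.elim0⟩)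
  | succ n ih =>
    obtain ⟨-, h2, h3⟩ := line_DT (FAI_mult (k := k) n w m hm)
    have h4 : clq k (Set.univ : Set (Fin n → k)) (fun x y => ∃ c : kˣ,
        ∃ d : kˣ, d ^ m = 1 ∧ (∀ i, y i = (d : k) ^ w (Fin.succ i) * x i) ∧ c = d ^ w 0) =
        L ^ n • ptc k := by
      rw [← ih (fun i => w i.succ)]
      refine clq_congr ?_
      rintro x - y -
      constructor
      · rintro ⟨c, d, hd, h, -⟩
        exact ⟨d, hd, h⟩
      · rintro ⟨d, hd, h⟩
        exact ⟨d ^ w 0, d, hd, h, rfl⟩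
    rw [h4, smul_smul, ← pow_succ'] at h3
    rw [← h3]
    refine clq_map (FAI_wdq (n + 1) w m) h2 (fun v => (fun i => v i.succ, v 0)) (by fun_prop)
      ?_ ?_ ?_
    · rintro x -
      exact ⟨trivial, trivial⟩
    · rintro x - y -
      constructor
      · rintro ⟨c, hc, h⟩
        refine ⟨c ^ w 0, ⟨c, hc, fun i => h i.succ, rfl⟩, ?_⟩
        show y 0 = ((c ^ w 0 : kˣ) : k) * x 0
        rw [Units.val_pow_eq_pow_val]
        exact h 0
      · rintro ⟨c, ⟨d, hd, h, rfl⟩, h'⟩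
        refine ⟨d, hd, fun i => ?_⟩
        refine Fin.cases ?_ (fun j => ?_) i
        · have h5 : y 0 = ((d ^ w 0 : kˣ) : k) * x 0 := h'
          rw [Units.val_pow_eq_pow_val] at h5
          exact h5
        · exact h j
    · rintro ⟨v, a⟩ -
      refine ⟨Fin.cons a v, trivial, 1, ⟨1, one_pow _, fun i => ?_, by simp⟩, ?_⟩
      · simp
      · simp

private theorem FAI_pdq (n : ℕ) (m : Fin n → ℕ) :
    DQ k {v : Fin n → k | v ≠ 0} (fun v u => ∃ c : kˣ, ∀ i, u i = (c : k) ^ m i * v i) where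
  ds := by
    have h1 : DM k (fun v : Fin n → k => v ≠ 0) := DM.ne DM.id' (DM.const' 0)
    exact h1
  dr := by
    have h0 : DM k (fun v : Fin n → k => v ≠ 0) := DM.ne DM.id' (DM.const' 0)
    have h1 : DM k (fun p : (Fin n → k) × (Fin n → k) =>
        ∃ c : kˣ, ∀ i, p.2 i = (c : k) ^ m i * p.1 i) :=
      DM.ex (DM.fall fun i => by fun_prop)
    exact (DM.comp h0 (f := fun p : (Fin n → k) × (Fin n → k) => p.1) (DM.fst DM.id')).and
      ((DM.comp h0 (f := fun p : (Fin n → k) × (Fin n → k) => p.2) (DM.snd DM.id')).and h1)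
  refl := fun x _ => ⟨1, fun i => by simp⟩
  symm := by
    rintro x - y - ⟨c, h⟩
    refine ⟨c⁻¹, fun i => ?_⟩
    rw [h i, ← mul_assoc, ← mul_pow, Units.inv_mul, one_pow, one_mul]
  trans := by
    rintro x - y - z - ⟨c, h⟩ ⟨c', h'⟩
    refine ⟨c' * c, fun i => ?_⟩
    rw [h' i, h i, Units.val_mul, mul_pow, mul_assoc]

/-- Weighted projective spaces. -/
theorem wproj (n : ℕ) (m : Fin n → ℕ) (hm : ∀ i, 1 ≤ m i) :
    DQ k {v : Fin n → k | v ≠ 0} (fun v u => ∃ c : kˣ, ∀ i, u i = (c : k) ^ m i * v i) ∧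
    clq k {v : Fin n → k | v ≠ 0} (fun v u => ∃ c : kˣ, ∀ i, u i = (c : k) ^ m i * v i) =
      br n • ptc k := by
  refine ⟨FAI_pdq n m, ?_⟩
  induction n with
  | zero =>
    have h1 : {v : Fin 0 → k | v ≠ 0} = ∅ := by
      ext v
      simp only [Set.mem_ofPred_eq, Set.mem_empty_iff_false, iff_false, not_not]
      exact Subsingleton.elim _ _
    rw [h1, clq_empty, br, Finset.range_zero, Finset.sum_empty, zero_smul]
  | succ n ih =>
    have ht : DM k (fun v : Fin (n + 1) → k => v ∈ {v : Fin (n + 1) → k | v 0 = 0}) := by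
      have h1 : DM k (fun v : Fin (n + 1) → k => v 0 = 0) := by fun_prop
      exact h1
    have hd := FAI_pdq (k := k) (n + 1) m
    rw [clq_split hd {v : Fin (n + 1) → k | v 0 = 0} ht (by
      rintro x - y - ⟨c, h⟩ hx
      have hx' : x 0 = 0 := hx
      show y 0 = 0
      rw [h 0, hx', mul_zero])]
    have e1 : clq k ({v : Fin (n + 1) → k | v ≠ 0} ∩ {v | v 0 = 0})
        (fun v u => ∃ c : kˣ, ∀ i, u i = (c : k) ^ m i * v i) = br n • ptc k := by
      rw [← ih (fun i => m i.succ) (fun i => hm i.succ)]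
      refine clq_map (hd.inter ht) (FAI_pdq n (fun i => m i.succ)) (fun v i => v i.succ)
        (by fun_prop) ?_ ?_ ?_
      · rintro x ⟨hx, hx0⟩ h
        apply hx
        funext i
        refine Fin.cases hx0 (fun j => ?_) i
        exact congrFun h j
      · rintro x ⟨hx, hx0⟩ y ⟨hy, hy0⟩
        have hx0' : x 0 = 0 := hx0
        have hy0' : y 0 = 0 := hy0
        constructor
        · rintro ⟨c, h⟩
          exact ⟨c, fun i => h i.succ⟩
        · rintro ⟨c, h⟩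
          refine ⟨c, fun i => ?_⟩
          refine Fin.cases ?_ (fun j => h j) i
          rw [hx0', hy0', mul_zero]
      · intro y hy
        refine ⟨Fin.cons 0 y, ⟨?_, ?_⟩, 1, fun i => by simp⟩
        · intro h
          apply hy
          funext i
          have h1 := congrFun h i.succ
          simpa using h1
        · show (Fin.cons 0 y : Fin (n + 1) → k) 0 = 0
          rfl
    have e2 : clq k ({v : Fin (n + 1) → k | v ≠ 0} \ {v | v 0 = 0})
        (fun v u => ∃ c : kˣ, ∀ i, u i = (c : k) ^ m i * v i) = L ^ n • ptc k := by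
      obtain ⟨h1, h2⟩ := wlin (k := k) n (fun i => m i.succ) (m 0) (hm 0)
      rw [← h2]
      symm
      refine clq_map h1 (hd.diff ht) (fun v => (Fin.cons 1 v : Fin (n + 1) → k)) ?_ ?_ ?_ ?_
      · refine DM.pi fun i => ?_
        refine Fin.cases ?_ (fun j => ?_) i
        · exact DM.const' 1
        · exact DM.apply j
      · rintro x -
        refine ⟨fun h => ?_, fun h => ?_⟩
        · have h3 := congrFun h 0
          exact one_ne_zero h3
        · exact one_ne_zero (h : (1 : k) = 0)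
      · rintro x - y -
        constructor
        · rintro ⟨c, hc, h⟩
          refine ⟨c, fun i => ?_⟩
          refine Fin.cases ?_ (fun j => h j) i
          show (1 : k) = (c : k) ^ m 0 * 1
          rw [mul_one, ← Units.val_pow_eq_pow_val, hc, Units.val_one]
        · rintro ⟨c, h⟩
          refine ⟨c, ?_, fun i => h i.succ⟩
          have h3 : (1 : k) = (c : k) ^ m 0 * 1 := h 0
          rw [mul_one, ← Units.val_pow_eq_pow_val] at h3
          exact Units.ext h3.symm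
      · rintro y ⟨-, hy⟩
        have hy0 : y 0 ≠ 0 := hy
        obtain ⟨z, hz⟩ := IsAlgClosed.exists_pow_nat_eq (y 0) (hm 0)
        have hz0 : z ≠ 0 := by
          rintro rfl
          rw [zero_pow (by have := hm 0; omega)] at hz
          exact hy0 hz.symm
        refine ⟨fun i => y i.succ / z ^ m i.succ, trivial, Units.mk0 z hz0, fun i => ?_⟩
        refine Fin.cases ?_ (fun j => ?_) i
        · show y 0 = z ^ m 0 * 1
          rw [mul_one, hz]
        · show y j.succ = z ^ m j.succ * (y j.succ / z ^ m j.succ)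
          rw [mul_div_cancel₀ _ (pow_ne_zero _ hz0)]
    rw [e1, e2, ← add_smul, br, br, Finset.sum_range_succ]

end Pool.Agent.MRat
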