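import Pool.Agent.Lib.MP_923aff_ag.DTp
/-!
# Actions of finite groups on definable types and their projective representations: definitions
-/

set_option autoImplicit false

namespace Pool.Agent.MRat

open scoped MatrixGroups LinearAlgebra.Projectivization

/-- Finite dimensional definable vector spaces. -/
class FDM (k V : Type) [Field k] [IsAlgClosed k] [CharZero k] [AddCommGroup V] [Module k V]
    [DT k V] : Prop extends DMod k V where
  ex : ∃ (n : ℕ) (e : V ≃ₗ[k] (Fin n → k)), DM k e ∧ DM k e.symm

section
variable {k : Type} [Field k] [IsAlgClosed k] [CharZero k]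
variable {X Y Z : Type} [DT k X] [DT k Y] [DT k Z]
variable {V V' V0 V1 : Type} [AddCommGroup V] [Module k V] [DT k V]
  [AddCommGroup V'] [Module k V'] [DT k V'] [AddCommGroup V0] [Module k V0] [DT k V0]
  [AddCommGroup V1] [Module k V1] [DT k V1]

theorem FDM.fin (k V : Type) [Field k] [IsAlgClosed k] [CharZero k] [AddCommGroup V] [Module k V]
    [DT k V] [h : FDM k V] : Module.Finite k V := by
  obtain ⟨n, e, -, -⟩ := h.ex
  exact Module.Finite.equiv e.symm

instance : FDM k k where
  ex := ⟨1, (LinearEquiv.funUnique (Fin 1) k k).symm, by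
    refine DM.pi (fun i => ?_)
    exact DM.id', by
    exact DM.apply 0⟩

instance (n : ℕ) [FDM k V] : FDM k (Fin n → V) where
  ex := by
    obtain ⟨m, e, he, he'⟩ := FDM.ex (k := k) (V := V)
    let E : (Fin n → V) ≃ₗ[k] (Fin (n * m) → k) :=
      (LinearEquiv.piCongrRight (fun _ : Fin n => e)).trans
        ((LinearEquiv.curry k k (Fin n) (Fin m)).symm.trans
          (LinearEquiv.funCongrLeft k k finProdFinEquiv.symm))
    have hE : ∀ (f : Fin n → V) (p : Fin (n * m)), E f p =
        e (f (finProdFinEquiv.symm p).1) (finProdFinEquiv.symm p).2 := fun f p => rfl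
    refine ⟨n * m, E, ?_, ?_⟩
    · refine DM.pi (fun p => ?_)
      have h : DM k (fun f : Fin n → V => e (f (finProdFinEquiv.symm p).1)
        (finProdFinEquiv.symm p).2) := DM.comp (DM.apply _) (DM.comp he (DM.apply _))
      exact h.congr (fun f => (hE f p).symm)
    · have h1 : DM k (fun g : Fin (n * m) → k => fun i : Fin n =>
          e.symm (fun j : Fin m => g (finProdFinEquiv (i, j)))) :=
        DM.pi (fun i => DM.comp he' (DM.pi fun j => DM.apply _))
      refine h1.congr (fun g => ?_)
      rw [LinearEquiv.eq_symm_apply]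
      funext p
      rw [hE]
      simp only [LinearEquiv.apply_symm_apply]
      exact congrArg g (finProdFinEquiv.apply_symm_apply p)

/-- Linear maps of finite dimensional definable vector spaces are definable. -/
theorem lin_dm [FDM k V] [FDM k V'] (f : V →ₗ[k] V') : DM k f := by
  obtain ⟨n, e, he, he'⟩ := FDM.ex (k := k) (V := V)
  obtain ⟨m, e1, he1, he1'⟩ := FDM.ex (k := k) (V := V')
  have h1 : ∀ v, f v = e1.symm (∑ i, e v i • e1 (f (e.symm (Pi.single i 1)))) := by
    intro v
    rw [e1.eq_symm_apply]
    simp only [← map_smul, ← map_sum]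
    congr 2
    apply e.injective
    simp only [map_sum, map_smul, LinearEquiv.apply_symm_apply]
    exact pi_eq_sum_univ' (e v)
  refine DM.congr ?_ (fun v => (h1 v).symm)
  refine he1'.comp ?_
  refine DM.pi (fun j => ?_)
  have h2 : DM k (fun v : V => ∑ i, e v i * e1 (f (e.symm (Pi.single i 1))) j) := by
    refine DM.sum _ (fun i _ => ?_)
    exact DM.mul (DM.comp (DM.apply i) he) (DM.const' _)
  exact h2.congr (fun v => by simp [Finset.sum_apply])

instance [FDM k V] [FDM k V'] : FDM k (V × V') where
  ex := by
    obtain ⟨n, e, he, he'⟩ := FDM.ex (k := k) (V := V)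
    obtain ⟨m, e1, he1, he1'⟩ := FDM.ex (k := k) (V := V')
    let E : (V × V') ≃ₗ[k] (Fin (n + m) → k) :=
      (LinearEquiv.prodCongr e e1).trans
        ((LinearEquiv.sumArrowLequivProdArrow (Fin n) (Fin m) k k).symm.trans
          (LinearEquiv.funCongrLeft k k finSumFinEquiv.symm))
    refine ⟨n + m, E, ?_, ?_⟩
    · refine DM.pi (fun i => ?_)
      refine Fin.addCases (fun i => ?_) (fun i => ?_) i
      · have h : DM k (fun p : V × V' => e p.1 i) :=
          DM.comp (DM.apply i) (DM.comp he (DM.fst DM.id'))
        exact h.congr (fun p => by simp [E, LinearEquiv.sumArrowLequivProdArrow])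
      · have h : DM k (fun p : V × V' => e1 p.2 i) :=
          DM.comp (DM.apply i) (DM.comp he1 (DM.snd DM.id'))
        exact h.congr (fun p => by simp [E, LinearEquiv.sumArrowLequivProdArrow])
    · have h1 : DM k (fun f : Fin (n + m) → k => e.symm (fun i => f (Fin.castAdd m i))) :=
        DM.comp he' (DM.pi fun i => DM.apply _)
      have h2 : DM k (fun f : Fin (n + m) → k => e1.symm (fun i => f (Fin.natAdd n i))) :=
        DM.comp he1' (DM.pi fun i => DM.apply _)
      refine (h1.mk h2).congr (fun f => ?_)
      rw [LinearEquiv.eq_symm_apply]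
      funext i
      refine Fin.addCases (fun i => ?_) (fun i => ?_) i
      · simp [E, LinearEquiv.sumArrowLequivProdArrow]
      · simp [E, LinearEquiv.sumArrowLequivProdArrow]

end

/-- A definable action of the (finite) group `F`. -/
structure FAct (k F X : Type) [Field k] [IsAlgClosed k] [CharZero k] [Group F] [DT k X] where
  a : F → X → X
  a_one : ∀ x, a 1 x = x
  a_mul : ∀ g h x, a (g * h) x = a g (a h x)
  d : ∀ g, DM k (a g)

section
variable {k : Type} [Field k] [IsAlgClosed k] [CharZero k]
variable {F H : Type} [Group F] [Group H]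
variable {X Y Z : Type} [DT k X] [DT k Y] [DT k Z]
variable {V V' V0 V1 : Type} [AddCommGroup V] [Module k V] [DT k V]
  [AddCommGroup V'] [Module k V'] [DT k V'] [AddCommGroup V0] [Module k V0] [DT k V0]
  [AddCommGroup V1] [Module k V1] [DT k V1]

/-- The orbit relation. -/
def FAct.rel (A : FAct k F X) (x y : X) : Prop := ∃ g, A.a g x = y

/-- Stable definable subsets. -/
structure FAct.St (A : FAct k F X) (s : Set X) : Prop where
  ds : DM k (fun x => x ∈ s)
  st : ∀ g, ∀ x ∈ s, A.a g x ∈ s

/-- The class of `s / F`. -/
noncomputable def fcl (A : FAct k F X) (s : Set X) : MK k := clq k s A.rel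

/-- The diagonal action on a product. -/
@[simps] def FAct.prod (A : FAct k F X) (B : FAct k F Y) : FAct k F (X × Y) where
  a g p := (A.a g p.1, B.a g p.2)
  a_one p := by simp [A.a_one, B.a_one]
  a_mul g h p := by simp [A.a_mul, B.a_mul]
  d g := by
    have h1 := A.d g
    have h2 := B.d g
    exact DM.mk (DM.comp h1 (DM.fst DM.id')) (DM.comp h2 (DM.snd DM.id'))

/-- Pull back along a homomorphism of groups. -/
@[simps] def FAct.comap (A : FAct k F X) (φ : H →* F) : FAct k H X where
  a g x := A.a (φ g) x
  a_one x := by rw [map_one, A.a_one]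
  a_mul g h x := by rw [map_mul, A.a_mul]
  d g := A.d (φ g)

/-- The trivial action. -/
@[simps] def FAct.triv (k F X : Type) [Field k] [IsAlgClosed k] [CharZero k] [Group F] [DT k X] :
    FAct k F X where
  a _ x := x
  a_one _ := rfl
  a_mul _ _ _ := rfl
  d _ := DM.id'

omit [IsAlgClosed k] [CharZero k] [DT k V] in
theorem rep_inj (ρ : Representation k F V) (g : F) : Function.Injective (ρ g) := by
  intro v w h
  have h1 : ∀ v, ρ g⁻¹ (ρ g v) = v := fun v => by
    rw [← Module.End.mul_apply, ← map_mul, inv_mul_cancel, map_one, Module.End.one_apply]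
  rw [← h1 v, h, h1 w]

omit [IsAlgClosed k] [CharZero k] [DT k V] in
theorem rep_ne (ρ : Representation k F V) (g : F) {v : V} (hv : v ≠ 0) : ρ g v ≠ 0 :=
  fun h => hv (rep_inj ρ g (by rw [h, map_zero]))

/-- The action on the projective space of a representation. -/
noncomputable def PRep [FDM k V] (ρ : Representation k F V) : FAct k F (ℙ k V) where
  a g p := Projectivization.map (ρ g) (rep_inj ρ g) p
  a_one p := by
    induction p using Projectivization.ind with
    | h v hv => simp [Projectivization.map_mk]
  a_mul g h p := by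
    induction p using Projectivization.ind with
    | h v hv => simp [Projectivization.map_mk]
  d g := by
    have h1 : DM k (ρ g) := lin_dm (ρ g)
    have h2 : DM k (fun q : ℙ k V × Unit => Projectivization.map (ρ g) (rep_inj ρ g) q.1) := by
      refine DM.of_graph (R := fun q p => ∃ v : V, isrep v q.1 ∧ isrep (ρ g v) p) ?_ ?_
      · refine DM.ex ?_
        refine DM.and (DM.isrep (DM.snd DM.id') (by fun_prop)) (DM.isrep ?_ (by fun_prop))
        exact DM.comp h1 (by fun_prop)
      · rintro ⟨q, u⟩ p
        induction q using Projectivization.ind with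
        | h v hv => 
          constructor
          · rintro ⟨v', ⟨hv', h3⟩, ⟨hv2, h4⟩⟩
            rw [← h4]
            have h5 := congrArg (Projectivization.map (ρ g) (rep_inj ρ g)) h3
            exact h5
          · rintro rfl
            exact ⟨v, ⟨hv, rfl⟩, ⟨rep_ne ρ g hv, rfl⟩⟩
    exact DM.comp h2 (f := fun p : ℙ k V => (p, ())) (by fun_prop)

theorem PRep_mk [FDM k V] (ρ : Representation k F V) (g : F) {v : V} (hv : v ≠ 0) :
    (PRep ρ).a g (Projectivization.mk k v hv) = Projectivization.mk k (ρ g v) (rep_ne ρ g hv) := rfl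

/-- The projective bundle formula `[(s × P(V)) / F] = [dim V] [s / F]`. -/
def Nice [FDM k V] (A : FAct k F X) (s : Set X) (ρ : Representation k F V) : Prop :=
  fcl (A.prod (PRep ρ)) (s ×ˢ (Set.univ : Set (ℙ k V))) = br (Module.finrank k V) • fcl A s

/-- The projective bundle formula for all spaces on which `H` acts trivially. -/
def NiceOn [FDM k V] (H : Set F) (ρ : Representation k F V) : Prop :=
  ∀ (X : Type) [DT k X] (A : FAct k F X) (s : Set X), A.St s →
    (∀ h ∈ H, ∀ x ∈ s, A.a h x = x) → Nice A s ρ

end

end Pool.Agent.MRat
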