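import Pool.Agent.Lib.MP_923aff_ag.Forms
/-!
# JOB GCD: binary forms: products, substitution, roots, greatest common divisors

`lin v0` is the linear form vanishing at `v0`. Factorisation `Form.factor`: move `v0` to `(1, 0)` by a linear
substitution; a form vanishing at `(1, 0)` has no term `x ^ n`, so it is divisible by `y`.
`Form.exists_zero`: dehomogenise, a polynomial of degree less than `n` has the zero `(1, 0)`.
`SM.gcd_exists`: induction on `d`, dividing by `lin v0` for a common zero `v0`. `SM.gcd_unique`: induction on `g`: if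
`g = 0` then `h` is constant and `h'` has no zero, so `g' = 0`; a zero `v0` of `h` is a zero of `h'`, divide by `lin v0`.
-/

set_option autoImplicit false

namespace Pool.Agent.MRat

variable {k : Type} [Field k] [IsAlgClosed k] [CharZero k]

omit [IsAlgClosed k] [CharZero k] in
theorem Form.mem_iff {n : ℕ} {F : (Fin 2 → k) → k} : F ∈ Form k n ↔
    ∃ c : Fin (n + 1) → k, ∀ v, F v = ∑ i : Fin (n + 1), c i * (v 0 ^ (i : ℕ) * v 1 ^ (n - (i : ℕ))) := by
  constructor
  · rintro ⟨c, rfl⟩
    refine ⟨c, fun v => ?_⟩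
    show ∑ i : Fin (n + 1), c i * v 0 ^ (i : ℕ) * v 1 ^ (n - (i : ℕ)) = _
    exact Finset.sum_congr rfl fun i _ => mul_assoc _ _ _
  · rintro ⟨c, hc⟩
    refine ⟨c, funext fun v => ?_⟩
    show ∑ i : Fin (n + 1), c i * v 0 ^ (i : ℕ) * v 1 ^ (n - (i : ℕ)) = _
    rw [hc v]
    exact Finset.sum_congr rfl fun i _ => mul_assoc _ _ _

omit [IsAlgClosed k] [CharZero k] in
theorem Form.monom_mem {i j n : ℕ} (h : i + j = n) :
    (fun v : Fin 2 → k => v 0 ^ i * v 1 ^ j) ∈ Form k n := by
  classical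
  refine Form.mem_iff.2 ⟨Pi.single ⟨i, by omega⟩ 1, fun v => ?_⟩
  rw [Finset.sum_eq_single (⟨i, by omega⟩ : Fin (n + 1))]
  · rw [Pi.single_eq_same, one_mul]
    have : n - i = j := by omega
    simp only [this]
  · intro b _ hb
    rw [Pi.single_eq_of_ne hb, zero_mul]
  · intro hn
    exact absurd (Finset.mem_univ _) hn

omit [IsAlgClosed k] [CharZero k] in
theorem gcd_sum_mem {n : ℕ} {ι : Type*} (s : Finset ι) (f : ι → (Fin 2 → k) → k)
    (hf : ∀ i ∈ s, f i ∈ Form k n) : (fun v => ∑ i ∈ s, f i v) ∈ Form k n := by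
  have h := (Form k n).sum_mem hf
  have e : (∑ i ∈ s, f i) = fun v => ∑ i ∈ s, f i v := by
    funext v
    rw [Finset.sum_apply]
  rwa [e] at h

omit [IsAlgClosed k] [CharZero k] in
theorem gcd_cmul_mem {n : ℕ} {f : (Fin 2 → k) → k} (hf : f ∈ Form k n) (c : k) :
    (fun v => c * f v) ∈ Form k n := (Form k n).smul_mem c hf

omit [IsAlgClosed k] [CharZero k] in
theorem Form.mul_mem {m n l : ℕ} (h : m + n = l) {F G : (Fin 2 → k) → k} (hF : F ∈ Form k m)
    (hG : G ∈ Form k n) : (fun v => F v * G v) ∈ Form k l := by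
  obtain ⟨c, hc⟩ := Form.mem_iff.1 hF
  obtain ⟨d, hd⟩ := Form.mem_iff.1 hG
  have e : (fun v => F v * G v) = fun v => ∑ i : Fin (m + 1), ∑ j : Fin (n + 1),
      (c i * d j) * (v 0 ^ ((i : ℕ) + (j : ℕ)) * v 1 ^ ((m - (i : ℕ)) + (n - (j : ℕ)))) := by
    funext v
    rw [hc, hd, Finset.sum_mul_sum]
    refine Finset.sum_congr rfl fun i _ => Finset.sum_congr rfl fun j _ => ?_
    rw [pow_add, pow_add]
    ring
  rw [e]
  refine gcd_sum_mem _ _ fun i _ => gcd_sum_mem _ _ fun j _ => gcd_cmul_mem (Form.monom_mem ?_) _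
  have := i.2
  have := j.2
  omega

omit [IsAlgClosed k] [CharZero k] in
theorem gcd_pow_mem {F : (Fin 2 → k) → k} (hF : F ∈ Form k 1) (n : ℕ) :
    (fun v => F v ^ n) ∈ Form k n := by
  induction n with
  | zero =>
    have h := Form.monom_mem (k := k) (i := 0) (j := 0) (n := 0) rfl
    simpa using h
  | succ n ih =>
    have h := Form.mul_mem (rfl : n + 1 = n + 1) ih hF
    have e : (fun v => F v ^ (n + 1)) = fun v => F v ^ n * F v := by
      funext v
      rw [pow_succ]
    rw [e]
    exact h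

omit [IsAlgClosed k] [CharZero k] in
theorem gcd_linear_mem (a b : k) : (fun v : Fin 2 → k => a * v 0 + b * v 1) ∈ Form k 1 := by
  refine Form.mem_iff.2 ⟨![b, a], fun v => ?_⟩
  rw [Fin.sum_univ_two]
  simp
  ring

omit [IsAlgClosed k] [CharZero k] in
theorem Form.comp_mem {n : ℕ} {F : (Fin 2 → k) → k} (hF : F ∈ Form k n)
    (A : Matrix (Fin 2) (Fin 2) k) : (fun v => F (A.mulVec v)) ∈ Form k n := by
  obtain ⟨c, hc⟩ := Form.mem_iff.1 hF
  have hA : ∀ (v : Fin 2 → k) (i : Fin 2), A.mulVec v i = A i 0 * v 0 + A i 1 * v 1 := by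
    intro v i
    rw [Matrix.mulVec, dotProduct, Fin.sum_univ_two]
  have e : (fun v => F (A.mulVec v)) = fun v => ∑ i : Fin (n + 1), c i *
      ((A 0 0 * v 0 + A 0 1 * v 1) ^ (i : ℕ) * (A 1 0 * v 0 + A 1 1 * v 1) ^ (n - (i : ℕ))) := by
    funext v
    rw [hc, hA, hA]
  rw [e]
  refine gcd_sum_mem _ _ fun i _ => gcd_cmul_mem (Form.mul_mem ?_ (gcd_pow_mem (gcd_linear_mem _ _) _)
    (gcd_pow_mem (gcd_linear_mem _ _) _)) _
  have := i.2
  omega

omit [IsAlgClosed k] [CharZero k] in
theorem Form.hom {n : ℕ} {F : (Fin 2 → k) → k} (hF : F ∈ Form k n) (c : k) (v : Fin 2 → k) :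
    F (c • v) = c ^ n * F v := by
  obtain ⟨a, ha⟩ := Form.mem_iff.1 hF
  rw [ha, ha, Finset.mul_sum]
  refine Finset.sum_congr rfl fun i _ => ?_
  simp only [Pi.smul_apply, smul_eq_mul]
  rw [mul_pow, mul_pow]
  have : c ^ n = c ^ (i : ℕ) * c ^ (n - (i : ℕ)) := by
    rw [← pow_add]
    congr 1
    have := i.2
    omega
  rw [this]
  ring

/-- The linear form vanishing at `v0`. -/
def lin (v0 : Fin 2 → k) (v : Fin 2 → k) : k := v0 0 * v 1 - v0 1 * v 0

omit [IsAlgClosed k] [CharZero k] in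
theorem lin_mem (v0 : Fin 2 → k) : lin v0 ∈ Form k 1 := by
  have h := gcd_linear_mem (- v0 1) (v0 0)
  have e : lin v0 = fun v : Fin 2 → k => (- v0 1) * v 0 + v0 0 * v 1 := by
    funext v
    unfold lin
    ring
  rw [e]
  exact h

omit [IsAlgClosed k] [CharZero k] in
theorem lin_eq_zero {v0 v : Fin 2 → k} (h0 : v0 ≠ 0) : lin v0 v = 0 ↔ ∃ c : k, v = c • v0 := by
  constructor
  · intro h
    unfold lin at h
    by_cases h1 : v0 0 = 0
    · have h2 : v0 1 ≠ 0 := by
        intro h2
        apply h0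
        funext i
        fin_cases i
        · exact h1
        · exact h2
      rw [h1, zero_mul, zero_sub, neg_eq_zero] at h
      have h3 : v 0 = 0 := (mul_eq_zero.1 h).resolve_left h2
      refine ⟨v 1 / v0 1, ?_⟩
      funext i
      fin_cases i
      · show v 0 = v 1 / v0 1 * v0 0
        rw [h1, h3, mul_zero]
      · show v 1 = v 1 / v0 1 * v0 1
        field_simp
    · refine ⟨v 0 / v0 0, ?_⟩
      funext i
      fin_cases i
      · show v 0 = v 0 / v0 0 * v0 0
        field_simp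
      · show v 1 = v 0 / v0 0 * v0 1
        field_simp
        linear_combination h
  · rintro ⟨c, rfl⟩
    unfold lin
    simp only [Pi.smul_apply, smul_eq_mul]
    ring

omit [IsAlgClosed k] [CharZero k] in
theorem Form.factor {n : ℕ} {F : (Fin 2 → k) → k} (hF : F ∈ Form k (n + 1)) {v0 : Fin 2 → k}
    (h0 : v0 ≠ 0) (h : F v0 = 0) : ∃ G ∈ Form k n, ∀ v, F v = lin v0 v * G v := by
  -- a matrix of determinant one moving `v0` to `(1, 0)`
  obtain ⟨a, b, hab⟩ : ∃ a b : k, a * v0 0 + b * v0 1 = 1 := by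
    by_cases h1 : v0 0 = 0
    · have h2 : v0 1 ≠ 0 := by
        intro h2
        apply h0
        funext i
        fin_cases i
        · exact h1
        · exact h2
      exact ⟨0, (v0 1)⁻¹, by rw [zero_mul, zero_add, inv_mul_cancel₀ h2]⟩
    · exact ⟨(v0 0)⁻¹, 0, by rw [zero_mul, add_zero, inv_mul_cancel₀ h1]⟩
  set A : Matrix (Fin 2) (Fin 2) k := !![a, b; -v0 1, v0 0] with hA
  set Ai : Matrix (Fin 2) (Fin 2) k := !![v0 0, -b; v0 1, a] with hAi
  have hAA : ∀ v : Fin 2 → k, Ai.mulVec (A.mulVec v) = v := by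
    intro v
    funext i
    fin_cases i
    · simp [hA, hAi, Matrix.mulVec, dotProduct, Fin.sum_univ_two]
      linear_combination (v 0) * hab
    · simp [hA, hAi, Matrix.mulVec, dotProduct, Fin.sum_univ_two]
      linear_combination (v 1) * hab
  have hA1 : ∀ v : Fin 2 → k, A.mulVec v 1 = lin v0 v := by
    intro v
    unfold lin
    simp [hA, Matrix.mulVec, dotProduct, Fin.sum_univ_two]
    ring
  have hF' := Form.comp_mem hF Ai
  obtain ⟨c, hc⟩ := Form.mem_iff.1 hF'
  have hAv0 : Ai.mulVec ![1, 0] = v0 := by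
    funext i
    fin_cases i
    · simp [hAi, Matrix.mulVec, dotProduct, Fin.sum_univ_two]
    · simp [hAi, Matrix.mulVec, dotProduct, Fin.sum_univ_two]
  have hlast : c (Fin.last (n + 1)) = 0 := by
    have h1 := hc ![1, 0]
    beta_reduce at h1
    rw [hAv0, h, Fin.sum_univ_castSucc] at h1
    have h2 : ∑ i : Fin (n + 1), c i.castSucc * ((![1, 0] : Fin 2 → k) 0 ^ ((i.castSucc : Fin (n + 2)) : ℕ) *
        (![1, 0] : Fin 2 → k) 1 ^ (n + 1 - ((i.castSucc : Fin (n + 2)) : ℕ))) = 0 := by
      refine Finset.sum_eq_zero fun i _ => ?_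
      have h3 : n + 1 - ((i.castSucc : Fin (n + 2)) : ℕ) ≠ 0 := by
        have := i.2
        rw [Fin.val_castSucc]
        omega
      have h4 : (![1, 0] : Fin 2 → k) 1 = 0 := rfl
      rw [h4, zero_pow h3, mul_zero, mul_zero]
    rw [h2] at h1
    simpa using h1.symm
  set G' : (Fin 2 → k) → k := fun w => ∑ i : Fin (n + 1), c i.castSucc *
    (w 0 ^ (i : ℕ) * w 1 ^ (n - (i : ℕ))) with hG'
  have hG'mem : G' ∈ Form k n := Form.mem_iff.2 ⟨fun i => c i.castSucc, fun v => rfl⟩
  refine ⟨fun v => G' (A.mulVec v), Form.comp_mem hG'mem A, fun v => ?_⟩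
  have h1 := hc (A.mulVec v)
  beta_reduce at h1
  rw [hAA, Fin.sum_univ_castSucc, hlast, zero_mul, add_zero] at h1
  rw [h1]
  show _ = lin v0 v * ∑ i : Fin (n + 1), c i.castSucc *
    (A.mulVec v 0 ^ (i : ℕ) * A.mulVec v 1 ^ (n - (i : ℕ)))
  rw [Finset.mul_sum, ← hA1]
  refine Finset.sum_congr rfl fun i _ => ?_
  have h3 : n + 1 - ((i.castSucc : Fin (n + 2)) : ℕ) = (n - (i : ℕ)) + 1 := by
    have := i.2
    rw [Fin.val_castSucc]
    omega
  rw [h3, pow_succ, Fin.val_castSucc]
  ring

omit [CharZero k] in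
theorem Form.exists_zero {n : ℕ} {F : (Fin 2 → k) → k} (hF : F ∈ Form k (n + 1)) :
    ∃ v0 : Fin 2 → k, v0 ≠ 0 ∧ F v0 = 0 := by
  obtain ⟨c, hc⟩ := Form.mem_iff.1 hF
  by_cases hlast : c (Fin.last (n + 1)) = 0
  · refine ⟨![1, 0], ?_, ?_⟩
    · intro h
      have := congrFun h 0
      simp at this
    · rw [hc, Fin.sum_univ_castSucc, hlast, zero_mul, add_zero]
      refine Finset.sum_eq_zero fun i _ => ?_
      have h3 : n + 1 - ((i.castSucc : Fin (n + 2)) : ℕ) ≠ 0 := by
        have := i.2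
        rw [Fin.val_castSucc]
        omega
      have h4 : (![1, 0] : Fin 2 → k) 1 = 0 := rfl
      rw [h4, zero_pow h3, mul_zero, mul_zero]
  · let p : Polynomial k := ∑ i : Fin (n + 2), Polynomial.monomial (i : ℕ) (c i)
    have hcoeff : p.coeff (n + 1) = c (Fin.last (n + 1)) := by
      show (∑ i : Fin (n + 2), Polynomial.monomial (i : ℕ) (c i)).coeff (n + 1) = _
      rw [Polynomial.finsetSum_coeff, Finset.sum_eq_single (Fin.last (n + 1))]
      · rw [Polynomial.coeff_monomial, if_pos]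
        simp
      · intro b _ hb
        rw [Polynomial.coeff_monomial, if_neg]
        intro h
        apply hb
        apply Fin.ext
        simpa using h
      · intro h
        exact absurd (Finset.mem_univ _) h
    have hdeg : p.degree ≠ 0 := by
      have h1 : ((n + 1 : ℕ) : WithBot ℕ) ≤ p.degree := by
        apply Polynomial.le_degree_of_ne_zero
        rw [hcoeff]
        exact hlast
      intro h
      rw [h] at h1
      have : ((n + 1 : ℕ) : WithBot ℕ) ≤ ((0 : ℕ) : WithBot ℕ) := h1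
      rw [Nat.cast_le] at this
      omega
    obtain ⟨x, hx⟩ := IsAlgClosed.exists_root p hdeg
    refine ⟨![x, 1], ?_, ?_⟩
    · intro h
      have := congrFun h 1
      simp at this
    · rw [hc]
      have h1 : p.eval x = ∑ i : Fin (n + 2), c i * x ^ (i : ℕ) := by
        show (∑ i : Fin (n + 2), Polynomial.monomial (i : ℕ) (c i)).eval x = _
        rw [Polynomial.eval_finsetSum]
        refine Finset.sum_congr rfl fun i _ => ?_
        rw [Polynomial.eval_monomial]
      have h2 : p.eval x = 0 := hx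
      rw [← h2, h1]
      refine Finset.sum_congr rfl fun i _ => ?_
      have h4 : (![x, 1] : Fin 2 → k) 1 = 1 := rfl
      have h5 : (![x, 1] : Fin 2 → k) 0 = x := rfl
      rw [h4, h5, one_pow, mul_one]

omit [IsAlgClosed k] [CharZero k] in
theorem Form.const {F : (Fin 2 → k) → k} (hF : F ∈ Form k 0) : ∃ c : k, ∀ v, F v = c := by
  obtain ⟨c, hc⟩ := Form.mem_iff.1 hF
  refine ⟨c 0, fun v => ?_⟩
  rw [hc]
  simp

omit [CharZero k] in
/-- A nonzero form of degree `n` has at most `n` zeros on the projective line. -/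
theorem Form.zeros_finite {n : ℕ} {F : (Fin 2 → k) → k} (hF : F ∈ Form k n) (h0 : F ≠ 0) :
    ∃ Z : Finset (Fin 2 → k), Z.card ≤ n ∧ (∀ z ∈ Z, z ≠ 0) ∧
      ∀ v : Fin 2 → k, v ≠ 0 → F v = 0 → ∃ z ∈ Z, ∃ c : k, v = c • z := by
  classical
  induction n generalizing F with
  | zero =>
    obtain ⟨c, hc⟩ := Form.const hF
    refine ⟨∅, le_rfl, by simp, fun v _ hv => ?_⟩
    exfalso
    apply h0
    funext w
    rw [hc w, ← hc v, hv]
    rfl
  | succ n ih =>
    obtain ⟨v0, hv0, hFv0⟩ := Form.exists_zero hF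
    obtain ⟨G, hG, hFG⟩ := Form.factor hF hv0 hFv0
    have hG0 : G ≠ 0 := by
      rintro rfl
      apply h0
      funext v
      rw [hFG]
      exact mul_zero _
    obtain ⟨Z, hZ1, hZ2, hZ3⟩ := ih hG hG0
    refine ⟨insert v0 Z, ?_, ?_, ?_⟩
    · exact (Finset.card_insert_le _ _).trans (by omega)
    · intro z hz
      rcases Finset.mem_insert.1 hz with h | h
      · rw [h]; exact hv0
      · exact hZ2 z h
    · intro v hv hFv
      rw [hFG] at hFv
      rcases mul_eq_zero.1 hFv with h | h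
      · exact ⟨v0, Finset.mem_insert_self _ _, (lin_eq_zero hv0).1 h⟩
      · obtain ⟨z, hz, hc⟩ := hZ3 v hv h
        exact ⟨z, Finset.mem_insert_of_mem hz, hc⟩

omit [CharZero k] in
theorem gcd_exists_off (Z : Finset (Fin 2 → k)) : ∃ v : Fin 2 → k, v ≠ 0 ∧
    ∀ z ∈ Z, ∀ c : k, v ≠ c • z := by
  classical
  have : Infinite k := IsAlgClosed.instInfinite
  obtain ⟨x, hx⟩ := Infinite.exists_notMem_finset (Z.image fun z => z 0 / z 1)
  refine ⟨![x, 1], ?_, ?_⟩
  · intro h
    have := congrFun h 1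
    simp at this
  · intro z hz c h
    apply hx
    refine Finset.mem_image.2 ⟨z, hz, ?_⟩
    have h0 : x = c * z 0 := congrFun h 0
    have h1 : 1 = c * z 1 := congrFun h 1
    have h2 : z 1 ≠ 0 := by
      intro h2
      rw [h2, mul_zero] at h1
      exact one_ne_zero h1
    rw [div_eq_iff h2]
    linear_combination (-z 1) * h0 + z 0 * h1

omit [CharZero k] in
theorem Form.mul_ne_zero {m n : ℕ} {F G : (Fin 2 → k) → k} (hF : F ∈ Form k m) (hG : G ∈ Form k n)
    (hF0 : F ≠ 0) (hG0 : G ≠ 0) : (fun v => F v * G v) ≠ 0 := by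
  classical
  obtain ⟨Z1, -, -, h1⟩ := Form.zeros_finite hF hF0
  obtain ⟨Z2, -, -, h2⟩ := Form.zeros_finite hG hG0
  obtain ⟨v, hv, hoff⟩ := gcd_exists_off (Z1 ∪ Z2)
  intro h
  have h3 : F v * G v = 0 := congrFun h v
  rcases mul_eq_zero.1 h3 with h4 | h4
  · obtain ⟨z, hz, c, hc⟩ := h1 v hv h4
    exact hoff z (Finset.mem_union_left _ hz) c hc
  · obtain ⟨z, hz, c, hc⟩ := h2 v hv h4
    exact hoff z (Finset.mem_union_right _ hz) c hc

omit [CharZero k] in
/-- Forms are determined by their values off the zero set of a nonzero form. -/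
theorem Form.cancel {m n : ℕ} {h F G : (Fin 2 → k) → k} (hh : h ∈ Form k m) (h0 : h ≠ 0)
    (hF : F ∈ Form k n) (hG : G ∈ Form k n) (e : ∀ v, h v * F v = h v * G v) : F = G := by
  by_contra hne
  have h1 : F - G ≠ 0 := sub_ne_zero.2 hne
  apply Form.mul_ne_zero hh ((Form k n).sub_mem hF hG) h0 h1
  funext v
  show h v * (F v - G v) = 0
  rw [mul_sub, e, sub_self]

omit [IsAlgClosed k] [CharZero k] in
theorem SM.mul_mem {m n l : ℕ} (h : m + n = l) {H : (Fin 2 → k) → k}
    {F : (Fin 2 → k) → (Fin 2 → k)} (hH : H ∈ Form k m) (hF : F ∈ SM k n) :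
    (fun v => H v • F v) ∈ SM k l := fun i => Form.mul_mem h hH (hF i)

omit [IsAlgClosed k] [CharZero k] in
theorem SM.comp_mem {n : ℕ} {F : (Fin 2 → k) → (Fin 2 → k)} (hF : F ∈ SM k n)
    (A B : Matrix (Fin 2) (Fin 2) k) : (fun v => A.mulVec (F (B.mulVec v))) ∈ SM k n := by
  intro i
  exact gcd_sum_mem (n := n) Finset.univ (fun j v => A i j * F (B.mulVec v) j)
    fun j _ => gcd_cmul_mem (Form.comp_mem (hF j) B) _

omit [IsAlgClosed k] [CharZero k] in
theorem SM.hom {n : ℕ} {F : (Fin 2 → k) → (Fin 2 → k)} (hF : F ∈ SM k n) (c : k) (v : Fin 2 → k) :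
    F (c • v) = c ^ n • F v := by
  funext i
  exact Form.hom (hF i) c v

/-- `F` has no zero on the projective line. -/
def Cop (F : (Fin 2 → k) → (Fin 2 → k)) : Prop := ∀ v : Fin 2 → k, v ≠ 0 → F v ≠ 0

omit [CharZero k] in
theorem SM.gcd_exists {d : ℕ} {F : (Fin 2 → k) → (Fin 2 → k)} (hF : F ∈ SM k d) (h0 : F ≠ 0) :
    ∃ g ≤ d, ∃ h ∈ Form k g, ∃ F' ∈ SM k (d - g), h ≠ 0 ∧ Cop F' ∧ ∀ v, F v = h v • F' v := by
  induction d generalizing F with
  | zero =>
    refine ⟨0, le_rfl, fun v => v 0 ^ 0 * v 1 ^ 0, Form.monom_mem rfl, F, hF, ?_, ?_, ?_⟩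
    · intro h
      have := congrFun h 0
      simp at this
    · intro v hv hFv
      apply h0
      funext w i
      obtain ⟨c, hc⟩ := Form.const (hF i)
      have h1 : F v i = c := hc v
      have h2 : F w i = c := hc w
      rw [h2, ← h1, hFv]
      rfl
    · intro v
      simp
  | succ d ih =>
    by_cases hcop : Cop F
    · refine ⟨0, Nat.zero_le _, fun v => v 0 ^ 0 * v 1 ^ 0, Form.monom_mem rfl, F, hF, ?_, hcop, ?_⟩
      · intro h
        have := congrFun h 0
        simp at this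
      · intro v
        simp
    · unfold Cop at hcop
      push Not at hcop
      obtain ⟨v0, hv0, hFv0⟩ := hcop
      have hfac : ∀ i : Fin 2, ∃ G ∈ Form k d, ∀ v, F v i = lin v0 v * G v := fun i =>
        Form.factor (hF i) hv0 (congrFun hFv0 i)
      choose G hG hFG using hfac
      have hGmem : (fun v i => G i v) ∈ SM k d := fun i => hG i
      have hG0 : (fun v i => G i v) ≠ (0 : (Fin 2 → k) → (Fin 2 → k)) := by
        intro h
        apply h0
        funext v i
        rw [hFG]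
        have h1 : G i v = 0 := congrFun (congrFun h v) i
        rw [h1, mul_zero]
        rfl
      obtain ⟨g, hg, h, hh, F', hF', hne, hcop', heq⟩ := ih hGmem hG0
      refine ⟨g + 1, by omega, fun v => lin v0 v * h v, Form.mul_mem (by omega) (lin_mem v0) hh, F', ?_,
        Form.mul_ne_zero (lin_mem v0) hh ?_ hne, hcop', ?_⟩
      · have e : d + 1 - (g + 1) = d - g := by omega
        rw [e]
        exact hF'
      · intro hl
        apply h0
        funext v i
        rw [hFG, hl]
        exact zero_mul _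
      · intro v
        funext i
        rw [hFG]
        have h1 : G i v = h v * F' v i := congrFun (heq v) i
        rw [h1]
        show _ = (lin v0 v * h v) * F' v i
        ring

omit [CharZero k] in
theorem SM.gcd_unique {g g' e e' : ℕ} (hge : g + e = g' + e') {h h' : (Fin 2 → k) → k}
    {F F' : (Fin 2 → k) → (Fin 2 → k)} (hh : h ∈ Form k g) (hh' : h' ∈ Form k g')
    (hF : F ∈ SM k e) (hF' : F' ∈ SM k e') (h0 : h ≠ 0) (h0' : h' ≠ 0) (cF : Cop F) (cF' : Cop F')
    (eq : ∀ v, h v • F v = h' v • F' v) :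
    g = g' ∧ ∃ c : kˣ, (∀ v, h' v = c * h v) ∧ ∀ v, F v = (c : k) • F' v := by
  have hz : ∀ {h h' : (Fin 2 → k) → k} (_ : ∀ v, h v • F v = h' v • F' v) (v : Fin 2 → k),
      v ≠ 0 → h v = 0 → h' v = 0 := by
    intro h h' eq v hv hv0
    have h1 := eq v
    rw [hv0, zero_smul] at h1
    by_contra hne
    exact (smul_ne_zero hne (cF' v hv)) h1.symm
  induction g generalizing g' h h' with
  | zero =>
    obtain ⟨c, hc⟩ := Form.const hh
    have hc0 : c ≠ 0 := by
      rintro rfl
      exact h0 (funext hc)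
    have hg' : g' = 0 := by
      by_contra hne
      obtain ⟨g1, rfl⟩ : ∃ g1, g' = g1 + 1 := ⟨g' - 1, by omega⟩
      obtain ⟨v0, hv0, hv0'⟩ := Form.exists_zero hh'
      have h1 := eq v0
      rw [hv0', zero_smul, hc] at h1
      exact (smul_ne_zero hc0 (cF v0 hv0)) h1
    subst hg'
    obtain ⟨c', hc'⟩ := Form.const hh'
    have hc0' : c' ≠ 0 := by
      rintro rfl
      exact h0' (funext hc')
    refine ⟨rfl, Units.mk0 (c' / c) (div_ne_zero hc0' hc0), fun v => ?_, fun v => ?_⟩
    · rw [hc, hc', Units.val_mk0]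
      field_simp
    · have h1 := eq v
      rw [hc, hc'] at h1
      rw [Units.val_mk0, div_eq_inv_mul, mul_smul, ← h1, smul_smul, inv_mul_cancel₀ hc0, one_smul]
  | succ g ih =>
    obtain ⟨v0, hv0, hv0'⟩ := Form.exists_zero hh
    have h1 := hz eq v0 hv0 hv0'
    have hg' : g' ≠ 0 := by
      rintro rfl
      obtain ⟨c', hc'⟩ := Form.const hh'
      apply h0'
      funext v
      rw [hc', ← hc' v0, h1]
      rfl
    obtain ⟨g1, rfl⟩ : ∃ g1, g' = g1 + 1 := ⟨g' - 1, by omega⟩
    obtain ⟨G, hG, hGe⟩ := Form.factor hh hv0 hv0'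
    obtain ⟨G', hG', hGe'⟩ := Form.factor hh' hv0 h1
    have hl : lin v0 ≠ 0 := by
      intro hl
      apply h0
      funext v
      rw [hGe, hl]
      exact zero_mul _
    have hG0 : G ≠ 0 := by
      rintro rfl
      apply h0
      funext v
      rw [hGe]
      exact mul_zero _
    have hG0' : G' ≠ 0 := by
      rintro rfl
      apply h0'
      funext v
      rw [hGe']
      exact mul_zero _
    have hge' : g + e = g1 + e' := by omega
    have eq' : ∀ v, G v • F v = G' v • F' v := by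
      intro v
      funext i
      have hc := Form.cancel (lin_mem v0) hl (F := fun v => G v * F v i) (G := fun v => G' v * F' v i)
        (Form.mul_mem rfl hG (hF i)) (Form.mul_mem hge'.symm hG' (hF' i)) (by
          intro w
          have h2 : h w * F w i = h' w * F' w i := congrFun (eq w) i
          rw [hGe, hGe'] at h2
          show lin v0 w * (G w * F w i) = lin v0 w * (G' w * F' w i)
          linear_combination h2)
      exact congrFun hc v
    obtain ⟨hgg, c, hc1, hc2⟩ := ih hge' hG hG' hG0 hG0' eq'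
    refine ⟨by omega, c, fun v => ?_, hc2⟩
    rw [hGe, hGe', hc1]
    ring

omit [CharZero k] in
/-- The fixed form of a coprime pair of degree at least `2` does not vanish identically. -/
theorem SM.fix_ne_zero {d : ℕ} (hd : 2 ≤ d) {F : (Fin 2 → k) → (Fin 2 → k)} (hF : F ∈ SM k d)
    (cF : Cop F) : (fun v => lin v (F v)) ∈ Form k (d + 1) ∧ (fun v => lin v (F v)) ≠ 0 := by
  have hx : (fun v : Fin 2 → k => v 0) ∈ Form k 1 := by
    have := gcd_linear_mem (1 : k) 0
    simpa using this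
  have hy : (fun v : Fin 2 → k => v 1) ∈ Form k 1 := by
    have := gcd_linear_mem (0 : k) 1
    simpa using this
  refine ⟨?_, fun hzero => ?_⟩
  · have h1 := Form.mul_mem (l := d + 1) (by omega) hx (hF 1)
    have h2 := Form.mul_mem (l := d + 1) (by omega) hy (hF 0)
    have h3 := (Form k (d + 1)).sub_mem h1 h2
    have e : (fun v => lin v (F v)) = (fun v => v 0 * F v 1) - fun v => v 1 * F v 0 := by
      funext v
      rfl
    rw [e]
    exact h3
  · have hz : ∀ v, v 0 * F v 1 = v 1 * F v 0 := fun v => sub_eq_zero.1 (congrFun hzero v)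
    obtain ⟨d', rfl⟩ : ∃ d', d = d' + 2 := ⟨d - 2, by omega⟩
    have hv0 : (![0, 1] : Fin 2 → k) ≠ 0 := by
      intro h
      have := congrFun h 1
      simp at this
    have h1 : F ![0, 1] 0 = 0 := by
      have := hz ![0, 1]
      simpa using this.symm
    obtain ⟨G, hG, hFG⟩ := Form.factor (hF 0) hv0 h1
    have hlin : ∀ v : Fin 2 → k, lin ![0, 1] v = - v 0 := by
      intro v
      unfold lin
      simp
    have hF0 : ∀ v, F v 0 = - v 0 * G v := fun v => by
      have h2 := hFG v
      rw [hlin] at h2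
      exact h2
    have hx0 : (fun v : Fin 2 → k => v 0) ≠ 0 := by
      intro h
      have := congrFun h ![1, 0]
      simp at this
    have hF1 : (fun v => F v 1) = fun v => - v 1 * G v := by
      refine Form.cancel hx hx0 (hF 1) ?_ ?_
      · have h2 := Form.mul_mem (l := d' + 2) (by omega) hy hG
        have h3 := (Form k (d' + 2)).neg_mem h2
        have e : (fun v : Fin 2 → k => - v 1 * G v) = - fun v => v 1 * G v := by
          funext v
          show - v 1 * G v = - (v 1 * G v)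
          ring
        rw [e]
        exact h3
      · intro v
        show v 0 * F v 1 = v 0 * (- v 1 * G v)
        rw [hz, hF0]
        ring
    obtain ⟨w, hw, hGw⟩ := Form.exists_zero hG
    apply cF w hw
    funext i
    fin_cases i
    · show F w 0 = 0
      rw [hF0, hGw, mul_zero]
    · show F w 1 = 0
      have := congrFun hF1 w
      beta_reduce at this
      rw [this, hGw, mul_zero]

omit [CharZero k] in
/-- A coprime pair of positive degree is onto, projectively. -/
theorem SM.onto {d : ℕ} (hd : 1 ≤ d) {F : (Fin 2 → k) → (Fin 2 → k)} (hF : F ∈ SM k d)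
    (cF : Cop F) (w : Fin 2 → k) (hw : w ≠ 0) : ∃ v : Fin 2 → k, v ≠ 0 ∧ F v = w := by
  obtain ⟨d', rfl⟩ : ∃ d', d = d' + 1 := ⟨d - 1, by omega⟩
  have hL : (fun v => lin w (F v)) ∈ Form k (d' + 1) := by
    have h1 := gcd_cmul_mem (hF 1) (w 0)
    have h2 := gcd_cmul_mem (hF 0) (w 1)
    have h3 := (Form k (d' + 1)).sub_mem h1 h2
    exact h3
  obtain ⟨v, hv, hv'⟩ := Form.exists_zero hL
  obtain ⟨c, hc⟩ := (lin_eq_zero hw).1 hv'
  have hc0 : c ≠ 0 := by
    rintro rfl
    rw [zero_smul] at hc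
    exact cF v hv hc
  obtain ⟨t, ht⟩ := IsAlgClosed.exists_pow_nat_eq (c⁻¹) (show 0 < d' + 1 by omega)
  have ht0 : t ≠ 0 := by
    rintro rfl
    rw [zero_pow (by omega)] at ht
    exact inv_ne_zero hc0 ht.symm
  refine ⟨t • v, smul_ne_zero ht0 hv, ?_⟩
  rw [SM.hom hF, ht, hc, smul_smul, inv_mul_cancel₀ hc0, one_smul]

end Pool.Agent.MRat
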