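import Pool.Agent.Lib.MP_923aff_ag.FGDef
/-!
# JOB FGA: counting poles (Burnside)
-/

set_option autoImplicit false

namespace Pool.Agent.MRat

variable {G P : Type} [Group G] [MulAction G P] {Γ : Subgroup G}

private theorem fga_finite (h : Pol Γ P) : Finite {x : P // 1 < se Γ x} := by
  haveI := h.fin
  have hsub : {x : P | 1 < se Γ x} ⊆ ⋃ g : Γ, {x : P | (g : G) ≠ 1 ∧ (g : G) • x = x} := by
    intro x hx
    obtain ⟨g, hg, h1, h2⟩ := (one_lt_se_iff x).1 hx
    exact Set.mem_iUnion.2 ⟨⟨g, hg⟩, h1, h2⟩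
  have hfin : (⋃ g : Γ, {x : P | (g : G) ≠ 1 ∧ (g : G) • x = x}).Finite := by
    apply Set.finite_iUnion
    intro g
    by_cases h1 : (g : G) = 1
    · have : {x : P | (g : G) ≠ 1 ∧ (g : G) • x = x} = ∅ := by
        ext x
        simp [h1]
      rw [this]
      exact Set.finite_empty
    · obtain ⟨p, q, -, hpq⟩ := h.fix2 g g.2 h1
      refine Set.Finite.subset (Set.toFinite {p, q}) ?_
      rintro x ⟨-, hx⟩
      exact (hpq x).1 hx
  exact (hfin.subset hsub).to_subtype

theorem Pol.orbits (h : Pol Γ P) :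
    ∃ (r : ℕ) (p : Fin r → P),
      (∀ i, 1 < se Γ (p i)) ∧
      (∀ i j, ∀ g ∈ Γ, g • p i = p j → i = j) ∧
      (∀ x : P, 1 < se Γ x → ∃ i, ∃ g ∈ Γ, g • p i = x) ∧
      r * Nat.card Γ = ∑ i, Nat.card Γ / se Γ (p i) + 2 * (Nat.card Γ - 1) := by
  classical
  haveI := h.fin
  haveI := fga_finite h
  letI act : MulAction Γ {x : P // 1 < se Γ x} :=
    { smul := fun g x => ⟨(g : G) • x.1, by rw [se_smul g.2]; exact x.2⟩
      one_smul := fun x => Subtype.ext (one_smul G x.1)
      mul_smul := fun g g' x => Subtype.ext (mul_smul (g : G) (g' : G) x.1) }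
  have hcoe : ∀ (g : Γ) (x : {x : P // 1 < se Γ x}), (g • x).1 = (g : G) • x.1 := fun _ _ => rfl
  letI : Fintype Γ := Fintype.ofFinite _
  letI : Fintype {x : P // 1 < se Γ x} := Fintype.ofFinite _
  letI : Fintype (Quotient (MulAction.orbitRel Γ {x : P // 1 < se Γ x})) := Fintype.ofFinite _
  set Ω := Quotient (MulAction.orbitRel Γ {x : P // 1 < se Γ x}) with hΩ
  let e : Ω ≃ Fin (Fintype.card Ω) := Fintype.equivFin Ω
  have hstab : ∀ x : {x : P // 1 < se Γ x}, Fintype.card (MulAction.stabilizer Γ x) = se Γ x.1 := by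
    intro x
    rw [se_eq_stabilizer, ← Nat.card_eq_fintype_card]
    refine Nat.card_congr (Equiv.subtypeEquivRight ?_)
    intro g
    rw [MulAction.mem_stabilizer_iff, MulAction.mem_stabilizer_iff]
    constructor
    · intro hg
      exact congrArg Subtype.val hg
    · intro hg
      exact Subtype.ext hg
  refine ⟨Fintype.card Ω, fun i => (Quotient.out (e.symm i)).1, ?_, ?_, ?_, ?_⟩
  · intro i
    exact (Quotient.out (e.symm i)).2
  · intro i j g hg hgij
    apply e.symm.injective
    have h1 : (Quotient.mk _ (Quotient.out (e.symm i)) : Ω) = Quotient.mk _ (Quotient.out (e.symm j)) := by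
      apply Quotient.sound
      refine MulAction.orbitRel_apply.2 ?_
      rw [MulAction.mem_orbit_symm]
      exact ⟨⟨g, hg⟩, Subtype.ext hgij⟩
    rwa [Quotient.out_eq, Quotient.out_eq] at h1
  · intro x hx
    refine ⟨e (Quotient.mk _ ⟨x, hx⟩), ?_⟩
    show ∃ g ∈ Γ, g • (Quotient.out (e.symm (e (Quotient.mk _ ⟨x, hx⟩)))).1 = x
    rw [Equiv.symm_apply_apply]
    have h1 : (Quotient.mk _ (Quotient.out (Quotient.mk _ (⟨x, hx⟩ : {x : P // 1 < se Γ x}) : Ω)) : Ω) =
        Quotient.mk _ ⟨x, hx⟩ := Quotient.out_eq _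
    have h2 := Quotient.exact h1
    have h3 := MulAction.orbitRel_apply.1 h2
    rw [MulAction.mem_orbit_symm] at h3
    obtain ⟨g, hg⟩ := h3
    exact ⟨g, g.2, congrArg Subtype.val hg⟩
  · have hB := MulAction.sum_card_fixedBy_eq_card_orbits_mul_card_group Γ {x : P // 1 < se Γ x}
    have hC := MulAction.card_eq_sum_card_group_div_card_stabilizer Γ {x : P // 1 < se Γ x}
    have hsum : ∑ g : Γ, Fintype.card (MulAction.fixedBy {x : P // 1 < se Γ x} g) =
        Fintype.card {x : P // 1 < se Γ x} + 2 * (Fintype.card Γ - 1) := by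
      rw [← Finset.add_sum_erase Finset.univ _ (Finset.mem_univ (1 : Γ))]
      congr 1
      · rw [← Nat.card_eq_fintype_card, ← Nat.card_eq_fintype_card]
        refine Nat.card_congr (Equiv.subtypeUnivEquiv ?_)
        intro x
        rw [MulAction.mem_fixedBy, one_smul]
      · have h2 : ∀ g ∈ Finset.univ.erase (1 : Γ),
            Fintype.card (MulAction.fixedBy {x : P // 1 < se Γ x} g) = 2 := by
          intro g hg
          have hg1 : (g : G) ≠ 1 := by
            intro h1
            exact (Finset.ne_of_mem_erase hg) (Subtype.ext h1)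
          obtain ⟨p, q, hpq, hfix⟩ := h.fix2 g g.2 hg1
          have hp : 1 < se Γ p := (one_lt_se_iff p).2 ⟨g, g.2, hg1, (hfix p).2 (Or.inl rfl)⟩
          have hq : 1 < se Γ q := (one_lt_se_iff q).2 ⟨g, g.2, hg1, (hfix q).2 (Or.inr rfl)⟩
          have hset : MulAction.fixedBy {x : P // 1 < se Γ x} g =
              ({⟨p, hp⟩, ⟨q, hq⟩} : Set {x : P // 1 < se Γ x}) := by
            ext x
            rw [MulAction.mem_fixedBy, Set.mem_insert_iff, Set.mem_singleton_iff]
            constructor
            · intro hx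
              rcases (hfix x.1).1 (congrArg Subtype.val hx) with h | h
              · exact Or.inl (Subtype.ext h)
              · exact Or.inr (Subtype.ext h)
            · rintro (h | h)
              · exact Subtype.ext ((hfix x.1).2 (Or.inl (congrArg Subtype.val h)))
              · exact Subtype.ext ((hfix x.1).2 (Or.inr (congrArg Subtype.val h)))
          rw [← Nat.card_eq_fintype_card, Nat.card_coe_set_eq, hset, Set.ncard_pair]
          intro h
          exact hpq (congrArg Subtype.val h)
        rw [Finset.sum_congr rfl h2, Finset.sum_const, Finset.card_erase_of_mem (Finset.mem_univ _),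
          Finset.card_univ, smul_eq_mul, mul_comm]
    rw [hsum, hC] at hB
    rw [Nat.card_eq_fintype_card, ← hB]
    congr 1
    rw [← Equiv.sum_comp e.symm]
    refine Finset.sum_congr rfl fun i _ => ?_
    rw [hstab]

end Pool.Agent.MRat
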