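import Pool.Agent.Lib.MP_923aff_ag.FGDef
/-!
# JOB FGB: the numerical classification
-/

set_option autoImplicit false

namespace Pool.Agent.MRat

private theorem fgb_three {N a b c x y z : ℕ} (hN : 1 < N) (ha : 1 < a) (hab : a ≤ b) (hbc : b ≤ c)
    (hx : a * x = N) (hy : b * y = N) (hz : c * z = N) (hs : N + 2 = x + y + z) :
    (a = 2 ∧ b = 2 ∧ 2 ≤ c ∧ N = 2 * c) ∨ (a = 2 ∧ b = 3 ∧ c = 3 ∧ N = 12) ∨
      (a = 2 ∧ b = 3 ∧ c = 4 ∧ N = 24) ∨ (a = 2 ∧ b = 3 ∧ c = 5 ∧ N = 60) := by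
  have hx' : 3 ≤ a → 3 * x ≤ N := fun h => by rw [← hx]; exact Nat.mul_le_mul_right _ h
  have hy' : ∀ m, m ≤ b → m * y ≤ N := fun m h => by rw [← hy]; exact Nat.mul_le_mul_right _ h
  have hz' : ∀ m, m ≤ c → m * z ≤ N := fun m h => by rw [← hz]; exact Nat.mul_le_mul_right _ h
  have ha2 : a = 2 := by
    by_contra hne
    have h3 : 3 ≤ a := by omega
    have h1 := hx' h3
    have h2 := hy' 3 (by omega)
    have h4 := hz' 3 (by omega)
    omega
  subst ha2
  have hb3 : b = 2 ∨ b = 3 := by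
    by_contra hne
    have h2 := hy' 4 (by omega)
    have h4 := hz' 4 (by omega)
    omega
  rcases hb3 with rfl | rfl
  · left
    have : z = 2 := by omega
    subst this
    exact ⟨rfl, rfl, hbc, by omega⟩
  · right
    -- N = 2 x = 3 y, z = x / 3 + 2
    have hc : c < 6 := by
      by_contra hge
      have h4 := hz' 6 (by omega)
      omega
    interval_cases c
    · left
      refine ⟨rfl, rfl, rfl, ?_⟩
      omega
    · right; left
      refine ⟨rfl, rfl, rfl, ?_⟩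
      omega
    · right; right
      refine ⟨rfl, rfl, rfl, ?_⟩
      omega

theorem num_types {r N : ℕ} (hN : 1 < N) (e : Fin r → ℕ) (he : ∀ i, 1 < e i) (hd : ∀ i, e i ∣ N)
    (hs : r * N = ∑ i, N / e i + 2 * (N - 1)) :
    (r = 2 ∧ ∀ i, e i = N) ∨
    ∃ σ : Fin 3 ≃ Fin r,
      (e (σ 0) = 2 ∧ e (σ 1) = 2 ∧ 2 ≤ e (σ 2) ∧ N = 2 * e (σ 2)) ∨
      (e (σ 0) = 2 ∧ e (σ 1) = 3 ∧ e (σ 2) = 3 ∧ N = 12) ∨
      (e (σ 0) = 2 ∧ e (σ 1) = 3 ∧ e (σ 2) = 4 ∧ N = 24) ∨
      (e (σ 0) = 2 ∧ e (σ 1) = 3 ∧ e (σ 2) = 5 ∧ N = 60) := by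
  have hmul : ∀ i, e i * (N / e i) = N := fun i => Nat.mul_div_cancel' (hd i)
  have hpos : ∀ i, 1 ≤ N / e i := by
    intro i
    rcases Nat.eq_zero_or_pos (N / e i) with h | h
    · have := hmul i
      rw [h] at this
      omega
    · exact h
  have h2 : ∀ i, 2 * (N / e i) ≤ N := by
    intro i
    calc 2 * (N / e i) ≤ e i * (N / e i) := Nat.mul_le_mul_right _ (he i)
      _ = N := hmul i
  have hr : r < 4 := by
    by_contra hge
    have hsum : 2 * ∑ i, N / e i ≤ r * N := by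
      rw [Finset.mul_sum]
      calc ∑ i : Fin r, 2 * (N / e i) ≤ ∑ _i : Fin r, N := Finset.sum_le_sum fun i _ => h2 i
        _ = r * N := by simp
    have h4 : 4 * N ≤ r * N := Nat.mul_le_mul_right _ (by omega)
    omega
  interval_cases r
  · simp at hs
    omega
  · rw [Fin.sum_univ_one] at hs
    have := hpos 0
    omega
  · left
    refine ⟨rfl, ?_⟩
    rw [Fin.sum_univ_two] at hs
    have h0 := hpos 0
    have h1 := hpos 1
    intro i
    have hi : N / e i = 1 := by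
      have : i = 0 ∨ i = 1 := by omega
      rcases this with rfl | rfl <;> omega
    have := hmul i
    rw [hi] at this
    omega
  · right
    let σ := Tuple.sort e
    have hmono := Tuple.monotone_sort e
    refine ⟨σ, ?_⟩
    have h01 : e (σ 0) ≤ e (σ 1) := hmono (by decide)
    have h12 : e (σ 1) ≤ e (σ 2) := hmono (by decide)
    have hsum : ∑ i, N / e i = N / e (σ 0) + N / e (σ 1) + N / e (σ 2) := by
      rw [← Equiv.sum_comp σ, Fin.sum_univ_three]
    refine fgb_three hN (he _) h01 h12 (hmul _) (hmul _) (hmul _) ?_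
    rw [hsum] at hs
    omega

end Pool.Agent.MRat
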