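import Pool.Agent.Lib.MP_923aff_ag.FGA
import Pool.Agent.Lib.MP_923aff_ag.FGB
/-!
# JOB FGC: the types of finite groups

From `Pol.orbits` and `num_types` (`r = 2`: `card_orbit_mul_se` gives orbits of size one).
-/

set_option autoImplicit false

namespace Pool.Agent.MRat

variable {G P : Type} [Group G] [MulAction G P] {Γ : Subgroup G}

/-- A point whose stabiliser has the order of the group is fixed by the group. -/
private theorem FGC_fixed [Finite Γ] {p : P} (h : se Γ p = Nat.card Γ) :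
    ∀ g ∈ Γ, g • p = p := by
  intro g hg
  have h1 := card_orbit_mul_se (Γ := Γ) p
  have hpos : 0 < Nat.card Γ := Nat.card_pos
  rw [h] at h1
  have h2 : Nat.card {x : P // ∃ g ∈ Γ, g • p = x} = 1 := by
    have h3 : Nat.card {x : P // ∃ g ∈ Γ, g • p = x} * Nat.card Γ = 1 * Nat.card Γ := by
      rw [h1, one_mul]
    exact Nat.eq_of_mul_eq_mul_right hpos h3
  obtain ⟨a, ha⟩ := Nat.card_eq_one_iff_exists.1 h2
  have e1 := ha ⟨g • p, g, hg, rfl⟩
  have e2 := ha ⟨p, 1, Γ.one_mem, one_smul _ _⟩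
  exact congrArg Subtype.val (e1.trans e2.symm)

private theorem FGC_se_of_fixed {p : P} (h : ∀ g ∈ Γ, g • p = p) :
    se Γ p = Nat.card Γ := by
  unfold se
  refine Nat.card_congr (Equiv.subtypeEquivRight ?_)
  intro g
  exact ⟨fun hg => hg.1, fun hg => ⟨hg, h g hg⟩⟩

private theorem FGC_tri {r : ℕ} {p : Fin r → P}
    (h2 : ∀ i j, ∀ g ∈ Γ, g • p i = p j → i = j)
    (h3 : ∀ x : P, 1 < se Γ x → ∃ i, ∃ g ∈ Γ, g • p i = x) (σ : Fin 3 ≃ Fin r)
    {a b c N : ℕ} (hN : Nat.card Γ = N) (ha : se Γ (p (σ 0)) = a) (hb : se Γ (p (σ 1)) = b)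
    (hc : se Γ (p (σ 2)) = c) : Tri Γ a b c N (p (σ 0)) (p (σ 1)) (p (σ 2)) where
  card := hN
  e₁ := ha
  e₂ := hb
  e₃ := hc
  n₁₂ := fun g hg he => absurd (σ.injective (h2 _ _ g hg he)) (by decide)
  n₁₃ := fun g hg he => absurd (σ.injective (h2 _ _ g hg he)) (by decide)
  n₂₃ := fun g hg he => absurd (σ.injective (h2 _ _ g hg he)) (by decide)
  all := fun x hx => by
    obtain ⟨i, g, hg, he⟩ := h3 x hx
    refine ⟨g, hg, ?_⟩
    obtain ⟨j, rfl⟩ := σ.surjective i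
    fin_cases j
    · exact Or.inl he
    · exact Or.inr (Or.inl he)
    · exact Or.inr (Or.inr he)

theorem Pol.types (h : Pol Γ P) (hN : 1 < Nat.card Γ) :
    (∃ p q : P, p ≠ q ∧ (∀ g ∈ Γ, g • p = p ∧ g • q = q) ∧ ∀ x : P, 1 < se Γ x → x = p ∨ x = q) ∨
    ∃ p₁ p₂ p₃ : P, (∃ n, 2 ≤ n ∧ Tri Γ 2 2 n (2 * n) p₁ p₂ p₃) ∨ Tri Γ 2 3 3 12 p₁ p₂ p₃ ∨
      Tri Γ 2 3 4 24 p₁ p₂ p₃ ∨ Tri Γ 2 3 5 60 p₁ p₂ p₃ := by
  have := h.fin
  obtain ⟨r, p, h1, h2, h3, hs⟩ := h.orbits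
  rcases num_types hN (fun i => se Γ (p i)) h1 (fun i => se_dvd _) hs with ⟨hr, he⟩ | ⟨σ, hσ⟩
  · left
    subst hr
    have f0 := FGC_fixed (he 0)
    have f1 := FGC_fixed (he 1)
    refine ⟨p 0, p 1, ?_, fun g hg => ⟨f0 g hg, f1 g hg⟩, fun x hx => ?_⟩
    · intro hp
      have := h2 0 1 1 Γ.one_mem (by rw [one_smul, hp])
      exact absurd this (by decide)
    · obtain ⟨i, g, hg, hi⟩ := h3 x hx
      rw [FGC_fixed (he i) g hg] at hi
      fin_cases i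
      · exact Or.inl hi.symm
      · exact Or.inr hi.symm
  · right
    refine ⟨p (σ 0), p (σ 1), p (σ 2), ?_⟩
    rcases hσ with ⟨ha, hb, hc, hN'⟩ | ⟨ha, hb, hc, hN'⟩ | ⟨ha, hb, hc, hN'⟩ | ⟨ha, hb, hc, hN'⟩
    · exact Or.inl ⟨_, hc, FGC_tri h2 h3 σ hN' ha hb rfl⟩
    · exact Or.inr (Or.inl (FGC_tri h2 h3 σ hN' ha hb hc))
    · exact Or.inr (Or.inr (Or.inl (FGC_tri h2 h3 σ hN' ha hb hc)))
    · exact Or.inr (Or.inr (Or.inr (FGC_tri h2 h3 σ hN' ha hb hc)))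

/-- Two different points with the same non-trivial stabiliser; any third point is fixed by no
non-identity element of the stabiliser. -/
theorem Pol.opp' (h : Pol Γ P) {p : P} (hp : 1 < se Γ p) :
    ∃ q : P, q ≠ p ∧ se Γ q = se Γ p ∧ (∀ g ∈ Γ, g • p = p ↔ g • q = q) ∧
      (∀ g ∈ Γ, g ≠ 1 → g • p = p → ∀ x : P, g • x = x ↔ (x = p ∨ x = q)) ∧
      (∀ g ∈ Γ, g • p = q → g • q = p) := by
  have := h.fin
  obtain ⟨g₀, hg₀, hg₀1, hg₀p⟩ := (one_lt_se_iff p).1 hp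
  obtain ⟨q, hq, hq'⟩ := h.opp p
  have key : ∀ a ∈ Γ, a ≠ 1 → a • p = p → ∀ x : P, a • x = x ↔ (x = p ∨ x = q) := by
    intro a ha ha1 hap x
    obtain ⟨u, v, huv, hfix⟩ := h.fix2 a ha ha1
    have e1 := (hfix p).1 hap
    have e2 := (hfix q).1 (hq' a ha hap)
    rw [hfix x]
    rcases e1 with rfl | rfl <;> rcases e2 with rfl | rfl
    · exact absurd rfl hq
    · rfl
    · exact or_comm
    · exact absurd rfl hq
  have hiff : ∀ g ∈ Γ, g • p = p ↔ g • q = q := by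
    intro g hg
    refine ⟨hq' g hg, fun hgq => ?_⟩
    by_cases hg1 : g = 1
    · rw [hg1, one_smul]
    · exact (h.same hg₀ hg hg₀1 hg1 (hq' g₀ hg₀ hg₀p) hgq p).1 hg₀p
  refine ⟨q, hq, ?_, hiff, key, ?_⟩
  · unfold se
    refine Nat.card_congr (Equiv.subtypeEquivRight ?_)
    intro g
    constructor
    · rintro ⟨h1, h2⟩
      exact ⟨h1, (hiff g h1).2 h2⟩
    · rintro ⟨h1, h2⟩
      exact ⟨h1, (hiff g h1).1 h2⟩
  · intro g hg hgp
    have hc : g * g₀ * g⁻¹ ∈ Γ := Γ.mul_mem (Γ.mul_mem hg hg₀) (Γ.inv_mem hg)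
    have hc1 : g * g₀ * g⁻¹ ≠ 1 := by
      intro h1
      apply hg₀1
      have h2 : g * g₀ = g := by
        have := congrArg (fun z => z * g) h1
        simpa using this
      exact mul_eq_left.1 h2
    have hcq : (g * g₀ * g⁻¹) • q = q := by
      rw [← hgp, mul_smul, mul_smul, inv_smul_smul, hg₀p]
    have hcgq : (g * g₀ * g⁻¹) • (g • q) = g • q := by
      rw [mul_smul, mul_smul, inv_smul_smul, hq' g₀ hg₀ hg₀p]
    have hfix : g₀ • (g • q) = g • q :=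
      (h.same hc hg₀ hc1 hg₀1 hcq (hq' g₀ hg₀ hg₀p) (g • q)).1 hcgq
    rcases (key g₀ hg₀ hg₀1 hg₀p (g • q)).1 hfix with h1 | h1
    · exact h1
    · exfalso
      apply hq
      have h2 : g • q = g • p := h1.trans hgp.symm
      exact MulAction.injective g h2

/-- In the dihedral case `(2, 2, n)` with `n ≥ 3` the third orbit is the axis. -/
theorem Pol.axPair_dihedral (h : Pol Γ P) {n : ℕ} (hn : 3 ≤ n) {p₁ p₂ p₃ : P}
    (t : Tri Γ 2 2 n (2 * n) p₁ p₂ p₃) : ∃ q, AxPair Γ p₃ q ∧ (∃ g ∈ Γ, g • p₃ = q) ∧ 3 ≤ se Γ p₃ := by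
  have := h.fin
  have h3 : 3 ≤ se Γ p₃ := by rw [t.e₃]; exact hn
  obtain ⟨q, hq, hqe, hiff, -, -⟩ := h.opp' (p := p₃) (by omega)
  -- points with large stabiliser are in the third orbit
  have horb : ∀ x : P, 3 ≤ se Γ x → ∃ g ∈ Γ, g • p₃ = x := by
    intro x hx
    obtain ⟨g, hg, hgx | hgx | hgx⟩ := t.all x (by omega)
    · exfalso
      rw [← hgx, se_smul hg, t.e₁] at hx
      omega
    · exfalso
      rw [← hgx, se_smul hg, t.e₂] at hx
      omega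
    · exact ⟨g, hg, hgx⟩
  have hqorb : ∃ g ∈ Γ, g • p₃ = q := horb q (by omega)
  have hcard : Nat.card {x : P // ∃ g ∈ Γ, g • p₃ = x} = 2 := by
    have h4 := card_orbit_mul_se (Γ := Γ) p₃
    rw [t.e₃, t.card] at h4
    exact Nat.eq_of_mul_eq_mul_right (by omega) h4
  have hall : ∀ x : P, 3 ≤ se Γ x → x = p₃ ∨ x = q := by
    intro x hx
    obtain ⟨u, v, huv, huniv⟩ := Nat.card_eq_two_iff.1 hcard
    have hmem : ∀ y : {x : P // ∃ g ∈ Γ, g • p₃ = x}, y = u ∨ y = v := by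
      intro y
      have : y ∈ ({u, v} : Set {x : P // ∃ g ∈ Γ, g • p₃ = x}) := by rw [huniv]; trivial
      simpa using this
    have hp := hmem ⟨p₃, 1, Γ.one_mem, one_smul _ _⟩
    have hq2 := hmem ⟨q, hqorb⟩
    have hx2 := hmem ⟨x, horb x hx⟩
    rcases hp with hp | hp <;> rcases hq2 with hq2 | hq2
    · exact absurd (congrArg Subtype.val (hq2.trans hp.symm)) hq
    · rcases hx2 with hx2 | hx2
      · exact Or.inl (congrArg Subtype.val (hx2.trans hp.symm))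
      · exact Or.inr (congrArg Subtype.val (hx2.trans hq2.symm))
    · rcases hx2 with hx2 | hx2
      · exact Or.inr (congrArg Subtype.val (hx2.trans hq2.symm))
      · exact Or.inl (congrArg Subtype.val (hx2.trans hp.symm))
    · exact absurd (congrArg Subtype.val (hq2.trans hp.symm)) hq
  refine ⟨q, ⟨fun hpq => hq hpq.symm, Or.inr ⟨h3, ?_⟩, Or.inr ⟨by omega, ?_⟩⟩, hqorb, h3⟩
  · intro x hx g hg hgp
    rcases hall x hx with rfl | rfl
    · exact hgp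
    · exact (hiff g hg).1 hgp
  · intro x hx g hg hgq
    rcases hall x hx with rfl | rfl
    · exact (hiff g hg).2 hgq
    · exact hgq

/-- The cyclic case. -/
theorem Pol.axPair_cyclic (h : Pol Γ P) (hN : 1 < Nat.card Γ) {p q : P} (hpq : p ≠ q)
    (h1 : ∀ g ∈ Γ, g • p = p ∧ g • q = q) (h2 : ∀ x : P, 1 < se Γ x → x = p ∨ x = q) :
    AxPair Γ p q := by
  have := h.fin
  have ep : se Γ p = Nat.card Γ := FGC_se_of_fixed (fun g hg => (h1 g hg).1)
  have eq : se Γ q = Nat.card Γ := FGC_se_of_fixed (fun g hg => (h1 g hg).2)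
  have hfix : ∀ x : P, 3 ≤ se Γ x → ∀ g ∈ Γ, g • x = x := by
    intro x hx g hg
    rcases h2 x (by omega) with rfl | rfl
    · exact (h1 g hg).1
    · exact (h1 g hg).2
  refine ⟨hpq, ?_, ?_⟩
  · by_cases hc : Nat.card Γ = 2
    · exact Or.inl ⟨hc, by rw [ep, hc]⟩
    · exact Or.inr ⟨by omega, fun x hx g hg _ => hfix x hx g hg⟩
  · by_cases hc : Nat.card Γ = 2
    · exact Or.inl ⟨hc, by rw [eq, hc]⟩
    · exact Or.inr ⟨by omega, fun x hx g hg _ => hfix x hx g hg⟩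

private theorem FGC_no_ax3 (h : Pol Γ P) {p₂ p : P} {N : ℕ} (hN : 12 ≤ N) (hcN : Nat.card Γ = N)
    (h3 : se Γ p₂ = 3) (hax : Ax Γ p) : False := by
  have := h.fin
  rcases hax with ⟨h2, -⟩ | ⟨hp, hax⟩
  · omega
  · obtain ⟨g, hg, hg1, hgp⟩ := (one_lt_se_iff (Γ := Γ) p).1 (by omega)
    obtain ⟨u, v, huv, hfix⟩ := h.fix2 g hg hg1
    have hmem : ∀ x : {x : P // ∃ g ∈ Γ, g • p₂ = x}, (x : P) = u ∨ (x : P) = v := by
      rintro ⟨x, g', hg', rfl⟩
      exact (hfix _).1 (hax _ (by rw [se_smul hg', h3]) g hg hgp)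
    have hle : Nat.card {x : P // ∃ g ∈ Γ, g • p₂ = x} ≤ Nat.card Bool := by
      classical
      refine Nat.card_le_card_of_injective
        (fun x : {x : P // ∃ g ∈ Γ, g • p₂ = x} => decide ((x : P) = u)) ?_
      intro x y hxy
      have hxy' : ((x : P) = u) ↔ ((y : P) = u) := by
        simpa using hxy
      apply Subtype.ext
      rcases hmem x with hx | hx
      · rw [hx, hxy'.1 hx]
      · rcases hmem y with hy | hy
        · rw [hxy'.2 hy, hy]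
        · rw [hx, hy]
    have h4 := card_orbit_mul_se (Γ := Γ) p₂
    rw [h3, hcN] at h4
    have h5 : Nat.card Bool = 2 := by simp
    omega

/-- The other types have no axis. -/
theorem Pol.no_ax (h : Pol Γ P) {p₁ p₂ p₃ : P}
    (t : Tri Γ 2 2 2 4 p₁ p₂ p₃ ∨ Tri Γ 2 3 3 12 p₁ p₂ p₃ ∨ Tri Γ 2 3 4 24 p₁ p₂ p₃ ∨
      Tri Γ 2 3 5 60 p₁ p₂ p₃) : ¬ ∃ p : P, Ax Γ p := by
  have := h.fin
  rintro ⟨p, hax⟩
  rcases t with t | t | t | t
  · rcases hax with ⟨h2, -⟩ | ⟨hp, -⟩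
    · rw [t.card] at h2
      omega
    · obtain ⟨g, hg, hgx | hgx | hgx⟩ := t.all p (by omega)
      · rw [← hgx, se_smul hg, t.e₁] at hp
        omega
      · rw [← hgx, se_smul hg, t.e₂] at hp
        omega
      · rw [← hgx, se_smul hg, t.e₃] at hp
        omega
  · exact FGC_no_ax3 h le_rfl t.card t.e₂ hax
  · exact FGC_no_ax3 h (by norm_num) t.card t.e₂ hax
  · exact FGC_no_ax3 h (by norm_num) t.card t.e₂ hax

end Pool.Agent.MRat
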