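import Pool.Agent.Lib.MP_923aff_ag.FGC
/-!
# JOB FGD: the normal Klein four group in the types `(2, 2, 2)` and `(2, 3, 3)`

`(2, 2, 2)`: `V = Γ`; every non-identity element fixes a pole, hence lies in a group of order two.
`(2, 3, 3)`: a subgroup `V` of order `4` (Sylow: `Sylow.exists_subgroup_card_pow_prime`); the order of an
element of `Γ` is `1, 2` or `3`, hence `v * v = 1` on `V`; there are at most three involutions (an involution is
determined by any of its two fixed points, which are poles with `se = 2`; there are `12 / 2 = 6` of them), so `V`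
consists of the identity and all involutions and is normal.
-/

set_option autoImplicit false

namespace Pool.Agent.MRat

variable {G P : Type} [Group G] [MulAction G P] {Γ : Subgroup G}

private theorem fgd_se_eq (h : Pol Γ P) {a b c N : ℕ} {p₁ p₂ p₃ : P} (t : Tri Γ a b c N p₁ p₂ p₃)
    {x : P} (hx : 1 < se Γ x) :
    (∃ g ∈ Γ, g • p₁ = x) ∧ se Γ x = a ∨ se Γ x = b ∨ se Γ x = c := by
  obtain ⟨g, hg, h1 | h1 | h1⟩ := t.all x hx
  · exact Or.inl ⟨⟨g, hg, h1⟩, by rw [← h1, se_smul hg, t.e₁]⟩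
  · exact Or.inr (Or.inl (by rw [← h1, se_smul hg, t.e₂]))
  · exact Or.inr (Or.inr (by rw [← h1, se_smul hg, t.e₃]))

private theorem fgd_order_dvd_se (h : Pol Γ P) {x : P} {g : G} (hg : g ∈ Γ) (hx : g • x = x) :
    orderOf g ∣ se Γ x := by
  have := h.fin
  obtain ⟨g0, hg0, hgx, hall⟩ := h.cyc x
  rw [← orderOf_gen hg0 hgx hall]
  obtain ⟨n, rfl⟩ := hall g hg hx
  exact orderOf_pow_dvd n

private theorem fgd_one_lt (h : Pol Γ P) {x : P} {g : G} (hg : g ∈ Γ) (h1 : g ≠ 1)
    (hx : g • x = x) : 1 < se Γ x := by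
  have := h.fin
  exact (one_lt_se_iff x).2 ⟨g, hg, h1, hx⟩

private theorem fgd_unique (h : Pol Γ P) {x : P} (hx : se Γ x = 2) {g g' : G} (hg : g ∈ Γ)
    (hg' : g' ∈ Γ) (h1 : g ≠ 1) (h1' : g' ≠ 1) (hgx : g • x = x) (hgx' : g' • x = x) : g = g' := by
  have := h.fin
  obtain ⟨g0, hg0, hg0x, hall⟩ := h.cyc x
  have ho : orderOf g0 = 2 := by rw [orderOf_gen hg0 hg0x hall, hx]
  have key : ∀ k : G, k ∈ Γ → k ≠ 1 → k • x = x → k = g0 := by
    intro k hk hk1 hkx
    obtain ⟨n, rfl⟩ := hall k hk hkx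
    rw [← pow_mod_orderOf, ho] at hk1 ⊢
    rcases Nat.mod_two_eq_zero_or_one n with h0 | h0
    · rw [h0] at hk1
      exact absurd (pow_zero _) hk1
    · rw [h0, pow_one]
  rw [key g hg h1 hgx, key g' hg' h1' hgx']

/-- Every element of `Γ` lies in some point stabiliser of a pole, whose order its order divides. -/
theorem Tri.orderOf_dvd (h : Pol Γ P) {a b c N : ℕ} {p₁ p₂ p₃ : P} (t : Tri Γ a b c N p₁ p₂ p₃)
    {g : G} (hg : g ∈ Γ) (h1 : g ≠ 1) : orderOf g ∣ a ∨ orderOf g ∣ b ∨ orderOf g ∣ c := by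
  obtain ⟨p, q, hpq, hfix⟩ := h.fix2 g hg h1
  have hp : g • p = p := (hfix p).2 (Or.inl rfl)
  have hd := fgd_order_dvd_se h hg hp
  rcases fgd_se_eq h t (fgd_one_lt h hg h1 hp) with ⟨_, h2⟩ | h2 | h2
  · exact Or.inl (h2 ▸ hd)
  · exact Or.inr (Or.inl (h2 ▸ hd))
  · exact Or.inr (Or.inr (h2 ▸ hd))

theorem Tri.v4_222 (h : Pol Γ P) {p₁ p₂ p₃ : P} (t : Tri Γ 2 2 2 4 p₁ p₂ p₃) :
    ∃ V : Subgroup G, CanV P Γ V := by
  refine ⟨Γ, h.no_ax (Or.inl t), ⟨t.card, ?_⟩, le_rfl, Subgroup.le_normalizer⟩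
  intro v hv
  by_cases h1 : v = 1
  · rw [h1, mul_one]
  · have h2 : orderOf v ∣ 2 := by
      rcases Tri.orderOf_dvd h t hv h1 with h2 | h2 | h2 <;> exact h2
    rw [← pow_two]
    exact orderOf_dvd_iff_pow_eq_one.1 h2

theorem Tri.v4_233 (h : Pol Γ P) {p₁ p₂ p₃ : P} (t : Tri Γ 2 3 3 12 p₁ p₂ p₃) :
    ∃ V : Subgroup G, CanV P Γ V := by
  have := h.fin
  have : Fact (Nat.Prime 2) := ⟨Nat.prime_two⟩
  have hdvd : 2 ^ 2 ∣ Nat.card Γ := by rw [t.card]; norm_num
  obtain ⟨K, hK⟩ := Sylow.exists_subgroup_card_pow_prime 2 hdvd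
  set V : Subgroup G := K.map Γ.subtype with hV
  have hVcard : Nat.card V = 4 := by
    rw [hV, Nat.card_congr (K.equivMapOfInjective Γ.subtype Γ.subtype_injective).toEquiv.symm, hK]
    norm_num
  have hVle : V ≤ Γ := by
    rw [hV]
    intro x hx
    obtain ⟨y, _, rfl⟩ := hx
    exact y.2
  have : Finite V := Nat.finite_of_card_ne_zero (by rw [hVcard]; norm_num)
  have hsq : ∀ v ∈ V, v * v = 1 := by
    intro v hv
    by_cases h1 : v = 1
    · rw [h1, mul_one]
    · have h4 : orderOf v ∣ 4 := by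
        rw [← hVcard]
        have := orderOf_dvd_natCard (⟨v, hv⟩ : V)
        rwa [← Subgroup.orderOf_coe] at this
      have h2 : orderOf v ∣ 2 := by
        rcases Tri.orderOf_dvd h t (hVle hv) h1 with h2 | h2 | h2
        · exact h2
        · exact absurd (orderOf_eq_one_iff.1 (Nat.eq_one_of_dvd_coprimes (by norm_num : Nat.Coprime 3 4) h2 h4)) h1
        · exact absurd (orderOf_eq_one_iff.1 (Nat.eq_one_of_dvd_coprimes (by norm_num : Nat.Coprime 3 4) h2 h4)) h1
      rw [← pow_two]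
      exact orderOf_dvd_iff_pow_eq_one.1 h2
  -- involutions
  let I := {g : G // g ∈ Γ ∧ g ≠ 1 ∧ g * g = 1}
  let O := {x : P // ∃ g ∈ Γ, g • p₁ = x}
  have hO : Nat.card O = 6 := by
    have := card_orbit_mul_se (Γ := Γ) p₁
    rw [t.e₁, t.card] at this
    change Nat.card O * 2 = 12 at this
    omega
  have : Finite O := Nat.finite_of_card_ne_zero (by rw [hO]; norm_num)
  have : Finite I := Finite.of_injective (fun g : I => (⟨g.1, g.2.1⟩ : Γ)) (fun a b hab => by
    apply Subtype.ext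
    exact congrArg (fun x : Γ => (x : G)) hab)
  have hse : ∀ g : G, g ∈ Γ → g ≠ 1 → g * g = 1 → ∀ x : P, g • x = x →
      (∃ k ∈ Γ, k • p₁ = x) ∧ se Γ x = 2 := by
    intro g hg h1 hgg x hx
    have ho : orderOf g = 2 := by
      rw [← pow_two] at hgg
      exact orderOf_eq_prime hgg h1
    have hd := fgd_order_dvd_se h hg hx
    rw [ho] at hd
    rcases fgd_se_eq h t (fgd_one_lt h hg h1 hx) with h2 | h2 | h2
    · exact h2
    · rw [h2] at hd; norm_num at hd
    · rw [h2] at hd; norm_num at hd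
  have hpts : ∀ g : I, ∃ f : Bool → P, f false ≠ f true ∧ ∀ b, g.1 • f b = f b := by
    intro g
    obtain ⟨p, q, hpq, hfix⟩ := h.fix2 g.1 g.2.1 g.2.2.1
    refine ⟨fun b => if b then q else p, ?_, ?_⟩
    · simpa using hpq
    · intro b
      cases b
      · simpa using (hfix p).2 (Or.inl rfl)
      · simpa using (hfix q).2 (Or.inr rfl)
  choose f hf1 hf2 using hpts
  have hI : Nat.card I ≤ 3 := by
    have hinj : Function.Injective (fun y : I × Bool =>
        (⟨f y.1 y.2, (hse y.1.1 y.1.2.1 y.1.2.2.1 y.1.2.2.2 _ (hf2 y.1 y.2)).1⟩ : O)) := by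
      rintro ⟨g, b⟩ ⟨g', b'⟩ hgg
      have hpt : f g b = f g' b' := congrArg Subtype.val hgg
      have e : g.1 = g'.1 := fgd_unique h
        (hse g.1 g.2.1 g.2.2.1 g.2.2.2 _ (hf2 g b)).2 g.2.1 g'.2.1 g.2.2.1 g'.2.2.1 (hf2 g b)
        (by rw [hpt]; exact hf2 g' b')
      have e' : g = g' := Subtype.ext e
      subst e'
      have : b = b' := by
        cases b <;> cases b'
        · rfl
        · exact absurd hpt (hf1 g)
        · exact absurd hpt.symm (hf1 g)
        · rfl
      rw [this]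
    have := Nat.card_le_card_of_injective _ hinj
    rw [Nat.card_prod, hO] at this
    simp only [Nat.card_eq_fintype_card, Fintype.card_bool] at this
    have h2 : Nat.card Bool = 2 := by simp
    omega
  -- non-identity elements of V
  let W := {v : V // v ≠ 1}
  have hW : Nat.card W = 3 := by
    classical
    have := Fintype.ofFinite V
    have h1 : Fintype.card {v : V // v ≠ 1} = Fintype.card V - 1 := by
      rw [Fintype.card_subtype_compl, Fintype.card_subtype_eq]
    have h2 : Fintype.card V = 4 := by rw [← Nat.card_eq_fintype_card, hVcard]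
    change Nat.card {v : V // v ≠ 1} = 3
    rw [Nat.card_eq_fintype_card, h1, h2]
  let j : W → I := fun w => ⟨w.1.1, hVle w.1.2, fun hw => w.2 (Subtype.ext hw), hsq _ w.1.2⟩
  have hj : Function.Injective j := by
    intro a b hab
    apply Subtype.ext
    apply Subtype.ext
    have h3 : (j a).1 = (j b).1 := by rw [hab]
    exact h3
  have hjs : Function.Surjective j := by
    have hb : Function.Bijective j := by
      rw [Nat.bijective_iff_injective_and_card]
      refine ⟨hj, le_antisymm (Nat.card_le_card_of_injective _ hj) (hW ▸ hI)⟩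
    exact hb.2
  have hmem : ∀ g : G, g ∈ Γ → g * g = 1 → g ∈ V := by
    intro g hg hgg
    by_cases h1 : g = 1
    · rw [h1]; exact V.one_mem
    · obtain ⟨w, hw⟩ := hjs ⟨g, hg, h1, hgg⟩
      have : w.1.1 = g := congrArg Subtype.val hw
      rw [← this]
      exact w.1.2
  have hconj : ∀ g ∈ Γ, ∀ v ∈ V, g * v * g⁻¹ ∈ V := by
    intro g hg v hv
    refine hmem _ (Γ.mul_mem (Γ.mul_mem hg (hVle hv)) (Γ.inv_mem hg)) ?_
    have := hsq v hv
    calc g * v * g⁻¹ * (g * v * g⁻¹) = g * (v * v) * g⁻¹ := by group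
      _ = 1 := by rw [this]; group
  refine ⟨V, h.no_ax (Or.inr (Or.inl t)), ⟨hVcard, hsq⟩, hVle, ?_⟩
  intro g hg
  rw [Subgroup.mem_normalizer_iff]
  intro v
  constructor
  · intro hv
    exact hconj g hg v hv
  · intro hv
    have := hconj g⁻¹ (Γ.inv_mem hg) _ hv
    have e : g⁻¹ * (g * v * g⁻¹) * g⁻¹⁻¹ = v := by group
    rwa [e] at this

end Pool.Agent.MRat
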