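import Mathlib

/-!
# Finite subgroups of `PGL(2, k)`: definitions and the basic counting API

`Γ` is a finite subgroup of a group `G` acting on a set `P` (in the application `G = PGL(2, k)` and `P` is the
projective line).
-/

set_option autoImplicit false

namespace Pool.Agent.MRat

variable {G P : Type} [Group G] [MulAction G P]

/-- The order of the stabiliser of `p` in `Γ`. -/
noncomputable def se (Γ : Subgroup G) (p : P) : ℕ := Nat.card {g : G // g ∈ Γ ∧ g • p = p}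

/-- A finite group acting such that every non-identity element has exactly two fixed points, and every point
stabiliser is cyclic and has a second fixed point. -/
structure Pol (Γ : Subgroup G) (P : Type) [MulAction G P] : Prop where
  fin : Finite Γ
  fix2 : ∀ g ∈ Γ, g ≠ 1 → ∃ p q : P, p ≠ q ∧ ∀ x : P, g • x = x ↔ (x = p ∨ x = q)
  opp : ∀ p : P, ∃ q : P, q ≠ p ∧ ∀ g ∈ Γ, g • p = p → g • q = q
  cyc : ∀ p : P, ∃ g ∈ Γ, g • p = p ∧ ∀ h ∈ Γ, h • p = p → ∃ n : ℕ, h = g ^ n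

/-- `Γ` has order `N` and exactly three orbits of poles, represented by `p₁, p₂, p₃`, with stabilisers of
orders `a, b, c`. -/
structure Tri (Γ : Subgroup G) (a b c N : ℕ) (p₁ p₂ p₃ : P) : Prop where
  card : Nat.card Γ = N
  e₁ : se Γ p₁ = a
  e₂ : se Γ p₂ = b
  e₃ : se Γ p₃ = c
  n₁₂ : ∀ g ∈ Γ, g • p₁ ≠ p₂
  n₁₃ : ∀ g ∈ Γ, g • p₁ ≠ p₃
  n₂₃ : ∀ g ∈ Γ, g • p₂ ≠ p₃
  all : ∀ x : P, 1 < se Γ x → ∃ g ∈ Γ, g • p₁ = x ∨ g • p₂ = x ∨ g • p₃ = x

/-- Axis type at `p`: either `Γ` has order two and fixes `p`, or the stabiliser of `p` has order at least `3`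
and it fixes every point whose stabiliser has order at least `3`. -/
def Ax (Γ : Subgroup G) (p : P) : Prop :=
  (Nat.card Γ = 2 ∧ se Γ p = 2) ∨
    (3 ≤ se Γ p ∧ ∀ x : P, 3 ≤ se Γ x → ∀ g ∈ Γ, g • p = p → g • x = x)

/-- `{p, q}` is the canonical axis of `Γ`. -/
def AxPair (Γ : Subgroup G) (p q : P) : Prop := p ≠ q ∧ Ax Γ p ∧ Ax Γ q

/-- `V` is a Klein four group. -/
def IsV4 (V : Subgroup G) : Prop := Nat.card V = 4 ∧ ∀ v ∈ V, v * v = 1

/-- `V` is the canonical Klein four group of `Γ`. -/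
def CanV (P : Type) [MulAction G P] (Γ V : Subgroup G) : Prop :=
  (¬ ∃ p : P, Ax Γ p) ∧ IsV4 V ∧ V ≤ Γ ∧ Γ ≤ Subgroup.normalizer (V : Set G)

section api

variable {Γ : Subgroup G}

instance (Γ : Subgroup G) (p : P) [Finite Γ] : Finite {g : G // g ∈ Γ ∧ g • p = p} :=
  Finite.of_injective (fun g => (⟨g.1, g.2.1⟩ : Γ)) (fun a b h => by
    apply Subtype.ext
    exact congrArg (fun x : Γ => (x : G)) h)

theorem se_pos [Finite Γ] (p : P) : 0 < se Γ p := by
  have : Nonempty {g : G // g ∈ Γ ∧ g • p = p} := ⟨⟨1, Γ.one_mem, one_smul _ _⟩⟩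
  exact Nat.card_pos

theorem se_eq_stabilizer (p : P) : se Γ p = Nat.card (MulAction.stabilizer Γ p) := by
  unfold se
  refine Nat.card_congr ⟨fun g => ⟨⟨g.1, g.2.1⟩, ?_⟩, fun g => ⟨g.1.1, g.1.2, ?_⟩, ?_, ?_⟩
  · exact g.2.2
  · exact g.2
  · intro g; rfl
  · intro g; rfl

theorem se_dvd [Finite Γ] (p : P) : se Γ p ∣ Nat.card Γ := by
  rw [se_eq_stabilizer]
  exact Subgroup.card_subgroup_dvd_card _

theorem card_orbit_mul_se [Finite Γ] (p : P) :
    Nat.card {x : P // ∃ g ∈ Γ, g • p = x} * se Γ p = Nat.card Γ := by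
  rw [se_eq_stabilizer]
  have h1 : Nat.card {x : P // ∃ g ∈ Γ, g • p = x} = Nat.card (MulAction.orbit Γ p) := by
    refine Nat.card_congr (Equiv.subtypeEquivRight ?_)
    intro x
    constructor
    · rintro ⟨g, hg, rfl⟩
      exact ⟨⟨g, hg⟩, rfl⟩
    · rintro ⟨g, rfl⟩
      exact ⟨g.1, g.2, rfl⟩
  rw [h1, ← Nat.card_prod]
  exact Nat.card_congr (MulAction.orbitProdStabilizerEquivGroup Γ p)

theorem se_smul {g : G} (hg : g ∈ Γ) (p : P) : se Γ (g • p) = se Γ p := by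
  unfold se
  refine Nat.card_congr ⟨fun h => ⟨g⁻¹ * h.1 * g, ?_, ?_⟩, fun h => ⟨g * h.1 * g⁻¹, ?_, ?_⟩, ?_, ?_⟩
  · exact Γ.mul_mem (Γ.mul_mem (Γ.inv_mem hg) h.2.1) hg
  · rw [mul_smul, mul_smul, h.2.2, inv_smul_smul]
  · exact Γ.mul_mem (Γ.mul_mem hg h.2.1) (Γ.inv_mem hg)
  · rw [mul_smul, mul_smul, inv_smul_smul, h.2.2]
  · intro h; apply Subtype.ext; simp [mul_assoc]
  · intro h; apply Subtype.ext; simp [mul_assoc]

theorem one_lt_se_iff [Finite Γ] (p : P) : 1 < se Γ p ↔ ∃ g ∈ Γ, g ≠ 1 ∧ g • p = p := by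
  unfold se
  rw [Finite.one_lt_card_iff_nontrivial]
  constructor
  · intro h
    obtain ⟨g, hg⟩ := exists_ne (⟨1, Γ.one_mem, one_smul _ _⟩ : {g : G // g ∈ Γ ∧ g • p = p})
    exact ⟨g.1, g.2.1, fun h => hg (Subtype.ext h), g.2.2⟩
  · rintro ⟨g, hg, h1, h2⟩
    exact ⟨⟨g, hg, h2⟩, ⟨1, Γ.one_mem, one_smul _ _⟩, fun h => h1 (congrArg Subtype.val h)⟩

/-- The generator of a point stabiliser has order `se Γ p`. -/
theorem orderOf_gen [Finite Γ] {p : P} {g : G} (hg : g ∈ Γ) (hp : g • p = p)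
    (h : ∀ h ∈ Γ, h • p = p → ∃ n : ℕ, h = g ^ n) : orderOf g = se Γ p := by
  rw [← Nat.card_zpowers]
  unfold se
  have hfo : IsOfFinOrder g := by
    have : IsOfFinOrder (⟨g, hg⟩ : Γ) := isOfFinOrder_of_finite _
    rw [← Submonoid.isOfFinOrder_coe] at this
    exact this
  refine Nat.card_congr (Equiv.subtypeEquivRight ?_)
  intro x
  constructor
  · intro hx
    have hx' : x ∈ Submonoid.powers g := (hfo.mem_powers_iff_mem_zpowers).2 hx
    obtain ⟨n, rfl⟩ := hx'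
    refine ⟨Γ.pow_mem hg n, ?_⟩
    have key : ∀ m : ℕ, g ^ m • p = p := by
      intro m
      induction m with
      | zero => simp
      | succ m ih => rw [pow_succ, mul_smul, hp, ih]
    exact key n
  · rintro ⟨h1, h2⟩
    obtain ⟨n, rfl⟩ := h x h1 h2
    exact Subgroup.npow_mem_zpowers g n

/-- Two non-identity elements with a common fixed point have the same fixed points. -/
theorem Pol.same (h : Pol Γ P) {g g' : G} (hg : g ∈ Γ) (hg' : g' ∈ Γ) (h1 : g ≠ 1) (h1' : g' ≠ 1)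
    {p : P} (hp : g • p = p) (hp' : g' • p = p) (x : P) : g • x = x ↔ g' • x = x := by
  obtain ⟨q, hq, hq'⟩ := h.opp p
  have key : ∀ a ∈ Γ, a ≠ 1 → a • p = p → ∀ x, a • x = x ↔ (x = p ∨ x = q) := by
    intro a ha ha1 hap x
    obtain ⟨u, v, huv, hfix⟩ := h.fix2 a ha ha1
    have e1 := (hfix p).1 hap
    have e2 := (hfix q).1 (hq' a ha hap)
    rw [hfix x]
    rcases e1 with rfl | rfl <;> rcases e2 with rfl | rfl
    · exact absurd rfl hq
    · rfl
    · exact or_comm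
    · exact absurd rfl hq
  rw [key g hg h1 hp x, key g' hg' h1' hp' x]

end api

end Pool.Agent.MRat
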