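import Pool.Agent.Lib.MP_923aff_ag.FGC
/-!
# JOB FGE: the normal Klein four group in the type `(2, 3, 4)`

`X` = the set of the six poles with `se = 4` (one orbit), with the fixed point free involution `x ↦ x'`
(opposite point), three axes. `K` = the elements of `Γ` preserving each axis: a normal subgroup. `g ∈ K`,
`g ≠ 1`: if `g` fixes `p ∈ X`, then for another axis `{q, q'}` it cannot fix `q`, so it swaps `q, q'`, so `g ^ 2`
fixes `q` and `p`, so `g ^ 2 = 1`; if it fixes no point of `X` then it swaps the points of all axes, so `g ^ 2`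
fixes `p` and `q`, `g ^ 2 = 1`. So `K` has exponent two. The kernel of `K → ±1` (does it fix `p`?) is contained
in the cyclic group of order four of `p`, so has order `≤ 2`, so `|K| ≤ 4`; `Γ / K` embeds in the permutations of
the three axes, so `|K| ≥ 24 / 6 = 4`.
-/

set_option autoImplicit false

namespace Pool.Agent.MRat

variable {G P : Type} [Group G] [MulAction G P] {Γ : Subgroup G}

/-- The points with stabiliser of order four. -/
private def FgeX (Γ : Subgroup G) (P : Type) [MulAction G P] : Type := {x : P // se Γ x = 4}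

/-- Same axis: same stabiliser. -/
private def fgeSetoid (Γ : Subgroup G) (P : Type) [MulAction G P] : Setoid (FgeX Γ P) where
  r x y := ∀ g ∈ Γ, g • x.1 = x.1 ↔ g • y.1 = y.1
  iseqv := ⟨fun _ _ _ => Iff.rfl, fun h g hg => (h g hg).symm, fun h h' g hg => (h g hg).trans (h' g hg)⟩

private def FgeQ (Γ : Subgroup G) (P : Type) [MulAction G P] : Type := Quotient (fgeSetoid Γ P)

private def fgeMove (g : Γ) (x : FgeX Γ P) : FgeX Γ P :=
  ⟨g.1 • x.1, by rw [se_smul g.2]; exact x.2⟩

private theorem fgeMove_rel (g : Γ) (x y : FgeX Γ P) (h : (fgeSetoid Γ P).r x y) :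
    (fgeSetoid Γ P).r (fgeMove g x) (fgeMove g y) := by
  intro k hk
  have key : ∀ z : FgeX Γ P, k • (fgeMove g z).1 = (fgeMove g z).1 ↔ (g.1⁻¹ * k * g.1) • z.1 = z.1 := by
    intro z
    change k • (g.1 • z.1) = g.1 • z.1 ↔ _
    constructor
    · intro h1
      rw [mul_smul, mul_smul, h1, inv_smul_smul]
    · intro h1
      have : k • (g.1 • z.1) = g.1 • ((g.1⁻¹ * k * g.1) • z.1) := by
        simp only [smul_smul]
        congr 1
        group
      rw [this, h1]
  rw [key, key]
  exact h _ (Γ.mul_mem (Γ.mul_mem (Γ.inv_mem g.2) hk) g.2)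

private def fgeAct (g : Γ) : FgeQ Γ P → FgeQ Γ P :=
  Quotient.map (sa := fgeSetoid Γ P) (sb := fgeSetoid Γ P) (fgeMove g) (fun x y h => fgeMove_rel g x y h)

private theorem fgeAct_mk (g : Γ) (x : FgeX Γ P) :
    fgeAct g (Quotient.mk (fgeSetoid Γ P) x) = Quotient.mk (fgeSetoid Γ P) (fgeMove g x) := rfl

private theorem fgeAct_one (q : FgeQ Γ P) : fgeAct (1 : Γ) q = q := by
  induction q using Quotient.inductionOn with
  | h x =>
    rw [fgeAct_mk]
    congr 1
    apply Subtype.ext
    change (1 : G) • x.1 = x.1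
    exact one_smul _ _

private theorem fgeAct_mul (g k : Γ) (q : FgeQ Γ P) : fgeAct (g * k) q = fgeAct g (fgeAct k q) := by
  induction q using Quotient.inductionOn with
  | h x =>
    rw [fgeAct_mk, fgeAct_mk, fgeAct_mk]
    congr 1
    apply Subtype.ext
    change (g.1 * k.1) • x.1 = g.1 • (k.1 • x.1)
    exact mul_smul _ _ _

private def fgeHom (Γ : Subgroup G) (P : Type) [MulAction G P] : Γ →* Equiv.Perm (FgeQ Γ P) where
  toFun g := ⟨fgeAct g, fgeAct g⁻¹, fun q => by rw [← fgeAct_mul, inv_mul_cancel, fgeAct_one],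
    fun q => by rw [← fgeAct_mul, mul_inv_cancel, fgeAct_one]⟩
  map_one' := Equiv.ext fgeAct_one
  map_mul' g k := Equiv.ext (fgeAct_mul g k)

private theorem fge_mem_ker {g : Γ} (hg : g ∈ (fgeHom Γ P).ker) (x : FgeX Γ P) :
    ∀ k ∈ Γ, k • (g.1 • x.1) = g.1 • x.1 ↔ k • x.1 = x.1 := by
  rw [MonoidHom.mem_ker] at hg
  have h1 : fgeHom Γ P g (Quotient.mk (fgeSetoid Γ P) x) = Quotient.mk (fgeSetoid Γ P) x := by
    rw [hg]; rfl
  exact Quotient.exact h1

theorem Tri.v4_234 (h : Pol Γ P) {p₁ p₂ p₃ : P} (t : Tri Γ 2 3 4 24 p₁ p₂ p₃) :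
    ∃ V : Subgroup G, CanV P Γ V := by
  classical
  have := h.fin
  -- the orbit of `p₃`
  have hmem : ∀ x : P, se Γ x = 4 → ∃ g ∈ Γ, g • p₃ = x := by
    intro x hx
    obtain ⟨g, hg, h1 | h1 | h1⟩ := t.all x (by omega)
    · have := se_smul hg p₁
      rw [h1, hx, t.e₁] at this
      omega
    · have := se_smul hg p₂
      rw [h1, hx, t.e₂] at this
      omega
    · exact ⟨g, hg, h1⟩
  have hX : Nat.card (FgeX Γ P) = 6 := by
    have h1 := card_orbit_mul_se (Γ := Γ) p₃
    rw [t.e₃, t.card] at h1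
    have h2 : Nat.card (FgeX Γ P) = Nat.card {x : P // ∃ g ∈ Γ, g • p₃ = x} := by
      refine Nat.card_congr (Equiv.subtypeEquivRight ?_)
      intro x
      refine ⟨hmem x, ?_⟩
      rintro ⟨g, hg, rfl⟩
      rw [se_smul hg, t.e₃]
    omega
  have : Finite (FgeX Γ P) := Nat.finite_of_card_ne_zero (by rw [hX]; norm_num)
  have hopp : ∀ x : FgeX Γ P, ∃ q : FgeX Γ P, q ≠ x ∧ (∀ g ∈ Γ, g • x.1 = x.1 ↔ g • q.1 = q.1) ∧
      (∀ g ∈ Γ, g ≠ 1 → g • x.1 = x.1 → ∀ y : P, g • y = y ↔ (y = x.1 ∨ y = q.1)) ∧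
      (∀ g ∈ Γ, g • x.1 = q.1 → g • q.1 = x.1) := by
    intro x
    obtain ⟨q, h1, h2, h3, h4, h5⟩ := h.opp' (p := x.1) (by rw [x.2]; norm_num)
    exact ⟨⟨q, by rw [h2, x.2]⟩, fun hh => h1 (congrArg Subtype.val hh), h3, h4, h5⟩
  choose o ho1 ho2 ho3 ho4 using hopp
  -- a non-identity element fixing `x`
  have hne : ∀ x : FgeX Γ P, ∃ g ∈ Γ, g ≠ 1 ∧ g • x.1 = x.1 := by
    intro x
    exact (one_lt_se_iff x.1).1 (by rw [x.2]; norm_num)
  have hrel : ∀ (x : FgeX Γ P) (y : P), (∀ k ∈ Γ, k • y = y ↔ k • x.1 = x.1) → y = x.1 ∨ y = (o x).1 := by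
    intro x y hy
    obtain ⟨g, hg, h1, h2⟩ := hne x
    exact (ho3 x g hg h1 h2 y).1 ((hy g hg).2 h2)
  -- number of axes
  have : Finite (FgeQ Γ P) := Quotient.finite _
  have hQ : Nat.card (FgeQ Γ P) ≤ 3 := by
    let f : FgeQ Γ P × Bool → FgeX Γ P := fun c => if c.2 then Quotient.out (s := fgeSetoid Γ P) c.1
      else o (Quotient.out (s := fgeSetoid Γ P) c.1)
    have hcl : ∀ c : FgeQ Γ P × Bool, Quotient.mk (fgeSetoid Γ P) (f c) = c.1 := by
      rintro ⟨c, b⟩
      cases b
      · change Quotient.mk (fgeSetoid Γ P) (o (Quotient.out (s := fgeSetoid Γ P) c)) = c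
        have h1 : Quotient.mk (fgeSetoid Γ P) (Quotient.out (s := fgeSetoid Γ P) c) = c :=
          Quotient.out_eq (s := fgeSetoid Γ P) c
        refine Eq.trans ?_ h1
        apply Quotient.sound (s := fgeSetoid Γ P)
        intro g hg
        exact (ho2 _ g hg).symm
      · exact Quotient.out_eq (s := fgeSetoid Γ P) c
    have hinj : Function.Injective f := by
      rintro ⟨c, b⟩ ⟨c', b'⟩ hcc
      have e : c = c' := by
        have e1 : Quotient.mk (fgeSetoid Γ P) (f (c, b)) = c := hcl (c, b)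
        have e2 : Quotient.mk (fgeSetoid Γ P) (f (c', b')) = c' := hcl (c', b')
        rw [← e1, ← e2, hcc]
      subst e
      have : b = b' := by
        cases b <;> cases b'
        · rfl
        · exact absurd hcc (ho1 _)
        · exact absurd hcc.symm (ho1 _)
        · rfl
      rw [this]
    have h1 := Nat.card_le_card_of_injective _ hinj
    rw [Nat.card_prod, hX] at h1
    have h2 : Nat.card Bool = 2 := by simp
    rw [h2] at h1
    omega
  set K := (fgeHom Γ P).ker with hKdef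
  have hK4 : 4 ≤ Nat.card K := by
    have h1 : Nat.card K * K.index = 24 := by rw [Subgroup.card_mul_index, t.card]
    have h2 : K.index ≤ 6 := by
      rw [hKdef, Subgroup.index_ker]
      have h3 : Nat.card (Equiv.Perm (FgeQ Γ P)) = (Nat.card (FgeQ Γ P)).factorial := Nat.card_perm
      have h4 : (Nat.card (FgeQ Γ P)).factorial ≤ Nat.factorial 3 := Nat.factorial_le hQ
      have h5 : Nat.card (fgeHom Γ P).range ≤ Nat.card (Equiv.Perm (FgeQ Γ P)) :=
        Nat.card_le_card_of_injective _ Subtype.val_injective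
      have h6 : Nat.factorial 3 = 6 := rfl
      omega
    nlinarith
  set V : Subgroup G := K.map Γ.subtype with hV
  have hVcard : Nat.card V = Nat.card K := by
    rw [hV, Nat.card_congr (K.equivMapOfInjective Γ.subtype Γ.subtype_injective).toEquiv.symm]
  have hVle : V ≤ Γ := by
    rw [hV]
    intro x hx
    obtain ⟨y, _, rfl⟩ := hx
    exact y.2
  have hVK : ∀ v ∈ V, ∀ x : FgeX Γ P, v • x.1 = x.1 ∨ v • x.1 = (o x).1 := by
    intro v hv x
    rw [hV] at hv
    obtain ⟨y, hy, rfl⟩ := hv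
    exact hrel x _ (fge_mem_ker hy x)
  have hVK2 : ∀ v ∈ V, ∀ x : FgeX Γ P, (v * v) • x.1 = x.1 := by
    intro v hv x
    rw [mul_smul]
    rcases hVK v hv x with h1 | h1
    · rw [h1, h1]
    · rw [h1]
      exact ho4 x v (hVle hv) h1
  have hp3 : se Γ p₃ = 4 := t.e₃
  set p : FgeX Γ P := ⟨p₃, hp3⟩ with hp
  obtain ⟨q, hq1, hq2⟩ : ∃ q : FgeX Γ P, q ≠ p ∧ q ≠ o p := by
    by_contra hcon
    push Not at hcon
    have h1 : Nat.card (FgeX Γ P) ≤ 2 := by
      have hsurj : Function.Surjective (fun b : Bool => if b then p else o p) := by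
        intro x
        by_cases hx : x = p
        · exact ⟨true, by simp [hx]⟩
        · exact ⟨false, by simp [hcon x hx]⟩
      have h2 := Nat.card_le_card_of_surjective _ hsurj
      have h3 : Nat.card Bool = 2 := by simp
      omega
    omega
  have hsq : ∀ v ∈ V, v * v = 1 := by
    intro v hv
    by_contra hne1
    have h1 := (ho3 p (v * v) (Γ.mul_mem (hVle hv) (hVle hv)) hne1 (hVK2 v hv p) q.1).1 (hVK2 v hv q)
    rcases h1 with h1 | h1
    · exact hq1 (Subtype.ext h1)
    · exact hq2 (Subtype.ext h1)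
  have : Finite V := Finite.of_injective (fun v : V => (⟨v.1, hVle v.2⟩ : Γ)) (fun a b hab => by
    apply Subtype.ext
    exact congrArg (fun x : Γ => (x : G)) hab)
  have hVle4 : Nat.card V ≤ 4 := by
    have h1 := card_orbit_mul_se (Γ := V) p₃
    have h2 : Nat.card {x : P // ∃ g ∈ V, g • p₃ = x} ≤ 2 := by
      have hsurj : Function.Injective (fun x : {x : P // ∃ g ∈ V, g • p₃ = x} => decide (x.1 = p₃)) := by
        rintro ⟨x, gx, hgx, rfl⟩ ⟨y, gy, hgy, rfl⟩ hxy
        apply Subtype.ext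
        simp only [decide_eq_decide] at hxy
        change gx • p₃ = gy • p₃
        rcases hVK gx hgx p with h3 | h3 <;> rcases hVK gy hgy p with h4 | h4
        · exact h3.trans h4.symm
        · exact h3.trans (hxy.1 h3).symm
        · exact (hxy.2 h4).trans h4.symm
        · exact h3.trans h4.symm
      have h3 := Nat.card_le_card_of_injective _ hsurj
      have h4 : Nat.card Bool = 2 := by simp
      omega
    have h3 : se V p₃ ≤ 2 := by
      obtain ⟨g0, hg0, hgx, hall⟩ := h.cyc p₃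
      have ho : orderOf g0 = 4 := by rw [orderOf_gen hg0 hgx hall, hp3]
      have key : ∀ v ∈ V, v • p₃ = p₃ → v = 1 ∨ v = g0 ^ 2 := by
        intro v hv hvp
        obtain ⟨n, rfl⟩ := hall v (hVle hv) hvp
        have h5 := hsq _ hv
        rw [← pow_add] at h5
        have h6 := orderOf_dvd_of_pow_eq_one h5
        rw [ho] at h6
        obtain ⟨m, hm⟩ := h6
        have h7 : n = 2 * m := by omega
        rw [h7, pow_mul]
        have h8 : (g0 ^ 2) ^ 2 = 1 := by
          rw [← pow_mul, show 2 * 2 = orderOf g0 by rw [ho], pow_orderOf_eq_one]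
        rcases Nat.even_or_odd' m with ⟨l, hl | hl⟩
        · left
          rw [hl, pow_mul, h8, one_pow]
        · right
          rw [hl, pow_succ, pow_mul, h8, one_pow, one_mul]
      have hinj : Function.Injective (fun x : {g : G // g ∈ V ∧ g • p₃ = p₃} => decide (x.1 = 1)) := by
        rintro ⟨x, hx, hx'⟩ ⟨y, hy, hy'⟩ hxy
        apply Subtype.ext
        simp only [decide_eq_decide] at hxy
        change x = y
        rcases key x hx hx' with h5 | h5 <;> rcases key y hy hy' with h6 | h6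
        · exact h5.trans h6.symm
        · exact h5.trans (hxy.1 h5).symm
        · exact (hxy.2 h6).trans h6.symm
        · exact h5.trans h6.symm
      have h3 := Nat.card_le_card_of_injective _ hinj
      have h4 : Nat.card Bool = 2 := by simp
      unfold se
      omega
    rw [← h1]
    calc _ ≤ 2 * 2 := Nat.mul_le_mul h2 h3
      _ = 4 := rfl
  have hVcard4 : Nat.card V = 4 := by omega
  have hconj : ∀ g ∈ Γ, ∀ v ∈ V, g * v * g⁻¹ ∈ V := by
    intro g hg v hv
    rw [hV] at hv ⊢
    obtain ⟨y, hy, rfl⟩ := hv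
    exact ⟨⟨g, hg⟩ * y * ⟨g, hg⟩⁻¹, (fgeHom Γ P).normal_ker.conj_mem y hy ⟨g, hg⟩, rfl⟩
  refine ⟨V, h.no_ax (Or.inr (Or.inr (Or.inl t))), ⟨hVcard4, hsq⟩, hVle, ?_⟩
  intro g hg
  rw [Subgroup.mem_normalizer_iff]
  intro v
  constructor
  · intro hv
    exact hconj g hg v hv
  · intro hv
    have h1 := hconj g⁻¹ (Γ.inv_mem hg) _ hv
    have e : g⁻¹ * (g * v * g⁻¹) * g⁻¹⁻¹ = v := by group
    rwa [e] at h1

end Pool.Agent.MRat
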