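import Pool.Agent.Lib.MP_923aff_ag.FGC
/-!
# JOB FGF: swapped axes

`g₀ ∈ Γ`, `g₀ ≠ 1`, fixes `p ≠ q`. If no element of `Γ` maps `p` to `q` then there are two orbits of poles with
the same `se` (`Pol.opp'`: `q` is the opposite point of `p`), or the cyclic type. Cyclic type: `AxPair Γ p q`.
`(2, 2, n)`, `n ≥ 3`: `se Γ p = 2`, the axis `{x, y}` is the orbit of `p₃`; `g₀` preserves it and does not fix `x`
(the fixed points of `g₀` are `p, q`). `(2, 2, 2)`: the group is abelian; an element which does not fix `p` maps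
`p` to a fixed point of `g₀`, hence to `q`.
`(2, 3, 3)`: `se Γ p = 3`. Other types: the numbers `se` of different orbits differ.
-/

set_option autoImplicit false

namespace Pool.Agent.MRat

variable {G P : Type} [Group G] [MulAction G P] {Γ : Subgroup G}

theorem FGF_orb {a b c N : ℕ} {p₁ p₂ p₃ : P} (t : Tri Γ a b c N p₁ p₂ p₃) {x : P}
    (hx : 1 < se Γ x) :
    ((∃ g ∈ Γ, g • p₁ = x) ∧ se Γ x = a) ∨ ((∃ g ∈ Γ, g • p₂ = x) ∧ se Γ x = b) ∨
      ((∃ g ∈ Γ, g • p₃ = x) ∧ se Γ x = c) := by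
  obtain ⟨g, hg, h1 | h1 | h1⟩ := t.all x hx
  · exact Or.inl ⟨⟨g, hg, h1⟩, by rw [← h1, se_smul hg, t.e₁]⟩
  · exact Or.inr (Or.inl ⟨⟨g, hg, h1⟩, by rw [← h1, se_smul hg, t.e₂]⟩)
  · exact Or.inr (Or.inr ⟨⟨g, hg, h1⟩, by rw [← h1, se_smul hg, t.e₃]⟩)

theorem FGF_trans {r x y : P} (hx : ∃ g ∈ Γ, g • r = x) (hy : ∃ g ∈ Γ, g • r = y) :
    ∃ g ∈ Γ, g • x = y := by
  obtain ⟨g, hg, rfl⟩ := hx
  obtain ⟨g', hg', rfl⟩ := hy
  exact ⟨g' * g⁻¹, Γ.mul_mem hg' (Γ.inv_mem hg), by rw [mul_smul, inv_smul_smul]⟩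

/-- The second fixed point is the opposite point. -/
theorem FGF_opp (h : Pol Γ P) {g₀ : G} (hg₀ : g₀ ∈ Γ) (h1 : g₀ ≠ 1) {p q : P} (hpq : p ≠ q)
    (hp : g₀ • p = p) (hq : g₀ • q = q) :
    1 < se Γ p ∧ se Γ q = se Γ p ∧ (∀ x : P, g₀ • x = x ↔ (x = p ∨ x = q)) ∧
      (∀ g ∈ Γ, g • p = q → g • q = p) := by
  have := h.fin
  have hp1 : 1 < se Γ p := (one_lt_se_iff p).2 ⟨g₀, hg₀, h1, hp⟩
  obtain ⟨q', hq'p, hse, _, hfix, hsw⟩ := h.opp' hp1
  have hqq : q = q' := by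
    rcases (hfix g₀ hg₀ h1 hp q).1 hq with h | h
    · exact absurd h.symm hpq
    · exact h
  subst hqq
  exact ⟨hp1, hse, hfix g₀ hg₀ h1 hp, hsw⟩

/-- Orbits of size two. -/
theorem FGF_two [Finite Γ] {n : ℕ} (hn : 0 < n) (hc : Nat.card Γ = 2 * n) {x y : P}
    (hx : se Γ x = n) (hxy : x ≠ y) (hy : ∃ g ∈ Γ, g • x = y) {g : G} (hg : g ∈ Γ) :
    g • x = x ∨ g • x = y := by
  classical
  have hcard := card_orbit_mul_se (Γ := Γ) x
  rw [hx, hc] at hcard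
  have h2 : Nat.card {z : P // ∃ g ∈ Γ, g • x = z} = 2 := Nat.eq_of_mul_eq_mul_right hn hcard
  have : Finite {z : P // ∃ g ∈ Γ, g • x = z} := Nat.finite_of_card_ne_zero (by rw [h2]; decide)
  by_contra hcon
  push Not at hcon
  have h3 : ({⟨x, 1, Γ.one_mem, one_smul _ _⟩, ⟨y, hy⟩, ⟨g • x, g, hg, rfl⟩} :
      Finset {z : P // ∃ g ∈ Γ, g • x = z}).card = 3 := by
    rw [Finset.card_eq_three]
    refine ⟨_, _, _, ?_, ?_, ?_, rfl⟩
    · intro h; exact hxy (congrArg Subtype.val h)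
    · intro h; exact hcon.1 (congrArg Subtype.val h).symm
    · intro h; exact hcon.2 (congrArg Subtype.val h).symm
  have := Fintype.ofFinite {z : P // ∃ g ∈ Γ, g • x = z}
  have h4 := Finset.card_le_univ ({⟨x, 1, Γ.one_mem, one_smul _ _⟩, ⟨y, hy⟩, ⟨g • x, g, hg, rfl⟩} :
      Finset {z : P // ∃ g ∈ Γ, g • x = z})
  rw [h3, ← Nat.card_eq_fintype_card, h2] at h4
  omega

theorem Pol.swap (h : Pol Γ P) {g₀ : G} (hg₀ : g₀ ∈ Γ) (h1 : g₀ ≠ 1) {p q : P} (hpq : p ≠ q)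
    (hp : g₀ • p = p) (hq : g₀ • q = q) (hax : ¬ AxPair Γ p q) :
    (∃ g ∈ Γ, g • p = q ∧ g • q = p) ∨ se Γ p = 3 ∨
      (se Γ p = 2 ∧ ∃ x y : P, AxPair Γ x y ∧ 3 ≤ se Γ x ∧ g₀ • x = y ∧ g₀ • y = x) := by
  have := h.fin
  obtain ⟨hp1, hse, hfix, hsw⟩ := FGF_opp h hg₀ h1 hpq hp hq
  by_cases hno : ∃ g ∈ Γ, g • p = q
  · obtain ⟨g, hg, hgp⟩ := hno
    exact Or.inl ⟨g, hg, hgp, hsw g hg hgp⟩
  have hq1 : 1 < se Γ q := by rw [hse]; exact hp1
  have hN : 1 < Nat.card Γ :=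
    lt_of_lt_of_le hp1 (Nat.le_of_dvd Nat.card_pos (se_dvd p))
  rcases h.types hN with ⟨a, b, hab, hfx, hall⟩ | ⟨p₁, p₂, p₃, ⟨n, hn, t⟩ | t | t | t⟩
  · -- cyclic
    exfalso
    apply hax
    have hfx' : ∀ g ∈ Γ, g • p = p ∧ g • q = q := by
      intro g hg
      rcases hall p hp1 with rfl | rfl <;> rcases hall q hq1 with rfl | rfl
      · exact absurd rfl hpq
      · exact hfx g hg
      · exact (hfx g hg).symm
      · exact absurd rfl hpq
    have hall' : ∀ x : P, 1 < se Γ x → x = p ∨ x = q := by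
      intro x hx
      obtain ⟨g, hg, hg1, hgx⟩ := (one_lt_se_iff x).1 hx
      exact (hfix x).1 ((h.same hg hg₀ hg1 h1 (hfx' g hg).1 hp x).1 hgx)
    exact h.axPair_cyclic hN hpq hfx' hall'
  · -- dihedral
    rcases Nat.lt_or_ge n 3 with hn3 | hn3
    · -- Klein four group
      have hn2 : n = 2 := by omega
      subst hn2
      left
      have hsp : se Γ p = 2 := by
        rcases FGF_orb t hp1 with ⟨_, h⟩ | ⟨_, h⟩ | ⟨_, h⟩ <;> exact h
      have hcomm : ∀ x y : Γ, x * y = y * x := by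
        have : Fact (Nat.Prime 2) := ⟨Nat.prime_two⟩
        exact IsPGroup.commutative_of_card_eq_prime_sq (p := 2) (by rw [t.card]; norm_num)
      obtain ⟨z, hz, hzp⟩ : ∃ z ∈ Γ, z • p ≠ p := by
        by_contra hcon
        push Not at hcon
        have : se Γ p = Nat.card Γ := by
          unfold se
          refine Nat.card_congr (Equiv.subtypeEquivRight ?_)
          intro x
          exact ⟨fun hx => hx.1, fun hx => ⟨hx, hcon x hx⟩⟩
        rw [hsp, t.card] at this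
        omega
      have hc := congrArg Subtype.val (hcomm ⟨g₀, hg₀⟩ ⟨z, hz⟩)
      have hc' : g₀ * z = z * g₀ := hc
      have hzf : g₀ • (z • p) = z • p := by
        rw [← mul_smul, hc', mul_smul, hp]
      rcases (hfix _).1 hzf with h2 | h2
      · exact absurd h2 hzp
      · exact ⟨z, hz, h2, hsw z hz h2⟩
    · -- a proper dihedral group
      right; right
      have hsp : se Γ p = 2 := by
        rcases FGF_orb t hp1 with ⟨_, h⟩ | ⟨_, h⟩ | ⟨hpo, hpe⟩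
        · exact h
        · exact h
        · exfalso
          rcases FGF_orb t hq1 with ⟨_, h⟩ | ⟨_, h⟩ | ⟨hqo, _⟩
          · omega
          · omega
          · exact hno (FGF_trans hpo hqo)
      refine ⟨hsp, ?_⟩
      obtain ⟨q₃, hA, ho, h3⟩ := h.axPair_dihedral hn3 t
      have hfa : ∀ {g : G}, g ∈ Γ → g • p₃ = p₃ ∨ g • p₃ = q₃ := fun {g} hg =>
        FGF_two (Γ := Γ) (by omega) t.card t.e₃ hA.1 ho hg
      have h3' : se Γ p₃ = n := t.e₃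
      have hnp : p₃ ≠ p := by
        rintro rfl
        omega
      have hnq : p₃ ≠ q := by
        rintro rfl
        omega
      have hg3 : g₀ • p₃ = q₃ := by
        rcases hfa hg₀ with h2 | h2
        · rcases (hfix _).1 h2 with h4 | h4
          · exact absurd h4 hnp
          · exact absurd h4 hnq
        · exact h2
      refine ⟨p₃, q₃, hA, h3, hg3, ?_⟩
      have hgg := hfa (Γ.mul_mem hg₀ hg₀)
      rw [mul_smul, hg3] at hgg
      rcases hgg with h2 | h2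
      · exact h2
      · exfalso
        have : g₀ • p₃ = g₀ • q₃ := by rw [hg3, h2]
        exact hA.1 (smul_left_cancel g₀ this)
  · -- tetrahedral
    rcases FGF_orb t hp1 with ⟨hpo, hpe⟩ | ⟨_, h⟩ | ⟨_, h⟩
    · exfalso
      rcases FGF_orb t hq1 with ⟨hqo, _⟩ | ⟨_, h⟩ | ⟨_, h⟩
      · exact hno (FGF_trans hpo hqo)
      · omega
      · omega
    · exact Or.inr (Or.inl h)
    · exact Or.inr (Or.inl h)
  · exfalso
    rcases FGF_orb t hp1 with ⟨hpo, hpe⟩ | ⟨hpo, hpe⟩ | ⟨hpo, hpe⟩ <;>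
      rcases FGF_orb t hq1 with ⟨hqo, hqe⟩ | ⟨hqo, hqe⟩ | ⟨hqo, hqe⟩ <;>
      first
        | exact hno (FGF_trans hpo hqo)
        | omega
  · exfalso
    rcases FGF_orb t hp1 with ⟨hpo, hpe⟩ | ⟨hpo, hpe⟩ | ⟨hpo, hpe⟩ <;>
      rcases FGF_orb t hq1 with ⟨hqo, hqe⟩ | ⟨hqo, hqe⟩ | ⟨hqo, hqe⟩ <;>
      first
        | exact hno (FGF_trans hpo hqo)
        | omega

/-- In the icosahedral type all axes are swapped. -/
theorem Pol.swap_ico (h : Pol Γ P) {p₁ p₂ p₃ : P} (t : Tri Γ 2 3 5 60 p₁ p₂ p₃) {g₀ : G}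
    (hg₀ : g₀ ∈ Γ) (h1 : g₀ ≠ 1) {p q : P} (hpq : p ≠ q) (hp : g₀ • p = p) (hq : g₀ • q = q) :
    ∃ g ∈ Γ, g • p = q ∧ g • q = p := by
  obtain ⟨hp1, hse, hfix, hsw⟩ := FGF_opp h hg₀ h1 hpq hp hq
  have hq1 : 1 < se Γ q := by rw [hse]; exact hp1
  have hno : ∃ g ∈ Γ, g • p = q := by
    rcases FGF_orb t hp1 with ⟨hpo, hpe⟩ | ⟨hpo, hpe⟩ | ⟨hpo, hpe⟩ <;>
      rcases FGF_orb t hq1 with ⟨hqo, hqe⟩ | ⟨hqo, hqe⟩ | ⟨hqo, hqe⟩ <;>
      first
        | exact FGF_trans hpo hqo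
        | (exfalso; omega)
  obtain ⟨g, hg, hgp⟩ := hno
  exact ⟨g, hg, hgp, hsw g hg hgp⟩

end Pool.Agent.MRat
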