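import Pool.Agent.Lib.MP_923aff_ag.FGD
import Pool.Agent.Lib.MP_923aff_ag.FGE
/-!
# JOB FGG: assembly; properties of axes
-/

set_option autoImplicit false

namespace Pool.Agent.MRat

variable {G P : Type} [Group G] [MulAction G P] {Γ : Subgroup G}

private theorem FGG_fixed [Finite Γ] {p : P} (h : se Γ p = Nat.card Γ) :
    ∀ g ∈ Γ, g • p = p := by
  intro g hg
  have h1 := card_orbit_mul_se (Γ := Γ) p
  have hpos : 0 < Nat.card Γ := Nat.card_pos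
  rw [h] at h1
  have h2 : Nat.card {x : P // ∃ g ∈ Γ, g • p = x} = 1 := by
    have h3 : Nat.card {x : P // ∃ g ∈ Γ, g • p = x} * Nat.card Γ = 1 * Nat.card Γ := by
      rw [h1, one_mul]
    exact Nat.eq_of_mul_eq_mul_right hpos h3
  obtain ⟨a, ha⟩ := Nat.card_eq_one_iff_exists.1 h2
  have e1 := ha ⟨g • p, g, hg, rfl⟩
  have e2 := ha ⟨p, 1, Γ.one_mem, one_smul _ _⟩
  exact congrArg Subtype.val (e1.trans e2.symm)

private theorem FGG_se_le [Finite Γ] (p : P) : se Γ p ≤ Nat.card Γ :=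
  Nat.le_of_dvd Nat.card_pos (se_dvd p)

/-- The classification. -/
theorem Pol.classification (h : Pol Γ P) (hN : Γ ≠ ⊥) :
    (∃ p q : P, AxPair Γ p q) ∨ (∃ V : Subgroup G, CanV P Γ V) ∨
      ∃ p₁ p₂ p₃ : P, Tri Γ 2 3 5 60 p₁ p₂ p₃ := by
  have := h.fin
  have hN1 : 1 < Nat.card Γ := by
    rw [Finite.one_lt_card_iff_nontrivial]
    exact (Subgroup.nontrivial_iff_ne_bot Γ).2 hN
  rcases h.types hN1 with ⟨p, q, hpq, h1, h2⟩ | ⟨p₁, p₂, p₃, ⟨n, hn, t⟩ | t | t | t⟩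
  · exact Or.inl ⟨p, q, h.axPair_cyclic hN1 hpq h1 h2⟩
  · rcases Nat.lt_or_ge n 3 with hn3 | hn3
    · obtain rfl : n = 2 := by omega
      exact Or.inr (Or.inl (Tri.v4_222 h t))
    · obtain ⟨q, hq, -, -⟩ := h.axPair_dihedral hn3 t
      exact Or.inl ⟨p₃, q, hq⟩
  · exact Or.inr (Or.inl (Tri.v4_233 h t))
  · exact Or.inr (Or.inl (Tri.v4_234 h t))
  · exact Or.inr (Or.inr ⟨p₁, p₂, p₃, t⟩)

private theorem FGG_one_lt {p : P} (hp : Ax Γ p) : 1 < se Γ p := by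
  rcases hp with ⟨-, h2⟩ | ⟨h2, -⟩ <;> omega

/-- An axis has a companion. -/
theorem Pol.axPair_of_ax (h : Pol Γ P) {p : P} (hp : Ax Γ p) : ∃ q, AxPair Γ p q := by
  obtain ⟨q, hq, hse, hiff, -, -⟩ := h.opp' (FGG_one_lt hp)
  refine ⟨q, hq.symm, hp, ?_⟩
  rcases hp with ⟨h1, h2⟩ | ⟨h1, h2⟩
  · exact Or.inl ⟨h1, by rw [hse, h2]⟩
  · exact Or.inr ⟨by rw [hse]; exact h1, fun x hx g hg hgq => h2 x hx g hg ((hiff g hg).2 hgq)⟩

theorem AxPair.symm {p q : P} (hpq : AxPair Γ p q) : AxPair Γ q p := ⟨hpq.1.symm, hpq.2.2, hpq.2.1⟩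

/-- A non-identity element fixing all axis points. -/
private theorem FGG_common (h : Pol Γ P) {p : P} (hp : Ax Γ p) :
    ∃ g ∈ Γ, g ≠ 1 ∧ ∀ x : P, Ax Γ x → g • x = x := by
  have := h.fin
  obtain ⟨g, hg, hg1, hgp⟩ := (one_lt_se_iff (Γ := Γ) p).1 (FGG_one_lt hp)
  refine ⟨g, hg, hg1, fun x hx => ?_⟩
  rcases hp with ⟨h1, h2⟩ | ⟨h1, h2⟩
  · have hx2 : se Γ x = Nat.card Γ := by
      rcases hx with ⟨h3, h4⟩ | ⟨h3, -⟩
      · rw [h4, h3]
      · have := FGG_se_le (Γ := Γ) x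
        omega
    exact FGG_fixed hx2 g hg
  · rcases hx with ⟨h3, -⟩ | ⟨h3, -⟩
    · have := FGG_se_le (Γ := Γ) p
      omega
    · exact h2 x h3 g hg hgp

/-- The axis is unique. -/
theorem Pol.axPair_unique (h : Pol Γ P) {p q p' q' : P} (h1 : AxPair Γ p q) (h2 : AxPair Γ p' q') :
    (p' = p ∧ q' = q) ∨ (p' = q ∧ q' = p) := by
  obtain ⟨g, hg, hg1, hfix⟩ := FGG_common h h1.2.1
  obtain ⟨u, v, huv, huv'⟩ := h.fix2 g hg hg1
  have ep := (huv' p).1 (hfix p h1.2.1)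
  have eq := (huv' q).1 (hfix q h1.2.2)
  have ep' := (huv' p').1 (hfix p' h2.2.1)
  have eq' := (huv' q').1 (hfix q' h2.2.2)
  have n1 := h1.1
  have n2 := h2.1
  rcases ep with rfl | rfl <;> rcases eq with rfl | rfl <;> rcases ep' with rfl | rfl <;>
    rcases eq' with rfl | rfl <;> simp_all

private theorem FGG_ax_smul {p : P} (hp : Ax Γ p) {g : G} (hg : g ∈ Γ) : Ax Γ (g • p) := by
  rcases hp with ⟨h1, h2⟩ | ⟨h1, h2⟩
  · exact Or.inl ⟨h1, by rw [se_smul hg, h2]⟩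
  · refine Or.inr ⟨by rw [se_smul hg]; exact h1, fun x hx k hk hkp => ?_⟩
    have e1 : (g⁻¹ * k * g) • p = p := by
      rw [mul_smul, mul_smul, hkp, inv_smul_smul]
    have e2 := h2 (g⁻¹ • x) (by rw [se_smul (Γ.inv_mem hg)]; exact hx) (g⁻¹ * k * g)
      (Γ.mul_mem (Γ.mul_mem (Γ.inv_mem hg) hk) hg) e1
    rw [mul_smul, mul_smul, smul_inv_smul] at e2
    exact MulAction.injective g⁻¹ e2

/-- The elements of `Γ` preserve the axis, and the stabiliser of `p` fixes `q` and is not trivial. -/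
theorem Pol.axPair_inv (h : Pol Γ P) {p q : P} (h1 : AxPair Γ p q) :
    (∀ g ∈ Γ, (g • p = p ∧ g • q = q) ∨ (g • p = q ∧ g • q = p)) ∧ 1 < se Γ p ∧ se Γ p = se Γ q := by
  refine ⟨fun g hg => ?_, FGG_one_lt h1.2.1, ?_⟩
  · exact h.axPair_unique h1
      ⟨fun he => h1.1 (MulAction.injective g he), FGG_ax_smul h1.2.1 hg, FGG_ax_smul h1.2.2 hg⟩
  · obtain ⟨q₀, hq₀, hse, -, hfix, -⟩ := h.opp' (FGG_one_lt h1.2.1)
    obtain ⟨g, hg, hg1, hg2⟩ := FGG_common h h1.2.1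
    rcases (hfix g hg hg1 (hg2 p h1.2.1) q).1 (hg2 q h1.2.2) with h3 | h3
    · exact absurd h3.symm h1.1
    · rw [h3, hse]

private theorem FGG_mem {g x : G} :
    x ∈ Γ.map (MulAut.conj g).toMonoidHom ↔ g⁻¹ * x * g ∈ Γ := by
  rw [Subgroup.mem_map]
  constructor
  · rintro ⟨y, hy, rfl⟩
    have : g⁻¹ * (MulAut.conj g).toMonoidHom y * g = y := by
      simp [mul_assoc]
    rwa [this]
  · intro hx
    refine ⟨g⁻¹ * x * g, hx, ?_⟩
    simp [mul_assoc]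

private theorem FGG_map_map (g : G) (Γ : Subgroup G) :
    (Γ.map (MulAut.conj g).toMonoidHom).map (MulAut.conj g⁻¹).toMonoidHom = Γ := by
  ext x
  rw [FGG_mem, FGG_mem]
  have : g⁻¹ * (g⁻¹⁻¹ * x * g⁻¹) * g = x := by
    simp [mul_assoc]
  rw [this]

private theorem FGG_card (g : G) :
    Nat.card (Γ.map (MulAut.conj g).toMonoidHom) = Nat.card Γ :=
  Subgroup.card_map_of_injective (MulAut.conj g).injective

/-- Equivariance of `se`, `Ax`, `AxPair`, `CanV`, `Tri`. -/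
theorem se_conj (g : G) (p : P) : se (Γ.map (MulAut.conj g).toMonoidHom) (g • p) = se Γ p := by
  unfold se
  refine Nat.card_congr ⟨fun h => ⟨g⁻¹ * h.1 * g, FGG_mem.1 h.2.1, ?_⟩,
    fun h => ⟨g * h.1 * g⁻¹, FGG_mem.2 ?_, ?_⟩, ?_, ?_⟩
  · rw [mul_smul, mul_smul, h.2.2, inv_smul_smul]
  · have : g⁻¹ * (g * h.1 * g⁻¹) * g = h.1 := by simp [mul_assoc]
    rw [this]
    exact h.2.1
  · rw [mul_smul, mul_smul, inv_smul_smul, h.2.2]
  · intro h; apply Subtype.ext; simp [mul_assoc]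
  · intro h; apply Subtype.ext; simp [mul_assoc]

private theorem FGG_se_conj' (g : G) (x : P) :
    se (Γ.map (MulAut.conj g).toMonoidHom) x = se Γ (g⁻¹ • x) := by
  have := se_conj (Γ := Γ) g (g⁻¹ • x)
  rwa [smul_inv_smul] at this

private theorem FGG_ax_conj_mpr (g : G) {Γ : Subgroup G} {p : P} (hp : Ax Γ p) :
    Ax (Γ.map (MulAut.conj g).toMonoidHom) (g • p) := by
  rcases hp with ⟨h1, h2⟩ | ⟨h1, h2⟩
  · exact Or.inl ⟨by rw [FGG_card, h1], by rw [se_conj, h2]⟩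
  · refine Or.inr ⟨by rw [se_conj]; exact h1, fun x hx k hk hkp => ?_⟩
    rw [FGG_se_conj'] at hx
    have e1 : (g⁻¹ * k * g) • p = p := by
      rw [mul_smul, mul_smul, hkp, inv_smul_smul]
    have e2 := h2 (g⁻¹ • x) hx (g⁻¹ * k * g) (FGG_mem.1 hk) e1
    rw [mul_smul, mul_smul, smul_inv_smul] at e2
    exact MulAction.injective g⁻¹ e2

theorem ax_conj (g : G) (p : P) : Ax (Γ.map (MulAut.conj g).toMonoidHom) (g • p) ↔ Ax Γ p := by
  constructor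
  · intro h
    have h2 := FGG_ax_conj_mpr g⁻¹ h
    rwa [FGG_map_map, inv_smul_smul] at h2
  · exact FGG_ax_conj_mpr g

theorem axPair_conj (g : G) (p q : P) :
    AxPair (Γ.map (MulAut.conj g).toMonoidHom) (g • p) (g • q) ↔ AxPair Γ p q := by
  unfold AxPair
  rw [ax_conj, ax_conj, (MulAction.injective g).ne_iff]

private theorem FGG_canV (g : G) {Γ V : Subgroup G} (h : CanV P Γ V) :
    CanV P (Γ.map (MulAut.conj g).toMonoidHom) (V.map (MulAut.conj g).toMonoidHom) := by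
  obtain ⟨h1, ⟨h2, h3⟩, h4, h5⟩ := h
  refine ⟨?_, ⟨by rw [FGG_card, h2], ?_⟩, Subgroup.map_mono h4, ?_⟩
  · rintro ⟨p, hp⟩
    apply h1
    refine ⟨g⁻¹ • p, (ax_conj g (g⁻¹ • p)).1 ?_⟩
    rwa [smul_inv_smul]
  · intro v hv
    have h6 := h3 _ (FGG_mem.1 hv)
    have h7 : g⁻¹ * v * g * (g⁻¹ * v * g) = g⁻¹ * (v * v) * g := by simp [mul_assoc]
    rw [h7] at h6
    have h8 : v * v = g * (g⁻¹ * (v * v) * g) * g⁻¹ := by simp [mul_assoc]
    rw [h8, h6]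
    simp
  · intro x hx
    have h6 := h5 (FGG_mem.1 hx)
    rw [Subgroup.mem_normalizer_iff] at h6 ⊢
    intro y
    show y ∈ V.map (MulAut.conj g).toMonoidHom ↔
      x * y * x⁻¹ ∈ V.map (MulAut.conj g).toMonoidHom
    rw [FGG_mem, FGG_mem]
    have h7 := h6 (g⁻¹ * y * g)
    have h8 : g⁻¹ * x * g * (g⁻¹ * y * g) * (g⁻¹ * x * g)⁻¹ = g⁻¹ * (x * y * x⁻¹) * g := by
      simp [mul_assoc]
    rw [h8] at h7
    exact h7

theorem canV_conj (g : G) (V : Subgroup G) :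
    CanV P (Γ.map (MulAut.conj g).toMonoidHom) (V.map (MulAut.conj g).toMonoidHom) ↔ CanV P Γ V := by
  constructor
  · intro h
    have h2 := FGG_canV g⁻¹ h
    rwa [FGG_map_map, FGG_map_map] at h2
  · exact FGG_canV g

end Pool.Agent.MRat
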