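import Pool.Agent.Lib.MP_923aff_ag.FGG
/-!
# `PGL(2, k)` and the projective line in coordinates

`gm a b c d` is the class of the matrix `(a b; c d)` acting on `z = [z : 1]` by `(a z + b) / (c z + d)`.
-/

set_option autoImplicit false

namespace Pool.Agent.MRat

open scoped MatrixGroups LinearAlgebra.Projectivization
open Matrix

variable {k : Type} [Field k]

/-- The projective line. -/
abbrev PL (k : Type) [Field k] : Type := ℙ k (Fin 2 → k)

theorem vec_ne (z : k) : (![z, 1] : Fin 2 → k) ≠ 0 := by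
  intro h
  have := congrFun h 1
  simp at this

theorem vec_ne' : (![1, 0] : Fin 2 → k) ≠ 0 := by
  intro h
  have := congrFun h 0
  simp at this

/-- The point `[z : 1]`. -/
def ptz (z : k) : PL k := Projectivization.mk k ![z, 1] (vec_ne z)

/-- The point at infinity `[1 : 0]`. -/
def ptI (k : Type) [Field k] : PL k := Projectivization.mk k ![1, 0] vec_ne'

theorem ptz_inj {z w : k} : ptz z = ptz w ↔ z = w := by
  unfold ptz
  rw [Projectivization.mk_eq_mk_iff']
  constructor
  · rintro ⟨a, ha⟩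
    have h0 := congrFun ha 0
    have h1 := congrFun ha 1
    simp at h0 h1
    rw [← h0, h1, one_mul]
  · rintro rfl
    exact ⟨1, by simp⟩

theorem ptz_ne_ptI (z : k) : ptz z ≠ ptI k := by
  unfold ptz ptI
  rw [ne_eq, Projectivization.mk_eq_mk_iff']
  rintro ⟨a, ha⟩
  have h1 := congrFun ha 1
  simp at h1

theorem pl_cases (p : PL k) : p = ptI k ∨ ∃ z, p = ptz z := by
  induction p using Projectivization.ind with | _ v hv =>
  by_cases h : v 1 = 0
  · left
    unfold ptI
    rw [Projectivization.mk_eq_mk_iff']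
    refine ⟨v 0, ?_⟩
    funext i
    fin_cases i
    · simp
    · simp [h]
  · right
    refine ⟨v 0 / v 1, ?_⟩
    unfold ptz
    rw [Projectivization.mk_eq_mk_iff']
    refine ⟨v 1, ?_⟩
    funext i
    fin_cases i
    · simp; field_simp
    · simp

/-- The element of `GL(2, k)` with given entries. -/
noncomputable def glm (a b c d : k) (h : a * d - b * c ≠ 0) : GL (Fin 2) k :=
  Matrix.GeneralLinearGroup.mkOfDetNeZero !![a, b; c, d] (by rwa [Matrix.det_fin_two_of])

/-- The element of `PGL(2, k)` with given entries. -/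
noncomputable def gm (a b c d : k) (h : a * d - b * c ≠ 0) : PGL(2, k) :=
  Matrix.ProjGenLinGroup.mk (glm a b c d h)

theorem gm_surj (g : PGL(2, k)) : ∃ a b c d : k, ∃ h : a * d - b * c ≠ 0, g = gm a b c d h := by
  induction g using Matrix.ProjGenLinGroup.induction_on with | mk g =>
  have hdet : g 0 0 * g 1 1 - g 0 1 * g 1 0 ≠ 0 := by
    have := g.det_ne_zero
    rwa [Matrix.det_fin_two] at this
  refine ⟨g 0 0, g 0 1, g 1 0, g 1 1, hdet, ?_⟩
  unfold gm glm
  congr 1
  apply Units.ext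
  ext i j
  fin_cases i <;> fin_cases j <;> rfl

theorem gm_eq_iff {a b c d a' b' c' d' : k} {h : a * d - b * c ≠ 0} {h' : a' * d' - b' * c' ≠ 0} :
    gm a b c d h = gm a' b' c' d' h' ↔
      ∃ u : k, u ≠ 0 ∧ a' = u * a ∧ b' = u * b ∧ c' = u * c ∧ d' = u * d := by
  unfold gm
  rw [Matrix.ProjGenLinGroup.mk_eq_mk_iff]
  constructor
  · rintro ⟨u, hu⟩
    refine ⟨u, u.ne_zero, ?_⟩
    have e : ∀ i j, (glm a b c d h * Matrix.GeneralLinearGroup.scalar (Fin 2) u) i j =
        (glm a' b' c' d' h') i j := fun i j => by rw [hu]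
    have e00 := e 0 0
    have e01 := e 0 1
    have e10 := e 1 0
    have e11 := e 1 1
    simp [glm, Matrix.mul_apply, Fin.sum_univ_two, Matrix.GeneralLinearGroup.scalar] at e00 e01 e10 e11
    refine ⟨?_, ?_, ?_, ?_⟩
    · rw [← e00]; ring
    · rw [← e01]; ring
    · rw [← e10]; ring
    · rw [← e11]; ring
  · rintro ⟨u, hu, h0, h1, h2, h3⟩
    refine ⟨Units.mk0 u hu, ?_⟩
    apply Units.ext
    ext i j
    fin_cases i <;> fin_cases j <;>
      simp [glm, Matrix.mul_apply, Fin.sum_univ_two, Matrix.GeneralLinearGroup.scalar, h0, h1, h2, h3,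
        mul_comm]

theorem gm_mul {a b c d a' b' c' d' : k} (h : a * d - b * c ≠ 0) (h' : a' * d' - b' * c' ≠ 0) :
    gm a b c d h * gm a' b' c' d' h' =
      gm (a * a' + b * c') (a * b' + b * d') (c * a' + d * c') (c * b' + d * d')
        (by
          have e : (a * a' + b * c') * (c * b' + d * d') - (a * b' + b * d') * (c * a' + d * c') =
            (a * d - b * c) * (a' * d' - b' * c') := by ring
          rw [e]
          exact mul_ne_zero h h') := by
  unfold gm
  rw [← map_mul]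
  congr 1
  apply Units.ext
  ext i j
  fin_cases i <;> fin_cases j <;> simp [glm, Matrix.mul_apply, Fin.sum_univ_two]

theorem gm_one : gm (1 : k) 0 0 1 (by simp) = 1 := by
  unfold gm
  rw [← map_one Matrix.ProjGenLinGroup.mk]
  congr 1
  apply Units.ext
  ext i j
  fin_cases i <;> fin_cases j <;> simp [glm]

theorem gm_smul_mk {a b c d : k} (h : a * d - b * c ≠ 0) {v : Fin 2 → k} (hv : v ≠ 0) :
    gm a b c d h • (Projectivization.mk k v hv) =
      Projectivization.mk k ![a * v 0 + b * v 1, c * v 0 + d * v 1] (by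
        intro e
        have e0 := congrFun e 0
        have e1 := congrFun e 1
        simp at e0 e1
        apply hv
        have h0 : (a * d - b * c) * v 0 = 0 := by linear_combination d * e0 - b * e1
        have h1 : (a * d - b * c) * v 1 = 0 := by linear_combination a * e1 - c * e0
        funext i
        fin_cases i
        · simpa [h] using h0
        · simpa [h] using h1) := by
  unfold gm
  rw [Projectivization.PGL.mk_smul_mk]
  congr 1
  funext i
  rw [Matrix.GeneralLinearGroup.fin_two_smul]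
  fin_cases i <;> simp [glm]

theorem gm_smul_ptz {a b c d : k} (h : a * d - b * c ≠ 0) {z : k} (hz : c * z + d ≠ 0) :
    gm a b c d h • ptz z = ptz ((a * z + b) / (c * z + d)) := by
  unfold ptz
  rw [gm_smul_mk, Projectivization.mk_eq_mk_iff']
  refine ⟨c * z + d, ?_⟩
  funext i
  fin_cases i
  · simp; field_simp
  · simp

theorem gm_smul_ptz' {a b c d : k} (h : a * d - b * c ≠ 0) {z : k} (hz : c * z + d = 0) :
    gm a b c d h • ptz z = ptI k := by
  unfold ptz ptI
  rw [gm_smul_mk, Projectivization.mk_eq_mk_iff']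
  refine ⟨a * z + b, ?_⟩
  funext i
  fin_cases i
  · simp
  · simp [hz]

theorem gm_smul_ptI {a b c d : k} (h : a * d - b * c ≠ 0) (hc : c ≠ 0) :
    gm a b c d h • ptI k = ptz (a / c) := by
  unfold ptz ptI
  rw [gm_smul_mk, Projectivization.mk_eq_mk_iff']
  refine ⟨c, ?_⟩
  funext i
  fin_cases i
  · simp; field_simp
  · simp

theorem gm_smul_ptI' {a b c d : k} (h : a * d - b * c ≠ 0) (hc : c = 0) :
    gm a b c d h • ptI k = ptI k := by
  unfold ptI
  rw [gm_smul_mk, Projectivization.mk_eq_mk_iff']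
  refine ⟨a, ?_⟩
  funext i
  fin_cases i
  · simp
  · simp [hc]

/-- The torus fixing `0` and `∞`: `z ↦ t z`. -/
noncomputable def tor (t : kˣ) : PGL(2, k) := gm (t : k) 0 0 1 (by simp)

/-- The swap `z ↦ 1 / z`. -/
noncomputable def swp (k : Type) [Field k] : PGL(2, k) := gm (0 : k) 1 1 0 (by simp)

theorem tor_mul (s t : kˣ) : tor s * tor t = tor (s * t) := by
  unfold tor
  rw [gm_mul, gm_eq_iff]
  exact ⟨1, by simp, by simp, by simp, by simp, by simp⟩

theorem tor_one : tor (1 : kˣ) = 1 := by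
  rw [← gm_one]
  rfl

theorem tor_inj {s t : kˣ} : tor s = tor t ↔ s = t := by
  unfold tor
  rw [gm_eq_iff]
  constructor
  · rintro ⟨u, -, h0, -, -, h3⟩
    simp at h3
    apply Units.ext
    rw [h0, ← h3, one_mul]
  · rintro rfl
    exact ⟨1, by simp, by simp, by simp, by simp, by simp⟩

theorem swp_mul_self : swp k * swp k = 1 := by
  rw [← gm_one]
  unfold swp
  rw [gm_mul, gm_eq_iff]
  exact ⟨1, by simp, by simp, by simp, by simp, by simp⟩

theorem swp_tor (t : kˣ) : swp k * tor t * swp k = tor t⁻¹ := by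
  unfold swp tor
  rw [gm_mul, gm_mul, gm_eq_iff]
  refine ⟨(t : k)⁻¹, by simp, by simp, by simp, by simp, by simp⟩

theorem tor_smul_ptz (t : kˣ) (z : k) : tor t • ptz z = ptz (t * z) := by
  unfold tor
  rw [gm_smul_ptz _ (by simp)]
  simp

theorem tor_smul_ptI (t : kˣ) : tor t • ptI k = ptI k := gm_smul_ptI' _ rfl

theorem swp_smul_ptz {z : k} (hz : z ≠ 0) : swp k • ptz z = ptz z⁻¹ := by
  unfold swp
  rw [gm_smul_ptz _ (by simpa using hz)]
  simp

theorem swp_smul_zero : swp k • ptz (0 : k) = ptI k := gm_smul_ptz' _ (by simp)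

theorem swp_smul_ptI : swp k • ptI k = ptz (0 : k) := by
  unfold swp
  rw [gm_smul_ptI _ (by simp)]
  simp

/-- An element fixing `∞` is an affine map. -/
theorem fix_ptI {g : PGL(2, k)} (h : g • ptI k = ptI k) :
    ∃ a b : k, ∃ ha : a ≠ 0, g = gm a b 0 1 (by simpa using ha) := by
  obtain ⟨a, b, c, d, hd, rfl⟩ := gm_surj g
  by_cases hc : c = 0
  · subst hc
    have hd' : d ≠ 0 := by rintro rfl; simp at hd
    have ha' : a ≠ 0 := by rintro rfl; simp at hd
    refine ⟨a / d, b / d, div_ne_zero ha' hd', ?_⟩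
    rw [gm_eq_iff]
    exact ⟨d⁻¹, inv_ne_zero hd', by field_simp, by field_simp, by simp, by field_simp⟩
  · rw [gm_smul_ptI _ hc] at h
    exact absurd h (ptz_ne_ptI _)

/-- An element fixing `0` and `∞` belongs to the torus. -/
theorem fix_pair {g : PGL(2, k)} (h : g • ptI k = ptI k) (h0 : g • ptz (0 : k) = ptz 0) :
    ∃ t : kˣ, g = tor t := by
  obtain ⟨a, b, ha, rfl⟩ := fix_ptI h
  rw [gm_smul_ptz _ (by simp), ptz_inj] at h0
  simp at h0
  subst h0
  exact ⟨Units.mk0 a ha, rfl⟩

/-- An element exchanging `0` and `∞`. -/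
theorem swap_pair {g : PGL(2, k)} (h : g • ptI k = ptz 0) (h0 : g • ptz (0 : k) = ptI k) :
    ∃ t : kˣ, g = tor t * swp k := by
  have h1 : (g * swp k) • ptI k = ptI k := by rw [mul_smul, swp_smul_ptI, h0]
  have h2 : (g * swp k) • ptz (0 : k) = ptz 0 := by rw [mul_smul, swp_smul_zero, h]
  obtain ⟨t, ht⟩ := fix_pair h1 h2
  refine ⟨t, ?_⟩
  rw [← ht, mul_assoc, swp_mul_self, mul_one]

/-- Only the identity fixes `0`, `1` and `∞`. -/
theorem fix_three {g : PGL(2, k)} (h : g • ptI k = ptI k) (h0 : g • ptz (0 : k) = ptz 0)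
    (h1 : g • ptz (1 : k) = ptz 1) : g = 1 := by
  obtain ⟨t, rfl⟩ := fix_pair h h0
  rw [tor_smul_ptz, ptz_inj, mul_one] at h1
  have : t = 1 := Units.ext h1
  rw [this, tor_one]

/-- Transitivity on triples of distinct points. -/
theorem trans_three {p q r : PL k} (hpq : p ≠ q) (hpr : p ≠ r) (hqr : q ≠ r) :
    ∃ g : PGL(2, k), g • ptI k = p ∧ g • ptz (0 : k) = q ∧ g • ptz (1 : k) = r := by
  have step1 : ∀ p : PL k, ∃ g : PGL(2, k), g • ptI k = p := by
    intro p
    rcases pl_cases p with rfl | ⟨z, rfl⟩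
    · exact ⟨1, one_smul _ _⟩
    · refine ⟨gm z (-1) 1 0 (by simp), ?_⟩
      rw [gm_smul_ptI _ (by simp)]
      simp
  obtain ⟨g, hg⟩ := step1 p
  have hq : g⁻¹ • q ≠ ptI k := by
    intro h
    apply hpq
    rw [← hg, ← h, smul_inv_smul]
  have hr : g⁻¹ • r ≠ ptI k := by
    intro h
    apply hpr
    rw [← hg, ← h, smul_inv_smul]
  obtain ⟨a, ha⟩ := (pl_cases (g⁻¹ • q)).resolve_left hq
  obtain ⟨b, hb⟩ := (pl_cases (g⁻¹ • r)).resolve_left hr
  have hab : b - a ≠ 0 := by
    intro h
    apply hqr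
    have : g⁻¹ • q = g⁻¹ • r := by rw [ha, hb, sub_eq_zero.1 h]
    exact smul_left_cancel _ this
  refine ⟨g * gm (b - a) a 0 1 (by simpa using hab), ?_, ?_, ?_⟩
  · rw [mul_smul, gm_smul_ptI' _ rfl, hg]
  · rw [mul_smul, gm_smul_ptz _ (by simp)]
    have : ((b - a) * 0 + a) / (0 * 0 + 1) = a := by simp
    rw [this, ← ha, smul_inv_smul]
  · rw [mul_smul, gm_smul_ptz _ (by simp)]
    have : ((b - a) * 1 + a) / (0 * 1 + 1) = b := by simp
    rw [this, ← hb, smul_inv_smul]

theorem trans_two {p q : PL k} (hpq : p ≠ q) :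
    ∃ g : PGL(2, k), g • ptI k = p ∧ g • ptz (0 : k) = q := by
  by_cases h : ∃ r : PL k, p ≠ r ∧ q ≠ r
  · obtain ⟨r, h1, h2⟩ := h
    obtain ⟨g, hg, hg', -⟩ := trans_three hpq h1 h2
    exact ⟨g, hg, hg'⟩
  · exfalso
    push Not at h
    have e1 := h (ptI k)
    have e2 := h (ptz 0)
    have e3 := h (ptz 1)
    have n1 : ptz (0 : k) ≠ ptI k := ptz_ne_ptI _
    have n2 : ptz (1 : k) ≠ ptI k := ptz_ne_ptI _
    have n3 : ptz (0 : k) ≠ ptz 1 := by
      rw [ne_eq, ptz_inj]
      exact zero_ne_one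
    by_cases a1 : p = ptI k
    · by_cases a2 : q = ptz (0 : k)
      · have := e3 (by rw [a1]; exact n2.symm)
        exact n3 (a2.symm.trans this)
      · exact a2 (e2 (by rw [a1]; exact n1.symm))
    · have a3 := e1 a1
      by_cases a2 : p = ptz (0 : k)
      · have := e3 (by rw [a2]; exact n3)
        exact n2 (this.symm.trans a3)
      · exact n1 ((e2 a2).symm.trans a3)

end Pool.Agent.MRat
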