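import Pool.Agent.Lib.MP_923aff_ag.FGH
/-!
# JOB FGI: finite subgroups of `PGL(2, k)` satisfy `Pol`

`fin_conj`: write `g = gm a b c d` (`gm_surj`). The class of `M ^ n` is trivial, i.e. `M ^ n` is scalar. If the
discriminant `(a - d) ^ 2 + 4 b c` is `0`, then `M = l (1 + N)`, `N ^ 2 = 0` (in coordinates: after conjugation
`g` fixes `∞` (a root of `c z ^ 2 + (d - a) z - b`, `IsAlgClosed.exists_root` or quadratic formula), so
`g = gm a b 0 1` with `a = 1`, `g ^ n = gm 1 (n b) 0 1`, so `b = 0`, `g = 1`). Otherwise two different fixed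
points; conjugate them to `∞` and `0` (`trans_two`) and use `fix_pair`. Simplest: a fixed point exists
(algebraically closed), conjugate it to `∞`, `g = gm a b 0 1`; `a = 1` is impossible (characteristic `0`), so
`b / (1 - a)` is a second fixed point.

`pol_pgl`: `fix2` from `fin_conj` (`tor t`, `t ≠ 1`, fixes exactly `0` and `∞`). `opp`: if the stabiliser of `p` in `Γ`
is trivial take any other point. Otherwise let `g ≠ 1` be in it, `q` its other fixed point; conjugate `p, q` to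
`∞, 0`; for `h` in the stabiliser of `∞`, `h = gm a b 0 1`, the commutator of `h` and `g = tor t` is a
translation `gm 1 c 0 1` of finite order, so trivial, so `(t - 1) b = 0`, `b = 0`, `h` fixes `0`.
`cyc`: conjugate `p, q` to `∞, 0`: the stabiliser is a finite subgroup of the torus `kˣ`, cyclic
(Mathlib: `isCyclic_of_subgroup_isDomain` or the instance for finite subgroups of `kˣ`).
-/

set_option autoImplicit false

namespace Pool.Agent.MRat

open scoped MatrixGroups LinearAlgebra.Projectivization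

variable {k : Type} [Field k] [IsAlgClosed k] [CharZero k]

private theorem FGI_tor_pow {k : Type} [Field k] (t : kˣ) (n : ℕ) : tor t ^ n = tor (t ^ n) := by
  induction n with
  | zero => rw [pow_zero, pow_zero, tor_one]
  | succ n ih => rw [pow_succ, ih, tor_mul, pow_succ]

private theorem FGI_trans_pow {k : Type} [Field k] (b : k) (n : ℕ) :
    (gm 1 b 0 1 (by simp)) ^ n = gm 1 (n * b) 0 1 (by simp) := by
  induction n with
  | zero =>
    rw [pow_zero, ← gm_one, gm_eq_iff]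
    exact ⟨1, by simp, by simp, by simp, by simp, by simp⟩
  | succ n ih =>
    rw [pow_succ, ih, gm_mul, gm_eq_iff]
    refine ⟨1, by simp, by simp, ?_, by simp, by simp⟩
    push_cast
    ring

private theorem FGI_trans_one {b : k} {n : ℕ} (hn : 0 < n)
    (h : (gm 1 b 0 1 (by simp)) ^ n = 1) : b = 0 := by
  rw [FGI_trans_pow, ← gm_one, gm_eq_iff] at h
  obtain ⟨u, hu, h1, h2, h3, h4⟩ := h
  have hu1 : u = 1 := by simpa using h1.symm
  subst hu1
  have h5 : (n : k) * b = 0 := by simpa using h2.symm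
  rcases mul_eq_zero.1 h5 with h6 | h6
  · exact absurd (Nat.cast_eq_zero.1 h6) hn.ne'
  · exact h6

private theorem FGI_exists_fix (g : PGL(2, k)) : ∃ p : PL k, g • p = p := by
  obtain ⟨a, b, c, d, hd, rfl⟩ := gm_surj g
  by_cases hc : c = 0
  · exact ⟨ptI k, gm_smul_ptI' _ hc⟩
  · obtain ⟨s, hs⟩ := IsAlgClosed.exists_pow_nat_eq ((d - a) ^ 2 + 4 * b * c) (n := 2) (by norm_num)
    have h2 : (2 : k) ≠ 0 := two_ne_zero
    set z : k := (a - d + s) / (2 * c) with hz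
    have hzc : 2 * c * z = a - d + s := by
      rw [hz]
      field_simp
    have hquad : c * z ^ 2 + (d - a) * z - b = 0 := by
      have h4 : 4 * c * (c * z ^ 2 + (d - a) * z - b) = 0 := by
        linear_combination (2 * c * z + (d - a) + s) * hzc + hs
      rcases mul_eq_zero.1 h4 with h5 | h5
      · exfalso
        rcases mul_eq_zero.1 h5 with h6 | h6
        · exact absurd h6 (by norm_num)
        · exact hc h6
      · exact h5
    have hne : c * z + d ≠ 0 := by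
      intro h0
      apply hd
      linear_combination c * hquad - (c * z - a) * h0
    refine ⟨ptz z, ?_⟩
    rw [gm_smul_ptz _ hne, ptz_inj, div_eq_iff hne]
    linear_combination -hquad

private theorem FGI_second {g : PGL(2, k)} (h1 : g ≠ 1) {n : ℕ} (hn : 0 < n) (hg : g ^ n = 1)
    (hI : g • ptI k = ptI k) : ∃ z : k, g • ptz z = ptz z := by
  obtain ⟨a, b, ha, rfl⟩ := fix_ptI hI
  have ha1 : a ≠ 1 := by
    rintro rfl
    have hb := FGI_trans_one hn hg
    subst hb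
    exact h1 gm_one
  have h3 : 1 - a ≠ 0 := sub_ne_zero.2 ha1.symm
  refine ⟨b / (1 - a), ?_⟩
  rw [gm_smul_ptz _ (by simp), ptz_inj]
  have h4 : a * (b / (1 - a)) + b = b / (1 - a) := by
    rw [eq_div_iff h3, add_mul, mul_assoc, div_mul_cancel₀ _ h3]
    ring
  rw [h4]
  simp

theorem fin_conj {g : PGL(2, k)} (h1 : g ≠ 1) {n : ℕ} (hn : 0 < n) (hg : g ^ n = 1) :
    ∃ (h : PGL(2, k)) (t : kˣ), t ≠ 1 ∧ t ^ n = 1 ∧ g = h * tor t * h⁻¹ := by
  obtain ⟨p, hp⟩ := FGI_exists_fix g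
  obtain ⟨f, hf⟩ : ∃ f : PGL(2, k), f • ptI k = p := by
    by_cases hpz : p = ptz 0
    · exact ⟨swp k, by rw [swp_smul_ptI, hpz]⟩
    · obtain ⟨f, hf, -⟩ := trans_two hpz
      exact ⟨f, hf⟩
  have hfix : (f⁻¹ * g * f) • ptI k = ptI k := by
    rw [mul_smul, mul_smul, hf, hp, ← hf, inv_smul_smul]
  have hpow : (f⁻¹ * g * f) ^ n = 1 := by
    have : f⁻¹ * g * f = f⁻¹ * g * (f⁻¹)⁻¹ := by rw [inv_inv]
    rw [this, conj_pow, hg]
    simp
  have hne : f⁻¹ * g * f ≠ 1 := by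
    intro h0
    apply h1
    have : g = f * (f⁻¹ * g * f) * f⁻¹ := by group
    rw [this, h0]
    simp
  obtain ⟨z, hz⟩ := FGI_second hne hn hpow hfix
  have hq : g • (f • ptz z) = f • ptz z := by
    have h3 : f • ((f⁻¹ * g * f) • ptz z) = f • ptz z := by rw [hz]
    rw [mul_smul, mul_smul, smul_inv_smul] at h3
    exact h3
  have hpq : p ≠ f • ptz z := by
    rw [← hf]
    intro h0
    exact ptz_ne_ptI z (smul_left_cancel f h0).symm
  obtain ⟨h, hh1, hh2⟩ := trans_two hpq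
  have e1 : (h⁻¹ * g * h) • ptI k = ptI k := by
    rw [mul_smul, mul_smul, hh1, hp, ← hh1, inv_smul_smul]
  have e2 : (h⁻¹ * g * h) • ptz (0 : k) = ptz 0 := by
    rw [mul_smul, mul_smul, hh2, hq, ← hh2, inv_smul_smul]
  obtain ⟨t, ht⟩ := fix_pair e1 e2
  have hgt : g = h * tor t * h⁻¹ := by
    rw [← ht]
    group
  refine ⟨h, t, ?_, ?_, hgt⟩
  · rintro rfl
    apply h1
    rw [hgt, tor_one]
    simp
  · have h3 : tor t ^ n = 1 := by
      rw [← ht]
      have : h⁻¹ * g * h = h⁻¹ * g * (h⁻¹)⁻¹ := by rw [inv_inv]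
      rw [this, conj_pow, hg]
      simp
    rw [FGI_tor_pow, ← tor_one, tor_inj] at h3
    exact h3

theorem tor_fix {t : kˣ} (ht : t ≠ 1) (p : PL k) : tor t • p = p ↔ (p = ptI k ∨ p = ptz 0) := by
  constructor
  · intro h
    rcases pl_cases p with rfl | ⟨z, rfl⟩
    · exact Or.inl rfl
    · right
      rw [tor_smul_ptz, ptz_inj] at h
      rw [ptz_inj]
      by_contra hz
      apply ht
      apply Units.ext
      rw [Units.val_one]
      exact mul_right_cancel₀ hz (by rw [h, one_mul])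
  · rintro (rfl | rfl)
    · exact tor_smul_ptI t
    · rw [tor_smul_ptz, mul_zero]

private theorem FGI_pow_card (Γ : Subgroup PGL(2, k)) [Finite Γ] {g : PGL(2, k)} (hg : g ∈ Γ) :
    g ^ Nat.card Γ = 1 := by
  have h := pow_card_eq_one' (x := (⟨g, hg⟩ : Γ))
  exact congrArg Subtype.val h

private theorem FGI_fix2 (Γ : Subgroup PGL(2, k)) [Finite Γ] {g : PGL(2, k)} (hg : g ∈ Γ)
    (h1 : g ≠ 1) : ∃ p q : PL k, p ≠ q ∧ ∀ x : PL k, g • x = x ↔ (x = p ∨ x = q) := by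
  obtain ⟨h, t, ht, -, rfl⟩ := fin_conj h1 Nat.card_pos (FGI_pow_card Γ hg)
  refine ⟨h • ptI k, h • ptz 0, ?_, ?_⟩
  · intro h0
    exact ptz_ne_ptI (0 : k) (smul_left_cancel h h0).symm
  · intro x
    have e1 : (h * tor t * h⁻¹) • x = x ↔ tor t • (h⁻¹ • x) = h⁻¹ • x := by
      rw [mul_smul, mul_smul]
      constructor
      · intro h0
        rw [eq_inv_smul_iff]
        exact h0
      · intro h0
        rw [eq_inv_smul_iff] at h0
        exact h0
    rw [e1, tor_fix ht, inv_smul_eq_iff, inv_smul_eq_iff]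

private theorem FGI_opp (Γ : Subgroup PGL(2, k)) [Finite Γ] (p : PL k) :
    ∃ q : PL k, q ≠ p ∧ ∀ g ∈ Γ, g • p = p → g • q = q := by
  by_cases hex : ∃ g ∈ Γ, g ≠ 1 ∧ g • p = p
  · obtain ⟨g, hg, hg1, hgp⟩ := hex
    obtain ⟨q, hqp, hgq⟩ : ∃ q : PL k, q ≠ p ∧ g • q = q := by
      obtain ⟨u, v, huv, hfix⟩ := FGI_fix2 Γ hg hg1
      rcases (hfix p).1 hgp with rfl | rfl
      · exact ⟨v, huv.symm, (hfix v).2 (Or.inr rfl)⟩
      · exact ⟨u, huv, (hfix u).2 (Or.inl rfl)⟩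
    refine ⟨q, hqp, ?_⟩
    intro h hh hhp
    obtain ⟨f, hf1, hf2⟩ := trans_two hqp.symm
    have conjfix : ∀ (x : PGL(2, k)) (r s : PL k), f • r = s → (x • s = s ↔
        (f⁻¹ * x * f) • r = r) := by
      intro x r s hrs
      rw [mul_smul, mul_smul, hrs, inv_smul_eq_iff, hrs]
    obtain ⟨t, ht⟩ := fix_pair ((conjfix g _ _ hf1).1 hgp) ((conjfix g _ _ hf2).1 hgq)
    have ht1 : t ≠ 1 := by
      rintro rfl
      apply hg1
      have : g = f * (f⁻¹ * g * f) * f⁻¹ := by group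
      rw [this, ht, tor_one]
      simp
    obtain ⟨a, b, ha, hab⟩ := fix_ptI ((conjfix h _ _ hf1).1 hhp)
    have hcomm : (f⁻¹ * h * f) * tor t = gm 1 ((1 - (t : k)) * b) 0 1 (by simp) *
        (tor t * (f⁻¹ * h * f)) := by
      rw [hab]
      unfold tor
      rw [gm_mul, gm_mul, gm_mul, gm_eq_iff]
      refine ⟨1, by simp, ?_, ?_, by simp, by simp⟩ <;> simp <;> ring
    have hc : gm 1 ((1 - (t : k)) * b) 0 1 (by simp) = f⁻¹ * (h * g * h⁻¹ * g⁻¹) * f := by
      have e1 : gm 1 ((1 - (t : k)) * b) 0 1 (by simp) =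
          (f⁻¹ * h * f) * tor t * (tor t * (f⁻¹ * h * f))⁻¹ := by
        rw [hcomm]
        group
      rw [e1, ← ht]
      group
    have hpow : (gm 1 ((1 - (t : k)) * b) 0 1 (by simp)) ^ Nat.card Γ = 1 := by
      rw [hc]
      have hmem : h * g * h⁻¹ * g⁻¹ ∈ Γ :=
        Γ.mul_mem (Γ.mul_mem (Γ.mul_mem hh hg) (Γ.inv_mem hh)) (Γ.inv_mem hg)
      have : f⁻¹ * (h * g * h⁻¹ * g⁻¹) * f = f⁻¹ * (h * g * h⁻¹ * g⁻¹) * (f⁻¹)⁻¹ := by
        rw [inv_inv]
      rw [this, conj_pow, FGI_pow_card Γ hmem]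
      simp
    have hb0 := FGI_trans_one Nat.card_pos hpow
    have hb : b = 0 := by
      rcases mul_eq_zero.1 hb0 with h5 | h5
      · exfalso
        apply ht1
        apply Units.ext
        rw [Units.val_one]
        exact (sub_eq_zero.1 h5).symm
      · exact h5
    rw [conjfix h _ _ hf2, hab, gm_smul_ptz _ (by simp), ptz_inj, hb]
    simp
  · push Not at hex
    have hother : ∃ q : PL k, q ≠ p := by
      by_cases hpz : p = ptI k
      · exact ⟨ptz 0, by rw [hpz]; exact ptz_ne_ptI _⟩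
      · exact ⟨ptI k, fun h => hpz h.symm⟩
    obtain ⟨q, hq⟩ := hother
    refine ⟨q, hq, ?_⟩
    intro g hg hgp
    by_cases hg1 : g = 1
    · rw [hg1, one_smul]
    · exact absurd hgp (hex g hg hg1)

/-- the subgroup of the torus of all `t` with `f * tor t * f⁻¹ ∈ Γ` -/
private noncomputable def FGI_T (Γ : Subgroup PGL(2, k)) (f : PGL(2, k)) : Subgroup kˣ where
  carrier := {t | f * tor t * f⁻¹ ∈ Γ}
  mul_mem' := by
    intro a b ha hb
    have h := Γ.mul_mem ha hb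
    have e : f * tor a * f⁻¹ * (f * tor b * f⁻¹) = f * tor (a * b) * f⁻¹ := by
      rw [← tor_mul]
      group
    rw [e] at h
    exact h
  one_mem' := by
    change f * tor 1 * f⁻¹ ∈ Γ
    rw [tor_one]
    simp
  inv_mem' := by
    intro a ha
    have h := Γ.inv_mem ha
    have e : (f * tor a * f⁻¹)⁻¹ = f * tor a⁻¹ * f⁻¹ := by
      have e2 : (tor a)⁻¹ = tor a⁻¹ := by
        rw [inv_eq_iff_mul_eq_one, tor_mul, mul_inv_cancel, tor_one]
      rw [mul_inv_rev, mul_inv_rev, inv_inv, e2]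
      group
    rw [e] at h
    exact h

private theorem FGI_mem_T {Γ : Subgroup PGL(2, k)} {f : PGL(2, k)} {t : kˣ} :
    t ∈ FGI_T Γ f ↔ f * tor t * f⁻¹ ∈ Γ := Iff.rfl

private theorem FGI_T_finite (Γ : Subgroup PGL(2, k)) [Finite Γ] (f : PGL(2, k)) :
    Finite (FGI_T Γ f) := by
  refine Finite.of_injective (fun t : FGI_T Γ f => (⟨f * tor t.1 * f⁻¹, FGI_mem_T.1 t.2⟩ : Γ)) ?_
  intro s t hst
  have h := congrArg (fun x : Γ => (x : PGL(2, k))) hst
  simp only [mul_left_inj, mul_right_inj] at h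
  exact Subtype.ext (tor_inj.1 h)

private theorem FGI_cyc (Γ : Subgroup PGL(2, k)) [Finite Γ] (p : PL k) :
    ∃ g ∈ Γ, g • p = p ∧ ∀ h ∈ Γ, h • p = p → ∃ n : ℕ, h = g ^ n := by
  obtain ⟨q, hqp, hq⟩ := FGI_opp Γ p
  obtain ⟨f, hf1, hf2⟩ := trans_two hqp.symm
  have := FGI_T_finite Γ f
  obtain ⟨t₀, ht₀⟩ := IsCyclic.exists_generator (α := FGI_T Γ f)
  refine ⟨f * tor t₀.1 * f⁻¹, FGI_mem_T.1 t₀.2, ?_, ?_⟩
  · rw [mul_smul, mul_smul, ← hf1, inv_smul_smul, tor_smul_ptI]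
  · intro h hh hhp
    have hhq := hq h hh hhp
    have e1 : (f⁻¹ * h * f) • ptI k = ptI k := by
      rw [mul_smul, mul_smul, hf1, hhp, ← hf1, inv_smul_smul]
    have e2 : (f⁻¹ * h * f) • ptz (0 : k) = ptz 0 := by
      rw [mul_smul, mul_smul, hf2, hhq, ← hf2, inv_smul_smul]
    obtain ⟨t, ht⟩ := fix_pair e1 e2
    have hht : h = f * tor t * f⁻¹ := by
      rw [← ht]
      group
    have htT : t ∈ FGI_T Γ f := by
      rw [FGI_mem_T, ← hht]
      exact hh
    have hz := ht₀ ⟨t, htT⟩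
    have hfo : IsOfFinOrder t₀ := isOfFinOrder_of_finite _
    rw [← hfo.mem_powers_iff_mem_zpowers] at hz
    obtain ⟨n, hn⟩ := hz
    refine ⟨n, ?_⟩
    have hn' : t₀.1 ^ n = t := by
      have := congrArg (fun x : FGI_T Γ f => (x : kˣ)) hn
      simpa using this
    rw [hht, ← hn', ← FGI_tor_pow, conj_pow]

theorem pol_pgl (Γ : Subgroup PGL(2, k)) [Finite Γ] : Pol Γ (PL k) where
  fin := inferInstance
  fix2 := fun _ hg h1 => FGI_fix2 Γ hg h1
  opp := FGI_opp Γ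
  cyc := FGI_cyc Γ

/-- If `tor t ∈ Γ` for some `t ≠ 1` then the stabiliser of `∞` (and of `0`) in `Γ` is `Γ ∩ T`. -/
theorem stab_ptI (Γ : Subgroup PGL(2, k)) [Finite Γ] {t₀ : kˣ} (h0 : t₀ ≠ 1) (h : tor t₀ ∈ Γ)
    {g : PGL(2, k)} (hg : g ∈ Γ) (hfix : g • ptI k = ptI k ∨ g • ptz (0 : k) = ptz 0) :
    ∃ t : kˣ, g = tor t := by
  by_cases hg1 : g = 1
  · exact ⟨1, by rw [tor_one, hg1]⟩
  · have ht1 : tor t₀ ≠ 1 := by
      rw [← tor_one, ne_eq, tor_inj]
      exact h0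
    have hI : tor t₀ • ptI k = ptI k := tor_smul_ptI t₀
    have hZ : tor t₀ • ptz (0 : k) = ptz 0 := by rw [tor_smul_ptz, mul_zero]
    rcases hfix with hfix | hfix
    · have hs := (pol_pgl Γ).same hg h hg1 ht1 hfix hI
      exact fix_pair hfix ((hs _).2 hZ)
    · have hs := (pol_pgl Γ).same hg h hg1 ht1 hfix hZ
      exact fix_pair ((hs _).2 hI) hfix

/-- `Γ ∩ T = μ_m`, where `m` is the order of the stabiliser of `∞`, if `Γ ∩ T` is not trivial. -/
theorem tor_mem_iff (Γ : Subgroup PGL(2, k)) [Finite Γ] {t₀ : kˣ} (h0 : t₀ ≠ 1) (h : tor t₀ ∈ Γ) :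
    (∀ t : kˣ, tor t ∈ Γ ↔ t ^ se Γ (ptI k) = 1) ∧ se Γ (ptz (0 : k)) = se Γ (ptI k) ∧
      1 < se Γ (ptI k) := by
  have hmem : ∀ t : kˣ, t ∈ FGI_T Γ 1 ↔ tor t ∈ Γ := by
    intro t
    rw [FGI_mem_T]
    simp
  have hfin := FGI_T_finite Γ 1
  have hcard : ∀ p : PL k, (∀ t : kˣ, tor t • p = p) →
      (∀ g ∈ Γ, g • p = p → ∃ t : kˣ, g = tor t) → se Γ p = Nat.card (FGI_T Γ 1) := by
    intro p hp1 hp2
    unfold se
    symm
    refine Nat.card_congr (Equiv.ofBijective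
      (fun t : FGI_T Γ 1 => (⟨tor t.1, (hmem _).1 t.2, hp1 _⟩ : {g : PGL(2, k) // g ∈ Γ ∧ g • p = p}))
      ⟨?_, ?_⟩)
    · intro s t hst
      have h3 := congrArg Subtype.val hst
      exact Subtype.ext (tor_inj.1 h3)
    · rintro ⟨g, hg, hgp⟩
      obtain ⟨t, rfl⟩ := hp2 g hg hgp
      exact ⟨⟨t, (hmem t).2 hg⟩, rfl⟩
  have hI : se Γ (ptI k) = Nat.card (FGI_T Γ 1) :=
    hcard _ (fun t => tor_smul_ptI t) (fun g hg hgp => stab_ptI Γ h0 h hg (Or.inl hgp))
  have hZ : se Γ (ptz (0 : k)) = Nat.card (FGI_T Γ 1) :=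
    hcard _ (fun t => by rw [tor_smul_ptz, mul_zero])
      (fun g hg hgp => stab_ptI Γ h0 h hg (Or.inr hgp))
  refine ⟨?_, by rw [hI, hZ], ?_⟩
  · have hpos : 0 < Nat.card (FGI_T Γ 1) := Nat.card_pos
    have : NeZero (Nat.card (FGI_T Γ 1)) := ⟨hpos.ne'⟩
    have hle : FGI_T Γ 1 ≤ rootsOfUnity (Nat.card (FGI_T Γ 1)) k := by
      intro t ht
      rw [mem_rootsOfUnity]
      have h3 := pow_card_eq_one' (x := (⟨t, ht⟩ : FGI_T Γ 1))
      exact congrArg Subtype.val h3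
    have heq : FGI_T Γ 1 = rootsOfUnity (Nat.card (FGI_T Γ 1)) k := by
      apply Subgroup.eq_of_le_of_card_ge hle
      exact card_rootsOfUnity k _
    intro t
    rw [← hmem, hI, heq, mem_rootsOfUnity]
    have : Nat.card (rootsOfUnity (Nat.card (FGI_T Γ 1)) k) = Nat.card (FGI_T Γ 1) := by
      rw [← heq]
    rw [this]
  · rw [one_lt_se_iff]
    refine ⟨tor t₀, h, ?_, tor_smul_ptI t₀⟩
    rw [← tor_one, ne_eq, tor_inj]
    exact h0

end Pool.Agent.MRat
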