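import Pool.Agent.Lib.MP_923aff_ag.FGI
/-!
# JOB FGJ: Klein four groups in `PGL(2, k)`

`cent_tor`: an element commuting with the involution `tor (-1)` permutes its fixed points `0, ∞`.
`v4_conj`: conjugate a non-identity element of `V` to `tor (-1)` (`fin_conj`, `t ^ 2 = 1`); the other
non-identity elements commute with it; one that is in the torus has `t ^ 2 = 1`, so is `tor (-1)`; so there is one
of the form `tor t * swp`; conjugate by `tor s`, `s ^ 2 = t⁻¹`.
`v4_cent`: centraliser of `V4std` is `V4std` (an element commuting with `tor (-1)` and `swp`).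
`canV_unique`: `V`, `V'` normal in `Γ` (each is contained in `Γ`, which normalises both). If `V ∩ V' = 1` they
commute elementwise (both normal), so `V' ≤` centraliser of `V` `= V`, contradiction. If `V ≠ V'` and
`V ∩ V' ∋ s ≠ 1`, then `V ∩ V' = {1, s}` is normal, so `s` is central in `Γ`. Then `Γ` preserves the pair
`{p, q}` of fixed points of `s`, so it has a subgroup of index at most two fixing `p` and `q`, of order at least `4`
(`|Γ| ≥ |V V'| = 8`), and all elements outside it exchange `p, q` and so are involutions (their square fixes `p, q` and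
a fixed point of theirs, different from `p, q`); points outside `{p, q}` have `se ≤ 2`; so `Ax Γ p`, contradiction.
-/

set_option autoImplicit false

namespace Pool.Agent.MRat

open scoped MatrixGroups LinearAlgebra.Projectivization

variable {k : Type} [Field k] [IsAlgClosed k] [CharZero k]

/-- The standard Klein four group `z, -z, 1/z, -1/z`. -/
noncomputable def V4std (k : Type) [Field k] : Subgroup PGL(2, k) :=
  Subgroup.closure {tor (-1), swp k}

omit [IsAlgClosed k] [CharZero k] in
theorem FGJ_TT : (tor (-1) : PGL(2, k)) * tor (-1) = 1 := by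
  rw [tor_mul, neg_mul_neg, one_mul, tor_one]

omit [IsAlgClosed k] [CharZero k] in
theorem FGJ_ST : swp k * tor (-1) = tor (-1) * swp k := by
  have h := swp_tor (k := k) (-1)
  rw [inv_neg_one] at h
  calc swp k * tor (-1) = swp k * tor (-1) * (swp k * swp k) := by rw [swp_mul_self, mul_one]
    _ = (swp k * tor (-1) * swp k) * swp k := by group
    _ = tor (-1) * swp k := by rw [h]

/-- The explicit four elements form a subgroup. -/
noncomputable def FGJ_sub (k : Type) [Field k] : Subgroup PGL(2, k) where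
  carrier := {g | g = 1 ∨ g = tor (-1) ∨ g = swp k ∨ g = tor (-1) * swp k}
  mul_mem' := by
    have hTT := FGJ_TT (k := k)
    have hSS := swp_mul_self (k := k)
    have hST := FGJ_ST (k := k)
    rintro a b (rfl | rfl | rfl | rfl) (rfl | rfl | rfl | rfl)
    · left; rw [one_mul]
    · right; left; rw [one_mul]
    · right; right; left; rw [one_mul]
    · right; right; right; rw [one_mul]
    · right; left; rw [mul_one]
    · left; rw [hTT]
    · right; right; right; rfl
    · right; right; left; rw [← mul_assoc, hTT, one_mul]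
    · right; right; left; rw [mul_one]
    · right; right; right; rw [hST]
    · left; rw [hSS]
    · right; left; rw [← mul_assoc, hST, mul_assoc, hSS, mul_one]
    · right; right; right; rw [mul_one]
    · right; right; left; rw [mul_assoc, hST, ← mul_assoc, hTT, one_mul]
    · right; left; rw [mul_assoc, hSS, mul_one]
    · left
      rw [mul_assoc, ← mul_assoc (swp k), hST, mul_assoc, hSS, mul_one, hTT]
  one_mem' := Or.inl rfl
  inv_mem' := by
    have hTT := FGJ_TT (k := k)
    have hSS := swp_mul_self (k := k)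
    have hST := FGJ_ST (k := k)
    rintro a (rfl | rfl | rfl | rfl)
    · left; rw [inv_one]
    · right; left; exact inv_eq_of_mul_eq_one_left hTT
    · right; right; left; exact inv_eq_of_mul_eq_one_left hSS
    · right; right; right
      apply inv_eq_of_mul_eq_one_left
      rw [mul_assoc, ← mul_assoc (swp k), hST, mul_assoc, hSS, mul_one, hTT]

omit [IsAlgClosed k] [CharZero k] in
theorem FGJ_mem {g : PGL(2, k)} :
    g ∈ V4std k ↔ g = 1 ∨ g = tor (-1) ∨ g = swp k ∨ g = tor (-1) * swp k := by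
  have hT : (tor (-1) : PGL(2, k)) ∈ V4std k := Subgroup.subset_closure (by simp)
  have hS : swp k ∈ V4std k := Subgroup.subset_closure (by simp)
  constructor
  · intro hg
    have hle : V4std k ≤ FGJ_sub k := by
      unfold V4std
      rw [Subgroup.closure_le]
      rintro x (rfl | rfl)
      · exact Or.inr (Or.inl rfl)
      · exact Or.inr (Or.inr (Or.inl rfl))
    exact hle hg
  · rintro (rfl | rfl | rfl | rfl)
    · exact one_mem _
    · exact hT
    · exact hS
    · exact mul_mem hT hS

theorem mem_V4std {g : PGL(2, k)} :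
    g ∈ V4std k ↔ g = 1 ∨ g = tor (-1) ∨ g = swp k ∨ g = tor (-1) * swp k := FGJ_mem

theorem FGJ_T1 : (tor (-1) : PGL(2, k)) ≠ 1 := by
  rw [← tor_one, ne_eq, tor_inj]
  intro h
  have := congrArg Units.val h
  simp at this
  have h2 : (2 : k) = 0 := by linear_combination -this
  exact two_ne_zero h2

omit [IsAlgClosed k] [CharZero k] in
theorem FGJ_tS (t : kˣ) (s : kˣ) : tor t ≠ tor s * swp k := by
  intro h
  have h1 : tor t • ptI k = (tor s * swp k) • ptI k := by rw [h]
  rw [mul_smul, tor_smul_ptI, swp_smul_ptI, tor_smul_ptz] at h1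
  exact ptz_ne_ptI _ h1.symm

theorem isV4_V4std : IsV4 (V4std k) := by
  have hTT := FGJ_TT (k := k)
  have hSS := swp_mul_self (k := k)
  have hST := FGJ_ST (k := k)
  constructor
  · have hset : ((V4std k : Subgroup PGL(2, k)) : Set PGL(2, k)) =
        {1, tor (-1), swp k, tor (-1) * swp k} := by
      ext g
      rw [SetLike.mem_coe, mem_V4std]
      simp
    have e1 : (1 : PGL(2, k)) = tor 1 := tor_one.symm
    have e2 : swp k = tor 1 * swp k := by rw [tor_one, one_mul]
    have n1 : (1 : PGL(2, k)) ≠ tor (-1) := FGJ_T1.symm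
    have n2 : (1 : PGL(2, k)) ≠ swp k := by rw [e1, e2]; exact FGJ_tS _ _
    have n3 : (1 : PGL(2, k)) ≠ tor (-1) * swp k := by rw [e1]; exact FGJ_tS _ _
    have n4 : (tor (-1) : PGL(2, k)) ≠ swp k := by rw [e2]; exact FGJ_tS _ _
    have n5 : (tor (-1) : PGL(2, k)) ≠ tor (-1) * swp k := FGJ_tS _ _
    have n6 : swp k ≠ tor (-1) * swp k := by
      intro h
      apply FGJ_T1 (k := k)
      have : (1 : PGL(2, k)) * swp k = tor (-1) * swp k := by rw [one_mul]; exact h
      exact (mul_right_cancel this).symm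
    have hc : Nat.card (V4std k) = ((V4std k : Subgroup PGL(2, k)) : Set PGL(2, k)).ncard :=
      rfl
    rw [hc, hset, Set.ncard_insert_of_notMem (by simp [n1, n2, n3]) (Set.toFinite _),
      Set.ncard_insert_of_notMem (by simp [n4, n5]) (Set.toFinite _),
      Set.ncard_insert_of_notMem (by simp [n6]) (Set.toFinite _), Set.ncard_singleton]
  · intro v hv
    rcases mem_V4std.1 hv with rfl | rfl | rfl | rfl
    · rw [one_mul]
    · exact hTT
    · exact hSS
    · rw [mul_assoc, ← mul_assoc (swp k), hST, mul_assoc, hSS, mul_one, hTT]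

theorem FGJ_neg1 : (-1 : kˣ) ≠ 1 := by
  intro h
  have := congrArg Units.val h
  simp at this
  have h2 : (2 : k) = 0 := by linear_combination -this
  exact two_ne_zero h2

theorem cent_tor {g : PGL(2, k)} (h : g * tor (-1) = tor (-1) * g) :
    (∃ t : kˣ, g = tor t) ∨ ∃ t : kˣ, g = tor t * swp k := by
  have hf := tor_fix (k := k) FGJ_neg1
  have hI : (tor (-1) : PGL(2, k)) • (g • ptI k) = g • ptI k := by
    rw [← mul_smul, ← h, mul_smul, tor_smul_ptI]
  have h0 : (tor (-1) : PGL(2, k)) • (g • ptz (0 : k)) = g • ptz (0 : k) := by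
    rw [← mul_smul, ← h, mul_smul, tor_smul_ptz, mul_zero]
  have hne : ptz (0 : k) ≠ ptI k := ptz_ne_ptI _
  rcases (hf _).1 hI with h1 | h1 <;> rcases (hf _).1 h0 with h2 | h2
  · exact absurd (smul_left_cancel g (h2.trans h1.symm)) hne
  · exact Or.inl (fix_pair h1 h2)
  · exact Or.inr (swap_pair h1 h2)
  · exact absurd (smul_left_cancel g (h2.trans h1.symm)) hne

omit [IsAlgClosed k] [CharZero k] in
theorem FGJ_sq {t : kˣ} (h : t = t⁻¹) : t = 1 ∨ t = -1 := by
  have h1 : t * t = 1 := by
    nth_rewrite 2 [h]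
    exact mul_inv_cancel t
  have h2 : (t : k) * t = 1 := by
    rw [← Units.val_mul, h1, Units.val_one]
  rcases mul_self_eq_one_iff.1 h2 with h3 | h3
  · left; exact Units.ext h3
  · right; apply Units.ext; rw [h3]; simp

theorem v4_cent {g : PGL(2, k)} (h : ∀ v ∈ V4std k, g * v = v * g) : g ∈ V4std k := by
  have hT := h _ (mem_V4std.2 (Or.inr (Or.inl rfl)))
  have hS := h _ (mem_V4std.2 (Or.inr (Or.inr (Or.inl rfl))))
  have hSS := swp_mul_self (k := k)
  rcases cent_tor hT with ⟨t, rfl⟩ | ⟨t, rfl⟩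
  · have h1 : tor t = tor t⁻¹ := by
      rw [← swp_tor, ← hS, mul_assoc, hSS, mul_one]
    rcases FGJ_sq (tor_inj.1 h1) with rfl | rfl
    · rw [tor_one]; exact one_mem _
    · exact mem_V4std.2 (Or.inr (Or.inl rfl))
  · have h1 : tor t = tor t⁻¹ := by
      rw [← swp_tor, mul_assoc, ← hS, mul_assoc, hSS, mul_one]
    rcases FGJ_sq (tor_inj.1 h1) with rfl | rfl
    · rw [tor_one, one_mul]; exact mem_V4std.2 (Or.inr (Or.inr (Or.inl rfl)))
    · exact mem_V4std.2 (Or.inr (Or.inr (Or.inr rfl)))

theorem FGJ_fin {V : Subgroup PGL(2, k)} (hV : IsV4 V) : Finite V :=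
  Nat.finite_of_card_ne_zero (by rw [hV.1]; norm_num)

/-- groups of exponent two are commutative -/
theorem FGJ_comm {V : Subgroup PGL(2, k)} (hV : ∀ v ∈ V, v * v = 1) {a b : PGL(2, k)}
    (ha : a ∈ V) (hb : b ∈ V) : a * b = b * a := by
  have h1 := hV _ (mul_mem ha hb)
  have h2 := hV _ ha
  have h3 := hV _ hb
  calc a * b = (b * b) * (a * b) * 1 := by rw [h3]; group
    _ = (b * b) * (a * b) * (a * a) := by rw [h2]
    _ = b * (b * (a * b) * a) * a := by group
    _ = b * (b * (a * b) * a * (b * b)) * a := by rw [h3, mul_one]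
    _ = b * (b * ((a * b) * (a * b)) * b) * a := by group
    _ = b * a := by rw [h1, mul_one, h3, mul_one]

/-- a Klein four group has an element outside of a pair -/
theorem FGJ_third {V : Subgroup PGL(2, k)} (hV : IsV4 V) (a b : PGL(2, k)) :
    ∃ w ∈ V, w ≠ a ∧ w ≠ b := by
  classical
  by_contra hcon
  push Not at hcon
  have hsub : (V : Set PGL(2, k)) ⊆ {a, b} := by
    intro w hw
    by_cases h : w = a
    · exact Or.inl h
    · exact Or.inr (hcon w hw h)
  have h1 := Set.ncard_le_ncard hsub (Set.toFinite _)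
  have h2 : (V : Set PGL(2, k)).ncard = 4 := hV.1
  have h3 : ({a, b} : Set PGL(2, k)).ncard ≤ 2 :=
    (Set.ncard_insert_le a {b}).trans (by rw [Set.ncard_singleton])
  omega

theorem v4_conj {V : Subgroup PGL(2, k)} (hV : IsV4 V) :
    ∃ g : PGL(2, k), V.map (MulAut.conj g).toMonoidHom = V4std k := by
  obtain ⟨v, hv, hv1, -⟩ := FGJ_third hV 1 1
  obtain ⟨h, t, ht1, ht2, hvt⟩ := fin_conj (k := k) hv1 (n := 2) (by norm_num) (by
    rw [pow_two]; exact hV.2 v hv)
  have ht : t = -1 := by
    have h1 : t = t⁻¹ := by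
      rw [pow_two] at ht2
      exact eq_inv_of_mul_eq_one_left ht2
    exact (FGJ_sq h1).resolve_left ht1
  rw [ht] at hvt
  -- conjugation by `h⁻¹`
  obtain ⟨w, hw, hw1, hw2⟩ := FGJ_third hV 1 v
  have hcw := FGJ_comm hV.2 hw hv
  have hcw' : (h⁻¹ * w * h) * tor (-1) = tor (-1) * (h⁻¹ * w * h) := by
    have e : tor (-1) = h⁻¹ * v * h := by rw [hvt]; group
    rw [e]
    calc (h⁻¹ * w * h) * (h⁻¹ * v * h) = h⁻¹ * (w * v) * h := by group
      _ = h⁻¹ * (v * w) * h := by rw [hcw]
      _ = (h⁻¹ * v * h) * (h⁻¹ * w * h) := by group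
  rcases cent_tor hcw' with ⟨r, hr⟩ | ⟨r, hr⟩
  · exfalso
    have h1 : tor r * tor r = 1 := by
      rw [← hr]
      calc (h⁻¹ * w * h) * (h⁻¹ * w * h) = h⁻¹ * (w * w) * h := by group
        _ = 1 := by rw [hV.2 w hw]; group
    have h2 : r = r⁻¹ := by
      rw [tor_mul, ← tor_one, tor_inj] at h1
      exact eq_inv_of_mul_eq_one_left h1
    rcases FGJ_sq h2 with h3 | h3
    · apply hw1
      rw [h3, tor_one] at hr
      calc w = h * (h⁻¹ * w * h) * h⁻¹ := by group
        _ = 1 := by rw [hr]; group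
    · apply hw2
      rw [h3] at hr
      calc w = h * (h⁻¹ * w * h) * h⁻¹ := by group
        _ = v := by rw [hr, hvt]
  · obtain ⟨s0, hs0⟩ := IsAlgClosed.exists_pow_nat_eq ((r⁻¹ : kˣ) : k) (n := 2) (by norm_num)
    have hs0n : s0 ≠ 0 := by
      rintro rfl
      rw [zero_pow (by norm_num)] at hs0
      exact (r⁻¹).ne_zero hs0.symm
    obtain ⟨s, hs⟩ : ∃ s : kˣ, s * s = r⁻¹ := by
      refine ⟨Units.mk0 s0 hs0n, Units.ext ?_⟩
      rw [Units.val_mul, Units.val_mk0, ← pow_two, hs0]
    have hvf := FGJ_fin hV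
    have hmap : Nat.card (V.map (MulAut.conj (tor s * h⁻¹)).toMonoidHom) = 4 := by
      rw [← hV.1]
      exact (Nat.card_congr (Subgroup.equivMapOfInjective V _
        (MulAut.conj (tor s * h⁻¹)).injective).toEquiv).symm
    have hfin2 : Finite (V.map (MulAut.conj (tor s * h⁻¹)).toMonoidHom) :=
      Nat.finite_of_card_ne_zero (by rw [hmap]; norm_num)
    refine ⟨tor s * h⁻¹, ?_⟩
    symm
    apply Subgroup.eq_of_le_of_card_ge
    · unfold V4std
      rw [Subgroup.closure_le]
      rintro x (rfl | rfl)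
      · refine ⟨v, hv, ?_⟩
        show (tor s * h⁻¹) * v * (tor s * h⁻¹)⁻¹ = tor (-1)
        rw [hvt]
        have e1 : (tor s * h⁻¹) * (h * tor (-1) * h⁻¹) * (tor s * h⁻¹)⁻¹ =
            (tor s * tor (-1)) * (tor s)⁻¹ := by group
        rw [e1, tor_mul, mul_comm s (-1), ← tor_mul, mul_inv_cancel_right]
      · refine ⟨w, hw, ?_⟩
        show (tor s * h⁻¹) * w * (tor s * h⁻¹)⁻¹ = swp k
        have e1 : (tor s * h⁻¹) * w * (tor s * h⁻¹)⁻¹ =
            tor s * (h⁻¹ * w * h) * (tor s)⁻¹ := by group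
        have e2 : (tor s)⁻¹ = tor s⁻¹ := by
          apply inv_eq_of_mul_eq_one_right
          rw [tor_mul, mul_inv_cancel, tor_one]
        have e3 : swp k * tor s⁻¹ = tor s * swp k := by
          have h4 := swp_tor (k := k) s⁻¹
          rw [inv_inv] at h4
          calc swp k * tor s⁻¹ = swp k * tor s⁻¹ * (swp k * swp k) := by
                rw [swp_mul_self, mul_one]
            _ = (swp k * tor s⁻¹ * swp k) * swp k := by group
            _ = tor s * swp k := by rw [h4]
        rw [e1, hr, e2, mul_assoc, mul_assoc (tor r), e3, ← mul_assoc, ← mul_assoc, tor_mul,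
          tor_mul]
        have e4 : s * r * s = 1 := by
          rw [mul_comm s r, mul_assoc, hs, mul_inv_cancel]
        rw [e4, tor_one, one_mul]
    · rw [hmap, isV4_V4std.1]

/-- an element of `Γ` fixing three points is trivial -/
theorem FGJ_three {Γ : Subgroup PGL(2, k)} (hP : Pol Γ (PL k)) {g : PGL(2, k)} (hg : g ∈ Γ)
    {x y z : PL k} (hxy : x ≠ y) (hxz : x ≠ z) (hyz : y ≠ z) (h1 : g • x = x) (h2 : g • y = y)
    (h3 : g • z = z) : g = 1 := by
  by_contra hne
  obtain ⟨p, q, -, hf⟩ := hP.fix2 g hg hne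
  rcases (hf x).1 h1 with rfl | rfl <;> rcases (hf y).1 h2 with rfl | rfl <;>
    rcases (hf z).1 h3 with rfl | rfl <;> simp_all

theorem canV_unique {Γ V V' : Subgroup PGL(2, k)} [Finite Γ] (h : CanV (PL k) Γ V)
    (h' : CanV (PL k) Γ V') : V = V' := by
  classical
  by_contra hne
  have hP := pol_pgl Γ
  have hV := h.2.1
  have hV' := h'.2.1
  have hfV := FGJ_fin hV
  have hfV' := FGJ_fin hV'
  have hn : ∀ g ∈ Γ, ∀ v ∈ V, g * v * g⁻¹ ∈ V := fun g hg v hv =>
    (Subgroup.mem_normalizer_iff.1 (h.2.2.2 hg) v).1 hv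
  have hn' : ∀ g ∈ Γ, ∀ v ∈ V', g * v * g⁻¹ ∈ V' := fun g hg v hv =>
    (Subgroup.mem_normalizer_iff.1 (h'.2.2.2 hg) v).1 hv
  by_cases hint : ∀ s ∈ V, s ∈ V' → s = 1
  · -- trivial intersection: the groups commute
    have hc : ∀ v ∈ V, ∀ w ∈ V', w * v = v * w := by
      intro v hv w hw
      have h1 : v * w * v⁻¹ * w⁻¹ ∈ V' := mul_mem (hn' v (h.2.2.1 hv) w hw) (inv_mem hw)
      have h2 : v * w * v⁻¹ * w⁻¹ ∈ V := by
        have : v * w * v⁻¹ * w⁻¹ = v * (w * v⁻¹ * w⁻¹) := by group
        rw [this]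
        exact mul_mem hv (hn w (h'.2.2.1 hw) _ (inv_mem hv))
      have h3 := hint _ h2 h1
      calc w * v = (v * w * v⁻¹ * w⁻¹) * (w * v) := by rw [h3, one_mul]
        _ = v * w := by group
    obtain ⟨g, hg⟩ := v4_conj hV
    obtain ⟨w, hw, hw1, -⟩ := FGJ_third hV' 1 1
    have hcw : g * w * g⁻¹ ∈ V4std k := by
      apply v4_cent
      intro v hv
      rw [← hg] at hv
      obtain ⟨u, hu, rfl⟩ := hv
      show g * w * g⁻¹ * (g * u * g⁻¹) = g * u * g⁻¹ * (g * w * g⁻¹)
      calc g * w * g⁻¹ * (g * u * g⁻¹) = g * (w * u) * g⁻¹ := by group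
        _ = g * (u * w) * g⁻¹ := by rw [hc u hu w hw]
        _ = g * u * g⁻¹ * (g * w * g⁻¹) := by group
    rw [← hg] at hcw
    obtain ⟨u, hu, hu'⟩ := hcw
    have hu2 : g * u * g⁻¹ = g * w * g⁻¹ := hu'
    have hwu : u = w := mul_left_cancel (mul_right_cancel hu2)
    exact hw1 (hint w (hwu ▸ hu) hw)
  · push Not at hint
    obtain ⟨s, hsV, hsV', hs1⟩ := hint
    -- an element of `V'` outside of `V`
    have hcard : Nat.card V = Nat.card V' := by rw [hV.1, hV'.1]
    obtain ⟨w, hwV', hwV⟩ : ∃ w ∈ V', w ∉ V := by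
      by_contra hcon
      push Not at hcon
      have hle : V' ≤ V := hcon
      exact hne (Subgroup.eq_of_le_of_card_ge hle hcard.le).symm
    -- the intersection is `{1, s}`
    have hI : ∀ x ∈ V, x ∈ V' → x ≠ 1 → x = s := by
      intro x hx hx' hx1
      by_contra hxs
      have hsub : ({1, s, x, x * s, w} : Finset PGL(2, k)).card ≤ 4 := by
        have h1 : ((({1, s, x, x * s, w} : Finset PGL(2, k)) : Set PGL(2, k))) ⊆
            (V' : Set PGL(2, k)) := by
          intro y hy
          simp only [Finset.coe_insert, Finset.coe_singleton, Set.mem_insert_iff,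
            Set.mem_singleton_iff] at hy
          rcases hy with rfl | rfl | rfl | rfl | rfl
          · exact one_mem V'
          · exact hsV'
          · exact hx'
          · exact mul_mem hx' hsV'
          · exact hwV'
        have h2 := Set.ncard_le_ncard h1 (Set.toFinite _)
        rw [Set.ncard_coe_finset] at h2
        have h3 : (V' : Set PGL(2, k)).ncard = 4 := hV'.1
        omega
      have a1 : (1 : PGL(2, k)) ≠ x * s := by
        intro h
        apply hxs
        have h4 : x * s = s * s := by rw [← h, hV.2 s hsV]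
        exact mul_right_cancel h4
      have a2 : s ≠ x * s := by
        intro h
        apply hx1
        have h4 : 1 * s = x * s := by rw [one_mul]; exact h
        exact (mul_right_cancel h4).symm
      have a3 : x ≠ x * s := by
        intro h
        apply hs1
        have h4 : x * 1 = x * s := by rw [mul_one]; exact h
        exact (mul_left_cancel h4).symm
      have b1 : (1 : PGL(2, k)) ≠ w := fun h => hwV (h ▸ one_mem V)
      have b2 : s ≠ w := fun h => hwV (h ▸ hsV)
      have b3 : x ≠ w := fun h => hwV (h ▸ hx)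
      have b4 : x * s ≠ w := fun h => hwV (h ▸ mul_mem hx hsV)
      have h5 : ({1, s, x, x * s, w} : Finset PGL(2, k)).card = 5 := by
        rw [Finset.card_insert_of_notMem (by simp [hs1.symm, hx1.symm, a1, b1]),
          Finset.card_insert_of_notMem (by simp [Ne.symm hxs, a2, b2]),
          Finset.card_insert_of_notMem (by simp [a3, b3]),
          Finset.card_insert_of_notMem (by simp [b4]), Finset.card_singleton]
      omega
    have hcent : ∀ g ∈ Γ, g * s * g⁻¹ = s := by
      intro g hg
      apply hI _ (hn g hg s hsV) (hn' g hg s hsV')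
      intro h1
      apply hs1
      calc s = g⁻¹ * (g * s * g⁻¹) * g := by group
        _ = 1 := by rw [h1]; group
    have hsΓ : s ∈ Γ := h.2.2.1 hsV
    obtain ⟨p, q, hpq, hf⟩ := hP.fix2 s hsΓ hs1
    have hsp : s • p = p := (hf p).2 (Or.inl rfl)
    have hsq : s • q = q := (hf q).2 (Or.inr rfl)
    have hpres : ∀ g ∈ Γ, ∀ x : PL k, s • x = x → s • (g • x) = g • x := by
      intro g hg x hx
      have h1 : s * g = g * s := by
        have := hcent g hg
        calc s * g = (g * s * g⁻¹) * g := by rw [this]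
          _ = g * s := by group
      rw [← mul_smul, h1, mul_smul, hx]
    have hgp : ∀ g ∈ Γ, g • p = p ∨ g • p = q := fun g hg => (hf _).1 (hpres g hg p hsp)
    have hgq : ∀ g ∈ Γ, g • q = p ∨ g • q = q := fun g hg => (hf _).1 (hpres g hg q hsq)
    have hgq1 : ∀ g ∈ Γ, g • p = p → g • q = q := by
      intro g hg h1
      rcases hgq g hg with h2 | h2
      · exact absurd (smul_left_cancel g (h1.trans h2.symm)) hpq
      · exact h2
    have hgq2 : ∀ g ∈ Γ, g • p = q → g • q = p := by
      intro g hg h1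
      rcases hgq g hg with h2 | h2
      · exact h2
      · exact absurd (smul_left_cancel g (h1.trans h2.symm)) hpq
    -- the order of `Γ` is at least eight
    have hord : 8 ≤ Nat.card Γ := by
      have hd : 4 ∣ Nat.card Γ := by
        rw [← hV.1]
        exact Subgroup.card_dvd_of_le h.2.2.1
      have hgt : 4 < Nat.card Γ := by
        by_contra hle
        push Not at hle
        have h1 : Γ = V := by
          symm
          apply Subgroup.eq_of_le_of_card_ge h.2.2.1
          rw [hV.1]
          exact hle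
        exact hwV (h1 ▸ h'.2.2.1 hwV')
      obtain ⟨c, hc⟩ := hd
      omega
    have hse : 4 ≤ se Γ p := by
      have h1 := card_orbit_mul_se (Γ := Γ) p
      have h2 : Nat.card {x : PL k // ∃ g ∈ Γ, g • p = x} ≤ 2 := by
        have h3 : ({x : PL k | ∃ g ∈ Γ, g • p = x}) ⊆ {p, q} := by
          rintro x ⟨g, hg, rfl⟩
          exact hgp g hg
        have h4 := Set.ncard_le_ncard h3 (Set.toFinite _)
        have h5 : ({p, q} : Set (PL k)).ncard ≤ 2 :=
          (Set.ncard_insert_le p {q}).trans (by rw [Set.ncard_singleton])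
        exact h4.trans h5
      have h6 : Nat.card Γ ≤ 2 * se Γ p := by
        rw [← h1]
        exact Nat.mul_le_mul_right _ h2
      omega
    apply h.1
    refine ⟨p, Or.inr ⟨by omega, ?_⟩⟩
    intro x hx g hg hgpp
    by_cases hxp : x = p
    · rw [hxp]; exact hgpp
    by_cases hxq : x = q
    · rw [hxq]; exact hgq1 g hg hgpp
    exfalso
    have hle : se Γ x ≤ 2 := by
      have hinj : Function.Injective
          (fun g : {g : PGL(2, k) // g ∈ Γ ∧ g • x = x} => decide (g.1 = 1)) := by
        have key : ∀ a b : PGL(2, k), a ∈ Γ → b ∈ Γ → a • x = x → b • x = x → a ≠ 1 → b ≠ 1 →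
            a * b = 1 := by
          intro a b ha hb hax hbx ha1 hb1
          have hmove : ∀ c : PGL(2, k), c ∈ Γ → c • x = x → c ≠ 1 → c • p = q ∧ c • q = p := by
            intro c hc hcx hc1
            rcases hgp c hc with h2 | h2
            · exact absurd (FGJ_three hP hc hpq (Ne.symm hxp) (Ne.symm hxq) h2 (hgq1 c hc h2) hcx)
                hc1
            · exact ⟨h2, hgq2 c hc h2⟩
          obtain ⟨a2, a3⟩ := hmove a ha hax ha1
          obtain ⟨b2, b3⟩ := hmove b hb hbx hb1
          apply FGJ_three hP (mul_mem ha hb) hpq (Ne.symm hxp) (Ne.symm hxq)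
          · rw [mul_smul, b2, a3]
          · rw [mul_smul, b3, a2]
          · rw [mul_smul, hbx, hax]
        rintro ⟨a, ha, hax⟩ ⟨b, hb, hbx⟩ hab
        apply Subtype.ext
        show a = b
        by_cases ha1 : a = 1
        · by_cases hb1 : b = 1
          · rw [ha1, hb1]
          · simp [ha1, hb1] at hab
        · by_cases hb1 : b = 1
          · simp [ha1, hb1] at hab
          · have h2 := key a b ha hb hax hbx ha1 hb1
            have h3 := key b b hb hb hbx hbx hb1 hb1
            exact mul_right_cancel (h2.trans h3.symm)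
      have := Nat.card_le_card_of_injective _ hinj
      have hb : Nat.card Bool = 2 := by rw [Nat.card_eq_fintype_card, Fintype.card_bool]
      rw [hb] at this
      exact this
    omega

/-- No finite group has both: an equivariantly lifted action and a Klein four group. If a subgroup `H` of
`GL(2, k)` has a character which is the identity on scalars then the image of `H` contains no Klein four
group. -/
theorem no_v4_of_char {H : Subgroup (GL (Fin 2) k)} (χ : H →* kˣ)
    (hs : ∀ u : kˣ, Matrix.GeneralLinearGroup.scalar (Fin 2) u ∈ H)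
    (hχ : ∀ u : kˣ, χ ⟨_, hs u⟩ = u) (V : Subgroup PGL(2, k)) (hV : IsV4 V) :
    ¬ V ≤ H.map Matrix.ProjGenLinGroup.mk := by
  intro hle
  obtain ⟨g, hg⟩ := v4_conj hV
  obtain ⟨g', rfl⟩ := Matrix.ProjGenLinGroup.mk_surjective g
  have hT : (tor (-1) : PGL(2, k)) ∈ V4std k := mem_V4std.2 (Or.inr (Or.inl rfl))
  have hS : swp k ∈ V4std k := mem_V4std.2 (Or.inr (Or.inr (Or.inl rfl)))
  rw [← hg] at hT hS
  obtain ⟨v, hv, hvT⟩ := hT
  obtain ⟨w, hw, hwS⟩ := hS
  obtain ⟨A, hA, hAv⟩ := hle hv
  obtain ⟨B, hB, hBw⟩ := hle hw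
  rw [← hAv] at hvT
  rw [← hBw] at hwS
  have hvT' : Matrix.ProjGenLinGroup.mk (glm (-1 : k) 0 0 1 (by simp)) =
      Matrix.ProjGenLinGroup.mk (g' * A * g'⁻¹) := by
    have h1 : (tor (-1) : PGL(2, k)) =
      Matrix.ProjGenLinGroup.mk (glm (-1 : k) 0 0 1 (by simp)) := rfl
    rw [← h1, ← hvT]
    rfl
  have hwS' : Matrix.ProjGenLinGroup.mk (glm (0 : k) 1 1 0 (by simp)) =
      Matrix.ProjGenLinGroup.mk (g' * B * g'⁻¹) := by
    have h1 : swp k = Matrix.ProjGenLinGroup.mk (glm (0 : k) 1 1 0 (by simp)) := rfl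
    rw [← h1, ← hwS]
    rfl
  rw [Matrix.ProjGenLinGroup.mk_eq_mk_iff] at hvT' hwS'
  obtain ⟨u, hu⟩ := hvT'
  obtain ⟨r, hr⟩ := hwS'
  have hcomm : ∀ (c : kˣ) (M : GL (Fin 2) k),
      Matrix.GeneralLinearGroup.scalar (Fin 2) c * M =
        M * Matrix.GeneralLinearGroup.scalar (Fin 2) c :=
    fun c M => Matrix.GeneralLinearGroup.scalar_commute c M
  have hanti : glm (-1 : k) 0 0 1 (by simp) * glm (0 : k) 1 1 0 (by simp) =
      Matrix.GeneralLinearGroup.scalar (Fin 2) (-1) *
        (glm (0 : k) 1 1 0 (by simp) * glm (-1 : k) 0 0 1 (by simp)) := by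
    apply Units.ext
    ext i j
    fin_cases i <;> fin_cases j <;>
      simp [glm, Matrix.mul_apply, Fin.sum_univ_two, Matrix.GeneralLinearGroup.scalar]
  have hAB : A * B = Matrix.GeneralLinearGroup.scalar (Fin 2) (-1) * (B * A) := by
    have h1 : (g' * A * g'⁻¹) * (g' * B * g'⁻¹) =
        Matrix.GeneralLinearGroup.scalar (Fin 2) (-1) *
          ((g' * B * g'⁻¹) * (g' * A * g'⁻¹)) := by
      rw [← hu, ← hr]
      generalize glm (-1 : k) 0 0 1 _ = D at hanti ⊢
      generalize glm (0 : k) 1 1 0 _ = E at hanti ⊢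
      rw [← hcomm u D, ← hcomm r E]
      generalize hσ : Matrix.GeneralLinearGroup.scalar (Fin 2) (-1 : kˣ) = σ at hanti ⊢
      have hu1 := hcomm u
      have hr1 := hcomm r
      have hσ1 := hcomm (-1)
      rw [hσ] at hσ1
      generalize Matrix.GeneralLinearGroup.scalar (Fin 2) u = μ at hu1 ⊢
      generalize Matrix.GeneralLinearGroup.scalar (Fin 2) r = ν at hr1 ⊢
      calc μ * D * (ν * E) = μ * (D * ν) * E := by group
        _ = μ * (ν * D) * E := by rw [hr1 D]
        _ = μ * ν * (D * E) := by group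
        _ = μ * ν * (σ * (E * D)) := by rw [hanti]
        _ = (μ * ν) * σ * (E * D) := by group
        _ = σ * (μ * ν) * (E * D) := by rw [hσ1]
        _ = σ * ((μ * ν) * E * D) := by group
        _ = σ * ((ν * μ) * E * D) := by rw [hu1 ν]
        _ = σ * (ν * (μ * E) * D) := by group
        _ = σ * (ν * (E * μ) * D) := by rw [hu1 E]
        _ = σ * (ν * E * (μ * D)) := by group
    have hσ1 := hcomm (-1)
    generalize Matrix.GeneralLinearGroup.scalar (Fin 2) (-1 : kˣ) = σ at h1 hσ1 ⊢
    calc A * B = g'⁻¹ * ((g' * A * g'⁻¹) * (g' * B * g'⁻¹)) * g' := by group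
      _ = g'⁻¹ * (σ * ((g' * B * g'⁻¹) * (g' * A * g'⁻¹))) * g' := by rw [h1]
      _ = (g'⁻¹ * σ) * g' * (B * A) := by group
      _ = (σ * g'⁻¹) * g' * (B * A) := by rw [hσ1]
      _ = σ * (B * A) := by group
  have h2 : (⟨A, hA⟩ : H) * ⟨B, hB⟩ = ⟨_, hs (-1)⟩ * (⟨B, hB⟩ * ⟨A, hA⟩) :=
    Subtype.ext hAB
  have h3 := congrArg χ h2
  rw [map_mul, map_mul, map_mul, hχ, mul_comm (χ ⟨B, hB⟩)] at h3
  have h4 : (1 : kˣ) * (χ ⟨A, hA⟩ * χ ⟨B, hB⟩) = -1 * (χ ⟨A, hA⟩ * χ ⟨B, hB⟩) := by
    rw [one_mul]; exact h3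
  exact FGJ_neg1 (mul_right_cancel h4).symm

end Pool.Agent.MRat
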