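import Pool.Agent.Lib.MP_923aff_ag.FGI
/-!
# JOB FGK: the poles of order five of an icosahedral group

Conjugate so that `∞` and `0` are the two fixed points of an element of order five: `se = 5` for both, and
`Γ ∩ T = μ_5` (`tor_mem_iff`). The points with `se = 5` form one orbit `O` (`Tri.all`, the numbers `2, 3, 5` differ), of
size `12` (`card_orbit_mul_se`), stable under `tor ζ`, `ζ` a primitive fifth root of unity, and contain
`∞` and `0`. The other ten are two orbits `{ζ ^ i α}`, `{ζ ^ i β}`; `a = -(α ^ 5 + β ^ 5)`,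
`b = α ^ 5 β ^ 5`.
-/

set_option autoImplicit false

namespace Pool.Agent.MRat

open scoped MatrixGroups LinearAlgebra.Projectivization

variable {k : Type} [Field k] [IsAlgClosed k] [CharZero k]

/-- Roots of `x y (x ^ 10 + a x ^ 5 y ^ 5 + b y ^ 10)` on the projective line. -/
def icoRab (a b : k) : Set (PL k) :=
  {p | p = ptI k ∨ ∃ z : k, p = ptz z ∧ z * (z ^ 10 + a * z ^ 5 + b) = 0}

private theorem fgk_root {A : k} (hA : A ≠ 0) : {z : k | z ^ 5 = A}.ncard = 5 := by
  classical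
  haveI : NeZero ((5 : ℕ) : k) := ⟨by norm_num⟩
  obtain ⟨ζ, hζ⟩ := HasEnoughRootsOfUnity.exists_primitiveRoot k 5
  have e : {z : k | z ^ 5 = A} = ((Polynomial.nthRoots 5 A).toFinset : Set k) := by
    ext z
    simp [Polynomial.mem_nthRoots]
  rw [e, Set.ncard_coe_finset, Multiset.toFinset_card_of_nodup (hζ.nthRoots_nodup hA),
    hζ.card_nthRoots, if_pos]
  exact IsAlgClosed.exists_pow_nat_eq A (by norm_num)

private theorem fgk_two {A B : k} (hA : A ≠ 0) (hB : B ≠ 0) (hAB : A ≠ B) :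
    {z : k | z ^ 5 = A ∨ z ^ 5 = B}.ncard = 10 := by
  have e : {z : k | z ^ 5 = A ∨ z ^ 5 = B} = {z : k | z ^ 5 = A} ∪ {z : k | z ^ 5 = B} := rfl
  have hf : ∀ {C : k}, C ≠ 0 → {z : k | z ^ 5 = C}.Finite := fun hC =>
    Set.finite_of_ncard_ne_zero (by rw [fgk_root hC]; norm_num)
  rw [e, Set.ncard_union_eq ?_ (hf hA) (hf hB), fgk_root hA, fgk_root hB]
  rw [Set.disjoint_left]
  intro z h1 h2
  exact hAB (h1.symm.trans h2)

private theorem fgk_set (S : Set k) :
    (insert (ptI k) (insert (ptz 0) (ptz '' {z : k | z ≠ 0 ∧ z ∈ S})) : Set (PL k)).ncard =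
      {z : k | z ≠ 0 ∧ z ∈ S}.ncard + 2 ∨ ¬ {z : k | z ≠ 0 ∧ z ∈ S}.Finite := by
  by_cases hf : {z : k | z ≠ 0 ∧ z ∈ S}.Finite
  · left
    have hinj : Function.Injective (ptz : k → PL k) := fun a b h => ptz_inj.1 h
    rw [Set.ncard_insert_of_notMem ?_ ((hf.image _).insert _), Set.ncard_insert_of_notMem ?_ (hf.image _),
      Set.ncard_image_of_injective _ hinj]
    · rintro ⟨z, hz, h0⟩
      exact hz.1 (ptz_inj.1 h0)
    · rintro (h | ⟨z, hz, h0⟩)
      · exact ptz_ne_ptI _ h.symm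
      · exact ptz_ne_ptI _ h0
  · right; exact hf

theorem ico_normal {Γ : Subgroup PGL(2, k)} [Finite Γ] {p₁ p₂ p₃ : PL k}
    (t : Tri Γ 2 3 5 60 p₁ p₂ p₃) :
    ∃ (g : PGL(2, k)) (a b : k), b ≠ 0 ∧ a ^ 2 ≠ 4 * b ∧
      ∀ p : PL k, se (Γ.map (MulAut.conj g).toMonoidHom) p = 5 ↔ p ∈ icoRab a b := by
  have hpol := pol_pgl Γ
  -- the orbit of `p₃`
  have horb : ∀ x : PL k, se Γ x = 5 ↔ ∃ g ∈ Γ, g • p₃ = x := by
    intro x
    constructor
    · intro hx
      obtain ⟨g, hg, h⟩ := t.all x (by rw [hx]; norm_num)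
      rcases h with h | h | h
      · have := se_smul hg p₁ (Γ := Γ)
        rw [h, hx, t.e₁] at this
        omega
      · have := se_smul hg p₂ (Γ := Γ)
        rw [h, hx, t.e₂] at this
        omega
      · exact ⟨g, hg, h⟩
    · rintro ⟨g, hg, rfl⟩
      rw [se_smul hg, t.e₃]
  have hcard : Nat.card {x : PL k // se Γ x = 5} = 12 := by
    have h1 := card_orbit_mul_se (Γ := Γ) p₃
    rw [t.e₃, t.card] at h1
    have h2 : Nat.card {x : PL k // se Γ x = 5} = Nat.card {x : PL k // ∃ g ∈ Γ, g • p₃ = x} :=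
      Nat.card_congr (Equiv.subtypeEquivRight horb)
    omega
  -- an element of order five
  obtain ⟨g₃, hg₃, hfix₃, hgen⟩ := hpol.cyc p₃
  have hord := orderOf_gen hg₃ hfix₃ hgen
  rw [t.e₃] at hord
  have hg1 : g₃ ≠ 1 := by
    rintro rfl
    rw [orderOf_one] at hord
    omega
  obtain ⟨h, u, hu1, hu5, hh⟩ := fin_conj hg1 (n := 5) (by norm_num) (by
    rw [← hord]; exact pow_orderOf_eq_one _)
  set Γ' := Γ.map (MulAut.conj h⁻¹).toMonoidHom with hΓ'
  haveI : Finite Γ' := by
    rw [hΓ']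
    have : (((Γ.map (MulAut.conj h⁻¹).toMonoidHom : Subgroup PGL(2, k)) : Set PGL(2, k))).Finite := by
      rw [Subgroup.coe_map]
      exact Set.Finite.image _ (Set.toFinite _)
    exact this.to_subtype
  have hse : ∀ p : PL k, se Γ' p = se Γ (h • p) := by
    intro p
    have := se_conj (Γ := Γ) h⁻¹ (h • p)
    rwa [inv_smul_smul] at this
  have htor : tor u ∈ Γ' := by
    refine ⟨g₃, hg₃, ?_⟩
    simp only [MulEquiv.coe_toMonoidHom, MulAut.conj_apply, inv_inv]
    rw [hh]
    group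
  have hmem := tor_mem_iff Γ' hu1 htor
  have h5 : se Γ' (ptI k) = 5 := by
    have hfix : tor u • (h⁻¹ • p₃) = h⁻¹ • p₃ := by
      have : tor u = h⁻¹ * g₃ * h := by rw [hh]; group
      rw [this, mul_smul, mul_smul, smul_inv_smul, hfix₃]
    rcases (tor_fix hu1 _).1 hfix with h1 | h1
    · rw [← h1, hse, smul_inv_smul, t.e₃]
    · rw [← hmem.2.1, ← h1, hse, smul_inv_smul, t.e₃]
  have h50 : se Γ' (ptz (0 : k)) = 5 := by rw [hmem.2.1, h5]
  have hroot : ∀ v : kˣ, v ^ 5 = 1 → tor v ∈ Γ' := by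
    intro v hv
    rw [hmem.1 v, h5, hv]
  -- the set of finite nonzero poles of order five
  set S : Set k := {z | se Γ' (ptz z) = 5} with hS
  have hstab : ∀ z w : k, z ≠ 0 → w ^ 5 = z ^ 5 → z ∈ S → w ∈ S := by
    intro z w hz hw hzS
    have hw0 : w ≠ 0 := by
      rintro rfl
      apply hz
      have : z ^ 5 = 0 := by rw [← hw]; norm_num
      exact pow_eq_zero_iff (by norm_num) |>.1 this
    have hv : (Units.mk0 (w / z) (div_ne_zero hw0 hz)) ^ 5 = 1 := by
      apply Units.ext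
      simp only [Units.val_pow_eq_pow_val, Units.val_mk0, Units.val_one, div_pow, hw]
      exact div_self (pow_ne_zero 5 hz)
    have h1 := hroot _ hv
    have h2 : tor (Units.mk0 (w / z) (div_ne_zero hw0 hz)) • ptz z = ptz w := by
      rw [tor_smul_ptz, ptz_inj, Units.val_mk0]
      field_simp
    show se Γ' (ptz w) = 5
    rw [← h2, se_smul h1]
    exact hzS
  have hall : {p : PL k | se Γ' p = 5} =
      insert (ptI k) (insert (ptz 0) (ptz '' {z : k | z ≠ 0 ∧ z ∈ S})) := by
    ext p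
    simp only [Set.mem_setOf_eq, Set.mem_insert_iff, Set.mem_image]
    constructor
    · intro hp
      rcases pl_cases p with rfl | ⟨z, rfl⟩
      · left; rfl
      · right
        by_cases hz : z = 0
        · left; rw [hz]
        · right; exact ⟨z, ⟨hz, hp⟩, rfl⟩
    · rintro (rfl | rfl | ⟨z, ⟨-, hz⟩, rfl⟩)
      · exact h5
      · exact h50
      · exact hz
  have hcard' : {p : PL k | se Γ' p = 5}.ncard = 12 := by
    have e : Nat.card {x : PL k // se Γ' x = 5} = Nat.card {x : PL k // se Γ x = 5} := by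
      refine Nat.card_congr ⟨fun x => ⟨h • x.1, by rw [← hse]; exact x.2⟩,
        fun x => ⟨h⁻¹ • x.1, by rw [hse, smul_inv_smul]; exact x.2⟩, ?_, ?_⟩
      · intro x; apply Subtype.ext; simp
      · intro x; apply Subtype.ext; simp
    have e2 : {p : PL k | se Γ' p = 5}.ncard = Nat.card {x : PL k // se Γ' x = 5} := rfl
    rw [e2, e, hcard]
  have hfinS : {z : k | z ≠ 0 ∧ z ∈ S}.Finite := by
    have hfin : {p : PL k | se Γ' p = 5}.Finite :=
      Set.finite_of_ncard_ne_zero (by rw [hcard']; norm_num)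
    rw [hall] at hfin
    have h2 : (ptz '' {z : k | z ≠ 0 ∧ z ∈ S}).Finite :=
      hfin.subset (fun x hx => Or.inr (Or.inr hx))
    exact Set.Finite.of_finite_image h2 (fun a _ b _ h => ptz_inj.1 h)
  have hS10 : {z : k | z ≠ 0 ∧ z ∈ S}.ncard = 10 := by
    rcases fgk_set S with h1 | h1
    · rw [← hall, hcard'] at h1
      omega
    · exact absurd hfinS h1
  -- the first orbit
  obtain ⟨α, hα0, hαS⟩ : ∃ α : k, α ≠ 0 ∧ α ∈ S := by
    have : {z : k | z ≠ 0 ∧ z ∈ S}.Nonempty := by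
      apply Set.nonempty_of_ncard_ne_zero
      rw [hS10]; norm_num
    exact this
  have hA0 : α ^ 5 ≠ 0 := pow_ne_zero 5 hα0
  obtain ⟨β, hβ0, hβS, hβα⟩ : ∃ β : k, β ≠ 0 ∧ β ∈ S ∧ β ^ 5 ≠ α ^ 5 := by
    by_contra hcon
    push Not at hcon
    have : {z : k | z ≠ 0 ∧ z ∈ S} ⊆ {z : k | z ^ 5 = α ^ 5} := fun z hz => hcon z hz.1 hz.2
    have h1 := Set.ncard_le_ncard this (Set.finite_of_ncard_ne_zero (by rw [fgk_root hA0]; norm_num))
    rw [hS10, fgk_root hA0] at h1
    omega
  have hB0 : β ^ 5 ≠ 0 := pow_ne_zero 5 hβ0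
  have hSeq : {z : k | z ^ 5 = α ^ 5 ∨ z ^ 5 = β ^ 5} = {z : k | z ≠ 0 ∧ z ∈ S} := by
    apply Set.eq_of_subset_of_ncard_le ?_ ?_ hfinS
    · rintro z (hz | hz)
      · refine ⟨?_, hstab α z hα0 hz hαS⟩
        rintro rfl
        exact hA0 (by rw [← hz]; norm_num)
      · refine ⟨?_, hstab β z hβ0 hz hβS⟩
        rintro rfl
        exact hB0 (by rw [← hz]; norm_num)
    · rw [hS10, fgk_two hA0 hB0 (Ne.symm hβα)]
  refine ⟨h⁻¹, -(α ^ 5 + β ^ 5), α ^ 5 * β ^ 5, mul_ne_zero hA0 hB0, ?_, ?_⟩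
  · intro hd
    have h1 : (α ^ 5 - β ^ 5) ^ 2 = 0 := by linear_combination hd
    have h2 := pow_eq_zero_iff (by norm_num : (2 : ℕ) ≠ 0) |>.1 h1
    exact hβα (sub_eq_zero.1 h2).symm
  · intro p
    have hp : se Γ' p = 5 ↔ p ∈ {p : PL k | se Γ' p = 5} := Iff.rfl
    rw [← hΓ', hp, hall]
    unfold icoRab
    simp only [Set.mem_insert_iff, Set.mem_image, Set.mem_setOf_eq]
    constructor
    · rintro (rfl | rfl | ⟨z, hz, rfl⟩)
      · left; rfl
      · right; exact ⟨0, rfl, by ring⟩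
      · right
        refine ⟨z, rfl, ?_⟩
        have hz' : z ∈ {z : k | z ^ 5 = α ^ 5 ∨ z ^ 5 = β ^ 5} := by rw [hSeq]; exact hz
        have h0 : (z ^ 5 - α ^ 5) * (z ^ 5 - β ^ 5) = 0 := by
          rcases hz' with h | h
          · rw [h]; ring
          · rw [h]; ring
        linear_combination z * h0
    · rintro (rfl | ⟨z, rfl, hz⟩)
      · left; rfl
      · right
        by_cases hz0 : z = 0
        · left; rw [hz0]
        · right
          refine ⟨z, ?_, rfl⟩
          have h0 : (z ^ 5 - α ^ 5) * (z ^ 5 - β ^ 5) = 0 := by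
            apply mul_left_cancel₀ hz0
            linear_combination hz
          have h1 : z ∈ {z : k | z ^ 5 = α ^ 5 ∨ z ^ 5 = β ^ 5} := by
            rcases mul_eq_zero.1 h0 with h | h
            · left; exact sub_eq_zero.1 h
            · right; exact sub_eq_zero.1 h
          rw [hSeq] at h1
          exact h1

/-- The set of roots has twelve elements. -/
theorem icoRab_card {a b : k} (hb : b ≠ 0) (hab : a ^ 2 ≠ 4 * b) : (icoRab a b).ncard = 12 := by
  obtain ⟨d, hd⟩ := IsAlgClosed.exists_pow_nat_eq (a ^ 2 - 4 * b) (n := 2) (by norm_num)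
  set A : k := (-a + d) / 2 with hA
  set B : k := (-a - d) / 2 with hB
  have hd0 : d ≠ 0 := by
    rintro rfl
    apply hab
    linear_combination -hd
  have hprod : A * B = b := by
    rw [hA, hB]
    field_simp
    linear_combination -hd
  have hsum : A + B = -a := by
    rw [hA, hB]
    field_simp
    ring
  have hA0 : A ≠ 0 := by
    intro h; rw [h, zero_mul] at hprod; exact hb hprod.symm
  have hB0 : B ≠ 0 := by
    intro h; rw [h, mul_zero] at hprod; exact hb hprod.symm
  have hAB : A ≠ B := by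
    intro h
    apply hd0
    have : A - B = d := by rw [hA, hB]; field_simp; ring
    rw [← this, h, sub_self]
  have e : icoRab a b = insert (ptI k) (insert (ptz 0)
      (ptz '' {z : k | z ≠ 0 ∧ z ∈ {z : k | z ^ 5 = A ∨ z ^ 5 = B}})) := by
    unfold icoRab
    ext p
    simp only [Set.mem_insert_iff, Set.mem_image, Set.mem_setOf_eq]
    constructor
    · rintro (rfl | ⟨z, rfl, hz⟩)
      · left; rfl
      · right
        by_cases hz0 : z = 0
        · left; rw [hz0]
        · right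
          refine ⟨z, ⟨hz0, ?_⟩, rfl⟩
          have h0 : (z ^ 5 - A) * (z ^ 5 - B) = 0 := by
            apply mul_left_cancel₀ hz0
            linear_combination hz - z * z ^ 5 * hsum + z * hprod
          rcases mul_eq_zero.1 h0 with h | h
          · left; exact sub_eq_zero.1 h
          · right; exact sub_eq_zero.1 h
    · rintro (rfl | rfl | ⟨z, ⟨-, hz⟩, rfl⟩)
      · left; rfl
      · right; exact ⟨0, rfl, by ring⟩
      · right
        refine ⟨z, rfl, ?_⟩
        have h0 : (z ^ 5 - A) * (z ^ 5 - B) = 0 := by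
          rcases hz with h | h
          · rw [h]; ring
          · rw [h]; ring
        linear_combination z * h0 + z * z ^ 5 * hsum - z * hprod
  have e2 : {z : k | z ≠ 0 ∧ z ∈ {z : k | z ^ 5 = A ∨ z ^ 5 = B}} = {z : k | z ^ 5 = A ∨ z ^ 5 = B} := by
    ext z
    simp only [Set.mem_setOf_eq, and_iff_right_iff_imp]
    rintro (h | h) rfl
    · exact hA0 (by rw [← h]; norm_num)
    · exact hB0 (by rw [← h]; norm_num)
  rcases fgk_set {z : k | z ^ 5 = A ∨ z ^ 5 = B} with h1 | h1
  · rw [e, h1, e2, fgk_two hA0 hB0 hAB]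
  · exfalso
    apply h1
    rw [e2]
    exact Set.finite_of_ncard_ne_zero (by rw [fgk_two hA0 hB0 hAB]; norm_num)

end Pool.Agent.MRat
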