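import Pool.Agent.Lib.MP_923aff_ag.FGK
/-!
# JOB FGK2: semi-invariance and the covariant of degree eight

`fab_semi`: for fixed `p q r s` the polynomial `P(x) = F(p x + q, r x + s)` has degree at most `12`, the coefficient
of `x ^ 12` is `F(p, r) = 0` because `∞` is a root and `g` preserves the roots; its roots are those `x` with
`g • ptz x` a root, i.e. the eleven distinct roots of `F(x, 1)`; so `P = c F(x, 1)`, `c ≠ 0`. Then homogenise
(`y ≠ 0`: substitute `x / y`; `y = 0`: both sides vanish).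

`fab_cov`: the quartic in `(u, v)`: the coefficient of `e ^ 4` in `F(x + e u, y + e v)` is
`c0 u^4 + c1 u^3 v + c2 u^2 v^2 + c3 u v^3 + c4 v^4` with (for `F = x^11 y + a x^6 y^6 + b x y^11`)
`c0 = 330 x^7 y + 15 a x^2 y^6`, `c1 = 165 x^8 + 120 a x^3 y^5`, `c2 = 225 a x^4 y^4`,
`c3 = 120 a x^5 y^3 + 165 b y^8`, `c4 = 15 a x^6 y^2 + 330 b x y^7`. The invariant
`I = 12 c0 c4 - 3 c1 c3 + c2 ^ 2` of a quartic satisfies `I(Q ∘ M) = det(M)^4 I(Q)`, and here
`I = 10125 (a ^ 2 + 121 b) x^8 y^8`. From `F ∘ M = c F`: `Q_{M v}(M u) = c Q_v(u)`, so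
`det^4 I(Q_{M v}) = c^2 I(Q_v)`. If `a ^ 2 + 121 b ≠ 0`: `((p x + q y) (r x + s y))^8` is a multiple of `(x y)^8`; with
`(x, y) = (1, 0)` and `(0, 1)`: `p r = 0`, `q s = 0`.
-/

set_option autoImplicit false

namespace Pool.Agent.MRat

open scoped MatrixGroups LinearAlgebra.Projectivization

variable {k : Type} [Field k] [IsAlgClosed k] [CharZero k]

/-- The form `x y (x ^ 10 + a x ^ 5 y ^ 5 + b y ^ 10)`. -/
def fab (a b x y : k) : k := x * y * (x ^ 10 + a * x ^ 5 * y ^ 5 + b * y ^ 10)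


/-! ### Semi-invariance -/

section semi

open Polynomial

private noncomputable def fgk2P (a b p q r s : k) : k[X] :=
  (C p * X + C q) * (C r * X + C s) * ((C p * X + C q) ^ 10 +
    C a * (C p * X + C q) ^ 5 * (C r * X + C s) ^ 5 + C b * (C r * X + C s) ^ 10)

omit [IsAlgClosed k] [CharZero k] in
private theorem fgk2P_deg (a b p q r s : k) : (fgk2P a b p q r s).natDegree ≤ 12 := by
  unfold fgk2P
  compute_degree

omit [IsAlgClosed k] [CharZero k] in
private theorem fgk2P_coeff (a b p q r s : k) :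
    (fgk2P a b p q r s).coeff 12 = fab a b p r := by
  unfold fgk2P fab
  compute_degree
  all_goals simp

omit [IsAlgClosed k] [CharZero k] in
private theorem fgk2P_eval (a b p q r s x : k) :
    (fgk2P a b p q r s).eval x = fab a b (p * x + q) (r * x + s) := by
  unfold fgk2P fab
  simp

private noncomputable def fgk2f (a b : k) : k[X] := X * (X ^ 10 + C a * X ^ 5 + C b)

omit [IsAlgClosed k] [CharZero k] in
private theorem fgk2f_eval (a b x : k) : (fgk2f a b).eval x = fab a b x 1 := by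
  unfold fgk2f fab
  simp

omit [IsAlgClosed k] [CharZero k] in
private theorem fgk2f_monic (a b : k) : (fgk2f a b).Monic := by
  unfold fgk2f
  monicity!

omit [IsAlgClosed k] [CharZero k] in
private theorem fgk2f_deg (a b : k) : (fgk2f a b).natDegree = 11 := by
  unfold fgk2f
  compute_degree!

omit [IsAlgClosed k] in
private theorem fgk2f_nodup {a b : k} (hb : b ≠ 0) (hab : a ^ 2 ≠ 4 * b) :
    (fgk2f a b).roots.Nodup := by
  classical
  rw [Multiset.nodup_iff_count_le_one]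
  intro z
  rw [count_roots]
  by_contra hlt
  have hlt' : 1 < (fgk2f a b).rootMultiplicity z := not_le.mp hlt
  have h0 : (fgk2f a b) ≠ 0 := (fgk2f_monic a b).ne_zero
  obtain ⟨h1, h2⟩ := (one_lt_rootMultiplicity_iff_isRoot h0).mp hlt'
  have e1 : z * (z ^ 10 + a * z ^ 5 + b) = 0 := by
    have := h1
    rw [IsRoot, fgk2f] at this
    simpa using this
  have e2 : (z ^ 10 + a * z ^ 5 + b) + z * (10 * z ^ 9 + a * (5 * z ^ 4)) = 0 := by
    have := h2
    rw [IsRoot, fgk2f] at this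
    simp only [derivative_mul, derivative_X, derivative_add, derivative_X_pow, derivative_C,
      eval_add, eval_mul, eval_X, eval_pow, eval_C, eval_one, eval_zero] at this
    norm_num at this
    linear_combination this
  rcases mul_eq_zero.mp e1 with hz | hg
  · rw [hz] at e2
    apply hb
    simpa using e2
  · rw [hg, zero_add] at e2
    have hz : z ≠ 0 := by
      intro hz
      rw [hz] at hg
      apply hb
      simpa using hg
    have e3 : 5 * z ^ 5 * (2 * z ^ 5 + a) = 0 := by linear_combination e2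
    have e4 : 2 * z ^ 5 + a = 0 := by
      rcases mul_eq_zero.mp e3 with h5 | h5
      · exfalso
        rcases mul_eq_zero.mp h5 with h6 | h6
        · exact absurd h6 (by norm_num)
        · exact hz (pow_eq_zero_iff (by norm_num) |>.mp h6)
      · exact h5
    apply hab
    linear_combination (2 * z ^ 5 + a) * e4 - 4 * hg

omit [IsAlgClosed k] [CharZero k] in
private theorem fgk2_mk_mem {a b x y : k} (hv : (![x, y] : Fin 2 → k) ≠ 0) :
    Projectivization.mk k ![x, y] hv ∈ icoRab a b ↔ fab a b x y = 0 := by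
  by_cases hy : y = 0
  · have e : Projectivization.mk k ![x, y] hv = ptI k := by
      unfold ptI
      rw [Projectivization.mk_eq_mk_iff']
      refine ⟨x, ?_⟩
      funext i
      fin_cases i
      · simp
      · simp [hy]
    rw [e]
    constructor
    · intro _
      unfold fab
      rw [hy]
      ring
    · intro _
      exact Or.inl rfl
  · have e : Projectivization.mk k ![x, y] hv = ptz (x / y) := by
      unfold ptz
      rw [Projectivization.mk_eq_mk_iff']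
      refine ⟨y, ?_⟩
      funext i
      fin_cases i
      · simp; field_simp
      · simp
    rw [e]
    have key : fab a b x y = y ^ 12 * ((x / y) * ((x / y) ^ 10 + a * (x / y) ^ 5 + b)) := by
      unfold fab
      field_simp
    constructor
    · rintro (h | ⟨z, hz, h⟩)
      · exact absurd h (ptz_ne_ptI _)
      · rw [ptz_inj] at hz
        rw [key, hz, h, mul_zero]
    · intro h
      right
      refine ⟨x / y, rfl, ?_⟩
      rw [key] at h
      exact (mul_eq_zero.mp h).resolve_left (pow_ne_zero _ hy)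

omit [IsAlgClosed k] [CharZero k] in
private theorem fgk2_iff {a b : k} {p q r s : k}
    (h : p * s - q * r ≠ 0) (hR : ∀ x : PL k, gm p q r s h • x ∈ icoRab a b ↔ x ∈ icoRab a b)
    {x y : k} (hv : (![x, y] : Fin 2 → k) ≠ 0) :
    fab a b (p * x + q * y) (r * x + s * y) = 0 ↔ fab a b x y = 0 := by
  have h1 := hR (Projectivization.mk k ![x, y] hv)
  rw [gm_smul_mk h hv] at h1
  rw [fgk2_mk_mem hv] at h1
  rw [← h1]
  have hv' : (![p * x + q * y, r * x + s * y] : Fin 2 → k) ≠ 0 := by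
    intro h0
    have e0 := congrFun h0 0
    have e1 := congrFun h0 1
    simp at e0 e1
    apply hv
    have hx : x = 0 := by
      have : (p * s - q * r) * x = 0 := by linear_combination s * e0 - q * e1
      exact (mul_eq_zero.mp this).resolve_left h
    have hy : y = 0 := by
      have : (p * s - q * r) * y = 0 := by linear_combination p * e1 - r * e0
      exact (mul_eq_zero.mp this).resolve_left h
    rw [hx, hy]
    funext i
    fin_cases i <;> rfl
  rw [← fgk2_mk_mem hv']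
  rfl

omit [IsAlgClosed k] [CharZero k] in
private theorem fgk2_hom (a b t x y : k) : fab a b (t * x) (t * y) = t ^ 12 * fab a b x y := by
  unfold fab
  ring

end semi

theorem fab_semi {a b : k} (hb : b ≠ 0) (hab : a ^ 2 ≠ 4 * b) {p q r s : k}
    (h : p * s - q * r ≠ 0) (hR : ∀ x : PL k, gm p q r s h • x ∈ icoRab a b ↔ x ∈ icoRab a b) :
    ∃ c : k, c ≠ 0 ∧ ∀ x y : k, fab a b (p * x + q * y) (r * x + s * y) = c * fab a b x y := by
  classical
  have hpr : fab a b p r = 0 := by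
    have h1 := (fgk2_iff h hR (x := 1) (y := 0) vec_ne').mpr (by unfold fab; ring)
    simpa using h1
  have hx1 : ∀ x : k, fab a b (p * x + q) (r * x + s) = 0 ↔ fab a b x 1 = 0 := by
    intro x
    have h1 := fgk2_iff h hR (x := x) (y := 1) (vec_ne x)
    simpa using h1
  have hP0 : fgk2P a b p q r s ≠ 0 := by
    intro h0
    have hf0 : fgk2f a b = 0 := by
      apply Polynomial.funext
      intro x
      rw [fgk2f_eval, Polynomial.eval_zero, ← hx1, ← fgk2P_eval, h0, Polynomial.eval_zero]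
    exact (fgk2f_monic a b).ne_zero hf0
  have hdvd : fgk2f a b ∣ fgk2P a b p q r s := by
    have hle : (fgk2f a b).roots ≤ (fgk2P a b p q r s).roots := by
      rw [Multiset.le_iff_subset (fgk2f_nodup hb hab)]
      intro z hz
      rw [Polynomial.mem_roots (fgk2f_monic a b).ne_zero] at hz
      rw [Polynomial.mem_roots hP0]
      rw [Polynomial.IsRoot, fgk2f_eval] at hz
      rw [Polynomial.IsRoot, fgk2P_eval]
      exact (hx1 z).mpr hz
    exact Polynomial.Splits.dvd_of_roots_le_roots (IsAlgClosed.splits _)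
      (fgk2f_monic a b).ne_zero hle
  obtain ⟨Q, hQ⟩ := hdvd
  have hQ0 : Q ≠ 0 := by
    intro h0
    rw [h0, mul_zero] at hQ
    exact hP0 hQ
  have hdegP : (fgk2P a b p q r s).natDegree ≤ 11 := by
    have h12 := fgk2P_deg a b p q r s
    by_contra hlt
    have he : (fgk2P a b p q r s).natDegree = 12 := by omega
    have hlc : (fgk2P a b p q r s).leadingCoeff = 0 := by
      rw [Polynomial.leadingCoeff, he, fgk2P_coeff, hpr]
    exact hP0 (Polynomial.leadingCoeff_eq_zero.mp hlc)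
  have hdegQ : Q.natDegree = 0 := by
    rw [hQ, Polynomial.natDegree_mul (fgk2f_monic a b).ne_zero hQ0, fgk2f_deg] at hdegP
    omega
  obtain ⟨c, hc⟩ := Polynomial.natDegree_eq_zero.mp hdegQ
  have hc0 : c ≠ 0 := by
    intro h0
    apply hQ0
    rw [← hc, h0, Polynomial.C_0]
  have hmain : ∀ x : k, fab a b (p * x + q) (r * x + s) = c * fab a b x 1 := by
    intro x
    rw [← fgk2P_eval, hQ, Polynomial.eval_mul, fgk2f_eval, ← hc, Polynomial.eval_C, mul_comm]
  refine ⟨c, hc0, ?_⟩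
  intro x y
  by_cases hy : y = 0
  · rw [hy]
    have e1 : fab a b (p * x + q * 0) (r * x + s * 0) = x ^ 12 * fab a b p r := by
      rw [← fgk2_hom]
      congr 1 <;> ring
    rw [e1, hpr]
    unfold fab
    ring
  · have e1 : fab a b (p * x + q * y) (r * x + s * y) =
        y ^ 12 * fab a b (p * (x / y) + q) (r * (x / y) + s) := by
      rw [← fgk2_hom]
      congr 1 <;> field_simp
    have e2 : fab a b x y = y ^ 12 * fab a b (x / y) 1 := by
      rw [← fgk2_hom]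
      congr 1 <;> field_simp
    rw [e1, e2, hmain]
    ring

/-! ### The covariant -/

private def fgk2_A0 (a b x y u v : k) : k :=
  x ^ 11 * y + a * x ^ 6 * y ^ 6 + b * x * y ^ 11

private def fgk2_A1 (a b x y u v : k) : k :=
  x ^ 11 * v + 11 * x ^ 10 * u * y + 6 * a * x ^ 6 * y ^ 5 * v + 6 * a * x ^ 5 * u * y ^ 6 + 11
    * b * x * y ^ 10 * v + b * u * y ^ 11

private def fgk2_A2 (a b x y u v : k) : k :=
  11 * x ^ 10 * u * v + 55 * x ^ 9 * u ^ 2 * y + 15 * a * x ^ 6 * y ^ 4 * v ^ 2 + 36 * a * x ^ 5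
    * u * y ^ 5 * v + 15 * a * x ^ 4 * u ^ 2 * y ^ 6 + 55 * b * x * y ^ 9 * v ^ 2 + 11 * b * u *
    y ^ 10 * v

private def fgk2_A3 (a b x y u v : k) : k :=
  55 * x ^ 9 * u ^ 2 * v + 165 * x ^ 8 * u ^ 3 * y + 20 * a * x ^ 6 * y ^ 3 * v ^ 3 + 90 * a * x
    ^ 5 * u * y ^ 4 * v ^ 2 + 90 * a * x ^ 4 * u ^ 2 * y ^ 5 * v + 20 * a * x ^ 3 * u ^ 3 * y ^
    6 + 165 * b * x * y ^ 8 * v ^ 3 + 55 * b * u * y ^ 9 * v ^ 2

private def fgk2_A4 (a b x y u v : k) : k :=
  165 * x ^ 8 * u ^ 3 * v + 330 * x ^ 7 * u ^ 4 * y + 15 * a * x ^ 6 * y ^ 2 * v ^ 4 + 120 * a *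
    x ^ 5 * u * y ^ 3 * v ^ 3 + 225 * a * x ^ 4 * u ^ 2 * y ^ 4 * v ^ 2 + 120 * a * x ^ 3 * u ^
    3 * y ^ 5 * v + 15 * a * x ^ 2 * u ^ 4 * y ^ 6 + 330 * b * x * y ^ 7 * v ^ 4 + 165 * b * u *
    y ^ 8 * v ^ 3

private def fgk2_A5 (a b x y u v : k) : k :=
  330 * x ^ 7 * u ^ 4 * v + 462 * x ^ 6 * u ^ 5 * y + 6 * a * x ^ 6 * y * v ^ 5 + 90 * a * x ^ 5
    * u * y ^ 2 * v ^ 4 + 300 * a * x ^ 4 * u ^ 2 * y ^ 3 * v ^ 3 + 300 * a * x ^ 3 * u ^ 3 * y
    ^ 4 * v ^ 2 + 90 * a * x ^ 2 * u ^ 4 * y ^ 5 * v + 6 * a * x * u ^ 5 * y ^ 6 + 462 * b * x *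
    y ^ 6 * v ^ 5 + 330 * b * u * y ^ 7 * v ^ 4

private def fgk2_A6 (a b x y u v : k) : k :=
  462 * x ^ 6 * u ^ 5 * v + 462 * x ^ 5 * u ^ 6 * y + a * x ^ 6 * v ^ 6 + 36 * a * x ^ 5 * u * y
    * v ^ 5 + 225 * a * x ^ 4 * u ^ 2 * y ^ 2 * v ^ 4 + 400 * a * x ^ 3 * u ^ 3 * y ^ 3 * v ^ 3
    + 225 * a * x ^ 2 * u ^ 4 * y ^ 4 * v ^ 2 + 36 * a * x * u ^ 5 * y ^ 5 * v + a * u ^ 6 * y ^
    6 + 462 * b * x * y ^ 5 * v ^ 6 + 462 * b * u * y ^ 6 * v ^ 5

private def fgk2_A7 (a b x y u v : k) : k :=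
  462 * x ^ 5 * u ^ 6 * v + 330 * x ^ 4 * u ^ 7 * y + 6 * a * x ^ 5 * u * v ^ 6 + 90 * a * x ^ 4
    * u ^ 2 * y * v ^ 5 + 300 * a * x ^ 3 * u ^ 3 * y ^ 2 * v ^ 4 + 300 * a * x ^ 2 * u ^ 4 * y
    ^ 3 * v ^ 3 + 90 * a * x * u ^ 5 * y ^ 4 * v ^ 2 + 6 * a * u ^ 6 * y ^ 5 * v + 330 * b * x *
    y ^ 4 * v ^ 7 + 462 * b * u * y ^ 5 * v ^ 6

private def fgk2_A8 (a b x y u v : k) : k :=
  330 * x ^ 4 * u ^ 7 * v + 165 * x ^ 3 * u ^ 8 * y + 15 * a * x ^ 4 * u ^ 2 * v ^ 6 + 120 * a *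
    x ^ 3 * u ^ 3 * y * v ^ 5 + 225 * a * x ^ 2 * u ^ 4 * y ^ 2 * v ^ 4 + 120 * a * x * u ^ 5 *
    y ^ 3 * v ^ 3 + 15 * a * u ^ 6 * y ^ 4 * v ^ 2 + 165 * b * x * y ^ 3 * v ^ 8 + 330 * b * u *
    y ^ 4 * v ^ 7

private def fgk2_A9 (a b x y u v : k) : k :=
  165 * x ^ 3 * u ^ 8 * v + 55 * x ^ 2 * u ^ 9 * y + 20 * a * x ^ 3 * u ^ 3 * v ^ 6 + 90 * a * x
    ^ 2 * u ^ 4 * y * v ^ 5 + 90 * a * x * u ^ 5 * y ^ 2 * v ^ 4 + 20 * a * u ^ 6 * y ^ 3 * v ^
    3 + 55 * b * x * y ^ 2 * v ^ 9 + 165 * b * u * y ^ 3 * v ^ 8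

private def fgk2_A10 (a b x y u v : k) : k :=
  55 * x ^ 2 * u ^ 9 * v + 11 * x * u ^ 10 * y + 15 * a * x ^ 2 * u ^ 4 * v ^ 6 + 36 * a * x * u
    ^ 5 * y * v ^ 5 + 15 * a * u ^ 6 * y ^ 2 * v ^ 4 + 11 * b * x * y * v ^ 10 + 55 * b * u * y
    ^ 2 * v ^ 9

private def fgk2_A11 (a b x y u v : k) : k :=
  11 * x * u ^ 10 * v + u ^ 11 * y + 6 * a * x * u ^ 5 * v ^ 6 + 6 * a * u ^ 6 * y * v ^ 5 + b *
    x * v ^ 11 + 11 * b * u * y * v ^ 10

private def fgk2_A12 (a b x y u v : k) : k :=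
  u ^ 11 * v + a * u ^ 6 * v ^ 6 + b * u * v ^ 11

omit [IsAlgClosed k] [CharZero k] in
private theorem fgk2_expand (a b x y u v e : k) : fab a b (x + e * u) (y + e * v) =
      fgk2_A0 a b x y u v * e ^ 0 +
      fgk2_A1 a b x y u v * e ^ 1 +
      fgk2_A2 a b x y u v * e ^ 2 +
      fgk2_A3 a b x y u v * e ^ 3 +
      fgk2_A4 a b x y u v * e ^ 4 +
      fgk2_A5 a b x y u v * e ^ 5 +
      fgk2_A6 a b x y u v * e ^ 6 +
      fgk2_A7 a b x y u v * e ^ 7 +
      fgk2_A8 a b x y u v * e ^ 8 +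
      fgk2_A9 a b x y u v * e ^ 9 +
      fgk2_A10 a b x y u v * e ^ 10 +
      fgk2_A11 a b x y u v * e ^ 11 +
      fgk2_A12 a b x y u v * e ^ 12 := by
  unfold fab
  unfold fgk2_A0
  unfold fgk2_A1
  unfold fgk2_A2
  unfold fgk2_A3
  unfold fgk2_A4
  unfold fgk2_A5
  unfold fgk2_A6
  unfold fgk2_A7
  unfold fgk2_A8
  unfold fgk2_A9
  unfold fgk2_A10
  unfold fgk2_A11
  unfold fgk2_A12
  ring

omit [IsAlgClosed k] in
private theorem fgk2_coeff (d : ℕ → k) (n : ℕ)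
    (h : ∀ e : k, ∑ i ∈ Finset.range n, d i * e ^ i = 0) : ∀ i < n, d i = 0 := by
  classical
  intro i hi
  have hz : (∑ i ∈ Finset.range n, Polynomial.C (d i) * Polynomial.X ^ i) = 0 := by
    apply Polynomial.funext
    intro e
    rw [Polynomial.eval_finset_sum, Polynomial.eval_zero, ← h e]
    apply Finset.sum_congr rfl
    intro j _
    simp
  have h2 := congrArg (fun P => Polynomial.coeff P i) hz
  simp only [Polynomial.finset_sum_coeff, Polynomial.coeff_C_mul, Polynomial.coeff_X_pow,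
    Polynomial.coeff_zero] at h2
  rw [Finset.sum_eq_single i] at h2
  · simpa using h2
  · intro j _ hj
    simp [Ne.symm hj]
  · intro hi'
    exact absurd (Finset.mem_range.mpr hi) hi'

private def fgk2_d (a b c X Y U V x y u v : k) : ℕ → k
  | 0 => fgk2_A0 a b X Y U V - c * fgk2_A0 a b x y u v
  | 1 => fgk2_A1 a b X Y U V - c * fgk2_A1 a b x y u v
  | 2 => fgk2_A2 a b X Y U V - c * fgk2_A2 a b x y u v
  | 3 => fgk2_A3 a b X Y U V - c * fgk2_A3 a b x y u v
  | 4 => fgk2_A4 a b X Y U V - c * fgk2_A4 a b x y u v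
  | 5 => fgk2_A5 a b X Y U V - c * fgk2_A5 a b x y u v
  | 6 => fgk2_A6 a b X Y U V - c * fgk2_A6 a b x y u v
  | 7 => fgk2_A7 a b X Y U V - c * fgk2_A7 a b x y u v
  | 8 => fgk2_A8 a b X Y U V - c * fgk2_A8 a b x y u v
  | 9 => fgk2_A9 a b X Y U V - c * fgk2_A9 a b x y u v
  | 10 => fgk2_A10 a b X Y U V - c * fgk2_A10 a b x y u v
  | 11 => fgk2_A11 a b X Y U V - c * fgk2_A11 a b x y u v
  | 12 => fgk2_A12 a b X Y U V - c * fgk2_A12 a b x y u v
  | _ => 0

omit [IsAlgClosed k] in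
private theorem fgk2_A4_cov {a b p q r s c : k}
    (hF : ∀ x y : k, fab a b (p * x + q * y) (r * x + s * y) = c * fab a b x y)
    (x y u v : k) :
    fgk2_A4 a b (p * x + q * y) (r * x + s * y) (p * u + q * v) (r * u + s * v) =
      c * fgk2_A4 a b x y u v := by
  have key := fgk2_coeff (fgk2_d a b c (p * x + q * y) (r * x + s * y) (p * u + q * v)
    (r * u + s * v) x y u v) 13 (by
      intro e
      have h1 := hF (x + e * u) (y + e * v)
      have e1 : p * (x + e * u) + q * (y + e * v) = (p * x + q * y) + e * (p * u + q * v) := by ring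
      have e2 : r * (x + e * u) + s * (y + e * v) = (r * x + s * y) + e * (r * u + s * v) := by ring
      rw [e1, e2, fgk2_expand, fgk2_expand] at h1
      simp only [Finset.sum_range_succ, Finset.sum_range_zero, fgk2_d]
      linear_combination h1) 4 (by norm_num)
  have key' : fgk2_A4 a b (p * x + q * y) (r * x + s * y) (p * u + q * v) (r * u + s * v) -
      c * fgk2_A4 a b x y u v = 0 := key
  linear_combination key'

private def fgk2_q0 (a x y : k) : k := 330 * x ^ 7 * y + 15 * a * x ^ 2 * y ^ 6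
private def fgk2_q1 (a x y : k) : k := 165 * x ^ 8 + 120 * a * x ^ 3 * y ^ 5
private def fgk2_q2 (a x y : k) : k := 225 * a * x ^ 4 * y ^ 4
private def fgk2_q3 (a b x y : k) : k := 120 * a * x ^ 5 * y ^ 3 + 165 * b * y ^ 8
private def fgk2_q4 (a b x y : k) : k := 15 * a * x ^ 6 * y ^ 2 + 330 * b * x * y ^ 7

omit [IsAlgClosed k] [CharZero k] in
private theorem fgk2_inv (a b x y : k) :
    12 * fgk2_q0 a x y * fgk2_q4 a b x y - 3 * fgk2_q1 a x y * fgk2_q3 a b x y +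
      fgk2_q2 a x y ^ 2 = 10125 * (a ^ 2 + 121 * b) * (x ^ 8 * y ^ 8) := by
  unfold fgk2_q0 fgk2_q1 fgk2_q2 fgk2_q3 fgk2_q4
  ring

private def fgk2_m (p q r s c C0 C1 C2 C3 C4 c0 c1 c2 c3 c4 : k) : ℕ → k
  | 0 => (C0 * q ^ 4 + C1 * q ^ 3 * s + C2 * q ^ 2 * s ^ 2 + C3 * q * s ^ 3 + C4 * s ^ 4) - c * c4
  | 1 => (4 * C0 * p * q ^ 3 + C1 * (3 * p * q ^ 2 * s + q ^ 3 * r) +
      C2 * (2 * p * q * s ^ 2 + 2 * q ^ 2 * r * s) + C3 * (p * s ^ 3 + 3 * q * r * s ^ 2) +
      4 * C4 * r * s ^ 3) - c * c3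
  | 2 => (6 * C0 * p ^ 2 * q ^ 2 + C1 * (3 * p ^ 2 * q * s + 3 * p * q ^ 2 * r) +
      C2 * (p ^ 2 * s ^ 2 + 4 * p * q * r * s + q ^ 2 * r ^ 2) +
      C3 * (3 * p * r * s ^ 2 + 3 * q * r ^ 2 * s) + 6 * C4 * r ^ 2 * s ^ 2) - c * c2
  | 3 => (4 * C0 * p ^ 3 * q + C1 * (p ^ 3 * s + 3 * p ^ 2 * q * r) +
      C2 * (2 * p ^ 2 * r * s + 2 * p * q * r ^ 2) + C3 * (3 * p * r ^ 2 * s + q * r ^ 3) +
      4 * C4 * r ^ 3 * s) - c * c1
  | 4 => (C0 * p ^ 4 + C1 * p ^ 3 * r + C2 * p ^ 2 * r ^ 2 + C3 * p * r ^ 3 + C4 * r ^ 4) - c * c0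
  | _ => 0

omit [IsAlgClosed k] in
private theorem fgk2_I {p q r s c C0 C1 C2 C3 C4 c0 c1 c2 c3 c4 : k}
    (hQ : ∀ u v : k, C0 * (p * u + q * v) ^ 4 + C1 * (p * u + q * v) ^ 3 * (r * u + s * v) +
      C2 * (p * u + q * v) ^ 2 * (r * u + s * v) ^ 2 + C3 * (p * u + q * v) * (r * u + s * v) ^ 3 +
      C4 * (r * u + s * v) ^ 4 =
      c * (c0 * u ^ 4 + c1 * u ^ 3 * v + c2 * u ^ 2 * v ^ 2 + c3 * u * v ^ 3 + c4 * v ^ 4)) :
    (p * s - q * r) ^ 4 * (12 * C0 * C4 - 3 * C1 * C3 + C2 ^ 2) =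
      c ^ 2 * (12 * c0 * c4 - 3 * c1 * c3 + c2 ^ 2) := by
  have key := fgk2_coeff (fgk2_m p q r s c C0 C1 C2 C3 C4 c0 c1 c2 c3 c4) 5 (by
    intro e
    have h1 := hQ e 1
    simp only [Finset.sum_range_succ, Finset.sum_range_zero, fgk2_m]
    linear_combination h1)
  have h0 := key 0 (by norm_num)
  have h1 := key 1 (by norm_num)
  have h2 := key 2 (by norm_num)
  have h3 := key 3 (by norm_num)
  have h4 := key 4 (by norm_num)
  simp only [fgk2_m] at h0 h1 h2 h3 h4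
  rw [sub_eq_zero] at h0 h1 h2 h3 h4
  have e : c ^ 2 * (12 * c0 * c4 - 3 * c1 * c3 + c2 ^ 2) =
      12 * (c * c0) * (c * c4) - 3 * (c * c1) * (c * c3) + (c * c2) ^ 2 := by ring
  rw [e, ← h0, ← h1, ← h2, ← h3, ← h4]
  ring

theorem fab_cov {a b : k} {p q r s c : k} (h : p * s - q * r ≠ 0) (hc : c ≠ 0)
    (hF : ∀ x y : k, fab a b (p * x + q * y) (r * x + s * y) = c * fab a b x y) :
    a ^ 2 + 121 * b = 0 ∨ (p = 0 ∧ s = 0) ∨ (q = 0 ∧ r = 0) := by
  by_cases hI : a ^ 2 + 121 * b = 0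
  · exact Or.inl hI
  right
  have hXY : ∀ x y : k, (p * s - q * r) ^ 4 * (((p * x + q * y) ^ 8) * ((r * x + s * y) ^ 8)) =
      c ^ 2 * (x ^ 8 * y ^ 8) := by
    intro x y
    have hQ := fgk2_I (p := p) (q := q) (r := r) (s := s) (c := c)
      (C0 := fgk2_q0 a (p * x + q * y) (r * x + s * y))
      (C1 := fgk2_q1 a (p * x + q * y) (r * x + s * y))
      (C2 := fgk2_q2 a (p * x + q * y) (r * x + s * y))
      (C3 := fgk2_q3 a b (p * x + q * y) (r * x + s * y))
      (C4 := fgk2_q4 a b (p * x + q * y) (r * x + s * y))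
      (c0 := fgk2_q0 a x y) (c1 := fgk2_q1 a x y) (c2 := fgk2_q2 a x y) (c3 := fgk2_q3 a b x y)
      (c4 := fgk2_q4 a b x y) (by
        intro u v
        have h1 := fgk2_A4_cov hF x y u v
        generalize p * x + q * y = X at *
        generalize r * x + s * y = Y at *
        generalize p * u + q * v = U at *
        generalize r * u + s * v = V at *
        unfold fgk2_A4 at h1
        unfold fgk2_q0 fgk2_q1 fgk2_q2 fgk2_q3 fgk2_q4
        linear_combination h1)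
    rw [fgk2_inv, fgk2_inv] at hQ
    have hne : (10125 : k) * (a ^ 2 + 121 * b) ≠ 0 := mul_ne_zero (by norm_num) hI
    apply mul_left_cancel₀ hne
    linear_combination hQ
  have hpr : p * r = 0 := by
    have h1 := hXY 1 0
    have h2 : (p * s - q * r) ^ 4 * (p * r) ^ 8 = 0 := by
      have e : (p * s - q * r) ^ 4 * (p * r) ^ 8 =
        (p * s - q * r) ^ 4 * (((p * 1 + q * 0) ^ 8) * ((r * 1 + s * 0) ^ 8)) := by ring
      rw [e, h1]
      ring
    have h3 := (mul_eq_zero.mp h2).resolve_left (pow_ne_zero _ h)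
    exact (pow_eq_zero_iff (by norm_num)).mp h3
  have hqs : q * s = 0 := by
    have h1 := hXY 0 1
    have h2 : (p * s - q * r) ^ 4 * (q * s) ^ 8 = 0 := by
      have e : (p * s - q * r) ^ 4 * (q * s) ^ 8 =
        (p * s - q * r) ^ 4 * (((p * 0 + q * 1) ^ 8) * ((r * 0 + s * 1) ^ 8)) := by ring
      rw [e, h1]
      ring
    have h3 := (mul_eq_zero.mp h2).resolve_left (pow_ne_zero _ h)
    exact (pow_eq_zero_iff (by norm_num)).mp h3
  rcases mul_eq_zero.mp hpr with hp | hr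
  · left
    refine ⟨hp, ?_⟩
    rcases mul_eq_zero.mp hqs with hq | hs
    · exfalso
      apply h
      rw [hp, hq]
      ring
    · exact hs
  · right
    refine ⟨?_, hr⟩
    rcases mul_eq_zero.mp hqs with hq | hs
    · exact hq
    · exfalso
      apply h
      rw [hs, hr]
      ring

end Pool.Agent.MRat
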