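import Pool.Agent.Lib.MP_923aff_ag.FGK2
/-!
# JOB FGL: the icosahedral group

`ico_stab`: `g` fixes `∞`: `g z = A z + B`; the sum of the eleven finite roots is `0` and is preserved, so `11 B = 0`;
then `fab 11 (-1) (A x) y = c fab 11 (-1) x y` (`fab_semi`) gives `A ^ 11 = A ^ 6 = A = c`.
`ico_trans`: `alp ^ 2 + alp = 1`; `gm alp 1 1 (-alp)` is in `Ico` because
`fab 11 (-1) (alp x + y) (x - alp y) = (625 - 1000 alp) fab 11 (-1) x y`, it maps `∞` to `alp`; `gm 0 (-1) 1 0`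
(`z ↦ -1/z`) and `tor ζ` (`ζ ^ 5 = 1`) are in `Ico`; the roots are `0`, `∞`, `z ^ 5 = alp ^ 5`,
`z ^ 5 = bet ^ 5`, `bet = -1 - alp = -1 / alp`, because `z ^ 10 + 11 z ^ 5 - 1 = (z ^ 5 - alp ^ 5) (z ^ 5 - bet ^ 5)`.
`ico_card`: orbit of `∞` has `12` elements, stabiliser `5`. Finiteness: an element is determined by the images of
three roots (`fix_three`, `trans_three`).
`ico_tri`: `Pol.types`: the cyclic type is impossible (transitive on twelve points), `(2, 2, n)` has `n = 30`, but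
`se = 5` occurs.
-/

set_option autoImplicit false
set_option linter.unusedSectionVars false

namespace Pool.Agent.MRat

open scoped MatrixGroups LinearAlgebra.Projectivization

variable {k : Type} [Field k] [IsAlgClosed k] [CharZero k]

/-- The icosahedral group: the stabiliser of the twelve roots of `x y (x ^ 10 + 11 x ^ 5 y ^ 5 - y ^ 10)`. -/
def Ico (k : Type) [Field k] : Subgroup PGL(2, k) where
  carrier := {g | ∀ x : PL k, g • x ∈ icoRab (11 : k) (-1) ↔ x ∈ icoRab (11 : k) (-1)}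
  one_mem' := fun x => by rw [one_smul]
  mul_mem' := fun {g h} hg hh x => by rw [mul_smul, hg, hh]
  inv_mem' := fun {g} hg x => by rw [← hg (g⁻¹ • x), smul_inv_smul]

theorem mem_Ico {g : PGL(2, k)} :
    g ∈ Ico k ↔ ∀ x : PL k, g • x ∈ icoRab (11 : k) (-1) ↔ x ∈ icoRab (11 : k) (-1) := Iff.rfl

private theorem FGL_mem_ptz {z : k} :
    ptz z ∈ icoRab (11 : k) (-1) ↔ z * (z ^ 10 + 11 * z ^ 5 + (-1)) = 0 := by
  unfold icoRab
  simp only [Set.mem_ofPred_eq]
  constructor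
  · rintro (h | ⟨w, hw, h⟩)
    · exact absurd h (ptz_ne_ptI _)
    · rw [ptz_inj] at hw
      rw [hw]
      exact h
  · intro h
    exact Or.inr ⟨z, rfl, h⟩

private theorem FGL_mem_ptI : ptI k ∈ icoRab (11 : k) (-1) := Or.inl rfl

private theorem FGL_mem_mk {v : Fin 2 → k} (hv : v ≠ 0) :
    Projectivization.mk k v hv ∈ icoRab (11 : k) (-1) ↔ fab 11 (-1) (v 0) (v 1) = 0 := by
  by_cases h : v 1 = 0
  · have h1 : Projectivization.mk k v hv = ptI k := by
      unfold ptI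
      rw [Projectivization.mk_eq_mk_iff']
      refine ⟨v 0, ?_⟩
      funext i
      fin_cases i
      · simp
      · simp [h]
    rw [h1]
    constructor
    · intro _
      unfold fab
      rw [h]
      ring
    · intro _
      exact FGL_mem_ptI
  · have h1 : Projectivization.mk k v hv = ptz (v 0 / v 1) := by
      unfold ptz
      rw [Projectivization.mk_eq_mk_iff']
      refine ⟨v 1, ?_⟩
      funext i
      fin_cases i
      · simp; field_simp
      · simp
    rw [h1, FGL_mem_ptz]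
    have e : fab 11 (-1) (v 0) (v 1) = (v 1) ^ 12 *
        (v 0 / v 1 * ((v 0 / v 1) ^ 10 + 11 * (v 0 / v 1) ^ 5 + (-1))) := by
      unfold fab
      field_simp
    rw [e]
    constructor
    · intro h2
      rw [h2, mul_zero]
    · intro h2
      exact (mul_eq_zero.1 h2).resolve_left (pow_ne_zero _ h)

private theorem FGL_mem_of_semi {a b c d : k} (h : a * d - b * c ≠ 0) {u : k} (hu : u ≠ 0)
    (hF : ∀ x y : k, fab 11 (-1) (a * x + b * y) (c * x + d * y) = u * fab 11 (-1) x y) :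
    gm a b c d h ∈ Ico k := by
  rw [mem_Ico]
  intro x
  induction x using Projectivization.ind with | _ v hv =>
  rw [gm_smul_mk, FGL_mem_mk, FGL_mem_mk]
  have e := hF (v 0) (v 1)
  simp only [Matrix.cons_val_zero, Matrix.cons_val_one]
  rw [e]
  constructor
  · intro h2
    exact (mul_eq_zero.1 h2).resolve_left hu
  · intro h2
    rw [h2, mul_zero]

open Polynomial in
theorem ico_stab {g : PGL(2, k)} (hg : g ∈ Ico k) (h : g • ptI k = ptI k) :
    ∃ t : kˣ, t ^ 5 = 1 ∧ g = tor t := by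
  obtain ⟨A, B, hA, rfl⟩ := fix_ptI h
  have hab : (11 : k) ^ 2 ≠ 4 * (-1) := by norm_num
  have hb : (-1 : k) ≠ 0 := by norm_num
  obtain ⟨c, hc, hF⟩ := fab_semi hb hab (by simpa using hA) hg
  have key : ∀ x : k, (A * x + B) * ((A * x + B) ^ 10 + 11 * (A * x + B) ^ 5 + (-1)) =
      c * (x * (x ^ 10 + 11 * x ^ 5 + (-1))) := by
    intro x
    have e := hF x 1
    unfold fab at e
    linear_combination e
  have hB : B = 0 := by
    have hAB : ∀ x : k, A * x + B = A * (x + B / A) := by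
      intro x
      field_simp
    have hP : (C (A ^ 11) * (X + C (B / A)) ^ 11 + C (11 * A ^ 6) * (X + C (B / A)) ^ 6 -
        C A * (X + C (B / A)) ^ 1 - C c * X ^ 11 - C (11 * c) * X ^ 6 + C c * X ^ 1 : k[X]) = 0 := by
      apply Polynomial.funext
      intro x
      have e := key x
      rw [hAB] at e
      simp only [eval_add, eval_sub, eval_mul, eval_C, eval_pow, eval_X, eval_zero]
      linear_combination e
    have h10 := congrArg (fun P : k[X] => P.coeff 10) hP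
    simp only [coeff_add, coeff_sub, coeff_C_mul, coeff_X_add_C_pow, coeff_X_pow, coeff_zero] at h10
    norm_num [Nat.choose] at h10
    rcases h10 with h10 | h10
    · exact absurd h10 hA
    · rcases h10 with h10 | h10
      · exact h10
      · exact absurd h10 hA
  subst hB
  have hP : (C (A ^ 11 - c) * X ^ 11 + C (11 * (A ^ 6 - c)) * X ^ 6 - C (A - c) * X ^ 1 : k[X]) =
      0 := by
    apply Polynomial.funext
    intro x
    have e := key x
    simp only [eval_add, eval_sub, eval_mul, eval_C, eval_pow, eval_X, eval_zero]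
    linear_combination e
  have h6 := congrArg (fun P : k[X] => P.coeff 6) hP
  have h1 := congrArg (fun P : k[X] => P.coeff 1) hP
  simp only [coeff_add, coeff_sub, coeff_C_mul, coeff_X_pow, coeff_zero] at h6 h1
  norm_num at h6 h1
  have h5 : A ^ 5 = 1 := by
    have e : A * (A ^ 5 - 1) = 0 := by linear_combination h6 + h1
    have e2 := (mul_eq_zero.1 e).resolve_left hA
    linear_combination e2
  refine ⟨Units.mk0 A hA, ?_, ?_⟩
  · apply Units.ext
    simpa using h5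
  · rfl

theorem tor_mem_ico {t : kˣ} (ht : t ^ 5 = 1) : tor t ∈ Ico k := by
  have ht' : (t : k) ^ 5 = 1 := by
    have := congrArg (fun u : kˣ => (u : k)) ht
    simpa using this
  unfold tor
  refine FGL_mem_of_semi _ (u := (t : k)) t.ne_zero ?_
  intro x y
  unfold fab
  linear_combination (x * y * (t : k) * (x ^ 10 * ((t : k) ^ 5 + 1) + 11 * x ^ 5 * y ^ 5)) * ht'

theorem inv_mem_ico : gm (0 : k) (-1) 1 0 (by simp) ∈ Ico k := by
  refine FGL_mem_of_semi _ (u := 1) one_ne_zero ?_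
  intro x y
  unfold fab
  ring

theorem rho_mem_ico {alp : k} (h : alp ^ 2 + alp = 1) (h' : alp * (-alp) - 1 * 1 ≠ 0) :
    gm alp 1 1 (-alp) h' ∈ Ico k := by
  have hu : (625 - 1000 * alp : k) ≠ 0 := by
    intro h0
    have h1 : alp = 5 / 8 := by linear_combination (-1 / 1000) * h0
    rw [h1] at h
    norm_num at h
  refine FGL_mem_of_semi _ hu ?_
  intro x y
  unfold fab
  linear_combination (exp := 1) (
      (-626)*alp^0*x^1*y^11 + (6864)*alp^0*x^6*y^6 + (626)*alp^0*x^11*y^1 + (1)*alp^1*x^0*y^12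
        + (374)*alp^1*x^1*y^11 + (-11)*alp^1*x^2*y^10 + (66)*alp^1*x^5*y^7
        + (-4136)*alp^1*x^6*y^6 + (-66)*alp^1*x^7*y^5 + (-11)*alp^1*x^10*y^2
        + (-374)*alp^1*x^11*y^1 + (1)*alp^1*x^12*y^0 + (1)*alp^2*x^0*y^12
        + (-241)*alp^2*x^1*y^11 + (-11)*alp^2*x^2*y^10 + (-55)*alp^2*x^3*y^9
        + (-165)*alp^2*x^4*y^8 + (66)*alp^2*x^5*y^7 + (3124)*alp^2*x^6*y^6
        + (-66)*alp^2*x^7*y^5 + (-165)*alp^2*x^8*y^4 + (55)*alp^2*x^9*y^3
        + (-11)*alp^2*x^10*y^2 + (241)*alp^2*x^11*y^1 + (1)*alp^2*x^12*y^0 + (2)*alp^3*x^0*y^12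
        + (133)*alp^3*x^1*y^11 + (33)*alp^3*x^2*y^10 + (165)*alp^3*x^3*y^9
        + (-330)*alp^3*x^4*y^8 + (-858)*alp^3*x^5*y^7 + (-1012)*alp^3*x^6*y^6
        + (858)*alp^3*x^7*y^5 + (-330)*alp^3*x^8*y^4 + (-165)*alp^3*x^9*y^3
        + (33)*alp^3*x^10*y^2 + (-133)*alp^3*x^11*y^1 + (2)*alp^3*x^12*y^0 + (3)*alp^4*x^0*y^12
        + (-108)*alp^4*x^1*y^11 + (-143)*alp^4*x^2*y^10 + (275)*alp^4*x^3*y^9
        + (825)*alp^4*x^4*y^8 + (-1122)*alp^4*x^5*y^7 + (-363)*alp^4*x^6*y^6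
        + (1122)*alp^4*x^7*y^5 + (825)*alp^4*x^8*y^4 + (-275)*alp^4*x^9*y^3
        + (-143)*alp^4*x^10*y^2 + (108)*alp^4*x^11*y^1 + (3)*alp^4*x^12*y^0
        + (5)*alp^5*x^0*y^12 + (91)*alp^5*x^1*y^11 + (-110)*alp^5*x^2*y^10
        + (-550)*alp^5*x^3*y^9 + (825)*alp^5*x^4*y^8 + (1320)*alp^5*x^5*y^7
        + (-2299)*alp^5*x^6*y^6 + (-1320)*alp^5*x^7*y^5 + (825)*alp^5*x^8*y^4
        + (550)*alp^5*x^9*y^3 + (-110)*alp^5*x^10*y^2 + (-91)*alp^5*x^11*y^1
        + (5)*alp^5*x^12*y^0 + (-3)*alp^6*x^0*y^12 + (-17)*alp^6*x^1*y^11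
        + (143)*alp^6*x^2*y^10 + (-275)*alp^6*x^3*y^9 + (-825)*alp^6*x^4*y^8
        + (1122)*alp^6*x^5*y^7 + (1738)*alp^6*x^6*y^6 + (-1122)*alp^6*x^7*y^5
        + (-825)*alp^6*x^8*y^4 + (275)*alp^6*x^9*y^3 + (143)*alp^6*x^10*y^2
        + (17)*alp^6*x^11*y^1 + (-3)*alp^6*x^12*y^0 + (2)*alp^7*x^0*y^12 + (8)*alp^7*x^1*y^11
        + (33)*alp^7*x^2*y^10 + (165)*alp^7*x^3*y^9 + (-330)*alp^7*x^4*y^8
        + (-858)*alp^7*x^5*y^7 + (363)*alp^7*x^6*y^6 + (858)*alp^7*x^7*y^5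
        + (-330)*alp^7*x^8*y^4 + (-165)*alp^7*x^9*y^3 + (33)*alp^7*x^10*y^2
        + (-8)*alp^7*x^11*y^1 + (2)*alp^7*x^12*y^0 + (-1)*alp^8*x^0*y^12 + (-9)*alp^8*x^1*y^11
        + (11)*alp^8*x^2*y^10 + (55)*alp^8*x^3*y^9 + (165)*alp^8*x^4*y^8 + (-66)*alp^8*x^5*y^7
        + (-374)*alp^8*x^6*y^6 + (66)*alp^8*x^7*y^5 + (165)*alp^8*x^8*y^4 + (-55)*alp^8*x^9*y^3
        + (11)*alp^8*x^10*y^2 + (9)*alp^8*x^11*y^1 + (-1)*alp^8*x^12*y^0 + (1)*alp^9*x^0*y^12
        + (-1)*alp^9*x^1*y^11 + (-11)*alp^9*x^2*y^10 + (66)*alp^9*x^5*y^7 + (-11)*alp^9*x^6*y^6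
        + (-66)*alp^9*x^7*y^5 + (-11)*alp^9*x^10*y^2 + (1)*alp^9*x^11*y^1 + (1)*alp^9*x^12*y^0
        + (1)*alp^10*x^1*y^11 + (11)*alp^10*x^6*y^6 + (-1)*alp^10*x^11*y^1) * h

/-- Helper: the elements `alp` and the value of its fifth power. -/
private theorem FGL_alp : ∃ alp : k, alp ^ 2 + alp = 1 := by
  obtain ⟨z, hz⟩ := IsAlgClosed.exists_root (Polynomial.X ^ 2 + Polynomial.X - 1 : Polynomial k) (by
    have : (Polynomial.X ^ 2 + Polynomial.X - 1 : Polynomial k).degree = 2 := by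
      compute_degree!
    rw [this]
    decide)
  refine ⟨z, ?_⟩
  have : z ^ 2 + z - 1 = 0 := by simpa using hz
  linear_combination this

private theorem FGL_det {alp : k} (h : alp ^ 2 + alp = 1) : alp * (-alp) - 1 * 1 ≠ 0 := by
  intro h0
  have h1 : alp = 2 := by linear_combination h + h0
  rw [h1] at h
  norm_num at h

private theorem FGL_ne {alp : k} (h : alp ^ 2 + alp = 1) : alp ≠ 0 := by
  rintro rfl
  norm_num at h

private theorem FGL_pow5 {alp : k} (h : alp ^ 2 + alp = 1) : alp ^ 5 = 5 * alp - 3 := by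
  linear_combination (alp ^ 3 - alp ^ 2 + 2 * alp - 3) * h

private theorem FGL_rho {alp z : k} (h : alp ^ 2 + alp = 1) (hz : z ^ 5 = alp ^ 5) :
    ∃ g ∈ Ico k, g • ptI k = ptz z := by
  have h0 := FGL_ne h
  have hz0 : z ≠ 0 := by
    rintro rfl
    have : alp ^ 5 = 0 := by rw [← hz]; norm_num
    exact h0 (pow_eq_zero_iff (by norm_num) |>.1 this)
  refine ⟨tor (Units.mk0 (z / alp) (div_ne_zero hz0 h0)) * gm alp 1 1 (-alp) (FGL_det h), ?_, ?_⟩
  · refine (Ico k).mul_mem (tor_mem_ico ?_) (rho_mem_ico h _)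
    apply Units.ext
    simp only [Units.val_pow_eq_pow_val, Units.val_mk0, Units.val_one, div_pow, hz]
    exact div_self (pow_ne_zero _ h0)
  · rw [mul_smul, gm_smul_ptI _ one_ne_zero, tor_smul_ptz]
    congr 1
    simp only [Units.val_mk0]
    field_simp

theorem ico_trans {p : PL k} (hp : p ∈ icoRab (11 : k) (-1)) : ∃ g ∈ Ico k, g • ptI k = p := by
  rcases hp with rfl | ⟨z, rfl, hz⟩
  · exact ⟨1, (Ico k).one_mem, one_smul _ _⟩
  · rcases mul_eq_zero.1 hz with rfl | hz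
    · refine ⟨gm (0 : k) (-1) 1 0 (by simp), inv_mem_ico, ?_⟩
      rw [gm_smul_ptI _ one_ne_zero]
      simp
    · obtain ⟨alp, h⟩ := FGL_alp (k := k)
      have hbet : (-1 - alp) ^ 2 + (-1 - alp) = 1 := by linear_combination h
      have e1 := FGL_pow5 h
      have e2 := FGL_pow5 hbet
      have e : (z ^ 5 - alp ^ 5) * (z ^ 5 - (-1 - alp) ^ 5) = 0 := by
        rw [e1, e2]
        linear_combination hz - 25 * h
      rcases mul_eq_zero.1 e with e | e
      · exact FGL_rho h (sub_eq_zero.1 e)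
      · exact FGL_rho hbet (sub_eq_zero.1 e)

private theorem FGL_ncard : (icoRab (11 : k) (-1)).ncard = 12 :=
  icoRab_card (by norm_num) (by norm_num)

private theorem FGL_finite : (icoRab (11 : k) (-1)).Finite := by
  apply Set.finite_of_ncard_ne_zero
  rw [FGL_ncard]
  norm_num

instance ico_finite : Finite (Ico k) := by
  obtain ⟨alp, h⟩ := FGL_alp (k := k)
  have h0 : alp ≠ 0 := FGL_ne h
  obtain ⟨g0, hg0, hg0'⟩ := FGL_rho h rfl
  have hR : Finite (icoRab (11 : k) (-1)) := FGL_finite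
  have mI : ptI k ∈ icoRab (11 : k) (-1) := FGL_mem_ptI
  have m0 : ptz (0 : k) ∈ icoRab (11 : k) (-1) := by
    rw [FGL_mem_ptz]
    simp
  have mA : ptz alp ∈ icoRab (11 : k) (-1) := by
    rw [← hg0', hg0]
    exact mI
  let f : Ico k → icoRab (11 : k) (-1) × icoRab (11 : k) (-1) × icoRab (11 : k) (-1) := fun g =>
    (⟨g.1 • ptI k, (g.2 _).2 mI⟩, ⟨g.1 • ptz 0, (g.2 _).2 m0⟩, ⟨g.1 • ptz alp, (g.2 _).2 mA⟩)
  refine Finite.of_injective f ?_
  intro a b hab
  have e1 : a.1 • ptI k = b.1 • ptI k := congrArg (fun u => u.1.1) hab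
  have e2 : a.1 • ptz (0 : k) = b.1 • ptz 0 := congrArg (fun u => u.2.1.1) hab
  have e3 : a.1 • ptz alp = b.1 • ptz alp := congrArg (fun u => u.2.2.1) hab
  have c1 : (b.1⁻¹ * a.1) • ptI k = ptI k := by rw [mul_smul, e1, inv_smul_smul]
  have c2 : (b.1⁻¹ * a.1) • ptz (0 : k) = ptz 0 := by rw [mul_smul, e2, inv_smul_smul]
  have c3 : (b.1⁻¹ * a.1) • ptz alp = ptz alp := by rw [mul_smul, e3, inv_smul_smul]
  obtain ⟨t, ht⟩ := fix_pair c1 c2
  rw [ht, tor_smul_ptz, ptz_inj] at c3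
  have t1 : t = 1 := by
    apply Units.ext
    rw [Units.val_one]
    exact mul_right_cancel₀ h0 (by rw [c3, one_mul])
  rw [t1, tor_one] at ht
  apply Subtype.ext
  exact (inv_mul_eq_one.1 ht).symm

private theorem FGL_se : se (Ico k) (ptI k) = 5 := by
  have h5 : Nat.card (rootsOfUnity 5 k) = 5 := HasEnoughRootsOfUnity.natCard_rootsOfUnity k 5
  rw [← h5]
  unfold se
  symm
  refine Nat.card_congr (Equiv.ofBijective (fun t : rootsOfUnity 5 k =>
    (⟨tor t.1, tor_mem_ico ((mem_rootsOfUnity 5 t.1).1 t.2), tor_smul_ptI _⟩ :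
      {g : PGL(2, k) // g ∈ Ico k ∧ g • ptI k = ptI k})) ⟨?_, ?_⟩)
  · intro a b hab
    have e : tor a.1 = tor b.1 := congrArg Subtype.val hab
    exact Subtype.ext (tor_inj.1 e)
  · rintro ⟨g, hg, hfix⟩
    obtain ⟨t, ht, rfl⟩ := ico_stab hg hfix
    exact ⟨⟨t, (mem_rootsOfUnity 5 t).2 ht⟩, rfl⟩

theorem ico_card : Nat.card (Ico k) = 60 := by
  rw [← card_orbit_mul_se (Γ := Ico k) (ptI k), FGL_se]
  have e : Nat.card {x : PL k // ∃ g ∈ Ico k, g • ptI k = x} = 12 := by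
    rw [← FGL_ncard (k := k), ← Nat.card_coe_set_eq]
    refine Nat.card_congr (Equiv.subtypeEquivRight ?_)
    intro x
    constructor
    · rintro ⟨g, hg, rfl⟩
      exact (hg _).2 FGL_mem_ptI
    · intro hx
      exact ico_trans hx
  rw [e]

theorem ico_tri : ∃ p₁ p₂ p₃ : PL k, Tri (Ico k) 2 3 5 60 p₁ p₂ p₃ := by
  have hcard := ico_card (k := k)
  have hse := FGL_se (k := k)
  rcases (pol_pgl (Ico k)).types (by rw [hcard]; norm_num) with
    ⟨p, q, -, hfix, hall⟩ | ⟨p₁, p₂, p₃, ⟨n, -, t⟩ | t | t | t⟩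
  · exfalso
    have h1 : ptI k = p ∨ ptI k = q := hall _ (by rw [hse]; norm_num)
    have h2 : gm (0 : k) (-1) 1 0 (by simp) • ptI k = ptI k := by
      rcases h1 with h1 | h1
      · rw [h1]
        exact (hfix _ inv_mem_ico).1
      · rw [h1]
        exact (hfix _ inv_mem_ico).2
    rw [gm_smul_ptI _ one_ne_zero] at h2
    exact ptz_ne_ptI _ h2
  · exfalso
    have h1 := t.card
    rw [hcard] at h1
    have hn : n = 30 := by omega
    subst hn
    obtain ⟨g, hg, h2⟩ := t.all (ptI k) (by rw [hse]; norm_num)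
    rcases h2 with h2 | h2 | h2
    · have := se_smul (Γ := Ico k) hg p₁
      rw [h2, hse, t.e₁] at this
      omega
    · have := se_smul (Γ := Ico k) hg p₂
      rw [h2, hse, t.e₂] at this
      omega
    · have := se_smul (Γ := Ico k) hg p₃
      rw [h2, hse, t.e₃] at this
      omega
  · have h1 := t.card
    rw [hcard] at h1
    omega
  · have h1 := t.card
    rw [hcard] at h1
    omega
  · exact ⟨p₁, p₂, p₃, t⟩

end Pool.Agent.MRat
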