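import Pool.Agent.Lib.MP_923aff_ag.FGL
/-!
# JOB FGL2: uniqueness of the icosahedral group up to conjugation

`ico_unique`: `ico_normal`; the conjugated `Γ'` preserves the points with `se = 5` (`se_smul`), i.e. `icoRab a b`;
some element of `Γ'` maps `∞` to a point different from `0, ∞` (one orbit of twelve points), so it is not monomial;
`fab_semi`, `fab_cov` give `a ^ 2 = -121 b`; conjugate by `tor s` with `s ^ 5 = 11 / a` or its inverse to get
`a = 11`, `b = -1`; so the conjugated group is contained in `Ico k`, and both have order `60`.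
-/

set_option autoImplicit false

namespace Pool.Agent.MRat

open scoped MatrixGroups LinearAlgebra.Projectivization

private theorem FGL2_se_conj {G P : Type} [Group G] [MulAction G P] (Γ : Subgroup G) (g : G)
    (p : P) : se (Γ.map (MulAut.conj g).toMonoidHom) (g • p) = se Γ p := by
  unfold se
  refine Nat.card_congr ⟨fun h => ⟨g⁻¹ * h.1 * g, ?_, ?_⟩, fun h => ⟨g * h.1 * g⁻¹, ?_, ?_⟩, ?_, ?_⟩
  · obtain ⟨x, hx, hxe⟩ := Subgroup.mem_map.1 h.2.1
    have hxe' : g * x * g⁻¹ = h.1 := hxe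
    rw [← hxe']
    simpa [mul_assoc] using hx
  · rw [mul_smul, mul_smul, h.2.2, inv_smul_smul]
  · exact Subgroup.mem_map.2 ⟨h.1, h.2.1, rfl⟩
  · rw [mul_smul, mul_smul, inv_smul_smul, h.2.2]
  · intro h; apply Subtype.ext; simp [mul_assoc]
  · intro h; apply Subtype.ext; simp [mul_assoc]

variable {k : Type} [Field k] [IsAlgClosed k] [CharZero k]

omit [IsAlgClosed k] [CharZero k] in
private theorem FGL2_ptz_mem {a b z : k} :
    ptz z ∈ icoRab a b ↔ z * (z ^ 10 + a * z ^ 5 + b) = 0 := by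
  constructor
  · rintro (h | ⟨w, hw, h⟩)
    · exact absurd h (ptz_ne_ptI z)
    · rw [ptz_inj] at hw
      rw [hw]
      exact h
  · intro h
    exact Or.inr ⟨z, rfl, h⟩

theorem ico_unique {Γ : Subgroup PGL(2, k)} [Finite Γ] {p₁ p₂ p₃ : PL k}
    (t : Tri Γ 2 3 5 60 p₁ p₂ p₃) :
    ∃ g : PGL(2, k), Γ.map (MulAut.conj g).toMonoidHom = Ico k := by
  obtain ⟨g, a, b, hb, hab, hse⟩ := ico_normal t
  set Γ' : Subgroup PGL(2, k) := Γ.map (MulAut.conj g).toMonoidHom with hΓ'
  have hcardmap : ∀ g : PGL(2, k), Nat.card (Γ.map (MulAut.conj g).toMonoidHom) = 60 := by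
    intro g
    rw [← t.card]
    exact (Nat.card_congr (Γ.equivMapOfInjective _ (MulAut.conj g).injective).toEquiv).symm
  have hfin : Finite Γ' := by
    apply Nat.finite_of_card_ne_zero
    rw [hcardmap g]
    norm_num
  -- the roots are preserved
  have hpres : ∀ h ∈ Γ', ∀ x : PL k, h • x ∈ icoRab a b ↔ x ∈ icoRab a b := by
    intro h hh x
    rw [← hse, ← hse, se_smul hh]
  have hI : ptI k ∈ icoRab a b := Or.inl rfl
  -- a non-monomial element
  have hex : ∃ h ∈ Γ', h • ptI k ≠ ptI k ∧ h • ptI k ≠ ptz (0 : k) := by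
    by_contra hcon
    push Not at hcon
    have h1 := card_orbit_mul_se (Γ := Γ') (ptI k)
    rw [(hse (ptI k)).2 hI, hcardmap g] at h1
    have h2 : Nat.card {x : PL k // ∃ g ∈ Γ', g • ptI k = x} ≤ 2 := by
      have h3 : {x : PL k | ∃ g ∈ Γ', g • ptI k = x} ⊆ {ptI k, ptz (0 : k)} := by
        rintro x ⟨h, hh, rfl⟩
        by_cases h4 : h • ptI k = ptI k
        · left; exact h4
        · right; exact hcon h hh h4
      have h5 : Set.ncard {x : PL k | ∃ g ∈ Γ', g • ptI k = x} ≤
          Set.ncard ({ptI k, ptz (0 : k)} : Set (PL k)) :=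
        Set.ncard_le_ncard h3 (Set.toFinite _)
      have h6 : Set.ncard ({ptI k, ptz (0 : k)} : Set (PL k)) ≤ 2 := by
        refine (Set.ncard_insert_le _ _).trans ?_
        rw [Set.ncard_singleton]
      have h7 := h5.trans h6
      rw [← Nat.card_coe_set_eq] at h7
      exact h7
    omega
  have hcov : a ^ 2 + 121 * b = 0 := by
    obtain ⟨h, hh, hne, hn0⟩ := hex
    obtain ⟨p, q, r, s, hd, rfl⟩ := gm_surj h
    have hr : r ≠ 0 := by
      intro hr
      exact hne (gm_smul_ptI' hd hr)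
    rw [gm_smul_ptI hd hr] at hn0
    have hp : p ≠ 0 := by
      intro hp
      apply hn0
      rw [hp, zero_div]
    obtain ⟨c, hc, hF⟩ := fab_semi hb hab hd (hpres _ hh)
    rcases fab_cov hd hc hF with h | h | h
    · exact h
    · exact absurd h.1 hp
    · exact absurd h.2 hr
  have ha : a ≠ 0 := by
    rintro rfl
    apply hb
    have : (121 : k) * b = 0 := by
      have := hcov
      rwa [zero_pow (by norm_num), zero_add] at this
    exact (mul_eq_zero.1 this).resolve_left (by norm_num)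
  obtain ⟨s, hs⟩ := IsAlgClosed.exists_pow_nat_eq (11 / a) (n := 5) (by norm_num)
  have hs0 : s ≠ 0 := by
    rintro rfl
    rw [zero_pow (by norm_num)] at hs
    have : (11 : k) / a ≠ 0 := div_ne_zero (by norm_num) ha
    exact this hs.symm
  have e1 : a * s ^ 5 = 11 := by
    rw [hs]; field_simp
  have e2 : b * s ^ 10 = -1 := by
    have h1 : b = -a ^ 2 / 121 := by
      field_simp
      linear_combination hcov
    have h2 : s ^ 10 = (s ^ 5) ^ 2 := by ring
    rw [h2, h1]
    have h3 : -a ^ 2 / 121 * (s ^ 5) ^ 2 = -(a * s ^ 5) ^ 2 / 121 := by ring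
    rw [h3, e1]
    norm_num
  -- the conjugated group
  let u : kˣ := Units.mk0 s hs0
  have hu : (u : k) = s := rfl
  refine ⟨tor u * g, ?_⟩
  have hse2 : ∀ x : PL k, se (Γ.map (MulAut.conj (tor u * g)).toMonoidHom) x = 5 ↔
      x ∈ icoRab (11 : k) (-1) := by
    intro x
    have h1 : se (Γ.map (MulAut.conj (tor u * g)).toMonoidHom) x = se Γ ((tor u * g)⁻¹ • x) := by
      have := FGL2_se_conj Γ (tor u * g) ((tor u * g)⁻¹ • x)
      rw [smul_inv_smul] at this
      exact this
    have h2 : se Γ' ((tor u)⁻¹ • x) = se Γ ((tor u * g)⁻¹ • x) := by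
      have := FGL2_se_conj Γ g ((tor u * g)⁻¹ • x)
      rw [← this, mul_inv_rev, mul_smul, smul_inv_smul]
    rw [h1, ← h2, hse]
    have h3 : (tor u)⁻¹ = tor u⁻¹ := by
      rw [inv_eq_iff_mul_eq_one, tor_mul, mul_inv_cancel, tor_one]
    rw [h3]
    rcases pl_cases x with rfl | ⟨z, rfl⟩
    · rw [tor_smul_ptI]
      exact ⟨fun _ => Or.inl rfl, fun _ => Or.inl rfl⟩
    · rw [tor_smul_ptz, FGL2_ptz_mem, FGL2_ptz_mem, Units.val_inv_eq_inv_val, hu]
      have e3 : s ^ 11 * ((s⁻¹ * z) * ((s⁻¹ * z) ^ 10 + a * (s⁻¹ * z) ^ 5 + b)) =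
          z * (z ^ 10 + 11 * z ^ 5 + -1) := by
        rw [← e1, ← e2]
        field_simp
      rw [← e3]
      constructor
      · intro h
        rw [h, mul_zero]
      · intro h
        exact (mul_eq_zero.1 h).resolve_left (pow_ne_zero _ hs0)
  refine Subgroup.eq_of_le_of_card_ge ?_ ?_
  · intro h hh
    rw [mem_Ico]
    intro x
    rw [← hse2, ← hse2, se_smul hh]
  · rw [hcardmap, ico_card]

end Pool.Agent.MRat
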