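import Pool.Agent.Lib.MP_923aff_ag.FGL2
import Pool.Agent.Lib.MP_923aff_ag.FGF
import Pool.Agent.Lib.MP_923aff_ag.FGJ
/-!
# JOB FGM: consequences

`ico_se5`: the points with `se (Ico k) = 5` are exactly `icoRab 11 (-1)` (`∞` has `se = 5` by `ico_stab`; one orbit).
`ico_normalizer`: if `g` normalises `Ico k` it permutes the points with `se = 5`.
`ico_maximal`: a finite group containing `Ico k` is equal to it: `Pol.types`: its order is a multiple of `60` and `≥ 60`,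
so it is cyclic or dihedral type or of order `60`; in the first two types any two elements outside a subgroup
of index at most two ... simplest: a point of `icoRab` has `se ≥ 5` and there are `12` such points, while in the cyclic
and dihedral types only two points have `se ≥ 3`.
`ico_axis`: conjugate a pole with `se = m` to `∞`, its opposite point to `0`; by `Pol.swap_ico` some element exchanges
them, it is `tor t * swp` (`swap_pair`), conjugate by `tor s`, `s ^ 2 = t⁻¹`.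
`ico_double`: the fixed point `p = g⁻¹ ∞` of `g⁻¹ μ_m g` in `Ico` has `se = m` (`tor_mem_iff`), likewise
`g_m⁻¹ ∞`; one orbit: `i ∈ Ico` maps one to the other (and the opposite points to each other), so
`g i g_m⁻¹` (suitable `i`) fixes `∞` and `0`.
-/

set_option autoImplicit false

namespace Pool.Agent.MRat

open scoped MatrixGroups LinearAlgebra.Projectivization

variable {k : Type} [Field k] [IsAlgClosed k] [CharZero k]

private theorem FGM_prim (n : ℕ) (hn : 0 < n) : ∃ ζ : kˣ, IsPrimitiveRoot ζ n := by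
  have : NeZero (n : k) := ⟨Nat.cast_ne_zero.2 hn.ne'⟩
  obtain ⟨ζ, hζ⟩ := HasEnoughRootsOfUnity.exists_primitiveRoot k n
  exact ⟨(hζ.isUnit hn.ne').unit, hζ.isUnit_unit hn.ne'⟩

private theorem FGM_eq {m n : ℕ} (hm : 0 < m) (hn : 0 < n) (h : ∀ t : kˣ, t ^ m = 1 ↔ t ^ n = 1) :
    m = n := by
  obtain ⟨ζ, hζ⟩ := FGM_prim (k := k) m hm
  obtain ⟨ξ, hξ⟩ := FGM_prim (k := k) n hn
  exact Nat.dvd_antisymm (hζ.dvd_of_pow_eq_one _ ((h ζ).1 hζ.pow_eq_one))
    (hξ.dvd_of_pow_eq_one _ ((h ξ).2 hξ.pow_eq_one))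

private theorem FGM_mem {G : Type} [Group G] {Γ : Subgroup G} {g x : G} :
    x ∈ Γ.map (MulAut.conj g).toMonoidHom ↔ g⁻¹ * x * g ∈ Γ := by
  rw [Subgroup.mem_map]
  constructor
  · rintro ⟨y, hy, rfl⟩
    have : g⁻¹ * (MulAut.conj g).toMonoidHom y * g = y := by
      simp [mul_assoc]
    rwa [this]
  · intro hx
    refine ⟨g⁻¹ * x * g, hx, ?_⟩
    simp [mul_assoc]

private instance FGM_fin {G : Type} [Group G] {Γ : Subgroup G} [Finite Γ] (g : G) :
    Finite (Γ.map (MulAut.conj g).toMonoidHom) := by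
  have h : Nat.card (Γ.map (MulAut.conj g).toMonoidHom) = Nat.card Γ :=
    Subgroup.card_map_of_injective (MulAut.conj g).injective
  exact Nat.finite_of_card_ne_zero (by rw [h]; exact Nat.card_pos.ne')

private theorem FGM_pt_mem : ptI k ∈ icoRab (11 : k) (-1) := Or.inl rfl

private theorem FGM_ncard : (icoRab (11 : k) (-1)).ncard = 12 := by
  refine icoRab_card (by simp) ?_
  intro h
  have : (125 : k) = 0 := by linear_combination h
  exact absurd this (by norm_num)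

private theorem FGM_not_sub (u v : PL k) : ¬ icoRab (11 : k) (-1) ⊆ {u, v} := by
  intro h
  have h1 := Set.ncard_le_ncard h (Set.toFinite _)
  have h2 := Set.ncard_insert_le u ({v} : Set (PL k))
  rw [FGM_ncard] at h1
  rw [Set.ncard_singleton] at h2
  omega

private theorem FGM_se_ptI : se (Ico k) (ptI k) = 5 := by
  obtain ⟨ζ, hζ⟩ := FGM_prim (k := k) 5 (by norm_num)
  have hζ1 : ζ ≠ 1 := hζ.ne_one (by norm_num)
  have hζI : tor ζ ∈ Ico k := tor_mem_ico hζ.pow_eq_one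
  obtain ⟨h1, -, h3⟩ := tor_mem_iff (Ico k) hζ1 hζI
  refine FGM_eq (k := k) (by omega) (by norm_num) (fun t => ?_)
  rw [← h1 t]
  constructor
  · intro ht
    obtain ⟨t', ht', he⟩ := ico_stab ht (tor_smul_ptI t)
    rw [tor_inj.1 he]
    exact ht'
  · exact tor_mem_ico

theorem ico_se5 (p : PL k) : se (Ico k) p = 5 ↔ p ∈ icoRab (11 : k) (-1) := by
  constructor
  · intro h
    obtain ⟨p₁, p₂, p₃, t⟩ := ico_tri (k := k)
    have orb : ∀ x : PL k, se (Ico k) x = 5 → ∃ g ∈ Ico k, g • p₃ = x := by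
      intro x hx
      obtain ⟨g, hg, hgx | hgx | hgx⟩ := t.all x (by omega)
      · exfalso
        rw [← hgx, se_smul hg, t.e₁] at hx
        omega
      · exfalso
        rw [← hgx, se_smul hg, t.e₂] at hx
        omega
      · exact ⟨g, hg, hgx⟩
    obtain ⟨g, hg, hgp⟩ := orb p h
    obtain ⟨g', hg', hgI⟩ := orb (ptI k) FGM_se_ptI
    have e : p = (g * g'⁻¹) • ptI k := by
      rw [mul_smul, ← hgI, inv_smul_smul, hgp]
    rw [e]
    exact (mem_Ico.1 ((Ico k).mul_mem hg ((Ico k).inv_mem hg')) (ptI k)).2 FGM_pt_mem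
  · intro h
    obtain ⟨g, hg, rfl⟩ := ico_trans h
    rw [se_smul hg, FGM_se_ptI]

theorem ico_normalizer {g : PGL(2, k)} (h : (Ico k).map (MulAut.conj g).toMonoidHom = Ico k) :
    g ∈ Ico k := by
  rw [mem_Ico]
  intro x
  rw [← ico_se5, ← ico_se5]
  have h1 := se_conj (Γ := Ico k) g x
  rw [h] at h1
  rw [h1]

private theorem FGM_se_mono {Γ : Subgroup PGL(2, k)} [Finite Γ] (h : Ico k ≤ Γ) (x : PL k) :
    se (Ico k) x ≤ se Γ x := by
  unfold se
  refine Nat.card_le_card_of_injective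
    (fun g : {g : PGL(2, k) // g ∈ Ico k ∧ g • x = x} =>
      (⟨g.1, h g.2.1, g.2.2⟩ : {g : PGL(2, k) // g ∈ Γ ∧ g • x = x})) ?_
  intro a b hab
  apply Subtype.ext
  exact congrArg (fun y : {g : PGL(2, k) // g ∈ Γ ∧ g • x = x} => y.1) hab

theorem ico_maximal {Γ : Subgroup PGL(2, k)} [Finite Γ] (h : Ico k ≤ Γ) : Γ = Ico k := by
  have hPol := pol_pgl Γ
  have hdvd : 60 ∣ Nat.card Γ := by
    rw [← ico_card (k := k)]
    exact Subgroup.card_dvd_of_le h
  have hpos : 0 < Nat.card Γ := Nat.card_pos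
  have hle : 60 ≤ Nat.card Γ := Nat.le_of_dvd hpos hdvd
  have hse : ∀ x ∈ icoRab (11 : k) (-1), 5 ≤ se Γ x := by
    intro x hx
    have := FGM_se_mono h x
    rw [(ico_se5 x).2 hx] at this
    exact this
  rcases hPol.types (by omega) with ⟨p, q, hpq, h1, h2⟩ | ⟨p₁, p₂, p₃, ⟨n, hn, t⟩ | t | t | t⟩
  · exfalso
    refine FGM_not_sub p q ?_
    intro x hx
    have := h2 x (by have := hse x hx; omega)
    simpa using this
  · exfalso
    have hc := t.card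
    obtain ⟨q, hq, -, h3⟩ := hPol.axPair_dihedral (by omega) t
    rcases hq.2.1 with ⟨h4, -⟩ | ⟨-, h4⟩
    · omega
    · obtain ⟨g, hg, hg1, hgp⟩ := (one_lt_se_iff (Γ := Γ) p₃).1 (by omega)
      obtain ⟨u, v, huv, hfix⟩ := hPol.fix2 g hg hg1
      refine FGM_not_sub u v ?_
      intro x hx
      have h5 := h4 x (by have := hse x hx; omega) g hg hgp
      have := (hfix x).1 h5
      simpa using this
  · exfalso
    have := t.card
    omega
  · exfalso
    have := t.card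
    omega
  · exact (Subgroup.eq_of_le_of_card_ge h (by rw [t.card, ico_card])).symm

private theorem FGM_torswp (s t : kˣ) (hs : s * s * t = 1) :
    (tor s)⁻¹ * swp k * tor s = tor t * swp k := by
  have h1 : (tor s : PGL(2, k))⁻¹ = tor s⁻¹ := by
    rw [inv_eq_iff_mul_eq_one, tor_mul, mul_inv_cancel, tor_one]
  have h2 : swp k * tor s = tor s⁻¹ * swp k := by
    rw [← swp_tor, mul_assoc, mul_assoc, swp_mul_self, mul_one]
  rw [h1, mul_assoc, h2, ← mul_assoc, tor_mul]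
  congr 2
  have : t = (s * s)⁻¹ := by
    rw [eq_inv_iff_mul_eq_one, mul_comm]
    exact hs
  rw [this, mul_inv]

/-- For `m = 2, 3, 5` a conjugate of the icosahedral group meeting the torus in `μ_m` and containing `swp`. -/
theorem ico_axis {m : ℕ} (hm : m = 2 ∨ m = 3 ∨ m = 5) :
    ∃ g : PGL(2, k), (∀ t : kˣ, g⁻¹ * tor t * g ∈ Ico k ↔ t ^ m = 1) ∧
      (∀ t : kˣ, g⁻¹ * (tor t * swp k) * g ∈ Ico k ↔ t ^ m = 1) := by
  obtain ⟨p₁, p₂, p₃, T⟩ := ico_tri (k := k)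
  have hPol := pol_pgl (Ico k)
  obtain ⟨p, hp⟩ : ∃ p : PL k, se (Ico k) p = m := by
    rcases hm with rfl | rfl | rfl
    · exact ⟨p₁, T.e₁⟩
    · exact ⟨p₂, T.e₂⟩
    · exact ⟨p₃, T.e₃⟩
  have hp1 : 1 < se (Ico k) p := by omega
  obtain ⟨q, hq, -, hiff, -, -⟩ := hPol.opp' hp1
  obtain ⟨g₀, hg₀, hg₀1, hg₀p⟩ := (one_lt_se_iff (Γ := Ico k) p).1 hp1
  have hg₀q := (hiff g₀ hg₀).1 hg₀p
  obtain ⟨g₁, hg₁, hg₁p, hg₁q⟩ := hPol.swap_ico T hg₀ hg₀1 hq.symm hg₀p hg₀q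
  obtain ⟨h, hI, h0⟩ := trans_two hq.symm
  -- the conjugated group
  have hmemΓ : ∀ x : PGL(2, k), x ∈ (Ico k).map (MulAut.conj h⁻¹).toMonoidHom ↔
      h * x * h⁻¹ ∈ Ico k := by
    intro x
    rw [FGM_mem, inv_inv]
  have hseΓ : se ((Ico k).map (MulAut.conj h⁻¹).toMonoidHom) (ptI k) = m := by
    have h1 := se_conj (Γ := Ico k) h⁻¹ p
    rw [← hI, inv_smul_smul, hI, hp] at h1
    exact h1
  obtain ⟨t₀, ht₀⟩ := fix_pair (g := h⁻¹ * g₀ * h)
    (by rw [mul_smul, mul_smul, hI, hg₀p, ← hI, inv_smul_smul])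
    (by rw [mul_smul, mul_smul, h0, hg₀q, ← h0, inv_smul_smul])
  have ht₀1 : t₀ ≠ 1 := by
    rintro rfl
    rw [tor_one] at ht₀
    apply hg₀1
    have : g₀ = h * (h⁻¹ * g₀ * h) * h⁻¹ := by simp [mul_assoc]
    rw [this, ht₀]
    simp
  have ht₀m : tor t₀ ∈ (Ico k).map (MulAut.conj h⁻¹).toMonoidHom := by
    rw [hmemΓ, ← ht₀]
    have : h * (h⁻¹ * g₀ * h) * h⁻¹ = g₀ := by simp [mul_assoc]
    rw [this]
    exact hg₀
  obtain ⟨htor, -, -⟩ := tor_mem_iff _ ht₀1 ht₀m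
  rw [hseΓ] at htor
  obtain ⟨t₁, ht₁⟩ := swap_pair (g := h⁻¹ * g₁ * h)
    (by rw [mul_smul, mul_smul, hI, hg₁p, ← h0, inv_smul_smul])
    (by rw [mul_smul, mul_smul, h0, hg₁q, ← hI, inv_smul_smul])
  obtain ⟨s₀, hs₀⟩ := IsAlgClosed.exists_pow_nat_eq ((t₁ : k)⁻¹) (n := 2) (by norm_num)
  have hs₀0 : s₀ ≠ 0 := by
    rintro rfl
    have := inv_ne_zero t₁.ne_zero
    exact this (by rw [← hs₀]; simp)
  have hs : (Units.mk0 s₀ hs₀0) * (Units.mk0 s₀ hs₀0) * t₁ = 1 := by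
    apply Units.ext
    simp only [Units.val_mul, Units.val_mk0, Units.val_one]
    rw [← pow_two, hs₀]
    exact inv_mul_cancel₀ t₁.ne_zero
  set s : kˣ := Units.mk0 s₀ hs₀0 with hsdef
  have hA : ∀ t : kˣ, (tor s * h⁻¹)⁻¹ * tor t * (tor s * h⁻¹) ∈ Ico k ↔ t ^ m = 1 := by
    intro t
    rw [← htor t, hmemΓ]
    have h1 : (tor s : PGL(2, k))⁻¹ = tor s⁻¹ := by
      rw [inv_eq_iff_mul_eq_one, tor_mul, mul_inv_cancel, tor_one]
    have : (tor s * h⁻¹)⁻¹ * tor t * (tor s * h⁻¹) = h * ((tor s)⁻¹ * tor t * tor s) * h⁻¹ := by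
      simp [mul_assoc]
    rw [this, h1, tor_mul, tor_mul, mul_comm s⁻¹ t, inv_mul_cancel_right]
  refine ⟨tor s * h⁻¹, hA, fun t => ?_⟩
  have hB : (tor s * h⁻¹)⁻¹ * swp k * (tor s * h⁻¹) ∈ Ico k := by
    have : (tor s * h⁻¹)⁻¹ * swp k * (tor s * h⁻¹) = h * ((tor s)⁻¹ * swp k * tor s) * h⁻¹ := by
      simp [mul_assoc]
    rw [this, FGM_torswp s t₁ hs, ← ht₁]
    have : h * (h⁻¹ * g₁ * h) * h⁻¹ = g₁ := by simp [mul_assoc]
    rw [this]
    exact hg₁
  have hC : (tor s * h⁻¹)⁻¹ * (tor t * swp k) * (tor s * h⁻¹) =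
      ((tor s * h⁻¹)⁻¹ * tor t * (tor s * h⁻¹)) *
        ((tor s * h⁻¹)⁻¹ * swp k * (tor s * h⁻¹)) := by
    simp [mul_assoc]
  rw [hC, Subgroup.mul_mem_cancel_right _ hB]
  exact hA t

/-- Data attached to `g` with `g⁻¹ T g ∩ Ico = μ_m`. -/
private theorem FGM_data {m : ℕ} (hm : 2 ≤ m) {g : PGL(2, k)}
    (hg : ∀ t : kˣ, g⁻¹ * tor t * g ∈ Ico k ↔ t ^ m = 1) :
    se (Ico k) (g⁻¹ • ptI k) = m ∧ ∃ v ∈ Ico k, v ≠ 1 ∧ v • (g⁻¹ • ptI k) = g⁻¹ • ptI k ∧
      v • (g⁻¹ • ptz (0 : k)) = g⁻¹ • ptz (0 : k) := by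
  obtain ⟨ζ, hζ⟩ := FGM_prim (k := k) m (by omega)
  have hζ1 : ζ ≠ 1 := hζ.ne_one (by omega)
  have hmem : ∀ t : kˣ, tor t ∈ (Ico k).map (MulAut.conj g).toMonoidHom ↔ t ^ m = 1 := by
    intro t
    rw [FGM_mem, hg]
  obtain ⟨h1, -, h3⟩ := tor_mem_iff _ hζ1 ((hmem ζ).2 hζ.pow_eq_one)
  have hse : se ((Ico k).map (MulAut.conj g).toMonoidHom) (ptI k) = m :=
    FGM_eq (k := k) (by omega) (by omega) fun t => by rw [← h1 t, hmem t]
  refine ⟨?_, g⁻¹ * tor ζ * g, (hg ζ).2 hζ.pow_eq_one, ?_, ?_, ?_⟩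
  · have h4 := se_conj (Γ := Ico k) g (g⁻¹ • ptI k)
    rw [smul_inv_smul, hse] at h4
    exact h4.symm
  · intro h
    apply hζ1
    rw [← tor_inj, tor_one]
    have : tor ζ = g * (g⁻¹ * tor ζ * g) * g⁻¹ := by simp [mul_assoc]
    rw [this, h]
    simp
  · rw [mul_smul, mul_smul, smul_inv_smul, tor_smul_ptI]
  · rw [mul_smul, mul_smul, smul_inv_smul, tor_smul_ptz, mul_zero]

/-- All such conjugates form one orbit under the normaliser of the torus. -/
theorem ico_double {m : ℕ} (hm : 2 ≤ m) {g : PGL(2, k)}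
    (hg : ∀ t : kˣ, g⁻¹ * tor t * g ∈ Ico k ↔ t ^ m = 1) :
    (m = 2 ∨ m = 3 ∨ m = 5) ∧
    ∀ g' : PGL(2, k), (∀ t : kˣ, g'⁻¹ * tor t * g' ∈ Ico k ↔ t ^ m = 1) →
      ∃ (s : kˣ) (i : PGL(2, k)), i ∈ Ico k ∧ g' = tor s * g * i := by
  obtain ⟨p₁, p₂, p₃, T⟩ := ico_tri (k := k)
  have hPol := pol_pgl (Ico k)
  obtain ⟨hse, v, hv, hv1, hvP, hvQ⟩ := FGM_data hm hg
  have horb : ∀ x : PL k, 1 < se (Ico k) x →
      (se (Ico k) x = 2 ∧ ∃ i ∈ Ico k, i • p₁ = x) ∨ (se (Ico k) x = 3 ∧ ∃ i ∈ Ico k, i • p₂ = x) ∨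
        (se (Ico k) x = 5 ∧ ∃ i ∈ Ico k, i • p₃ = x) := by
    intro x hx
    obtain ⟨i, hi, hix | hix | hix⟩ := T.all x hx
    · left
      exact ⟨by rw [← hix, se_smul hi, T.e₁], i, hi, hix⟩
    · right; left
      exact ⟨by rw [← hix, se_smul hi, T.e₂], i, hi, hix⟩
    · right; right
      exact ⟨by rw [← hix, se_smul hi, T.e₃], i, hi, hix⟩
  have hsame : ∀ x y : PL k, 1 < se (Ico k) x → se (Ico k) x = se (Ico k) y →
      ∃ i ∈ Ico k, i • y = x := by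
    have key : ∀ (x y r : PL k), (∃ i ∈ Ico k, i • r = x) → (∃ i ∈ Ico k, i • r = y) →
        ∃ i ∈ Ico k, i • y = x := by
      rintro x y r ⟨i, hi, rfl⟩ ⟨j, hj, rfl⟩
      refine ⟨i * j⁻¹, (Ico k).mul_mem hi ((Ico k).inv_mem hj), ?_⟩
      rw [mul_smul, inv_smul_smul]
    intro x y hx hxy
    rcases horb x hx with ⟨e, hi⟩ | ⟨e, hi⟩ | ⟨e, hi⟩ <;>
      rcases horb y (hxy ▸ hx) with ⟨e', hi'⟩ | ⟨e', hi'⟩ | ⟨e', hi'⟩ <;>
      first
        | exact key x y _ hi hi'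
        | (exfalso; omega)
  refine ⟨?_, fun g' hg' => ?_⟩
  · rcases horb _ (by rw [hse]; omega) with ⟨e, -⟩ | ⟨e, -⟩ | ⟨e, -⟩ <;> omega
  · obtain ⟨hse', v', hv', hv1', hvP', hvQ'⟩ := FGM_data hm hg'
    obtain ⟨i, hi, hiP⟩ := hsame (g⁻¹ • ptI k) (g'⁻¹ • ptI k) (by rw [hse]; omega) (by rw [hse, hse'])
    -- the opposite points
    have hc : i * v' * i⁻¹ ∈ Ico k := (Ico k).mul_mem ((Ico k).mul_mem hi hv') ((Ico k).inv_mem hi)
    have hc1 : i * v' * i⁻¹ ≠ 1 := by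
      intro h
      apply hv1'
      have : v' = i⁻¹ * (i * v' * i⁻¹) * i := by simp [mul_assoc]
      rw [this, h]
      simp
    have hcP : (i * v' * i⁻¹) • (g⁻¹ • ptI k) = g⁻¹ • ptI k := by
      rw [← hiP, mul_smul, mul_smul, inv_smul_smul, hvP']
    have hcQ : (i * v' * i⁻¹) • (i • (g'⁻¹ • ptz (0 : k))) = i • (g'⁻¹ • ptz (0 : k)) := by
      rw [mul_smul, mul_smul, inv_smul_smul, hvQ']
    obtain ⟨q, hq, -, -, hfix, -⟩ := hPol.opp' (p := g⁻¹ • ptI k) (by rw [hse]; omega)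
    have hne : ptz (0 : k) ≠ ptI k := ptz_ne_ptI _
    have hQ : g⁻¹ • ptz (0 : k) = q := by
      rcases (hfix v hv hv1 hvP _).1 hvQ with h | h
      · exact absurd (MulAction.injective _ h) hne
      · exact h
    have hQ' : i • (g'⁻¹ • ptz (0 : k)) = q := by
      rcases (hfix _ hc hc1 hcP _).1 hcQ with h | h
      · exfalso
        rw [← hiP] at h
        exact hne (MulAction.injective _ (MulAction.injective _ h))
      · exact h
    obtain ⟨s, hs⟩ := fix_pair (g := g * i * g'⁻¹)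
      (by rw [mul_smul, mul_smul, hiP, smul_inv_smul])
      (by rw [mul_smul, mul_smul, hQ', ← hQ, smul_inv_smul])
    refine ⟨s⁻¹, i, hi, ?_⟩
    have h1 : (tor s⁻¹ : PGL(2, k)) = (tor s)⁻¹ := by
      rw [eq_comm, inv_eq_iff_mul_eq_one, tor_mul, mul_inv_cancel, tor_one]
    rw [h1, ← hs]
    simp [mul_assoc]

/-- The icosahedral group contains Klein four groups. -/
theorem ico_v4 : ∃ V : Subgroup PGL(2, k), IsV4 V ∧ V ≤ Ico k := by
  obtain ⟨g, h1, h2⟩ := ico_axis (k := k) (m := 2) (Or.inl rfl)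
  refine ⟨(V4std k).map (MulAut.conj g⁻¹).toMonoidHom, ⟨?_, ?_⟩, ?_⟩
  · rw [Subgroup.card_map_of_injective (MulAut.conj g⁻¹).injective]
    exact isV4_V4std.1
  · rintro v hv
    obtain ⟨w, hw, rfl⟩ := Subgroup.mem_map.1 hv
    rw [← map_mul, isV4_V4std.2 w hw, map_one]
  · intro v hv
    rw [FGM_mem, inv_inv] at hv
    have e : v = g⁻¹ * (g * v * g⁻¹) * g := by simp [mul_assoc]
    rw [e]
    rcases mem_V4std.1 hv with h | h | h | h
    · rw [h]
      simpa using (Ico k).one_mem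
    · rw [h]
      exact (h1 (-1)).2 (by simp)
    · rw [h]
      have := (h2 1).2 (by simp)
      rwa [tor_one, one_mul] at this
    · rw [h]
      exact (h2 (-1)).2 (by simp)

/-- Classification of finite subgroups of `PGL(2, k)`. -/
theorem pgl_classification (Γ : Subgroup PGL(2, k)) [Finite Γ] (hΓ : Γ ≠ ⊥) :
    (∃ p q : PL k, AxPair Γ p q) ∨ (∃ V : Subgroup PGL(2, k), CanV (PL k) Γ V) ∨
      ∃ g : PGL(2, k), Γ.map (MulAut.conj g).toMonoidHom = Ico k := by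
  rcases (pol_pgl Γ).classification hΓ with h | h | ⟨p₁, p₂, p₃, t⟩
  · exact Or.inl h
  · exact Or.inr (Or.inl h)
  · exact Or.inr (Or.inr (ico_unique t))

/-- The icosahedral group normalises no Klein four subgroup. -/
private theorem FGM_no_canV (V : Subgroup PGL(2, k)) : ¬ CanV (PL k) (Ico k) V := by
  classical
  rintro ⟨-, ⟨hV4, -⟩, hle, hnorm⟩
  have hPol := pol_pgl (Ico k)
  have hVfin : Finite V := Nat.finite_of_card_ne_zero (by rw [hV4]; norm_num)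
  obtain ⟨v, hv, hv1⟩ : ∃ v ∈ V, v ≠ 1 := by
    have : Nontrivial V := by
      rw [← Finite.one_lt_card_iff_nontrivial, hV4]
      norm_num
    obtain ⟨w, hw⟩ := exists_ne (1 : V)
    exact ⟨w, w.2, fun h => hw (Subtype.ext h)⟩
  obtain ⟨u, u₂, _, hu⟩ := hPol.fix2 v (hle hv) hv1
  have hvu : v • u = u := (hu u).2 (Or.inl rfl)
  have hse1 : 1 < se (Ico k) u := (one_lt_se_iff (Γ := Ico k) u).2 ⟨v, hle hv, hv1, hvu⟩
  have hse5 : se (Ico k) u ≤ 5 := by
    obtain ⟨p₁, p₂, p₃, T⟩ := ico_tri (k := k)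
    obtain ⟨i, hi, hix | hix | hix⟩ := T.all u hse1
    · rw [← hix, se_smul hi, T.e₁]; norm_num
    · rw [← hix, se_smul hi, T.e₂]; norm_num
    · rw [← hix, se_smul hi, T.e₃]
  have key : ∀ w : V, ∃ a b : PL k, w ≠ 1 → ∀ x : PL k, (w : PGL(2, k)) • x = x → x = a ∨ x = b := by
    intro w
    by_cases hw : w = 1
    · exact ⟨u, u, fun h => absurd hw h⟩
    · obtain ⟨a, b, -, hab⟩ := hPol.fix2 w (hle w.2) (fun h => hw (Subtype.ext h))
      exact ⟨a, b, fun _ x hx => (hab x).1 hx⟩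
  choose A B hAB using key
  have hx : ∀ x : {x : PL k // ∃ g ∈ Ico k, g • u = x}, ∃ w : V, w ≠ 1 ∧
      (w : PGL(2, k)) • (x : PL k) = x := by
    rintro ⟨x, g, hg, rfl⟩
    have hgn := hnorm hg
    rw [Subgroup.mem_normalizer_iff] at hgn
    refine ⟨⟨g * v * g⁻¹, (hgn v).1 hv⟩, ?_, ?_⟩
    · intro h
      apply hv1
      have h2 : g * v * g⁻¹ = 1 := congrArg Subtype.val h
      have : v = g⁻¹ * (g * v * g⁻¹) * g := by simp [mul_assoc]
      rw [this, h2]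
      simp
    · show (g * v * g⁻¹) • (g • u) = g • u
      rw [mul_smul, mul_smul, inv_smul_smul, hvu]
  choose w hw1 hwx using hx
  have hcard : Nat.card {x : PL k // ∃ g ∈ Ico k, g • u = x} ≤ Nat.card (V × Bool) := by
    refine Nat.card_le_card_of_injective
      (fun x => ((w x, decide ((x : PL k) = A (w x))) : V × Bool)) ?_
    intro x y hxy
    have h1 : w x = w y := congrArg Prod.fst hxy
    have h2 : (decide ((x : PL k) = A (w x))) = decide ((y : PL k) = A (w y)) :=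
      congrArg Prod.snd hxy
    have h3 : ((x : PL k) = A (w x)) ↔ ((y : PL k) = A (w y)) := by
      simpa using h2
    apply Subtype.ext
    rcases hAB (w x) (hw1 x) x (hwx x) with hx | hx
    · rw [hx, h3.1 hx, h1]
    · rcases hAB (w y) (hw1 y) y (hwx y) with hy | hy
      · rw [h3.2 hy, hy, h1]
      · rw [hx, hy, h1]
  have h8 : Nat.card (V × Bool) = 8 := by
    rw [Nat.card_prod, hV4]
    simp
  have horb := card_orbit_mul_se (Γ := Ico k) u
  rw [ico_card] at horb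
  rw [h8] at hcard
  have : Nat.card {x : PL k // ∃ g ∈ Ico k, g • u = x} * se (Ico k) u ≤ 8 * 5 :=
    Nat.mul_le_mul hcard hse5
  omega

/-- The three cases exclude each other. -/
theorem ico_not_ax {Γ : Subgroup PGL(2, k)} {g : PGL(2, k)}
    (h : Γ.map (MulAut.conj g).toMonoidHom = Ico k) :
    (¬ ∃ p : PL k, Ax Γ p) ∧ ¬ ∃ V : Subgroup PGL(2, k), CanV (PL k) Γ V := by
  constructor
  · rintro ⟨p, hp⟩
    obtain ⟨p₁, p₂, p₃, T⟩ := ico_tri (k := k)
    refine (pol_pgl (Ico k)).no_ax (Or.inr (Or.inr (Or.inr T))) ⟨g • p, ?_⟩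
    have h1 := (ax_conj (Γ := Γ) g p).2 hp
    rwa [h] at h1
  · rintro ⟨V, hV⟩
    have h1 := (canV_conj (P := PL k) (Γ := Γ) g V).2 hV
    rw [h] at h1
    exact FGM_no_canV _ h1

end Pool.Agent.MRat
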