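import Pool.Agent.Lib.MP_923aff_ag.DTp
/-!
# Binary forms and pairs of binary forms (definitions)

Job FORMA.
-/

set_option autoImplicit false

namespace Pool.Agent.MRat

open scoped MatrixGroups LinearAlgebra.Projectivization

noncomputable section

section forms
variable (k : Type) [Field k]

/-- The function on `k ^ 2` given by the binary form with coefficient vector `c`. -/
def formLin (n : ℕ) : (Fin (n + 1) → k) →ₗ[k] ((Fin 2 → k) → k) where
  toFun c v := ∑ i : Fin (n + 1), c i * v 0 ^ (i : ℕ) * v 1 ^ (n - (i : ℕ))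
  map_add' c d := by
    funext v
    simp only [Pi.add_apply, ← Finset.sum_add_distrib]
    exact Finset.sum_congr rfl fun i _ => by ring
  map_smul' a c := by
    funext v
    simp only [Pi.smul_apply, smul_eq_mul, RingHom.id_apply, Finset.mul_sum]
    exact Finset.sum_congr rfl fun i _ => by ring

/-- Binary forms of degree `n`, as functions on `k ^ 2`. -/
def Form (n : ℕ) : Submodule k ((Fin 2 → k) → k) := LinearMap.range (formLin k n)

/-- Pairs of binary forms of degree `d`, as self maps of `k ^ 2`. -/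
def SM (d : ℕ) : Submodule k ((Fin 2 → k) → (Fin 2 → k)) where
  carrier := {F | ∀ i, (fun v => F v i) ∈ Form k d}
  add_mem' hF hG i := (Form k d).add_mem (hF i) (hG i)
  zero_mem' _ := (Form k d).zero_mem
  smul_mem' c _ hF i := (Form k d).smul_mem c (hF i)

end forms

section
variable {k : Type} [Field k] [IsAlgClosed k] [CharZero k]
variable {X Y Z W : Type} [DT k X] [DT k Y] [DT k Z] [DT k W]

theorem formLin_inj (n : ℕ) : Function.Injective (formLin k n) := by
  rw [injective_iff_map_eq_zero]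
  intro c hc
  have h1 : (∑ i : Fin (n + 1), Polynomial.C (c i) * Polynomial.X ^ (i : ℕ) : Polynomial k) = 0 := by
    apply Polynomial.funext
    intro z
    have h2 := congrFun hc ![z, 1]
    simp only [formLin, LinearMap.coe_mk, AddHom.coe_mk, Matrix.cons_val_zero,
      Matrix.cons_val_one, one_pow, mul_one, Pi.zero_apply] at h2
    rw [Polynomial.eval_finset_sum, Polynomial.eval_zero, ← h2]
    exact Finset.sum_congr rfl fun i _ => by simp
  funext j
  have h3 := congrArg (fun q => Polynomial.coeff q (j : ℕ)) h1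
  simp only [Polynomial.finset_sum_coeff, Polynomial.coeff_C_mul, Polynomial.coeff_X_pow,
    Polynomial.coeff_zero] at h3
  rw [Finset.sum_eq_single j] at h3
  · simpa using h3
  · intro b _ hb
    rw [if_neg (fun h => hb (Fin.ext h.symm)), mul_zero]
  · intro h
    exact absurd (Finset.mem_univ j) h

/-- The coefficients of a form. -/
noncomputable def coeffE (k : Type) [Field k] [IsAlgClosed k] [CharZero k] (n : ℕ) :
    Form k n ≃ₗ[k] (Fin (n + 1) → k) :=
  (LinearEquiv.ofInjective (formLin k n) (formLin_inj n)).symm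

theorem form_eq {n : ℕ} (F : Form k n) (v : Fin 2 → k) :
    F.1 v = ∑ i : Fin (n + 1), coeffE k n F i * v 0 ^ (i : ℕ) * v 1 ^ (n - (i : ℕ)) := by
  have h : (coeffE k n).symm (coeffE k n F) = F := (coeffE k n).symm_apply_apply F
  conv_lhs => rw [← h]
  rfl

instance (n : ℕ) : DT k (Form k n) := DT.ofEquiv (coeffE k n).toEquiv

/-- The form with given coefficients. -/
noncomputable def Form.of {n : ℕ} (c : Fin (n + 1) → k) : Form k n := (coeffE k n).symm c

theorem Form.of_apply {n : ℕ} (c : Fin (n + 1) → k) (v : Fin 2 → k) :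
    (Form.of c).1 v = ∑ i : Fin (n + 1), c i * v 0 ^ (i : ℕ) * v 1 ^ (n - (i : ℕ)) := rfl

/-- A map to forms is definable iff its coefficients are. -/
theorem FORMA_iff {n : ℕ} {f : X → Form k n} :
    DM k f ↔ DM k (fun x => coeffE k n (f x)) :=
  DT.ofInj_iff (k := k) (coeffE k n).toEquiv (coeffE k n).toEquiv.injective
    ((DM.const' True).congr_iff (fun x => by
      simp only [true_iff]; exact ⟨(coeffE k n).toEquiv.symm x, by simp⟩))

@[fun_prop]
theorem DM.coeffE {n : ℕ} {f : X → Form k n} (hf : DM k f) : DM k (fun x => coeffE k n (f x)) :=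
  FORMA_iff.1 hf

@[fun_prop]
theorem DM.form_of {n : ℕ} {f : X → Fin (n + 1) → k} (hf : DM k f) :
    DM k (fun x => Form.of (f x)) := by
  rw [FORMA_iff]
  refine hf.congr (fun x => ?_)
  exact ((MRat.coeffE k n).apply_symm_apply (f x)).symm

@[fun_prop]
theorem DM.form_eval {n : ℕ} {f : X → Form k n} {g : X → Fin 2 → k} (hf : DM k f) (hg : DM k g) :
    DM k (fun x => (f x).1 (g x)) := by
  simp only [form_eq]
  refine DM.sum _ (fun i _ => ?_)
  fun_prop

instance (n : ℕ) : DMod k (Form k n) where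
  dadd := by
    rw [FORMA_iff]
    have h : DM k (fun p : Form k n × Form k n => coeffE k n p.1 + coeffE k n p.2) := by fun_prop
    exact h.congr (fun p => (map_add (coeffE k n) p.1 p.2).symm)
  dsmul := by
    rw [FORMA_iff]
    have h : DM k (fun p : k × Form k n => p.1 • coeffE k n p.2) := by fun_prop
    exact h.congr (fun p => (map_smul (coeffE k n) p.1 p.2).symm)

/-- A pair of forms. -/
def SM.pair {d : ℕ} (P Q : Form k d) : SM k d :=
  ⟨fun v => ![P.1 v, Q.1 v], fun i => by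
    fin_cases i
    · exact P.2
    · exact Q.2⟩

/-- The two components. -/
def smE (k : Type) [Field k] [IsAlgClosed k] [CharZero k] (d : ℕ) :
    SM k d ≃ Form k d × Form k d where
  toFun F := (⟨fun v => F.1 v 0, F.2 0⟩, ⟨fun v => F.1 v 1, F.2 1⟩)
  invFun p := SM.pair p.1 p.2
  left_inv F := by
    apply Subtype.ext
    funext v i
    fin_cases i <;> rfl
  right_inv p := rfl

instance (d : ℕ) : DT k (SM k d) := DT.ofEquiv (smE k d)

/-- A map to pairs is definable iff its components are. -/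
theorem FORMA_sm_iff {d : ℕ} {f : X → SM k d} :
    DM k f ↔ DM k (fun x => smE k d (f x)) :=
  DT.ofInj_iff (k := k) (smE k d) (smE k d).injective
    ((DM.const' True).congr_iff (fun x => by
      simp only [true_iff]; exact ⟨(smE k d).symm x, by simp⟩))

instance (d : ℕ) : DMod k (SM k d) where
  dadd := by
    rw [FORMA_sm_iff]
    have h1 : DM k (fun p : SM k d × SM k d => smE k d p.1) := FORMA_sm_iff.1 (by fun_prop)
    have h2 : DM k (fun p : SM k d × SM k d => smE k d p.2) := FORMA_sm_iff.1 (by fun_prop)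
    exact (DM.vadd h1 h2).congr (fun p => rfl)
  dsmul := by
    rw [FORMA_sm_iff]
    have h2 : DM k (fun p : k × SM k d => smE k d p.2) := FORMA_sm_iff.1 (by fun_prop)
    exact (DM.vsmul (DM.fst DM.id') h2).congr (fun p => rfl)

@[fun_prop]
theorem DM.smE {d : ℕ} {f : X → SM k d} (hf : DM k f) : DM k (fun x => smE k d (f x)) :=
  FORMA_sm_iff.1 hf

@[fun_prop]
theorem DM.sm_pair {d : ℕ} {f g : X → Form k d} (hf : DM k f) (hg : DM k g) :
    DM k (fun x => SM.pair (f x) (g x)) := by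
  rw [FORMA_sm_iff]
  exact (hf.mk hg).congr (fun x => rfl)

@[fun_prop]
theorem DM.sm_eval {d : ℕ} {f : X → SM k d} {g : X → Fin 2 → k} (hf : DM k f) (hg : DM k g) :
    DM k (fun x => (f x).1 (g x)) := by
  have h0 : DM k (fun x => (MRat.smE k d (f x)).1.1 (g x)) := DM.form_eval (DM.smE hf).fst hg
  have h1 : DM k (fun x => (MRat.smE k d (f x)).2.1 (g x)) := DM.form_eval (DM.smE hf).snd hg
  refine DM.pi (fun i => ?_)
  fin_cases i
  · exact h0.congr (fun x => rfl)
  · exact h1.congr (fun x => rfl)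

omit [IsAlgClosed k] [CharZero k] in
/-- Monomials are forms. -/
theorem FORMA_mono {n i : ℕ} (hi : i ≤ n) : (fun v : Fin 2 → k => v 0 ^ i * v 1 ^ (n - i)) ∈ Form k n := by
  refine ⟨Pi.single ⟨i, Nat.lt_succ_of_le hi⟩ 1, ?_⟩
  funext v
  show ∑ j : Fin (n + 1), (Pi.single (⟨i, Nat.lt_succ_of_le hi⟩ : Fin (n + 1)) (1 : k) :
    Fin (n + 1) → k) j * v 0 ^ (j : ℕ) * v 1 ^ (n - (j : ℕ)) = _
  rw [Finset.sum_eq_single (⟨i, Nat.lt_succ_of_le hi⟩ : Fin (n + 1))]
  · rw [Pi.single_eq_same, one_mul]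
  · intro b _ hb
    rw [Pi.single_eq_of_ne hb, zero_mul, zero_mul]
  · intro h
    exact absurd (Finset.mem_univ _) h

omit [IsAlgClosed k] [CharZero k] in
/-- Products of forms are forms. -/
theorem FORMA_mul {m n N : ℕ} (h : m + n = N) {f g : (Fin 2 → k) → k} (hf : f ∈ Form k m)
    (hg : g ∈ Form k n) : (fun v => f v * g v) ∈ Form k N := by
  obtain ⟨c, rfl⟩ := hf
  obtain ⟨d, rfl⟩ := hg
  have e : (fun v : Fin 2 → k => formLin k m c v * formLin k n d v) =
      ∑ i : Fin (m + 1), ∑ j : Fin (n + 1), (c i * d j) •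
        (fun v : Fin 2 → k => v 0 ^ ((i : ℕ) + (j : ℕ)) * v 1 ^ (N - ((i : ℕ) + (j : ℕ)))) := by
    funext v
    show (∑ i : Fin (m + 1), c i * v 0 ^ (i : ℕ) * v 1 ^ (m - (i : ℕ))) *
      (∑ j : Fin (n + 1), d j * v 0 ^ (j : ℕ) * v 1 ^ (n - (j : ℕ))) = _
    rw [Finset.sum_mul_sum, Finset.sum_apply]
    refine Finset.sum_congr rfl fun i _ => ?_
    rw [Finset.sum_apply]
    refine Finset.sum_congr rfl fun j _ => ?_
    have hi := i.2
    have hj := j.2
    have e1 : N - ((i : ℕ) + (j : ℕ)) = (m - (i : ℕ)) + (n - (j : ℕ)) := by omega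
    show _ = (c i * d j) * (v 0 ^ ((i : ℕ) + (j : ℕ)) * v 1 ^ (N - ((i : ℕ) + (j : ℕ))))
    rw [e1, pow_add, pow_add]
    ring
  rw [e]
  refine Submodule.sum_mem _ fun i _ => Submodule.sum_mem _ fun j _ =>
    Submodule.smul_mem _ _ (FORMA_mono ?_)
  have hi := i.2
  have hj := j.2
  omega

omit [IsAlgClosed k] [CharZero k] in
theorem FORMA_pow {f : (Fin 2 → k) → k} (hf : f ∈ Form k 1) (i : ℕ) :
    (fun v => f v ^ i) ∈ Form k i := by
  induction i with
  | zero =>
    have h := FORMA_mono (k := k) (n := 0) (i := 0) le_rfl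
    have e : (fun v : Fin 2 → k => f v ^ 0) = fun v : Fin 2 → k => v 0 ^ 0 * v 1 ^ (0 - 0) := by
      funext v; simp
    rw [e]
    exact h
  | succ i ih =>
    have h := FORMA_mul rfl ih hf
    have e : (fun v : Fin 2 → k => f v ^ (i + 1)) = fun v => f v ^ i * f v := by
      funext v; rw [pow_succ]
    rw [e]
    exact h

omit [IsAlgClosed k] [CharZero k] in
theorem FORMA_lin (a b : k) : (fun v : Fin 2 → k => a * v 0 + b * v 1) ∈ Form k 1 := by
  have h0 := FORMA_mono (k := k) (n := 1) (i := 1) le_rfl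
  have h1 := FORMA_mono (k := k) (n := 1) (i := 0) (by norm_num)
  have e : (fun v : Fin 2 → k => a * v 0 + b * v 1) =
      a • (fun v : Fin 2 → k => v 0 ^ 1 * v 1 ^ (1 - 1)) +
        b • (fun v : Fin 2 → k => v 0 ^ 0 * v 1 ^ (1 - 0)) := by
    funext v
    show a * v 0 + b * v 1 = a * (v 0 ^ 1 * v 1 ^ (1 - 1)) + b * (v 0 ^ 0 * v 1 ^ (1 - 0))
    simp
  rw [e]
  exact Submodule.add_mem _ (Submodule.smul_mem _ _ h0) (Submodule.smul_mem _ _ h1)

/-- Precomposition of a form with a linear map is a form. -/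
theorem form_comp {n : ℕ} (F : Form k n) (M : Matrix (Fin 2) (Fin 2) k) :
    (fun v => F.1 (M.mulVec v)) ∈ Form k n := by
  have e : (fun v => F.1 (M.mulVec v)) = ∑ i : Fin (n + 1), coeffE k n F i •
      (fun v : Fin 2 → k => (M 0 0 * v 0 + M 0 1 * v 1) ^ (i : ℕ) *
        (M 1 0 * v 0 + M 1 1 * v 1) ^ (n - (i : ℕ))) := by
    funext v
    rw [form_eq, Finset.sum_apply]
    refine Finset.sum_congr rfl fun i _ => ?_
    have e0 : M.mulVec v 0 = M 0 0 * v 0 + M 0 1 * v 1 := by
      simp [Matrix.mulVec, dotProduct, Fin.sum_univ_two]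
    have e1 : M.mulVec v 1 = M 1 0 * v 0 + M 1 1 * v 1 := by
      simp [Matrix.mulVec, dotProduct, Fin.sum_univ_two]
    rw [e0, e1, mul_assoc]
    rfl
  rw [e]
  refine Submodule.sum_mem _ fun i _ => Submodule.smul_mem _ _ ?_
  have hi := i.2
  exact FORMA_mul (by omega) (FORMA_pow (FORMA_lin _ _) _) (FORMA_pow (FORMA_lin _ _) _)

/-- Homogeneity. -/
theorem form_smul {n : ℕ} (F : Form k n) (c : k) (v : Fin 2 → k) : F.1 (c • v) = c ^ n * F.1 v := by
  rw [form_eq, form_eq, Finset.mul_sum]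
  refine Finset.sum_congr rfl fun i _ => ?_
  have hi : (i : ℕ) + (n - (i : ℕ)) = n := by
    have := i.2
    omega
  have hc : c ^ n = c ^ (i : ℕ) * c ^ (n - (i : ℕ)) := by rw [← pow_add, hi]
  rw [Pi.smul_apply, Pi.smul_apply, smul_eq_mul, smul_eq_mul, mul_pow, mul_pow, hc]
  ring

theorem sm_smul {n : ℕ} (F : SM k n) (c : k) (v : Fin 2 → k) : F.1 (c • v) = c ^ n • F.1 v := by
  funext i
  exact form_smul ⟨fun v => F.1 v i, F.2 i⟩ c v

omit [IsAlgClosed k] [CharZero k] in
theorem FORMA_gl_smul (g : GL (Fin 2) k) (v : Fin 2 → k) (i : Fin 2) :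
    (g • v) i = g i 0 * v 0 + g i 1 * v 1 := by
  show (g : Matrix (Fin 2) (Fin 2) k).mulVec v i = _
  simp [Matrix.mulVec, dotProduct, Fin.sum_univ_two]

theorem FORMA_sm_mem {n : ℕ} (g : GL (Fin 2) k) (F : SM k n) :
    (fun v => g • F.1 (g⁻¹ • v)) ∈ SM k n := by
  intro i
  have h0 := form_comp ⟨fun v => F.1 v 0, F.2 0⟩ ((g⁻¹ : GL (Fin 2) k) : Matrix (Fin 2) (Fin 2) k)
  have h1 := form_comp ⟨fun v => F.1 v 1, F.2 1⟩ ((g⁻¹ : GL (Fin 2) k) : Matrix (Fin 2) (Fin 2) k)
  have e : (fun v => (g • F.1 (g⁻¹ • v)) i) =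
      g i 0 • (fun v => F.1 (((g⁻¹ : GL (Fin 2) k) : Matrix (Fin 2) (Fin 2) k).mulVec v) 0) +
        g i 1 • (fun v => F.1 (((g⁻¹ : GL (Fin 2) k) : Matrix (Fin 2) (Fin 2) k).mulVec v) 1) := by
    funext v
    rw [FORMA_gl_smul]
    rfl
  show (fun v => (g • F.1 (g⁻¹ • v)) i) ∈ Form k n
  rw [e]
  exact Submodule.add_mem _ (Submodule.smul_mem _ _ h0) (Submodule.smul_mem _ _ h1)

/-- The action of `GL₂` on forms: `(g F)(v) = F (g⁻¹ v)`. -/
instance (n : ℕ) : DistribMulAction (GL (Fin 2) k) (Form k n) where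
  smul g F := ⟨fun v => F.1 (g⁻¹ • v), form_comp F _⟩
  one_smul F := by
    apply Subtype.ext
    funext v
    show F.1 ((1 : GL (Fin 2) k)⁻¹ • v) = F.1 v
    simp
  mul_smul g h F := by
    apply Subtype.ext
    funext v
    show F.1 ((g * h)⁻¹ • v) = F.1 (h⁻¹ • g⁻¹ • v)
    rw [mul_inv_rev, mul_smul]
  smul_zero g := rfl
  smul_add g F G := rfl

theorem form_gl_apply {n : ℕ} (g : GL (Fin 2) k) (F : Form k n) (v : Fin 2 → k) :
    (g • F).1 v = F.1 (g⁻¹ • v) := rfl

instance (n : ℕ) : SMulCommClass (GL (Fin 2) k) k (Form k n) where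
  smul_comm g c F := rfl

/-- The action of `GL₂` on pairs by conjugation: `(g F)(v) = g F (g⁻¹ v)`. -/
instance (n : ℕ) : DistribMulAction (GL (Fin 2) k) (SM k n) where
  smul g F := ⟨fun v => g • F.1 (g⁻¹ • v), FORMA_sm_mem g F⟩
  one_smul F := by
    apply Subtype.ext
    funext v
    show (1 : GL (Fin 2) k) • F.1 ((1 : GL (Fin 2) k)⁻¹ • v) = F.1 v
    simp
  mul_smul g h F := by
    apply Subtype.ext
    funext v
    show (g * h) • F.1 ((g * h)⁻¹ • v) = g • h • F.1 (h⁻¹ • g⁻¹ • v)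
    rw [mul_inv_rev, mul_smul, mul_smul]
  smul_zero g := by
    apply Subtype.ext
    funext v
    show g • (0 : Fin 2 → k) = 0
    simp
  smul_add g F G := by
    apply Subtype.ext
    funext v
    show g • (F.1 (g⁻¹ • v) + G.1 (g⁻¹ • v)) = g • F.1 (g⁻¹ • v) + g • G.1 (g⁻¹ • v)
    simp

theorem sm_gl_apply {n : ℕ} (g : GL (Fin 2) k) (F : SM k n) (v : Fin 2 → k) :
    (g • F).1 v = g • F.1 (g⁻¹ • v) := rfl

instance (n : ℕ) : SMulCommClass (GL (Fin 2) k) k (SM k n) where
  smul_comm g c F := by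
    apply Subtype.ext
    funext v
    show g • (c • F.1 (g⁻¹ • v)) = c • g • F.1 (g⁻¹ • v)
    exact smul_comm _ _ _

instance (n : ℕ) : DAct k (GL (Fin 2) k) (Form k n) where
  dm := by
    refine DM.of_graph (R := fun p G => ∀ v : Fin 2 → k, G.1 v = p.2.1 (p.1⁻¹ • v))
      (by fun_prop) ?_
    rintro ⟨g, F⟩ G
    constructor
    · intro h
      apply Subtype.ext
      funext v
      exact h v
    · rintro rfl v
      rfl

instance (n : ℕ) : DAct k (GL (Fin 2) k) (SM k n) where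
  dm := by
    refine DM.of_graph (R := fun p G => ∀ v : Fin 2 → k, G.1 v = p.1 • p.2.1 (p.1⁻¹ • v))
      (by fun_prop) ?_
    rintro ⟨g, F⟩ G
    constructor
    · intro h
      apply Subtype.ext
      funext v
      exact h v
    · rintro rfl v
      rfl

omit [IsAlgClosed k] [CharZero k] in
theorem FORMA_scalar (u : kˣ) (v : Fin 2 → k) :
    Matrix.GeneralLinearGroup.scalar (Fin 2) u • v = (u : k) • v := by
  funext i
  rw [FORMA_gl_smul]
  fin_cases i <;> simp [Matrix.GeneralLinearGroup.coe_scalar]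

omit [IsAlgClosed k] [CharZero k] in
theorem FORMA_scalar_inv (u : kˣ) (v : Fin 2 → k) :
    (Matrix.GeneralLinearGroup.scalar (Fin 2) u)⁻¹ • v = ((u⁻¹ : kˣ) : k) • v := by
  rw [← map_inv, FORMA_scalar]

/-- scalar matrices act by scalars -/
theorem form_scalar {n : ℕ} (u : kˣ) (F : Form k n) :
    Matrix.GeneralLinearGroup.scalar (Fin 2) u • F = ((u⁻¹ ^ n : kˣ) : k) • F := by
  apply Subtype.ext
  funext v
  rw [form_gl_apply, FORMA_scalar_inv, form_smul]
  show _ = ((u⁻¹ ^ n : kˣ) : k) * F.1 v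
  rw [Units.val_pow_eq_pow_val]

theorem sm_scalar {n : ℕ} (u : kˣ) (F : SM k n) :
    Matrix.GeneralLinearGroup.scalar (Fin 2) u • F = ((u * u⁻¹ ^ n : kˣ) : k) • F := by
  apply Subtype.ext
  funext v
  rw [sm_gl_apply, FORMA_scalar_inv, sm_smul, FORMA_scalar, smul_smul]
  show _ = ((u * u⁻¹ ^ n : kˣ) : k) • F.1 v
  rw [Units.val_mul, Units.val_pow_eq_pow_val]

/-- `PGL₂` acts on the projective spaces of forms and pairs. -/
instance (n : ℕ) : MulAction PGL(2, k) (ℙ k (Form k n)) :=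
  Matrix.ProjGenLinGroup.mulActionOfGL (by
    intro u p
    induction p using Projectivization.ind with
    | h F hF =>
      rw [Projectivization.smul_mk, Projectivization.mk_eq_mk_iff]
      exact ⟨u⁻¹ ^ n, by rw [form_scalar]; rfl⟩)

instance (n : ℕ) : MulAction PGL(2, k) (ℙ k (SM k n)) :=
  Matrix.ProjGenLinGroup.mulActionOfGL (by
    intro u p
    induction p using Projectivization.ind with
    | h F hF =>
      rw [Projectivization.smul_mk, Projectivization.mk_eq_mk_iff]
      exact ⟨u * u⁻¹ ^ n, by rw [sm_scalar]; rfl⟩)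

theorem form_pgl_mk {n : ℕ} (g : GL (Fin 2) k) (F : Form k n) (hF : F ≠ 0) :
    (Matrix.ProjGenLinGroup.mk g : PGL(2, k)) • Projectivization.mk k F hF =
      Projectivization.mk k (g • F) ((smul_ne_zero_iff_ne g).mpr hF) := rfl

theorem sm_pgl_mk {n : ℕ} (g : GL (Fin 2) k) (F : SM k n) (hF : F ≠ 0) :
    (Matrix.ProjGenLinGroup.mk g : PGL(2, k)) • Projectivization.mk k F hF =
      Projectivization.mk k (g • F) ((smul_ne_zero_iff_ne g).mpr hF) := rfl

instance (n : ℕ) : DAct k PGL(2, k) (ℙ k (Form k n)) where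
  dm := by
    rw [DM.pgl_iff]
    show DM k (fun p : GL (Fin 2) k × ℙ k (Form k n) => p.1 • p.2)
    fun_prop

instance (n : ℕ) : DAct k PGL(2, k) (ℙ k (SM k n)) where
  dm := by
    rw [DM.pgl_iff]
    show DM k (fun p : GL (Fin 2) k × ℙ k (SM k n) => p.1 • p.2)
    fun_prop

end

end

end Pool.Agent.MRat
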