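import Pool.Agent.Lib.MP_923aff_ag.Forms
/-!
# JOB FORMB: products of forms and pairs, rational maps, greatest common divisors
-/

set_option autoImplicit false

namespace Pool.Agent.MRat

open scoped MatrixGroups LinearAlgebra.Projectivization

noncomputable section

variable {k : Type} [Field k] [IsAlgClosed k] [CharZero k]
variable {X Y Z W : Type} [DT k X] [DT k Y] [DT k Z] [DT k W]

omit [IsAlgClosed k] [CharZero k] in
private theorem formb_mono (n i : ℕ) (hi : i ≤ n) :
    (fun v : Fin 2 → k => v 0 ^ i * v 1 ^ (n - i)) ∈ Form k n := by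
  classical
  refine ⟨Pi.single ⟨i, Nat.lt_succ_of_le hi⟩ 1, ?_⟩
  funext v
  change ∑ j : Fin (n + 1), (Pi.single ⟨i, Nat.lt_succ_of_le hi⟩ 1 : Fin (n + 1) → k) j *
    v 0 ^ (j : ℕ) * v 1 ^ (n - (j : ℕ)) = _
  rw [Finset.sum_eq_single ⟨i, Nat.lt_succ_of_le hi⟩]
  · rw [Pi.single_eq_same, one_mul]
  · intro j _ hj
    rw [Pi.single_eq_of_ne hj, zero_mul, zero_mul]
  · intro h
    exact absurd (Finset.mem_univ _) h

omit [IsAlgClosed k] [CharZero k] in
private theorem formb_mul {g e : ℕ} {F G : (Fin 2 → k) → k} (hF : F ∈ Form k g)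
    (hG : G ∈ Form k e) : (fun v => F v * G v) ∈ Form k (g + e) := by
  obtain ⟨c, rfl⟩ := hF
  obtain ⟨d, rfl⟩ := hG
  have h : (fun v => formLin k g c v * formLin k e d v) =
      ∑ i : Fin (g + 1), ∑ j : Fin (e + 1), (c i * d j) •
        (fun v : Fin 2 → k => v 0 ^ ((i : ℕ) + (j : ℕ)) *
          v 1 ^ (g + e - ((i : ℕ) + (j : ℕ)))) := by
    funext v
    simp only [Finset.sum_apply, Pi.smul_apply, smul_eq_mul]
    change (∑ i : Fin (g + 1), c i * v 0 ^ (i : ℕ) * v 1 ^ (g - (i : ℕ))) *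
      (∑ j : Fin (e + 1), d j * v 0 ^ (j : ℕ) * v 1 ^ (e - (j : ℕ))) = _
    rw [Finset.sum_mul_sum]
    refine Finset.sum_congr rfl fun i _ => Finset.sum_congr rfl fun j _ => ?_
    have h1 : g + e - ((i : ℕ) + (j : ℕ)) = (g - (i : ℕ)) + (e - (j : ℕ)) := by
      have := i.2
      have := j.2
      omega
    rw [h1, pow_add, pow_add]
    ring
  rw [h]
  refine Submodule.sum_mem _ fun i _ => Submodule.sum_mem _ fun j _ => ?_
  refine Submodule.smul_mem _ _ (formb_mono _ _ ?_)
  have := i.2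
  have := j.2
  omega

omit [IsAlgClosed k] [CharZero k] in
private theorem formb_poly {n : ℕ} {F : (Fin 2 → k) → k} (hF : F ∈ Form k n) :
    ∃ P : MvPolynomial (Fin 2) k, ∀ v, MvPolynomial.eval v P = F v := by
  obtain ⟨c, rfl⟩ := hF
  refine ⟨∑ i : Fin (n + 1), MvPolynomial.C (c i) * MvPolynomial.X 0 ^ (i : ℕ) *
    MvPolynomial.X 1 ^ (n - (i : ℕ)), fun v => ?_⟩
  rw [map_sum]
  refine Finset.sum_congr rfl fun i _ => ?_
  rw [map_mul, map_mul, map_pow, map_pow, MvPolynomial.eval_C, MvPolynomial.eval_X,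
    MvPolynomial.eval_X]

omit [IsAlgClosed k] in
private theorem formb_exists {g e : ℕ} {F G : (Fin 2 → k) → k} (hF : F ∈ Form k g)
    (hG : G ∈ Form k e) (hF0 : F ≠ 0) (hG0 : G ≠ 0) : ∃ v, F v ≠ 0 ∧ G v ≠ 0 := by
  by_contra hcon
  push Not at hcon
  obtain ⟨P, hP⟩ := formb_poly hF
  obtain ⟨Q, hQ⟩ := formb_poly hG
  have h0 : P * Q = 0 := by
    refine MvPolynomial.funext fun v => ?_
    rw [map_mul, hP, hQ, map_zero]
    by_cases h : F v = 0
    · rw [h, zero_mul]
    · rw [hcon v h, mul_zero]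
  rcases mul_eq_zero.mp h0 with h | h
  · refine hF0 (funext fun v => ?_)
    rw [← hP, h, map_zero]
    rfl
  · refine hG0 (funext fun v => ?_)
    rw [← hQ, h, map_zero]
    rfl

/-- Products of a form and a pair. -/
def fmul {g e d : ℕ} (h : g + e = d) (G : Form k g) (F : SM k e) : SM k d :=
  ⟨fun v => G.1 v • F.1 v, by
    intro i
    subst h
    exact formb_mul G.2 (F.2 i)⟩

private theorem formb_apply {g e d : ℕ} (h : g + e = d) (G : Form k g) (F : SM k e)
    (v : Fin 2 → k) : (fmul h G F).1 v = G.1 v • F.1 v := rfl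

theorem fmul_ne {g e d : ℕ} (h : g + e = d) {G : Form k g} {F : SM k e} (hG : G ≠ 0)
    (hF : F ≠ 0) : fmul h G F ≠ 0 := by
  have hG' : G.1 ≠ 0 := fun h0 => hG (Subtype.ext h0)
  obtain ⟨i, hi⟩ : ∃ i, (fun v => F.1 v i) ≠ 0 := by
    by_contra hcon
    push Not at hcon
    refine hF (Subtype.ext ?_)
    funext v i
    exact congrFun (hcon i) v
  obtain ⟨v, h1, h2⟩ := formb_exists G.2 (F.2 i) hG' hi
  intro h0
  have h3 := congrFun (congrFun (congrArg Subtype.val h0) v) i
  have h4 : G.1 v * F.1 v i = 0 := h3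
  exact mul_ne_zero h1 h2 h4

/-- The product on projective spaces. -/
def pmul {g e d : ℕ} (h : g + e = d) : ℙ k (Form k g) → ℙ k (SM k e) → ℙ k (SM k d) :=
  fun G F => Projectivization.mk k (fmul h G.rep F.rep) (fmul_ne h G.rep_nonzero F.rep_nonzero)

theorem pmul_mk {g e d : ℕ} (h : g + e = d) {G : Form k g} {F : SM k e} (hG : G ≠ 0)
    (hF : F ≠ 0) : pmul h (Projectivization.mk k G hG) (Projectivization.mk k F hF) =
      Projectivization.mk k (fmul h G F) (fmul_ne h hG hF) := by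
  obtain ⟨a, ha⟩ := Projectivization.exists_smul_eq_mk_rep k G hG
  obtain ⟨b, hb⟩ := Projectivization.exists_smul_eq_mk_rep k F hF
  unfold pmul
  rw [Projectivization.mk_eq_mk_iff]
  refine ⟨a * b, ?_⟩
  apply Subtype.ext
  funext v
  have h1 : (Projectivization.mk k G hG).rep.1 v = (a : k) * G.1 v := by
    rw [← ha]
    rfl
  have h2 : (Projectivization.mk k F hF).rep.1 v = (b : k) • F.1 v := by
    rw [← hb]
    rfl
  rw [formb_apply, h1, h2]
  change ((a * b : kˣ) : k) • (G.1 v • F.1 v) = _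
  rw [smul_smul, smul_smul, Units.val_mul]
  congr 1
  ring

private theorem formb_dm {g e d : ℕ} (h : g + e = d) :
    DM k (fun p : Form k g × SM k e => fmul h p.1 p.2) := by
  refine DM.of_graph (R := fun p H => ∀ v : Fin 2 → k, H.1 v = p.1.1 v • p.2.1 v) ?_ ?_
  · refine DM.all ?_
    refine DM.eq (by fun_prop) ?_
    exact DM.vsmul (by fun_prop) (by fun_prop)
  · rintro ⟨G, F⟩ H
    constructor
    · intro h1
      apply Subtype.ext
      funext v
      exact h1 v
    · rintro rfl v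
      rfl

@[fun_prop]
theorem DM.pmul {g e d : ℕ} (h : g + e = d) {a : X → ℙ k (Form k g)} {b : X → ℙ k (SM k e)}
    (ha : DM k a) (hb : DM k b) : DM k (fun x => pmul h (a x) (b x)) := by
  have key : DM k (fun p : ℙ k (Form k g) × ℙ k (SM k e) => MRat.pmul h p.1 p.2) := by
    refine DM.of_graph (R := fun p S => ∃ q : Form k g × SM k e, MRat.isrep q.1 p.1 ∧
      MRat.isrep q.2 p.2 ∧ MRat.isrep (fmul h q.1 q.2) S) ?_ ?_
    · refine DM.ex (DM.and (DM.isrep (by fun_prop) (by fun_prop))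
        (DM.and (DM.isrep (by fun_prop) (by fun_prop)) (DM.isrep ?_ (by fun_prop))))
      exact DM.comp (formb_dm h) (by fun_prop)
    · rintro ⟨P, Q⟩ S
      constructor
      · rintro ⟨⟨G, F⟩, ⟨hG, hP⟩, ⟨hF, hQ⟩, ⟨hS, hS'⟩⟩
        dsimp only at hG hF hP hQ hS hS' ⊢
        rw [← hP, ← hQ, ← hS', pmul_mk]
      · rintro rfl
        induction P using Projectivization.ind with
        | h G hG =>
          induction Q using Projectivization.ind with
          | h F hF =>
            exact ⟨(G, F), ⟨hG, rfl⟩, ⟨hF, rfl⟩, ⟨fmul_ne h hG hF, (pmul_mk h hG hF).symm⟩⟩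
  exact DM.comp key (ha.mk hb)

theorem pmul_smul {g e d : ℕ} (h : g + e = d) (γ : PGL(2, k)) (G : ℙ k (Form k g))
    (F : ℙ k (SM k e)) : γ • pmul h G F = pmul h (γ • G) (γ • F) := by
  obtain ⟨a, rfl⟩ := Matrix.ProjGenLinGroup.mk_surjective γ
  induction G using Projectivization.ind with
  | h G hG =>
    induction F using Projectivization.ind with
    | h F hF =>
      rw [pmul_mk, form_pgl_mk, sm_pgl_mk, sm_pgl_mk, pmul_mk]
      congr 1
      apply Subtype.ext
      funext v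
      rw [sm_gl_apply, formb_apply, formb_apply, sm_gl_apply, form_gl_apply]
      exact smul_comm _ _ _

/-- The space of rational maps of degree `d`. -/
def RatP (k : Type) [Field k] [IsAlgClosed k] [CharZero k] (d : ℕ) : Set (ℙ k (SM k d)) :=
  {p | ∀ v : Fin 2 → k, v ≠ 0 → p.rep.1 v ≠ 0}

theorem mem_RatP {d : ℕ} {F : SM k d} (hF : F ≠ 0) :
    Projectivization.mk k F hF ∈ RatP k d ↔ ∀ v : Fin 2 → k, v ≠ 0 → F.1 v ≠ 0 := by
  obtain ⟨a, ha⟩ := Projectivization.exists_smul_eq_mk_rep k F hF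
  change (∀ v : Fin 2 → k, v ≠ 0 → (Projectivization.mk k F hF).rep.1 v ≠ 0) ↔ _
  refine forall_congr' fun v => ?_
  refine imp_congr_right fun _ => ?_
  rw [← ha]
  change (a : k) • F.1 v ≠ 0 ↔ F.1 v ≠ 0
  rw [smul_ne_zero_iff]
  exact ⟨fun h => h.2, fun h => ⟨a.ne_zero, h⟩⟩

theorem RatP_gset (d : ℕ) : GSet k PGL(2, k) (RatP k d) where
  ds := by
    have h : DM k (fun p : ℙ k (SM k d) => ∃ F : SM k d, isrep F p ∧
        ∀ v : Fin 2 → k, v ≠ 0 → F.1 v ≠ 0) := by
      refine DM.ex (DM.and (DM.isrep (by fun_prop) (by fun_prop)) (DM.all ?_))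
      exact DM.imp (by fun_prop) (by fun_prop)
    refine h.congr_iff fun p => ?_
    constructor
    · rintro ⟨F, ⟨hF, rfl⟩, h1⟩
      exact (mem_RatP hF).mpr h1
    · induction p using Projectivization.ind with
      | h F hF =>
        intro h1
        exact ⟨F, ⟨hF, rfl⟩, (mem_RatP hF).mp h1⟩
  st := by
    intro γ p hp
    obtain ⟨a, rfl⟩ := Matrix.ProjGenLinGroup.mk_surjective γ
    induction p using Projectivization.ind with
    | h F hF =>
      rw [sm_pgl_mk, mem_RatP]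
      rw [mem_RatP] at hp
      intro v hv
      rw [sm_gl_apply]
      exact (smul_ne_zero_iff_ne a).mpr (hp _ ((smul_ne_zero_iff_ne a⁻¹).mpr hv))

end

end Pool.Agent.MRat
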