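import Pool.Agent.Lib.MP_923aff_ag.FormsB
import Pool.Agent.Lib.MP_923aff_ag.FG
import Pool.Agent.Lib.MP_923aff_ag.AUT
/-!
# JOB GCDP: the gcd decomposition of pairs of forms, projective version; finiteness of stabilisers

From `SM.gcd_exists`, `SM.gcd_unique` (FG.lean) and `rmap_aut_finite` (AUT.lean).
-/

set_option autoImplicit false

namespace Pool.Agent.MRat

open scoped MatrixGroups LinearAlgebra.Projectivization

variable {k : Type} [Field k] [IsAlgClosed k] [CharZero k]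

private theorem GCDP_ne : (![1, 0] : Fin 2 → k) ≠ 0 := by
  intro h
  have h1 := congrFun h 0
  simp at h1

private theorem GCDP_cop_ne {e : ℕ} {F : SM k e} (hF : Cop F.1) : F ≠ 0 := by
  rintro rfl
  exact hF ![1, 0] GCDP_ne rfl

private theorem GCDP_val_ne {e : ℕ} {F : SM k e} (hF : F ≠ 0) : F.1 ≠ 0 :=
  fun h => hF (Subtype.ext h)

private theorem GCDP_form_val_ne {e : ℕ} {F : Form k e} (hF : F ≠ 0) : F.1 ≠ 0 :=
  fun h => hF (Subtype.ext h)

/-- Every pair is a form times a pair without common zero. -/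
theorem gcd_exists {d : ℕ} (p : ℙ k (SM k d)) : ∃ (g e : ℕ) (h : g + e = d)
    (q : ℙ k (Form k g)) (r : ℙ k (SM k e)), r ∈ RatP k e ∧ pmul h q r = p := by
  induction p using Projectivization.ind with
  | h F hF =>
    obtain ⟨g, hg, h, hh, F', hF', h0, cF, he⟩ := SM.gcd_exists F.2 (GCDP_val_ne hF)
    have hne : (⟨h, hh⟩ : Form k g) ≠ 0 := fun h1 => h0 (congrArg Subtype.val h1)
    have hne' : (⟨F', hF'⟩ : SM k (d - g)) ≠ 0 := GCDP_cop_ne (F := ⟨F', hF'⟩) cF
    refine ⟨g, d - g, by omega, Projectivization.mk k ⟨h, hh⟩ hne,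
      Projectivization.mk k ⟨F', hF'⟩ hne', ?_, ?_⟩
    · exact (mem_RatP hne').mpr cF
    · rw [pmul_mk _ hne hne', Projectivization.mk_eq_mk_iff]
      refine ⟨1, ?_⟩
      rw [one_smul]
      apply Subtype.ext
      funext v
      exact he v

private theorem GCDP_key {g e g' e' d : ℕ} (h : g + e = d) (h' : g' + e' = d) {G : Form k g}
    {F : SM k e} {G' : Form k g'} {F' : SM k e'} (hG : G ≠ 0) (hG' : G' ≠ 0) (hF : F ≠ 0)
    (hF' : F' ≠ 0) (cF : Cop F.1) (cF' : Cop F'.1)
    (heq : Projectivization.mk k (fmul h G F) (fmul_ne h hG hF) =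
      Projectivization.mk k (fmul h' G' F') (fmul_ne h' hG' hF')) :
    ∃ a : kˣ, g = g' ∧ ∃ c : kˣ, (∀ v, (a : k) * G'.1 v = c * G.1 v) ∧
      ∀ v, F.1 v = (c : k) • F'.1 v := by
  rw [Projectivization.mk_eq_mk_iff] at heq
  obtain ⟨a, ha⟩ := heq
  refine ⟨a, ?_⟩
  have h1 : ∀ v, G.1 v • F.1 v = ((a : k) • G').1 v • F'.1 v := by
    intro v
    have h2 := congrFun (congrArg Subtype.val ha) v
    have h3 : (a : k) • (G'.1 v • F'.1 v) = G.1 v • F.1 v := h2
    rw [← h3, smul_smul]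
    rfl
  have hne : ((a : k) • G').1 ≠ 0 := by
    intro h2
    have h3 : (a : k) • G' = 0 := Subtype.ext h2
    exact hG' ((smul_eq_zero_iff_right a.ne_zero).mp h3)
  exact SM.gcd_unique (by omega) G.2 ((a : k) • G').2 F.2 F'.2 (GCDP_form_val_ne hG) hne cF cF' h1

theorem gcd_deg {g e g' e' d : ℕ} (h : g + e = d) (h' : g' + e' = d) {q : ℙ k (Form k g)}
    {r : ℙ k (SM k e)} {q' : ℙ k (Form k g')} {r' : ℙ k (SM k e')} (hr : r ∈ RatP k e)
    (hr' : r' ∈ RatP k e') (heq : pmul h q r = pmul h' q' r') : g = g' := by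
  induction q using Projectivization.ind with
  | h G hG =>
  induction r using Projectivization.ind with
  | h F hF =>
  induction q' using Projectivization.ind with
  | h G' hG' =>
  induction r' using Projectivization.ind with
  | h F' hF' =>
  rw [pmul_mk _ hG hF, pmul_mk _ hG' hF'] at heq
  obtain ⟨a, ha, -⟩ := GCDP_key h h' hG hG' hF hF' ((mem_RatP hF).mp hr) ((mem_RatP hF').mp hr') heq
  exact ha

theorem gcd_inj {g e d : ℕ} (h : g + e = d) {q q' : ℙ k (Form k g)}
    {r r' : ℙ k (SM k e)} (hr : r ∈ RatP k e)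
    (hr' : r' ∈ RatP k e) (heq : pmul h q r = pmul h q' r') : q = q' ∧ r = r' := by
  induction q using Projectivization.ind with
  | h G hG =>
  induction r using Projectivization.ind with
  | h F hF =>
  induction q' using Projectivization.ind with
  | h G' hG' =>
  induction r' using Projectivization.ind with
  | h F' hF' =>
  rw [pmul_mk _ hG hF, pmul_mk _ hG' hF'] at heq
  obtain ⟨a, -, c, h1, h2⟩ := GCDP_key h h hG hG' hF hF' ((mem_RatP hF).mp hr)
    ((mem_RatP hF').mp hr') heq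
  rw [Projectivization.mk_eq_mk_iff, Projectivization.mk_eq_mk_iff]
  refine ⟨⟨c⁻¹ * a, ?_⟩, ⟨c, ?_⟩⟩
  · apply Subtype.ext
    funext v
    show ((c⁻¹ * a : kˣ) : k) * G'.1 v = G.1 v
    rw [Units.val_mul, mul_assoc, h1 v, ← mul_assoc, Units.inv_mul, one_mul]
  · apply Subtype.ext
    funext v
    exact (h2 v).symm

/-- Stabilisers are finite. -/
theorem rat_stab_finite {d : ℕ} (hd : 2 ≤ d) (x : ℙ k (SM k d)) (hx : x ∈ RatP k d) :
    {g : PGL(2, k) | g • x = x}.Finite := by
  induction x using Projectivization.ind with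
  | h F hF =>
  have cF : Cop F.1 := (mem_RatP hF).mp hx
  refine (rmap_aut_finite hd F.2 cF).subset ?_
  intro g hg
  rw [Set.mem_ofPred_eq] at hg
  rw [Set.mem_ofPred_eq]
  obtain ⟨γ, rfl⟩ := Matrix.ProjGenLinGroup.mk_surjective g
  rw [sm_pgl_mk, Projectivization.mk_eq_mk_iff] at hg
  obtain ⟨a, ha⟩ := hg
  intro p
  induction p using Projectivization.ind with
  | h v hv =>
  rw [Projectivization.PGL.mk_smul_mk, rmap_mk, rmap_mk, Projectivization.PGL.mk_smul_mk,
    Projectivization.mk_eq_mk_iff]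
  have h1 := congrFun (congrArg Subtype.val ha) (γ • v)
  have h2 : (a : k) • F.1 (γ • v) = γ • F.1 (γ⁻¹ • γ • v) := h1
  rw [inv_smul_smul] at h2
  refine ⟨a⁻¹, ?_⟩
  rw [← h2]
  show (a⁻¹ : kˣ) • ((a : kˣ) • F.1 (γ • v)) = _
  rw [smul_smul, inv_mul_cancel, one_smul]

end Pool.Agent.MRat
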