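import Pool.Agent.Lib.MP_923aff_ag.GITBase
/-!
# JOB GITA1: the action on pairs of binary forms, basic identities

PROOF. For polynomials `P`, `Q` in one variable with `natDegree P ≤ m`, `natDegree Q ≤ n` put
`H m P (u, v) = ∑ j in range (m + 1), P.coeff j * u ^ j * v ^ (m - j)`; then `H (m + n) (P Q) = H m P * H n Q`
(`Polynomial.coeff_mul`, antidiagonal), so `H d ((β X + γ)^i (β' X + γ')^(d-i)) (u, v) = (β u + γ v)^i (β' u + γ' v)^(d-i)`.
With `B = adj A` this gives `pm_act`. `act_map`: `Polynomial.coeff_map`. `pm_inj`: evaluate at `v = (X, 1)` and compare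
coefficients. `act_mul`: by `pm_inj` and `pm_act`, `act_map` over `Polynomial R` (`adj (A B) = adj B * adj A`,
`Matrix.adjugate_mul_distrib`). `act_one` the same or directly. `pm_inj_field`: `k` infinite, evaluate at `(t, 1)`.
-/

set_option autoImplicit false

namespace Pool.Agent.MRat

open Polynomial in
/-- homogenised evaluation of a polynomial -/
private noncomputable def gitH {R : Type} [CommRing R] (m : ℕ) (P : R[X]) (u v : R) : R :=
  ∑ j ∈ Finset.range (m + 1), P.coeff j * u ^ j * v ^ (m - j)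

open Polynomial in
private theorem gitH_lin {R : Type} [CommRing R] (m : ℕ) (β γ : R) (Q : R[X]) (u v : R)
    (hQ : Q.natDegree ≤ m) :
    gitH (m + 1) ((C β * X + C γ) * Q) u v = (β * u + γ * v) * gitH m Q u v := by
  unfold gitH
  have hc : ∀ j, ((C β * X + C γ) * Q).coeff j = β * (X * Q).coeff j + γ * Q.coeff j := by
    intro j
    rw [add_mul, coeff_add, mul_assoc, coeff_C_mul, coeff_C_mul]
  simp_rw [hc]
  have e1 : ∑ j ∈ Finset.range (m + 1 + 1), (β * (X * Q).coeff j + γ * Q.coeff j) * u ^ j *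
      v ^ (m + 1 - j) = ∑ j ∈ Finset.range (m + 1 + 1), β * (X * Q).coeff j * u ^ j *
      v ^ (m + 1 - j) + ∑ j ∈ Finset.range (m + 1 + 1), γ * Q.coeff j * u ^ j *
      v ^ (m + 1 - j) := by
    rw [← Finset.sum_add_distrib]
    exact Finset.sum_congr rfl fun j _ => by ring
  rw [e1, add_mul]
  congr 1
  · rw [Finset.sum_range_succ']
    simp only [coeff_X_mul, coeff_X_mul_zero, mul_zero, zero_mul, add_zero]
    rw [Finset.mul_sum]
    refine Finset.sum_congr rfl fun j hj => ?_
    have : m + 1 - (j + 1) = m - j := by omega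
    rw [this]
    ring
  · rw [Finset.sum_range_succ, coeff_eq_zero_of_natDegree_lt (by omega : Q.natDegree < m + 1),
      Finset.mul_sum]
    simp only [mul_zero, zero_mul, add_zero]
    refine Finset.sum_congr rfl fun j hj => ?_
    have hj' : j < m + 1 := Finset.mem_range.mp hj
    have : m + 1 - j = (m - j) + 1 := by omega
    rw [this]
    ring

open Polynomial in
private theorem git_deg {R : Type} [CommRing R] (β γ β' γ' : R) (a b : ℕ) :
    ((C β * X + C γ) ^ a * (C β' * X + C γ') ^ b).natDegree ≤ a + b := by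
  refine natDegree_mul_le.trans (add_le_add ?_ ?_)
  · refine natDegree_pow_le.trans ?_
    calc a * (C β * X + C γ).natDegree ≤ a * 1 := Nat.mul_le_mul_left _ natDegree_linear_le
      _ = a := mul_one a
  · refine natDegree_pow_le.trans ?_
    calc b * (C β' * X + C γ').natDegree ≤ b * 1 := Nat.mul_le_mul_left _ natDegree_linear_le
      _ = b := mul_one b

open Polynomial in
private theorem gitH_pow {R : Type} [CommRing R] (β γ β' γ' u v : R) (a b : ℕ) :
    gitH (a + b) ((C β * X + C γ) ^ a * (C β' * X + C γ') ^ b) u v =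
      (β * u + γ * v) ^ a * (β' * u + γ' * v) ^ b := by
  induction a with
  | zero =>
    induction b with
    | zero => simp [gitH]
    | succ b ih =>
      have hd := git_deg β γ β' γ' 0 b
      have := gitH_lin (0 + b) β' γ' ((C β * X + C γ) ^ 0 * (C β' * X + C γ') ^ b) u v hd
      have e : (C β * X + C γ) ^ 0 * (C β' * X + C γ') ^ (b + 1) =
          (C β' * X + C γ') * ((C β * X + C γ) ^ 0 * (C β' * X + C γ') ^ b) := by ring
      rw [e, ← add_assoc, this, ih]
      ring
  | succ a ih =>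
    have hd := git_deg β γ β' γ' a b
    have := gitH_lin (a + b) β γ ((C β * X + C γ) ^ a * (C β' * X + C γ') ^ b) u v hd
    have e : (C β * X + C γ) ^ (a + 1) * (C β' * X + C γ') ^ b =
        (C β * X + C γ) * ((C β * X + C γ) ^ a * (C β' * X + C γ') ^ b) := by ring
    have e2 : a + 1 + b = a + b + 1 := by omega
    rw [e, e2, this, ih]
    ring

theorem git_subCoef_sum (R : Type) [CommRing R] (d : ℕ) (B : Matrix (Fin 2) (Fin 2) R)
    (v : Fin 2 → R) (i : ℕ) (hi : i ≤ d) :
    ∑ j : Fin (d + 1), subCoef R d B i j * v 0 ^ (j : ℕ) * v 1 ^ (d - (j : ℕ)) =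
      (B.mulVec v 0) ^ i * (B.mulVec v 1) ^ (d - i) := by
  have h := gitH_pow (B 0 0) (B 0 1) (B 1 0) (B 1 1) (v 0) (v 1) i (d - i)
  have e : i + (d - i) = d := by omega
  rw [e] at h
  have e0 : B.mulVec v 0 = B 0 0 * v 0 + B 0 1 * v 1 := by
    simp [Matrix.mulVec, dotProduct, Fin.sum_univ_two]
  have e1 : B.mulVec v 1 = B 1 0 * v 0 + B 1 1 * v 1 := by
    simp [Matrix.mulVec, dotProduct, Fin.sum_univ_two]
  rw [e0, e1, ← h]
  unfold gitH subCoef
  exact Fin.sum_univ_eq_sum_range (fun j => ((Polynomial.C (B 0 0) * Polynomial.X +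
    Polynomial.C (B 0 1)) ^ i * (Polynomial.C (B 1 0) * Polynomial.X +
    Polynomial.C (B 1 1)) ^ (d - i)).coeff j * v 0 ^ j * v 1 ^ (d - j)) (d + 1)

theorem git_row_sum (R : Type) [CommRing R] (d : ℕ) (B : Matrix (Fin 2) (Fin 2) R)
    (v : Fin 2 → R) (y : Fin (d + 1) → R) :
    ∑ j : Fin (d + 1), (∑ i : Fin (d + 1), y i * subCoef R d B i j) * v 0 ^ (j : ℕ) *
      v 1 ^ (d - (j : ℕ)) =
    ∑ i : Fin (d + 1), y i * (B.mulVec v 0) ^ (i : ℕ) * (B.mulVec v 1) ^ (d - (i : ℕ)) := by
  simp_rw [Finset.sum_mul]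
  rw [Finset.sum_comm]
  refine Finset.sum_congr rfl fun i _ => ?_
  have h := git_subCoef_sum R d B v i (Nat.lt_succ_iff.mp i.2)
  calc ∑ j : Fin (d + 1), y i * subCoef R d B i j * v 0 ^ (j : ℕ) * v 1 ^ (d - (j : ℕ))
      = y i * ∑ j : Fin (d + 1), subCoef R d B i j * v 0 ^ (j : ℕ) * v 1 ^ (d - (j : ℕ)) := by
        rw [Finset.mul_sum]
        exact Finset.sum_congr rfl fun j _ => by ring
    _ = _ := by rw [h]; ring

theorem git_comb_sum (R : Type) [CommRing R] (d : ℕ) (B : Matrix (Fin 2) (Fin 2) R)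
    (v : Fin 2 → R) (y z : Fin (d + 1) → R) (a b : R) :
    ∑ j : Fin (d + 1), (a * ∑ i : Fin (d + 1), y i * subCoef R d B i j +
      b * ∑ i : Fin (d + 1), z i * subCoef R d B i j) * v 0 ^ (j : ℕ) *
      v 1 ^ (d - (j : ℕ)) =
    a * ∑ i : Fin (d + 1), y i * (B.mulVec v 0) ^ (i : ℕ) * (B.mulVec v 1) ^ (d - (i : ℕ)) +
    b * ∑ i : Fin (d + 1), z i * (B.mulVec v 0) ^ (i : ℕ) * (B.mulVec v 1) ^ (d - (i : ℕ)) := by
  rw [← git_row_sum R d B v y, ← git_row_sum R d B v z, Finset.mul_sum, Finset.mul_sum,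
    ← Finset.sum_add_distrib]
  exact Finset.sum_congr rfl fun j _ => by ring

theorem git_subCoef_map {R S : Type} [CommRing R] [CommRing S] (φ : R →+* S) (d : ℕ)
    (B : Matrix (Fin 2) (Fin 2) R) (i j : ℕ) :
    φ (subCoef R d B i j) = subCoef S d (B.map φ) i j := by
  unfold subCoef
  rw [← Polynomial.coeff_map]
  simp [Polynomial.map_mul, Polynomial.map_pow, Polynomial.map_add, Matrix.map_apply]

theorem git_coeff_sum (R : Type) [CommRing R] (d : ℕ) (y : Fin (d + 1) → R) (j : Fin (d + 1)) :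
    (∑ i : Fin (d + 1), Polynomial.C (y i) * Polynomial.X ^ (i : ℕ)).coeff (j : ℕ) = y j := by
  rw [Polynomial.finsetSum_coeff]
  simp only [Polynomial.coeff_C_mul, Polynomial.coeff_X_pow]
  rw [Finset.sum_eq_single j]
  · simp
  · intro i _ hij
    rw [if_neg, mul_zero]
    intro h
    exact hij (Fin.ext h.symm)
  · intro h
    exact absurd (Finset.mem_univ j) h

theorem pm_act (R : Type) [CommRing R] (d : ℕ) (A : Matrix (Fin 2) (Fin 2) R)
    (x : Fin ((d + 1) + (d + 1)) → R) (v : Fin 2 → R) :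
    pm R d (act R d A x) v = A.mulVec (pm R d x (A.adjugate.mulVec v)) := by
  funext k
  fin_cases k
  · show ∑ j : Fin (d + 1), act R d A x (Fin.castAdd (d + 1) j) * v 0 ^ (j : ℕ) *
      v 1 ^ (d - (j : ℕ)) = _
    simp only [act, Fin.append_left]
    rw [git_comb_sum]
    simp only [pm, Matrix.mulVec, dotProduct, Fin.sum_univ_two]
    simp
  · show ∑ j : Fin (d + 1), act R d A x (Fin.natAdd (d + 1) j) * v 0 ^ (j : ℕ) *
      v 1 ^ (d - (j : ℕ)) = _
    simp only [act, Fin.append_right]
    rw [git_comb_sum]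
    simp only [pm, Matrix.mulVec, dotProduct, Fin.sum_univ_two]
    simp

theorem act_map {R S : Type} [CommRing R] [CommRing S] (φ : R →+* S) (d : ℕ)
    (A : Matrix (Fin 2) (Fin 2) R) (x : Fin ((d + 1) + (d + 1)) → R) :
    (fun i => φ (act R d A x i)) = act S d (A.map φ) (fun i => φ (x i)) := by
  have hadj : (A.map φ).adjugate = A.adjugate.map φ := by
    have := RingHom.map_adjugate φ A
    simpa [RingHom.mapMatrix_apply] using this.symm
  funext i
  refine Fin.addCases (fun j => ?_) (fun j => ?_) i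
  · simp only [act, Fin.append_left, map_add, map_mul, map_sum, git_subCoef_map, hadj,
      Matrix.map_apply]
  · simp only [act, Fin.append_right, map_add, map_mul, map_sum, git_subCoef_map, hadj,
      Matrix.map_apply]

theorem pm_inj (R : Type) [CommRing R] (d : ℕ) (x y : Fin ((d + 1) + (d + 1)) → R)
    (h : ∀ v : Fin 2 → Polynomial R, pm (Polynomial R) d (fun i => Polynomial.C (x i)) v =
      pm (Polynomial R) d (fun i => Polynomial.C (y i)) v) : x = y := by
  have h1 := h ![Polynomial.X, 1]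
  have h0 := congrFun h1 0
  have h2 := congrFun h1 1
  simp only [pm, Matrix.cons_val_zero, Matrix.cons_val_one, one_pow, mul_one] at h0 h2
  funext i
  refine Fin.addCases (fun j => ?_) (fun j => ?_) i
  · have := congrArg (fun P => Polynomial.coeff P (j : ℕ)) h0
    simpa only [git_coeff_sum] using this
  · have := congrArg (fun P => Polynomial.coeff P (j : ℕ)) h2
    simpa only [git_coeff_sum] using this

theorem pm_inj_field (k : Type) [Field k] [Infinite k] (d : ℕ)
    (x y : Fin ((d + 1) + (d + 1)) → k) (h : ∀ v : Fin 2 → k, pm k d x v = pm k d y v) :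
    x = y := by
  have key : ∀ y z : Fin (d + 1) → k, (∀ t : k, ∑ i : Fin (d + 1), y i * t ^ (i : ℕ) =
      ∑ i : Fin (d + 1), z i * t ^ (i : ℕ)) → y = z := by
    intro y z hyz
    have hp : (∑ i : Fin (d + 1), Polynomial.C (y i) * Polynomial.X ^ (i : ℕ)) =
        ∑ i : Fin (d + 1), Polynomial.C (z i) * Polynomial.X ^ (i : ℕ) := by
      refine Polynomial.funext fun t => ?_
      rw [Polynomial.eval_finsetSum, Polynomial.eval_finsetSum]
      simp only [Polynomial.eval_mul, Polynomial.eval_C, Polynomial.eval_pow, Polynomial.eval_X]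
      exact hyz t
    funext j
    rw [← git_coeff_sum k d y j, hp, git_coeff_sum]
  have k0 := key (fun i => x (Fin.castAdd (d + 1) i)) (fun i => y (Fin.castAdd (d + 1) i)) (by
    intro t
    have := congrFun (h ![t, 1]) 0
    simpa [pm] using this)
  have k1 := key (fun i => x (Fin.natAdd (d + 1) i)) (fun i => y (Fin.natAdd (d + 1) i)) (by
    intro t
    have := congrFun (h ![t, 1]) 1
    simpa [pm] using this)
  funext i
  refine Fin.addCases (fun j => ?_) (fun j => ?_) i
  · exact congrFun k0 j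
  · exact congrFun k1 j

theorem act_one (R : Type) [CommRing R] (d : ℕ) (x : Fin ((d + 1) + (d + 1)) → R) :
    act R d 1 x = x := by
  refine pm_inj R d _ _ fun v => ?_
  rw [act_map (Polynomial.C : R →+* Polynomial R) d 1 x, pm_act]
  have h1 : (1 : Matrix (Fin 2) (Fin 2) R).map (Polynomial.C : R →+* Polynomial R) = 1 := by
    exact Matrix.map_one _ (map_zero _) (map_one _)
  rw [h1, Matrix.adjugate_one, Matrix.one_mulVec, Matrix.one_mulVec]

theorem act_mul (R : Type) [CommRing R] (d : ℕ) (A B : Matrix (Fin 2) (Fin 2) R)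
    (x : Fin ((d + 1) + (d + 1)) → R) : act R d (A * B) x = act R d A (act R d B x) := by
  refine pm_inj R d _ _ fun v => ?_
  rw [act_map (Polynomial.C : R →+* Polynomial R) d (A * B) x,
    act_map (Polynomial.C : R →+* Polynomial R) d A (act R d B x),
    act_map (Polynomial.C : R →+* Polynomial R) d B x, pm_act, pm_act, pm_act]
  have h1 : (A * B).map (Polynomial.C : R →+* Polynomial R) =
      A.map (Polynomial.C : R →+* Polynomial R) * B.map (Polynomial.C : R →+* Polynomial R) := by
    exact Matrix.map_mul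
  rw [h1, Matrix.adjugate_mul_distrib, Matrix.mulVec_mulVec, Matrix.mulVec_mulVec]

end Pool.Agent.MRat
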