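import Pool.Agent.Lib.MP_923aff_ag.GITA1
/-!
# JOB GITA2: the action on pairs of binary forms, more identities (uses GITA1)

PROOF. `act_smul`, `act_single` (linearity) and `act_diag` directly from the definition (`adj (diag (α, β)) = diag (β, α)`,
`subCoef` of a diagonal matrix is `β^i α^(d-i)` if `i = j`, else `0`). `act_scalar` is `act_diag` with `α = β = c`.
`fieldExt`: let `F₀`, `F₁` be the dehomogenized polynomials `∑ x_i T^i`; they have no common root in the algebraically closed
field `k`, so `u F₀ + v F₁ = 1` (`Polynomial.isCoprime_of_...` / gcd has no root), and the coefficients of index `d` do not both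
vanish (zero at `(1, 0)`); both facts pass to an extension field, and they exclude common zeros `(a, b)` with `b ≠ 0` (scale to
`(a/b, 1)`) and `b = 0`. `act_mem`: from `pm_act`. `ratConj_iff`: (→) from `pairMap y (A v) = c A pairMap x v` one gets
`pm y w = c (det A)^(-d) • A (pm x (adj A w)) = pm (c (det A)^(-d) • act A x) w`, so `y = c' • act A x` by `pm_inj_field`,
and `c' = t^(d+1)` (`k` algebraically closed), `y = act (t A) x` by `act_scalar`, `act_mul`. (←) from `pm_act` with
`c = (det A)^d`. (`pairMap k d = pm k d` by `rfl`.)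
-/

set_option autoImplicit false

namespace Pool.Agent.MRat

theorem gitA2_act_add (R : Type) [CommRing R] (d : ℕ) (A : Matrix (Fin 2) (Fin 2) R)
    (x y : Fin ((d + 1) + (d + 1)) → R) (i : Fin ((d + 1) + (d + 1))) :
    act R d A (x + y) i = act R d A x i + act R d A y i := by
  refine Fin.addCases (fun j => ?_) (fun j => ?_) i
  · simp only [act, Fin.append_left, Pi.add_apply, add_mul, Finset.sum_add_distrib]
    ring
  · simp only [act, Fin.append_right, Pi.add_apply, add_mul, Finset.sum_add_distrib]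
    ring

theorem gitA2_subCoef_diag (R : Type) [CommRing R] (d : ℕ) (α β : R) (i j : ℕ) :
    subCoef R d (Matrix.diagonal ![α, β]).adjugate i j =
      if j = i then β ^ i * α ^ (d - i) else 0 := by
  have h00 : (Matrix.diagonal ![α, β]).adjugate 0 0 = β := by
    rw [Matrix.adjugate_fin_two]; simp
  have h01 : (Matrix.diagonal ![α, β]).adjugate 0 1 = 0 := by
    rw [Matrix.adjugate_fin_two]; simp
  have h10 : (Matrix.diagonal ![α, β]).adjugate 1 0 = 0 := by
    rw [Matrix.adjugate_fin_two]; simp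
  have h11 : (Matrix.diagonal ![α, β]).adjugate 1 1 = α := by
    rw [Matrix.adjugate_fin_two]; simp
  unfold subCoef
  rw [h00, h01, h10, h11, map_zero, add_zero, zero_mul, zero_add, mul_pow, ← Polynomial.C_pow,
    ← Polynomial.C_pow, mul_assoc, Polynomial.coeff_C_mul, Polynomial.coeff_mul_C,
    Polynomial.coeff_X_pow]
  split_ifs
  · ring
  · ring

theorem gitA2_pm_smul (R : Type) [CommRing R] (d : ℕ) (x : Fin ((d + 1) + (d + 1)) → R) (c : R)
    (v : Fin 2 → R) : pm R d x (c • v) = c ^ d • pm R d x v := by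
  have key : ∀ y : Fin (d + 1) → R, ∑ i : Fin (d + 1), y i * (c * v 0) ^ (i : ℕ) *
      (c * v 1) ^ (d - (i : ℕ)) =
      c ^ d * ∑ i : Fin (d + 1), y i * v 0 ^ (i : ℕ) * v 1 ^ (d - (i : ℕ)) := by
    intro y
    rw [Finset.mul_sum]
    refine Finset.sum_congr rfl fun i _ => ?_
    have hi : (i : ℕ) ≤ d := Nat.lt_succ_iff.mp i.2
    have e : c ^ d = c ^ (i : ℕ) * c ^ (d - (i : ℕ)) := by
      rw [← pow_add]
      congr 1
      omega
    rw [e, mul_pow, mul_pow]
    ring
  funext k
  fin_cases k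
  · simpa [pm] using key (fun i => x (Fin.castAdd (d + 1) i))
  · simpa [pm] using key (fun i => x (Fin.natAdd (d + 1) i))

theorem gitA2_pm_lin (R : Type) [CommRing R] (d : ℕ) (x : Fin ((d + 1) + (d + 1)) → R) (c : R)
    (v : Fin 2 → R) : pm R d (fun i => c * x i) v = c • pm R d x v := by
  have key : ∀ y : Fin (d + 1) → R, ∑ i : Fin (d + 1), (c * y i) * v 0 ^ (i : ℕ) *
      v 1 ^ (d - (i : ℕ)) =
      c * ∑ i : Fin (d + 1), y i * v 0 ^ (i : ℕ) * v 1 ^ (d - (i : ℕ)) := by
    intro y
    rw [Finset.mul_sum]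
    exact Finset.sum_congr rfl fun i _ => by ring
  funext k
  fin_cases k
  · simpa [pm] using key (fun i => x (Fin.castAdd (d + 1) i))
  · simpa [pm] using key (fun i => x (Fin.natAdd (d + 1) i))

theorem gitA2_adj_mulVec (R : Type) [CommRing R] (A : Matrix (Fin 2) (Fin 2) R) (v : Fin 2 → R) :
    A.adjugate.mulVec (A.mulVec v) = A.det • v := by
  rw [Matrix.mulVec_mulVec, Matrix.adjugate_mul, Matrix.smul_mulVec, Matrix.one_mulVec]

theorem gitA2_mulVec_adj (R : Type) [CommRing R] (A : Matrix (Fin 2) (Fin 2) R) (v : Fin 2 → R) :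
    A.mulVec (A.adjugate.mulVec v) = A.det • v := by
  rw [Matrix.mulVec_mulVec, Matrix.mul_adjugate, Matrix.smul_mulVec, Matrix.one_mulVec]

theorem gitA2_mulVec_ne {k : Type} [Field k] (A : Matrix (Fin 2) (Fin 2) k) (hA : A.det ≠ 0)
    (v : Fin 2 → k) (hv : v ≠ 0) : A.mulVec v ≠ 0 := by
  intro h
  have := gitA2_adj_mulVec k A v
  rw [h, Matrix.mulVec_zero] at this
  exact (smul_ne_zero hA hv) this.symm

theorem gitA2_adj_ne {k : Type} [Field k] (A : Matrix (Fin 2) (Fin 2) k) (hA : A.det ≠ 0)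
    (v : Fin 2 → k) (hv : v ≠ 0) : A.adjugate.mulVec v ≠ 0 := by
  intro h
  have := gitA2_mulVec_adj k A v
  rw [h, Matrix.mulVec_zero] at this
  exact (smul_ne_zero hA hv) this.symm

theorem gitA2_det_ne {k : Type} [Field k] (A : GL2 k) : A.1.det ≠ 0 := by
  have : IsUnit A.1.det := (Matrix.isUnit_iff_isUnit_det _).mp A.isUnit
  exact this.ne_zero

theorem act_smul (R : Type) [CommRing R] (d : ℕ) (A : Matrix (Fin 2) (Fin 2) R) (c : R)
    (x : Fin ((d + 1) + (d + 1)) → R) :
    act R d A (fun i => c * x i) = fun i => c * act R d A x i := by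
  funext i
  refine Fin.addCases (fun j => ?_) (fun j => ?_) i
  · simp only [act, Fin.append_left, mul_assoc, ← Finset.mul_sum]
    ring
  · simp only [act, Fin.append_right, mul_assoc, ← Finset.mul_sum]
    ring

theorem act_single (R : Type) [CommRing R] (d : ℕ) (A : Matrix (Fin 2) (Fin 2) R)
    (x : Fin ((d + 1) + (d + 1)) → R) (i : Fin ((d + 1) + (d + 1))) :
    act R d A x i = ∑ j, act R d A (Pi.single j 1) i * x j := by
  let f : (Fin ((d + 1) + (d + 1)) → R) →ₗ[R] R :=
    { toFun := fun x => act R d A x i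
      map_add' := fun x y => gitA2_act_add R d A x y i
      map_smul' := fun c x => congrFun (act_smul R d A c x) i }
  have h := f.pi_apply_eq_sum_univ x
  refine h.trans (Finset.sum_congr rfl fun j _ => ?_)
  have e : (fun l : Fin ((d + 1) + (d + 1)) => if j = l then (1 : R) else 0) = Pi.single j 1 := by
    funext l
    simp only [Pi.single_apply, eq_comm]
  rw [e, smul_eq_mul, mul_comm]
  rfl

theorem act_diag_left (R : Type) [CommRing R] (d : ℕ) (α β : R)
    (x : Fin ((d + 1) + (d + 1)) → R) (i : Fin (d + 1)) :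
    act R d (Matrix.diagonal ![α, β]) x (Fin.castAdd (d + 1) i) =
      α ^ (d - (i : ℕ) + 1) * β ^ (i : ℕ) * x (Fin.castAdd (d + 1) i) := by
  simp only [act, Fin.append_left, gitA2_subCoef_diag]
  have e1 : ∑ l : Fin (d + 1), x (Fin.castAdd (d + 1) l) *
      (if (i : ℕ) = (l : ℕ) then β ^ (l : ℕ) * α ^ (d - (l : ℕ)) else 0) =
      x (Fin.castAdd (d + 1) i) * (β ^ (i : ℕ) * α ^ (d - (i : ℕ))) := by
    rw [Finset.sum_eq_single i]
    · simp
    · intro l _ hl
      rw [if_neg (fun h => hl (Fin.ext h.symm)), mul_zero]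
    · intro h
      exact absurd (Finset.mem_univ i) h
  rw [e1]
  simp only [Matrix.diagonal_apply_eq, Matrix.cons_val_zero]
  rw [Matrix.diagonal_apply_ne _ (by decide : (0 : Fin 2) ≠ 1)]
  ring

theorem act_diag_right (R : Type) [CommRing R] (d : ℕ) (α β : R)
    (x : Fin ((d + 1) + (d + 1)) → R) (i : Fin (d + 1)) :
    act R d (Matrix.diagonal ![α, β]) x (Fin.natAdd (d + 1) i) =
      α ^ (d - (i : ℕ)) * β ^ ((i : ℕ) + 1) * x (Fin.natAdd (d + 1) i) := by
  simp only [act, Fin.append_right, gitA2_subCoef_diag]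
  have e1 : ∑ l : Fin (d + 1), x (Fin.natAdd (d + 1) l) *
      (if (i : ℕ) = (l : ℕ) then β ^ (l : ℕ) * α ^ (d - (l : ℕ)) else 0) =
      x (Fin.natAdd (d + 1) i) * (β ^ (i : ℕ) * α ^ (d - (i : ℕ))) := by
    rw [Finset.sum_eq_single i]
    · simp
    · intro l _ hl
      rw [if_neg (fun h => hl (Fin.ext h.symm)), mul_zero]
    · intro h
      exact absurd (Finset.mem_univ i) h
  rw [e1]
  have e2 : (Matrix.diagonal ![α, β]) 1 1 = β := by simp
  have e3 : (Matrix.diagonal ![α, β]) 1 0 = 0 := by simp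
  rw [e2, e3]
  ring

theorem act_scalar (R : Type) [CommRing R] (d : ℕ) (c : R) (x : Fin ((d + 1) + (d + 1)) → R) :
    act R d (c • (1 : Matrix (Fin 2) (Fin 2) R)) x = fun i => c ^ (d + 1) * x i := by
  have e : c • (1 : Matrix (Fin 2) (Fin 2) R) = Matrix.diagonal ![c, c] := by
    ext i j
    fin_cases i <;> fin_cases j <;> simp
  rw [e]
  funext i
  refine Fin.addCases (fun j => ?_) (fun j => ?_) i
  · have hj : (j : ℕ) ≤ d := Nat.lt_succ_iff.mp j.2
    rw [act_diag_left, ← pow_add]
    congr 2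
    omega
  · have hj : (j : ℕ) ≤ d := Nat.lt_succ_iff.mp j.2
    rw [act_diag_right, ← pow_add]
    congr 2
    omega

theorem fieldExt {k κ : Type} [Field k] [IsAlgClosed k] [Field κ] (φ : k →+* κ) (d : ℕ)
    (x : Fin ((d + 1) + (d + 1)) → k) (hx : x ∈ RatSet k d) (v : Fin 2 → κ) (hv : v ≠ 0) :
    pm κ d (fun i => φ (x i)) v ≠ 0 := by
  intro h0
  have hc0 : ∑ i : Fin (d + 1), φ (x (Fin.castAdd (d + 1) i)) * v 0 ^ (i : ℕ) *
      v 1 ^ (d - (i : ℕ)) = 0 := by simpa [pm] using congrFun h0 0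
  have hc1 : ∑ i : Fin (d + 1), φ (x (Fin.natAdd (d + 1) i)) * v 0 ^ (i : ℕ) *
      v 1 ^ (d - (i : ℕ)) = 0 := by simpa [pm] using congrFun h0 1
  by_cases hv1 : v 1 = 0
  · have hv0 : v 0 ≠ 0 := by
      intro h
      apply hv
      funext j
      fin_cases j
      · exact h
      · exact hv1
    have key : ∀ y : Fin (d + 1) → k, ∑ i : Fin (d + 1), φ (y i) * v 0 ^ (i : ℕ) *
        v 1 ^ (d - (i : ℕ)) = 0 → ∑ i : Fin (d + 1), y i * (1 : k) ^ (i : ℕ) *
        (0 : k) ^ (d - (i : ℕ)) = 0 := by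
      intro y hy
      rw [hv1, Fin.sum_univ_castSucc] at hy
      rw [Fin.sum_univ_castSucc]
      have z1 : ∀ (K : Type) [Field K] (a b : K) (i : Fin d), a * b ^ ((Fin.castSucc i : Fin (d + 1)) : ℕ) *
          (0 : K) ^ (d - ((Fin.castSucc i : Fin (d + 1)) : ℕ)) = 0 := by
        intro K _ a b i
        have hi : (i : ℕ) < d := i.2
        rw [Fin.val_castSucc, zero_pow (by omega : d - (i : ℕ) ≠ 0), mul_zero]
      rw [Finset.sum_eq_zero (fun i _ => z1 κ _ _ i), zero_add, Fin.val_last, Nat.sub_self,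
        pow_zero, mul_one] at hy
      rw [Finset.sum_eq_zero (fun i _ => z1 k _ _ i), zero_add, Fin.val_last, Nat.sub_self,
        pow_zero, mul_one, one_pow, mul_one]
      have := (mul_eq_zero.mp hy).resolve_right (pow_ne_zero d hv0)
      exact (map_eq_zero φ).mp this
    have hx1 := hx ![1, 0] (by
      intro h
      have := congrFun h 0
      simp at this)
    apply hx1
    funext j
    fin_cases j
    · simpa [pairMap] using key _ hc0
    · simpa [pairMap] using key _ hc1
  · set t : κ := v 0 / v 1 with ht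
    have key : ∀ y : Fin (d + 1) → k, ∑ i : Fin (d + 1), φ (y i) * v 0 ^ (i : ℕ) *
        v 1 ^ (d - (i : ℕ)) = 0 →
        Polynomial.eval₂ φ t (∑ i : Fin (d + 1), Polynomial.C (y i) * Polynomial.X ^ (i : ℕ)) = 0 := by
      intro y hy
      rw [Polynomial.eval₂_finsetSum]
      simp only [Polynomial.eval₂_mul, Polynomial.eval₂_C, Polynomial.eval₂_pow,
        Polynomial.eval₂_X]
      have h2 : v 1 ^ d * ∑ i : Fin (d + 1), φ (y i) * t ^ (i : ℕ) =
          ∑ i : Fin (d + 1), φ (y i) * v 0 ^ (i : ℕ) * v 1 ^ (d - (i : ℕ)) := by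
        rw [Finset.mul_sum]
        refine Finset.sum_congr rfl fun i _ => ?_
        have hi : (i : ℕ) ≤ d := Nat.lt_succ_iff.mp i.2
        have e : v 1 ^ d = v 1 ^ (i : ℕ) * v 1 ^ (d - (i : ℕ)) := by
          rw [← pow_add]
          congr 1
          omega
        rw [e, ht, div_pow]
        field_simp
      rw [hy] at h2
      exact (mul_eq_zero.mp h2).resolve_left (pow_ne_zero d hv1)
    have hcop : IsCoprime
        (∑ i : Fin (d + 1), Polynomial.C (x (Fin.castAdd (d + 1) i)) * Polynomial.X ^ (i : ℕ))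
        (∑ i : Fin (d + 1), Polynomial.C (x (Fin.natAdd (d + 1) i)) * Polynomial.X ^ (i : ℕ)) := by
      rw [Polynomial.isCoprime_iff_aeval_ne_zero_of_isAlgClosed k k]
      intro a
      by_contra hcon
      push Not at hcon
      have hx1 := hx ![a, 1] (by
        intro h
        have := congrFun h 1
        simp at this)
      apply hx1
      funext j
      fin_cases j
      · simpa [pairMap] using hcon.1
      · simpa [pairMap] using hcon.2
    obtain ⟨u, w, huw⟩ := hcop
    have := congrArg (Polynomial.eval₂ φ t) huw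
    rw [Polynomial.eval₂_add, Polynomial.eval₂_mul, Polynomial.eval₂_mul, key _ hc0, key _ hc1,
      mul_zero, mul_zero, add_zero, Polynomial.eval₂_one] at this
    exact zero_ne_one this

theorem act_mem {k : Type} [Field k] (d : ℕ) (A : GL2 k) (x : Fin ((d + 1) + (d + 1)) → k) :
    act k d A.1 x ∈ RatSet k d ↔ x ∈ RatSet k d := by
  have hA := gitA2_det_ne A
  constructor
  · intro h v hv hz
    have h1 := h (A.1.mulVec v) (gitA2_mulVec_ne A.1 hA v hv)
    apply h1
    have h2 : pairMap k d (act k d A.1 x) (A.1.mulVec v) = pm k d (act k d A.1 x) (A.1.mulVec v) := rfl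
    have h3 : pm k d x v = 0 := hz
    rw [h2, pm_act, gitA2_adj_mulVec, gitA2_pm_smul, h3, smul_zero, Matrix.mulVec_zero]
  · intro h v hv
    have h1 : pm k d x (A.1.adjugate.mulVec v) ≠ 0 := h _ (gitA2_adj_ne A.1 hA v hv)
    have h2 : pairMap k d (act k d A.1 x) v = pm k d (act k d A.1 x) v := rfl
    rw [h2, pm_act]
    exact gitA2_mulVec_ne A.1 hA _ h1

theorem ratConj_iff {k : Type} [Field k] [IsAlgClosed k] (d : ℕ)
    (x y : Fin ((d + 1) + (d + 1)) → k) :
    RatConj k d x y ↔ ∃ A : GL2 k, y = act k d A.1 x := by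
  constructor
  · rintro ⟨A, c, hA, hc, h⟩
    have h1 : ∀ w : Fin 2 → k, pm k d y w =
        pm k d (fun i => (c / A.det ^ d) * act k d A x i) w := by
      intro w
      have h2 : pm k d y (A.mulVec (A.adjugate.mulVec w)) =
          c • A.mulVec (pm k d x (A.adjugate.mulVec w)) := h (A.adjugate.mulVec w)
      rw [gitA2_mulVec_adj, gitA2_pm_smul, ← pm_act] at h2
      rw [gitA2_pm_lin, div_eq_mul_inv, mul_comm c, mul_smul, ← h2, smul_smul,
        inv_mul_cancel₀ (pow_ne_zero d hA), one_smul]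
    have h3 := pm_inj_field k d _ _ h1
    obtain ⟨t, ht⟩ := IsAlgClosed.exists_pow_nat_eq (c / A.det ^ d) (Nat.succ_pos d)
    have hcd : c / A.det ^ d ≠ 0 := div_ne_zero hc (pow_ne_zero d hA)
    have ht0 : t ≠ 0 := by
      rintro rfl
      rw [zero_pow (Nat.succ_ne_zero d)] at ht
      exact hcd ht.symm
    have hdet : IsUnit ((t • (1 : Matrix (Fin 2) (Fin 2) k)) * A).det := by
      rw [Matrix.det_mul, Matrix.det_smul, Matrix.det_one, mul_one]
      exact (mul_ne_zero (pow_ne_zero _ ht0) hA).isUnit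
    refine ⟨Matrix.nonsingInvUnit _ hdet, ?_⟩
    show y = act k d ((t • (1 : Matrix (Fin 2) (Fin 2) k)) * A) x
    rw [act_mul, act_scalar, h3, ← ht]
  · rintro ⟨A, rfl⟩
    refine ⟨A.1, A.1.det ^ d, gitA2_det_ne A, pow_ne_zero d (gitA2_det_ne A), fun v => ?_⟩
    show pm k d (act k d A.1 x) (A.1.mulVec v) = A.1.det ^ d • A.1.mulVec (pm k d x v)
    rw [pm_act, gitA2_adj_mulVec, gitA2_pm_smul, Matrix.mulVec_smul]

end Pool.Agent.MRat
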