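import Mathlib
/-!
# Regular functions on subsets of affine space

Definitions only.
-/

set_option autoImplicit false

namespace Pool.Agent.MRat

variable {k : Type} [Field k] {n : ℕ}

/-- The functions on `A` given by fractions of polynomials. -/
noncomputable def OA (A : Set (Fin n → k)) : Subalgebra k (A → k) where
  carrier := {f | ∃ P Q : MvPolynomial (Fin n) k, ∀ x : A, MvPolynomial.eval (x : Fin n → k) Q ≠ 0 ∧
    f x = MvPolynomial.eval (x : Fin n → k) P / MvPolynomial.eval (x : Fin n → k) Q}
  mul_mem' := by
    rintro f g ⟨P, Q, h⟩ ⟨P', Q', h'⟩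
    refine ⟨P * P', Q * Q', fun x => ⟨?_, ?_⟩⟩
    · rw [map_mul]
      exact mul_ne_zero (h x).1 (h' x).1
    · rw [map_mul, map_mul, Pi.mul_apply, (h x).2, (h' x).2, div_mul_div_comm]
  add_mem' := by
    rintro f g ⟨P, Q, h⟩ ⟨P', Q', h'⟩
    refine ⟨P * Q' + Q * P', Q * Q', fun x => ⟨?_, ?_⟩⟩
    · rw [map_mul]
      exact mul_ne_zero (h x).1 (h' x).1
    · rw [map_mul, map_add, map_mul, map_mul, Pi.add_apply, (h x).2, (h' x).2,
        div_add_div _ _ (h x).1 (h' x).1]
  algebraMap_mem' := by
    intro r
    refine ⟨MvPolynomial.C r, 1, fun x => ⟨?_, ?_⟩⟩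
    · rw [map_one]
      exact one_ne_zero
    · rw [map_one, MvPolynomial.eval_C, div_one]
      rfl

/-- The functions which are constant on the classes of the relation `r`. -/
def constOn (k : Type) [Field k] {X : Type} (r : X → X → Prop) : Subalgebra k (X → k) where
  carrier := {f | ∀ x y, r x y → f x = f y}
  mul_mem' := by
    intro f g hf hg x y h
    rw [Pi.mul_apply, Pi.mul_apply, hf x y h, hg x y h]
  add_mem' := by
    intro f g hf hg x y h
    rw [Pi.add_apply, Pi.add_apply, hf x y h, hg x y h]
  algebraMap_mem' := by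
    intro c x y _
    rfl

/-- The regular functions on `A` which are constant on the classes of the relation `r`. -/
noncomputable def invFun (A : Set (Fin n → k)) (r : (Fin n → k) → (Fin n → k) → Prop) :
    Subalgebra k (A → k) :=
  OA A ⊓ constOn k (fun x y => r x.1 y.1)

end Pool.Agent.MRat
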