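import Pool.Agent.Lib.MP_923aff_ag.SchDefs
import Pool.Agent.Lib.MP_923aff_ag.BrE
import Pool.Agent.Lib.MP_923aff_ag.OADefs
/-!
# JOB SB1 (and SB2, SB3): from affine pieces of `k ^ n` to affine varieties

`OA A` is the ring of functions `A → k` given by fractions of polynomials.
`OA_piece`: for `A = {x | p x = 0 for p ∈ I, q x ≠ 0}` every element of `OA A` is of the form `P / q ^ N` on `A`: if `Q`
has no zero on `A`, then `q` vanishes on the common zeros of `I` and `Q`, so `q ^ N = a Q + i` with `i` in the ideal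
generated by `I` (Nullstellensatz: `MvPolynomial.vanishingIdeal_zeroLocus_eq_radical`); on `A`: `1 / Q = a / q ^ N`.
`OA_zero` (Nullstellensatz): if `f ∈ OA A` vanishes on `A ∩ {p = 0}` then `f ^ N ∈ (p)` in `OA A`: `f = P / Q`, `P`
vanishes on the common zeros of `I`, `p` outside `q = 0`, so `(q P) ^ N = a p + i`.
The restriction `OA A → OA (A ∩ {p = 0})` is surjective: the functions `P / q ^ N` extend.
`OA (A ∩ {p ≠ 0})` is the localization of `OA A` away from `p`: its elements are `P / (q p) ^ N`.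
-/

set_option autoImplicit false

namespace Pool.Agent.MRat

open AlgebraicGeometry CategoryTheory

variable {k : Type} [Field k] {n m : ℕ}

instance (A : Set (Fin n → k)) : _root_.IsReduced (OA A) := by
  refine ⟨fun f hf => ?_⟩
  obtain ⟨N, hN⟩ := hf
  apply Subtype.ext
  funext x
  have h : (f.1 x) ^ N = 0 := by
    have h1 := congrArg (fun u : OA A => u.1 x) hN
    simpa using h1
  exact eq_zero_of_pow_eq_zero h

private theorem SB1_span_zero {I : Set (MvPolynomial (Fin n) k)} {x : Fin n → k}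
    (hx : ∀ p ∈ I, MvPolynomial.eval x p = 0) {g : MvPolynomial (Fin n) k}
    (hg : g ∈ Ideal.span I) : MvPolynomial.eval x g = 0 := by
  have h : Ideal.span I ≤ RingHom.ker (MvPolynomial.eval x) := by
    rw [Ideal.span_le]
    intro p hp
    exact hx p hp
  exact h hg

/-- Evaluation at a point. -/
private noncomputable def SB1_ev (A : Set (Fin n → k)) (x : A) : OA A →ₐ[k] k :=
  (Pi.evalAlgHom k (fun _ : A => k) x).comp (OA A).val

private theorem SB1_ev_apply (A : Set (Fin n → k)) (x : A) (f : OA A) : SB1_ev A x f = f.1 x := rfl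

variable [IsAlgClosed k]

private theorem SB1_null {I : Set (MvPolynomial (Fin n) k)} {f : MvPolynomial (Fin n) k}
    (h : ∀ x : Fin n → k, (∀ p ∈ I, MvPolynomial.eval x p = 0) → MvPolynomial.eval x f = 0) :
    ∃ N : ℕ, f ^ N ∈ Ideal.span I := by
  have h1 : f ∈ MvPolynomial.vanishingIdeal k (MvPolynomial.zeroLocus k (Ideal.span I)) := by
    rw [MvPolynomial.mem_vanishingIdeal_iff]
    intro x hx
    rw [MvPolynomial.mem_zeroLocus_iff] at hx
    have h2 : ∀ p : MvPolynomial (Fin n) k, MvPolynomial.aeval x p = MvPolynomial.eval x p :=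
      fun p => RingHom.congr_fun (MvPolynomial.coe_aeval_eq_eval x) p
    rw [h2]
    refine h x fun p hp => ?_
    rw [← h2]
    exact hx p (Ideal.subset_span hp)
  rw [MvPolynomial.vanishingIdeal_zeroLocus_eq_radical] at h1
  exact h1

theorem OA_piece {I : Set (MvPolynomial (Fin n) k)} {q : MvPolynomial (Fin n) k} {A : Set (Fin n → k)}
    (hA : A = {x | (∀ p ∈ I, MvPolynomial.eval x p = 0) ∧ MvPolynomial.eval x q ≠ 0})
    (f : OA A) : ∃ (P : MvPolynomial (Fin n) k) (N : ℕ), ∀ x : A,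
      f.1 x = MvPolynomial.eval (x : Fin n → k) P / MvPolynomial.eval (x : Fin n → k) q ^ N := by
  obtain ⟨f, P0, Q0, hf⟩ := f
  have h : ∃ N : ℕ, q ^ N ∈ Ideal.span (I ∪ {Q0}) := by
    refine SB1_null fun x hx => ?_
    by_contra hq
    have hxA : x ∈ A := by
      rw [hA]
      exact ⟨fun p hp => hx p (Or.inl hp), hq⟩
    exact (hf ⟨x, hxA⟩).1 (hx Q0 (Or.inr rfl))
  obtain ⟨N, hN⟩ := h
  rw [Ideal.span_union, Submodule.mem_sup] at hN
  obtain ⟨i, hi, b, hb, hib⟩ := hN
  rw [Ideal.mem_span_singleton'] at hb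
  obtain ⟨a, rfl⟩ := hb
  refine ⟨P0 * a, N, fun x => ?_⟩
  have hxA : (x : Fin n → k) ∈ {x | (∀ p ∈ I, MvPolynomial.eval x p = 0) ∧
      MvPolynomial.eval x q ≠ 0} := by
    rw [← hA]
    exact x.2
  have h1 : MvPolynomial.eval (x : Fin n → k) q ^ N =
      MvPolynomial.eval (x : Fin n → k) a * MvPolynomial.eval (x : Fin n → k) Q0 := by
    rw [← map_pow, ← hib, map_add, SB1_span_zero hxA.1 hi, zero_add, map_mul]
  have h2 := (hf x).1
  have h3 : MvPolynomial.eval (x : Fin n → k) q ^ N ≠ 0 := pow_ne_zero _ hxA.2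
  show f x = _
  rw [(hf x).2, div_eq_div_iff h2 h3, h1, map_mul]
  ring

omit [IsAlgClosed k] in
private theorem SB1_poly_mem (A : Set (Fin n → k)) (p : MvPolynomial (Fin n) k) :
    (fun x : A => MvPolynomial.eval (x : Fin n → k) p) ∈ OA A :=
  ⟨p, 1, fun x => ⟨by rw [map_one]; exact one_ne_zero, by rw [map_one, div_one]⟩⟩

omit [IsAlgClosed k] in
private theorem SB1_aeval (A : Set (Fin n → k)) (p : MvPolynomial (Fin n) k) (x : A) :
    (MvPolynomial.aeval (fun i => (⟨_, SB1_poly_mem A (MvPolynomial.X i)⟩ : OA A)) p).1 x =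
      MvPolynomial.eval (x : Fin n → k) p := by
  rw [← SB1_ev_apply, MvPolynomial.comp_aeval_apply]
  have h : (fun i => SB1_ev A x (⟨_, SB1_poly_mem A (MvPolynomial.X i)⟩ : OA A)) =
      (x : Fin n → k) := by
    funext i
    rw [SB1_ev_apply]
    exact MvPolynomial.eval_X i
  rw [h]
  exact RingHom.congr_fun (MvPolynomial.coe_aeval_eq_eval (x : Fin n → k)) p

theorem OA_ft {A : Set (Fin n → k)} (hA : IsPiece k A) : Algebra.FiniteType k (OA A) := by
  obtain ⟨I, q, hA⟩ := hA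
  have hq : ∀ x : A, MvPolynomial.eval (x : Fin n → k) q ≠ 0 := by
    intro x
    have h : (x : Fin n → k) ∈ {x | (∀ p ∈ I, MvPolynomial.eval x p = 0) ∧
      MvPolynomial.eval x q ≠ 0} := by
      rw [← hA]
      exact x.2
    exact h.2
  let u : OA A := ⟨fun x => 1 / MvPolynomial.eval (x : Fin n → k) q, 1, q,
    fun x => ⟨hq x, by rw [map_one]⟩⟩
  let φ : MvPolynomial (Option (Fin n)) k →ₐ[k] OA A :=
    MvPolynomial.aeval (fun o => o.elim u
      (fun i => (⟨_, SB1_poly_mem A (MvPolynomial.X i)⟩ : OA A)))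
  refine Algebra.FiniteType.of_surjective φ ?_
  intro f
  obtain ⟨P, N, hf⟩ := OA_piece hA f
  refine ⟨MvPolynomial.rename some P * MvPolynomial.X none ^ N, ?_⟩
  apply Subtype.ext
  funext x
  rw [map_mul, map_pow]
  show (φ (MvPolynomial.rename some P)).1 x * (φ (MvPolynomial.X none)).1 x ^ N = f.1 x
  have h1 : (φ (MvPolynomial.rename some P)).1 x = MvPolynomial.eval (x : Fin n → k) P := by
    rw [← SB1_aeval A P x]
    show (MvPolynomial.aeval _ (MvPolynomial.rename some P) : OA A).1 x = _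
    rw [MvPolynomial.aeval_rename]
    rfl
  have h2 : (φ (MvPolynomial.X none)).1 x = 1 / MvPolynomial.eval (x : Fin n → k) q := by
    show (MvPolynomial.aeval _ (MvPolynomial.X none) : OA A).1 x = _
    rw [MvPolynomial.aeval_X]
    rfl
  rw [h1, h2, hf x]
  rw [div_pow, one_pow, mul_one_div]

/-- Restriction of functions. -/
noncomputable def OA.res {A B : Set (Fin n → k)} (h : B ⊆ A) : OA A →ₐ[k] OA B where
  toFun f := ⟨fun x => f.1 ⟨x, h x.2⟩, by
    obtain ⟨f, P, Q, hf⟩ := f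
    exact ⟨P, Q, fun x => hf ⟨x, h x.2⟩⟩⟩
  map_one' := rfl
  map_mul' _ _ := rfl
  map_zero' := rfl
  map_add' _ _ := rfl
  commutes' _ := rfl

/-- The polynomial `p` as a function on `A`. -/
noncomputable def OA.of (A : Set (Fin n → k)) (p : MvPolynomial (Fin n) k) : OA A :=
  ⟨fun x => MvPolynomial.eval (x : Fin n → k) p, SB1_poly_mem A p⟩

theorem OA_res_surj {A : Set (Fin n → k)} (hA : IsPiece k A) (p : MvPolynomial (Fin n) k)
    (h : A ∩ {x | MvPolynomial.eval x p = 0} ⊆ A) : Function.Surjective (OA.res h) := by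
  obtain ⟨I, q, hA⟩ := hA
  have hB : A ∩ {x | MvPolynomial.eval x p = 0} =
      {x | (∀ p' ∈ I ∪ {p}, MvPolynomial.eval x p' = 0) ∧ MvPolynomial.eval x q ≠ 0} := by
    ext x
    rw [hA]
    constructor
    · rintro ⟨⟨h1, h2⟩, h3⟩
      refine ⟨?_, h2⟩
      rintro p' (hp | rfl)
      · exact h1 p' hp
      · exact h3
    · rintro ⟨h1, h2⟩
      exact ⟨⟨fun p' hp => h1 p' (Or.inl hp), h2⟩, h1 p (Or.inr rfl)⟩
  intro f
  obtain ⟨P, N, hf⟩ := OA_piece hB f
  have hq : ∀ x : A, MvPolynomial.eval (x : Fin n → k) q ≠ 0 := by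
    intro x
    have h : (x : Fin n → k) ∈ {x | (∀ p ∈ I, MvPolynomial.eval x p = 0) ∧
      MvPolynomial.eval x q ≠ 0} := by
      rw [← hA]
      exact x.2
    exact h.2
  refine ⟨⟨fun x => MvPolynomial.eval (x : Fin n → k) P / MvPolynomial.eval (x : Fin n → k) q ^ N,
    P, q ^ N, fun x => ⟨?_, ?_⟩⟩, ?_⟩
  · rw [map_pow]
    exact pow_ne_zero _ (hq x)
  · rw [map_pow]
  · apply Subtype.ext
    funext x
    exact (hf x).symm

theorem OA_zero {A : Set (Fin n → k)} (hA : IsPiece k A) (p : MvPolynomial (Fin n) k)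
    (h : A ∩ {x | MvPolynomial.eval x p = 0} ⊆ A) (f : OA A) (hf : OA.res h f = 0) :
    f ∈ (Ideal.span {OA.of A p}).radical := by
  obtain ⟨I, q, hA⟩ := hA
  obtain ⟨f, P, Q, hPQ⟩ := f
  have hmem : ∀ x : A, (∀ p ∈ I, MvPolynomial.eval (x : Fin n → k) p = 0) ∧
      MvPolynomial.eval (x : Fin n → k) q ≠ 0 := by
    intro x
    have h : (x : Fin n → k) ∈ {x | (∀ p ∈ I, MvPolynomial.eval x p = 0) ∧
      MvPolynomial.eval x q ≠ 0} := by
      rw [← hA]
      exact x.2
    exact h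
  have h0 : ∃ N : ℕ, (q * P) ^ N ∈ Ideal.span (I ∪ {p}) := by
    refine SB1_null fun x hx => ?_
    rw [map_mul]
    by_cases hq : MvPolynomial.eval x q = 0
    · rw [hq, zero_mul]
    · have hxA : x ∈ A := by
        rw [hA]
        exact ⟨fun p hp => hx p (Or.inl hp), hq⟩
      have hxp : MvPolynomial.eval x p = 0 := hx p (Or.inr rfl)
      have h1 := congrArg (fun u : OA (A ∩ {x | MvPolynomial.eval x p = 0}) => u.1 ⟨x, hxA, hxp⟩) hf
      have h2 : f ⟨x, hxA⟩ = 0 := h1
      rw [(hPQ ⟨x, hxA⟩).2, div_eq_zero_iff] at h2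
      rcases h2 with h2 | h2
      · rw [h2, mul_zero]
      · exact absurd h2 (hPQ ⟨x, hxA⟩).1
  obtain ⟨N, hN⟩ := h0
  rw [Ideal.span_union, Submodule.mem_sup] at hN
  obtain ⟨i, hi, b, hb, hib⟩ := hN
  rw [Ideal.mem_span_singleton'] at hb
  obtain ⟨a, rfl⟩ := hb
  refine ⟨N, ?_⟩
  rw [Ideal.mem_span_singleton']
  refine ⟨⟨fun x => MvPolynomial.eval (x : Fin n → k) a /
    MvPolynomial.eval (x : Fin n → k) ((q * Q) ^ N), a, (q * Q) ^ N, fun x => ⟨?_, rfl⟩⟩, ?_⟩
  · rw [map_pow, map_mul]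
    exact pow_ne_zero _ (mul_ne_zero (hmem x).2 (hPQ x).1)
  · apply Subtype.ext
    funext x
    show MvPolynomial.eval (x : Fin n → k) a / MvPolynomial.eval (x : Fin n → k) ((q * Q) ^ N) *
      MvPolynomial.eval (x : Fin n → k) p = f x ^ N
    have h1 : (MvPolynomial.eval (x : Fin n → k) q * MvPolynomial.eval (x : Fin n → k) P) ^ N =
        MvPolynomial.eval (x : Fin n → k) a * MvPolynomial.eval (x : Fin n → k) p := by
      rw [← map_mul, ← map_pow, ← hib, map_add, SB1_span_zero (hmem x).1 hi, zero_add, map_mul]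
    have h2 := (hPQ x).1
    have h3 := (hmem x).2
    rw [(hPQ x).2, div_mul_eq_mul_div, ← h1, map_pow, map_mul, mul_pow, mul_pow, div_pow,
      mul_div_mul_left _ _ (pow_ne_zero _ h3)]

end Pool.Agent.MRat
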