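import Pool.Agent.Lib.MP_923aff_ag.GITDefs
import Pool.Agent.Lib.MP_923aff_ag.SB1
/-!
# Definitions for the construction of the quotient (not used in the final statement)

`GL2 k` acts on pairs of binary forms; `glFun` is the ring of regular functions on `GL2 k`; `LinRep k n` is a linear
action of `GL2 k` on `k ^ n` whose coefficients are regular functions.
-/

set_option autoImplicit false

namespace Pool.Agent.MRat

open MvPolynomial

theorem mem_invRat {k : Type} [Field k] {d : ℕ} {f : RatSet k d → k} : f ∈ invRat k d ↔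
    f ∈ OA (RatSet k d) ∧ ∀ x y : RatSet k d, RatConj k d x.1 y.1 → f x = f y :=
  Iff.rfl

/-- The group `GL₂(k)`. -/
abbrev GL2 (k : Type) [Field k] : Type := (Matrix (Fin 2) (Fin 2) k)ˣ

/-- The value of the polynomial `p` at the matrix `A`. -/
noncomputable def evM {R : Type} [CommRing R] (A : Matrix (Fin 2) (Fin 2) R)
    (p : MvPolynomial (Fin 2 × Fin 2) R) : R :=
  MvPolynomial.eval (fun ij => A ij.1 ij.2) p

/-- The ring of regular functions on `GL₂(k)`: the functions `p(A) / det(A) ^ m`. -/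
noncomputable def glFun (k : Type) [Field k] : Subalgebra k (GL2 k → k) where
  carrier := {φ | ∃ (p : MvPolynomial (Fin 2 × Fin 2) k) (m : ℕ), ∀ A : GL2 k,
    φ A * A.1.det ^ m = evM A.1 p}
  mul_mem' := by
    rintro f g ⟨p, m, h⟩ ⟨q, n, h'⟩
    refine ⟨p * q, m + n, fun A => ?_⟩
    rw [evM, map_mul, ← evM, ← evM, ← h A, ← h' A, Pi.mul_apply, pow_add]
    ring
  add_mem' := by
    rintro f g ⟨p, m, h⟩ ⟨q, n, h'⟩
    refine ⟨p * (X (0, 0) * X (1, 1) - X (0, 1) * X (1, 0)) ^ n +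
      q * (X (0, 0) * X (1, 1) - X (0, 1) * X (1, 0)) ^ m, m + n, fun A => ?_⟩
    have h1 := h A
    have h2 := h' A
    simp only [evM, map_add, map_mul, map_pow, map_sub, MvPolynomial.eval_X] at h1 h2 ⊢
    rw [← h1, ← h2, Pi.add_apply, Matrix.det_fin_two]
    ring
  algebraMap_mem' := by
    intro r
    refine ⟨C r, 0, fun A => ?_⟩
    rw [evM, MvPolynomial.eval_C, pow_zero, mul_one]
    rfl

/-- A linear action of `GL₂(k)` on `k ^ n` with matrix entries in `glFun k`. -/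
structure LinRep (k : Type) [Field k] (n : ℕ) where
  c : Fin n → Fin n → glFun k
  one : ∀ (x : Fin n → k) (i : Fin n), ∑ j, (c i j).1 1 * x j = x i
  mul : ∀ (A B : GL2 k) (x : Fin n → k) (i : Fin n),
    ∑ j, (c i j).1 (A * B) * x j = ∑ j, (c i j).1 A * ∑ l, (c j l).1 B * x l

/-- The action. -/
noncomputable def LinRep.act {k : Type} [Field k] {n : ℕ} (ρ : LinRep k n) (A : GL2 k)
    (x : Fin n → k) : Fin n → k :=
  fun i => ∑ j, (ρ.c i j).1 A * x j

/-- The invariant polynomials. -/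
noncomputable def invPoly {k : Type} [Field k] {n : ℕ} (ρ : LinRep k n) :
    Subalgebra k (MvPolynomial (Fin n) k) where
  carrier := {P | ∀ (A : GL2 k) (x : Fin n → k), eval (ρ.act A x) P = eval x P}
  mul_mem' := by
    intro P Q h h' A x
    rw [map_mul, map_mul, h A x, h' A x]
  add_mem' := by
    intro P Q h h' A x
    rw [map_add, map_add, h A x, h' A x]
  algebraMap_mem' := by
    intro r A x
    rw [MvPolynomial.algebraMap_eq, MvPolynomial.eval_C, MvPolynomial.eval_C]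

/-- The invariant polynomial functions on the set `Z`. -/
noncomputable def invOn {k : Type} [Field k] {n : ℕ} (ρ : LinRep k n) (Z : Set (Fin n → k)) :
    Subalgebra k (Z → k) where
  carrier := {f | (∃ P : MvPolynomial (Fin n) k, ∀ x : Z, f x = eval x.1 P) ∧
    ∀ x y : Z, (∃ A : GL2 k, y.1 = ρ.act A x.1) → f x = f y}
  mul_mem' := by
    rintro f g ⟨⟨P, hP⟩, h⟩ ⟨⟨Q, hQ⟩, h'⟩
    refine ⟨⟨P * Q, fun x => ?_⟩, fun x y hxy => ?_⟩
    · rw [map_mul, Pi.mul_apply, hP x, hQ x]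
    · rw [Pi.mul_apply, Pi.mul_apply, h x y hxy, h' x y hxy]
  add_mem' := by
    rintro f g ⟨⟨P, hP⟩, h⟩ ⟨⟨Q, hQ⟩, h'⟩
    refine ⟨⟨P + Q, fun x => ?_⟩, fun x y hxy => ?_⟩
    · rw [map_add, Pi.add_apply, hP x, hQ x]
    · rw [Pi.add_apply, Pi.add_apply, h x y hxy, h' x y hxy]
  algebraMap_mem' := by
    intro r
    refine ⟨⟨C r, fun x => ?_⟩, fun x y _ => rfl⟩
    rw [MvPolynomial.eval_C]
    rfl

/-- `pairMap` over a commutative ring. -/
def pm (R : Type) [CommRing R] (d : ℕ) (x : Fin ((d + 1) + (d + 1)) → R) (v : Fin 2 → R) :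
    Fin 2 → R :=
  ![∑ i : Fin (d + 1), x (Fin.castAdd (d + 1) i) * v 0 ^ (i : ℕ) * v 1 ^ (d - (i : ℕ)),
    ∑ i : Fin (d + 1), x (Fin.natAdd (d + 1) i) * v 0 ^ (i : ℕ) * v 1 ^ (d - (i : ℕ))]

/-- The coefficient of `X^j Y^(d-j)` in `(B₀₀ X + B₀₁ Y)^i (B₁₀ X + B₁₁ Y)^(d-i)`. -/
noncomputable def subCoef (R : Type) [CommRing R] (d : ℕ) (B : Matrix (Fin 2) (Fin 2) R)
    (i j : ℕ) : R :=
  ((Polynomial.C (B 0 0) * Polynomial.X + Polynomial.C (B 0 1)) ^ i *
    (Polynomial.C (B 1 0) * Polynomial.X + Polynomial.C (B 1 1)) ^ (d - i)).coeff j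

/-- The action of matrices on pairs of binary forms: `(A · F)(v) = A F(adj(A) v)`. -/
noncomputable def act (R : Type) [CommRing R] (d : ℕ) (A : Matrix (Fin 2) (Fin 2) R)
    (x : Fin ((d + 1) + (d + 1)) → R) : Fin ((d + 1) + (d + 1)) → R :=
  Fin.append
    (fun j : Fin (d + 1) =>
      A 0 0 * ∑ i : Fin (d + 1), x (Fin.castAdd (d + 1) i) * subCoef R d A.adjugate i j +
      A 0 1 * ∑ i : Fin (d + 1), x (Fin.natAdd (d + 1) i) * subCoef R d A.adjugate i j)
    (fun j : Fin (d + 1) =>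
      A 1 0 * ∑ i : Fin (d + 1), x (Fin.castAdd (d + 1) i) * subCoef R d A.adjugate i j +
      A 1 1 * ∑ i : Fin (d + 1), x (Fin.natAdd (d + 1) i) * subCoef R d A.adjugate i j)

end Pool.Agent.MRat
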