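import Pool.Agent.Lib.MP_923aff_ag.GITV
/-!
# JOB GITC: the orbits are closed in `RatSet` (uses GITA1, GITA2, GITV)

PROOF. `S := MvPolynomial (Fin 2 × Fin 2) k`, `K := FractionRing S`, `𝔸` the generic matrix over `K` (entries `X (i, j)`);
`R := MvPolynomial (Fin ((d+1)+(d+1))) k`; `φ : R →ₐ K`, `X i ↦ act K d 𝔸 (constants f) i`. Let `p` be the maximal ideal of the
polynomials in `R` vanishing at `g`. If `φ P = 0` then `P` vanishes at all `act k d A f` (`φ P` is the image of the polynomial
`aeval (act S d generic f) P` of `S`, `S → K` is injective, then evaluate at `A`, `act_map`), so `P` is in `p` by `h`. Hence `φ` maps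
the complement of `p` to units and extends to the local ring `Localization.AtPrime p → K` (`IsLocalization.lift`). By
`IsLocalRing.exists_factor_valuationRing` there is a valuation subring `O` of `K` with `φ P ∈ O` for all `P` in `R`, and
`φ P` is a unit of `O` iff `P` is not in `p`. Let `κ` be the residue field of `O`, `ι : k → κ` the composite `k → R → O → κ`.
`x i := φ (C (f i))`, `y i := φ (X i)` in `O`. `act K d 𝔸 x = y` by definition; the residue of `x` is `ι ∘ f`, the residue of `y` is
`ι ∘ g` (`X i - C (g i)` is in `p`). By `fieldExt` both residues have no common zero. `val_lemma`: `𝔸` comes from `A'` in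
`GL₂(O)`; its residue `Ā` satisfies `act κ d Ā (ι ∘ f) = ι ∘ g` (`act_map`), `det Ā ≠ 0`. Nullstellensatz: the ideal of
`MvPolynomial (Option (Fin 2 × Fin 2)) k` generated by `X none * det - 1` and `act d (generic) (C ∘ f) i - C (g i)` has a zero in
the extension `κ`, so it is not `⊤`, so it has a zero in `k` (`MvPolynomial.isMaximal_iff_eq_vanishingIdeal_singleton`).
(`act_map` is used to move the polynomial identities to `κ` and to `k`.)
-/

set_option autoImplicit false

namespace Pool.Agent.MRat

open MvPolynomial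

/-- Nullstellensatz: if `f` and `g` are in the same orbit over an extension field then they are in
the same orbit over `k`. -/
theorem gitc_null {k : Type} [Field k] [IsAlgClosed k] {κ : Type} [Field κ] (ι : k →+* κ) (d : ℕ)
    (f g : Fin ((d + 1) + (d + 1)) → k) (B : Matrix (Fin 2) (Fin 2) κ) (hB : B.det ≠ 0)
    (hfg : act κ d B (fun i => ι (f i)) = fun i => ι (g i)) :
    ∃ A : GL2 k, g = act k d A.1 f := by
  classical
  set gen : Matrix (Fin 2) (Fin 2) (MvPolynomial (Option (Fin 2 × Fin 2)) k) :=
    Matrix.of fun i j => X (some (i, j)) with hgen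
  set I : Ideal (MvPolynomial (Option (Fin 2 × Fin 2)) k) := Ideal.span
    ({X none * gen.det - 1} ∪ Set.range fun i =>
      act (MvPolynomial (Option (Fin 2 × Fin 2)) k) d gen (fun j => C (f j)) i - C (g i)) with hI
  set ev : MvPolynomial (Option (Fin 2 × Fin 2)) k →+* κ :=
    eval₂Hom ι (fun o => o.elim (B.det)⁻¹ (fun ij => B ij.1 ij.2)) with hev
  have hevC : ∀ a : k, ev (C a) = ι a := fun a => by rw [hev, eval₂Hom_C]
  have hevX : ∀ o, ev (X o) = o.elim (B.det)⁻¹ (fun ij => B ij.1 ij.2) := fun o => by
    rw [hev, eval₂Hom_X']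
  have hgenmap : gen.map ev = B := by
    ext i j
    rw [Matrix.map_apply, hgen, Matrix.of_apply, hevX]
    rfl
  have hle : I ≤ RingHom.ker ev := by
    rw [hI, Ideal.span_le]
    rintro P (hP | ⟨i, rfl⟩)
    · rw [Set.mem_singleton_iff] at hP
      subst hP
      rw [SetLike.mem_coe, RingHom.mem_ker, map_sub, map_mul, map_one, hevX, RingHom.map_det]
      change B.det⁻¹ * (gen.map ev).det - 1 = 0
      rw [hgenmap, inv_mul_cancel₀ hB, sub_self]
    · rw [SetLike.mem_coe, RingHom.mem_ker, map_sub, hevC]
      have h1 := congrFun (act_map ev d gen (fun j => C (f j))) i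
      simp only [hevC] at h1
      rw [h1, hgenmap, hfg, sub_self]
  have hne : I ≠ ⊤ := by
    intro h
    have h1 : (1 : MvPolynomial (Option (Fin 2 × Fin 2)) k) ∈ RingHom.ker ev := hle (h ▸ trivial)
    rw [RingHom.mem_ker, map_one] at h1
    exact one_ne_zero h1
  obtain ⟨M, hM, hIM⟩ := Ideal.exists_le_maximal I hne
  obtain ⟨z, hz⟩ := (isMaximal_iff_eq_vanishingIdeal_singleton (K := k)).1 hM
  have hzero : ∀ P ∈ I, aeval z P = 0 := fun P hP => by
    have h1 := hIM hP
    rw [hz, mem_vanishingIdeal_singleton_iff] at h1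
    exact h1
  set A : Matrix (Fin 2) (Fin 2) k := Matrix.of fun i j => z (some (i, j)) with hA
  set ez : MvPolynomial (Option (Fin 2 × Fin 2)) k →+* k :=
    (aeval z : MvPolynomial (Option (Fin 2 × Fin 2)) k →ₐ[k] k).toRingHom with hez
  have hezC : ∀ a : k, ez (C a) = a := fun a => by
    rw [hez]
    exact aeval_C z a
  have hezX : ∀ o, ez (X o) = z o := fun o => by
    rw [hez]
    exact aeval_X z o
  have hAmap : gen.map ez = A := by
    ext i j
    rw [Matrix.map_apply, hgen, Matrix.of_apply, hezX]
    rfl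
  have hdet : z none * A.det = 1 := by
    have h1 := hzero (X none * gen.det - 1) (Ideal.subset_span (Or.inl rfl))
    have h2 : ez (X none * gen.det - 1) = 0 := h1
    rw [map_sub, map_mul, map_one, hezX, RingHom.map_det] at h2
    change z none * (gen.map ez).det - 1 = 0 at h2
    rw [hAmap] at h2
    exact sub_eq_zero.1 h2
  have hunit : IsUnit A := by
    rw [Matrix.isUnit_iff_isUnit_det]
    exact IsUnit.of_mul_eq_one (z none) (by rw [mul_comm]; exact hdet)
  obtain ⟨A', hA'⟩ := hunit
  refine ⟨A', ?_⟩
  funext i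
  have h1 := hzero _ (Ideal.subset_span (Or.inr ⟨i, rfl⟩))
  have h2 : ez (act (MvPolynomial (Option (Fin 2 × Fin 2)) k) d gen (fun j => C (f j)) i -
    C (g i)) = 0 := h1
  rw [map_sub, hezC] at h2
  have h3 := congrFun (act_map ez d gen (fun j => C (f j))) i
  simp only [hezC] at h3
  rw [h3, hAmap] at h2
  rw [hA']
  exact (sub_eq_zero.1 h2).symm

theorem orbit_closed {k : Type} [Field k] [IsAlgClosed k] (d : ℕ) (hd : 2 ≤ d)
    (f g : Fin ((d + 1) + (d + 1)) → k) (hf : f ∈ RatSet k d) (hg : g ∈ RatSet k d)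
    (h : ∀ P : MvPolynomial (Fin ((d + 1) + (d + 1))) k,
      (∀ A : GL2 k, eval (act k d A.1 f) P = 0) → eval g P = 0) :
    ∃ A : GL2 k, g = act k d A.1 f := by
  classical
  -- the generic matrix and the orbit map
  set gen : Matrix (Fin 2) (Fin 2) (MvPolynomial (Fin 2 × Fin 2) k) :=
    Matrix.of fun i j => X (i, j) with hgen
  set φS : MvPolynomial (Fin ((d + 1) + (d + 1))) k →+* MvPolynomial (Fin 2 × Fin 2) k :=
    eval₂Hom C (act (MvPolynomial (Fin 2 × Fin 2) k) d gen (fun j => C (f j))) with hφS
  have hφSC : ∀ a : k, φS (C a) = C a := fun a => by rw [hφS, eval₂Hom_C]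
  have hφSX : ∀ i, φS (X i) =
      act (MvPolynomial (Fin 2 × Fin 2) k) d gen (fun j => C (f j)) i := fun i => by
    rw [hφS, eval₂Hom_X']
  have heval : ∀ (A : Matrix (Fin 2) (Fin 2) k) (P : MvPolynomial (Fin ((d + 1) + (d + 1))) k),
      eval (fun ij : Fin 2 × Fin 2 => A ij.1 ij.2) (φS P) = eval (act k d A f) P := by
    intro A P
    have hgm : gen.map (eval (fun ij : Fin 2 × Fin 2 => A ij.1 ij.2)) = A := by
      ext i j
      rw [Matrix.map_apply, hgen, Matrix.of_apply, eval_X]
    have h1 : (eval (fun ij : Fin 2 × Fin 2 => A ij.1 ij.2)).comp φS = eval (act k d A f) := by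
      refine MvPolynomial.ringHom_ext (fun a => ?_) (fun i => ?_)
      · rw [RingHom.comp_apply, hφSC, eval_C, eval_C]
      · rw [RingHom.comp_apply, hφSX, eval_X]
        have h2 := congrFun (act_map (eval (fun ij : Fin 2 × Fin 2 => A ij.1 ij.2)) d gen
          (fun j => C (f j))) i
        simp only [eval_C] at h2
        rw [h2, hgm]
    exact RingHom.congr_fun h1 P
  -- the field `K`
  set K := FractionRing (MvPolynomial (Fin 2 × Fin 2) k) with hK
  set φ : MvPolynomial (Fin ((d + 1) + (d + 1))) k →+* K :=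
    (algebraMap (MvPolynomial (Fin 2 × Fin 2) k) K).comp φS with hφ
  have hinj : Function.Injective (algebraMap (MvPolynomial (Fin 2 × Fin 2) k) K) :=
    IsFractionRing.injective _ _
  have hker : ∀ P, φ P = 0 → eval g P = 0 := by
    intro P hP
    have h1 : φS P = 0 := by
      apply hinj
      rw [map_zero]
      exact hP
    refine h P fun A => ?_
    rw [← heval, h1, map_zero]
  set p : Ideal (MvPolynomial (Fin ((d + 1) + (d + 1))) k) := RingHom.ker (eval g) with hp
  have : p.IsPrime := RingHom.ker_isPrime _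
  have hunit : ∀ y : p.primeCompl, IsUnit (φ y) := by
    intro y
    rw [isUnit_iff_ne_zero]
    intro h0
    exact y.2 (hker _ h0)
  set ψ : Localization.AtPrime p →+* K := IsLocalization.lift hunit with hψ
  have hψφ : ∀ P, ψ (algebraMap _ _ P) = φ P := fun P => IsLocalization.lift_eq hunit P
  obtain ⟨O, hO, hloc⟩ := IsLocalRing.exists_factor_valuationRing ψ
  set ψO : Localization.AtPrime p →+* O := ψ.codRestrict O.toSubring hO with hψO
  have : IsLocalHom ψO := hloc
  set φO : MvPolynomial (Fin ((d + 1) + (d + 1))) k →+* O :=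
    ψO.comp (algebraMap _ (Localization.AtPrime p)) with hφO
  have hφOφ : ∀ P, ((φO P : O) : K) = φ P := fun P => hψφ P
  have hres : ∀ P ∈ p, IsLocalRing.residue O (φO P) = 0 := by
    intro P hP
    rw [IsLocalRing.residue_eq_zero_iff, IsLocalRing.mem_maximalIdeal, mem_nonunits_iff]
    intro hu
    have h1 : IsUnit (algebraMap _ (Localization.AtPrime p) P) := isUnit_of_map_unit ψO _ hu
    have h2 := (IsLocalization.AtPrime.isUnit_to_map_iff (Localization.AtPrime p) p P).1 h1
    exact h2 hP
  set ι : k →+* IsLocalRing.ResidueField O :=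
    ((IsLocalRing.residue O).comp φO).comp C with hι
  set x : Fin ((d + 1) + (d + 1)) → O := fun i => φO (C (f i)) with hx
  set y : Fin ((d + 1) + (d + 1)) → O := fun i => φO (X i) with hy
  have hxres : ∀ i, IsLocalRing.residue O (x i) = ι (f i) := fun i => rfl
  have hyres : ∀ i, IsLocalRing.residue O (y i) = ι (g i) := by
    intro i
    have h1 : (X i - C (g i) : MvPolynomial (Fin ((d + 1) + (d + 1))) k) ∈ p := by
      rw [hp, RingHom.mem_ker, map_sub, eval_X, eval_C, sub_self]
    have h2 := hres _ h1
    rw [map_sub, map_sub] at h2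
    exact sub_eq_zero.1 h2
  set 𝔸 : Matrix (Fin 2) (Fin 2) K :=
    gen.map (algebraMap (MvPolynomial (Fin 2 × Fin 2) k) K) with h𝔸
  have hxy : act K d 𝔸 (fun i => (x i : K)) = fun i => (y i : K) := by
    funext i
    have h1 := congrFun (act_map (algebraMap (MvPolynomial (Fin 2 × Fin 2) k) K) d gen
      (fun j => C (f j))) i
    have h2 : (fun i => (x i : K)) = fun i =>
        algebraMap (MvPolynomial (Fin 2 × Fin 2) k) K (C (f i)) := by
      funext j
      rw [hx]
      change ((φO (C (f j)) : O) : K) = _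
      rw [hφOφ, hφ, RingHom.comp_apply, hφSC]
    rw [h2, h𝔸]
    rw [← h1]
    change _ = ((φO (X i) : O) : K)
    rw [hφOφ, hφ, RingHom.comp_apply, hφSX]
  have hdet : 𝔸.det ≠ 0 := by
    intro h0
    have h1 : (algebraMap (MvPolynomial (Fin 2 × Fin 2) k) K) gen.det = 0 := by
      rw [RingHom.map_det]
      exact h0
    have h2 : gen.det = 0 := by
      apply hinj
      rw [h1, map_zero]
    have h3 := congrArg (eval fun ij : Fin 2 × Fin 2 => (1 : Matrix (Fin 2) (Fin 2) k) ij.1 ij.2) h2
    rw [Matrix.det_fin_two] at h3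
    simp [hgen] at h3
  obtain ⟨A', hA', hAu⟩ := val_lemma K O d hd 𝔸 hdet x y hxy
    (fun v hv => by
      have := fieldExt ι d f hf v hv
      simpa only [hxres] using this)
    (fun v hv => by
      have := fieldExt ι d g hg v hv
      simpa only [hyres] using this)
  have hO1 : act O d A' x = y := by
    funext i
    apply Subtype.ext
    have h1 := congrFun (act_map (O.subtype) d A' x) i
    have h2 : A'.map (O.subtype) = 𝔸 := by
      rw [hA']
      rfl
    rw [h2] at h1
    have h3 := congrFun hxy i
    exact h1.trans h3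
  refine gitc_null ι d f g (A'.map (IsLocalRing.residue O)) ?_ ?_
  · have h1 := (hAu.map (IsLocalRing.residue O)).ne_zero
    rw [RingHom.map_det] at h1
    exact h1
  · have h1 := act_map (IsLocalRing.residue O) d A' x
    rw [hO1] at h1
    simp only [hxres, hyres] at h1
    exact h1.symm

end Pool.Agent.MRat
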