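import Pool.Agent.Lib.MP_923aff_ag.SchDefs
import Pool.Agent.Lib.MP_923aff_ag.OADefs
/-!
# The moduli space as the spectrum of the ring of invariants, and orbit maps

Definitions for the main theorem.
-/

set_option autoImplicit false

namespace Pool.Agent.MRat

open AlgebraicGeometry CategoryTheory

theorem reduced_sub {k X : Type} [Field k] (S : Subalgebra k (X → k)) : _root_.IsReduced S := by
  refine ⟨fun f hf => ?_⟩
  obtain ⟨n, hn⟩ := hf
  refine Subtype.ext (funext fun x => ?_)
  have h : (f.1 x) ^ n = 0 := congrFun (congrArg Subtype.val hn) x
  exact IsReduced.eq_zero _ ⟨n, h⟩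

/-- The affine variety whose coordinate ring is the finitely generated algebra `S` of functions. -/
noncomputable def specSub {k X : Type} [Field k] (S : Subalgebra k (X → k))
    (h : Algebra.FiniteType k S) : Var k :=
  @Var.ofAlg k _ S _ _ h (reduced_sub S)

/-- The ring of regular functions on the cone over the space of rational maps of degree `d` which are constant on
the conjugacy classes: the ring of invariants `k[Rat_d]^(PGL₂)`. -/
noncomputable def invRat (k : Type) [Field k] (d : ℕ) : Subalgebra k (RatSet k d → k) :=
  invFun (RatSet k d) (RatConj k d)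

/-- The moduli space `M_d^1` of rational maps of degree `d`: the affine variety `Spec k[Rat_d]^(PGL₂)`. -/
noncomputable def modSpace (k : Type) [Field k] (d : ℕ) (h : Algebra.FiniteType k (invRat k d)) :
    Var k :=
  specSub (invRat k d) h

/-- For an open subscheme `W` of affine space and a relation `r` on the `k`-points: the morphism `π : W → M` is over `k`,
every closed point of `M` is the image of a `k`-point, and two `k`-points have the same image iff they are related by
`r`. -/
def IsOrbitMap {k : Type} [Field k] {n : ℕ} (W : (Var.aff k n).X.Opens)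
    (r : (Fin n → k) → (Fin n → k) → Prop) (M : Var k) (π : W.toScheme ⟶ M.X) : Prop :=
  π ≫ M.str = W.ι ≫ (Var.aff k n).str ∧
  (∀ m : M.X, IsClosed {m} → ∃ (u : W.toScheme) (x : Fin n → k), W.ι u = ptA k x ∧ π u = m) ∧
  ∀ (u v : W.toScheme) (x y : Fin n → k), W.ι u = ptA k x → W.ι v = ptA k y → (π u = π v ↔ r x y)

end Pool.Agent.MRat
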