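import Pool.Agent.Lib.MP_923aff_ag.GITA2
/-!
# JOB GITE: the resultant hypersurface and its equation (uses GITA1, GITA2)

PROOF. (1) `exists_res0`: `res₀` is Mathlib's `Polynomial.resultant F₀ F₁ d d` for the generic polynomials
`F₀ = ∑ X_(0,i) T^i`, `F₁ = ∑ X_(1,i) T^i` over `MvPolynomial _ k` (`resultant_map_map` for the evaluation). For `x` over `k` with both
coefficients of index `d` zero it vanishes (`resultant_eq_zero_of_lt_lt`; `d ≥ 1`) and `(1, 0)` is a common zero; otherwise
(`natDegree = d` for one of them, `resultant_add_left_deg`, `resultant_add_right_deg`, `resultant_comm`) it is a nonzero multiple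
of `resultant F₀ F₁` with the natural degrees, nonzero iff coprime (`resultant_eq_zero_iff`) iff no common root in `k`.
(Or any other proof: e.g. `exists_mul_add_mul_eq_C_resultant` for one direction.)
(2) `exists_res`: let `res` be the product of the distinct prime factors of `res₀` (`UniqueFactorizationMonoid.radical`), so
`res` has the same zeros and the ideal `(res)` is radical, so by the Nullstellensatz
(`MvPolynomial.vanishingIdeal_zeroLocus_eq_radical`) every polynomial vanishing at all zeros of `res` is divisible by `res`.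
For `A` in `GL2 k` let `P` be the polynomial `res (act A x)` (`aeval` with the linear forms `∑ j, C (act k d A (Pi.single j 1) i) * X j`,
`act_single`); `totalDegree P ≤ totalDegree res` (linear forms), and `P` vanishes at all zeros of `res` (`act_mem`). So
`P = h * res`, `totalDegree h = 0` (`MvPolynomial.totalDegree_mul_of_isDomain`, if `P ≠ 0`), `h` is a constant.
-/

set_option autoImplicit false

namespace Pool.Agent.MRat

open MvPolynomial

theorem GITE_res_iff {k : Type} [Field k] [IsAlgClosed k] (d : ℕ) (hd : 1 ≤ d)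
    (f g : Polynomial k) (hf : f.natDegree ≤ d) (hg : g.natDegree ≤ d) :
    Polynomial.resultant f g d d ≠ 0 ↔
      (∀ t : k, f.eval t ≠ 0 ∨ g.eval t ≠ 0) ∧ (f.coeff d ≠ 0 ∨ g.coeff d ≠ 0) := by
  have key : ∀ f g : Polynomial k, f.natDegree ≤ d → g.natDegree ≤ d → f.coeff d ≠ 0 →
      (Polynomial.resultant f g d d ≠ 0 ↔ ∀ t : k, f.eval t ≠ 0 ∨ g.eval t ≠ 0) := by
    intro f g hf hg h1
    have h2 : f.natDegree = d := le_antisymm hf (Polynomial.le_natDegree_of_ne_zero h1)
    have h3 : f ≠ 0 := by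
      rintro rfl
      simp at h1
    obtain ⟨n, hn⟩ := Nat.exists_eq_add_of_le hg
    have h4 := Polynomial.resultant_add_right_deg f g d g.natDegree n le_rfl
    rw [← hn] at h4
    rw [h4]
    have h5 : Polynomial.resultant f g d g.natDegree = Polynomial.resultant f g := by
      rw [h2]
    rw [h5]
    have h6 := Polynomial.isCoprime_iff_aeval_ne_zero_of_isAlgClosed k k f g
    simp only [Polynomial.coe_aeval_eq_eval] at h6
    rw [← h6]
    have h7 := Polynomial.resultant_eq_zero_iff (f := f) (g := g)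
    constructor
    · intro h8
      by_contra h9
      exact h8 (by rw [h7.2 ⟨Or.inl h3, h9⟩, mul_zero])
    · intro h8
      exact mul_ne_zero (pow_ne_zero _ h1) fun h9 => (h7.1 h9).2 h8
  by_cases h1 : f.coeff d = 0
  · by_cases h2 : g.coeff d = 0
    · have h3 : ∀ f : Polynomial k, f.natDegree ≤ d → f.coeff d = 0 → f.natDegree < d := by
        intro f hf h
        rcases Nat.lt_or_ge f.natDegree d with h4 | h4
        · exact h4
        · exfalso
          have h5 : f.natDegree = d := le_antisymm hf h4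
          have h6 : f = 0 := by
            rw [← Polynomial.leadingCoeff_eq_zero, Polynomial.leadingCoeff, h5, h]
          rw [h6, Polynomial.natDegree_zero] at h5
          omega
      have h4 := Polynomial.resultant_eq_zero_of_lt_lt f g d d (h3 f hf h1) (h3 g hg h2)
      simp [h4, h1, h2]
    · rw [Polynomial.resultant_comm]
      have h3 := key g f hg hf h2
      have h4 : ((-1 : k) ^ (d * d) * Polynomial.resultant g f d d ≠ 0) ↔
          Polynomial.resultant g f d d ≠ 0 := by
        rw [mul_ne_zero_iff]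
        exact and_iff_right (pow_ne_zero _ (neg_ne_zero.2 one_ne_zero))
      rw [h4, h3]
      constructor
      · intro h5
        exact ⟨fun t => (h5 t).symm, Or.inr h2⟩
      · intro h5 t
        exact (h5.1 t).symm
  · rw [key f g hf hg h1]
    constructor
    · intro h5
      exact ⟨h5, Or.inl h1⟩
    · exact fun h5 => h5.1

/-- the dehomogenized form -/
noncomputable def GITE_F {R : Type} [CommRing R] (d : ℕ) (a : Fin (d + 1) → R) : Polynomial R :=
  ∑ i : Fin (d + 1), Polynomial.C (a i) * Polynomial.X ^ (i : ℕ)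

theorem GITE_F_deg {R : Type} [CommRing R] (d : ℕ) (a : Fin (d + 1) → R) :
    (GITE_F d a).natDegree ≤ d := by
  apply Polynomial.natDegree_sum_le_of_forall_le
  intro i _
  exact (Polynomial.natDegree_C_mul_X_pow_le _ _).trans (Nat.lt_succ_iff.1 i.2)

theorem GITE_F_coeff {R : Type} [CommRing R] (d : ℕ) (a : Fin (d + 1) → R) :
    (GITE_F d a).coeff d = a (Fin.last d) := by
  unfold GITE_F
  rw [Polynomial.finsetSum_coeff, Finset.sum_eq_single (Fin.last d)]
  · rw [Polynomial.coeff_C_mul_X_pow, Fin.val_last, if_pos rfl]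
  · intro i _ hi
    rw [Polynomial.coeff_C_mul_X_pow, if_neg]
    intro h
    exact hi (Fin.ext h.symm)
  · simp

theorem GITE_F_map {R S : Type} [CommRing R] [CommRing S] (φ : R →+* S) (d : ℕ)
    (a : Fin (d + 1) → R) : (GITE_F d a).map φ = GITE_F d (fun i => φ (a i)) := by
  unfold GITE_F
  rw [Polynomial.map_sum]
  apply Finset.sum_congr rfl
  intro i _
  rw [Polynomial.map_mul, Polynomial.map_pow, Polynomial.map_C, Polynomial.map_X]

theorem GITE_F_eval {k : Type} [Field k] (d : ℕ) (a : Fin (d + 1) → k) (u v : k) (hv : v ≠ 0) :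
    ∑ i : Fin (d + 1), a i * u ^ (i : ℕ) * v ^ (d - (i : ℕ)) =
      v ^ d * (GITE_F d a).eval (u / v) := by
  unfold GITE_F
  rw [Polynomial.eval_finsetSum, Finset.mul_sum]
  apply Finset.sum_congr rfl
  intro i _
  rw [Polynomial.eval_mul, Polynomial.eval_C, Polynomial.eval_pow, Polynomial.eval_X]
  have h1 : v ^ d = v ^ (d - (i : ℕ)) * v ^ (i : ℕ) := by
    rw [← pow_add, Nat.sub_add_cancel (Nat.lt_succ_iff.1 i.2)]
  rw [h1, div_pow]
  field_simp

theorem GITE_F_inf {k : Type} [Field k] (d : ℕ) (a : Fin (d + 1) → k) (u : k) :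
    ∑ i : Fin (d + 1), a i * u ^ (i : ℕ) * (0 : k) ^ (d - (i : ℕ)) = a (Fin.last d) * u ^ d := by
  rw [Finset.sum_eq_single (Fin.last d)]
  · simp
  · intro i _ hi
    have h1 : (i : ℕ) ≠ d := fun h => hi (Fin.ext h)
    have h2 := i.2
    rw [zero_pow (by omega), mul_zero]
  · simp

theorem GITE_mem {k : Type} [Field k] (d : ℕ) (x : Fin ((d + 1) + (d + 1)) → k) :
    x ∈ RatSet k d ↔
      (∀ t : k, (GITE_F d fun i => x (Fin.castAdd (d + 1) i)).eval t ≠ 0 ∨
        (GITE_F d fun i => x (Fin.natAdd (d + 1) i)).eval t ≠ 0) ∧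
      ((GITE_F d fun i => x (Fin.castAdd (d + 1) i)).coeff d ≠ 0 ∨
        (GITE_F d fun i => x (Fin.natAdd (d + 1) i)).coeff d ≠ 0) := by
  have hp : ∀ v : Fin 2 → k, pairMap k d x v = 0 ↔
      (∑ i : Fin (d + 1), x (Fin.castAdd (d + 1) i) * v 0 ^ (i : ℕ) * v 1 ^ (d - (i : ℕ)) = 0 ∧
      ∑ i : Fin (d + 1), x (Fin.natAdd (d + 1) i) * v 0 ^ (i : ℕ) * v 1 ^ (d - (i : ℕ)) = 0) := by
    intro v
    unfold pairMap
    constructor
    · intro h
      exact ⟨congrFun h 0, congrFun h 1⟩
    · rintro ⟨h1, h2⟩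
      funext j
      fin_cases j
      · exact h1
      · exact h2
  constructor
  · intro hx
    refine ⟨fun t => ?_, ?_⟩
    · by_contra hcon
      push Not at hcon
      apply hx ![t, 1]
      · intro h
        exact one_ne_zero (congrFun h 1)
      · rw [hp]
        have h1 := GITE_F_eval d (fun i => x (Fin.castAdd (d + 1) i)) t 1 one_ne_zero
        have h2 := GITE_F_eval d (fun i => x (Fin.natAdd (d + 1) i)) t 1 one_ne_zero
        rw [div_one] at h1 h2
        rw [hcon.1, mul_zero] at h1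
        rw [hcon.2, mul_zero] at h2
        exact ⟨h1, h2⟩
    · by_contra hcon
      push Not at hcon
      rw [GITE_F_coeff, GITE_F_coeff] at hcon
      apply hx ![1, 0]
      · intro h
        exact one_ne_zero (congrFun h 0)
      · rw [hp]
        have h1 := GITE_F_inf d (fun i => x (Fin.castAdd (d + 1) i)) 1
        have h2 := GITE_F_inf d (fun i => x (Fin.natAdd (d + 1) i)) 1
        rw [hcon.1, zero_mul] at h1
        rw [hcon.2, zero_mul] at h2
        exact ⟨h1, h2⟩
  · rintro ⟨h1, h2⟩ v hv h3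
    rw [hp] at h3
    by_cases hv1 : v 1 = 0
    · rw [hv1, GITE_F_inf d (fun i => x (Fin.castAdd (d + 1) i)),
        GITE_F_inf d (fun i => x (Fin.natAdd (d + 1) i))] at h3
      have hv0 : v 0 ≠ 0 := by
        intro h
        apply hv
        funext j
        fin_cases j
        · exact h
        · exact hv1
      rw [GITE_F_coeff, GITE_F_coeff] at h2
      rcases h2 with h2 | h2
      · exact mul_ne_zero h2 (pow_ne_zero _ hv0) h3.1
      · exact mul_ne_zero h2 (pow_ne_zero _ hv0) h3.2
    · rw [GITE_F_eval d (fun i => x (Fin.castAdd (d + 1) i)) _ _ hv1,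
        GITE_F_eval d (fun i => x (Fin.natAdd (d + 1) i)) _ _ hv1] at h3
      rcases h1 (v 0 / v 1) with h4 | h4
      · exact mul_ne_zero (pow_ne_zero _ hv1) h4 h3.1
      · exact mul_ne_zero (pow_ne_zero _ hv1) h4 h3.2

theorem exists_res0 {k : Type} [Field k] [IsAlgClosed k] (d : ℕ) (hd : 1 ≤ d) :
    ∃ res : MvPolynomial (Fin ((d + 1) + (d + 1))) k, ∀ x, eval x res ≠ 0 ↔ x ∈ RatSet k d := by
  refine ⟨Polynomial.resultant
    (GITE_F d fun i => (X (Fin.castAdd (d + 1) i) : MvPolynomial (Fin ((d + 1) + (d + 1))) k))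
    (GITE_F d fun i => (X (Fin.natAdd (d + 1) i) : MvPolynomial (Fin ((d + 1) + (d + 1))) k))
    d d, fun x => ?_⟩
  have h2 : ∀ c : Fin (d + 1) → Fin ((d + 1) + (d + 1)),
      (GITE_F d fun i => (X (c i) : MvPolynomial (Fin ((d + 1) + (d + 1))) k)).map (eval x) =
        GITE_F d fun i => x (c i) := by
    intro c
    rw [GITE_F_map]
    congr 1
    funext i
    exact eval_X _
  rw [← Polynomial.resultant_map_map, h2, h2, GITE_mem]
  exact GITE_res_iff d hd _ _ (GITE_F_deg d _) (GITE_F_deg d _)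

/-- a divisor with the same zeros which generates a radical ideal -/
theorem GITE_rad {σ k : Type} [Field k] (P : MvPolynomial σ k) :
    ∃ Q : MvPolynomial σ k, Q ∣ P ∧ (∃ m : ℕ, P ∣ Q ^ m) ∧ (P ≠ 0 → IsRadical Q) := by
  by_cases hP : P = 0
  · exact ⟨P, dvd_rfl, ⟨1, by rw [pow_one]⟩, fun h => absurd hP h⟩
  let S : Set ℕ := {n | ∃ Q : MvPolynomial σ k, Q ∣ P ∧ (∃ m : ℕ, P ∣ Q ^ m) ∧ Q.totalDegree = n}
  have hS : S.Nonempty := ⟨P.totalDegree, P, dvd_rfl, ⟨1, by rw [pow_one]⟩, rfl⟩
  obtain ⟨Q, h1, ⟨m, h2⟩, h3⟩ := Nat.sInf_mem hS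
  refine ⟨Q, h1, ⟨m, h2⟩, fun _ => ?_⟩
  have hQ : Q ≠ 0 := fun h => hP (zero_dvd_iff.1 (h ▸ h1))
  apply Squarefree.isRadical
  rintro x ⟨y, hy⟩
  have hxy : x * y ≠ 0 := by
    intro h
    apply hQ
    rw [hy, mul_assoc, h, mul_zero]
  have hx : x ≠ 0 := left_ne_zero_of_mul hxy
  have h4 : sInf S ≤ (x * y).totalDegree := by
    apply Nat.sInf_le
    refine ⟨x * y, ?_, ⟨2 * m, ?_⟩, rfl⟩
    · refine Dvd.dvd.trans ?_ h1
      rw [hy, mul_assoc]
      exact dvd_mul_left _ _
    · refine h2.trans ?_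
      rw [pow_mul]
      apply pow_dvd_pow_of_dvd
      rw [hy]
      exact ⟨y, by ring⟩
  have h5 : Q.totalDegree = x.totalDegree + (x * y).totalDegree := by
    rw [hy, mul_assoc, totalDegree_mul_of_isDomain hx hxy]
  have h6 : x.totalDegree = 0 := by omega
  rw [totalDegree_eq_zero_iff_eq_C] at h6
  rw [h6] at hx ⊢
  have h7 : coeff 0 x ≠ 0 := by
    intro h
    apply hx
    rw [h, C_0]
  exact (isUnit_iff_ne_zero.2 h7).map C

theorem GITE_deg {σ τ k : Type} [Field k] (Q : MvPolynomial σ k) (L : σ → MvPolynomial τ k)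
    (hL : ∀ i, (L i).totalDegree ≤ 1) : (aeval L Q).totalDegree ≤ Q.totalDegree := by
  rw [aeval_def, eval₂_eq]
  refine (totalDegree_finsetSum _ _).trans (Finset.sup_le fun m hm => ?_)
  refine (totalDegree_mul _ _).trans ?_
  have h1 : (algebraMap k (MvPolynomial τ k) (coeff m Q)).totalDegree = 0 := by
    rw [algebraMap_eq, totalDegree_C]
  rw [h1, zero_add]
  refine (totalDegree_finsetProd _ _).trans ?_
  refine le_trans ?_ (le_totalDegree hm)
  rw [Finsupp.sum]
  apply Finset.sum_le_sum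
  intro i _
  refine (totalDegree_pow _ _).trans ?_
  calc m i * (L i).totalDegree ≤ m i * 1 := Nat.mul_le_mul_left _ (hL i)
    _ = m i := mul_one _

theorem exists_res {k : Type} [Field k] [IsAlgClosed k] (d : ℕ) (hd : 1 ≤ d) :
    ∃ res : MvPolynomial (Fin ((d + 1) + (d + 1))) k, (∀ x, eval x res ≠ 0 ↔ x ∈ RatSet k d) ∧
      ∀ A : GL2 k, ∃ c : k, ∀ x, eval (act k d A.1 x) res = c * eval x res := by
  obtain ⟨P, hP⟩ := exists_res0 (k := k) d hd
  by_cases hP0 : P = 0
  · exact ⟨P, hP, fun A => ⟨0, fun x => by rw [hP0, map_zero, map_zero, mul_zero]⟩⟩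
  obtain ⟨Q, h1, ⟨m, h2⟩, h3⟩ := GITE_rad P
  have h3 := h3 hP0
  have hQ0 : Q ≠ 0 := fun h => hP0 (zero_dvd_iff.1 (h ▸ h1))
  have hQ : ∀ x, eval x Q ≠ 0 ↔ x ∈ RatSet k d := by
    intro x
    rw [← hP x]
    obtain ⟨r, hr⟩ := h1
    obtain ⟨s, hs⟩ := h2
    constructor
    · intro h4 h5
      have h6 := congrArg (eval x) hs
      rw [map_pow, map_mul, h5, zero_mul] at h6
      exact h4 (IsReduced.eq_zero _ ⟨m, h6⟩)
    · intro h4 h5
      apply h4
      rw [hr, map_mul, h5, zero_mul]
  refine ⟨Q, hQ, fun A => ?_⟩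
  let L : Fin ((d + 1) + (d + 1)) → MvPolynomial (Fin ((d + 1) + (d + 1))) k :=
    fun i => ∑ j, C (act k d A.1 (Pi.single j 1) i) * X j
  have hL : ∀ x, eval x (aeval L Q) = eval (act k d A.1 x) Q := by
    intro x
    have h4 : eval x (aeval L Q) = eval (fun i => eval x (L i)) Q := by
      rw [← coe_aeval_eq_eval, ← coe_aeval_eq_eval]
      have h5 := comp_aeval_apply (R := k) L (aeval x) Q
      exact h5
    rw [h4]
    congr 2
    funext i
    simp only [L, map_sum, map_mul, eval_C, eval_X]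
    exact (act_single k d A.1 x i).symm
  have hdeg : (aeval L Q).totalDegree ≤ Q.totalDegree := by
    apply GITE_deg
    intro i
    refine (totalDegree_finsetSum _ _).trans (Finset.sup_le fun j _ => ?_)
    refine (totalDegree_mul _ _).trans ?_
    rw [totalDegree_C, totalDegree_X]
  have hdvd : Q ∣ aeval L Q := by
    have h4 : aeval L Q ∈ vanishingIdeal k (zeroLocus k (Ideal.span {Q})) := by
      rw [mem_vanishingIdeal_iff]
      intro x hx
      rw [zeroLocus_span] at hx
      have h5 : eval x Q = 0 := hx Q rfl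
      show eval x (aeval L Q) = 0
      rw [hL]
      by_contra h6
      exact ((hQ _).2 ((act_mem d A x).1 ((hQ _).1 h6))) h5
    rw [vanishingIdeal_zeroLocus_eq_radical] at h4
    obtain ⟨n, hn⟩ := h4
    rw [Ideal.mem_span_singleton] at hn
    exact h3 n _ hn
  obtain ⟨h, hh⟩ := hdvd
  by_cases hh0 : h = 0
  · refine ⟨0, fun x => ?_⟩
    rw [← hL, hh, hh0, mul_zero, map_zero, zero_mul]
  have h4 : Q.totalDegree + h.totalDegree ≤ Q.totalDegree := by
    rw [← totalDegree_mul_of_isDomain hQ0 hh0, ← hh]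
    exact hdeg
  have h5 : h.totalDegree = 0 := by omega
  rw [totalDegree_eq_zero_iff_eq_C] at h5
  refine ⟨coeff 0 h, fun x => ?_⟩
  rw [← hL, hh, map_mul]
  conv_lhs => rw [h5]
  rw [eval_C, mul_comm]

end Pool.Agent.MRat
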