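import Pool.Agent.Lib.MP_923aff_ag.GITH
/-!
# JOB GITQ: the affine quotient of a closed set with closed orbits

PROOF. `E` as in `reynolds`. For a polynomial `P` write `P|Z` for its restriction to `Z`. If `P|Z` is constant along the
orbits, then `(E P)|Z = P|Z` (second property, `Z` is stable).
(1) The restriction `invPoly ρ → invOn ρ Z` is well-defined and surjective: for `f = P|Z` in `invOn ρ Z`, `E P` is in
 `invPoly ρ` and restricts to `f`. By `invPoly_fg` (GITH) `invOn ρ Z` is of finite type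
 (`Subalgebra.fg_iff_finiteType`, `Algebra.FiniteType.of_surjective`).
(2) Let `χ : invOn ρ Z →ₐ[k] k`. Let `𝔞` be the ideal of the polynomial ring generated by `I` and by all `h` in `invPoly ρ` with
 `χ (h|Z) = 0`. CLAIM `𝔞 ≠ ⊤`: otherwise `1 = q + ∑ h_i p_i` (finite sum) with `q` vanishing on `Z`; apply `E` and evaluate
 at `z` in `Z`: `1 = 0 + ∑ h_i(z) (E p_i)(z)` (`E 1 = 1` and `E q` vanishes on `Z` by the second property, third property),
 so `1 = ∑ (h_i|Z) * ((E p_i)|Z)` in `invOn ρ Z` and `χ 1 = 0`, a contradiction. By the Nullstellensatz (`k` algebraically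
 closed; `MvPolynomial.vanishingIdeal_zeroLocus_eq_radical`, or `MvPolynomial.isMaximal_iff_eq_vanishingIdeal_singleton`
 for a maximal ideal above `𝔞`) there is `z` with `p(z) = 0` for all `p` in `𝔞`. So `z` is in `Z`; for `f = h|Z` in `invOn ρ Z` with `h`
 in `invPoly ρ` the polynomial `h - C (χ f)` is in `𝔞`, so `χ f = h(z) = f z`.
(3) Let `z`, `w` in `Z` be not in one orbit. Let `I_z`, `I_w` be the ideals of the polynomials vanishing on the orbit of `z`, of `w`.
 The elements of `I` are in `I_z` and `I_w` (`Z` is stable). If `I_z ⊔ I_w ≠ ⊤` there is (Nullstellensatz) a common zero `v` of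
 both; `v` is in `Z`, and by `hcl` `v` is in the orbit of `z` and in the orbit of `w`, so `w` is in the orbit of `z` (`ρ.one`,
 `ρ.mul`), a contradiction. So `1 = P + Q` with `P` in `I_z`, `Q` in `I_w`. Then `1 = E P + E Q`, `(E P)(z) = 0` and
 `(E Q)(w) = 0` (second property), so `(E P)(w) = 1`: the function `(E P)|Z` separates `z` from `w`.
-/

set_option autoImplicit false

namespace Pool.Agent.MRat

open MvPolynomial

variable {k : Type} [Field k]

private theorem gitq_aeval {n : ℕ} (x : Fin n → k) (p : MvPolynomial (Fin n) k) :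
    aeval x p = eval x p := by
  rw [← MvPolynomial.coe_aeval_eq_eval]
  rfl

private theorem gitq_null [IsAlgClosed k] {n : ℕ} (𝔞 : Ideal (MvPolynomial (Fin n) k))
    (h : 𝔞 ≠ ⊤) : ∃ z : Fin n → k, ∀ p ∈ 𝔞, eval z p = 0 := by
  obtain ⟨M, hM, hle⟩ := Ideal.exists_le_maximal 𝔞 h
  obtain ⟨z, rfl⟩ := eq_vanishingIdeal_singleton_of_isMaximal k hM
  refine ⟨z, fun p hp => ?_⟩
  have h1 := (mem_vanishingIdeal_singleton_iff z p).1 (hle hp)
  rwa [gitq_aeval] at h1

private theorem gitq_act_mul {n : ℕ} (ρ : LinRep k n) (A B : GL2 k) (x : Fin n → k) :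
    ρ.act (A * B) x = ρ.act A (ρ.act B x) := by
  funext i
  exact ρ.mul A B x i

private theorem gitq_act_one {n : ℕ} (ρ : LinRep k n) (x : Fin n → k) : ρ.act 1 x = x := by
  funext i
  exact ρ.one x i

/-- restriction of invariant polynomials to the closed set -/
private noncomputable def gitq_restr {n : ℕ} (ρ : LinRep k n) (Z : Set (Fin n → k)) :
    invPoly ρ →ₐ[k] invOn ρ Z where
  toFun f := ⟨fun z => eval z.1 f.1, ⟨f.1, fun _ => rfl⟩, fun x y ⟨A, hA⟩ => by
    change eval x.1 f.1 = eval y.1 f.1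
    rw [hA]; exact (f.2 A x.1).symm⟩
  map_one' := Subtype.ext (funext fun z => by
    change eval z.1 (1 : MvPolynomial (Fin n) k) = 1
    rw [map_one])
  map_mul' f g := Subtype.ext (funext fun z => by
    change eval z.1 (f.1 * g.1) = eval z.1 f.1 * eval z.1 g.1
    rw [map_mul])
  map_zero' := Subtype.ext (funext fun z => by
    change eval z.1 (0 : MvPolynomial (Fin n) k) = 0
    rw [map_zero])
  map_add' f g := Subtype.ext (funext fun z => by
    change eval z.1 (f.1 + g.1) = eval z.1 f.1 + eval z.1 g.1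
    rw [map_add])
  commutes' r := Subtype.ext (funext fun z => by
    change eval z.1 (algebraMap k (MvPolynomial (Fin n) k) r) = r
    rw [MvPolynomial.algebraMap_eq, eval_C])

private theorem gitq_restr_apply {n : ℕ} (ρ : LinRep k n) (Z : Set (Fin n → k)) (f : invPoly ρ)
    (z : Z) : (gitq_restr ρ Z f).1 z = eval z.1 f.1 := rfl

theorem git_affine [CharZero k] [IsAlgClosed k] {n : ℕ} (ρ : LinRep k n) (Z : Set (Fin n → k))
    (I : Set (MvPolynomial (Fin n) k)) (hZ : Z = {x | ∀ p ∈ I, eval x p = 0})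
    (hst : ∀ A x, x ∈ Z → ρ.act A x ∈ Z)
    (hcl : ∀ z ∈ Z, ∀ w ∈ Z, (∀ P : MvPolynomial (Fin n) k,
      (∀ A, eval (ρ.act A z) P = 0) → eval w P = 0) → ∃ A, w = ρ.act A z) :
    Algebra.FiniteType k (invOn ρ Z) ∧
    (∀ χ : invOn ρ Z →ₐ[k] k, ∃ z : Z, ∀ f : invOn ρ Z, χ f = f.1 z) ∧
    (∀ z w : Z, (∀ f : invOn ρ Z, f.1 z = f.1 w) → ∃ A, w.1 = ρ.act A z.1) := by
  obtain ⟨E, hE1, hE2, hE3, -⟩ := reynolds ρ
  have hEinv : ∀ P, E P ∈ invPoly ρ := fun P A x => hE1 P A x
  have hEone : ∀ x, eval x (E 1) = 1 := fun x => hE2 1 x 1 (fun A => by rw [map_one])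
  have hsurj : ∀ f : invOn ρ Z, ∃ h : invPoly ρ, gitq_restr ρ Z h = f := fun f => by
    obtain ⟨⟨P, hP⟩, hinv⟩ := f.2
    refine ⟨⟨E P, hEinv P⟩, Subtype.ext (funext fun z => ?_)⟩
    rw [gitq_restr_apply]
    refine hE2 P z.1 (f.1 z) fun A => ?_
    have h1 := hP ⟨ρ.act A z.1, hst A z.1 z.2⟩
    have h2 := hinv z ⟨ρ.act A z.1, hst A z.1 z.2⟩ ⟨A, rfl⟩
    rw [← h1, ← h2]
  have hI : ∀ p ∈ I, ∀ z ∈ Z, eval z p = 0 := fun p hp z hz => by
    rw [hZ] at hz
    exact hz p hp
  have hIZ : ∀ z, (∀ p ∈ I, eval z p = 0) → z ∈ Z := fun z hz => by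
    rw [hZ]
    exact hz
  refine ⟨?_, fun χ => ?_, fun z w hzw => ?_⟩
  · have h1 : Algebra.FiniteType k (invPoly ρ) :=
      (Subalgebra.fg_iff_finiteType _).1 (invPoly_fg ρ)
    exact Algebra.FiniteType.of_surjective (gitq_restr ρ Z) hsurj
  · set S : Set (MvPolynomial (Fin n) k) :=
      I ∪ {h | ∃ hh : h ∈ invPoly ρ, χ (gitq_restr ρ Z ⟨h, hh⟩) = 0} with hS
    have hkey : ∀ p ∈ Ideal.span S, ∀ r, χ (gitq_restr ρ Z ⟨E (r * p), hEinv _⟩) = 0 := by
      intro p hp
      induction hp using Submodule.span_induction with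
      | mem p hp =>
        intro r
        rcases hp with hp | ⟨hh, hp⟩
        · have h1 : gitq_restr ρ Z ⟨E (r * p), hEinv _⟩ = 0 := Subtype.ext (funext fun z => by
            rw [gitq_restr_apply]
            refine hE2 (r * p) z.1 0 fun A => ?_
            rw [map_mul, hI p hp _ (hst A z.1 z.2), mul_zero])
          rw [h1, map_zero]
        · have h1 : gitq_restr ρ Z ⟨E (r * p), hEinv _⟩ =
              gitq_restr ρ Z ⟨p, hh⟩ * gitq_restr ρ Z ⟨E r, hEinv _⟩ :=
            Subtype.ext (funext fun z => by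
              rw [gitq_restr_apply]
              change eval z.1 (E (r * p)) = eval z.1 p * eval z.1 (E r)
              rw [mul_comm r p]
              exact hE3 p r z.1 fun A => hh A z.1)
          rw [h1, map_mul, hp, zero_mul]
      | zero =>
        intro r
        have h1 : gitq_restr ρ Z ⟨E (r * 0), hEinv _⟩ = 0 := Subtype.ext (funext fun z => by
            rw [gitq_restr_apply]
            change eval z.1 (E (r * 0)) = 0
            rw [mul_zero, map_zero, map_zero])
        rw [h1, map_zero]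
      | add p q _ _ hp hq =>
        intro r
        have h1 : gitq_restr ρ Z ⟨E (r * (p + q)), hEinv _⟩ =
            gitq_restr ρ Z ⟨E (r * p), hEinv _⟩ + gitq_restr ρ Z ⟨E (r * q), hEinv _⟩ :=
          Subtype.ext (funext fun z => by
            rw [gitq_restr_apply]
            change eval z.1 (E (r * (p + q))) = eval z.1 (E (r * p)) + eval z.1 (E (r * q))
            rw [mul_add, map_add, map_add])
        rw [h1, map_add, hp r, hq r, add_zero]
      | smul a p _ hp =>
        intro r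
        have h1 := hp (r * a)
        rw [mul_assoc] at h1
        exact h1
    have hne : Ideal.span S ≠ ⊤ := by
      intro htop
      have h1 : (1 : MvPolynomial (Fin n) k) ∈ Ideal.span S := by rw [htop]; exact Submodule.mem_top
      have h2 := hkey 1 h1 1
      have h3 : gitq_restr ρ Z ⟨E (1 * 1), hEinv _⟩ = 1 := Subtype.ext (funext fun z => by
        rw [gitq_restr_apply]
        change eval z.1 (E (1 * 1)) = 1
        rw [mul_one]
        exact hEone z.1)
      rw [h3, map_one] at h2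
      exact one_ne_zero h2
    obtain ⟨z, hz⟩ := gitq_null _ hne
    have hzZ : z ∈ Z := hIZ z fun p hp => hz p (Ideal.subset_span (Or.inl hp))
    refine ⟨⟨z, hzZ⟩, fun f => ?_⟩
    obtain ⟨h, hh⟩ := hsurj f
    have h1 : (h - algebraMap k (invPoly ρ) (χ f)).1 ∈ Ideal.span S := by
      apply Ideal.subset_span
      right
      refine ⟨(h - algebraMap k (invPoly ρ) (χ f)).2, ?_⟩
      change χ (gitq_restr ρ Z (h - algebraMap k (invPoly ρ) (χ f))) = 0
      rw [map_sub, AlgHom.commutes, map_sub, AlgHom.commutes, hh]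
      exact sub_self _
    have h2 := hz _ h1
    have h3 : (h - algebraMap k (invPoly ρ) (χ f)).1 = h.1 - C (χ f) := rfl
    rw [h3, map_sub, eval_C, sub_eq_zero] at h2
    rw [← h2, ← hh, gitq_restr_apply]
  · by_contra hno
    set Iz : Ideal (MvPolynomial (Fin n) k) :=
      vanishingIdeal k (Set.range fun A => ρ.act A z.1) with hIz
    set Iw : Ideal (MvPolynomial (Fin n) k) :=
      vanishingIdeal k (Set.range fun A => ρ.act A w.1) with hIw
    have hmem : ∀ (x : Fin n → k) (P : MvPolynomial (Fin n) k),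
        P ∈ vanishingIdeal k (Set.range fun A => ρ.act A x) ↔ ∀ A, eval (ρ.act A x) P = 0 := by
      intro x P
      rw [mem_vanishingIdeal_iff]
      constructor
      · intro h A
        have h1 := h _ ⟨A, rfl⟩
        rwa [gitq_aeval] at h1
      · rintro h _ ⟨A, rfl⟩
        rw [gitq_aeval]
        exact h A
    by_cases htop : Iz ⊔ Iw = ⊤
    · have h1 : (1 : MvPolynomial (Fin n) k) ∈ Iz ⊔ Iw := by rw [htop]; exact Submodule.mem_top
      obtain ⟨P, hP, Q, hQ, hPQ⟩ := Submodule.mem_sup.1 h1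
      have h2 : eval z.1 (E P) = 0 := hE2 P z.1 0 ((hmem z.1 P).1 hP)
      have h3 : eval w.1 (E Q) = 0 := hE2 Q w.1 0 ((hmem w.1 Q).1 hQ)
      have h4 : eval w.1 (E P) + eval w.1 (E Q) = 1 := by
        rw [← map_add, ← map_add, hPQ, hEone]
      have h5 := hzw (gitq_restr ρ Z ⟨E P, hEinv P⟩)
      rw [gitq_restr_apply, gitq_restr_apply] at h5
      change eval z.1 (E P) = eval w.1 (E P) at h5
      rw [h3, add_zero, ← h5, h2] at h4
      exact zero_ne_one h4
    · obtain ⟨v, hv⟩ := gitq_null _ htop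
      have hvz : ∀ P : MvPolynomial (Fin n) k, (∀ A, eval (ρ.act A z.1) P = 0) → eval v P = 0 :=
        fun P hP => hv P ((le_sup_left : Iz ≤ Iz ⊔ Iw) ((hmem z.1 P).2 hP))
      have hvw : ∀ P : MvPolynomial (Fin n) k, (∀ A, eval (ρ.act A w.1) P = 0) → eval v P = 0 :=
        fun P hP => hv P ((le_sup_right : Iw ≤ Iz ⊔ Iw) ((hmem w.1 P).2 hP))
      have hvZ : v ∈ Z := hIZ v fun p hp => hvz p fun A => hI p hp _ (hst A z.1 z.2)
      obtain ⟨A, hA⟩ := hcl z.1 z.2 v hvZ hvz
      obtain ⟨B, hB⟩ := hcl w.1 w.2 v hvZ hvw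
      apply hno
      refine ⟨B⁻¹ * A, ?_⟩
      rw [gitq_act_mul, ← hA, hB, ← gitq_act_mul, inv_mul_cancel, gitq_act_one]

end Pool.Agent.MRat
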