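import Pool.Agent.Lib.MP_923aff_ag.GITL
import Pool.Agent.Lib.MP_923aff_ag.GITC
import Pool.Agent.Lib.MP_923aff_ag.GITQ
/-!
# JOB GITF: the ring of invariants of the cone over `Rat_d` (uses GITL, GITC, GITQ, GITA1, GITA2 and SB1)
-/

set_option autoImplicit false

namespace Pool.Agent.MRat

open MvPolynomial

section GITF

variable {k : Type} [Field k] {N : ℕ} (res : MvPolynomial (Fin N) k)

/-- the graph of `1 / res` -/
private def gfZ : Set (Fin (N + 1) → k) :=
  {z | eval (fun j => z j.castSucc) res * z (Fin.last _) = 1}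

private theorem gf_eval_rename (P : MvPolynomial (Fin N) k) (z : Fin (N + 1) → k) :
    eval z (rename Fin.castSucc P) = eval (fun j => z j.castSucc) P := by
  rw [eval_rename]
  rfl

private theorem gf_Z : gfZ res =
    {x | ∀ p ∈ ({rename Fin.castSucc res * X (Fin.last N) - 1} :
      Set (MvPolynomial (Fin (N + 1)) k)), eval x p = 0} := by
  ext z
  simp only [gfZ, Set.mem_ofPred_eq, Set.mem_singleton_iff, forall_eq, map_sub, map_mul,
    gf_eval_rename, eval_X, map_one, sub_eq_zero]

private theorem gf_ne {z : Fin (N + 1) → k} (hz : z ∈ gfZ res) :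
    eval (fun j => z j.castSucc) res ≠ 0 := by
  intro h
  have h1 : eval (fun j => z j.castSucc) res * z (Fin.last _) = 1 := hz
  rw [h, zero_mul] at h1
  exact zero_ne_one h1

/-- a point of the graph is determined by its projection -/
private theorem gf_ext {z w : Fin (N + 1) → k} (hz : z ∈ gfZ res) (hw : w ∈ gfZ res)
    (h : (fun j : Fin N => z j.castSucc) = fun j => w j.castSucc) : z = w := by
  have h1 : eval (fun j => z j.castSucc) res * z (Fin.last _) = 1 := hz
  have h2 : eval (fun j => w j.castSucc) res * w (Fin.last _) = 1 := hw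
  funext i
  refine Fin.lastCases ?_ (fun j => ?_) i
  · rw [← h, ← h1] at h2
    exact (mul_left_cancel₀ (gf_ne res hz) h2).symm
  · exact congrFun h j

/-- the point of the graph over `x` -/
private noncomputable def gfE (x : Fin N → k) : Fin (N + 1) → k :=
  Fin.snoc (α := fun _ => k) x (eval x res)⁻¹

private theorem gfE_pr (x : Fin N → k) : (fun j : Fin N => gfE res x j.castSucc) = x := by
  funext j
  exact Fin.snoc_castSucc (α := fun _ => k) _ _ _

private theorem gfE_last (x : Fin N → k) : gfE res x (Fin.last _) = (eval x res)⁻¹ :=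
  Fin.snoc_last (α := fun _ => k) _ _

private theorem gfE_mem {x : Fin N → k} (hx : eval x res ≠ 0) : gfE res x ∈ gfZ res := by
  show eval (fun j => gfE res x j.castSucc) res * gfE res x (Fin.last _) = 1
  rw [gfE_pr, gfE_last]
  exact mul_inv_cancel₀ hx

/-- polynomials in `x` and `1 / res` are fractions -/
private theorem gf_OA {A : Set (Fin N → k)} (hA : ∀ x ∈ A, eval x res ≠ 0)
    (P : MvPolynomial (Fin (N + 1)) k) : (fun x : A => eval (gfE res x.1) P) ∈ OA A := by
  induction P using MvPolynomial.induction_on with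
  | C a =>
    have h : (fun x : A => eval (gfE res x.1) (C a)) = algebraMap k (A → k) a := by
      funext x
      rw [eval_C]
      rfl
    rw [h]
    exact Subalgebra.algebraMap_mem _ a
  | add p q hp hq =>
    have h : (fun x : A => eval (gfE res x.1) (p + q)) =
        (fun x : A => eval (gfE res x.1) p) + fun x : A => eval (gfE res x.1) q := by
      funext x
      rw [map_add]
      rfl
    rw [h]
    exact add_mem hp hq
  | mul_X p i hp =>
    have h : (fun x : A => eval (gfE res x.1) (p * X i)) =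
        (fun x : A => eval (gfE res x.1) p) * fun x : A => gfE res x.1 i := by
      funext x
      rw [map_mul, eval_X]
      rfl
    rw [h]
    refine mul_mem hp ?_
    refine Fin.lastCases ?_ (fun j => ?_) i
    · refine ⟨1, res, fun x => ⟨hA x.1 x.2, ?_⟩⟩
      show gfE res x.1 (Fin.last _) = _
      rw [gfE_last, map_one, one_div]
    · refine ⟨X j, 1, fun x => ⟨?_, ?_⟩⟩
      · rw [map_one]
        exact one_ne_zero
      · rw [map_one, div_one, eval_X]
        exact congrFun (gfE_pr res x.1) j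

end GITF

theorem git_rat {k : Type} [Field k] [IsAlgClosed k] [CharZero k] (d : ℕ) (hd : 2 ≤ d) :
    Algebra.FiniteType k (invRat k d) ∧
    (∀ χ : invRat k d →ₐ[k] k, ∃ x : RatSet k d, ∀ f : invRat k d, χ f = f.1 x) ∧
    (∀ x y : RatSet k d, (∀ f : invRat k d, f.1 x = f.1 y) → RatConj k d x.1 y.1) := by
  obtain ⟨res, ρ, hres, hact, hinv⟩ := exists_rep (k := k) d (by omega)
  have hpr : ∀ (A : GL2 k) (z : Fin ((d + 1) + (d + 1) + 1) → k),
      (fun j : Fin ((d + 1) + (d + 1)) => ρ.act A z j.castSucc) =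
        act k d A.1 (fun j => z j.castSucc) := fun A z => funext fun i => hact A z i
  have hst : ∀ A x, x ∈ gfZ res → ρ.act A x ∈ gfZ res := by
    intro A x hx
    show eval (fun j => ρ.act A x j.castSucc) res * ρ.act A x (Fin.last _) = 1
    rw [hinv A x]
    exact hx
  have hRat : ∀ z ∈ gfZ res, (fun j : Fin ((d + 1) + (d + 1)) => z j.castSucc) ∈ RatSet k d :=
    fun z hz => (hres _).1 (gf_ne res hz)
  have horb : ∀ z ∈ gfZ res, ∀ w ∈ gfZ res, ∀ A : GL2 k,
      (fun j : Fin ((d + 1) + (d + 1)) => w j.castSucc) = act k d A.1 (fun j => z j.castSucc) →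
      w = ρ.act A z := by
    intro z hz w hw A h
    refine gf_ext res hw (hst A z hz) ?_
    rw [h, hpr]
  have hconj : ∀ z ∈ gfZ res, ∀ w ∈ gfZ res, ((∃ A, w = ρ.act A z) ↔
      RatConj k d (fun j => z j.castSucc) (fun j => w j.castSucc)) := by
    intro z hz w hw
    rw [ratConj_iff]
    constructor
    · rintro ⟨A, rfl⟩
      exact ⟨A, hpr A z⟩
    · rintro ⟨A, hA⟩
      exact ⟨A, horb z hz w hw A hA⟩
  have hcl : ∀ z ∈ gfZ res, ∀ w ∈ gfZ res,
      (∀ P : MvPolynomial (Fin ((d + 1) + (d + 1) + 1)) k,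
        (∀ A, eval (ρ.act A z) P = 0) → eval w P = 0) → ∃ A, w = ρ.act A z := by
    intro z hz w hw h
    obtain ⟨A, hA⟩ := orbit_closed d hd (fun j => z j.castSucc) (fun j => w j.castSucc)
      (hRat z hz) (hRat w hw) (by
        intro P hP
        rw [← gf_eval_rename]
        refine h _ fun A => ?_
        rw [gf_eval_rename, hpr]
        exact hP A)
    exact ⟨A, horb z hz w hw A hA⟩
  obtain ⟨g1, g2, g3⟩ := git_affine ρ (gfZ res) _ (gf_Z res) hst hcl
  have hR : ∀ x ∈ RatSet k d, eval x res ≠ 0 := fun x hx => (hres x).2 hx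
  -- the restriction to the graph
  let ε : RatSet k d → gfZ res := fun x => ⟨gfE res x.1, gfE_mem res (hR x.1 x.2)⟩
  have hε : ∀ x : RatSet k d,
      (fun j : Fin ((d + 1) + (d + 1)) => (ε x).1 j.castSucc) = x.1 := fun x => gfE_pr res x.1
  let Φ : invOn ρ (gfZ res) →ₐ[k] invRat k d :=
    { toFun := fun F => ⟨fun x => F.1 (ε x), by
        obtain ⟨F, ⟨P, hP⟩, hF⟩ := F
        refine mem_invRat.2 ⟨?_, ?_⟩
        · have h : (fun x : RatSet k d => F (ε x)) = fun x : RatSet k d => eval (gfE res x.1) P :=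
            funext fun x => hP (ε x)
          show (fun x : RatSet k d => F (ε x)) ∈ OA (RatSet k d)
          rw [h]
          exact gf_OA res hR P
        · intro x y hxy
          refine hF (ε x) (ε y) ((hconj _ (ε x).2 _ (ε y).2).2 ?_)
          rw [hε x, hε y]
          exact hxy⟩
      map_one' := rfl
      map_mul' := fun _ _ => rfl
      map_zero' := rfl
      map_add' := fun _ _ => rfl
      commutes' := fun _ => rfl }
  have hΦ : ∀ (F : invOn ρ (gfZ res)) (x : RatSet k d), (Φ F).1 x = F.1 (ε x) := fun _ _ => rfl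
  have hsurj : ∀ f : invRat k d, ∃ F : invOn ρ (gfZ res), Φ F = f ∧
      ∀ z : gfZ res, F.1 z = f.1 ⟨fun j => z.1 j.castSucc, hRat z.1 z.2⟩ := by
    intro f
    obtain ⟨P, M, hPM⟩ := OA_piece (I := ∅) (q := res) (A := RatSet k d) (by
      ext x
      simp only [Set.mem_empty_iff_false, false_imp_iff, implies_true, true_and, Set.mem_ofPred_eq]
      exact (hres x).symm) ⟨f.1, (mem_invRat.1 f.2).1⟩
    refine ⟨⟨fun z => f.1 ⟨fun j => z.1 j.castSucc, hRat z.1 z.2⟩, ⟨?_, ?_⟩⟩, ?_, fun z => rfl⟩
    · refine ⟨rename Fin.castSucc P * X (Fin.last _) ^ M, fun z => ?_⟩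
      rw [map_mul, map_pow, gf_eval_rename, eval_X]
      have h1 : f.1 ⟨fun j => z.1 j.castSucc, hRat z.1 z.2⟩ = _ :=
        hPM ⟨fun j => z.1 j.castSucc, hRat z.1 z.2⟩
      refine h1.trans ?_
      have h2 : z.1 (Fin.last _) = (eval (fun j => z.1 j.castSucc) res)⁻¹ := by
        have h3 : eval (fun j => z.1 j.castSucc) res * z.1 (Fin.last _) = 1 := z.2
        exact eq_inv_of_mul_eq_one_right h3
      rw [h2, inv_pow, div_eq_mul_inv]
    · intro z w hzw
      exact (mem_invRat.1 f.2).2 _ _ ((hconj z.1 z.2 w.1 w.2).1 hzw)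
    · apply Subtype.ext
      funext x
      rw [hΦ]
      exact congrArg f.1 (Subtype.ext (hε x))
  have hs : Function.Surjective Φ := fun f => by
    obtain ⟨F, hF, -⟩ := hsurj f
    exact ⟨F, hF⟩
  refine ⟨Algebra.FiniteType.of_surjective Φ hs, ?_, ?_⟩
  · intro χ
    obtain ⟨z, hz⟩ := g2 (χ.comp Φ)
    refine ⟨⟨fun j => z.1 j.castSucc, hRat z.1 z.2⟩, fun f => ?_⟩
    obtain ⟨F, hF, hF2⟩ := hsurj f
    rw [← hF2 z, ← hz F, ← hF]
    rfl
  · intro x y hxy
    obtain ⟨A, hA⟩ := g3 (ε x) (ε y) (fun F => by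
      rw [← hΦ F x, ← hΦ F y]
      exact hxy (Φ F))
    have h := (hconj _ (ε x).2 _ (ε y).2).1 ⟨A, hA⟩
    rw [hε x, hε y] at h
    exact h

end Pool.Agent.MRat
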