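import Pool.Agent.Lib.MP_923aff_ag.GITR
/-!
# JOB GITH: Hilbert's finiteness theorem

PROOF. Let `E` be as in `reynolds`. For `h` in `invPoly ρ`: `E h = h` (second property at every `x`, `MvPolynomial.funext`),
and `E (h * P) = h * E P` for all `P`; all `E P` are in `invPoly ρ`. `homogeneousComponent e (E P) = E (homogeneousComponent e P)`
(linearity and the degree property), so the homogeneous components of an invariant polynomial are invariant. Let `I` be the
ideal generated by the homogeneous invariant polynomials of positive degree. The polynomial ring is noetherian, so `I` is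
generated by finitely many of them, `s_1, ..., s_r` (`Submodule.fg_span_iff_fg_span_finset_subset` or
`Ideal.fg_of_isNoetherianRing` with `Submodule.FG` of a span). CLAIM: every homogeneous invariant `f` of degree `e` is in
`Algebra.adjoin k {s_1, ..., s_r}`; strong induction on `e`. `e = 0`: constants. `e > 0`: `f = ∑ s_i p_i`, so
`f = E f = ∑ s_i E p_i`; take the homogeneous component of degree `e`: `f = ∑ s_i * component (e - deg s_i) (E p_i)` (where
`deg s_i ≤ e`; the other terms do not contribute), the components are homogeneous invariants of degree `e - deg s_i < e`.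
-/

set_option autoImplicit false

namespace Pool.Agent.MRat

open MvPolynomial

variable {k : Type} [Field k]

theorem h_mem_inv [CharZero k] {n : ℕ} {ρ : LinRep k n}
    {E : MvPolynomial (Fin n) k →ₗ[k] MvPolynomial (Fin n) k}
    (e1 : ∀ P A x, eval (ρ.act A x) (E P) = eval x (E P)) (P : MvPolynomial (Fin n) k) :
    E P ∈ invPoly ρ := fun A x => e1 P A x

theorem h_fix [CharZero k] {n : ℕ} {ρ : LinRep k n}
    {E : MvPolynomial (Fin n) k →ₗ[k] MvPolynomial (Fin n) k}
    (e2 : ∀ P x (c : k), (∀ A, eval (ρ.act A x) P = c) → eval x (E P) = c)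
    {h : MvPolynomial (Fin n) k} (hh : h ∈ invPoly ρ) : E h = h := by
  apply MvPolynomial.funext
  intro x
  exact e2 h x (eval x h) (fun A => hh A x)

theorem h_mul [CharZero k] {n : ℕ} {ρ : LinRep k n}
    {E : MvPolynomial (Fin n) k →ₗ[k] MvPolynomial (Fin n) k}
    (e3 : ∀ h P x, (∀ A, eval (ρ.act A x) h = eval x h) →
        eval x (E (h * P)) = eval x h * eval x (E P))
    {h : MvPolynomial (Fin n) k} (hh : h ∈ invPoly ρ) (P : MvPolynomial (Fin n) k) :
    E (h * P) = h * E P := by
  apply MvPolynomial.funext
  intro x
  have h1 := e3 h P x (fun A => hh A x)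
  have h2 : eval x (h * E P) = eval x h * eval x (E P) := map_mul _ _ _
  exact h1.trans h2.symm

/-- components of a homogeneous polynomial -/
theorem h_comp {n : ℕ} {Q : MvPolynomial (Fin n) k} {i : ℕ} (hQ : Q.IsHomogeneous i) (e : ℕ) :
    homogeneousComponent e Q = if e = i then Q else 0 :=
  homogeneousComponent_of_mem ((mem_homogeneousSubmodule i Q).2 hQ)

theorem h_comp_E {n : ℕ} {E : MvPolynomial (Fin n) k →ₗ[k] MvPolynomial (Fin n) k}
    (e4 : ∀ P e, P.IsHomogeneous e → (E P).IsHomogeneous e) (P : MvPolynomial (Fin n) k) (e : ℕ) :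
    homogeneousComponent e (E P) = E (homogeneousComponent e P) := by
  have h1 := sum_homogeneousComponent P
  conv_lhs => rw [← h1]
  rw [map_sum, map_sum]
  have h2 : ∀ i ∈ Finset.range (P.totalDegree + 1),
      homogeneousComponent e (E (homogeneousComponent i P)) =
      if e = i then E (homogeneousComponent i P) else 0 := fun i _ =>
    h_comp (e4 _ _ (homogeneousComponent_isHomogeneous i P)) e
  rw [Finset.sum_congr rfl h2, Finset.sum_ite_eq]
  split_ifs with h3
  · rfl
  · rw [Finset.mem_range, not_lt] at h3
    rw [homogeneousComponent_eq_zero e P (by omega), map_zero]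

theorem h_comp_mem [CharZero k] {n : ℕ} {ρ : LinRep k n}
    {E : MvPolynomial (Fin n) k →ₗ[k] MvPolynomial (Fin n) k}
    (e1 : ∀ P A x, eval (ρ.act A x) (E P) = eval x (E P))
    (e2 : ∀ P x (c : k), (∀ A, eval (ρ.act A x) P = c) → eval x (E P) = c)
    (e4 : ∀ P e, P.IsHomogeneous e → (E P).IsHomogeneous e)
    {f : MvPolynomial (Fin n) k} (hf : f ∈ invPoly ρ) (e : ℕ) :
    homogeneousComponent e f ∈ invPoly ρ := by
  have h1 : homogeneousComponent e f = E (homogeneousComponent e f) := by
    rw [← h_comp_E e4, h_fix e2 hf]
  rw [h1]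
  exact h_mem_inv e1 _

theorem invPoly_fg [CharZero k] {n : ℕ} (ρ : LinRep k n) : (invPoly ρ).FG := by
  classical
  obtain ⟨E, e1, e2, e3, e4⟩ := reynolds ρ
  set G : Set (MvPolynomial (Fin n) k) :=
    {g | g ∈ invPoly ρ ∧ ∃ e, 0 < e ∧ g.IsHomogeneous e} with hG
  have hfg : (Submodule.span (MvPolynomial (Fin n) k) G).FG := IsNoetherian.noetherian _
  obtain ⟨s, hsG, hs⟩ := (Submodule.fg_span_iff_fg_span_finset_subset G).1 hfg
  have claim : ∀ e : ℕ, ∀ f ∈ invPoly ρ, f.IsHomogeneous e →
      f ∈ Algebra.adjoin k (s : Set (MvPolynomial (Fin n) k)) := by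
    intro e
    induction e using Nat.strong_induction_on with
    | _ e ih =>
      intro f hf hfe
      rcases Nat.eq_zero_or_pos e with he | he
      · subst he
        have h1 : f = C (f.coeff 0) := by
          apply totalDegree_eq_zero_iff_eq_C.1
          exact Nat.le_zero.1 hfe.totalDegree_le
        rw [h1]
        exact Subalgebra.algebraMap_mem _ _
      · have h1 : f ∈ Submodule.span (MvPolynomial (Fin n) k) G :=
          Submodule.subset_span ⟨hf, e, he, hfe⟩
        rw [hs, Submodule.mem_span_finset] at h1
        obtain ⟨p, -, hp⟩ := h1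
        have h2 : f = ∑ g ∈ s, g * E (p g) := by
          have h3 : E f = f := h_fix e2 hf
          rw [← h3, ← hp, map_sum]
          apply Finset.sum_congr rfl
          intro g hg
          rw [smul_eq_mul, mul_comm]
          exact h_mul e3 (hsG hg).1 _
        have h4 : f = homogeneousComponent e f := by
          rw [h_comp hfe, if_pos rfl]
        rw [h4, h2, map_sum]
        apply Subalgebra.sum_mem
        intro g hg
        obtain ⟨hginv, d, hd, hgd⟩ := hsG hg
        have h5 : g * E (p g) = ∑ i ∈ Finset.range ((E (p g)).totalDegree + 1),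
            g * homogeneousComponent i (E (p g)) := by
          rw [← Finset.mul_sum, sum_homogeneousComponent]
        rw [h5, map_sum]
        apply Subalgebra.sum_mem
        intro i _
        rw [h_comp (hgd.mul (homogeneousComponent_isHomogeneous i (E (p g))))]
        split_ifs with h6
        · refine Subalgebra.mul_mem _ (Algebra.subset_adjoin hg) ?_
          exact ih i (by omega) _ (h_comp_mem e1 e2 e4 (h_mem_inv e1 _) i)
            (homogeneousComponent_isHomogeneous i _)
        · exact Subalgebra.zero_mem _
  refine ⟨s, le_antisymm ?_ ?_⟩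
  · apply Algebra.adjoin_le
    intro g hg
    exact (hsG hg).1
  · intro f hf
    rw [← sum_homogeneousComponent f]
    apply Subalgebra.sum_mem
    intro i _
    exact claim i _ (h_comp_mem e1 e2 e4 hf i) (homogeneousComponent_isHomogeneous i f)

end Pool.Agent.MRat
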