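import Pool.Agent.Lib.MP_923aff_ag.GITE
/-!
# JOB GITL: the linear representation (uses GITA1, GITA2, GITE)

PROOF. `res` from `exists_res`. `RatSet k d` is not empty (e.g. `x = (coefficients of X^d; coefficients of Y^d)`), fix `x₀` in it.
`χ A := eval (act k d A x₀) res / eval x₀ res`; then `eval (act k d A x) res = χ A * eval x res` for all `x` (the constant
`c` of `exists_res` is `χ A`), `χ (A * B) = χ A * χ B` (`act_mul`), `χ 1 = 1` (`act_one`), so `χ A ≠ 0` and `χ A⁻¹ = (χ A)⁻¹`.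
The functions `A ↦ act k d A (Pi.single j 1) i` are polynomials in the entries of `A` (`act_map` for the evaluation of
`MvPolynomial (Fin 2 × Fin 2) k` at `A`, applied to the generic matrix), so in `glFun k`; so is `χ`; if `φ` is in `glFun k`, so is
`A ↦ φ A⁻¹` (`A⁻¹ = (det A)⁻¹ adj A`: `p(A⁻¹) = q(adj A, (det A)⁻¹)`, clear denominators by a power of `det A`; `glFun k` is an
algebra containing `(det A)⁻¹` and the entries, use `MvPolynomial.induction_on`); so `A ↦ (χ A)⁻¹` is in `glFun k`.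
The representation: block matrix, `Fin.snoc`/`Fin.lastCases`: `c i.castSucc j.castSucc = act (single j) i`, `c last last = χ⁻¹`, `0`
otherwise. `one`, `mul`: `act_single`, `act_one`, `act_mul`.
-/

set_option autoImplicit false

namespace Pool.Agent.MRat

open MvPolynomial


/-- values of a polynomial in elements of `glFun k` -/
theorem gitl_aeval {k : Type} [Field k] {σ : Type} (Φ : σ → glFun k) (P : MvPolynomial σ k)
    (A : GL2 k) : (aeval Φ P : glFun k).1 A = eval (fun i => (Φ i).1 A) P := by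
  induction P using MvPolynomial.induction_on with
  | C a =>
    rw [aeval_C, eval_C]
    rfl
  | add p q hp hq =>
    rw [map_add, map_add, ← hp, ← hq]
    rfl
  | mul_X p i hp =>
    rw [map_mul, map_mul, ← hp, aeval_X, eval_X]
    rfl

/-- an entry of the matrix -/
noncomputable def gitlEnt (k : Type) [Field k] (ij : Fin 2 × Fin 2) : glFun k :=
  ⟨fun A => A.1 ij.1 ij.2, X ij, 0, fun A => by
    rw [evM, eval_X, pow_zero, mul_one]⟩

/-- the determinant -/
noncomputable def gitlDet (k : Type) [Field k] : glFun k :=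
  ⟨fun A => A.1.det, X (0, 0) * X (1, 1) - X (0, 1) * X (1, 0), 0, fun A => by
    rw [evM, map_sub, map_mul, map_mul, eval_X, eval_X, eval_X, eval_X, pow_zero, mul_one]
    exact Matrix.det_fin_two A.1⟩

/-- the inverse of the determinant -/
noncomputable def gitlDetInv (k : Type) [Field k] : glFun k :=
  ⟨fun A => (A.1.det)⁻¹, 1, 1, fun A => by
    rw [evM, map_one, pow_one]
    exact inv_mul_cancel₀ ((Matrix.isUnit_iff_isUnit_det _).mp A.isUnit).ne_zero⟩

/-- the adjugate -/
noncomputable def gitlAdj (k : Type) [Field k] (ij : Fin 2 × Fin 2) : glFun k :=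
  match ij with
  | (0, 0) => gitlEnt k (1, 1)
  | (0, 1) => - gitlEnt k (0, 1)
  | (1, 0) => - gitlEnt k (1, 0)
  | (1, 1) => gitlEnt k (0, 0)

theorem gitlAdj_val (k : Type) [Field k] (ij : Fin 2 × Fin 2) (A : GL2 k) :
    (gitlAdj k ij).1 A = A.1.adjugate ij.1 ij.2 := by
  rw [Matrix.adjugate_fin_two]
  obtain ⟨i, j⟩ := ij
  fin_cases i <;> fin_cases j <;> simp [gitlAdj, gitlEnt]

/-- the inverse matrix -/
noncomputable def gitlInvEnt (k : Type) [Field k] (ij : Fin 2 × Fin 2) : glFun k :=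
  gitlDetInv k * gitlAdj k ij

theorem gitlInvEnt_val (k : Type) [Field k] (ij : Fin 2 × Fin 2) (A : GL2 k) :
    (gitlInvEnt k ij).1 A = (A⁻¹).1 ij.1 ij.2 := by
  have h1 : (A⁻¹).1 = (A.1)⁻¹ := by simp
  rw [h1, Matrix.inv_def, Ring.inverse_eq_inv']
  show (gitlDetInv k).1 A * (gitlAdj k ij).1 A = _
  rw [gitlAdj_val]
  rfl

/-- composition with the inversion -/
theorem gitl_inv {k : Type} [Field k] (φ : glFun k) :
    ∃ ψ : glFun k, ∀ A : GL2 k, ψ.1 A = φ.1 A⁻¹ := by
  obtain ⟨φ, p, m, h⟩ := φ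
  refine ⟨gitlDet k ^ m * aeval (gitlInvEnt k) p, fun A => ?_⟩
  have h1 := h A⁻¹
  show (gitlDet k ^ m * aeval (gitlInvEnt k) p : glFun k).1 A = φ A⁻¹
  have h2 : (gitlDet k ^ m * aeval (gitlInvEnt k) p : glFun k).1 A =
      (A.1.det) ^ m * (aeval (gitlInvEnt k) p : glFun k).1 A := rfl
  rw [h2, gitl_aeval]
  simp only [gitlInvEnt_val]
  have h3 : evM (A⁻¹).1 p = eval (fun i => (A⁻¹).1 i.1 i.2) p := rfl
  rw [← h3, ← h1]
  have h4 : A.1.det * (A⁻¹).1.det = 1 := by
    rw [← Matrix.det_mul, Units.mul_inv, Matrix.det_one]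
  calc A.1.det ^ m * (φ A⁻¹ * (A⁻¹).1.det ^ m) = φ A⁻¹ * (A.1.det * (A⁻¹).1.det) ^ m := by
        rw [mul_pow]; ring
    _ = φ A⁻¹ := by rw [h4, one_pow, mul_one]

/-- the generic matrix -/
noncomputable def gitlGen (k : Type) [Field k] : Matrix (Fin 2) (Fin 2) (MvPolynomial (Fin 2 × Fin 2) k) :=
  fun i j => X (i, j)

/-- the matrix entries of the action -/
noncomputable def gitlAct (k : Type) [Field k] (d : ℕ) (x : Fin ((d + 1) + (d + 1)) → k)
    (i : Fin ((d + 1) + (d + 1))) : glFun k :=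
  ⟨fun A => act k d A.1 x i,
    act (MvPolynomial (Fin 2 × Fin 2) k) d (gitlGen k) (fun l => C (x l)) i, 0, fun A => by
    have h := congrFun (act_map (MvPolynomial.eval (fun ij : Fin 2 × Fin 2 => A.1 ij.1 ij.2)) d
      (gitlGen k) (fun l => C (x l))) i
    rw [evM, h, pow_zero, mul_one]
    have h1 : (gitlGen k).map (MvPolynomial.eval (fun ij : Fin 2 × Fin 2 => A.1 ij.1 ij.2)) =
        A.1 := by
      ext a b
      simp [gitlGen]
    rw [h1]
    simp only [eval_C]⟩

theorem gitl_point (k : Type) [Field k] (d : ℕ) (hd : 1 ≤ d) :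
    ∃ x : Fin ((d + 1) + (d + 1)) → k, x ∈ RatSet k d := by
  refine ⟨Fin.append (fun i => if i = Fin.last d then 1 else 0) (fun i => if i = 0 then 1 else 0),
    ?_⟩
  intro v hv h
  have h0 := congrFun h 0
  have h1 := congrFun h 1
  simp only [pairMap, Matrix.cons_val_zero, Matrix.cons_val_one, Fin.append_left,
    Fin.append_right, ite_mul, one_mul, zero_mul, Finset.sum_ite_eq', Finset.mem_univ, if_true,
    Pi.zero_apply, Fin.val_last, Nat.sub_self, pow_zero, mul_one, Fin.val_zero,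
    Nat.sub_zero] at h0 h1
  apply hv
  have hd0 : d ≠ 0 := by omega
  funext i
  fin_cases i
  · exact (pow_eq_zero_iff hd0).mp h0
  · exact (pow_eq_zero_iff hd0).mp h1

theorem exists_rep {k : Type} [Field k] [IsAlgClosed k] (d : ℕ) (hd : 1 ≤ d) :
    ∃ (res : MvPolynomial (Fin ((d + 1) + (d + 1))) k) (ρ : LinRep k ((d + 1) + (d + 1) + 1)),
      (∀ x, eval x res ≠ 0 ↔ x ∈ RatSet k d) ∧
      (∀ (A : GL2 k) (z : Fin ((d + 1) + (d + 1) + 1) → k) (i : Fin ((d + 1) + (d + 1))),
        ρ.act A z i.castSucc = act k d A.1 (fun j => z j.castSucc) i) ∧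
      ∀ (A : GL2 k) (z : Fin ((d + 1) + (d + 1) + 1) → k),
        eval (fun j => ρ.act A z j.castSucc) res * ρ.act A z (Fin.last _) =
          eval (fun j => z j.castSucc) res * z (Fin.last _) := by
  obtain ⟨res, hres, hcov⟩ := exists_res (k := k) d hd
  obtain ⟨x₀, hx₀⟩ := gitl_point k d hd
  have he0 : eval x₀ res ≠ 0 := (hres x₀).mpr hx₀
  choose χ hχ using hcov
  have hχ1 : χ 1 = 1 := by
    have h := hχ 1 x₀
    rw [Units.val_one, act_one] at h
    exact (mul_right_cancel₀ he0 (by rw [one_mul]; exact h)).symm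
  have hχm : ∀ A B : GL2 k, χ (A * B) = χ A * χ B := by
    intro A B
    have h := hχ (A * B) x₀
    rw [Units.val_mul, act_mul, hχ A, hχ B, ← mul_assoc] at h
    exact (mul_right_cancel₀ he0 h).symm
  have hχi : ∀ A : GL2 k, χ A * χ A⁻¹ = 1 := by
    intro A
    rw [← hχm, mul_inv_cancel, hχ1]
  -- `χ` is a regular function
  obtain ⟨χf, hχf⟩ : ∃ χf : glFun k, ∀ A, χf.1 A = χ A := by
    refine ⟨algebraMap k (glFun k) (eval x₀ res)⁻¹ * aeval (gitlAct k d x₀) res, fun A => ?_⟩
    have h2 : (algebraMap k (glFun k) (eval x₀ res)⁻¹ * aeval (gitlAct k d x₀) res : glFun k).1 A =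
        (eval x₀ res)⁻¹ * (aeval (gitlAct k d x₀) res : glFun k).1 A := rfl
    rw [h2, gitl_aeval]
    have h3 : (fun i => (gitlAct k d x₀ i).1 A) = act k d A.1 x₀ := rfl
    rw [h3, hχ A x₀]
    field_simp
  obtain ⟨χi, hχi'⟩ := gitl_inv χf
  have hχiv : ∀ A, χi.1 A = χ A⁻¹ := fun A => by rw [hχi', hχf]
  -- the representation
  let cc : Fin ((d + 1) + (d + 1) + 1) → Fin ((d + 1) + (d + 1) + 1) → glFun k :=
    fun i j => Fin.lastCases (motive := fun _ => glFun k)
      (Fin.lastCases (motive := fun _ => glFun k) χi (fun _ => 0) j)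
      (fun i' => Fin.lastCases (motive := fun _ => glFun k) 0
        (fun j' => gitlAct k d (Pi.single j' 1) i') j) i
  have hcc1 : ∀ (i j : Fin ((d + 1) + (d + 1))), cc i.castSucc j.castSucc =
      gitlAct k d (Pi.single j 1) i := fun i j => by
    simp only [cc, Fin.lastCases_castSucc]
  have hcc2 : ∀ i : Fin ((d + 1) + (d + 1)), cc i.castSucc (Fin.last _) = 0 := fun i => by
    simp only [cc, Fin.lastCases_castSucc, Fin.lastCases_last]
  have hcc3 : ∀ j : Fin ((d + 1) + (d + 1)), cc (Fin.last _) j.castSucc = 0 := fun i => by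
    simp only [cc, Fin.lastCases_castSucc, Fin.lastCases_last]
  have hcc4 : cc (Fin.last _) (Fin.last _) = χi := by
    simp only [cc, Fin.lastCases_last]
  have hz : ∀ A : GL2 k, (0 : glFun k).1 A = 0 := fun A => rfl
  have key1 : ∀ (A : GL2 k) (z : Fin ((d + 1) + (d + 1) + 1) → k) (i : Fin ((d + 1) + (d + 1))),
      ∑ j, (cc i.castSucc j).1 A * z j = act k d A.1 (fun j => z j.castSucc) i := by
    intro A z i
    rw [Fin.sum_univ_castSucc, hcc2, hz, zero_mul, add_zero,
      act_single k d A.1 (fun j => z j.castSucc) i]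
    refine Finset.sum_congr rfl fun j _ => ?_
    rw [hcc1]
    rfl
  have key2 : ∀ (A : GL2 k) (z : Fin ((d + 1) + (d + 1) + 1) → k),
      ∑ j, (cc (Fin.last _) j).1 A * z j = χ A⁻¹ * z (Fin.last _) := by
    intro A z
    rw [Fin.sum_univ_castSucc, hcc4, hχiv]
    have : ∑ j : Fin ((d + 1) + (d + 1)), (cc (Fin.last _) j.castSucc).1 A * z j.castSucc = 0 := by
      refine Finset.sum_eq_zero fun j _ => ?_
      rw [hcc3, hz, zero_mul]
    rw [this, zero_add]
  refine ⟨res, ⟨cc, ?_, ?_⟩, hres, ?_, ?_⟩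
  · intro x i
    refine Fin.lastCases ?_ (fun i => ?_) i
    · rw [key2, inv_one, hχ1, one_mul]
    · rw [key1, Units.val_one, act_one]
  · intro A B x i
    refine Fin.lastCases ?_ (fun i => ?_) i
    · rw [key2, key2 A (fun j => ∑ l, (cc j l).1 B * x l), key2, mul_inv_rev, hχm]
      ring
    · rw [key1, key1 A (fun j => ∑ l, (cc j l).1 B * x l), Units.val_mul, act_mul]
      congr 1
      funext j
      rw [key1]
  · intro A z i
    exact key1 A z i
  · intro A z
    have h1 : (fun j : Fin ((d + 1) + (d + 1)) => ∑ l, (cc j.castSucc l).1 A * z l) =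
        act k d A.1 (fun j => z j.castSucc) := funext fun j => key1 A z j
    show eval (fun j : Fin ((d + 1) + (d + 1)) => ∑ l, (cc j.castSucc l).1 A * z l) res *
      (∑ l, (cc (Fin.last _) l).1 A * z l) = _
    rw [h1, key2, hχ A]
    calc χ A * eval (fun j : Fin ((d + 1) + (d + 1)) => z j.castSucc) res *
          (χ A⁻¹ * z (Fin.last _)) =
        (χ A * χ A⁻¹) * (eval (fun j : Fin ((d + 1) + (d + 1)) => z j.castSucc) res *
          z (Fin.last _)) := by ring
      _ = _ := by rw [hχi, one_mul]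

end Pool.Agent.MRat
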