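import Pool.Agent.Lib.MP_923aff_ag.GITBase
/-!
# JOB GITM1: the invariant functional on the polynomials in the entries of a 2x2 matrix (Haar integral of SL_2)

PROOF. Write `a = X (0,0)`, `b = X (0,1)`, `c = X (1,0)`, `d = X (1,1)`, `D = a d - b c`. Define `J` on monomials by
`J (a^i b^j c^l d^m) = (-1)^j * i! * j! / (i + j + 1)!` if `i = m` and `j = l`, and `0` otherwise (linear extension:
`MvPolynomial.basisMonomials` / `Finsupp.lift` / `Finsupp.linearCombination`).
(1) `J 1 = 1`.
(2) `J (p D) = J p`: enough for monomials `a^i b^j c^l d^m`. If `i = m`, `j = l`: `J (p a d) - J (p b c) =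
 (-1)^j (i+1)! j!/(i+j+2)! + (-1)^j i! (j+1)!/(i+j+2)! = (-1)^j i! j! (i+j+2)/(i+j+2)! = J p`; otherwise everything is `0`.
(3) Cayley's operator `Ω p = ∂_a ∂_d p - ∂_b ∂_c p` (`MvPolynomial.pderiv`). For `p` homogeneous of degree `2 N`:
 `J (Ω p) = N (N + 1) J p`. Enough for monomials of degree `2 N`: for `i = m`, `j = l`, `N = i + j`:
 `J (Ω p) = i^2 (-1)^j (i-1)! j!/(i+j)! - j^2 (-1)^(j-1) i! (j-1)!/(i+j)! = (-1)^j i! j! (i + j)/(i+j)!` and
 `N (N+1) J p` is the same number; otherwise all the terms are `0` (each term of `Ω` keeps `i - m` and `j - l`).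
(4) `Ω (p(A B)) = det B * (Ω p)(A B)`: from the chain rules `∂_a (p(AB)) = B₀₀ (∂_a p)(AB) + B₀₁ (∂_b p)(AB)`,
 `∂_b (p(AB)) = B₁₀ (∂_a p)(AB) + B₁₁ (∂_b p)(AB)`, and the same for `c, d` in place of `a, b` (prove them by
 `MvPolynomial.induction_on`, or generally: `∂_(i,l) (mulR B p) = ∑ m, C (B l m) * mulR B (∂_(i,m) p)`).
(5) By induction on `N`: `J (p(AB)) = det B ^ N * J p` for `p` homogeneous of degree `2 N`. For `N = 0` `p` is a constant.
 Step: `(N+1)(N+2) J (p(AB)) = J (Ω (p(AB))) = det B * J ((Ω p)(AB)) = det B * det B ^ N * J (Ω p)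
 = det B ^ (N+1) * (N+1) (N+2) * J p` (`p(AB)` is homogeneous of degree `2 N + 2`, `Ω p` of degree `2 N`).
-/

set_option autoImplicit false

namespace Pool.Agent.MRat

open MvPolynomial

variable {k : Type} [Field k]

/-- The polynomial `p(A B)` as a polynomial in `A`. -/
noncomputable def mulR (B : Matrix (Fin 2) (Fin 2) k) :
    MvPolynomial (Fin 2 × Fin 2) k →ₐ[k] MvPolynomial (Fin 2 × Fin 2) k :=
  aeval (fun ij : Fin 2 × Fin 2 => ∑ l : Fin 2, X (ij.1, l) * C (B l ij.2))

/-- The determinant. -/
noncomputable def detP (k : Type) [Field k] : MvPolynomial (Fin 2 × Fin 2) k :=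
  X (0, 0) * X (1, 1) - X (0, 1) * X (1, 0)

/-- values on monomials -/
noncomputable def m1_jj (k : Type) [Field k] (m : Fin 2 × Fin 2 →₀ ℕ) : k :=
  if m (0, 0) = m (1, 1) ∧ m (0, 1) = m (1, 0) then
    (-1) ^ (m (0, 1)) * ((m (0, 0)).factorial : k) * ((m (0, 1)).factorial : k) *
      (((m (0, 0) + m (0, 1) + 1).factorial : ℕ) : k)⁻¹
  else 0

/-- the functional -/
noncomputable def m1_J (k : Type) [Field k] : MvPolynomial (Fin 2 × Fin 2) k →ₗ[k] k :=
  (basisMonomials (Fin 2 × Fin 2) k).constr k (m1_jj k)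

theorem m1_J_monomial (m : Fin 2 × Fin 2 →₀ ℕ) (c : k) :
    m1_J k (monomial m c) = c * m1_jj k m := by
  have h1 : (monomial m c : MvPolynomial (Fin 2 × Fin 2) k) =
      c • (basisMonomials (Fin 2 × Fin 2) k m) := by
    rw [coe_basisMonomials, smul_monomial, smul_eq_mul, mul_one]
  rw [h1, map_smul, m1_J, Module.Basis.constr_basis, smul_eq_mul]

theorem m1_mul_detP (m : Fin 2 × Fin 2 →₀ ℕ) :
    (monomial m 1 : MvPolynomial (Fin 2 × Fin 2) k) * detP k =
      monomial (m + (Finsupp.single (0, 0) 1 + Finsupp.single (1, 1) 1)) 1 -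
      monomial (m + (Finsupp.single (0, 1) 1 + Finsupp.single (1, 0) 1)) 1 := by
  unfold detP
  rw [mul_sub, X, X, X, X, monomial_mul, monomial_mul, monomial_mul, monomial_mul]
  simp

theorem m1_J_detP [CharZero k] (p : MvPolynomial (Fin 2 × Fin 2) k) :
    m1_J k (p * detP k) = m1_J k p := by
  have h1 : (m1_J k) ∘ₗ (LinearMap.mulRight k (detP k)) = m1_J k := by
    apply (basisMonomials (Fin 2 × Fin 2) k).ext
    intro m
    rw [LinearMap.comp_apply, LinearMap.mulRight_apply, coe_basisMonomials]
    change m1_J k ((monomial m 1 : MvPolynomial (Fin 2 × Fin 2) k) * detP k) =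
      m1_J k (monomial m 1)
    rw [m1_mul_detP, map_sub, m1_J_monomial, m1_J_monomial, m1_J_monomial]
    simp only [one_mul]
    unfold m1_jj
    simp only [Finsupp.add_apply, Finsupp.single_apply, Prod.mk.injEq]
    norm_num
    by_cases h : m (0, 0) = m (1, 1) ∧ m (0, 1) = m (1, 0)
    · rw [if_pos h, if_pos h, if_pos h]
      set i := m (0, 0)
      set j := m (0, 1)
      have e1 : ((i + j + 1 + 1).factorial : k) = ((i + j + 1 + 1 : ℕ) : k) *
          ((i + j + 1).factorial : k) := by
        rw [Nat.factorial_succ]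
        push_cast
        ring
      have e2 : ((i + 1).factorial : k) = ((i : k) + 1) * (i.factorial : k) := by
        rw [Nat.factorial_succ]
        push_cast
        ring
      have e3 : ((j + 1).factorial : k) = ((j : k) + 1) * (j.factorial : k) := by
        rw [Nat.factorial_succ]
        push_cast
        ring
      have e4 : i + 1 + j + 1 = i + j + 1 + 1 := by ring
      have e5 : i + (j + 1) + 1 = i + j + 1 + 1 := by ring
      rw [e4, e5, e1, e2, e3]
      have f1 : ((i + j + 1).factorial : k) ≠ 0 := by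
        exact_mod_cast (Nat.factorial_pos _).ne'
      have f2 : ((i + j + 1 + 1 : ℕ) : k) ≠ 0 := Nat.cast_ne_zero.2 (Nat.succ_ne_zero _)
      field_simp
      push_cast
      ring
    · rw [if_neg h, if_neg h, if_neg h]
      ring
  exact LinearMap.congr_fun h1 p

/-- Cayley's operator -/
noncomputable def m1_Om (k : Type) [Field k] :
    MvPolynomial (Fin 2 × Fin 2) k →ₗ[k] MvPolynomial (Fin 2 × Fin 2) k :=
  (pderiv (R := k) ((0, 0) : Fin 2 × Fin 2)).toLinearMap ∘ₗ
    (pderiv (R := k) ((1, 1) : Fin 2 × Fin 2)).toLinearMap -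
  (pderiv (R := k) ((0, 1) : Fin 2 × Fin 2)).toLinearMap ∘ₗ
    (pderiv (R := k) ((1, 0) : Fin 2 × Fin 2)).toLinearMap

theorem m1_Om_apply (p : MvPolynomial (Fin 2 × Fin 2) k) :
    m1_Om k p = pderiv (0, 0) (pderiv (1, 1) p) - pderiv (0, 1) (pderiv (1, 0) p) := rfl

theorem m1_J_Om_monomial [CharZero k] (m : Fin 2 × Fin 2 →₀ ℕ) :
    m1_J k (m1_Om k (monomial m 1)) =
      ((m (0, 0) + m (0, 1) : ℕ) : k) * ((m (0, 0) + m (0, 1) + 1 : ℕ) : k) * m1_jj k m := by
  rw [m1_Om_apply, pderiv_monomial, pderiv_monomial, pderiv_monomial, pderiv_monomial, map_sub,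
    m1_J_monomial, m1_J_monomial]
  unfold m1_jj
  simp only [Finsupp.tsub_apply, Finsupp.single_apply, Prod.mk.injEq]
  norm_num
  obtain ⟨i, hi⟩ : ∃ i, m (0, 0) = i := ⟨_, rfl⟩
  obtain ⟨l, hl⟩ : ∃ l, m (1, 1) = l := ⟨_, rfl⟩
  obtain ⟨j, hj⟩ : ∃ j, m (0, 1) = j := ⟨_, rfl⟩
  obtain ⟨j', hj'⟩ : ∃ j', m (1, 0) = j' := ⟨_, rfl⟩
  rw [hi, hl, hj, hj']
  by_cases h : i = l ∧ j = j'
  · obtain ⟨rfl, rfl⟩ := h
    simp only [and_self, if_true]
    rcases i with - | i
    · rcases j with - | j
      · simp
      · have e3 : ((j + 1).factorial : k) = ((j : k) + 1) * (j.factorial : k) := by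
          rw [Nat.factorial_succ]
          push_cast
          ring
        have e4 : ((j + 1 + 1).factorial : k) = ((j : k) + 1 + 1) * (((j : k) + 1) *
            (j.factorial : k)) := by
          rw [Nat.factorial_succ, Nat.factorial_succ]
          push_cast
          ring
        have f1 : (j.factorial : k) ≠ 0 := by exact_mod_cast (Nat.factorial_pos _).ne'
        have f2 : (j : k) + 1 ≠ 0 := by exact_mod_cast Nat.succ_ne_zero j
        have f3 : (j : k) + 1 + 1 ≠ 0 := by exact_mod_cast Nat.succ_ne_zero (j + 1)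
        simp only [Nat.factorial_zero, Nat.cast_zero, zero_add, Nat.add_sub_cancel, e3, e4]
        push_cast
        field_simp
        ring
    · rcases j with - | j
      · have e3 : ((i + 1).factorial : k) = ((i : k) + 1) * (i.factorial : k) := by
          rw [Nat.factorial_succ]
          push_cast
          ring
        have e4 : ((i + 1 + 1).factorial : k) = ((i : k) + 1 + 1) * (((i : k) + 1) *
            (i.factorial : k)) := by
          rw [Nat.factorial_succ, Nat.factorial_succ]
          push_cast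
          ring
        have f1 : (i.factorial : k) ≠ 0 := by exact_mod_cast (Nat.factorial_pos _).ne'
        have f2 : (i : k) + 1 ≠ 0 := by exact_mod_cast Nat.succ_ne_zero i
        have f3 : (i : k) + 1 + 1 ≠ 0 := by exact_mod_cast Nat.succ_ne_zero (i + 1)
        simp only [Nat.factorial_zero, Nat.cast_zero, add_zero, Nat.add_sub_cancel, e3, e4]
        push_cast
        field_simp
        ring
      · have e1 : ((i + 1).factorial : k) = ((i : k) + 1) * (i.factorial : k) := by
          rw [Nat.factorial_succ]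
          push_cast
          ring
        have e2 : ((j + 1).factorial : k) = ((j : k) + 1) * (j.factorial : k) := by
          rw [Nat.factorial_succ]
          push_cast
          ring
        have e4 : ((i + 1 + (j + 1) + 1).factorial : k) = ((i : k) + j + 3) *
            ((i + j + 1 + 1).factorial : k) := by
          rw [show i + 1 + (j + 1) + 1 = (i + j + 1 + 1) + 1 by ring, Nat.factorial_succ]
          push_cast
          ring
        have f1 : ((i + j + 1 + 1).factorial : k) ≠ 0 := by
          exact_mod_cast (Nat.factorial_pos _).ne'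
        have f3 : (i : k) + j + 3 ≠ 0 := by exact_mod_cast Nat.succ_ne_zero (i + j + 2)
        simp only [Nat.add_sub_cancel]
        rw [show i + (j + 1) + 1 = i + j + 1 + 1 by ring,
          show i + 1 + j + 1 = i + j + 1 + 1 by ring, e1, e2, e4]
        push_cast
        field_simp
        ring
  · rw [if_neg h]
    have h1 : (if i - 1 = l - 1 ∧ j = j' then (l : k) * i *
        ((-1) ^ j * ((i - 1).factorial : k) * (j.factorial : k) *
          (((i - 1 + j + 1).factorial : ℕ) : k)⁻¹) else 0) = 0 := by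
      by_cases h2 : i = 0
      · subst h2
        simp
      · by_cases h3 : l = 0
        · subst h3
          simp
        · rw [if_neg]
          rintro ⟨h4, h5⟩
          exact h ⟨by omega, h5⟩
    have h2 : (if i = l ∧ j - 1 = j' - 1 then (j' : k) * j *
        ((-1) ^ (j - 1) * (i.factorial : k) * ((j - 1).factorial : k) *
          (((i + (j - 1) + 1).factorial : ℕ) : k)⁻¹) else 0) = 0 := by
      by_cases h2 : j = 0
      · subst h2
        simp
      · by_cases h3 : j' = 0
        · subst h3
          simp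
        · rw [if_neg]
          rintro ⟨h4, h5⟩
          exact h ⟨h4, by omega⟩
    rw [h1, h2, sub_zero]

theorem m1_J_Om [CharZero k] (N : ℕ) (p : MvPolynomial (Fin 2 × Fin 2) k)
    (hp : p.IsHomogeneous (2 * N)) :
    m1_J k (m1_Om k p) = ((N : ℕ) : k) * ((N + 1 : ℕ) : k) * m1_J k p := by
  have h1 : ∀ m ∈ p.support, m1_J k (m1_Om k (monomial m (coeff m p))) =
      ((N : ℕ) : k) * ((N + 1 : ℕ) : k) * m1_J k (monomial m (coeff m p)) := by
    intro m hm
    have h2 : (monomial m (coeff m p) : MvPolynomial (Fin 2 × Fin 2) k) =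
        coeff m p • monomial m 1 := by
      rw [smul_monomial, smul_eq_mul, mul_one]
    rw [h2, map_smul, map_smul, map_smul, m1_J_Om_monomial, m1_J_monomial, one_mul]
    by_cases h3 : m (0, 0) = m (1, 1) ∧ m (0, 1) = m (1, 0)
    · have h4 := hp (mem_support_iff.1 hm)
      have h5 : m.degree = m (0, 0) + m (0, 1) + (m (1, 0) + m (1, 1)) := by
        rw [Finsupp.degree_eq_sum, Fintype.sum_prod_type]
        simp only [Fin.sum_univ_two]
      have h6 : m.degree = 2 * N := by
        rw [← h4, Finsupp.degree_eq_weight_one]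
        rfl
      have h7 : m (0, 0) + m (0, 1) = N := by omega
      rw [h7]
      simp only [smul_eq_mul]
      ring
    · have h4 : m1_jj k m = 0 := by
        unfold m1_jj
        rw [if_neg h3]
      rw [h4]
      simp
  conv_lhs => rw [p.as_sum]
  conv_rhs => rw [p.as_sum]
  rw [map_sum, map_sum, map_sum, Finset.mul_sum]
  exact Finset.sum_congr rfl h1

theorem m1_pderiv_mulR (B : Matrix (Fin 2) (Fin 2) k) (i l : Fin 2)
    (p : MvPolynomial (Fin 2 × Fin 2) k) :
    pderiv (i, l) (mulR B p) = ∑ m : Fin 2, C (B l m) * mulR B (pderiv (i, m) p) := by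
  induction p using MvPolynomial.induction_on with
  | C a => simp [mulR]
  | add p q hp hq =>
    rw [map_add, map_add, hp, hq, ← Finset.sum_add_distrib]
    apply Finset.sum_congr rfl
    intro m _
    rw [map_add, map_add]
    ring
  | mul_X p s hp =>
    obtain ⟨a, b⟩ := s
    have hX : mulR B (X (a, b)) = ∑ c : Fin 2, X (a, c) * C (B c b) := by
      simp [mulR]
    have hd : pderiv (i, l) (mulR B (X (a, b))) = if a = i then C (B l b) else 0 := by
      rw [hX, map_sum]
      have h1 : ∀ c : Fin 2, pderiv (i, l) (X (a, c) * C (B c b) : MvPolynomial (Fin 2 × Fin 2) k) =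
          if a = i ∧ c = l then C (B l b) else 0 := by
        intro c
        rw [pderiv_mul, pderiv_C, mul_zero, add_zero, pderiv_X]
        by_cases h2 : a = i ∧ c = l
        · obtain ⟨rfl, rfl⟩ := h2
          simp
        · rw [if_neg h2, Pi.single_eq_of_ne, zero_mul]
          intro h3
          rw [Prod.mk.injEq] at h3
          exact h2 h3
      rw [Finset.sum_congr rfl (fun c _ => h1 c)]
      by_cases h2 : a = i
      · simp [h2]
      · simp [h2]
    have hd2 : ∀ m : Fin 2, mulR B (pderiv (i, m) (X (a, b))) =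
        if a = i ∧ b = m then 1 else 0 := by
      intro m
      rw [pderiv_X]
      by_cases h2 : a = i ∧ b = m
      · obtain ⟨rfl, rfl⟩ := h2
        simp
      · rw [if_neg h2, Pi.single_eq_of_ne, map_zero]
        intro h3
        rw [Prod.mk.injEq] at h3
        exact h2 h3
    rw [map_mul, pderiv_mul, hp, hd]
    have h3 : ∀ m : Fin 2, C (B l m) * mulR B (pderiv (i, m) (p * X (a, b))) =
        (C (B l m) * mulR B (pderiv (i, m) p)) * mulR B (X (a, b)) +
          (mulR B p) * (if a = i ∧ b = m then C (B l m) else 0) := by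
      intro m
      rw [pderiv_mul, map_add, map_mul, map_mul, hd2]
      split_ifs
      · ring
      · ring
    rw [Finset.sum_congr rfl (fun m _ => h3 m), Finset.sum_add_distrib, ← Finset.sum_mul,
      ← Finset.mul_sum]
    congr 2
    by_cases h2 : a = i
    · simp [h2]
    · simp [h2]

theorem m1_Om_mulR (B : Matrix (Fin 2) (Fin 2) k) (p : MvPolynomial (Fin 2 × Fin 2) k) :
    m1_Om k (mulR B p) = C B.det * mulR B (m1_Om k p) := by
  rw [m1_Om_apply, m1_Om_apply, m1_pderiv_mulR, m1_pderiv_mulR, Matrix.det_fin_two]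
  simp only [Fin.sum_univ_two, map_add, pderiv_mul, pderiv_C, zero_mul, zero_add,
    m1_pderiv_mulR, map_sub, map_mul]
  ring

theorem exists_J0 [CharZero k] : ∃ J : MvPolynomial (Fin 2 × Fin 2) k →ₗ[k] k,
    J 1 = 1 ∧ (∀ p, J (p * detP k) = J p) ∧
    ∀ (B : Matrix (Fin 2) (Fin 2) k) (N : ℕ) (p : MvPolynomial (Fin 2 × Fin 2) k),
      p.IsHomogeneous (2 * N) → J (mulR B p) = B.det ^ N * J p := by
  refine ⟨m1_J k, ?_, m1_J_detP, ?_⟩
  · have h1 : (1 : MvPolynomial (Fin 2 × Fin 2) k) = monomial 0 1 := rfl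
    rw [h1, m1_J_monomial]
    simp [m1_jj]
  · intro B N
    induction N with
    | zero =>
      intro p hp
      have h1 : p = C (p.coeff 0) := by
        apply totalDegree_eq_zero_iff_eq_C.1
        exact Nat.le_zero.1 hp.totalDegree_le
      rw [h1, mulR, algHom_C, pow_zero, one_mul]
      rfl
    | succ N ih =>
      intro p hp
      have h1 : (mulR B p).IsHomogeneous (2 * (N + 1)) := by
        have := hp.aeval (n := 1) (fun ij : Fin 2 × Fin 2 => ∑ l : Fin 2, X (ij.1, l) *
          C (B l ij.2)) (fun ij => by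
            apply IsHomogeneous.sum
            intro l _
            have e1 := (isHomogeneous_X k (ij.1, l)).mul (isHomogeneous_C (Fin 2 × Fin 2) (B l ij.2))
            exact e1)
        rw [one_mul] at this
        exact this
      have h2 : (m1_Om k p).IsHomogeneous (2 * N) := by
        rw [m1_Om_apply]
        have e1 := (hp.pderiv (i := ((1, 1) : Fin 2 × Fin 2))).pderiv
          (i := ((0, 0) : Fin 2 × Fin 2))
        have e2 := (hp.pderiv (i := ((1, 0) : Fin 2 × Fin 2))).pderiv
          (i := ((0, 1) : Fin 2 × Fin 2))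
        have e3 : 2 * (N + 1) - 1 - 1 = 2 * N := by omega
        rw [e3] at e1 e2
        exact e1.sub e2
      have h3 := m1_J_Om (N + 1) (mulR B p) h1
      have h4 := m1_J_Om (N + 1) p hp
      have h5 := ih (m1_Om k p) h2
      rw [m1_Om_mulR, C_mul', map_smul, smul_eq_mul, h5, h4] at h3
      have f1 : ((N + 1 : ℕ) : k) * ((N + 1 + 1 : ℕ) : k) ≠ 0 :=
        mul_ne_zero (Nat.cast_ne_zero.2 (Nat.succ_ne_zero _))
          (Nat.cast_ne_zero.2 (Nat.succ_ne_zero _))
      apply mul_left_cancel₀ f1
      rw [← h3, pow_succ]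
      ring

end Pool.Agent.MRat
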