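import Pool.Agent.Lib.MP_923aff_ag.GITM1
/-!
# JOB GITM2: the invariant mean on the regular functions on `GL₂(k)`

PROOF (uses `exists_J0` of GITM1, call it `J0`). For `φ` in `glFun k` choose `p`, `m` with `φ A * det A ^ m = p(A)` and put
`J φ := J0 (homogeneousComponent (2 * m) p)`. Well-defined: if also `φ A * det A ^ m' = q(A)`, then `p * detP ^ m'` and
`q * detP ^ m` agree at all invertible matrices, so `(p * detP ^ m' - q * detP ^ m) * detP` vanishes at all matrices, is `0`
(`MvPolynomial.funext`, `k` infinite), and `detP ≠ 0`, so `p * detP ^ m' = q * detP ^ m`. Homogeneous components of degree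
`2 m + 2 m'` (`detP` is homogeneous of degree 2): `p_(2m) * detP ^ m' = q_(2m') * detP ^ m`, now apply `J0` and
`J0 (p * detP) = J0 p`. Linearity: bring to a common `m` by well-definedness. `J 1 = 1` with `p = 1`, `m = 0`.
Invariance: if `ψ A = φ (A * B)` and `(p, m)` represents `φ`, then `(C (det B)⁻¹ ^ m * mulR B p, m)` represents `ψ`
(`evM A (mulR B p) = evM (A * B) p`), `mulR B` commutes with homogeneous components, and
`J0 (mulR B p_(2m)) = det B ^ m * J0 p_(2m)`.
-/

set_option autoImplicit false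

namespace Pool.Agent.MRat

open MvPolynomial

variable {k : Type} [Field k]

private theorem gitm2_comp (T : MvPolynomial (Fin 2 × Fin 2) k →ₗ[k] MvPolynomial (Fin 2 × Fin 2) k)
    (e : ℕ) (hT : ∀ (i : ℕ) (q : MvPolynomial (Fin 2 × Fin 2) k), q.IsHomogeneous i →
      (T q).IsHomogeneous (i + e)) (n : ℕ) (p : MvPolynomial (Fin 2 × Fin 2) k) :
    homogeneousComponent (n + e) (T p) = T (homogeneousComponent n p) := by
  conv_lhs => rw [← sum_homogeneousComponent p]
  rw [map_sum, map_sum]
  have h1 : ∀ i ∈ Finset.range (p.totalDegree + 1),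
      homogeneousComponent (n + e) (T (homogeneousComponent i p)) =
        if n = i then T (homogeneousComponent n p) else 0 := by
    intro i _
    rw [homogeneousComponent_of_mem
      ((mem_homogeneousSubmodule _ _).mpr (hT i _ (homogeneousComponent_isHomogeneous i p)))]
    by_cases h : n = i
    · subst h
      rw [if_pos rfl, if_pos rfl]
    · rw [if_neg h, if_neg (by omega)]
  rw [Finset.sum_congr rfl h1, Finset.sum_ite_eq]
  by_cases h : n ∈ Finset.range (p.totalDegree + 1)
  · rw [if_pos h]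
  · rw [if_neg h, homogeneousComponent_eq_zero n p (by
      rw [Finset.mem_range] at h
      omega), map_zero]

private theorem gitm2_detP_hom : (detP k).IsHomogeneous 2 := by
  unfold detP
  exact ((isHomogeneous_X k (0, 0)).mul (isHomogeneous_X k (1, 1))).sub
    ((isHomogeneous_X k (0, 1)).mul (isHomogeneous_X k (1, 0)))

private theorem gitm2_comp_det (n m : ℕ) (p : MvPolynomial (Fin 2 × Fin 2) k) :
    homogeneousComponent (n + 2 * m) (p * detP k ^ m) = homogeneousComponent n p * detP k ^ m := by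
  refine gitm2_comp (LinearMap.mulRight k (detP k ^ m)) (2 * m) (fun i q hq => ?_) n p
  have h1 := hq.mul (gitm2_detP_hom.pow m)
  exact h1

private theorem gitm2_mulR_hom (B : Matrix (Fin 2) (Fin 2) k) (i : ℕ)
    (q : MvPolynomial (Fin 2 × Fin 2) k) (hq : q.IsHomogeneous i) :
    (mulR B q).IsHomogeneous i := by
  unfold mulR
  have h1 := hq.aeval (S := k) (n := 1)
    (fun ij : Fin 2 × Fin 2 => ∑ l : Fin 2, X (ij.1, l) * C (B l ij.2)) (fun ij => by
      refine IsHomogeneous.sum _ _ _ fun l _ => ?_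
      exact (isHomogeneous_X k (ij.1, l)).mul (isHomogeneous_C _ (B l ij.2)))
  rwa [one_mul] at h1

private theorem gitm2_comp_mulR (B : Matrix (Fin 2) (Fin 2) k) (n : ℕ)
    (p : MvPolynomial (Fin 2 × Fin 2) k) :
    homogeneousComponent n (mulR B p) = mulR B (homogeneousComponent n p) :=
  gitm2_comp (mulR B).toLinearMap 0 (fun i q hq => gitm2_mulR_hom B i q hq) n p

private theorem gitm2_evM_mulR (A B : Matrix (Fin 2) (Fin 2) k)
    (p : MvPolynomial (Fin 2 × Fin 2) k) : evM A (mulR B p) = evM (A * B) p := by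
  unfold evM mulR
  rw [aeval_def, eval₂_eq_eval_map, ← eval₂_eq_eval_map]
  induction p using MvPolynomial.induction_on with
  | C a => rw [eval₂_C, eval_C]; exact eval_C a
  | add p q hp hq => rw [eval₂_add, map_add, hp, hq, map_add]
  | mul_X p n hp =>
    rw [eval₂_mul, map_mul, hp, map_mul, eval₂_X, eval_X, map_sum, Matrix.mul_apply]
    congr 1
    exact Finset.sum_congr rfl fun l _ => by rw [map_mul, eval_X, eval_C]

private theorem gitm2_evM_detP (A : Matrix (Fin 2) (Fin 2) k) : evM A (detP k) = A.det := by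
  unfold evM detP
  rw [Matrix.det_fin_two, map_sub, map_mul, map_mul, eval_X, eval_X, eval_X, eval_X]

private theorem gitm2_unique [CharZero k] (φ : GL2 k → k) (p q : MvPolynomial (Fin 2 × Fin 2) k)
    (m n : ℕ) (hp : ∀ A : GL2 k, φ A * A.1.det ^ m = evM A.1 p)
    (hq : ∀ A : GL2 k, φ A * A.1.det ^ n = evM A.1 q) :
    p * detP k ^ n = q * detP k ^ m := by
  have h1 : (p * detP k ^ n - q * detP k ^ m) * detP k = 0 := by
    refine MvPolynomial.funext fun a => ?_
    have h2 : ∀ r : MvPolynomial (Fin 2 × Fin 2) k,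
        eval a r = evM (Matrix.of fun i j => a (i, j)) r := fun r => rfl
    rw [h2, map_zero]
    set A : Matrix (Fin 2) (Fin 2) k := Matrix.of fun i j => a (i, j) with hA
    have h3 : evM A ((p * detP k ^ n - q * detP k ^ m) * detP k) =
        (evM A p * A.det ^ n - evM A q * A.det ^ m) * A.det := by
      rw [← gitm2_evM_detP A]
      unfold evM
      rw [map_mul, map_sub, map_mul, map_mul, map_pow, map_pow]
    rw [h3]
    by_cases hd : A.det = 0
    · rw [hd, mul_zero]
    · have hu : IsUnit A := (Matrix.isUnit_iff_isUnit_det A).mpr (isUnit_iff_ne_zero.mpr hd)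
      obtain ⟨U, hU⟩ := hu
      rw [← hU, ← hp U, ← hq U]
      ring
  have h4 : detP k ≠ 0 := by
    intro h
    have h5 := gitm2_evM_detP (1 : Matrix (Fin 2) (Fin 2) k)
    rw [h, Matrix.det_one] at h5
    unfold evM at h5
    rw [map_zero] at h5
    exact zero_ne_one h5
  exact sub_eq_zero.mp ((mul_eq_zero.mp h1).resolve_right h4)

theorem exists_mean [CharZero k] : ∃ J : glFun k →ₗ[k] k, J 1 = 1 ∧
    ∀ (φ ψ : glFun k) (B : GL2 k), (∀ A, ψ.1 A = φ.1 (A * B)) → J ψ = J φ := by
  classical
  obtain ⟨J0, h1, hdet, hinv⟩ := exists_J0 (k := k)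
  have hdet' : ∀ (m : ℕ) (p : MvPolynomial (Fin 2 × Fin 2) k), J0 (p * detP k ^ m) = J0 p := by
    intro m
    induction m with
    | zero => intro p; rw [pow_zero, mul_one]
    | succ m ih => intro p; rw [pow_succ, ← mul_assoc, hdet, ih]
  choose P M hPM using fun φ : glFun k => φ.2
  have key : ∀ (φ : glFun k) (q : MvPolynomial (Fin 2 × Fin 2) k) (n : ℕ),
      (∀ A : GL2 k, φ.1 A * A.1.det ^ n = evM A.1 q) →
      J0 (homogeneousComponent (2 * M φ) (P φ)) = J0 (homogeneousComponent (2 * n) q) := by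
    intro φ q n hq
    have e1 := gitm2_unique φ.1 (P φ) q (M φ) n (hPM φ) hq
    have e2 := gitm2_comp_det (2 * M φ) n (P φ)
    have e3 := gitm2_comp_det (2 * n) (M φ) q
    rw [e1, add_comm, e3] at e2
    rw [← hdet' n, ← e2, hdet']
  refine ⟨{ toFun := fun φ => J0 (homogeneousComponent (2 * M φ) (P φ))
            map_add' := ?_
            map_smul' := ?_ }, ?_, ?_⟩
  · intro φ ψ
    have e1 := key (φ + ψ) (P φ * detP k ^ M ψ + P ψ * detP k ^ M φ) (M φ + M ψ) (by
      intro A
      have e2 : evM A.1 (P φ * detP k ^ M ψ + P ψ * detP k ^ M φ) =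
          evM A.1 (P φ) * A.1.det ^ M ψ + evM A.1 (P ψ) * A.1.det ^ M φ := by
        rw [← gitm2_evM_detP A.1]
        unfold evM
        rw [map_add, map_mul, map_mul, map_pow, map_pow]
      rw [e2, ← hPM φ A, ← hPM ψ A]
      change (φ.1 A + ψ.1 A) * A.1.det ^ (M φ + M ψ) = _
      rw [pow_add]
      ring)
    rw [e1, map_add, map_add]
    have e3 := gitm2_comp_det (2 * M φ) (M ψ) (P φ)
    have e4 := gitm2_comp_det (2 * M ψ) (M φ) (P ψ)
    rw [show 2 * (M φ + M ψ) = 2 * M φ + 2 * M ψ by ring, e3, hdet',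
      show 2 * M φ + 2 * M ψ = 2 * M ψ + 2 * M φ by ring, e4, hdet']
  · intro c φ
    have e1 := key (c • φ) (C c * P φ) (M φ) (by
      intro A
      have e2 : evM A.1 (C c * P φ) = c * evM A.1 (P φ) := by
        unfold evM
        rw [map_mul, eval_C]
      rw [e2, ← hPM φ A]
      change (c * φ.1 A) * A.1.det ^ M φ = _
      ring)
    rw [e1, homogeneousComponent_C_mul, ← smul_eq_C_mul, map_smul, RingHom.id_apply]
  · have e1 := key 1 1 0 (by
      intro A
      have e2 : evM A.1 (1 : MvPolynomial (Fin 2 × Fin 2) k) = 1 := by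
        unfold evM
        rw [map_one]
      rw [e2]
      change (1 : k) * A.1.det ^ 0 = 1
      rw [pow_zero, mul_one])
    change J0 (homogeneousComponent (2 * M 1) (P 1)) = 1
    rw [e1, mul_zero, homogeneousComponent_zero, coeff_zero_one, C_1, h1]
  · intro φ ψ B hψ
    have hB : B.1.det ≠ 0 := by
      have := (Matrix.isUnit_iff_isUnit_det B.1).mp B.isUnit
      exact this.ne_zero
    have e1 := key ψ (C (B.1.det⁻¹ ^ M φ) * mulR B.1 (P φ)) (M φ) (by
      intro A
      have e2 : evM A.1 (C (B.1.det⁻¹ ^ M φ) * mulR B.1 (P φ)) =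
          B.1.det⁻¹ ^ M φ * evM (A.1 * B.1) (P φ) := by
        rw [← gitm2_evM_mulR]
        unfold evM
        rw [map_mul, eval_C]
      have e3 := hPM φ (A * B)
      rw [Units.val_mul] at e3
      rw [e2, ← e3, hψ, Matrix.det_mul, mul_pow, inv_pow]
      field_simp)
    change J0 (homogeneousComponent (2 * M ψ) (P ψ)) = J0 (homogeneousComponent (2 * M φ) (P φ))
    rw [e1, homogeneousComponent_C_mul, gitm2_comp_mulR, ← smul_eq_C_mul, map_smul,
      hinv B.1 (M φ) _ (homogeneousComponent_isHomogeneous _ _), smul_eq_mul, ← mul_assoc,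
      ← mul_pow, inv_mul_cancel₀ hB, one_pow, one_mul]

end Pool.Agent.MRat
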