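import Pool.Agent.Lib.MP_923aff_ag.GITM2
/-!
# JOB GITR: the Reynolds operator
-/

set_option autoImplicit false

namespace Pool.Agent.MRat

open MvPolynomial

variable {k : Type} [Field k]

/-- The coaction. -/
noncomputable def gitr_co {n : ℕ} (ρ : LinRep k n) :
    MvPolynomial (Fin n) k →ₐ[k] MvPolynomial (Fin n) (glFun k) :=
  aeval (fun i => ∑ j, C (ρ.c i j) * X j)

/-- The function `A ↦ P (A x)`. -/
noncomputable def gitr_phi {n : ℕ} (ρ : LinRep k n) (P : MvPolynomial (Fin n) k)
    (x : Fin n → k) : glFun k :=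
  eval (fun i => algebraMap k (glFun k) (x i)) (gitr_co ρ P)

theorem gitr_phi_val {n : ℕ} (ρ : LinRep k n) (P : MvPolynomial (Fin n) k)
    (x : Fin n → k) (A : GL2 k) : (gitr_phi ρ P x).1 A = eval (ρ.act A x) P := by
  unfold gitr_phi gitr_co
  induction P using MvPolynomial.induction_on with
  | C a =>
    rw [aeval_C, eval_C, MvPolynomial.algebraMap_apply, eval_C]
    rfl
  | add p q hp hq =>
    rw [map_add, map_add, map_add, ← hp, ← hq]
    rfl
  | mul_X p i hp =>
    rw [map_mul, map_mul, map_mul, ← hp, aeval_X, map_sum, eval_X]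
    have hmul : ∀ a b : glFun k, (a * b).1 A = a.1 A * b.1 A := fun _ _ => rfl
    rw [hmul]
    congr 1
    simp only [map_mul, eval_C, eval_X]
    unfold LinRep.act
    have : ∀ (s : Finset (Fin n)) (F : Fin n → glFun k), (∑ j ∈ s, F j).1 A = ∑ j ∈ s, (F j).1 A := by
      intro s F
      rw [AddSubmonoidClass.coe_finsetSum, Finset.sum_apply]
    rw [this]
    rfl

theorem reynolds [CharZero k] {n : ℕ} (ρ : LinRep k n) :
    ∃ E : MvPolynomial (Fin n) k →ₗ[k] MvPolynomial (Fin n) k,
      (∀ P A x, eval (ρ.act A x) (E P) = eval x (E P)) ∧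
      (∀ P x (c : k), (∀ A, eval (ρ.act A x) P = c) → eval x (E P) = c) ∧
      (∀ h P x, (∀ A, eval (ρ.act A x) h = eval x h) →
        eval x (E (h * P)) = eval x h * eval x (E P)) ∧
      (∀ P e, P.IsHomogeneous e → (E P).IsHomogeneous e) := by
  obtain ⟨J, hJ1, hJinv⟩ := exists_mean (k := k)
  have hJc : ∀ c : k, J (algebraMap k (glFun k) c) = c := by
    intro c
    rw [Algebra.algebraMap_eq_smul_one, map_smul, hJ1, smul_eq_mul, mul_one]
  -- the operator as a function
  obtain ⟨F, hF⟩ : ∃ F : MvPolynomial (Fin n) k → MvPolynomial (Fin n) k, ∀ P, F P =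
      ∑ m ∈ (gitr_co ρ P).support, monomial m (J (coeff m (gitr_co ρ P))) := ⟨_, fun _ => rfl⟩
  have hev : ∀ P x, eval x (F P) = J (gitr_phi ρ P x) := by
    intro P x
    unfold gitr_phi
    rw [hF, map_sum, eval_eq, map_sum]
    apply Finset.sum_congr rfl
    intro m _
    rw [eval_monomial, Finsupp.prod]
    have h1 : coeff m (gitr_co ρ P) * ∏ i ∈ m.support, algebraMap k (glFun k) (x i) ^ m i =
        (∏ i ∈ m.support, x i ^ m i) • coeff m (gitr_co ρ P) := by
      rw [Algebra.smul_def, map_prod, mul_comm]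
      simp only [map_pow]
    rw [h1, map_smul, smul_eq_mul, mul_comm]
  have hadd : ∀ P Q x, gitr_phi ρ (P + Q) x = gitr_phi ρ P x + gitr_phi ρ Q x := by
    intro P Q x
    unfold gitr_phi
    rw [map_add, map_add]
  have hsmul : ∀ (c : k) P x, gitr_phi ρ (c • P) x = c • gitr_phi ρ P x := by
    intro c P x
    apply Subtype.ext
    funext A
    rw [gitr_phi_val, smul_eval]
    show _ = c • (gitr_phi ρ P x).1 A
    rw [gitr_phi_val, smul_eq_mul]
  refine ⟨{ toFun := F, map_add' := ?_, map_smul' := ?_ }, ?_, ?_, ?_, ?_⟩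
  · intro P Q
    apply MvPolynomial.funext
    intro x
    rw [map_add, hev, hev, hev, hadd, map_add]
  · intro c P
    apply MvPolynomial.funext
    intro x
    rw [RingHom.id_apply, smul_eval, hev, hev, hsmul, map_smul, smul_eq_mul]
  · intro P A x
    show eval (ρ.act A x) (F P) = eval x (F P)
    rw [hev, hev]
    apply hJinv _ _ A
    intro B
    rw [gitr_phi_val, gitr_phi_val]
    congr 2
    funext i
    exact (ρ.mul B A x i).symm
  · intro P x c h
    show eval x (F P) = c
    rw [hev]
    have : gitr_phi ρ P x = algebraMap k (glFun k) c := by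
      apply Subtype.ext
      funext A
      rw [gitr_phi_val, h A]
      rfl
    rw [this, hJc]
  · intro h P x hh
    show eval x (F (h * P)) = eval x h * eval x (F P)
    rw [hev, hev]
    have : gitr_phi ρ (h * P) x = eval x h • gitr_phi ρ P x := by
      apply Subtype.ext
      funext A
      rw [gitr_phi_val, map_mul, hh A]
      show _ = eval x h • (gitr_phi ρ P x).1 A
      rw [gitr_phi_val, smul_eq_mul]
    rw [this, map_smul, smul_eq_mul]
  · intro P e hP
    show (F P).IsHomogeneous e
    rw [hF]
    have h1 : (gitr_co ρ P).IsHomogeneous e := by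
      have := hP.aeval (S := glFun k) (fun i => ∑ j, C (ρ.c i j) * X j) (n := 1) (by
        intro i
        apply IsHomogeneous.sum
        intro j _
        have := (isHomogeneous_C (Fin n) (ρ.c i j)).mul (isHomogeneous_X (glFun k) j)
        simpa using this)
      simpa [gitr_co] using this
    apply IsHomogeneous.sum
    intro m hm
    apply isHomogeneous_monomial
    have h2 := h1 (mem_support_iff.1 hm)
    rw [Finsupp.degree_eq_weight_one]
    exact h2

end Pool.Agent.MRat
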