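import Pool.Agent.Lib.MP_923aff_ag.SA1
/-!
# JOB SF1: the points of affine space
-/

set_option autoImplicit false

namespace Pool.Agent.MRat

open AlgebraicGeometry CategoryTheory

variable {k : Type} [Field k] [IsAlgClosed k]

theorem ptA_mem_basicOpen {n : ℕ} (x : Fin n → k) (g : MvPolynomial (Fin n) k) :
    ptA k x ∈ (PrimeSpectrum.basicOpen g : TopologicalSpace.Opens (PrimeSpectrum
      (MvPolynomial (Fin n) k))) ↔ MvPolynomial.eval x g ≠ 0 := by
  show (⟨RingHom.ker (MvPolynomial.eval x), RingHom.ker_isPrime _⟩ :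
    PrimeSpectrum (MvPolynomial (Fin n) k)) ∈ PrimeSpectrum.basicOpen g ↔ _
  rw [PrimeSpectrum.mem_basicOpen]
  exact not_congr RingHom.mem_ker

theorem ptA_closed {n : ℕ} (x : Fin n → k) : IsClosed ({ptA k x} : Set (Var.aff k n).X) := by
  show IsClosed ({(⟨RingHom.ker (MvPolynomial.eval x), RingHom.ker_isPrime _⟩ :
    PrimeSpectrum (MvPolynomial (Fin n) k))} : Set (PrimeSpectrum (MvPolynomial (Fin n) k)))
  rw [PrimeSpectrum.isClosed_singleton_iff_isMaximal]
  refine RingHom.ker_isMaximal_of_surjective _ ?_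
  intro c
  exact ⟨MvPolynomial.C c, MvPolynomial.eval_C c⟩

theorem ptA_of_closed {n : ℕ} (m : (Var.aff k n).X) (hm : IsClosed {m}) : ∃ x, m = ptA k x := by
  obtain ⟨x, hx⟩ := MvPolynomial.isMaximal_iff_eq_vanishingIdeal_singleton.1
    ((PrimeSpectrum.isClosed_singleton_iff_isMaximal
      (m : PrimeSpectrum (MvPolynomial (Fin n) k))).1 hm)
  refine ⟨x, ?_⟩
  refine PrimeSpectrum.ext ?_
  rw [hx]
  ext p
  rw [MvPolynomial.mem_vanishingIdeal_singleton_iff]
  exact Iff.rfl

theorem ptA_inj {n : ℕ} (x y : Fin n → k) (h : ptA k x = ptA k y) : x = y := by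
  have h1 : RingHom.ker (MvPolynomial.eval x) = RingHom.ker (MvPolynomial.eval y) :=
    congrArg PrimeSpectrum.asIdeal h
  funext i
  have h2 : (MvPolynomial.X i - MvPolynomial.C (x i) : MvPolynomial (Fin n) k) ∈
      RingHom.ker (MvPolynomial.eval x) := by
    rw [RingHom.mem_ker]; simp
  rw [h1, RingHom.mem_ker] at h2
  simp only [map_sub, MvPolynomial.eval_X, MvPolynomial.eval_C] at h2
  exact (sub_eq_zero.1 h2).symm

/-- Morphisms over `k` map closed points to closed points. -/
theorem map_closed {n : ℕ} (W : (Var.aff k n).X.Opens) (M : Var k) (π : W.toScheme ⟶ M.X)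
    (hπ : π ≫ M.str = W.ι ≫ (Var.aff k n).str) (u : W.toScheme) (x : Fin n → k)
    (hu : W.ι u = ptA k x) : IsClosed {π u} := by
  have hu' : IsClosed ({u} : Set W.toScheme) := by
    have h1 : IsClosed (W.ι ⁻¹' ({ptA k x} : Set (Var.aff k n).X)) :=
      (ptA_closed x).preimage W.ι.continuous
    have h2 : W.ι ⁻¹' ({ptA k x} : Set (Var.aff k n).X) = {u} := by
      ext v
      constructor
      · intro hv
        exact W.ι.isOpenEmbedding.injective ((hv : W.ι v = ptA k x).trans hu.symm)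
      · rintro rfl
        exact hu
    rwa [h2] at h1
  have h1 : (pointOfClosedPoint (W.ι ≫ (Var.aff k n).str) u hu' ≫ π) ≫ M.str = 𝟙 _ := by
    rw [Category.assoc, hπ]
    exact pointOfClosedPoint_comp _ u hu'
  have h2 := isClosedImmersion_of_comp_eq_id _ _ h1
  have h3 := (pointOfClosedPoint (W.ι ≫ (Var.aff k n).str) u hu' ≫ π).isClosedEmbedding.isClosed_range
  have h4 : Set.range (pointOfClosedPoint (W.ι ≫ (Var.aff k n).str) u hu' ≫ π) = {π u} := by
    rw [Set.range_eq_singleton]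
    intro a
    rw [Scheme.Hom.comp_apply, pointOfClosedPoint_apply]
  rwa [h4] at h3

end Pool.Agent.MRat
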