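import Pool.Agent.Lib.MP_923aff_ag.SD1
import Pool.Agent.Lib.MP_923aff_ag.SF1
/-!
# JOB SF2: morphisms from open subschemes of affine space are definable

Let `W` be open in `𝔸ᴺ`, `π : W → M` a morphism over `k`, `S` the set of `x` with `ptA k x ∈ W`, `p x = π (ptA k x)`.
For an open `V` of `M`: `{x ∈ S | p x ∈ V} = {x | ptA k x ∈ W'}` with `W' = ι (π ⁻¹ V)` open in `𝔸ᴺ = Spec k[x]`; it is a finite
union of basic open sets `D(g)` (Hilbert basis theorem), and `ptA k x ∈ D(g) ↔ g x ≠ 0`. For `b ∈ Γ(M, V)` the pull back of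
`b` to `D(g) ⊆ W'` is a fraction `a / g ^ n` and `p x ∉ basicOpen (b - c) ↔ a x = c (g x) ^ n` for `x ∈ D(g)`.
-/

set_option autoImplicit false

namespace Pool.Agent.MRat

open AlgebraicGeometry CategoryTheory

variable {k : Type} [Field k]

/-! ### Global functions on affine space -/

instance sf2_aff (n : ℕ) : IsAffine (Var.aff k n).X :=
  inferInstanceAs (IsAffine (Spec (CommRingCat.of (MvPolynomial (Fin n) k))))

/-- The value of a global function at a point. -/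
noncomputable def sf2Ev {n : ℕ} (x : Fin n → k) : Γ((Var.aff k n).X, ⊤) →+* k :=
  (MvPolynomial.eval x).comp
    (Scheme.ΓSpecIso (CommRingCat.of (MvPolynomial (Fin n) k))).hom.hom

/-- The polynomial of a global function. -/
noncomputable def sf2Pol {n : ℕ} (f : Γ((Var.aff k n).X, ⊤)) : MvPolynomial (Fin n) k :=
  (Scheme.ΓSpecIso (CommRingCat.of (MvPolynomial (Fin n) k))).hom.hom f

theorem sf2_ev_eq {n : ℕ} (x : Fin n → k) (f : Γ((Var.aff k n).X, ⊤)) :
    sf2Ev x f = MvPolynomial.eval x (sf2Pol f) := rfl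

theorem sf2_mem_basicOpen {n : ℕ} [IsAlgClosed k] (x : Fin n → k) (f : Γ((Var.aff k n).X, ⊤)) :
    ptA k x ∈ (Var.aff k n).X.basicOpen f ↔ sf2Ev x f ≠ 0 := by
  have h : (Var.aff k n).X.basicOpen f = PrimeSpectrum.basicOpen (sf2Pol f) :=
    basicOpen_eq_of_affine' (R := CommRingCat.of (MvPolynomial (Fin n) k)) f
  rw [h]
  exact ptA_mem_basicOpen x _

theorem sf2_kmap_top (X : Var k) (c : k) : X.kmap ⊤ c =
    X.str.appTop.hom ((Scheme.ΓSpecIso (CommRingCat.of k)).inv.hom c) := by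
  have h : (homOfLE le_top : (⊤ : X.X.Opens) ⟶ ⊤) = 𝟙 _ := rfl
  simp only [Var.kmap, RingHom.comp_apply, h, op_id, X.X.presheaf.map_id]
  rfl

theorem sf2_ev_kmap {n : ℕ} (x : Fin n → k) (c : k) :
    sf2Ev x ((Var.aff k n).kmap ⊤ c) = c := by
  have h1 : (Var.aff k n).kmap ⊤ c =
      (Scheme.ΓSpecIso (CommRingCat.of (MvPolynomial (Fin n) k))).inv.hom
        (MvPolynomial.C c : MvPolynomial (Fin n) k) := by
    have h2 := Scheme.ΓSpecIso_inv_naturality (CommRingCat.ofHom (algebraMap k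
      (MvPolynomial (Fin n) k)))
    have h3 := congrArg (fun f => f.hom c) h2
    rw [sf2_kmap_top]
    exact h3.symm
  rw [h1]
  have h4 : (Scheme.ΓSpecIso (CommRingCat.of (MvPolynomial (Fin n) k))).hom.hom
      ((Scheme.ΓSpecIso (CommRingCat.of (MvPolynomial (Fin n) k))).inv.hom
        (MvPolynomial.C c : MvPolynomial (Fin n) k)) = (MvPolynomial.C c : MvPolynomial (Fin n) k) :=
    (Scheme.ΓSpecIso (CommRingCat.of (MvPolynomial (Fin n) k))).inv_hom_id_apply _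
  show MvPolynomial.eval x ((Scheme.ΓSpecIso (CommRingCat.of (MvPolynomial (Fin n) k))).hom.hom
      ((Scheme.ΓSpecIso (CommRingCat.of (MvPolynomial (Fin n) k))).inv.hom
        (MvPolynomial.C c : MvPolynomial (Fin n) k))) = c
  rw [h4, MvPolynomial.eval_C]

/-- `kmap` and restriction. -/
theorem sf2_kmap_res (X : Var k) {U V : X.X.Opens} (i : U ⟶ V) (c : k) :
    X.X.presheaf.map i.op (X.kmap V c) = X.kmap U c := by
  have h : (homOfLE le_top : U ⟶ ⊤) = i ≫ (homOfLE le_top : V ⟶ ⊤) := rfl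
  simp only [Var.kmap, RingHom.comp_apply, h, op_comp, X.X.presheaf.map_comp]
  rfl

theorem sf2_frac (X : Scheme) [IsAffine X] {W' : X.Opens} (t : Γ(X, W')) (f : Γ(X, ⊤))
    (hf : X.basicOpen f ≤ W') : ∃ (N : ℕ) (a : Γ(X, ⊤)),
      X.presheaf.map (homOfLE hf).op t *
        X.presheaf.map (homOfLE (X.basicOpen_le f)).op f ^ N =
        X.presheaf.map (homOfLE (X.basicOpen_le f)).op a := by
  have hloc := isLocalization_away_of_isAffine f
  obtain ⟨N, a, ha⟩ := IsLocalization.Away.surj f (X.presheaf.map (homOfLE hf).op t)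
  exact ⟨N, a, ha⟩

/-- Values of a function on an open subset, via fractions. -/
theorem sf2_value {n : ℕ} [IsAlgClosed k] {W' : (Var.aff k n).X.Opens}
    (t : Γ((Var.aff k n).X, W')) (f : Γ((Var.aff k n).X, ⊤))
    (hf : (Var.aff k n).X.basicOpen f ≤ W') :
    ∃ (N : ℕ) (a : Γ((Var.aff k n).X, ⊤)), ∀ (x : Fin n → k) (c : k),
      ptA k x ∈ (Var.aff k n).X.basicOpen f →
      (ptA k x ∉ (Var.aff k n).X.basicOpen (t - (Var.aff k n).kmap W' c) ↔
        sf2Ev x a = c * sf2Ev x f ^ N) := by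
  obtain ⟨N, a, ha⟩ := sf2_frac (Var.aff k n).X t f hf
  refine ⟨N, a, fun x c hx => ?_⟩
  have hle := (Var.aff k n).X.basicOpen_le f
  have h1 : ptA k x ∈ (Var.aff k n).X.basicOpen (t - (Var.aff k n).kmap W' c) ↔
      ptA k x ∈ (Var.aff k n).X.basicOpen
        ((Var.aff k n).X.presheaf.map (homOfLE hf).op (t - (Var.aff k n).kmap W' c)) := by
    rw [Scheme.basicOpen_res]
    exact ⟨fun h => ⟨hx, h⟩, fun h => h.2⟩
  have hfN : ptA k x ∈ (Var.aff k n).X.basicOpen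
      ((Var.aff k n).X.presheaf.map (homOfLE hle).op f ^ N) := by
    rcases Nat.eq_zero_or_pos N with rfl | hN
    · rw [pow_zero, Scheme.basicOpen_one]; exact hx
    · rw [Scheme.basicOpen_pow _ _ hN, Scheme.basicOpen_res]
      exact ⟨hx, hx⟩
  have h2 : ptA k x ∈ (Var.aff k n).X.basicOpen
        ((Var.aff k n).X.presheaf.map (homOfLE hf).op (t - (Var.aff k n).kmap W' c)) ↔
      ptA k x ∈ (Var.aff k n).X.basicOpen
        ((Var.aff k n).X.presheaf.map (homOfLE hf).op (t - (Var.aff k n).kmap W' c) *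
          (Var.aff k n).X.presheaf.map (homOfLE hle).op f ^ N) := by
    rw [Scheme.basicOpen_mul]
    exact ⟨fun h => ⟨h, hfN⟩, fun h => h.1⟩
  have h3 : (Var.aff k n).X.presheaf.map (homOfLE hf).op (t - (Var.aff k n).kmap W' c) *
          (Var.aff k n).X.presheaf.map (homOfLE hle).op f ^ N =
      (Var.aff k n).X.presheaf.map (homOfLE hle).op
        (a - (Var.aff k n).kmap ⊤ c * f ^ N) := by
    have e1 : (Var.aff k n).X.presheaf.map (homOfLE hf).op ((Var.aff k n).kmap W' c) =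
        (Var.aff k n).X.presheaf.map (homOfLE hle).op ((Var.aff k n).kmap ⊤ c) := by
      rw [sf2_kmap_res, sf2_kmap_res]
    rw [map_sub, sub_mul, e1, ha, map_sub, map_mul, map_pow]
  have h4 : ptA k x ∈ (Var.aff k n).X.basicOpen f ⊓
        (Var.aff k n).X.basicOpen (a - (Var.aff k n).kmap ⊤ c * f ^ N) ↔
      sf2Ev x (a - (Var.aff k n).kmap ⊤ c * f ^ N) ≠ 0 := by
    rw [← sf2_mem_basicOpen]
    exact ⟨fun h => h.2, fun h => ⟨hx, h⟩⟩
  rw [h1, h2, h3, Scheme.basicOpen_res, h4, not_not, map_sub, map_mul, map_pow, sf2_ev_kmap,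
    sub_eq_zero]

/-- Open subsets of affine space are finite unions of basic open sets. -/
theorem sf2_open {n : ℕ} (U : (Var.aff k n).X.Opens) :
    ∃ s : Set (Γ((Var.aff k n).X, ⊤)), s.Finite ∧
      (U : Set (Var.aff k n).X) = ⋃ f ∈ s, ((Var.aff k n).X.basicOpen f : Set (Var.aff k n).X) := by
  have hN : TopologicalSpace.NoetherianSpace (Var.aff k n).X :=
    inferInstanceAs (TopologicalSpace.NoetherianSpace (PrimeSpectrum (MvPolynomial (Fin n) k)))
  exact (TopologicalSpace.Opens.IsBasis.isCompact_open_iff_eq_finite_iUnion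
    (Var.aff k n).X.basicOpen (isBasis_basicOpen _)
    (fun f => TopologicalSpace.NoetherianSpace.isCompact _) (U : Set (Var.aff k n).X)).1
    ⟨TopologicalSpace.NoetherianSpace.isCompact _, U.isOpen⟩

theorem sf2_mem_open {n : ℕ} {U : (Var.aff k n).X.Opens} {s : Set (Γ((Var.aff k n).X, ⊤))}
    (h : (U : Set (Var.aff k n).X) =
      ⋃ f ∈ s, ((Var.aff k n).X.basicOpen f : Set (Var.aff k n).X)) (z : (Var.aff k n).X) :
    z ∈ U ↔ ∃ f ∈ s, z ∈ (Var.aff k n).X.basicOpen f := by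
  have : z ∈ (U : Set (Var.aff k n).X) ↔ ∃ f ∈ s, z ∈ (Var.aff k n).X.basicOpen f := by
    rw [h]; simp
  exact this

/-- The pull back of functions. -/
theorem sf2_theta_kmap {n : ℕ} (W : (Var.aff k n).X.Opens) (M : Var k) (π : W.toScheme ⟶ M.X)
    (hπ : π ≫ M.str = W.ι ≫ (Var.aff k n).str) (V : M.X.Opens) (c : k) :
    (W.ι.appIso (π ⁻¹ᵁ V)).inv (π.app V (M.kmap V c)) =
      (Var.aff k n).kmap (W.ι ''ᵁ (π ⁻¹ᵁ V)) c := by
  have h1 : π.app V (M.kmap V c) = W.ι.appLE ⊤ (π ⁻¹ᵁ V) le_top ((Var.aff k n).kmap ⊤ c) := by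
    have e1 : M.str.appTop ≫ M.X.presheaf.map (homOfLE le_top : V ⟶ ⊤).op ≫ π.app V =
        (Var.aff k n).str.appTop ≫ W.ι.appLE ⊤ (π ⁻¹ᵁ V) le_top := by
      rw [Scheme.Hom.app_eq_appLE, Scheme.Hom.map_appLE]
      have e2 := Scheme.Hom.comp_appLE π M.str ⊤ (π ⁻¹ᵁ V) le_top
      have e3 := Scheme.Hom.comp_appLE W.ι (Var.aff k n).str ⊤ (π ⁻¹ᵁ V) le_top
      have e5 : (π ≫ M.str).appLE ⊤ (π ⁻¹ᵁ V) le_top =
          (W.ι ≫ (Var.aff k n).str).appLE ⊤ (π ⁻¹ᵁ V) le_top := by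
        simp only [hπ]
      exact e2.symm.trans (e5.trans e3)
    have e4 := congrArg (fun f => f.hom ((Scheme.ΓSpecIso (CommRingCat.of k)).inv.hom c)) e1
    rw [sf2_kmap_top]
    exact e4
  rw [h1]
  have h2 := Scheme.Hom.appLE_appIso_inv W.ι (U := ⊤) (V := π ⁻¹ᵁ V) le_top
  have h3 := congrArg (fun f => f.hom ((Var.aff k n).kmap ⊤ c)) h2
  rw [← sf2_kmap_res (Var.aff k n) (homOfLE le_top : (W.ι ''ᵁ (π ⁻¹ᵁ V)) ⟶ ⊤) c]
  exact h3

variable [IsAlgClosed k] [CharZero k]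

theorem sf2_df_poly {α : Type} [Amb k α] {n : ℕ} (p : MvPolynomial (Fin n) k)
    {f : α → Fin n → k} (hf : ∀ i, DF k (fun a => f a i)) :
    DF k (fun a => MvPolynomial.eval (f a) p) := by
  induction p using MvPolynomial.induction_on with
  | C c => exact (DF.const c).congr fun a => by rw [MvPolynomial.eval_C]
  | add p q hp hq => exact (hp.add hq).congr fun a => by rw [map_add]
  | mul_X p i hp => exact (hp.mul (hf i)).congr fun a => by rw [map_mul, MvPolynomial.eval_X]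

theorem sf2_df_ev {α : Type} [Amb k α] {n : ℕ} (g : Γ((Var.aff k n).X, ⊤))
    {f : α → Fin n → k} (hf : DF k f) : DF k (fun a => sf2Ev (f a) g) :=
  sf2_df_poly (sf2Pol g) fun i => hf.apply i

theorem sf2_dp_open {n : ℕ} (U : (Var.aff k n).X.Opens) :
    DP k (fun x : Fin n → k => ptA k x ∈ U) := by
  obtain ⟨s, hs, h⟩ := sf2_open U
  have := hs.to_subtype
  have h1 : DP k (fun x : Fin n → k => ∃ f : s, sf2Ev x f.1 ≠ 0) := by
    refine DP.fex fun f => DP.not (DP.eq ?_ (DF.const 0))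
    exact sf2_df_ev f.1 DF.id
  refine h1.congr fun x => ?_
  rw [sf2_mem_open h]
  constructor
  · rintro ⟨f, hf⟩
    exact ⟨f.1, f.2, (sf2_mem_basicOpen x f.1).2 hf⟩
  · rintro ⟨f, hf, hx⟩
    exact ⟨⟨f, hf⟩, (sf2_mem_basicOpen x f).1 hx⟩

theorem reg_of_morphism {n : ℕ} (W : (Var.aff k n).X.Opens) (M : Var k) (π : W.toScheme ⟶ M.X)
    (hπ : π ≫ M.str = W.ι ≫ (Var.aff k n).str) (p : (Fin n → k) → M.X)
    (hp : ∀ (u : W.toScheme) (x : Fin n → k), W.ι u = ptA k x → p x = π u) (V : M.X.Opens) :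
    RegAt M {x | ptA k x ∈ W} p V := by
  -- the points over `V`
  have hmem : ∀ x : Fin n → k, (ptA k x ∈ W ∧ p x ∈ V) ↔ ptA k x ∈ W.ι ''ᵁ (π ⁻¹ᵁ V) := by
    intro x
    constructor
    · rintro ⟨hx, hV⟩
      refine ⟨⟨ptA k x, hx⟩, ?_, rfl⟩
      have := hp ⟨ptA k x, hx⟩ x rfl
      rw [this] at hV
      exact hV
    · rintro ⟨u, hu, hux⟩
      have h1 := hp u x hux
      refine ⟨?_, ?_⟩
      · rw [← hux]; exact u.2
      · rw [h1]; exact hu
  have hval : ∀ (x : Fin n → k) (β : Γ(M.X, V)), ptA k x ∈ W →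
      (p x ∈ M.X.basicOpen β ↔
        ptA k x ∈ (Var.aff k n).X.basicOpen ((W.ι.appIso (π ⁻¹ᵁ V)).inv (π.app V β))) := by
    intro x β hx
    rw [← Scheme.image_basicOpen, ← Scheme.preimage_basicOpen, hp ⟨ptA k x, hx⟩ x rfl]
    constructor
    · intro h
      exact ⟨⟨ptA k x, hx⟩, h, rfl⟩
    · rintro ⟨u, hu, hux⟩
      have : u = ⟨ptA k x, hx⟩ := Subtype.ext hux
      rw [this] at hu
      exact hu
  refine ⟨?_, fun b => ?_⟩
  · exact (sf2_dp_open (W.ι ''ᵁ (π ⁻¹ᵁ V))).congr fun x => (hmem x).symm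
  · obtain ⟨s, hs, h⟩ := sf2_open (W.ι ''ᵁ (π ⁻¹ᵁ V))
    have := hs.to_subtype
    have hle : ∀ f : s, (Var.aff k n).X.basicOpen f.1 ≤ W.ι ''ᵁ (π ⁻¹ᵁ V) := by
      intro f z hz
      exact (sf2_mem_open h z).2 ⟨f.1, f.2, hz⟩
    choose N a ha using fun f : s => sf2_value
      ((W.ι.appIso (π ⁻¹ᵁ V)).inv (π.app V b)) f.1 (hle f)
    have hfst : DF k (fun q : (Fin n → k) × k => q.1) := DF.fst
    have hsnd : DF k (fun q : (Fin n → k) × k => q.2) := DF.snd
    have h1 : DP k (fun q : (Fin n → k) × k => ∃ f : s, sf2Ev q.1 f.1 ≠ 0 ∧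
        sf2Ev q.1 (a f) = q.2 * sf2Ev q.1 f.1 ^ N f) :=
      DP.fex fun f => DP.and (DP.not (DP.eq (sf2_df_ev f.1 hfst) (DF.const 0)))
        (DP.eq (sf2_df_ev (a f) hfst) (DF.mul hsnd (DF.pow (sf2_df_ev f.1 hfst) _)))
    refine h1.congr fun q => ?_
    obtain ⟨x, c⟩ := q
    constructor
    · rintro ⟨f, hf, hfa⟩
      have hxf := (sf2_mem_basicOpen x f.1).2 hf
      have hx := (hmem x).2 (hle f hxf)
      refine ⟨hx.1, hx.2, ?_⟩
      rw [hval x _ hx.1]
      have h2 := (ha f x c hxf).2 hfa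
      rw [map_sub, map_sub, sf2_theta_kmap W M π hπ V c]
      exact h2
    · rintro ⟨hx, hV, hb⟩
      obtain ⟨f, hf, hxf⟩ := (sf2_mem_open h (ptA k x)).1 ((hmem x).1 ⟨hx, hV⟩)
      refine ⟨⟨f, hf⟩, (sf2_mem_basicOpen x f).1 hxf, ?_⟩
      rw [hval x _ hx, map_sub, map_sub, sf2_theta_kmap W M π hπ V c] at hb
      exact (ha ⟨f, hf⟩ x c hxf).1 hb

end Pool.Agent.MRat
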