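import Pool.Agent.Lib.MP_923aff_ag.SchDefs
import Pool.Agent.Lib.MP_923aff_ag.FG
/-!
# JOB SH: the set of pairs of forms without common zero is Zariski open

`RatSet k d` is the set where a polynomial (the Sylvester determinant) does not vanish: the linear map
`(A, B) ↦ A F0 + B F1` from pairs of forms of degree `d - 1` to forms of degree `2 d - 1` (both spaces have dimension `2 d`)
is bijective iff `F0`, `F1` have no common zero: if they have a common zero `v` then all values vanish at `v`; if not, and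
`A F0 = - B F1` with `B ≠ 0`, then every zero of `F0` is a zero of `B` with at least the same multiplicity, impossible for
degree reasons (cancel common factors, `FG.lean`: `Form.exists_zero`, `Form.factor`, `Form.cancel`; or work with polynomials
and `IsCoprime`). The matrix of this map has entries which are coordinates of `x`.
For `d = 0` the condition is `x ≠ 0`.
-/

set_option autoImplicit false

namespace Pool.Agent.MRat

open AlgebraicGeometry CategoryTheory

variable {k : Type} [Field k] [IsAlgClosed k] [CharZero k]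

/-- The polynomial with given coefficients. -/
private noncomputable def SHp {R : Type} [CommRing R] (d : ℕ) (c : Fin (d + 1) → R) :
    Polynomial R := ∑ i : Fin (d + 1), Polynomial.C (c i) * Polynomial.X ^ (i : ℕ)

private theorem SHp_deg {R : Type} [CommRing R] (d : ℕ) (c : Fin (d + 1) → R) :
    (SHp d c).natDegree ≤ d := by
  unfold SHp
  refine Polynomial.natDegree_sum_le_of_forall_le _ _ fun i _ => ?_
  refine (Polynomial.natDegree_C_mul_X_pow_le _ _).trans ?_
  have := i.2
  omega

private theorem SHp_coeff {R : Type} [CommRing R] (d : ℕ) (c : Fin (d + 1) → R) :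
    (SHp d c).coeff d = c (Fin.last d) := by
  unfold SHp
  rw [Polynomial.finsetSum_coeff, Finset.sum_eq_single (Fin.last d)]
  · simp
  · intro b _ hb
    rw [Polynomial.coeff_C_mul_X_pow, if_neg]
    intro h
    exact hb (Fin.ext h.symm)
  · intro h
    exact absurd (Finset.mem_univ _) h

private theorem SHp_map {R S : Type} [CommRing R] [CommRing S] (φ : R →+* S) (d : ℕ)
    (c : Fin (d + 1) → R) : (SHp d c).map φ = SHp d (fun i => φ (c i)) := by
  unfold SHp
  rw [Polynomial.map_sum]
  simp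

private theorem SHp_eval {R : Type} [CommRing R] (d : ℕ) (c : Fin (d + 1) → R) (z : R) :
    (SHp d c).eval z = ∑ i : Fin (d + 1), c i * z ^ (i : ℕ) := by
  unfold SHp
  rw [Polynomial.eval_finsetSum]
  simp

omit [IsAlgClosed k] [CharZero k] in
/-- The form at a point off infinity. -/
private theorem SH_aff {d : ℕ} (c : Fin (d + 1) → k) (v : Fin 2 → k) (h : v 1 ≠ 0) :
    ∑ i : Fin (d + 1), c i * v 0 ^ (i : ℕ) * v 1 ^ (d - (i : ℕ)) =
      v 1 ^ d * (SHp d c).eval (v 0 / v 1) := by
  rw [SHp_eval, Finset.mul_sum]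
  refine Finset.sum_congr rfl fun i _ => ?_
  have h1 : v 1 ^ d = v 1 ^ (i : ℕ) * v 1 ^ (d - (i : ℕ)) := by
    rw [← pow_add]
    congr 1
    have := i.2
    omega
  rw [h1, div_pow]
  field_simp

omit [IsAlgClosed k] [CharZero k] in
/-- The form at infinity. -/
private theorem SH_inf {d : ℕ} (c : Fin (d + 1) → k) (v : Fin 2 → k) (h : v 1 = 0) :
    ∑ i : Fin (d + 1), c i * v 0 ^ (i : ℕ) * v 1 ^ (d - (i : ℕ)) = c (Fin.last d) * v 0 ^ d := by
  rw [Finset.sum_eq_single (Fin.last d)]
  · simp
  · intro b _ hb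
    have h1 : d - (b : ℕ) ≠ 0 := by
      have := b.2
      intro h2
      apply hb
      apply Fin.ext
      rw [Fin.val_last]
      omega
    rw [h, zero_pow h1, mul_zero]
  · intro h
    exact absurd (Finset.mem_univ _) h

/-- A common zero makes the resultant vanish. -/
private theorem SH_res_zero {d : ℕ} (hd : d ≠ 0) (a b : Fin (d + 1) → k) (v : Fin 2 → k)
    (hv : v ≠ 0)
    (ha : ∑ i : Fin (d + 1), a i * v 0 ^ (i : ℕ) * v 1 ^ (d - (i : ℕ)) = 0)
    (hb : ∑ i : Fin (d + 1), b i * v 0 ^ (i : ℕ) * v 1 ^ (d - (i : ℕ)) = 0) :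
    Polynomial.resultant (SHp d a) (SHp d b) d d = 0 := by
  by_cases h1 : v 1 = 0
  · have h0 : v 0 ≠ 0 := by
      intro h0
      apply hv
      funext i
      fin_cases i
      · exact h0
      · exact h1
    rw [SH_inf a v h1] at ha
    rw [SH_inf b v h1] at hb
    have ha' := (mul_eq_zero.1 ha).resolve_right (pow_ne_zero _ h0)
    have hb' := (mul_eq_zero.1 hb).resolve_right (pow_ne_zero _ h0)
    have key : ∀ c : Fin (d + 1) → k, c (Fin.last d) = 0 → (SHp d c).natDegree < d := by
      intro c hc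
      refine lt_of_le_of_ne (SHp_deg d c) fun h => ?_
      have h2 := SHp_coeff d c
      rw [hc] at h2
      have h3 : (SHp d c).leadingCoeff = 0 := by
        rw [Polynomial.leadingCoeff, h, h2]
      rw [Polynomial.leadingCoeff_eq_zero] at h3
      rw [h3, Polynomial.natDegree_zero] at h
      exact hd h.symm
    exact Polynomial.resultant_eq_zero_of_lt_lt _ _ _ _ (key a ha') (key b hb')
  · rw [SH_aff a v h1] at ha
    rw [SH_aff b v h1] at hb
    have ha' := (mul_eq_zero.1 ha).resolve_left (pow_ne_zero _ h1)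
    have hb' := (mul_eq_zero.1 hb).resolve_left (pow_ne_zero _ h1)
    obtain ⟨p, q, -, -, h⟩ := Polynomial.exists_mul_add_mul_eq_C_resultant (SHp d a) (SHp d b)
      (SHp_deg d a) (SHp_deg d b) (Or.inl hd)
    have h2 := congrArg (Polynomial.eval (v 0 / v 1)) h
    rw [Polynomial.eval_add, Polynomial.eval_mul, Polynomial.eval_mul, ha', hb', zero_mul,
      zero_mul, add_zero, Polynomial.eval_C] at h2
    exact h2.symm

omit [IsAlgClosed k] [CharZero k] in
private theorem SH_deg {P Q : Polynomial k} {d m : ℕ} (hP : P.natDegree = d)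
    (hm : d = Q.natDegree + m) : Polynomial.resultant P Q d d =
      P.coeff d ^ m * Polynomial.resultant P Q := by
  have h := Polynomial.resultant_add_right_deg P Q P.natDegree Q.natDegree m le_rfl
  rw [← hm, hP] at h
  rw [hP]
  exact h

omit [CharZero k] in
/-- Without common zeros the resultant does not vanish. -/
private theorem SH_res_ne {d : ℕ} (a b : Fin (d + 1) → k)
    (h : ∀ z, (SHp d a).eval z ≠ 0 ∨ (SHp d b).eval z ≠ 0) (ha : a (Fin.last d) ≠ 0) :
    Polynomial.resultant (SHp d a) (SHp d b) d d ≠ 0 := by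
  have hc : (SHp d a).coeff d ≠ 0 := by
    rw [SHp_coeff]
    exact ha
  have hdeg : (SHp d a).natDegree = d :=
    le_antisymm (SHp_deg d a) (Polynomial.le_natDegree_of_ne_zero hc)
  have hne : SHp d a ≠ 0 := by
    intro h0
    rw [h0, Polynomial.coeff_zero] at hc
    exact hc rfl
  obtain ⟨m, hm⟩ := Nat.exists_eq_add_of_le (SHp_deg d b)
  rw [SH_deg hdeg hm]
  refine mul_ne_zero (pow_ne_zero _ hc) ?_
  rw [Ne, Polynomial.resultant_eq_zero_iff]
  rintro ⟨-, h2⟩
  apply h2
  rw [Polynomial.isCoprime_iff_aeval_ne_zero_of_isAlgClosed k k]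
  intro z
  simpa using h z

private theorem SH_pos {d : ℕ} (hd : d ≠ 0) (a b : Fin (d + 1) → k)
    (h : ∀ v : Fin 2 → k, v ≠ 0 →
      ¬ (∑ i : Fin (d + 1), a i * v 0 ^ (i : ℕ) * v 1 ^ (d - (i : ℕ)) = 0 ∧
        ∑ i : Fin (d + 1), b i * v 0 ^ (i : ℕ) * v 1 ^ (d - (i : ℕ)) = 0)) :
    Polynomial.resultant (SHp d a) (SHp d b) d d ≠ 0 := by
  have h1 : ∀ z, (SHp d a).eval z ≠ 0 ∨ (SHp d b).eval z ≠ 0 := by
    intro z
    by_contra hcon
    push Not at hcon
    have hv : (![z, 1] : Fin 2 → k) 1 ≠ 0 := one_ne_zero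
    refine h ![z, 1] (fun h0 => hv (by rw [h0]; rfl)) ?_
    rw [SH_aff a _ hv, SH_aff b _ hv]
    have e : (![z, 1] : Fin 2 → k) 0 / (![z, 1] : Fin 2 → k) 1 = z := div_one z
    rw [e, hcon.1, hcon.2, mul_zero]
    exact ⟨rfl, rfl⟩
  have h2 : a (Fin.last d) ≠ 0 ∨ b (Fin.last d) ≠ 0 := by
    by_contra hcon
    push Not at hcon
    have hv : (![1, 0] : Fin 2 → k) 1 = 0 := rfl
    have hv0 : (![1, 0] : Fin 2 → k) ≠ 0 := by
      intro h0
      exact one_ne_zero (congrFun h0 0)
    refine h ![1, 0] hv0 ?_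
    rw [SH_inf a _ hv, SH_inf b _ hv, hcon.1, hcon.2, zero_mul]
    exact ⟨rfl, rfl⟩
  rcases h2 with h2 | h2
  · exact SH_res_ne a b h1 h2
  · rw [Polynomial.resultant_comm]
    exact mul_ne_zero (pow_ne_zero _ (neg_ne_zero.2 one_ne_zero))
      (SH_res_ne b a (fun z => (h1 z).symm) h2)

omit [IsAlgClosed k] [CharZero k] in
private theorem SH_mem {d : ℕ} (x : Fin ((d + 1) + (d + 1)) → k) : x ∈ RatSet k d ↔
    ∀ v : Fin 2 → k, v ≠ 0 →
      ¬ (∑ i : Fin (d + 1), x (Fin.castAdd (d + 1) i) * v 0 ^ (i : ℕ) * v 1 ^ (d - (i : ℕ)) = 0 ∧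
        ∑ i : Fin (d + 1), x (Fin.natAdd (d + 1) i) * v 0 ^ (i : ℕ) * v 1 ^ (d - (i : ℕ)) = 0) := by
  refine forall_congr' fun v => ?_
  refine imp_congr_right fun _ => not_congr ?_
  constructor
  · intro h
    exact ⟨congrFun h 0, congrFun h 1⟩
  · rintro ⟨h1, h2⟩
    funext i
    fin_cases i
    · exact h1
    · exact h2

/-- `RatSet k d` is Zariski open. -/
theorem ratSet_open (d : ℕ) (x : Fin ((d + 1) + (d + 1)) → k) (hx : x ∈ RatSet k d) :
    ∃ f : MvPolynomial (Fin ((d + 1) + (d + 1))) k, MvPolynomial.eval x f ≠ 0 ∧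
      ∀ y, MvPolynomial.eval y f ≠ 0 → y ∈ RatSet k d := by
  by_cases hd : d = 0
  · subst hd
    have hv : (![1, 0] : Fin 2 → k) ≠ 0 := by
      intro h0
      exact one_ne_zero (congrFun h0 0)
    have h1 := (SH_mem x).1 hx ![1, 0] hv
    have h2 : ∃ j, x j ≠ 0 := by
      by_contra hcon
      push Not at hcon
      apply h1
      constructor
      · exact Finset.sum_eq_zero fun i _ => by rw [hcon, zero_mul, zero_mul]
      · exact Finset.sum_eq_zero fun i _ => by rw [hcon, zero_mul, zero_mul]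
    obtain ⟨j, hj⟩ := h2
    refine ⟨MvPolynomial.X j, by rw [MvPolynomial.eval_X]; exact hj, ?_⟩
    intro y hy
    rw [MvPolynomial.eval_X] at hy
    rw [SH_mem]
    rintro v - ⟨h3, h4⟩
    apply hy
    rw [Fin.sum_univ_one] at h3 h4
    simp only [Fin.val_zero, pow_zero, mul_one, Nat.sub_self] at h3 h4
    revert h3 h4
    refine Fin.addCases (fun i => ?_) (fun i => ?_) j
    · intro h3 _
      obtain rfl : i = 0 := Fin.ext (by have := i.2; rw [Fin.val_zero]; omega)
      exact h3
    · intro _ h4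
      obtain rfl : i = 0 := Fin.ext (by have := i.2; rw [Fin.val_zero]; omega)
      exact h4
  · let A : Polynomial (MvPolynomial (Fin ((d + 1) + (d + 1))) k) :=
      SHp d fun i => MvPolynomial.X (Fin.castAdd (d + 1) i)
    let B : Polynomial (MvPolynomial (Fin ((d + 1) + (d + 1))) k) :=
      SHp d fun i => MvPolynomial.X (Fin.natAdd (d + 1) i)
    have key : ∀ y : Fin ((d + 1) + (d + 1)) → k,
        MvPolynomial.eval y (Polynomial.resultant A B d d) = Polynomial.resultant
          (SHp d fun i => y (Fin.castAdd (d + 1) i)) (SHp d fun i => y (Fin.natAdd (d + 1) i))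
          d d := by
      intro y
      rw [← Polynomial.resultant_map_map]
      show Polynomial.resultant ((SHp d _).map _) ((SHp d _).map _) d d = _
      rw [SHp_map, SHp_map]
      have e1 : (fun i : Fin (d + 1) => MvPolynomial.eval y (MvPolynomial.X (Fin.castAdd (d + 1) i))) =
          fun i => y (Fin.castAdd (d + 1) i) := funext fun i => MvPolynomial.eval_X _
      have e2 : (fun i : Fin (d + 1) => MvPolynomial.eval y (MvPolynomial.X (Fin.natAdd (d + 1) i))) =
          fun i => y (Fin.natAdd (d + 1) i) := funext fun i => MvPolynomial.eval_X _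
      rw [e1, e2]
    refine ⟨Polynomial.resultant A B d d, ?_, ?_⟩
    · rw [key]
      exact SH_pos hd _ _ ((SH_mem x).1 hx)
    · intro y hy
      rw [key] at hy
      rw [SH_mem]
      rintro v hv ⟨h1, h2⟩
      exact hy (SH_res_zero hd _ _ v hv h1 h2)

/-- The `k`-points of `ratOpen` are the pairs of forms without common zero. -/
theorem mem_ratOpen (d : ℕ) (x : Fin ((d + 1) + (d + 1)) → k) :
    ptA k x ∈ ratOpen k d ↔ x ∈ RatSet k d := by
  unfold ratOpen
  rw [TopologicalSpace.Opens.mem_sSup]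
  constructor
  · rintro ⟨W, hW, hx⟩
    exact hW x hx
  · intro hx
    obtain ⟨f, hf, hf'⟩ := ratSet_open d x hx
    let W : TopologicalSpace.Opens (PrimeSpectrum (MvPolynomial (Fin ((d + 1) + (d + 1))) k)) :=
      PrimeSpectrum.basicOpen f
    have hW : ∀ y : Fin ((d + 1) + (d + 1)) → k,
        (⟨RingHom.ker (MvPolynomial.eval y), RingHom.ker_isPrime _⟩ :
          PrimeSpectrum (MvPolynomial (Fin ((d + 1) + (d + 1))) k)) ∈ W ↔
          MvPolynomial.eval y f ≠ 0 := fun y => Iff.rfl
    exact ⟨W, fun y hy => hf' y ((hW y).1 hy), (hW x).2 hf⟩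

end Pool.Agent.MRat
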