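import Pool.Agent.Lib.MP_923aff_ag.GITE
import Pool.Agent.Lib.MP_923aff_ag.SF2
import Pool.Agent.Lib.MP_923aff_ag.SH
/-!
# JOB GITS: the morphism to the spectrum of the ring of invariants (uses SA1, SB1, SF1, SF2, SH, GITE)

PROOF. Let `U = ratOpen k d`, an open subscheme of affine space `𝔸`, `A₀ = MvPolynomial _ k`. `ptA k x ∈ U ↔ x ∈ RatSet k d`
(`mem_ratOpen` of SH). By `exists_res0` there is `res` with `eval x res ≠ 0 ↔ x ∈ RatSet k d`; so `U` is the basic open set of `res`
(open sets with the same closed points, `𝔸` is Jacobson; or only: `res` restricted to `U` is a unit of `Γ(U, ⊤)`, because its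
basic open set contains all closed points of `U`).
(1) A ring homomorphism `θ : OA (RatSet k d) → Γ(U, ⊤)` (or only on `invRat k d`) with `θ(P/Q) = P|U * (Q|U)⁻¹`. Well-defined: if
`P/Q = P'/Q'` on `RatSet k d` then `(P Q' - P' Q) * res = 0` as a polynomial (infinite field), so `P Q' = P' Q`; and `Q|U` is a unit of
`Γ(U, ⊤)` (its basic open set is everything, because it contains all the closed points of `U`). With `OA_piece` (`I = ∅`,
`q = res`) one can take `Q = res^N` everywhere. Compatible with the constants.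
(2) `π : U.toScheme ⟶ Spec (invRat k d)` is the morphism corresponding to `θ` (`Scheme.toSpecΓ` followed by `Spec.map`, or
`AlgebraicGeometry.ΓSpec` adjunction). It is over `Spec k` because `θ` is `k`-linear (see `Var.kmap`, `SA1`, `sf2_theta_kmap`).
(3) If `U.ι u = ptA k x` then `π u` is the prime ideal `{f | f.1 x = 0}` of `invRat k d`: `f` is in `π u` iff `u` is not in the basic
open set of `θ f` iff `f(x) = 0` (see `ptA_mem_basicOpen` of SF1, `sf2_value` of SF2).
(4) `fib`: `π u = π v` iff for all `f` in the ring `f x = 0 ↔ f y = 0` iff `f x = f y` for all `f` (constants) iff `RatConj`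
(`hsep`, and the definition of `invRat` for the other direction). `surj`: a closed point `m` of `Spec (invRat k d)` is a maximal
ideal with residue field `k` (`hft`, Nullstellensatz, as in `ptA_of_closed` of SF1), so the kernel of some `χ : invRat k d →ₐ[k] k`, and
`hχ` gives `x`.
-/

set_option autoImplicit false

namespace Pool.Agent.MRat

open AlgebraicGeometry CategoryTheory

/-- the localized polynomial ring -/
private abbrev GSB (k : Type) [Field k] {n : ℕ} (r : MvPolynomial (Fin n) k) : Type :=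
  Localization.Away r

/-- evaluation of polynomials on a set, as functions -/
private noncomputable def GSev (k : Type) [Field k] {n : ℕ} (A : Set (Fin n → k)) :
    MvPolynomial (Fin n) k →+* (A → k) :=
  RingHom.pi fun x : A => MvPolynomial.eval (x : Fin n → k)

private theorem GSev_apply {k : Type} [Field k] {n : ℕ} (A : Set (Fin n → k))
    (p : MvPolynomial (Fin n) k) (x : A) : GSev k A p x = MvPolynomial.eval (x : Fin n → k) p := rfl

variable {k : Type} [Field k] {n : ℕ} {A : Set (Fin n → k)} {r : MvPolynomial (Fin n) k}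

private theorem GS_unit (hr : ∀ x, MvPolynomial.eval x r ≠ 0 ↔ x ∈ A) : IsUnit (GSev k A r) := by
  rw [Pi.isUnit_iff]
  intro x
  rw [GSev_apply]
  exact isUnit_iff_ne_zero.2 ((hr x).2 x.2)

/-- the functions on `A` attached to the elements of the localization -/
private noncomputable def GSpsi (hr : ∀ x, MvPolynomial.eval x r ≠ 0 ↔ x ∈ A) :
    Localization.Away r →+* (A → k) :=
  IsLocalization.Away.lift r (GS_unit hr)

private theorem GSpsi_map (hr : ∀ x, MvPolynomial.eval x r ≠ 0 ↔ x ∈ A)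
    (p : MvPolynomial (Fin n) k) (x : A) :
    GSpsi hr (algebraMap _ _ p) x = MvPolynomial.eval (x : Fin n → k) p := by
  unfold GSpsi
  rw [IsLocalization.Away.lift_eq]
  rfl

private theorem GSpsi_inj [Infinite k] (hr : ∀ x, MvPolynomial.eval x r ≠ 0 ↔ x ∈ A) :
    Function.Injective (GSpsi hr) := by
  rw [injective_iff_map_eq_zero]
  intro b hb
  obtain ⟨N, p, hp⟩ := IsLocalization.Away.surj r b
  have h1 : ∀ x : A, MvPolynomial.eval (x : Fin n → k) p = 0 := by
    intro x
    rw [← GSpsi_map hr p x, ← hp, map_mul, hb, zero_mul]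
    rfl
  have h2 : p * r = 0 := by
    apply MvPolynomial.funext
    intro x
    rw [map_mul, map_zero]
    by_cases hx : x ∈ A
    · rw [h1 ⟨x, hx⟩, zero_mul]
    · rw [not_not.1 fun h => hx ((hr x).1 h), mul_zero]
  have hu : IsUnit (algebraMap (MvPolynomial (Fin n) k) (Localization.Away r) r) :=
    IsLocalization.Away.algebraMap_isUnit r
  have h3 : algebraMap (MvPolynomial (Fin n) k) (Localization.Away r) p = 0 := by
    have h4 := congrArg (algebraMap (MvPolynomial (Fin n) k) (Localization.Away r)) h2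
    rw [map_mul, map_zero] at h4
    exact (hu.mul_left_eq_zero).1 h4
  rw [h3] at hp
  exact ((hu.pow N).mul_left_eq_zero).1 hp

private theorem GSpsi_range [IsAlgClosed k] (hr : ∀ x, MvPolynomial.eval x r ≠ 0 ↔ x ∈ A)
    (f : OA A) : ∃ b : Localization.Away r, GSpsi hr b = f.1 := by
  have hA : A = {x | (∀ p ∈ (∅ : Set (MvPolynomial (Fin n) k)), MvPolynomial.eval x p = 0) ∧
      MvPolynomial.eval x r ≠ 0} := by
    ext x
    rw [← hr x]
    simp
  obtain ⟨P, N, h⟩ := OA_piece hA f
  have hu : IsUnit (algebraMap (MvPolynomial (Fin n) k) (Localization.Away r) r) :=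
    IsLocalization.Away.algebraMap_isUnit r
  obtain ⟨v, hv⟩ := (hu.pow N)
  refine ⟨algebraMap _ _ P * (v⁻¹ : (Localization.Away r)ˣ), ?_⟩
  funext x
  rw [map_mul, Pi.mul_apply, GSpsi_map, h x]
  have h1 : GSpsi hr ((v⁻¹ : (Localization.Away r)ˣ) : Localization.Away r) x *
      MvPolynomial.eval (x : Fin n → k) r ^ N = 1 := by
    rw [← map_pow, ← GSpsi_map hr (r ^ N) x, ← Pi.mul_apply, ← map_mul, map_pow, ← hv,
      Units.inv_mul, map_one]
    rfl
  have h2 : MvPolynomial.eval (x : Fin n → k) r ^ N ≠ 0 := pow_ne_zero _ ((hr x).2 x.2)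
  rw [div_eq_mul_inv]
  congr 1
  exact eq_inv_of_mul_eq_one_left h1

/-- the ring homomorphism from a ring of functions to the localization -/
private theorem GS_theta [IsAlgClosed k] (hr : ∀ x, MvPolynomial.eval x r ≠ 0 ↔ x ∈ A)
    (S : Subalgebra k (A → k)) (hS : S ≤ OA A) :
    ∃ θ : S →+* Localization.Away r, (∀ f : S, GSpsi hr (θ f) = f.1) ∧
      ∀ c : k, θ (algebraMap k S c) = algebraMap (MvPolynomial (Fin n) k) _ (MvPolynomial.C c) := by
  have hinf : Infinite k := IsAlgClosed.instInfinite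
  have hex : ∀ f : S, ∃ b : Localization.Away r, GSpsi hr b = f.1 :=
    fun f => GSpsi_range hr ⟨f.1, hS f.2⟩
  choose b hb using hex
  have hinj := GSpsi_inj hr
  refine ⟨{ toFun := b, map_one' := ?_, map_mul' := ?_, map_zero' := ?_, map_add' := ?_ }, hb, ?_⟩
  · apply hinj
    rw [hb, map_one]
    rfl
  · intro f g
    apply hinj
    rw [hb, map_mul, hb, hb]
    rfl
  · apply hinj
    rw [hb, map_zero]
    rfl
  · intro f g
    apply hinj
    rw [hb, map_add, hb, hb]
    rfl
  · intro c
    apply hinj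
    show GSpsi hr (b _) = _
    rw [hb]
    funext x
    rw [GSpsi_map, MvPolynomial.eval_C]
    rfl

/-- the open set is a basic open set -/
private theorem GS_open [IsAlgClosed k] (d : ℕ) (res : MvPolynomial (Fin ((d + 1) + (d + 1))) k)
    (hr : ∀ x, MvPolynomial.eval x res ≠ 0 ↔ x ∈ RatSet k d) :
    ratOpen k d = (PrimeSpectrum.basicOpen res : TopologicalSpace.Opens (PrimeSpectrum
      (MvPolynomial (Fin ((d + 1) + (d + 1))) k))) := by
  apply le_antisymm
  · unfold ratOpen
    apply sSup_le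
    intro W hW p hp
    obtain ⟨_, ⟨g, rfl⟩, hpg, hgW⟩ :=
      (PrimeSpectrum.isTopologicalBasis_basic_opens
        (R := MvPolynomial (Fin ((d + 1) + (d + 1))) k)).exists_subset_of_mem_open
        (show p ∈ (W : Set (Var.aff k ((d + 1) + (d + 1))).X) from hp) W.isOpen
    have h1 : g ∈ MvPolynomial.vanishingIdeal k (MvPolynomial.zeroLocus k
        (Ideal.span {res})) := by
      rw [MvPolynomial.mem_vanishingIdeal_iff]
      intro x hx
      rw [MvPolynomial.mem_zeroLocus_iff] at hx
      have h2 : ∀ p : MvPolynomial (Fin ((d + 1) + (d + 1))) k,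
          MvPolynomial.aeval x p = MvPolynomial.eval x p :=
        fun p => RingHom.congr_fun (MvPolynomial.coe_aeval_eq_eval x) p
      have h3 := hx res (Ideal.subset_span rfl)
      rw [h2] at h3 ⊢
      by_contra h4
      exact (hr x).2 (hW x (hgW ((ptA_mem_basicOpen x g).2 h4))) h3
    rw [MvPolynomial.vanishingIdeal_zeroLocus_eq_radical] at h1
    obtain ⟨N, hN⟩ := h1
    rw [Ideal.mem_span_singleton'] at hN
    obtain ⟨a, ha⟩ := hN
    show res ∉ (p : PrimeSpectrum (MvPolynomial (Fin ((d + 1) + (d + 1))) k)).asIdeal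
    intro h5
    have h6 : g ^ N ∈ (p : PrimeSpectrum (MvPolynomial (Fin ((d + 1) + (d + 1))) k)).asIdeal := by
      rw [← ha]
      exact Ideal.mul_mem_left _ _ h5
    exact hpg ((p : PrimeSpectrum (MvPolynomial (Fin ((d + 1) + (d + 1))) k)).isPrime.mem_of_pow_mem _ h6)
  · exact le_sSup fun x hx => (hr x).1 ((ptA_mem_basicOpen x res).1 hx)


/-- a closed point of the spectrum of an algebra of finite type is the kernel of a `k`-point -/
private theorem GS_closed [IsAlgClosed k] (B : Type) [CommRing B] [Algebra k B]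
    (hft : Algebra.FiniteType k B) (m : PrimeSpectrum B) (hm : IsClosed ({m} : Set _)) :
    ∃ χ : B →ₐ[k] k, ∀ b, b ∈ m.asIdeal ↔ χ b = 0 := by
  rw [PrimeSpectrum.isClosed_singleton_iff_isMaximal] at hm
  let _ : Field (B ⧸ m.asIdeal) := Ideal.Quotient.field _
  have h1 : Algebra.FiniteType k (B ⧸ m.asIdeal) := inferInstance
  have h2 : Module.Finite k (B ⧸ m.asIdeal) := finite_of_finite_type_of_isJacobsonRing _ _
  have h3 : Function.Bijective (algebraMap k (B ⧸ m.asIdeal)) :=
    IsAlgClosed.algebraMap_bijective_of_isIntegral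
  let e : k ≃ₐ[k] (B ⧸ m.asIdeal) := AlgEquiv.ofBijective (Algebra.ofId k _) h3
  refine ⟨(e.symm : (B ⧸ m.asIdeal) →ₐ[k] k).comp (Ideal.Quotient.mkₐ k m.asIdeal), fun b => ?_⟩
  have h4 : ((e.symm : (B ⧸ m.asIdeal) →ₐ[k] k).comp (Ideal.Quotient.mkₐ k m.asIdeal)) b =
      e.symm (Ideal.Quotient.mk m.asIdeal b) := rfl
  rw [h4, map_eq_zero_iff e.symm e.symm.injective, Ideal.Quotient.eq_zero_iff_mem]

theorem git_scheme {k : Type} [Field k] [IsAlgClosed k] [CharZero k] (d : ℕ) (hd : 2 ≤ d)
    (hft : Algebra.FiniteType k (invRat k d))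
    (hχ : ∀ χ : invRat k d →ₐ[k] k, ∃ x : RatSet k d, ∀ f : invRat k d, χ f = f.1 x)
    (hsep : ∀ x y : RatSet k d, (∀ f : invRat k d, f.1 x = f.1 y) → RatConj k d x.1 y.1) :
    ∃ π : (ratOpen k d).toScheme ⟶ (modSpace k d hft).X,
      IsOrbitMap (ratOpen k d) (RatConj k d) (modSpace k d hft) π := by
  obtain ⟨res, hr⟩ := exists_res0 (k := k) d (by omega)
  obtain ⟨θ, hθ, hθc⟩ := GS_theta hr (invRat k d) (fun f hf => (mem_invRat.1 hf).1)
  let j : Spec (CommRingCat.of (Localization.Away res)) ⟶ (Var.aff k ((d + 1) + (d + 1))).X :=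
    Spec.map (CommRingCat.ofHom (algebraMap (MvPolynomial (Fin ((d + 1) + (d + 1))) k)
      (Localization.Away res)))
  have hj : IsOpenImmersion j := inferInstanceAs (IsOpenImmersion (Spec.map (CommRingCat.ofHom
    (algebraMap (MvPolynomial (Fin ((d + 1) + (d + 1))) k) (Localization.Away res)))))
  have hrange : Set.range (ratOpen k d).ι = Set.range j := by
    rw [Scheme.Opens.range_ι, GS_open d res hr]
    exact (PrimeSpectrum.localization_away_comap_range _ _).symm
  let e := IsOpenImmersion.isoOfRangeEq (ratOpen k d).ι j hrange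
  have he : e.hom ≫ j = (ratOpen k d).ι := IsOpenImmersion.isoOfRangeEq_hom_fac _ _ _
  let π : (ratOpen k d).toScheme ⟶ (modSpace k d hft).X :=
    e.hom ≫ Spec.map (CommRingCat.ofHom θ)
  have key : ∀ (u : (ratOpen k d).toScheme) (x : Fin ((d + 1) + (d + 1)) → k),
      (ratOpen k d).ι u = ptA k x → ∃ hx : x ∈ RatSet k d, ∀ f : invRat k d,
        f ∈ (π u : PrimeSpectrum (invRat k d)).asIdeal ↔ f.1 ⟨x, hx⟩ = 0 := by
    intro u x hu
    have hx : x ∈ RatSet k d := by
      rw [← mem_ratOpen, ← hu]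
      exact u.2
    refine ⟨hx, fun f => ?_⟩
    let q : PrimeSpectrum (Localization.Away res) :=
      ⟨RingHom.ker ((Pi.evalRingHom (fun _ : RatSet k d => k) ⟨x, hx⟩).comp (GSpsi hr)),
        RingHom.ker_isPrime _⟩
    have h1 : e.hom u = q := by
      apply hj.base_open.injective
      have h2 : j (e.hom u) = ptA k x := by
        rw [← hu, ← he]
        rfl
      have h3 : j q = ptA k x := by
        apply PrimeSpectrum.ext
        ext p
        show GSpsi hr (algebraMap _ _ p) ⟨x, hx⟩ = 0 ↔ MvPolynomial.eval x p = 0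
        rw [GSpsi_map]
      exact h2.trans h3.symm
    have h4 : π u = (Spec.map (CommRingCat.ofHom θ)) (e.hom u) := rfl
    rw [h4, h1]
    show GSpsi hr (θ f) ⟨x, hx⟩ = 0 ↔ _
    rw [hθ]
  refine ⟨π, ?_, ?_, ?_⟩
  · have h5 : j ≫ (Var.aff k ((d + 1) + (d + 1))).str =
        Spec.map (CommRingCat.ofHom θ) ≫ (modSpace k d hft).str := by
      show Spec.map (CommRingCat.ofHom (algebraMap (MvPolynomial (Fin ((d + 1) + (d + 1))) k)
          (Localization.Away res))) ≫
          Spec.map (CommRingCat.ofHom (algebraMap k (MvPolynomial (Fin ((d + 1) + (d + 1))) k))) =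
        Spec.map (CommRingCat.ofHom θ) ≫
          Spec.map (CommRingCat.ofHom (algebraMap k (invRat k d)))
      rw [← Spec.map_comp, ← Spec.map_comp]
      congr 1
      ext c
      exact (hθc c).symm
    have h6 : π ≫ (modSpace k d hft).str =
        e.hom ≫ (Spec.map (CommRingCat.ofHom θ) ≫ (modSpace k d hft).str) := Category.assoc _ _ _
    rw [h6, ← h5, ← he, Category.assoc]
  · intro m hm
    obtain ⟨χ, h1⟩ := GS_closed (invRat k d) hft (m : PrimeSpectrum (invRat k d)) hm
    obtain ⟨x, h2⟩ := hχ χ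
    have hx : ptA k x.1 ∈ ratOpen k d := (mem_ratOpen d x.1).2 x.2
    refine ⟨⟨ptA k x.1, hx⟩, x.1, rfl, ?_⟩
    obtain ⟨hx', h3⟩ := key ⟨ptA k x.1, hx⟩ x.1 rfl
    apply PrimeSpectrum.ext
    ext f
    rw [h3 f, h1 f, h2 f]
  · intro u v x y hu hv
    obtain ⟨hx, h1⟩ := key u x hu
    obtain ⟨hy, h2⟩ := key v y hv
    constructor
    · intro h
      apply hsep ⟨x, hx⟩ ⟨y, hy⟩
      intro f
      have h3 : f - algebraMap k _ (f.1 ⟨x, hx⟩) ∈
          (π u : PrimeSpectrum (invRat k d)).asIdeal := by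
        rw [h1]
        show f.1 ⟨x, hx⟩ - f.1 ⟨x, hx⟩ = 0
        exact sub_self _
      rw [h, h2] at h3
      have h4 : f.1 ⟨y, hy⟩ - f.1 ⟨x, hx⟩ = 0 := h3
      exact (sub_eq_zero.1 h4).symm
    · intro h
      apply PrimeSpectrum.ext
      ext f
      rw [h1 f, h2 f, (mem_invRat.1 f.2).2 ⟨x, hx⟩ ⟨y, hy⟩ h]

end Pool.Agent.MRat
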