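import Pool.Agent.Lib.MP_923aff_ag.GITA2
/-!
# JOB GITV: uniqueness of the model with good reduction over a valuation ring (uses GITA1, GITA2)

PROOF. Write `m` for the maximal ideal of `O`. Valuation ring: for all `p q : K` one of them divides the other in `O`, that is
`p = s q` or `q = s p` with `s` in `O`.
(1) Decomposition `A = U * diag (α, β) * V` with `U`, `V` in `GL₂(O)` and `α = s β`, `s` in `O`, `α, β ≠ 0`: take the entry of `A`
which divides (in `O`) the other three; move it by permutation matrices to the place `(1, 1)`, call it `β`; clear the other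
entries of its row and its column by elementary matrices over `O`.
(2) `x' := act O d V x`, `y' := act O d U⁻¹ y`; then (in `K`, with `act_map` for the inclusion and `act_mul`, `act_one`)
`act K d (diag (α, β)) x' = y'`, and the residues of `x'`, `y'` again have no common zero (`act_map` for `IsLocalRing.residue O`,
`pm_act`; the matrices are invertible over the residue field).
(3) By `act_diag_left/right`, with `c = β^(d+1)`: `y'_(0,i) = s^(d-i+1) c x'_(0,i)`, `y'_(1,i) = s^(d-i) c x'_(1,i)`.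
(4) No common zero of the residue of `x'` at `(1, 0)`: `x'_(0,d)` or `x'_(1,d)` is a unit of `O`; `y'_(0,d) = s c x'_(0,d)` and
`y'_(1,d) = c x'_(1,d)` are in `O`; so `w := s c` is in `O`, and if `s` is a unit, `c` is in `O`.
(5) `s` is a unit: otherwise `y'_(0,0) = s^d w x'_(0,0)` and `y'_(1,0) = s^(d-1) w x'_(1,0)` are in `m` (`d ≥ 2`), so the residue
of `y'` has the common zero `(0, 1)`.
(6) `c` is a unit: `c` is in `O`, and `y'_(0,0)` or `y'_(1,0)` is a unit and is a multiple of `c` in `O`. So `β^(d+1)` is a unit of `O`,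
so `β` is a unit of `O` (if `β` is not in `O` then `β⁻¹` is in `m` and so is `c⁻¹`), `α = s β` too, and `A` is in `GL₂(O)`.
-/

set_option autoImplicit false

namespace Pool.Agent.MRat

/-- `U diag(s β, β) V` with `U`, `V` invertible over `O`. -/
def GitvDec (K : Type) [Field K] (O : ValuationSubring K) (A : Matrix (Fin 2) (Fin 2) K) : Prop :=
  ∃ U U' V V' : Matrix (Fin 2) (Fin 2) O, U * U' = 1 ∧ U' * U = 1 ∧ V * V' = 1 ∧ V' * V = 1 ∧
    ∃ (s : O) (β : K), β ≠ 0 ∧ A = U.map O.subtype * Matrix.diagonal ![(s : K) * β, β] *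
      V.map O.subtype

theorem gitv_dec11 (K : Type) [Field K] (O : ValuationSubring K) (A : Matrix (Fin 2) (Fin 2) K)
    (hβ : A 1 1 ≠ 0) (s00 s01 s10 : O) (h00 : A 0 0 = s00 * A 1 1) (h01 : A 0 1 = s01 * A 1 1)
    (h10 : A 1 0 = s10 * A 1 1) : GitvDec K O A := by
  refine ⟨!![1, s01; 0, 1], !![1, -s01; 0, 1], !![1, 0; s10, 1], !![1, 0; -s10, 1], ?_, ?_, ?_, ?_,
    s00 - s01 * s10, A 1 1, hβ, ?_⟩
  · ext i j; fin_cases i <;> fin_cases j <;> simp [Matrix.mul_apply, Fin.sum_univ_two]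
  · ext i j; fin_cases i <;> fin_cases j <;> simp [Matrix.mul_apply, Fin.sum_univ_two]
  · ext i j; fin_cases i <;> fin_cases j <;> simp [Matrix.mul_apply, Fin.sum_univ_two]
  · ext i j; fin_cases i <;> fin_cases j <;> simp [Matrix.mul_apply, Fin.sum_univ_two]
  · ext i j
    fin_cases i <;> fin_cases j
    · simp [Matrix.mul_apply, Fin.sum_univ_two, Matrix.diagonal, h00]; ring
    · simp [Matrix.mul_apply, Fin.sum_univ_two, Matrix.diagonal, h01]
    · simp [Matrix.mul_apply, Fin.sum_univ_two, Matrix.diagonal, h10]; ring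
    · simp [Matrix.mul_apply, Fin.sum_univ_two, Matrix.diagonal]

theorem gitv_sw {R : Type} [CommRing R] :
    (!![0, 1; 1, 0] : Matrix (Fin 2) (Fin 2) R) * !![0, 1; 1, 0] = 1 := by
  ext i j; fin_cases i <;> fin_cases j <;> simp [Matrix.mul_apply, Fin.sum_univ_two]

theorem gitv_swmap (K : Type) [Field K] (O : ValuationSubring K) :
    ((!![0, 1; 1, 0] : Matrix (Fin 2) (Fin 2) O)).map O.subtype = !![0, 1; 1, 0] := by
  ext i j; fin_cases i <;> fin_cases j <;> simp

theorem gitv_decL (K : Type) [Field K] (O : ValuationSubring K) (A : Matrix (Fin 2) (Fin 2) K)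
    (h : GitvDec K O (!![0, 1; 1, 0] * A)) : GitvDec K O A := by
  obtain ⟨U, U', V, V', h1, h2, h3, h4, s, β, h5, h6⟩ := h
  refine ⟨!![0, 1; 1, 0] * U, U' * !![0, 1; 1, 0], V, V', ?_, ?_, h3, h4, s, β, h5, ?_⟩
  · rw [Matrix.mul_assoc, ← Matrix.mul_assoc U, h1, Matrix.one_mul, gitv_sw]
  · rw [Matrix.mul_assoc, ← Matrix.mul_assoc (!![0, 1; 1, 0] : Matrix (Fin 2) (Fin 2) O), gitv_sw,
      Matrix.one_mul, h2]
  · rw [Matrix.map_mul, gitv_swmap, Matrix.mul_assoc, Matrix.mul_assoc, ← Matrix.mul_assoc (U.map _),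
      ← h6, ← Matrix.mul_assoc, gitv_sw, Matrix.one_mul]

theorem gitv_decR (K : Type) [Field K] (O : ValuationSubring K) (A : Matrix (Fin 2) (Fin 2) K)
    (h : GitvDec K O (A * !![0, 1; 1, 0])) : GitvDec K O A := by
  obtain ⟨U, U', V, V', h1, h2, h3, h4, s, β, h5, h6⟩ := h
  refine ⟨U, U', V * !![0, 1; 1, 0], !![0, 1; 1, 0] * V', h1, h2, ?_, ?_, s, β, h5, ?_⟩
  · rw [Matrix.mul_assoc, ← Matrix.mul_assoc (!![0, 1; 1, 0] : Matrix (Fin 2) (Fin 2) O), gitv_sw,
      Matrix.one_mul, h3]
  · rw [Matrix.mul_assoc, ← Matrix.mul_assoc V', h4, Matrix.one_mul, gitv_sw]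
  · rw [Matrix.map_mul, gitv_swmap, ← Matrix.mul_assoc, ← h6, Matrix.mul_assoc, gitv_sw,
      Matrix.mul_one]

theorem gitv_swL0 {R : Type} [CommRing R] (A : Matrix (Fin 2) (Fin 2) R) (j : Fin 2) :
    ((!![0, 1; 1, 0] : Matrix (Fin 2) (Fin 2) R) * A) 0 j = A 1 j := by
  simp [Matrix.mul_apply, Fin.sum_univ_two]

theorem gitv_swL1 {R : Type} [CommRing R] (A : Matrix (Fin 2) (Fin 2) R) (j : Fin 2) :
    ((!![0, 1; 1, 0] : Matrix (Fin 2) (Fin 2) R) * A) 1 j = A 0 j := by
  simp [Matrix.mul_apply, Fin.sum_univ_two]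

theorem gitv_swR0 {R : Type} [CommRing R] (A : Matrix (Fin 2) (Fin 2) R) (i : Fin 2) :
    (A * (!![0, 1; 1, 0] : Matrix (Fin 2) (Fin 2) R)) i 0 = A i 1 := by
  simp [Matrix.mul_apply, Fin.sum_univ_two]

theorem gitv_swR1 {R : Type} [CommRing R] (A : Matrix (Fin 2) (Fin 2) R) (i : Fin 2) :
    (A * (!![0, 1; 1, 0] : Matrix (Fin 2) (Fin 2) R)) i 1 = A i 0 := by
  simp [Matrix.mul_apply, Fin.sum_univ_two]

theorem gitv_dvd (K : Type) [Field K] (O : ValuationSubring K) (a b : K) (hb : b ≠ 0)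
    (h : O.valuation a ≤ O.valuation b) : ∃ s : O, a = s * b := by
  have h1 : O.valuation (a / b) ≤ 1 := by
    rw [map_div₀]
    exact div_le_one_of_le₀ h zero_le
  refine ⟨⟨a / b, (O.valuation_le_one_iff _).1 h1⟩, ?_⟩
  show a = a / b * b
  field_simp

theorem gitv_dec (K : Type) [Field K] (O : ValuationSubring K) (A : Matrix (Fin 2) (Fin 2) K)
    (hA : A.det ≠ 0) : GitvDec K O A := by
  obtain ⟨p, hp⟩ := Finite.exists_max (fun p : Fin 2 × Fin 2 => O.valuation (A p.1 p.2))
  have hβ : A p.1 p.2 ≠ 0 := by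
    intro h0
    have hz : ∀ i j, A i j = 0 := by
      intro i j
      have := hp (i, j)
      simp only [h0, map_zero, le_zero_iff, map_eq_zero] at this
      exact this
    apply hA
    rw [Matrix.det_fin_two, hz 0 0, hz 0 1]
    ring
  have key : ∀ i j, ∃ s : O, A i j = s * A p.1 p.2 := fun i j => gitv_dvd K O _ _ hβ (hp (i, j))
  obtain ⟨i, j⟩ := p
  simp only at hβ key
  fin_cases i <;> fin_cases j <;> simp only [Fin.zero_eta, Fin.mk_one] at hβ key
  · apply gitv_decL
    apply gitv_decR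
    obtain ⟨s1, h1⟩ := key 1 1
    obtain ⟨s2, h2⟩ := key 1 0
    obtain ⟨s3, h3⟩ := key 0 1
    refine gitv_dec11 K O _ ?_ s1 s2 s3 ?_ ?_ ?_ <;>
      simp only [gitv_swL0, gitv_swL1, gitv_swR0, gitv_swR1] <;> assumption
  · apply gitv_decL
    obtain ⟨s1, h1⟩ := key 1 0
    obtain ⟨s2, h2⟩ := key 1 1
    obtain ⟨s3, h3⟩ := key 0 0
    refine gitv_dec11 K O _ ?_ s1 s2 s3 ?_ ?_ ?_ <;>
      simp only [gitv_swL0, gitv_swL1, gitv_swR0, gitv_swR1] <;> assumption
  · apply gitv_decR
    obtain ⟨s1, h1⟩ := key 0 1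
    obtain ⟨s2, h2⟩ := key 0 0
    obtain ⟨s3, h3⟩ := key 1 1
    refine gitv_dec11 K O _ ?_ s1 s2 s3 ?_ ?_ ?_ <;>
      simp only [gitv_swL0, gitv_swL1, gitv_swR0, gitv_swR1] <;> assumption
  · obtain ⟨s1, h1⟩ := key 0 0
    obtain ⟨s2, h2⟩ := key 0 1
    obtain ⟨s3, h3⟩ := key 1 0
    exact gitv_dec11 K O _ hβ s1 s2 s3 h1 h2 h3

theorem gitv_nz (κ : Type) [Field κ] (d : ℕ) (V V' : Matrix (Fin 2) (Fin 2) κ) (h1 : V * V' = 1)
    (x : Fin ((d + 1) + (d + 1)) → κ) (hx : ∀ v : Fin 2 → κ, v ≠ 0 → pm κ d x v ≠ 0)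
    (v : Fin 2 → κ) (hv : v ≠ 0) : pm κ d (act κ d V x) v ≠ 0 := by
  have h2 : V' * V = 1 := mul_eq_one_comm.1 h1
  have hdet : V.det ≠ 0 := by
    intro h0
    have := congrArg Matrix.det h1
    rw [Matrix.det_mul, h0, zero_mul, Matrix.det_one] at this
    exact zero_ne_one this
  rw [pm_act]
  have e1 : V.adjugate.mulVec v ≠ 0 := by
    intro h0
    have : V.mulVec (V.adjugate.mulVec v) = 0 := by rw [h0, Matrix.mulVec_zero]
    rw [Matrix.mulVec_mulVec, Matrix.mul_adjugate, Matrix.smul_mulVec, Matrix.one_mulVec] at this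
    rcases smul_eq_zero.1 this with h | h
    · exact hdet h
    · exact hv h
  intro h0
  apply hx _ e1
  have : V'.mulVec (V.mulVec (pm κ d x (V.adjugate.mulVec v))) = 0 := by
    rw [h0, Matrix.mulVec_zero]
  rw [Matrix.mulVec_mulVec, h2, Matrix.one_mulVec] at this
  exact this

theorem gitv_pm10 (κ : Type) [Field κ] (d : ℕ) (x : Fin ((d + 1) + (d + 1)) → κ) :
    pm κ d x ![1, 0] = ![x (Fin.castAdd (d + 1) (Fin.last d)), x (Fin.natAdd (d + 1) (Fin.last d))] := by
  unfold pm
  congr 1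
  · rw [Finset.sum_eq_single (Fin.last d)]
    · simp
    · intro i _ hi
      have : d - (i : ℕ) ≠ 0 := by
        have h1 := i.2
        have h2 : (i : ℕ) ≠ d := fun h => hi (Fin.ext h)
        omega
      simp [this]
    · intro h; exact absurd (Finset.mem_univ _) h
  · congr 1
    rw [Finset.sum_eq_single (Fin.last d)]
    · simp
    · intro i _ hi
      have : d - (i : ℕ) ≠ 0 := by
        have h1 := i.2
        have h2 : (i : ℕ) ≠ d := fun h => hi (Fin.ext h)
        omega
      simp [this]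
    · intro h; exact absurd (Finset.mem_univ _) h

theorem gitv_pm01 (κ : Type) [Field κ] (d : ℕ) (x : Fin ((d + 1) + (d + 1)) → κ) :
    pm κ d x ![0, 1] = ![x (Fin.castAdd (d + 1) 0), x (Fin.natAdd (d + 1) 0)] := by
  unfold pm
  congr 1
  · rw [Finset.sum_eq_single (0 : Fin (d + 1))]
    · simp
    · intro i _ hi
      have : (i : ℕ) ≠ 0 := fun h => hi (Fin.ext h)
      simp [this]
    · intro h; exact absurd (Finset.mem_univ _) h
  · congr 1
    rw [Finset.sum_eq_single (0 : Fin (d + 1))]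
    · simp
    · intro i _ hi
      have : (i : ℕ) ≠ 0 := fun h => hi (Fin.ext h)
      simp [this]
    · intro h; exact absurd (Finset.mem_univ _) h

theorem gitv_res {K : Type} [Field K] {O : ValuationSubring K} {a : O}
    (h : IsLocalRing.residue O a ≠ 0) : O.valuation (a : K) = 1 :=
  (O.valuation_eq_one_iff a).1 ((IsLocalRing.residue_ne_zero_iff_isUnit a).1 h)

theorem gitv_res0 {K : Type} [Field K] {O : ValuationSubring K} {a : O}
    (h : O.valuation (a : K) < 1) : IsLocalRing.residue O a = 0 :=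
  (IsLocalRing.residue_eq_zero_iff a).2 ((O.valuation_lt_one_iff a).2 h)

theorem val_lemma (K : Type) [Field K] (O : ValuationSubring K) (d : ℕ) (hd : 2 ≤ d)
    (A : Matrix (Fin 2) (Fin 2) K) (hA : A.det ≠ 0) (x y : Fin ((d + 1) + (d + 1)) → O)
    (hxy : act K d A (fun i => (x i : K)) = fun i => (y i : K))
    (hx : ∀ v : Fin 2 → IsLocalRing.ResidueField O, v ≠ 0 →
      pm (IsLocalRing.ResidueField O) d (fun i => IsLocalRing.residue O (x i)) v ≠ 0)
    (hy : ∀ v : Fin 2 → IsLocalRing.ResidueField O, v ≠ 0 →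
      pm (IsLocalRing.ResidueField O) d (fun i => IsLocalRing.residue O (y i)) v ≠ 0) :
    ∃ A' : Matrix (Fin 2) (Fin 2) O, A = A'.map (fun a : O => (a : K)) ∧ IsUnit A'.det := by
  obtain ⟨U, U', V, V', hU, hU', hV, hV', s, β, hβ, hdec⟩ := gitv_dec K O A hA
  set κ := IsLocalRing.ResidueField O with hκ
  -- the new coordinates
  set x' := act O d V x with hx'
  set y' := act O d U' y with hy'
  have ex' : (fun i => ((x' i : O) : K)) = act K d (V.map O.subtype) (fun i => (x i : K)) :=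
    act_map O.subtype d V x
  have ey' : (fun i => ((y' i : O) : K)) = act K d (U'.map O.subtype) (fun i => (y i : K)) :=
    act_map O.subtype d U' y
  have hrel : act K d (Matrix.diagonal ![(s : K) * β, β]) (fun i => ((x' i : O) : K)) =
      fun i => ((y' i : O) : K) := by
    rw [ey', ← hxy, hdec, act_mul, act_mul, ← ex', ← act_mul, ← Matrix.map_mul, hU']
    rw [Matrix.map_one _ (map_zero _) (map_one _), act_one]
  have rx : (fun i => IsLocalRing.residue O (x' i)) =
      act κ d (V.map (IsLocalRing.residue O)) (fun i => IsLocalRing.residue O (x i)) :=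
    act_map (IsLocalRing.residue O) d V x
  have ry : (fun i => IsLocalRing.residue O (y' i)) =
      act κ d (U'.map (IsLocalRing.residue O)) (fun i => IsLocalRing.residue O (y i)) :=
    act_map (IsLocalRing.residue O) d U' y
  have nx : ∀ v : Fin 2 → κ, v ≠ 0 → pm κ d (fun i => IsLocalRing.residue O (x' i)) v ≠ 0 := by
    rw [rx]
    refine gitv_nz κ d _ (V'.map (IsLocalRing.residue O)) ?_ _ hx
    rw [← Matrix.map_mul, hV, Matrix.map_one _ (map_zero _) (map_one _)]
  have ny : ∀ v : Fin 2 → κ, v ≠ 0 → pm κ d (fun i => IsLocalRing.residue O (y' i)) v ≠ 0 := by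
    rw [ry]
    refine gitv_nz κ d _ (U.map (IsLocalRing.residue O)) ?_ _ hy
    rw [← Matrix.map_mul, hU', Matrix.map_one _ (map_zero _) (map_one _)]
  have hdd : d + 1 ≠ 0 := by omega
  -- the four relations
  have r0d : ((y' (Fin.castAdd (d + 1) (Fin.last d)) : O) : K) =
      s * β ^ (d + 1) * x' (Fin.castAdd (d + 1) (Fin.last d)) := by
    rw [← congrFun hrel (Fin.castAdd (d + 1) (Fin.last d)), act_diag_left]
    simp only [Fin.val_last, Nat.sub_self, zero_add, pow_one]
    ring
  have r1d : ((y' (Fin.natAdd (d + 1) (Fin.last d)) : O) : K) =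
      β ^ (d + 1) * x' (Fin.natAdd (d + 1) (Fin.last d)) := by
    rw [← congrFun hrel (Fin.natAdd (d + 1) (Fin.last d)), act_diag_right]
    simp only [Fin.val_last, Nat.sub_self, pow_zero, one_mul]
  have r00 : ((y' (Fin.castAdd (d + 1) 0) : O) : K) =
      s ^ d * (s * β ^ (d + 1)) * x' (Fin.castAdd (d + 1) 0) := by
    rw [← congrFun hrel (Fin.castAdd (d + 1) 0), act_diag_left]
    simp only [Fin.val_zero, Nat.sub_zero, pow_zero, mul_one]
    ring
  have r10 : ((y' (Fin.natAdd (d + 1) 0) : O) : K) =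
      s ^ (d - 1) * (s * β ^ (d + 1)) * x' (Fin.natAdd (d + 1) 0) := by
    rw [← congrFun hrel (Fin.natAdd (d + 1) 0), act_diag_right]
    simp only [Fin.val_zero, Nat.sub_zero, zero_add, pow_one]
    obtain ⟨e, rfl⟩ : ∃ e, d = e + 1 := ⟨d - 1, by omega⟩
    simp only [Nat.add_sub_cancel]
    ring
  have hsO : O.valuation (s : K) ≤ 1 := O.valuation_le_one s
  -- `s c` is integral
  have hsc : O.valuation ((s : K) * β ^ (d + 1)) ≤ 1 := by
    have h1 := nx ![1, 0] (by intro h; have := congrFun h 0; simp at this)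
    rw [gitv_pm10] at h1
    by_cases h2 : IsLocalRing.residue O (x' (Fin.castAdd (d + 1) (Fin.last d))) = 0
    · have h3 : IsLocalRing.residue O (x' (Fin.natAdd (d + 1) (Fin.last d))) ≠ 0 := by
        intro h3
        apply h1
        rw [h2, h3]
        ext i; fin_cases i <;> rfl
      have h4 := gitv_res h3
      have h5 : O.valuation (β ^ (d + 1)) ≤ 1 := by
        have h6 := O.valuation_le_one (y' (Fin.natAdd (d + 1) (Fin.last d)))
        rw [r1d, map_mul, h4, mul_one] at h6
        exact h6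
      rw [map_mul]
      exact mul_le_one' hsO h5
    · have h4 := gitv_res h2
      have h6 := O.valuation_le_one (y' (Fin.castAdd (d + 1) (Fin.last d)))
      rw [r0d, map_mul, h4, mul_one] at h6
      exact h6
  have hyy := ny ![0, 1] (by intro h; have := congrFun h 1; simp at this)
  rw [gitv_pm01] at hyy
  -- `s` is a unit
  have hs1 : O.valuation (s : K) = 1 := by
    rcases hsO.lt_or_eq with hlt | heq
    · exfalso
      apply hyy
      have e0 : IsLocalRing.residue O (y' (Fin.castAdd (d + 1) 0)) = 0 := by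
        apply gitv_res0
        rw [r00, map_mul, map_mul, map_pow]
        refine mul_lt_one_of_lt_of_le (mul_lt_one_of_lt_of_le ?_ hsc) (O.valuation_le_one _)
        exact pow_lt_one' hlt (by omega)
      have e1 : IsLocalRing.residue O (y' (Fin.natAdd (d + 1) 0)) = 0 := by
        apply gitv_res0
        rw [r10, map_mul, map_mul, map_pow]
        refine mul_lt_one_of_lt_of_le (mul_lt_one_of_lt_of_le ?_ hsc) (O.valuation_le_one _)
        exact pow_lt_one' hlt (by omega)
      rw [e0, e1]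
      ext i; fin_cases i <;> rfl
    · exact heq
  have hc1 : O.valuation β ^ (d + 1) = 1 := by
    rw [map_mul, hs1, one_mul, map_pow] at hsc
    refine le_antisymm hsc ?_
    by_cases h2 : IsLocalRing.residue O (y' (Fin.castAdd (d + 1) 0)) = 0
    · have h3 : IsLocalRing.residue O (y' (Fin.natAdd (d + 1) 0)) ≠ 0 := by
        intro h3
        apply hyy
        rw [h2, h3]
        ext i; fin_cases i <;> rfl
      have h4 := gitv_res h3
      rw [r10, map_mul, map_mul, map_pow, map_mul, hs1, one_pow, one_mul, one_mul, map_pow] at h4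
      rw [← h4]
      exact mul_le_of_le_one_right' (O.valuation_le_one _)
    · have h4 := gitv_res h2
      rw [r00, map_mul, map_mul, map_pow, map_mul, hs1, one_pow, one_mul, one_mul, map_pow] at h4
      rw [← h4]
      exact mul_le_of_le_one_right' (O.valuation_le_one _)
  have hβ1 : O.valuation β = 1 := by
    rcases lt_trichotomy (O.valuation β) 1 with h | h | h
    · exact absurd hc1 (pow_lt_one' h hdd).ne
    · exact h
    · exact absurd hc1 (one_lt_pow' h hdd).ne'
  have hβO : β ∈ O := (O.valuation_le_one_iff _).1 hβ1.le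
  have usu : IsUnit s := (O.valuation_eq_one_iff s).2 hs1
  have ubu : IsUnit (⟨β, hβO⟩ : O) := (O.valuation_eq_one_iff _).2 hβ1
  refine ⟨U * Matrix.diagonal ![s * ⟨β, hβO⟩, ⟨β, hβO⟩] * V, ?_, ?_⟩
  · have e1 : (U * Matrix.diagonal ![s * ⟨β, hβO⟩, ⟨β, hβO⟩] * V).map (fun a : O => (a : K)) =
        (U * Matrix.diagonal ![s * ⟨β, hβO⟩, ⟨β, hβO⟩] * V).map O.subtype := rfl
    rw [e1, Matrix.map_mul, Matrix.map_mul, hdec]
    congr 2
    ext i j
    fin_cases i <;> fin_cases j <;> simp [Matrix.diagonal]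
  · rw [Matrix.det_mul, Matrix.det_mul, Matrix.det_diagonal]
    refine IsUnit.mul (IsUnit.mul ?_ ?_) ?_
    · exact IsUnit.of_mul_eq_one _ (by rw [← Matrix.det_mul, hU, Matrix.det_one])
    · rw [Fin.prod_univ_two]
      exact (usu.mul ubu).mul ubu
    · exact IsUnit.of_mul_eq_one _ (by rw [← Matrix.det_mul, hV, Matrix.det_one])

end Pool.Agent.MRat
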