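import Pool.Agent.Lib.MP_923aff_ag.MKB
/-!
# JOB HA: Hilbert 90 for definable families
-/

set_option autoImplicit false

namespace Pool.Agent.MRat

open Polynomial

variable {k : Type} [Field k] [IsAlgClosed k] [CharZero k]
variable {α β γ δ : Type} [Amb k α] [Amb k β] [Amb k γ] [Amb k δ]

/-- A canonical finite nonempty subset `F x` of every equivalence class. -/
theorem class_multisection {s : Set α} {r : α → α → Prop} (h : Good k s r) :
    ∃ (F : α → α → Prop) (N : ℕ), DP k (fun p : α × α => F p.1 p.2) ∧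
      (∀ x ∈ s, ∀ y, F x y → y ∈ s ∧ r x y) ∧ (∀ x ∈ s, ∃ y, F x y) ∧
      (∀ x, {y | F x y}.Finite ∧ {y | F x y}.ncard ≤ N) ∧
      (∀ x ∈ s, ∀ y ∈ s, r x y → ∀ z, F x z ↔ F y z) := by
  obtain ⟨F, N, hF, hsub, hne, hfin, hcan⟩ := multisection (k := k)
    (R := fun x y : α => x ∈ s ∧ y ∈ s ∧ r x y) h.dr
  refine ⟨F, N, hF, ?_, ?_, hfin, ?_⟩
  · intro x _ y hxy
    exact (hsub x y hxy).2
  · intro x hx
    exact hne x ⟨x, hx, hx, h.refl x hx⟩
  · intro x hx y hy hxy
    apply hcan
    intro b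
    constructor
    · rintro ⟨_, hb, hxb⟩
      exact ⟨hy, hb, h.trans y hy x hx b hb (h.symm x hx y hy hxy) hxb⟩
    · rintro ⟨_, hb, hyb⟩
      exact ⟨hx, hb, h.trans x hx y hy b hb hxy hyb⟩

open Classical in
/-- choose the first invertible matrix in a list of definable families -/
private theorem ha_pick {n : ℕ} (L : List (α → Matrix (Fin n) (Fin n) k))
    (hL : ∀ f ∈ L, DF k f) :
    ∃ H : α → Matrix (Fin n) (Fin n) k, DF k H ∧
      (∀ y, (∃ f ∈ L, (f y).det ≠ 0) → (H y).det ≠ 0) ∧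
      ∀ y y' (Q : Matrix (Fin n) (Fin n) k), Q.det ≠ 0 → (∀ f ∈ L, f y' = Q * f y) →
        H y' = Q * H y := by
  induction L with
  | nil =>
    refine ⟨fun _ => 0, DF.const 0, ?_, ?_⟩
    · rintro y ⟨f, hf, _⟩
      simp at hf
    · intro y y' Q _ _
      simp
  | cons f L ih =>
    obtain ⟨H, hH, hdet, heq⟩ := ih (fun g hg => hL g (List.mem_cons_of_mem _ hg))
    have hf : DF k f := hL f List.mem_cons_self
    refine ⟨fun y => if (f y).det ≠ 0 then f y else H y, ?_, ?_, ?_⟩
    · refine DF.congr (DF.ite (DP.not (DP.eq (DF.det hf) (DF.const 0))) hf hH) ?_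
      intro y
      by_cases h0 : (f y).det = 0
      · simp [h0]
      · simp [h0]
    · rintro y ⟨g, hg, hgy⟩
      by_cases h0 : (f y).det ≠ 0
      · simp only [if_pos h0]
        exact h0
      · simp only [if_neg h0]
        rcases List.mem_cons.mp hg with rfl | hg
        · exact absurd hgy h0
        · exact hdet y ⟨g, hg, hgy⟩
    · intro y y' Q hQ hall
      have h1 : f y' = Q * f y := hall f List.mem_cons_self
      by_cases h0 : (f y).det ≠ 0
      · have h0' : (f y').det ≠ 0 := by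
          rw [h1, Matrix.det_mul]
          exact mul_ne_zero hQ h0
        simp only [if_pos h0, if_pos h0']
        exact h1
      · have h0' : ¬ (f y').det ≠ 0 := by
          rw [h1, Matrix.det_mul]
          intro hc
          exact h0 (right_ne_zero_of_mul hc)
        simp only [if_neg h0, if_neg h0']
        exact heq y y' Q hQ (fun g hg => hall g (List.mem_cons_of_mem _ hg))

omit [IsAlgClosed k] [CharZero k] in
/-- multilinear expansion of the determinant in the columns -/
private theorem ha_det_expand {n M : ℕ} (G : Fin M → Matrix (Fin n) (Fin n) k) (c : Fin M → k)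
    (h : (∑ j, c j • G j).det ≠ 0) :
    ∃ ψ : Fin n → Fin M, (Matrix.of (fun a i => G (ψ i) a i)).det ≠ 0 := by
  by_contra hcon
  push Not at hcon
  apply h
  rw [← Matrix.det_transpose]
  have h1 : (∑ j, c j • G j).transpose = fun i : Fin n => ∑ j, (c j • fun a => G j a i) := by
    funext i a
    simp [Matrix.transpose_apply, Matrix.sum_apply, Finset.sum_apply]
  have h2 : (∑ j, c j • G j).transpose.det =
      (Matrix.detRowAlternating (R := k) (n := Fin n)).toMultilinearMap
        (fun i : Fin n => ∑ j, (c j • fun a => G j a i)) := by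
    rw [h1]; rfl
  rw [h2, MultilinearMap.map_sum]
  apply Finset.sum_eq_zero
  intro ψ _
  rw [MultilinearMap.map_smul_univ (Matrix.detRowAlternating (R := k) (n := Fin n)).toMultilinearMap
    (fun i => c (ψ i)) (fun i a => G (ψ i) a i)]
  have h3 : (Matrix.detRowAlternating (R := k) (n := Fin n)).toMultilinearMap
      (fun i a => G (ψ i) a i) = (Matrix.of (fun a i => G (ψ i) a i)).det := by
    rw [← Matrix.det_transpose]
    rfl
  rw [h3, hcon ψ, smul_zero]

/-- Hilbert 90. `T x y M`: the matrix `M` is the transition from `x` to `y`; it exists and is unique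
for equivalent points and satisfies the cocycle condition. Then there is a definable equivariant
family of bases. -/
theorem h90 {n : ℕ} {s : Set α} {r : α → α → Prop} (h : Good k s r)
    (T : α → α → Matrix (Fin n) (Fin n) k → Prop)
    (hT : DP k (fun p : α × α × Matrix (Fin n) (Fin n) k => T p.1 p.2.1 p.2.2))
    (ex : ∀ x ∈ s, ∀ y ∈ s, r x y → ∃ M, T x y M)
    (uniq : ∀ x ∈ s, ∀ y ∈ s, r x y → ∀ M M', T x y M → T x y M' → M = M')
    (one : ∀ x ∈ s, T x x 1)
    (comp : ∀ x ∈ s, ∀ y ∈ s, ∀ z ∈ s, r x y → r y z → ∀ M M', T x y M → T y z M' →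
      T x z (M' * M)) :
    ∃ B : α → Matrix (Fin n) (Fin n) k, DF k B ∧ (∀ x ∈ s, (B x).det ≠ 0) ∧
      ∀ x ∈ s, ∀ y ∈ s, r x y → ∀ M, T x y M → B y = M * B x := by
  obtain ⟨F, N, hF, hFs, hFne, hFfin, hFcan⟩ := class_multisection h
  obtain ⟨K, p, hp, hsep⟩ := separating (k := k) α N
  -- invertibility
  have hinv : ∀ x ∈ s, ∀ y ∈ s, r x y → ∀ M, T x y M → M.det ≠ 0 := by
    intro x hx y hy hxy M hM hdet
    have hyx := h.symm x hx y hy hxy
    obtain ⟨M', hM'⟩ := ex y hy x hx hyx
    have h1 := comp x hx y hy x hx hxy hyx M M' hM hM'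
    have h2 := uniq x hx x hx (h.refl x hx) _ _ h1 (one x hx)
    have h3 := congrArg Matrix.det h2
    rw [Matrix.det_mul, hdet, mul_zero, Matrix.det_one] at h3
    exact zero_ne_one h3
  -- the transition function
  have : Inhabited (Matrix (Fin n) (Fin n) k) := ⟨0⟩
  obtain ⟨m, hm, hmT⟩ := DF.choice (k := k) (α := α × α) (β := Matrix (Fin n) (Fin n) k)
    (s := {q : α × α | q.1 ∈ s ∧ q.2 ∈ s ∧ r q.1 q.2}) h.dr
    (R := fun q M => T q.1 q.2 M)
    (DP.and (DP.comp h.dr DF.fst)
      (DP.comp hT (DF.mk (DF.fst' DF.fst) (DF.mk (DF.snd' DF.fst) DF.snd))))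
    (by
      rintro ⟨x, y⟩ ⟨hx, hy, hxy⟩
      obtain ⟨M, hM⟩ := ex x hx y hy hxy
      exact ⟨M, hM, fun M' hM' => uniq x hx y hy hxy M' M hM' hM⟩)
  let G : Fin K → α → Matrix (Fin n) (Fin n) k := fun j y => Matrix.of fun a i =>
    ∑ᶠ z ∈ {z | F y z}, p j z * m (z, y) a i
  have hG : ∀ j, DF k (G j) := by
    intro j
    apply DF.matrix
    intro a i
    exact DF.finsum (k := k) (R := F) hF hFfin (f := fun y z => p j z * m (z, y) a i)
      (DF.mul ((hp j).comp DF.snd) (DF.entry (hm.comp (DF.mk DF.snd DF.fst)) a i))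
  have hGsum : ∀ j y, G j y = ∑ z ∈ (hFfin y).1.toFinset, p j z • m (z, y) := by
    intro j y
    ext a i
    show ∑ᶠ z ∈ {z | F y z}, p j z * m (z, y) a i = _
    rw [finsum_mem_eq_finite_toFinset_sum _ (hFfin y).1, Matrix.sum_apply]
    rfl
  have hGeq : ∀ y ∈ s, ∀ y' ∈ s, r y y' → ∀ Q, T y y' Q → ∀ j, G j y' = Q * G j y := by
    intro y hy y' hy' hyy' Q hQ j
    rw [hGsum, hGsum, Finset.mul_sum]
    have hset : (hFfin y').1.toFinset = (hFfin y).1.toFinset := by
      ext z
      simp only [Set.Finite.mem_toFinset, Set.mem_ofPred_eq]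
      exact (hFcan y hy y' hy' hyy' z).symm
    rw [hset]
    apply Finset.sum_congr rfl
    intro z hz
    have hFz : F y z := by simpa using hz
    obtain ⟨hzs, hyz⟩ := hFs y hy z hFz
    have hzy := h.symm y hy z hzs hyz
    have hzy' := h.trans z hzs y hy y' hy' hzy hyy'
    have h1 := hmT (z, y) ⟨hzs, hy, hzy⟩
    have h2 := hmT (z, y') ⟨hzs, hy', hzy'⟩
    have h3 := comp z hzs y hy y' hy' hzy hyy' _ _ h1 hQ
    have h4 := uniq z hzs y' hy' hzy' _ _ h2 h3
    rw [h4, Matrix.mul_smul]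
  -- the list of candidates
  let Bψ : (Fin n → Fin K) → α → Matrix (Fin n) (Fin n) k := fun ψ y =>
    Matrix.of fun a i => G (ψ i) y a i
  have hBψ : ∀ ψ, DF k (Bψ ψ) := by
    intro ψ
    apply DF.matrix
    intro a i
    exact DF.entry (hG (ψ i)) a i
  obtain ⟨H, hH, hHdet, hHeq⟩ := ha_pick (k := k)
    ((Finset.univ : Finset (Fin n → Fin K)).toList.map Bψ) (by
      intro f hf
      obtain ⟨ψ, _, rfl⟩ := List.mem_map.mp hf
      exact hBψ ψ)
  refine ⟨H, hH, ?_, ?_⟩
  · intro y hy
    apply hHdet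
    obtain ⟨z0, hz0⟩ := hFne y hy
    obtain ⟨hz0s, hyz0⟩ := hFs y hy z0 hz0
    have hz0y := h.symm y hy z0 hz0s hyz0
    have hcard : (hFfin y).1.toFinset.card ≤ N := by
      rw [← Set.ncard_eq_toFinset_card _ (hFfin y).1]
      exact (hFfin y).2
    obtain ⟨c, hc1, hc0⟩ := hsep (hFfin y).1.toFinset hcard z0 (by simpa using hz0)
    have hsum : ∑ j, c j • G j y = m (z0, y) := by
      calc ∑ j, c j • G j y = ∑ j, ∑ z ∈ (hFfin y).1.toFinset, (c j * p j z) • m (z, y) := by
            apply Finset.sum_congr rfl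
            intro j _
            rw [hGsum, Finset.smul_sum]
            apply Finset.sum_congr rfl
            intro z _
            rw [smul_smul]
        _ = ∑ z ∈ (hFfin y).1.toFinset, (∑ j, c j * p j z) • m (z, y) := by
            rw [Finset.sum_comm]
            apply Finset.sum_congr rfl
            intro z _
            rw [Finset.sum_smul]
        _ = m (z0, y) := by
            rw [Finset.sum_eq_single z0]
            · rw [hc1, one_smul]
            · intro z hz hne
              rw [hc0 z hz hne, zero_smul]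
            · intro hn
              exact absurd (by simpa using hz0) hn
    have hdet : (∑ j, c j • G j y).det ≠ 0 := by
      rw [hsum]
      exact hinv z0 hz0s y hy hz0y _ (hmT (z0, y) ⟨hz0s, hy, hz0y⟩)
    obtain ⟨ψ, hψ⟩ := ha_det_expand (fun j => G j y) c hdet
    exact ⟨Bψ ψ, List.mem_map.mpr ⟨ψ, by simp, rfl⟩, hψ⟩
  · intro x hx y hy hxy Q hQ
    apply hHeq x y Q (hinv x hx y hy hxy Q hQ)
    intro f hf
    obtain ⟨ψ, _, rfl⟩ := List.mem_map.mp hf
    ext a i
    show G (ψ i) y a i = _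
    rw [hGeq x hx y hy hxy Q hQ (ψ i), Matrix.mul_apply, Matrix.mul_apply]
    rfl

/-- Hilbert 90 for `n = 1`, with scalars. -/
theorem h90_one {s : Set α} {r : α → α → Prop} (h : Good k s r) (T : α → α → k → Prop)
    (hT : DP k (fun p : α × α × k => T p.1 p.2.1 p.2.2))
    (ex : ∀ x ∈ s, ∀ y ∈ s, r x y → ∃ c, T x y c)
    (uniq : ∀ x ∈ s, ∀ y ∈ s, r x y → ∀ c c', T x y c → T x y c' → c = c')
    (one : ∀ x ∈ s, T x x 1)
    (comp : ∀ x ∈ s, ∀ y ∈ s, ∀ z ∈ s, r x y → r y z → ∀ c c', T x y c → T y z c' →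
      T x z (c' * c)) :
    ∃ e : α → k, DF k e ∧ (∀ x ∈ s, e x ≠ 0) ∧
      ∀ x ∈ s, ∀ y ∈ s, r x y → ∀ c, T x y c → e y = c * e x := by
  have hext : ∀ M M' : Matrix (Fin 1) (Fin 1) k, M 0 0 = M' 0 0 → M = M' := by
    intro M M' hMM
    ext a b
    have ha : a = 0 := Subsingleton.elim _ _
    have hb : b = 0 := Subsingleton.elim _ _
    rw [ha, hb]; exact hMM
  obtain ⟨B, hB, hdet, heq⟩ := h90 (k := k) (n := 1) h (fun x y M => T x y (M 0 0))
    (DP.comp hT (DF.mk DF.fst (DF.mk (DF.fst' DF.snd) (DF.entry (DF.snd' DF.snd) 0 0))))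
    (by
      intro x hx y hy hxy
      obtain ⟨c, hc⟩ := ex x hx y hy hxy
      exact ⟨Matrix.of fun _ _ => c, hc⟩)
    (by
      intro x hx y hy hxy M M' hM hM'
      exact hext _ _ (uniq x hx y hy hxy _ _ hM hM'))
    (by
      intro x hx
      have := one x hx
      simpa using this)
    (by
      intro x hx y hy z hz hxy hyz M M' hM hM'
      have := comp x hx y hy z hz hxy hyz _ _ hM hM'
      rw [Matrix.mul_apply]
      simpa using this)
  refine ⟨fun x => B x 0 0, DF.entry hB 0 0, ?_, ?_⟩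
  · intro x hx
    have := hdet x hx
    rwa [Matrix.det_fin_one] at this
  · intro x hx y hy hxy c hc
    have := heq x hx y hy hxy (Matrix.of fun _ _ => c) hc
    show B y 0 0 = c * B x 0 0
    rw [this, Matrix.mul_apply]
    simp

end Pool.Agent.MRat
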