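import Pool.Agent.Lib.MP_923aff_ag.FGM
import Pool.Agent.Lib.MP_923aff_ag.FGG
import Pool.Agent.Lib.MP_923aff_ag.FA7
/-!
# JOB ICA: axes and Klein four subgroups of the icosahedral group

`ico_axis_data`: conjugate the statement of `ico_axis`: with `g` as there, `p = g⁻¹ • ∞`, `q = g⁻¹ • 0`,
`σ = g⁻¹ * tor ζ * g` (`ζ` a primitive `m`-th root of unity), `w = g⁻¹ * swp * g`. An element preserving `{∞, 0}` is `tor t` or
`tor t * swp` (`fix_pair`, `swap_pair`). All points with `se = m` are conjugate: `ico_tri`.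
`ico_v4_data`: the centraliser in `Ico` of an involution preserves its pair of fixed points, so it is a Klein four group
(case `m = 2` of `ico_axis_data`), and it is the only Klein four subgroup which contains the involution. All involutions are
conjugate, hence all Klein four subgroups are. There are `5`, so the normaliser has `12` elements; an element `c` of
order three in it (Cauchy) does not centralise `v1`.
-/

set_option autoImplicit false

namespace Pool.Agent.MRat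

open scoped MatrixGroups LinearAlgebra.Projectivization

variable {k : Type} [Field k] [IsAlgClosed k] [CharZero k]

private theorem ICA_prim (n : ℕ) (hn : 0 < n) : ∃ ζ : kˣ, IsPrimitiveRoot ζ n := by
  have : NeZero (n : k) := ⟨Nat.cast_ne_zero.2 hn.ne'⟩
  obtain ⟨ζ, hζ⟩ := HasEnoughRootsOfUnity.exists_primitiveRoot k n
  exact ⟨(hζ.isUnit hn.ne').unit, hζ.isUnit_unit hn.ne'⟩

private theorem ICA_eq {m n : ℕ} (hm : 0 < m) (hn : 0 < n) (h : ∀ t : kˣ, t ^ m = 1 ↔ t ^ n = 1) :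
    m = n := by
  obtain ⟨ζ, hζ⟩ := ICA_prim (k := k) m hm
  obtain ⟨ξ, hξ⟩ := ICA_prim (k := k) n hn
  exact Nat.dvd_antisymm (hζ.dvd_of_pow_eq_one _ ((h ζ).1 hζ.pow_eq_one))
    (hξ.dvd_of_pow_eq_one _ ((h ξ).2 hξ.pow_eq_one))

private theorem ICA_mem {G : Type} [Group G] {Γ : Subgroup G} {g x : G} :
    x ∈ Γ.map (MulAut.conj g).toMonoidHom ↔ g⁻¹ * x * g ∈ Γ := by
  rw [Subgroup.mem_map]
  constructor
  · rintro ⟨y, hy, rfl⟩
    have : g⁻¹ * (MulAut.conj g).toMonoidHom y * g = y := by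
      simp [mul_assoc]
    rwa [this]
  · intro hx
    refine ⟨g⁻¹ * x * g, hx, ?_⟩
    simp [mul_assoc]

private instance ICA_fin {G : Type} [Group G] {Γ : Subgroup G} [Finite Γ] (g : G) :
    Finite (Γ.map (MulAut.conj g).toMonoidHom) := by
  have h : Nat.card (Γ.map (MulAut.conj g).toMonoidHom) = Nat.card Γ :=
    Subgroup.card_map_of_injective (MulAut.conj g).injective
  exact Nat.finite_of_card_ne_zero (by rw [h]; exact Nat.card_pos.ne')

private theorem ICA_se {m : ℕ} (hm : 2 ≤ m) {g : PGL(2, k)}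
    (hg : ∀ t : kˣ, g⁻¹ * tor t * g ∈ Ico k ↔ t ^ m = 1) :
    se (Ico k) (g⁻¹ • ptI k) = m := by
  obtain ⟨ζ, hζ⟩ := ICA_prim (k := k) m (by omega)
  have hζ1 : ζ ≠ 1 := hζ.ne_one (by omega)
  have hmem : ∀ t : kˣ, tor t ∈ (Ico k).map (MulAut.conj g).toMonoidHom ↔ t ^ m = 1 := by
    intro t
    rw [ICA_mem, hg]
  obtain ⟨h1, -, h3⟩ := tor_mem_iff _ hζ1 ((hmem ζ).2 hζ.pow_eq_one)
  have hse : se ((Ico k).map (MulAut.conj g).toMonoidHom) (ptI k) = m :=
    ICA_eq (k := k) (by omega) (by omega) fun t => by rw [← h1 t, hmem t]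
  have h4 := se_conj (Γ := Ico k) g (g⁻¹ • ptI k)
  rw [smul_inv_smul, hse] at h4
  exact h4.symm

private theorem ICA_same : ∀ x y : PL k, 1 < se (Ico k) x → se (Ico k) x = se (Ico k) y →
      ∃ i ∈ Ico k, i • y = x := by
  obtain ⟨p₁, p₂, p₃, T⟩ := ico_tri (k := k)
  have horb : ∀ x : PL k, 1 < se (Ico k) x →
      (se (Ico k) x = 2 ∧ ∃ i ∈ Ico k, i • p₁ = x) ∨ (se (Ico k) x = 3 ∧ ∃ i ∈ Ico k, i • p₂ = x) ∨
        (se (Ico k) x = 5 ∧ ∃ i ∈ Ico k, i • p₃ = x) := by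
    intro x hx
    obtain ⟨i, hi, hix | hix | hix⟩ := T.all x hx
    · left
      exact ⟨by rw [← hix, se_smul hi, T.e₁], i, hi, hix⟩
    · right; left
      exact ⟨by rw [← hix, se_smul hi, T.e₂], i, hi, hix⟩
    · right; right
      exact ⟨by rw [← hix, se_smul hi, T.e₃], i, hi, hix⟩
  have key : ∀ (x y r : PL k), (∃ i ∈ Ico k, i • r = x) → (∃ i ∈ Ico k, i • r = y) →
      ∃ i ∈ Ico k, i • y = x := by
    rintro x y r ⟨i, hi, rfl⟩ ⟨j, hj, rfl⟩
    refine ⟨i * j⁻¹, (Ico k).mul_mem hi ((Ico k).inv_mem hj), ?_⟩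
    rw [mul_smul, inv_smul_smul]
  intro x y hx hxy
  rcases horb x hx with ⟨e, hi⟩ | ⟨e, hi⟩ | ⟨e, hi⟩ <;>
    rcases horb y (hxy ▸ hx) with ⟨e', hi'⟩ | ⟨e', hi'⟩ | ⟨e', hi'⟩ <;>
    first
      | exact key x y _ hi hi'
      | (exfalso; omega)

private theorem ICA_root {m : ℕ} (hm : 0 < m) {ζ t : kˣ} (hζ : IsPrimitiveRoot ζ m)
    (ht : t ^ m = 1) : ∃ i : ℕ, ζ ^ i = t := by
  have : NeZero m := ⟨by omega⟩
  obtain ⟨i, -, hi⟩ := (IsPrimitiveRoot.coe_units_iff.mpr hζ).eq_pow_of_pow_eq_one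
    (ξ := (t : k)) (by rw [← Units.val_pow_eq_pow_val, ht, Units.val_one])
  exact ⟨i, Units.ext (by rw [Units.val_pow_eq_pow_val, hi])⟩

private theorem ICA_tor_pow (t : kˣ) (i : ℕ) : tor t ^ i = (tor (t ^ i) : PGL(2, k)) := by
  induction i with
  | zero => rw [pow_zero, pow_zero, tor_one]
  | succ i ih => rw [pow_succ, ih, tor_mul, ← pow_succ]

private theorem ICA_axis {m : ℕ} (hm : m = 2 ∨ m = 3 ∨ m = 5) {g : PGL(2, k)}
    (h1 : ∀ t : kˣ, g⁻¹ * tor t * g ∈ Ico k ↔ t ^ m = 1)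
    (h2 : ∀ t : kˣ, g⁻¹ * (tor t * swp k) * g ∈ Ico k ↔ t ^ m = 1) :
    g⁻¹ * swp k * g ∈ Ico k ∧ (g⁻¹ • ptI k) ≠ g⁻¹ • ptz (0 : k) ∧
      (g⁻¹ * swp k * g) • (g⁻¹ • ptI k) = g⁻¹ • ptz (0 : k) ∧
      (g⁻¹ * swp k * g) • (g⁻¹ • ptz (0 : k)) = g⁻¹ • ptI k ∧
      (∀ d ∈ Ico k, d • (g⁻¹ • ptI k) = g⁻¹ • ptI k → d • (g⁻¹ • ptz (0 : k)) = g⁻¹ • ptz (0 : k)) ∧
      (∀ d ∈ Ico k, d • (g⁻¹ • ptI k) = g⁻¹ • ptI k → ∃ t : kˣ, t ^ m = 1 ∧ d = g⁻¹ * tor t * g) ∧
      (∀ d ∈ Ico k, d • (g⁻¹ • ptI k) = g⁻¹ • ptz (0 : k) → d • (g⁻¹ • ptz (0 : k)) = g⁻¹ • ptI k →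
        ∃ t : kˣ, t ^ m = 1 ∧ d = g⁻¹ * (tor t * swp k) * g) := by
  have hsw : g⁻¹ * swp k * g ∈ Ico k := by
    have := (h2 1).2 (one_pow _)
    rwa [tor_one, one_mul] at this
  have hPol := pol_pgl (Ico k)
  have hse := ICA_se (by omega) h1
  obtain ⟨ζ, hζ⟩ := ICA_prim (k := k) m (by omega)
  have hζ1 : ζ ≠ 1 := hζ.ne_one (by omega)
  have hσ : g⁻¹ * tor ζ * g ∈ Ico k := (h1 ζ).2 hζ.pow_eq_one
  have hσ1 : g⁻¹ * tor ζ * g ≠ 1 := by
    intro h
    apply hζ1
    rw [← tor_inj, tor_one]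
    have : tor ζ = g * (g⁻¹ * tor ζ * g) * g⁻¹ := by simp [mul_assoc]
    rw [this, h]
    simp
  have hσI : (g⁻¹ * tor ζ * g) • (g⁻¹ • ptI k) = g⁻¹ • ptI k := by
    rw [mul_smul, mul_smul, smul_inv_smul, tor_smul_ptI]
  have hσ0 : (g⁻¹ * tor ζ * g) • (g⁻¹ • ptz (0 : k)) = g⁻¹ • ptz (0 : k) := by
    rw [mul_smul, mul_smul, smul_inv_smul, tor_smul_ptz, mul_zero]
  have hne : (g⁻¹ • ptI k) ≠ g⁻¹ • ptz (0 : k) := by
    intro h
    exact (ptz_ne_ptI (0 : k)) (MulAction.injective _ h).symm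
  obtain ⟨q', hq', -, hiff, hfix, -⟩ := hPol.opp' (p := g⁻¹ • ptI k) (by rw [hse]; omega)
  have hqq : g⁻¹ • ptz (0 : k) = q' := by
    rcases (hfix _ hσ hσ1 hσI _).1 hσ0 with h | h
    · exact absurd h.symm hne
    · exact h
  have hfq : ∀ d ∈ Ico k, d • (g⁻¹ • ptI k) = g⁻¹ • ptI k →
      d • (g⁻¹ • ptz (0 : k)) = g⁻¹ • ptz (0 : k) := by
    intro d hd hdp
    rw [hqq]
    exact (hiff d hd).1 hdp
  refine ⟨hsw, hne, ?_, ?_, hfq, ?_, ?_⟩
  · rw [mul_smul, mul_smul, smul_inv_smul, swp_smul_ptI]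
  · rw [mul_smul, mul_smul, smul_inv_smul, swp_smul_zero]
  · intro d hd hdp
    obtain ⟨t, ht⟩ := fix_pair (g := g * d * g⁻¹)
      (by rw [mul_smul, mul_smul, hdp, smul_inv_smul])
      (by rw [mul_smul, mul_smul, hfq d hd hdp, smul_inv_smul])
    have e : d = g⁻¹ * tor t * g := by rw [← ht]; simp [mul_assoc]
    exact ⟨t, (h1 t).1 (e ▸ hd), e⟩
  · intro d hd hdp hdq
    obtain ⟨t, ht⟩ := swap_pair (g := g * d * g⁻¹)
      (by rw [mul_smul, mul_smul, hdp, smul_inv_smul])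
      (by rw [mul_smul, mul_smul, hdq, smul_inv_smul])
    have e : d = g⁻¹ * (tor t * swp k) * g := by rw [← ht]; simp [mul_assoc]
    exact ⟨t, (h2 t).1 (e ▸ hd), e⟩

/-- the elements preserving a pair of points -/
private def ICA_D (p q : PL k) : Subgroup (Ico k) where
  carrier := {g | ((g : PGL(2, k)) • p = p ∧ (g : PGL(2, k)) • q = q) ∨
        ((g : PGL(2, k)) • p = q ∧ (g : PGL(2, k)) • q = p)}
  one_mem' := by
    left
    simp
  mul_mem' := by
    intro a b ha hb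
    simp only [Set.mem_ofPred_eq, Subgroup.coe_mul, mul_smul] at ha hb ⊢
    rcases ha with ⟨ha1, ha2⟩ | ⟨ha1, ha2⟩ <;> rcases hb with ⟨hb1, hb2⟩ | ⟨hb1, hb2⟩ <;>
      simp [ha1, ha2, hb1, hb2]
  inv_mem' := by
    intro a ha
    simp only [Set.mem_ofPred_eq, Subgroup.coe_inv, inv_smul_eq_iff] at ha ⊢
    rcases ha with ⟨ha1, ha2⟩ | ⟨ha1, ha2⟩
    · left; exact ⟨ha1.symm, ha2.symm⟩
    · right; exact ⟨ha2.symm, ha1.symm⟩

theorem ico_axis_data {m : ℕ} (hm : m = 2 ∨ m = 3 ∨ m = 5) :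
    ∃ (D : Subgroup (Ico k)) (p q : PL k) (σ w : D), p ≠ q ∧
      (∀ g : Ico k, g ∈ D ↔ (((g : PGL(2, k)) • p = p ∧ (g : PGL(2, k)) • q = q) ∨
        ((g : PGL(2, k)) • p = q ∧ (g : PGL(2, k)) • q = p))) ∧
      σ ^ m = 1 ∧ w * w = 1 ∧ w * σ * w = σ⁻¹ ∧ (∀ g : D, ∃ i : ℕ, g = σ ^ i ∨ g = σ ^ i * w) ∧
      se (Ico k) p = m ∧ se (Ico k) q = m ∧
      (∀ x : PL k, se (Ico k) x = m → ∃ g : Ico k, (g : PGL(2, k)) • p = x) ∧
      ∀ g ∈ Ico k, g • p = p → g • q = q := by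
  obtain ⟨g, h1, h2⟩ := ico_axis (k := k) hm
  obtain ⟨hsw, hne, hwp, hwq, hfq, hfix, hswap⟩ := ICA_axis hm h1 h2
  have hse := ICA_se (by omega) h1
  obtain ⟨ζ, hζ⟩ := ICA_prim (k := k) m (by omega)
  have hσ : g⁻¹ * tor ζ * g ∈ Ico k := (h1 ζ).2 hζ.pow_eq_one
  have hσI : (g⁻¹ * tor ζ * g) • (g⁻¹ • ptI k) = g⁻¹ • ptI k := by
    rw [mul_smul, mul_smul, smul_inv_smul, tor_smul_ptI]
  have hσD : (⟨g⁻¹ * tor ζ * g, hσ⟩ : Ico k) ∈ ICA_D (g⁻¹ • ptI k) (g⁻¹ • ptz (0 : k)) :=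
    Or.inl ⟨hσI, hfq _ hσ hσI⟩
  have hwD : (⟨g⁻¹ * swp k * g, hsw⟩ : Ico k) ∈ ICA_D (g⁻¹ • ptI k) (g⁻¹ • ptz (0 : k)) :=
    Or.inr ⟨hwp, hwq⟩
  have hpow : ∀ i : ℕ, (g⁻¹ * tor ζ * g) ^ i = g⁻¹ * tor (ζ ^ i) * g := by
    intro i
    have e : g⁻¹ * tor ζ * g = g⁻¹ * tor ζ * g⁻¹⁻¹ := by rw [inv_inv]
    rw [e, conj_pow, ICA_tor_pow, inv_inv]
  have : NeZero m := ⟨by omega⟩
  refine ⟨ICA_D (g⁻¹ • ptI k) (g⁻¹ • ptz (0 : k)), g⁻¹ • ptI k, g⁻¹ • ptz (0 : k), ⟨_, hσD⟩, ⟨_, hwD⟩,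
    hne, fun _ => Iff.rfl, ?_, ?_, ?_, ?_, hse, ?_, ?_, hfq⟩
  · apply Subtype.ext; apply Subtype.ext
    show (g⁻¹ * tor ζ * g) ^ m = 1
    rw [hpow, hζ.pow_eq_one, tor_one]
    simp
  · apply Subtype.ext; apply Subtype.ext
    show g⁻¹ * swp k * g * (g⁻¹ * swp k * g) = 1
    have : g⁻¹ * swp k * g * (g⁻¹ * swp k * g) = g⁻¹ * (swp k * swp k) * g := by simp [mul_assoc]
    rw [this, swp_mul_self]
    simp
  · apply Subtype.ext; apply Subtype.ext
    show g⁻¹ * swp k * g * (g⁻¹ * tor ζ * g) * (g⁻¹ * swp k * g) = (g⁻¹ * tor ζ * g)⁻¹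
    have : g⁻¹ * swp k * g * (g⁻¹ * tor ζ * g) * (g⁻¹ * swp k * g) =
        g⁻¹ * (swp k * tor ζ * swp k) * g := by simp [mul_assoc]
    rw [this, swp_tor, eq_comm, inv_eq_iff_mul_eq_one]
    have : g⁻¹ * tor ζ * g * (g⁻¹ * tor ζ⁻¹ * g) = g⁻¹ * (tor ζ * tor ζ⁻¹) * g := by
      simp [mul_assoc]
    rw [this, tor_mul, mul_inv_cancel, tor_one]
    simp
  · rintro ⟨⟨d, hd⟩, hdD⟩
    rcases hdD with ⟨hd1, hd2⟩ | ⟨hd1, hd2⟩
    · obtain ⟨t, ht, e⟩ := hfix d hd hd1
      obtain ⟨i, hi⟩ := ICA_root (by omega) hζ ht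
      refine ⟨i, Or.inl ?_⟩
      apply Subtype.ext; apply Subtype.ext
      show d = (g⁻¹ * tor ζ * g) ^ i
      rw [hpow, hi, e]
    · obtain ⟨t, ht, e⟩ := hswap d hd hd1 hd2
      obtain ⟨i, hi⟩ := ICA_root (by omega) hζ ht
      refine ⟨i, Or.inr ?_⟩
      apply Subtype.ext; apply Subtype.ext
      show d = (g⁻¹ * tor ζ * g) ^ i * (g⁻¹ * swp k * g)
      rw [hpow, hi, e]
      simp [mul_assoc]
  · rw [← hwp, se_smul hsw, hse]
  · intro x hx
    obtain ⟨i, hi, hix⟩ := ICA_same x (g⁻¹ • ptI k) (by rw [hx]; omega) (by rw [hx, hse])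
    exact ⟨⟨i, hi⟩, hix⟩


private theorem ICA_sq_one {t : kˣ} (ht : t ^ 2 = 1) : t = 1 ∨ t = -1 := by
  have h : (t : k) ^ 2 = 1 := by rw [← Units.val_pow_eq_pow_val, ht, Units.val_one]
  rw [pow_two] at h
  rcases mul_self_eq_one_iff.1 h with h | h
  · left; exact Units.ext h
  · right; exact Units.ext (by rw [h]; simp)

private theorem ICA_ord {x : PGL(2, k)} (hx : x ∈ Ico k) : x ^ 2 = 1 ∨ x ^ 3 = 1 ∨ x ^ 5 = 1 := by
  obtain ⟨p₁, p₂, p₃, T⟩ := ico_tri (k := k)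
  by_cases h1 : x = 1
  · left; rw [h1, one_pow]
  · rcases Tri.orderOf_dvd (pol_pgl (Ico k)) T hx h1 with h | h | h
    · exact Or.inl (orderOf_dvd_iff_pow_eq_one.1 h)
    · exact Or.inr (Or.inl (orderOf_dvd_iff_pow_eq_one.1 h))
    · exact Or.inr (Or.inr (orderOf_dvd_iff_pow_eq_one.1 h))

/-- the fixed points of an involution -/
private theorem ICA_inv_se {v : PGL(2, k)} (hv : v ∈ Ico k) (h1 : v ≠ 1) (h2 : v * v = 1) :
    ∃ x : PL k, v • x = x ∧ se (Ico k) x = 2 := by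
  have hPol := pol_pgl (Ico k)
  obtain ⟨x, y, hxy, hfix⟩ := hPol.fix2 v hv h1
  have hx : v • x = x := (hfix x).2 (Or.inl rfl)
  refine ⟨x, hx, ?_⟩
  have hlt : 1 < se (Ico k) x := (one_lt_se_iff x).2 ⟨v, hv, h1, hx⟩
  obtain ⟨g0, hg0, hg0x, hall⟩ := hPol.cyc x
  have hd : orderOf v ∣ se (Ico k) x := by
    rw [← orderOf_gen hg0 hg0x hall]
    obtain ⟨n, rfl⟩ := hall v hv hx
    exact orderOf_pow_dvd n
  have ho : orderOf v = 2 := by
    refine orderOf_eq_prime ?_ h1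
    rw [pow_two, h2]
  rw [ho] at hd
  obtain ⟨p₁, p₂, p₃, T⟩ := ico_tri (k := k)
  obtain ⟨i, hi, hix | hix | hix⟩ := T.all x hlt
  · rw [← hix, se_smul hi, T.e₁]
  · rw [← hix, se_smul hi, T.e₂] at hd
    omega
  · rw [← hix, se_smul hi, T.e₃] at hd
    omega

private theorem ICA_map_iff {G : Type} [Group G] {V : Subgroup G} {g : G} :
    V.map (MulAut.conj g).toMonoidHom = V ↔ ∀ x, g * x * g⁻¹ ∈ V ↔ x ∈ V := by
  constructor
  · intro h x
    have h1 : g * x * g⁻¹ ∈ V.map (MulAut.conj g).toMonoidHom ↔ x ∈ V := by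
      rw [ICA_mem]
      have : g⁻¹ * (g * x * g⁻¹) * g = x := by simp [mul_assoc]
      rw [this]
    rw [h] at h1
    exact h1
  · intro h
    ext x
    rw [ICA_mem, ← h (g⁻¹ * x * g)]
    have : g * (g⁻¹ * x * g) * g⁻¹ = x := by simp [mul_assoc]
    rw [this]

/-- the normaliser of a subgroup -/
private def ICA_N {G : Type} [Group G] (Γ V : Subgroup G) : Subgroup Γ where
  carrier := {g | ∀ x, (g : G) * x * (g : G)⁻¹ ∈ V ↔ x ∈ V}
  one_mem' := fun x => by simp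
  mul_mem' := by
    intro a b ha hb x
    have : ((a * b : Γ) : G) * x * ((a * b : Γ) : G)⁻¹ = (a : G) * ((b : G) * x * (b : G)⁻¹) * (a : G)⁻¹ := by
      simp [mul_assoc]
    rw [this, ha, hb]
  inv_mem' := by
    intro a ha x
    rw [← ha]
    have : (a : G) * (((a⁻¹ : Γ) : G) * x * ((a⁻¹ : Γ) : G)⁻¹) * (a : G)⁻¹ = x := by
      simp [mul_assoc]
    rw [this]

theorem ico_v4_data : ∃ (V : Subgroup PGL(2, k)) (N : Subgroup (Ico k)) (v1 v2 c : N),
    IsV4 V ∧ V ≤ Ico k ∧ A4Data v1 v2 c ∧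
    (∀ g : PGL(2, k), g ∈ V ↔ (g = 1 ∨ g = v1 ∨ g = v2 ∨ g = v1 * v2)) ∧
    (∀ g : Ico k, g ∈ N ↔ V.map (MulAut.conj (g : PGL(2, k))).toMonoidHom = V) ∧
    Nat.card N = 12 ∧
    ∀ V' : Subgroup PGL(2, k), IsV4 V' → V' ≤ Ico k →
      ∃ g : Ico k, V'.map (MulAut.conj (g : PGL(2, k))).toMonoidHom = V := by
  obtain ⟨g, h1, h2⟩ := ico_axis (k := k) (m := 2) (Or.inl rfl)
  obtain ⟨hb, hne, hwp, hwq, hfq, hfix, hswap⟩ := ICA_axis (Or.inl rfl) h1 h2
  have hse := ICA_se (by norm_num) h1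
  set a : PGL(2, k) := g⁻¹ * tor (-1) * g with ha_def
  set b : PGL(2, k) := g⁻¹ * swp k * g with hb_def
  have ha : a ∈ Ico k := (h1 (-1)).2 (by simp)
  have conj_ne : ∀ x : PGL(2, k), x ≠ 1 → g⁻¹ * x * g ≠ 1 := by
    intro x hx h
    apply hx
    have : x = g * (g⁻¹ * x * g) * g⁻¹ := by simp [mul_assoc]
    rw [this, h]
    simp
  have conj_mul : ∀ x y : PGL(2, k), g⁻¹ * x * g * (g⁻¹ * y * g) = g⁻¹ * (x * y) * g := by
    intro x y
    simp [mul_assoc]
  have conj_inj : ∀ x y : PGL(2, k), g⁻¹ * x * g = g⁻¹ * y * g → x = y := by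
    intro x y h
    simpa using h
  have hV4 := isV4_V4std (k := k)
  have hT2 : (tor (-1) : PGL(2, k)) * tor (-1) = 1 := by
    rw [tor_mul]
    simp [tor_one]
  have hTS : (tor (-1) : PGL(2, k)) * swp k = swp k * tor (-1) := by
    have h := swp_tor (k := k) (-1)
    have e : ((-1 : kˣ))⁻¹ = -1 := by rw [inv_neg, inv_one]
    rw [e] at h
    calc (tor (-1) : PGL(2, k)) * swp k = swp k * tor (-1) * swp k * swp k := by rw [h]
      _ = swp k * tor (-1) := by rw [mul_assoc, swp_mul_self, mul_one]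
  have ha1 : a ≠ 1 := conj_ne _ FGJ_T1
  have haa : a * a = 1 := by rw [ha_def, conj_mul, hT2]; simp
  have hbb : b * b = 1 := by rw [hb_def, conj_mul, swp_mul_self]; simp
  have hab : a * b = b * a := by rw [ha_def, hb_def, conj_mul, conj_mul, hTS]
  have hb1 : b ≠ 1 := by
    apply conj_ne
    intro h
    have := swp_smul_ptI (k := k)
    rw [h, one_smul] at this
    exact (ptz_ne_ptI (0 : k)) this.symm
  have hab' : a ≠ b := by
    intro h
    have h3 := conj_inj _ _ h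
    have := swp_smul_ptI (k := k)
    rw [← h3, tor_smul_ptI] at this
    exact (ptz_ne_ptI (0 : k)) this.symm
  -- the Klein four group
  set V : Subgroup PGL(2, k) := (V4std k).map (MulAut.conj g⁻¹).toMonoidHom with hV
  have hmem : ∀ x : PGL(2, k), x ∈ V ↔ x = 1 ∨ x = a ∨ x = b ∨ x = a * b := by
    intro x
    rw [hV, ICA_mem, inv_inv, mem_V4std]
    have e : ∀ y : PGL(2, k), g * x * g⁻¹ = y ↔ x = g⁻¹ * y * g := by
      intro y
      constructor
      · rintro rfl; simp [mul_assoc]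
      · rintro rfl; simp [mul_assoc]
    rw [e, e, e, e, ha_def, hb_def, conj_mul]
    simp
  have hVIco : V ≤ Ico k := by
    intro x hx
    rcases (hmem x).1 hx with rfl | rfl | rfl | rfl
    · exact (Ico k).one_mem
    · exact ha
    · exact hb
    · exact (Ico k).mul_mem ha hb
  have hVcard : Nat.card V = 4 := by
    rw [hV, Subgroup.card_map_of_injective (MulAut.conj g⁻¹).injective]
    exact hV4.1
  have hVsq : ∀ x ∈ V, x * x = 1 := by
    intro x hx
    rcases (hmem x).1 hx with rfl | rfl | rfl | rfl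
    · simp
    · exact haa
    · exact hbb
    · have e1 : a * b * (a * b) = a * (b * a) * b := by simp only [mul_assoc]
      have e2 : a * (a * b) * b = (a * a) * (b * b) := by simp only [mul_assoc]
      rw [e1, ← hab, e2, haa, hbb, one_mul]
  have hVV4 : IsV4 V := ⟨hVcard, hVsq⟩
  have hVfin : Finite V := FGJ_fin hVV4
  have aV : a ∈ V := (hmem a).2 (Or.inr (Or.inl rfl))
  have bV : b ∈ V := (hmem b).2 (Or.inr (Or.inr (Or.inl rfl)))
  have abV : a * b ∈ V := (hmem _).2 (Or.inr (Or.inr (Or.inr rfl)))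
  have hVcomm : ∀ x ∈ V, ∀ y ∈ V, x * y = y * x := fun x hx y hy => FGJ_comm hVsq hx hy
  -- F1
  have F1 : ∀ x ∈ Ico k, x * a = a * x → x ∈ V := by
    intro x hx hxa
    have hc : (g * x * g⁻¹) * tor (-1) = tor (-1) * (g * x * g⁻¹) := by
      have e1 : (g * x * g⁻¹) * tor (-1) = g * (x * a) * g⁻¹ := by rw [ha_def]; simp [mul_assoc]
      have e2 : tor (-1) * (g * x * g⁻¹) = g * (a * x) * g⁻¹ := by rw [ha_def]; simp [mul_assoc]
      rw [e1, e2, hxa]
    rcases cent_tor hc with ⟨t, ht⟩ | ⟨t, ht⟩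
    · have e : x = g⁻¹ * tor t * g := by rw [← ht]; simp [mul_assoc]
      have ht2 := (h1 t).1 (e ▸ hx)
      rcases ICA_sq_one ht2 with rfl | rfl
      · rw [e, tor_one]; simpa using V.one_mem
      · rw [e]; exact aV
    · have e : x = g⁻¹ * (tor t * swp k) * g := by rw [← ht]; simp [mul_assoc]
      have ht2 := (h2 t).1 (e ▸ hx)
      rcases ICA_sq_one ht2 with rfl | rfl
      · rw [e, tor_one, one_mul]; exact bV
      · rw [e, ← conj_mul]; exact abV
  -- F2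
  have F2 : ∀ v ∈ Ico k, v ≠ 1 → v * v = 1 → ∃ h ∈ Ico k, h * v * h⁻¹ = a := by
    intro v hv hv1 hv2
    obtain ⟨x, hvx, hx⟩ := ICA_inv_se hv hv1 hv2
    obtain ⟨i, hi, hix⟩ := ICA_same (g⁻¹ • ptI k) x (by rw [hse]; norm_num) (by rw [hx, hse])
    refine ⟨i, hi, ?_⟩
    have hm : i * v * i⁻¹ ∈ Ico k := (Ico k).mul_mem ((Ico k).mul_mem hi hv) ((Ico k).inv_mem hi)
    have hfixp : (i * v * i⁻¹) • (g⁻¹ • ptI k) = g⁻¹ • ptI k := by
      rw [← hix, mul_smul, mul_smul, inv_smul_smul, hvx]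
    obtain ⟨t, ht, e⟩ := hfix _ hm hfixp
    rcases ICA_sq_one ht with rfl | rfl
    · exfalso
      apply hv1
      have : v = i⁻¹ * (i * v * i⁻¹) * i := by simp [mul_assoc]
      rw [this, e, tor_one]
      simp
    · exact e
  -- inclusion implies equality
  have F3 : ∀ h : PGL(2, k), (∀ v ∈ V, h * v * h⁻¹ ∈ V) → ∀ x, h * x * h⁻¹ ∈ V ↔ x ∈ V := by
    intro h hh
    rw [← ICA_map_iff]
    have hle : V.map (MulAut.conj h).toMonoidHom ≤ V := by
      rintro _ ⟨x, hx, rfl⟩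
      exact hh x hx
    refine Subgroup.eq_of_le_of_card_ge hle ?_
    exact (Subgroup.card_map_of_injective (f := (MulAut.conj h).toMonoidHom) (K := V)
      (MulAut.conj h).injective).ge
  -- F4
  have F4 : ∀ u ∈ V, u ≠ 1 → ∀ x ∈ Ico k, x * u = u * x → x ∈ V := by
    intro u hu hu1 x hx hxu
    obtain ⟨h, hh, hhu⟩ := F2 u (hVIco hu) hu1 (hVsq u hu)
    have key : ∀ y ∈ Ico k, y * u = u * y → h * y * h⁻¹ ∈ V := by
      intro y hy hyu
      refine F1 _ ((Ico k).mul_mem ((Ico k).mul_mem hh hy) ((Ico k).inv_mem hh)) ?_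
      rw [← hhu]
      have e1 : h * y * h⁻¹ * (h * u * h⁻¹) = h * (y * u) * h⁻¹ := by simp [mul_assoc]
      have e2 : h * u * h⁻¹ * (h * y * h⁻¹) = h * (u * y) * h⁻¹ := by simp [mul_assoc]
      rw [e1, e2, hyu]
    exact (F3 h (fun v hv => key v (hVIco hv) (hVcomm v hv u hu)) x).1 (key x hx hxu)
  -- F5
  have F5 : ∀ h ∈ Ico k, ∀ u ∈ V, u ≠ 1 → h * u * h⁻¹ ∈ V → ∀ x, h * x * h⁻¹ ∈ V ↔ x ∈ V := by
    intro h hh u hu hu1 huV
    refine F3 h fun v hv => ?_
    refine F4 _ huV ?_ _ ((Ico k).mul_mem ((Ico k).mul_mem hh (hVIco hv)) ((Ico k).inv_mem hh)) ?_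
    · intro h3
      apply hu1
      have : u = h⁻¹ * (h * u * h⁻¹) * h := by simp [mul_assoc]
      rw [this, h3]
      simp
    · have e1 : h * v * h⁻¹ * (h * u * h⁻¹) = h * (v * u) * h⁻¹ := by simp [mul_assoc]
      have e2 : h * u * h⁻¹ * (h * v * h⁻¹) = h * (u * v) * h⁻¹ := by simp [mul_assoc]
      rw [e1, e2, hVcomm v hv u hu]
  -- the element c
  obtain ⟨h, hh, hhb⟩ := F2 b hb hb1 hbb
  obtain ⟨c, hc, hca⟩ : ∃ c ∈ Ico k, c * a * c⁻¹ = b := by
    refine ⟨h⁻¹, (Ico k).inv_mem hh, ?_⟩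
    rw [← hhb]
    simp [mul_assoc]
  have hcN := F5 c hc a aV ha1 (hca ▸ bV)
  have hconj : ∀ x y : PGL(2, k), c * (x * y) * c⁻¹ = (c * x * c⁻¹) * (c * y * c⁻¹) := by
    intro x y; simp [mul_assoc]
  have hcinj : ∀ x y : PGL(2, k), c * x * c⁻¹ = c * y * c⁻¹ → x = y := by
    intro x y h; simpa using h
  have hcb : c * b * c⁻¹ = a * b := by
    rcases (hmem _).1 ((hcN b).2 bV) with h3 | h3 | h3 | h3
    · exfalso
      apply hb1
      apply hcinj
      rw [h3]; simp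
    · exfalso
      -- c swaps a and b
      have h4 : c * c * a * (c * c)⁻¹ = a := by
        have : c * c * a * (c * c)⁻¹ = c * (c * a * c⁻¹) * c⁻¹ := by simp [mul_assoc]
        rw [this, hca, h3]
      have h5 : c * c ∈ V := by
        refine F1 _ ((Ico k).mul_mem hc hc) ?_
        rw [mul_inv_eq_iff_eq_mul] at h4
        exact h4
      have h6 := hVsq _ h5
      have h7 : c * c = 1 := by
        rcases ICA_ord hc with h8 | h8 | h8
        · rw [← pow_two]; exact h8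
        · have h9 : c = 1 := by
            have : c * c * (c * c) = c ^ 3 * c := by simp [pow_succ, mul_assoc]
            rw [this, h8, one_mul] at h6
            exact h6
          rw [h9, mul_one]
        · have h9 : c = 1 := by
            have : c ^ 5 = c * c * (c * c) * c := by simp [pow_succ, mul_assoc]
            rw [this, h6, one_mul] at h8
            exact h8
          rw [h9, mul_one]
      have h8 : c ∈ V := by
        refine F4 (a * b) abV ?_ c hc ?_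
        · intro h9
          apply hab'
          have : a = b⁻¹ := eq_inv_of_mul_eq_one_left h9
          rw [this, inv_eq_of_mul_eq_one_left hbb]
        · rw [← mul_inv_eq_iff_eq_mul, hconj, hca, h3, hab]
      have h9 := hVcomm c h8 a aV
      apply hab'
      rw [← hca, h9]
      simp [mul_assoc]
    · exfalso
      apply hab'
      apply hcinj
      rw [hca, h3]
    · exact h3
  have hcab : c * (a * b) * c⁻¹ = a := by
    rw [hconj, hca, hcb, hab, ← mul_assoc, hbb, one_mul]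
  have hc3 : c ^ 3 = 1 := by
    have h4 : c ^ 3 * a * (c ^ 3)⁻¹ = a := by
      have : c ^ 3 * a * (c ^ 3)⁻¹ = c * (c * (c * a * c⁻¹) * c⁻¹) * c⁻¹ := by
        simp [pow_succ, mul_assoc]
      rw [this, hca, hcb, hcab]
    have h5 : c ^ 3 ∈ V := by
      refine F1 _ ((Ico k).pow_mem hc 3) ?_
      rw [mul_inv_eq_iff_eq_mul] at h4
      exact h4
    have h6 := hVsq _ h5
    rcases ICA_ord hc with h8 | h8 | h8
    · exfalso
      have h9 : c * (c * a * c⁻¹) * c⁻¹ = a := by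
        have : c * (c * a * c⁻¹) * c⁻¹ = c ^ 2 * a * (c ^ 2)⁻¹ := by simp [pow_succ, mul_assoc]
        rw [this, h8]; simp
      rw [hca, hcb] at h9
      apply hb1
      exact mul_eq_left.1 h9
    · exact h8
    · have h9 : c = 1 := by
        have : c ^ 3 * c ^ 3 = c ^ 5 * c := by simp [pow_succ, mul_assoc]
        rw [this, h8, one_mul] at h6
        exact h6
      rw [h9, one_pow]
  -- the normaliser
  have hVN : ∀ x ∈ V, ∀ y, x * y * x⁻¹ ∈ V ↔ y ∈ V := by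
    intro x hx y
    rw [V.mul_mem_cancel_right (V.inv_mem hx), V.mul_mem_cancel_left hx]
  set N := ICA_N (Ico k) V with hN
  have hNmem : ∀ x : Ico k, x ∈ N ↔ ∀ y, (x : PGL(2, k)) * y * (x : PGL(2, k))⁻¹ ∈ V ↔ y ∈ V :=
    fun _ => Iff.rfl
  have gen : ∀ n ∈ Ico k, (∀ y, n * y * n⁻¹ ∈ V ↔ y ∈ V) →
      ∃ v ∈ V, ∃ i : ℕ, i < 3 ∧ n = v * c ^ i := by
    intro n hn hnN
    have hmv : ∀ i : ℕ, ∀ v ∈ V, c ^ i * v * (c ^ i)⁻¹ ∈ V := by
      intro i
      induction i with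
      | zero => intro v hv; simpa using hv
      | succ i ih =>
        intro v hv
        have : c ^ (i + 1) * v * (c ^ (i + 1))⁻¹ = c ^ i * (c * v * c⁻¹) * (c ^ i)⁻¹ := by
          simp [pow_succ, mul_assoc]
        rw [this]
        exact ih _ ((hcN v).2 hv)
    have key : ∀ i : ℕ, i < 3 → n * a * n⁻¹ = c ^ i * a * (c ^ i)⁻¹ →
        ∃ v ∈ V, ∃ i : ℕ, i < 3 ∧ n = v * c ^ i := by
      intro i hi he
      have h3 : (c ^ i)⁻¹ * n ∈ V := by
        refine F1 _ ((Ico k).mul_mem ((Ico k).inv_mem ((Ico k).pow_mem hc i)) hn) ?_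
        rw [mul_inv_eq_iff_eq_mul] at he
        rw [mul_assoc, he]
        simp [mul_assoc]
      refine ⟨c ^ i * ((c ^ i)⁻¹ * n) * (c ^ i)⁻¹, hmv i _ h3, i, hi, ?_⟩
      simp [mul_assoc]
    rcases (hmem _).1 ((hnN a).2 aV) with h3 | h3 | h3 | h3
    · exfalso
      apply ha1
      have : a = n⁻¹ * (n * a * n⁻¹) * n := by simp [mul_assoc]
      rw [this, h3]; simp
    · exact key 0 (by norm_num) (by rw [h3]; simp)
    · exact key 1 (by norm_num) (by rw [h3, pow_one, hca])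
    · refine key 2 (by norm_num) ?_
      have : c ^ 2 * a * (c ^ 2)⁻¹ = c * (c * a * c⁻¹) * c⁻¹ := by simp [pow_succ, mul_assoc]
      rw [h3, this, hca, hcb]
  have hVN' : ∀ (x : PGL(2, k)) (hx : x ∈ V), (⟨x, hVIco hx⟩ : Ico k) ∈ N := fun x hx => hVN x hx
  have aN : (⟨a, ha⟩ : Ico k) ∈ N := hVN a aV
  have bN : (⟨b, hb⟩ : Ico k) ∈ N := hVN b bV
  have cN : (⟨c, hc⟩ : Ico k) ∈ N := hcN
  refine ⟨V, N, ⟨⟨a, ha⟩, aN⟩, ⟨⟨b, hb⟩, bN⟩, ⟨⟨c, hc⟩, cN⟩, hVV4, hVIco, ?_, ?_, ?_, ?_, ?_⟩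
  · refine ⟨?_, ?_, ?_, ?_, ?_, ?_, ?_⟩
    · apply Subtype.ext; apply Subtype.ext; exact haa
    · apply Subtype.ext; apply Subtype.ext; exact hbb
    · apply Subtype.ext; apply Subtype.ext; exact hab
    · apply Subtype.ext; apply Subtype.ext; exact hc3
    · apply Subtype.ext; apply Subtype.ext; exact hca
    · apply Subtype.ext; apply Subtype.ext; exact hcb
    · rintro ⟨⟨n, hn⟩, hnN⟩
      obtain ⟨v, hv, i, -, e⟩ := gen n hn hnN
      refine ⟨⟨⟨v, hVIco hv⟩, hVN v hv⟩, ?_, i, ?_⟩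
      · rcases (hmem v).1 hv with h3 | h3 | h3 | h3
        · left; apply Subtype.ext; apply Subtype.ext; exact h3
        · right; left; apply Subtype.ext; apply Subtype.ext; exact h3
        · right; right; left; apply Subtype.ext; apply Subtype.ext; exact h3
        · right; right; right; apply Subtype.ext; apply Subtype.ext; exact h3
      · apply Subtype.ext; apply Subtype.ext; exact e
  · exact hmem
  · intro x
    rw [ICA_map_iff]
    exact hNmem x
  · have hcpow : ∀ i : ℕ, c ^ i ∈ V → i < 3 → i = 0 := by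
      intro i hi h3
      have h4 := hVsq _ hi
      have h5 : c ≠ 1 := by
        intro h6
        apply hab'
        rw [← hca, h6]; simp
      interval_cases i
      · rfl
      · exfalso
        apply h5
        rw [pow_one] at h4
        have : c ^ 3 = c * c * c := by simp [pow_succ]
        rw [this, h4, one_mul] at hc3
        exact hc3
      · exfalso
        apply h5
        have : c ^ 2 * c ^ 2 = c ^ 3 * c := by simp [pow_succ, mul_assoc]
        rw [this, hc3, one_mul] at h4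
        exact h4
    let f : V × Fin 3 → N := fun x => ⟨⟨x.1 * c ^ (x.2 : ℕ),
      (Ico k).mul_mem (hVIco x.1.2) ((Ico k).pow_mem hc _)⟩,
      N.mul_mem (hVN' x.1 x.1.2) (N.pow_mem cN (x.2 : ℕ))⟩
    have hf : Function.Bijective f := by
      constructor
      · rintro ⟨v, i⟩ ⟨w, j⟩ he
        have he' : (v : PGL(2, k)) * c ^ (i : ℕ) = w * c ^ (j : ℕ) :=
          congrArg (fun x : N => ((x : Ico k) : PGL(2, k))) he
        have hij : i = j := by
          rcases le_total (i : ℕ) (j : ℕ) with hle | hle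
          · have h3 : c ^ ((j : ℕ) - i) ∈ V := by
              have e : c ^ ((j : ℕ) - i) = (w : PGL(2, k))⁻¹ * v := by
                have e2 : (w : PGL(2, k))⁻¹ * v = (w : PGL(2, k))⁻¹ * (v * c ^ (i : ℕ)) *
                    (c ^ (i : ℕ))⁻¹ := by simp [mul_assoc]
                rw [pow_sub c hle, e2, he']
                simp [mul_assoc]
              rw [e]
              exact V.mul_mem (V.inv_mem w.2) v.2
            have := hcpow _ h3 (by omega)
            apply Fin.ext; omega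
          · have h3 : c ^ ((i : ℕ) - j) ∈ V := by
              have e : c ^ ((i : ℕ) - j) = (v : PGL(2, k))⁻¹ * w := by
                have e2 : (v : PGL(2, k))⁻¹ * w = (v : PGL(2, k))⁻¹ * (w * c ^ (j : ℕ)) *
                    (c ^ (j : ℕ))⁻¹ := by simp [mul_assoc]
                rw [pow_sub c hle, e2, ← he']
                simp [mul_assoc]
              rw [e]
              exact V.mul_mem (V.inv_mem v.2) w.2
            have := hcpow _ h3 (by omega)
            apply Fin.ext; omega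
        subst hij
        have hvw : v = w := Subtype.ext (mul_right_cancel he')
        rw [hvw]
      · rintro ⟨⟨n, hn⟩, hnN⟩
        obtain ⟨v, hv, i, hi, e⟩ := gen n hn hnN
        refine ⟨(⟨v, hv⟩, ⟨i, hi⟩), ?_⟩
        apply Subtype.ext; apply Subtype.ext
        exact e.symm
    rw [← Nat.card_congr (Equiv.ofBijective f hf), Nat.card_prod, hVcard]
    simp
  · intro V' hV' hle
    obtain ⟨v, hv, hv1, -⟩ := FGJ_third hV' 1 1
    obtain ⟨h, hh, hhv⟩ := F2 v (hle hv) hv1 (hV'.2 v hv)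
    refine ⟨⟨h, hh⟩, ?_⟩
    have hle' : V'.map (MulAut.conj h).toMonoidHom ≤ V := by
      rintro _ ⟨x, hx, rfl⟩
      show h * x * h⁻¹ ∈ V
      refine F1 _ ((Ico k).mul_mem ((Ico k).mul_mem hh (hle hx)) ((Ico k).inv_mem hh)) ?_
      rw [← hhv]
      have e1 : h * x * h⁻¹ * (h * v * h⁻¹) = h * (x * v) * h⁻¹ := by simp [mul_assoc]
      have e2 : h * v * h⁻¹ * (h * x * h⁻¹) = h * (v * x) * h⁻¹ := by simp [mul_assoc]
      rw [e1, e2, FGJ_comm hV'.2 hx hv]
    refine Subgroup.eq_of_le_of_card_ge hle' ?_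
    rw [hVcard, ← hV'.1]
    exact (Subgroup.card_map_of_injective (f := (MulAut.conj h).toMonoidHom) (K := V')
      (MulAut.conj h).injective).ge

/-- The four group. -/
private def ICAb_V {F : Type} [Group F] (T S : F) (hTT : T * T = 1) (hSS : S * S = 1)
    (hST : S * T = T * S) : Subgroup F where
  carrier := {g | g = 1 ∨ g = T ∨ g = S ∨ g = T * S}
  mul_mem' := by
    rintro a b (rfl | rfl | rfl | rfl) (rfl | rfl | rfl | rfl)
    · left; rw [one_mul]
    · right; left; rw [one_mul]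
    · right; right; left; rw [one_mul]
    · right; right; right; rw [one_mul]
    · right; left; rw [mul_one]
    · left; rw [hTT]
    · right; right; right; rfl
    · right; right; left; rw [← mul_assoc, hTT, one_mul]
    · right; right; left; rw [mul_one]
    · right; right; right; rw [hST]
    · left; rw [hSS]
    · right; left; rw [← mul_assoc, hST, mul_assoc, hSS, mul_one]
    · right; right; right; rw [mul_one]
    · right; right; left; rw [mul_assoc, hST, ← mul_assoc, hTT, one_mul]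
    · right; left; rw [mul_assoc, hSS, mul_one]
    · left
      rw [mul_assoc, ← mul_assoc S, hST, mul_assoc, hSS, mul_one, hTT]
  one_mem' := Or.inl rfl
  inv_mem' := by
    rintro a (rfl | rfl | rfl | rfl)
    · left; rw [inv_one]
    · right; left; exact inv_eq_of_mul_eq_one_left hTT
    · right; right; left; exact inv_eq_of_mul_eq_one_left hSS
    · right; right; right
      apply inv_eq_of_mul_eq_one_left
      rw [mul_assoc, ← mul_assoc S, hST, mul_assoc, hSS, mul_one, hTT]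

private theorem ICAb_core {G : Type} [Group G] [Finite G] (N : Subgroup G) (v1 v2 c : N)
    (h : A4Data v1 v2 c) (n2 : v2 ≠ 1) (n3 : v1 ≠ v2) (hN : Nat.card N ≠ Nat.card G)
    (hnorm : ∀ g : G, (∀ v : N, (v = 1 ∨ v = v1 ∨ v = v2 ∨ v = v1 * v2) →
      ∃ w : N, (w = 1 ∨ w = v1 ∨ w = v2 ∨ w = v1 * v2) ∧ g * v * g⁻¹ = w) → g ∈ N) :
    N.normalCore = ⊥ := by
  have hTT := h.h11
  have hSS := h.h22
  have hST := h.h12.symm
  let V := ICAb_V v1 v2 hTT hSS hST
  have hV : ∀ g : N, g ∈ V ↔ (g = 1 ∨ g = v1 ∨ g = v2 ∨ g = v1 * v2) := fun g => Iff.rfl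
  have m1 : v1 ∈ V := Or.inr (Or.inl rfl)
  have m2 : v2 ∈ V := Or.inr (Or.inr (Or.inl rfl))
  -- conjugation by c
  have hc : ∀ a ∈ V, c * a * c⁻¹ ∈ V := by
    intro a ha
    rcases ha with rfl | rfl | rfl | rfl
    · rw [mul_one, mul_inv_cancel]
      exact one_mem _
    · rw [h.cv1]
      exact m2
    · rw [h.cv2]
      exact mul_mem m1 m2
    · have e : c * (v1 * v2) * c⁻¹ = (c * v1 * c⁻¹) * (c * v2 * c⁻¹) := by group
      rw [e, h.cv1, h.cv2]
      exact mul_mem m2 (mul_mem m1 m2)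
  have hci : ∀ (i : ℕ), ∀ a ∈ V, c ^ i * a * (c ^ i)⁻¹ ∈ V := by
    intro i
    induction i with
    | zero => intro a ha; simpa using ha
    | succ i ih =>
      intro a ha
      have e : c ^ (i + 1) * a * (c ^ (i + 1))⁻¹ = c * (c ^ i * a * (c ^ i)⁻¹) * c⁻¹ := by
        rw [pow_succ', mul_inv_rev]
        simp only [mul_assoc]
      rw [e]
      exact hc _ (ih a ha)
  have hn : ∀ n : N, ∀ a ∈ V, n * a * n⁻¹ ∈ V := by
    intro n a ha
    obtain ⟨v, hv, i, rfl⟩ := h.gen n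
    have e : v * c ^ i * a * (v * c ^ i)⁻¹ = v * (c ^ i * a * (c ^ i)⁻¹) * v⁻¹ := by group
    rw [e]
    exact mul_mem (mul_mem hv (hci i a ha)) (inv_mem hv)
  have hsq : ∀ a ∈ V, a * a = 1 := by
    rintro a (rfl | rfl | rfl | rfl)
    · rw [one_mul]
    · exact hTT
    · exact hSS
    · rw [mul_assoc, ← mul_assoc v2, hST, mul_assoc, hSS, mul_one, hTT]
  have hcomm : ∀ a ∈ V, ∀ b ∈ V, a * b = b * a := by
    intro a ha b hb
    have h1 := hsq _ (mul_mem ha hb)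
    have h2 := hsq _ ha
    have h3 := hsq _ hb
    have h4 : a⁻¹ = a := inv_eq_of_mul_eq_one_left h2
    have h5 : b⁻¹ = b := inv_eq_of_mul_eq_one_left h3
    have h6 : (a * b)⁻¹ = a * b := inv_eq_of_mul_eq_one_left h1
    rw [mul_inv_rev, h4, h5] at h6
    exact h6.symm
  -- involutions
  have hinv : ∀ n : N, n * n = 1 → n ∈ V := by
    intro n hnn
    obtain ⟨v, hv, i, rfl⟩ := h.gen n
    have e : v * c ^ i * (v * c ^ i) = v * (c ^ i * v * (c ^ i)⁻¹) * (c ^ i * c ^ i) := by group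
    rw [e] at hnn
    have h1 : c ^ i * c ^ i ∈ V := by
      have h2 : c ^ i * c ^ i = (v * (c ^ i * v * (c ^ i)⁻¹))⁻¹ := eq_inv_of_mul_eq_one_right hnn
      rw [h2]
      exact inv_mem (mul_mem hv (hci i v hv))
    have h2 := hsq _ h1
    have h3 : (c ^ i) ^ 3 = 1 := by rw [← pow_mul, mul_comm, pow_mul, h.c3, one_pow]
    have h4 : c ^ i = 1 := by
      have e1 : c ^ i = c ^ i * c ^ i * (c ^ i * c ^ i) * ((c ^ i) ^ 3)⁻¹ := by
        rw [pow_succ (c ^ i) 2, pow_two]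
        group
      rw [e1, h2, h3, inv_one, mul_one]
    rw [h4, mul_one]
    exact hv
  have K := N.normalCore
  have hle : N.normalCore ≤ N := N.normalCore_le
  have hK : N.normalCore.Normal := N.normalCore_normal
  have claim1 : ∀ v ∈ V, (v : G) ∈ N.normalCore → v = 1 := by
    intro v hv hvK
    by_contra hne
    have hconj : ∀ a : N, (a : G) ∈ N.normalCore → ((c * a * c⁻¹ : N) : G) ∈ N.normalCore := by
      intro a ha
      exact hK.conj_mem _ ha _
    have k1 : (v1 : G) ∈ N.normalCore := by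
      rcases hv with hv | hv | hv | hv
      · exact absurd hv hne
      · rw [hv] at hvK
        exact hvK
      · rw [hv] at hvK
        have h1 := hconj _ hvK
        rw [h.cv2] at h1
        have h2 : (v1 : G) = ((v1 * v2 : N) : G) * (v2 : G)⁻¹ := by
          rw [Subgroup.coe_mul, mul_inv_cancel_right]
        rw [h2]
        exact mul_mem h1 (inv_mem hvK)
      · rw [hv] at hvK
        have h1 := hconj _ hvK
        have e : c * (v1 * v2) * c⁻¹ = v1 := by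
          have e : c * (v1 * v2) * c⁻¹ = (c * v1 * c⁻¹) * (c * v2 * c⁻¹) := by group
          rw [e, h.cv1, h.cv2, ← mul_assoc, hST, mul_assoc, hSS, mul_one]
        rwa [e] at h1
    have k2 : (v2 : G) ∈ N.normalCore := by
      have h1 := hconj _ k1
      rwa [h.cv1] at h1
    have k3 : ∀ a ∈ V, (a : G) ∈ N.normalCore := by
      rintro a (rfl | rfl | rfl | rfl)
      · exact one_mem _
      · exact k1
      · exact k2
      · exact mul_mem k1 k2
    have htop : N = ⊤ := by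
      rw [eq_top_iff]
      intro g _
      apply hnorm
      intro a ha
      have h1 : g * (a : G) * g⁻¹ ∈ N.normalCore := hK.conj_mem _ (k3 a ha) g
      refine ⟨⟨_, hle h1⟩, ?_, rfl⟩
      apply hinv
      apply Subtype.ext
      show g * (a : G) * g⁻¹ * (g * (a : G) * g⁻¹) = 1
      have h2 : (a : G) * (a : G) = 1 := congrArg Subtype.val (hsq a ha)
      have e : g * (a : G) * g⁻¹ * (g * (a : G) * g⁻¹) = g * ((a : G) * (a : G)) * g⁻¹ := by group
      rw [e, h2, mul_one, mul_inv_cancel]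
    apply hN
    rw [htop]
    exact Subgroup.card_top
  rw [eq_bot_iff]
  intro x hx
  rw [Subgroup.mem_bot]
  have hxN := hle hx
  obtain ⟨v, hv, i, hni⟩ := h.gen ⟨x, hxN⟩
  -- the commutator with an element of V
  have hcen : ∀ a ∈ V, (⟨x, hxN⟩ : N) * a * (⟨x, hxN⟩ : N)⁻¹ = a := by
    intro a ha
    have h1 : a * ((⟨x, hxN⟩ : N) * a⁻¹ * (⟨x, hxN⟩ : N)⁻¹) = 1 := by
      apply claim1
      · exact mul_mem ha (hn _ _ (inv_mem ha))
      · have h2 : (((a * ((⟨x, hxN⟩ : N) * a⁻¹ * (⟨x, hxN⟩ : N)⁻¹) : N)) : G) =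
            ((a : G) * x * (a : G)⁻¹) * x⁻¹ := by
          show (a : G) * (x * (a : G)⁻¹ * x⁻¹) = ((a : G) * x * (a : G)⁻¹) * x⁻¹
          group
        rw [h2]
        exact mul_mem (hK.conj_mem _ hx _) (inv_mem hx)
    have h3 : a = ((⟨x, hxN⟩ : N) * a⁻¹ * (⟨x, hxN⟩ : N)⁻¹)⁻¹ := eq_inv_of_mul_eq_one_left h1
    have h4 : ((⟨x, hxN⟩ : N) * a⁻¹ * (⟨x, hxN⟩ : N)⁻¹)⁻¹ =
        (⟨x, hxN⟩ : N) * a * (⟨x, hxN⟩ : N)⁻¹ := by group
    rw [← h4]
    exact h3.symm
  have hcc : c ^ i * v1 * (c ^ i)⁻¹ = v1 := by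
    have h1 := hcen v1 m1
    rw [hni] at h1
    have h2 : c ^ i * v1 * (c ^ i)⁻¹ ∈ V := hci i v1 m1
    have e : v * c ^ i * v1 * (v * c ^ i)⁻¹ = v * (c ^ i * v1 * (c ^ i)⁻¹) * v⁻¹ := by group
    rw [e, hcomm v hv _ h2, mul_inv_cancel_right] at h1
    exact h1
  have hmod : c ^ i = c ^ (i % 3) := pow_eq_pow_mod i h.c3
  have hlt := Nat.mod_lt i (show 0 < 3 by norm_num)
  rw [hmod] at hcc hni
  have hcase : i % 3 = 0 ∨ i % 3 = 1 ∨ i % 3 = 2 := by omega
  rcases hcase with h0 | h0 | h0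
  · rw [h0, pow_zero, mul_one] at hni
    have h1 : (v : G) = x := by rw [← hni]
    have h2 := claim1 v hv (by rw [h1]; exact hx)
    rw [← h1, h2]
    rfl
  · rw [h0, pow_one, h.cv1] at hcc
    exact absurd hcc.symm n3
  · rw [h0] at hcc
    have e : c ^ 2 * v1 * (c ^ 2)⁻¹ = c * (c * v1 * c⁻¹) * c⁻¹ := by
      rw [pow_two, mul_inv_rev]
      simp only [mul_assoc]
    rw [e, h.cv1, h.cv2] at hcc
    exact absurd (mul_left_cancel (hcc.trans (mul_one v1).symm)) n2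

private theorem ICAb_alt {G : Type} [Group G] [Finite G] (N : Subgroup G)
    (hN : Nat.card N = 12) (hG : Nat.card G = 60) (hc : N.normalCore = ⊥) :
    ∃ φ : G →* Equiv.Perm (Fin 5), Function.Injective φ ∧ φ.range = alternatingGroup (Fin 5) := by
  have hidx : Nat.card (G ⧸ N) = 5 := by
    have h1 := N.card_mul_index
    rw [hN, hG] at h1
    have h2 : N.index = 5 := by omega
    exact h2
  let e : G ⧸ N ≃ Fin 5 := Finite.equivFinOfCardEq hidx
  let φ : G →* Equiv.Perm (Fin 5) :=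
    e.permCongrHom.toMonoidHom.comp (MulAction.toPermHom G (G ⧸ N))
  have hφ : Function.Injective φ := by
    have h1 : Function.Injective (MulAction.toPermHom G (G ⧸ N)) := by
      rw [← MonoidHom.ker_eq_bot_iff, ← Subgroup.normalCore_eq_ker, hc]
    intro a b hab
    exact h1 (e.permCongrHom.injective hab)
  refine ⟨φ, hφ, ?_⟩
  apply Equiv.Perm.eq_alternatingGroup_of_index_eq_two
  have h1 : Nat.card φ.range = 60 := by
    rw [← hG]
    exact (Nat.card_congr (MonoidHom.ofInjective hφ).toEquiv).symm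
  have h2 := φ.range.card_mul_index
  have h3 : Nat.card (Equiv.Perm (Fin 5)) = 120 := by
    rw [Nat.card_eq_fintype_card, Fintype.card_perm, Fintype.card_fin]
    rfl
  rw [h1, h3] at h2
  omega

private theorem ICAb_finite : Finite (Ico k) :=
  Nat.finite_of_card_ne_zero (by rw [ico_card]; norm_num)

/-- The action on the five Klein four subgroups. -/
theorem ico_alt : ∃ φ : Ico k →* Equiv.Perm (Fin 5), Function.Injective φ ∧
    φ.range = alternatingGroup (Fin 5) := by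
  obtain ⟨V, N, v1, v2, c, hV4, hV, h, hmem, hN, hcard, -⟩ := ico_v4_data (k := k)
  have : Finite (Ico k) := ICAb_finite
  have hset : ((V : Subgroup PGL(2, k)) : Set PGL(2, k)) =
      {1, (v1 : PGL(2, k)), (v2 : PGL(2, k)), (v1 : PGL(2, k)) * v2} := by
    ext g
    rw [SetLike.mem_coe, hmem]
    simp
  have hn : ((V : Subgroup PGL(2, k)) : Set PGL(2, k)).ncard = 4 := hV4.1
  have hfin : Finite V := Nat.finite_of_card_ne_zero (by rw [hV4.1]; norm_num)
  refine ICAb_alt N hcard ico_card (ICAb_core N v1 v2 c h ?_ ?_ ?_ ?_)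
  · rintro rfl
    have h1 : (({1, (v1 : PGL(2, k)), ((1 : N) : PGL(2, k)), (v1 : PGL(2, k)) * (1 : N)} :
        Set PGL(2, k))) = {1, (v1 : PGL(2, k))} := by
      ext g
      simp
    rw [hset, h1] at hn
    have h2 := Set.ncard_insert_le (1 : PGL(2, k)) {(v1 : PGL(2, k))}
    rw [Set.ncard_singleton] at h2
    omega
  · rintro rfl
    have h0 : (v1 : PGL(2, k)) * v1 = 1 :=
      congrArg (fun x : N => ((x : Ico k) : PGL(2, k))) h.h11
    have h1 : (({1, (v1 : PGL(2, k)), (v1 : PGL(2, k)), (v1 : PGL(2, k)) * v1} :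
        Set PGL(2, k))) = {1, (v1 : PGL(2, k))} := by
      rw [h0]
      ext g
      simp
      tauto
    rw [hset, h1] at hn
    have h2 := Set.ncard_insert_le (1 : PGL(2, k)) {(v1 : PGL(2, k))}
    rw [Set.ncard_singleton] at h2
    omega
  · rw [hcard, ico_card]
    norm_num
  · intro g hg
    rw [hN]
    refine Subgroup.eq_of_le_of_card_ge ?_ ?_
    · rintro _ ⟨x, hx, rfl⟩
      have hx' : x ∈ V := hx
      have h1 : ∃ a : N, (a = 1 ∨ a = v1 ∨ a = v2 ∨ a = v1 * v2) ∧ (a : PGL(2, k)) = x := by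
        rcases (hmem x).1 hx' with rfl | rfl | rfl | rfl
        · exact ⟨1, Or.inl rfl, rfl⟩
        · exact ⟨v1, Or.inr (Or.inl rfl), rfl⟩
        · exact ⟨v2, Or.inr (Or.inr (Or.inl rfl)), rfl⟩
        · exact ⟨v1 * v2, Or.inr (Or.inr (Or.inr rfl)), rfl⟩
      obtain ⟨a, ha, rfl⟩ := h1
      obtain ⟨w, hw, hgw⟩ := hg a ha
      have h2 : (g : PGL(2, k)) * a * (g : PGL(2, k))⁻¹ = w := congrArg Subtype.val hgw
      show (g : PGL(2, k)) * a * (g : PGL(2, k))⁻¹ ∈ V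
      rw [h2, hmem]
      rcases hw with rfl | rfl | rfl | rfl
      · exact Or.inl rfl
      · exact Or.inr (Or.inl rfl)
      · exact Or.inr (Or.inr (Or.inl rfl))
      · exact Or.inr (Or.inr (Or.inr rfl))
    · rw [Subgroup.card_map_of_injective (MulAut.conj (g : PGL(2, k))).injective]

end Pool.Agent.MRat
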