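import Pool.Agent.Lib.MP_923aff_ag.ICA
import Pool.Agent.Lib.MP_923aff_ag.FA8
/-!
# JOB ICC: projective bundles over spaces with an action of the icosahedral group without fixed points

For `x ∈ s` let `Γ x` be the subgroup of `PGL(2, k)` of all `g ∈ Ico k` with `A.a g x = x`. It is not `Ico k`, so by
`pgl_classification` it is trivial, or has a canonical axis, or a canonical Klein four group (the third case would
give `60` elements). Pieces (definable and stable by `stab_dm`, `stab_st`; `nice_split` / `nice_union`):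
trivial: `nice_free`;
axis of order `m = 2, 3, 5` (`m = se (Ico k) p` where `p` is an end of the axis): `nice_induce` from the subgroup `D` of
`ico_axis_data` and the points with axis `{p, q}`; on these `niceOn_comm` (`m = 2`) and `niceOn_dihedral` (`m = 3, 5`);
Klein four group: `nice_induce` from the subgroup `N` of `ico_v4_data` and the points with canonical Klein four group `V`,
`niceOn_A4` (the elements of `V` belong to `Γ x`); uniqueness: `canV_unique`.
-/

set_option autoImplicit false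

namespace Pool.Agent.MRat

open scoped MatrixGroups LinearAlgebra.Projectivization

variable {k : Type} [Field k] [IsAlgClosed k] [CharZero k]
variable {X : Type} [DT k X]
variable {V : Type} [AddCommGroup V] [Module k V] [DT k V] [FDM k V]

/-- The stabiliser as a subgroup of `PGL₂`. -/
def icoStab (A : FAct k (Ico k) X) (x : X) : Subgroup PGL(2, k) where
  carrier := {g | ∃ h : g ∈ Ico k, A.a ⟨g, h⟩ x = x}
  mul_mem' := by
    rintro g g' ⟨h, e⟩ ⟨h', e'⟩
    refine ⟨(Ico k).mul_mem h h', ?_⟩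
    have := A.a_mul ⟨g, h⟩ ⟨g', h'⟩ x
    rw [e', e] at this
    exact this
  one_mem' := ⟨(Ico k).one_mem, A.a_one x⟩
  inv_mem' := by
    rintro g ⟨h, e⟩
    refine ⟨(Ico k).inv_mem h, ?_⟩
    have := A.a_inv ⟨g, h⟩ x
    rw [e] at this
    exact this

theorem icoStab_le (A : FAct k (Ico k) X) (x : X) : icoStab A x ≤ Ico k := fun _ h => h.1

private theorem iccMem {G : Type} [Group G] {Γ : Subgroup G} {g x : G} :
    x ∈ Γ.map (MulAut.conj g).toMonoidHom ↔ g⁻¹ * x * g ∈ Γ := by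
  rw [Subgroup.mem_map]
  constructor
  · rintro ⟨y, hy, rfl⟩
    have : g⁻¹ * (MulAut.conj g).toMonoidHom y * g = y := by
      simp [mul_assoc]
    rwa [this]
  · intro hx
    refine ⟨g⁻¹ * x * g, hx, ?_⟩
    simp [mul_assoc]

private theorem iccConj (A : FAct k (Ico k) X) (g : Ico k) (x : X) :
    icoStab A (A.a g x) = (icoStab A x).map (MulAut.conj (g : PGL(2, k))).toMonoidHom := by
  ext y
  rw [iccMem]
  constructor
  · rintro ⟨h, e⟩
    have h1 : (g : PGL(2, k))⁻¹ * y * g ∈ Ico k :=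
      (Ico k).mul_mem ((Ico k).mul_mem ((Ico k).inv_mem g.2) h) g.2
    refine ⟨h1, ?_⟩
    have h2 : (⟨(g : PGL(2, k))⁻¹ * y * g, h1⟩ : Ico k) = g⁻¹ * ⟨y, h⟩ * g := rfl
    rw [h2, A.a_mul, A.a_mul, e, A.a_inv]
  · rintro ⟨h1, e⟩
    have h : y ∈ Ico k := by
      have h3 := (Ico k).mul_mem ((Ico k).mul_mem g.2 h1) ((Ico k).inv_mem g.2)
      have h4 : (g : PGL(2, k)) * ((g : PGL(2, k))⁻¹ * y * g) * (g : PGL(2, k))⁻¹ = y := by
        simp [mul_assoc]
      rwa [h4] at h3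
    refine ⟨h, ?_⟩
    have h2 : (⟨(g : PGL(2, k))⁻¹ * y * g, h1⟩ : Ico k) = g⁻¹ * ⟨y, h⟩ * g := rfl
    rw [h2, A.a_mul, A.a_mul] at e
    have h5 := congrArg (A.a g) e
    rw [A.a_inv'] at h5
    exact h5

private theorem iccExt (A : FAct k (Ico k) X) (x : X) (Γ : Subgroup PGL(2, k))
    (h : ∀ g, g ∈ Γ ↔ ∃ h : g ∈ Ico k, (⟨g, h⟩ : Ico k) ∈ {g | A.a g x = x}) :
    Γ = icoStab A x := by
  ext g
  exact h g

/-- Conditions on the stabiliser. -/
private def iccP (Q : Subgroup PGL(2, k) → Prop) (S : Set (Ico k)) : Prop :=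
  ∃ Γ : Subgroup PGL(2, k), (∀ g, g ∈ Γ ↔ ∃ h : g ∈ Ico k, (⟨g, h⟩ : Ico k) ∈ S) ∧ Q Γ

private theorem iccP_iff (A : FAct k (Ico k) X) (Q : Subgroup PGL(2, k) → Prop) (x : X) :
    iccP Q {g | A.a g x = x} ↔ Q (icoStab A x) := by
  constructor
  · rintro ⟨Γ, h, hQ⟩
    rwa [iccExt A x Γ h] at hQ
  · intro h
    exact ⟨icoStab A x, fun g => Iff.rfl, h⟩

private theorem iccDm (A : FAct k (Ico k) X) (Q : Subgroup PGL(2, k) → Prop) :
    DM k (fun x => Q (icoStab A x)) :=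
  (stab_dm A (iccP Q)).congr_iff fun x => iccP_iff A Q x

private theorem iccSt {A : FAct k (Ico k) X} {s : Set X} (hs : A.St s)
    (Q : Subgroup PGL(2, k) → Prop)
    (hQ : ∀ g ∈ Ico k, ∀ Γ, Q Γ → Q (Γ.map (MulAut.conj g).toMonoidHom)) :
    A.St {x ∈ s | Q (icoStab A x)} := by
  refine ⟨DM.and hs.ds (iccDm A Q), ?_⟩
  rintro g x ⟨hx, hq⟩
  refine ⟨hs.st g x hx, ?_⟩
  rw [iccConj]
  exact hQ g g.2 _ hq

private instance iccFin (A : FAct k (Ico k) X) (x : X) : Finite (icoStab A x) :=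
  Finite.of_injective (fun g => (⟨g.1, icoStab_le A x g.2⟩ : Ico k)) (fun a b h => by
    apply Subtype.ext
    exact congrArg (fun x : Ico k => (x : PGL(2, k))) h)

/-- A non-identity element fixing all axis points. -/
private theorem iccCommon {Γ : Subgroup PGL(2, k)} [Finite Γ] {p q : PL k} (h : AxPair Γ p q) :
    ∃ g ∈ Γ, g ≠ 1 ∧ g • p = p ∧ g • q = q := by
  have hP := pol_pgl Γ
  obtain ⟨-, h1, h2⟩ := hP.axPair_inv h
  obtain ⟨g, hg, hg1, hgp⟩ := (one_lt_se_iff (Γ := Γ) p).1 h1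
  refine ⟨g, hg, hg1, hgp, ?_⟩
  rcases (hP.axPair_inv h).1 g hg with h3 | h3
  · exact h3.2
  · exact absurd (hgp.symm.trans h3.1) h.1

private theorem iccPair {Γ : Subgroup PGL(2, k)} {p q : PL k} (g : PGL(2, k)) (h : AxPair Γ p q) :
    AxPair (Γ.map (MulAut.conj g).toMonoidHom) (g • p) (g • q) :=
  (axPair_conj g p q).2 h

/-- The pieces with a canonical axis of order `m`. -/
theorem ico_nice_axis {A : FAct k (Ico k) X} {s : Set X} (hs : A.St s) {m : ℕ}
    (hm : m = 2 ∨ m = 3 ∨ m = 5)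
    (ax : ∀ x ∈ s, ∃ p q : PL k, AxPair (icoStab A x) p q ∧ se (Ico k) p = m)
    (ρ : Representation k (Ico k) V) : Nice A s ρ := by
  classical
  obtain ⟨D, p, q, σ, w, hpq, hD, hσ, hw, hwσ, gen, sep, seq, tra, fix⟩ := ico_axis_data (k := k) hm
  have ht : (A.comap D.subtype).St {x | x ∈ s ∧ AxPair (icoStab A x) p q} := by
    refine ⟨DM.and hs.ds (iccDm A (fun Γ => AxPair Γ p q)), ?_⟩
    rintro g x ⟨hx, hq⟩
    refine ⟨hs.st _ x hx, ?_⟩
    have e : (A.comap D.subtype).a g x = A.a (g : Ico k) x := rfl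
    rw [e, iccConj]
    have h1 := iccPair ((g : Ico k) : PGL(2, k)) hq
    rcases (hD g).1 g.2 with h2 | h2
    · rwa [h2.1, h2.2] at h1
    · rw [h2.1, h2.2] at h1
      exact h1.symm
  refine nice_induce hs D.subtype ht (fun x hx => hx.1) ?_ ?_ ρ ?_
  · intro x hx
    obtain ⟨p', q', h1, h2⟩ := ax x hx
    obtain ⟨g, hg⟩ := tra p' h2
    refine ⟨g⁻¹, hs.st _ x hx, ?_⟩
    have h3 := iccPair ((g⁻¹ : Ico k) : PGL(2, k)) h1
    rw [← iccConj] at h3
    have h4 : ((g⁻¹ : Ico k) : PGL(2, k)) • p' = p := by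
      rw [← hg, Subgroup.coe_inv, inv_smul_smul]
    rw [h4] at h3
    obtain ⟨f, hf, hf1, hfp, hfq⟩ := iccCommon h3
    have hfI := icoStab_le A _ hf
    have hfq' := fix f hfI hfp
    have h5 : ((g⁻¹ : Ico k) : PGL(2, k)) • q' = q := by
      by_contra h6
      exact hf1 (FGJ_three (pol_pgl (Ico k)) hfI hpq h3.1 (fun e => h6 e.symm) hfp hfq' hfq)
    rwa [h5] at h3
  · rintro x ⟨hx, h1⟩ g ⟨hx', h2⟩
    have h3 := iccPair (g : PGL(2, k)) h1
    rw [← iccConj] at h3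
    have h4 := (pol_pgl (icoStab A (A.a g x))).axPair_unique h2 h3
    exact ⟨⟨g, (hD g).2 h4⟩, rfl⟩
  · rcases hm with rfl | hm'
    · have hσσ : σ * σ = 1 := by rw [← pow_two]; exact hσ
      have hσi : σ⁻¹ = σ := inv_eq_of_mul_eq_one_left hσσ
      have hcw : w * σ = σ * w := by
        have h1 : w * σ * w * w = σ * w := by rw [hwσ, hσi]
        rw [mul_assoc (w * σ) w w, hw, mul_one] at h1
        exact h1
      have hci : ∀ i : ℕ, w * σ ^ i = σ ^ i * w := fun i => (Commute.pow_right (show Commute w σ from hcw) i)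
      have hcomm : ∀ g h : D, g * h = h * g := by
        intro g h
        obtain ⟨i, hi⟩ := gen g
        obtain ⟨j, hj⟩ := gen h
        have hij : σ ^ i * σ ^ j = σ ^ j * σ ^ i := by rw [← pow_add, ← pow_add, add_comm]
        rcases hi with rfl | rfl <;> rcases hj with rfl | rfl
        · exact hij
        · rw [← mul_assoc, hij, mul_assoc (σ ^ j) w, hci, mul_assoc]
        · rw [mul_assoc (σ ^ i) w, hci, ← mul_assoc, hij, mul_assoc]
        · calc σ ^ i * w * (σ ^ j * w) = σ ^ i * (w * σ ^ j) * w := by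
                simp only [mul_assoc]
            _ = σ ^ i * σ ^ j * (w * w) := by rw [hci]; simp only [mul_assoc]
            _ = σ ^ j * σ ^ i * (w * w) := by rw [hij]
            _ = σ ^ j * (w * σ ^ i) * w := by rw [hci]; simp only [mul_assoc]
            _ = σ ^ j * w * (σ ^ i * w) := by simp only [mul_assoc]
      exact niceOn_comm hcomm (ρ.comp D.subtype) X _ _ ht (by simp)
    · have hmp : m.Prime ∧ m ≠ 2 := by
        rcases hm' with rfl | rfl <;> constructor <;> norm_num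
      exact niceOn_dihedral σ w m hmp.1 hmp.2 hσ hw hwσ gen (ρ.comp D.subtype) X _ _ ht (by simp)

/-- The piece with a canonical Klein four group. -/
theorem ico_nice_v4 {A : FAct k (Ico k) X} {s : Set X} (hs : A.St s)
    (cv : ∀ x ∈ s, ∃ W : Subgroup PGL(2, k), CanV (PL k) (icoStab A x) W)
    (ρ : Representation k (Ico k) V) : Nice A s ρ := by
  classical
  obtain ⟨W, N, v1, v2, c, hW, hWI, hA4, hWm, hN, -, tra⟩ := ico_v4_data (k := k)
  have ht : (A.comap N.subtype).St {x | x ∈ s ∧ CanV (PL k) (icoStab A x) W} := by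
    refine ⟨DM.and hs.ds (iccDm A (fun Γ => CanV (PL k) Γ W)), ?_⟩
    rintro g x ⟨hx, hq⟩
    refine ⟨hs.st _ x hx, ?_⟩
    have e : (A.comap N.subtype).a g x = A.a (g : Ico k) x := rfl
    rw [e, iccConj]
    have h1 := (canV_conj (P := PL k) (Γ := icoStab A x) ((g : Ico k) : PGL(2, k)) W).2 hq
    rwa [(hN g).1 g.2] at h1
  refine nice_induce hs N.subtype ht (fun x hx => hx.1) ?_ ?_ ρ ?_
  · intro x hx
    obtain ⟨W', hW'⟩ := cv x hx
    obtain ⟨g, hg⟩ := tra W' hW'.2.1 (hW'.2.2.1.trans (icoStab_le A x))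
    refine ⟨g, hs.st _ x hx, ?_⟩
    have h1 := (canV_conj (P := PL k) (Γ := icoStab A x) (g : PGL(2, k)) W').2 hW'
    rwa [hg, ← iccConj] at h1
  · rintro x ⟨hx, h1⟩ g ⟨hx', h2⟩
    have h3 := (canV_conj (P := PL k) (Γ := icoStab A x) (g : PGL(2, k)) W).2 h1
    rw [← iccConj] at h3
    exact ⟨⟨g, (hN g).2 (canV_unique h3 h2)⟩, rfl⟩
  · refine niceOn_A4 hA4 (ρ.comp N.subtype) X _ _ ht ?_
    intro h hh x hx
    have key : ∀ v : N, ((v : Ico k) : PGL(2, k)) ∈ W → (A.comap N.subtype).a v x = x := by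
      intro v hv
      obtain ⟨h', e⟩ := hx.2.2.2.1 hv
      exact e
    rcases hh with rfl | rfl
    · exact key _ ((hWm _).2 (Or.inr (Or.inl rfl)))
    · exact key _ ((hWm _).2 (Or.inr (Or.inr (Or.inl rfl))))

/-- The projective bundle formula over spaces without fixed points. -/
theorem ico_nice {A : FAct k (Ico k) X} {s : Set X} (hs : A.St s)
    (nofix : ∀ x ∈ s, ∃ g, A.a g x ≠ x) (ρ : Representation k (Ico k) V) : Nice A s ρ := by
  classical
  have sst : ∀ s' : Set X, A.St s' → ∀ m : ℕ,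
      A.St {x ∈ s' | ∃ p q : PL k, AxPair (icoStab A x) p q ∧ se (Ico k) p = m} := by
    intro s' hs' m
    refine iccSt hs' (fun Γ => ∃ p q : PL k, AxPair Γ p q ∧ se (Ico k) p = m) ?_
    rintro g hg Γ ⟨p, q, h1, h2⟩
    exact ⟨g • p, g • q, iccPair g h1, by rw [se_smul hg, h2]⟩
  have st0 : A.St {x ∈ s | icoStab A x = ⊥} := by
    refine iccSt hs (fun Γ => Γ = ⊥) ?_
    rintro g hg Γ rfl
    exact Subgroup.map_bot _
  refine nice_split hs st0 ?_ ?_
  · refine nice_free (hs.inter st0) ρ ?_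
    rintro x ⟨_, _, hx⟩ g hg
    have h1 : (g : PGL(2, k)) ∈ icoStab A x := ⟨g.2, hg⟩
    rw [hx, Subgroup.mem_bot] at h1
    have h2 : g = 1 := Subtype.ext h1
    rw [h2, map_one]
  have hs1 := hs.diff st0
  set s1 := s \ {x ∈ s | icoStab A x = ⊥} with hs1d
  have axis : ∀ s' : Set X, A.St s' → ∀ m : ℕ, (m = 2 ∨ m = 3 ∨ m = 5) →
      Nice A (s' ∩ {x ∈ s' | ∃ p q : PL k, AxPair (icoStab A x) p q ∧ se (Ico k) p = m}) ρ := by
    intro s' hs' m hm
    refine ico_nice_axis (hs'.inter (sst s' hs' m)) hm ?_ ρ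
    rintro x ⟨_, _, hx⟩
    exact hx
  refine nice_split hs1 (sst s1 hs1 2) (axis s1 hs1 2 (by simp)) ?_
  have hs2 := hs1.diff (sst s1 hs1 2)
  set s2 := s1 \ {x ∈ s1 | ∃ p q : PL k, AxPair (icoStab A x) p q ∧ se (Ico k) p = 2} with hs2d
  refine nice_split hs2 (sst s2 hs2 3) (axis s2 hs2 3 (by simp)) ?_
  have hs3 := hs2.diff (sst s2 hs2 3)
  set s3 := s2 \ {x ∈ s2 | ∃ p q : PL k, AxPair (icoStab A x) p q ∧ se (Ico k) p = 3} with hs3d
  refine nice_split hs3 (sst s3 hs3 5) (axis s3 hs3 5 (by simp)) ?_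
  have hs4 := hs3.diff (sst s3 hs3 5)
  set s4 := s3 \ {x ∈ s3 | ∃ p q : PL k, AxPair (icoStab A x) p q ∧ se (Ico k) p = 5} with hs4d
  refine ico_nice_v4 hs4 ?_ ρ
  rintro x ⟨hx3, hx5⟩
  have hx3' := hx3
  obtain ⟨hx2, hx3n⟩ := hx3'
  have hx2' := hx2
  obtain ⟨hx1, hx2n⟩ := hx2'
  have hx1' := hx1
  obtain ⟨hx0, hx1n⟩ := hx1'
  have hne : icoStab A x ≠ ⊥ := fun h => hx1n ⟨hx0, h⟩
  rcases pgl_classification (icoStab A x) hne with ⟨p, q, h⟩ | h | ⟨g, h⟩
  · exfalso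
    obtain ⟨-, h1, h2⟩ := (pol_pgl (icoStab A x)).axPair_inv h
    obtain ⟨g, hg, hg1, hgp⟩ := (one_lt_se_iff (Γ := icoStab A x) p).1 h1
    have h3 : 1 < se (Ico k) p :=
      (one_lt_se_iff (Γ := Ico k) p).2 ⟨g, icoStab_le A x hg, hg1, hgp⟩
    obtain ⟨p₁, p₂, p₃, T⟩ := ico_tri (k := k)
    obtain ⟨i, hi, h4 | h4 | h4⟩ := T.all p h3
    · exact hx2n ⟨hx1, p, q, h, by rw [← h4, se_smul hi, T.e₁]⟩
    · exact hx3n ⟨hx2, p, q, h, by rw [← h4, se_smul hi, T.e₂]⟩
    · exact hx5 ⟨hx3, p, q, h, by rw [← h4, se_smul hi, T.e₃]⟩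
  · exact h
  · exfalso
    have h1 : Nat.card (icoStab A x) = Nat.card (Ico k) := by
      rw [← h]
      exact (Subgroup.card_map_of_injective (MulAut.conj g).injective).symm
    have h2 : icoStab A x = Ico k := Subgroup.eq_of_le_of_card_ge (icoStab_le A x) h1.ge
    obtain ⟨f, hf⟩ := nofix x hx0
    have h3 : (f : PGL(2, k)) ∈ icoStab A x := by rw [h2]; exact f.2
    obtain ⟨h4, e⟩ := h3
    exact hf e

end Pool.Agent.MRat
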