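import Pool.Agent.Lib.MP_923aff_ag.FA1
import Pool.Agent.Lib.MP_923aff_ag.Forms
/-!
# JOB ICF: forms of even degree as linear representations of `PGL₂`

`ρ [M] F = det M ^ e • (M • F)`: scalar matrices act trivially (`form_scalar`), so this is well defined
(`Matrix.ProjGenLinGroup.lift` or surjectivity of `Matrix.ProjGenLinGroup.mk`).
-/

set_option autoImplicit false

namespace Pool.Agent.MRat

open scoped MatrixGroups LinearAlgebra.Projectivization

variable {k : Type} [Field k] [IsAlgClosed k] [CharZero k]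
variable {X Y Z : Type} [DT k X] [DT k Y] [DT k Z]

instance icfFDM (n : ℕ) : FDM k (Form k n) where
  ex := ⟨n + 1, coeffE k n, by fun_prop, (DM.form_of DM.id').congr fun _ => rfl⟩

theorem finrank_form (n : ℕ) : Module.finrank k (Form k n) = n + 1 := by
  rw [(coeffE k n).finrank_eq]
  simp

/-- The action of a subgroup of `PGL₂`. -/
@[simps] def FAct.ofPGL (H : Subgroup PGL(2, k)) (X : Type) [DT k X] [MulAction PGL(2, k) X]
    [DAct k PGL(2, k) X] : FAct k H X where
  a g x := (g : PGL(2, k)) • x
  a_one x := by simp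
  a_mul g h x := by simp [mul_smul]
  d g := DM.smul (DM.const' _) DM.id'

theorem exists_form_rep {n e : ℕ} (h : n = 2 * e) :
    ∃ ρ : Representation k PGL(2, k) (Form k n), ∀ (M : GL (Fin 2) k) (F : Form k n),
      ρ (Matrix.ProjGenLinGroup.mk M) F =
        (Matrix.det (M : Matrix (Fin 2) (Fin 2) k)) ^ e • (M • F) := by
  subst h
  let f : GL (Fin 2) k →* (Form k (2 * e) →ₗ[k] Form k (2 * e))ˣ := MonoidHom.toHomUnits
    { toFun := fun M =>
        { toFun := fun F => (Matrix.det (M : Matrix (Fin 2) (Fin 2) k)) ^ e • (M • F)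
          map_add' := fun F G => by rw [smul_add, smul_add]
          map_smul' := fun c F => by
            rw [smul_comm M c F, smul_comm _ c, RingHom.id_apply] }
      map_one' := by
        ext F : 1
        simp
      map_mul' := fun M N => by
        ext F : 1
        simp only [LinearMap.coe_mk, AddHom.coe_mk, Module.End.mul_apply]
        rw [smul_comm M _ (N • F), smul_smul, mul_smul M N F, Matrix.GeneralLinearGroup.coe_mul,
          Matrix.det_mul, mul_pow] }
  have hf : f.comp (Matrix.GeneralLinearGroup.scalar (Fin 2)) = 1 := by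
    ext u F : 3
    have h1 : ((f.comp (Matrix.GeneralLinearGroup.scalar (Fin 2))) u :
        Form k (2 * e) →ₗ[k] Form k (2 * e)) F =
        (Matrix.det ((Matrix.GeneralLinearGroup.scalar (Fin 2) u : GL (Fin 2) k) :
          Matrix (Fin 2) (Fin 2) k)) ^ e • (Matrix.GeneralLinearGroup.scalar (Fin 2) u • F) := rfl
    rw [h1, form_scalar, smul_smul]
    have h2 : Matrix.det ((Matrix.GeneralLinearGroup.scalar (Fin 2) u : GL (Fin 2) k) :
          Matrix (Fin 2) (Fin 2) k) = (u : k) ^ 2 := by
      simp [Matrix.GeneralLinearGroup.coe_scalar, Matrix.det_fin_two, sq]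
    rw [h2]
    have h3 : ((u : k) ^ 2) ^ e * ((u⁻¹ ^ (2 * e) : kˣ) : k) = 1 := by
      rw [← pow_mul, Units.val_pow_eq_pow_val, ← mul_pow, Units.mul_inv, one_pow]
    rw [h3, one_smul]
    rfl
  refine ⟨(Units.coeHom _).comp (Matrix.ProjGenLinGroup.lift f hf), fun M F => ?_⟩
  have h4 : ((Units.coeHom (Form k (2 * e) →ₗ[k] Form k (2 * e))).comp
      (Matrix.ProjGenLinGroup.lift f hf)) (Matrix.ProjGenLinGroup.mk M) =
      (f M : Form k (2 * e) →ₗ[k] Form k (2 * e)) := by
    rw [MonoidHom.comp_apply, Matrix.ProjGenLinGroup.lift_mk]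
    rfl
  rw [h4]
  rfl

/-- Forms of even degree `n = 2 e` as a representation of `PGL₂`. -/
noncomputable def formRep {n e : ℕ} (h : n = 2 * e) : Representation k PGL(2, k) (Form k n) :=
  Classical.choose (exists_form_rep h)

theorem formRep_mk {n e : ℕ} (h : n = 2 * e) (M : GL (Fin 2) k) (F : Form k n) :
    formRep h (Matrix.ProjGenLinGroup.mk M) F =
      (Matrix.det (M : Matrix (Fin 2) (Fin 2) k)) ^ e • (M • F) :=
  Classical.choose_spec (exists_form_rep h) M F

theorem formRep_act {n e : ℕ} (h : n = 2 * e) (H : Subgroup PGL(2, k)) :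
    PRep ((formRep h).comp H.subtype) = FAct.ofPGL H (ℙ k (Form k n)) := by
  have key : ∀ (g : PGL(2, k)) (p : ℙ k (Form k n)),
      Projectivization.map (formRep h g) (rep_inj (formRep h) g) p = g • p := by
    intro g p
    obtain ⟨M, rfl⟩ := Matrix.ProjGenLinGroup.mk_surjective g
    induction p using Projectivization.ind with
    | h F hF =>
      rw [Projectivization.map_mk, form_pgl_mk, Projectivization.mk_eq_mk_iff]
      have hd : Matrix.det (M : Matrix (Fin 2) (Fin 2) k) ≠ 0 :=
        (Matrix.GeneralLinearGroup.det M).ne_zero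
      refine ⟨Units.mk0 _ (pow_ne_zero e hd), ?_⟩
      rw [formRep_mk]
      rfl
  have h2 : (PRep ((formRep h).comp H.subtype)).a = (FAct.ofPGL H (ℙ k (Form k n))).a := by
    funext g p
    exact key g p
  cases hA : PRep ((formRep h).comp H.subtype) with
  | mk a1 _ _ _ =>
    cases hB : FAct.ofPGL H (ℙ k (Form k n)) with
    | mk a2 _ _ _ =>
      rw [hA, hB] at h2
      simp only at h2
      subst h2
      rfl

theorem fcl_ofPGL [MulAction PGL(2, k) X] [DAct k PGL(2, k) X] (H : Subgroup PGL(2, k))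
    (s : Set X) : fcl (FAct.ofPGL H X) s = clq k s (fun x y => ∃ g ∈ H, g • x = y) := by
  refine clq_congr (fun x _ y _ => ?_)
  constructor
  · rintro ⟨g, h⟩
    exact ⟨g.1, g.2, h⟩
  · rintro ⟨g, hg, h⟩
    exact ⟨⟨g, hg⟩, h⟩

end Pool.Agent.MRat
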