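import Pool.Agent.Lib.MP_923aff_ag.FGM
import Pool.Agent.Lib.MP_923aff_ag.FG
import Pool.Agent.Lib.MP_923aff_ag.ICF
/-!
# JOB ICE: absence of fixed points

`ico_orbit_big`: the orbit of a point has `60 / se` elements, and `se (Ico k) x ≤ 5`. `ico_nofix_form`: the set of zeros of a
form which is fixed up to scalars is stable, non-empty and has at most `n < 12` elements.
`perm_nofix`: a vector which is fixed up to scalars by all even permutations of five coordinates: the scalar is a
character of the alternating group, hence trivial on the (commutators of) three-cycles, so the vector is fixed by all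
three-cycles.
-/

set_option autoImplicit false

namespace Pool.Agent.MRat

open scoped MatrixGroups LinearAlgebra.Projectivization

variable {k : Type} [Field k] [IsAlgClosed k] [CharZero k]

private theorem ice_se (p : PL k) : se (Ico k) p ≤ 5 := by
  obtain ⟨p₁, p₂, p₃, h⟩ := ico_tri (k := k)
  by_cases h1 : 1 < se (Ico k) p
  · obtain ⟨g, hg, h2⟩ := h.all p h1
    rcases h2 with h2 | h2 | h2
    · rw [← h2, se_smul hg, h.e₁]; norm_num
    · rw [← h2, se_smul hg, h.e₂]; norm_num
    · rw [← h2, se_smul hg, h.e₃]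
  · omega

theorem ico_orbit_big (p : PL k) (Z : Finset (PL k)) (hZ : ∀ g ∈ Ico k, g • p ∈ Z) :
    12 ≤ Z.card := by
  have h1 := card_orbit_mul_se (Γ := Ico k) p
  rw [ico_card] at h1
  have h2 := ice_se p
  have h3 : Nat.card {x : PL k // ∃ g ∈ Ico k, g • p = x} ≤ Z.card := by
    have h4 : Nat.card {x : PL k // ∃ g ∈ Ico k, g • p = x} ≤ Nat.card Z := by
      refine Nat.card_le_card_of_injective
        (fun x => (⟨x.1, by obtain ⟨g, hg, h⟩ := x.2; rw [← h]; exact hZ g hg⟩ : Z)) ?_
      intro x y h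
      exact Subtype.ext (congrArg (fun z : Z => (z : PL k)) h)
    simpa using h4
  by_contra hlt
  have h5 : Nat.card {x : PL k // ∃ g ∈ Ico k, g • p = x} ≤ 11 := by omega
  have h6 := Nat.mul_le_mul h5 h2
  omega

theorem ico_nofix_form {n : ℕ} (h1 : 1 ≤ n) (hn : n < 12) (p : ℙ k (Form k n)) :
    ∃ g ∈ Ico k, g • p ≠ p := by
  classical
  by_contra hcon
  push_neg at hcon
  induction p using Projectivization.ind with
  | h F hF =>
    have hF0 : F.1 ≠ 0 := fun h => hF (Subtype.ext h)
    obtain ⟨Z, hZc, hZ0, hZ⟩ := Form.zeros_finite F.2 hF0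
    have hex : ∃ v0 : Fin 2 → k, v0 ≠ 0 ∧ F.1 v0 = 0 := by
      obtain ⟨m, rfl⟩ : ∃ m, n = m + 1 := ⟨n - 1, by omega⟩
      exact Form.exists_zero F.2
    obtain ⟨v0, hv0, hFv⟩ := hex
    let Z' : Finset (PL k) := Z.attach.image (fun z => Projectivization.mk k z.1 (hZ0 z.1 z.2))
    have hc : Z'.card ≤ n := by
      refine (Finset.card_image_le).trans ?_
      rw [Finset.card_attach]
      exact hZc
    have h12 := ico_orbit_big (Projectivization.mk k v0 hv0) Z' (fun g hg => ?_)
    · omega
    · obtain ⟨M, rfl⟩ := Matrix.ProjGenLinGroup.mk_surjective g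
      have h1 := hcon _ hg
      rw [form_pgl_mk, Projectivization.mk_eq_mk_iff] at h1
      obtain ⟨c, hc1⟩ := h1
      have h2 : F.1 (M • v0) = 0 := by
        have h3 := congrArg (fun G : Form k n => G.1 (M • v0)) hc1
        have h4 : (c : k) * F.1 (M • v0) = (M • F).1 (M • v0) := h3
        rw [form_gl_apply, inv_smul_smul, hFv] at h4
        exact (mul_eq_zero.1 h4).resolve_left c.ne_zero
      have h3 : M • v0 ≠ 0 := (smul_ne_zero_iff_ne M).2 hv0
      obtain ⟨z, hz, d, hd⟩ := hZ _ h3 h2
      refine Finset.mem_image.2 ⟨⟨z, hz⟩, Finset.mem_attach _ _, ?_⟩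
      have h5 : (Matrix.ProjGenLinGroup.mk M : PGL(2, k)) • Projectivization.mk k v0 hv0 =
          Projectivization.mk k (M • v0) h3 := rfl
      rw [h5, Projectivization.mk_eq_mk_iff']
      have hd0 : d ≠ 0 := by
        rintro rfl
        exact h3 (by rw [hd, zero_smul])
      refine ⟨d⁻¹, ?_⟩
      rw [hd, smul_smul, inv_mul_cancel₀ hd0, one_smul]

/-- The permutation representation of `Equiv.Perm (Fin n)` on `kⁿ`. -/
def permRep (k : Type) [Field k] (n : ℕ) : Representation k (Equiv.Perm (Fin n)) (Fin n → k) where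
  toFun σ := LinearMap.funLeft k k (σ⁻¹ : Equiv.Perm (Fin n))
  map_one' := by ext; simp [LinearMap.funLeft]
  map_mul' σ τ := by ext; simp [LinearMap.funLeft, Equiv.Perm.mul_def]

theorem permRep_apply {n : ℕ} (σ : Equiv.Perm (Fin n)) (x : Fin n → k) (i : Fin n) :
    permRep k n σ x i = x (σ⁻¹ i) := rfl

theorem perm_nofix (x : Fin 5 → k) (hx : ∃ i j, x i ≠ x j) :
    ∃ σ ∈ alternatingGroup (Fin 5), ∀ c : k, permRep k 5 σ x ≠ c • x := by
  by_contra hcon
  push_neg at hcon
  have key : ∀ a b c : Fin 5, a ≠ b → b ≠ c → a ≠ c → ∃ t : k, x a = t * x b ∧ x b = t * x c ∧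
      ∀ d, d ≠ a → d ≠ b → d ≠ c → x d = t * x d := by
    intro a b c hab hbc hac
    have hσ : Equiv.swap a b * Equiv.swap b c ∈ alternatingGroup (Fin 5) := by
      rw [Equiv.Perm.mem_alternatingGroup, Equiv.Perm.sign_mul, Equiv.Perm.sign_swap hab,
        Equiv.Perm.sign_swap hbc]
      rfl
    obtain ⟨t, ht⟩ := hcon _ hσ
    have h1 : ∀ i, x ((Equiv.swap a b * Equiv.swap b c)⁻¹ i) = t * x i := fun i => by
      have := congrFun ht i
      rwa [permRep_apply] at this
    have e : (Equiv.swap a b * Equiv.swap b c)⁻¹ = Equiv.swap b c * Equiv.swap a b := by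
      rw [mul_inv_rev, Equiv.swap_inv, Equiv.swap_inv]
    rw [e] at h1
    refine ⟨t, ?_, ?_, ?_⟩
    · have := h1 b
      rw [Equiv.Perm.mul_apply, Equiv.swap_apply_right, Equiv.swap_apply_of_ne_of_ne hab hac]
        at this
      exact this
    · have := h1 c
      rw [Equiv.Perm.mul_apply, Equiv.swap_apply_of_ne_of_ne hac.symm hbc.symm,
        Equiv.swap_apply_right] at this
      exact this
    · intro d h1a h1b h1c
      have := h1 d
      rw [Equiv.Perm.mul_apply, Equiv.swap_apply_of_ne_of_ne h1a h1b,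
        Equiv.swap_apply_of_ne_of_ne h1b h1c] at this
      exact this
  have ex : ∀ i j d : Fin 5, ∃ l, l ≠ i ∧ l ≠ j ∧ l ≠ d := by decide
  have ex2 : ∀ i j : Fin 5, ∃ l, l ≠ i ∧ l ≠ j := by decide
  have claim : ∀ d, x d ≠ 0 → ∀ i j, i ≠ d → j ≠ d → x i = x j := by
    intro d hd i j hi hj
    by_cases hij : i = j
    · rw [hij]
    · obtain ⟨l, hl1, hl2, hl3⟩ := ex i j d
      obtain ⟨t, h1, -, h3⟩ := key i j l hij hl2.symm hl1.symm
      have h4 := h3 d hi.symm hj.symm hl3.symm
      have h5 : t = 1 := by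
        have h6 : (t - 1) * x d = 0 := by linear_combination -h4
        have h7 := (mul_eq_zero.1 h6).resolve_right hd
        linear_combination h7
      rw [h1, h5, one_mul]
  have main : ∀ i j, x i ≠ x j → x i ≠ 0 → False := by
    intro i j hij hi
    have hne : i ≠ j := fun h => hij (by rw [h])
    by_cases hj : x j = 0
    · obtain ⟨l, hl1, hl2⟩ := ex2 i j
      obtain ⟨t, h1, -, -⟩ := key i j l hne hl2.symm hl1.symm
      rw [hj, mul_zero] at h1
      exact hi h1
    · obtain ⟨l, hl1, hl2⟩ := ex2 i j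
      have h1 := claim i hi j l hne.symm hl1
      have h2 := claim j hj i l hne hl2
      exact hij (h2.trans h1.symm)
  obtain ⟨i, j, hij⟩ := hx
  by_cases hi : x i = 0
  · exact main j i hij.symm (fun h => hij (by rw [hi, h]))
  · exact main i j hij hi

end Pool.Agent.MRat
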