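import Pool.Agent.Lib.MP_923aff_ag.ICF
import Pool.Agent.Lib.MP_923aff_ag.FGM
/-!
# JOB KLA: Klein's invariants of the icosahedral group on binary quadratic forms

A quadratic form is written `q = a1 x² + 2 a0 x y - a2 y²`, `x = v 0`, `y = v 1`.
For two independent vectors `u, v` let `lam u v q = B_q(u, v)² / det(u, v)²` where `B_q` is the polar form; it only depends on the
two points of the projective line, and `lam u v (ρ M q) = lam (M⁻¹ u) (M⁻¹ v) q`. The six axes of the icosahedron are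
`{(1,0), (0,1)}` and `{(ζ^j α, 1), (ζ^j β, 1)}` with `ζ` a primitive fifth root of unity, `α ^ 2 + α = 1`, `α + β = -1`,
`α β = -1` (the twelve points are `icoRab 11 (-1)`, and the axis of a point is the fixed pair of its stabiliser, so `Ico`
permutes the axes; `ico_trans`, `ico_se5`). `lam` is `a0²` for the first axis and `(a0 + ζ^j a1 + ζ^(-j) a2)² / 5` for the others. The identity
`klein_identity` says that `kPhi T A B C = 3125 * ∏ (T - (A - lam_i))` over the six axes, so this product, hence (compare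
coefficients) `B` and `C`, are invariant; `A` is a multiple of the discriminant.
-/

set_option autoImplicit false
set_option linter.unusedSectionVars false

namespace Pool.Agent.MRat

open scoped MatrixGroups LinearAlgebra.Projectivization

variable {k : Type} [Field k] [IsAlgClosed k] [CharZero k]

/-- The coordinates `a0, a1, a2`. -/
noncomputable def kco (F : Form k 2) : Fin 3 → k :=
  ![coeffE k 2 F 1 / 2, coeffE k 2 F 2, -coeffE k 2 F 0]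

section
variable {K : Type} [Field K]

def kA (a0 a1 a2 : K) : K := a0 ^ 2 + a1 * a2

def kB (a0 a1 a2 : K) : K :=
  8 * a0 ^ 4 * a1 * a2 - 2 * a0 ^ 2 * a1 ^ 2 * a2 ^ 2 + a1 ^ 3 * a2 ^ 3 - a0 * (a1 ^ 5 + a2 ^ 5)

def kC (a0 a1 a2 : K) : K :=
  320 * a0 ^ 6 * a1 ^ 2 * a2 ^ 2 - 160 * a0 ^ 4 * a1 ^ 3 * a2 ^ 3 + 20 * a0 ^ 2 * a1 ^ 4 * a2 ^ 4 +
    6 * a1 ^ 5 * a2 ^ 5 - 4 * a0 * (a1 ^ 5 + a2 ^ 5) * (32 * a0 ^ 4 - 20 * a0 ^ 2 * a1 * a2 +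
      5 * a1 ^ 2 * a2 ^ 2) + a1 ^ 10 + a2 ^ 10

def kq (T A B : K) : K := 11 * T ^ 3 - 18 * A * T ^ 2 + 8 * A ^ 2 * T - B

def kG (T A B : K) : K :=
  -(320 * (A - T) ^ 3 * T ^ 2 - 160 * (A - T) ^ 2 * T ^ 3 + 20 * (A - T) * T ^ 4 + 4 * T ^ 5 -
    4 * kq T A B * (32 * (A - T) ^ 2 - 20 * (A - T) * T + 5 * T ^ 2))

/-- The sextic. -/
def kPhi (T A B C : K) : K := kq T A B ^ 2 - (A - T) * (C + kG T A B)

/-- `∏ (a + ζ^j b + ζ^(-j) c)`. -/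
def kN (a b c : K) : K := a ^ 5 + b ^ 5 + c ^ 5 - 5 * a ^ 3 * b * c + 5 * a * b ^ 2 * c ^ 2

/-- `kN (a - v) b c * kN (a + v) b c` as a polynomial in `w = v ^ 2`. -/
def kNN (a b c w : K) : K :=
  kN a b c ^ 2 +
    w * (-5 * a ^ 8 + 20 * a ^ 6 * b * c - 25 * a ^ 4 * b ^ 2 * c ^ 2 +
      20 * a ^ 3 * (b ^ 5 + c ^ 5) - 30 * a * b * c * (b ^ 5 + c ^ 5) - 25 * b ^ 4 * c ^ 4) +
    w ^ 2 * (10 * a ^ 6 + 25 * a ^ 2 * b ^ 2 * c ^ 2 + 10 * a * (b ^ 5 + c ^ 5) +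
      50 * b ^ 3 * c ^ 3) +
    w ^ 3 * (-10 * a ^ 4 - 20 * a ^ 2 * b * c - 35 * b ^ 2 * c ^ 2) +
    w ^ 4 * (5 * a ^ 2 + 10 * b * c) - w ^ 5

theorem kN_mul (a b c v : K) : kN (a - v) b c * kN (a + v) b c = kNN a b c (v ^ 2) := by
  simp only [kN, kNN]; ring

/-- Klein's identity. -/
theorem klein_identity (T a0 a1 a2 : K) :
    (T - kA a0 a1 a2 + a0 ^ 2) * kNN a0 a1 a2 (5 * (kA a0 a1 a2 - T)) =
      kPhi T (kA a0 a1 a2) (kB a0 a1 a2) (kC a0 a1 a2) := by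
  simp only [kNN, kN, kPhi, kG, kq, kA, kB, kC]; ring

/-- The linear factors of `kN`. -/
theorem kN_factor {ζ : K} (h : 1 + ζ + ζ ^ 2 + ζ ^ 3 + ζ ^ 4 = 0) (a b c : K) :
    kN a b c = (a + b + c) * (a + ζ * b + ζ ^ 4 * c) * (a + ζ ^ 2 * b + ζ ^ 3 * c) *
      (a + ζ ^ 3 * b + ζ ^ 2 * c) * (a + ζ ^ 4 * b + ζ * c) := by
  unfold kN
  linear_combination (
      (1)*c^5 + (1)*b^5 + (5)*a^1*b^2*c^2 + (-5)*a^3*b^1*c^1 + (-1)*a^4*c^1 + (-1)*a^4*b^1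
      + (-1)*ζ^1*c^5 + (-1)*ζ^1*b^5 + (-5)*ζ^1*a^1*b^2*c^2 + (-1)*ζ^1*a^3*c^2
      + (3)*ζ^1*a^3*b^1*c^1 + (-1)*ζ^1*a^3*b^2 + (-1)*ζ^2*a^2*b^1*c^2 + (-1)*ζ^2*a^2*b^2*c^1
      + (-1)*ζ^2*a^3*b^1*c^1 + (-1)*ζ^3*a^2*c^3 + (-2)*ζ^3*a^2*b^1*c^2 + (-2)*ζ^3*a^2*b^2*c^1
      + (-1)*ζ^3*a^2*b^3 + (-1)*ζ^3*a^3*c^2 + (-1)*ζ^3*a^3*b^1*c^1 + (-1)*ζ^3*a^3*b^2
      + (-1)*ζ^4*a^1*b^1*c^3 + (-2)*ζ^4*a^1*b^2*c^2 + (-1)*ζ^4*a^1*b^3*c^1
      + (-2)*ζ^4*a^2*b^1*c^2 + (-2)*ζ^4*a^2*b^2*c^1 + (-1)*ζ^4*a^3*b^1*c^1 + (1)*ζ^5*c^5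
      + (1)*ζ^5*b^5 + (-1)*ζ^5*a^1*b^1*c^3 + (3)*ζ^5*a^1*b^2*c^2 + (-1)*ζ^5*a^1*b^3*c^1
      + (-1)*ζ^5*a^2*c^3 + (1)*ζ^5*a^2*b^1*c^2 + (1)*ζ^5*a^2*b^2*c^1 + (-1)*ζ^5*a^2*b^3
      + (-1)*ζ^6*c^5 + (-1)*ζ^6*b^2*c^3 + (-1)*ζ^6*b^3*c^2 + (-1)*ζ^6*b^5 + (-1)*ζ^6*a^1*c^4
      + (-4)*ζ^6*a^1*b^2*c^2 + (-1)*ζ^6*a^1*b^4 + (-1)*ζ^6*a^2*b^1*c^2 + (-1)*ζ^6*a^2*b^2*c^1
      + (-1)*ζ^7*b^1*c^4 + (-1)*ζ^7*b^4*c^1 + (-2)*ζ^7*a^1*b^1*c^3 + (-1)*ζ^7*a^1*b^2*c^2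
      + (-2)*ζ^7*a^1*b^3*c^1 + (-1)*ζ^7*a^2*b^1*c^2 + (-1)*ζ^7*a^2*b^2*c^1 + (1)*ζ^8*b^1*c^4
      + (1)*ζ^8*b^4*c^1 + (1)*ζ^8*a^1*b^1*c^3 + (-1)*ζ^8*a^1*b^2*c^2 + (1)*ζ^8*a^1*b^3*c^1
      + (-1)*ζ^9*b^1*c^4 + (-1)*ζ^9*b^4*c^1 + (-1)*ζ^9*a^1*b^1*c^3 + (1)*ζ^9*a^1*b^2*c^2
      + (-1)*ζ^9*a^1*b^3*c^1 + (-1)*ζ^10*b^2*c^3 + (-1)*ζ^10*b^3*c^2 + (-1)*ζ^10*a^1*b^2*c^2) * h

/-- The sum `a1 ^ 5 + a2 ^ 5` in terms of `e = a1 + a2` and `m = a1 a2`. -/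
private theorem KLA_kB (a0 a1 a2 : K) :
    kB a0 a1 a2 = 8 * a0 ^ 4 * (a1 * a2) - 2 * a0 ^ 2 * (a1 * a2) ^ 2 + (a1 * a2) ^ 3 -
      a0 * (a1 + a2) * ((a1 + a2) ^ 4 - 5 * (a1 + a2) ^ 2 * (a1 * a2) + 5 * (a1 * a2) ^ 2) := by
  unfold kB; ring

private theorem KLA_kC (a0 a1 a2 : K) :
    kC a0 a1 a2 = 320 * a0 ^ 6 * (a1 * a2) ^ 2 - 160 * a0 ^ 4 * (a1 * a2) ^ 3 +
      20 * a0 ^ 2 * (a1 * a2) ^ 4 + 4 * (a1 * a2) ^ 5 -
      4 * (a0 * (a1 + a2)) * ((a1 + a2) ^ 4 - 5 * (a1 + a2) ^ 2 * (a1 * a2) +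
        5 * (a1 * a2) ^ 2) * (32 * a0 ^ 4 - 20 * a0 ^ 2 * (a1 * a2) + 5 * (a1 * a2) ^ 2) +
      (a1 + a2) ^ 2 * ((a1 + a2) ^ 4 - 5 * (a1 + a2) ^ 2 * (a1 * a2) + 5 * (a1 * a2) ^ 2) ^ 2 := by
  unfold kC; ring

/-- the invariants as functions of `P = a0 ^ 2`, `Q = a0 (a1 + a2)`, `R = (a1 + a2) ^ 2`,
`m = a1 a2` -/
private def KLA_FB (P Q R m : K) : K :=
  8 * P ^ 2 * m - 2 * P * m ^ 2 + m ^ 3 - Q * (R ^ 2 - 5 * R * m + 5 * m ^ 2)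

private def KLA_FC (P Q R m : K) : K :=
  320 * P ^ 3 * m ^ 2 - 160 * P ^ 2 * m ^ 3 + 20 * P * m ^ 4 + 4 * m ^ 5 -
    4 * Q * (R ^ 2 - 5 * R * m + 5 * m ^ 2) * (32 * P ^ 2 - 20 * P * m + 5 * m ^ 2) +
    R * (R ^ 2 - 5 * R * m + 5 * m ^ 2) ^ 2

private theorem KLA_kB' (a0 a1 a2 : K) :
    kB a0 a1 a2 = KLA_FB (a0 ^ 2) (a0 * (a1 + a2)) ((a1 + a2) ^ 2) (a1 * a2) := by
  rw [KLA_kB]; unfold KLA_FB; ring

private theorem KLA_kC' (a0 a1 a2 : K) :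
    kC a0 a1 a2 = KLA_FC (a0 ^ 2) (a0 * (a1 + a2)) ((a1 + a2) ^ 2) (a1 * a2) := by
  rw [KLA_kC]; unfold KLA_FC; ring

private theorem KLA_FB_inv (h5 : (5 : K) ≠ 0) (a e m : K) :
    KLA_FB ((a + e) ^ 2 / 5) ((a + e) * (4 * a - e) / 5) ((4 * a - e) ^ 2 / 5)
      (a ^ 2 + m - (a + e) ^ 2 / 5) = KLA_FB (a ^ 2) (a * e) (e ^ 2) m := by
  unfold KLA_FB
  field_simp
  ring

private theorem KLA_FC_inv (h5 : (5 : K) ≠ 0) (a e m : K) :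
    KLA_FC ((a + e) ^ 2 / 5) ((a + e) * (4 * a - e) / 5) ((4 * a - e) ^ 2 / 5)
      (a ^ 2 + m - (a + e) ^ 2 / 5) = KLA_FC (a ^ 2) (a * e) (e ^ 2) m := by
  unfold KLA_FC
  field_simp
  ring

/-- Invariance under the substitution of order two. -/
private theorem KLA_sub (h5 : (5 : K) ≠ 0) {a0 a1 a2 b0 b1 b2 : K}
    (hA : b0 ^ 2 + b1 * b2 = a0 ^ 2 + a1 * a2)
    (hP : b0 ^ 2 = (a0 + (a1 + a2)) ^ 2 / 5)
    (hQ : b0 * (b1 + b2) = (a0 + (a1 + a2)) * (4 * a0 - (a1 + a2)) / 5)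
    (hR : (b1 + b2) ^ 2 = (4 * a0 - (a1 + a2)) ^ 2 / 5) :
    kA b0 b1 b2 = kA a0 a1 a2 ∧ kB b0 b1 b2 = kB a0 a1 a2 ∧ kC b0 b1 b2 = kC a0 a1 a2 := by
  have hm : b1 * b2 = a0 ^ 2 + a1 * a2 - (a0 + (a1 + a2)) ^ 2 / 5 := by
    rw [← hP, ← hA]; ring
  refine ⟨hA, ?_, ?_⟩
  · rw [KLA_kB', KLA_kB', hP, hQ, hR, hm, KLA_FB_inv h5]
  · rw [KLA_kC', KLA_kC', hP, hQ, hR, hm, KLA_FC_inv h5]

end

/-- The three invariants. -/
noncomputable def kInv (F : Form k 2) : Fin 3 → k :=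
  ![kA (kco F 0) (kco F 1) (kco F 2), kB (kco F 0) (kco F 1) (kco F 2),
    kC (kco F 0) (kco F 1) (kco F 2)]

/-- Quadratic forms as a representation of `PGL₂`. -/
noncomputable abbrev ρ2 (k : Type) [Field k] [IsAlgClosed k] [CharZero k] :
    Representation k PGL(2, k) (Form k 2) := formRep (n := 2) (e := 1) rfl

theorem kco_dm : DM k (kco : Form k 2 → Fin 3 → k) := by
  unfold kco
  refine DM.pi (fun i => ?_)
  fin_cases i <;> simp <;> fun_prop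

theorem kco_inj : Function.Injective (kco : Form k 2 → Fin 3 → k) := by
  intro F G h
  have h0 := congrFun h 0
  have h1 := congrFun h 1
  have h2 := congrFun h 2
  simp only [kco, Matrix.cons_val_zero, Matrix.cons_val_one, Matrix.cons_val_two,
    Matrix.head_cons, Matrix.tail_cons] at h0 h1 h2
  apply (coeffE k 2).injective
  funext i
  fin_cases i
  · exact neg_injective h2
  · exact (div_left_inj' two_ne_zero).1 h0
  · exact h1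

theorem kco_surj (a : Fin 3 → k) : ∃ F : Form k 2, kco F = a := by
  refine ⟨Form.of ![-a 2, 2 * a 0, a 1], ?_⟩
  have e : coeffE k 2 (Form.of ![-a 2, 2 * a 0, a 1]) = ![-a 2, 2 * a 0, a 1] :=
    (coeffE k 2).apply_symm_apply _
  unfold kco
  rw [e]
  funext i
  fin_cases i <;> simp

theorem kco_smul (c : k) (F : Form k 2) : kco (c • F) = c • kco F := by
  unfold kco
  rw [map_smul]
  funext i
  fin_cases i <;> simp [mul_div_assoc]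

theorem kInv_dm : DM k (kInv : Form k 2 → Fin 3 → k) := by
  have h := kco_dm (k := k)
  unfold kInv kA kB kC
  refine DM.pi (fun i => ?_)
  fin_cases i <;> simp <;> fun_prop

theorem kInv_smul (c : k) (F : Form k 2) :
    kInv (c • F) = ![c ^ 2 * kInv F 0, c ^ 6 * kInv F 1, c ^ 10 * kInv F 2] := by
  unfold kInv
  rw [kco_smul]
  funext i
  fin_cases i
  · simp [kA]; ring
  · simp [kB]; ring
  · simp [kC]; ring

/-- values of a quadratic form in terms of the coordinates -/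
private theorem KLA_apply (F : Form k 2) (v : Fin 2 → k) :
    F.1 v = kco F 1 * v 0 ^ 2 + 2 * kco F 0 * v 0 * v 1 - kco F 2 * v 1 ^ 2 := by
  rw [form_eq]
  simp [kco, Fin.sum_univ_succ]
  ring

private theorem KLA_kco_of (G : Form k 2) (b0 b1 b2 : k)
    (h : ∀ v : Fin 2 → k, G.1 v = b1 * v 0 ^ 2 + 2 * b0 * v 0 * v 1 - b2 * v 1 ^ 2) :
    kco G 0 = b0 ∧ kco G 1 = b1 ∧ kco G 2 = b2 := by
  have h1 := h ![1, 0]
  have h2 := h ![0, 1]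
  have h3 := h ![1, 1]
  rw [KLA_apply] at h1 h2 h3
  simp at h1 h2 h3
  refine ⟨?_, h1, h2⟩
  rw [h1, h2] at h3
  have h4 : 2 * (kco G 0 - b0) = 0 := by linear_combination h3
  exact sub_eq_zero.1 ((mul_eq_zero.1 h4).resolve_left two_ne_zero)

private theorem KLA_rho (a b c d : k) (h : a * d - b * c ≠ 0) (F : Form k 2) (v : Fin 2 → k) :
    (ρ2 k (gm a b c d h) F).1 v =
      (a * d - b * c)⁻¹ * F.1 ![d * v 0 - b * v 1, -c * v 0 + a * v 1] := by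
  have hdet : Matrix.det ((glm a b c d h : GL (Fin 2) k) : Matrix (Fin 2) (Fin 2) k) =
      a * d - b * c := by
    simp [glm, Matrix.det_fin_two]
  have hinv : (glm a b c d h)⁻¹ • v =
      (a * d - b * c)⁻¹ • ![d * v 0 - b * v 1, -c * v 0 + a * v 1] := by
    rw [inv_smul_eq_iff]
    funext i
    rw [FORMA_gl_smul]
    fin_cases i
    · simp [glm]
      field_simp
      ring
    · have e : (a * d - b * c)⁻¹ * (a * d - b * c) = 1 := inv_mul_cancel₀ h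
      simp [glm]
      linear_combination (-v 1) * e
  unfold ρ2 gm
  rw [formRep_mk, hdet, pow_one]
  change (a * d - b * c) * (glm a b c d h • F).1 v = _
  rw [form_gl_apply, hinv, form_smul]
  field_simp

private theorem KLA_kco (a b c d : k) (h : a * d - b * c ≠ 0) (F : Form k 2) :
    kco (ρ2 k (gm a b c d h) F) 0 = (a * d - b * c)⁻¹ * (-kco F 1 * b * d +
      kco F 0 * (a * d + b * c) + kco F 2 * a * c) ∧
    kco (ρ2 k (gm a b c d h) F) 1 = (a * d - b * c)⁻¹ * (kco F 1 * d ^ 2 - 2 * kco F 0 * c * d -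
      kco F 2 * c ^ 2) ∧
    kco (ρ2 k (gm a b c d h) F) 2 = -((a * d - b * c)⁻¹ * (kco F 1 * b ^ 2 -
      2 * kco F 0 * a * b - kco F 2 * a ^ 2)) := by
  apply KLA_kco_of
  intro v
  rw [KLA_rho, KLA_apply]
  simp only [Matrix.cons_val_zero, Matrix.cons_val_one]
  ring

/-- `kInv` is invariant under `g`. -/
private def KLA_S (k : Type) [Field k] [IsAlgClosed k] [CharZero k] : Submonoid PGL(2, k) where
  carrier := {g | ∀ F : Form k 2, kInv (ρ2 k g F) = kInv F}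
  one_mem' := fun F => by rw [map_one]; rfl
  mul_mem' := fun {g h} hg hh F => by
    rw [map_mul]
    change kInv (ρ2 k g (ρ2 k h F)) = kInv F
    rw [hg, hh]

private theorem KLA_mem {g : PGL(2, k)} (h : ∀ F : Form k 2,
    kA (kco (ρ2 k g F) 0) (kco (ρ2 k g F) 1) (kco (ρ2 k g F) 2) =
      kA (kco F 0) (kco F 1) (kco F 2) ∧
    kB (kco (ρ2 k g F) 0) (kco (ρ2 k g F) 1) (kco (ρ2 k g F) 2) =
      kB (kco F 0) (kco F 1) (kco F 2) ∧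
    kC (kco (ρ2 k g F) 0) (kco (ρ2 k g F) 1) (kco (ρ2 k g F) 2) =
      kC (kco F 0) (kco F 1) (kco F 2)) : g ∈ KLA_S k := by
  intro F
  obtain ⟨h1, h2, h3⟩ := h F
  unfold kInv
  rw [h1, h2, h3]

private theorem KLA_tor {t : kˣ} (ht : t ^ 5 = 1) : tor t ∈ KLA_S k := by
  apply KLA_mem
  intro F
  have ht' : (t : k) ^ 5 = 1 := by
    have := congrArg (fun u : kˣ => (u : k)) ht
    simpa using this
  have ht0 : (t : k) ≠ 0 := t.ne_zero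
  have hti : ((t : k)⁻¹) ^ 5 = 1 := by rw [inv_pow, ht', inv_one]
  have hti' : (t : k)⁻¹ * t = 1 := inv_mul_cancel₀ ht0
  unfold tor
  obtain ⟨e0, e1, e2⟩ := KLA_kco (t : k) 0 0 1 (by simp) F
  rw [e0, e1, e2]
  have f0 : ((t : k) * 1 - 0 * 0)⁻¹ * (-kco F 1 * 0 * 1 + kco F 0 * (t * 1 + 0 * 0) +
      kco F 2 * t * 0) = kco F 0 := by
    field_simp
    ring
  have f1 : ((t : k) * 1 - 0 * 0)⁻¹ * (kco F 1 * 1 ^ 2 - 2 * kco F 0 * 0 * 1 -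
      kco F 2 * 0 ^ 2) = (t : k)⁻¹ * kco F 1 := by
    simp
  have f2 : -(((t : k) * 1 - 0 * 0)⁻¹ * (kco F 1 * 0 ^ 2 - 2 * kco F 0 * t * 0 -
      kco F 2 * t ^ 2)) = t * kco F 2 := by
    field_simp
    ring
  rw [f0, f1, f2]
  generalize kco F 0 = x
  generalize kco F 1 = y
  generalize kco F 2 = z
  have g1 : ((t : k)⁻¹ * y) * (t * z) = y * z := by
    linear_combination (y * z) * hti'
  have g2 : ((t : k)⁻¹ * y) ^ 5 = y ^ 5 := by rw [mul_pow, hti, one_mul]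
  have g3 : ((t : k) * z) ^ 5 = z ^ 5 := by rw [mul_pow, ht', one_mul]
  have g4 : kB x ((t : k)⁻¹ * y) (t * z) = 8 * x ^ 4 * (((t : k)⁻¹ * y) * (t * z)) -
      2 * x ^ 2 * (((t : k)⁻¹ * y) * (t * z)) ^ 2 + (((t : k)⁻¹ * y) * (t * z)) ^ 3 -
      x * (((t : k)⁻¹ * y) ^ 5 + ((t : k) * z) ^ 5) := by
    unfold kB; ring
  have g5 : kC x ((t : k)⁻¹ * y) (t * z) = 320 * x ^ 6 * (((t : k)⁻¹ * y) * (t * z)) ^ 2 -
      160 * x ^ 4 * (((t : k)⁻¹ * y) * (t * z)) ^ 3 +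
      20 * x ^ 2 * (((t : k)⁻¹ * y) * (t * z)) ^ 4 +
      6 * (((t : k)⁻¹ * y) ^ 5 * (t * z) ^ 5) -
      4 * x * (((t : k)⁻¹ * y) ^ 5 + ((t : k) * z) ^ 5) *
        (32 * x ^ 4 - 20 * x ^ 2 * (((t : k)⁻¹ * y) * (t * z)) +
        5 * (((t : k)⁻¹ * y) * (t * z)) ^ 2) + (((t : k)⁻¹ * y) ^ 5) ^ 2 +
      (((t : k) * z) ^ 5) ^ 2 := by
    unfold kC; ring
  refine ⟨?_, ?_, ?_⟩
  · unfold kA
    rw [g1]
  · rw [g4, g1, g2, g3]
    unfold kB; ring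
  · rw [g5, g1, g2, g3]
    unfold kC; ring

private theorem KLA_inv : gm (0 : k) (-1) 1 0 (by simp) ∈ KLA_S k := by
  apply KLA_mem
  intro F
  obtain ⟨e0, e1, e2⟩ := KLA_kco (0 : k) (-1) 1 0 (by simp) F
  rw [e0, e1, e2]
  have f0 : ((0 : k) * 0 - (-1) * 1)⁻¹ * (-kco F 1 * (-1) * 0 + kco F 0 * (0 * 0 + (-1) * 1) +
      kco F 2 * 0 * 1) = -kco F 0 := by
    norm_num
  have f1 : ((0 : k) * 0 - (-1) * 1)⁻¹ * (kco F 1 * 0 ^ 2 - 2 * kco F 0 * 1 * 0 -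
      kco F 2 * 1 ^ 2) = -kco F 2 := by
    norm_num
  have f2 : -(((0 : k) * 0 - (-1) * 1)⁻¹ * (kco F 1 * (-1) ^ 2 - 2 * kco F 0 * 0 * (-1) -
      kco F 2 * 0 ^ 2)) = -kco F 1 := by
    norm_num
  rw [f0, f1, f2]
  unfold kA kB kC
  refine ⟨by ring, by ring, by ring⟩

private theorem KLA_alp_rho {alp : k} (h : alp ^ 2 + alp = 1) (h' : alp * (-alp) - 1 * 1 ≠ 0) :
    gm alp 1 1 (-alp) h' ∈ KLA_S k := by
  apply KLA_mem
  intro F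
  obtain ⟨e0, e1, e2⟩ := KLA_kco alp 1 1 (-alp) h' F
  have hD : alp * (-alp) - 1 * 1 = alp - 2 := by linear_combination -h
  rw [hD] at h' e0 e1 e2
  rw [e0, e1, e2]
  generalize kco F 0 = x
  generalize kco F 1 = y
  generalize kco F 2 = z
  have hsq : (alp - 2) ^ 2 = 5 * alp ^ 2 := by linear_combination (-4) * h
  have h5 : (5 : k) ≠ 0 := by norm_num
  have halp : alp ≠ 0 := by rintro rfl; norm_num at h
  -- `w = alp / (alp - 2)`, `w ^ 2 = 1 / 5`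
  have hw : (alp * (alp - 2)⁻¹) ^ 2 = 1 / 5 := by
    rw [mul_pow, inv_pow, hsq]
    field_simp
  have f0 : (alp - 2)⁻¹ * (-y * 1 * -alp + x * (alp * -alp + 1 * 1) + z * alp * 1) =
      (alp * (alp - 2)⁻¹) * (x + (y + z)) := by
    linear_combination (-(alp - 2)⁻¹ * x) * h
  have f12 : (alp - 2)⁻¹ * (y * (-alp) ^ 2 - 2 * x * 1 * -alp - z * 1 ^ 2) +
      -((alp - 2)⁻¹ * (y * 1 ^ 2 - 2 * x * alp * 1 - z * alp ^ 2)) =
      (alp * (alp - 2)⁻¹) * (4 * x - (y + z)) := by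
    linear_combination ((alp - 2)⁻¹ * (y + z)) * h
  have f3 : ((alp - 2)⁻¹ * (-y * 1 * -alp + x * (alp * -alp + 1 * 1) + z * alp * 1)) ^ 2 +
      ((alp - 2)⁻¹ * (y * (-alp) ^ 2 - 2 * x * 1 * -alp - z * 1 ^ 2)) *
      (-((alp - 2)⁻¹ * (y * 1 ^ 2 - 2 * x * alp * 1 - z * alp ^ 2))) = x ^ 2 + y * z := by
    have hu : ((alp - 2)⁻¹) ^ 2 * (5 * alp ^ 2) = 1 := by
      rw [← hsq, ← mul_pow, inv_mul_cancel₀ h', one_pow]
    linear_combination (((alp - 2)⁻¹) ^ 2 * (alp ^ 2 - alp - 1) * (x ^ 2 + y * z)) * h +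
      (x ^ 2 + y * z) * hu
  refine KLA_sub h5 f3 ?_ ?_ ?_
  · rw [f0, mul_pow, hw]; ring
  · rw [f12, f0]
    linear_combination ((x + (y + z)) * (4 * x - (y + z))) * hw
  · rw [f12, mul_pow, hw]; ring

private theorem KLA_exists_alp : ∃ alp : k, alp ^ 2 + alp = 1 := by
  obtain ⟨z, hz⟩ := IsAlgClosed.exists_root (Polynomial.X ^ 2 + Polynomial.X - 1 : Polynomial k) (by
    have : (Polynomial.X ^ 2 + Polynomial.X - 1 : Polynomial k).degree = 2 := by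
      compute_degree!
    rw [this]
    decide)
  refine ⟨z, ?_⟩
  have : z ^ 2 + z - 1 = 0 := by simpa using hz
  linear_combination this

private theorem KLA_det {alp : k} (h : alp ^ 2 + alp = 1) : alp * (-alp) - 1 * 1 ≠ 0 := by
  intro h0
  have h1 : alp = 2 := by linear_combination h + h0
  rw [h1] at h
  norm_num at h

private theorem KLA_ne {alp : k} (h : alp ^ 2 + alp = 1) : alp ≠ 0 := by
  rintro rfl
  norm_num at h

private theorem KLA_pow5 {alp : k} (h : alp ^ 2 + alp = 1) : alp ^ 5 = 5 * alp - 3 := by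
  linear_combination (alp ^ 3 - alp ^ 2 + 2 * alp - 3) * h

private theorem KLA_trho {alp z : k} (h : alp ^ 2 + alp = 1) (hz : z ^ 5 = alp ^ 5) :
    ∃ g ∈ KLA_S k, g ∈ Ico k ∧ g • ptI k = ptz z := by
  have h0 := KLA_ne h
  have hz0 : z ≠ 0 := by
    rintro rfl
    have : alp ^ 5 = 0 := by rw [← hz]; norm_num
    exact h0 (pow_eq_zero_iff (by norm_num) |>.1 this)
  have h1 : (Units.mk0 (z / alp) (div_ne_zero hz0 h0)) ^ 5 = 1 := by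
    apply Units.ext
    simp only [Units.val_pow_eq_pow_val, Units.val_mk0, Units.val_one, div_pow, hz]
    exact div_self (pow_ne_zero _ h0)
  refine ⟨tor (Units.mk0 (z / alp) (div_ne_zero hz0 h0)) * gm alp 1 1 (-alp) (KLA_det h),
    (KLA_S k).mul_mem (KLA_tor h1) (KLA_alp_rho h _),
    (Ico k).mul_mem (tor_mem_ico h1) (rho_mem_ico h _), ?_⟩
  rw [mul_smul, gm_smul_ptI _ one_ne_zero, tor_smul_ptz]
  congr 1
  simp only [Units.val_mk0]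
  field_simp

private theorem KLA_trans {p : PL k} (hp : p ∈ icoRab (11 : k) (-1)) :
    ∃ g ∈ KLA_S k, g ∈ Ico k ∧ g • ptI k = p := by
  rcases hp with rfl | ⟨z, rfl, hz⟩
  · exact ⟨1, (KLA_S k).one_mem, (Ico k).one_mem, one_smul _ _⟩
  · rcases mul_eq_zero.1 hz with rfl | hz
    · refine ⟨gm (0 : k) (-1) 1 0 (by simp), KLA_inv, inv_mem_ico, ?_⟩
      rw [gm_smul_ptI _ one_ne_zero]
      simp
    · obtain ⟨alp, h⟩ := KLA_exists_alp (k := k)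
      have hbet : (-1 - alp) ^ 2 + (-1 - alp) = 1 := by linear_combination h
      have e1 := KLA_pow5 h
      have e2 := KLA_pow5 hbet
      have e : (z ^ 5 - alp ^ 5) * (z ^ 5 - (-1 - alp) ^ 5) = 0 := by
        rw [e1, e2]
        linear_combination hz - 25 * h
      rcases mul_eq_zero.1 e with e | e
      · exact KLA_trho h (sub_eq_zero.1 e)
      · exact KLA_trho hbet (sub_eq_zero.1 e)

/-- Invariance under the icosahedral group. -/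
theorem klein_inv {g : PGL(2, k)} (hg : g ∈ Ico k) (F : Form k 2) :
    kInv (ρ2 k g F) = kInv F := by
  have h1 : g • ptI k ∈ icoRab (11 : k) (-1) := (mem_Ico.1 hg _).2 (Or.inl rfl)
  obtain ⟨h, hS, hI, h2⟩ := KLA_trans h1
  have h3 : (h⁻¹ * g) • ptI k = ptI k := by
    rw [mul_smul, ← h2, inv_smul_smul]
  obtain ⟨t, ht, h4⟩ := ico_stab ((Ico k).mul_mem ((Ico k).inv_mem hI) hg) h3
  have h5 : g = h * tor t := by rw [← h4, mul_inv_cancel_left]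
  have h6 : g ∈ KLA_S k := by
    rw [h5]
    exact (KLA_S k).mul_mem hS (KLA_tor ht)
  exact h6 F

end Pool.Agent.MRat
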