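import Pool.Agent.Lib.MP_923aff_ag.KLA
/-!
# JOB KLB: the fibres of Klein's map and its surjectivity

`klein_fib`: by `klein_identity` (for both forms, the same sextic) the value `λ = a0²` of the first axis for `F'` is one of the
six values `lam_i` of `F`: either `a0²`, or `(a0 + ζ^j a1 + ζ^(-j) a2)² / 5`; moving `F` by an element of `Ico` which maps the
corresponding axis to the first one (`rho_mem_ico`, `tor_mem_ico`; see the header of KLA) we may assume `a0'² = a0²`. Replacing `F` by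
`-F`: `a0' = a0`. Then `a1' a2' = a1 a2` (`kA`), `a0 (a1⁵ + a2⁵)` and `(a1⁵ + a2⁵)²` agree (`kB`, `kC`), so `a1'⁵ + a2'⁵ = ± (a1⁵ + a2⁵)` with the
minus sign only for `a0 = 0`, where `F` may be replaced by `-F` again. So `{a1'⁵, a2'⁵} = {a1⁵, a2⁵}`; the element
`inv_mem_ico` maps `(a0, a1, a2)` to `(-a0, -a2, -a1)` or similar (compute it), and `tor_mem_ico` multiplies `a1` by `ζ` and `a2` by `ζ⁻¹`.
`klein_surj`: choose a root `T` of `kPhi T A B C` (degree six with leading coefficient `3125`), `a0` with `a0² = A - T`, then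
`s` with `a0 s = kq T A B` and `s² = C + kG T A B`, then `a1, a2` with `a1 a2 = T`, `a1⁵ + a2⁵ = s`.
-/

set_option autoImplicit false

namespace Pool.Agent.MRat

open scoped MatrixGroups LinearAlgebra.Projectivization

variable {k : Type} [Field k] [IsAlgClosed k] [CharZero k]

private theorem KLB_coeff {G : Form k 2} {c : Fin 3 → k}
    (h : ∀ v, G.1 v = c 0 * v 1 ^ 2 + c 1 * (v 0 * v 1) + c 2 * v 0 ^ 2) : coeffE k 2 G = c := by
  have e : G = Form.of c := by
    apply Subtype.ext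
    funext v
    rw [h v, Form.of_apply]
    simp [Fin.sum_univ_succ]
    ring
  rw [e]
  exact (coeffE k 2).apply_symm_apply c

private theorem KLB_eval (F : Form k 2) (v : Fin 2 → k) :
    F.1 v = kco F 1 * v 0 ^ 2 + 2 * kco F 0 * v 0 * v 1 - kco F 2 * v 1 ^ 2 := by
  rw [form_eq]
  simp [Fin.sum_univ_succ, kco]
  ring

omit [IsAlgClosed k] [CharZero k] in
private theorem KLB_inv {a b c d : k} (h : a * d - b * c ≠ 0) (v : Fin 2 → k) :
    (glm a b c d h)⁻¹ • v =
      ![(a * d - b * c)⁻¹ * (d * v 0 - b * v 1), (a * d - b * c)⁻¹ * (-c * v 0 + a * v 1)] := by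
  rw [inv_smul_eq_iff]
  have e : (a * d - b * c)⁻¹ * (a * d - b * c) = 1 := inv_mul_cancel₀ h
  funext i
  rw [FORMA_gl_smul]
  fin_cases i
  · simp [glm]
    linear_combination (-(v 0)) * e
  · simp [glm]
    linear_combination (-(v 1)) * e

/-- The action in coordinates. -/
private theorem KLB_act {a b c d : k} (h : a * d - b * c ≠ 0) (F : Form k 2) :
    kco (ρ2 k (gm a b c d h) F) =
      ![(a * d - b * c)⁻¹ * (-kco F 1 * b * d + kco F 0 * (a * d + b * c) + kco F 2 * a * c),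
        (a * d - b * c)⁻¹ * (kco F 1 * d ^ 2 - 2 * kco F 0 * c * d - kco F 2 * c ^ 2),
        (a * d - b * c)⁻¹ * (-kco F 1 * b ^ 2 + 2 * kco F 0 * a * b + kco F 2 * a ^ 2)] := by
  have hdet : Matrix.det ((glm a b c d h : GL (Fin 2) k) : Matrix (Fin 2) (Fin 2) k) =
      a * d - b * c := by
    simp [glm, Matrix.det_fin_two]
  have key : coeffE k 2 (ρ2 k (gm a b c d h) F) =
      ![-((a * d - b * c)⁻¹ * (-kco F 1 * b ^ 2 + 2 * kco F 0 * a * b + kco F 2 * a ^ 2)),
        2 * ((a * d - b * c)⁻¹ * (-kco F 1 * b * d + kco F 0 * (a * d + b * c) + kco F 2 * a * c)),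
        (a * d - b * c)⁻¹ * (kco F 1 * d ^ 2 - 2 * kco F 0 * c * d - kco F 2 * c ^ 2)] := by
    apply KLB_coeff
    intro v
    have e1 : ρ2 k (gm a b c d h) F = (a * d - b * c) ^ 1 • ((glm a b c d h) • F) := by
      rw [← hdet]
      exact formRep_mk (n := 2) (e := 1) rfl (glm a b c d h) F
    rw [e1]
    show (a * d - b * c) ^ 1 * ((glm a b c d h) • F).1 v = _
    rw [form_gl_apply, KLB_inv, KLB_eval]
    simp
    field_simp
    ring
  funext i
  fin_cases i
  · show coeffE k 2 (ρ2 k (gm a b c d h) F) 1 / 2 = _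
    rw [key]
    simp
  · show coeffE k 2 (ρ2 k (gm a b c d h) F) 2 = _
    rw [key]
    simp
  · show -coeffE k 2 (ρ2 k (gm a b c d h) F) 0 = _
    rw [key]
    simp

private theorem KLB_tor (t : kˣ) (F : Form k 2) :
    kco (ρ2 k (tor t) F) = ![kco F 0, (t : k)⁻¹ * kco F 1, t * kco F 2] := by
  unfold tor
  rw [KLB_act]
  have ht : (t : k) ≠ 0 := t.ne_zero
  funext i
  fin_cases i
  · simp
    field_simp
  · simp
  · simp
    field_simp

private theorem KLB_swap (F : Form k 2) :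
    kco (ρ2 k (gm (0 : k) (-1) 1 0 (by simp)) F) = ![-kco F 0, -kco F 2, -kco F 1] := by
  rw [KLB_act]
  funext i
  fin_cases i <;> simp

private theorem KLB_rho {alp : k} (h : alp ^ 2 + alp = 1) (h' : alp * (-alp) - 1 * 1 ≠ 0)
    (F : Form k 2) :
    5 * (kco (ρ2 k (gm alp 1 1 (-alp) h') F) 0) ^ 2 = (kco F 0 + kco F 1 + kco F 2) ^ 2 := by
  rw [KLB_act]
  have h2 : alp - 2 ≠ 0 := by
    intro h0
    have : alp = 2 := by linear_combination h0
    rw [this] at h
    norm_num at h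
  have e : alp * (-alp) - 1 * 1 = alp - 2 := by linear_combination -h
  rw [e]
  simp only [Matrix.cons_val_zero]
  have e2 : -kco F 1 * 1 * -alp + kco F 0 * (alp * -alp + 1 * 1) + kco F 2 * alp * 1 =
      alp * (kco F 0 + kco F 1 + kco F 2) := by
    linear_combination (-kco F 0) * h
  rw [e2]
  have e3 : (alp - 2)⁻¹ * (alp - 2) = 1 := inv_mul_cancel₀ h2
  have e4 : 5 * ((alp - 2)⁻¹ * alp) ^ 2 = 1 := by
    have : 5 * alp ^ 2 = (alp - 2) ^ 2 := by linear_combination 4 * h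
    calc 5 * ((alp - 2)⁻¹ * alp) ^ 2 = ((alp - 2)⁻¹) ^ 2 * (5 * alp ^ 2) := by ring
      _ = ((alp - 2)⁻¹) ^ 2 * (alp - 2) ^ 2 := by rw [this]
      _ = ((alp - 2)⁻¹ * (alp - 2)) ^ 2 := by ring
      _ = 1 := by rw [e3]; ring
  linear_combination (kco F 0 + kco F 1 + kco F 2) ^ 2 * e4

/-- The relation of `klein_fib`. -/
private def KLB_R (F F' : Form k 2) : Prop := ∃ g ∈ Ico k, F' = ρ2 k g F ∨ F' = -(ρ2 k g F)

private theorem KLB_R_trans {F G H : Form k 2} (h1 : KLB_R F G) (h2 : KLB_R G H) : KLB_R F H := by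
  obtain ⟨g, hg, h1⟩ := h1
  obtain ⟨g', hg', h2⟩ := h2
  refine ⟨g' * g, (Ico k).mul_mem hg' hg, ?_⟩
  rw [map_mul]
  rcases h1 with rfl | rfl <;> rcases h2 with rfl | rfl
  · left; rfl
  · right; rfl
  · right; simp
  · left; simp

private theorem KLB_R_of {g : PGL(2, k)} (hg : g ∈ Ico k) (F : Form k 2) : KLB_R F (ρ2 k g F) :=
  ⟨g, hg, Or.inl rfl⟩

private theorem KLB_R_refl (F : Form k 2) : KLB_R F F := ⟨1, (Ico k).one_mem, Or.inl (by simp)⟩

private theorem KLB_R_neg (F : Form k 2) : KLB_R F (-F) := ⟨1, (Ico k).one_mem, Or.inr (by simp)⟩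

omit [IsAlgClosed k] [CharZero k] in
private theorem KLB_neg (F : Form k 2) : (-1 : k) • F = -F := by
  apply Subtype.ext
  funext v
  show (-1 : k) * F.1 v = -(F.1 v)
  ring

private theorem KLB_kco_neg (F : Form k 2) : kco (-F) = -kco F := by
  have := kco_smul (-1 : k) F
  rw [KLB_neg] at this
  rw [this]
  funext i
  show (-1 : k) * kco F i = -(kco F i)
  ring

private theorem KLB_kInv_neg (F : Form k 2) : kInv (-F) = kInv F := by
  have := kInv_smul (-1 : k) F
  rw [KLB_neg] at this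
  rw [this]
  funext i
  fin_cases i
  · show (-1 : k) ^ 2 * kInv F 0 = kInv F 0
    ring
  · show (-1 : k) ^ 6 * kInv F 1 = kInv F 1
    ring
  · show (-1 : k) ^ 10 * kInv F 2 = kInv F 2
    ring

private theorem KLB_inv_R {F G : Form k 2} (h : KLB_R F G) : kInv G = kInv F := by
  obtain ⟨g, hg, h | h⟩ := h
  · rw [h, klein_inv hg]
  · rw [h, KLB_kInv_neg, klein_inv hg]


private theorem KLB_case1 {F F' : Form k 2} (h0 : kco F' 0 = kco F 0)
    (h12 : kco F' 1 * kco F' 2 = kco F 1 * kco F 2) (h1 : kco F' 1 ^ 5 = kco F 1 ^ 5)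
    (h2 : kco F' 2 ^ 5 = kco F 2 ^ 5) : KLB_R F F' := by
  by_cases ha : kco F 1 = 0
  · have ha' : kco F' 1 = 0 := by
      rw [ha] at h1
      simpa using h1
    by_cases hb : kco F 2 = 0
    · have hb' : kco F' 2 = 0 := by
        rw [hb] at h2
        simpa using h2
      have : F' = F := kco_inj (by
        funext i
        fin_cases i
        · exact h0
        · simp [ha, ha']
        · simp [hb, hb'])
      rw [this]
      exact KLB_R_refl F
    · have hb' : kco F' 2 ≠ 0 := by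
        intro h
        rw [h] at h2
        apply hb
        simpa using h2.symm
      have ht : (Units.mk0 (kco F' 2 / kco F 2) (div_ne_zero hb' hb)) ^ 5 = 1 := by
        apply Units.ext
        simp only [Units.val_pow_eq_pow_val, Units.val_mk0, Units.val_one, div_pow, h2]
        exact div_self (pow_ne_zero 5 hb)
      have : F' = ρ2 k (tor (Units.mk0 (kco F' 2 / kco F 2) (div_ne_zero hb' hb))) F := kco_inj (by
        rw [KLB_tor]
        funext i
        fin_cases i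
        · exact h0
        · simp [ha, ha']
        · simp [hb])
      rw [this]
      exact KLB_R_of (tor_mem_ico ht) F
  · have ha' : kco F' 1 ≠ 0 := by
      intro h
      rw [h] at h1
      apply ha
      simpa using h1.symm
    have ht : (Units.mk0 (kco F 1 / kco F' 1) (div_ne_zero ha ha')) ^ 5 = 1 := by
      apply Units.ext
      simp only [Units.val_pow_eq_pow_val, Units.val_mk0, Units.val_one, div_pow, h1]
      exact div_self (pow_ne_zero 5 ha)
    have : F' = ρ2 k (tor (Units.mk0 (kco F 1 / kco F' 1) (div_ne_zero ha ha'))) F := kco_inj (by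
      rw [KLB_tor]
      funext i
      fin_cases i
      · exact h0
      · simp [ha]
      · simp
        field_simp
        linear_combination h12)
    rw [this]
    exact KLB_R_of (tor_mem_ico ht) F

private theorem KLB_step2 {F F' : Form k 2} (h0 : kco F' 0 = kco F 0)
    (h12 : kco F' 1 * kco F' 2 = kco F 1 * kco F 2)
    (hs : kco F' 1 ^ 5 + kco F' 2 ^ 5 = kco F 1 ^ 5 + kco F 2 ^ 5) : KLB_R F F' := by
  have h12' : kco F' 1 ^ 5 * kco F' 2 ^ 5 = kco F 1 ^ 5 * kco F 2 ^ 5 := by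
    rw [← mul_pow, h12, mul_pow]
  have h : (kco F' 1 ^ 5 - kco F 1 ^ 5) * (kco F' 1 ^ 5 - kco F 2 ^ 5) = 0 := by
    linear_combination (kco F' 1 ^ 5) * hs - h12'
  rcases mul_eq_zero.1 h with e | e
  · have e' : kco F' 1 ^ 5 = kco F 1 ^ 5 := by linear_combination e
    exact KLB_case1 h0 h12 e' (by linear_combination hs - e')
  · have e' : kco F' 1 ^ 5 = kco F 2 ^ 5 := by linear_combination e
    have c0 : kco (-(ρ2 k (gm (0 : k) (-1) 1 0 (by simp)) F)) = ![kco F 0, kco F 2, kco F 1] := by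
      rw [KLB_kco_neg, KLB_swap]
      funext i
      fin_cases i <;> simp
    refine KLB_R_trans (KLB_R_trans (KLB_R_of inv_mem_ico F) (KLB_R_neg _)) (KLB_case1 ?_ ?_ ?_ ?_)
    · rw [c0]
      exact h0
    · rw [c0]
      simp only [Matrix.cons_val]
      linear_combination h12
    · rw [c0]
      exact e'
    · rw [c0]
      simp only [Matrix.cons_val]
      linear_combination hs - e'

omit [IsAlgClosed k] [CharZero k] in
private theorem KLB_kB (a b c : k) : kB a b c = 8 * a ^ 4 * (b * c) - 2 * a ^ 2 * (b * c) ^ 2 +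
    (b * c) ^ 3 - a * (b ^ 5 + c ^ 5) := by
  unfold kB
  ring

omit [IsAlgClosed k] [CharZero k] in
private theorem KLB_kC (a b c : k) : kC a b c = 320 * a ^ 6 * (b * c) ^ 2 -
    160 * a ^ 4 * (b * c) ^ 3 + 20 * a ^ 2 * (b * c) ^ 4 + 4 * (b * c) ^ 5 -
    4 * (a * (b ^ 5 + c ^ 5)) * (32 * a ^ 4 - 20 * a ^ 2 * (b * c) + 5 * (b * c) ^ 2) +
    (b ^ 5 + c ^ 5) ^ 2 := by
  unfold kC
  ring

private theorem KLB_step1 {F F' : Form k 2} (h : kInv F = kInv F') (h0 : kco F' 0 = kco F 0) :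
    KLB_R F F' := by
  have hA : kA (kco F 0) (kco F 1) (kco F 2) = kA (kco F' 0) (kco F' 1) (kco F' 2) := congrFun h 0
  have hB : kB (kco F 0) (kco F 1) (kco F 2) = kB (kco F' 0) (kco F' 1) (kco F' 2) := congrFun h 1
  have hC : kC (kco F 0) (kco F 1) (kco F 2) = kC (kco F' 0) (kco F' 1) (kco F' 2) := congrFun h 2
  have h12 : kco F' 1 * kco F' 2 = kco F 1 * kco F 2 := by
    unfold kA at hA
    rw [h0] at hA
    linear_combination -hA
  rw [KLB_kB, KLB_kB, h0, h12] at hB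
  have hB' : kco F 0 * (kco F' 1 ^ 5 + kco F' 2 ^ 5) = kco F 0 * (kco F 1 ^ 5 + kco F 2 ^ 5) := by
    linear_combination hB
  rw [KLB_kC, KLB_kC, h0, h12, hB'] at hC
  have hC' : (kco F' 1 ^ 5 + kco F' 2 ^ 5) ^ 2 = (kco F 1 ^ 5 + kco F 2 ^ 5) ^ 2 := by
    linear_combination -hC
  rcases sq_eq_sq_iff_eq_or_eq_neg.1 hC' with e | e
  · exact KLB_step2 h0 h12 e
  · rw [e] at hB'
    have h2 : kco F 0 * (kco F 1 ^ 5 + kco F 2 ^ 5) = 0 := by linear_combination (-1 / 2) * hB'
    rcases mul_eq_zero.1 h2 with h3 | h3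
    · refine KLB_R_trans (KLB_R_neg F) (KLB_step2 ?_ ?_ ?_)
      · rw [KLB_kco_neg, h0]
        simp [h3]
      · rw [KLB_kco_neg]
        simp only [Pi.neg_apply]
        linear_combination h12
      · rw [KLB_kco_neg]
        simp only [Pi.neg_apply]
        linear_combination e
    · exact KLB_step2 h0 h12 (by rw [e, h3]; simp)

private theorem KLB_alp : ∃ alp : k, alp ^ 2 + alp = 1 ∧ alp * (-alp) - 1 * 1 ≠ 0 := by
  obtain ⟨s, hs⟩ : ∃ s : k, s ^ 2 = 5 := IsAlgClosed.exists_pow_nat_eq 5 (by norm_num)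
  have h : ((-1 + s) / 2) ^ 2 + (-1 + s) / 2 = 1 := by
    field_simp
    linear_combination hs
  refine ⟨(-1 + s) / 2, h, ?_⟩
  intro h0
  generalize (-1 + s) / 2 = x at h h0
  have h2 : x = 2 := by linear_combination h + h0
  rw [h2] at h
  norm_num at h

private theorem KLB_zeta : ∃ ζ : k, 1 + ζ + ζ ^ 2 + ζ ^ 3 + ζ ^ 4 = 0 := by
  obtain ⟨ζ, hζ⟩ := IsAlgClosed.exists_root
    (1 + Polynomial.X + Polynomial.X ^ 2 + Polynomial.X ^ 3 + Polynomial.X ^ 4 : Polynomial k) (by
      have : (1 + Polynomial.X + Polynomial.X ^ 2 + Polynomial.X ^ 3 + Polynomial.X ^ 4 :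
        Polynomial k).degree = 4 := by compute_degree!
      rw [this]
      norm_num)
  exact ⟨ζ, by simpa [Polynomial.IsRoot] using hζ⟩

private theorem KLB_key {F F' : Form k 2} {z : k} (hz : z ^ 5 = 1)
    (h : (kco F 0 + z ^ 4 * kco F 1 + z * kco F 2) ^ 2 = 5 * kco F' 0 ^ 2) :
    ∃ G, KLB_R F G ∧ kco F' 0 ^ 2 = kco G 0 ^ 2 := by
  obtain ⟨alp, h1, h2⟩ := KLB_alp (k := k)
  have hz0 : z ≠ 0 := by
    rintro rfl
    norm_num at hz
  have ht : (Units.mk0 z hz0) ^ 5 = 1 := by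
    apply Units.ext
    simpa using hz
  refine ⟨ρ2 k (gm alp 1 1 (-alp) h2) (ρ2 k (tor (Units.mk0 z hz0)) F),
    KLB_R_trans (KLB_R_of (tor_mem_ico ht) F) (KLB_R_of (rho_mem_ico h1 h2) _), ?_⟩
  have e := KLB_rho h1 h2 (ρ2 k (tor (Units.mk0 z hz0)) F)
  rw [KLB_tor] at e
  have hinv : z⁻¹ = z ^ 4 := by
    field_simp
    linear_combination -hz
  simp only [Units.val_mk0, Matrix.cons_val, hinv] at e
  have h5 : (5 : k) ≠ 0 := by norm_num
  have : (5 : k) * kco F' 0 ^ 2 =
      5 * kco (ρ2 k (gm alp 1 1 (-alp) h2) (ρ2 k (tor (Units.mk0 z hz0)) F)) 0 ^ 2 := by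
    rw [e]
    linear_combination -h
  exact mul_left_cancel₀ h5 this

theorem klein_fib {F F' : Form k 2} (h : kInv F = kInv F') :
    ∃ g ∈ Ico k, F' = ρ2 k g F ∨ F' = -(ρ2 k g F) := by
  have hA : kA (kco F 0) (kco F 1) (kco F 2) = kA (kco F' 0) (kco F' 1) (kco F' 2) := congrFun h 0
  have hB : kB (kco F 0) (kco F 1) (kco F 2) = kB (kco F' 0) (kco F' 1) (kco F' 2) := congrFun h 1
  have hC : kC (kco F 0) (kco F 1) (kco F 2) = kC (kco F' 0) (kco F' 1) (kco F' 2) := congrFun h 2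
  have main : ∃ G, KLB_R F G ∧ kco F' 0 ^ 2 = kco G 0 ^ 2 := by
    obtain ⟨s, hs⟩ : ∃ s : k, s ^ 2 = 5 := IsAlgClosed.exists_pow_nat_eq 5 (by norm_num)
    have id1 := klein_identity (kA (kco F' 0) (kco F' 1) (kco F' 2) - kco F' 0 ^ 2) (kco F 0)
      (kco F 1) (kco F 2)
    have id2 := klein_identity (kA (kco F' 0) (kco F' 1) (kco F' 2) - kco F' 0 ^ 2) (kco F' 0)
      (kco F' 1) (kco F' 2)
    rw [hA, hB, hC, ← id2] at id1
    have e1 : 5 * (kA (kco F' 0) (kco F' 1) (kco F' 2) -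
        (kA (kco F' 0) (kco F' 1) (kco F' 2) - kco F' 0 ^ 2)) = (s * kco F' 0) ^ 2 := by
      linear_combination (-kco F' 0 ^ 2) * hs
    rw [e1] at id1
    have e2 : (kco F 0 ^ 2 - kco F' 0 ^ 2) *
        kNN (kco F 0) (kco F 1) (kco F 2) ((s * kco F' 0) ^ 2) = 0 := by
      linear_combination id1
    rw [← kN_mul] at e2
    obtain ⟨ζ, hζ⟩ := KLB_zeta (k := k)
    have hζ5 : ζ ^ 5 = 1 := by linear_combination (ζ - 1) * hζ
    rcases mul_eq_zero.1 e2 with e3 | e3
    · exact ⟨F, KLB_R_refl F, by linear_combination -e3⟩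
    · have e4 : ∃ v : k, v ^ 2 = 5 * kco F' 0 ^ 2 ∧ kN (kco F 0 + v) (kco F 1) (kco F 2) = 0 := by
        rcases mul_eq_zero.1 e3 with e4 | e4
        · exact ⟨-(s * kco F' 0), by linear_combination (kco F' 0 ^ 2) * hs, by
            rw [← sub_eq_add_neg]; exact e4⟩
        · exact ⟨s * kco F' 0, by linear_combination (kco F' 0 ^ 2) * hs, e4⟩
      obtain ⟨v, hv, hN⟩ := e4
      rw [kN_factor hζ] at hN
      have fin : ∀ z : k, z ^ 5 = 1 → kco F 0 + v + z ^ 4 * kco F 1 + z * kco F 2 = 0 →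
          ∃ G, KLB_R F G ∧ kco F' 0 ^ 2 = kco G 0 ^ 2 := by
        intro z hz h1
        refine KLB_key hz ?_
        have : kco F 0 + z ^ 4 * kco F 1 + z * kco F 2 = -v := by linear_combination h1
        rw [this, neg_sq, hv]
      rcases mul_eq_zero.1 hN with h1 | h1
      · rcases mul_eq_zero.1 h1 with h1 | h1
        · rcases mul_eq_zero.1 h1 with h1 | h1
          · rcases mul_eq_zero.1 h1 with h1 | h1
            · exact fin 1 (by norm_num) (by linear_combination h1)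
            · refine fin (ζ ^ 4) ?_ ?_
              · linear_combination (1 + ζ ^ 5 + ζ ^ 10 + ζ ^ 15) * hζ5
              · linear_combination h1 + kco F 1 * ζ * (1 + ζ ^ 5 + ζ ^ 10) * hζ5
          · refine fin (ζ ^ 3) ?_ ?_
            · linear_combination (1 + ζ ^ 5 + ζ ^ 10) * hζ5
            · linear_combination h1 + kco F 1 * ζ ^ 2 * (1 + ζ ^ 5) * hζ5
        · refine fin (ζ ^ 2) ?_ ?_
          · linear_combination (1 + ζ ^ 5) * hζ5
          · linear_combination h1 + kco F 1 * ζ ^ 3 * hζ5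
      · exact fin ζ hζ5 (by linear_combination h1)
  obtain ⟨G, hFG, hsq⟩ := main
  have hG : kInv G = kInv F' := (KLB_inv_R hFG).trans h
  rcases sq_eq_sq_iff_eq_or_eq_neg.1 hsq with e | e
  · exact KLB_R_trans hFG (KLB_step1 hG e)
  · refine KLB_R_trans (KLB_R_trans hFG (KLB_R_neg G)) (KLB_step1 ?_ ?_)
    · rw [KLB_kInv_neg, hG]
    · rw [KLB_kco_neg]
      exact e

private theorem KLB_root (A B C : k) : ∃ T : k, kPhi T A B C = 0 := by
  set q : Polynomial k := 11 * Polynomial.X ^ 3 - 18 * Polynomial.C A * Polynomial.X ^ 2 +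
    8 * Polynomial.C A ^ 2 * Polynomial.X - Polynomial.C B with hq
  set G : Polynomial k := -(320 * (Polynomial.C A - Polynomial.X) ^ 3 * Polynomial.X ^ 2 -
    160 * (Polynomial.C A - Polynomial.X) ^ 2 * Polynomial.X ^ 3 +
    20 * (Polynomial.C A - Polynomial.X) * Polynomial.X ^ 4 + 4 * Polynomial.X ^ 5 -
    4 * q * (32 * (Polynomial.C A - Polynomial.X) ^ 2 -
      20 * (Polynomial.C A - Polynomial.X) * Polynomial.X + 5 * Polynomial.X ^ 2)) with hG
  set p : Polynomial k := q ^ 2 - (Polynomial.C A - Polynomial.X) * (Polynomial.C C + G) with hp'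
  have hp : ∀ T, p.eval T = kPhi T A B C := by
    intro T
    simp [hp', hG, hq, kPhi, kG, kq]
  have hdeg : p.degree ≠ 0 := by
    intro h
    have hC := Polynomial.eq_C_of_degree_eq_zero h
    have hc : ∀ T, kPhi T A B C = p.coeff 0 := fun T => by
      rw [← hp]
      conv_lhs => rw [hC]
      simp
    have e0 := hc 0
    have e1 := hc 1
    have e2 := hc 2
    have e3 := hc 3
    have e4 := hc 4
    have e5 := hc 5
    have e6 := hc 6
    simp only [kPhi, kG, kq] at e0 e1 e2 e3 e4 e5 e6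
    have : (3125 * 720 : k) = 0 := by
      linear_combination e0 - 6 * e1 + 15 * e2 - 20 * e3 + 15 * e4 - 6 * e5 + e6
    norm_num at this
  obtain ⟨T, hT⟩ := IsAlgClosed.exists_root p hdeg
  exact ⟨T, by rw [← hp]; exact hT⟩

theorem klein_surj (c : Fin 3 → k) : ∃ F : Form k 2, kInv F = c := by
  obtain ⟨T, hT⟩ := KLB_root (c 0) (c 1) (c 2)
  obtain ⟨a0, ha0⟩ : ∃ z : k, z ^ 2 = c 0 - T := IsAlgClosed.exists_pow_nat_eq _ (by norm_num)
  obtain ⟨s, hs1, hs2⟩ : ∃ s : k, a0 * s = kq T (c 0) (c 1) ∧ s ^ 2 = c 2 + kG T (c 0) (c 1) := by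
    unfold kPhi at hT
    rw [← ha0] at hT
    by_cases h0 : a0 = 0
    · rw [h0] at hT
      have hq : kq T (c 0) (c 1) = 0 := by
        have : kq T (c 0) (c 1) ^ 2 = 0 := by linear_combination hT
        simpa using this
      obtain ⟨s, hs⟩ : ∃ s : k, s ^ 2 = c 2 + kG T (c 0) (c 1) :=
        IsAlgClosed.exists_pow_nat_eq _ (by norm_num)
      exact ⟨s, by rw [h0, hq, zero_mul], hs⟩
    · refine ⟨kq T (c 0) (c 1) / a0, by field_simp, ?_⟩
      rw [div_pow, div_eq_iff (pow_ne_zero 2 h0)]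
      linear_combination hT
  obtain ⟨d, hd⟩ : ∃ d : k, d ^ 2 = s ^ 2 - 4 * T ^ 5 := IsAlgClosed.exists_pow_nat_eq _ (by norm_num)
  obtain ⟨a1, a2, h12, h5⟩ : ∃ a1 a2 : k, a1 * a2 = T ∧ a1 ^ 5 + a2 ^ 5 = s := by
    obtain ⟨a1, h1⟩ : ∃ a1 : k, a1 ^ 5 = (s + d) / 2 := IsAlgClosed.exists_pow_nat_eq _ (by norm_num)
    by_cases h0 : a1 = 0
    · have h2 : (s + d) / 2 = 0 := by rw [← h1, h0]; norm_num
      have hsd : d = -s := by linear_combination 2 * h2
      have hT0 : T = 0 := by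
        have : T ^ 5 = 0 := by
          rw [hsd] at hd
          linear_combination (1 / 4) * hd
        simpa using this
      obtain ⟨a2, h2⟩ : ∃ a2 : k, a2 ^ 5 = s := IsAlgClosed.exists_pow_nat_eq _ (by norm_num)
      exact ⟨0, a2, by rw [hT0]; simp, by rw [h2]; simp⟩
    · refine ⟨a1, T / a1, by field_simp, ?_⟩
      have h3 : (s + d) / 2 ≠ 0 := by rw [← h1]; exact pow_ne_zero 5 h0
      rw [div_pow, h1]
      have hz : ((s + d) / 2) ^ 2 + T ^ 5 = s * ((s + d) / 2) := by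
        linear_combination (1 / 4) * hd
      generalize (s + d) / 2 = z at h3 hz
      field_simp
      linear_combination hz
  obtain ⟨F, hF⟩ := kco_surj ![a0, a1, a2]
  refine ⟨F, ?_⟩
  have e0 : kco F 0 = a0 := by rw [hF]; rfl
  have e1 : kco F 1 = a1 := by rw [hF]; rfl
  have e2 : kco F 2 = a2 := by rw [hF]; rfl
  have hT' : c 0 = a0 ^ 2 + T := by linear_combination -ha0
  funext i
  fin_cases i
  · show kA (kco F 0) (kco F 1) (kco F 2) = c 0
    rw [e0, e1, e2, kA, h12, hT']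
  · show kB (kco F 0) (kco F 1) (kco F 2) = c 1
    rw [e0, e1, e2, KLB_kB, h12, h5, hs1, kq, hT']
    ring
  · show kC (kco F 0) (kco F 1) (kco F 2) = c 2
    rw [e0, e1, e2, KLB_kC, h12, h5, hs2, hs1, kG, hT']
    ring

end Pool.Agent.MRat
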