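import Pool.Agent.Lib.MP_923aff_ag.KLB
import Pool.Agent.Lib.MP_923aff_ag.FA9
/-!
# JOB KLC: the class of `P(Form 2) / Ico`

Compare with the weighted projective space `(k³ minus 0) / kˣ`, weights `2, 6, 10` (`wproj`): both are quotients of
`{F | F ≠ 0}`; `clq_map` along `F ↦ [F]` and along `kInv` (`klein_inv`, `klein_fib`, `klein_surj`, `kInv_smul`), for the relation
`∃ g ∈ Ico k, ∃ c : kˣ, F' = c • ρ2 k g F` on `{F | F ≠ 0}`. The action of `PGL₂` on `ℙ k (Form k 2)` is the one given by `ρ2`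
(`form_pgl_mk`, `formRep_mk`).
-/

set_option autoImplicit false

namespace Pool.Agent.MRat

open scoped MatrixGroups LinearAlgebra.Projectivization

variable {k : Type} [Field k] [IsAlgClosed k] [CharZero k]

theorem kInv_eq_zero {F : Form k 2} : kInv F = 0 ↔ F = 0 := by
  have h0 : kInv (0 : Form k 2) = 0 := by
    have h1 := kInv_smul (0 : k) (0 : Form k 2)
    rw [zero_smul] at h1
    rw [h1]
    funext i
    fin_cases i <;> simp
  constructor
  · intro h
    obtain ⟨g, -, h1 | h1⟩ := klein_fib (F := 0) (F' := F) (by rw [h0, h])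
    · rw [h1, map_zero]
    · rw [h1, map_zero, neg_zero]
  · rintro rfl
    exact h0

private def KLCR (F F' : Form k 2) : Prop := ∃ g : Ico k, ∃ c : kˣ, F' = (c : k) • ρ2 k g F

private theorem KLC_ne : DM k (fun F : Form k 2 => F ∈ {F : Form k 2 | F ≠ 0}) :=
  DM.not (DM.eq DM.id' (DM.const' (0 : Form k 2)))

private theorem KLC_rel : DM k (fun p : Form k 2 × Form k 2 => KLCR p.1 p.2) := by
  refine DM.fex (fun g => DM.ex ?_)
  have h1 : DM k (ρ2 k (g : PGL(2, k))) := lin_dm _
  have h2 : DM k (fun p : (Form k 2 × Form k 2) × kˣ => ρ2 k (g : PGL(2, k)) p.1.1) :=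
    DM.comp h1 (by fun_prop)
  exact DM.eq (by fun_prop) (DM.vsmul (by fun_prop) h2)

private theorem KLC_dq : DQ k {F : Form k 2 | F ≠ 0} KLCR where
  ds := KLC_ne
  dr := (DM.comp KLC_ne (f := fun p : Form k 2 × Form k 2 => p.1) (by fun_prop)).and
    ((DM.comp KLC_ne (f := fun p : Form k 2 × Form k 2 => p.2) (by fun_prop)).and KLC_rel)
  refl := fun x _ => ⟨1, 1, by simp⟩
  symm := by
    rintro x - y - ⟨g, c, rfl⟩
    refine ⟨g⁻¹, c⁻¹, ?_⟩
    rw [map_smul, smul_smul]
    have h1 : ρ2 k ((g⁻¹ : Ico k) : PGL(2, k)) (ρ2 k (g : PGL(2, k)) x) = x := by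
      rw [← Module.End.mul_apply, ← map_mul]
      simp
    rw [h1]
    simp
  trans := by
    rintro x - y - z - ⟨g, c, rfl⟩ ⟨g', c', rfl⟩
    refine ⟨g' * g, c' * c, ?_⟩
    rw [map_smul, smul_smul]
    have h1 : ρ2 k ((g' * g : Ico k) : PGL(2, k)) x =
        ρ2 k (g' : PGL(2, k)) (ρ2 k (g : PGL(2, k)) x) := by
      rw [← Module.End.mul_apply, ← map_mul]
      simp
    rw [h1]
    simp

private theorem KLC_smul (g : Ico k) {v : Form k 2} (hv : v ≠ 0) :
    (g : PGL(2, k)) • Projectivization.mk k v hv =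
      Projectivization.mk k (ρ2 k g v) (rep_ne (ρ2 k) g hv) := by
  have h := formRep_act (n := 2) (e := 1) rfl (Ico k)
  have h1 : ((FAct.ofPGL (Ico k) (ℙ k (Form k 2))).a g (Projectivization.mk k v hv)) =
      (g : PGL(2, k)) • Projectivization.mk k v hv := rfl
  rw [← h1, ← h]
  rfl

theorem klein_class : clq k (Set.univ : Set (ℙ k (Form k 2)))
    (fun p q => ∃ g ∈ Ico k, g • p = q) = br 3 • ptc k := by
  have e0 : (fun p q : ℙ k (Form k 2) => ∃ g ∈ Ico k, g • p = q) =
      (FAct.ofPGL (Ico k) (ℙ k (Form k 2))).rel := by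
    funext p q
    refine propext ?_
    constructor
    · rintro ⟨g, hg, h⟩
      exact ⟨⟨g, hg⟩, h⟩
    · rintro ⟨g, h⟩
      exact ⟨g, g.2, h⟩
  rw [e0]
  have e1 : clq k (Set.univ : Set (ℙ k (Form k 2))) (FAct.ofPGL (Ico k) (ℙ k (Form k 2))).rel =
      clq k {F : Form k 2 | F ≠ 0} KLCR := by
    refine clq_corr (FAct.St.univ _).dq KLC_dq (fun p v => isrep v p)
      (DM.isrep (by fun_prop) (by fun_prop)) ?_ ?_ ?_
    · intro p _
      induction p using Projectivization.ind with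
      | h v hv => exact ⟨v, hv, hv, rfl⟩
    · intro v hv
      exact ⟨Projectivization.mk k v hv, trivial, hv, rfl⟩
    · rintro p - v hv ⟨h1, rfl⟩ p' - v' hv' ⟨h1', rfl⟩
      constructor
      · rintro ⟨g, hg⟩
        have h2 : (g : PGL(2, k)) • Projectivization.mk k v h1 = Projectivization.mk k v' h1' := hg
        rw [KLC_smul, Projectivization.mk_eq_mk_iff] at h2
        obtain ⟨c, hc⟩ := h2
        refine ⟨g, c⁻¹, ?_⟩
        rw [← hc]
        simp [Units.smul_def, smul_smul]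
      · rintro ⟨g, c, hc⟩
        refine ⟨g, ?_⟩
        show (g : PGL(2, k)) • Projectivization.mk k v h1 = Projectivization.mk k v' h1'
        rw [KLC_smul, Projectivization.mk_eq_mk_iff]
        refine ⟨c⁻¹, ?_⟩
        rw [hc]
        simp [Units.smul_def, smul_smul]
  rw [e1]
  obtain ⟨h1, h2⟩ := wproj (k := k) 3 ![2, 6, 10] (by intro i; fin_cases i <;> simp)
  rw [← h2]
  refine clq_map KLC_dq h1 kInv kInv_dm ?_ ?_ ?_
  · intro x hx
    exact fun h => hx (kInv_eq_zero.1 h)
  · intro x hx y hy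
    constructor
    · rintro ⟨g, c, rfl⟩
      refine ⟨c, ?_⟩
      rw [kInv_smul, klein_inv g.2]
      intro i
      fin_cases i <;> simp
    · rintro ⟨c, hc⟩
      have h3 : kInv ((c : k) • x) = kInv y := by
        rw [kInv_smul]
        funext i
        rw [hc i]
        fin_cases i <;> simp
      obtain ⟨g, hg, h4 | h4⟩ := klein_fib h3
      · exact ⟨⟨g, hg⟩, c, by rw [h4, map_smul]⟩
      · exact ⟨⟨g, hg⟩, -c, by
          rw [h4, map_smul, Units.val_neg]
          exact (neg_smul _ _).symm⟩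
  · intro v hv
    obtain ⟨F, hF⟩ := klein_surj v
    refine ⟨F, ?_, 1, ?_⟩
    · rintro rfl
      exact hv (by rw [← hF]; exact kInv_eq_zero.2 rfl)
    · intro i
      simp [hF]

end Pool.Agent.MRat
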