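import Pool.Agent.Lib.MP_923aff_ag.AmbE
/-!
# JOB MKA: classes in `MK`
-/

set_option autoImplicit false

namespace Pool.Agent.MRat

section defs
variable (k : Type) [Field k]

/-- The class of a generator. -/
def MK.of (g : Gen k) : MK k := QuotientAddGroup.mk (FreeAbelianGroup.of g)

open Classical in
/-- The class of `s` modulo `r`, for a definable equivalence relation `r` on a definable subset `s`
of an ambient type (junk value `0` otherwise). -/
noncomputable def cls {α : Type} [Amb k α] (s : Set α) (r : α → α → Prop) : MK k :=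
  if h : Good k {x : Fin (Amb.dim k α) → k | (Amb.e (k := k) (α := α)).symm x ∈ s}
      (fun x y => r ((Amb.e (k := k) (α := α)).symm x) ((Amb.e (k := k) (α := α)).symm y))
  then MK.of k ⟨_, _, _, h⟩ else 0

/-- The class of a definable set. -/
noncomputable def scl {α : Type} [Amb k α] (s : Set α) : MK k := cls k s (fun x y => x = y)

end defs

variable {k : Type} [Field k] [IsAlgClosed k] [CharZero k]
variable {α β γ δ : Type} [Amb k α] [Amb k β] [Amb k γ] [Amb k δ]

/-- The coordinate identification is definable, in both directions. -/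
theorem DF.e : DF k (Amb.e (k := k) (α := α) : α → (Fin (Amb.dim k α) → k)) := by
  apply DF.pi
  intro i
  show Con k (Amb.dim k α + 1) {x : Fin (Amb.dim k α + 1) → k |
    ((Amb.e (k := k) (α := α × k)).symm x).2 =
      Amb.e (k := k) (α := α) (((Amb.e (k := k) (α := α × k)).symm x).1) i}
  have h : {x : Fin (Amb.dim k α + 1) → k |
      ((Amb.e (k := k) (α := α × k)).symm x).2 =
        Amb.e (k := k) (α := α) (((Amb.e (k := k) (α := α × k)).symm x).1) i} =
      {x | MvPolynomial.eval x (MvPolynomial.X (Fin.natAdd (Amb.dim k α) (0 : Fin 1)) -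
        MvPolynomial.X (Fin.castAdd 1 i)) = 0} := by
    ext x
    have h1 : ((Amb.e (k := k) (α := α × k)).symm x).2 =
        x (Fin.natAdd (Amb.dim k α) (0 : Fin 1)) := rfl
    have h2 : ((Amb.e (k := k) (α := α × k)).symm x).1 =
        (Amb.e (k := k) (α := α)).symm (fun j => x (Fin.castAdd 1 j)) := rfl
    rw [Set.mem_ofPred_eq, Set.mem_ofPred_eq, h1, h2, Equiv.apply_symm_apply, map_sub,
      MvPolynomial.eval_X, MvPolynomial.eval_X, sub_eq_zero]
  rw [h]
  exact Con.zero _

theorem DF.e_symm : DF k ((Amb.e (k := k) (α := α)).symm : (Fin (Amb.dim k α) → k) → α) := by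
  have h : DP k (fun p : (Fin (Amb.dim k α) → k) × α => Amb.e (k := k) (α := α) p.2 = p.1) :=
    DP.eq (DF.e.comp DF.snd) DF.fst
  refine DP.congr h fun p => ?_
  rw [← Equiv.eq_symm_apply]

private theorem mka_pull {s : Set α} {r : α → α → Prop} (h : Good k s r) :
    Good k {x : Fin (Amb.dim k α) → k | (Amb.e (k := k) (α := α)).symm x ∈ s}
      (fun x y => r ((Amb.e (k := k) (α := α)).symm x) ((Amb.e (k := k) (α := α)).symm y)) where
  ds := h.ds.comp DF.e_symm
  dr := h.dr.comp (f := fun p : (Fin (Amb.dim k α) → k) × (Fin (Amb.dim k α) → k) =>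
      ((Amb.e (k := k) (α := α)).symm p.1, (Amb.e (k := k) (α := α)).symm p.2))
    ((DF.e_symm.comp DF.fst).mk (DF.e_symm.comp DF.snd))
  refl := fun x hx => h.refl _ hx
  symm := fun x hx y hy hxy => h.symm _ hx _ hy hxy
  trans := fun x hx y hy z hz hxy hyz => h.trans _ hx _ hy _ hz hxy hyz

private theorem mka_cls {s : Set α} {r : α → α → Prop} (h : Good k s r) :
    cls k s r = MK.of k ⟨_, _, _, mka_pull h⟩ := by
  unfold cls
  rw [dif_pos (mka_pull h)]

private theorem mka_eq {g g' : Gen k} (h : Rels k (FreeAbelianGroup.of g - FreeAbelianGroup.of g')) :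
    MK.of k g = MK.of k g' := by
  show (QuotientAddGroup.mk (FreeAbelianGroup.of g) :
    FreeAbelianGroup (Gen k) ⧸ AddSubgroup.closure {z | Rels k z}) =
      QuotientAddGroup.mk (FreeAbelianGroup.of g')
  rw [QuotientAddGroup.eq_iff_sub_mem]
  exact AddSubgroup.subset_closure h

private theorem mka_add {g g' g'' : Gen k}
    (h : Rels k (FreeAbelianGroup.of g - FreeAbelianGroup.of g' - FreeAbelianGroup.of g'')) :
    MK.of k g = MK.of k g' + MK.of k g'' := by
  show (QuotientAddGroup.mk (FreeAbelianGroup.of g) :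
    FreeAbelianGroup (Gen k) ⧸ AddSubgroup.closure {z | Rels k z}) =
      QuotientAddGroup.mk (FreeAbelianGroup.of g' + FreeAbelianGroup.of g'')
  rw [QuotientAddGroup.eq_iff_sub_mem, ← sub_sub]
  exact AddSubgroup.subset_closure h

/-- The universal comparison tool. -/
theorem cls_map {s : Set α} {r : α → α → Prop} {s' : Set β} {r' : β → β → Prop} (h : Good k s r)
    (h' : Good k s' r') (f : α → β) (hf : DF k f) (maps : ∀ x ∈ s, f x ∈ s')
    (iff : ∀ x ∈ s, ∀ y ∈ s, (r x y ↔ r' (f x) (f y))) (surj : ∀ y ∈ s', ∃ x ∈ s, r' (f x) y) :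
    cls k s r = cls k s' r' := by
  rw [mka_cls h, mka_cls h']
  apply mka_eq
  refine Rels.map _ _ _ _ _ _ (mka_pull h) (mka_pull h')
    (fun x => Amb.e (k := k) (α := β) (f ((Amb.e (k := k) (α := α)).symm x)))
    (DF.e.comp (hf.comp DF.e_symm)) ?_ ?_ ?_
  · intro x hx
    show (Amb.e (k := k) (α := β)).symm (Amb.e (k := k) (α := β)
      (f ((Amb.e (k := k) (α := α)).symm x))) ∈ s'
    rw [Equiv.symm_apply_apply]
    exact maps _ hx
  · intro x hx y hy
    simp only [Equiv.symm_apply_apply]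
    exact iff _ hx _ hy
  · intro y hy
    obtain ⟨x, hx, hxy⟩ := surj _ hy
    refine ⟨Amb.e (k := k) (α := α) x, ?_, ?_⟩
    · show (Amb.e (k := k) (α := α)).symm (Amb.e (k := k) (α := α) x) ∈ s
      rw [Equiv.symm_apply_apply]
      exact hx
    · simp only [Equiv.symm_apply_apply]
      exact hxy

theorem Good.congr {s : Set α} {r r' : α → α → Prop} (h : Good k s r)
    (hr : ∀ x ∈ s, ∀ y ∈ s, (r x y ↔ r' x y)) : Good k s r' where
  ds := h.ds
  dr := h.dr.congr fun p =>
    ⟨fun hp => ⟨hp.1, hp.2.1, (hr _ hp.1 _ hp.2.1).1 hp.2.2⟩,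
      fun hp => ⟨hp.1, hp.2.1, (hr _ hp.1 _ hp.2.1).2 hp.2.2⟩⟩
  refl := fun x hx => (hr x hx x hx).1 (h.refl x hx)
  symm := fun x hx y hy hxy => (hr y hy x hx).1 (h.symm x hx y hy ((hr x hx y hy).2 hxy))
  trans := fun x hx y hy z hz hxy hyz =>
    (hr x hx z hz).1 (h.trans x hx y hy z hz ((hr x hx y hy).2 hxy) ((hr y hy z hz).2 hyz))

/-- `cls` only depends on the restriction of the relation. -/
theorem cls_congr {s : Set α} {r r' : α → α → Prop} (h : Good k s r)
    (hr : ∀ x ∈ s, ∀ y ∈ s, (r x y ↔ r' x y)) : cls k s r = cls k s r' :=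
  cls_map h (h.congr hr) (fun x => x) DF.id (fun _ hx => hx) hr
    fun y hy => ⟨y, hy, (hr y hy y hy).1 (h.refl y hy)⟩

theorem Good.inter {s t : Set α} {r : α → α → Prop} (h : Good k s r) (ht : DP k (fun x => x ∈ t)) :
    Good k (s ∩ t) r where
  ds := (h.ds.and ht).congr fun _ => Iff.rfl
  dr := (h.dr.and ((ht.comp (f := fun p : α × α => p.1) DF.fst).and
      (ht.comp (f := fun p : α × α => p.2) DF.snd))).congr fun p =>
    ⟨fun hp => ⟨⟨hp.1.1, hp.2.1⟩, ⟨hp.1.2.1, hp.2.2⟩, hp.1.2.2⟩,
      fun hp => ⟨⟨hp.1.1, hp.2.1.1, hp.2.2⟩, hp.1.2, hp.2.1.2⟩⟩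
  refl := fun x hx => h.refl x hx.1
  symm := fun x hx y hy => h.symm x hx.1 y hy.1
  trans := fun x hx y hy z hz => h.trans x hx.1 y hy.1 z hz.1

theorem Good.diff {s t : Set α} {r : α → α → Prop} (h : Good k s r) (ht : DP k (fun x => x ∈ t)) :
    Good k (s \ t) r := by
  have h1 : s \ t = s ∩ tᶜ := rfl
  rw [h1]
  exact h.inter (ht.not.congr fun _ => Iff.rfl)

theorem Good.mono {s t : Set α} {r : α → α → Prop} (h : Good k s r) (ht : DP k (fun x => x ∈ t))
    (hts : t ⊆ s) : Good k t r := by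
  have h1 := h.inter ht
  rwa [Set.inter_eq_right.2 hts] at h1

theorem Good.eq {s : Set α} (h : DP k (fun x => x ∈ s)) : Good k s (fun x y => x = y) where
  ds := h
  dr := (h.comp (f := fun p : α × α => p.1) DF.fst).and
    ((h.comp (f := fun p : α × α => p.2) DF.snd).and (DP.eq DF.fst DF.snd))
  refl := fun _ _ => rfl
  symm := fun _ _ _ _ h => h.symm
  trans := fun _ _ _ _ _ _ h h' => h.trans h'

/-- Additivity. -/
theorem cls_split {s : Set α} {r : α → α → Prop} (h : Good k s r) (t : Set α)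
    (ht : DP k (fun x => x ∈ t)) (sat : ∀ x ∈ s, ∀ y ∈ s, r x y → x ∈ t → y ∈ t) :
    cls k s r = cls k (s ∩ t) r + cls k (s \ t) r := by
  rw [mka_cls h, mka_cls (h.inter ht), mka_cls (h.diff ht)]
  apply mka_add
  exact Rels.add _ {x | (Amb.e (k := k) (α := α)).symm x ∈ s}
    {x | (Amb.e (k := k) (α := α)).symm x ∈ t} _ (mka_pull h) (mka_pull (h.inter ht))
    (mka_pull (h.diff ht)) fun x hx y hy hxy hxt => sat _ hx _ hy hxy hxt

/-- Additivity for a disjoint union. -/
theorem cls_union {s t : Set α} {r : α → α → Prop} (h : Good k (s ∪ t) r)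
    (hs : DP k (fun x => x ∈ s)) (ht : DP k (fun x => x ∈ t)) (hd : ∀ x ∈ s, x ∉ t)
    (sat : ∀ x ∈ s, ∀ y ∈ t, ¬ r x y) : cls k (s ∪ t) r = cls k s r + cls k t r := by
  have h1 := cls_split h s hs fun x _ y hy hxy hxs => by
    rcases hy with hy | hy
    · exact hy
    · exact absurd hxy (sat x hxs y hy)
  have h2 : (s ∪ t) ∩ s = s := Set.inter_eq_right.2 Set.subset_union_left
  have h3 : (s ∪ t) \ s = t := by
    ext x
    constructor
    · rintro ⟨hx | hx, hxs⟩
      · exact absurd hx hxs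
      · exact hx
    · intro hx
      exact ⟨Or.inr hx, fun hxs => hd x hxs hx⟩
  rw [h2, h3] at h1
  exact h1

theorem cls_empty (r : α → α → Prop) : cls k (∅ : Set α) r = 0 := by
  have h : Good k (∅ : Set α) r :=
    { ds := (DP.const False).congr fun _ => Iff.rfl
      dr := (DP.const False).congr fun p => ⟨fun h => h.elim, fun h => h.1.elim⟩
      refl := fun x hx => hx.elim
      symm := fun x hx => hx.elim
      trans := fun x hx => hx.elim }
  have h1 := cls_split h ∅ ((DP.const False).congr fun _ => Iff.rfl) fun x hx => hx.elim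
  rw [Set.inter_self, Set.sdiff_self] at h1
  exact left_eq_add.1 h1

/-- Finite additivity: `s` is the disjoint union of the pieces `s ∩ A i`. -/
theorem cls_sum {ι : Type} (I : Finset ι) {s : Set α} {r : α → α → Prop} (h : Good k s r)
    (A : ι → Set α) (hA : ∀ i ∈ I, DP k (fun x => x ∈ A i)) (hc : ∀ x ∈ s, ∃ i ∈ I, x ∈ A i)
    (hd : ∀ i ∈ I, ∀ j ∈ I, ∀ x ∈ s, ∀ y ∈ s, r x y → x ∈ A i → y ∈ A j → i = j) :
    cls k s r = ∑ i ∈ I, cls k (s ∩ A i) r := by
  classical
  induction I using Finset.induction_on generalizing s with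
  | empty =>
    have h1 : s = ∅ := by
      ext x
      constructor
      · intro hx
        obtain ⟨i, hi, -⟩ := hc x hx
        exact absurd hi (Finset.notMem_empty i)
      · intro hx
        exact hx.elim
    rw [h1, cls_empty, Finset.sum_empty]
  | insert i I' hi ih =>
    have hAi := hA i (Finset.mem_insert_self i I')
    rw [Finset.sum_insert hi, cls_split h (A i) hAi fun x hx y hy hxy hxi => by
      obtain ⟨j, hj, hyj⟩ := hc y hy
      rw [hd i (Finset.mem_insert_self i I') j hj x hx y hy hxy hxi hyj]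
      exact hyj]
    congr 1
    rw [ih (h.diff hAi) (fun j hj => hA j (Finset.mem_insert_of_mem hj)) ?_ ?_]
    · apply Finset.sum_congr rfl
      intro j hj
      congr 1
      ext x
      constructor
      · rintro ⟨⟨hx, -⟩, hxj⟩
        exact ⟨hx, hxj⟩
      · rintro ⟨hx, hxj⟩
        refine ⟨⟨hx, fun hxi => hi ?_⟩, hxj⟩
        rw [hd i (Finset.mem_insert_self i I') j (Finset.mem_insert_of_mem hj) x hx x hx
          (h.refl x hx) hxi hxj]
        exact hj
    · rintro x ⟨hx, hxi⟩
      obtain ⟨j, hj, hxj⟩ := hc x hx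
      rcases Finset.mem_insert.1 hj with rfl | hj
      · exact absurd hxj hxi
      · exact ⟨j, hj, hxj⟩
    · intro j hj l hl x hx y hy
      exact hd j (Finset.mem_insert_of_mem hj) l (Finset.mem_insert_of_mem hl) x hx.1 y hy.1

theorem scl_map {s : Set α} {s' : Set β} (hs : DP k (fun x => x ∈ s)) (hs' : DP k (fun x => x ∈ s'))
    (f : α → β) (hf : DF k f) (h : Set.BijOn f s s') : scl k s = scl k s' :=
  cls_map (Good.eq hs) (Good.eq hs') f hf h.mapsTo
    (fun _ hx _ hy => (h.injOn.eq_iff hx hy).symm) fun _ hy => h.surjOn hy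

theorem scl_union {s t : Set α} (hs : DP k (fun x => x ∈ s)) (ht : DP k (fun x => x ∈ t))
    (hd : Disjoint s t) : scl k (s ∪ t) = scl k s + scl k t :=
  cls_union (Good.eq ((hs.or ht).congr fun _ => Iff.rfl)) hs ht
    (fun _ hx hxt => Set.disjoint_left.1 hd hx hxt)
    fun x hx _ hy hxy => Set.disjoint_left.1 hd hx (hxy ▸ hy)

end Pool.Agent.MRat
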