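import Pool.Agent.Lib.MP_923aff_ag.MKA
/-!
# JOB MKB: multiplication by the affine line, the `ℤ[X]`-module structure
-/

set_option autoImplicit false

namespace Pool.Agent.MRat

open Polynomial

variable {k : Type} [Field k] [IsAlgClosed k] [CharZero k]
variable {α β γ δ : Type} [Amb k α] [Amb k β] [Amb k γ] [Amb k δ]

/-- The relation `r ×` equality on `s × k`. -/
def rprod (k : Type) {α : Type} (r : α → α → Prop) : α × k → α × k → Prop :=
  fun p q => r p.1 q.1 ∧ p.2 = q.2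

/-- the product of a good relation with equality on an ambient type -/
theorem MKB_good_prod {s : Set α} {r : α → α → Prop} (h : Good k s r) :
    Good k (s ×ˢ (Set.univ : Set β)) (fun p q => r p.1 q.1 ∧ p.2 = q.2) where
  ds := (h.ds.comp (DF.fst (α := α) (β := β))).congr (by simp)
  dr := by
    have h1 : DP k (fun p : (α × β) × (α × β) => p.1.1 ∈ s ∧ p.2.1 ∈ s ∧ r p.1.1 p.2.1) :=
      h.dr.comp (f := fun p : (α × β) × (α × β) => (p.1.1, p.2.1))
        (DF.mk (DF.fst' DF.fst) (DF.fst' DF.snd))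
    have h2 : DP k (fun p : (α × β) × (α × β) => p.1.2 = p.2.2) :=
      DP.eq (DF.snd' DF.fst) (DF.snd' DF.snd)
    refine (h1.and h2).congr ?_
    rintro ⟨⟨a, b⟩, ⟨c, d⟩⟩
    simp only [Set.mem_prod, Set.mem_univ, and_true]
    tauto
  refl := by
    rintro ⟨a, b⟩ ⟨ha, -⟩
    exact ⟨h.refl a ha, rfl⟩
  symm := by
    rintro ⟨a, b⟩ ⟨ha, -⟩ ⟨c, d⟩ ⟨hc, -⟩ ⟨h1, h2⟩
    exact ⟨h.symm a ha c hc h1, h2.symm⟩
  trans := by
    rintro ⟨a, b⟩ ⟨ha, -⟩ ⟨c, d⟩ ⟨hc, -⟩ ⟨e, f⟩ ⟨he, -⟩ ⟨h1, h2⟩ ⟨h3, h4⟩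
    exact ⟨h.trans a ha c hc e he h1 h3, h2.trans h4⟩

theorem Good.prodk {s : Set α} {r : α → α → Prop} (h : Good k s r) :
    Good k (s ×ˢ (Set.univ : Set k)) (rprod k r) := MKB_good_prod h

theorem MKB_rels (z : FreeAbelianGroup (Gen k)) (hz : Rels k z) :
    FreeAbelianGroup.lift
      (fun g : Gen k => cls k (g.s ×ˢ (Set.univ : Set k)) (rprod k g.r)) z = 0 := by
  rcases hz with ⟨n, s, t, r, h, h1, h2, sat⟩ | ⟨n, m, s, r, s', r', h, h', f, hf, maps, iff, surj⟩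
  · rw [map_sub, map_sub, FreeAbelianGroup.lift_apply_of, FreeAbelianGroup.lift_apply_of,
      FreeAbelianGroup.lift_apply_of]
    simp only
    rw [cls_split h.prodk ((s ∩ t) ×ˢ (Set.univ : Set k)) h1.prodk.ds]
    · have e1 : (s ×ˢ (Set.univ : Set k)) ∩ ((s ∩ t) ×ˢ (Set.univ : Set k)) =
          (s ∩ t) ×ˢ (Set.univ : Set k) := by
        ext ⟨x, y⟩
        simp only [Set.mem_inter_iff, Set.mem_prod, Set.mem_univ, and_true]
        tauto
      have e2 : (s ×ˢ (Set.univ : Set k)) \ ((s ∩ t) ×ˢ (Set.univ : Set k)) =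
          (s \ t) ×ˢ (Set.univ : Set k) := by
        ext ⟨x, y⟩
        simp only [Set.mem_inter_iff, Set.mem_prod, Set.mem_univ, and_true, Set.mem_sdiff]
        tauto
      rw [e1, e2]
      abel
    · rintro ⟨x, a⟩ ⟨hx, -⟩ ⟨y, b⟩ ⟨hy, -⟩ ⟨hr, -⟩ ⟨⟨-, hxt⟩, -⟩
      exact ⟨⟨hy, sat x hx y hy hr hxt⟩, trivial⟩
  · rw [map_sub, FreeAbelianGroup.lift_apply_of, FreeAbelianGroup.lift_apply_of, sub_eq_zero]
    refine cls_map h.prodk h'.prodk (fun p => (f p.1, p.2)) (DF.mk (hf.comp DF.fst) DF.snd) ?_ ?_ ?_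
    · rintro ⟨x, a⟩ ⟨hx, -⟩
      exact ⟨maps x hx, trivial⟩
    · rintro ⟨x, a⟩ ⟨hx, -⟩ ⟨y, b⟩ ⟨hy, -⟩
      exact and_congr (iff x hx y hy) Iff.rfl
    · rintro ⟨y, b⟩ ⟨hy, -⟩
      obtain ⟨x, hx, hr⟩ := surj y hy
      exact ⟨(x, b), ⟨hx, trivial⟩, hr, rfl⟩

/-- Multiplication by the class of the affine line. -/
theorem exists_lmul (k : Type) [Field k] [IsAlgClosed k] [CharZero k] :
    ∃ φ : MK k →+ MK k, ∀ g : Gen k,
      φ (MK.of k g) = cls k (g.s ×ˢ (Set.univ : Set k)) (rprod k g.r) := by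
  refine ⟨QuotientAddGroup.lift _ (FreeAbelianGroup.lift
      (fun g : Gen k => cls k (g.s ×ˢ (Set.univ : Set k)) (rprod k g.r))) ?_, ?_⟩
  · intro z hz
    have h : AddSubgroup.closure {z | Rels k z} ≤ (FreeAbelianGroup.lift
      (fun g : Gen k => cls k (g.s ×ˢ (Set.univ : Set k)) (rprod k g.r))).ker := by
      rw [AddSubgroup.closure_le]
      intro w hw
      exact MKB_rels w hw
    exact h hz
  · intro g
    exact FreeAbelianGroup.lift_apply_of _ _

noncomputable def lmul (k : Type) [Field k] [IsAlgClosed k] [CharZero k] : MK k →+ MK k :=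
  (exists_lmul k).choose

noncomputable instance : Module ℤ[X] (MK k) :=
  Module.compHom (MK k) (Polynomial.eval₂RingHom' (Int.castRingHom (AddMonoid.End (MK k)))
    (lmul k) (fun a => Int.cast_commute a _))

theorem X_smul_eq (z : MK k) : (X : ℤ[X]) • z = lmul k z := by
  change (Polynomial.eval₂RingHom' (Int.castRingHom (AddMonoid.End (MK k)))
    (lmul k) (fun a => Int.cast_commute a _) X) z = lmul k z
  simp [Polynomial.eval₂RingHom']
  rfl

theorem MKB_lmul_of (g : Gen k) :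
    lmul k (MK.of k g) = cls k (g.s ×ˢ (Set.univ : Set k)) (rprod k g.r) :=
  (exists_lmul k).choose_spec g

/-- the coordinate version of a good relation -/
theorem MKB_good_coord {s : Set α} {r : α → α → Prop} (h : Good k s r) :
    Good k {x : Fin (Amb.dim k α) → k | (Amb.e (k := k) (α := α)).symm x ∈ s}
      (fun x y => r ((Amb.e (k := k) (α := α)).symm x) ((Amb.e (k := k) (α := α)).symm y)) where
  ds := h.ds.comp DF.e_symm
  dr := h.dr.comp (f := fun p : (Fin (Amb.dim k α) → k) × (Fin (Amb.dim k α) → k) =>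
    ((Amb.e (k := k) (α := α)).symm p.1, (Amb.e (k := k) (α := α)).symm p.2))
    (DF.mk (DF.e_symm.comp DF.fst) (DF.e_symm.comp DF.snd))
  refl := fun _ hx => h.refl _ hx
  symm := fun _ hx _ hy => h.symm _ hx _ hy
  trans := fun _ hx _ hy _ hz => h.trans _ hx _ hy _ hz

theorem X_smul_cls {s : Set α} {r : α → α → Prop} (h : Good k s r) :
    (X : ℤ[X]) • cls k s r = cls k (s ×ˢ (Set.univ : Set k)) (rprod k r) := by
  have h' := MKB_good_coord h
  have e1 : cls k s r = MK.of k ⟨_, _, _, h'⟩ := dif_pos h'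
  rw [e1, X_smul_eq, MKB_lmul_of]
  refine cls_map h'.prodk h.prodk (fun p => ((Amb.e (k := k) (α := α)).symm p.1, p.2))
    (DF.mk (DF.e_symm.comp DF.fst) DF.snd) ?_ ?_ ?_
  · rintro ⟨x, a⟩ ⟨hx, -⟩
    exact ⟨hx, trivial⟩
  · rintro ⟨x, a⟩ _ ⟨y, b⟩ _
    exact Iff.rfl
  · rintro ⟨y, b⟩ ⟨hy, -⟩
    refine ⟨(Amb.e (k := k) (α := α) y, b), ⟨?_, trivial⟩, ?_, rfl⟩
    · change (Amb.e (k := k) (α := α)).symm (Amb.e (k := k) (α := α) y) ∈ s
      rw [Equiv.symm_apply_apply]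
      exact hy
    · change r ((Amb.e (k := k) (α := α)).symm (Amb.e (k := k) (α := α) y)) y
      rw [Equiv.symm_apply_apply]
      exact h.refl y hy

/-- class of `s × {c}` -/
theorem MKB_single {s : Set α} {r : α → α → Prop} (h : Good k s r) (c : β) :
    cls k (s ×ˢ ({c} : Set β)) (fun p q => r p.1 q.1 ∧ p.2 = q.2) = cls k s r := by
  have hg : Good k (s ×ˢ ({c} : Set β)) (fun p q => r p.1 q.1 ∧ p.2 = q.2) := by
    refine (MKB_good_prod (β := β) h).mono ?_ ?_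
    · have h1 : DP k (fun p : α × β => p.2 = c) := DP.eq DF.snd (DF.const c)
      exact ((h.ds.comp (DF.fst (α := α) (β := β))).and h1).congr (by
        rintro ⟨a, b⟩
        simp)
    · rintro ⟨a, b⟩ ⟨ha, -⟩
      exact ⟨ha, trivial⟩
  refine cls_map hg h (fun p => p.1) DF.fst ?_ ?_ ?_
  · rintro ⟨x, a⟩ ⟨hx, -⟩
    exact hx
  · rintro ⟨x, a⟩ ⟨hx, ha⟩ ⟨y, b⟩ ⟨hy, hb⟩
    have h1 : a = c := ha
    have h2 : b = c := hb
    simp [h1, h2]
  · intro y hy
    exact ⟨(y, c), ⟨hy, rfl⟩, h.refl y hy⟩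

/-- class of `s ×` (k minus a finite set) -/
theorem cls_cofinite {s : Set α} {r : α → α → Prop} (h : Good k s r) (F : Finset k) :
    cls k (s ×ˢ {x : k | x ∉ F}) (rprod k r) = (X - C (F.card : ℤ) : ℤ[X]) • cls k s r := by
  have hdc : ∀ c : k, DP k (fun p : α × k => p.2 = c) := fun c => DP.eq DF.snd (DF.const c)
  have hdF : DP k (fun p : α × k => p.2 ∈ F) := by
    have h1 : DP k (fun p : α × k => ∃ c : F, p.2 = c) := DP.fex fun c => hdc c
    refine h1.congr ?_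
    rintro ⟨a, b⟩
    simp
  have hdt : DP k (fun p : α × k => p ∈ (Set.univ : Set α) ×ˢ {x : k | x ∉ F}) := by
    refine hdF.not.congr ?_
    rintro ⟨a, b⟩
    simp
  have h1 := cls_split h.prodk ((Set.univ : Set α) ×ˢ {x : k | x ∉ F}) hdt (by
    rintro ⟨x, a⟩ _ ⟨y, b⟩ _ ⟨_, hab⟩ ⟨_, ha⟩
    have hab' : a = b := hab
    subst hab'
    exact ⟨trivial, ha⟩)
  have e1 : (s ×ˢ (Set.univ : Set k)) ∩ ((Set.univ : Set α) ×ˢ {x : k | x ∉ F}) =
      s ×ˢ {x : k | x ∉ F} := by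
    ext ⟨x, a⟩
    simp
  have e2 : (s ×ˢ (Set.univ : Set k)) \ ((Set.univ : Set α) ×ˢ {x : k | x ∉ F}) =
      s ×ˢ {x : k | x ∈ F} := by
    ext ⟨x, a⟩
    simp
  rw [e1, e2] at h1
  have hg : Good k (s ×ˢ {x : k | x ∈ F}) (rprod k r) := by
    refine h.prodk.mono ?_ ?_
    · refine ((h.ds.comp (DF.fst (α := α) (β := k))).and hdF).congr ?_
      rintro ⟨a, b⟩
      simp
    · rintro ⟨a, b⟩ ⟨ha, -⟩
      exact ⟨ha, trivial⟩
  have h2 := cls_sum F hg (fun c => {p : α × k | p.2 = c}) (fun c _ => hdc c) (by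
      rintro ⟨x, a⟩ ⟨-, ha⟩
      exact ⟨a, ha, rfl⟩) (by
      rintro c _ d _ ⟨x, a⟩ _ ⟨y, b⟩ _ ⟨_, hab⟩ h3 h4
      have h5 : a = b := hab
      have h6 : a = c := h3
      have h7 : b = d := h4
      rw [← h6, ← h7, h5])
  have h3 : ∀ c ∈ F, cls k (s ×ˢ {x : k | x ∈ F} ∩ {p : α × k | p.2 = c}) (rprod k r) =
      cls k s r := by
    intro c hc
    rw [← MKB_single (β := k) h c]
    congr 1
    ext ⟨x, a⟩
    simp only [Set.mem_inter_iff, Set.mem_prod, Set.mem_ofPred_eq, Set.mem_singleton_iff]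
    constructor
    · rintro ⟨⟨h4, h5⟩, h6⟩
      exact ⟨h4, h6⟩
    · rintro ⟨h4, rfl⟩
      exact ⟨⟨h4, hc⟩, rfl⟩
  rw [Finset.sum_congr rfl h3, Finset.sum_const] at h2
  rw [sub_smul, X_smul_cls h, h1, h2]
  have h4 : (C (F.card : ℤ) : ℤ[X]) • cls k s r = F.card • cls k s r := by
    rw [← Nat.cast_smul_eq_nsmul ℤ[X]]
    simp
  rw [h4, add_sub_cancel_right]

/-- class of `s × k^*` -/
theorem cls_units {s : Set α} {r : α → α → Prop} (h : Good k s r) :
    cls k (s ×ˢ {x : k | x ≠ 0}) (rprod k r) = (X - 1 : ℤ[X]) • cls k s r := by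
  have h1 := cls_cofinite h {(0 : k)}
  simpa using h1

/-- class of `s × k ^ n` -/
theorem X_pow_smul_cls {s : Set α} {r : α → α → Prop} (h : Good k s r) (n : ℕ) :
    (X ^ n : ℤ[X]) • cls k s r =
      cls k (s ×ˢ (Set.univ : Set (Fin n → k))) (fun p q => r p.1 q.1 ∧ p.2 = q.2) := by
  induction n with
  | zero =>
    rw [pow_zero, one_smul]
    refine cls_map h (MKB_good_prod h) (fun x => (x, Fin.elim0)) (DF.mk DF.id (DF.const _)) ?_ ?_ ?_
    · intro x hx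
      exact ⟨hx, trivial⟩
    · intro x _ y _
      simp
    · rintro ⟨y, b⟩ ⟨hy, -⟩
      exact ⟨y, hy, h.refl y hy, Subsingleton.elim _ _⟩
  | succ n ih =>
    rw [pow_succ', mul_smul, ih, X_smul_cls (MKB_good_prod h)]
    have hf : DF k (fun p : (α × (Fin n → k)) × k =>
        ((p.1.1, Fin.cons p.2 p.1.2) : α × (Fin (n + 1) → k))) := by
      refine DF.mk (DF.fst' DF.fst) (DF.pi fun i => ?_)
      refine Fin.cases ?_ (fun j => ?_) i
      · exact DF.snd.congr fun a => by simp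
      · exact ((DF.snd' DF.fst).apply j).congr fun a => by simp
    refine cls_map (MKB_good_prod h).prodk (MKB_good_prod h) _ hf ?_ ?_ ?_
    · rintro ⟨⟨x, v⟩, a⟩ ⟨⟨hx, -⟩, -⟩
      exact ⟨hx, trivial⟩
    · rintro ⟨⟨x, v⟩, a⟩ _ ⟨⟨y, w⟩, b⟩ _
      simp only [rprod, Fin.cons_inj]
      tauto
    · rintro ⟨y, w⟩ ⟨hy, -⟩
      refine ⟨((y, Fin.tail w), w 0), ⟨⟨hy, trivial⟩, trivial⟩, h.refl y hy, ?_⟩
      exact Fin.cons_self_tail w

/-- The class of a point. -/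
noncomputable def pt (k : Type) [Field k] : MK k := scl k (Set.univ : Set Unit)

theorem scl_pow (n : ℕ) : scl k (Set.univ : Set (Fin n → k)) = (X ^ n : ℤ[X]) • pt k := by
  have hg : Good k (Set.univ : Set Unit) (fun x y => x = y) := Good.eq (DP.const True)
  have h1 := X_pow_smul_cls hg n
  unfold pt scl
  rw [h1]
  symm
  refine cls_map (MKB_good_prod hg) (Good.eq (DP.const True)) (fun p => p.2) DF.snd ?_ ?_ ?_
  · intro _ _
    trivial
  · rintro ⟨x, a⟩ _ ⟨y, b⟩ _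
    simp
  · intro y _
    exact ⟨((), y), ⟨trivial, trivial⟩, rfl⟩

/-- a set with one equivalence class -/
theorem cls_one_class {s : Set α} {r : α → α → Prop} (h : Good k s r) {a : α} (ha : a ∈ s)
    (h1 : ∀ x ∈ s, r a x) : cls k s r = pt k := by
  have hg : Good k (Set.univ : Set Unit) (fun x y => x = y) := Good.eq (DP.const True)
  refine cls_map h hg (fun _ => ()) (DF.const ()) ?_ ?_ ?_
  · intro _ _
    trivial
  · intro x hx y hy
    exact ⟨fun _ => rfl, fun _ => h.trans x hx a ha y hy (h.symm a ha x hx (h1 x hx)) (h1 y hy)⟩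
  · intro y _
    exact ⟨a, ha, rfl⟩

theorem scl_singleton (a : α) : scl k ({a} : Set α) = pt k := by
  have hg : Good k ({a} : Set α) (fun x y => x = y) :=
    Good.eq ((DP.eq DF.id (DF.const a)).congr fun x => by simp)
  exact cls_one_class hg (Set.mem_singleton a) fun x hx => (Set.mem_singleton_iff.mp hx).symm

end Pool.Agent.MRat
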