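import Pool.Agent.Lib.MP_923aff_ag.NADefs
/-!
# JOB NAA: `N`-spaces: first properties, additivity, isomorphisms, scaling
-/

set_option autoImplicit false

namespace Pool.Agent.MRat

variable {k : Type} [Field k] [IsAlgClosed k] [CharZero k]
variable {X Y Z : Type} [DT k X] [DT k Y] [DT k Z]

theorem TA.t_inv (A : TA k Y) (c : kˣ) (y : Y) : A.t c⁻¹ (A.t c y) = y := by
  rw [← A.t_mul]; simp [A.t_one]

theorem NA.t_w (A : NA k Y) (c : kˣ) (y : Y) : A.t c (A.w y) = A.w (A.t c⁻¹ y) := by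
  rw [A.w_t]; simp

theorem TA.St.dq {A : TA k Y} {s : Set Y} (h : A.St s) : DQ k s A.rel where
  ds := h.ds
  dr := by
    have hs := h.ds
    have h1 : DM k (fun p : Y × Y => ∃ c : kˣ, A.t c p.1 = p.2) := by fun_prop
    exact DM.and (by fun_prop) (DM.and (by fun_prop) h1)
  refl := fun x _ => ⟨1, A.t_one x⟩
  symm := by
    rintro x _ y _ ⟨c, rfl⟩
    exact ⟨c⁻¹, A.t_inv c x⟩
  trans := by
    rintro x _ y _ z _ ⟨c, rfl⟩ ⟨c', rfl⟩
    exact ⟨c' * c, A.t_mul _ _ _⟩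

theorem NA.St.dq {A : NA k Y} {s : Set Y} (h : A.St s) : DQ k s A.nrel where
  ds := h.ds
  dr := by
    have hs := h.ds
    have h1 : DM k (fun p : Y × Y => ∃ c : kˣ, A.t c p.1 = p.2 ∨ A.t c (A.w p.1) = p.2) := by
      fun_prop
    exact DM.and (by fun_prop) (DM.and (by fun_prop) h1)
  refl := fun x _ => ⟨1, Or.inl (A.t_one x)⟩
  symm := by
    rintro x _ y _ ⟨c, rfl | rfl⟩
    · exact ⟨c⁻¹, Or.inl (A.t_inv c x)⟩
    · refine ⟨c, Or.inr ?_⟩
      rw [A.w_t, A.w_w, ← A.t_mul, mul_inv_cancel, A.t_one]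
  trans := by
    rintro x _ y _ z _ ⟨c, rfl | rfl⟩ ⟨c', rfl | rfl⟩
    · exact ⟨c' * c, Or.inl (A.t_mul _ _ _)⟩
    · refine ⟨c' * c⁻¹, Or.inr ?_⟩
      rw [A.w_t, A.t_mul]
    · exact ⟨c' * c, Or.inr (A.t_mul _ _ _)⟩
    · refine ⟨c' * c⁻¹, Or.inl ?_⟩
      rw [A.w_t, A.w_w, A.t_mul]

theorem TA.St.prod {A : TA k Y} {s : Set Y} (h : A.St s) (B : TA k Z) {s' : Set Z}
    (h' : B.St s') : (A.prod B).St (s ×ˢ s') where
  ds := by
    have hs := h.ds
    have hs' := h'.ds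
    exact (DM.comp hs (f := fun p : Y × Z => p.1) (by fun_prop)).and
      (DM.comp hs' (f := fun p : Y × Z => p.2) (by fun_prop))
  t_mem := fun c _ hp => ⟨h.t_mem c _ hp.1, h'.t_mem c _ hp.2⟩

theorem NA.St.prod {A : NA k Y} {s : Set Y} (h : A.St s) (B : NA k Z) {s' : Set Z}
    (h' : B.St s') : (A.prod B).St (s ×ˢ s') where
  toSt := h.toSt.prod B.toTA h'.toSt
  w_mem := fun _ hp => ⟨h.w_mem _ hp.1, h'.w_mem _ hp.2⟩

theorem TA.St.univ (A : TA k Y) : A.St Set.univ where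
  ds := (DM.const' True).congr_iff fun x => by simp
  t_mem := fun _ _ _ => trivial
theorem NA.St.univ (A : NA k Y) : A.St Set.univ where
  toSt := TA.St.univ A.toTA
  w_mem := fun _ _ => trivial

theorem TA.St.union {A : TA k Y} {s s' : Set Y} (h : A.St s) (h' : A.St s') : A.St (s ∪ s') where
  ds := h.ds.or h'.ds
  t_mem := fun c y hy => hy.imp (h.t_mem c y) (h'.t_mem c y)
theorem TA.St.inter {A : TA k Y} {s s' : Set Y} (h : A.St s) (h' : A.St s') : A.St (s ∩ s') where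
  ds := h.ds.and h'.ds
  t_mem := fun c y hy => ⟨h.t_mem c y hy.1, h'.t_mem c y hy.2⟩
theorem TA.St.diff {A : TA k Y} {s s' : Set Y} (h : A.St s) (h' : A.St s') : A.St (s \ s') where
  ds := h.ds.and h'.ds.not
  t_mem := fun c y hy => ⟨h.t_mem c y hy.1, fun hc => hy.2 (by
    have h1 := h'.t_mem c⁻¹ _ hc
    rwa [A.t_inv] at h1)⟩
theorem NA.St.union {A : NA k Y} {s s' : Set Y} (h : A.St s) (h' : A.St s') : A.St (s ∪ s') where
  toSt := h.toSt.union h'.toSt
  w_mem := fun y hy => hy.imp (h.w_mem y) (h'.w_mem y)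
theorem NA.St.inter {A : NA k Y} {s s' : Set Y} (h : A.St s) (h' : A.St s') : A.St (s ∩ s') where
  toSt := h.toSt.inter h'.toSt
  w_mem := fun y hy => ⟨h.w_mem y hy.1, h'.w_mem y hy.2⟩
theorem NA.St.diff {A : NA k Y} {s s' : Set Y} (h : A.St s) (h' : A.St s') : A.St (s \ s') where
  toSt := h.toSt.diff h'.toSt
  w_mem := fun y hy => ⟨h.w_mem y hy.1, fun hc => hy.2 (by
    have h1 := h'.w_mem _ hc
    rwa [A.w_w] at h1)⟩

/-- Additivity. -/
theorem tcl_union {A : TA k Y} {s s' : Set Y} (h : A.St s) (h' : A.St s') (hd : Disjoint s s') :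
    tcl A (s ∪ s') = tcl A s + tcl A s' := by
  refine clq_union (h.union h').dq h.ds h'.ds (fun x hx hx' => Set.disjoint_left.1 hd hx hx') ?_
  rintro x hx y hy ⟨c, rfl⟩
  exact Set.disjoint_left.1 hd (h.t_mem c x hx) hy

theorem ncl_union {A : NA k Y} {s s' : Set Y} (h : A.St s) (h' : A.St s') (hd : Disjoint s s') :
    ncl A (s ∪ s') = ncl A s + ncl A s' := by
  refine clq_union (h.union h').dq h.ds h'.ds (fun x hx hx' => Set.disjoint_left.1 hd hx hx') ?_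
  rintro x hx y hy ⟨c, rfl | rfl⟩
  · exact Set.disjoint_left.1 hd (h.t_mem c x hx) hy
  · exact Set.disjoint_left.1 hd (h.t_mem c _ (h.w_mem x hx)) hy

theorem om_union {A : NA k Y} {s s' : Set Y} (h : A.St s) (h' : A.St s') (hd : Disjoint s s')
    (j : ℤ) : om A j (s ∪ s') = om A j s + om A j s' := by
  unfold om
  rw [Set.union_prod]
  exact ncl_union (h.prod _ (NA.St.univ _)) (h'.prod _ (NA.St.univ _))
    (Set.disjoint_prod.2 (Or.inl hd))

theorem tcl_empty (A : TA k Y) : tcl A (∅ : Set Y) = 0 := clq_empty _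
theorem ncl_empty (A : NA k Y) : ncl A (∅ : Set Y) = 0 := clq_empty _

private theorem NAA_st_bUnion {A : TA k Y} {ι : Type} (I : Finset ι) (s : ι → Set Y)
    (h : ∀ i ∈ I, A.St (s i)) : A.St (⋃ i ∈ I, s i) where
  ds := by
    classical
    revert h
    refine Finset.induction_on I ?_ ?_
    · intro _
      exact (DM.const' False).congr_iff fun x => by simp
    · intro a I _ ih h
      have h1 := ih fun i hi => h i (Finset.mem_insert_of_mem hi)
      have h2 := (h a (Finset.mem_insert_self _ _)).ds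
      exact (h2.or h1).congr_iff fun x => by simp
  t_mem := by
    intro c y hy
    simp only [Set.mem_iUnion] at hy ⊢
    obtain ⟨i, hi, hy⟩ := hy
    exact ⟨i, hi, (h i hi).t_mem c y hy⟩

private theorem NAA_nst_bUnion {A : NA k Y} {ι : Type} (I : Finset ι) (s : ι → Set Y)
    (h : ∀ i ∈ I, A.St (s i)) : A.St (⋃ i ∈ I, s i) where
  toSt := NAA_st_bUnion I s fun i hi => (h i hi).toSt
  w_mem := by
    intro y hy
    simp only [Set.mem_iUnion] at hy ⊢
    obtain ⟨i, hi, hy⟩ := hy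
    exact ⟨i, hi, (h i hi).w_mem y hy⟩

theorem tcl_sum {A : TA k Y} {ι : Type} (I : Finset ι) (s : ι → Set Y)
    (h : ∀ i ∈ I, A.St (s i)) (hd : ∀ i ∈ I, ∀ j ∈ I, i ≠ j → Disjoint (s i) (s j)) :
    tcl A (⋃ i ∈ I, s i) = ∑ i ∈ I, tcl A (s i) := by
  classical
  revert h hd
  refine Finset.induction_on I ?_ ?_
  · intro _ _
    simp only [Finset.notMem_empty, Set.iUnion_of_empty, Set.iUnion_empty, Finset.sum_empty]
    exact tcl_empty A
  · intro a I ha ih h hd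
    have h1 := ih (fun i hi => h i (Finset.mem_insert_of_mem hi))
      (fun i hi j hj => hd i (Finset.mem_insert_of_mem hi) j (Finset.mem_insert_of_mem hj))
    rw [Finset.sum_insert ha, ← h1, Finset.set_biUnion_insert]
    refine tcl_union (h a (Finset.mem_insert_self _ _))
      (NAA_st_bUnion I s fun i hi => h i (Finset.mem_insert_of_mem hi)) ?_
    rw [Set.disjoint_iUnion_right]
    intro i
    rw [Set.disjoint_iUnion_right]
    intro hi
    refine hd a (Finset.mem_insert_self _ _) i (Finset.mem_insert_of_mem hi) ?_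
    rintro rfl
    exact ha hi

theorem ncl_sum {A : NA k Y} {ι : Type} (I : Finset ι) (s : ι → Set Y)
    (h : ∀ i ∈ I, A.St (s i)) (hd : ∀ i ∈ I, ∀ j ∈ I, i ≠ j → Disjoint (s i) (s j)) :
    ncl A (⋃ i ∈ I, s i) = ∑ i ∈ I, ncl A (s i) := by
  classical
  revert h hd
  refine Finset.induction_on I ?_ ?_
  · intro _ _
    simp only [Finset.notMem_empty, Set.iUnion_of_empty, Set.iUnion_empty, Finset.sum_empty]
    exact ncl_empty A
  · intro a I ha ih h hd
    have h1 := ih (fun i hi => h i (Finset.mem_insert_of_mem hi))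
      (fun i hi j hj => hd i (Finset.mem_insert_of_mem hi) j (Finset.mem_insert_of_mem hj))
    rw [Finset.sum_insert ha, ← h1, Finset.set_biUnion_insert]
    refine ncl_union (h a (Finset.mem_insert_self _ _))
      (NAA_nst_bUnion I s fun i hi => h i (Finset.mem_insert_of_mem hi)) ?_
    rw [Set.disjoint_iUnion_right]
    intro i
    rw [Set.disjoint_iUnion_right]
    intro hi
    refine hd a (Finset.mem_insert_self _ _) i (Finset.mem_insert_of_mem hi) ?_
    rintro rfl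
    exact ha hi

/-- Equivariant bijections. -/
theorem tcl_congr {A : TA k Y} {B : TA k Z} {s : Set Y} {s' : Set Z} (h : A.St s) (h' : B.St s')
    (f : Y → Z) (hf : DM k f) (bij : Set.BijOn f s s')
    (ft : ∀ c, ∀ y ∈ s, f (A.t c y) = B.t c (f y)) : tcl A s = tcl B s' := by
  refine clq_map h.dq h'.dq f hf bij.mapsTo ?_ ?_
  · intro x hx y hy
    constructor
    · rintro ⟨c, rfl⟩
      exact ⟨c, (ft c x hx).symm⟩
    · rintro ⟨c, hc⟩
      rw [← ft c x hx] at hc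
      exact ⟨c, bij.injOn (h.t_mem c x hx) hy hc⟩
  · intro z hz
    obtain ⟨y, hy, rfl⟩ := bij.surjOn hz
    exact ⟨y, hy, 1, B.t_one _⟩

theorem ncl_congr {A : NA k Y} {B : NA k Z} {s : Set Y} {s' : Set Z} (h : A.St s) (h' : B.St s')
    (f : Y → Z) (hf : DM k f) (bij : Set.BijOn f s s')
    (ft : ∀ c, ∀ y ∈ s, f (A.t c y) = B.t c (f y)) (fw : ∀ y ∈ s, f (A.w y) = B.w (f y)) :
    ncl A s = ncl B s' := by
  refine clq_map h.dq h'.dq f hf bij.mapsTo ?_ ?_
  · intro x hx y hy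
    constructor
    · rintro ⟨c, rfl | rfl⟩
      · exact ⟨c, Or.inl (ft c x hx).symm⟩
      · refine ⟨c, Or.inr ?_⟩
        rw [ft c _ (h.w_mem x hx), fw x hx]
    · rintro ⟨c, hc | hc⟩
      · rw [← ft c x hx] at hc
        exact ⟨c, Or.inl (bij.injOn (h.t_mem c x hx) hy hc)⟩
      · rw [← fw x hx, ← ft c _ (h.w_mem x hx)] at hc
        exact ⟨c, Or.inr (bij.injOn (h.t_mem c _ (h.w_mem x hx)) hy hc)⟩
  · intro z hz
    obtain ⟨y, hy, rfl⟩ := bij.surjOn hz
    exact ⟨y, hy, 1, Or.inl (B.t_one _)⟩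

/-- Correspondences (relations which are bijective and equivariant). -/
theorem ncl_corr {A : NA k Y} {B : NA k Z} {s : Set Y} {s' : Set Z} (h : A.St s) (h' : B.St s')
    (F : Y → Z → Prop) (hF : DM k (fun p : Y × Z => F p.1 p.2))
    (left : ∀ y ∈ s, ∃! z, z ∈ s' ∧ F y z) (right : ∀ z ∈ s', ∃! y, y ∈ s ∧ F y z)
    (ft : ∀ c, ∀ y ∈ s, ∀ z ∈ s', F y z → F (A.t c y) (B.t c z))
    (fw : ∀ y ∈ s, ∀ z ∈ s', F y z → F (A.w y) (B.w z)) :
    ncl A s = ncl B s' := by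
  have ul : ∀ y ∈ s, ∀ z ∈ s', ∀ z' ∈ s', F y z → F y z' → z = z' := by
    intro y hy z hz z' hz' h1 h2
    exact (left y hy).unique ⟨hz, h1⟩ ⟨hz', h2⟩
  have ur : ∀ z ∈ s', ∀ y ∈ s, ∀ y' ∈ s, F y z → F y' z → y = y' := by
    intro z hz y hy y' hy' h1 h2
    exact (right z hz).unique ⟨hy, h1⟩ ⟨hy', h2⟩
  refine clq_corr h.dq h'.dq F hF ?_ ?_ ?_
  · intro y hy
    obtain ⟨z, hz, -⟩ := left y hy
    exact ⟨z, hz⟩
  · intro z hz
    obtain ⟨y, hy, -⟩ := right z hz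
    exact ⟨y, hy⟩
  · intro x hx y hy hxy x' hx' y' hy' hxy'
    constructor
    · rintro ⟨c, rfl | rfl⟩
      · exact ⟨c, Or.inl (ul _ hx' _ (h'.t_mem c y hy) _ hy' (ft c x hx y hy hxy) hxy')⟩
      · exact ⟨c, Or.inr (ul _ hx' _ (h'.t_mem c _ (h'.w_mem y hy)) _ hy'
          (ft c _ (h.w_mem x hx) _ (h'.w_mem y hy) (fw x hx y hy hxy)) hxy')⟩
    · rintro ⟨c, rfl | rfl⟩
      · exact ⟨c, Or.inl (ur _ hy' _ (h.t_mem c x hx) _ hx' (ft c x hx y hy hxy) hxy')⟩
      · exact ⟨c, Or.inr (ur _ hy' _ (h.t_mem c _ (h.w_mem x hx)) _ hx'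
          (ft c _ (h.w_mem x hx) _ (h'.w_mem y hy) (fw x hx y hy hxy)) hxy')⟩

private theorem NAA_om_congr {A : NA k Y} {B : NA k Z} {s : Set Y} {s' : Set Z} (h : A.St s)
    (h' : B.St s') (f : Y → Z) (hf : DM k f) (bij : Set.BijOn f s s')
    (ft : ∀ c, ∀ y ∈ s, f (A.t c y) = B.t c (f y)) (fw : ∀ y ∈ s, f (A.w y) = B.w (f y)) (j : ℤ) :
    om A j s = om B j s' := by
  refine ncl_congr (h.prod _ (NA.St.univ _)) (h'.prod _ (NA.St.univ _))
    (fun p => (f p.1, p.2)) ?_ ?_ ?_ ?_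
  · exact DM.mk (DM.comp hf (by fun_prop)) (by fun_prop)
  · refine ⟨?_, ?_, ?_⟩
    · rintro ⟨y, x⟩ ⟨hy, -⟩
      exact ⟨bij.mapsTo hy, trivial⟩
    · rintro ⟨y, x⟩ ⟨hy, -⟩ ⟨y', x'⟩ ⟨hy', -⟩ he
      simp only [Prod.mk.injEq] at he
      rw [Prod.mk.injEq]
      exact ⟨bij.injOn hy hy' he.1, he.2⟩
    · rintro ⟨z, x⟩ ⟨hz, -⟩
      obtain ⟨y, hy, rfl⟩ := bij.surjOn hz
      exact ⟨(y, x), ⟨hy, trivial⟩, rfl⟩
  · rintro c ⟨y, x⟩ ⟨hy, -⟩
    exact Prod.ext (ft c y hy) rfl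
  · rintro ⟨y, x⟩ ⟨hy, -⟩
    exact Prod.ext (fw y hy) rfl

theorem NGood.congr {m : ℕ} {A : NA k Y} {B : NA k Z} {s : Set Y} {s' : Set Z}
    (hg : NGood m A s) (h' : B.St s')
    (f : Y → Z) (hf : DM k f) (bij : Set.BijOn f s s')
    (ft : ∀ c, ∀ y ∈ s, f (A.t c y) = B.t c (f y)) (fw : ∀ y ∈ s, f (A.w y) = B.w (f y)) :
    NGood m B s' where
  st := h'
  fin := by
    intro z hz
    obtain ⟨y, hy, rfl⟩ := bij.surjOn hz
    refine (hg.fin y hy).subset ?_
    intro c hc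
    have hc' : B.t c (f y) = f y := hc
    rw [← ft c y hy] at hc'
    exact bij.injOn (hg.st.t_mem c y hy) hy hc'
  eq := by
    intro j hj hm
    rw [← tcl_congr hg.st.toSt h'.toSt f hf bij ft, ← ncl_congr hg.st h' f hf bij ft fw,
      ← NAA_om_congr hg.st h' f hf bij ft fw]
    exact hg.eq j hj hm

/-- The other direction: goodness of the target implies goodness of the source. -/
theorem NGood.congr' {m : ℕ} {A : NA k Y} {B : NA k Z} {s : Set Y} {s' : Set Z}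
    (h : A.St s) (hg : NGood m B s')
    (f : Y → Z) (hf : DM k f) (bij : Set.BijOn f s s')
    (ft : ∀ c, ∀ y ∈ s, f (A.t c y) = B.t c (f y)) (fw : ∀ y ∈ s, f (A.w y) = B.w (f y)) :
    NGood m A s where
  st := h
  fin := by
    intro y hy
    refine (hg.fin (f y) (bij.mapsTo hy)).subset ?_
    intro c hc
    have hc' : A.t c y = y := hc
    show B.t c (f y) = f y
    rw [← ft c y hy, hc']
  eq := by
    intro j hj hm
    rw [tcl_congr h.toSt hg.st.toSt f hf bij ft, ncl_congr h hg.st f hf bij ft fw,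
      NAA_om_congr h hg.st f hf bij ft fw]
    exact hg.eq j hj hm

/-- Replacing `t` by `t⁻¹` does not change anything. -/
theorem ncl_tinv {A B : NA k Y} (ht : ∀ c y, B.t c y = A.t c⁻¹ y) (hw : ∀ y, B.w y = A.w y)
    (s : Set Y) : ncl B s = ncl A s ∧ tcl B.toTA s = tcl A.toTA s ∧ (A.St s → B.St s) := by
  refine ⟨?_, ?_, ?_⟩
  · refine clq_congr fun x _ y _ => ?_
    constructor
    · rintro ⟨c, hc | hc⟩
      · exact ⟨c⁻¹, Or.inl (by rw [← ht]; exact hc)⟩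
      · exact ⟨c⁻¹, Or.inr (by rw [← ht, ← hw]; exact hc)⟩
    · rintro ⟨c, hc | hc⟩
      · exact ⟨c⁻¹, Or.inl (by rw [ht, inv_inv]; exact hc)⟩
      · exact ⟨c⁻¹, Or.inr (by rw [ht, inv_inv, hw]; exact hc)⟩
  · refine clq_congr fun x _ y _ => ?_
    constructor
    · rintro ⟨c, hc⟩
      exact ⟨c⁻¹, by rw [← ht]; exact hc⟩
    · rintro ⟨c, hc⟩
      exact ⟨c⁻¹, by rw [ht, inv_inv]; exact hc⟩
  · intro h
    refine ⟨⟨h.ds, ?_⟩, ?_⟩
    · intro c y hy
      rw [ht]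
      exact h.t_mem _ y hy
    · intro y hy
      rw [hw]
      exact h.w_mem y hy

theorem NGood.tinv {m : ℕ} {A B : NA k Y} (ht : ∀ c y, B.t c y = A.t c⁻¹ y)
    (hw : ∀ y, B.w y = A.w y) {s : Set Y} (h : NGood m A s) : NGood m B s where
  st := (ncl_tinv ht hw s).2.2 h.st
  fin := by
    intro y hy
    refine ((h.fin y hy).image (fun c => c⁻¹)).subset ?_
    intro c hc
    have hc' : B.t c y = y := hc
    rw [ht] at hc'
    exact ⟨c⁻¹, hc', inv_inv c⟩
  eq := by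
    intro j hj hm
    have h1 : om B j s = om A j s := by
      have h2 : ncl (B.prod (Gm k j)) (s ×ˢ (Set.univ : Set kˣ)) =
          ncl (A.prod (Gm k (-j))) (s ×ˢ (Set.univ : Set kˣ)) := by
        refine (ncl_tinv (A := A.prod (Gm k (-j))) (B := B.prod (Gm k j)) ?_ ?_ _).1
        · rintro c ⟨y, x⟩
          refine Prod.ext (ht c y) ?_
          simp
        · rintro ⟨y, x⟩
          exact Prod.ext (hw y) rfl
      have h3 : ncl (A.prod (Gm k (-j))) (s ×ˢ (Set.univ : Set kˣ)) = om A j s := by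
        refine ncl_congr (h.st.prod _ (NA.St.univ _)) (h.st.prod _ (NA.St.univ _))
          (fun p => (p.1, p.2⁻¹)) (by fun_prop) ?_ ?_ ?_
        · refine ⟨?_, ?_, ?_⟩
          · rintro ⟨y, x⟩ ⟨hy, -⟩
            exact ⟨hy, trivial⟩
          · rintro ⟨y, x⟩ ⟨hy, -⟩ ⟨y', x'⟩ ⟨hy', -⟩ he
            simp only [Prod.mk.injEq, inv_inj] at he
            rw [Prod.mk.injEq]
            exact he
          · rintro ⟨y, x⟩ ⟨hy, -⟩
            exact ⟨(y, x⁻¹), ⟨hy, trivial⟩, Prod.ext rfl (inv_inv x)⟩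
        · rintro c ⟨y, x⟩ ⟨hy, -⟩
          refine Prod.ext rfl ?_
          simp [mul_comm]
        · rintro ⟨y, x⟩ ⟨hy, -⟩
          rfl
      exact h2.trans h3
    rw [(ncl_tinv ht hw s).2.1, (ncl_tinv ht hw s).1, h1]
    exact h.eq j hj hm

/-- N8. -/
theorem NGood.union {m : ℕ} {A : NA k Y} {s s' : Set Y} (h : NGood m A s) (h' : NGood m A s')
    (hd : Disjoint s s') : NGood m A (s ∪ s') where
  st := h.st.union h'.st
  fin := by
    rintro y (hy | hy)
    · exact h.fin y hy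
    · exact h'.fin y hy
  eq := by
    intro j hj hm
    rw [tcl_union h.st.toSt h'.st.toSt hd, ncl_union h.st h'.st hd, om_union h.st h'.st hd,
      smul_add, ← h.eq j hj hm, ← h'.eq j hj hm]
    abel

theorem NGood.diff {m : ℕ} {A : NA k Y} {s s' : Set Y} (h : NGood m A s) (h' : NGood m A s')
    (hs : s' ⊆ s) : NGood m A (s \ s') where
  st := h.st.diff h'.st
  fin := fun y hy => h.fin y hy.1
  eq := by
    intro j hj hm
    have hd : Disjoint (s \ s') s' := Set.disjoint_sdiff_left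
    have hu : (s \ s') ∪ s' = s := Set.sdiff_union_of_subset hs
    have h1 := tcl_union (h.st.diff h'.st).toSt h'.st.toSt hd
    have h2 := ncl_union (h.st.diff h'.st) h'.st hd
    have h3 := om_union (h.st.diff h'.st) h'.st hd j
    rw [hu] at h1 h2 h3
    have h4 := h.eq j hj hm
    have h5 := h'.eq j hj hm
    rw [h1, h2, h3, smul_add, ← h5] at h4
    refine add_right_cancel (b := tcl A.toTA s' + om A j s') ?_
    rw [← h4]
    abel

theorem NGood.empty (m : ℕ) (A : NA k Y) : NGood m A ∅ where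
  st :=
    { ds := (DM.const' False).congr_iff fun x => by simp
      t_mem := fun _ _ h => h.elim
      w_mem := fun _ h => h.elim }
  fin := fun _ h => h.elim
  eq := by
    intro j _ _
    have h1 : om A j (∅ : Set Y) = 0 := by
      unfold om
      rw [Set.empty_prod]
      exact ncl_empty _
    rw [tcl_empty, ncl_empty, h1, add_zero, smul_zero]

theorem NGood.mono {m m' : ℕ} {A : NA k Y} {s : Set Y} (h : NGood m A s) (hm : m ∣ m') :
    NGood m' A s where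
  st := h.st
  fin := h.fin
  eq := fun j hj hm' => h.eq j hj (hm.trans hm')

omit [IsAlgClosed k] [CharZero k] [DT k Y] in
private theorem NAA_inj {s : Set Y} {l : kˣ → Y → Y}
    (l_one : ∀ y ∈ s, l 1 y = y) (l_mul : ∀ b c, ∀ y ∈ s, l (b * c) y = l b (l c y))
    (free : ∀ c, ∀ y ∈ s, l c y = y → c = 1) {y : Y} (hy : y ∈ s) {b c : kˣ}
    (hbc : l b y = l c y) : b = c := by
  have h1 : l (c⁻¹ * b) y = y := by
    rw [l_mul _ _ y hy, hbc, ← l_mul _ _ y hy, inv_mul_cancel, l_one y hy]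
  exact (inv_mul_eq_one.1 (free _ y hy h1)).symm

/-- N0 for `T`: a free action of `kˣ` on `s` with quotient `s'`. -/
theorem t_scaling (A : TA k Y) (B : TA k Z) {s : Set Y} {s' : Set Z} (h : A.St s) (h' : B.St s')
    (fin : B.Fin s') (π : Y → Z) (hπ : DM k π) (maps : ∀ y ∈ s, π y ∈ s')
    (surj : ∀ z ∈ s', ∃ y ∈ s, π y = z) (πt : ∀ c, ∀ y ∈ s, π (A.t c y) = B.t c (π y))
    (l : kˣ → Y → Y) (dl : DM k (fun p : kˣ × Y => l p.1 p.2)) (l_mem : ∀ c, ∀ y ∈ s, l c y ∈ s)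
    (l_one : ∀ y ∈ s, l 1 y = y) (l_mul : ∀ b c, ∀ y ∈ s, l (b * c) y = l b (l c y))
    (free : ∀ c, ∀ y ∈ s, l c y = y → c = 1)
    (fib : ∀ y ∈ s, ∀ y' ∈ s, (π y = π y' ↔ ∃ c, l c y = y'))
    (lt : ∀ b c, ∀ y ∈ s, l b (A.t c y) = A.t c (l b y)) :
    tcl A s = (L - 1) • tcl B s' := by
  have πl : ∀ c, ∀ y ∈ s, π (l c y) = π y := fun c y hy =>
    ((fib y hy _ (l_mem c y hy)).2 ⟨c, rfl⟩).symm
  obtain ⟨g1, g2⟩ := gm_lemma h.dq l dl l_mem (fun y hy => ⟨1, by rw [A.t_one, l_one y hy]⟩)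
    (fun b c y hy => ⟨1, by rw [A.t_one, l_mul b c y hy]⟩)
    (by
      rintro c x hx y hy ⟨d, rfl⟩
      exact ⟨d, (lt c d x hx).symm⟩)
    (by
      intro x hx
      have h1 : (⋃ e ∈ {e : kˣ | B.t e (π x) = π x}, {c : kˣ | l c x = A.t e x}).Finite := by
        refine (fin (π x) (maps x hx)).biUnion fun e _ => ?_
        refine Set.Subsingleton.finite ?_
        intro b hb c hc
        exact NAA_inj l_one l_mul free hx (hb.trans hc.symm)
      refine h1.subset ?_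
      rintro c ⟨d, hd⟩
      have h2 : l c x = A.t d⁻¹ x := by
        conv_rhs => rw [← hd]
        rw [A.t_inv]
      refine Set.mem_biUnion (x := d⁻¹) ?_ h2
      show B.t d⁻¹ (π x) = π x
      rw [← πt _ x hx, ← h2, πl c x hx])
  show clq k s A.rel = (L - 1) • clq k s' B.rel
  rw [g2]
  congr 1
  refine clq_map g1 h'.dq π hπ maps ?_ ?_
  · intro x hx y hy
    constructor
    · rintro ⟨c, d, rfl⟩
      refine ⟨d, ?_⟩
      rw [πt d _ (l_mem c x hx), πl c x hx]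
    · rintro ⟨d, hd⟩
      rw [← πt d x hx] at hd
      obtain ⟨c, hc⟩ := (fib _ (h.t_mem d x hx) y hy).1 hd
      exact ⟨c, d, by rw [← lt c d x hx]; exact hc⟩
  · intro z hz
    obtain ⟨y, hy, rfl⟩ := surj z hz
    exact ⟨y, hy, 1, B.t_one _⟩

/-- N0 for `N`. -/
theorem n_scaling (A : NA k Y) (B : NA k Z) {s : Set Y} {s' : Set Z} (h : A.St s) (h' : B.St s')
    (fin : B.toTA.Fin s') (π : Y → Z) (hπ : DM k π) (maps : ∀ y ∈ s, π y ∈ s')
    (surj : ∀ z ∈ s', ∃ y ∈ s, π y = z) (πt : ∀ c, ∀ y ∈ s, π (A.t c y) = B.t c (π y))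
    (πw : ∀ y ∈ s, π (A.w y) = B.w (π y))
    (l : kˣ → Y → Y) (dl : DM k (fun p : kˣ × Y => l p.1 p.2)) (l_mem : ∀ c, ∀ y ∈ s, l c y ∈ s)
    (l_one : ∀ y ∈ s, l 1 y = y) (l_mul : ∀ b c, ∀ y ∈ s, l (b * c) y = l b (l c y))
    (free : ∀ c, ∀ y ∈ s, l c y = y → c = 1)
    (fib : ∀ y ∈ s, ∀ y' ∈ s, (π y = π y' ↔ ∃ c, l c y = y'))
    (lt : ∀ b c, ∀ y ∈ s, l b (A.t c y) = A.t c (l b y))
    (lw : ∀ b, ∀ y ∈ s, l b (A.w y) = A.w (l b y)) :
    ncl A s = (L - 1) • ncl B s' := by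
  have πl : ∀ c, ∀ y ∈ s, π (l c y) = π y := fun c y hy =>
    ((fib y hy _ (l_mem c y hy)).2 ⟨c, rfl⟩).symm
  obtain ⟨g1, g2⟩ := gm_lemma h.dq l dl l_mem
    (fun y hy => ⟨1, Or.inl (by rw [A.t_one, l_one y hy])⟩)
    (fun b c y hy => ⟨1, Or.inl (by rw [A.t_one, l_mul b c y hy])⟩)
    (by
      rintro c x hx y hy ⟨d, rfl | rfl⟩
      · exact ⟨d, Or.inl (lt c d x hx).symm⟩
      · exact ⟨d, Or.inr (by rw [lt c d _ (h.w_mem x hx), lw c x hx])⟩)
    (by
      intro x hx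
      have hwx := h.w_mem x hx
      have h1 : (⋃ e ∈ {e : kˣ | B.t e (π x) = π x}, {c : kˣ | l c x = A.t e x}).Finite := by
        refine (fin (π x) (maps x hx)).biUnion fun e _ => ?_
        refine Set.Subsingleton.finite ?_
        intro b hb c hc
        exact NAA_inj l_one l_mul free hx (hb.trans hc.symm)
      have h3 : {e : kˣ | B.t e (B.w (π x)) = π x}.Finite := by
        by_cases hne : ∃ e₀ : kˣ, B.t e₀ (B.w (π x)) = π x
        · obtain ⟨e₀, he₀⟩ := hne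
          refine ((fin (π x) (maps x hx)).image (fun c => c * e₀)).subset ?_
          intro e he
          have he' : B.t e (B.w (π x)) = π x := he
          refine ⟨e * e₀⁻¹, ?_, by simp⟩
          show B.t (e * e₀⁻¹) (π x) = π x
          rw [B.t_mul]
          conv_lhs => rw [← he₀]
          rw [B.toTA.t_inv, he']
        · have h4 : {e : kˣ | B.t e (B.w (π x)) = π x} = ∅ := by
            ext e
            simp only [Set.mem_ofPred_eq, Set.mem_empty_iff_false, iff_false]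
            exact fun he => hne ⟨e, he⟩
          rw [h4]
          exact Set.finite_empty
      have h2 : (⋃ e ∈ {e : kˣ | B.t e (B.w (π x)) = π x},
          {c : kˣ | l c x = A.t e (A.w x)}).Finite := by
        refine h3.biUnion fun e _ => ?_
        refine Set.Subsingleton.finite ?_
        intro b hb c hc
        exact NAA_inj l_one l_mul free hx (hb.trans hc.symm)
      refine (h1.union h2).subset ?_
      rintro c ⟨d, hd | hd⟩
      · left
        have h2 : l c x = A.t d⁻¹ x := by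
          conv_rhs => rw [← hd]
          rw [A.toTA.t_inv]
        refine Set.mem_biUnion (x := d⁻¹) ?_ h2
        show B.t d⁻¹ (π x) = π x
        rw [← πt _ x hx, ← h2, πl c x hx]
      · right
        have h5 : A.w (l c x) = A.t d⁻¹ x := by
          conv_rhs => rw [← hd]
          rw [A.toTA.t_inv]
        have h2 : l c x = A.t d (A.w x) := by
          rw [← A.w_w (l c x), h5, A.w_t, inv_inv]
        refine Set.mem_biUnion (x := d) ?_ h2
        show B.t d (B.w (π x)) = π x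
        rw [← πw x hx, ← πt _ _ hwx, ← h2, πl c x hx])
  show clq k s A.nrel = (L - 1) • clq k s' B.nrel
  rw [g2]
  congr 1
  refine clq_map g1 h'.dq π hπ maps ?_ ?_
  · intro x hx y hy
    constructor
    · rintro ⟨c, d, rfl | rfl⟩
      · refine ⟨d, Or.inl ?_⟩
        rw [πt d _ (l_mem c x hx), πl c x hx]
      · refine ⟨d, Or.inr ?_⟩
        rw [πt d _ (h.w_mem _ (l_mem c x hx)), πw _ (l_mem c x hx), πl c x hx]
    · rintro ⟨d, hd | hd⟩
      · rw [← πt d x hx] at hd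
        obtain ⟨c, hc⟩ := (fib _ (h.t_mem d x hx) y hy).1 hd
        exact ⟨c, d, Or.inl (by rw [← lt c d x hx]; exact hc)⟩
      · rw [← πw x hx, ← πt d _ (h.w_mem x hx)] at hd
        obtain ⟨c, hc⟩ := (fib _ (h.t_mem d _ (h.w_mem x hx)) y hy).1 hd
        exact ⟨c, d, Or.inr (by rw [← lw c x hx, ← lt c d _ (h.w_mem x hx)]; exact hc)⟩
  · intro z hz
    obtain ⟨y, hy, rfl⟩ := surj z hz
    exact ⟨y, hy, 1, Or.inl (B.t_one _)⟩

/-- A line bundle over a `T`-space. -/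
@[simps] def TA.line (A : TA k Y) (χ : kˣ → Y → kˣ) (dχ : DM k (fun p : kˣ × Y => χ p.1 p.2))
    (χ1 : ∀ y, χ 1 y = 1) (χm : ∀ a b y, χ (a * b) y = χ a (A.t b y) * χ b y) :
    TA k (Y × k) where
  t c p := (A.t c p.1, χ c p.1 * p.2)
  t_one p := by simp [A.t_one, χ1]
  t_mul a b p := by simp [A.t_mul, χm, mul_assoc]
  dt := by
    have h1 : DM k (fun p : kˣ × Y × k => χ p.1 p.2.1) :=
      DM.comp dχ (by fun_prop : DM k (fun p : kˣ × Y × k => (p.1, p.2.1)))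
    fun_prop

/-- N2: `T`-line bundles over `T`-finite spaces. -/
theorem tcl_line (A : TA k Y) {s : Set Y} (h : A.St s) (fin : A.Fin s) (χ : kˣ → Y → kˣ)
    (dχ : DM k (fun p : kˣ × Y => χ p.1 p.2))
    (χ1 : ∀ y, χ 1 y = 1) (χm : ∀ a b y, χ (a * b) y = χ a (A.t b y) * χ b y) :
    tcl (A.line χ dχ χ1 χm) (s ×ˢ (Set.univ : Set k)) = L • tcl A s := by
  have hM : DMult k s (fun x y c => ∃ b : kˣ, A.t b x = y ∧ χ b x = c) := by
    refine ⟨h.ds, ?_, ?_, ?_, ?_, ?_⟩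
    · have hs := h.ds
      have h0 : DM k (fun p : (Y × Y × kˣ) × kˣ => χ p.2 p.1.1) :=
        DM.comp dχ (by fun_prop : DM k (fun p : (Y × Y × kˣ) × kˣ => (p.2, p.1.1)))
      have h1 : DM k (fun p : Y × Y × kˣ => ∃ b : kˣ, A.t b p.1 = p.2.1 ∧ χ b p.1 = p.2.2) := by
        refine DM.ex (P := fun (p : Y × Y × kˣ) (b : kˣ) => A.t b p.1 = p.2.1 ∧ χ b p.1 = p.2.2) ?_
        exact DM.and (by fun_prop) (DM.eq h0 (by fun_prop))
      exact DM.and (by fun_prop) (DM.and (by fun_prop) h1)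
    · intro x _
      exact ⟨1, A.t_one x, χ1 x⟩
    · rintro x _ y _ c ⟨b, rfl, rfl⟩
      refine ⟨b⁻¹, A.t_inv b x, ?_⟩
      have h1 := χm b⁻¹ b x
      rw [inv_mul_cancel, χ1] at h1
      exact eq_inv_of_mul_eq_one_left h1.symm
    · rintro x _ y _ z _ c c' ⟨b, rfl, rfl⟩ ⟨b', rfl, rfl⟩
      exact ⟨b' * b, A.t_mul _ _ _, χm b' b x⟩
    · intro x hx
      refine ((fin x hx).image (fun b => χ b x)).subset ?_
      rintro c ⟨b, h1, h2⟩
      exact ⟨b, h1, h2⟩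
  obtain ⟨-, -, h3⟩ := line_DT hM
  have e1 : tcl (A.line χ dχ χ1 χm) (s ×ˢ (Set.univ : Set k)) =
      clq k (s ×ˢ (Set.univ : Set k))
        (fun p q => ∃ c : kˣ, (∃ b : kˣ, A.t b p.1 = q.1 ∧ χ b p.1 = c) ∧ q.2 = c * p.2) := by
    refine clq_congr fun p _ q _ => ?_
    constructor
    · rintro ⟨b, rfl⟩
      exact ⟨χ b p.1, ⟨b, rfl, rfl⟩, rfl⟩
    · rintro ⟨c, ⟨b, h1, h2⟩, h3⟩
      subst h2
      exact ⟨b, Prod.ext h1 h3.symm⟩
  have e2 : tcl A s = clq k s (fun x y => ∃ c, ∃ b : kˣ, A.t b x = y ∧ χ b x = c) := by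
    refine clq_congr fun p _ q _ => ?_
    constructor
    · rintro ⟨b, hb⟩
      exact ⟨χ b p, b, hb, rfl⟩
    · rintro ⟨c, b, h1, -⟩
      exact ⟨b, h1⟩
  rw [e1, e2]
  exact h3

theorem tcl_prod_Kw (A : TA k Y) {s : Set Y} (h : A.St s) (fin : A.Fin s) (a : ℤ) :
    tcl (A.prod (Kw k a)) (s ×ˢ (Set.univ : Set k)) = L • tcl A s := by
  rw [← tcl_line A h fin (fun c _ => c ^ a) (by fun_prop) (fun y => one_zpow a)
    (fun b c y => mul_zpow b c a)]
  rfl

theorem tcl_prod_Gm (A : TA k Y) {s : Set Y} (h : A.St s) (fin : A.Fin s) (j : ℤ) :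
    tcl (A.prod (Gm k j).toTA) (s ×ˢ (Set.univ : Set kˣ)) = (L - 1) • tcl A s := by
  have hM : DMult k s (fun x y c => ∃ b : kˣ, A.t b x = y ∧ b ^ j = c) := by
    refine ⟨h.ds, ?_, ?_, ?_, ?_, ?_⟩
    · have hs := h.ds
      have h1 : DM k (fun p : Y × Y × kˣ => ∃ b : kˣ, A.t b p.1 = p.2.1 ∧ b ^ j = p.2.2) := by
        fun_prop
      exact DM.and (by fun_prop) (DM.and (by fun_prop) h1)
    · intro x _
      exact ⟨1, A.t_one x, one_zpow j⟩
    · rintro x _ y _ c ⟨b, rfl, rfl⟩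
      exact ⟨b⁻¹, A.t_inv b x, inv_zpow b j⟩
    · rintro x _ y _ z _ c c' ⟨b, rfl, rfl⟩ ⟨b', rfl, rfl⟩
      exact ⟨b' * b, A.t_mul _ _ _, mul_zpow b' b j⟩
    · intro x hx
      refine ((fin x hx).image (fun b => b ^ j)).subset ?_
      rintro c ⟨b, h1, h2⟩
      exact ⟨b, h1, h2⟩
  obtain ⟨-, h3⟩ := line_DT_units hM
  have e1 : tcl (A.prod (Gm k j).toTA) (s ×ˢ (Set.univ : Set kˣ)) =
      clq k (s ×ˢ (Set.univ : Set kˣ))
        (fun p q => ∃ c : kˣ, (∃ b : kˣ, A.t b p.1 = q.1 ∧ b ^ j = c) ∧ q.2 = c * p.2) := by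
    refine clq_congr fun p _ q _ => ?_
    constructor
    · rintro ⟨b, rfl⟩
      exact ⟨b ^ j, ⟨b, rfl, rfl⟩, rfl⟩
    · rintro ⟨c, ⟨b, h1, h2⟩, h3⟩
      subst h2
      exact ⟨b, Prod.ext h1 h3.symm⟩
  have e2 : tcl A s = clq k s (fun x y => ∃ c, ∃ b : kˣ, A.t b x = y ∧ b ^ j = c) := by
    refine clq_congr fun p _ q _ => ?_
    constructor
    · rintro ⟨b, hb⟩
      exact ⟨b ^ j, b, hb, rfl⟩
    · rintro ⟨c, b, h1, -⟩
      exact ⟨b, h1⟩
  rw [e1, e2]
  exact h3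

end Pool.Agent.MRat
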