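import Pool.Agent.Lib.MP_923aff_ag.NA1
/-!
# JOB NAB: products with `G_(j)` (N1, N3, N4, N9, N10)
-/

set_option autoImplicit false

namespace Pool.Agent.MRat

variable {k : Type} [Field k] [IsAlgClosed k] [CharZero k]
variable {X Y Z : Type} [DT k X] [DT k Y] [DT k Z]

/-- the `N`-space `kˣ` with trivial action of `T` and `w b = -b` -/
@[simps] private def nabSg (k : Type) [Field k] [IsAlgClosed k] [CharZero k] : NA k kˣ where
  t _ x := x
  t_one _ := rfl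
  t_mul _ _ _ := rfl
  dt := by fun_prop
  w x := (-1 : kˣ) * x
  w_w y := by simp
  w_t a y := rfl
  dw := by fun_prop

omit [IsAlgClosed k] in
private theorem nab_neg_one_ne : (-1 : kˣ) ≠ 1 := by
  intro h
  have h1 := congrArg Units.val h
  simp only [Units.val_neg, Units.val_one] at h1
  have h2 : (2 : k) = 0 := by linear_combination -h1
  exact two_ne_zero h2

private theorem nab_sg_rel (A : NA k Y) (y y' : Y) (b b' : kˣ) :
    (A.prod (nabSg k)).nrel (y, b) (y', b') ↔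
      ∃ c : kˣ, (A.t c y = y' ∧ b = b') ∨ (A.t c (A.w y) = y' ∧ (-1 : kˣ) * b = b') := by
  unfold NA.nrel
  simp only [NA.prod, TA.prod, nabSg, Prod.mk.injEq]

/-- `Y × kˣ` with `w b = -b`, by scaling. -/
private theorem nab_sg_univ (A : NA k Y) {s : Set Y} (h : A.St s) :
    ncl (A.prod (nabSg k)) (s ×ˢ (Set.univ : Set kˣ)) = (L - 1) • ncl A s := by
  have hst : (A.prod (nabSg k)).St (s ×ˢ (Set.univ : Set kˣ)) := h.prod _ (NA.St.univ _)
  have h1 := gm_lemma hst.dq (fun (c : kˣ) (p : Y × kˣ) => (p.1, c * p.2)) (by fun_prop)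
    (by
      rintro c ⟨y, b⟩ ⟨hy, _⟩
      exact ⟨hy, trivial⟩)
    (by
      rintro ⟨y, b⟩ ⟨hy, _⟩
      rw [nab_sg_rel]
      exact ⟨1, Or.inl ⟨A.t_one y, one_mul b⟩⟩)
    (by
      rintro b c ⟨y, d⟩ ⟨hy, _⟩
      rw [nab_sg_rel]
      exact ⟨1, Or.inl ⟨A.t_one y, mul_assoc _ _ _⟩⟩)
    (by
      rintro c ⟨y, b⟩ _ ⟨y', b'⟩ _ hr
      rw [nab_sg_rel] at hr ⊢
      obtain ⟨d, ⟨h1, h2⟩ | ⟨h1, h2⟩⟩ := hr
      · exact ⟨d, Or.inl ⟨h1, by rw [h2]⟩⟩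
      · exact ⟨d, Or.inr ⟨h1, by rw [← h2]; exact mul_left_comm _ _ _⟩⟩)
    (by
      rintro ⟨y, b⟩ _
      apply Set.Finite.subset (Set.toFinite {(1 : kˣ), -1})
      intro c hc
      have hc' : (A.prod (nabSg k)).nrel (y, c * b) (y, b) := hc
      rw [nab_sg_rel] at hc'
      obtain ⟨d, ⟨_, h2⟩ | ⟨_, h2⟩⟩ := hc'
      · left
        exact mul_eq_right.mp h2
      · right
        rw [← mul_assoc] at h2
        have h3 : (-1 : kˣ) * c = 1 := mul_eq_right.mp h2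
        have h4 : c = (-1 : kˣ)⁻¹ := eq_inv_of_mul_eq_one_right h3
        rw [h4]
        simp)
  unfold ncl at *
  rw [h1.2]
  congr 1
  refine clq_map h1.1 h.dq (fun p => p.1) (DM.fst DM.id') ?_ ?_ ?_
  · rintro ⟨y, b⟩ ⟨hy, _⟩
    exact hy
  · rintro ⟨y, b⟩ _ ⟨y', b'⟩ _
    constructor
    · rintro ⟨c, hc⟩
      have hc' : (A.prod (nabSg k)).nrel (y, c * b) (y', b') := hc
      rw [nab_sg_rel] at hc'
      obtain ⟨d, ⟨h1, _⟩ | ⟨h1, _⟩⟩ := hc'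
      · exact ⟨d, Or.inl h1⟩
      · exact ⟨d, Or.inr h1⟩
    · rintro ⟨d, h1 | h1⟩
      · refine ⟨b' * b⁻¹, ?_⟩
        show (A.prod (nabSg k)).nrel (y, b' * b⁻¹ * b) (y', b')
        rw [nab_sg_rel]
        exact ⟨d, Or.inl ⟨h1, by simp⟩⟩
      · refine ⟨-1 * (b' * b⁻¹), ?_⟩
        show (A.prod (nabSg k)).nrel (y, -1 * (b' * b⁻¹) * b) (y', b')
        rw [nab_sg_rel]
        exact ⟨d, Or.inr ⟨h1, by simp⟩⟩
  · intro y hy
    exact ⟨(y, 1), ⟨hy, trivial⟩, h.dq.refl y hy⟩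

/-- the induced part -/
private theorem nab_sg_pm (A : NA k Y) {s : Set Y} (h : A.St s) :
    (A.prod (nabSg k)).St {p : Y × kˣ | p.1 ∈ s ∧ (p.2 = 1 ∨ p.2 = -1)} ∧
    ncl (A.prod (nabSg k)) {p : Y × kˣ | p.1 ∈ s ∧ (p.2 = 1 ∨ p.2 = -1)} = tcl A.toTA s := by
  have hst : (A.prod (nabSg k)).St {p : Y × kˣ | p.1 ∈ s ∧ (p.2 = 1 ∨ p.2 = -1)} := by
    refine ⟨⟨?_, ?_⟩, ?_⟩
    · have := h.ds
      show DM k (fun p : Y × kˣ => p.1 ∈ s ∧ (p.2 = 1 ∨ p.2 = -1))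
      fun_prop
    · rintro c ⟨y, b⟩ ⟨hy, hb⟩
      exact ⟨h.t_mem c y hy, hb⟩
    · rintro ⟨y, b⟩ ⟨hy, hb⟩
      refine ⟨h.w_mem y hy, ?_⟩
      show (-1 : kˣ) * b = 1 ∨ (-1 : kˣ) * b = -1
      rcases hb with hb | hb
      · have hb' : b = 1 := hb
        rw [hb']; right; simp
      · have hb' : b = -1 := hb
        rw [hb']; left; simp
  refine ⟨hst, ?_⟩
  unfold ncl tcl
  symm
  refine clq_map h.toSt.dq hst.dq (fun y => (y, (1 : kˣ))) (by fun_prop) ?_ ?_ ?_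
  · intro y hy
    exact ⟨hy, Or.inl rfl⟩
  · intro y _ y' _
    rw [nab_sg_rel]
    constructor
    · rintro ⟨c, hc⟩
      exact ⟨c, Or.inl ⟨hc, rfl⟩⟩
    · rintro ⟨c, ⟨h1, _⟩ | ⟨_, h2⟩⟩
      · exact ⟨c, h1⟩
      · exfalso
        rw [mul_one] at h2
        exact nab_neg_one_ne h2
  · rintro ⟨y, b⟩ ⟨hy, hb⟩
    rcases hb with hb | hb
    · have hb' : b = 1 := hb
      subst hb'
      exact ⟨y, hy, hst.dq.refl _ ⟨hy, Or.inl rfl⟩⟩
    · have hb' : b = -1 := hb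
      subst hb'
      refine ⟨A.w y, h.w_mem y hy, ?_⟩
      rw [nab_sg_rel]
      refine ⟨1, Or.inr ⟨?_, by simp⟩⟩
      rw [A.t_one, A.w_w]

/-- the sections `x = ε`, `ε = 1, -1` of `Y × G_(0)` -/
private theorem nab_eps (A : NA k Y) {s : Set Y} (h : A.St s) (e : kˣ) (he : e⁻¹ = e) :
    (A.prod (Gm k 0)).St {p : Y × kˣ | p.1 ∈ s ∧ p.2 = e} ∧
    ncl (A.prod (Gm k 0)) {p : Y × kˣ | p.1 ∈ s ∧ p.2 = e} = ncl A s := by
  have hst : (A.prod (Gm k 0)).St {p : Y × kˣ | p.1 ∈ s ∧ p.2 = e} := by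
    refine ⟨⟨?_, ?_⟩, ?_⟩
    · have := h.ds
      show DM k (fun p : Y × kˣ => p.1 ∈ s ∧ p.2 = e)
      fun_prop
    · rintro c ⟨y, b⟩ ⟨hy, hb⟩
      refine ⟨h.t_mem c y hy, ?_⟩
      show c ^ (0 : ℤ) * b = e
      rw [zpow_zero, one_mul]; exact hb
    · rintro ⟨y, b⟩ ⟨hy, hb⟩
      refine ⟨h.w_mem y hy, ?_⟩
      show b⁻¹ = e
      have hb' : b = e := hb
      rw [hb', he]
  refine ⟨hst, ?_⟩
  symm
  refine ncl_congr h hst (fun y => (y, e)) (by fun_prop) ⟨?_, ?_, ?_⟩ ?_ ?_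
  · intro y hy
    exact ⟨hy, rfl⟩
  · intro y _ y' _ hyy
    exact (Prod.mk.inj hyy).1
  · rintro ⟨y, b⟩ ⟨hy, hb⟩
    have hb' : b = e := hb
    exact ⟨y, hy, by rw [hb']⟩
  · intro c y _
    show (A.t c y, e) = (A.t c y, c ^ (0 : ℤ) * e)
    rw [zpow_zero, one_mul]
  · intro y _
    show (A.w y, e) = (A.w y, e⁻¹)
    rw [he]

private theorem nab_rest_st0 (A : NA k Y) {s : Set Y} (h : A.St s) :
    (A.prod (Gm k 0)).St {p : Y × kˣ | p.1 ∈ s ∧ p.2 ≠ 1 ∧ p.2 ≠ -1} := by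
  refine ⟨⟨?_, ?_⟩, ?_⟩
  · have := h.ds
    show DM k (fun p : Y × kˣ => p.1 ∈ s ∧ p.2 ≠ 1 ∧ p.2 ≠ -1)
    fun_prop
  · rintro c ⟨y, b⟩ ⟨hy, hb⟩
    refine ⟨h.t_mem c y hy, ?_⟩
    show c ^ (0 : ℤ) * b ≠ 1 ∧ c ^ (0 : ℤ) * b ≠ -1
    rw [zpow_zero, one_mul]; exact hb
  · rintro ⟨y, b⟩ ⟨hy, hb1, hb2⟩
    refine ⟨h.w_mem y hy, ?_, ?_⟩
    · show b⁻¹ ≠ 1
      intro hc
      exact hb1 (inv_eq_one.mp hc)
    · show b⁻¹ ≠ -1
      intro hc
      apply hb2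
      show b = -1
      rw [← inv_inv b, hc]; simp

private theorem nab_rest_st1 (A : NA k Y) {s : Set Y} (h : A.St s) :
    (A.prod (nabSg k)).St {p : Y × kˣ | p.1 ∈ s ∧ p.2 ≠ 1 ∧ p.2 ≠ -1} := by
  refine ⟨⟨?_, ?_⟩, ?_⟩
  · have := h.ds
    show DM k (fun p : Y × kˣ => p.1 ∈ s ∧ p.2 ≠ 1 ∧ p.2 ≠ -1)
    fun_prop
  · rintro c ⟨y, b⟩ ⟨hy, hb⟩
    exact ⟨h.t_mem c y hy, hb⟩
  · rintro ⟨y, b⟩ ⟨hy, hb1, hb2⟩
    refine ⟨h.w_mem y hy, ?_, ?_⟩
    · show (-1 : kˣ) * b ≠ 1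
      intro hc
      apply hb2
      show b = -1
      have : b = (-1 : kˣ)⁻¹ := eq_inv_of_mul_eq_one_right hc
      rw [this]; simp
    · show (-1 : kˣ) * b ≠ -1
      intro hc
      apply hb1
      show b = 1
      exact mul_eq_left.mp hc

omit [IsAlgClosed k] [CharZero k] in
private theorem nab_val_ne {x : kˣ} (h1 : x ≠ 1) (h2 : x ≠ -1) :
    (x : k) - 1 ≠ 0 ∧ (x : k) + 1 ≠ 0 := by
  constructor
  · intro hc
    exact h1 (Units.ext (by rw [Units.val_one]; linear_combination hc))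
  · intro hc
    exact h2 (Units.ext (by rw [Units.val_neg, Units.val_one]; linear_combination hc))

/-- the Cayley transform -/
private theorem nab_rest_eq (A : NA k Y) {s : Set Y} (h : A.St s) :
    ncl (A.prod (Gm k 0)) {p : Y × kˣ | p.1 ∈ s ∧ p.2 ≠ 1 ∧ p.2 ≠ -1} =
      ncl (A.prod (nabSg k)) {p : Y × kˣ | p.1 ∈ s ∧ p.2 ≠ 1 ∧ p.2 ≠ -1} := by
  have two : (2 : k) ≠ 0 := two_ne_zero
  refine ncl_corr (nab_rest_st0 A h) (nab_rest_st1 A h)
    (fun p q => p.1 = q.1 ∧ (q.2 : k) * ((p.2 : k) + 1) = (p.2 : k) - 1) (by fun_prop) ?_ ?_ ?_ ?_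
  · rintro ⟨y, x⟩ ⟨hy, hx1, hx2⟩
    obtain ⟨h1, h2⟩ := nab_val_ne hx1 hx2
    have h1' : (x : k) - 1 ≠ 0 := h1
    have h2' : (x : k) + 1 ≠ 0 := h2
    refine ⟨(y, Units.mk0 (((x : k) - 1) / ((x : k) + 1)) (div_ne_zero h1' h2')),
      ⟨⟨hy, ?_, ?_⟩, rfl, ?_⟩, ?_⟩
    · intro hc
      have hc' := congrArg Units.val hc
      simp only [Units.val_mk0, Units.val_one] at hc'
      rw [div_eq_one_iff_eq h2'] at hc'
      apply two
      linear_combination -hc'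
    · intro hc
      have hc' := congrArg Units.val hc
      simp only [Units.val_mk0, Units.val_one, Units.val_neg] at hc'
      rw [div_eq_iff h2'] at hc'
      have h3 : (2 : k) * x = 0 := by linear_combination hc'
      rcases mul_eq_zero.mp h3 with h4 | h4
      · exact two h4
      · exact x.ne_zero h4
    · simp only [Units.val_mk0]
      rw [div_mul_cancel₀ _ h2']
    · rintro ⟨y', b⟩ ⟨_, hyy, hb⟩
      have hyy' : y = y' := hyy
      have hb' : (b : k) * ((x : k) + 1) = (x : k) - 1 := hb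
      rw [← hyy']
      congr 1
      apply Units.ext
      simp only [Units.val_mk0]
      rw [eq_div_iff h2']
      exact hb'
  · rintro ⟨y, b⟩ ⟨hy, hb1, hb2⟩
    obtain ⟨h1, h2⟩ := nab_val_ne hb1 hb2
    have h1' : (b : k) - 1 ≠ 0 := h1
    have h1'' : 1 - (b : k) ≠ 0 := by
      intro hc; apply h1'; linear_combination -hc
    have h2' : 1 + (b : k) ≠ 0 := by
      intro hc; apply h2; show (b : k) + 1 = 0; linear_combination hc
    refine ⟨(y, Units.mk0 ((1 + (b : k)) / (1 - (b : k))) (div_ne_zero h2' h1'')),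
      ⟨⟨hy, ?_, ?_⟩, rfl, ?_⟩, ?_⟩
    · intro hc
      have hc' := congrArg Units.val hc
      simp only [Units.val_mk0, Units.val_one] at hc'
      rw [div_eq_one_iff_eq h1''] at hc'
      have h3 : (2 : k) * b = 0 := by linear_combination hc'
      rcases mul_eq_zero.mp h3 with h4 | h4
      · exact two h4
      · exact b.ne_zero h4
    · intro hc
      have hc' := congrArg Units.val hc
      simp only [Units.val_mk0, Units.val_one, Units.val_neg] at hc'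
      rw [div_eq_iff h1''] at hc'
      apply two
      linear_combination hc'
    · simp only [Units.val_mk0]
      field_simp
      ring
    · rintro ⟨y', x⟩ ⟨_, hyy, hx⟩
      have hyy' : y' = y := hyy
      have hx' : (b : k) * ((x : k) + 1) = (x : k) - 1 := hx
      rw [hyy']
      congr 1
      apply Units.ext
      simp only [Units.val_mk0]
      rw [eq_div_iff h1'']
      linear_combination -hx'
  · rintro c ⟨y, x⟩ _ ⟨y', b⟩ _ ⟨h1, h2⟩
    have h1' : y = y' := h1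
    refine ⟨?_, ?_⟩
    · show A.t c y = A.t c y'
      rw [h1']
    · show (b : k) * (((c ^ (0 : ℤ) * x : kˣ) : k) + 1) = ((c ^ (0 : ℤ) * x : kˣ) : k) - 1
      rw [zpow_zero, one_mul]; exact h2
  · rintro ⟨y, x⟩ _ ⟨y', b⟩ _ ⟨h1, h2⟩
    have h1' : y = y' := h1
    have h2' : (b : k) * ((x : k) + 1) = (x : k) - 1 := h2
    refine ⟨?_, ?_⟩
    · show A.w y = A.w y'
      rw [h1']
    · show (((-1 : kˣ) * b : kˣ) : k) * (((x⁻¹ : kˣ) : k) + 1) = ((x⁻¹ : kˣ) : k) - 1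
      have hx : (x : k) ≠ 0 := x.ne_zero
      rw [Units.val_mul, Units.val_neg, Units.val_one, Units.val_inv_eq_inv_val]
      field_simp
      linear_combination -h2'

/-- N1: valid for every `N`-space. With `b = (x - 1) / (x + 1)` the action of `w` is `b ↦ -b`;
`x = 1`: `n`; `x = -1`: `n`; the rest is `kˣ` minus `{1, -1}` in the coordinate `b`: use the `G_m` lemma
(scaling of `b`) for the whole of `b ∈ kˣ`, and the part `b ∈ {1, -1}` is induced. -/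
theorem om_zero (A : NA k Y) {s : Set Y} (h : A.St s) :
    om A 0 s = (1 + L) • ncl A s - tcl A.toTA s := by
  obtain ⟨st1, e1⟩ := nab_eps A h 1 (by simp)
  obtain ⟨st2, e2⟩ := nab_eps A h (-1) (by simp)
  have st3 := nab_rest_st0 A h
  have e3 := nab_rest_eq A h
  obtain ⟨st4, e4⟩ := nab_sg_pm A h
  have st5 := nab_rest_st1 A h
  have e6 := nab_sg_univ A h
  have u1 : s ×ˢ (Set.univ : Set kˣ) = {p : Y × kˣ | p.1 ∈ s ∧ p.2 = 1} ∪
      ({p : Y × kˣ | p.1 ∈ s ∧ p.2 = -1} ∪ {p : Y × kˣ | p.1 ∈ s ∧ p.2 ≠ 1 ∧ p.2 ≠ -1}) := by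
    ext ⟨y, x⟩
    simp only [Set.mem_prod, Set.mem_univ, and_true, Set.mem_union, Set.mem_ofPred_eq]
    tauto
  have u2 : s ×ˢ (Set.univ : Set kˣ) = {p : Y × kˣ | p.1 ∈ s ∧ (p.2 = 1 ∨ p.2 = -1)} ∪
      {p : Y × kˣ | p.1 ∈ s ∧ p.2 ≠ 1 ∧ p.2 ≠ -1} := by
    ext ⟨y, x⟩
    simp only [Set.mem_prod, Set.mem_univ, and_true, Set.mem_union, Set.mem_ofPred_eq]
    tauto
  have d1 : Disjoint {p : Y × kˣ | p.1 ∈ s ∧ p.2 = 1}
      ({p : Y × kˣ | p.1 ∈ s ∧ p.2 = -1} ∪ {p : Y × kˣ | p.1 ∈ s ∧ p.2 ≠ 1 ∧ p.2 ≠ -1}) := by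
    rw [Set.disjoint_left]
    rintro ⟨y, x⟩ ⟨_, hx⟩ (⟨_, hx'⟩ | ⟨_, hx', _⟩)
    · have h1 : x = 1 := hx
      have h2 : x = -1 := hx'
      exact nab_neg_one_ne (h2.symm.trans h1)
    · exact hx' hx
  have d2 : Disjoint {p : Y × kˣ | p.1 ∈ s ∧ p.2 = -1}
      {p : Y × kˣ | p.1 ∈ s ∧ p.2 ≠ 1 ∧ p.2 ≠ -1} := by
    rw [Set.disjoint_left]
    rintro ⟨y, x⟩ ⟨_, hx⟩ ⟨_, _, hx'⟩
    exact hx' hx
  have d3 : Disjoint {p : Y × kˣ | p.1 ∈ s ∧ (p.2 = 1 ∨ p.2 = -1)}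
      {p : Y × kˣ | p.1 ∈ s ∧ p.2 ≠ 1 ∧ p.2 ≠ -1} := by
    rw [Set.disjoint_left]
    rintro ⟨y, x⟩ ⟨_, hx⟩ ⟨_, hx', hx''⟩
    rcases hx with hx | hx
    · exact hx' hx
    · exact hx'' hx
  unfold om
  rw [u1, ncl_union st1 (st2.union st3) d1, ncl_union st2 st3 d2, e1, e2, e3]
  rw [u2, ncl_union st4 st5 d3, e4] at e6
  have e7 := eq_sub_of_add_eq' e6
  rw [e7, add_smul, sub_smul, one_smul]
  abel

theorem om_neg (A : NA k Y) {s : Set Y} (h : A.St s) (j : ℤ) : om A (-j) s = om A j s := by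
  unfold om
  refine ncl_congr (h.prod _ (NA.St.univ _)) (h.prod _ (NA.St.univ _)) (fun p => (p.1, p.2⁻¹))
    (by fun_prop) ⟨?_, ?_, ?_⟩ ?_ ?_
  · rintro ⟨y, x⟩ ⟨hy, _⟩
    exact ⟨hy, trivial⟩
  · rintro ⟨y, x⟩ _ ⟨y', x'⟩ _ hh
    obtain ⟨h1, h2⟩ := Prod.mk.inj hh
    have h1' : y = y' := h1
    have h2' : x⁻¹ = x'⁻¹ := h2
    rw [h1', inv_injective h2']
  · rintro ⟨y, x⟩ ⟨hy, _⟩
    exact ⟨(y, x⁻¹), ⟨hy, trivial⟩, by simp⟩
  · rintro c ⟨y, x⟩ _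
    show (A.t c y, (c ^ (-j) * x)⁻¹) = (A.t c y, c ^ j * x⁻¹)
    rw [mul_inv, zpow_neg, inv_inv]
  · rintro ⟨y, x⟩ _
    rfl

/-- the unimodular change of coordinates -/
private theorem nab_uni (i j : ℤ) (hij : i ≠ 0 ∨ j ≠ 0) :
    ∃ a b i' j' : ℤ, i = (Int.gcd i j : ℤ) * i' ∧ j = (Int.gcd i j : ℤ) * j' ∧
      a * i' + b * j' = 1 := by
  have hg : (Int.gcd i j : ℤ) ≠ 0 := by
    intro hc
    have hc' : Int.gcd i j = 0 := by exact_mod_cast hc
    rw [Int.gcd_eq_zero_iff] at hc'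
    rcases hij with h | h
    · exact h hc'.1
    · exact h hc'.2
  obtain ⟨i', hi'⟩ := Int.gcd_dvd_left (a := i) (b := j)
  obtain ⟨j', hj'⟩ := Int.gcd_dvd_right (a := i) (b := j)
  refine ⟨Int.gcdA i j, Int.gcdB i j, i', j', hi', hj', ?_⟩
  have h1 := Int.gcd_eq_gcd_ab i j
  apply mul_left_cancel₀ hg
  calc (Int.gcd i j : ℤ) * (Int.gcdA i j * i' + Int.gcdB i j * j')
      = (Int.gcd i j : ℤ) * i' * Int.gcdA i j + (Int.gcd i j : ℤ) * j' * Int.gcdB i j := by ring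
    _ = (Int.gcd i j : ℤ) * 1 := by rw [← hi', ← hj', mul_one]; exact h1.symm

omit [IsAlgClosed k] [CharZero k] in
private theorem nab_inv1 {x z : kˣ} {a b i' j' : ℤ} (h : a * i' + b * j' = 1) :
    (x ^ a * z ^ b) ^ i' * (x ^ (-j') * z ^ i') ^ (-b) = x ∧
    (x ^ a * z ^ b) ^ j' * (x ^ (-j') * z ^ i') ^ a = z := by
  constructor
  · rw [mul_zpow, mul_zpow, ← zpow_mul, ← zpow_mul, ← zpow_mul, ← zpow_mul]
    calc x ^ (a * i') * z ^ (b * i') * (x ^ (-j' * -b) * z ^ (i' * -b))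
        = x ^ (a * i') * x ^ (-j' * -b) * (z ^ (b * i') * z ^ (i' * -b)) := by
          rw [mul_mul_mul_comm]
      _ = x ^ (a * i' + b * j') * z ^ (0 : ℤ) := by
          rw [← zpow_add, ← zpow_add]
          congr 2 <;> ring
      _ = x := by rw [h, zpow_one, zpow_zero, mul_one]
  · rw [mul_zpow, mul_zpow, ← zpow_mul, ← zpow_mul, ← zpow_mul, ← zpow_mul]
    calc x ^ (a * j') * z ^ (b * j') * (x ^ (-j' * a) * z ^ (i' * a))
        = x ^ (a * j') * x ^ (-j' * a) * (z ^ (b * j') * z ^ (i' * a)) := by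
          rw [mul_mul_mul_comm]
      _ = x ^ (0 : ℤ) * z ^ (a * i' + b * j') := by
          rw [← zpow_add, ← zpow_add]
          congr 2 <;> ring
      _ = z := by rw [h, zpow_one, zpow_zero, one_mul]

omit [IsAlgClosed k] [CharZero k] in
private theorem nab_inv2 {u v : kˣ} {a b i' j' : ℤ} (h : a * i' + b * j' = 1) :
    (u ^ i' * v ^ (-b)) ^ a * (u ^ j' * v ^ a) ^ b = u ∧
    (u ^ i' * v ^ (-b)) ^ (-j') * (u ^ j' * v ^ a) ^ i' = v := by
  constructor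
  · rw [mul_zpow, mul_zpow, ← zpow_mul, ← zpow_mul, ← zpow_mul, ← zpow_mul, mul_mul_mul_comm,
      ← zpow_add, ← zpow_add]
    rw [show i' * a + j' * b = 1 by linear_combination h, show -b * a + a * b = 0 by ring]
    simp
  · rw [mul_zpow, mul_zpow, ← zpow_mul, ← zpow_mul, ← zpow_mul, ← zpow_mul, mul_mul_mul_comm,
      ← zpow_add, ← zpow_add]
    rw [show i' * -j' + j' * i' = 0 by ring, show -b * -j' + a * i' = 1 by linear_combination h]
    simp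

private theorem nab_om_om0 (A : NA k Y) {s : Set Y} (h : A.St s) (i j : ℤ)
    (hij : i ≠ 0 ∨ j ≠ 0) :
    om (A.prod (Gm k i)) j (s ×ˢ (Set.univ : Set kˣ)) =
      om (A.prod (Gm k (Int.gcd i j : ℤ))) 0 (s ×ˢ (Set.univ : Set kˣ)) := by
  obtain ⟨a, b, i', j', hi, hj, hab⟩ := nab_uni i j hij
  unfold om
  have hst1 : ((A.prod (Gm k i)).prod (Gm k j)).St ((s ×ˢ (Set.univ : Set kˣ)) ×ˢ
      (Set.univ : Set kˣ)) := (h.prod _ (NA.St.univ _)).prod _ (NA.St.univ _)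
  have hst2 : ((A.prod (Gm k (Int.gcd i j : ℤ))).prod (Gm k 0)).St ((s ×ˢ (Set.univ : Set kˣ)) ×ˢ
      (Set.univ : Set kˣ)) := (h.prod _ (NA.St.univ _)).prod _ (NA.St.univ _)
  refine ncl_congr hst1 hst2
    (fun p => ((p.1.1, p.1.2 ^ a * p.2 ^ b), p.1.2 ^ (-j') * p.2 ^ i')) (by fun_prop)
    ⟨?_, ?_, ?_⟩ ?_ ?_
  · rintro ⟨⟨y, x⟩, z⟩ ⟨⟨hy, _⟩, _⟩
    exact ⟨⟨hy, trivial⟩, trivial⟩
  · rintro ⟨⟨y, x⟩, z⟩ _ ⟨⟨y', x'⟩, z'⟩ _ hh
    obtain ⟨h1, h2⟩ := Prod.mk.inj hh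
    obtain ⟨h3, h4⟩ := Prod.mk.inj h1
    have h2' : x ^ (-j') * z ^ i' = x' ^ (-j') * z' ^ i' := h2
    have h3' : y = y' := h3
    have h4' : x ^ a * z ^ b = x' ^ a * z' ^ b := h4
    obtain ⟨q1, q2⟩ := nab_inv1 (x := x) (z := z) hab
    obtain ⟨q3, q4⟩ := nab_inv1 (x := x') (z := z') hab
    have hx : x = x' := by rw [← q1, ← q3, h2', h4']
    have hz : z = z' := by rw [← q2, ← q4, h2', h4']
    rw [h3', hx, hz]
  · rintro ⟨⟨y, u⟩, v⟩ ⟨⟨hy, _⟩, _⟩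
    obtain ⟨q1, q2⟩ := nab_inv2 (u := u) (v := v) hab
    refine ⟨((y, u ^ i' * v ^ (-b)), u ^ j' * v ^ a), ⟨⟨hy, trivial⟩, trivial⟩, ?_⟩
    show ((y, (u ^ i' * v ^ (-b)) ^ a * (u ^ j' * v ^ a) ^ b),
      (u ^ i' * v ^ (-b)) ^ (-j') * (u ^ j' * v ^ a) ^ i') = ((y, u), v)
    rw [q1, q2]
  · rintro c ⟨⟨y, x⟩, z⟩ _
    show ((A.t c y, (c ^ i * x) ^ a * (c ^ j * z) ^ b), (c ^ i * x) ^ (-j') * (c ^ j * z) ^ i') =
      ((A.t c y, c ^ (Int.gcd i j : ℤ) * (x ^ a * z ^ b)),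
        c ^ (0 : ℤ) * (x ^ (-j') * z ^ i'))
    have e1 : (c ^ i * x) ^ a * (c ^ j * z) ^ b = c ^ (Int.gcd i j : ℤ) * (x ^ a * z ^ b) := by
      rw [mul_zpow, mul_zpow, mul_mul_mul_comm, ← zpow_mul, ← zpow_mul, ← zpow_add]
      congr 2
      calc i * a + j * b = (Int.gcd i j : ℤ) * i' * a + (Int.gcd i j : ℤ) * j' * b := by
            rw [← hi, ← hj]
        _ = (Int.gcd i j : ℤ) * (a * i' + b * j') := by ring
        _ = (Int.gcd i j : ℤ) := by rw [hab, mul_one]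
    have e2 : (c ^ i * x) ^ (-j') * (c ^ j * z) ^ i' = c ^ (0 : ℤ) * (x ^ (-j') * z ^ i') := by
      rw [mul_zpow, mul_zpow, mul_mul_mul_comm, ← zpow_mul, ← zpow_mul, ← zpow_add]
      congr 2
      calc i * -j' + j * i' = (Int.gcd i j : ℤ) * i' * -j' + (Int.gcd i j : ℤ) * j' * i' := by
            rw [← hi, ← hj]
        _ = 0 := by ring
    rw [e1, e2]
  · rintro ⟨⟨y, x⟩, z⟩ _
    show ((A.w y, x⁻¹ ^ a * z⁻¹ ^ b), x⁻¹ ^ (-j') * z⁻¹ ^ i') =
      ((A.w y, (x ^ a * z ^ b)⁻¹), (x ^ (-j') * z ^ i')⁻¹)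
    rw [mul_inv, mul_inv, inv_zpow, inv_zpow, inv_zpow, inv_zpow]

/-- N3: unimodular change of the two coordinates. -/
theorem om_om (A : NA k Y) {s : Set Y} (h : A.St s) (fin : A.toTA.Fin s) (i j : ℤ)
    (hij : i ≠ 0 ∨ j ≠ 0) :
    om (A.prod (Gm k i)) j (s ×ˢ (Set.univ : Set kˣ)) =
      (1 + L) • om A (Int.gcd i j : ℤ) s - (L - 1) • tcl A.toTA s := by
  rw [nab_om_om0 A h i j hij, om_zero _ (h.prod _ (NA.St.univ _))]
  have h1 := tcl_prod_Gm A.toTA h.toSt fin (Int.gcd i j : ℤ)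
  have h2 : (A.prod (Gm k (Int.gcd i j : ℤ))).toTA = A.toTA.prod (Gm k (Int.gcd i j : ℤ)).toTA :=
    rfl
  rw [h2, h1]
  rfl

private theorem nab_om_eq {m : ℕ} {A : NA k Y} {s : Set Y} (h : NGood m A s) (i : ℤ)
    (hi : (m : ℤ) ∣ i) : om A i s = (1 + L) • ncl A s - tcl A.toTA s := by
  by_cases h0 : i = 0
  · rw [h0]; exact om_zero A h.st
  · have h1 : om A i s = om A (i.natAbs : ℤ) s := by
      rcases Int.natAbs_eq i with h1 | h1
      · rw [← h1]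
      · conv_lhs => rw [h1]
        exact om_neg A h.st _
    rw [h1]
    have h2 := h.eq i.natAbs (by omega) (by
      have := Int.natAbs_dvd_natAbs.mpr hi
      simpa using this)
    rw [← h2]
    abel

/-- N4. -/
theorem NGood.prod_Gm {m : ℕ} {A : NA k Y} {s : Set Y} (h : NGood m A s) (i : ℤ)
    (hi : (m : ℤ) ∣ i) :
    NGood m (A.prod (Gm k i)) (s ×ˢ (Set.univ : Set kˣ)) ∧
    om A i s = (1 + L) • ncl A s - tcl A.toTA s ∧
    tcl (A.prod (Gm k i)).toTA (s ×ˢ (Set.univ : Set kˣ)) = (L - 1) • tcl A.toTA s := by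
  have h3 : tcl (A.prod (Gm k i)).toTA (s ×ˢ (Set.univ : Set kˣ)) = (L - 1) • tcl A.toTA s :=
    tcl_prod_Gm A.toTA h.st.toSt h.fin i
  refine ⟨⟨h.st.prod _ (NA.St.univ _), ?_, ?_⟩, nab_om_eq h i hi, h3⟩
  · rintro ⟨y, x⟩ ⟨hy, _⟩
    apply Set.Finite.subset (h.fin y hy)
    intro c hc
    exact (Prod.mk.inj hc).1
  · intro j hj hmj
    rw [h3, om_om A h.st h.fin i j (Or.inr (by omega))]
    have hg : (m : ℤ) ∣ (Int.gcd i j : ℤ) := by
      apply Int.dvd_coe_gcd hi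
      exact_mod_cast hmj
    have e1 : ncl (A.prod (Gm k i)) (s ×ˢ (Set.univ : Set kˣ)) = om A i s := rfl
    rw [e1, nab_om_eq h _ hg, nab_om_eq h i hi]
    abel

omit [CharZero k] in
private theorem nab_root (c : kˣ) (n : ℕ) (hn : 1 ≤ n) : ∃ e : kˣ, e ^ n = c := by
  obtain ⟨z, hz⟩ := IsAlgClosed.exists_pow_nat_eq (c : k) (show 0 < n by omega)
  have hz0 : z ≠ 0 := by
    rintro rfl
    rw [zero_pow (by omega)] at hz
    exact c.ne_zero hz.symm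
  exact ⟨Units.mk0 z hz0, Units.ext (by simpa using hz)⟩

private theorem nab_zroot (c : kˣ) (n : ℤ) (hn : n ≠ 0) : ∃ e : kˣ, e ^ n = c := by
  obtain ⟨e, he⟩ := nab_root c n.natAbs (by omega)
  rcases Int.natAbs_eq n with h | h
  · exact ⟨e, by rw [h, zpow_natCast]; exact he⟩
  · exact ⟨e⁻¹, by rw [h, zpow_neg, zpow_natCast, inv_pow, inv_inv]; exact he⟩

private theorem nab_pt {s : Set X} {r : X → X → Prop} (h : DQ k s r) (x : X) (hx : x ∈ s)
    (hr : ∀ y ∈ s, r x y) : clq k s r = pt k := by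
  rw [clq_one_class h x hx hr]
  have hg : DQ k (Set.univ : Set Unit) (fun x y => x = y) :=
    DQ.eq ((DM.const' True).congr_iff fun x => by simp)
  unfold cl clq
  exact cls_one_class hg.good (a := ()) ⟨(), rfl, trivial⟩ (by
    rintro ⟨⟩ _
    exact ⟨(), (), rfl, rfl, rfl⟩)

/-- N9. -/
theorem good_Gm (i : ℤ) (hi : i ≠ 0) : NGood 1 (Gm k i) Set.univ ∧
    ncl (Gm k i) Set.univ = pt k ∧ tcl (Gm k i).toTA Set.univ = pt k := by
  have hst : ∀ j : ℤ, (Gm k j).St Set.univ := fun j => NA.St.univ _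
  have trans : ∀ i : ℤ, i ≠ 0 → ∀ y : kˣ, ∃ c : kˣ, c ^ i * 1 = y := by
    intro i hi y
    obtain ⟨e, he⟩ := nab_zroot y i hi
    exact ⟨e, by rw [he, mul_one]⟩
  have hn : ∀ i : ℤ, i ≠ 0 → ncl (Gm k i) Set.univ = pt k := by
    intro i hi
    refine nab_pt (hst i).dq 1 trivial ?_
    intro y _
    obtain ⟨c, hc⟩ := trans i hi y
    exact ⟨c, Or.inl hc⟩
  have ht : ∀ i : ℤ, i ≠ 0 → tcl (Gm k i).toTA Set.univ = pt k := by
    intro i hi
    refine nab_pt (hst i).toSt.dq 1 trivial ?_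
    intro y _
    obtain ⟨c, hc⟩ := trans i hi y
    exact ⟨c, hc⟩
  refine ⟨⟨hst i, ?_, ?_⟩, hn i hi, ht i hi⟩
  · intro y _
    have hsub : {c : kˣ | (Gm k i).t c y = y} ⊆ {c : kˣ | c ^ i.natAbs = 1} := by
      intro c hc
      have hc' : c ^ i * y = y := hc
      have h1 : c ^ i = 1 := mul_eq_right.mp hc'
      show c ^ i.natAbs = 1
      rcases Int.natAbs_eq i with h | h
      · rw [h, zpow_natCast] at h1; exact h1
      · rw [h, zpow_neg, zpow_natCast, inv_eq_one] at h1; exact h1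
    apply Set.Finite.subset _ hsub
    have hpos : 0 < i.natAbs := by omega
    have : NeZero i.natAbs := ⟨by omega⟩
    have hF : Finite (rootsOfUnity i.natAbs k) := inferInstance
    have hfin : (rootsOfUnity i.natAbs k : Set kˣ).Finite := Set.finite_coe_iff.mp hF
    exact hfin.subset (fun c hc => (mem_rootsOfUnity _ _).mpr hc)
  · intro j hj _
    -- reduce to `Unit × G_(i)`
    let A0 : NA k Unit :=
      { t := fun _ y => y, t_one := fun _ => rfl, t_mul := fun _ _ _ => rfl, dt := by fun_prop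
        w := fun y => y, w_w := fun _ => rfl, w_t := fun _ _ => rfl, dw := by fun_prop }
    have hA0 : A0.St Set.univ := NA.St.univ _
    have hc : ∀ l : ℤ, ∀ j : ℤ, om (A0.prod (Gm k l)) j (Set.univ ×ˢ (Set.univ : Set kˣ)) =
        om (Gm k l) j Set.univ := by
      intro l j
      unfold om
      refine ncl_congr ((hA0.prod _ (hst l)).prod _ (hst j)) ((hst l).prod _ (hst j))
        (fun p => (p.1.2, p.2)) (by fun_prop) ⟨?_, ?_, ?_⟩ ?_ ?_
      · rintro ⟨⟨y, x⟩, z⟩ _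
        exact ⟨trivial, trivial⟩
      · rintro ⟨⟨y, x⟩, z⟩ _ ⟨⟨y', x'⟩, z'⟩ _ hh
        obtain ⟨h1, h2⟩ := Prod.mk.inj hh
        have h1' : x = x' := h1
        have h2' : z = z' := h2
        rw [h1', h2']
      · rintro ⟨x, z⟩ _
        exact ⟨(((), x), z), ⟨⟨trivial, trivial⟩, trivial⟩, rfl⟩
      · rintro c ⟨⟨y, x⟩, z⟩ _
        rfl
      · rintro ⟨⟨y, x⟩, z⟩ _
        rfl
    have hgne : (Int.gcd i j : ℤ) ≠ 0 := by
      intro hcon
      have : Int.gcd i j = 0 := by exact_mod_cast hcon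
      rw [Int.gcd_eq_zero_iff] at this
      exact hi this.1
    rw [ht i hi, ← hc i j, nab_om_om0 A0 hA0 i j (Or.inl hi), hc,
      om_zero _ (hst _), hn _ hgne, ht _ hgne, hn i hi]
    abel

private theorem nab_mu {l g l' j' : ℕ} {a b : ℤ} (hl : l = g * l') (hg : 1 ≤ g)
    (hab : a * (g * j' : ℕ) + b * l = g) (ζ : kˣ) (hζ : ζ ^ l' = 1) :
    ∃ η : kˣ, η ^ l = 1 ∧ η ^ (g * j') = ζ := by
  obtain ⟨ξ, hξ⟩ := nab_root ζ g hg
  have h1 : ξ ^ l = 1 := by rw [hl, pow_mul, hξ, hζ]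
  refine ⟨ξ ^ a, ?_, ?_⟩
  · rw [← zpow_natCast, ← zpow_mul, mul_comm, zpow_mul, zpow_natCast, h1, one_zpow]
  · rw [← zpow_natCast, ← zpow_mul]
    have h2 : a * ((g * j' : ℕ) : ℤ) = g - l * b := by linear_combination hab
    rw [h2, zpow_sub, zpow_natCast, hξ, zpow_mul, zpow_natCast, h1, one_zpow]
    simp

private theorem nab_pow_fin (b : kˣ) (l : ℕ) (hl : 1 ≤ l) : {c : kˣ | c ^ l = b}.Finite := by
  obtain ⟨e, he⟩ := nab_root b l hl
  have : NeZero l := ⟨by omega⟩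
  have hF : Finite (rootsOfUnity l k) := inferInstance
  have hfin : (rootsOfUnity l k : Set kˣ).Finite := Set.finite_coe_iff.mp hF
  apply (hfin.image (fun z => e * z)).subset
  intro c hc
  have hc' : c ^ l = b := hc
  refine ⟨e⁻¹ * c, ?_, by simp⟩
  have : (e⁻¹ * c) ^ l = 1 := by rw [mul_pow, inv_pow, he, hc']; simp
  exact (mem_rootsOfUnity _ _).mpr this

/-- N10. -/
theorem NGood.pull {A : NA k Y} {s : Set Y} (h : NGood 1 A s) (l : ℕ) (hl : 1 ≤ l) :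
    NGood 1 (A.pull l) s ∧ ncl (A.pull l) s = ncl A s ∧
      tcl (A.pull l).toTA s = tcl A.toTA s := by
  have hst : (A.pull l).St s := by
    refine ⟨⟨h.st.ds, ?_⟩, ?_⟩
    · intro c y hy
      exact h.st.t_mem _ y hy
    · intro y hy
      exact h.st.w_mem y hy
  have hn : ncl (A.pull l) s = ncl A s := by
    unfold ncl
    refine clq_congr ?_
    intro x _ y _
    constructor
    · rintro ⟨c, hc⟩
      exact ⟨c ^ l, hc⟩
    · rintro ⟨c, hc⟩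
      obtain ⟨e, he⟩ := nab_root c l hl
      refine ⟨e, ?_⟩
      show A.t (e ^ l) x = y ∨ A.t (e ^ l) (A.w x) = y
      rw [he]; exact hc
  have ht : tcl (A.pull l).toTA s = tcl A.toTA s := by
    unfold tcl
    refine clq_congr ?_
    intro x _ y _
    constructor
    · rintro ⟨c, hc⟩
      exact ⟨c ^ l, hc⟩
    · rintro ⟨c, hc⟩
      obtain ⟨e, he⟩ := nab_root c l hl
      refine ⟨e, ?_⟩
      show A.t (e ^ l) x = y
      rw [he]; exact hc
  refine ⟨⟨hst, ?_, ?_⟩, hn, ht⟩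
  · intro y hy
    have h1 := h.fin y hy
    have h2 : {c : kˣ | (A.pull l).t c y = y} = (fun c : kˣ => c ^ l) ⁻¹' {c : kˣ | A.t c y = y} :=
      rfl
    show {c : kˣ | (A.pull l).t c y = y}.Finite
    rw [h2]
    apply Set.Finite.preimage' h1
    intro b _
    exact nab_pow_fin b l hl
  · intro j hj _
    -- `g = gcd(j, l)`
    let g := Nat.gcd j l
    have hg : 1 ≤ g := Nat.gcd_pos_of_pos_left l (by omega)
    obtain ⟨j', hj'⟩ : g ∣ j := Nat.gcd_dvd_left j l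
    obtain ⟨l', hl'⟩ : g ∣ l := Nat.gcd_dvd_right j l
    have hl'1 : 1 ≤ l' := by
      rcases Nat.eq_zero_or_pos l' with h0 | h0
      · rw [h0, mul_zero] at hl'; omega
      · exact h0
    have hj'1 : 1 ≤ j' := by
      rcases Nat.eq_zero_or_pos j' with h0 | h0
      · rw [h0, mul_zero] at hj'; omega
      · exact h0
    have hab : Nat.gcdA j l * ((g * j' : ℕ) : ℤ) + Nat.gcdB j l * l = g := by
      have h1 := Nat.gcd_eq_gcd_ab j l
      rw [← hj']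
      have h2 : (g : ℤ) = (Nat.gcd j l : ℤ) := rfl
      rw [h2, h1]; ring
    have e1 : om (A.pull l) j s = om A j' s := by
      unfold om
      have hs1 : ((A.pull l).prod (Gm k j)).St (s ×ˢ (Set.univ : Set kˣ)) :=
        hst.prod _ (NA.St.univ _)
      have hs2 : (A.prod (Gm k j')).St (s ×ˢ (Set.univ : Set kˣ)) := h.st.prod _ (NA.St.univ _)
      have key : ∀ c x1 x2 : kˣ, c ^ (j' : ℤ) * x1 ^ l' = x2 ^ l' →
          ∃ e : kˣ, e ^ l = c ∧ e ^ (j : ℤ) * x1 = x2 := by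
        intro c x1 x2 hc
        obtain ⟨e, he⟩ := nab_root c l hl
        have h1 : ((e ^ j * x1)⁻¹ * x2) ^ l' = 1 := by
          rw [mul_pow, inv_pow, mul_pow, ← hc, ← he, zpow_natCast, ← pow_mul, ← pow_mul]
          have h2 : j * l' = l * j' := by rw [hj', hl']; ring
          rw [h2]
          simp
        obtain ⟨η, hη1, hη2⟩ := nab_mu hl' hg hab _ h1
        refine ⟨e * η, by rw [mul_pow, he, hη1, mul_one], ?_⟩
        rw [zpow_natCast, mul_pow]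
        have h3 : η ^ j = (e ^ j * x1)⁻¹ * x2 := by rw [hj']; rw [hη2]; rw [← hj']
        rw [h3]
        calc e ^ j * ((e ^ j * x1)⁻¹ * x2) * x1 = (e ^ j * x1) * (e ^ j * x1)⁻¹ * x2 := by
              rw [mul_right_comm, ← mul_assoc]
          _ = x2 := by rw [mul_inv_cancel, one_mul]
      refine clq_map hs1.dq hs2.dq (fun p => (p.1, p.2 ^ l')) (by fun_prop) ?_ ?_ ?_
      · rintro ⟨y, x⟩ ⟨hy, _⟩
        exact ⟨hy, trivial⟩
      · rintro ⟨y1, x1⟩ _ ⟨y2, x2⟩ _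
        constructor
        · rintro ⟨c, hc | hc⟩
          · obtain ⟨h1, h2⟩ := Prod.mk.inj hc
            have h1' : A.t (c ^ l) y1 = y2 := h1
            have h2' : c ^ (j : ℤ) * x1 = x2 := h2
            refine ⟨c ^ l, Or.inl ?_⟩
            show (A.t (c ^ l) y1, (c ^ l) ^ (j' : ℤ) * x1 ^ l') = (y2, x2 ^ l')
            rw [h1', ← h2', mul_pow, zpow_natCast, zpow_natCast, ← pow_mul, ← pow_mul]
            congr 3
            rw [hj', hl']; ring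
          · obtain ⟨h1, h2⟩ := Prod.mk.inj hc
            have h1' : A.t (c ^ l) (A.w y1) = y2 := h1
            have h2' : c ^ (j : ℤ) * x1⁻¹ = x2 := h2
            refine ⟨c ^ l, Or.inr ?_⟩
            show (A.t (c ^ l) (A.w y1), (c ^ l) ^ (j' : ℤ) * (x1 ^ l')⁻¹) = (y2, x2 ^ l')
            rw [h1', ← h2', mul_pow, zpow_natCast, zpow_natCast, ← pow_mul, ← pow_mul, inv_pow]
            congr 3
            rw [hj', hl']; ring
        · rintro ⟨c, hc | hc⟩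
          · obtain ⟨h1, h2⟩ := Prod.mk.inj hc
            have h1' : A.t c y1 = y2 := h1
            have h2' : c ^ (j' : ℤ) * x1 ^ l' = x2 ^ l' := h2
            obtain ⟨e, he1, he2⟩ := key c x1 x2 h2'
            refine ⟨e, Or.inl ?_⟩
            show (A.t (e ^ l) y1, e ^ (j : ℤ) * x1) = (y2, x2)
            rw [he1, he2, h1']
          · obtain ⟨h1, h2⟩ := Prod.mk.inj hc
            have h1' : A.t c (A.w y1) = y2 := h1
            have h2' : c ^ (j' : ℤ) * (x1 ^ l')⁻¹ = x2 ^ l' := h2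
            rw [← inv_pow] at h2'
            obtain ⟨e, he1, he2⟩ := key c x1⁻¹ x2 h2'
            refine ⟨e, Or.inr ?_⟩
            show (A.t (e ^ l) (A.w y1), e ^ (j : ℤ) * x1⁻¹) = (y2, x2)
            rw [he1, he2, h1']
      · rintro ⟨y, x⟩ ⟨hy, _⟩
        obtain ⟨e, he⟩ := nab_root x l' hl'1
        refine ⟨(y, e), ⟨hy, trivial⟩, ?_⟩
        show (A.prod (Gm k j')).nrel (y, e ^ l') (y, x)
        rw [he]
        exact hs2.dq.refl _ ⟨hy, trivial⟩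
    rw [e1, hn, ht]
    exact h.eq j' hj'1 (one_dvd _)

end Pool.Agent.MRat
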