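import Pool.Agent.Lib.MP_923aff_ag.NA2
/-!
# JOB NAC: vector bundles (N5, N6)
-/

set_option autoImplicit false

namespace Pool.Agent.MRat

variable {k : Type} [Field k] [IsAlgClosed k] [CharZero k]
variable {X Y Z : Type} [DT k X] [DT k Y] [DT k Z]

/-! ### Auxiliary lemmas -/

private theorem NAC_fin {A : TA k Y} {B : TA k Z} {s : Set Y} {s' : Set Z} (fin : A.Fin s)
    (π : Z → Y) (maps : ∀ z ∈ s', π z ∈ s) (πt : ∀ c, ∀ z ∈ s', π (B.t c z) = A.t c (π z)) :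
    B.Fin s' := by
  intro z hz
  refine (fin (π z) (maps z hz)).subset ?_
  intro c hc
  have hc' : B.t c z = z := hc
  show A.t c (π z) = π z
  rw [← πt c z hz, hc']

private theorem NAC_fin_prod {A : TA k Y} {s : Set Y} (fin : A.Fin s) (B : TA k Z) (s' : Set Z) :
    (A.prod B).Fin (s ×ˢ s') :=
  NAC_fin fin Prod.fst (fun _ hz => hz.1) (fun _ _ _ => rfl)

private theorem NAC_st_univ {A : TA k Y} {B : TA k (Y × Z)} {s : Set Y} (h : A.St s)
    (ht : ∀ c p, (B.t c p).1 = A.t c p.1) : B.St (s ×ˢ (Set.univ : Set Z)) where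
  ds := by
    have h1 := h.ds
    have h2 : DM k (fun p : Y × Z => p.1 ∈ s) := by fun_prop
    exact h2.congr_iff (fun p => by simp)
  t_mem c p hp := by
    refine ⟨?_, trivial⟩
    rw [ht]
    exact h.t_mem c _ hp.1

private theorem NAC_nst_univ {A : NA k Y} {B : NA k (Y × Z)} {s : Set Y} (h : A.St s)
    (ht : ∀ c p, (B.t c p).1 = A.t c p.1) (hw : ∀ p, (B.w p).1 = A.w p.1) :
    B.St (s ×ˢ (Set.univ : Set Z)) where
  toSt := NAC_st_univ h.toSt ht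
  w_mem p hp := by
    refine ⟨?_, trivial⟩
    rw [hw]
    exact h.w_mem _ hp.1

/-- Induced spaces. -/
private theorem NAC_induced (A : NA k Y) {s0 s : Set Y} (h0 : A.toTA.St s0) (h : A.St s)
    (hs : ∀ y, y ∈ s ↔ y ∈ s0 ∨ A.w y ∈ s0) (hd : ∀ y ∈ s0, A.w y ∉ s0) :
    ncl A s = tcl A.toTA s0 := by
  symm
  refine clq_map h0.dq h.dq (fun y => y) DM.id' (fun y hy => (hs y).2 (Or.inl hy)) ?_ ?_
  · intro x hx y hy
    constructor
    · rintro ⟨c, hc⟩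
      exact ⟨c, Or.inl hc⟩
    · rintro ⟨c, hc | hc⟩
      · exact ⟨c, hc⟩
      · exfalso
        apply hd x hx
        have h1 := h0.t_mem c⁻¹ y hy
        rw [← hc, A.toTA.t_inv] at h1
        exact h1
  · intro y hy
    rcases (hs y).1 hy with h1 | h1
    · exact ⟨y, h1, 1, Or.inl (A.t_one y)⟩
    · refine ⟨A.w y, h1, 1, Or.inr ?_⟩
      rw [A.w_w, A.t_one]

/-! ### A single coordinate -/

private theorem NAC_single_ncl (A : NA k Y) {s : Set Y} (h : A.St s) (fin : A.toTA.Fin s) (a : ℤ)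
    (c : Y → kˣ) (dc : DM k c)
    (cw : ∀ y, c (A.w y) * c y = 1) (ct : ∀ τ y, c (A.t τ y) = τ ^ (-2 * a) * c y) :
    ncl (A.single a c dc cw ct) (s ×ˢ Set.univ) = L • ncl A s := by
  have hds := h.ds
  have hs0 : (A.single a c dc cw ct).St {p : Y × k | p.1 ∈ s ∧ p.2 = 0} :=
    { ds := by
        have h1 : DM k (fun p : Y × k => p.1 ∈ s ∧ p.2 = 0) := by fun_prop
        exact h1
      t_mem := by
        rintro b ⟨y, u⟩ ⟨h1, h2⟩
        refine ⟨h.t_mem b y h1, ?_⟩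
        simp only at h2
        simp [h2]
      w_mem := by
        rintro ⟨y, u⟩ ⟨h1, h2⟩
        refine ⟨h.w_mem y h1, ?_⟩
        simp only at h2
        simp [h2] }
  have hs1 : (A.single a c dc cw ct).St {p : Y × k | p.1 ∈ s ∧ p.2 ≠ 0} :=
    { ds := by
        have h1 : DM k (fun p : Y × k => p.1 ∈ s ∧ p.2 ≠ 0) := by fun_prop
        exact h1
      t_mem := by
        rintro b ⟨y, u⟩ ⟨h1, h2⟩
        refine ⟨h.t_mem b y h1, ?_⟩
        have hz : (b : k) ^ a ≠ 0 := zpow_ne_zero _ b.ne_zero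
        simpa [hz] using h2
      w_mem := by
        rintro ⟨y, u⟩ ⟨h1, h2⟩
        refine ⟨h.w_mem y h1, ?_⟩
        simpa using h2 }
  have hu : (s ×ˢ (Set.univ : Set k)) = {p : Y × k | p.1 ∈ s ∧ p.2 = 0} ∪
      {p : Y × k | p.1 ∈ s ∧ p.2 ≠ 0} := by
    ext p
    simp only [Set.mem_prod, Set.mem_univ, and_true, Set.mem_union, Set.mem_setOf_eq]
    tauto
  have hd : Disjoint {p : Y × k | p.1 ∈ s ∧ p.2 = 0} {p : Y × k | p.1 ∈ s ∧ p.2 ≠ 0} := by
    rw [Set.disjoint_left]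
    rintro p ⟨_, h1⟩ ⟨_, h2⟩
    exact h2 h1
  rw [hu, ncl_union hs0 hs1 hd]
  have e0 : ncl (A.single a c dc cw ct) {p : Y × k | p.1 ∈ s ∧ p.2 = 0} = ncl A s := by
    refine ncl_congr hs0 h Prod.fst (by fun_prop) ⟨?_, ?_, ?_⟩ (fun _ _ _ => rfl)
      (fun _ _ => rfl)
    · intro p hp
      exact hp.1
    · rintro ⟨y, u⟩ ⟨_, h2⟩ ⟨y', u'⟩ ⟨_, h2'⟩ h3
      simp only at h2 h2' h3
      rw [h2, h2', h3]
    · intro y hy
      exact ⟨(y, 0), ⟨hy, rfl⟩, rfl⟩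
  have e1 : ncl (A.single a c dc cw ct) {p : Y × k | p.1 ∈ s ∧ p.2 ≠ 0} =
      (L - 1) • ncl A s := by
    refine n_scaling _ A hs1 h fin Prod.fst (by fun_prop) (fun p hp => hp.1)
      (fun y hy => ⟨(y, 1), ⟨hy, one_ne_zero⟩, rfl⟩) (fun _ _ _ => rfl) (fun _ _ => rfl)
      (fun b p => (p.1, (b : k) * p.2)) (by fun_prop) ?_ ?_ ?_ ?_ ?_ ?_ ?_
    · rintro b ⟨y, u⟩ ⟨h1, h2⟩
      exact ⟨h1, mul_ne_zero b.ne_zero h2⟩
    · rintro ⟨y, u⟩ _
      simp
    · rintro b b' ⟨y, u⟩ _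
      simp [mul_assoc]
    · rintro b ⟨y, u⟩ ⟨_, h2⟩ h3
      simp only [Prod.mk.injEq, true_and] at h3
      ext
      have h4 : ((b : k) - 1) * u = 0 := by linear_combination h3
      rcases mul_eq_zero.mp h4 with h5 | h5
      · rw [Units.val_one]
        linear_combination h5
      · exact absurd h5 h2
    · rintro ⟨y, u⟩ ⟨_, h2⟩ ⟨y', u'⟩ ⟨_, h2'⟩
      simp only at h2 h2' ⊢
      constructor
      · rintro rfl
        refine ⟨Units.mk0 (u' / u) (div_ne_zero h2' h2), ?_⟩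
        simp only [Units.val_mk0]
        rw [div_mul_cancel₀ _ h2]
      · rintro ⟨b, hb⟩
        exact congrArg Prod.fst hb
    · rintro b b' ⟨y, u⟩ _
      ext
      · rfl
      · simp only [NA.single_t]
        ring
    · rintro b ⟨y, u⟩ _
      ext
      · rfl
      · simp only [NA.single_w]
        ring
  rw [e0, e1, ← one_smul (Polynomial ℤ) (ncl A s), smul_smul, smul_smul, ← add_smul]
  congr 1
  ring

private theorem NAC_single_om (A : NA k Y) {s : Set Y} (h : A.St s) (fin : A.toTA.Fin s) (a : ℤ)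
    (c : Y → kˣ) (dc : DM k c)
    (cw : ∀ y, c (A.w y) * c y = 1) (ct : ∀ τ y, c (A.t τ y) = τ ^ (-2 * a) * c y) (j : ℤ) :
    om (A.single a c dc cw ct) j (s ×ˢ Set.univ) = L • om A j s := by
  have hp : (A.prod (Gm k j)).St (s ×ˢ (Set.univ : Set kˣ)) := h.prod _ (NA.St.univ _)
  have h1 := NAC_single_ncl (A.prod (Gm k j)) hp (NAC_fin_prod fin _ _) a
    (fun p => c p.1) (by fun_prop) (fun p => cw p.1) (fun τ p => ct τ p.1)
  unfold om
  rw [← h1]
  refine ncl_congr ((NAC_nst_univ h (fun _ _ => rfl) (fun _ => rfl)).prod _ (NA.St.univ _))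
    (NAC_nst_univ hp (fun _ _ => rfl) (fun _ => rfl)) (fun p => ((p.1.1, p.2), p.1.2))
    (by fun_prop) ⟨?_, ?_, ?_⟩ (fun _ _ _ => rfl) (fun _ _ => rfl)
  · rintro ⟨⟨y, u⟩, x⟩ hp
    exact ⟨⟨hp.1.1, trivial⟩, trivial⟩
  · rintro ⟨⟨y, u⟩, x⟩ _ ⟨⟨y', u'⟩, x'⟩ _ h3
    simp only [Prod.mk.injEq] at h3
    obtain ⟨⟨h4, h5⟩, h6⟩ := h3
    rw [h4, h5, h6]
  · rintro ⟨⟨y, x⟩, u⟩ hp
    exact ⟨((y, u), x), ⟨⟨hp.1.1, trivial⟩, trivial⟩, rfl⟩

/-! ### A pair of coordinates -/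

private noncomputable def NAC_u (x : k) : kˣ := open Classical in if h : x = 0 then 1 else Units.mk0 x h

omit [IsAlgClosed k] [CharZero k] in
private theorem NAC_u_coe {x : k} (h : x ≠ 0) : ((NAC_u x : kˣ) : k) = x := by
  unfold NAC_u
  rw [dif_neg h, Units.val_mk0]

private theorem NAC_u_dm {f : X → k} (hf : DM k f) : DM k (fun x => NAC_u (f x)) := by
  classical
  refine DM.to_units (DM.congr (f := fun x => if f x = 0 then (1 : k) else f x) (by fun_prop) ?_)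
  intro x
  unfold NAC_u
  by_cases h : f x = 0
  · rw [if_pos h, dif_pos h, Units.val_one]
  · rw [if_neg h, dif_neg h, Units.val_mk0]

private theorem NAC_pair_ncl {m : ℕ} {A : NA k Y} {s : Set Y} (hg : NGood m A s) (a b : ℤ)
    (hab : (m : ℤ) ∣ a - b) (c : Y → kˣ) (dc : DM k c)
    (cw : ∀ y, c (A.w y) * c y = 1) (ct : ∀ τ y, c (A.t τ y) = τ ^ (-a - b) * c y) :
    ncl (A.pair a b c dc cw ct) (s ×ˢ Set.univ) = (L ^ 2) • ncl A s := by
  have h := hg.st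
  have hds := h.ds
  have hs00 : (A.pair a b c dc cw ct).St {p : Y × k × k | p.1 ∈ s ∧ p.2.1 = 0 ∧ p.2.2 = 0} :=
    { ds := by
        have h1 : DM k (fun p : Y × k × k => p.1 ∈ s ∧ p.2.1 = 0 ∧ p.2.2 = 0) := by fun_prop
        exact h1
      t_mem := by
        rintro τ ⟨y, u, v⟩ ⟨h1, h2, h3⟩
        simp only at h2 h3
        refine ⟨h.t_mem τ y h1, ?_, ?_⟩
        · simp [h2]
        · simp [h3]
      w_mem := by
        rintro ⟨y, u, v⟩ ⟨h1, h2, h3⟩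
        simp only at h2 h3
        refine ⟨h.w_mem y h1, ?_, ?_⟩
        · simp [h3]
        · simp [h2] }
  have hs10 : (A.pair a b c dc cw ct).toTA.St
      {p : Y × k × k | p.1 ∈ s ∧ p.2.1 ≠ 0 ∧ p.2.2 = 0} :=
    { ds := by
        have h1 : DM k (fun p : Y × k × k => p.1 ∈ s ∧ p.2.1 ≠ 0 ∧ p.2.2 = 0) := by fun_prop
        exact h1
      t_mem := by
        rintro τ ⟨y, u, v⟩ ⟨h1, h2, h3⟩
        simp only at h2 h3
        refine ⟨h.t_mem τ y h1, ?_, ?_⟩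
        · have hz : (τ : k) ^ a ≠ 0 := zpow_ne_zero _ τ.ne_zero
          simpa [hz] using h2
        · simp [h3] }
  have hs1 : (A.pair a b c dc cw ct).St
      {p : Y × k × k | p.1 ∈ s ∧ ((p.2.1 ≠ 0 ∧ p.2.2 = 0) ∨ (p.2.1 = 0 ∧ p.2.2 ≠ 0))} :=
    { ds := by
        have h1 : DM k (fun p : Y × k × k => p.1 ∈ s ∧
          ((p.2.1 ≠ 0 ∧ p.2.2 = 0) ∨ (p.2.1 = 0 ∧ p.2.2 ≠ 0))) := by fun_prop
        exact h1
      t_mem := by
        rintro τ ⟨y, u, v⟩ ⟨h1, h2⟩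
        refine ⟨h.t_mem τ y h1, ?_⟩
        have hz : (τ : k) ^ a ≠ 0 := zpow_ne_zero _ τ.ne_zero
        have hz' : (τ : k) ^ b ≠ 0 := zpow_ne_zero _ τ.ne_zero
        simpa [hz, hz'] using h2
      w_mem := by
        rintro ⟨y, u, v⟩ ⟨h1, h2⟩
        refine ⟨h.w_mem y h1, ?_⟩
        simp only at h2
        rcases h2 with ⟨h2, h3⟩ | ⟨h2, h3⟩
        · right
          simp [h2, h3]
        · left
          simp [h2, h3] }
  have hs2 : (A.pair a b c dc cw ct).St {p : Y × k × k | p.1 ∈ s ∧ p.2.1 ≠ 0 ∧ p.2.2 ≠ 0} :=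
    { ds := by
        have h1 : DM k (fun p : Y × k × k => p.1 ∈ s ∧ p.2.1 ≠ 0 ∧ p.2.2 ≠ 0) := by fun_prop
        exact h1
      t_mem := by
        rintro τ ⟨y, u, v⟩ ⟨h1, h2, h3⟩
        simp only at h2 h3
        have hz : (τ : k) ^ a ≠ 0 := zpow_ne_zero _ τ.ne_zero
        have hz' : (τ : k) ^ b ≠ 0 := zpow_ne_zero _ τ.ne_zero
        refine ⟨h.t_mem τ y h1, ?_, ?_⟩
        · simpa [hz] using h2
        · simpa [hz'] using h3
      w_mem := by
        rintro ⟨y, u, v⟩ ⟨h1, h2, h3⟩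
        simp only at h2 h3
        refine ⟨h.w_mem y h1, ?_, ?_⟩
        · simpa using h3
        · simpa using h2 }
  have hu : (s ×ˢ (Set.univ : Set (k × k))) = {p : Y × k × k | p.1 ∈ s ∧ p.2.1 = 0 ∧ p.2.2 = 0} ∪
      ({p : Y × k × k | p.1 ∈ s ∧ ((p.2.1 ≠ 0 ∧ p.2.2 = 0) ∨ (p.2.1 = 0 ∧ p.2.2 ≠ 0))} ∪
      {p : Y × k × k | p.1 ∈ s ∧ p.2.1 ≠ 0 ∧ p.2.2 ≠ 0}) := by
    ext p
    simp only [Set.mem_prod, Set.mem_univ, and_true, Set.mem_union, Set.mem_setOf_eq]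
    tauto
  have hd1 : Disjoint {p : Y × k × k | p.1 ∈ s ∧ p.2.1 = 0 ∧ p.2.2 = 0}
      ({p : Y × k × k | p.1 ∈ s ∧ ((p.2.1 ≠ 0 ∧ p.2.2 = 0) ∨ (p.2.1 = 0 ∧ p.2.2 ≠ 0))} ∪
      {p : Y × k × k | p.1 ∈ s ∧ p.2.1 ≠ 0 ∧ p.2.2 ≠ 0}) := by
    rw [Set.disjoint_left]
    intro p
    simp only [Set.mem_union, Set.mem_setOf_eq]
    tauto
  have hd2 : Disjoint
      {p : Y × k × k | p.1 ∈ s ∧ ((p.2.1 ≠ 0 ∧ p.2.2 = 0) ∨ (p.2.1 = 0 ∧ p.2.2 ≠ 0))}
      {p : Y × k × k | p.1 ∈ s ∧ p.2.1 ≠ 0 ∧ p.2.2 ≠ 0} := by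
    rw [Set.disjoint_left]
    intro p
    simp only [Set.mem_setOf_eq]
    tauto
  rw [hu, ncl_union hs00 (hs1.union hs2) hd1, ncl_union hs1 hs2 hd2]
  have e0 : ncl (A.pair a b c dc cw ct) {p : Y × k × k | p.1 ∈ s ∧ p.2.1 = 0 ∧ p.2.2 = 0} =
      ncl A s := by
    refine ncl_congr hs00 h Prod.fst (by fun_prop) ⟨?_, ?_, ?_⟩ (fun _ _ _ => rfl)
      (fun _ _ => rfl)
    · intro p hp
      exact hp.1
    · rintro ⟨y, u, v⟩ ⟨_, h2, h3⟩ ⟨y', u', v'⟩ ⟨_, h2', h3'⟩ h4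
      simp only at h2 h2' h3 h3' h4
      rw [h2, h2', h3, h3', h4]
    · intro y hy
      exact ⟨(y, 0, 0), ⟨hy, rfl, rfl⟩, rfl⟩
  have e1 : ncl (A.pair a b c dc cw ct)
      {p : Y × k × k | p.1 ∈ s ∧ ((p.2.1 ≠ 0 ∧ p.2.2 = 0) ∨ (p.2.1 = 0 ∧ p.2.2 ≠ 0))} =
      (L - 1) • tcl A.toTA s := by
    rw [NAC_induced _ hs10 hs1 ?_ ?_]
    · refine t_scaling _ A.toTA hs10 h.toSt hg.fin Prod.fst (by fun_prop) (fun p hp => hp.1)
        (fun y hy => ⟨(y, 1, 0), ⟨hy, one_ne_zero, rfl⟩, rfl⟩) (fun _ _ _ => rfl)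
        (fun b p => (p.1, (b : k) * p.2.1, p.2.2)) (by fun_prop) ?_ ?_ ?_ ?_ ?_ ?_
      · rintro b ⟨y, u, v⟩ ⟨h1, h2, h3⟩
        exact ⟨h1, mul_ne_zero b.ne_zero h2, h3⟩
      · rintro ⟨y, u, v⟩ _
        simp
      · rintro b b' ⟨y, u, v⟩ _
        simp [mul_assoc]
      · rintro b ⟨y, u, v⟩ ⟨_, h2, _⟩ h3
        simp only [Prod.mk.injEq, true_and, and_true] at h3
        ext
        have h4 : ((b : k) - 1) * u = 0 := by linear_combination h3
        rcases mul_eq_zero.mp h4 with h5 | h5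
        · rw [Units.val_one]
          linear_combination h5
        · exact absurd h5 h2
      · rintro ⟨y, u, v⟩ ⟨_, h2, h3⟩ ⟨y', u', v'⟩ ⟨_, h2', h3'⟩
        simp only at h2 h2' h3 h3' ⊢
        constructor
        · rintro rfl
          refine ⟨Units.mk0 (u' / u) (div_ne_zero h2' h2), ?_⟩
          simp only [Units.val_mk0]
          rw [div_mul_cancel₀ _ h2, h3, h3']
        · rintro ⟨b, hb⟩
          exact congrArg Prod.fst hb
      · rintro b b' ⟨y, u, v⟩ _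
        ext
        · rfl
        · simp only [NA.pair_t]
          ring
        · rfl
    · rintro ⟨y, u, v⟩
      simp only [Set.mem_setOf_eq, NA.pair_w, ne_eq, mul_eq_zero, Units.ne_zero, false_or]
      constructor
      · rintro ⟨h1, h2 | h2⟩
        · exact Or.inl ⟨h1, h2⟩
        · exact Or.inr ⟨h.w_mem y h1, h2.2, h2.1⟩
      · rintro (⟨h1, h2⟩ | ⟨h1, h2⟩)
        · exact ⟨h1, Or.inl h2⟩
        · refine ⟨?_, Or.inr ⟨h2.2, h2.1⟩⟩
          have h4 := h.w_mem _ h1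
          rwa [A.w_w] at h4
    · rintro ⟨y, u, v⟩ ⟨_, h2, h3⟩ ⟨_, h5, _⟩
      simp only at h2 h3
      simp [h3] at h5
  have e2 : ncl (A.pair a b c dc cw ct) {p : Y × k × k | p.1 ∈ s ∧ p.2.1 ≠ 0 ∧ p.2.2 ≠ 0} =
      (L - 1) • om A (a - b) s := by
    refine n_scaling _ (A.prod (Gm k (a - b))) hs2 (h.prod _ (NA.St.univ _))
      (NAC_fin_prod hg.fin _ _) (fun p => (p.1, NAC_u (p.2.1 / p.2.2)))
      (DM.mk (by fun_prop) (NAC_u_dm (by fun_prop))) (fun p hp => ⟨hp.1, trivial⟩)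
      (fun z hz => ⟨(z.1, (z.2 : k), 1), ⟨hz.1, z.2.ne_zero, one_ne_zero⟩, ?_⟩) ?_ ?_
      (fun b p => (p.1, (b : k) * p.2.1, (b : k) * p.2.2)) (by fun_prop) ?_ ?_ ?_ ?_ ?_ ?_ ?_
    · ext
      · rfl
      · simp only [div_one]
        exact NAC_u_coe z.2.ne_zero
    · rintro τ ⟨y, u, v⟩ ⟨_, h2, h3⟩
      simp only at h2 h3
      ext
      · rfl
      · have hz : (τ : k) ^ a ≠ 0 := zpow_ne_zero _ τ.ne_zero
        have hz' : (τ : k) ^ b ≠ 0 := zpow_ne_zero _ τ.ne_zero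
        simp only [NA.pair_t, NA.prod_t, Gm_t, Units.val_mul]
        rw [NAC_u_coe (div_ne_zero h2 h3), NAC_u_coe (div_ne_zero
          (mul_ne_zero hz h2) (mul_ne_zero hz' h3)), mul_div_mul_comm, Units.val_zpow_eq_zpow_val,
          zpow_sub₀ τ.ne_zero]
    · rintro ⟨y, u, v⟩ ⟨_, h2, h3⟩
      simp only at h2 h3
      ext
      · rfl
      · simp only [NA.pair_w, NA.prod_w, Gm_w]
        rw [NAC_u_coe (div_ne_zero (mul_ne_zero (Units.ne_zero _) h3)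
          (mul_ne_zero (Units.ne_zero _) h2)), mul_div_mul_left _ _ (Units.ne_zero _),
          Units.val_inv_eq_inv_val, NAC_u_coe (div_ne_zero h2 h3), inv_div]
    · rintro b ⟨y, u, v⟩ ⟨h1, h2, h3⟩
      exact ⟨h1, mul_ne_zero b.ne_zero h2, mul_ne_zero b.ne_zero h3⟩
    · rintro ⟨y, u, v⟩ _
      simp
    · rintro b b' ⟨y, u, v⟩ _
      simp [mul_assoc]
    · rintro b ⟨y, u, v⟩ ⟨_, h2, _⟩ h3
      simp only [Prod.mk.injEq, true_and] at h3
      ext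
      have h4 : ((b : k) - 1) * u = 0 := by linear_combination h3.1
      rcases mul_eq_zero.mp h4 with h5 | h5
      · rw [Units.val_one]
        linear_combination h5
      · exact absurd h5 h2
    · rintro ⟨y, u, v⟩ ⟨_, h2, h3⟩ ⟨y', u', v'⟩ ⟨_, h2', h3'⟩
      simp only [Prod.mk.injEq] at h2 h2' h3 h3' ⊢
      constructor
      · rintro ⟨rfl, h5⟩
        have h6 := congrArg Units.val h5
        rw [NAC_u_coe (div_ne_zero h2 h3), NAC_u_coe (div_ne_zero h2' h3'),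
          div_eq_div_iff h3 h3'] at h6
        refine ⟨Units.mk0 (u' / u) (div_ne_zero h2' h2), rfl, ?_, ?_⟩
        · rw [Units.val_mk0, div_mul_cancel₀ _ h2]
        · rw [Units.val_mk0, div_mul_eq_mul_div, div_eq_iff h2]
          linear_combination -h6
      · rintro ⟨b, h4, h5, h6⟩
        refine ⟨h4, ?_⟩
        rw [← h5, ← h6, mul_div_mul_left _ _ b.ne_zero]
    · rintro b b' ⟨y, u, v⟩ _
      ext
      · rfl
      · simp only [NA.pair_t]
        ring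
      · simp only [NA.pair_t]
        ring
    · rintro b ⟨y, u, v⟩ _
      ext
      · rfl
      · simp only [NA.pair_w]
        ring
      · simp only [NA.pair_w]
        ring
  have e3 := (hg.prod_Gm (a - b) hab).2.1
  rw [e0, e1, e2, e3]
  module

private theorem NAC_pair_om {m : ℕ} {A : NA k Y} {s : Set Y} (hg : NGood m A s) (a b : ℤ)
    (hab : (m : ℤ) ∣ a - b) (c : Y → kˣ) (dc : DM k c)
    (cw : ∀ y, c (A.w y) * c y = 1) (ct : ∀ τ y, c (A.t τ y) = τ ^ (-a - b) * c y) (j : ℤ)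
    (hj : (m : ℤ) ∣ j) :
    om (A.pair a b c dc cw ct) j (s ×ˢ Set.univ) = (L ^ 2) • om A j s := by
  have h := hg.st
  have hp : (A.prod (Gm k j)).St (s ×ˢ (Set.univ : Set kˣ)) := h.prod _ (NA.St.univ _)
  have h1 := NAC_pair_ncl (hg.prod_Gm j hj).1 a b hab
    (fun p => c p.1) (by fun_prop) (fun p => cw p.1) (fun τ p => ct τ p.1)
  unfold om
  rw [← h1]
  refine ncl_congr ((NAC_nst_univ h (fun _ _ => rfl) (fun _ => rfl)).prod _ (NA.St.univ _))
    (NAC_nst_univ hp (fun _ _ => rfl) (fun _ => rfl)) (fun p => ((p.1.1, p.2), p.1.2))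
    (by fun_prop) ⟨?_, ?_, ?_⟩ (fun _ _ _ => rfl) (fun _ _ => rfl)
  · rintro ⟨⟨y, u⟩, x⟩ hp
    exact ⟨⟨hp.1.1, trivial⟩, trivial⟩
  · rintro ⟨⟨y, u⟩, x⟩ _ ⟨⟨y', u'⟩, x'⟩ _ h3
    simp only [Prod.mk.injEq] at h3
    obtain ⟨⟨h4, h5⟩, h6⟩ := h3
    rw [h4, h5, h6]
  · rintro ⟨⟨y, x⟩, u⟩ hp
    exact ⟨((y, u), x), ⟨⟨hp.1.1, trivial⟩, trivial⟩, rfl⟩

private theorem NAC_pair_tcl (A : NA k Y) {s : Set Y} (h : A.St s) (fin : A.toTA.Fin s) (a b : ℤ)
    (c : Y → kˣ) (dc : DM k c)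
    (cw : ∀ y, c (A.w y) * c y = 1) (ct : ∀ τ y, c (A.t τ y) = τ ^ (-a - b) * c y) :
    tcl (A.pair a b c dc cw ct).toTA (s ×ˢ Set.univ) = (L ^ 2) • tcl A.toTA s := by
  have h1 := tcl_prod_Kw A.toTA h.toSt fin a
  have hp : (A.toTA.prod (Kw k a)).St (s ×ˢ (Set.univ : Set k)) := h.toSt.prod _ (TA.St.univ _)
  have h2 := tcl_prod_Kw (A.toTA.prod (Kw k a)) hp (NAC_fin_prod fin _ _) b
  rw [h1] at h2
  rw [pow_two, ← smul_smul, ← h2]
  refine tcl_congr (NAC_st_univ h.toSt (fun _ _ => rfl))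
    (hp.prod _ (TA.St.univ _)) (fun p => ((p.1, p.2.1), p.2.2))
    (by fun_prop) ⟨?_, ?_, ?_⟩ (fun _ _ _ => rfl)
  · rintro ⟨y, u, v⟩ hp
    exact ⟨⟨hp.1, trivial⟩, trivial⟩
  · rintro ⟨y, u, v⟩ _ ⟨y', u', v'⟩ _ h3
    simp only [Prod.mk.injEq] at h3
    obtain ⟨⟨h4, h5⟩, h6⟩ := h3
    rw [h4, h5, h6]
  · rintro ⟨⟨y, u⟩, v⟩ hp
    exact ⟨(y, u, v), ⟨hp.1.1, trivial⟩, rfl⟩

/-- N5, the pair lemma. `(0,0)`: `n`; exactly one of `u`, `v` zero: induced from `T`, `(L-1) t`; both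
nonzero: scaling of `(u, v)`, the quotient has the coordinate `u / v`, i.e. it is `Y × G_(a-b)`. -/
theorem NGood.pair {m : ℕ} {A : NA k Y} {s : Set Y} (h : NGood m A s) (a b : ℤ)
    (hab : (m : ℤ) ∣ a - b) (c : Y → kˣ) (dc : DM k c)
    (cw : ∀ y, c (A.w y) * c y = 1) (ct : ∀ τ y, c (A.t τ y) = τ ^ (-a - b) * c y) :
    NGood m (A.pair a b c dc cw ct) (s ×ˢ Set.univ) ∧
    ncl (A.pair a b c dc cw ct) (s ×ˢ Set.univ) = (L ^ 2) • ncl A s ∧
    tcl (A.pair a b c dc cw ct).toTA (s ×ˢ Set.univ) = (L ^ 2) • tcl A.toTA s := by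
  have hn := NAC_pair_ncl h a b hab c dc cw ct
  have ht := NAC_pair_tcl A h.st h.fin a b c dc cw ct
  refine ⟨⟨NAC_nst_univ h.st (fun _ _ => rfl) (fun _ => rfl),
    NAC_fin h.fin Prod.fst (fun _ hz => hz.1) (fun _ _ _ => rfl), ?_⟩, hn, ht⟩
  intro j hj hmj
  rw [hn, ht, NAC_pair_om h a b hab c dc cw ct j (Int.natCast_dvd_natCast.mpr hmj), ← smul_add,
    h.eq j hj hmj, smul_comm]

/-- N6, a single coordinate. -/
theorem NGood.single {m : ℕ} {A : NA k Y} {s : Set Y} (h : NGood m A s) (a : ℤ)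
    (c : Y → kˣ) (dc : DM k c)
    (cw : ∀ y, c (A.w y) * c y = 1) (ct : ∀ τ y, c (A.t τ y) = τ ^ (-2 * a) * c y) :
    NGood m (A.single a c dc cw ct) (s ×ˢ Set.univ) ∧
    ncl (A.single a c dc cw ct) (s ×ˢ Set.univ) = L • ncl A s ∧
    tcl (A.single a c dc cw ct).toTA (s ×ˢ Set.univ) = L • tcl A.toTA s := by
  have hn := NAC_single_ncl A h.st h.fin a c dc cw ct
  have ht : tcl (A.single a c dc cw ct).toTA (s ×ˢ Set.univ) = L • tcl A.toTA s :=
    tcl_prod_Kw A.toTA h.st.toSt h.fin a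
  refine ⟨⟨NAC_nst_univ h.st (fun _ _ => rfl) (fun _ => rfl),
    NAC_fin h.fin Prod.fst (fun _ hz => hz.1) (fun _ _ _ => rfl), ?_⟩, hn, ht⟩
  intro j hj hmj
  rw [hn, ht, NAC_single_om A h.st h.fin a c dc cw ct, ← smul_add,
    h.eq j hj hmj, smul_comm]

/-- Data of a monomial representation of `N` up to a character: `p` pairs of coordinates of weights
`a i`, `b i` with `a i + b i = e`, exchanged by `w`, and `q` single coordinates of weight `h j` with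
`2 h j = e` on which `w` acts by the sign `ε j`. -/
structure Blk (k : Type) [Field k] where
  p : ℕ
  q : ℕ
  e : ℤ
  a : Fin p → ℤ
  b : Fin p → ℤ
  hab : ∀ i, a i + b i = e
  h : Fin q → ℤ
  hh : ∀ j, 2 * h j = e
  ε : Fin q → kˣ
  hε : ∀ j, ε j * ε j = 1

/-- The vector space of the block data. -/
abbrev Blk.W (B : Blk k) : Type := (Fin B.p → k × k) × (Fin B.q → k)

/-- The dimension. -/
def Blk.dim (B : Blk k) : ℕ := 2 * B.p + B.q

/-- `T` acts on `W`. -/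
def Blk.tv (B : Blk k) (τ : kˣ) (v : B.W) : B.W :=
  (fun i => (((τ ^ B.a i : kˣ) : k) * (v.1 i).1, ((τ ^ B.b i : kˣ) : k) * (v.1 i).2),
    fun j => ((τ ^ B.h j : kˣ) : k) * v.2 j)

/-- `w` acts on `W`. -/
def Blk.wv (B : Blk k) (v : B.W) : B.W :=
  (fun i => ((v.1 i).2, (v.1 i).1), fun j => (B.ε j : k) * v.2 j)

/-- The vector bundle `Y × W` twisted by `c : Y → kˣ`. -/
def NA.bun (A : NA k Y) (B : Blk k) (c : Y → kˣ) (dc : DM k c)
    (cw : ∀ y, c (A.w y) * c y = 1) (ct : ∀ τ y, c (A.t τ y) = τ ^ (-B.e) * c y) :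
    NA k (Y × B.W) where
  t τ p := (A.t τ p.1, B.tv τ p.2)
  t_one p := by
    refine Prod.ext (A.t_one _) (Prod.ext (funext fun i => ?_) (funext fun j => ?_))
    · simp [Blk.tv]
    · simp [Blk.tv]
  t_mul x y p := by
    refine Prod.ext (A.t_mul _ _ _) (Prod.ext (funext fun i => ?_) (funext fun j => ?_))
    · simp [Blk.tv, mul_zpow, mul_assoc]
    · simp [Blk.tv, mul_zpow, mul_assoc]
  dt := by
    unfold Blk.tv
    fun_prop
  w p := (A.w p.1, (c p.1 : k) • B.wv p.2)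
  w_w p := by
    have h := congrArg Units.val (cw p.1)
    simp only [Units.val_mul, Units.val_one] at h
    refine Prod.ext (A.w_w _) (Prod.ext (funext fun i => ?_) (funext fun j => ?_))
    · simp only [Blk.wv, Prod.smul_mk, Pi.smul_apply, smul_eq_mul]
      rw [← mul_assoc, ← mul_assoc, h, one_mul, one_mul]
    · have h2 := congrArg Units.val (B.hε j)
      simp only [Units.val_mul, Units.val_one] at h2
      simp only [Blk.wv, Prod.smul_mk, Pi.smul_apply, smul_eq_mul]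
      linear_combination (B.ε j : k) * (B.ε j : k) * p.2.2 j * h + p.2.2 j * h2
  w_t τ p := by
    have h := congrArg Units.val (ct τ p.1)
    simp only [Units.val_mul, Units.val_zpow_eq_zpow_val] at h
    have hτ := τ.ne_zero
    refine Prod.ext (A.w_t _ _) (Prod.ext (funext fun i => ?_) (funext fun j => ?_))
    · have e := B.hab i
      simp only [Blk.wv, Blk.tv, Prod.smul_mk, Pi.smul_apply, smul_eq_mul, h,
        Units.val_zpow_eq_zpow_val, Units.val_inv_eq_inv_val, inv_zpow']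
      have e1 : (τ : k) ^ (-B.e) * (τ : k) ^ B.b i = (τ : k) ^ (-B.a i) := by
        rw [← zpow_add₀ hτ]
        congr 1
        omega
      have e2 : (τ : k) ^ (-B.e) * (τ : k) ^ B.a i = (τ : k) ^ (-B.b i) := by
        rw [← zpow_add₀ hτ]
        congr 1
        omega
      rw [← e1, ← e2]
      refine Prod.ext ?_ ?_
      · simp only
        ring
      · simp only
        ring
    · have e := B.hh j
      simp only [Blk.wv, Blk.tv, Prod.smul_mk, Pi.smul_apply, smul_eq_mul, h,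
        Units.val_zpow_eq_zpow_val, Units.val_inv_eq_inv_val, inv_zpow']
      have e1 : (τ : k) ^ (-B.e) * (τ : k) ^ B.h j = (τ : k) ^ (-B.h j) := by
        rw [← zpow_add₀ hτ]
        congr 1
        omega
      rw [← e1]
      ring
  dw := by
    unfold Blk.wv
    fun_prop

/-! ### Iteration -/

/-- Remove the first pair. -/
private def NAC_remp (B : Blk k) {p : ℕ} (hp : B.p = p + 1) : Blk k where
  p := p
  q := B.q
  e := B.e
  a i := B.a (Fin.cast hp.symm i.succ)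
  b i := B.b (Fin.cast hp.symm i.succ)
  hab i := B.hab _
  h := B.h
  hh := B.hh
  ε := B.ε
  hε := B.hε

/-- Remove the first single coordinate. -/
private def NAC_remq (B : Blk k) {q : ℕ} (hq : B.q = q + 1) : Blk k where
  p := B.p
  q := q
  e := B.e
  a := B.a
  b := B.b
  hab := B.hab
  h j := B.h (Fin.cast hq.symm j.succ)
  hh j := B.hh _
  ε j := B.ε (Fin.cast hq.symm j.succ)
  hε j := B.hε _

private theorem NAC_stepp {m : ℕ} {A : NA k Y} {s : Set Y} (h : NGood m A s) (B : Blk k) {p : ℕ}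
    (hp : B.p = p + 1)
    (hab : ∀ i, (m : ℤ) ∣ B.a i - B.b i) (c : Y → kˣ) (dc : DM k c)
    (cw : ∀ y, c (A.w y) * c y = 1) (ct : ∀ τ y, c (A.t τ y) = τ ^ (-B.e) * c y)
    (ih : NGood m (A.bun (NAC_remp B hp) c dc cw ct) (s ×ˢ Set.univ) ∧
    ncl (A.bun (NAC_remp B hp) c dc cw ct) (s ×ˢ Set.univ) =
      (L ^ (NAC_remp B hp).dim) • ncl A s ∧
    tcl (A.bun (NAC_remp B hp) c dc cw ct).toTA (s ×ˢ Set.univ) =
      (L ^ (NAC_remp B hp).dim) • tcl A.toTA s) :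
    NGood m (A.bun B c dc cw ct) (s ×ˢ Set.univ) ∧
    ncl (A.bun B c dc cw ct) (s ×ˢ Set.univ) = (L ^ B.dim) • ncl A s ∧
    tcl (A.bun B c dc cw ct).toTA (s ×ˢ Set.univ) = (L ^ B.dim) • tcl A.toTA s := by
  obtain ⟨p', q, e, a, b, hab', hh, hhh, ε, hε⟩ := B
  simp only at hp
  subst hp
  obtain ⟨g1, g2, g3⟩ := ih
  have key := g1.pair (a 0) (b 0) (hab 0) (fun y => c y.1) (by fun_prop) (fun y => cw y.1)
    (fun τ y => (ct τ y.1).trans (by
      have := hab' 0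
      congr 2
      simp only
      omega))
  obtain ⟨k1, k2, k3⟩ := key
  have hst : (A.bun ⟨p + 1, q, e, a, b, hab', hh, hhh, ε, hε⟩ c dc cw ct).St
      (s ×ˢ Set.univ) := NAC_nst_univ h.st (fun _ _ => rfl) (fun _ => rfl)
  have hdim : (⟨p + 1, q, e, a, b, hab', hh, hhh, ε, hε⟩ : Blk k).dim =
      2 + (NAC_remp ⟨p + 1, q, e, a, b, hab', hh, hhh, ε, hε⟩ rfl).dim := by
    simp only [Blk.dim, NAC_remp]
    ring
  have hf : DM k (fun z : Y × (⟨p + 1, q, e, a, b, hab', hh, hhh, ε, hε⟩ : Blk k).W =>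
      (((z.1, (fun i => z.2.1 i.succ, z.2.2)), ((z.2.1 0).1, (z.2.1 0).2)) :
        (Y × (NAC_remp ⟨p + 1, q, e, a, b, hab', hh, hhh, ε, hε⟩ rfl).W) × k × k)) := by
    fun_prop
  have hbij : Set.BijOn (fun z : Y × (⟨p + 1, q, e, a, b, hab', hh, hhh, ε, hε⟩ : Blk k).W =>
      (((z.1, (fun i => z.2.1 i.succ, z.2.2)), ((z.2.1 0).1, (z.2.1 0).2)) :
        (Y × (NAC_remp ⟨p + 1, q, e, a, b, hab', hh, hhh, ε, hε⟩ rfl).W) × k × k))
      (s ×ˢ Set.univ) ((s ×ˢ Set.univ) ×ˢ Set.univ) := by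
    refine ⟨?_, ?_, ?_⟩
    · rintro ⟨y, g, g'⟩ hy
      exact ⟨⟨hy.1, trivial⟩, trivial⟩
    · rintro ⟨y, g, g'⟩ _ ⟨y1, g1, g1'⟩ _ h3
      have h4 := congrArg (fun q => q.1.1) h3
      have h5 := congrArg (fun q => q.1.2.1) h3
      have h6 := congrArg (fun q => q.1.2.2) h3
      have h7 := congrArg (fun q => q.2.1) h3
      have h8 := congrArg (fun q => q.2.2) h3
      simp only at h4 h5 h6 h7 h8
      have h9 : g = g1 := by
        funext i
        refine Fin.cases ?_ (fun j => ?_) i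
        · exact Prod.ext h7 h8
        · exact congrFun h5 j
      rw [h4, h6, h9]
    · rintro ⟨⟨y, g, g'⟩, u, v⟩ hy
      refine ⟨(y, Fin.cons (u, v) g, g'), ⟨hy.1.1, trivial⟩, ?_⟩
      rfl
  refine ⟨?_, ?_, ?_⟩
  · exact NGood.congr' hst k1 _ hf hbij (fun _ _ _ => rfl) (fun _ _ => rfl)
  · rw [ncl_congr hst k1.st _ hf hbij (fun _ _ _ => rfl) (fun _ _ => rfl), k2, g2, smul_smul,
      ← pow_add, hdim]
  · rw [tcl_congr hst.toSt k1.st.toSt _ hf hbij (fun _ _ _ => rfl), k3, g3, smul_smul,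
      ← pow_add, hdim]

private theorem NAC_stepq {m : ℕ} {A : NA k Y} {s : Set Y} (h : NGood m A s) (B : Blk k) {q : ℕ}
    (hq : B.q = q + 1) (c : Y → kˣ) (dc : DM k c)
    (cw : ∀ y, c (A.w y) * c y = 1) (ct : ∀ τ y, c (A.t τ y) = τ ^ (-B.e) * c y)
    (ih : NGood m (A.bun (NAC_remq B hq) c dc cw ct) (s ×ˢ Set.univ) ∧
    ncl (A.bun (NAC_remq B hq) c dc cw ct) (s ×ˢ Set.univ) =
      (L ^ (NAC_remq B hq).dim) • ncl A s ∧
    tcl (A.bun (NAC_remq B hq) c dc cw ct).toTA (s ×ˢ Set.univ) =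
      (L ^ (NAC_remq B hq).dim) • tcl A.toTA s) :
    NGood m (A.bun B c dc cw ct) (s ×ˢ Set.univ) ∧
    ncl (A.bun B c dc cw ct) (s ×ˢ Set.univ) = (L ^ B.dim) • ncl A s ∧
    tcl (A.bun B c dc cw ct).toTA (s ×ˢ Set.univ) = (L ^ B.dim) • tcl A.toTA s := by
  obtain ⟨p, q', e, a, b, hab', hh, hhh, ε, hε⟩ := B
  simp only at hq
  subst hq
  obtain ⟨g1, g2, g3⟩ := ih
  have key := g1.single (hh 0) (fun y => c y.1 * ε 0) (by fun_prop)
    (fun y => by
      have h1 := cw y.1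
      have h2 := hε 0
      have h3 : c (A.w y.1) * ε 0 * (c y.1 * ε 0) = (c (A.w y.1) * c y.1) * (ε 0 * ε 0) := by
        rw [mul_mul_mul_comm]
      rw [h1, h2, one_mul] at h3
      exact h3)
    (fun τ y => by
      have h1 := ct τ y.1
      have h2 := hhh 0
      have h3 : c (A.t τ y.1) * ε 0 = τ ^ (-2 * hh 0) * (c y.1 * ε 0) := by
        rw [h1, mul_assoc]
        congr 2
        simp only
        omega
      exact h3)
  obtain ⟨k1, k2, k3⟩ := key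
  have hst : (A.bun ⟨p, q + 1, e, a, b, hab', hh, hhh, ε, hε⟩ c dc cw ct).St
      (s ×ˢ Set.univ) := NAC_nst_univ h.st (fun _ _ => rfl) (fun _ => rfl)
  have hdim : (⟨p, q + 1, e, a, b, hab', hh, hhh, ε, hε⟩ : Blk k).dim =
      1 + (NAC_remq ⟨p, q + 1, e, a, b, hab', hh, hhh, ε, hε⟩ rfl).dim := by
    simp only [Blk.dim, NAC_remq]
    ring
  have hf : DM k (fun z : Y × (⟨p, q + 1, e, a, b, hab', hh, hhh, ε, hε⟩ : Blk k).W =>
      (((z.1, (z.2.1, fun i => z.2.2 i.succ)), z.2.2 0) :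
        (Y × (NAC_remq ⟨p, q + 1, e, a, b, hab', hh, hhh, ε, hε⟩ rfl).W) × k)) := by
    fun_prop
  have hbij : Set.BijOn (fun z : Y × (⟨p, q + 1, e, a, b, hab', hh, hhh, ε, hε⟩ : Blk k).W =>
      (((z.1, (z.2.1, fun i => z.2.2 i.succ)), z.2.2 0) :
        (Y × (NAC_remq ⟨p, q + 1, e, a, b, hab', hh, hhh, ε, hε⟩ rfl).W) × k))
      (s ×ˢ Set.univ) ((s ×ˢ Set.univ) ×ˢ Set.univ) := by
    refine ⟨?_, ?_, ?_⟩
    · rintro ⟨y, g, g'⟩ hy
      exact ⟨⟨hy.1, trivial⟩, trivial⟩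
    · rintro ⟨y, g, g'⟩ _ ⟨y1, g1, g1'⟩ _ h3
      have h4 := congrArg (fun q => q.1.1) h3
      have h5 := congrArg (fun q => q.1.2.1) h3
      have h6 := congrArg (fun q => q.1.2.2) h3
      have h7 := congrArg (fun q => q.2) h3
      simp only at h4 h5 h6 h7
      have h9 : g' = g1' := by
        funext i
        refine Fin.cases ?_ (fun j => ?_) i
        · exact h7
        · exact congrFun h6 j
      rw [h4, h5, h9]
    · rintro ⟨⟨y, g, g'⟩, u⟩ hy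
      refine ⟨(y, g, Fin.cons u g'), ⟨hy.1.1, trivial⟩, ?_⟩
      rfl
  have hfw : ∀ z ∈ (s ×ˢ Set.univ :
      Set (Y × (⟨p, q + 1, e, a, b, hab', hh, hhh, ε, hε⟩ : Blk k).W)),
      (fun z : Y × (⟨p, q + 1, e, a, b, hab', hh, hhh, ε, hε⟩ : Blk k).W =>
      (((z.1, (z.2.1, fun i => z.2.2 i.succ)), z.2.2 0) :
        (Y × (NAC_remq ⟨p, q + 1, e, a, b, hab', hh, hhh, ε, hε⟩ rfl).W) × k))
        ((A.bun ⟨p, q + 1, e, a, b, hab', hh, hhh, ε, hε⟩ c dc cw ct).w z) =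
      ((A.bun (NAC_remq ⟨p, q + 1, e, a, b, hab', hh, hhh, ε, hε⟩ rfl) c dc cw ct).single
        (hh 0) (fun y => c y.1 * ε 0) (by fun_prop)
        (fun y => by
          have h1 := cw y.1
          have h2 := hε 0
          have h3 : c (A.w y.1) * ε 0 * (c y.1 * ε 0) =
              (c (A.w y.1) * c y.1) * (ε 0 * ε 0) := by
            rw [mul_mul_mul_comm]
          rw [h1, h2, one_mul] at h3
          exact h3)
        (fun τ y => by
          have h1 := ct τ y.1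
          have h2 := hhh 0
          have h3 : c (A.t τ y.1) * ε 0 = τ ^ (-2 * hh 0) * (c y.1 * ε 0) := by
            rw [h1, mul_assoc]
            congr 2
            simp only
            omega
          exact h3)).w ((fun z : Y × (⟨p, q + 1, e, a, b, hab', hh, hhh, ε, hε⟩ : Blk k).W =>
      (((z.1, (z.2.1, fun i => z.2.2 i.succ)), z.2.2 0) :
        (Y × (NAC_remq ⟨p, q + 1, e, a, b, hab', hh, hhh, ε, hε⟩ rfl).W) × k)) z) := by
    intro z _
    refine Prod.ext rfl ?_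
    show (c z.1 : k) * ((ε 0 : k) * z.2.2 0) = ((c z.1 * ε 0 : kˣ) : k) * z.2.2 0
    rw [Units.val_mul, mul_assoc]
  refine ⟨?_, ?_, ?_⟩
  · exact NGood.congr' hst k1 _ hf hbij (fun _ _ _ => rfl) hfw
  · rw [ncl_congr hst k1.st _ hf hbij (fun _ _ _ => rfl) hfw, k2, g2, smul_smul, hdim, pow_add,
      pow_one]
  · rw [tcl_congr hst.toSt k1.st.toSt _ hf hbij (fun _ _ _ => rfl), k3, g3, smul_smul,
      hdim, pow_add, pow_one]

private theorem NAC_base {m : ℕ} {A : NA k Y} {s : Set Y} (h : NGood m A s) (B : Blk k)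
    (hp : B.p = 0) (hq : B.q = 0) (c : Y → kˣ) (dc : DM k c)
    (cw : ∀ y, c (A.w y) * c y = 1) (ct : ∀ τ y, c (A.t τ y) = τ ^ (-B.e) * c y) :
    NGood m (A.bun B c dc cw ct) (s ×ˢ Set.univ) ∧
    ncl (A.bun B c dc cw ct) (s ×ˢ Set.univ) = (L ^ B.dim) • ncl A s ∧
    tcl (A.bun B c dc cw ct).toTA (s ×ˢ Set.univ) = (L ^ B.dim) • tcl A.toTA s := by
  have hst : (A.bun B c dc cw ct).St
      (s ×ˢ Set.univ) := NAC_nst_univ h.st (fun _ _ => rfl) (fun _ => rfl)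
  have hdim : B.dim = 0 := by
    simp only [Blk.dim, hp, hq]
  have hbij : Set.BijOn (fun z : Y × B.W => z.1) (s ×ˢ Set.univ) s := by
    refine ⟨fun z hz => hz.1, ?_, ?_⟩
    · rintro ⟨y, g, g'⟩ _ ⟨y1, g1, g1'⟩ _ h3
      simp only at h3
      have h4 : g = g1 := by
        funext i
        exact absurd i.isLt (by omega)
      have h5 : g' = g1' := by
        funext i
        exact absurd i.isLt (by omega)
      rw [h3, h4, h5]
    · intro y hy
      exact ⟨(y, fun _ => (0, 0), fun _ => 0), ⟨hy, trivial⟩, rfl⟩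
  have hf : DM k (fun z : Y × B.W => z.1) := by fun_prop
  rw [hdim, pow_zero, one_smul, one_smul]
  refine ⟨?_, ?_, ?_⟩
  · exact NGood.congr' hst h _ hf hbij (fun _ _ _ => rfl) (fun _ _ => rfl)
  · exact ncl_congr hst h.st _ hf hbij (fun _ _ _ => rfl) (fun _ _ => rfl)
  · exact tcl_congr hst.toSt h.st.toSt _ hf hbij (fun _ _ _ => rfl)

private theorem NAC_bun (n : ℕ) : ∀ {m : ℕ} {A : NA k Y} {s : Set Y} (_ : NGood m A s) (B : Blk k)
    (_ : B.p + B.q = n)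
    (_ : ∀ i, (m : ℤ) ∣ B.a i - B.b i) (c : Y → kˣ) (dc : DM k c)
    (cw : ∀ y, c (A.w y) * c y = 1) (ct : ∀ τ y, c (A.t τ y) = τ ^ (-B.e) * c y),
    NGood m (A.bun B c dc cw ct) (s ×ˢ Set.univ) ∧
    ncl (A.bun B c dc cw ct) (s ×ˢ Set.univ) = (L ^ B.dim) • ncl A s ∧
    tcl (A.bun B c dc cw ct).toTA (s ×ˢ Set.univ) = (L ^ B.dim) • tcl A.toTA s := by
  induction n with
  | zero =>
    intro m A s h B hB hab c dc cw ct
    exact NAC_base h B (by omega) (by omega) c dc cw ct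
  | succ n ih =>
    intro m A s h B hB hab c dc cw ct
    rcases Nat.eq_zero_or_eq_succ_pred B.p with hp | hp
    · have hq : B.q = n + 1 := by omega
      refine NAC_stepq h B hq c dc cw ct ?_
      exact ih h (NAC_remq B hq) (by simp only [NAC_remq]; omega) hab c dc cw ct
    · have hp' : B.p = B.p.pred + 1 := hp
      refine NAC_stepp h B hp' hab c dc cw ct ?_
      exact ih h (NAC_remp B hp') (by simp only [NAC_remp]; omega) (fun i => hab _) c dc cw ct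

/-- Iteration of N5 and N6. -/
theorem NGood.bun {m : ℕ} {A : NA k Y} {s : Set Y} (h : NGood m A s) (B : Blk k)
    (hab : ∀ i, (m : ℤ) ∣ B.a i - B.b i) (c : Y → kˣ) (dc : DM k c)
    (cw : ∀ y, c (A.w y) * c y = 1) (ct : ∀ τ y, c (A.t τ y) = τ ^ (-B.e) * c y) :
    NGood m (A.bun B c dc cw ct) (s ×ˢ Set.univ) ∧
    ncl (A.bun B c dc cw ct) (s ×ˢ Set.univ) = (L ^ B.dim) • ncl A s ∧
    tcl (A.bun B c dc cw ct).toTA (s ×ˢ Set.univ) = (L ^ B.dim) • tcl A.toTA s :=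
  NAC_bun _ h B rfl hab c dc cw ct

end Pool.Agent.MRat
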