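import Pool.Agent.Lib.MP_923aff_ag.NA2
/-!
# JOB NAD: induced spaces, dihedral spaces, spaces over `G_(i)` (N7, N11, N12)
-/

set_option autoImplicit false

namespace Pool.Agent.MRat

variable {k : Type} [Field k] [IsAlgClosed k] [CharZero k]
variable {X Y Z : Type} [DT k X] [DT k Y] [DT k Z]

/-- N7: `s` is the disjoint union of `s0` and `w s0`. -/
theorem n_induced {A : NA k Y} {s s0 : Set Y} (h : A.St s) (h0 : A.toTA.St s0)
    (hs : ∀ y, y ∈ s ↔ (y ∈ s0 ∨ A.w y ∈ s0)) (hd : ∀ y ∈ s0, A.w y ∉ s0) :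
    ncl A s = tcl A.toTA s0 ∧ tcl A.toTA s = (2 : Polynomial ℤ) • tcl A.toTA s0 := by
  constructor
  · symm
    refine clq_map h0.dq h.dq (fun y => y) DM.id' (fun y hy => (hs y).2 (Or.inl hy)) ?_ ?_
    · intro x hx y hy
      constructor
      · rintro ⟨c, hc⟩
        exact ⟨c, Or.inl hc⟩
      · rintro ⟨c, hc | hc⟩
        · exact ⟨c, hc⟩
        · exfalso
          refine hd x hx ?_
          have h1 := h0.t_mem c⁻¹ y hy
          rw [← hc, A.t_inv] at h1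
          exact h1
    · intro y hy
      rcases (hs y).1 hy with h1 | h1
      · exact ⟨y, h1, 1, Or.inl (A.t_one y)⟩
      · refine ⟨A.w y, h1, 1, Or.inr ?_⟩
        rw [A.t_one, A.w_w]
  · have h1 : A.toTA.St {y | A.w y ∈ s0} := by
      refine ⟨DM.comp h0.ds A.dw, ?_⟩
      intro c y hy
      show A.w (A.t c y) ∈ s0
      rw [A.w_t]
      exact h0.t_mem _ _ hy
    have e : s = s0 ∪ {y | A.w y ∈ s0} := by
      ext y
      exact hs y
    have hdis : Disjoint s0 {y | A.w y ∈ s0} := by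
      rw [Set.disjoint_left]
      intro y hy
      exact hd y hy
    rw [e, tcl_union h0 h1 hdis, two_smul]
    congr 1
    refine clq_map h1.dq h0.dq A.w A.dw (fun y hy => hy) ?_ ?_
    · intro x _ y _
      constructor
      · rintro ⟨c, rfl⟩
        exact ⟨c⁻¹, (A.w_t c x).symm⟩
      · rintro ⟨c, hc⟩
        refine ⟨c⁻¹, ?_⟩
        have h2 := congrArg A.w hc
        rw [A.w_t, A.w_w, A.w_w] at h2
        exact h2
    · intro y hy
      refine ⟨A.w y, ?_, 1, ?_⟩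
      · show A.w (A.w y) ∈ s0
        rw [A.w_w]
        exact hy
      · rw [A.t_one, A.w_w]

theorem good_induced {A : NA k Y} {s s0 : Set Y} (h : A.St s) (h0 : A.toTA.St s0)
    (hs : ∀ y, y ∈ s ↔ (y ∈ s0 ∨ A.w y ∈ s0)) (hd : ∀ y ∈ s0, A.w y ∉ s0)
    (fin : A.toTA.Fin s) : NGood 1 A s := by
  refine ⟨h, fin, ?_⟩
  intro j _ _
  obtain ⟨h1, h2⟩ := n_induced h h0 hs hd
  have h3 := (n_induced (A := A.prod (Gm k j)) (s := s ×ˢ (Set.univ : Set kˣ))
    (s0 := s0 ×ˢ (Set.univ : Set kˣ)) (h.prod _ (NA.St.univ _))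
    (h0.prod (Gm k j).toTA (TA.St.univ _))
    (by
      rintro ⟨y, x⟩
      simp [hs y])
    (by
      rintro ⟨y, x⟩ ⟨hy, -⟩ ⟨hy', -⟩
      exact hd y hy hy')).1
  have fin0 : A.toTA.Fin s0 := fun y hy => fin y ((hs y).2 (Or.inl hy))
  have h4 := tcl_prod_Gm A.toTA h0 fin0 j
  unfold om
  rw [h3, h1, h2]
  have h5 : tcl (A.prod (Gm k j)).toTA (s0 ×ˢ (Set.univ : Set kˣ)) = (L - 1) • tcl A.toTA s0 := h4
  rw [h5, ← add_smul]
  congr 1
  ring

private theorem NAD_root (n : ℕ) (hn : 1 ≤ n) (x : kˣ) : ∃ y : kˣ, y ^ n = x := by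
  obtain ⟨z, hz⟩ := IsAlgClosed.exists_pow_nat_eq (x : k) (by omega : 0 < n)
  have hz0 : z ≠ 0 := by
    rintro rfl
    rw [zero_pow (by omega)] at hz
    exact x.ne_zero hz.symm
  refine ⟨Units.mk0 z hz0, ?_⟩
  ext
  simpa using hz

private theorem NAD_dvd (m j : ℕ) : m ∣ j * (m / Nat.gcd j m) := by
  rw [← Nat.mul_div_assoc j (Nat.gcd_dvd_right j m)]
  exact Nat.dvd_lcm_right j m

private theorem NAD_pow (m n : ℕ) (h : m ∣ n) (c : kˣ) (hc : c ^ m = 1) : c ^ n = 1 := by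
  obtain ⟨a, rfl⟩ := h
  rw [pow_mul, hc, one_pow]

private theorem NAD_pos (m j : ℕ) (hm : 1 ≤ m) : 1 ≤ m / Nat.gcd j m :=
  Nat.div_pos (Nat.le_of_dvd hm (Nat.gcd_dvd_right j m)) (Nat.gcd_pos_of_pos_right j hm)

/-- `c ↦ c ^ j` maps `μ_m` onto `μ_(m / gcd(j, m))`. -/
private theorem NAD_lift (m j : ℕ) (hm : 1 ≤ m) (z : kˣ) (hz : z ^ (m / Nat.gcd j m) = 1) :
    ∃ c : kˣ, c ^ m = 1 ∧ c ^ j = z := by
  obtain ⟨e, he⟩ := NAD_root (Nat.gcd j m) (Nat.gcd_pos_of_pos_right j hm) z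
  have hem : e ^ m = 1 := by
    have h1 : m = Nat.gcd j m * (m / Nat.gcd j m) :=
      (Nat.mul_div_cancel' (Nat.gcd_dvd_right j m)).symm
    rw [h1, pow_mul, he, hz]
  have hb := Nat.gcd_eq_gcd_ab j m
  refine ⟨e ^ (Nat.gcdA j m), ?_, ?_⟩
  · rw [← zpow_natCast, ← zpow_mul, mul_comm, zpow_mul, zpow_natCast, hem, one_zpow]
  · have h2 : e ^ ((Nat.gcd j m : ℕ) : ℤ) = z := by rw [zpow_natCast, he]
    have h3 : e ^ ((m : ℤ) * Nat.gcdB j m) = 1 := by
      rw [zpow_mul, zpow_natCast, hem, one_zpow]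
    rw [hb, zpow_add, h3, mul_one] at h2
    rw [← zpow_natCast, ← zpow_mul, mul_comm, h2]

/-- Finite subgroups of `kˣ`. -/
private theorem NAD_sub (H : Subgroup kˣ) (hH : (H : Set kˣ).Finite) :
    1 ≤ (H : Set kˣ).ncard ∧ ∀ c : kˣ, c ∈ H ↔ c ^ (H : Set kˣ).ncard = 1 := by
  have : Finite H := hH.to_subtype
  have hm : (H : Set kˣ).ncard = Nat.card H := rfl
  have hpos : 0 < Nat.card H := Nat.card_pos
  rw [hm]
  have : NeZero (Nat.card H) := ⟨hpos.ne'⟩
  have hle : H ≤ rootsOfUnity (Nat.card H) k := by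
    intro c hc
    rw [mem_rootsOfUnity]
    have h1 := pow_card_eq_one' (x := (⟨c, hc⟩ : H))
    exact congrArg Subtype.val h1
  have hcard : Nat.card (rootsOfUnity (Nat.card H) k) ≤ Nat.card H :=
    card_rootsOfUnity k (Nat.card H)
  have heq : H = rootsOfUnity (Nat.card H) k := Subgroup.eq_of_le_of_card_ge hle hcard
  refine ⟨hpos, fun c => ?_⟩
  constructor
  · intro hc
    have := hle hc
    rwa [mem_rootsOfUnity] at this
  · intro hc
    rw [← mem_rootsOfUnity, ← heq] at hc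
    exact hc

/-- The stabiliser in `T`. -/
private def NAD_stab (A : TA k Y) (y : Y) : Subgroup kˣ where
  carrier := {c | A.t c y = y}
  mul_mem' := by
    intro a b ha hb
    show A.t (a * b) y = y
    rw [A.t_mul]
    have ha' : A.t a y = y := ha
    have hb' : A.t b y = y := hb
    rw [hb', ha']
  one_mem' := A.t_one y
  inv_mem' := by
    intro a ha
    have ha' : A.t a y = y := ha
    show A.t a⁻¹ y = y
    conv_lhs => rw [← ha']
    exact A.t_inv a y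

/-- The points with stabiliser `μ_m`. -/
private def NAD_str (A : NA k Y) (m : ℕ) (s : Set Y) : Set Y :=
  {y | y ∈ s ∧ ∀ c : kˣ, A.t c y = y ↔ c ^ m = 1}

private theorem NAD_str_St {A : NA k Y} {s : Set Y} (h : A.St s) (m : ℕ) :
    A.St (NAD_str A m s) where
  ds := by
    have hs := h.ds
    have h1 : DM k (fun y : Y => ∀ c : kˣ, (A.t c y = y ↔ c ^ m = 1)) := by fun_prop
    exact hs.and h1
  t_mem := by
    rintro c y ⟨hy, hc⟩
    refine ⟨h.t_mem c y hy, fun d => ?_⟩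
    rw [← hc d, ← A.t_mul, mul_comm, A.t_mul]
    constructor
    · intro h1
      have h2 := congrArg (A.t c⁻¹) h1
      rwa [A.t_inv, A.t_inv] at h2
    · intro h1
      rw [h1]
  w_mem := by
    rintro y ⟨hy, hc⟩
    refine ⟨h.w_mem y hy, fun d => ?_⟩
    rw [A.t_w]
    have h0 := hc d⁻¹
    constructor
    · intro h1
      have h2 := congrArg A.w h1
      rw [A.w_w, A.w_w] at h2
      have h3 := h0.1 h2
      rw [inv_pow, inv_eq_one] at h3
      exact h3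
    · intro h1
      rw [h0.2 (by rw [inv_pow, h1, inv_one])]

private theorem NAD_cover {A : NA k Y} {s : Set Y} (h : A.St s) (fin : A.toTA.Fin s) :
    ∃ M : ℕ, ∀ y ∈ s, ∃ m ∈ Finset.Icc 1 M, y ∈ NAD_str A m s := by
  have hs := h.ds
  have h1 : DM k (fun p : Y × kˣ => p.1 ∈ s ∧ A.t p.2 p.1 = p.1) := by fun_prop
  have h2 : DP k (fun p : DT.A k Y × k => p.1 ∈ {a : DT.A k Y | ∃ y, DT.R a y ∧ y ∈ s} ∧
      (∃ (y : Y) (u : kˣ), DT.R p.1 y ∧ (u : k) = p.2 ∧ A.t u y = y)) := by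
    refine DP.congr (DM_iff_DS.1 h1) ?_
    rintro ⟨a, b⟩
    constructor
    · rintro ⟨⟨y, u⟩, ⟨hy, hu⟩, hys, hyu⟩
      exact ⟨⟨y, hy, hys⟩, y, u, hy, hu, hyu⟩
    · rintro ⟨⟨y, hy, hys⟩, y', u, hy', hu, hyu⟩
      have e := DT.fn _ _ _ hy hy'
      subst e
      exact ⟨(y, u), ⟨hy, hu⟩, hys, hyu⟩
  have key : ∀ (a : DT.A k Y) (y : Y), DT.R a y →
      {b : k | ∃ (y : Y) (u : kˣ), DT.R a y ∧ (u : k) = b ∧ A.t u y = y} =
      (fun u : kˣ => (u : k)) '' {u : kˣ | A.t u y = y} := by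
    intro a y hy
    ext b
    constructor
    · rintro ⟨y', u, hy', hu, hyu⟩
      have e := DT.fn _ _ _ hy hy'
      subst e
      exact ⟨u, hyu, hu⟩
    · rintro ⟨u, hyu, hu⟩
      exact ⟨y, u, hy, hu, hyu⟩
  obtain ⟨M, hM⟩ := bounded_card (DM_iff_DS.1 hs) h2 (by
    rintro a ⟨y, hy, hys⟩
    rw [key a y hy]
    exact (fin y hys).image _)
  refine ⟨M, fun y hy => ?_⟩
  obtain ⟨a, ha⟩ := DT.sur (k := k) y
  have h3 := hM a ⟨y, ha, hy⟩
  rw [key a y ha, Set.ncard_image_of_injective _ Units.val_injective] at h3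
  obtain ⟨h4, h5⟩ := NAD_sub (NAD_stab A.toTA y) (fin y hy)
  exact ⟨_, Finset.mem_Icc.2 ⟨h4, h3⟩, hy, h5⟩

omit [IsAlgClosed k] [CharZero k] in
private theorem NAD_quad (x y d : kˣ) (h : (x : k) + ((d * x⁻¹ : kˣ) : k) = y + ((d * y⁻¹ : kˣ) : k)) :
    x = y ∨ x * y = d := by
  have hx : (x : k) ≠ 0 := x.ne_zero
  have hy : (y : k) ≠ 0 := y.ne_zero
  simp only [Units.val_mul, Units.val_inv_eq_inv_val] at h
  field_simp at h
  have h1 : ((x : k) - y) * (x * y - d) = 0 := by linear_combination h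
  rcases mul_eq_zero.1 h1 with h2 | h2
  · left
    exact Units.ext (sub_eq_zero.1 h2)
  · right
    ext
    rw [Units.val_mul]
    exact sub_eq_zero.1 h2

private theorem NAD_solve (d : kˣ) (u : k) : ∃ x : kˣ, u = (x : k) + ((d * x⁻¹ : kˣ) : k) := by
  obtain ⟨r, hr⟩ := IsAlgClosed.exists_pow_nat_eq (u ^ 2 - 4 * (d : k)) (by norm_num : 0 < 2)
  have hd : (d : k) ≠ 0 := d.ne_zero
  have h2 : (2 : k) ≠ 0 := two_ne_zero
  have hx : (u + r) / 2 * (u - (u + r) / 2) = d := by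
    field_simp
    linear_combination -hr
  have hx0 : (u + r) / 2 ≠ 0 := by
    intro h0
    rw [h0, zero_mul] at hx
    exact hd hx.symm
  refine ⟨Units.mk0 _ hx0, ?_⟩
  rw [Units.val_mul, Units.val_inv_eq_inv_val, Units.val_mk0, ← div_eq_mul_inv, ← sub_eq_iff_eq_add',
    eq_div_iff hx0, mul_comm]
  exact hx

/-- The key computation of N11 in the group `kˣ`: `K = m / gcd(j, m)`. -/
private theorem NAD_om {A : NA k Y} {s : Set Y} (h : A.St s) (fin : A.toTA.Fin s)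
    (dih : ∀ y ∈ s, ∃ c : kˣ, A.t c (A.w y) = y) (m : ℕ) (hm : 1 ≤ m)
    (hst : ∀ y ∈ s, ∀ c : kˣ, A.t c y = y ↔ c ^ m = 1) (j : ℕ) (hj : 1 ≤ j) :
    om A j s = L • tcl A.toTA s := by
  have hs := h.ds
  set K := m / Nat.gcd j m with hK
  have hK1 : 1 ≤ K := NAD_pos m j hm
  have hdvd : m ∣ j * K := NAD_dvd m j
  have h4 := tcl_prod_Kw A.toTA h.toSt fin ((j * K : ℕ) : ℤ)
  rw [← h4]
  -- the square of the multiplier
  have hsq : ∀ y ∈ s, ∀ c d d' : kˣ, A.t d (A.w y) = y → A.t d' (A.w (A.t c y)) = A.t c y →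
      d' ^ (j * K) = (c ^ (j * K)) ^ 2 * d ^ (j * K) := by
    intro y hy c d d' hd hd'
    have h1 : A.t (c⁻¹ * d' * c⁻¹ * d⁻¹) y = y := by
      have e1 : A.w y = A.t d⁻¹ y := by
        conv_rhs => rw [← hd]
        exact (A.t_inv _ _).symm
      have e2 : A.t (d' * c⁻¹ * d⁻¹) y = A.t c y := by
        rw [A.w_t, e1, ← A.t_mul, ← A.t_mul] at hd'
        exact hd'
      have e3 := congrArg (A.t c⁻¹) e2
      rw [A.t_inv, ← A.t_mul] at e3
      rw [show c⁻¹ * d' * c⁻¹ * d⁻¹ = c⁻¹ * (d' * c⁻¹ * d⁻¹) by group]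
      exact e3
    have h2 := NAD_pow m (j * K) hdvd _ ((hst y hy _).1 h1)
    have h3 : (c⁻¹ * d' * c⁻¹ * d⁻¹) = d' * (c ^ 2 * d)⁻¹ := by
      rw [mul_inv, pow_two, mul_inv]
      simp only [mul_comm, mul_left_comm, mul_assoc]
    rw [h3, mul_pow, inv_pow, mul_inv_eq_one] at h2
    rw [h2, mul_pow, ← pow_mul, ← pow_mul, mul_comm 2]
  refine clq_corr (h.prod _ (NA.St.univ (Gm k j))).dq
    (h.toSt.prod _ (TA.St.univ (Kw k ((j * K : ℕ) : ℤ)))).dq
    (fun p q => p.1 = q.1 ∧ ∃ d : kˣ, A.t d (A.w p.1) = p.1 ∧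
      q.2 = ((p.2 ^ K : kˣ) : k) + ((d ^ (j * K) * (p.2 ^ K)⁻¹ : kˣ) : k)) ?_ ?_ ?_ ?_
  · fun_prop
  · rintro ⟨y, x⟩ ⟨hy, -⟩
    obtain ⟨d, hd⟩ := dih y hy
    exact ⟨(y, _), ⟨hy, trivial⟩, rfl, d, hd, rfl⟩
  · rintro ⟨y, u⟩ ⟨hy, -⟩
    obtain ⟨d, hd⟩ := dih y hy
    obtain ⟨v, hv⟩ := NAD_solve (d ^ (j * K)) u
    obtain ⟨x, hx⟩ := NAD_root K hK1 v
    refine ⟨(y, x), ⟨hy, trivial⟩, rfl, d, hd, ?_⟩
    show u = ((x ^ K : kˣ) : k) + ((d ^ (j * K) * (x ^ K)⁻¹ : kˣ) : k)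
    rw [hx]
    exact hv
  · rintro ⟨y, x⟩ ⟨hy, -⟩ ⟨y1, u⟩ ⟨hy1, -⟩ ⟨e, d, hd, hu⟩ ⟨y', x'⟩ ⟨hy', -⟩ ⟨y1', u'⟩ ⟨hy1', -⟩
      ⟨e', d', hd', hu'⟩
    dsimp only at e e' hd hd' hu hu' hy hy'
    subst e e'
    have hwy : A.w y = A.t d⁻¹ y := by
      conv_rhs => rw [← hd]
      exact (A.t_inv _ _).symm
    constructor
    · rintro ⟨c, hc | hc⟩
      · have hc1 : A.t c y = y' := congrArg Prod.fst hc
        have hc2 : c ^ (j : ℤ) * x = x' := congrArg Prod.snd hc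
        rw [zpow_natCast] at hc2
        subst hc1 hc2
        have h5 := hsq y hy c d d' hd hd'
        refine ⟨c, Prod.ext rfl ?_⟩
        show ((c ^ ((j * K : ℕ) : ℤ) : kˣ) : k) * u = u'
        rw [hu, hu', h5, zpow_natCast, mul_add, ← Units.val_mul, ← Units.val_mul, mul_pow, ← pow_mul]
        congr 2
        rw [mul_inv, pow_two]
        generalize c ^ (j * K) = P
        generalize d ^ (j * K) = D
        rw [show P * P * D * (P⁻¹ * (x ^ K)⁻¹) = P * P⁻¹ * P * (D * (x ^ K)⁻¹) by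
          simp only [mul_comm, mul_left_comm, mul_assoc], mul_inv_cancel, one_mul]
      · have hc1 : A.t c (A.w y) = y' := congrArg Prod.fst hc
        have hc2 : c ^ (j : ℤ) * x⁻¹ = x' := congrArg Prod.snd hc
        rw [zpow_natCast] at hc2
        obtain ⟨e, rfl⟩ : ∃ e, c = e * d := ⟨c * d⁻¹, by simp⟩
        have hc3 : A.t e y = y' := by
          rw [← hc1, A.t_mul, hd]
        subst hc3 hc2
        have h5 := hsq y hy e d d' hd hd'
        refine ⟨e, Prod.ext rfl ?_⟩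
        show ((e ^ ((j * K : ℕ) : ℤ) : kˣ) : k) * u = u'
        have e1 : ((e * d) ^ j * x⁻¹) ^ K = e ^ (j * K) * d ^ (j * K) * (x ^ K)⁻¹ := by
          rw [mul_pow, ← pow_mul, mul_pow, inv_pow]
        rw [hu, hu', h5, zpow_natCast, mul_add, ← Units.val_mul, ← Units.val_mul, e1, add_comm]
        congr 2
        · rw [mul_assoc]
        · generalize e ^ (j * K) = P
          generalize d ^ (j * K) = D
          rw [mul_inv, mul_inv, inv_inv, pow_two]
          rw [show P * P * D * (P⁻¹ * D⁻¹ * x ^ K) = P * P⁻¹ * (D * D⁻¹) * (P * x ^ K) by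
            simp only [mul_comm, mul_left_comm, mul_assoc], mul_inv_cancel, mul_inv_cancel, one_mul,
            one_mul]
    · rintro ⟨c, hc⟩
      have hc1 : A.t c y = y' := congrArg Prod.fst hc
      have hc2 : ((c ^ ((j * K : ℕ) : ℤ) : kˣ) : k) * u = u' := congrArg Prod.snd hc
      rw [zpow_natCast] at hc2
      subst hc1
      have h5 := hsq y hy c d d' hd hd'
      have hcy : A.t c y ∈ s := h.t_mem c y hy
      have h6 : ((c ^ (j * K) * x ^ K : kˣ) : k) +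
          (((c ^ (j * K)) ^ 2 * d ^ (j * K) * (c ^ (j * K) * x ^ K)⁻¹ : kˣ) : k) =
          ((x' ^ K : kˣ) : k) + (((c ^ (j * K)) ^ 2 * d ^ (j * K) * (x' ^ K)⁻¹ : kˣ) : k) := by
        rw [← h5, ← hu', ← hc2, hu, h5, mul_add, ← Units.val_mul, ← Units.val_mul]
        congr 2
        rw [mul_inv, pow_two]
        generalize c ^ (j * K) = P
        generalize d ^ (j * K) = D
        rw [show P * P * D * (P⁻¹ * (x ^ K)⁻¹) = P * P⁻¹ * P * (D * (x ^ K)⁻¹) by
          simp only [mul_comm, mul_left_comm, mul_assoc], mul_inv_cancel, one_mul]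
      rcases NAD_quad _ _ _ h6 with h7 | h7
      · obtain ⟨e, he1, he2⟩ := NAD_lift m j hm (x' * (c ^ j * x)⁻¹) (by
          rw [mul_pow, inv_pow, mul_pow, ← pow_mul, h7, mul_inv_cancel])
        refine ⟨e * c, Or.inl (Prod.ext ?_ ?_)⟩
        · show A.t (e * c) y = A.t c y
          rw [A.t_mul]
          exact (hst _ hcy e).2 he1
        · show (e * c) ^ (j : ℤ) * x = x'
          rw [zpow_natCast, mul_pow, he2, mul_assoc, inv_mul_cancel_right]
      · obtain ⟨e, he1, he2⟩ := NAD_lift m j hm (x' * ((c * d) ^ j * x⁻¹)⁻¹) (by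
          rw [mul_pow, inv_pow, mul_pow, ← pow_mul, mul_pow, inv_pow, mul_inv_eq_one]
          have h8 : x' ^ K = (c ^ (j * K) * x ^ K)⁻¹ * ((c ^ (j * K)) ^ 2 * d ^ (j * K)) := by
            rw [← h7, inv_mul_cancel_left]
          rw [h8, mul_inv, pow_two]
          generalize c ^ (j * K) = P
          generalize d ^ (j * K) = D
          rw [show P⁻¹ * (x ^ K)⁻¹ * (P * P * D) = P⁻¹ * P * (P * D * (x ^ K)⁻¹) by
            simp only [mul_comm, mul_left_comm, mul_assoc], inv_mul_cancel, one_mul])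
        refine ⟨e * (c * d), Or.inr (Prod.ext ?_ ?_)⟩
        · show A.t (e * (c * d)) (A.w y) = A.t c y
          rw [A.t_mul, A.t_mul, hd]
          exact (hst _ hcy e).2 he1
        · show (e * (c * d)) ^ (j : ℤ) * x⁻¹ = x'
          rw [zpow_natCast, mul_pow, he2, mul_assoc, inv_mul_cancel_right]

private theorem NAD_prim (m : ℕ) (hm : 1 ≤ m) : ∃ c : kˣ, IsPrimitiveRoot c m := by
  have : NeZero m := ⟨by omega⟩
  have : NeZero ((m : ℕ) : k) := ⟨by exact_mod_cast (by omega : m ≠ 0)⟩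
  obtain ⟨c, hc⟩ := HasEnoughRootsOfUnity.exists_primitiveRoot k m
  have hu := hc.isUnit (by omega)
  exact ⟨hu.unit, by
    rw [← IsPrimitiveRoot.coe_units_iff]
    exact hc⟩

private theorem NAD_dis (A : NA k Y) (s : Set Y) (m n : ℕ) (hm : 1 ≤ m) (hn : 1 ≤ n)
    (hmn : m ≠ n) : Disjoint (NAD_str A m s) (NAD_str A n s) := by
  rw [Set.disjoint_left]
  rintro y ⟨-, h1⟩ ⟨-, h2⟩
  obtain ⟨c, hc⟩ := NAD_prim (k := k) m hm
  obtain ⟨d, hd⟩ := NAD_prim (k := k) n hn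
  apply hmn
  apply Nat.dvd_antisymm
  · exact (hc.pow_eq_one_iff_dvd n).1 ((h2 c).1 ((h1 c).2 hc.pow_eq_one))
  · exact (hd.pow_eq_one_iff_dvd m).1 ((h1 d).1 ((h2 d).2 hd.pow_eq_one))

/-- N11: every point is fixed by an element of `N` outside `T`. -/
theorem good_dihedral {A : NA k Y} {s : Set Y} (h : A.St s) (fin : A.toTA.Fin s)
    (dih : ∀ y ∈ s, ∃ c : kˣ, A.t c (A.w y) = y) : NGood 1 A s := by
  refine ⟨h, fin, ?_⟩
  intro j hj _
  have hn : ncl A s = tcl A.toTA s := by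
    refine clq_congr ?_
    intro x hx y hy
    constructor
    · rintro ⟨c, hc | hc⟩
      · exact ⟨c, hc⟩
      · obtain ⟨d, hd⟩ := dih x hx
        refine ⟨c * d⁻¹, ?_⟩
        rw [← hc, A.t_mul]
        congr 1
        conv_lhs => rw [← hd]
        exact A.t_inv _ _
    · rintro ⟨c, hc⟩
      exact ⟨c, Or.inl hc⟩
  obtain ⟨M, hM⟩ := NAD_cover h fin
  have hU : s = ⋃ m ∈ Finset.Icc 1 M, NAD_str A m s := by
    ext y
    simp only [Set.mem_iUnion]
    constructor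
    · intro hy
      obtain ⟨m, hm, hy'⟩ := hM y hy
      exact ⟨m, hm, hy'⟩
    · rintro ⟨m, -, hy⟩
      exact hy.1
  have hU2 : s ×ˢ (Set.univ : Set kˣ) =
      ⋃ m ∈ Finset.Icc 1 M, (NAD_str A m s ×ˢ (Set.univ : Set kˣ)) := by
    ext ⟨y, x⟩
    simp only [Set.mem_iUnion, Set.mem_prod, Set.mem_univ, and_true]
    constructor
    · intro hy
      obtain ⟨m, hm, hy'⟩ := hM y hy
      exact ⟨m, hm, hy'⟩
    · rintro ⟨m, -, hy⟩
      exact hy.1
  have h1 : tcl A.toTA s = ∑ m ∈ Finset.Icc 1 M, tcl A.toTA (NAD_str A m s) := by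
    conv_lhs => rw [hU]
    refine tcl_sum _ _ (fun m _ => (NAD_str_St h m).toSt) ?_
    intro m hm n hn hmn
    exact NAD_dis A s m n (Finset.mem_Icc.1 hm).1 (Finset.mem_Icc.1 hn).1 hmn
  have h2 : om A j s = ∑ m ∈ Finset.Icc 1 M, om A j (NAD_str A m s) := by
    unfold om
    rw [hU2]
    refine ncl_sum _ _ (fun m _ => (NAD_str_St h m).prod _ (NA.St.univ _)) ?_
    intro m hm n hn hmn
    have h3 := NAD_dis A s m n (Finset.mem_Icc.1 hm).1 (Finset.mem_Icc.1 hn).1 hmn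
    rw [Set.disjoint_left] at h3 ⊢
    rintro ⟨y, x⟩ ⟨hy, -⟩ ⟨hy', -⟩
    exact h3 hy hy'
  have h3 : om A j s = L • tcl A.toTA s := by
    rw [h1, h2, Finset.smul_sum]
    refine Finset.sum_congr rfl fun m hm => ?_
    exact NAD_om (NAD_str_St h m) (fun y hy => fin y hy.1) (fun y hy => dih y hy.1) m
      (Finset.mem_Icc.1 hm).1 (fun y hy => hy.2) j hj
  rw [h3, hn, add_smul, one_smul]

/-- The `N`-structure in which `T` acts trivially. -/
private def NAD_triv (A : NA k Y) : NA k Y where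
  t _ y := y
  t_one _ := rfl
  t_mul _ _ _ := rfl
  dt := by fun_prop
  w := A.w
  w_w := A.w_w
  w_t _ _ := rfl
  dw := A.dw

/-- N12: a space over `G_(i)`, `i ≥ 1`, with `μ_i` acting trivially. -/
theorem good_over_Gm {A : NA k Y} {s : Set Y} (h : A.St s) (fin : A.toTA.Fin s) (i : ℕ)
    (hi : 1 ≤ i) (ψ : Y → kˣ) (dψ : DM k ψ) (ψt : ∀ c, ∀ y ∈ s, ψ (A.t c y) = c ^ i * ψ y)
    (ψw : ∀ y ∈ s, ψ (A.w y) = (ψ y)⁻¹) (triv : ∀ c : kˣ, c ^ i = 1 → ∀ y ∈ s, A.t c y = y) :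
    NGood 1 A s := by
  refine ⟨h, fin, ?_⟩
  intro j hj _
  have hs := h.ds
  set B := NAD_triv A with hB
  set s1 : Set Y := {y | y ∈ s ∧ ψ y = 1} with hs1
  have ds1 : DM k (fun y => y ∈ s1) := by
    have h1 : DM k (fun y => ψ y = 1) := by fun_prop
    exact hs.and h1
  have hS : B.St s1 := by
    refine ⟨⟨ds1, fun _ _ hy => hy⟩, ?_⟩
    rintro y ⟨hy, hψ⟩
    refine ⟨h.w_mem y hy, ?_⟩
    show ψ (A.w y) = 1
    rw [ψw y hy, hψ, inv_one]
  -- moving a point to the slice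
  have mv : ∀ y ∈ s, ∃ c : kˣ, A.t c y ∈ s1 := by
    intro y hy
    obtain ⟨c, hc⟩ := NAD_root i hi (ψ y)⁻¹
    exact ⟨c, h.t_mem c y hy, by rw [ψt c y hy, hc, inv_mul_cancel]⟩
  have one : ∀ y ∈ s1, ∀ c : kˣ, A.t c y ∈ s1 → c ^ i = 1 := by
    rintro y ⟨hy, hψ⟩ c ⟨-, hc⟩
    rw [ψt c y hy, hψ, mul_one] at hc
    exact hc
  have ht : tcl A.toTA s = tcl B.toTA s1 := by
    symm
    refine clq_map hS.toSt.dq h.toSt.dq (fun y => y) DM.id' (fun y hy => hy.1) ?_ ?_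
    · intro x hx y hy
      constructor
      · rintro ⟨c, hc⟩
        have hc' : x = y := hc
        exact ⟨1, by rw [A.t_one]; exact hc'⟩
      · rintro ⟨c, hc⟩
        refine ⟨1, ?_⟩
        show x = y
        have h1 := one x hx c (by rw [hc]; exact hy)
        rw [← hc, triv c h1 x hx.1]
    · intro y hy
      obtain ⟨c, hc⟩ := mv y hy
      exact ⟨A.t c y, hc, c⁻¹, A.t_inv c y⟩
  have hn : ncl A s = ncl B s1 := by
    symm
    refine clq_map hS.dq h.dq (fun y => y) DM.id' (fun y hy => hy.1) ?_ ?_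
    · intro x hx y hy
      constructor
      · rintro ⟨c, hc | hc⟩
        · have hc' : x = y := hc
          exact ⟨1, Or.inl (by rw [A.t_one]; exact hc')⟩
        · have hc' : A.w x = y := hc
          exact ⟨1, Or.inr (by rw [A.t_one]; exact hc')⟩
      · rintro ⟨c, hc | hc⟩
        · refine ⟨1, Or.inl ?_⟩
          show x = y
          have h1 := one x hx c (by rw [hc]; exact hy)
          rw [← hc, triv c h1 x hx.1]
        · refine ⟨1, Or.inr ?_⟩
          show A.w x = y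
          have h1 := one (A.w x) (hS.w_mem x hx) c (by rw [hc]; exact hy)
          rw [← hc, triv c h1 (A.w x) (h.w_mem x hx.1)]
    · intro y hy
      obtain ⟨c, hc⟩ := mv y hy
      exact ⟨A.t c y, hc, c⁻¹, Or.inl (A.t_inv c y)⟩
  set K := i / Nat.gcd j i with hK
  have hK1 : 1 ≤ K := NAD_pos i j hi
  have hdvd : i ∣ j * K := NAD_dvd i j
  have ho : om A j s = om B 0 s1 := by
    have hq := (h.prod _ (NA.St.univ (Gm k j))).dq
    have hq1 : DQ k (s1 ×ˢ (Set.univ : Set kˣ)) (A.prod (Gm k j)).nrel :=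
      hq.mono (DM.comp ds1 (by fun_prop : DM k (fun p : Y × kˣ => p.1)) |>.congr_iff (by simp))
        (Set.prod_mono_left fun y hy => hy.1)
    have e1 : clq k (s1 ×ˢ (Set.univ : Set kˣ)) (A.prod (Gm k j)).nrel = om A j s := by
      refine clq_map hq1 hq (fun y => y) DM.id' (fun y hy => ⟨hy.1.1, trivial⟩)
        (fun _ _ _ _ => Iff.rfl) ?_
      rintro ⟨y, x⟩ ⟨hy, -⟩
      obtain ⟨c, hc⟩ := mv y hy
      refine ⟨(A.prod (Gm k j)).t c (y, x), ⟨hc, trivial⟩, c⁻¹, Or.inl ?_⟩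
      exact (A.prod (Gm k j)).t_inv c (y, x)
    rw [← e1]
    refine clq_map hq1 (hS.prod _ (NA.St.univ (Gm k 0))).dq (fun p => (p.1, p.2 ^ K)) (by fun_prop)
      (fun y hy => ⟨hy.1, trivial⟩) ?_ ?_
    · rintro ⟨y, x⟩ ⟨hy, -⟩ ⟨y', x'⟩ ⟨hy', -⟩
      dsimp only at hy hy'
      constructor
      · rintro ⟨c, hc | hc⟩
        · have hc1 : A.t c y = y' := congrArg Prod.fst hc
          have hc2 : c ^ (j : ℤ) * x = x' := congrArg Prod.snd hc
          rw [zpow_natCast] at hc2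
          have h1 := one y hy c (by rw [hc1]; exact hy')
          refine ⟨1, Or.inl (Prod.ext ?_ ?_)⟩
          · show y = y'
            rw [← hc1, triv c h1 y hy.1]
          · show (1 : kˣ) ^ (0 : ℤ) * x ^ K = x' ^ K
            rw [one_zpow, one_mul, ← hc2, mul_pow, ← pow_mul, NAD_pow i _ hdvd c h1, one_mul]
        · have hc1 : A.t c (A.w y) = y' := congrArg Prod.fst hc
          have hc2 : c ^ (j : ℤ) * x⁻¹ = x' := congrArg Prod.snd hc
          rw [zpow_natCast] at hc2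
          have hwy := hS.w_mem y hy
          have h1 := one (A.w y) hwy c (by rw [hc1]; exact hy')
          refine ⟨1, Or.inr (Prod.ext ?_ ?_)⟩
          · show A.w y = y'
            rw [← hc1, triv c h1 (A.w y) hwy.1]
          · show (1 : kˣ) ^ (0 : ℤ) * (x ^ K)⁻¹ = x' ^ K
            rw [one_zpow, one_mul, ← hc2, mul_pow, ← pow_mul, NAD_pow i _ hdvd c h1, one_mul, inv_pow]
      · rintro ⟨c, hc | hc⟩
        · have hc1 : y = y' := congrArg Prod.fst hc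
          have hc2 : c ^ (0 : ℤ) * x ^ K = x' ^ K := congrArg Prod.snd hc
          rw [zpow_zero, one_mul] at hc2
          obtain ⟨e, he1, he2⟩ := NAD_lift i j hi (x' * x⁻¹) (by
            rw [mul_pow, inv_pow, ← hK, hc2, mul_inv_cancel])
          refine ⟨e, Or.inl (Prod.ext ?_ ?_)⟩
          · show A.t e y = y'
            rw [triv e he1 y hy.1, hc1]
          · show e ^ (j : ℤ) * x = x'
            rw [zpow_natCast, he2, inv_mul_cancel_right]
        · have hc1 : A.w y = y' := congrArg Prod.fst hc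
          have hc2 : c ^ (0 : ℤ) * (x ^ K)⁻¹ = x' ^ K := congrArg Prod.snd hc
          rw [zpow_zero, one_mul] at hc2
          obtain ⟨e, he1, he2⟩ := NAD_lift i j hi (x' * (x⁻¹)⁻¹) (by
            rw [mul_pow, inv_inv, ← hK, ← hc2, inv_mul_cancel])
          refine ⟨e, Or.inr (Prod.ext ?_ ?_)⟩
          · show A.t e (A.w y) = y'
            rw [triv e he1 (A.w y) (h.w_mem y hy.1), hc1]
          · show e ^ (j : ℤ) * x⁻¹ = x'
            rw [zpow_natCast, he2, inv_mul_cancel_right]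
    · rintro ⟨y, x⟩ ⟨hy, -⟩
      obtain ⟨v, hv⟩ := NAD_root K hK1 x
      refine ⟨(y, v), ⟨hy, trivial⟩, 1, Or.inl ?_⟩
      rw [(B.prod (Gm k 0)).t_one]
      exact Prod.ext rfl hv
  rw [ht, hn, ho, om_zero B hS]
  abel

end Pool.Agent.MRat
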