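import Pool.Agent.Lib.MP_923aff_ag.NA4
/-!
# JOB NAE: odd stabilisers (N13), fixed loci and strata
-/

set_option autoImplicit false

namespace Pool.Agent.MRat

open scoped MatrixGroups LinearAlgebra.Projectivization

variable {k : Type} [Field k] [IsAlgClosed k] [CharZero k]
variable {X Y Z : Type} [DT k X] [DT k Y] [DT k Z]

/-- The torus of `GL_2`. -/
private def nae_D (h : ℕ) (c : kˣ) : GL (Fin 2) k :=
  ⟨!![((c ^ h : kˣ) : k), 0; 0, ((c⁻¹ ^ h : kˣ) : k)],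
    !![((c⁻¹ ^ h : kˣ) : k), 0; 0, ((c ^ h : kˣ) : k)], by
      ext i j
      fin_cases i <;> fin_cases j <;> simp [Matrix.mul_apply, Fin.sum_univ_two], by
      ext i j
      fin_cases i <;> fin_cases j <;> simp [Matrix.mul_apply, Fin.sum_univ_two]⟩

private def nae_S (k : Type) [Field k] : GL (Fin 2) k :=
  ⟨!![0, 1; 1, 0], !![0, 1; 1, 0], by
      ext i j
      fin_cases i <;> fin_cases j <;> simp [Matrix.mul_apply, Fin.sum_univ_two], by
      ext i j
      fin_cases i <;> fin_cases j <;> simp [Matrix.mul_apply, Fin.sum_univ_two]⟩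

omit [IsAlgClosed k] [CharZero k] in
private theorem nae_D_val (h : ℕ) (c : kˣ) : ((nae_D h c : GL (Fin 2) k) : Matrix (Fin 2) (Fin 2) k) =
    !![((c ^ h : kˣ) : k), 0; 0, ((c⁻¹ ^ h : kˣ) : k)] := rfl

omit [IsAlgClosed k] [CharZero k] in
private theorem nae_S_val : ((nae_S k : GL (Fin 2) k) : Matrix (Fin 2) (Fin 2) k) =
    !![0, 1; 1, 0] := rfl

omit [IsAlgClosed k] [CharZero k] in
private theorem nae_D_one (h : ℕ) : nae_D h (1 : kˣ) = 1 := by
  apply Units.ext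
  ext i j
  rw [nae_D_val]
  fin_cases i <;> fin_cases j <;> simp

omit [IsAlgClosed k] [CharZero k] in
private theorem nae_D_mul (h : ℕ) (a b : kˣ) : nae_D h (a * b) = nae_D h a * nae_D h b := by
  apply Units.ext
  ext i j
  rw [Units.val_mul, nae_D_val, nae_D_val, nae_D_val]
  fin_cases i <;> fin_cases j <;>
    simp [Matrix.mul_apply, Fin.sum_univ_two, mul_pow, mul_comm]

omit [IsAlgClosed k] [CharZero k] in
private theorem nae_S_S : nae_S k * nae_S k = 1 := by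
  apply Units.ext
  ext i j
  rw [Units.val_mul, nae_S_val]
  fin_cases i <;> fin_cases j <;> simp [Matrix.mul_apply, Fin.sum_univ_two]

omit [IsAlgClosed k] [CharZero k] in
private theorem nae_S_D (h : ℕ) (c : kˣ) : nae_S k * nae_D h c = nae_D h c⁻¹ * nae_S k := by
  apply Units.ext
  ext i j
  rw [Units.val_mul, Units.val_mul, nae_D_val, nae_D_val, nae_S_val]
  fin_cases i <;> fin_cases j <;> simp [Matrix.mul_apply, Fin.sum_univ_two]

private theorem nae_D_dm (h : ℕ) {f : X → kˣ} (hf : DM k f) : DM k (fun x => nae_D h (f x)) := by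
  refine DM.to_gl (DM.matrix (fun i j => ?_))
  simp only [nae_D_val]
  fin_cases i <;> fin_cases j <;> simp only [Matrix.of_apply, Matrix.cons_val', Matrix.cons_val_zero,
    Matrix.cons_val_one, Matrix.cons_val_fin_one, Fin.zero_eta, Fin.mk_one, Fin.isValue] <;> fun_prop


/-- Transition matrices. -/
private def nae_T (A : NA k Y) (h : ℕ) (x y : Y) (M : GL (Fin 2) k) : Prop :=
  ∃ c : kˣ, (A.t c x = y ∧ M = nae_D h c) ∨ (A.t c (A.w x) = y ∧ M = nae_D h c * nae_S k)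

private theorem nae_T_one (A : NA k Y) (h : ℕ) (x : Y) : nae_T A h x x 1 :=
  ⟨1, Or.inl ⟨A.t_one x, (nae_D_one h).symm⟩⟩

private theorem nae_T_comp (A : NA k Y) (h : ℕ) {x y z : Y} {M M' : GL (Fin 2) k}
    (h1 : nae_T A h x y M) (h2 : nae_T A h y z M') : nae_T A h x z (M' * M) := by
  obtain ⟨c, (⟨rfl, rfl⟩ | ⟨rfl, rfl⟩)⟩ := h1
  · obtain ⟨c', (⟨rfl, rfl⟩ | ⟨rfl, rfl⟩)⟩ := h2
    · exact ⟨c' * c, Or.inl ⟨A.t_mul _ _ _, (nae_D_mul h _ _).symm⟩⟩
    · refine ⟨c' * c⁻¹, Or.inr ⟨?_, ?_⟩⟩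
      · rw [A.t_mul, A.w_t]
      · rw [nae_D_mul, mul_assoc, mul_assoc, nae_S_D]
  · obtain ⟨c', (⟨rfl, rfl⟩ | ⟨rfl, rfl⟩)⟩ := h2
    · refine ⟨c' * c, Or.inr ⟨?_, ?_⟩⟩
      · rw [A.t_mul]
      · rw [nae_D_mul, mul_assoc]
    · refine ⟨c' * c⁻¹, Or.inl ⟨?_, ?_⟩⟩
      · rw [A.t_mul, A.w_t, A.w_w]
      · rw [nae_D_mul, mul_assoc, ← mul_assoc (nae_S k), nae_S_D, mul_assoc (nae_D h c⁻¹), nae_S_S,
          mul_one]

private theorem nae_T_inv (A : NA k Y) (h : ℕ) {x y : Y} {M : GL (Fin 2) k}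
    (h1 : nae_T A h x y M) : nae_T A h y x M⁻¹ := by
  obtain ⟨c, (⟨rfl, rfl⟩ | ⟨rfl, rfl⟩)⟩ := h1
  · refine ⟨c⁻¹, Or.inl ⟨A.t_inv c x, ?_⟩⟩
    rw [inv_eq_iff_mul_eq_one, ← nae_D_mul, mul_inv_cancel, nae_D_one]
  · refine ⟨c, Or.inr ⟨?_, ?_⟩⟩
    · rw [A.w_t, A.w_w, ← A.t_mul, mul_inv_cancel, A.t_one]
    · rw [inv_eq_iff_mul_eq_one, mul_assoc, ← mul_assoc (nae_S k), nae_S_D,
        mul_assoc (nae_D h c⁻¹), nae_S_S, mul_one, ← nae_D_mul, mul_inv_cancel, nae_D_one]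

private theorem nae_T_ex {A : NA k Y} (h : ℕ) {x y : Y} (hr : A.nrel x y) :
    ∃ M, nae_T A h x y M := by
  obtain ⟨c, (hc | hc)⟩ := hr
  · exact ⟨_, c, Or.inl ⟨hc, rfl⟩⟩
  · exact ⟨_, c, Or.inr ⟨hc, rfl⟩⟩

private theorem nae_T_rel {A : NA k Y} {h : ℕ} {x y : Y} {M : GL (Fin 2) k}
    (hT : nae_T A h x y M) : A.nrel x y := by
  obtain ⟨c, (⟨hc, -⟩ | ⟨hc, -⟩)⟩ := hT
  · exact ⟨c, Or.inl hc⟩
  · exact ⟨c, Or.inr hc⟩

private theorem nae_T_uniq {A : NA k Y} {s : Set Y} (hs : A.St s) {l h : ℕ} (hl : l ∣ h)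
    (st : ∀ y ∈ s, ∀ c : kˣ, A.t c y = y ↔ c ^ l = 1)
    (nd : ∀ y ∈ s, ∀ c : kˣ, A.t c (A.w y) ≠ y) {x y : Y} (hx : x ∈ s) {M M' : GL (Fin 2) k}
    (h1 : nae_T A h x y M) (h2 : nae_T A h x y M') : M = M' := by
  have key : ∀ z ∈ s, ∀ c c' : kˣ, A.t c z = A.t c' z → nae_D (k := k) h c = nae_D h c' := by
    intro z hz c c' hcc
    have h3 : A.t (c'⁻¹ * c) z = z := by
      rw [A.t_mul, hcc, A.t_inv]
    have h4 : (c'⁻¹ * c) ^ l = 1 := (st z hz _).1 h3
    obtain ⟨q, rfl⟩ := hl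
    have h5 : (c'⁻¹ * c) ^ (l * q) = 1 := by rw [pow_mul, h4, one_pow]
    have h6 : c ^ (l * q) = c' ^ (l * q) := by
      rw [mul_pow, inv_pow, inv_mul_eq_one] at h5
      exact h5.symm
    apply Units.ext
    rw [nae_D_val, nae_D_val, h6, inv_pow, inv_pow, h6]
  have key2 : ∀ c c' : kˣ, A.t c x ≠ A.t c' (A.w x) := by
    intro c c' hcc
    apply nd x hx (c⁻¹ * c')
    rw [A.t_mul, ← hcc, A.t_inv]
  obtain ⟨c, (⟨hc, rfl⟩ | ⟨hc, rfl⟩)⟩ := h1
  · obtain ⟨c', (⟨hc', rfl⟩ | ⟨hc', rfl⟩)⟩ := h2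
    · exact key x hx c c' (hc.trans hc'.symm)
    · exact absurd (hc.trans hc'.symm) (key2 c c')
  · obtain ⟨c', (⟨hc', rfl⟩ | ⟨hc', rfl⟩)⟩ := h2
    · exact absurd (hc'.trans hc.symm) (key2 c' c)
    · rw [key (A.w x) (hs.w_mem x hx) c c' (hc.trans hc'.symm)]

private theorem nae_T_dm (A : NA k Y) (h : ℕ) :
    DM k (fun p : Y × Y × GL (Fin 2) k => nae_T A h p.1 p.2.1 p.2.2) := by
  unfold nae_T
  have h1 : DM k (fun q : (Y × Y × GL (Fin 2) k) × kˣ => nae_D h q.2) := nae_D_dm h (by fun_prop)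
  refine DM.ex (DM.or (DM.and (by fun_prop) (DM.eq (by fun_prop) h1))
    (DM.and (by fun_prop) (DM.eq (by fun_prop) ?_)))
  exact DM.gl_mul h1 (by fun_prop)

/-- The projective bundle. -/
private def nae_R (A : NA k Y) (h : ℕ) (p q : Y × ℙ k (Fin 2 → k)) : Prop :=
  ∃ M, nae_T A h p.1 q.1 M ∧ M • p.2 = q.2

private theorem nae_R_dq {A : NA k Y} {s : Set Y} (hs : A.St s) (h : ℕ) :
    DQ k (s ×ˢ (Set.univ : Set (ℙ k (Fin 2 → k)))) (nae_R A h) where
  ds := by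
    have h1 := hs.ds
    exact (DM.comp h1 (by fun_prop : DM k (fun p : Y × ℙ k (Fin 2 → k) => p.1))).congr_iff
      (fun p => by simp)
  dr := by
    have h1 := hs.ds
    have h2 : DM k (fun p : (Y × ℙ k (Fin 2 → k)) × (Y × ℙ k (Fin 2 → k)) => nae_R A h p.1 p.2) := by
      unfold nae_R
      refine DM.ex (DM.and ?_ (by fun_prop))
      exact DM.comp (nae_T_dm A h) (by fun_prop :
        DM k (fun q : ((Y × ℙ k (Fin 2 → k)) × (Y × ℙ k (Fin 2 → k))) × GL (Fin 2) k =>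
          (q.1.1.1, q.1.2.1, q.2)))
    have h3 : DM k (fun p : (Y × ℙ k (Fin 2 → k)) × (Y × ℙ k (Fin 2 → k)) => p.1.1 ∈ s) := by
      fun_prop
    have h4 : DM k (fun p : (Y × ℙ k (Fin 2 → k)) × (Y × ℙ k (Fin 2 → k)) => p.2.1 ∈ s) := by
      fun_prop
    refine (h3.and (h4.and h2)).congr_iff (fun p => ?_)
    simp only [Set.mem_prod, Set.mem_univ, and_true]
  refl := fun x _ => ⟨1, nae_T_one A h x.1, one_smul _ _⟩
  symm := by
    rintro ⟨x, p⟩ - ⟨y, q⟩ - ⟨M, hT, hM⟩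
    refine ⟨M⁻¹, nae_T_inv A h hT, ?_⟩
    dsimp only at hM ⊢
    rw [← hM, inv_smul_smul]
  trans := by
    rintro ⟨x, p⟩ - ⟨y, q⟩ - ⟨z, r⟩ - ⟨M, hT, hM⟩ ⟨M', hT', hM'⟩
    refine ⟨M' * M, nae_T_comp A h hT hT', ?_⟩
    dsimp only at hM hM' ⊢
    rw [mul_smul, hM, hM']


/-- Hilbert 90: the projective bundle is trivial. -/
private theorem nae_R_class {A : NA k Y} {s : Set Y} (hs : A.St s) {l h : ℕ} (hl : l ∣ h)
    (st : ∀ y ∈ s, ∀ c : kˣ, A.t c y = y ↔ c ^ l = 1)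
    (nd : ∀ y ∈ s, ∀ c : kˣ, A.t c (A.w y) ≠ y) :
    clq k (s ×ˢ (Set.univ : Set (ℙ k (Fin 2 → k)))) (nae_R A h) = (1 + L) • ncl A s := by
  obtain ⟨B, hB, hBe⟩ := h90_DT hs.dq (n := 2) (nae_T A h)
    (by
      have h1 := hs.ds
      exact DM.and (by fun_prop) (DM.and (by fun_prop) (nae_T_dm A h)))
    (fun x _ y _ hr => nae_T_ex h hr)
    (fun x hx y _ _ M M' h1 h2 => nae_T_uniq hs hl st nd hx h1 h2)
    (fun x _ => nae_T_one A h x)
    (fun x _ y _ z _ _ _ M M' h1 h2 => nae_T_comp A h h1 h2)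
  have hbr : (1 + L : Polynomial ℤ) = br 2 := by
    simp [br, Finset.sum_range_succ]
  unfold ncl
  rw [hbr, br_smul_clq hs.dq 2]
  have htgt := clq_prod_of_cl (Y := ℙ k (Fin 2 → k)) hs.dq (t := Set.univ) (DM.const' True)
  have hf : DM k (fun p : Y × ℙ k (Fin 2 → k) => (p.1, (B p.1)⁻¹ • p.2)) := by
    have hB' : DM k (fun p : Y × ℙ k (Fin 2 → k) => B p.1) := DM.comp hB (by fun_prop)
    exact DM.mk (by fun_prop) (DM.smul hB'.gl_inv (by fun_prop))
  refine clq_map (nae_R_dq hs h) htgt (fun p => (p.1, (B p.1)⁻¹ • p.2)) hf ?_ ?_ ?_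
  · rintro ⟨x, p⟩ ⟨hx, -⟩
    exact ⟨hx, trivial⟩
  · rintro ⟨x, p⟩ ⟨hx, -⟩ ⟨y, q⟩ ⟨hy, -⟩
    dsimp only at hx hy ⊢
    constructor
    · rintro ⟨M, hT, hM⟩
      dsimp only at hT hM
      have hr := nae_T_rel hT
      refine ⟨hr, ?_⟩
      rw [hBe x hx y hy hr M hT, mul_inv_rev, mul_smul, ← hM, inv_smul_smul]
    · rintro ⟨hr, h2⟩
      obtain ⟨M, hT⟩ := nae_T_ex h hr
      refine ⟨M, hT, ?_⟩
      rw [hBe x hx y hy hr M hT, mul_inv_rev, mul_smul, smul_left_cancel_iff,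
        eq_inv_smul_iff] at h2
      exact h2
  · rintro ⟨x, p⟩ ⟨hx, -⟩
    refine ⟨(x, B x • p), ⟨hx, trivial⟩, (hs.dq).refl x hx, ?_⟩
    dsimp only
    rw [inv_smul_smul]

/-- Points of the projective line. -/
private def nae_pt (v : Fin 2 → k) (hv : v ≠ 0) : ℙ k (Fin 2 → k) := Projectivization.mk k v hv

omit [IsAlgClosed k] [CharZero k] in
private theorem nae_ne0 (k : Type) [Field k] : (![1, 0] : Fin 2 → k) ≠ 0 := by
  intro h
  have := congrFun h 0
  simp at this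

omit [IsAlgClosed k] [CharZero k] in
private theorem nae_nei (k : Type) [Field k] : (![0, 1] : Fin 2 → k) ≠ 0 := by
  intro h
  have := congrFun h 1
  simp at this

omit [IsAlgClosed k] [CharZero k] in
private theorem nae_nex (x : k) : (![x, 1] : Fin 2 → k) ≠ 0 := by
  intro h
  have := congrFun h 1
  simp at this

/-- The points with nonzero coordinates. -/
private def nae_q (x : kˣ) : ℙ k (Fin 2 → k) := Projectivization.mk k ![(x : k), 1] (nae_nex (x : k))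
private def nae_0 (k : Type) [Field k] : ℙ k (Fin 2 → k) := Projectivization.mk k ![1, 0] (nae_ne0 k)
private def nae_i (k : Type) [Field k] : ℙ k (Fin 2 → k) := Projectivization.mk k ![0, 1] (nae_nei k)

omit [IsAlgClosed k] [CharZero k] in
private theorem nae_cases (p : ℙ k (Fin 2 → k)) : p = nae_0 k ∨ p = nae_i k ∨ ∃ x, p = nae_q x := by
  induction p using Projectivization.ind with
  | h v hv =>
    by_cases h1 : v 1 = 0
    · left
      have h0 : v 0 ≠ 0 := by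
        intro h0
        apply hv
        ext i
        fin_cases i
        · exact h0
        · exact h1
      unfold nae_0
      rw [Projectivization.mk_eq_mk_iff']
      refine ⟨v 0, ?_⟩
      ext i
      fin_cases i <;> simp [h1]
    · right
      by_cases h0 : v 0 = 0
      · left
        unfold nae_i
        rw [Projectivization.mk_eq_mk_iff']
        refine ⟨v 1, ?_⟩
        ext i
        fin_cases i <;> simp [h0]
      · right
        refine ⟨Units.mk0 (v 0 / v 1) (div_ne_zero h0 h1), ?_⟩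
        unfold nae_q
        rw [Projectivization.mk_eq_mk_iff']
        refine ⟨v 1, ?_⟩
        ext i
        fin_cases i <;> simp [mul_div_cancel₀, h1]

omit [IsAlgClosed k] [CharZero k] in
private theorem nae_q_inj {x y : kˣ} (h : nae_q x = nae_q y) : x = y := by
  unfold nae_q at h
  rw [Projectivization.mk_eq_mk_iff'] at h
  obtain ⟨a, ha⟩ := h
  have h1 := congrFun ha 1
  have h0 := congrFun ha 0
  simp at h1 h0
  subst h1
  exact Units.ext (by simpa using h0.symm)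

omit [IsAlgClosed k] [CharZero k] in
private theorem nae_0_ne_i : nae_0 k ≠ nae_i k := by
  intro h
  unfold nae_0 nae_i at h
  rw [Projectivization.mk_eq_mk_iff'] at h
  obtain ⟨a, ha⟩ := h
  have h0 := congrFun ha 0
  simp at h0

omit [IsAlgClosed k] [CharZero k] in
private theorem nae_q_ne_0 (x : kˣ) : nae_q x ≠ nae_0 k := by
  intro h
  unfold nae_0 nae_q at h
  rw [Projectivization.mk_eq_mk_iff'] at h
  obtain ⟨a, ha⟩ := h
  have h0 := congrFun ha 1
  simp at h0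

omit [IsAlgClosed k] [CharZero k] in
private theorem nae_q_ne_i (x : kˣ) : nae_q x ≠ nae_i k := by
  intro h
  unfold nae_i nae_q at h
  rw [Projectivization.mk_eq_mk_iff'] at h
  obtain ⟨a, ha⟩ := h
  have h0 := congrFun ha 0
  simp at h0
  exact x.ne_zero h0.symm

omit [IsAlgClosed k] [CharZero k] in
private theorem nae_smul (M : GL (Fin 2) k) (v : Fin 2 → k) (hv : v ≠ 0) :
    ∃ hw : (M : Matrix (Fin 2) (Fin 2) k).mulVec v ≠ 0,
      M • Projectivization.mk k v hv =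
        Projectivization.mk k ((M : Matrix (Fin 2) (Fin 2) k).mulVec v) hw :=
  ⟨(smul_ne_zero_iff_ne M).mpr hv, rfl⟩

omit [IsAlgClosed k] [CharZero k] in
private theorem nae_D_0 (h : ℕ) (c : kˣ) : nae_D h c • nae_0 k = nae_0 k := by
  unfold nae_0
  obtain ⟨hw, he⟩ := nae_smul (nae_D h c) ![1, 0] (nae_ne0 k)
  rw [he, Projectivization.mk_eq_mk_iff']
  refine ⟨((c ^ h : kˣ) : k), ?_⟩
  rw [nae_D_val]
  ext i
  fin_cases i <;> simp [Matrix.mulVec, dotProduct, Fin.sum_univ_two]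

omit [IsAlgClosed k] [CharZero k] in
private theorem nae_D_i (h : ℕ) (c : kˣ) : nae_D h c • nae_i k = nae_i k := by
  unfold nae_i
  obtain ⟨hw, he⟩ := nae_smul (nae_D h c) ![0, 1] (nae_nei k)
  rw [he, Projectivization.mk_eq_mk_iff']
  refine ⟨((c⁻¹ ^ h : kˣ) : k), ?_⟩
  rw [nae_D_val]
  ext i
  fin_cases i <;> simp [Matrix.mulVec, dotProduct, Fin.sum_univ_two]

omit [IsAlgClosed k] [CharZero k] in
private theorem nae_D_q (h : ℕ) (c x : kˣ) : nae_D h c • nae_q x = nae_q (c ^ (2 * h) * x) := by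
  unfold nae_q
  obtain ⟨hw, he⟩ := nae_smul (nae_D h c) ![(x : k), 1] (nae_nex (x : k))
  rw [he, Projectivization.mk_eq_mk_iff']
  refine ⟨((c⁻¹ ^ h : kˣ) : k), ?_⟩
  rw [nae_D_val]
  have h1 : c⁻¹ ^ h * (c ^ (2 * h) * x) = c ^ h * x := by
    rw [← mul_assoc, two_mul, pow_add, ← mul_assoc, ← mul_pow, inv_mul_cancel, one_pow, one_mul]
  have h2 := congrArg Units.val h1
  simp only [Units.val_mul] at h2
  ext i
  fin_cases i
  · simp only [Matrix.mulVec, dotProduct, Fin.sum_univ_two]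
    simpa using h2
  · simp [Matrix.mulVec, dotProduct, Fin.sum_univ_two]

omit [IsAlgClosed k] [CharZero k] in
private theorem nae_S_0 : nae_S k • nae_0 k = nae_i k := by
  unfold nae_i nae_0
  obtain ⟨hw, he⟩ := nae_smul (nae_S k) ![1, 0] (nae_ne0 k)
  rw [he, Projectivization.mk_eq_mk_iff']
  refine ⟨1, ?_⟩
  rw [nae_S_val]
  ext i
  fin_cases i <;> simp [Matrix.mulVec, dotProduct, Fin.sum_univ_two]

omit [IsAlgClosed k] [CharZero k] in
private theorem nae_S_i : nae_S k • nae_i k = nae_0 k := by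
  rw [← nae_S_0, ← mul_smul, nae_S_S, one_smul]

omit [IsAlgClosed k] [CharZero k] in
private theorem nae_S_q (x : kˣ) : nae_S k • nae_q x = nae_q x⁻¹ := by
  unfold nae_q
  obtain ⟨hw, he⟩ := nae_smul (nae_S k) ![(x : k), 1] (nae_nex (x : k))
  rw [he, Projectivization.mk_eq_mk_iff']
  refine ⟨(x : k), ?_⟩
  rw [nae_S_val]
  ext i
  fin_cases i <;> simp [Matrix.mulVec, dotProduct, Fin.sum_univ_two]


private theorem nae_R_iff (A : NA k Y) (h : ℕ) (x y : Y) (p q : ℙ k (Fin 2 → k)) :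
    nae_R A h (x, p) (y, q) ↔ ∃ c : kˣ, (A.t c x = y ∧ nae_D h c • p = q) ∨
      (A.t c (A.w x) = y ∧ nae_D h c • nae_S k • p = q) := by
  constructor
  · rintro ⟨M, ⟨c, (⟨h1, rfl⟩ | ⟨h1, rfl⟩)⟩, hM⟩
    · exact ⟨c, Or.inl ⟨h1, hM⟩⟩
    · refine ⟨c, Or.inr ⟨h1, ?_⟩⟩
      rw [← mul_smul]
      exact hM
  · rintro ⟨c, (⟨h1, h2⟩ | ⟨h1, h2⟩)⟩
    · exact ⟨_, ⟨c, Or.inl ⟨h1, rfl⟩⟩, h2⟩
    · refine ⟨_, ⟨c, Or.inr ⟨h1, rfl⟩⟩, ?_⟩
      rw [← mul_smul] at h2
      exact h2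

/-- The points over `0` and `∞`. -/
private def nae_t0 (k : Type) [Field k] (Y : Type) : Set (Y × ℙ k (Fin 2 → k)) :=
  {p | p.2 = nae_0 k ∨ p.2 = nae_i k}

private theorem nae_t0_dm : DM k (fun x : Y × ℙ k (Fin 2 → k) => x ∈ nae_t0 k Y) := by
  have h1 : DM k (fun x : Y × ℙ k (Fin 2 → k) => x.2 = nae_0 k ∨ x.2 = nae_i k) := by fun_prop
  exact h1.congr_iff (fun x => Iff.rfl)

private theorem nae_split {A : NA k Y} {s : Set Y} (hs : A.St s) (h : ℕ) :
    clq k (s ×ˢ (Set.univ : Set (ℙ k (Fin 2 → k)))) (nae_R A h) =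
      tcl A.toTA s + om A (2 * h : ℕ) s := by
  have hdq := nae_R_dq hs h
  rw [clq_split hdq (nae_t0 k Y) nae_t0_dm ?_]
  · congr 1
    · symm
      refine clq_map hs.toSt.dq (hdq.inter nae_t0_dm) (fun y => (y, nae_0 k)) (by fun_prop) ?_ ?_ ?_
      · intro x hx
        exact ⟨⟨hx, trivial⟩, Or.inl rfl⟩
      · intro x hx y hy
        rw [nae_R_iff]
        constructor
        · rintro ⟨c, hc⟩
          exact ⟨c, Or.inl ⟨hc, nae_D_0 h c⟩⟩
        · rintro ⟨c, (⟨hc, -⟩ | ⟨-, hc⟩)⟩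
          · exact ⟨c, hc⟩
          · rw [nae_S_0, nae_D_i] at hc
            exact absurd hc.symm nae_0_ne_i
      · rintro ⟨y, p⟩ ⟨⟨hy, -⟩, (hp | hp)⟩
        · dsimp only at hp
          subst hp
          exact ⟨y, hy, (nae_R_dq hs h).refl (y, nae_0 k) ⟨hy, trivial⟩⟩
        · dsimp only at hp hy
          subst hp
          refine ⟨A.w y, hs.w_mem y hy, ?_⟩
          rw [nae_R_iff]
          refine ⟨1, Or.inr ⟨?_, ?_⟩⟩
          · rw [A.w_w, A.t_one]
          · rw [nae_S_0, nae_D_i]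
    · symm
      have hGm := (hs.prod (Gm k (2 * h : ℕ)) (NA.St.univ _)).dq
      refine clq_map hGm (hdq.diff nae_t0_dm) (fun p => (p.1, nae_q p.2)) ?_ ?_ ?_ ?_
      · refine DM.mk (by fun_prop) ?_
        exact DM.pmk (DM.pi (fun i => by
          fin_cases i
          · exact (by fun_prop : DM k (fun p : Y × kˣ => (p.2 : k)))
          · exact (by fun_prop : DM k (fun p : Y × kˣ => (1 : k)))))
          (fun p : Y × kˣ => nae_nex (p.2 : k))
      · rintro ⟨x, p⟩ ⟨hx, -⟩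
        refine ⟨⟨hx, trivial⟩, ?_⟩
        rintro (hh | hh)
        · exact nae_q_ne_0 _ hh
        · exact nae_q_ne_i _ hh
      · rintro ⟨x, p⟩ ⟨hx, -⟩ ⟨y, q⟩ ⟨hy, -⟩
        dsimp only
        rw [nae_R_iff]
        refine exists_congr (fun c => or_congr ?_ ?_)
        · rw [nae_D_q]
          show (A.t c x, (c ^ ((2 * h : ℕ) : ℤ) * p)) = (y, q) ↔ _
          rw [Prod.mk.injEq, zpow_natCast]
          exact and_congr_right (fun _ => ⟨fun hh => by rw [hh], fun hh => nae_q_inj hh⟩)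
        · rw [nae_S_q, nae_D_q]
          show (A.t c (A.w x), (c ^ ((2 * h : ℕ) : ℤ) * p⁻¹)) = (y, q) ↔ _
          rw [Prod.mk.injEq, zpow_natCast]
          exact and_congr_right (fun _ => ⟨fun hh => by rw [hh], fun hh => nae_q_inj hh⟩)
      · rintro ⟨y, p⟩ ⟨⟨hy, -⟩, hp⟩
        rcases nae_cases p with h1 | h1 | ⟨x, rfl⟩
        · exact absurd (Or.inl h1) hp
        · exact absurd (Or.inr h1) hp
        · exact ⟨(y, x), ⟨hy, trivial⟩, (nae_R_dq hs h).refl (y, nae_q x) ⟨hy, trivial⟩⟩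
  · rintro ⟨x, p⟩ - ⟨y, q⟩ - hr hp
    rw [nae_R_iff] at hr
    obtain ⟨c, (⟨-, hc⟩ | ⟨-, hc⟩)⟩ := hr
    · rcases hp with hp | hp
      · left
        dsimp only at hp ⊢
        rw [← hc, hp, nae_D_0]
      · right
        dsimp only at hp ⊢
        rw [← hc, hp, nae_D_i]
    · rcases hp with hp | hp
      · right
        dsimp only at hp ⊢
        rw [← hc, hp, nae_S_0, nae_D_i]
      · left
        dsimp only at hp ⊢
        rw [← hc, hp, nae_S_i, nae_D_0]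

omit [CharZero k] in
private theorem nae_exists_root (u : kˣ) {n : ℕ} (hn : 0 < n) : ∃ v : kˣ, v ^ n = u := by
  obtain ⟨z, hz⟩ := IsAlgClosed.exists_pow_nat_eq (u : k) hn
  have hz0 : z ≠ 0 := by
    rintro rfl
    rw [zero_pow hn.ne'] at hz
    exact u.ne_zero hz.symm
  exact ⟨Units.mk0 z hz0, Units.ext (by simpa using hz)⟩

private theorem nae_e_pos {l j e : ℕ} (hl : 1 ≤ l) (hj : 1 ≤ j) (he : Nat.lcm j l = j * e) :
    0 < e := by
  rcases Nat.eq_zero_or_pos e with h0 | h0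
  · exfalso
    rw [h0, mul_zero, Nat.lcm_eq_zero_iff] at he
    omega
  · exact h0

omit [CharZero k] in
private theorem nae_root {l j : ℕ} (hj : 1 ≤ j) :
    ∃ e : ℕ, Nat.lcm j l = j * e ∧ ∀ ζ : kˣ, ζ ^ e = 1 → ∃ d : kˣ, d ^ l = 1 ∧ d ^ j = ζ := by
  obtain ⟨j', l', hcop, hj', hl'⟩ := Nat.exists_coprime j l
  refine ⟨l', ?_, ?_⟩
  · have hg := Nat.gcd_mul_lcm j l
    have hg0 : 0 < Nat.gcd j l := Nat.gcd_pos_of_pos_left _ hj
    apply Nat.eq_of_mul_eq_mul_left hg0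
    rw [hg]
    calc j * l = j * (l' * Nat.gcd j l) := by rw [← hl']
      _ = Nat.gcd j l * (j * l') := by ring
  · intro ζ hζ
    obtain ⟨d0, hd0⟩ := nae_exists_root ζ hj
    have hb := Nat.gcd_eq_gcd_ab j' l'
    rw [Nat.Coprime.gcd_eq_one hcop] at hb
    set u := Nat.gcdA j' l'
    set v := Nat.gcdB j' l'
    have hζ' : ζ ^ (l' : ℤ) = 1 := by rw [zpow_natCast, hζ]
    have hd0' : d0 ^ (j : ℤ) = ζ := by rw [zpow_natCast, hd0]
    refine ⟨d0 ^ ((j' : ℤ) * u), ?_, ?_⟩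
    · rw [← zpow_natCast, ← zpow_mul]
      have h1 : (j' : ℤ) * u * (l : ℤ) = (j : ℤ) * ((l' : ℤ) * u) := by
        have h2 : (l : ℤ) = (l' : ℤ) * (Nat.gcd j l : ℤ) := by exact_mod_cast hl'
        have h3 : (j : ℤ) = (j' : ℤ) * (Nat.gcd j l : ℤ) := by exact_mod_cast hj'
        rw [h2]
        conv_rhs => rw [h3]
        ring
      rw [h1, zpow_mul, hd0', zpow_mul, hζ', one_zpow]
    · rw [← zpow_natCast, ← zpow_mul]
      have h1 : (j' : ℤ) * u * (j : ℤ) = (j : ℤ) * ((j' : ℤ) * u) := by ring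
      have h2 : (j' : ℤ) * u = 1 + (l' : ℤ) * (-v) := by
        have : (1 : ℤ) = (j' : ℤ) * u + (l' : ℤ) * v := by exact_mod_cast hb
        linarith
      rw [h1, zpow_mul, hd0', h2, zpow_add, zpow_one, zpow_mul, hζ', one_zpow, mul_one]

/-- If the stabilisers in `T` are `μ_l`, then `om_j` only depends on `lcm(j, l)`. -/
private theorem nae_om_lcm {A : NA k Y} {s : Set Y} (hs : A.St s) {l j : ℕ} (hl : 1 ≤ l)
    (hj : 1 ≤ j) (st : ∀ y ∈ s, ∀ c : kˣ, A.t c y = y ↔ c ^ l = 1) :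
    om A j s = om A (Nat.lcm j l : ℕ) s := by
  obtain ⟨e, he, hroot⟩ := nae_root (k := k) (l := l) hj
  rw [he]
  unfold om
  have h1 := (hs.prod (Gm k (j : ℤ)) (NA.St.univ _)).dq
  have h2 := (hs.prod (Gm k ((j * e : ℕ) : ℤ)) (NA.St.univ _)).dq
  have hpow : ∀ c : kˣ, ∀ p : kˣ, c ^ ((j * e : ℕ) : ℤ) * p ^ e = (c ^ (j : ℤ) * p) ^ e := by
    intro c p
    rw [zpow_natCast, zpow_natCast, mul_pow, pow_mul]
  have hst : ∀ y ∈ s, ∀ c : kˣ, ∀ a b : kˣ, a ^ e = b ^ e →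
      ∃ d : kˣ, A.t d y = y ∧ d ^ (j : ℤ) * a = b := by
    intro y hy c a b hab
    obtain ⟨d, hd1, hd2⟩ := hroot (b * a⁻¹) (by rw [mul_pow, inv_pow, hab, mul_inv_cancel])
    exact ⟨d, (st y hy d).2 hd1, by rw [zpow_natCast, hd2, inv_mul_cancel_right]⟩
  refine clq_map h1 h2 (fun p => (p.1, p.2 ^ e)) (by fun_prop) ?_ ?_ ?_
  · rintro ⟨x, p⟩ ⟨hx, -⟩
    exact ⟨hx, trivial⟩
  · rintro ⟨x, p⟩ ⟨hx, -⟩ ⟨y, q⟩ ⟨hy, -⟩
    dsimp only at hx hy ⊢
    constructor
    · rintro ⟨c, (hc | hc)⟩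
      · refine ⟨c, Or.inl ?_⟩
        have hc' : (A.t c x, c ^ (j : ℤ) * p) = (y, q) := hc
        rw [Prod.mk.injEq] at hc'
        show (A.t c x, c ^ ((j * e : ℕ) : ℤ) * p ^ e) = (y, q ^ e)
        rw [hpow, hc'.1, hc'.2]
      · refine ⟨c, Or.inr ?_⟩
        have hc' : (A.t c (A.w x), c ^ (j : ℤ) * p⁻¹) = (y, q) := hc
        rw [Prod.mk.injEq] at hc'
        show (A.t c (A.w x), c ^ ((j * e : ℕ) : ℤ) * (p ^ e)⁻¹) = (y, q ^ e)
        rw [← inv_pow, hpow, hc'.1, hc'.2]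
    · rintro ⟨c, (hc | hc)⟩
      · have hc' : (A.t c x, c ^ ((j * e : ℕ) : ℤ) * p ^ e) = (y, q ^ e) := hc
        rw [Prod.mk.injEq, hpow] at hc'
        obtain ⟨d, hd1, hd2⟩ := hst y hy c _ _ hc'.2
        refine ⟨d * c, Or.inl ?_⟩
        show (A.t (d * c) x, (d * c) ^ (j : ℤ) * p) = (y, q)
        rw [A.t_mul, hc'.1, hd1, mul_zpow, mul_assoc, hd2]
      · have hc' : (A.t c (A.w x), c ^ ((j * e : ℕ) : ℤ) * (p ^ e)⁻¹) = (y, q ^ e) := hc
        rw [Prod.mk.injEq, ← inv_pow, hpow] at hc'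
        obtain ⟨d, hd1, hd2⟩ := hst y hy c _ _ hc'.2
        refine ⟨d * c, Or.inr ?_⟩
        show (A.t (d * c) (A.w x), (d * c) ^ (j : ℤ) * p⁻¹) = (y, q)
        rw [A.t_mul, hc'.1, hd1, mul_zpow, mul_assoc, hd2]
  · rintro ⟨y, q⟩ ⟨hy, -⟩
    obtain ⟨p, hp⟩ := nae_exists_root q (nae_e_pos hl hj he)
    refine ⟨(y, p), ⟨hy, trivial⟩, 1, Or.inl ?_⟩
    show (A.t 1 y, 1 ^ ((j * e : ℕ) : ℤ) * p ^ e) = (y, q)
    rw [A.t_one, one_zpow, one_mul, hp]

/-- N13: the stabilisers in `N` are all equal to `μ_l`, `l` odd. With `J = lcm(j, l)` (even) one has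
`om_j = om_J`, and `Y × P¹` with `t [u:v] = [t^(J/2) u : t^(-J/2) v]`, `w [u:v] = [v:u]` has class
`(1 + L) n` by Hilbert 90 (`μ_l` acts trivially on this representation of `N`); on the other hand it is
`{0,∞} × Y` (class `t`) plus `Y × G_(J)`. -/
theorem good_odd {A : NA k Y} {s : Set Y} (h : A.St s) (l : ℕ) (hl : Odd l)
    (st : ∀ y ∈ s, ∀ c : kˣ, A.t c y = y ↔ c ^ l = 1)
    (nd : ∀ y ∈ s, ∀ c : kˣ, A.t c (A.w y) ≠ y) : NGood 2 A s where
  st := h
  fin := by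
    intro y hy
    have hl1 : l ≠ 0 := by
      rintro rfl
      simp at hl
    have : NeZero l := ⟨hl1⟩
    have e : {c : kˣ | A.t c y = y} = ((rootsOfUnity l k : Subgroup kˣ) : Set kˣ) := by
      ext c
      rw [Set.mem_ofPred_eq, st y hy c, SetLike.mem_coe, mem_rootsOfUnity]
    rw [e]
    have hf : Finite (rootsOfUnity l k) := inferInstance
    exact hf
  eq := by
    intro j hj h2
    have hl1 : 1 ≤ l := hl.pos
    rw [nae_om_lcm h hl1 hj st]
    have h3 : 2 ∣ Nat.lcm j l := dvd_trans h2 (Nat.dvd_lcm_left j l)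
    obtain ⟨q, hq⟩ := h3
    have h4 : l ∣ q := by
      have h5 : l ∣ 2 * q := by
        rw [← hq]
        exact Nat.dvd_lcm_right j l
      exact (Nat.Coprime.dvd_of_dvd_mul_left (Nat.Coprime.symm (Nat.coprime_two_left.2 hl)) h5)
    rw [hq, ← nae_split h q]
    exact nae_R_class h h4 st nd

/-- The fixed locus of `μ_l`. -/
def TA.fixl (A : TA k Y) (l : ℕ) (s : Set Y) : Set Y := {y ∈ s | ∀ c : kˣ, c ^ l = 1 → A.t c y = y}

/-- The points with stabiliser `μ_l`. -/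
def TA.stl (A : TA k Y) (l : ℕ) (s : Set Y) : Set Y := {y ∈ s | ∀ c : kˣ, A.t c y = y ↔ c ^ l = 1}

theorem NA.St.fixl {A : NA k Y} {s : Set Y} (h : A.St s) (l : ℕ) : A.St (A.fixl l s) where
  ds := by
    have hs := h.ds
    have h1 : DM k (fun x : Y => ∀ c : kˣ, c ^ l = 1 → A.t c x = x) :=
      DM.all (P := fun (x : Y) (c : kˣ) => c ^ l = 1 → A.t c x = x)
        (DM.imp (by fun_prop) (by fun_prop))
    exact (DM.and hs h1).congr_iff (fun x => Iff.rfl)
  t_mem := by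
    rintro c y ⟨hy, hf⟩
    refine ⟨h.t_mem c y hy, fun d hd => ?_⟩
    rw [← A.t_mul, mul_comm, A.t_mul, hf d hd]
  w_mem := by
    rintro y ⟨hy, hf⟩
    refine ⟨h.w_mem y hy, fun d hd => ?_⟩
    rw [A.t_w, hf d⁻¹ (by rw [inv_pow, hd, inv_one])]

theorem NA.St.stl {A : NA k Y} {s : Set Y} (h : A.St s) (l : ℕ) : A.St (A.stl l s) where
  ds := by
    have hs := h.ds
    have h1 : DM k (fun x : Y => ∀ c : kˣ, A.t c x = x ↔ c ^ l = 1) := by fun_prop
    exact (DM.and hs h1).congr_iff (fun x => Iff.rfl)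
  t_mem := by
    rintro c y ⟨hy, hf⟩
    refine ⟨h.t_mem c y hy, fun d => ?_⟩
    rw [← hf d, ← A.t_mul, mul_comm, A.t_mul]
    constructor
    · intro hh
      have := congrArg (A.t c⁻¹) hh
      rwa [A.t_inv, A.t_inv] at this
    · intro hh
      rw [hh]
  w_mem := by
    rintro y ⟨hy, hf⟩
    refine ⟨h.w_mem y hy, fun d => ?_⟩
    rw [A.t_w]
    have h1 : A.t d⁻¹ y = y ↔ d ^ l = 1 := by
      rw [hf d⁻¹, inv_pow, inv_eq_one]
    rw [← h1]
    constructor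
    · intro hh
      have := congrArg A.w hh
      rwa [A.w_w, A.w_w] at this
    · intro hh
      rw [hh]

/-- Uniform bound for the stabilisers. -/
private theorem nae_bound {A : NA k Y} {s : Set Y} (h : A.St s) (fin : A.toTA.Fin s) :
    ∃ M : ℕ, ∀ y ∈ s, {c : kˣ | A.t c y = y}.ncard ≤ M := by
  have hs := h.ds
  have h1 : DM k (fun p : Y × kˣ => p.1 ∈ s ∧ A.t p.2 p.1 = p.1) := by fun_prop
  obtain ⟨M, hM⟩ := bounded_card (α := DT.A k Y) (β := k) (s := {a | ∃ x, DT.R a x ∧ x ∈ s})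
    (R := fun a c => ∃ p : Y × kˣ, (DT.R a p.1 ∧ (p.2 : k) = c) ∧ (p.1 ∈ s ∧ A.t p.2 p.1 = p.1))
    (DM_iff_DS.1 hs) (by
      refine DP.congr (DM_iff_DS.1 h1) ?_
      rintro ⟨a, c⟩
      constructor
      · rintro ⟨⟨x, u⟩, ⟨hx, hu⟩, hxs, hxf⟩
        exact ⟨⟨x, hx, hxs⟩, (x, u), ⟨hx, hu⟩, hxs, hxf⟩
      · rintro ⟨-, ⟨x, u⟩, ⟨hx, hu⟩, hxs, hxf⟩
        exact ⟨(x, u), ⟨hx, hu⟩, hxs, hxf⟩) (by
      rintro a ⟨x, hx, hxs⟩
      refine ((fin x hxs).image (fun u : kˣ => (u : k))).subset ?_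
      rintro c ⟨⟨x', u⟩, ⟨hx', hu⟩, hxs', hxf⟩
      have e1 := DT.fn _ _ _ hx hx'
      dsimp only at e1 hxf hu
      subst e1
      exact ⟨u, hxf, hu⟩)
  refine ⟨M, fun y hy => ?_⟩
  obtain ⟨a, ha⟩ := DT.sur (k := k) y
  have h2 := hM a ⟨y, ha, hy⟩
  refine le_trans (le_of_eq ?_) h2
  have e : {c : k | ∃ p : Y × kˣ, (DT.R a p.1 ∧ (p.2 : k) = c) ∧ (p.1 ∈ s ∧ A.t p.2 p.1 = p.1)} =
      (fun u : kˣ => (u : k)) '' {c : kˣ | A.t c y = y} := by
    ext c
    constructor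
    · rintro ⟨⟨x', u⟩, ⟨hx', hu⟩, hxs', hxf⟩
      have e1 := DT.fn _ _ _ ha hx'
      dsimp only at e1 hxf hu
      subst e1
      exact ⟨u, hxf, hu⟩
    · rintro ⟨u, hu, rfl⟩
      exact ⟨(y, u), ⟨ha, rfl⟩, hy, hu⟩
  rw [e, Set.ncard_image_of_injective _ (fun u v huv => Units.ext huv)]

/-- A finite stabiliser in `T` is a group of roots of unity. -/
private theorem nae_mu {A : TA k Y} {y : Y} (fin : {c : kˣ | A.t c y = y}.Finite) (c : kˣ) :
    A.t c y = y ↔ c ^ ({c : kˣ | A.t c y = y}.ncard) = 1 := by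
  classical
  let H : Subgroup kˣ :=
    { carrier := {c : kˣ | A.t c y = y}
      mul_mem' := by
        intro a b ha hb
        show A.t (a * b) y = y
        have ha' : A.t a y = y := ha
        have hb' : A.t b y = y := hb
        rw [A.t_mul, hb', ha']
      one_mem' := A.t_one y
      inv_mem' := by
        intro a ha
        show A.t a⁻¹ y = y
        have ha' : A.t a y = y := ha
        have := A.t_inv a y
        rwa [ha'] at this }
  have hfin : Finite H := fin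
  set n := {c : kˣ | A.t c y = y}.ncard with hn
  have hcard : Nat.card H = n := rfl
  have hn0 : n ≠ 0 := by
    rw [← hcard]
    exact Nat.card_pos.ne'
  have : NeZero n := ⟨hn0⟩
  have hle : H ≤ rootsOfUnity n k := by
    intro a ha
    rw [mem_rootsOfUnity]
    have h1 := pow_card_eq_one' (x := (⟨a, ha⟩ : H))
    rw [hcard] at h1
    exact congrArg Subtype.val h1
  have hc2 : Nat.card (rootsOfUnity n k) ≤ n := card_rootsOfUnity k n
  have heq : H = rootsOfUnity n k := by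
    apply Subgroup.eq_of_le_of_card_ge hle
    rw [hcard]
    exact hc2
  have hmem : c ∈ H ↔ c ∈ rootsOfUnity n k := by rw [heq]
  rw [mem_rootsOfUnity] at hmem
  exact hmem

/-- The stabilisers in `T` are the groups `μ_l`, with `l` bounded. -/
theorem stl_cover {A : NA k Y} {s : Set Y} (h : A.St s) (fin : A.toTA.Fin s) :
    ∃ M : ℕ, ∀ y ∈ s, ∃ l, 1 ≤ l ∧ l ≤ M ∧ y ∈ A.stl l s := by
  obtain ⟨M, hM⟩ := nae_bound h fin
  refine ⟨M, fun y hy => ⟨_, ?_, hM y hy, hy, fun c => nae_mu (fin y hy) c⟩⟩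
  rw [Nat.one_le_iff_ne_zero]
  intro h0
  rw [Set.ncard_eq_zero (fin y hy)] at h0
  have : (1 : kˣ) ∈ ({c : kˣ | A.t c y = y} : Set kˣ) := A.t_one y
  rw [h0] at this
  exact this

/-- Roots of unity: `μ_l ⊆ μ_l'` means `l ∣ l'`. -/
private theorem nae_dvd (k : Type) [Field k] [IsAlgClosed k] [CharZero k] {l l' : ℕ} (hl : 1 ≤ l)
    (h : ∀ c : kˣ, c ^ l = 1 → c ^ l' = 1) : l ∣ l' := by
  have hl0 : l ≠ 0 := by omega
  have : NeZero (l : k) := ⟨by exact_mod_cast hl0⟩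
  obtain ⟨ζ, hζ⟩ := HasEnoughRootsOfUnity.exists_primitiveRoot k l
  have hz : ζ ≠ 0 := hζ.ne_zero hl0
  have h1 := h (Units.mk0 ζ hz) (Units.ext (by simpa using hζ.pow_eq_one))
  exact hζ.dvd_of_pow_eq_one l' (by simpa using congrArg Units.val h1)

private theorem nae_eq {A : NA k Y} {s : Set Y} {l l' : ℕ} (hl : 1 ≤ l) (hl' : 1 ≤ l') {y : Y}
    (h : y ∈ A.stl l s) (h' : y ∈ A.stl l' s) : l = l' :=
  Nat.dvd_antisymm (nae_dvd k hl fun c hc => (h'.2 c).1 ((h.2 c).2 hc))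
    (nae_dvd k hl' fun c hc => (h.2 c).1 ((h'.2 c).2 hc))

private theorem nae_union {m : ℕ} {A : NA k Y} {s : Set Y} (I : Finset ℕ) (hI : ∀ l ∈ I, 1 ≤ l)
    (hg : ∀ l ∈ I, NGood m A (A.stl l s)) : NGood m A (⋃ l ∈ I, A.stl l s) := by
  classical
  induction I using Finset.induction_on with
  | empty => simpa using NGood.empty m A
  | insert a I ha ih =>
    rw [Finset.set_biUnion_insert]
    refine NGood.union (hg a (Finset.mem_insert_self a I))
      (ih (fun l hl => hI l (Finset.mem_insert_of_mem hl))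
        (fun l hl => hg l (Finset.mem_insert_of_mem hl))) ?_
    rw [Set.disjoint_left]
    intro y hy hy'
    simp only [Set.mem_iUnion] at hy'
    obtain ⟨l, hl, hyl⟩ := hy'
    have := nae_eq (hI a (Finset.mem_insert_self a I)) (hI l (Finset.mem_insert_of_mem hl)) hy hyl
    subst this
    exact ha hl

/-- If all fixed loci of `μ_l`, `l ≥ 2`, are good, then so are all strata. -/
theorem stl_good {m : ℕ} {A : NA k Y} {s : Set Y} (h : A.St s) (fin : A.toTA.Fin s)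
    (hf : ∀ l, 2 ≤ l → NGood m A (A.fixl l s)) : ∀ l, 2 ≤ l → NGood m A (A.stl l s) := by
  classical
  obtain ⟨M, hM⟩ := stl_cover h fin
  have key : ∀ d l : ℕ, M < l + d → 2 ≤ l → NGood m A (A.stl l s) := by
    intro d
    induction d with
    | zero =>
      intro l hl h2
      have e : A.stl l s = ∅ := by
        rw [Set.eq_empty_iff_forall_notMem]
        intro y hy
        obtain ⟨l', h1, h2', h3⟩ := hM y hy.1
        have := nae_eq (by omega) h1 hy h3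
        omega
      rw [e]
      exact NGood.empty m A
    | succ d ih =>
      intro l hl h2
      let I := (Finset.Ioc l M).filter (fun l' => l ∣ l')
      have hI : ∀ l' ∈ I, l < l' ∧ l' ≤ M ∧ l ∣ l' := by
        intro l' hl'
        rw [Finset.mem_filter, Finset.mem_Ioc] at hl'
        exact ⟨hl'.1.1, hl'.1.2, hl'.2⟩
      have hU := nae_union (m := m) (A := A) (s := s) I (fun l' hl' => by have := hI l' hl'; omega)
        (fun l' hl' => ih l' (by have := hI l' hl'; omega) (by have := hI l' hl'; omega))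
      have e : A.stl l s = A.fixl l s \ ⋃ l' ∈ I, A.stl l' s := by
        ext y
        constructor
        · intro hy
          refine ⟨⟨hy.1, fun c hc => (hy.2 c).2 hc⟩, ?_⟩
          simp only [Set.mem_iUnion, not_exists]
          intro l' hl' hy'
          have := nae_eq (by omega) (by have := hI l' hl'; omega) hy hy'
          have := hI l' hl'
          omega
        · rintro ⟨⟨hy, hyf⟩, hy2⟩
          obtain ⟨l', h1, h3, h4⟩ := hM y hy
          have hd : l ∣ l' := nae_dvd k (by omega) fun c hc => (h4.2 c).1 (hyf c hc)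
          have hle := Nat.le_of_dvd (by omega) hd
          rcases Nat.lt_or_ge l l' with hlt | hge
          · exfalso
            apply hy2
            simp only [Set.mem_iUnion]
            exact ⟨l', Finset.mem_filter.2 ⟨Finset.mem_Ioc.2 ⟨hlt, h3⟩, hd⟩, h4⟩
          · have : l = l' := le_antisymm hle hge
            rw [this]
            exact h4
      rw [e]
      refine NGood.diff (hf l h2) hU ?_
      intro y hy
      simp only [Set.mem_iUnion] at hy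
      obtain ⟨l', hl', hyl⟩ := hy
      refine ⟨hyl.1, fun c hc => (hyl.2 c).2 ?_⟩
      obtain ⟨q, hq⟩ := (hI l' hl').2.2
      rw [hq, pow_mul, hc, one_pow]
  intro l h2
  exact key (M + 1) l (by omega) h2

/-- If a space is the union of its strata with `l ≥ 2` and these are good, it is good. -/
theorem good_of_stl {m : ℕ} {A : NA k Y} {s : Set Y} (h : A.St s) (fin : A.toTA.Fin s)
    (h1 : A.stl 1 s = ∅) (hf : ∀ l, 2 ≤ l → NGood m A (A.stl l s)) : NGood m A s := by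
  obtain ⟨M, hM⟩ := stl_cover h fin
  have hU := nae_union (m := m) (A := A) (s := s) (Finset.Icc 2 M)
    (fun l' hl' => by rw [Finset.mem_Icc] at hl'; omega)
    (fun l' hl' => hf l' (by rw [Finset.mem_Icc] at hl'; omega))
  have e : s = ⋃ l' ∈ Finset.Icc 2 M, A.stl l' s := by
    ext y
    constructor
    · intro hy
      obtain ⟨l', h2, h3, h4⟩ := hM y hy
      simp only [Set.mem_iUnion]
      refine ⟨l', ?_, h4⟩
      rw [Finset.mem_Icc]
      refine ⟨?_, h3⟩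
      by_contra hlt
      have : l' = 1 := by omega
      subst this
      rw [h1] at h4
      exact h4
    · intro hy
      simp only [Set.mem_iUnion] at hy
      obtain ⟨l', hl', hyl⟩ := hy
      exact hyl.1
  rw [e]
  exact hU

end Pool.Agent.MRat
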