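import Pool.Agent.Lib.MP_923aff_ag.NA3
import Pool.Agent.Lib.MP_923aff_ag.NA4
/-!
# JOB NAF: projective bundles (N14)
-/

set_option autoImplicit false

namespace Pool.Agent.MRat

open scoped MatrixGroups LinearAlgebra.Projectivization

variable {k : Type} [Field k] [IsAlgClosed k] [CharZero k]
variable {X Y Z : Type} [DT k X] [DT k Y] [DT k Z]

/-! ### The linear maps `tv` and `wv` -/

section lin

omit [IsAlgClosed k] [CharZero k]

private theorem NAF_tv_one (B : Blk k) (v : B.W) : B.tv 1 v = v := by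
  refine Prod.ext (funext fun i => Prod.ext ?_ ?_) (funext fun j => ?_) <;> simp [Blk.tv]

private theorem NAF_tv_mul (B : Blk k) (x y : kˣ) (v : B.W) :
    B.tv (x * y) v = B.tv x (B.tv y v) := by
  refine Prod.ext (funext fun i => Prod.ext ?_ ?_) (funext fun j => ?_) <;>
    simp [Blk.tv, mul_zpow, mul_assoc]

private theorem NAF_tv_smul (B : Blk k) (τ : kˣ) (c : k) (v : B.W) :
    B.tv τ (c • v) = c • B.tv τ v := by
  refine Prod.ext (funext fun i => Prod.ext ?_ ?_) (funext fun j => ?_) <;>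
    simp [Blk.tv, mul_left_comm]

private theorem NAF_wv_smul (B : Blk k) (c : k) (v : B.W) : B.wv (c • v) = c • B.wv v := by
  refine Prod.ext (funext fun i => Prod.ext ?_ ?_) (funext fun j => ?_) <;>
    simp [Blk.wv, mul_left_comm]

private theorem NAF_wv_wv (B : Blk k) (v : B.W) : B.wv (B.wv v) = v := by
  refine Prod.ext (funext fun i => Prod.ext ?_ ?_) (funext fun j => ?_)
  · simp [Blk.wv]
  · simp [Blk.wv]
  · have h := congrArg Units.val (B.hε j)
    simp only [Units.val_mul, Units.val_one] at h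
    simp only [Blk.wv]
    rw [← mul_assoc, h, one_mul]

private theorem NAF_wv_tv (B : Blk k) (τ : kˣ) (v : B.W) :
    B.wv (B.tv τ v) = ((τ ^ B.e : kˣ) : k) • B.tv τ⁻¹ (B.wv v) := by
  refine Prod.ext (funext fun i => Prod.ext ?_ ?_) (funext fun j => ?_)
  · show ((τ ^ B.b i : kˣ) : k) * (v.1 i).2 =
      ((τ ^ B.e : kˣ) : k) * (((τ⁻¹ ^ B.a i : kˣ) : k) * (v.1 i).2)
    rw [← mul_assoc, ← Units.val_mul, inv_zpow', ← zpow_add, ← B.hab i]
    congr 4
    ring
  · show ((τ ^ B.a i : kˣ) : k) * (v.1 i).1 =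
      ((τ ^ B.e : kˣ) : k) * (((τ⁻¹ ^ B.b i : kˣ) : k) * (v.1 i).1)
    rw [← mul_assoc, ← Units.val_mul, inv_zpow', ← zpow_add, ← B.hab i]
    congr 4
    ring
  · show (B.ε j : k) * (((τ ^ B.h j : kˣ) : k) * v.2 j) =
      ((τ ^ B.e : kˣ) : k) * (((τ⁻¹ ^ B.h j : kˣ) : k) * ((B.ε j : k) * v.2 j))
    have h1 : ((τ ^ B.h j : kˣ) : k) = ((τ ^ B.e : kˣ) : k) * ((τ⁻¹ ^ B.h j : kˣ) : k) := by
      rw [← Units.val_mul, inv_zpow', ← zpow_add, ← B.hh j]
      congr 2
      ring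
    rw [h1]
    ring

end lin

theorem Blk.tv_ne (B : Blk k) (τ : kˣ) {v : B.W} (hv : v ≠ 0) : B.tv τ v ≠ 0 := by
  intro h
  apply hv
  have h1 : B.tv τ⁻¹ (B.tv τ v) = v := by rw [← NAF_tv_mul]; simp [NAF_tv_one]
  rw [← h1, h]
  have h2 := NAF_tv_smul B τ⁻¹ 0 (0 : B.W)
  simpa using h2

theorem Blk.wv_ne (B : Blk k) {v : B.W} (hv : v ≠ 0) : B.wv v ≠ 0 := by
  intro h
  apply hv
  rw [← NAF_wv_wv B v, h]
  have h2 := NAF_wv_smul B 0 (0 : B.W)
  simpa using h2

private theorem NAF_mk_eq {V : Type} [AddCommGroup V] [Module k V] {v w : V} (hv : v ≠ 0)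
    (hw : w ≠ 0) (c : k) (hc : c ≠ 0) (h : c • w = v) :
    Projectivization.mk k v hv = Projectivization.mk k w hw := by
  rw [Projectivization.mk_eq_mk_iff]
  exact ⟨Units.mk0 c hc, h⟩

private theorem NAF_mk_tv (B : Blk k) (τ : kˣ) {v : B.W} (hv : v ≠ 0) :
    Projectivization.mk k (B.tv τ (Projectivization.mk k v hv).rep)
      (B.tv_ne τ (Projectivization.mk k v hv).rep_nonzero) =
    Projectivization.mk k (B.tv τ v) (B.tv_ne τ hv) := by
  obtain ⟨c, hc⟩ := Projectivization.exists_smul_eq_mk_rep k v hv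
  refine NAF_mk_eq _ _ (c : k) c.ne_zero ?_
  rw [← hc, Units.smul_def, NAF_tv_smul]

private theorem NAF_mk_wv (B : Blk k) {v : B.W} (hv : v ≠ 0) :
    Projectivization.mk k (B.wv (Projectivization.mk k v hv).rep)
      (B.wv_ne (Projectivization.mk k v hv).rep_nonzero) =
    Projectivization.mk k (B.wv v) (B.wv_ne hv) := by
  obtain ⟨c, hc⟩ := Projectivization.exists_smul_eq_mk_rep k v hv
  refine NAF_mk_eq _ _ (c : k) c.ne_zero ?_
  rw [← hc, Units.smul_def, NAF_wv_smul]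

@[fun_prop]
private theorem NAF_dtv (B : Blk k) {f : X → kˣ} {g : X → B.W} (hf : DM k f) (hg : DM k g) :
    DM k (fun x => B.tv (f x) (g x)) := by
  unfold Blk.tv
  refine DM.mk (DM.pi fun i => ?_) (DM.pi fun j => ?_)
  · have h1 : DM k (fun x => (g x).1 i) := DM.comp (DM.apply i) (DM.fst hg)
    fun_prop
  · have h1 : DM k (fun x => (g x).2 j) := DM.comp (DM.apply j) (DM.snd hg)
    fun_prop

@[fun_prop]
private theorem NAF_dwv (B : Blk k) {g : X → B.W} (hg : DM k g) :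
    DM k (fun x => B.wv (g x)) := by
  unfold Blk.wv
  refine DM.mk (DM.pi fun i => ?_) (DM.pi fun j => ?_)
  · have h1 : DM k (fun x => (g x).1 i) := DM.comp (DM.apply i) (DM.fst hg)
    fun_prop
  · have h1 : DM k (fun x => (g x).2 j) := DM.comp (DM.apply j) (DM.snd hg)
    fun_prop

/-- The `N`-space `P(W)`. -/
noncomputable def PW (B : Blk k) : NA k (ℙ k B.W) where
  t τ p := Projectivization.mk k (B.tv τ p.rep) (B.tv_ne τ p.rep_nonzero)
  t_one p := by
    simp only [NAF_tv_one]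
    exact p.mk_rep
  t_mul x y p := by
    simp only [NAF_tv_mul]
    exact (NAF_mk_tv B x (B.tv_ne y p.rep_nonzero)).symm
  dt := by
    refine DM.of_graph (R := fun (p : kˣ × ℙ k B.W) q => ∃ v : B.W, MRat.isrep v p.2 ∧
      MRat.isrep (B.tv p.1 v) q) ?_ ?_
    · exact DM.ex (DM.and (DM.isrep (by fun_prop) (by fun_prop))
        (DM.isrep (by fun_prop) (by fun_prop)))
    · rintro ⟨τ, p⟩ q
      constructor
      · rintro ⟨v, ⟨hv, hp⟩, ⟨hw, hq⟩⟩
        dsimp only at hp hq ⊢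
        subst hp
        rw [← hq]
        exact (NAF_mk_tv B τ hv).symm
      · rintro rfl
        exact ⟨p.rep, ⟨p.rep_nonzero, p.mk_rep⟩, ⟨B.tv_ne τ p.rep_nonzero, rfl⟩⟩
  w p := Projectivization.mk k (B.wv p.rep) (B.wv_ne p.rep_nonzero)
  w_w p := by
    refine (NAF_mk_wv B (B.wv_ne p.rep_nonzero)).trans ?_
    simp only [NAF_wv_wv]
    exact p.mk_rep
  w_t τ p := by
    refine (NAF_mk_wv B (B.tv_ne τ p.rep_nonzero)).trans ?_
    refine Eq.trans ?_ (NAF_mk_tv B τ⁻¹ (B.wv_ne p.rep_nonzero)).symm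
    exact NAF_mk_eq _ _ _ (τ ^ B.e).ne_zero (NAF_wv_tv B τ p.rep).symm
  dw := by
    refine DM.of_graph (R := fun (p : ℙ k B.W) q => ∃ v : B.W, MRat.isrep v p ∧
      MRat.isrep (B.wv v) q) ?_ ?_
    · exact DM.ex (DM.and (DM.isrep (by fun_prop) (by fun_prop))
        (DM.isrep (by fun_prop) (by fun_prop)))
    · intro p q
      constructor
      · rintro ⟨v, ⟨hv, hp⟩, ⟨hw, hq⟩⟩
        subst hp
        rw [← hq]
        exact (NAF_mk_wv B hv).symm
      · rintro rfl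
        exact ⟨p.rep, ⟨p.rep_nonzero, p.mk_rep⟩, ⟨B.wv_ne p.rep_nonzero, rfl⟩⟩

theorem PW_t_mk (B : Blk k) (τ : kˣ) {v : B.W} (hv : v ≠ 0) :
    (PW B).t τ (Projectivization.mk k v hv) = Projectivization.mk k (B.tv τ v) (B.tv_ne τ hv) :=
  NAF_mk_tv B τ hv

theorem PW_w_mk (B : Blk k) {v : B.W} (hv : v ≠ 0) :
    (PW B).w (Projectivization.mk k v hv) = Projectivization.mk k (B.wv v) (B.wv_ne hv) :=
  NAF_mk_wv B hv

/-! ### Locally closed subsets of `P(W)` -/

section loc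
variable {V : Type} [AddCommGroup V] [Module k V] [DT k V] [DMod k V]

/-- The subset of the projective space defined by the homogeneous condition `Q`. -/
private def NAF_loc (Q : V → Prop) : Set (ℙ k V) := {p | ∃ v, isrep v p ∧ Q v}

omit [IsAlgClosed k] [CharZero k] [DT k V] [DMod k V] in
private theorem NAF_mem_loc {Q : V → Prop} (hQ : ∀ (c : kˣ) v, Q v → Q (c • v)) {v : V}
    (hv : v ≠ 0) : Projectivization.mk k v hv ∈ NAF_loc (k := k) Q ↔ Q v := by
  constructor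
  · rintro ⟨w, ⟨hw, h⟩, hq⟩
    rw [Projectivization.mk_eq_mk_iff] at h
    obtain ⟨c, hc⟩ := h
    have h2 := hQ c⁻¹ w hq
    rw [← hc, inv_smul_smul] at h2
    exact h2
  · intro h
    exact ⟨v, ⟨hv, rfl⟩, h⟩

private theorem NAF_loc_dm {Q : V → Prop} (dQ : DM k (fun v : V => Q v)) :
    DM k (fun p : ℙ k V => p ∈ NAF_loc (k := k) Q) := by
  have h1 : DM k (fun q : ℙ k V × V => Q q.2) := DM.comp dQ (by fun_prop)
  exact DM.ex (P := fun (p : ℙ k V) (v : V) => isrep v p ∧ Q v)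
    (DM.and (DM.isrep (by fun_prop) (by fun_prop)) h1)

end loc

private theorem NAF_loc_St (B : Blk k) {Q : B.W → Prop} (hQ : ∀ (c : kˣ) v, Q v → Q (c • v))
    (dQ : DM k (fun v : B.W => Q v)) (hT : ∀ τ v, Q v → Q (B.tv τ v)) :
    (PW B).toTA.St (NAF_loc (k := k) Q) where
  ds := NAF_loc_dm dQ
  t_mem c p hp := by
    induction p using Projectivization.ind with
    | h v hv =>
      rw [PW_t_mk, NAF_mem_loc hQ]
      rw [NAF_mem_loc hQ] at hp
      exact hT c v hp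

private theorem NAF_loc_NSt (B : Blk k) {Q : B.W → Prop} (hQ : ∀ (c : kˣ) v, Q v → Q (c • v))
    (dQ : DM k (fun v : B.W => Q v)) (hT : ∀ τ v, Q v → Q (B.tv τ v))
    (hw : ∀ v, Q v → Q (B.wv v)) : (PW B).St (NAF_loc (k := k) Q) where
  toSt := NAF_loc_St B hQ dQ hT
  w_mem p hp := by
    induction p using Projectivization.ind with
    | h v hv =>
      rw [PW_w_mk, NAF_mem_loc hQ]
      rw [NAF_mem_loc hQ] at hp
      exact hw v hp

private theorem NAF_fin_prod {A : TA k Y} {s : Set Y} (h : A.Fin s) (B : TA k Z) (s' : Set Z) :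
    (A.prod B).Fin (s ×ˢ s') := by
  rintro ⟨y, z⟩ ⟨hy, -⟩
  refine (h y hy).subset ?_
  intro c hc
  exact congrArg Prod.fst hc

/-! ### Building blocks -/

/-- Add a pair of coordinates. -/
@[reducible] private def NAF_bp (B : Blk k) (a b : ℤ) (hab : a + b = B.e) : Blk k where
  p := B.p + 1
  q := B.q
  e := B.e
  a := Fin.cons a B.a
  b := Fin.cons b B.b
  hab := by
    intro i
    refine Fin.cases ?_ (fun i => ?_) i
    · exact hab
    · exact B.hab i
  h := B.h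
  hh := B.hh
  ε := B.ε
  hε := B.hε

/-- Add a single coordinate. -/
@[reducible] private def NAF_bs (B : Blk k) (h : ℤ) (hh : 2 * h = B.e) (ε : kˣ) (hε : ε * ε = 1) :
    Blk k where
  p := B.p
  q := B.q + 1
  e := B.e
  a := B.a
  b := B.b
  hab := B.hab
  h := Fin.cons h B.h
  hh := by
    intro i
    refine Fin.cases ?_ (fun i => ?_) i
    · exact hh
    · exact B.hh i
  ε := Fin.cons ε B.ε
  hε := by
    intro i
    refine Fin.cases ?_ (fun i => ?_) i
    · exact hε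
    · exact B.hε i

/-- Twist all weights. -/
@[reducible] private def NAF_sh (B : Blk k) (d : ℤ) : Blk k where
  p := B.p
  q := B.q
  e := B.e - 2 * d
  a i := B.a i - d
  b i := B.b i - d
  hab i := by rw [← B.hab i]; ring
  h j := B.h j - d
  hh j := by rw [← B.hh j]; ring
  ε := B.ε
  hε := B.hε

omit [IsAlgClosed k] [CharZero k] in
private theorem NAF_ind {M : Blk k → Prop} (nil : ∀ B : Blk k, B.p = 0 → B.q = 0 → M B)
    (pr : ∀ (B : Blk k) (a b : ℤ) (hab : a + b = B.e), M B → M (NAF_bp B a b hab))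
    (sg : ∀ (B : Blk k) (h : ℤ) (hh : 2 * h = B.e) (ε : kˣ) (hε : ε * ε = 1), M B →
      M (NAF_bs B h hh ε hε)) (B : Blk k) : M B := by
  obtain ⟨p, q, e, a, b, hab, h, hh, ε, hε⟩ := B
  induction p with
  | zero =>
    induction q with
    | zero => exact nil _ rfl rfl
    | succ q ih =>
      have h1 := sg ⟨0, q, e, a, b, hab, fun j => h j.succ, fun j => hh j.succ,
        fun j => ε j.succ, fun j => hε j.succ⟩ (h 0) (hh 0) (ε 0) (hε 0) (ih _ _ _ _)
      have h2 : (Fin.cons (h 0) (fun j => h j.succ) : Fin (q + 1) → ℤ) = h :=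
        Fin.cons_self_tail h
      have h3 : (Fin.cons (ε 0) (fun j => ε j.succ) : Fin (q + 1) → kˣ) = ε :=
        Fin.cons_self_tail ε
      unfold NAF_bs at h1
      simp only [h2, h3] at h1
      exact h1
  | succ p ih =>
    have h1 := pr ⟨p, q, e, fun j => a j.succ, fun j => b j.succ, fun j => hab j.succ, h, hh,
      ε, hε⟩ (a 0) (b 0) (hab 0) (ih _ _ _)
    have h2 : (Fin.cons (a 0) (fun j => a j.succ) : Fin (p + 1) → ℤ) = a :=
      Fin.cons_self_tail a
    have h3 : (Fin.cons (b 0) (fun j => b j.succ) : Fin (p + 1) → ℤ) = b :=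
      Fin.cons_self_tail b
    unfold NAF_bp at h1
    simp only [h2, h3] at h1
    exact h1

/-- The vector with first pair `x` and remaining coordinates `r`. -/
private def NAF_cp (B : Blk k) (a b : ℤ) (hab : a + b = B.e) (x : k × k) (r : B.W) :
    (NAF_bp B a b hab).W :=
  (Fin.cons (α := fun _ => k × k) x r.1, r.2)

/-- The vector with first single coordinate `z` and remaining coordinates `r`. -/
private def NAF_cs (B : Blk k) (h : ℤ) (hh : 2 * h = B.e) (ε : kˣ) (hε : ε * ε = 1) (z : k)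
    (r : B.W) : (NAF_bs B h hh ε hε).W :=
  (r.1, Fin.cons (α := fun _ => k) z r.2)

section cons

variable (B : Blk k) (a b : ℤ) (hab : a + b = B.e)
variable (h : ℤ) (hh : 2 * h = B.e) (ε : kˣ) (hε : ε * ε = 1)

omit [IsAlgClosed k] [CharZero k] in
private theorem NAF_cp_surj (v : (NAF_bp B a b hab).W) : ∃ x r, NAF_cp B a b hab x r = v := by
  refine ⟨v.1 0, (fun i => v.1 i.succ, v.2), ?_⟩
  refine Prod.ext ?_ rfl
  exact Fin.cons_self_tail v.1

omit [IsAlgClosed k] [CharZero k] in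
private theorem NAF_cs_surj (v : (NAF_bs B h hh ε hε).W) :
    ∃ z r, NAF_cs B h hh ε hε z r = v := by
  refine ⟨v.2 0, (v.1, fun i => v.2 i.succ), ?_⟩
  refine Prod.ext rfl ?_
  exact Fin.cons_self_tail v.2

omit [IsAlgClosed k] [CharZero k] in
private theorem NAF_cp_inj {x x' : k × k} {r r' : B.W}
    (h : NAF_cp B a b hab x r = NAF_cp B a b hab x' r') : x = x' ∧ r = r' := by
  have h1 := congrArg Prod.fst h
  have h2 := congrArg Prod.snd h
  exact ⟨congrFun h1 0, Prod.ext (funext fun i => congrFun h1 i.succ) h2⟩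

omit [IsAlgClosed k] [CharZero k] in
private theorem NAF_cs_inj {z z' : k} {r r' : B.W}
    (h' : NAF_cs B h hh ε hε z r = NAF_cs B h hh ε hε z' r') : z = z' ∧ r = r' := by
  have h1 := congrArg Prod.fst h'
  have h2 := congrArg Prod.snd h'
  exact ⟨congrFun h2 0, Prod.ext h1 (funext fun i => congrFun h2 i.succ)⟩

omit [IsAlgClosed k] [CharZero k] in
private theorem NAF_cp_smul (c : k) (x : k × k) (r : B.W) :
    c • NAF_cp B a b hab x r = NAF_cp B a b hab (c • x) (c • r) := by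
  refine Prod.ext (funext fun i => ?_) rfl
  refine Fin.cases ?_ (fun i => ?_) i <;> rfl

omit [IsAlgClosed k] [CharZero k] in
private theorem NAF_cs_smul (c : k) (z : k) (r : B.W) :
    c • NAF_cs B h hh ε hε z r = NAF_cs B h hh ε hε (c • z) (c • r) := by
  refine Prod.ext rfl (funext fun i => ?_)
  refine Fin.cases ?_ (fun i => ?_) i <;> rfl

omit [IsAlgClosed k] [CharZero k] in
private theorem NAF_cp_tv (τ : kˣ) (x : k × k) (r : B.W) :
    (NAF_bp B a b hab).tv τ (NAF_cp B a b hab x r) =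
      NAF_cp B a b hab (((τ ^ a : kˣ) : k) * x.1, ((τ ^ b : kˣ) : k) * x.2) (B.tv τ r) := by
  refine Prod.ext (funext fun i => ?_) rfl
  refine Fin.cases ?_ (fun i => ?_) i <;> rfl

omit [IsAlgClosed k] [CharZero k] in
private theorem NAF_cs_tv (τ : kˣ) (z : k) (r : B.W) :
    (NAF_bs B h hh ε hε).tv τ (NAF_cs B h hh ε hε z r) =
      NAF_cs B h hh ε hε (((τ ^ h : kˣ) : k) * z) (B.tv τ r) := by
  refine Prod.ext rfl (funext fun i => ?_)
  refine Fin.cases ?_ (fun i => ?_) i <;> rfl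

omit [IsAlgClosed k] [CharZero k] in
private theorem NAF_cp_wv (x : k × k) (r : B.W) :
    (NAF_bp B a b hab).wv (NAF_cp B a b hab x r) = NAF_cp B a b hab (x.2, x.1) (B.wv r) := by
  refine Prod.ext (funext fun i => ?_) rfl
  refine Fin.cases ?_ (fun i => ?_) i <;> rfl

omit [IsAlgClosed k] [CharZero k] in
private theorem NAF_cs_wv (z : k) (r : B.W) :
    (NAF_bs B h hh ε hε).wv (NAF_cs B h hh ε hε z r) =
      NAF_cs B h hh ε hε ((ε : k) * z) (B.wv r) := by
  refine Prod.ext rfl (funext fun i => ?_)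
  refine Fin.cases ?_ (fun i => ?_) i <;> rfl

omit [IsAlgClosed k] [CharZero k] in
private theorem NAF_sh_tv (d : ℤ) (τ : kˣ) (r : B.W) :
    ((τ ^ d : kˣ) : k) • (NAF_sh B d).tv τ r = B.tv τ r := by
  have key : ∀ n : ℤ, ∀ z : k, ((τ ^ d : kˣ) : k) * (((τ ^ (n - d) : kˣ) : k) * z) =
      ((τ ^ n : kˣ) : k) * z := by
    intro n z
    rw [← mul_assoc, ← Units.val_mul, ← zpow_add]
    congr 3
    ring
  refine Prod.ext (funext fun i => Prod.ext ?_ ?_) (funext fun j => ?_)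
  · exact key _ _
  · exact key _ _
  · exact key _ _

omit [IsAlgClosed k] [CharZero k] in
private theorem NAF_cp_ne1 {x : k × k} (hx : x ≠ 0) (r : B.W) : NAF_cp B a b hab x r ≠ 0 := by
  intro h
  have h1 := congrFun (congrArg Prod.fst h) 0
  exact hx h1

omit [IsAlgClosed k] [CharZero k] in
private theorem NAF_cs_ne1 {z : k} (hz : z ≠ 0) (r : B.W) : NAF_cs B h hh ε hε z r ≠ 0 := by
  intro h
  have h1 := congrFun (congrArg Prod.snd h) 0
  exact hz h1

omit [IsAlgClosed k] [CharZero k] in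
private theorem NAF_cp_ne2 (x : k × k) {r : B.W} (hr : r ≠ 0) : NAF_cp B a b hab x r ≠ 0 := by
  intro h
  apply hr
  have h1 := congrArg Prod.fst h
  have h2 := congrArg Prod.snd h
  exact Prod.ext (funext fun i => congrFun h1 i.succ) h2

omit [IsAlgClosed k] [CharZero k] in
private theorem NAF_cs_ne2 (z : k) {r : B.W} (hr : r ≠ 0) : NAF_cs B h hh ε hε z r ≠ 0 := by
  intro h'
  apply hr
  have h1 := congrArg Prod.fst h'
  have h2 := congrArg Prod.snd h'
  exact Prod.ext h1 (funext fun i => congrFun h2 i.succ)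

@[fun_prop]
private theorem NAF_cp_dm {f : X → k × k} {g : X → B.W} (hf : DM k f) (hg : DM k g) :
    DM k (fun x => NAF_cp B a b hab (f x) (g x)) := by
  unfold NAF_cp
  refine DM.mk (DM.pi fun i => ?_) (by fun_prop)
  refine Fin.cases ?_ (fun i => ?_) i
  · simpa using hf
  · have h1 : DM k (fun x => (g x).1 i) := DM.comp (DM.apply i) (DM.fst hg)
    simpa using h1

@[fun_prop]
private theorem NAF_cs_dm {f : X → k} {g : X → B.W} (hf : DM k f) (hg : DM k g) :
    DM k (fun x => NAF_cs B h hh ε hε (f x) (g x)) := by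
  unfold NAF_cs
  refine DM.mk (by fun_prop) (DM.pi fun i => ?_)
  refine Fin.cases ?_ (fun i => ?_) i
  · simpa using hf
  · have h1 : DM k (fun x => (g x).2 i) := DM.comp (DM.apply i) (DM.snd hg)
    simpa using h1

end cons

/-! ### `T`-vector bundles -/

/-- `W` as a `T`-space. -/
private def NAF_TW (B : Blk k) : TA k B.W where
  t := B.tv
  t_one := NAF_tv_one B
  t_mul := NAF_tv_mul B
  dt := by fun_prop

omit [IsAlgClosed k] [CharZero k] in
private theorem NAF_dim_bp (B : Blk k) (a b : ℤ) (hab : a + b = B.e) :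
    (NAF_bp B a b hab).dim = B.dim + 2 := by
  show 2 * (B.p + 1) + B.q = 2 * B.p + B.q + 2
  ring

omit [IsAlgClosed k] [CharZero k] in
private theorem NAF_dim_bs (B : Blk k) (h : ℤ) (hh : 2 * h = B.e) (ε : kˣ) (hε : ε * ε = 1) :
    (NAF_bs B h hh ε hε).dim = B.dim + 1 := by
  show 2 * B.p + (B.q + 1) = 2 * B.p + B.q + 1
  ring

private theorem NAF_Lsq (n : ℕ) (x : MK k) : (L ^ (n + 2)) • x = L • L • (L ^ n) • x := by
  rw [smul_smul, smul_smul]
  congr 1
  ring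

private theorem NAF_tcl_W {A : TA k Y} {s : Set Y} (h : A.St s) (fin : A.Fin s) (B : Blk k) :
    tcl (A.prod (NAF_TW B)) (s ×ˢ (Set.univ : Set B.W)) = (L ^ B.dim) • tcl A s := by
  induction B using NAF_ind with
  | nil B hp hq =>
    have hd : B.dim = 0 := by simp [Blk.dim, hp, hq]
    rw [hd, pow_zero, one_smul]
    have hsub : ∀ v w : B.W, v = w := by
      intro v w
      refine Prod.ext (funext fun i => ?_) (funext fun j => ?_)
      · exact absurd i.2 (by omega)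
      · exact absurd j.2 (by omega)
    refine tcl_congr (h.prod _ (TA.St.univ _)) h Prod.fst (by fun_prop) ⟨?_, ?_, ?_⟩ ?_
    · rintro ⟨y, v⟩ ⟨hy, -⟩
      exact hy
    · rintro ⟨y, v⟩ - ⟨y', v'⟩ - hyy
      exact Prod.ext hyy (hsub _ _)
    · intro y hy
      exact ⟨(y, 0), ⟨hy, trivial⟩, rfl⟩
    · intro c y _
      rfl
  | pr B a b hab ih =>
    have e1 := h.prod (NAF_TW B) (TA.St.univ _)
    have f1 := NAF_fin_prod fin (NAF_TW B) Set.univ
    have h1 := tcl_prod_Kw (A.prod (NAF_TW B)) e1 f1 a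
    have e2 := e1.prod (Kw k a) (TA.St.univ _)
    have h2 := tcl_prod_Kw ((A.prod (NAF_TW B)).prod (Kw k a)) e2
      (NAF_fin_prod f1 _ _) b
    have e3 := e2.prod (Kw k b) (TA.St.univ _)
    have h3 : tcl (((A.prod (NAF_TW B)).prod (Kw k a)).prod (Kw k b))
        (((s ×ˢ (Set.univ : Set B.W)) ×ˢ (Set.univ : Set k)) ×ˢ (Set.univ : Set k)) =
        tcl (A.prod (NAF_TW (NAF_bp B a b hab)))
          (s ×ˢ (Set.univ : Set (NAF_bp B a b hab).W)) := by
      refine tcl_congr e3 (h.prod _ (TA.St.univ _))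
        (fun p => (p.1.1.1, NAF_cp B a b hab (p.1.2, p.2) p.1.1.2)) (by fun_prop) ⟨?_, ?_, ?_⟩ ?_
      · rintro ⟨⟨⟨y, r⟩, u⟩, v⟩ ⟨⟨⟨hy, -⟩, -⟩, -⟩
        exact ⟨hy, trivial⟩
      · rintro ⟨⟨⟨y, r⟩, u⟩, v⟩ - ⟨⟨⟨y', r'⟩, u'⟩, v'⟩ - heq
        have g1 := congrArg Prod.fst heq
        have g2 := NAF_cp_inj B a b hab (congrArg Prod.snd heq)
        have g3 := congrArg Prod.fst g2.1
        have g4 := congrArg Prod.snd g2.1
        have g5 := g2.2
        dsimp only at g1 g3 g4 g5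
        subst g1 g3 g4 g5
        rfl
      · rintro ⟨y, v⟩ ⟨hy, -⟩
        obtain ⟨⟨x1, x2⟩, r, rfl⟩ := NAF_cp_surj B a b hab v
        exact ⟨(((y, r), x1), x2), ⟨⟨⟨hy, trivial⟩, trivial⟩, trivial⟩, rfl⟩
      · rintro c ⟨⟨⟨y, r⟩, u⟩, v⟩ -
        refine Prod.ext rfl ?_
        exact (NAF_cp_tv B a b hab c (u, v) r).symm
    rw [← h3, h2, h1, ih, NAF_dim_bp, NAF_Lsq]
  | sg B h' hh ε hε ih =>
    have e1 := h.prod (NAF_TW B) (TA.St.univ _)
    have f1 := NAF_fin_prod fin (NAF_TW B) Set.univ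
    have h1 := tcl_prod_Kw (A.prod (NAF_TW B)) e1 f1 h'
    have e2 := e1.prod (Kw k h') (TA.St.univ _)
    have h3 : tcl ((A.prod (NAF_TW B)).prod (Kw k h'))
        ((s ×ˢ (Set.univ : Set B.W)) ×ˢ (Set.univ : Set k)) =
        tcl (A.prod (NAF_TW (NAF_bs B h' hh ε hε)))
          (s ×ˢ (Set.univ : Set (NAF_bs B h' hh ε hε).W)) := by
      refine tcl_congr e2 (h.prod _ (TA.St.univ _))
        (fun p => (p.1.1, NAF_cs B h' hh ε hε p.2 p.1.2)) (by fun_prop) ⟨?_, ?_, ?_⟩ ?_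
      · rintro ⟨⟨y, r⟩, u⟩ ⟨⟨hy, -⟩, -⟩
        exact ⟨hy, trivial⟩
      · rintro ⟨⟨y, r⟩, u⟩ - ⟨⟨y', r'⟩, u'⟩ - heq
        have g1 := congrArg Prod.fst heq
        have g2 := NAF_cs_inj B h' hh ε hε (congrArg Prod.snd heq)
        have g3 := g2.1
        have g5 := g2.2
        dsimp only at g1 g3 g5
        subst g1 g3 g5
        rfl
      · rintro ⟨y, v⟩ ⟨hy, -⟩
        obtain ⟨x1, r, rfl⟩ := NAF_cs_surj B h' hh ε hε v
        exact ⟨((y, r), x1), ⟨⟨hy, trivial⟩, trivial⟩, rfl⟩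
      · rintro c ⟨⟨y, r⟩, u⟩ -
        refine Prod.ext rfl ?_
        exact (NAF_cs_tv B h' hh ε hε c u r).symm
    rw [← h3, h1, ih, smul_smul, ← pow_succ', NAF_dim_bs]

/-! ### The embedding of the smaller projective space -/

section emb

variable (B BB : Blk k) (f : B.W → BB.W) (hf : ∀ r, r ≠ 0 → f r ≠ 0)

/-- The map of projective spaces induced by `f`. -/
private noncomputable def NAF_map (p : ℙ k B.W) : ℙ k BB.W :=
  Projectivization.mk k (f p.rep) (hf _ p.rep_nonzero)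

omit [IsAlgClosed k] [CharZero k] in
private theorem NAF_map_mk (fs : ∀ (c : k) r, f (c • r) = c • f r) {r : B.W} (hr : r ≠ 0) :
    NAF_map B BB f hf (Projectivization.mk k r hr) = Projectivization.mk k (f r) (hf _ hr) := by
  obtain ⟨c, hc⟩ := Projectivization.exists_smul_eq_mk_rep k r hr
  unfold NAF_map
  rw [Projectivization.mk_eq_mk_iff]
  refine ⟨c, ?_⟩
  rw [← hc, Units.smul_def, Units.smul_def, fs]

private theorem NAF_map_dm (fs : ∀ (c : k) r, f (c • r) = c • f r) (df : DM k f) :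
    DM k (NAF_map B BB f hf) := by
  refine DM.of_graph (R := fun (p : ℙ k B.W) q => ∃ v : B.W, MRat.isrep v p ∧
      MRat.isrep (f v) q) ?_ ?_
  · exact DM.ex (DM.and (DM.isrep (by fun_prop) (by fun_prop))
        (DM.isrep (DM.comp df (by fun_prop)) (by fun_prop)))
  · intro p q
    constructor
    · rintro ⟨v, ⟨hv, hp⟩, ⟨hw, hq⟩⟩
      subst hp
      rw [← hq]
      exact (NAF_map_mk B BB f hf fs hv).symm
    · rintro rfl
      exact ⟨p.rep, ⟨p.rep_nonzero, p.mk_rep⟩, ⟨hf _ p.rep_nonzero, rfl⟩⟩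

end emb

private theorem NAF_piece0 {A : NA k Y} {s : Set Y} (h : A.St s) (B BB : Blk k)
    (f : B.W → BB.W) (hf : ∀ r, r ≠ 0 → f r ≠ 0) (fs : ∀ (c : k) r, f (c • r) = c • f r)
    (df : DM k f) (finj : Function.Injective f) (ft : ∀ τ r, f (B.tv τ r) = BB.tv τ (f r))
    (fw : ∀ r, f (B.wv r) = BB.wv (f r)) (t : Set (ℙ k BB.W)) (ht : (PW BB).St t)
    (ht' : ∀ v hv, Projectivization.mk k v hv ∈ t ↔ ∃ r, f r = v) :
    ncl (A.prod (PW BB)) (s ×ˢ t) = ncl (A.prod (PW B)) (s ×ˢ Set.univ) ∧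
    tcl (A.prod (PW BB)).toTA (s ×ˢ t) = tcl (A.prod (PW B)).toTA (s ×ˢ Set.univ) := by
  have s1 := h.prod (PW B) (NA.St.univ _)
  have s2 := h.prod (PW BB) ht
  have dF : DM k (fun p : Y × ℙ k B.W => (p.1, NAF_map B BB f hf p.2)) :=
    DM.mk (by fun_prop) (DM.comp (NAF_map_dm B BB f hf fs df) (by fun_prop))
  have bij : Set.BijOn (fun p : Y × ℙ k B.W => (p.1, NAF_map B BB f hf p.2))
      (s ×ˢ Set.univ) (s ×ˢ t) := by
    refine ⟨?_, ?_, ?_⟩
    · rintro ⟨y, p⟩ ⟨hy, -⟩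
      refine ⟨hy, ?_⟩
      induction p using Projectivization.ind with
      | h v hv =>
        dsimp only
        rw [NAF_map_mk B BB f hf fs hv, ht']
        exact ⟨v, rfl⟩
    · rintro ⟨y, p⟩ - ⟨y', p'⟩ - heq
      have h1 := congrArg Prod.fst heq
      have h2 := congrArg Prod.snd heq
      dsimp only at h1 h2
      subst h1
      refine Prod.ext rfl ?_
      induction p using Projectivization.ind with
      | h v hv =>
        induction p' using Projectivization.ind with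
        | h v' hv' =>
          dsimp only
          rw [NAF_map_mk B BB f hf fs hv, NAF_map_mk B BB f hf fs hv',
            Projectivization.mk_eq_mk_iff] at h2
          obtain ⟨c, hc⟩ := h2
          rw [Projectivization.mk_eq_mk_iff]
          refine ⟨c, ?_⟩
          rw [Units.smul_def, ← fs] at hc
          exact finj hc
    · rintro ⟨y, p⟩ ⟨hy, hp⟩
      induction p using Projectivization.ind with
      | h v hv =>
        rw [ht'] at hp
        obtain ⟨r, rfl⟩ := hp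
        have hr : r ≠ 0 := by
          rintro rfl
          apply hv
          simpa using fs 0 0
        refine ⟨(y, Projectivization.mk k r hr), ⟨hy, trivial⟩, ?_⟩
        dsimp only
        rw [NAF_map_mk B BB f hf fs hr]
  have eT : ∀ c, ∀ y ∈ s ×ˢ (Set.univ : Set (ℙ k B.W)),
      (fun p : Y × ℙ k B.W => (p.1, NAF_map B BB f hf p.2)) ((A.prod (PW B)).t c y) =
      (A.prod (PW BB)).t c ((fun p : Y × ℙ k B.W => (p.1, NAF_map B BB f hf p.2)) y) := by
    rintro c ⟨y, p⟩ -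
    refine Prod.ext rfl ?_
    induction p using Projectivization.ind with
    | h v hv =>
      show NAF_map B BB f hf ((PW B).t c _) = (PW BB).t c (NAF_map B BB f hf _)
      rw [PW_t_mk, NAF_map_mk B BB f hf fs, NAF_map_mk B BB f hf fs, PW_t_mk]
      congr 1
      exact ft c v
  have eW : ∀ y ∈ s ×ˢ (Set.univ : Set (ℙ k B.W)),
      (fun p : Y × ℙ k B.W => (p.1, NAF_map B BB f hf p.2)) ((A.prod (PW B)).w y) =
      (A.prod (PW BB)).w ((fun p : Y × ℙ k B.W => (p.1, NAF_map B BB f hf p.2)) y) := by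
    rintro ⟨y, p⟩ -
    refine Prod.ext rfl ?_
    induction p using Projectivization.ind with
    | h v hv =>
      show NAF_map B BB f hf ((PW B).w _) = (PW BB).w (NAF_map B BB f hf _)
      rw [PW_w_mk, NAF_map_mk B BB f hf fs, NAF_map_mk B BB f hf fs, PW_w_mk]
      congr 1
      exact fw v
  exact ⟨(ncl_congr s1 s2 _ dF bij eT eW).symm, (tcl_congr s1.toSt s2.toSt _ dF bij eT).symm⟩

/-! ### Adding a pair -/

section pair

variable (B : Blk k) (a b : ℤ) (hab : a + b = B.e)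

/-- The set of points whose first pair satisfies `R`. -/
private def NAF_U (R : k × k → Prop) : Set (ℙ k (NAF_bp B a b hab).W) :=
  NAF_loc (k := k) (fun v => R (v.1 0))

omit [IsAlgClosed k] [CharZero k] in
private theorem NAF_U_mem {R : k × k → Prop}
    (sc : ∀ (c d : kˣ) (x : k × k), R x → R ((c : k) * x.1, (d : k) * x.2))
    (x : k × k) (r : B.W) (hv : NAF_cp B a b hab x r ≠ 0) :
    Projectivization.mk k (NAF_cp B a b hab x r) hv ∈ NAF_U B a b hab R ↔ R x :=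
  NAF_mem_loc (Q := fun v : (NAF_bp B a b hab).W => R (v.1 0)) (fun c v hv => sc c c (v.1 0) hv) hv

private theorem NAF_U_St {R : k × k → Prop} (dR : DM k (fun x : k × k => R x))
    (sc : ∀ (c d : kˣ) (x : k × k), R x → R ((c : k) * x.1, (d : k) * x.2)) :
    (PW (NAF_bp B a b hab)).toTA.St (NAF_U B a b hab R) := by
  refine NAF_loc_St (NAF_bp B a b hab) (fun c v hv => sc c c (v.1 0) hv) ?_ ?_
  · exact DM.comp dR (DM.comp (DM.apply 0) (DM.fst (DM.id')))
  · intro τ v hv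
    exact sc (τ ^ a) (τ ^ b) (v.1 0) hv

private theorem NAF_U_NSt {R : k × k → Prop} (dR : DM k (fun x : k × k => R x))
    (sc : ∀ (c d : kˣ) (x : k × k), R x → R ((c : k) * x.1, (d : k) * x.2))
    (sw : ∀ x : k × k, R x → R (x.2, x.1)) :
    (PW (NAF_bp B a b hab)).St (NAF_U B a b hab R) := by
  refine NAF_loc_NSt (NAF_bp B a b hab) (fun c v hv => sc c c (v.1 0) hv) ?_ ?_ ?_
  · exact DM.comp dR (DM.comp (DM.apply 0) (DM.fst (DM.id')))
  · intro τ v hv
    exact sc (τ ^ a) (τ ^ b) (v.1 0) hv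
  · intro v hv
    exact sw (v.1 0) hv

private def NAF_R0 (x : k × k) : Prop := x.1 = 0 ∧ x.2 = 0
private def NAF_R1 (x : k × k) : Prop := x.1 ≠ 0 ∧ x.2 = 0
private def NAF_R1s (x : k × k) : Prop := (x.1 ≠ 0 ∧ x.2 = 0) ∨ (x.1 = 0 ∧ x.2 ≠ 0)
private def NAF_R2 (x : k × k) : Prop := x.1 ≠ 0 ∧ x.2 ≠ 0

private theorem NAF_R0_dm : DM k (fun x : k × k => NAF_R0 x) := by unfold NAF_R0; fun_prop
private theorem NAF_R1_dm : DM k (fun x : k × k => NAF_R1 x) := by unfold NAF_R1; fun_prop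
private theorem NAF_R1s_dm : DM k (fun x : k × k => NAF_R1s x) := by unfold NAF_R1s; fun_prop
private theorem NAF_R2_dm : DM k (fun x : k × k => NAF_R2 x) := by unfold NAF_R2; fun_prop

omit [IsAlgClosed k] [CharZero k] in
private theorem NAF_R0_sc (c d : kˣ) (x : k × k) (h : NAF_R0 x) :
    NAF_R0 ((c : k) * x.1, (d : k) * x.2) := by
  unfold NAF_R0 at *; simp [h.1, h.2]

omit [IsAlgClosed k] [CharZero k] in
private theorem NAF_R1_sc (c d : kˣ) (x : k × k) (h : NAF_R1 x) :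
    NAF_R1 ((c : k) * x.1, (d : k) * x.2) := by
  unfold NAF_R1 at *; simp [h.1, h.2]

omit [IsAlgClosed k] [CharZero k] in
private theorem NAF_R1s_sc (c d : kˣ) (x : k × k) (h : NAF_R1s x) :
    NAF_R1s ((c : k) * x.1, (d : k) * x.2) := by
  unfold NAF_R1s at *
  rcases h with h | h
  · left; simp [h.1, h.2]
  · right; simp [h.1, h.2]

omit [IsAlgClosed k] [CharZero k] in
private theorem NAF_R2_sc (c d : kˣ) (x : k × k) (h : NAF_R2 x) :
    NAF_R2 ((c : k) * x.1, (d : k) * x.2) := by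
  unfold NAF_R2 at *; simp [h.1, h.2]

private theorem NAF_cover :
    (Set.univ : Set (ℙ k (NAF_bp B a b hab).W)) =
      NAF_U B a b hab NAF_R0 ∪ (NAF_U B a b hab NAF_R1s ∪ NAF_U B a b hab NAF_R2) := by
  refine Set.Subset.antisymm ?_ (Set.subset_univ _)
  intro p _
  induction p using Projectivization.ind with
  | h v hv =>
    obtain ⟨x, r, rfl⟩ := NAF_cp_surj B a b hab v
    rw [Set.mem_union, Set.mem_union, NAF_U_mem B a b hab NAF_R0_sc,
      NAF_U_mem B a b hab NAF_R1s_sc, NAF_U_mem B a b hab NAF_R2_sc]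
    unfold NAF_R0 NAF_R1s NAF_R2
    tauto

private theorem NAF_disj1 :
    Disjoint (NAF_U B a b hab NAF_R0) (NAF_U B a b hab NAF_R1s ∪ NAF_U B a b hab NAF_R2) := by
  rw [Set.disjoint_left]
  intro p
  induction p using Projectivization.ind with
  | h v hv =>
    obtain ⟨x, r, rfl⟩ := NAF_cp_surj B a b hab v
    rw [Set.mem_union, NAF_U_mem B a b hab NAF_R0_sc,
      NAF_U_mem B a b hab NAF_R1s_sc, NAF_U_mem B a b hab NAF_R2_sc]
    unfold NAF_R0 NAF_R1s NAF_R2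
    tauto

private theorem NAF_disj2 :
    Disjoint (NAF_U B a b hab NAF_R1s) (NAF_U B a b hab NAF_R2) := by
  rw [Set.disjoint_left]
  intro p
  induction p using Projectivization.ind with
  | h v hv =>
    obtain ⟨x, r, rfl⟩ := NAF_cp_surj B a b hab v
    rw [NAF_U_mem B a b hab NAF_R1s_sc, NAF_U_mem B a b hab NAF_R2_sc]
    unfold NAF_R1s NAF_R2
    tauto

/-- Both coordinates of the pair vanish. -/
private theorem NAF_p0 {A : NA k Y} {s : Set Y} (h : A.St s) :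
    ncl (A.prod (PW (NAF_bp B a b hab))) (s ×ˢ NAF_U B a b hab NAF_R0) =
      ncl (A.prod (PW B)) (s ×ˢ Set.univ) ∧
    tcl (A.prod (PW (NAF_bp B a b hab))).toTA (s ×ˢ NAF_U B a b hab NAF_R0) =
      tcl (A.prod (PW B)).toTA (s ×ˢ Set.univ) := by
  refine NAF_piece0 h B (NAF_bp B a b hab) (NAF_cp B a b hab 0)
    (fun r hr => NAF_cp_ne2 B a b hab 0 hr) ?_ ?_ ?_ ?_ ?_ _
    (NAF_U_NSt B a b hab NAF_R0_dm NAF_R0_sc (fun x hx => ⟨hx.2, hx.1⟩)) ?_
  · intro c r
    rw [NAF_cp_smul, smul_zero]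
  · fun_prop
  · intro r r' h
    exact (NAF_cp_inj B a b hab h).2
  · intro τ r
    rw [NAF_cp_tv]
    simp only [Prod.fst_zero, Prod.snd_zero, mul_zero]
    rfl
  · intro r
    rw [NAF_cp_wv]
    rfl
  · intro v hv
    obtain ⟨x, r, rfl⟩ := NAF_cp_surj B a b hab v
    rw [NAF_U_mem B a b hab NAF_R0_sc]
    constructor
    · intro hx
      refine ⟨r, ?_⟩
      have : x = 0 := Prod.ext hx.1 hx.2
      rw [this]
    · rintro ⟨r', hr'⟩
      have := (NAF_cp_inj B a b hab hr').1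
      exact ⟨by rw [← this]; rfl, by rw [← this]; rfl⟩

/-- Exactly one coordinate of the pair vanishes. -/
private theorem NAF_p1 {A : NA k Y} {s : Set Y} (h : A.St s) (fin : A.toTA.Fin s) :
    ncl (A.prod (PW (NAF_bp B a b hab))) (s ×ˢ NAF_U B a b hab NAF_R1s) =
      (L ^ B.dim) • tcl A.toTA s ∧
    tcl (A.prod (PW (NAF_bp B a b hab))).toTA (s ×ˢ NAF_U B a b hab NAF_R1s) =
      (2 : Polynomial ℤ) • (L ^ B.dim) • tcl A.toTA s := by
  have s1 : (PW (NAF_bp B a b hab)).St (NAF_U B a b hab NAF_R1s) :=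
    NAF_U_NSt B a b hab NAF_R1s_dm NAF_R1s_sc (fun x hx => by
      unfold NAF_R1s at *
      rcases hx with hx | hx
      · right; exact ⟨hx.2, hx.1⟩
      · left; exact ⟨hx.2, hx.1⟩)
  have s2 : (PW (NAF_bp B a b hab)).toTA.St (NAF_U B a b hab NAF_R1) :=
    NAF_U_St B a b hab NAF_R1_dm NAF_R1_sc
  have t1 := h.prod _ s1
  have t2 := h.toSt.prod _ s2
  have key := n_induced (A := A.prod (PW (NAF_bp B a b hab))) t1 t2 (by
    rintro ⟨y, p⟩
    have hy : A.w y ∈ s ↔ y ∈ s := by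
      constructor
      · intro h'
        have := h.w_mem _ h'
        rwa [A.w_w] at this
      · exact h.w_mem y
    induction p using Projectivization.ind with
    | h v hv =>
      obtain ⟨x, r, rfl⟩ := NAF_cp_surj B a b hab v
      show (y ∈ s ∧ _ ∈ _) ↔ (y ∈ s ∧ _ ∈ _) ∨ (A.w y ∈ s ∧ (PW _).w _ ∈ _)
      rw [PW_w_mk, hy]
      simp only [NAF_cp_wv]
      rw [NAF_U_mem B a b hab NAF_R1_sc, NAF_U_mem B a b hab NAF_R1s_sc,
        NAF_U_mem B a b hab NAF_R1_sc]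
      unfold NAF_R1 NAF_R1s
      tauto) (by
    rintro ⟨y, p⟩ ⟨-, hp⟩ ⟨-, hq⟩
    induction p using Projectivization.ind with
    | h v hv =>
      obtain ⟨x, r, rfl⟩ := NAF_cp_surj B a b hab v
      change (PW _).w _ ∈ _ at hq
      rw [PW_w_mk] at hq
      simp only [NAF_cp_wv] at hq
      rw [NAF_U_mem B a b hab NAF_R1_sc] at hq
      change _ ∈ NAF_U B a b hab NAF_R1 at hp
      rw [NAF_U_mem B a b hab NAF_R1_sc] at hp
      exact hq.1 hp.2)
  have one_ne : ((1 : k), (0 : k)) ≠ 0 := by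
    intro h
    exact one_ne_zero (congrArg Prod.fst h)
  have h3 : tcl (A.toTA.prod (NAF_TW (NAF_sh B a))) (s ×ˢ Set.univ) =
      tcl (A.prod (PW (NAF_bp B a b hab))).toTA (s ×ˢ NAF_U B a b hab NAF_R1) := by
    refine tcl_congr (h.toSt.prod _ (TA.St.univ _)) t2
      (fun p => (p.1, Projectivization.mk k (NAF_cp B a b hab (1, 0) p.2)
        (NAF_cp_ne1 B a b hab one_ne p.2))) ?_ ⟨?_, ?_, ?_⟩ ?_
    · refine DM.mk (by fun_prop) (DM.pmk ?_ _)
      exact NAF_cp_dm B a b hab (by fun_prop) (by fun_prop)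
    · rintro ⟨y, r⟩ ⟨hy, -⟩
      refine ⟨hy, ?_⟩
      dsimp only
      rw [NAF_U_mem B a b hab NAF_R1_sc]
      exact ⟨one_ne_zero, rfl⟩
    · rintro ⟨y, r⟩ - ⟨y', r'⟩ - heq
      have h1 := congrArg Prod.fst heq
      have h2 := congrArg Prod.snd heq
      dsimp only at h1 h2
      subst h1
      rw [Projectivization.mk_eq_mk_iff] at h2
      obtain ⟨c, hc⟩ := h2
      rw [Units.smul_def, NAF_cp_smul] at hc
      obtain ⟨h3, h4⟩ := NAF_cp_inj B a b hab hc
      have h5 : (c : k) = 1 := by simpa using congrArg Prod.fst h3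
      rw [h5, one_smul] at h4
      rw [h4]
    · rintro ⟨y, p⟩ ⟨hy, hp⟩
      induction p using Projectivization.ind with
      | h v hv =>
        obtain ⟨⟨x1, x2⟩, r, rfl⟩ := NAF_cp_surj B a b hab v
        change _ ∈ NAF_U B a b hab NAF_R1 at hp
        rw [NAF_U_mem B a b hab NAF_R1_sc] at hp
        obtain ⟨hx1, hx2⟩ := hp
        dsimp only at hx1 hx2
        refine ⟨(y, x1⁻¹ • r), ⟨hy, trivial⟩, ?_⟩
        refine Prod.ext rfl ?_
        dsimp only
        refine NAF_mk_eq _ _ x1⁻¹ (inv_ne_zero hx1) ?_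
        rw [NAF_cp_smul, hx2]
        congr 1
        refine Prod.ext ?_ ?_
        · simp [hx1]
        · simp
    · rintro c ⟨y, r⟩ -
      refine Prod.ext rfl ?_
      show _ = (PW _).t c _
      rw [PW_t_mk]
      symm
      refine NAF_mk_eq _ _ ((c ^ a : kˣ) : k) (c ^ a).ne_zero ?_
      rw [NAF_cp_smul, NAF_cp_tv]
      congr 1
      · refine Prod.ext ?_ ?_
        · rfl
        · simp
      · exact NAF_sh_tv B a c r
  have h4 := NAF_tcl_W h.toSt fin (NAF_sh B a)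
  have h5 : (NAF_sh B a).dim = B.dim := rfl
  rw [h3, h5] at h4
  exact ⟨key.1.trans h4, by rw [key.2, h4]⟩

/-- Both coordinates of the pair are nonzero. -/
private theorem NAF_p2 {m : ℕ} {A : NA k Y} {s : Set Y} (h : NGood m A s)
    (hB : ∀ i, (m : ℤ) ∣ B.a i - B.b i) (hm : (m : ℤ) ∣ a - b) :
    ncl (A.prod (PW (NAF_bp B a b hab))) (s ×ˢ NAF_U B a b hab NAF_R2) =
      (L ^ B.dim) • ((1 + L) • ncl A s - tcl A.toTA s) ∧
    tcl (A.prod (PW (NAF_bp B a b hab))).toTA (s ×ˢ NAF_U B a b hab NAF_R2) =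
      (L ^ B.dim) • (L - 1) • tcl A.toTA s := by
  have s1 : (PW (NAF_bp B a b hab)).St (NAF_U B a b hab NAF_R2) :=
    NAF_U_NSt B a b hab NAF_R2_dm NAF_R2_sc (fun x hx => ⟨hx.2, hx.1⟩)
  have t1 := h.st.prod _ s1
  obtain ⟨g1, g2, g3⟩ := h.prod_Gm (a - b) hm
  have dc : DM k (fun p : Y × kˣ => p.2⁻¹) := by fun_prop
  have cw : ∀ y : Y × kˣ, ((A.prod (Gm k (a - b))).w y).2⁻¹ * y.2⁻¹ = 1 := by
    rintro ⟨y, x⟩
    show (x⁻¹)⁻¹ * x⁻¹ = 1
    rw [inv_inv, mul_inv_cancel]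
  have ct : ∀ (τ : kˣ) (y : Y × kˣ), ((A.prod (Gm k (a - b))).t τ y).2⁻¹ =
      τ ^ (-(NAF_sh B b).e) * y.2⁻¹ := by
    rintro τ ⟨y, x⟩
    show (τ ^ (a - b) * x)⁻¹ = τ ^ (-(B.e - 2 * b)) * x⁻¹
    rw [mul_inv, ← zpow_neg, ← hab]
    congr 2
    ring
  obtain ⟨b1, b2, b3⟩ := g1.bun (NAF_sh B b) (fun i => by
    show (m : ℤ) ∣ (B.a i - b) - (B.b i - b)
    rw [sub_sub_sub_cancel_right]
    exact hB i) (fun p => p.2⁻¹) dc cw ct
  have x1_ne : ∀ x : kˣ, ((x : k), (1 : k)) ≠ 0 := by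
    intro x h
    exact one_ne_zero (congrArg Prod.snd h)
  have dF : DM k (fun p : (Y × kˣ) × B.W => (p.1.1, Projectivization.mk k
      (NAF_cp B a b hab ((p.1.2 : k), 1) p.2) (NAF_cp_ne1 B a b hab (x1_ne p.1.2) p.2))) := by
    refine DM.mk (by fun_prop) (DM.pmk ?_ _)
    exact NAF_cp_dm B a b hab (by fun_prop) (by fun_prop)
  have bij : Set.BijOn (fun p : (Y × kˣ) × B.W => (p.1.1, Projectivization.mk k
      (NAF_cp B a b hab ((p.1.2 : k), 1) p.2) (NAF_cp_ne1 B a b hab (x1_ne p.1.2) p.2)))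
      ((s ×ˢ Set.univ) ×ˢ Set.univ) (s ×ˢ NAF_U B a b hab NAF_R2) := by
    refine ⟨?_, ?_, ?_⟩
    · rintro ⟨⟨y, x⟩, r⟩ ⟨⟨hy, -⟩, -⟩
      refine ⟨hy, ?_⟩
      dsimp only
      rw [NAF_U_mem B a b hab NAF_R2_sc]
      exact ⟨x.ne_zero, one_ne_zero⟩
    · rintro ⟨⟨y, x⟩, r⟩ - ⟨⟨y', x'⟩, r'⟩ - heq
      have h1 := congrArg Prod.fst heq
      have h2 := congrArg Prod.snd heq
      dsimp only at h1 h2
      subst h1
      rw [Projectivization.mk_eq_mk_iff] at h2
      obtain ⟨c, hc⟩ := h2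
      rw [Units.smul_def, NAF_cp_smul] at hc
      obtain ⟨h3, h4⟩ := NAF_cp_inj B a b hab hc
      have h5 : (c : k) = 1 := by simpa using congrArg Prod.snd h3
      have h6 : (x' : k) = x := by simpa [h5] using congrArg Prod.fst h3
      rw [h5, one_smul] at h4
      rw [h4, Units.ext h6]
    · rintro ⟨y, p⟩ ⟨hy, hp⟩
      induction p using Projectivization.ind with
      | h v hv =>
        obtain ⟨⟨x1, x2⟩, r, rfl⟩ := NAF_cp_surj B a b hab v
        change _ ∈ NAF_U B a b hab NAF_R2 at hp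
        rw [NAF_U_mem B a b hab NAF_R2_sc] at hp
        obtain ⟨hx1, hx2⟩ := hp
        dsimp only at hx1 hx2
        refine ⟨((y, Units.mk0 (x2⁻¹ * x1) (mul_ne_zero (inv_ne_zero hx2) hx1)), x2⁻¹ • r),
          ⟨⟨hy, trivial⟩, trivial⟩, ?_⟩
        refine Prod.ext rfl ?_
        dsimp only
        refine NAF_mk_eq _ _ x2⁻¹ (inv_ne_zero hx2) ?_
        rw [NAF_cp_smul]
        congr 1
        refine Prod.ext ?_ ?_
        · rfl
        · simp [hx2]
  have eT : ∀ c, ∀ y ∈ ((s ×ˢ Set.univ) ×ˢ Set.univ : Set ((Y × kˣ) × B.W)),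
      (fun p : (Y × kˣ) × B.W => (p.1.1, Projectivization.mk k
        (NAF_cp B a b hab ((p.1.2 : k), 1) p.2) (NAF_cp_ne1 B a b hab (x1_ne p.1.2) p.2)))
        (((A.prod (Gm k (a - b))).bun (NAF_sh B b) (fun p => p.2⁻¹) dc cw ct).t c y) =
      (A.prod (PW (NAF_bp B a b hab))).t c ((fun p : (Y × kˣ) × B.W => (p.1.1,
        Projectivization.mk k (NAF_cp B a b hab ((p.1.2 : k), 1) p.2)
          (NAF_cp_ne1 B a b hab (x1_ne p.1.2) p.2))) y) := by
    rintro c ⟨⟨y, x⟩, r⟩ -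
    refine Prod.ext rfl ?_
    show _ = (PW _).t c _
    rw [PW_t_mk]
    symm
    refine NAF_mk_eq _ _ ((c ^ b : kˣ) : k) (c ^ b).ne_zero ?_
    rw [NAF_cp_smul, NAF_cp_tv]
    congr 1
    · refine Prod.ext ?_ ?_
      · show ((c ^ b : kˣ) : k) * (((c ^ (a - b) * x : kˣ)) : k) = ((c ^ a : kˣ) : k) * (x : k)
        rw [← Units.val_mul, ← Units.val_mul, ← mul_assoc, ← zpow_add]
        congr 3
        ring
      · simp
    · exact NAF_sh_tv B b c r
  have eW : ∀ y ∈ ((s ×ˢ Set.univ) ×ˢ Set.univ : Set ((Y × kˣ) × B.W)),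
      (fun p : (Y × kˣ) × B.W => (p.1.1, Projectivization.mk k
        (NAF_cp B a b hab ((p.1.2 : k), 1) p.2) (NAF_cp_ne1 B a b hab (x1_ne p.1.2) p.2)))
        (((A.prod (Gm k (a - b))).bun (NAF_sh B b) (fun p => p.2⁻¹) dc cw ct).w y) =
      (A.prod (PW (NAF_bp B a b hab))).w ((fun p : (Y × kˣ) × B.W => (p.1.1,
        Projectivization.mk k (NAF_cp B a b hab ((p.1.2 : k), 1) p.2)
          (NAF_cp_ne1 B a b hab (x1_ne p.1.2) p.2))) y) := by
    rintro ⟨⟨y, x⟩, r⟩ -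
    refine Prod.ext rfl ?_
    show _ = (PW _).w _
    rw [PW_w_mk]
    symm
    refine NAF_mk_eq _ _ (x : k) x.ne_zero ?_
    rw [NAF_cp_smul, NAF_cp_wv]
    congr 1
    · refine Prod.ext ?_ ?_
      · show (x : k) * ((x⁻¹ : kˣ) : k) = 1
        exact Units.mul_inv x
      · show (x : k) * 1 = x
        exact mul_one _
    · show (x : k) • (((x⁻¹ : kˣ) : k) • (NAF_sh B b).wv r) = B.wv r
      rw [smul_smul, Units.mul_inv, one_smul]
      rfl
  have h5 : (NAF_sh B b).dim = B.dim := rfl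
  rw [h5] at b2 b3
  constructor
  · rw [← ncl_congr b1.st t1 _ dF bij eT eW, b2]
    congr 1
  · rw [← tcl_congr b1.st.toSt t1.toSt _ dF bij eT, b3, g3]

private theorem NAF_br (n : ℕ) : br (n + 2) = br n + L ^ n * (1 + L) := by
  unfold br
  rw [Finset.sum_range_succ, Finset.sum_range_succ]
  ring

private theorem NAF_pair {m : ℕ} {A : NA k Y} {s : Set Y} (h : NGood m A s)
    (hB : ∀ i, (m : ℤ) ∣ B.a i - B.b i) (hm : (m : ℤ) ∣ a - b)
    (ihn : ncl (A.prod (PW B)) (s ×ˢ Set.univ) = (br B.dim) • ncl A s)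
    (iht : tcl (A.prod (PW B)).toTA (s ×ˢ Set.univ) = (br B.dim) • tcl A.toTA s) :
    ncl (A.prod (PW (NAF_bp B a b hab))) (s ×ˢ Set.univ) =
      (br (NAF_bp B a b hab).dim) • ncl A s ∧
    tcl (A.prod (PW (NAF_bp B a b hab))).toTA (s ×ˢ Set.univ) =
      (br (NAF_bp B a b hab).dim) • tcl A.toTA s := by
  have u0 : (PW (NAF_bp B a b hab)).St (NAF_U B a b hab NAF_R0) :=
    NAF_U_NSt B a b hab NAF_R0_dm NAF_R0_sc (fun x hx => ⟨hx.2, hx.1⟩)
  have u1 : (PW (NAF_bp B a b hab)).St (NAF_U B a b hab NAF_R1s) :=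
    NAF_U_NSt B a b hab NAF_R1s_dm NAF_R1s_sc (fun x hx => by
      unfold NAF_R1s at *
      rcases hx with hx | hx
      · right; exact ⟨hx.2, hx.1⟩
      · left; exact ⟨hx.2, hx.1⟩)
  have u2 : (PW (NAF_bp B a b hab)).St (NAF_U B a b hab NAF_R2) :=
    NAF_U_NSt B a b hab NAF_R2_dm NAF_R2_sc (fun x hx => ⟨hx.2, hx.1⟩)
  have d1 := Set.Disjoint.set_prod_right (NAF_disj1 B a b hab) s s
  have d2 := Set.Disjoint.set_prod_right (NAF_disj2 B a b hab) s s
  have v0 := h.st.prod _ u0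
  have v1 := h.st.prod _ u1
  have v2 := h.st.prod _ u2
  have p0 := NAF_p0 B a b hab h.st
  have p1 := NAF_p1 B a b hab h.st h.fin
  have p2 := NAF_p2 B a b hab h hB hm
  rw [NAF_cover B a b hab, Set.prod_union, Set.prod_union]
  rw [Set.prod_union] at d1
  rw [ncl_union v0 (v1.union v2) d1, ncl_union v1 v2 d2, tcl_union v0.toSt (v1.union v2).toSt d1,
    tcl_union v1.toSt v2.toSt d2, p0.1, p0.2, p1.1, p1.2, p2.1, p2.2, ihn, iht, NAF_dim_bp, NAF_br]
  constructor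
  · module
  · module

end pair

/-! ### Adding a single coordinate -/

section single

variable (B : Blk k) (h' : ℤ) (hh : 2 * h' = B.e) (ε : kˣ) (hε : ε * ε = 1)

/-- The set of points whose first single coordinate satisfies `R`. -/
private def NAF_V (R : k → Prop) : Set (ℙ k (NAF_bs B h' hh ε hε).W) :=
  NAF_loc (k := k) (fun v => R (v.2 0))

omit [IsAlgClosed k] [CharZero k] in
private theorem NAF_V_mem {R : k → Prop} (sc : ∀ (c : kˣ) (x : k), R x → R ((c : k) * x))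
    (x : k) (r : B.W) (hv : NAF_cs B h' hh ε hε x r ≠ 0) :
    Projectivization.mk k (NAF_cs B h' hh ε hε x r) hv ∈ NAF_V B h' hh ε hε R ↔ R x :=
  NAF_mem_loc (Q := fun v : (NAF_bs B h' hh ε hε).W => R (v.2 0))
    (fun c v hv => sc c (v.2 0) hv) hv

private theorem NAF_V_NSt {R : k → Prop} (dR : DM k (fun x : k => R x))
    (sc : ∀ (c : kˣ) (x : k), R x → R ((c : k) * x)) :
    (PW (NAF_bs B h' hh ε hε)).St (NAF_V B h' hh ε hε R) := by
  refine NAF_loc_NSt (NAF_bs B h' hh ε hε) (fun c v hv => sc c (v.2 0) hv) ?_ ?_ ?_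
  · exact DM.comp dR (DM.comp (DM.apply 0) (DM.snd (DM.id')))
  · intro τ v hv
    exact sc (τ ^ h') (v.2 0) hv
  · intro v hv
    exact sc ε (v.2 0) hv

omit [IsAlgClosed k] [CharZero k] in
private theorem NAF_S0_sc (c : kˣ) (x : k) (h : x = 0) : (c : k) * x = 0 := by
  simp [h]

omit [IsAlgClosed k] [CharZero k] in
private theorem NAF_S1_sc (c : kˣ) (x : k) (h : x ≠ 0) : (c : k) * x ≠ 0 := by
  simp [h]

private theorem NAF_single {m : ℕ} {A : NA k Y} {s : Set Y} (h : NGood m A s)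
    (hB : ∀ i, (m : ℤ) ∣ B.a i - B.b i)
    (ihn : ncl (A.prod (PW B)) (s ×ˢ Set.univ) = (br B.dim) • ncl A s)
    (iht : tcl (A.prod (PW B)).toTA (s ×ˢ Set.univ) = (br B.dim) • tcl A.toTA s) :
    ncl (A.prod (PW (NAF_bs B h' hh ε hε))) (s ×ˢ Set.univ) =
      (br (NAF_bs B h' hh ε hε).dim) • ncl A s ∧
    tcl (A.prod (PW (NAF_bs B h' hh ε hε))).toTA (s ×ˢ Set.univ) =
      (br (NAF_bs B h' hh ε hε).dim) • tcl A.toTA s := by
  have u0 : (PW (NAF_bs B h' hh ε hε)).St (NAF_V B h' hh ε hε (fun x => x = 0)) :=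
    NAF_V_NSt B h' hh ε hε (by fun_prop) NAF_S0_sc
  have u1 : (PW (NAF_bs B h' hh ε hε)).St (NAF_V B h' hh ε hε (fun x => x ≠ 0)) :=
    NAF_V_NSt B h' hh ε hε (by fun_prop) NAF_S1_sc
  have v0 := h.st.prod _ u0
  have v1 := h.st.prod _ u1
  have cover : (Set.univ : Set (ℙ k (NAF_bs B h' hh ε hε).W)) =
      NAF_V B h' hh ε hε (fun x => x = 0) ∪ NAF_V B h' hh ε hε (fun x => x ≠ 0) := by
    refine Set.Subset.antisymm ?_ (Set.subset_univ _)
    intro p _
    induction p using Projectivization.ind with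
    | h v hv =>
      obtain ⟨x, r, rfl⟩ := NAF_cs_surj B h' hh ε hε v
      rw [Set.mem_union, NAF_V_mem B h' hh ε hε NAF_S0_sc, NAF_V_mem B h' hh ε hε NAF_S1_sc]
      exact em _
  have disj : Disjoint (NAF_V B h' hh ε hε (fun x => x = 0))
      (NAF_V B h' hh ε hε (fun x => x ≠ 0)) := by
    rw [Set.disjoint_left]
    intro p
    induction p using Projectivization.ind with
    | h v hv =>
      obtain ⟨x, r, rfl⟩ := NAF_cs_surj B h' hh ε hε v
      rw [NAF_V_mem B h' hh ε hε NAF_S0_sc, NAF_V_mem B h' hh ε hε NAF_S1_sc]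
      exact fun h1 h2 => h2 h1
  have d1 := Set.Disjoint.set_prod_right disj s s
  have p0 : ncl (A.prod (PW (NAF_bs B h' hh ε hε)))
        (s ×ˢ NAF_V B h' hh ε hε (fun x => x = 0)) =
        ncl (A.prod (PW B)) (s ×ˢ Set.univ) ∧
      tcl (A.prod (PW (NAF_bs B h' hh ε hε))).toTA
        (s ×ˢ NAF_V B h' hh ε hε (fun x => x = 0)) =
        tcl (A.prod (PW B)).toTA (s ×ˢ Set.univ) := by
    refine NAF_piece0 h.st B (NAF_bs B h' hh ε hε) (NAF_cs B h' hh ε hε 0)
      (fun r hr => NAF_cs_ne2 B h' hh ε hε 0 hr) ?_ ?_ ?_ ?_ ?_ _ u0 ?_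
    · intro c r
      rw [NAF_cs_smul, smul_zero]
    · fun_prop
    · intro r r' h
      exact (NAF_cs_inj B h' hh ε hε h).2
    · intro τ r
      rw [NAF_cs_tv, mul_zero]
    · intro r
      rw [NAF_cs_wv, mul_zero]
    · intro v hv
      obtain ⟨x, r, rfl⟩ := NAF_cs_surj B h' hh ε hε v
      rw [NAF_V_mem B h' hh ε hε NAF_S0_sc]
      constructor
      · rintro rfl
        exact ⟨r, rfl⟩
      · rintro ⟨r', hr'⟩
        exact (NAF_cs_inj B h' hh ε hε hr').1.symm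
  have dc : DM k (fun _ : Y => ε) := by fun_prop
  have cw : ∀ _y : Y, ε * ε = 1 := fun _ => hε
  have ct : ∀ (τ : kˣ) (_y : Y), ε = τ ^ (-(NAF_sh B h').e) * ε := by
    intro τ y
    show ε = τ ^ (-(B.e - 2 * h')) * ε
    rw [hh]
    simp
  obtain ⟨b1, b2, b3⟩ := h.bun (NAF_sh B h') (fun i => by
    show (m : ℤ) ∣ (B.a i - h') - (B.b i - h')
    rw [sub_sub_sub_cancel_right]
    exact hB i) (fun _ => ε) dc cw ct
  have one_ne : (1 : k) ≠ 0 := one_ne_zero
  have dF : DM k (fun p : Y × B.W => (p.1, Projectivization.mk k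
      (NAF_cs B h' hh ε hε 1 p.2) (NAF_cs_ne1 B h' hh ε hε one_ne p.2))) := by
    refine DM.mk (by fun_prop) (DM.pmk ?_ _)
    exact NAF_cs_dm B h' hh ε hε (by fun_prop) (by fun_prop)
  have bij : Set.BijOn (fun p : Y × B.W => (p.1, Projectivization.mk k
      (NAF_cs B h' hh ε hε 1 p.2) (NAF_cs_ne1 B h' hh ε hε one_ne p.2)))
      (s ×ˢ Set.univ) (s ×ˢ NAF_V B h' hh ε hε (fun x => x ≠ 0)) := by
    refine ⟨?_, ?_, ?_⟩
    · rintro ⟨y, r⟩ ⟨hy, -⟩
      refine ⟨hy, ?_⟩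
      dsimp only
      rw [NAF_V_mem B h' hh ε hε NAF_S1_sc]
      exact one_ne
    · rintro ⟨y, r⟩ - ⟨y', r'⟩ - heq
      have h1 := congrArg Prod.fst heq
      have h2 := congrArg Prod.snd heq
      dsimp only at h1 h2
      subst h1
      rw [Projectivization.mk_eq_mk_iff] at h2
      obtain ⟨c, hc⟩ := h2
      rw [Units.smul_def, NAF_cs_smul] at hc
      obtain ⟨h3, h4⟩ := NAF_cs_inj B h' hh ε hε hc
      have h5 : (c : k) = 1 := by simpa using h3
      rw [h5, one_smul] at h4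
      rw [h4]
    · rintro ⟨y, p⟩ ⟨hy, hp⟩
      induction p using Projectivization.ind with
      | h v hv =>
        obtain ⟨x, r, rfl⟩ := NAF_cs_surj B h' hh ε hε v
        change _ ∈ NAF_V B h' hh ε hε (fun x => x ≠ 0) at hp
        rw [NAF_V_mem B h' hh ε hε NAF_S1_sc] at hp
        refine ⟨(y, x⁻¹ • r), ⟨hy, trivial⟩, ?_⟩
        refine Prod.ext rfl ?_
        dsimp only
        refine NAF_mk_eq _ _ x⁻¹ (inv_ne_zero hp) ?_
        rw [NAF_cs_smul, smul_eq_mul, inv_mul_cancel₀ hp]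
  have eT : ∀ c, ∀ y ∈ (s ×ˢ Set.univ : Set (Y × B.W)),
      (fun p : Y × B.W => (p.1, Projectivization.mk k
        (NAF_cs B h' hh ε hε 1 p.2) (NAF_cs_ne1 B h' hh ε hε one_ne p.2)))
        ((A.bun (NAF_sh B h') (fun _ => ε) dc cw ct).t c y) =
      (A.prod (PW (NAF_bs B h' hh ε hε))).t c ((fun p : Y × B.W => (p.1,
        Projectivization.mk k (NAF_cs B h' hh ε hε 1 p.2)
          (NAF_cs_ne1 B h' hh ε hε one_ne p.2))) y) := by
    rintro c ⟨y, r⟩ -
    refine Prod.ext rfl ?_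
    show _ = (PW _).t c _
    rw [PW_t_mk]
    symm
    refine NAF_mk_eq _ _ ((c ^ h' : kˣ) : k) (c ^ h').ne_zero ?_
    rw [NAF_cs_smul, NAF_cs_tv]
    congr 1
    exact NAF_sh_tv B h' c r
  have eW : ∀ y ∈ (s ×ˢ Set.univ : Set (Y × B.W)),
      (fun p : Y × B.W => (p.1, Projectivization.mk k
        (NAF_cs B h' hh ε hε 1 p.2) (NAF_cs_ne1 B h' hh ε hε one_ne p.2)))
        ((A.bun (NAF_sh B h') (fun _ => ε) dc cw ct).w y) =
      (A.prod (PW (NAF_bs B h' hh ε hε))).w ((fun p : Y × B.W => (p.1,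
        Projectivization.mk k (NAF_cs B h' hh ε hε 1 p.2)
          (NAF_cs_ne1 B h' hh ε hε one_ne p.2))) y) := by
    rintro ⟨y, r⟩ -
    refine Prod.ext rfl ?_
    show _ = (PW _).w _
    rw [PW_w_mk]
    symm
    refine NAF_mk_eq _ _ (ε : k) ε.ne_zero ?_
    rw [NAF_cs_smul, NAF_cs_wv]
    congr 1
    show (ε : k) • ((ε : k) • (NAF_sh B h').wv r) = B.wv r
    rw [smul_smul, ← Units.val_mul, hε, Units.val_one, one_smul]
    rfl
  have h5 : (NAF_sh B h').dim = B.dim := rfl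
  rw [h5] at b2 b3
  have p1 : ncl (A.prod (PW (NAF_bs B h' hh ε hε)))
        (s ×ˢ NAF_V B h' hh ε hε (fun x => x ≠ 0)) = (L ^ B.dim) • ncl A s := by
    rw [← ncl_congr b1.st v1 _ dF bij eT eW, b2]
  have p2 : tcl (A.prod (PW (NAF_bs B h' hh ε hε))).toTA
        (s ×ˢ NAF_V B h' hh ε hε (fun x => x ≠ 0)) = (L ^ B.dim) • tcl A.toTA s := by
    rw [← tcl_congr b1.st.toSt v1.toSt _ dF bij eT, b3]
  have e1 : br (B.dim + 1) = br B.dim + L ^ B.dim := by
    unfold br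
    rw [Finset.sum_range_succ]
  rw [cover, Set.prod_union, ncl_union v0 v1 d1, tcl_union v0.toSt v1.toSt d1, p0.1, p0.2, p1, p2,
    ihn, iht, NAF_dim_bs, e1]
  constructor
  · module
  · module

end single

private theorem NAF_classes {m : ℕ} {A : NA k Y} {s : Set Y} (h : NGood m A s) (B : Blk k)
    (hab : ∀ i, (m : ℤ) ∣ B.a i - B.b i) :
    ncl (A.prod (PW B)) (s ×ˢ Set.univ) = (br B.dim) • ncl A s ∧
    tcl (A.prod (PW B)).toTA (s ×ˢ Set.univ) = (br B.dim) • tcl A.toTA s := by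
  induction B using NAF_ind with
  | nil B hp hq =>
    have hd : B.dim = 0 := by simp [Blk.dim, hp, hq]
    have hu : (s ×ˢ (Set.univ : Set (ℙ k B.W))) = ∅ := by
      rw [Set.eq_empty_iff_forall_notMem]
      rintro ⟨y, p⟩ -
      apply p.rep_nonzero
      refine Prod.ext (funext fun i => ?_) (funext fun j => ?_)
      · exact absurd i.2 (by omega)
      · exact absurd j.2 (by omega)
    have h0 : br 0 = 0 := by simp [br]
    rw [hu, ncl_empty, tcl_empty, hd, h0, zero_smul, zero_smul]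
    exact ⟨rfl, rfl⟩
  | pr B a b hab' ih =>
    obtain ⟨i1, i2⟩ := ih (fun i => by simpa using hab i.succ)
    exact NAF_pair B a b hab' h (fun i => by simpa using hab i.succ) (by simpa using hab 0) i1 i2
  | sg B h' hh ε hε ih =>
    obtain ⟨i1, i2⟩ := ih hab
    exact NAF_single B h' hh ε hε h hab i1 i2

/-- N14. Induction on the number of blocks. Remove a pair `(u, v)` of coordinates: `(u,v) = 0`: a smaller
block; exactly one of `u`, `v` zero: induced from `T`, class `L^(dim-2) (t)`; both non-zero: normalise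
`v = 1`, `x = u` lives in `G_(a-b)`, and the other coordinates form the bundle `NA.bun` over `Y × G_(a-b)`
with `c = x⁻¹`: class `L^(dim-2) om_(a-b)`. A single coordinate `z`: `z = 0` is a smaller block, `z = 1` is
the bundle over `Y` with `c = ε`. Goodness: `(Y × P(W)) × G_(j) = (Y × G_(j)) × P(W)`. -/
theorem n_proj {m : ℕ} {A : NA k Y} {s : Set Y} (h : NGood m A s) (B : Blk k)
    (hab : ∀ i, (m : ℤ) ∣ B.a i - B.b i) :
    ncl (A.prod (PW B)) (s ×ˢ Set.univ) = (br B.dim) • ncl A s ∧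
    tcl (A.prod (PW B)).toTA (s ×ˢ Set.univ) = (br B.dim) • tcl A.toTA s ∧
    NGood m (A.prod (PW B)) (s ×ˢ Set.univ) := by
  obtain ⟨c1, c2⟩ := NAF_classes h B hab
  refine ⟨c1, c2, h.st.prod _ (NA.St.univ _), NAF_fin_prod h.fin _ _, ?_⟩
  intro j hj hmj
  have hmj' : (m : ℤ) ∣ (j : ℤ) := by exact_mod_cast hmj
  obtain ⟨g1, g2, g3⟩ := h.prod_Gm (j : ℤ) hmj'
  obtain ⟨d1, d2⟩ := NAF_classes g1 B hab
  have e1 : om (A.prod (PW B)) (j : ℤ) (s ×ˢ Set.univ) =
      ncl ((A.prod (Gm k (j : ℤ))).prod (PW B)) ((s ×ˢ Set.univ) ×ˢ Set.univ) := by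
    refine ncl_congr ((h.st.prod _ (NA.St.univ _)).prod _ (NA.St.univ _))
      ((h.st.prod _ (NA.St.univ _)).prod _ (NA.St.univ _))
      (fun p => ((p.1.1, p.2), p.1.2)) (by fun_prop) ⟨?_, ?_, ?_⟩ ?_ ?_
    · rintro ⟨⟨y, p⟩, x⟩ ⟨⟨hy, -⟩, -⟩
      exact ⟨⟨hy, trivial⟩, trivial⟩
    · rintro ⟨⟨y, p⟩, x⟩ - ⟨⟨y', p'⟩, x'⟩ - heq
      simp only [Prod.mk.injEq] at heq ⊢
      tauto
    · rintro ⟨⟨y, x⟩, p⟩ ⟨⟨hy, -⟩, -⟩
      exact ⟨((y, p), x), ⟨⟨hy, trivial⟩, trivial⟩, rfl⟩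
    · rintro c ⟨⟨y, p⟩, x⟩ -
      rfl
    · rintro ⟨⟨y, p⟩, x⟩ -
      rfl
  have e2 : ncl (A.prod (Gm k (j : ℤ))) (s ×ˢ Set.univ) = om A (j : ℤ) s := rfl
  rw [e1, d1, c1, c2, e2, ← smul_add, h.eq j hj hmj, smul_comm]

end Pool.Agent.MRat
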