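import Pool.Agent.Lib.MP_923aff_ag.DTp
/-!
# `N`-spaces: definitions

`N = T ⋊ ⟨w⟩`, `T = kˣ`, `w t w = t⁻¹`, `w² = 1`.
-/

set_option autoImplicit false

namespace Pool.Agent.MRat

open scoped MatrixGroups LinearAlgebra.Projectivization

section defs
variable (k : Type) [Field k] [IsAlgClosed k] [CharZero k]

/-- A definable action of `T = kˣ` on the definable type `Y`. -/
structure TA (Y : Type) [DT k Y] where
  t : kˣ → Y → Y
  t_one : ∀ y, t 1 y = y
  t_mul : ∀ a b y, t (a * b) y = t a (t b y)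
  dt : DM k (fun p : kˣ × Y => t p.1 p.2)

/-- A definable action of `N` on the definable type `Y`. -/
structure NA (Y : Type) [DT k Y] extends TA k Y where
  w : Y → Y
  w_w : ∀ y, w (w y) = y
  w_t : ∀ a y, w (t a y) = t a⁻¹ (w y)
  dw : DM k w

end defs

variable {k : Type} [Field k] [IsAlgClosed k] [CharZero k]
variable {X Y Z : Type} [DT k X] [DT k Y] [DT k Z]

@[fun_prop]
theorem TA.dm (A : TA k Y) {f : X → kˣ} {g : X → Y} (hf : DM k f) (hg : DM k g) :
    DM k (fun x => A.t (f x) (g x)) := DM.comp A.dt (hf.mk hg)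

@[fun_prop]
theorem NA.dmt (A : NA k Y) {f : X → kˣ} {g : X → Y} (hf : DM k f) (hg : DM k g) :
    DM k (fun x => A.t (f x) (g x)) := DM.comp A.dt (hf.mk hg)

@[fun_prop]
theorem NA.dmw (A : NA k Y) {g : X → Y} (hg : DM k g) : DM k (fun x => A.w (g x)) :=
  DM.comp A.dw hg

/-- `T`-orbit relation. -/
def TA.rel (A : TA k Y) (x y : Y) : Prop := ∃ c : kˣ, A.t c x = y

/-- `N`-orbit relation. -/
def NA.nrel (A : NA k Y) (x y : Y) : Prop := ∃ c : kˣ, A.t c x = y ∨ A.t c (A.w x) = y

/-- stable definable subsets -/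
structure TA.St (A : TA k Y) (s : Set Y) : Prop where
  ds : DM k (fun x => x ∈ s)
  t_mem : ∀ c, ∀ y ∈ s, A.t c y ∈ s

structure NA.St (A : NA k Y) (s : Set Y) : Prop extends A.toTA.St s where
  w_mem : ∀ y ∈ s, A.w y ∈ s

/-- finite stabilisers in `T` -/
def TA.Fin (A : TA k Y) (s : Set Y) : Prop := ∀ y ∈ s, {c : kˣ | A.t c y = y}.Finite

/-- The class of `s / T`. -/
noncomputable def tcl (A : TA k Y) (s : Set Y) : MK k := clq k s A.rel

/-- The class of `s / N`. -/
noncomputable def ncl (A : NA k Y) (s : Set Y) : MK k := clq k s A.nrel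

/-- Products with the diagonal action. -/
@[simps] def TA.prod (A : TA k Y) (B : TA k Z) : TA k (Y × Z) where
  t c p := (A.t c p.1, B.t c p.2)
  t_one p := by simp [A.t_one, B.t_one]
  t_mul a b p := by simp [A.t_mul, B.t_mul]
  dt := by fun_prop

@[simps!] def NA.prod (A : NA k Y) (B : NA k Z) : NA k (Y × Z) where
  toTA := A.toTA.prod B.toTA
  w p := (A.w p.1, B.w p.2)
  w_w p := by simp [A.w_w, B.w_w]
  w_t a p := by simp [A.w_t, B.w_t]
  dw := by fun_prop

/-- `G_(j)`: the space `kˣ` with `t.x = t^j x`, `w.x = x⁻¹`. -/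
@[simps] def Gm (k : Type) [Field k] [IsAlgClosed k] [CharZero k] (j : ℤ) : NA k kˣ where
  t c x := c ^ j * x
  t_one y := by simp
  t_mul a b y := by rw [mul_zpow, mul_assoc]
  dt := by fun_prop
  w x := x⁻¹
  w_w y := inv_inv y
  w_t a y := by rw [mul_inv, inv_zpow]
  dw := by fun_prop

/-- The line `k` with `T` acting with weight `a`. -/
@[simps] def Kw (k : Type) [Field k] [IsAlgClosed k] [CharZero k] (a : ℤ) : TA k k where
  t c x := ((c ^ a : kˣ) : k) * x
  t_one y := by simp
  t_mul a b y := by rw [mul_zpow, Units.val_mul, mul_assoc]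
  dt := by fun_prop

/-- The class of `(s × G_(j)) / N`. -/
noncomputable def om (A : NA k Y) (j : ℤ) (s : Set Y) : MK k :=
  ncl (A.prod (Gm k j)) (s ×ˢ (Set.univ : Set kˣ))

/-- Good `N`-spaces (`m = 1`) and even-good `N`-spaces (`m = 2`). -/
structure NGood (m : ℕ) (A : NA k Y) (s : Set Y) : Prop where
  st : A.St s
  fin : A.toTA.Fin s
  eq : ∀ j : ℕ, 1 ≤ j → m ∣ j → tcl A.toTA s + om A j s = (1 + L) • ncl A s

/-- Pull back along `t ↦ t ^ l`. -/
@[simps!] def NA.pull (A : NA k Y) (l : ℕ) : NA k Y where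
  t c y := A.t (c ^ l) y
  t_one y := by simp [A.t_one]
  t_mul a b y := by rw [mul_pow, A.t_mul]
  dt := by fun_prop
  w := A.w
  w_w := A.w_w
  w_t a y := by rw [A.w_t, inv_pow]
  dw := A.dw

/-- Adding a pair of coordinates of weights `a`, `b`, exchanged by `w` with the factor `c y`. -/
@[simps!] def NA.pair (A : NA k Y) (a b : ℤ) (c : Y → kˣ) (dc : DM k c)
    (cw : ∀ y, c (A.w y) * c y = 1) (ct : ∀ τ y, c (A.t τ y) = τ ^ (-a - b) * c y) :
    NA k (Y × k × k) where
  t τ p := (A.t τ p.1, (τ ^ a : kˣ) * p.2.1, (τ ^ b : kˣ) * p.2.2)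
  t_one p := by simp [A.t_one]
  t_mul x y p := by simp [A.t_mul, mul_zpow, mul_assoc]
  dt := by fun_prop
  w p := (A.w p.1, c p.1 * p.2.2, c p.1 * p.2.1)
  w_w p := by
    have h := congrArg Units.val (cw p.1)
    simp only [Units.val_mul, Units.val_one] at h
    ext
    · simp [A.w_w]
    · simp only []
      rw [← mul_assoc, h, one_mul]
    · simp only []
      rw [← mul_assoc, h, one_mul]
  w_t τ p := by
    have h := ct τ p.1
    ext
    · simp [A.w_t]
    · simp only [h]
      rw [← mul_assoc, ← mul_assoc, ← Units.val_mul, ← Units.val_mul]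
      congr 2
      rw [mul_right_comm, ← zpow_add, inv_zpow']
      congr 2
      ring
    · simp only [h]
      rw [← mul_assoc, ← mul_assoc, ← Units.val_mul, ← Units.val_mul]
      congr 2
      rw [mul_right_comm, ← zpow_add, inv_zpow']
      congr 2
      ring
  dw := by fun_prop

/-- Adding a single coordinate of weight `a`, on which `w` acts by the factor `c y`. -/
@[simps!] def NA.single (A : NA k Y) (a : ℤ) (c : Y → kˣ) (dc : DM k c)
    (cw : ∀ y, c (A.w y) * c y = 1) (ct : ∀ τ y, c (A.t τ y) = τ ^ (-2 * a) * c y) :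
    NA k (Y × k) where
  t τ p := (A.t τ p.1, (τ ^ a : kˣ) * p.2)
  t_one p := by simp [A.t_one]
  t_mul x y p := by simp [A.t_mul, mul_zpow, mul_assoc]
  dt := by fun_prop
  w p := (A.w p.1, c p.1 * p.2)
  w_w p := by
    have h := congrArg Units.val (cw p.1)
    simp only [Units.val_mul, Units.val_one] at h
    ext
    · simp [A.w_w]
    · simp only []
      rw [← mul_assoc, h, one_mul]
  w_t τ p := by
    have h := ct τ p.1
    ext
    · simp [A.w_t]
    · simp only [h]
      rw [← mul_assoc, ← mul_assoc, ← Units.val_mul, ← Units.val_mul]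
      congr 2
      rw [mul_right_comm, ← zpow_add, inv_zpow']
      congr 2
      ring
  dw := by fun_prop

end Pool.Agent.MRat
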