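import Pool.Agent.Lib.MP_923aff_ag.DTp
/-!
# JOB PC: the calculus of polynomial classes

`PolyCl k t p`: the definable set `t` has class `p`, universally: the class of `s/r × t` is `p • [s/r]`.
-/

set_option autoImplicit false

namespace Pool.Agent.MRat

open scoped MatrixGroups LinearAlgebra.Projectivization

/-- The class of `t` is the polynomial `p` in the class of the affine line, universally. -/
def PolyCl (k : Type) [Field k] [IsAlgClosed k] [CharZero k] {Y : Type} [DT k Y] (t : Set Y)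
    (p : Polynomial ℤ) : Prop :=
  DM k (fun y => y ∈ t) ∧
    ∀ (X : Type) [DT k X] (s : Set X) (r : X → X → Prop), DQ k s r →
      clq k (s ×ˢ t) (fun a b => r a.1 b.1 ∧ a.2 = b.2) = p • clq k s r

/-- The class of a point. -/
noncomputable def ptc (k : Type) [Field k] [IsAlgClosed k] [CharZero k] : MK k :=
  cl k (Set.univ : Set Unit)

section
variable {k : Type} [Field k] [IsAlgClosed k] [CharZero k]
variable {X Y Z W : Type} [DT k X] [DT k Y] [DT k Z] [DT k W]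

theorem PolyCl.ds {t : Set Y} {p : Polynomial ℤ} (h : PolyCl k t p) : DM k (fun y => y ∈ t) := h.1

theorem PolyCl.clq {s : Set X} {r : X → X → Prop} (hs : DQ k s r) {t : Set Y} {p : Polynomial ℤ}
    (h : PolyCl k t p) :
    clq k (s ×ˢ t) (fun a b => r a.1 b.1 ∧ a.2 = b.2) = p • clq k s r := h.2 X s r hs

private theorem PC_univ : DM k (fun x : X => x ∈ (Set.univ : Set X)) :=
  (DM.const' True).congr_iff fun x => by simp

private theorem PC_dq {s : Set X} {r : X → X → Prop} (hs : DQ k s r) {t : Set Y}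
    (ht : DM k (fun y => y ∈ t)) :
    DQ k (s ×ˢ t) (fun a b => r a.1 b.1 ∧ a.2 = b.2) := clq_prod_of_cl hs ht

theorem PolyCl.cl {t : Set Y} {p : Polynomial ℤ} (h : PolyCl k t p) : cl k t = p • ptc k := by
  have hu : DQ k (Set.univ : Set Unit) (fun x y => x = y) := DQ.eq PC_univ
  have h1 := h.2 Unit (Set.univ : Set Unit) (fun x y => x = y) hu
  have h2 : MRat.cl k t = MRat.clq k ((Set.univ : Set Unit) ×ˢ t)
      (fun a b => a.1 = b.1 ∧ a.2 = b.2) := by
    refine clq_map (DQ.eq h.1) (PC_dq hu h.1) (fun y => ((), y)) (by fun_prop) ?_ ?_ ?_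
    · intro y hy
      exact ⟨trivial, hy⟩
    · intro y _ y' _
      exact ⟨fun h => ⟨rfl, h⟩, fun h => h.2⟩
    · rintro ⟨x, y⟩ ⟨-, hy⟩
      exact ⟨y, hy, rfl, rfl⟩
  rw [h2, h1]
  rfl

theorem PolyCl.cast {t : Set Y} {p q : Polynomial ℤ} (h : PolyCl k t p) (hq : p = q) :
    PolyCl k t q := hq ▸ h

private theorem PC_bij {s : Set X} {r : X → X → Prop} (hs : DQ k s r) {t : Set Y} {t' : Set Z}
    (ht : DM k (fun z => z ∈ t)) (ht' : DM k (fun z => z ∈ t')) (f : Y → Z) (hf : DM k f)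
    (hb : Set.BijOn f t t') :
    MRat.clq k (s ×ˢ t) (fun a b => r a.1 b.1 ∧ a.2 = b.2) =
      MRat.clq k (s ×ˢ t') (fun a b => r a.1 b.1 ∧ a.2 = b.2) := by
  refine clq_map (PC_dq hs ht) (PC_dq hs ht') (fun p => (p.1, f p.2)) (by fun_prop) ?_ ?_ ?_
  · rintro ⟨x, y⟩ ⟨hx, hy⟩
    exact ⟨hx, hb.mapsTo hy⟩
  · rintro ⟨x, y⟩ ⟨hx, hy⟩ ⟨x', y'⟩ ⟨hx', hy'⟩
    exact ⟨fun h => ⟨h.1, congrArg f h.2⟩, fun h => ⟨h.1, hb.injOn hy hy' h.2⟩⟩
  · rintro ⟨x, z⟩ ⟨hx, hz⟩
    obtain ⟨y, hy, rfl⟩ := hb.surjOn hz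
    exact ⟨(x, y), ⟨hx, hy⟩, hs.refl x hx, rfl⟩

/-- Transport along a definable bijection. -/
theorem PolyCl.bij {t : Set Y} {t' : Set Z} {p : Polynomial ℤ} (h : PolyCl k t p)
    (ht' : DM k (fun z => z ∈ t')) (f : Y → Z) (hf : DM k f) (hb : Set.BijOn f t t') :
    PolyCl k t' p := by
  refine ⟨ht', fun X _ s r hs => ?_⟩
  rw [← h.2 X s r hs]
  exact (PC_bij hs h.1 ht' f hf hb).symm

/-- Transport along a definable bijection, in the other direction. -/
theorem PolyCl.bij' {t : Set Y} {t' : Set Z} {p : Polynomial ℤ} (h : PolyCl k t' p)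
    (ht : DM k (fun z => z ∈ t)) (f : Y → Z) (hf : DM k f) (hb : Set.BijOn f t t') :
    PolyCl k t p := by
  refine ⟨ht, fun X _ s r hs => ?_⟩
  rw [← h.2 X s r hs]
  exact PC_bij hs ht h.1 f hf hb

theorem PolyCl.empty : PolyCl k (∅ : Set Y) 0 := by
  refine ⟨(DM.const' False).congr_iff fun x => by simp, fun X _ s r hs => ?_⟩
  rw [Set.prod_empty, clq_empty, zero_smul]

theorem PolyCl.singleton (y : Y) : PolyCl k ({y} : Set Y) 1 := by
  have hy : DM k (fun z : Y => z ∈ ({y} : Set Y)) := by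
    have h : DM k (fun z : Y => z = y) := by fun_prop
    exact h.congr_iff fun z => by simp
  refine ⟨hy, fun X _ s r hs => ?_⟩
  rw [one_smul]
  refine clq_map (PC_dq hs hy) hs (fun p => p.1) (by fun_prop) ?_ ?_ ?_
  · rintro ⟨x, z⟩ ⟨hx, -⟩
    exact hx
  · rintro ⟨x, z⟩ ⟨hx, hz⟩ ⟨x', z'⟩ ⟨hx', hz'⟩
    refine ⟨fun h => h.1, fun h => ⟨h, ?_⟩⟩
    have e1 : z = y := hz
    have e2 : z' = y := hz'
    show z = z'
    rw [e1, e2]
  · intro x hx
    exact ⟨(x, y), ⟨hx, rfl⟩, hs.refl x hx⟩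

theorem PolyCl.univ_k : PolyCl k (Set.univ : Set k) L :=
  ⟨PC_univ, fun _ _ _ _ hs => (X_smul_clq hs).symm⟩

private theorem PC_units : PolyCl k (Set.univ : Set kˣ) (L - 1) :=
  ⟨PC_univ, fun _ _ _ _ hs => (units_smul_clq hs).symm⟩

theorem PolyCl.ne_zero : PolyCl k ({x | x ≠ 0} : Set k) (L - 1) := by
  have h : DM k (fun x : k => x ≠ 0) := by fun_prop
  refine PolyCl.bij PC_units (h.congr_iff fun x => Iff.rfl) (fun u : kˣ => (u : k)) (by fun_prop) ?_
  refine ⟨fun u _ => u.ne_zero, fun u _ v _ huv => Units.ext huv, fun x hx => ?_⟩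
  exact ⟨Units.mk0 x hx, trivial, rfl⟩

theorem PolyCl.units : PolyCl k (Set.univ : Set kˣ) (L - 1) := PC_units

theorem PolyCl.prod {t : Set Y} {t' : Set Z} {p p' : Polynomial ℤ} (h : PolyCl k t p)
    (h' : PolyCl k t' p') : PolyCl k (t ×ˢ t') (p * p') := by
  have ht : DM k (fun y => y ∈ t) := h.1
  have ht' : DM k (fun y => y ∈ t') := h'.1
  have hd : DM k (fun y : Y × Z => y ∈ t ×ˢ t') := by
    have h1 : DM k (fun y : Y × Z => y.1 ∈ t ∧ y.2 ∈ t') := by fun_prop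
    exact h1.congr_iff fun y => Iff.rfl
  refine ⟨hd, fun X _ s r hs => ?_⟩
  have hs1 := PC_dq hs ht
  rw [mul_comm, mul_smul, ← h.2 X s r hs, ← h'.2 _ _ _ hs1]
  refine clq_map (PC_dq hs hd) (PC_dq hs1 ht') (fun p => ((p.1, p.2.1), p.2.2)) (by fun_prop)
    ?_ ?_ ?_
  · rintro ⟨x, y, z⟩ ⟨hx, hy, hz⟩
    exact ⟨⟨hx, hy⟩, hz⟩
  · rintro ⟨x, y, z⟩ _ ⟨x', y', z'⟩ _
    constructor
    · rintro ⟨h1, h2⟩
      dsimp only at h1 h2 ⊢
      rw [Prod.mk.injEq] at h2
      exact ⟨⟨h1, h2.1⟩, h2.2⟩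
    · rintro ⟨⟨h1, h2⟩, h3⟩
      dsimp only at h1 h2 h3 ⊢
      exact ⟨h1, by rw [h2, h3]⟩
  · rintro ⟨⟨x, y⟩, z⟩ ⟨⟨hx, hy⟩, hz⟩
    exact ⟨(x, y, z), ⟨hx, hy, hz⟩, ⟨hs.refl x hx, rfl⟩, rfl⟩

/-- Boxes. -/
theorem PolyCl.pi {n : ℕ} {A : Fin n → Set Y} {p : Fin n → Polynomial ℤ}
    (h : ∀ i, PolyCl k (A i) (p i)) : PolyCl k {x : Fin n → Y | ∀ i, x i ∈ A i} (∏ i, p i) := by
  induction n with
  | zero =>
    have e : {x : Fin 0 → Y | ∀ i, x i ∈ A i} = {fun i => Fin.elim0 i} := by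
      ext x
      constructor
      · intro _
        exact funext fun i => Fin.elim0 i
      · intro _ i
        exact Fin.elim0 i
    rw [e, Fin.prod_univ_zero]
    exact PolyCl.singleton _
  | succ n ih =>
    have h1 := PolyCl.prod (h 0) (ih (A := fun i => A i.succ) (p := fun i => p i.succ)
      (fun i => h i.succ))
    rw [Fin.prod_univ_succ]
    refine PolyCl.bij h1 ?_ (fun q : Y × (Fin n → Y) => (Fin.cons q.1 q.2 : Fin (n + 1) → Y)) ?_ ?_
    · refine DM.fall (fun i => ?_)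
      exact DM.comp (h i).1 (DM.apply i)
    · refine DM.pi (fun i => ?_)
      refine Fin.cases ?_ (fun j => ?_) i
      · simp only [Fin.cons_zero]
        fun_prop
      · simp only [Fin.cons_succ]
        fun_prop
    · refine ⟨?_, ?_, ?_⟩
      · rintro ⟨y, x⟩ ⟨hy, hx⟩ i
        refine Fin.cases ?_ (fun j => ?_) i
        · exact hy
        · exact hx j
      · rintro ⟨y, x⟩ _ ⟨y', x'⟩ _ hq
        have hq' : (Fin.cons y x : Fin (n + 1) → Y) = Fin.cons y' x' := hq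
        rw [Fin.cons_inj] at hq'
        rw [hq'.1, hq'.2]
      · intro x hx
        refine ⟨(x 0, fun i => x i.succ), ⟨hx 0, fun i => hx i.succ⟩, ?_⟩
        exact Fin.cons_self_tail x

theorem PolyCl.univ_pi (n : ℕ) : PolyCl k (Set.univ : Set (Fin n → k)) (L ^ n) := by
  have h := PolyCl.pi (k := k) (n := n) (A := fun _ => (Set.univ : Set k)) (p := fun _ => L)
    (fun _ => PolyCl.univ_k)
  have e : {x : Fin n → k | ∀ i, x i ∈ (Set.univ : Set k)} = Set.univ := by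
    ext x
    simp
  rw [e] at h
  exact h.cast (by simp)

private theorem PC_split {s : Set X} {r : X → X → Prop} (hs : DQ k s r) {t t' : Set Y}
    (ht : DM k (fun y => y ∈ t)) (ht' : DM k (fun y => y ∈ t')) (hd : Disjoint t t') :
    MRat.clq k (s ×ˢ (t ∪ t')) (fun a b => r a.1 b.1 ∧ a.2 = b.2) =
      MRat.clq k (s ×ˢ t) (fun a b => r a.1 b.1 ∧ a.2 = b.2) +
        MRat.clq k (s ×ˢ t') (fun a b => r a.1 b.1 ∧ a.2 = b.2) := by
  have hu : DM k (fun y => y ∈ t ∪ t') := (ht.or ht').congr_iff fun _ => Iff.rfl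
  have h1 := PC_dq hs hu
  rw [Set.prod_union] at h1 ⊢
  refine clq_union h1 (PC_dq hs ht).ds (PC_dq hs ht').ds ?_ ?_
  · rintro ⟨x, y⟩ ⟨_, hy⟩ ⟨_, hy'⟩
    exact Set.disjoint_left.1 hd hy hy'
  · rintro ⟨x, y⟩ ⟨_, hy⟩ ⟨x', y'⟩ ⟨_, hy'⟩ ⟨_, h2⟩
    dsimp only at h2 hy hy'
    subst h2
    exact Set.disjoint_left.1 hd hy hy'

theorem PolyCl.union {t t' : Set Y} {p p' : Polynomial ℤ} (h : PolyCl k t p)
    (h' : PolyCl k t' p') (hd : Disjoint t t') : PolyCl k (t ∪ t') (p + p') := by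
  have hu : DM k (fun y => y ∈ t ∪ t') := (h.1.or h'.1).congr_iff fun _ => Iff.rfl
  refine ⟨hu, fun X _ s r hs => ?_⟩
  rw [add_smul, ← h.2 X s r hs, ← h'.2 X s r hs, PC_split hs h.1 h'.1 hd]

theorem PolyCl.diff {t t' : Set Y} {p p' : Polynomial ℤ} (h : PolyCl k t p)
    (h' : PolyCl k t' p') (hd : t' ⊆ t) : PolyCl k (t \ t') (p - p') := by
  have hu : DM k (fun y => y ∈ t \ t') := (h.1.and h'.1.not).congr_iff fun _ => Iff.rfl
  refine ⟨hu, fun X _ s r hs => ?_⟩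
  have h1 := PC_split hs h'.1 hu Set.disjoint_sdiff_right
  rw [Set.union_sdiff_cancel hd, h.2 X s r hs, h'.2 X s r hs] at h1
  rw [sub_smul, h1, add_sub_cancel_left]

/-- Finite disjoint unions. -/
theorem PolyCl.sum {ι : Type} (I : Finset ι) {t : Set Y} (A : ι → Set Y) (p : ι → Polynomial ℤ)
    (h : ∀ i ∈ I, PolyCl k (A i) (p i)) (hd : ∀ i ∈ I, ∀ j ∈ I, i ≠ j → Disjoint (A i) (A j))
    (ht : ∀ y, y ∈ t ↔ ∃ i ∈ I, y ∈ A i) : PolyCl k t (∑ i ∈ I, p i) := by
  classical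
  induction I using Finset.induction_on generalizing t with
  | empty =>
    have e : t = ∅ := by
      ext y
      rw [ht y]
      simp
    rw [e, Finset.sum_empty]
    exact PolyCl.empty
  | insert i I' hi ih =>
    rw [Finset.sum_insert hi]
    have h1 := ih (t := {y | ∃ j ∈ I', y ∈ A j}) (fun j hj => h j (Finset.mem_insert_of_mem hj))
      (fun a ha b hb => hd a (Finset.mem_insert_of_mem ha) b (Finset.mem_insert_of_mem hb))
      (fun y => Iff.rfl)
    have h2 := PolyCl.union (h i (Finset.mem_insert_self i I')) h1 (by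
      rw [Set.disjoint_left]
      rintro y hy ⟨j, hj, hyj⟩
      have hne : i ≠ j := fun hij => hi (hij ▸ hj)
      exact Set.disjoint_left.1 (hd i (Finset.mem_insert_self i I') j
        (Finset.mem_insert_of_mem hj) hne) hy hyj)
    have e : t = A i ∪ {y | ∃ j ∈ I', y ∈ A j} := by
      ext y
      rw [ht y]
      constructor
      · rintro ⟨j, hj, hyj⟩
        rcases Finset.mem_insert.1 hj with rfl | hj
        · exact Or.inl hyj
        · exact Or.inr ⟨j, hj, hyj⟩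
      · rintro (hy | ⟨j, hj, hyj⟩)
        · exact ⟨i, Finset.mem_insert_self i I', hy⟩
        · exact ⟨j, Finset.mem_insert_of_mem hj, hyj⟩
    rw [e]
    exact h2

theorem PolyCl.proj (n : ℕ) : PolyCl k (Set.univ : Set (ℙ k (Fin n → k))) (br n) :=
  ⟨PC_univ, fun _ _ _ _ hs => (br_smul_clq hs n).symm⟩

/-- Slices of free actions of the additive group. `a b` is translation by `b` and `τ` an equivariant
coordinate; the action and `τ` are only considered on `s`. -/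
theorem ga_slice {s : Set X} (hs : DM k (fun x => x ∈ s)) (a : k → X → X)
    (da : DM k (fun p : k × X => a p.1 p.2)) (a_mem : ∀ b, ∀ x ∈ s, a b x ∈ s)
    (a_zero : ∀ x ∈ s, a 0 x = x) (a_add : ∀ b c, ∀ x ∈ s, a (b + c) x = a b (a c x))
    (τ : X → k) (dτ : DM k τ) (hτ : ∀ b, ∀ x ∈ s, τ (a b x) = τ x + b) :
    DQ k s (fun x y => ∃ b, a b x = y) ∧
    clq k s (fun x y => ∃ b, a b x = y) = cl k (s ∩ {x | τ x = 0}) := by
  have hd : DQ k s (fun x y => ∃ b, a b x = y) :=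
    { ds := hs
      dr := by
        have h1 : DM k (fun q : (X × X) × k => a q.2 q.1.1) :=
          DM.comp da (f := fun q : (X × X) × k => (q.2, q.1.1)) (by fun_prop)
        have h2 : DM k (fun p : X × X => ∃ b, a b p.1 = p.2) :=
          DM.ex (DM.eq h1 (by fun_prop))
        exact (DM.comp hs (f := fun p : X × X => p.1) (by fun_prop)).and
          ((DM.comp hs (f := fun p : X × X => p.2) (by fun_prop)).and h2)
      refl := fun x hx => ⟨0, a_zero x hx⟩
      symm := by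
        rintro x hx y hy ⟨b, rfl⟩
        refine ⟨-b, ?_⟩
        rw [← a_add (-b) b x hx, neg_add_cancel, a_zero x hx]
      trans := by
        rintro x hx y hy z hz ⟨b, rfl⟩ ⟨c, rfl⟩
        exact ⟨c + b, a_add c b x hx⟩ }
  refine ⟨hd, ?_⟩
  have hs0 : DM k (fun x => x ∈ s ∩ {x | τ x = 0}) := by
    have h1 : DM k (fun x => x ∈ s ∧ τ x = 0) := by fun_prop
    exact h1.congr_iff fun x => Iff.rfl
  have hf : DM k (fun x => a (-τ x) x) :=
    DM.comp da (f := fun x => (-τ x, x)) (by fun_prop)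
  refine clq_map hd (DQ.eq hs0) (fun x => a (-τ x) x) hf ?_ ?_ ?_
  · intro x hx
    refine ⟨a_mem _ x hx, ?_⟩
    show τ (a (-τ x) x) = 0
    rw [hτ _ x hx, add_neg_cancel]
  · intro x hx y hy
    constructor
    · rintro ⟨b, rfl⟩
      show a (-τ x) x = a (-τ (a b x)) (a b x)
      rw [hτ b x hx, ← a_add _ b x hx]
      congr 1
      ring
    · intro h
      refine ⟨τ y + -τ x, ?_⟩
      have h' : a (-τ x) x = a (-τ y) y := h
      rw [a_add (τ y) (-τ x) x hx, h', ← a_add (τ y) (-τ y) y hy, add_neg_cancel, a_zero y hy]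
  · rintro y ⟨hy, hy0⟩
    have hy0' : τ y = 0 := hy0
    refine ⟨y, hy, ?_⟩
    show a (-τ y) y = y
    rw [hy0', neg_zero, a_zero y hy]

end

end Pool.Agent.MRat
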