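import Pool.Agent.Lib.MP_923aff_ag.PC
/-!
# JOB PO: polynomials of bounded degree as a definable type

`PD k n` = polynomials of degree `< n` (coordinates: coefficients). A map into `PD k n` is definable iff its
coefficients are, iff its evaluation is (for the latter: graph, `p = f x` iff `∀ t, p t = f x t`).
-/

set_option autoImplicit false

namespace Pool.Agent.MRat

open Polynomial
open scoped MatrixGroups LinearAlgebra.Projectivization

/-- Polynomials of degree less than `n`. -/
abbrev PD (k : Type) [Field k] (n : ℕ) : Type := Polynomial.degreeLT k n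

section
variable {k : Type} [Field k] [IsAlgClosed k] [CharZero k]
variable {X Y Z W : Type} [DT k X] [DT k Y] [DT k Z] [DT k W]

noncomputable instance (n : ℕ) : DT k (PD k n) :=
  DT.ofEquiv (Polynomial.degreeLTEquiv k n).toEquiv

private theorem PO_equiv (n : ℕ) : DM k (fun F : PD k n => Polynomial.degreeLTEquiv k n F) :=
  DT.ofInj_coe (Polynomial.degreeLTEquiv k n).toEquiv (Polynomial.degreeLTEquiv k n).injective
    ((DM.const' True).congr_iff (fun x => by
      simp only [true_iff]; exact ⟨(Polynomial.degreeLTEquiv k n).symm x, by simp⟩))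

private theorem PO_to {n : ℕ} {f : X → PD k n}
    (h : DM k (fun x => Polynomial.degreeLTEquiv k n (f x))) : DM k f :=
  (DT.ofInj_iff (Polynomial.degreeLTEquiv k n).toEquiv (Polynomial.degreeLTEquiv k n).injective
    ((DM.const' True).congr_iff (fun x => by
      simp only [true_iff]; exact ⟨(Polynomial.degreeLTEquiv k n).symm x, by simp⟩))).2 h

omit [IsAlgClosed k] [CharZero k] in
private theorem PO_coeff {n : ℕ} (F : PD k n) (i : Fin n) :
    Polynomial.degreeLTEquiv k n F i = F.1.coeff i := rfl

omit [IsAlgClosed k] [CharZero k] in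
private theorem PO_coeff_zero {n : ℕ} (F : PD k n) (i : ℕ) (hi : n ≤ i) : F.1.coeff i = 0 := by
  have h := Polynomial.mem_degreeLT.mp F.2
  exact Polynomial.coeff_eq_zero_of_degree_lt (lt_of_lt_of_le h (by exact_mod_cast hi))

@[fun_prop]
theorem DM.pcoeff {n : ℕ} {f : X → PD k n} (hf : DM k f) (i : ℕ) :
    DM k (fun x => (f x).1.coeff i) := by
  by_cases hi : i < n
  · have h1 : DM k (fun F : PD k n => Polynomial.degreeLTEquiv k n F) := PO_equiv n
    have h2 := h1.comp hf
    exact (DM.comp (DM.apply (k := k) (Y := k) (⟨i, hi⟩ : Fin n)) h2)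
  · push Not at hi
    exact (DM.const' (0 : k)).congr (fun x => (PO_coeff_zero (f x) i hi).symm)

@[fun_prop]
theorem DM.peval {n : ℕ} {f : X → PD k n} {g : X → k} (hf : DM k f) (hg : DM k g) :
    DM k (fun x => (f x).1.eval (g x)) := by
  have h : DM k (fun x => ∑ i : Fin n, (f x).1.coeff (i : ℕ) * (g x) ^ (i : ℕ)) := by
    refine DM.sum Finset.univ (fun i _ => ?_)
    fun_prop
  refine h.congr (fun x => ?_)
  rw [Polynomial.eval_eq_sum_degreeLTEquiv (f x).2]
  rfl

theorem DM.to_PD {n : ℕ} {f : X → PD k n} (h : ∀ i, DM k (fun x => (f x).1.coeff i)) : DM k f := by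
  refine PO_to (DM.pi fun i => ?_)
  exact (h i).congr (fun x => (PO_coeff (f x) i).symm)

theorem DM.to_PD_eval {n : ℕ} {f : X → PD k n}
    (h : DM k (fun p : X × k => (f p.1).1.eval p.2)) : DM k f := by
  refine DM.of_graph (R := fun x F => ∀ t : k, F.1.eval t = (f x).1.eval t) ?_ ?_
  · refine DM.all (DM.eq (by fun_prop) ?_)
    exact DM.comp h (by fun_prop :
      DM k (fun p : (X × PD k n) × k => ((p.1.1, p.2) : X × k)))
  · intro x F
    constructor
    · intro h
      exact Subtype.ext (Polynomial.funext h)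
    · rintro rfl t
      rfl

/-- Boxes in the space of polynomials. -/
theorem PolyCl.PD_box {n : ℕ} {A : ℕ → Set k} {p : ℕ → Polynomial ℤ}
    (h : ∀ i < n, PolyCl k (A i) (p i)) :
    PolyCl k {F : PD k n | ∀ i < n, F.1.coeff i ∈ A i} (∏ i ∈ Finset.range n, p i) := by
  have h1 := PolyCl.pi (k := k) (n := n) (A := fun i : Fin n => A (i : ℕ))
    (p := fun i : Fin n => p (i : ℕ)) (fun i => h i i.2)
  rw [Finset.prod_range]
  have hd : DM k (fun F : PD k n => F ∈ {F : PD k n | ∀ i < n, F.1.coeff i ∈ A i}) := by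
    have h2 : DM k (fun F : PD k n => Polynomial.degreeLTEquiv k n F ∈
        {x : Fin n → k | ∀ i : Fin n, x i ∈ A (i : ℕ)}) := DM.comp h1.1 (PO_equiv n)
    refine h2.congr_iff (fun F => ?_)
    constructor
    · intro h i hi
      exact h ⟨i, hi⟩
    · intro h i
      exact h i i.2
  refine PolyCl.bij' h1 hd (fun F => Polynomial.degreeLTEquiv k n F) (PO_equiv n) ⟨?_, ?_, ?_⟩
  · intro F hF i
    exact hF i i.2
  · intro F _ G _ hFG
    exact (Polynomial.degreeLTEquiv k n).injective hFG
  · intro x hx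
    refine ⟨(Polynomial.degreeLTEquiv k n).symm x, ?_, ?_⟩
    · intro i hi
      have h3 := PO_coeff ((Polynomial.degreeLTEquiv k n).symm x) ⟨i, hi⟩
      rw [LinearEquiv.apply_symm_apply] at h3
      rw [← h3]
      exact hx ⟨i, hi⟩
    · exact LinearEquiv.apply_symm_apply _ x

/-- Product of two polynomials of bounded degree. -/
noncomputable def pdmul {m n l : ℕ} (h : m + n ≤ l + 1) (F : PD k m) (G : PD k n) : PD k l :=
  ⟨F.1 * G.1, by
    rw [Polynomial.mem_degreeLT]
    by_cases hF : F.1 = 0
    · rw [hF, zero_mul, Polynomial.degree_zero]; exact WithBot.bot_lt_coe _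
    by_cases hG : G.1 = 0
    · rw [hG, mul_zero, Polynomial.degree_zero]; exact WithBot.bot_lt_coe _
    have h1 := Polynomial.mem_degreeLT.mp F.2
    have h2 := Polynomial.mem_degreeLT.mp G.2
    rw [Polynomial.degree_mul]
    rw [Polynomial.degree_eq_natDegree hF] at h1 ⊢
    rw [Polynomial.degree_eq_natDegree hG] at h2 ⊢
    have h3 : F.1.natDegree < m := by exact_mod_cast h1
    have h4 : G.1.natDegree < n := by exact_mod_cast h2
    have h5 : F.1.natDegree + G.1.natDegree < l := by omega
    exact_mod_cast h5⟩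

theorem pdmul_coe {m n l : ℕ} (h : m + n ≤ l + 1) (F : PD k m) (G : PD k n) :
    (pdmul h F G).1 = F.1 * G.1 := rfl

theorem DM.pdmul {m n l : ℕ} (h : m + n ≤ l + 1) {f : X → PD k m} {g : X → PD k n} (hf : DM k f)
    (hg : DM k g) : DM k (fun x => pdmul h (f x) (g x)) := by
  refine DM.to_PD_eval ?_
  have h1 : DM k (fun p : X × k => (f p.1).1.eval p.2 * (g p.1).1.eval p.2) := by fun_prop
  refine h1.congr (fun p => ?_)
  rw [pdmul_coe, Polynomial.eval_mul]

/-- Translation of the variable. -/
noncomputable def ptr {n : ℕ} (b : k) (F : PD k n) : PD k n :=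
  ⟨taylor (-b) F.1, by
    rw [Polynomial.mem_degreeLT, Polynomial.degree_taylor]
    exact Polynomial.mem_degreeLT.mp F.2⟩

theorem ptr_coe {n : ℕ} (b : k) (F : PD k n) : (ptr b F).1 = taylor (-b) F.1 := rfl

theorem DM.ptr {n : ℕ} {f : X → k} {g : X → PD k n} (hf : DM k f) (hg : DM k g) :
    DM k (fun x => ptr (f x) (g x)) := by
  refine DM.to_PD_eval ?_
  have h1 : DM k (fun p : X × k => (g p.1).1.eval (p.2 + -(f p.1))) := by fun_prop
  refine h1.congr (fun p => ?_)
  rw [ptr_coe, Polynomial.taylor_eval]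

theorem ptr_zero {n : ℕ} (F : PD k n) : ptr 0 F = F := by
  refine Subtype.ext ?_
  rw [ptr_coe, neg_zero, Polynomial.taylor_zero]

theorem ptr_add {n : ℕ} (b c : k) (F : PD k n) : ptr (b + c) F = ptr b (ptr c F) := by
  refine Subtype.ext ?_
  rw [ptr_coe, ptr_coe, ptr_coe, Polynomial.taylor_taylor, neg_add]

/-- Top coefficients of a translate. -/
theorem ptr_coeff_top {n j : ℕ} (b : k) (F : PD k n) (h : ∀ i, j < i → F.1.coeff i = 0) :
    (∀ i, j < i → (ptr b F).1.coeff i = 0) ∧ (ptr b F).1.coeff j = F.1.coeff j ∧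
    ∀ i, i + 1 = j → (ptr b F).1.coeff i = F.1.coeff i - j * b * F.1.coeff j := by
  refine ⟨?_, ?_, ?_⟩
  · intro i hi
    rw [ptr_coe, Polynomial.taylor_coeff]
    have h1 : Polynomial.hasseDeriv i F.1 = 0 := by
      ext m
      rw [Polynomial.hasseDeriv_coeff, h (m + i) (by omega), mul_zero, Polynomial.coeff_zero]
    rw [h1, Polynomial.eval_zero]
  · rw [ptr_coe, Polynomial.taylor_coeff]
    have h1 : Polynomial.hasseDeriv j F.1 = C (F.1.coeff j) := by
      ext m
      rw [Polynomial.hasseDeriv_coeff, Polynomial.coeff_C]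
      by_cases hm : m = 0
      · subst hm
        simp
      · rw [if_neg hm, h (m + j) (by omega), mul_zero]
    rw [h1, Polynomial.eval_C]
  · intro i hi
    rw [ptr_coe, Polynomial.taylor_coeff]
    have h1 : Polynomial.hasseDeriv i F.1 = C (F.1.coeff i) + C ((j : k) * F.1.coeff j) * X := by
      ext m
      rw [Polynomial.hasseDeriv_coeff, Polynomial.coeff_add, Polynomial.coeff_C,
        Polynomial.coeff_C_mul, Polynomial.coeff_X]
      by_cases hm : m = 0
      · subst hm
        simp
      · by_cases hm1 : m = 1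
        · subst hm1
          rw [if_neg hm, if_pos rfl, mul_one, zero_add, ← hi, add_comm 1 i,
            Nat.choose_succ_self_right]
        · rw [if_neg hm, if_neg (Ne.symm hm1), h (m + i) (by omega)]
          ring
    rw [h1]
    simp only [Polynomial.eval_add, Polynomial.eval_mul, Polynomial.eval_C, Polynomial.eval_X]
    ring

/-- Coprimality is definable. -/
theorem DM.isCoprime {m n : ℕ} {f : X → PD k m} {g : X → PD k n} (hf : DM k f) (hg : DM k g) :
    DM k (fun x => IsCoprime (f x).1 (g x).1) := by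
  have h : DM k (fun x => ¬ ∃ t : k, (f x).1.eval t = 0 ∧ (g x).1.eval t = 0) := by fun_prop
  refine h.congr_iff (fun x => ?_)
  rw [Polynomial.isCoprime_iff_aeval_ne_zero_of_isAlgClosed k k]
  simp only [Polynomial.coe_aeval_eq_eval]
  push Not
  exact forall_congr' fun t => by tauto

end

end Pool.Agent.MRat
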