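import Pool.Agent.Lib.MP_923aff_ag.PC
/-!
# JOB UA: translations, the Borel subgroup and the torus of `PGL₂` acting on a space with finite stabilisers

`relU_eq`: `gm_lemma` with `r = relU` and the action of `affP c 0`. `relT_eq`: `aff_DT` with
`R x y c b := affP c b • x = y`; the left side of its conclusion is `clq s relT` through `x ↦ (x, 0)` (`clq_map`).
-/

set_option autoImplicit false

namespace Pool.Agent.MRat

open scoped MatrixGroups LinearAlgebra.Projectivization

section defs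
variable {k : Type} [Field k]

/-- The affine transformation `z ↦ a z + b`. -/
def affGL (a : kˣ) (b : k) : GL (Fin 2) k :=
  Matrix.GeneralLinearGroup.mkOfDetNeZero !![(a : k), b; 0, 1] (by simp [Matrix.det_fin_two])

/-- The affine transformation `z ↦ a z + b`. -/
def affP (a : kˣ) (b : k) : PGL(2, k) := Matrix.ProjGenLinGroup.mk (affGL a b)

variable (k)

/-- Equivalence under translations. -/
def relU {X : Type} [MulAction PGL(2, k) X] (x y : X) : Prop := ∃ b : k, affP 1 b • x = y

/-- Equivalence under the Borel subgroup. -/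
def relB {X : Type} [MulAction PGL(2, k) X] (x y : X) : Prop :=
  ∃ (a : kˣ) (b : k), affP a b • x = y

/-- Equivalence under the torus. -/
def relT {X : Type} [MulAction PGL(2, k) X] (x y : X) : Prop := ∃ a : kˣ, affP a 0 • x = y

end defs

section
variable {k : Type} [Field k] [IsAlgClosed k] [CharZero k]
variable {X Y Z W : Type} [DT k X] [DT k Y] [DT k Z] [DT k W]

omit [IsAlgClosed k] [CharZero k] in
theorem affGL_mul (a a' : kˣ) (b b' : k) :
    affGL a b * affGL a' b' = affGL (a * a') (a * b' + b) := by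
  apply Units.ext
  ext i j
  fin_cases i <;> fin_cases j <;>
    simp [affGL, Matrix.mul_apply, Fin.sum_univ_two, Matrix.GeneralLinearGroup.mkOfDetNeZero]

omit [IsAlgClosed k] [CharZero k] in
theorem affP_mul (a a' : kˣ) (b b' : k) :
    affP a b * affP a' b' = affP (a * a') (a * b' + b) := by
  unfold affP
  rw [← map_mul, affGL_mul]

omit [IsAlgClosed k] [CharZero k] in
theorem affP_one : affP (1 : kˣ) (0 : k) = 1 := by
  unfold affP
  have h : affGL (1 : kˣ) (0 : k) = 1 := by
    apply Units.ext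
    ext i j
    fin_cases i <;> fin_cases j <;>
      simp [affGL, Matrix.GeneralLinearGroup.mkOfDetNeZero]
  rw [h, map_one]

omit [IsAlgClosed k] [CharZero k] in
theorem affP_inv (a : kˣ) (b : k) : (affP a b)⁻¹ = affP a⁻¹ (-((a⁻¹ : kˣ) * b)) := by
  rw [inv_eq_iff_mul_eq_one, affP_mul]
  have h : (a : k) * -((a⁻¹ : kˣ) * b) + b = 0 := by
    rw [mul_neg, Units.mul_inv_cancel_left]
    ring
  rw [h, mul_inv_cancel, affP_one]

omit [IsAlgClosed k] [CharZero k] in
theorem affP_inj {a a' : kˣ} {b b' : k} (h : affP a b = affP a' b') : a = a' ∧ b = b' := by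
  unfold affP at h
  rw [Matrix.ProjGenLinGroup.mk_eq_mk_iff] at h
  obtain ⟨u, hu⟩ := h
  have h1 : ∀ i j, ((affGL a b * Matrix.GeneralLinearGroup.scalar (Fin 2) u : GL (Fin 2) k) :
      Matrix (Fin 2) (Fin 2) k) i j = ((affGL a' b' : GL (Fin 2) k) : Matrix (Fin 2) (Fin 2) k) i j :=
    fun i j => by rw [hu]
  have h11 := h1 1 1
  have h00 := h1 0 0
  have h01 := h1 0 1
  simp [affGL, Matrix.mul_apply, Fin.sum_univ_two, Matrix.GeneralLinearGroup.mkOfDetNeZero,
    Matrix.GeneralLinearGroup.coe_scalar] at h11 h00 h01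
  rw [h11] at h00 h01
  simp at h00 h01
  exact ⟨Units.ext h00, h01⟩

@[fun_prop]
theorem DM.affGL {f : X → kˣ} {g : X → k} (hf : DM k f) (hg : DM k g) :
    DM k (fun x => affGL (f x) (g x)) := by
  refine DM.to_gl (DM.matrix (fun i j => ?_))
  fin_cases i <;> fin_cases j
  · exact (DM.coe hf).congr (fun x => by simp [MRat.affGL, Matrix.GeneralLinearGroup.mkOfDetNeZero])
  · exact hg.congr (fun x => by simp [MRat.affGL, Matrix.GeneralLinearGroup.mkOfDetNeZero])
  · exact (DM.const' (0 : k)).congr (fun x => by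
      simp [MRat.affGL, Matrix.GeneralLinearGroup.mkOfDetNeZero])
  · exact (DM.const' (1 : k)).congr (fun x => by
      simp [MRat.affGL, Matrix.GeneralLinearGroup.mkOfDetNeZero])

@[fun_prop]
theorem DM.affP {f : X → kˣ} {g : X → k} (hf : DM k f) (hg : DM k g) :
    DM k (fun x => affP (f x) (g x)) := by
  unfold MRat.affP
  fun_prop

variable [MulAction PGL(2, k) X] [DAct k PGL(2, k) X]

theorem relU_dq {s : Set X} (h : GSet k PGL(2, k) s) : DQ k s (relU k) where
  ds := h.ds
  dr := by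
    have hs := h.ds
    have h1 : DM k (fun p : X × X => ∃ b : k, affP 1 b • p.1 = p.2) := by fun_prop
    exact DM.and (by fun_prop) (DM.and (by fun_prop) h1)
  refl := fun x _ => ⟨0, by rw [affP_one, one_smul]⟩
  symm := by
    rintro x _ y _ ⟨b, rfl⟩
    refine ⟨-b, ?_⟩
    rw [← mul_smul, affP_mul]
    have h1 : ((1 : kˣ) : k) * b + -b = 0 := by simp
    rw [h1, mul_one, affP_one, one_smul]
  trans := by
    rintro x _ y _ z _ ⟨b, rfl⟩ ⟨b', rfl⟩
    refine ⟨b + b', ?_⟩
    rw [← mul_smul, affP_mul]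
    simp

theorem relB_dq {s : Set X} (h : GSet k PGL(2, k) s) : DQ k s (relB k) where
  ds := h.ds
  dr := by
    have hs := h.ds
    have h1 : DM k (fun p : X × X => ∃ (a : kˣ) (b : k), affP a b • p.1 = p.2) := by fun_prop
    exact DM.and (by fun_prop) (DM.and (by fun_prop) h1)
  refl := fun x _ => ⟨1, 0, by rw [affP_one, one_smul]⟩
  symm := by
    rintro x _ y _ ⟨a, b, rfl⟩
    refine ⟨a⁻¹, -((a⁻¹ : kˣ) * b), ?_⟩
    rw [← affP_inv, inv_smul_smul]
  trans := by
    rintro x _ y _ z _ ⟨a, b, rfl⟩ ⟨a', b', rfl⟩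
    refine ⟨a' * a, a' * b + b', ?_⟩
    rw [← mul_smul, affP_mul]

theorem relT_dq {s : Set X} (h : GSet k PGL(2, k) s) : DQ k s (relT k) where
  ds := h.ds
  dr := by
    have hs := h.ds
    have h1 : DM k (fun p : X × X => ∃ a : kˣ, affP a 0 • p.1 = p.2) := by fun_prop
    exact DM.and (by fun_prop) (DM.and (by fun_prop) h1)
  refl := fun x _ => ⟨1, by rw [affP_one, one_smul]⟩
  symm := by
    rintro x _ y _ ⟨a, rfl⟩
    refine ⟨a⁻¹, ?_⟩
    rw [← mul_smul, affP_mul]
    simp [affP_one]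
  trans := by
    rintro x _ y _ z _ ⟨a, rfl⟩ ⟨a', rfl⟩
    refine ⟨a' * a, ?_⟩
    rw [← mul_smul, affP_mul]
    simp

omit [DT k X] [DAct k PGL(2, k) X] [IsAlgClosed k] [CharZero k] in
private theorem ua_fin {x : X} (fin : {g : PGL(2, k) | g • x = x}.Finite) :
    {p : kˣ × k | affP p.1 p.2 • x = x}.Finite := by
  refine Set.Finite.preimage (f := fun p : kˣ × k => affP p.1 p.2) ?_ fin
  rintro ⟨a, b⟩ _ ⟨a', b'⟩ _ h
  obtain ⟨h1, h2⟩ := affP_inj h
  exact Prod.ext h1 h2

theorem relU_eq {s : Set X} (h : GSet k PGL(2, k) s)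
    (fin : ∀ x ∈ s, {g : PGL(2, k) | g • x = x}.Finite) :
    clq k s (relU k) = (L - 1) • clq k s (relB k) := by
  have h1 := gm_lemma (relU_dq h) (fun c x => affP c 0 • x) (by fun_prop)
    (fun c x hx => h.st _ x hx)
    (fun x hx => ⟨0, by rw [affP_one, one_smul, one_smul]⟩)
    (fun b c x hx => ⟨0, by
      rw [affP_one, one_smul, ← mul_smul, affP_mul]
      simp⟩)
    (fun c x hx y hy => by
      rintro ⟨b, rfl⟩
      refine ⟨c * b, ?_⟩
      rw [← mul_smul, ← mul_smul, affP_mul, affP_mul]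
      simp)
    (fun x hx => by
      refine ((ua_fin (fin x hx)).image Prod.fst).subset ?_
      rintro c ⟨b, hb⟩
      refine ⟨(c, b), ?_, rfl⟩
      rw [← mul_smul, affP_mul] at hb
      simpa using hb)
  rw [h1.2]
  congr 1
  apply clq_congr
  intro x hx y hy
  constructor
  · rintro ⟨c, b, hb⟩
    refine ⟨c, b, ?_⟩
    rw [← hb, ← mul_smul, affP_mul]
    simp
  · rintro ⟨c, b, hb⟩
    refine ⟨c, b, ?_⟩
    rw [← hb, ← mul_smul, affP_mul]
    simp

theorem relT_eq {s : Set X} (h : GSet k PGL(2, k) s)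
    (fin : ∀ x ∈ s, {g : PGL(2, k) | g • x = x}.Finite) :
    clq k s (relT k) = L • clq k s (relB k) := by
  have hA : DAff k s (fun x y c b => affP c b • x = y) := by
    refine ⟨h.ds, ?_, ?_, ?_, ?_, ?_⟩
    · have hs := h.ds
      have h1 : DM k (fun p : X × X × kˣ × k => affP p.2.2.1 p.2.2.2 • p.1 = p.2.1) := by fun_prop
      exact DM.and (by fun_prop) (DM.and (by fun_prop) h1)
    · intro x _
      rw [affP_one, one_smul]
    · rintro x _ y _ c b rfl
      rw [← affP_inv, inv_smul_smul]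
    · rintro x _ y _ z _ c b c' b' rfl rfl
      rw [← mul_smul, affP_mul]
    · intro x hx
      exact ua_fin (fin x hx)
  obtain ⟨h1, h2, h3⟩ := aff_DT hA
  have h4 : clq k s (relB k) = clq k s (fun x y => ∃ (c : kˣ) (b : k), affP c b • x = y) := rfl
  rw [h4, ← h3]
  refine clq_map (relT_dq h) h2 (fun x => (x, 0)) (by fun_prop) ?_ ?_ ?_
  · intro x hx
    exact ⟨hx, trivial⟩
  · intro x _ y _
    constructor
    · rintro ⟨a, ha⟩
      exact ⟨a, 0, ha, by simp⟩
    · rintro ⟨a, b, hab, hb⟩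
      dsimp only at hab hb
      have hb0 : b = 0 := by simpa using hb.symm
      subst hb0
      exact ⟨a, hab⟩
  · rintro ⟨y, v⟩ ⟨hy, -⟩
    dsimp only at hy
    refine ⟨affP 1 (-v) • y, h.st _ y hy, 1, v, ?_, ?_⟩
    · dsimp only
      rw [← mul_smul, affP_mul]
      have h5 : ((1 : kˣ) : k) * -v + v = 0 := by simp
      rw [h5, mul_one, affP_one, one_smul]
    · simp

end

end Pool.Agent.MRat
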