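import Pool.Agent.Lib.MP_923aff_ag.FormsB
import Pool.Agent.Lib.MP_923aff_ag.UA
import Pool.Agent.Lib.MP_923aff_ag.FGH
/-!
# JOB QA: orbits on products with the projective line and with transitive spaces

`orb_transitive`: `clq_map` along `x ↦ (x, z0)`. `orb_P1`: `t = univ`, `z0 = ∞`, `fix_ptI`.
`c2_cl`: the two-element group `{1, z ↦ -z}`: `clq s relC2 = clq (s × kˣ) ((x, v) ~ (t x, t ^ 2 v)) = (L - 1) • clq s relT`
(`x ↦ (x, 1)`, `line_DT_units`) and `cl s = (L - 1) • clq s relT` (`gm_lemma`).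
-/

set_option autoImplicit false

namespace Pool.Agent.MRat

open scoped MatrixGroups LinearAlgebra.Projectivization

noncomputable section

section defs
variable (k : Type) [Field k]

/-- Equivalence under the normaliser of the torus. -/
def relN {X : Type} [MulAction PGL(2, k) X] (x y : X) : Prop :=
  ∃ a : kˣ, tor a • x = y ∨ (tor a * swp k) • x = y

/-- Equivalence under `z ↦ ± z`. -/
def relC2 {X : Type} [MulAction PGL(2, k) X] (x y : X) : Prop := x = y ∨ tor (-1 : kˣ) • x = y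

end defs

section
variable {k : Type} [Field k] [IsAlgClosed k] [CharZero k]
variable {X Y Z W : Type} [DT k X] [DT k Y] [DT k Z] [DT k W]

theorem affP_eq_gm (a : kˣ) (b : k) : affP a b = gm (a : k) b 0 1 (by simp) := rfl

theorem affP_zero (a : kˣ) : affP a (0 : k) = tor a := rfl

@[fun_prop]
theorem DM.tor {f : X → kˣ} (hf : DM k f) : DM k (fun x => tor (f x)) := by
  have h : DM k (fun x => MRat.affP (f x) (0 : k)) := by fun_prop
  exact h.congr (fun x => affP_zero (f x))

section prod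
variable {G : Type} [Group G] [DT k G] [MulAction G X] [DAct k G X] [MulAction G Z] [DAct k G Z]

instance prodDAct : DAct k G (X × Z) where
  dm := by
    have h : DM k (fun p : G × (X × Z) => (p.1 • p.2.1, p.1 • p.2.2)) := by fun_prop
    exact h

theorem GSet.prod {s : Set X} (h : GSet k G s) {t : Set Z} (ht : GSet k G t) :
    GSet k G (s ×ˢ t) where
  ds := by
    have hs := h.ds
    have ht := ht.ds
    have h2 : DM k (fun p : X × Z => p.1 ∈ s ∧ p.2 ∈ t) := by fun_prop
    exact h2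
  st := fun g p hp => ⟨h.st g p.1 hp.1, ht.st g p.2 hp.2⟩

theorem GSet.univ : GSet k G (Set.univ : Set X) where
  ds := DM.const' True
  st := fun _ _ _ => trivial

private theorem QA_stab_dq {s : Set X} (h : GSet k G s) (z0 : Z) :
    DQ k s (fun x y => ∃ g : G, g • z0 = z0 ∧ g • x = y) where
  ds := h.ds
  dr := by
    have hs := h.ds
    have h1 : DM k (fun p : X × X => ∃ g : G, g • z0 = z0 ∧ g • p.1 = p.2) := by fun_prop
    exact DM.and (by fun_prop) (DM.and (by fun_prop) h1)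
  refl := fun x _ => ⟨1, one_smul _ _, one_smul _ _⟩
  symm := by
    rintro x _ y _ ⟨g, hg, rfl⟩
    refine ⟨g⁻¹, ?_, inv_smul_smul _ _⟩
    rw [inv_smul_eq_iff, hg]
  trans := by
    rintro x _ y _ z _ ⟨g, hg, rfl⟩ ⟨g', hg', rfl⟩
    refine ⟨g' * g, ?_, mul_smul _ _ _⟩
    rw [mul_smul, hg, hg']

/-- Orbits on the product with a transitive space. -/
theorem orb_transitive {s : Set X} (h : GSet k G s) {t : Set Z}
    (ht : GSet k G t) (z0 : Z) (hz0 : z0 ∈ t)
    (tr : ∀ z ∈ t, ∃ g : G, g • z0 = z) :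
    orb k G (s ×ˢ t) = clq k s (fun x y => ∃ g : G, g • z0 = z0 ∧ g • x = y) := by
  symm
  refine clq_map (QA_stab_dq h z0) (h.prod ht).dq (fun x => (x, z0)) (by fun_prop) ?_ ?_ ?_
  · intro x hx
    exact ⟨hx, hz0⟩
  · intro x _ y _
    constructor
    · rintro ⟨g, h1, h2⟩
      exact ⟨g, Prod.ext h2 h1⟩
    · rintro ⟨g, hg⟩
      exact ⟨g, congrArg Prod.snd hg, congrArg Prod.fst hg⟩
  · rintro ⟨y, z⟩ ⟨hy, hz⟩
    obtain ⟨g, hg⟩ := tr z hz
    refine ⟨g⁻¹ • y, h.st _ y hy, g, ?_⟩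
    exact Prod.ext (smul_inv_smul _ _) hg

/-- Additivity of orbit classes. -/
theorem orb_union {s t : Set X} (hs : GSet k G s) (ht : GSet k G t) (hd : Disjoint s t) :
    orb k G (s ∪ t) = orb k G s + orb k G t := by
  have h : GSet k G (s ∪ t) := by
    constructor
    · have h1 := hs.ds
      have h2 := ht.ds
      have h3 : DM k (fun x : X => x ∈ s ∨ x ∈ t) := by fun_prop
      exact h3
    · rintro g x (hx | hx)
      · exact Or.inl (hs.st g x hx)
      · exact Or.inr (ht.st g x hx)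
  refine clq_union h.dq hs.ds ht.ds (fun x hx hx' => Set.disjoint_left.1 hd hx hx') ?_
  rintro x hx y hy ⟨g, rfl⟩
  exact Set.disjoint_left.1 hd (hs.st g x hx) hy

end prod

variable [MulAction PGL(2, k) X] [DAct k PGL(2, k) X]

private theorem QA_swp_tor (a : kˣ) : swp k * tor a = tor a⁻¹ * swp k := by
  rw [← swp_tor, mul_assoc, swp_mul_self, mul_one]

theorem relN_dq {s : Set X} (h : GSet k PGL(2, k) s) : DQ k s (relN k) where
  ds := h.ds
  dr := by
    have hs := h.ds
    have h1 : DM k (fun p : X × X => ∃ a : kˣ, tor a • p.1 = p.2 ∨ (tor a * swp k) • p.1 = p.2) := by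
      fun_prop
    exact DM.and (by fun_prop) (DM.and (by fun_prop) h1)
  refl := fun x _ => ⟨1, Or.inl (by rw [tor_one, one_smul])⟩
  symm := by
    rintro x _ y _ ⟨a, rfl | rfl⟩
    · refine ⟨a⁻¹, Or.inl ?_⟩
      rw [← mul_smul, tor_mul, inv_mul_cancel, tor_one, one_smul]
    · refine ⟨a, Or.inr ?_⟩
      rw [← mul_smul, mul_assoc, ← mul_assoc (swp k), QA_swp_tor, mul_assoc (tor a⁻¹),
        swp_mul_self, mul_one, tor_mul, mul_inv_cancel, tor_one, one_smul]
  trans := by
    rintro x _ y _ z _ ⟨a, rfl | rfl⟩ ⟨b, rfl | rfl⟩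
    · refine ⟨b * a, Or.inl ?_⟩
      rw [← mul_smul, tor_mul]
    · refine ⟨b * a⁻¹, Or.inr ?_⟩
      rw [← mul_smul, mul_assoc, QA_swp_tor, ← mul_assoc, tor_mul]
    · refine ⟨b * a, Or.inr ?_⟩
      rw [← mul_smul, ← mul_assoc, tor_mul]
    · refine ⟨b * a⁻¹, Or.inl ?_⟩
      rw [← mul_smul, mul_assoc, ← mul_assoc (swp k), QA_swp_tor, mul_assoc (tor a⁻¹),
        swp_mul_self, mul_one, tor_mul]

theorem relC2_dq {s : Set X} (h : GSet k PGL(2, k) s) : DQ k s (relC2 k) where
  ds := h.ds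
  dr := by
    have hs := h.ds
    have h1 : DM k (fun p : X × X => p.1 = p.2 ∨ tor (-1 : kˣ) • p.1 = p.2) := by
      fun_prop
    exact DM.and (by fun_prop) (DM.and (by fun_prop) h1)
  refl := fun x _ => Or.inl rfl
  symm := by
    rintro x _ y _ (rfl | rfl)
    · exact Or.inl rfl
    · right
      rw [← mul_smul, tor_mul]
      simp [tor_one]
  trans := by
    rintro x _ y _ z _ (rfl | rfl) (rfl | rfl)
    · exact Or.inl rfl
    · exact Or.inr rfl
    · exact Or.inr rfl
    · left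
      rw [← mul_smul, tor_mul]
      simp [tor_one]

/-- The class of `s × P¹` modulo `PGL₂`. -/
theorem orb_P1 {s : Set X} (h : GSet k PGL(2, k) s) :
    orb k PGL(2, k) (s ×ˢ (Set.univ : Set (PL k))) = clq k s (relB k) := by
  rw [orb_transitive h GSet.univ (ptI k) trivial]
  · apply clq_congr
    intro x _ y _
    constructor
    · rintro ⟨g, h1, h2⟩
      obtain ⟨a, b, ha, rfl⟩ := fix_ptI h1
      exact ⟨Units.mk0 a ha, b, h2⟩
    · rintro ⟨a, b, hab⟩
      refine ⟨affP a b, ?_, hab⟩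
      rw [affP_eq_gm]
      exact gm_smul_ptI' _ rfl
  · intro z _
    by_cases hz : z = ptI k
    · exact ⟨1, by rw [one_smul, hz]⟩
    · obtain ⟨g, h1, -⟩ := trans_two hz
      exact ⟨g, h1⟩

/-- The class of `s × (P¹ × P¹ minus the diagonal)` modulo `PGL₂`. -/
theorem orb_P1_P1 {s : Set X} (h : GSet k PGL(2, k) s) :
    orb k PGL(2, k) (s ×ˢ {p : PL k × PL k | p.1 ≠ p.2}) = clq k s (relT k) := by
  have ht : GSet k PGL(2, k) {p : PL k × PL k | p.1 ≠ p.2} := by
    constructor
    · have h1 : DM k (fun p : PL k × PL k => p.1 ≠ p.2) := by fun_prop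
      exact h1
    · rintro g ⟨p, q⟩ hpq
      exact fun e => hpq (smul_left_cancel _ e)
  rw [orb_transitive h ht (ptI k, ptz 0) (ptz_ne_ptI 0).symm]
  · apply clq_congr
    intro x _ y _
    constructor
    · rintro ⟨g, h1, h2⟩
      obtain ⟨a, rfl⟩ := fix_pair (congrArg Prod.fst h1) (congrArg Prod.snd h1)
      exact ⟨a, h2⟩
    · rintro ⟨a, hab⟩
      refine ⟨tor a, Prod.ext (tor_smul_ptI a) ?_, hab⟩
      show tor a • ptz (0 : k) = ptz 0
      rw [tor_smul_ptz, mul_zero]
  · rintro ⟨p, q⟩ hpq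
    obtain ⟨g, h1, h2⟩ := trans_two hpq
    exact ⟨g, Prod.ext h1 h2⟩

theorem c2_cl {s : Set X} (h : GSet k PGL(2, k) s)
    (fin : ∀ x ∈ s, {g : PGL(2, k) | g • x = x}.Finite) : clq k s (relC2 k) = cl k s := by
  have hfin : ∀ x ∈ s, {c : kˣ | tor c • x = x}.Finite := by
    intro x hx
    refine Set.Finite.preimage (f := fun c : kˣ => tor c) ?_ (fin x hx)
    intro a _ b _ hab
    exact tor_inj.1 hab
  have e1 : cl k s = (L - 1) • clq k s (relT k) := by
    have hq := gm_lemma (r := fun x y : X => x = y) (DQ.eq h.ds) (fun c x => tor c • x) (by fun_prop)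
      (fun c x hx => h.st _ x hx)
      (fun x _ => by rw [tor_one, one_smul])
      (fun b c x _ => by rw [← mul_smul, tor_mul])
      (fun c x _ y _ hxy => by rw [hxy])
      hfin
    exact hq.2
  have hD : DMult k s (fun x y c => ∃ t : kˣ, tor t • x = y ∧ c = t ^ 2) := by
    refine ⟨h.ds, ?_, ?_, ?_, ?_, ?_⟩
    · have hs := h.ds
      have h1 : DM k (fun p : X × X × kˣ => ∃ t : kˣ, tor t • p.1 = p.2.1 ∧ p.2.2 = t ^ 2) := by
        fun_prop
      exact DM.and (by fun_prop) (DM.and (by fun_prop) h1)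
    · intro x _
      exact ⟨1, by rw [tor_one, one_smul], by simp⟩
    · rintro x _ y _ c ⟨t, rfl, rfl⟩
      refine ⟨t⁻¹, ?_, by simp⟩
      rw [← mul_smul, tor_mul, inv_mul_cancel, tor_one, one_smul]
    · rintro x _ y _ z _ c c' ⟨t, rfl, rfl⟩ ⟨t', rfl, rfl⟩
      refine ⟨t' * t, ?_, by rw [mul_pow]⟩
      rw [← mul_smul, tor_mul]
    · intro x hx
      refine ((hfin x hx).image (fun t : kˣ => t ^ 2)).subset ?_
      rintro c ⟨t, ht, rfl⟩
      exact ⟨t, ht, rfl⟩
  obtain ⟨h1, h2⟩ := line_DT_units hD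
  have e2 : clq k s (fun x y => ∃ c : kˣ, ∃ t : kˣ, tor t • x = y ∧ c = t ^ 2) =
      clq k s (relT k) := by
    apply clq_congr
    intro x _ y _
    constructor
    · rintro ⟨c, t, ht, -⟩
      exact ⟨t, ht⟩
    · rintro ⟨t, ht⟩
      exact ⟨t ^ 2, t, ht, rfl⟩
  rw [e1, ← e2, ← h2]
  refine clq_map (relC2_dq h) h1 (fun x => (x, 1)) (by fun_prop) ?_ ?_ ?_
  · intro x hx
    exact ⟨hx, trivial⟩
  · intro x _ y _
    constructor
    · rintro (rfl | rfl)
      · exact ⟨1, ⟨1, by rw [tor_one, one_smul], by simp⟩, by simp⟩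
      · exact ⟨1, ⟨-1, rfl, by simp⟩, by simp⟩
    · rintro ⟨c, ⟨t, ht, rfl⟩, hc⟩
      dsimp only at hc ht
      have h5 : t ^ 2 = 1 := by simpa using hc.symm
      have h6 : (t : k) ^ 2 = 1 := by
        have := congrArg (Units.val) h5
        simpa using this
      have h8 : ((t : k) - 1) * ((t : k) + 1) = 0 := by linear_combination h6
      rcases mul_eq_zero.1 h8 with h9 | h9
      · left
        have : t = 1 := Units.ext (sub_eq_zero.1 h9)
        rw [← ht, this, tor_one, one_smul]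
      · right
        have : t = -1 := Units.ext (by
          rw [Units.val_neg, Units.val_one]
          exact eq_neg_of_add_eq_zero_left h9)
        rw [← ht, this]
  · rintro ⟨y, v⟩ ⟨hy, -⟩
    obtain ⟨z, hz⟩ := IsAlgClosed.exists_pow_nat_eq (v : k) (n := 2) (by norm_num)
    have hz0 : z ≠ 0 := by
      rintro rfl
      simp at hz
      exact v.ne_zero hz.symm
    refine ⟨tor (Units.mk0 z hz0)⁻¹ • y, h.st _ y hy, v, ⟨Units.mk0 z hz0, ?_, ?_⟩, ?_⟩
    · show tor (Units.mk0 z hz0) • (tor (Units.mk0 z hz0)⁻¹ • y) = y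
      rw [← mul_smul, tor_mul, mul_inv_cancel, tor_one, one_smul]
    · apply Units.ext
      simp [hz]
    · simp

end

end

end Pool.Agent.MRat
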