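import Pool.Agent.Lib.MP_923aff_ag.RT
import Pool.Agent.Lib.MP_923aff_ag.QA
/-!
# JOB QB: binary quadratic and quartic forms by root types

`orb_form2`: pieces `p = q` (base point `∞, ∞`, stabiliser `relB`) and `p ≠ q` (base point `∞, 0`, stabiliser `relN`).
`orb_form4`: root types `4`, `31`, `22`, `211`, `1111` with base points `(∞,∞,∞,∞)`, `(∞,∞,∞,0)`, `(∞,∞,0,0)`,
`(∞,∞,1,-1)`; the stabiliser of the fourth one is `{1, z ↦ -z}` (`c2_cl`).
-/

set_option autoImplicit false

namespace Pool.Agent.MRat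

open scoped MatrixGroups LinearAlgebra.Projectivization

noncomputable section

variable {k : Type} [Field k] [IsAlgClosed k] [CharZero k]
variable {X Y Z W : Type} [DT k X] [DT k Y] [DT k Z] [DT k W]

/-- Forms of degree `n` with `n` different roots. -/
def Conf (k : Type) [Field k] [IsAlgClosed k] [CharZero k] (n : ℕ) : Set (ℙ k (Form k n)) :=
  {F | ∃ a : Fin n → PL k, Function.Injective a ∧ rootF a = F}

private theorem QB_image_gset {n : ℕ} {t : Set (Fin n → PL k)} (dt : DM k (fun a => a ∈ t))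
    (st : ∀ (g : PGL(2, k)), ∀ a ∈ t, (fun i => g • a i) ∈ t) :
    GSet k PGL(2, k) (rootF '' t) where
  ds := by
    have hr : DM k (rootF : (Fin n → PL k) → ℙ k (Form k n)) := rootF_dm
    have h1 : DM k (fun F : ℙ k (Form k n) => ∃ a : Fin n → PL k, a ∈ t ∧ rootF a = F) := by
      refine DM.ex (DM.and ?_ (DM.eq ?_ (by fun_prop)))
      · exact DM.comp (f := fun q : ℙ k (Form k n) × (Fin n → PL k) => q.2) dt (by fun_prop)
      · exact DM.comp (f := fun q : ℙ k (Form k n) × (Fin n → PL k) => q.2) hr (by fun_prop)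
    exact h1
  st := by
    rintro g _ ⟨a, ha, rfl⟩
    exact ⟨fun i => g • a i, st g a ha, (rootF_smul g a).symm⟩

theorem Conf_gset (n : ℕ) : GSet k PGL(2, k) (Conf k n) := by
  have h : Conf k n = rootF '' {a : Fin n → PL k | Function.Injective a} := rfl
  rw [h]
  refine QB_image_gset ?_ ?_
  · have h1 : DM k (fun a : Fin n → PL k => ∀ i j : Fin n, a i = a j → i = j) := by
      refine DM.fall (fun i => DM.fall (fun j => DM.imp (by fun_prop) (DM.const' _)))
    exact h1
  · intro g a ha i j hij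
    exact ha (smul_left_cancel g hij)

variable [MulAction PGL(2, k) X] [DAct k PGL(2, k) X]

/-- A set of forms given by a definable stable set of tuples. -/
theorem rootF_image_gset {n : ℕ} {t : Set (Fin n → PL k)} (dt : DM k (fun a => a ∈ t))
    (st : ∀ (g : PGL(2, k)), ∀ a ∈ t, (fun i => g • a i) ∈ t) :
    GSet k PGL(2, k) (rootF '' t) := QB_image_gset dt st

open Classical in
/-- The number of pairs of equal entries. -/
private def QB_N {n : ℕ} (a : Fin n → PL k) : ℕ := ∑ i, ∑ j, if a i = a j then 1 else 0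

private theorem QB_N_eq {n : ℕ} {a b : Fin n → PL k} (h : rootF a = rootF b) : QB_N a = QB_N b := by
  classical
  obtain ⟨σ, hσ⟩ := (rootF_eq a b).1 h
  unfold QB_N
  have h1 : ∀ i j, (if b i = b j then 1 else 0 : ℕ) = if a (σ i) = a (σ j) then 1 else 0 := by
    intro i j
    rw [hσ i, hσ j]
  simp only [h1]
  rw [Equiv.sum_comp σ (fun i => ∑ j, if a i = a (σ j) then 1 else 0)]
  refine Finset.sum_congr rfl (fun i _ => ?_)
  rw [Equiv.sum_comp σ (fun j => if a i = a j then 1 else 0)]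

private theorem QB_perm {n : ℕ} (a : Fin n → PL k) (σ : Equiv.Perm (Fin n)) :
    rootF a = rootF (fun i => a (σ i)) := (rootF_eq _ _).2 ⟨σ, fun _ => rfl⟩

private theorem QB_fix {n : ℕ} {b : Fin n → PL k} {g : PGL(2, k)} (h : g • rootF b = rootF b) :
    ∃ σ : Equiv.Perm (Fin n), ∀ i, b i = g • b (σ i) := by
  rw [rootF_smul] at h
  exact (rootF_eq _ _).1 h

private theorem QB_fix' {n : ℕ} {b : Fin n → PL k} {g : PGL(2, k)}
    (σ : Equiv.Perm (Fin n)) (h : ∀ i, b i = g • b (σ i)) : g • rootF b = rootF b := by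
  rw [rootF_smul]
  exact (rootF_eq _ _).2 ⟨σ, h⟩

private theorem QB_trans_one (p : PL k) : ∃ g : PGL(2, k), g • ptI k = p := by
  by_cases hz : p = ptI k
  · exact ⟨1, by rw [one_smul, hz]⟩
  · obtain ⟨g, h1, -⟩ := trans_two hz
    exact ⟨g, h1⟩

private theorem QB_affP_ptI (a : kˣ) (b : k) : affP a b • ptI k = ptI k := by
  rw [affP_eq_gm]
  exact gm_smul_ptI' _ rfl

/-- The piece with one root. -/
private theorem QB_const {s : Set X} (h : GSet k PGL(2, k) s) {n : ℕ} (hn : 0 < n)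
    {t : Set (Fin n → PL k)} (ht : GSet k PGL(2, k) (rootF '' t))
    (h1 : ∀ p : PL k, (fun _ => p) ∈ t) (h2 : ∀ a ∈ t, ∀ i, a i = a ⟨0, hn⟩) :
    orb k PGL(2, k) (s ×ˢ (rootF '' t)) = clq k s (relB k) := by
  rw [orb_transitive h ht (rootF (fun _ : Fin n => ptI k)) ⟨_, h1 _, rfl⟩]
  · apply clq_congr
    intro x _ y _
    constructor
    · rintro ⟨g, e1, e2⟩
      obtain ⟨σ, hσ⟩ := QB_fix e1
      obtain ⟨a, b, ha, rfl⟩ := fix_ptI (hσ ⟨0, hn⟩).symm
      exact ⟨Units.mk0 a ha, b, e2⟩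
    · rintro ⟨a, b, hab⟩
      exact ⟨affP a b, QB_fix' (Equiv.refl _) (fun _ => (QB_affP_ptI a b).symm), hab⟩
  · rintro _ ⟨a, ha, rfl⟩
    obtain ⟨g, hg⟩ := QB_trans_one (a ⟨0, hn⟩)
    refine ⟨g, ?_⟩
    rw [rootF_smul]
    congr 1
    funext i
    rw [hg, h2 a ha i]

private theorem QB_ne0 : ptI k ≠ ptz (0 : k) := (ptz_ne_ptI 0).symm

/-- The base tuple `(∞, 0)`. -/
private theorem QB_two {s : Set X} (h : GSet k PGL(2, k) s) :
    orb k PGL(2, k) (s ×ˢ (rootF '' {a : Fin 2 → PL k | a 0 ≠ a 1})) = clq k s (relN k) := by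
  have ht : GSet k PGL(2, k) (rootF '' {a : Fin 2 → PL k | a 0 ≠ a 1}) := by
    refine QB_image_gset ?_ ?_
    · have h1 : DM k (fun a : Fin 2 → PL k => a 0 ≠ a 1) := by fun_prop
      exact h1
    · intro g a ha e
      exact ha (smul_left_cancel g e)
  rw [orb_transitive h ht (rootF ![ptI k, ptz (0 : k)]) ⟨_, QB_ne0, rfl⟩]
  · apply clq_congr
    intro x _ y _
    constructor
    · rintro ⟨g, e1, e2⟩
      obtain ⟨σ, hσ⟩ := QB_fix e1
      have h0 := hσ 0
      have h1 := hσ 1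
      by_cases h3 : σ 0 = 0
      · have h4 : σ 1 = 1 := by
          have : σ 1 ≠ σ 0 := fun e => by simpa using σ.injective e
          omega
        rw [h3] at h0
        rw [h4] at h1
        obtain ⟨a, rfl⟩ := fix_pair h0.symm h1.symm
        exact ⟨a, Or.inl e2⟩
      · have h5 : σ 0 = 1 := by omega
        have h4 : σ 1 = 0 := by
          have : σ 1 ≠ σ 0 := fun e => by simpa using σ.injective e
          omega
        rw [h5] at h0
        rw [h4] at h1
        obtain ⟨a, rfl⟩ := swap_pair h1.symm h0.symm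
        exact ⟨a, Or.inr e2⟩
    · rintro ⟨a, hab | hab⟩
      · refine ⟨tor a, QB_fix' (Equiv.refl _) (fun i => ?_), hab⟩
        fin_cases i
        · exact (tor_smul_ptI a).symm
        · show ptz (0 : k) = tor a • ptz (0 : k)
          rw [tor_smul_ptz, mul_zero]
      · refine ⟨tor a * swp k, QB_fix' (Equiv.swap 0 1) (fun i => ?_), hab⟩
        fin_cases i
        · show ptI k = (tor a * swp k) • ptz (0 : k)
          rw [mul_smul, swp_smul_zero, tor_smul_ptI]
        · show ptz (0 : k) = (tor a * swp k) • ptI k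
          rw [mul_smul, swp_smul_ptI, tor_smul_ptz, mul_zero]
  · rintro _ ⟨a, ha, rfl⟩
    obtain ⟨g, hg1, hg2⟩ := trans_two ha
    refine ⟨g, ?_⟩
    rw [rootF_smul]
    congr 1
    funext i
    fin_cases i
    · exact hg1
    · exact hg2

theorem orb_form2 {s : Set X} (h : GSet k PGL(2, k) s) :
    orb k PGL(2, k) (s ×ˢ (Set.univ : Set (ℙ k (Form k 2)))) =
      clq k s (relB k) + clq k s (relN k) := by
  have hA : GSet k PGL(2, k) (rootF '' {a : Fin 2 → PL k | a 0 = a 1}) := by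
    refine QB_image_gset ?_ ?_
    · have h1 : DM k (fun a : Fin 2 → PL k => a 0 = a 1) := by fun_prop
      exact h1
    · intro g a ha
      exact congrArg (fun p => g • p) ha
  have hB : GSet k PGL(2, k) (rootF '' {a : Fin 2 → PL k | a 0 ≠ a 1}) := by
    refine QB_image_gset ?_ ?_
    · have h1 : DM k (fun a : Fin 2 → PL k => a 0 ≠ a 1) := by fun_prop
      exact h1
    · intro g a ha e
      exact ha (smul_left_cancel g e)
  have hu : (Set.univ : Set (ℙ k (Form k 2))) = (rootF '' {a : Fin 2 → PL k | a 0 = a 1}) ∪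
      (rootF '' {a : Fin 2 → PL k | a 0 ≠ a 1}) := by
    symm
    rw [Set.eq_univ_iff_forall]
    intro F
    obtain ⟨a, rfl⟩ := rootF_surj 2 F
    by_cases ha : a 0 = a 1
    · exact Or.inl ⟨a, ha, rfl⟩
    · exact Or.inr ⟨a, ha, rfl⟩
  have hd : Disjoint (rootF '' {a : Fin 2 → PL k | a 0 = a 1})
      (rootF '' {a : Fin 2 → PL k | a 0 ≠ a 1}) := by
    rw [Set.disjoint_left]
    rintro _ ⟨a, ha, rfl⟩ ⟨b, hb, hab⟩
    obtain ⟨σ, hσ⟩ := (rootF_eq _ _).1 hab
    have ha' : a 0 = a 1 := ha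
    rw [hσ 0, hσ 1] at ha'
    apply hb
    by_cases h3 : σ 0 = 0
    · have h4 : σ 1 = 1 := by
        have : σ 1 ≠ σ 0 := fun e => by simpa using σ.injective e
        omega
      rw [h3, h4] at ha'
      exact ha'
    · have h5 : σ 0 = 1 := by omega
      have h4 : σ 1 = 0 := by
        have : σ 1 ≠ σ 0 := fun e => by simpa using σ.injective e
        omega
      rw [h5, h4] at ha'
      exact ha'.symm
  rw [hu, Set.prod_union, orb_union (h.prod hA) (h.prod hB)
    (Set.disjoint_prod.2 (Or.inr hd)), QB_two h, QB_const h (by norm_num) hA]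
  · intro p
    rfl
  · intro a ha i
    fin_cases i
    · rfl
    · exact ha.symm

/-- The types of quadruples. -/
private def QB_T (k : Type) [Field k] : Fin 4 → Set (Fin 4 → PL k) :=
  ![{a | a 0 = a 1 ∧ a 0 = a 2 ∧ a 0 = a 3}, {a | a 0 = a 1 ∧ a 0 = a 2 ∧ a 0 ≠ a 3},
    {a | a 0 = a 1 ∧ a 2 = a 3 ∧ a 0 ≠ a 2}, {a | a 0 = a 1 ∧ a 0 ≠ a 2 ∧ a 0 ≠ a 3 ∧ a 2 ≠ a 3}]

private theorem QB_N0 {a : Fin 4 → PL k} (h : a ∈ QB_T k 0) : QB_N a = 16 := by
  obtain ⟨h1, h2, h3⟩ := h
  simp only [QB_N, Fin.sum_univ_four, ← h1, ← h2, ← h3, if_true]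
  norm_num

private theorem QB_N1 {a : Fin 4 → PL k} (h : a ∈ QB_T k 1) : QB_N a = 10 := by
  obtain ⟨h1, h2, h3⟩ := h
  simp only [QB_N, Fin.sum_univ_four, ← h1, ← h2, h3, Ne.symm h3, if_true, if_false]
  norm_num

private theorem QB_N2 {a : Fin 4 → PL k} (h : a ∈ QB_T k 2) : QB_N a = 8 := by
  obtain ⟨h1, h2, h3⟩ := h
  simp only [QB_N, Fin.sum_univ_four, ← h1, ← h2, h3, Ne.symm h3, if_true, if_false]
  norm_num

private theorem QB_N3 {a : Fin 4 → PL k} (h : a ∈ QB_T k 3) : QB_N a = 6 := by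
  obtain ⟨h1, h2, h3, h4⟩ := h
  simp only [QB_N, Fin.sum_univ_four, ← h1, h2, Ne.symm h2, h3, Ne.symm h3, h4, Ne.symm h4, if_true,
    if_false]
  norm_num

private theorem QB_N4 {a : Fin 4 → PL k} (h : Function.Injective a) : QB_N a = 4 := by
  have h1 : ∀ i j, a i = a j ↔ i = j := fun i j => h.eq_iff
  simp [QB_N, h1]

private theorem QB_perm4 : ∀ i j : Fin 4, i ≠ j → ∃ σ : Equiv.Perm (Fin 4), σ 0 = i ∧ σ 1 = j := by
  decide

private theorem QB_cover (a : Fin 4 → PL k) :
    rootF a ∈ rootF '' QB_T k 0 ∨ rootF a ∈ rootF '' QB_T k 1 ∨ rootF a ∈ rootF '' QB_T k 2 ∨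
      rootF a ∈ rootF '' QB_T k 3 ∨ rootF a ∈ Conf k 4 := by
  by_cases hinj : Function.Injective a
  · exact Or.inr (Or.inr (Or.inr (Or.inr ⟨a, hinj, rfl⟩)))
  · unfold Function.Injective at hinj
    push Not at hinj
    obtain ⟨i, j, hij, hne⟩ := hinj
    obtain ⟨σ, h0, h1⟩ := QB_perm4 i j hne
    rw [QB_perm a σ]
    set b : Fin 4 → PL k := fun i => a (σ i) with hb
    have hb0 : b 0 = b 1 := by simp only [hb, h0, h1]; exact hij
    by_cases h2 : b 0 = b 2
    · by_cases h3 : b 0 = b 3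
      · exact Or.inl ⟨b, ⟨hb0, h2, h3⟩, rfl⟩
      · exact Or.inr (Or.inl ⟨b, ⟨hb0, h2, h3⟩, rfl⟩)
    · by_cases h3 : b 0 = b 3
      · refine Or.inr (Or.inl ⟨fun i => b (Equiv.swap 2 3 i), ⟨?_, ?_, ?_⟩, (QB_perm b _).symm⟩)
        · exact hb0
        · exact h3
        · exact h2
      · by_cases h4 : b 2 = b 3
        · exact Or.inr (Or.inr (Or.inl ⟨b, ⟨hb0, h4, h2⟩, rfl⟩))
        · exact Or.inr (Or.inr (Or.inr (Or.inl ⟨b, ⟨hb0, h2, h3, h4⟩, rfl⟩)))

private theorem QB_T_gset (i : Fin 4) : GSet k PGL(2, k) (rootF '' QB_T k i) := by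
  refine QB_image_gset ?_ ?_
  · fin_cases i
    · have h1 : DM k (fun a : Fin 4 → PL k => a 0 = a 1 ∧ a 0 = a 2 ∧ a 0 = a 3) := by fun_prop
      exact h1
    · have h1 : DM k (fun a : Fin 4 → PL k => a 0 = a 1 ∧ a 0 = a 2 ∧ a 0 ≠ a 3) := by fun_prop
      exact h1
    · have h1 : DM k (fun a : Fin 4 → PL k => a 0 = a 1 ∧ a 2 = a 3 ∧ a 0 ≠ a 2) := by fun_prop
      exact h1
    · have h1 : DM k (fun a : Fin 4 → PL k => a 0 = a 1 ∧ a 0 ≠ a 2 ∧ a 0 ≠ a 3 ∧ a 2 ≠ a 3) := by
        fun_prop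
      exact h1
  · intro g a ha
    fin_cases i
    · obtain ⟨h1, h2, h3⟩ := ha
      exact ⟨congrArg (fun p => g • p) h1, congrArg (fun p => g • p) h2,
        congrArg (fun p => g • p) h3⟩
    · obtain ⟨h1, h2, h3⟩ := ha
      exact ⟨congrArg (fun p => g • p) h1, congrArg (fun p => g • p) h2,
        fun e => h3 (smul_left_cancel g e)⟩
    · obtain ⟨h1, h2, h3⟩ := ha
      exact ⟨congrArg (fun p => g • p) h1, congrArg (fun p => g • p) h2,
        fun e => h3 (smul_left_cancel g e)⟩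
    · obtain ⟨h1, h2, h3, h4⟩ := ha
      exact ⟨congrArg (fun p => g • p) h1, fun e => h2 (smul_left_cancel g e),
        fun e => h3 (smul_left_cancel g e), fun e => h4 (smul_left_cancel g e)⟩

private theorem QB_tor_zero (a : kˣ) : tor a • ptz (0 : k) = ptz 0 := by
  rw [tor_smul_ptz, mul_zero]

/-- Type `31`. -/
private theorem QB_31 {s : Set X} (h : GSet k PGL(2, k) s) :
    orb k PGL(2, k) (s ×ˢ (rootF '' QB_T k 1)) = clq k s (relT k) := by
  rw [orb_transitive h (QB_T_gset 1) (rootF ![ptI k, ptI k, ptI k, ptz (0 : k)])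
    ⟨_, ⟨rfl, rfl, QB_ne0⟩, rfl⟩]
  · apply clq_congr
    intro x _ y _
    constructor
    · rintro ⟨g, e1, e2⟩
      obtain ⟨σ, hσ⟩ := QB_fix e1
      have key : ∀ i : Fin 4, (![ptI k, ptI k, ptI k, ptz (0 : k)] : Fin 4 → PL k) i =
          if i = 3 then ptz (0 : k) else ptI k := by
        intro i
        fin_cases i <;> rfl
      simp only [key] at hσ
      have hI : g • ptI k = ptI k := by
        by_cases h3 : σ 0 = 3
        · have h4 : σ 1 ≠ 3 := fun e => by simpa using σ.injective (h3.trans e.symm)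
          have h5 := hσ 1
          rw [if_neg h4] at h5
          exact h5.symm
        · have h5 := hσ 0
          rw [if_neg h3] at h5
          exact h5.symm
      have h0 : g • ptz (0 : k) = ptz 0 := by
        have h5 := hσ 3
        by_cases h3 : σ 3 = 3
        · rw [if_pos h3] at h5
          exact h5.symm
        · rw [if_neg h3, hI] at h5
          exact absurd h5.symm QB_ne0
      obtain ⟨a, rfl⟩ := fix_pair hI h0
      exact ⟨a, e2⟩
    · rintro ⟨a, hab⟩
      refine ⟨tor a, QB_fix' (Equiv.refl _) (fun i => ?_), hab⟩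
      fin_cases i
      · exact (tor_smul_ptI a).symm
      · exact (tor_smul_ptI a).symm
      · exact (tor_smul_ptI a).symm
      · exact (QB_tor_zero a).symm
  · rintro _ ⟨a, ⟨h1, h2, h3⟩, rfl⟩
    obtain ⟨g, hg1, hg2⟩ := trans_two h3
    refine ⟨g, ?_⟩
    rw [rootF_smul]
    congr 1
    funext i
    fin_cases i
    · exact hg1
    · exact hg1.trans h1
    · exact hg1.trans h2
    · exact hg2

/-- Type `22`. -/
private theorem QB_22 {s : Set X} (h : GSet k PGL(2, k) s) :
    orb k PGL(2, k) (s ×ˢ (rootF '' QB_T k 2)) = clq k s (relN k) := by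
  rw [orb_transitive h (QB_T_gset 2) (rootF ![ptI k, ptI k, ptz (0 : k), ptz (0 : k)])
    ⟨_, ⟨rfl, rfl, QB_ne0⟩, rfl⟩]
  · apply clq_congr
    intro x _ y _
    constructor
    · rintro ⟨g, e1, e2⟩
      obtain ⟨σ, hσ⟩ := QB_fix e1
      have key : ∀ i : Fin 4, (![ptI k, ptI k, ptz (0 : k), ptz (0 : k)] : Fin 4 → PL k) i =
          if 2 ≤ i then ptz (0 : k) else ptI k := by
        intro i
        fin_cases i <;> rfl
      simp only [key] at hσ
      have h0 := hσ 0
      have h2 := hσ 2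
      simp only [Fin.isValue, show ¬ (2 : Fin 4) ≤ 0 by decide, if_false,
        show (2 : Fin 4) ≤ 2 by decide, if_true] at h0 h2
      by_cases h3 : 2 ≤ σ 0
      · rw [if_pos h3] at h0
        by_cases h4 : 2 ≤ σ 2
        · rw [if_pos h4, ← h0] at h2
          exact absurd h2.symm QB_ne0
        · rw [if_neg h4] at h2
          obtain ⟨a, rfl⟩ := swap_pair h2.symm h0.symm
          exact ⟨a, Or.inr e2⟩
      · rw [if_neg h3] at h0
        by_cases h4 : 2 ≤ σ 2
        · rw [if_pos h4] at h2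
          obtain ⟨a, rfl⟩ := fix_pair h0.symm h2.symm
          exact ⟨a, Or.inl e2⟩
        · rw [if_neg h4, ← h0] at h2
          exact absurd h2.symm QB_ne0
    · rintro ⟨a, hab | hab⟩
      · refine ⟨tor a, QB_fix' (Equiv.refl _) (fun i => ?_), hab⟩
        fin_cases i
        · exact (tor_smul_ptI a).symm
        · exact (tor_smul_ptI a).symm
        · exact (QB_tor_zero a).symm
        · exact (QB_tor_zero a).symm
      · have hs1 : (tor a * swp k) • ptz (0 : k) = ptI k := by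
          rw [mul_smul, swp_smul_zero, tor_smul_ptI]
        have hs2 : (tor a * swp k) • ptI k = ptz (0 : k) := by
          rw [mul_smul, swp_smul_ptI, QB_tor_zero]
        refine ⟨tor a * swp k, QB_fix' (Equiv.swap 0 2 * Equiv.swap 1 3) (fun i => ?_), hab⟩
        fin_cases i
        · exact hs1.symm
        · exact hs1.symm
        · exact hs2.symm
        · exact hs2.symm
  · rintro _ ⟨a, ⟨h1, h2, h3⟩, rfl⟩
    obtain ⟨g, hg1, hg2⟩ := trans_two h3
    refine ⟨g, ?_⟩
    rw [rootF_smul]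
    congr 1
    funext i
    fin_cases i
    · exact hg1
    · exact hg1.trans h1
    · exact hg2
    · exact hg2.trans h2

private theorem QB_one_ne : ptz (1 : k) ≠ ptz (-1 : k) := by
  rw [ne_eq, ptz_inj]
  intro e
  have h2 : (2 : k) = 0 := by linear_combination e
  exact two_ne_zero h2

private theorem QB_fix_pm {g : PGL(2, k)} (h : g • ptI k = ptI k)
    (h1 : g • ptz (1 : k) = ptz 1) (h2 : g • ptz (-1 : k) = ptz (-1)) : g = 1 := by
  obtain ⟨a, b, ha, rfl⟩ := fix_ptI h
  rw [gm_smul_ptz _ (by simp), ptz_inj] at h1 h2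
  simp only [mul_one, zero_add, div_one, mul_neg] at h1 h2
  have hb : b = 0 := by
    have : (2 : k) * b = 0 := by linear_combination h1 + h2
    simpa using this
  subst hb
  have ha1 : a = 1 := by simpa using h1
  subst ha1
  exact gm_one

private theorem QB_swap_pm {g : PGL(2, k)} (h : g • ptI k = ptI k)
    (h1 : g • ptz (1 : k) = ptz (-1)) (h2 : g • ptz (-1 : k) = ptz 1) : g = tor (-1) := by
  obtain ⟨a, b, ha, rfl⟩ := fix_ptI h
  rw [gm_smul_ptz _ (by simp), ptz_inj] at h1 h2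
  simp only [mul_one, zero_add, div_one, mul_neg] at h1 h2
  have hb : b = 0 := by
    have : (2 : k) * b = 0 := by linear_combination h1 + h2
    simpa using this
  subst hb
  have ha1 : a = -1 := by simpa using h1
  subst ha1
  unfold tor
  congr 1

/-- Type `211`. -/
private theorem QB_211 {s : Set X} (h : GSet k PGL(2, k) s) :
    orb k PGL(2, k) (s ×ˢ (rootF '' QB_T k 3)) = clq k s (relC2 k) := by
  have hz1 : ptI k ≠ ptz (1 : k) := (ptz_ne_ptI 1).symm
  have hz2 : ptI k ≠ ptz (-1 : k) := (ptz_ne_ptI (-1)).symm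
  rw [orb_transitive h (QB_T_gset 3) (rootF ![ptI k, ptI k, ptz (1 : k), ptz (-1 : k)])
    ⟨_, ⟨rfl, hz1, hz2, QB_one_ne⟩, rfl⟩]
  · apply clq_congr
    intro x _ y _
    constructor
    · rintro ⟨g, e1, e2⟩
      obtain ⟨σ, hσ⟩ := QB_fix e1
      set b : Fin 4 → PL k := ![ptI k, ptI k, ptz (1 : k), ptz (-1 : k)] with hb
      have b0 : b 0 = ptI k := rfl
      have b1 : b 1 = ptI k := rfl
      have b2 : b 2 = ptz (1 : k) := rfl
      have b3 : b 3 = ptz (-1 : k) := rfl
      have hcase : ∀ i, b i = ptI k ∨ b i = ptz (1 : k) ∨ b i = ptz (-1 : k) := by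
        intro i
        fin_cases i
        · exact Or.inl rfl
        · exact Or.inl rfl
        · exact Or.inr (Or.inl rfl)
        · exact Or.inr (Or.inr rfl)
      have hinj : ∀ i j, b i = b j → b i ≠ ptI k → i = j := by
        intro i j
        fin_cases i <;> fin_cases j <;> simp [hb, QB_one_ne, QB_one_ne.symm, ptz_ne_ptI,
          hz1, hz2]
      have h0 := hσ 0
      have h1 := hσ 1
      have h2 := hσ 2
      have h3 := hσ 3
      rw [b0] at h0
      rw [b1] at h1
      rw [b2] at h2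
      rw [b3] at h3
      have hI : g • ptI k = ptI k := by
        by_cases h4 : b (σ 0) = ptI k
        · rw [h4] at h0
          exact h0.symm
        · exfalso
          have h5 : b (σ 0) = b (σ 1) := smul_left_cancel g (h0.symm.trans h1)
          have h6 := hinj _ _ h5 h4
          have h7 := σ.injective h6
          simp at h7
      rcases hcase (σ 2) with h4 | h4 | h4
      · rw [h4, hI] at h2
        exact absurd h2.symm hz1
      · rw [h4] at h2
        rcases hcase (σ 3) with h5 | h5 | h5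
        · rw [h5, hI] at h3
          exact absurd h3.symm hz2
        · rw [h5, ← h2] at h3
          exact absurd h3.symm QB_one_ne
        · rw [h5] at h3
          have := QB_fix_pm hI h2.symm h3.symm
          left
          rw [← e2, this, one_smul]
      · rw [h4] at h2
        rcases hcase (σ 3) with h5 | h5 | h5
        · rw [h5, hI] at h3
          exact absurd h3.symm hz2
        · rw [h5] at h3
          have := QB_swap_pm hI h3.symm h2.symm
          right
          rw [← e2, this]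
        · rw [h5, ← h2] at h3
          exact absurd h3.symm QB_one_ne
    · rintro (rfl | hab)
      · exact ⟨1, one_smul _ _, one_smul _ _⟩
      · refine ⟨tor (-1), QB_fix' (Equiv.swap 2 3) (fun i => ?_), hab⟩
        fin_cases i
        · exact (tor_smul_ptI _).symm
        · exact (tor_smul_ptI _).symm
        · show ptz (1 : k) = tor (-1) • ptz (-1 : k)
          rw [tor_smul_ptz]
          simp
        · show ptz (-1 : k) = tor (-1) • ptz (1 : k)
          rw [tor_smul_ptz]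
          simp
  · rintro _ ⟨a, ⟨h1, h2, h3, h4⟩, rfl⟩
    obtain ⟨g, hg1, hg2, hg3⟩ := trans_three h2 h3 h4
    obtain ⟨g', hg1', hg2', hg3'⟩ := trans_three hz1 hz2 QB_one_ne
    have e1 : g'⁻¹ • ptI k = ptI k := by rw [inv_smul_eq_iff, hg1']
    have e2 : g'⁻¹ • ptz (1 : k) = ptz 0 := by rw [inv_smul_eq_iff, hg2']
    have e3 : g'⁻¹ • ptz (-1 : k) = ptz 1 := by rw [inv_smul_eq_iff, hg3']
    refine ⟨g * g'⁻¹, ?_⟩
    rw [rootF_smul]
    congr 1
    funext i
    fin_cases i
    · show (g * g'⁻¹) • ptI k = a 0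
      rw [mul_smul, e1, hg1]
    · show (g * g'⁻¹) • ptI k = a 1
      rw [mul_smul, e1, hg1, h1]
    · show (g * g'⁻¹) • ptz (1 : k) = a 2
      rw [mul_smul, e2, hg2]
    · show (g * g'⁻¹) • ptz (-1 : k) = a 3
      rw [mul_smul, e3, hg3]

private theorem QB_disj {t t' : Set (Fin 4 → PL k)} (m m' : ℕ) (h : ∀ a ∈ t, QB_N a = m)
    (h' : ∀ a ∈ t', QB_N a = m') (hm : m ≠ m') :
    Disjoint (rootF '' t) (rootF '' t') := by
  rw [Set.disjoint_left]
  rintro _ ⟨a, ha, rfl⟩ ⟨b, hb, hab⟩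
  have h1 := QB_N_eq hab
  rw [h a ha, h' b hb] at h1
  exact hm h1.symm

theorem orb_form4 {s : Set X} (h : GSet k PGL(2, k) s)
    (fin : ∀ x ∈ s, {g : PGL(2, k) | g • x = x}.Finite) :
    orb k PGL(2, k) (s ×ˢ (Set.univ : Set (ℙ k (Form k 4)))) =
      clq k s (relB k) + clq k s (relT k) + clq k s (relN k) + cl k s +
        orb k PGL(2, k) (s ×ˢ Conf k 4) := by
  have hC : Conf k 4 = rootF '' {a : Fin 4 → PL k | Function.Injective a} := rfl
  have hu : (Set.univ : Set (ℙ k (Form k 4))) = (((rootF '' QB_T k 0 ∪ rootF '' QB_T k 1) ∪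
      rootF '' QB_T k 2) ∪ rootF '' QB_T k 3) ∪ Conf k 4 := by
    symm
    rw [Set.eq_univ_iff_forall]
    intro F
    obtain ⟨a, rfl⟩ := rootF_surj 4 F
    rcases QB_cover a with h | h | h | h | h
    · exact Or.inl (Or.inl (Or.inl (Or.inl h)))
    · exact Or.inl (Or.inl (Or.inl (Or.inr h)))
    · exact Or.inl (Or.inl (Or.inr h))
    · exact Or.inl (Or.inr h)
    · exact Or.inr h
  have n0 : ∀ a ∈ QB_T k 0, QB_N a = 16 := fun a => QB_N0
  have n1 : ∀ a ∈ QB_T k 1, QB_N a = 10 := fun a => QB_N1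
  have n2 : ∀ a ∈ QB_T k 2, QB_N a = 8 := fun a => QB_N2
  have n3 : ∀ a ∈ QB_T k 3, QB_N a = 6 := fun a => QB_N3
  have n4 : ∀ a ∈ {a : Fin 4 → PL k | Function.Injective a}, QB_N a = 4 := fun a => QB_N4
  have g0 := h.prod (QB_T_gset (k := k) 0)
  have g1 := h.prod (QB_T_gset (k := k) 1)
  have g2 := h.prod (QB_T_gset (k := k) 2)
  have g3 := h.prod (QB_T_gset (k := k) 3)
  have g4 := h.prod (Conf_gset (k := k) 4)
  have gun : ∀ {u v : Set (X × ℙ k (Form k 4))}, GSet k PGL(2, k) u → GSet k PGL(2, k) v →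
      GSet k PGL(2, k) (u ∪ v) := by
    intro u v hu hv
    constructor
    · have h1 := hu.ds
      have h2 := hv.ds
      have h3 : DM k (fun x : X × ℙ k (Form k 4) => x ∈ u ∨ x ∈ v) := by fun_prop
      exact h3
    · rintro g x (hx | hx)
      · exact Or.inl (hu.st g x hx)
      · exact Or.inr (hv.st g x hx)
  have d01 := QB_disj 16 10 n0 n1 (by norm_num)
  have d02 := QB_disj 16 8 n0 n2 (by norm_num)
  have d12 := QB_disj 10 8 n1 n2 (by norm_num)
  have d03 := QB_disj 16 6 n0 n3 (by norm_num)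
  have d13 := QB_disj 10 6 n1 n3 (by norm_num)
  have d23 := QB_disj 8 6 n2 n3 (by norm_num)
  have d04 := QB_disj 16 4 n0 n4 (by norm_num)
  have d14 := QB_disj 10 4 n1 n4 (by norm_num)
  have d24 := QB_disj 8 4 n2 n4 (by norm_num)
  have d34 := QB_disj 6 4 n3 n4 (by norm_num)
  have pd : ∀ {u v : Set (ℙ k (Form k 4))}, Disjoint u v → Disjoint (s ×ˢ u) (s ×ˢ v) :=
    fun hd => Set.disjoint_prod.2 (Or.inr hd)
  rw [hu, Set.prod_union, Set.prod_union, Set.prod_union, Set.prod_union,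
    orb_union (gun (gun (gun g0 g1) g2) g3) g4, orb_union (gun (gun g0 g1) g2) g3,
    orb_union (gun g0 g1) g2, orb_union g0 g1 (pd d01), QB_31 h, QB_22 h, QB_211 h, c2_cl h fin,
    QB_const h (by norm_num) (QB_T_gset 0)]
  · intro p
    exact ⟨rfl, rfl, rfl⟩
  · rintro a ⟨h1, h2, h3⟩ i
    fin_cases i
    · rfl
    · exact h1.symm
    · exact h2.symm
    · exact h3.symm
  · exact Set.disjoint_union_left.2 ⟨pd d02, pd d12⟩
  · exact Set.disjoint_union_left.2 ⟨Set.disjoint_union_left.2 ⟨pd d03, pd d13⟩, pd d23⟩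
  · rw [hC]
    exact Set.disjoint_union_left.2 ⟨Set.disjoint_union_left.2
      ⟨Set.disjoint_union_left.2 ⟨pd d04, pd d14⟩, pd d24⟩, pd d34⟩

end

end Pool.Agent.MRat
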