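import Pool.Agent.Lib.MP_923aff_ag.PC
/-!
# Final computations in a module over `ℤ[L]`
-/

set_option autoImplicit false

namespace Pool.Agent.MRat

open Polynomial

section
variable {M : Type*} [AddCommGroup M] [Module (Polynomial ℤ) M]

/-- The polynomial class of the space of rational maps of degree `e`. -/
noncomputable def ratPoly (e : ℕ) : Polynomial ℤ :=
  if e = 0 then 1 + L else L ^ (2 * e + 1) - L ^ (2 * e - 1)

theorem br_two : br 2 = 1 + L := by
  simp [br, Finset.sum_range_succ]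

theorem br_three : br 3 = 1 + L + L ^ 2 := by
  simp [br, Finset.sum_range_succ]

theorem br_five : br 5 = 1 + L + L ^ 2 + L ^ 3 + L ^ 4 := by
  simp [br, Finset.sum_range_succ]

theorem br_succ (n : ℕ) : br (n + 1) = br n + L ^ n := by
  simp [br, Finset.sum_range_succ]

theorem br_mul (n : ℕ) : (L - 1) * br n = L ^ n - 1 := by
  unfold br
  exact mul_geom_sum L n

/-- Even degree. -/
theorem final_even {d : ℕ} (hd : 1 ≤ d) {p Q QB QN QU : M} (h1 : br 2 • Q = QB)
    (h2 : br 3 • Q = QB + QN) (h3 : QU = (L - 1) • QB)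
    (h4 : QU = (L ^ (2 * d) - L ^ (2 * d - 2)) • p) (h5 : QN = (L ^ (2 * d)) • p) :
    Q = (L ^ (2 * d - 2)) • p := by
  have e1 : Q = br 3 • Q - L • br 2 • Q := by
    rw [smul_smul, ← sub_smul, br_two, br_three]
    have : (1 + L + L ^ 2 - L * (1 + L) : Polynomial ℤ) = 1 := by ring
    rw [this, one_smul]
  have e2 : Q = QN - QU := by
    rw [e1, h1, h2, h3, sub_smul, one_smul]
    abel
  rw [e2, h4, h5, ← sub_smul]
  congr 1
  ring

/-- The class of quadruples of points, even degree. -/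
theorem q4_even {d : ℕ} (hd : 1 ≤ d) {p Q QB QT QN X q4 : M} (h1 : br 2 • Q = QB)
    (h5 : QN = (L ^ (2 * d)) • p) (hQ : Q = (L ^ (2 * d - 2)) • p) (hT : QT = L • QB)
    (hX : X = (L ^ (2 * d + 1) - L ^ (2 * d - 1)) • p)
    (h6 : br 5 • Q = QB + QT + QN + X + q4) :
    q4 = (L * ratPoly d) • p := by
  have e : q4 = br 5 • Q - QB - QT - QN - X := by
    rw [h6]; abel
  obtain ⟨m, rfl⟩ : ∃ m, d = m + 1 := ⟨d - 1, by omega⟩
  rw [e, hT, ← h1, hQ, h5, hX, smul_smul, smul_smul, smul_smul, ← sub_smul, ← sub_smul, ← sub_smul,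
    ← sub_smul]
  congr 1
  have a1 : 2 * (m + 1) - 2 = 2 * m := by omega
  have a2 : 2 * (m + 1) - 1 = 2 * m + 1 := by omega
  rw [br_five, br_two, ratPoly, if_neg (by omega), a1, a2]
  ring

/-- Odd degree. -/
theorem final_odd {d : ℕ} (hd : 1 ≤ d) {p Q QB QT QN QU X q4 : M}
    (h2 : br 3 • Q = QB + QN) (h3 : QU = (L - 1) • QB)
    (h4 : QU = (L ^ (2 * d) - L ^ (2 * d - 2)) • p) (h5 : QN = (L ^ (2 * d)) • p)
    (hT : QT = L • QB) (hX : X = (L ^ (2 * d + 1) - L ^ (2 * d - 1)) • p)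
    (h6 : br 5 • Q = QB + QT + QN + X + q4) (h7 : q4 = (L * ratPoly d) • p) :
    Q = (L ^ (2 * d - 2)) • p := by
  have e1 : Q = (1 + L ^ 3) • br 3 • Q - L • br 5 • Q := by
    rw [smul_smul, smul_smul, ← sub_smul, br_five, br_three]
    have : ((1 + L ^ 3) * (1 + L + L ^ 2) - L * (1 + L + L ^ 2 + L ^ 3 + L ^ 4) :
      Polynomial ℤ) = 1 := by ring
    rw [this, one_smul]
  obtain ⟨m, rfl⟩ : ∃ m, d = m + 1 := ⟨d - 1, by omega⟩
  have a1 : 2 * (m + 1) - 2 = 2 * m := by omega
  have a2 : 2 * (m + 1) - 1 = 2 * m + 1 := by omega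
  have hX' : X = L • QU := by
    rw [hX, h4, smul_smul]
    congr 1
    rw [a1, a2]
    ring
  have e2 : Q = (1 - L + L ^ 3) • QN - QU - L • q4 := by
    rw [e1, h2, h6, hT, hX', h3]
    module
  rw [e2, h5, h4, h7, smul_smul, smul_smul, ← sub_smul, ← sub_smul]
  congr 1
  rw [ratPoly, if_neg (by omega), a1, a2]
  ring

theorem pow_ratPoly (d : ℕ) :
    ∑ g ∈ Finset.range (d + 1), L ^ g * ratPoly (d - g) = L ^ (2 * d) + L ^ (2 * d + 1) := by
  induction d with
  | zero => simp [ratPoly]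
  | succ d ih =>
    rw [Finset.sum_range_succ']
    have h1 : ∀ g ∈ Finset.range (d + 1), L ^ (g + 1) * ratPoly (d + 1 - (g + 1)) =
        L * (L ^ g * ratPoly (d - g)) := by
      intro g _
      rw [Nat.add_sub_add_right]
      ring
    rw [Finset.sum_congr rfl h1, ← Finset.mul_sum, ih, ratPoly, if_neg (by omega)]
    have a2 : 2 * (d + 1 - 0) - 1 = 2 * d + 1 := by omega
    have a3 : 2 * (d + 1 - 0) + 1 = 2 * d + 3 := by omega
    rw [a2, a3]
    ring

/-- `[2 d + 2] = ∑ g, [g + 1] [Rat_(d - g)]`. -/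
theorem br_ratPoly (d : ℕ) :
    ∑ g ∈ Finset.range (d + 1), br (g + 1) * ratPoly (d - g) = br (2 * d + 2) := by
  induction d with
  | zero => simp [ratPoly, br, Finset.sum_range_succ]
  | succ d ih =>
    have h0 : ∀ g ∈ Finset.range (d + 1 + 1), br (g + 1) * ratPoly (d + 1 - g) =
        br g * ratPoly (d + 1 - g) + L ^ g * ratPoly (d + 1 - g) := by
      intro g _
      rw [br_succ]
      ring
    rw [Finset.sum_congr rfl h0, Finset.sum_add_distrib, pow_ratPoly, Finset.sum_range_succ']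
    have h1 : ∀ g ∈ Finset.range (d + 1), br (g + 1) * ratPoly (d + 1 - (g + 1)) =
        br (g + 1) * ratPoly (d - g) := by
      intro g _
      rw [Nat.add_sub_add_right]
    rw [Finset.sum_congr rfl h1, ih]
    have h2 : br 0 = 0 := by simp [br]
    have h3 : 2 * (d + 1) + 2 = 2 * d + 2 + 1 + 1 := by ring
    rw [h2, h3, br_succ (2 * d + 2 + 1), br_succ (2 * d + 2)]
    ring

/-- The recursion for quadruples. -/
theorem q4_rec {p : M} (q4 : ℕ → M) (hev : ∀ e, Even e → q4 e = (L * ratPoly e) • p)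
    (hodd : ∀ d, Odd d → ∑ g ∈ Finset.range (d + 1), br (g + 1) • q4 (d - g) =
      (br (2 * d + 2) * L) • p) (d : ℕ) : q4 d = (L * ratPoly d) • p := by
  induction d using Nat.strong_induction_on with
  | _ d ih =>
    rcases Nat.even_or_odd d with he | ho
    · exact hev d he
    · have h := hodd d ho
      rw [Finset.sum_range_succ'] at h
      have h2 := br_ratPoly d
      rw [Finset.sum_range_succ'] at h2
      have h3 : ∑ g ∈ Finset.range d, br (g + 1 + 1) • q4 (d - (g + 1)) =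
          (L * ∑ g ∈ Finset.range d, br (g + 1 + 1) * ratPoly (d - (g + 1))) • p := by
        rw [Finset.mul_sum, Finset.sum_smul]
        refine Finset.sum_congr rfl fun g hg => ?_
        rw [Finset.mem_range] at hg
        rw [ih (d - (g + 1)) (by omega), smul_smul]
        congr 1
        ring
      have h4 : br (0 + 1) = 1 := by simp [br]
      rw [h3, h4, one_smul, Nat.sub_zero] at h
      rw [h4, one_mul, Nat.sub_zero] at h2
      have h5 : q4 d = (br (2 * d + 2) * L) • p -
          (L * ∑ g ∈ Finset.range d, br (g + 1 + 1) * ratPoly (d - (g + 1))) • p := by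
        rw [← h]; abel
      rw [h5, ← sub_smul, ← h2]
      congr 1
      ring

end

end Pool.Agent.MRat
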