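import Pool.Agent.Lib.MP_923aff_ag.QB
import Pool.Agent.Lib.MP_923aff_ag.GCD
/-!
# JOB QG1: the gcd decomposition of orbits

Pieces `{(x, p) : p = pmul q r, q ∈ P(Form g), r ∈ Rat_(d - g)}`, disjoint and covering by `gcd_exists`,
`gcd_deg`; `clq_sum`, `clq_map` along `((r, x), q) ↦ (x, pmul q r)`, injective by `gcd_inj`, equivariant by `pmul_smul`.
-/

set_option autoImplicit false

namespace Pool.Agent.MRat

open scoped MatrixGroups LinearAlgebra.Projectivization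

section
variable {k : Type} [Field k] [IsAlgClosed k] [CharZero k]
variable {X Y Z W : Type} [DT k X] [DT k Y] [DT k Z] [DT k W]

/-- Equivariant bijections. -/
theorem orb_congr {G : Type} [Group G] [DT k G] [MulAction G X] [DAct k G X] [MulAction G Y]
    [DAct k G Y] {s : Set X} {t : Set Y} (hs : GSet k G s) (ht : GSet k G t) (f : X → Y)
    (hf : DM k f) (hb : Set.BijOn f s t) (he : ∀ g : G, ∀ x ∈ s, f (g • x) = g • f x) :
    orb k G s = orb k G t := by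
  refine clq_map hs.dq ht.dq f hf hb.mapsTo ?_ ?_
  · intro x hx y hy
    constructor
    · rintro ⟨g, rfl⟩
      exact ⟨g, (he g x hx).symm⟩
    · rintro ⟨g, hg⟩
      refine ⟨g, hb.injOn (hs.st g x hx) hy ?_⟩
      rw [he g x hx, hg]
  · intro y hy
    obtain ⟨x, hx, hxy⟩ := hb.surjOn hy
    exact ⟨x, hx, 1, by rw [one_smul, hxy]⟩

variable [MulAction PGL(2, k) X] [DAct k PGL(2, k) X]

private theorem QG1_piece {s : Set X} (h : GSet k PGL(2, k) s) {d g : ℕ} (hg : g + (d - g) = d)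
    {A : Set (X × ℙ k (SM k d))} (dA : DM k (fun p => p ∈ A))
    (hA : ∀ p, p ∈ A ↔ ∃ q : ℙ k (Form k g), ∃ r : ℙ k (SM k (d - g)),
      r ∈ RatP k (d - g) ∧ pmul hg q r = p.2) :
    clq k ((s ×ˢ (Set.univ : Set (ℙ k (SM k d)))) ∩ A) (orel PGL(2, k)) =
      orb k PGL(2, k) ((RatP k (d - g) ×ˢ s) ×ˢ (Set.univ : Set (ℙ k (Form k g)))) := by
  have hS : GSet k PGL(2, k) ((s ×ˢ (Set.univ : Set (ℙ k (SM k d)))) ∩ A) := by
    constructor
    · have h1 := (h.prod (GSet.univ (k := k) (G := PGL(2, k)) (X := ℙ k (SM k d)))).ds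
      exact DM.and h1 dA
    · rintro γ ⟨x, p⟩ ⟨⟨hx, -⟩, hp⟩
      obtain ⟨q, r, hr, hqr⟩ := (hA _).1 hp
      refine ⟨⟨h.st γ x hx, trivial⟩, (hA _).2 ⟨γ • q, γ • r, (RatP_gset _).st γ r hr, ?_⟩⟩
      have hqr' : pmul hg q r = p := hqr
      show pmul hg (γ • q) (γ • r) = γ • p
      rw [← hqr', pmul_smul]
  have hT : GSet k PGL(2, k) ((RatP k (d - g) ×ˢ s) ×ˢ (Set.univ : Set (ℙ k (Form k g)))) :=
    ((RatP_gset (k := k) (d - g)).prod h).prod GSet.univ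
  symm
  refine orb_congr hT hS (fun y => (y.1.2, pmul hg y.2 y.1.1)) (by fun_prop) ?_ ?_
  · refine ⟨?_, ?_, ?_⟩
    · rintro ⟨⟨r, x⟩, q⟩ ⟨⟨hr, hx⟩, -⟩
      exact ⟨⟨hx, trivial⟩, (hA _).2 ⟨q, r, hr, rfl⟩⟩
    · rintro ⟨⟨r, x⟩, q⟩ ⟨⟨hr, hx⟩, -⟩ ⟨⟨r', x'⟩, q'⟩ ⟨⟨hr', hx'⟩, -⟩ heq
      have h1 : x = x' := congrArg Prod.fst heq
      have h2 : pmul hg q r = pmul hg q' r' := congrArg Prod.snd heq
      obtain ⟨h3, h4⟩ := gcd_inj hg hr hr' h2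
      subst h1 h3 h4
      rfl
    · rintro ⟨x, p⟩ ⟨⟨hx, -⟩, hp⟩
      obtain ⟨q, r, hr, hqr⟩ := (hA _).1 hp
      exact ⟨((r, x), q), ⟨⟨hr, hx⟩, trivial⟩, Prod.ext rfl hqr⟩
  · rintro γ ⟨⟨r, x⟩, q⟩ -
    refine Prod.ext rfl ?_
    show pmul hg (γ • q) (γ • r) = γ • pmul hg q r
    rw [pmul_smul]

theorem gcd_orb {s : Set X} (h : GSet k PGL(2, k) s) (d : ℕ) :
    orb k PGL(2, k) (s ×ˢ (Set.univ : Set (ℙ k (SM k d)))) =
      ∑ g ∈ Finset.range (d + 1),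
        orb k PGL(2, k) ((RatP k (d - g) ×ˢ s) ×ˢ (Set.univ : Set (ℙ k (Form k g)))) := by
  have hS := h.prod (GSet.univ (k := k) (G := PGL(2, k)) (X := ℙ k (SM k d)))
  let A : ℕ → Set (X × ℙ k (SM k d)) := fun g => {p | ∃ hg : g + (d - g) = d,
    ∃ q : ℙ k (Form k g), ∃ r : ℙ k (SM k (d - g)), r ∈ RatP k (d - g) ∧ pmul hg q r = p.2}
  have dA : ∀ g ∈ Finset.range (d + 1), DM k (fun p => p ∈ A g) := by
    intro g hg
    have hg' : g + (d - g) = d := by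
      have := Finset.mem_range.1 hg
      omega
    have h0 := (RatP_gset (k := k) (d - g)).ds
    have h1 : DM k (fun p : X × ℙ k (SM k d) => ∃ q : ℙ k (Form k g), ∃ r : ℙ k (SM k (d - g)),
        r ∈ RatP k (d - g) ∧ pmul hg' q r = p.2) := by fun_prop
    exact h1.congr_iff fun p => ⟨fun hp => ⟨hg', hp⟩, fun ⟨_, hp⟩ => hp⟩
  have hcov : ∀ p ∈ s ×ˢ (Set.univ : Set (ℙ k (SM k d))), ∃ g ∈ Finset.range (d + 1), p ∈ A g := by
    rintro ⟨x, p⟩ -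
    obtain ⟨g, e, hge, q, r, hr, hp⟩ := gcd_exists p
    obtain rfl : e = d - g := by omega
    exact ⟨g, Finset.mem_range.2 (by omega), hge, q, r, hr, hp⟩
  have hdis : ∀ i ∈ Finset.range (d + 1), ∀ j ∈ Finset.range (d + 1),
      ∀ p ∈ s ×ˢ (Set.univ : Set (ℙ k (SM k d))), ∀ p' ∈ s ×ˢ (Set.univ : Set (ℙ k (SM k d))),
      orel PGL(2, k) p p' → p ∈ A i → p' ∈ A j → i = j := by
    rintro i - j - ⟨x, p⟩ - ⟨x', p'⟩ - ⟨γ, hγ⟩ ⟨hi, q, r, hr, hqr⟩ ⟨hj, q', r', hr', hqr'⟩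
    have h1 : γ • p = p' := congrArg Prod.snd hγ
    have h2 : pmul hi q r = p := hqr
    have h3 : pmul hj q' r' = p' := hqr'
    have h4 : pmul hi (γ • q) (γ • r) = pmul hj q' r' := by
      rw [← pmul_smul, h2, h1, h3]
    exact gcd_deg hi hj ((RatP_gset _).st γ r hr) hr' h4
  show clq k (s ×ˢ (Set.univ : Set (ℙ k (SM k d)))) (orel PGL(2, k)) = _
  rw [clq_sum (Finset.range (d + 1)) hS.dq A dA hcov hdis]
  refine Finset.sum_congr rfl fun g hg => ?_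
  have hg' : g + (d - g) = d := by
    have := Finset.mem_range.1 hg
    omega
  exact QG1_piece h hg' (dA g hg) fun p => ⟨fun ⟨_, hp⟩ => hp, fun hp => ⟨hg', hp⟩⟩

end

end Pool.Agent.MRat
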