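import Pool.Agent.Lib.MP_923aff_ag.UB
/-!
# JOB UC: translation orbits of monic pairs

`tra b (P, Q) = (P (z - b) + b Q (z - b), Q (z - b))`: conjugation of `P / Q` by the translation by `b`.
`QQ_U`: pieces by the degree `j` of `Q` (`j = 0` means that `Q` is constant, possibly `0`). For `j ≥ 1`: slice
`Q_(j-1) = 0` (`ga_slice`, `τ = - Q_(j-1) / (j Q_j)`), class `(L - 1) L ^ (d + j - 1)`; for `j = 0`: slice `P_(d-1) = 0`
(`τ = - P_(d-1) / d`, `d ≥ 2`), class `L ^ d`. `QG_U`: for `g ≥ 1` transport to `Mn k g × DD k (d - g)` with the action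
`(h, F) ↦ (h (z - b), tra b F)`; slice `h_(g-1) = 0`. Then `DD_U` by additivity (`clq_sum` over the `QG k d g`).
-/

set_option autoImplicit false

namespace Pool.Agent.MRat

open Polynomial
open scoped MatrixGroups LinearAlgebra.Projectivization

section
variable {k : Type} [Field k] [IsAlgClosed k] [CharZero k]

/-- Conjugation by a translation, on pairs of polynomials. -/
noncomputable def tra {d : ℕ} (b : k) (F : PD k (d + 1) × PD k (d + 1)) :
    PD k (d + 1) × PD k (d + 1) := (ptr b F.1 + b • ptr b F.2, ptr b F.2)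

/-- Equivalence under translations. -/
def trel (k : Type) [Field k] [IsAlgClosed k] [CharZero k] {d : ℕ}
    (F G : PD k (d + 1) × PD k (d + 1)) : Prop := ∃ b : k, tra b F = G

theorem tra_dm {d : ℕ} : DM k (fun p : k × (PD k (d + 1) × PD k (d + 1)) => tra p.1 p.2) := by
  have h1 : DM k (fun p : k × (PD k (d + 1) × PD k (d + 1)) => ptr p.1 p.2.1) :=
    DM.ptr (by fun_prop) (by fun_prop)
  have h2 : DM k (fun p : k × (PD k (d + 1) × PD k (d + 1)) => ptr p.1 p.2.2) :=
    DM.ptr (by fun_prop) (by fun_prop)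
  refine DM.mk (DM.to_PD fun i => ?_) h2
  have h3 := (h1.pcoeff i).add (DM.mul (f := fun p : k × (PD k (d + 1) × PD k (d + 1)) => p.1)
    (by fun_prop) (h2.pcoeff i))
  refine h3.congr fun x => ?_
  simp

private theorem uc_ptr_add {n : ℕ} (b : k) (F G : PD k n) : ptr b (F + G) = ptr b F + ptr b G := by
  apply Subtype.ext
  simp [ptr_coe]

private theorem uc_ptr_smul {n : ℕ} (b c : k) (F : PD k n) : ptr b (c • F) = c • ptr b F := by
  apply Subtype.ext
  simp [ptr_coe]

theorem tra_zero {d : ℕ} (F : PD k (d + 1) × PD k (d + 1)) : tra 0 F = F := by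
  unfold tra
  rw [ptr_zero, ptr_zero, zero_smul, add_zero]

theorem tra_add {d : ℕ} (b c : k) (F : PD k (d + 1) × PD k (d + 1)) :
    tra (b + c) F = tra b (tra c F) := by
  unfold tra
  refine Prod.ext ?_ ?_
  · dsimp only
    rw [ptr_add, ptr_add, uc_ptr_add, uc_ptr_smul, add_smul, add_assoc, add_comm (b • _)]
  · dsimp only
    rw [ptr_add]

private theorem uc_coeff_ge {n : ℕ} (F : PD k n) {i : ℕ} (h : n ≤ i) : F.1.coeff i = 0 := by
  have h1 := F.2
  rw [Polynomial.mem_degreeLT] at h1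
  exact Polynomial.coeff_eq_zero_of_degree_lt (h1.trans_le (by exact_mod_cast h))

private theorem uc_tra1 {d : ℕ} (b : k) (F : PD k (d + 1) × PD k (d + 1)) (i : ℕ) :
    (tra b F).1.1.coeff i = (ptr b F.1).1.coeff i + b * (ptr b F.2).1.coeff i := by
  unfold tra
  simp

theorem tra_QQ {d : ℕ} {b : k} {F : PD k (d + 1) × PD k (d + 1)} (h : F ∈ QQ k d) :
    tra b F ∈ QQ k d := by
  obtain ⟨h1, h2⟩ := h
  have e1 := (ptr_coeff_top (j := d) b F.1 (fun i hi => uc_coeff_ge F.1 hi)).2.1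
  have e2 := (ptr_coeff_top (j := d) b F.2 (fun i hi => uc_coeff_ge F.2 hi)).2.1
  constructor
  · rw [uc_tra1, e1, e2, h1, h2, mul_zero, add_zero]
  · show (ptr b F.2).1.coeff d = 0
    rw [e2, h2]

private theorem uc_coprime {P Q : k[X]} (b : k) (h : IsCoprime P Q) :
    IsCoprime (taylor (-b) P + b • taylor (-b) Q) (taylor (-b) Q) := by
  obtain ⟨u, v, huv⟩ := h
  have h1 : IsCoprime (taylor (-b) P) (taylor (-b) Q) := by
    refine ⟨taylor (-b) u, taylor (-b) v, ?_⟩
    rw [← taylor_mul, ← taylor_mul, ← map_add, huv, taylor_one]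
    simp
  have h2 := h1.add_mul_right_left (C b)
  rw [Polynomial.smul_eq_C_mul]
  exact h2

theorem tra_DD {d : ℕ} {b : k} {F : PD k (d + 1) × PD k (d + 1)} (h : F ∈ DD k d) :
    tra b F ∈ DD k d := by
  refine ⟨tra_QQ h.1, ?_⟩
  have h1 := uc_coprime b h.2
  exact h1

theorem tra_prel {g e d : ℕ} {b : k} {p : PD k (g + 1) × (PD k (e + 1) × PD k (e + 1))}
    {F : PD k (d + 1) × PD k (d + 1)} (h : prel k p F) :
    prel k (ptr b p.1, tra b p.2) (tra b F) := by
  obtain ⟨h1, h2⟩ := h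
  constructor
  · show taylor (-b) p.1.1 * (taylor (-b) p.2.1.1 + b • taylor (-b) p.2.2.1) =
      taylor (-b) F.1.1 + b • taylor (-b) F.2.1
    rw [← h1, ← h2, taylor_mul, taylor_mul, mul_add, mul_smul_comm]
  · show taylor (-b) p.1.1 * taylor (-b) p.2.2.1 = taylor (-b) F.2.1
    rw [← h2, taylor_mul]

private theorem uc_dq {d : ℕ} {s : Set (PD k (d + 1) × PD k (d + 1))}
    (hs : DM k (fun x => x ∈ s)) (hm : ∀ b : k, ∀ x ∈ s, tra b x ∈ s) : DQ k s (trel k) where
  ds := hs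
  dr := by
    have h1 : DM k (fun q : ((PD k (d + 1) × PD k (d + 1)) × (PD k (d + 1) × PD k (d + 1))) × k =>
        tra q.2 q.1.1) :=
      DM.comp tra_dm (f := fun q : ((PD k (d + 1) × PD k (d + 1)) ×
        (PD k (d + 1) × PD k (d + 1))) × k => (q.2, q.1.1)) (by fun_prop)
    have h2 : DM k (fun p : (PD k (d + 1) × PD k (d + 1)) × (PD k (d + 1) × PD k (d + 1)) =>
        ∃ b : k, tra b p.1 = p.2) := DM.ex (DM.eq h1 (by fun_prop))
    exact (DM.comp hs (f := fun p : (PD k (d + 1) × PD k (d + 1)) ×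
      (PD k (d + 1) × PD k (d + 1)) => p.1) (by fun_prop)).and
      ((DM.comp hs (f := fun p : (PD k (d + 1) × PD k (d + 1)) ×
      (PD k (d + 1) × PD k (d + 1)) => p.2) (by fun_prop)).and h2)
  refl := fun x _ => ⟨0, tra_zero x⟩
  symm := by
    rintro x hx y hy ⟨b, rfl⟩
    exact ⟨-b, by rw [← tra_add, neg_add_cancel, tra_zero]⟩
  trans := by
    rintro x hx y hy z hz ⟨b, rfl⟩ ⟨c, rfl⟩
    exact ⟨c + b, tra_add c b x⟩

theorem QQ_dq (d : ℕ) : DQ k (QQ k d) (trel k) := uc_dq (QQ_cl d).ds fun _ _ h => tra_QQ h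

theorem DD_dq (d : ℕ) : DQ k (DD k d) (trel k) := uc_dq (DD_dm d) fun _ _ h => tra_DD h

/-- Pairs in which the second polynomial has degree exactly `j` (at most `0` for `j = 0`). -/
private def UCA (k : Type) [Field k] (d j : ℕ) : Set (PD k (d + 1) × PD k (d + 1)) :=
  {F | (∀ i ∈ Finset.range (d + 1), j < i → F.2.1.coeff i = 0) ∧ (j = 0 ∨ F.2.1.coeff j ≠ 0)}

private theorem uc_A_all {d j : ℕ} {F : PD k (d + 1) × PD k (d + 1)} (h : F ∈ UCA k d j) :
    ∀ i, j < i → F.2.1.coeff i = 0 := by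
  intro i hi
  by_cases h1 : i < d + 1
  · exact h.1 i (Finset.mem_range.2 h1) hi
  · exact uc_coeff_ge F.2 (not_lt.1 h1)

private theorem uc_A_dm (d j : ℕ) : DM k (fun F => F ∈ UCA k d j) := by
  have h1 : DM k (fun F : PD k (d + 1) × PD k (d + 1) =>
      ∀ i : Fin (d + 1), j < (i : ℕ) → F.2.1.coeff i = 0) := by
    refine DM.fall fun i => ?_
    exact (DM.const' _).imp (DM.eq (by fun_prop) (by fun_prop))
  have h2 : DM k (fun F : PD k (d + 1) × PD k (d + 1) => j = 0 ∨ F.2.1.coeff j ≠ 0) :=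
    (DM.const' _).or (DM.ne (by fun_prop) (by fun_prop))
  refine (h1.and h2).congr_iff fun F => ?_
  constructor
  · rintro ⟨a, b⟩
    exact ⟨fun i hi => a ⟨i, Finset.mem_range.1 hi⟩, b⟩
  · rintro ⟨a, b⟩
    exact ⟨fun i => a i (Finset.mem_range.2 i.2), b⟩

private theorem uc_tra2 {d : ℕ} (b : k) (F : PD k (d + 1) × PD k (d + 1)) :
    (tra b F).2 = ptr b F.2 := rfl

private theorem uc_A_tra {d j : ℕ} {b : k} {F : PD k (d + 1) × PD k (d + 1)} (h : F ∈ UCA k d j) :
    tra b F ∈ UCA k d j := by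
  have h1 := ptr_coeff_top b F.2 (uc_A_all h)
  refine ⟨fun i _ hi => ?_, ?_⟩
  · rw [uc_tra2]
    exact h1.1 i hi
  · rw [uc_tra2, h1.2.1]
    exact h.2

private theorem uc_A_inj {d i j : ℕ} {F : PD k (d + 1) × PD k (d + 1)} (h : F ∈ UCA k d i)
    (h' : F ∈ UCA k d j) : i = j := by
  rcases lt_trichotomy i j with hij | hij | hij
  · rcases h'.2 with h1 | h1
    · omega
    · exact absurd (uc_A_all h j hij) h1
  · exact hij
  · rcases h.2 with h1 | h1
    · omega
    · exact absurd (uc_A_all h' i hij) h1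

private theorem uc_A_cover {d : ℕ} (hd : 1 ≤ d) {F : PD k (d + 1) × PD k (d + 1)} (h : F ∈ QQ k d) :
    ∃ j ∈ Finset.range d, F ∈ UCA k d j := by
  by_cases h0 : F.2.1 = 0
  · refine ⟨0, Finset.mem_range.2 (by omega), fun i _ _ => ?_, Or.inl rfl⟩
    rw [h0, coeff_zero]
  · refine ⟨F.2.1.natDegree, ?_, fun i _ hi => coeff_eq_zero_of_natDegree_lt hi, Or.inr ?_⟩
    · rw [Finset.mem_range]
      by_contra hcon
      have h1 : F.2.1.coeff F.2.1.natDegree ≠ 0 := by
        rw [coeff_natDegree]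
        exact leadingCoeff_ne_zero.2 h0
      rcases Nat.lt_or_ge d F.2.1.natDegree with h2 | h2
      · exact h1 (uc_coeff_ge F.2 h2)
      · have h3 : F.2.1.natDegree = d := le_antisymm h2 (not_lt.1 hcon)
        rw [h3] at h1
        exact h1 h.2
    · rw [coeff_natDegree]
      exact leadingCoeff_ne_zero.2 h0

/-- The slice for `j ≥ 1`. -/
private theorem uc_TQ {d j : ℕ} (hj : 1 ≤ j) (hjd : j ≤ d) :
    PolyCl k {G : PD k (d + 1) | ∀ i < d + 1, G.1.coeff i ∈
      (if i + 1 < j then Set.univ else if i = j then {x : k | x ≠ 0} else {0} : Set k)}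
      (L ^ (j - 1) * (L - 1)) := by
  refine (PolyCl.PD_box (n := d + 1)
    (A := fun i => (if i + 1 < j then Set.univ else if i = j then {x : k | x ≠ 0} else {0} : Set k))
    (p := fun i => (if i + 1 < j then L else 1) * (if i = j then L - 1 else 1)) ?_).cast ?_
  · intro i _
    by_cases h1 : i + 1 < j
    · rw [if_pos h1, if_pos h1, if_neg (by omega), mul_one]
      exact PolyCl.univ_k
    · rw [if_neg h1, if_neg h1, one_mul]
      by_cases h2 : i = j
      · rw [if_pos h2, if_pos h2]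
        exact PolyCl.ne_zero
      · rw [if_neg h2, if_neg h2]
        exact PolyCl.singleton 0
  · rw [Finset.prod_mul_distrib, Finset.prod_ite_eq', if_pos (Finset.mem_range.2 (by omega)),
      Finset.prod_ite, Finset.prod_const_one, mul_one, Finset.prod_const]
    have h1 : (Finset.range (d + 1)).filter (fun i => i + 1 < j) = Finset.range (j - 1) := by
      ext i
      simp only [Finset.mem_filter, Finset.mem_range]
      omega
    rw [h1, Finset.card_range]

private theorem uc_TQ0 (d : ℕ) :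
    PolyCl k {G : PD k (d + 1) | ∀ i < d + 1, G.1.coeff i ∈
      (if i = 0 then Set.univ else {0} : Set k)} L := by
  refine (PolyCl.PD_box (n := d + 1)
    (A := fun i => (if i = 0 then Set.univ else {0} : Set k))
    (p := fun i => if i = 0 then L else 1) ?_).cast ?_
  · intro i _
    by_cases h2 : i = 0
    · rw [if_pos h2, if_pos h2]
      exact PolyCl.univ_k
    · rw [if_neg h2, if_neg h2]
      exact PolyCl.singleton 0
  · rw [Finset.prod_ite_eq', if_pos (Finset.mem_range.2 (by omega))]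

private theorem uc_s_dm (d j : ℕ) : DM k (fun F => F ∈ QQ k d ∩ UCA k d j) :=
  ((QQ_cl d).ds.and (uc_A_dm d j)).congr_iff fun _ => Iff.rfl

private theorem uc_piece_pos {d j : ℕ} (hj : 1 ≤ j) (hjd : j < d) :
    clq k (QQ k d ∩ UCA k d j) (trel k) = (L ^ (d + j - 1) * (L - 1)) • ptc k := by
  have hj0 : (j : k) ≠ 0 := by exact_mod_cast (by omega : j ≠ 0)
  have h1 := (ga_slice (k := k) (uc_s_dm d j) (fun b F => tra b F) tra_dm
    (fun b x hx => ⟨tra_QQ hx.1, uc_A_tra hx.2⟩) (fun x _ => tra_zero x)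
    (fun b c x _ => tra_add b c x)
    (fun F => -(F.2.1.coeff (j - 1) / ((j : k) * F.2.1.coeff j))) (by fun_prop) (by
      intro b F hF
      have hc : F.2.1.coeff j ≠ 0 := by
        rcases hF.2.2 with h | h
        · omega
        · exact h
      have h2 := ptr_coeff_top b F.2 (uc_A_all hF.2)
      rw [uc_tra2, h2.2.1, h2.2.2 (j - 1) (by omega)]
      field_simp
      ring)).2
  have h2 : clq k (QQ k d ∩ UCA k d j) (trel k) = clq k (QQ k d ∩ UCA k d j)
    (fun x y => ∃ b : k, tra b x = y) := rfl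
  rw [h2, h1]
  have h3 := (PolyCl.prod (Mn_cl (k := k) d) (uc_TQ (k := k) hj hjd.le)).cl
  have h4 : (QQ k d ∩ UCA k d j) ∩ {F | -(F.2.1.coeff (j - 1) / ((j : k) * F.2.1.coeff j)) = 0} =
      Mn k d ×ˢ {G : PD k (d + 1) | ∀ i < d + 1, G.1.coeff i ∈
      (if i + 1 < j then Set.univ else if i = j then {x : k | x ≠ 0} else {0} : Set k)} := by
    ext F
    constructor
    · rintro ⟨⟨hQ, hA⟩, hτ⟩
      have hc : F.2.1.coeff j ≠ 0 := by
        rcases hA.2 with h | h
        · omega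
        · exact h
      refine ⟨hQ.1, fun i hi => ?_⟩
      by_cases h5 : i + 1 < j
      · rw [if_pos h5]
        trivial
      · rw [if_neg h5]
        by_cases h6 : i = j
        · rw [if_pos h6, h6]
          exact hc
        · rw [if_neg h6]
          show F.2.1.coeff i = 0
          by_cases h7 : i + 1 = j
          · have h8 : -(F.2.1.coeff (j - 1) / ((j : k) * F.2.1.coeff j)) = 0 := hτ
            rw [neg_eq_zero, div_eq_zero_iff] at h8
            rcases h8 with h8 | h8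
            · have h9 : i = j - 1 := by omega
              rw [h9]
              exact h8
            · exact absurd h8 (mul_ne_zero hj0 hc)
          · exact uc_A_all hA i (by omega)
    · rintro ⟨hM, hG⟩
      have hgt : ∀ i ∈ Finset.range (d + 1), j < i → F.2.1.coeff i = 0 := by
        intro i hi hij
        have h5 := hG i (Finset.mem_range.1 hi)
        rw [if_neg (by omega), if_neg (by omega)] at h5
        exact h5
      refine ⟨⟨⟨hM, hgt d (Finset.mem_range.2 (by omega)) hjd⟩, hgt, Or.inr ?_⟩, ?_⟩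
      · have h5 := hG j (by omega)
        rw [if_neg (by omega), if_pos rfl] at h5
        exact h5
      · have h5 := hG (j - 1) (by omega)
        rw [if_neg (by omega), if_neg (by omega)] at h5
        have h6 : F.2.1.coeff (j - 1) = 0 := h5
        show -(F.2.1.coeff (j - 1) / ((j : k) * F.2.1.coeff j)) = 0
        rw [h6]
        simp
  rw [h4, h3]
  congr 1
  rw [← mul_assoc, ← pow_add]
  congr 2
  omega

private theorem uc_piece_zero {d : ℕ} (hd : 2 ≤ d) :
    clq k (QQ k d ∩ UCA k d 0) (trel k) = (L ^ d) • ptc k := by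
  have hd0 : (d : k) ≠ 0 := by exact_mod_cast (by omega : d ≠ 0)
  have h1 := (ga_slice (k := k) (uc_s_dm d 0) (fun b F => tra b F) tra_dm
    (fun b x hx => ⟨tra_QQ hx.1, uc_A_tra hx.2⟩) (fun x _ => tra_zero x)
    (fun b c x _ => tra_add b c x)
    (fun F => -(F.1.1.coeff (d - 1) / (d : k))) (by fun_prop) (by
      intro b F hF
      have h2 := ptr_coeff_top b F.1 (j := d) (fun i hi => uc_coeff_ge F.1 hi)
      have h3 := (ptr_coeff_top b F.2 (uc_A_all hF.2)).1 (d - 1) (by omega)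
      have h4 : F.1.1.coeff d = 1 := hF.1.1
      rw [uc_tra1, h3, h2.2.2 (d - 1) (by omega), h4]
      field_simp
      ring)).2
  have h2 : clq k (QQ k d ∩ UCA k d 0) (trel k) = clq k (QQ k d ∩ UCA k d 0)
    (fun x y => ∃ b : k, tra b x = y) := rfl
  rw [h2, h1]
  have h3 := (PolyCl.prod (Mn_slice_cl (k := k) (g := d) (by omega)) (uc_TQ0 (k := k) d)).cl
  have h4 : (QQ k d ∩ UCA k d 0) ∩ {F | -(F.1.1.coeff (d - 1) / (d : k)) = 0} =
      {h ∈ Mn k d | h.1.coeff (d - 1) = 0} ×ˢ {G : PD k (d + 1) | ∀ i < d + 1, G.1.coeff i ∈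
      (if i = 0 then Set.univ else {0} : Set k)} := by
    ext F
    constructor
    · rintro ⟨⟨hQ, hA⟩, hτ⟩
      have h8 : -(F.1.1.coeff (d - 1) / (d : k)) = 0 := hτ
      rw [neg_eq_zero, div_eq_zero_iff] at h8
      refine ⟨⟨hQ.1, ?_⟩, fun i hi => ?_⟩
      · rcases h8 with h8 | h8
        · exact h8
        · exact absurd h8 hd0
      · by_cases h6 : i = 0
        · rw [if_pos h6]
          trivial
        · rw [if_neg h6]
          exact uc_A_all hA i (by omega)
    · rintro ⟨⟨hM, hM'⟩, hG⟩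
      have hgt : ∀ i ∈ Finset.range (d + 1), 0 < i → F.2.1.coeff i = 0 := by
        intro i hi hij
        have h5 := hG i (Finset.mem_range.1 hi)
        rw [if_neg (by omega)] at h5
        exact h5
      refine ⟨⟨⟨hM, hgt d (Finset.mem_range.2 (by omega)) (by omega)⟩, hgt, Or.inl rfl⟩, ?_⟩
      show -(F.1.1.coeff (d - 1) / (d : k)) = 0
      rw [hM']
      simp
  rw [h4, h3]
  congr 1
  rw [← pow_succ]
  congr 1
  omega

theorem QQ_U {d : ℕ} (hd : 2 ≤ d) : clq k (QQ k d) (trel k) = (L ^ (2 * d - 1)) • ptc k := by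
  rw [clq_sum (Finset.range d) (QQ_dq d) (UCA k d) (fun i _ => uc_A_dm d i)
    (fun x hx => uc_A_cover (by omega) hx) (by
      rintro i _ j _ x _ y _ ⟨b, rfl⟩ hxi hyj
      exact uc_A_inj (uc_A_tra hxi) hyj)]
  obtain ⟨e, rfl⟩ : ∃ e, d = e + 1 := ⟨d - 1, by omega⟩
  rw [Finset.sum_range_succ', uc_piece_zero hd]
  have h1 : ∀ i ∈ Finset.range e, clq k (QQ k (e + 1) ∩ UCA k (e + 1) (i + 1)) (trel k) =
      (L ^ (e + 1 + (i + 1)) - L ^ (e + 1 + i)) • ptc k := by
    intro i hi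
    rw [uc_piece_pos (by omega) (by have := Finset.mem_range.1 hi; omega)]
    congr 1
    have h2 : e + 1 + (i + 1) - 1 = e + 1 + i := by omega
    rw [h2]
    ring
  rw [Finset.sum_congr rfl h1, ← Finset.sum_smul, ← add_smul,
    Finset.sum_range_sub (fun i => (L ^ (e + 1 + i) : Polynomial ℤ))]
  congr 1
  have h3 : 2 * (e + 1) - 1 = e + 1 + e := by omega
  rw [h3]
  ring

theorem QG_U {d g : ℕ} (hg : 1 ≤ g) (hgd : g ≤ d) {p : Polynomial ℤ}
    (h : PolyCl k (DD k (d - g)) p) :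
    clq k (QG k d g) (trel k) = (L ^ (g - 1) * p) • ptc k := by
  have hg0 : (g : k) ≠ 0 := by exact_mod_cast (by omega : g ≠ 0)
  have hQG : QG k d g ⊆ QQ k d := fun F hF =>
    QG_cover.2 ⟨g, Finset.mem_range.2 (by omega), hF⟩
  have hdq : DQ k (QG k d g) (trel k) := (QQ_dq d).mono (QG_cl hgd h).ds hQG
  have hsd : DM k (fun x : PD k (g + 1) × (PD k (d - g + 1) × PD k (d - g + 1)) =>
      x ∈ Mn k g ×ˢ DD k (d - g)) := (PolyCl.prod (Mn_cl g) h).ds
  have hMn : ∀ (b : k) (h : PD k (g + 1)), h ∈ Mn k g → ptr b h ∈ Mn k g := by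
    intro b h hh
    have h2 := (ptr_coeff_top b h (j := g) (fun i hi => uc_coeff_ge h hi)).2.1
    show (ptr b h).1.coeff g = 1
    rw [h2]
    exact hh
  have hsl := ga_slice (k := k) hsd (fun b x => (ptr b x.1, tra b x.2)) (by
      refine DM.mk (DM.ptr (by fun_prop) (by fun_prop)) ?_
      exact DM.comp tra_dm (f := fun q : k × (PD k (g + 1) ×
        (PD k (d - g + 1) × PD k (d - g + 1))) => (q.1, q.2.2)) (by fun_prop))
    (fun b x hx => ⟨hMn b _ hx.1, tra_DD hx.2⟩)
    (fun x _ => by rw [ptr_zero, tra_zero])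
    (fun b c x _ => by rw [ptr_add, tra_add])
    (fun x => -(x.1.1.coeff (g - 1) / (g : k))) (by fun_prop) (by
      intro b x hx
      have h2 := ptr_coeff_top b x.1 (j := g) (fun i hi => uc_coeff_ge x.1 hi)
      have h4 : x.1.1.coeff g = 1 := hx.1
      rw [h2.2.2 (g - 1) (by omega), h4]
      field_simp
      ring)
  have h3 := (PolyCl.prod (Mn_slice_cl (k := k) hg) h).cl
  have h4 : (Mn k g ×ˢ DD k (d - g)) ∩ {x | -(x.1.1.coeff (g - 1) / (g : k)) = 0} =
      {h ∈ Mn k g | h.1.coeff (g - 1) = 0} ×ˢ DD k (d - g) := by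
    ext x
    constructor
    · rintro ⟨⟨hM, hD⟩, hτ⟩
      have h8 : -(x.1.1.coeff (g - 1) / (g : k)) = 0 := hτ
      rw [neg_eq_zero, div_eq_zero_iff] at h8
      refine ⟨⟨hM, ?_⟩, hD⟩
      rcases h8 with h8 | h8
      · exact h8
      · exact absurd h8 hg0
    · rintro ⟨⟨hM, hM'⟩, hD⟩
      refine ⟨⟨hM, hD⟩, ?_⟩
      show -(x.1.1.coeff (g - 1) / (g : k)) = 0
      rw [hM']
      simp
  rw [← h3, ← h4, ← hsl.2]
  symm
  refine clq_corr hsl.1 hdq (fun q F => prel k q F) prel_dm ?_ ?_ ?_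
  · rintro q ⟨hq1, hq2⟩
    obtain ⟨F, _, hF⟩ := prel_left hgd hq1 hq2.1
    exact ⟨F, ⟨q, hq1, hq2, hF⟩, hF⟩
  · rintro F ⟨q, hq1, hq2, hF⟩
    exact ⟨q, ⟨hq1, hq2⟩, hF⟩
  · rintro q ⟨hq1, hq2⟩ F _ hqF q' ⟨hq1', hq2'⟩ F' _ hqF'
    constructor
    · rintro ⟨b, hb⟩
      refine ⟨b, ?_⟩
      have h5 := tra_prel (b := b) hqF
      have h6 : (ptr b q.1, tra b q.2) = q' := hb
      rw [h6] at h5
      refine Prod.ext (Subtype.ext ?_) (Subtype.ext ?_)
      · rw [← h5.1, ← hqF'.1]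
      · rw [← h5.2, ← hqF'.2]
    · rintro ⟨b, hb⟩
      refine ⟨b, ?_⟩
      have h5 := tra_prel (b := b) hqF
      rw [hb] at h5
      have h6 := prel_unique hgd hgd (p := (ptr b q.1, tra b q.2)) (p' := q') (hMn b _ hq1)
        (tra_DD hq2) hq1' hq2' h5 hqF'
      exact Prod.ext (Subtype.ext h6.2.1) (Prod.ext (Subtype.ext h6.2.2.1) (Subtype.ext h6.2.2.2))

theorem DD_U {d : ℕ} (hd : 2 ≤ d) :
    clq k (DD k d) (trel k) = (L ^ (2 * d - 1) - L ^ (2 * d - 2)) • ptc k := by
  have hcl : ∀ e : ℕ, ∃ p, PolyCl k (DD k e) p := by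
    intro e
    rcases Nat.eq_zero_or_pos e with rfl | he
    · exact ⟨_, DD_cl_zero⟩
    · exact ⟨_, DD_cl he⟩
  have htra : ∀ (g : ℕ) (b : k) (F : PD k (d + 1) × PD k (d + 1)), F ∈ QG k d g →
      tra b F ∈ QG k d g := by
    rintro g b F ⟨q, hq1, hq2, hF⟩
    refine ⟨(ptr b q.1, tra b q.2), ?_, tra_DD hq2, tra_prel hF⟩
    have h2 := (ptr_coeff_top b q.1 (j := g) (fun i hi => uc_coeff_ge q.1 hi)).2.1
    show (ptr b q.1).1.coeff g = 1
    rw [h2]
    exact hq1
  have hsub : ∀ g ∈ Finset.range (d + 1), QQ k d ∩ QG k d g = QG k d g := by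
    intro g hg
    exact Set.inter_eq_right.2 fun F hF => QG_cover.2 ⟨g, hg, hF⟩
  have h1 := clq_sum (Finset.range (d + 1)) (QQ_dq (k := k) d) (QG k d)
    (fun g hg => by
      obtain ⟨p, hp⟩ := hcl (d - g)
      exact (QG_cl (by have := Finset.mem_range.1 hg; omega) hp).ds)
    (fun x hx => QG_cover.1 hx) (by
      rintro g hg g' hg' x _ y _ ⟨b, rfl⟩ hxg hyg'
      obtain ⟨q, hq1, hq2, hq⟩ := htra g b x hxg
      obtain ⟨q', hq1', hq2', hq'⟩ := hyg'
      exact (prel_unique (by have := Finset.mem_range.1 hg; omega)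
        (by have := Finset.mem_range.1 hg'; omega) hq1 hq2 hq1' hq2' hq hq').1)
  rw [Finset.sum_congr rfl fun g hg => by rw [hsub g hg], QQ_U hd, Finset.sum_range_succ',
    QG_zero] at h1
  obtain ⟨e, rfl⟩ : ∃ e, d = e + 1 := ⟨d - 1, by omega⟩
  rw [Finset.sum_range_succ, QG_U (by omega) le_rfl (p := 1) (by rw [Nat.sub_self]; exact DD_cl_zero)]
    at h1
  have h2 : ∀ g ∈ Finset.range e, clq k (QG k (e + 1) (g + 1)) (trel k) =
      (L ^ (2 * e - g) - L ^ (2 * e - (g + 1))) • ptc k := by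
    intro g hg
    have hg' := Finset.mem_range.1 hg
    rw [QG_U (by omega) (by omega) (DD_cl (by omega))]
    congr 1
    rw [mul_sub, ← pow_add, ← pow_add]
    congr 2 <;> omega
  rw [Finset.sum_congr rfl h2, ← Finset.sum_smul,
    Finset.sum_range_sub' (fun i => (L ^ (2 * e - i) : Polynomial ℤ)), ← add_smul] at h1
  have h3 : L ^ (2 * e - 0) - L ^ (2 * e - e) + L ^ (e + 1 - 1) * 1 = (L ^ (2 * e) : Polynomial ℤ) := by
    have h4 : 2 * e - e = e := by omega
    rw [h4, Nat.sub_zero, Nat.add_sub_cancel]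
    ring
  rw [h3] at h1
  have h5 : 2 * (e + 1) - 2 = 2 * e := by omega
  rw [h5, sub_smul, h1, add_sub_cancel_left]

end

end Pool.Agent.MRat
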