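import Pool.Agent.Lib.MP_923aff_ag.QG1
import Pool.Agent.Lib.MP_923aff_ag.NA1
import Pool.Agent.Lib.MP_923aff_ag.UC
import Pool.Agent.Lib.MP_923aff_ag.QF
/-!
# JOB QG2: four points and a point of the projective line

`Rat_0 = P¹` (constant maps), so `orb (Rat_0 × Conf_4) = clq Conf_4 relB` (`orb_P1`).

`slice_B`: slices for the affine group. `wproj_cl`: weighted projective spaces: cells `v_i ≠ 0`, `v_j = 0` for `j > i`;
`G_(w)` modulo `T` is a point, the other coordinates by `tcl_prod_Kw`.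
`Sq k n`: squarefree monic polynomials of degree `n` without term of degree `n - 1`, `T` acts by
`P ↦ c ^ n P (z / c)`, i.e. the coefficient of `z ^ i` is multiplied by `c ^ (n - i)`.
`Sq3_cl`: all such cubics except `z ^ 3`: `P(2, 3)`, class `[2]`; the not squarefree ones `(z - a) ^ 2 (z + 2 a)` form one orbit.
`Sq4_cl`: all such quartics except `z ^ 4`: `P(2, 3, 4)`, class `[3]`; the not squarefree ones are
`(z - a) ^ 2 (z ^ 2 + 2 a z + b)`, `(a, b) ≠ 0`: this is a bijection from `P(1, 2)`, class `[2]` (two pairs give the same polynomial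
only if `b = a ^ 2` and `a` is replaced by `- a`, which is the action of `c = - 1`).
`conf4_B`: `F ∈ Conf_4` with `F ∞ ≠ 0`, slice: mean of the roots `0`; `F ∞ = 0`: mean of the three finite roots `0`.
-/

set_option autoImplicit false

namespace Pool.Agent.MRat

open Polynomial
open scoped MatrixGroups LinearAlgebra.Projectivization

noncomputable section

variable {k : Type} [Field k] [IsAlgClosed k] [CharZero k]
variable {X Y Z W : Type} [DT k X] [DT k Y] [DT k Z] [DT k W]

private theorem QG2a_relB_dq [MulAction PGL(2, k) X] [DAct k PGL(2, k) X] {s : Set X}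
    (hs : DM k (fun x => x ∈ s)) : DQ k s (relB k) where
  ds := hs
  dr := by
    have h1 : DM k (fun p : X × X => ∃ (a : kˣ) (b : k), affP a b • p.1 = p.2) := by fun_prop
    exact DM.and (by fun_prop) (DM.and (by fun_prop) h1)
  refl := fun x _ => ⟨1, 0, by rw [affP_one, one_smul]⟩
  symm := by
    rintro x _ y _ ⟨a, b, rfl⟩
    refine ⟨a⁻¹, -((a⁻¹ : kˣ) * b), ?_⟩
    rw [← affP_inv, inv_smul_smul]
  trans := by
    rintro x _ y _ z _ ⟨a, b, rfl⟩ ⟨a', b', rfl⟩
    refine ⟨a' * a, a' * b + b', ?_⟩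
    rw [← mul_smul, affP_mul]

private theorem QG2a_relT_dq [MulAction PGL(2, k) X] [DAct k PGL(2, k) X] {s : Set X}
    (hs : DM k (fun x => x ∈ s)) : DQ k s (relT k) where
  ds := hs
  dr := by
    have h1 : DM k (fun p : X × X => ∃ a : kˣ, affP a 0 • p.1 = p.2) := by fun_prop
    exact DM.and (by fun_prop) (DM.and (by fun_prop) h1)
  refl := fun x _ => ⟨1, by rw [affP_one, one_smul]⟩
  symm := by
    rintro x _ y _ ⟨a, rfl⟩
    refine ⟨a⁻¹, ?_⟩
    rw [← mul_smul, affP_mul]
    simp [affP_one]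
  trans := by
    rintro x _ y _ z _ ⟨a, rfl⟩ ⟨a', rfl⟩
    refine ⟨a' * a, ?_⟩
    rw [← mul_smul, affP_mul]
    simp

/-- Slices for the affine group. -/
theorem slice_B [MulAction PGL(2, k) X] [DAct k PGL(2, k) X] {s : Set X}
    (ds : DM k (fun x => x ∈ s)) (st : ∀ (a : kˣ) (b : k), ∀ x ∈ s, affP a b • x ∈ s)
    (τ : X → k) (dτ : DM k τ) (hτ : ∀ (a : kˣ) (b : k), ∀ x ∈ s, τ (affP a b • x) = a * τ x + b) :
    clq k s (relB k) = clq k (s ∩ {x | τ x = 0}) (relT k) := by
  have hd : DM k (fun x => x ∈ s ∩ {x | τ x = 0}) := by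
    have h1 : DM k (fun x => x ∈ s ∧ τ x = 0) := by fun_prop
    exact h1
  symm
  refine clq_map (QG2a_relT_dq hd) (QG2a_relB_dq ds) (fun x => x) (by fun_prop) ?_ ?_ ?_
  · intro x hx
    exact hx.1
  · intro x hx y hy
    constructor
    · rintro ⟨a, ha⟩
      exact ⟨a, 0, ha⟩
    · rintro ⟨a, b, hab⟩
      have h1 := hτ a b x hx.1
      rw [hab, show τ y = 0 from hy.2, show τ x = 0 from hx.2, mul_zero, zero_add] at h1
      subst h1
      exact ⟨a, hab⟩
  · intro y hy
    have h1 := hτ 1 (-τ y) y hy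
    refine ⟨affP 1 (-τ y) • y, ⟨st _ _ y hy, ?_⟩, 1, τ y, ?_⟩
    · show τ (affP 1 (-τ y) • y) = 0
      rw [h1, Units.val_one, one_mul, add_neg_cancel]
    · rw [← mul_smul, affP_mul]
      have h5 : ((1 : kˣ) : k) * -τ y + τ y = 0 := by simp
      rw [h5, mul_one, affP_one, one_smul]

/-- Weighted linear actions of the torus. -/
@[simps] def wact (k : Type) [Field k] [IsAlgClosed k] [CharZero k] (n : ℕ) (w : Fin n → ℕ) :
    TA k (Fin n → k) where
  t c v := fun i => ((c ^ w i : kˣ) : k) * v i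
  t_one v := by funext i; simp
  t_mul a b v := by funext i; simp [mul_pow, mul_assoc]
  dt := by fun_prop

omit [IsAlgClosed k] [CharZero k] in
private theorem QG2a_roots {m : ℕ} (hm : 1 ≤ m) : {c : kˣ | c ^ m = 1}.Finite := by
  classical
  have h1 : ((Polynomial.nthRoots m (1 : k)).toFinset : Set k).Finite := Finset.finite_toSet _
  refine Set.Finite.subset (Set.Finite.preimage (f := fun c : kˣ => (c : k))
    (fun a _ b _ h => Units.ext h) h1) ?_
  intro c hc
  have hc' : c ^ m = 1 := hc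
  show (c : k) ∈ ((Polynomial.nthRoots m (1 : k)).toFinset : Set k)
  rw [Finset.mem_coe, Multiset.mem_toFinset, Polynomial.mem_nthRoots (by omega)]
  rw [← Units.val_pow_eq_pow_val, hc', Units.val_one]

private theorem QG2a_wst (n : ℕ) (w : Fin n → ℕ) : (wact k n w).St {v | v ≠ 0} where
  ds := by
    have h1 : DM k (fun v : Fin n → k => v ≠ 0) := by fun_prop
    exact h1
  t_mem := by
    intro c v hv h0
    apply hv
    have h1 := (wact k n w).t_inv c v
    rw [h0] at h1
    rw [← h1]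
    funext i
    simp

private theorem QG2a_wfin (n : ℕ) (w : Fin n → ℕ) (hw : ∀ i, 1 ≤ w i) :
    (wact k n w).Fin {v | v ≠ 0} := by
  intro v hv
  obtain ⟨i, hi⟩ := Function.ne_iff.1 hv
  refine (QG2a_roots (hw i)).subset ?_
  intro c hc
  have h1 : ((c ^ w i : kˣ) : k) * v i = v i := congrFun hc i
  have h2 : ((c ^ w i : kˣ) : k) = 1 := by
    have h3 : (((c ^ w i : kˣ) : k) - 1) * v i = 0 := by rw [sub_mul, h1, one_mul, sub_self]
    rcases mul_eq_zero.1 h3 with h4 | h4
    · exact sub_eq_zero.1 h4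
    · exact absurd h4 hi
  exact Units.ext h2

private theorem QG2a_point {a : ℕ} (ha : 1 ≤ a) {n : ℕ} (w : Fin n → ℕ) :
    ((wact k n w).prod (Kw k (a : ℤ))).St (({0} : Set (Fin n → k)) ×ˢ ({x | x ≠ 0} : Set k)) ∧
    tcl ((wact k n w).prod (Kw k (a : ℤ))) (({0} : Set (Fin n → k)) ×ˢ ({x | x ≠ 0} : Set k)) =
      ptc k := by
  have hst : ((wact k n w).prod (Kw k (a : ℤ))).St
      (({0} : Set (Fin n → k)) ×ˢ ({x | x ≠ 0} : Set k)) := by
    constructor
    · have h1 : DM k (fun p : (Fin n → k) × k => p.1 = 0 ∧ p.2 ≠ 0) := by fun_prop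
      exact h1
    · rintro c ⟨v, x⟩ ⟨hv, hx⟩
      have hv' : v = 0 := hv
      subst hv'
      refine ⟨?_, ?_⟩
      · show (wact k n w).t c 0 = 0
        funext i
        simp
      · show ((c ^ (a : ℤ) : kˣ) : k) * x ≠ 0
        exact mul_ne_zero (Units.ne_zero _) hx
  refine ⟨hst, ?_⟩
  refine clq_one_class hst.dq (0, 1) ⟨rfl, one_ne_zero⟩ ?_
  rintro ⟨v, x⟩ ⟨hv, hx⟩
  have hv' : v = 0 := hv
  have hx' : x ≠ 0 := hx
  subst hv'
  obtain ⟨z, hz⟩ := IsAlgClosed.exists_pow_nat_eq x (n := a) (by omega)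
  have hz0 : z ≠ 0 := by
    rintro rfl
    rw [zero_pow (by omega)] at hz
    exact hx' hz.symm
  refine ⟨Units.mk0 z hz0, Prod.ext ?_ ?_⟩
  · funext i
    simp
  · show ((Units.mk0 z hz0 ^ (a : ℤ) : kˣ) : k) * 1 = x
    rw [mul_one, zpow_natCast, Units.val_pow_eq_pow_val, Units.val_mk0, hz]

/-- Weighted projective spaces. -/
theorem wproj_cl (n : ℕ) (w : Fin n → ℕ) (hw : ∀ i, 1 ≤ w i) :
    tcl (wact k n w) {v | v ≠ 0} = br n • ptc k := by
  induction n with
  | zero =>
    have h1 : ({v | v ≠ 0} : Set (Fin 0 → k)) = ∅ := by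
      ext v
      constructor
      · intro h
        exact absurd (Subsingleton.elim v 0) h
      · intro h
        exact absurd h (Set.notMem_empty v)
    rw [h1, tcl_empty]
    simp [br]
  | succ n ih =>
    have h1 := ih (fun i => w i.castSucc) (fun i => hw _)
    obtain ⟨hst2, h2⟩ := QG2a_point (k := k) (hw (Fin.last n)) (fun i : Fin n => w i.castSucc)
    have hst1 := QG2a_wst (k := k) n (fun i : Fin n => w i.castSucc)
    have hfin1 := QG2a_wfin (k := k) n (fun i : Fin n => w i.castSucc) (fun i => hw _)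
    have h3 := tcl_prod_Kw _ hst1 hfin1 ((w (Fin.last n) : ℕ) : ℤ)
    have hst3 := hst1.prod (Kw k ((w (Fin.last n) : ℕ) : ℤ)) (TA.St.univ _)
    have hdis : Disjoint (({v | v ≠ 0} : Set (Fin n → k)) ×ˢ (Set.univ : Set k))
        (({0} : Set (Fin n → k)) ×ˢ ({x | x ≠ 0} : Set k)) := by
      rw [Set.disjoint_left]
      rintro p ⟨hp, -⟩ ⟨hq, -⟩
      exact hp hq
    have h4 := tcl_union hst3 hst2 hdis
    have h5 : tcl (wact k (n + 1) w) {v | v ≠ 0} =
        tcl ((wact k n (fun i => w i.castSucc)).prod (Kw k ((w (Fin.last n) : ℕ) : ℤ)))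
          (({v | v ≠ 0} : Set (Fin n → k)) ×ˢ (Set.univ : Set k) ∪
            ({0} : Set (Fin n → k)) ×ˢ ({x | x ≠ 0} : Set k)) := by
      refine tcl_congr (QG2a_wst (n + 1) w) (hst3.union hst2)
        (fun v => (fun i => v i.castSucc, v (Fin.last n))) (by fun_prop) ⟨?_, ?_, ?_⟩ ?_
      · intro v hv
        by_cases h0 : (fun i : Fin n => v i.castSucc) = 0
        · right
          refine ⟨h0, ?_⟩
          intro hl
          apply hv
          funext i
          refine Fin.lastCases ?_ (fun j => ?_) i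
          · exact hl
          · exact congrFun h0 j
        · left
          exact ⟨h0, trivial⟩
      · intro v _ v' _ h
        funext i
        refine Fin.lastCases ?_ (fun j => ?_) i
        · exact congrArg Prod.snd h
        · exact congrFun (congrArg Prod.fst h) j
      · rintro ⟨v, x⟩ hp
        refine ⟨Fin.snoc v x, ?_, ?_⟩
        · intro h0
          have e1 : v = 0 := by
            funext i
            have := congrFun h0 i.castSucc
            simpa using this
          have e2 : x = 0 := by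
            have := congrFun h0 (Fin.last n)
            simpa using this
          rcases hp with hp | hp
          · exact hp.1 e1
          · exact hp.2 e2
        · refine Prod.ext ?_ ?_
          · funext i
            simp
          · simp
      · intro c v _
        refine Prod.ext ?_ ?_
        · rfl
        · show ((c ^ w (Fin.last n) : kˣ) : k) * v (Fin.last n) =
            ((c ^ ((w (Fin.last n) : ℕ) : ℤ) : kˣ) : k) * v (Fin.last n)
          rw [zpow_natCast]
    rw [h5, h4, h3, h2, h1, smul_smul]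
    have h6 : br (n + 1) = L * br n + 1 := by
      have e := br_mul (n := n)
      rw [br_succ]
      linear_combination -e
    rw [h6, add_smul, one_smul]

/-- Squarefree monic polynomials of degree `n` without term of degree `n - 1`. -/
def Sq (k : Type) [Field k] (n : ℕ) : Set (PD k (n + 1)) :=
  {P | P.1.coeff n = 1 ∧ P.1.coeff (n - 1) = 0 ∧ Squarefree P.1}

omit [IsAlgClosed k] [CharZero k] in
private theorem QG2a_coeff_ge {n : ℕ} (F : PD k n) {i : ℕ} (h : n ≤ i) : F.1.coeff i = 0 := by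
  have h1 := F.2
  rw [Polynomial.mem_degreeLT] at h1
  exact Polynomial.coeff_eq_zero_of_degree_lt (h1.trans_le (by exact_mod_cast h))

/-- The torus acting on polynomials by scaling the roots. -/
def sqact (k : Type) [Field k] [IsAlgClosed k] [CharZero k] (n : ℕ) : TA k (PD k (n + 1)) where
  t c P := ⟨Polynomial.C ((c ^ n : kˣ) : k) * P.1.comp (Polynomial.C ((c⁻¹ : kˣ) : k) * Polynomial.X),
    by
      rw [Polynomial.mem_degreeLT, Polynomial.degree_lt_iff_coeff_zero]
      intro m hm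
      rw [Polynomial.coeff_C_mul, Polynomial.comp_C_mul_X_coeff, QG2a_coeff_ge P hm]
      ring⟩
  t_one P := by
    apply Subtype.ext
    apply Polynomial.ext
    intro i
    simp
  t_mul a b P := by
    apply Subtype.ext
    apply Polynomial.ext
    intro i
    show (Polynomial.C (((a * b) ^ n : kˣ) : k) *
        P.1.comp (Polynomial.C (((a * b)⁻¹ : kˣ) : k) * Polynomial.X)).coeff i =
      (Polynomial.C ((a ^ n : kˣ) : k) * (Polynomial.C ((b ^ n : kˣ) : k) *
        P.1.comp (Polynomial.C ((b⁻¹ : kˣ) : k) * Polynomial.X)).comp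
          (Polynomial.C ((a⁻¹ : kˣ) : k) * Polynomial.X)).coeff i
    rw [Polynomial.coeff_C_mul, Polynomial.comp_C_mul_X_coeff, Polynomial.coeff_C_mul,
      Polynomial.comp_C_mul_X_coeff, Polynomial.coeff_C_mul, Polynomial.comp_C_mul_X_coeff,
      mul_pow, mul_inv, Units.val_mul, Units.val_mul]
    ring
  dt := by
    refine DM.to_PD fun i => ?_
    have h1 : DM k (fun p : kˣ × PD k (n + 1) =>
        ((p.1 ^ n : kˣ) : k) * (p.2.1.coeff i * (((p.1)⁻¹ : kˣ) : k) ^ i)) := by fun_prop
    refine h1.congr fun p => ?_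
    rw [Polynomial.coeff_C_mul, Polynomial.comp_C_mul_X_coeff]

private theorem QG2a_tcoeff (n : ℕ) (c : kˣ) (P : PD k (n + 1)) (i : ℕ) :
    ((sqact k n).t c P).1.coeff i = ((c ^ n : kˣ) : k) * (P.1.coeff i * ((c⁻¹ : kˣ) : k) ^ i) := by
  show (Polynomial.C ((c ^ n : kˣ) : k) *
      P.1.comp (Polynomial.C ((c⁻¹ : kˣ) : k) * Polynomial.X)).coeff i = _
  rw [Polynomial.coeff_C_mul, Polynomial.comp_C_mul_X_coeff]

theorem sqact_coeff (n : ℕ) (c : kˣ) (P : PD k (n + 1)) (i : ℕ) (hi : i ≤ n) :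
    ((sqact k n).t c P).1.coeff i = ((c ^ (n - i) : kˣ) : k) * P.1.coeff i := by
  rw [QG2a_tcoeff]
  have h1 : (c : k) ^ n = (c : k) ^ (n - i) * (c : k) ^ i := by
    rw [← pow_add]
    congr 1
    omega
  have h2 : (c : k) ^ i * ((c⁻¹ : kˣ) : k) ^ i = 1 := by
    rw [← mul_pow, ← Units.val_mul, mul_inv_cancel, Units.val_one, one_pow]
  rw [Units.val_pow_eq_pow_val, Units.val_pow_eq_pow_val, h1]
  linear_combination ((c : k) ^ (n - i) * P.1.coeff i) * h2

private theorem QG2a_nsq (P : k[X]) :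
    Squarefree P ↔ ¬ ∃ t : k, P.eval t = 0 ∧ (derivative P).eval t = 0 := by
  rw [← PerfectField.separable_iff_squarefree, Polynomial.separable_def,
    Polynomial.isCoprime_iff_aeval_ne_zero_of_isAlgClosed k k]
  simp only [Polynomial.coe_aeval_eq_eval]
  push Not
  exact forall_congr' fun t => by tauto

/-- The derivative as an element of the space of polynomials. -/
private def QG2a_der {n : ℕ} (P : PD k n) : PD k n :=
  ⟨derivative P.1, by
    rw [Polynomial.mem_degreeLT, Polynomial.degree_lt_iff_coeff_zero]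
    intro m hm
    rw [Polynomial.coeff_derivative, QG2a_coeff_ge P (by omega), zero_mul]⟩

private theorem QG2a_der_dm {n : ℕ} : DM k (fun P : PD k n => QG2a_der P) := by
  refine DM.to_PD fun i => ?_
  have h1 : DM k (fun P : PD k n => P.1.coeff (i + 1) * ((i : k) + 1)) := by fun_prop
  refine h1.congr fun P => ?_
  show _ = (derivative P.1).coeff i
  rw [Polynomial.coeff_derivative]

private theorem QG2a_sq_dm {n : ℕ} : DM k (fun P : PD k n => Squarefree P.1) := by
  have h1 : DM k (fun P : PD k n => IsCoprime P.1 (QG2a_der P).1) :=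
    DM.isCoprime (by fun_prop) QG2a_der_dm
  refine h1.congr_iff fun P => ?_
  rw [← PerfectField.separable_iff_squarefree, Polynomial.separable_def]
  rfl

private theorem QG2a_teval (n : ℕ) (c : kˣ) (P : PD k (n + 1)) (t : k) :
    ((sqact k n).t c P).1.eval t = ((c ^ n : kˣ) : k) * P.1.eval ((c⁻¹ : kˣ) * t) := by
  show (Polynomial.C ((c ^ n : kˣ) : k) *
      P.1.comp (Polynomial.C ((c⁻¹ : kˣ) : k) * Polynomial.X)).eval t = _
  simp [Polynomial.eval_comp]

private theorem QG2a_deval (n : ℕ) (c : kˣ) (P : PD k (n + 1)) (t : k) :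
    (derivative ((sqact k n).t c P).1).eval t =
      ((c ^ n : kˣ) : k) * (((c⁻¹ : kˣ) : k) * (derivative P.1).eval ((c⁻¹ : kˣ) * t)) := by
  show (derivative (Polynomial.C ((c ^ n : kˣ) : k) *
      P.1.comp (Polynomial.C ((c⁻¹ : kˣ) : k) * Polynomial.X))).eval t = _
  rw [Polynomial.derivative_C_mul, Polynomial.derivative_comp]
  simp [Polynomial.eval_comp]

private theorem QG2a_sq_t (n : ℕ) (c : kˣ) (P : PD k (n + 1)) (h : Squarefree P.1) :
    Squarefree ((sqact k n).t c P).1 := by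
  rw [QG2a_nsq] at h ⊢
  rintro ⟨t, h1, h2⟩
  apply h
  rw [QG2a_teval] at h1
  rw [QG2a_deval] at h2
  refine ⟨(c⁻¹ : kˣ) * t, ?_, ?_⟩
  · exact (mul_eq_zero.1 h1).resolve_left (Units.ne_zero _)
  · exact (mul_eq_zero.1 ((mul_eq_zero.1 h2).resolve_left (Units.ne_zero _))).resolve_left
      (Units.ne_zero _)

theorem Sq_st (n : ℕ) : (sqact k n).St (Sq k n) where
  ds := by
    have h1 : DM k (fun P : PD k (n + 1) => P.1.coeff n = 1) := by fun_prop
    have h2 : DM k (fun P : PD k (n + 1) => P.1.coeff (n - 1) = 0) := by fun_prop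
    exact h1.and (h2.and QG2a_sq_dm)
  t_mem := by
    rintro c P ⟨h1, h2, h3⟩
    refine ⟨?_, ?_, QG2a_sq_t n c P h3⟩
    · rw [sqact_coeff n c P n le_rfl, h1]
      simp
    · rw [sqact_coeff n c P (n - 1) (Nat.sub_le _ _), h2, mul_zero]

/-- Monic polynomials without term of degree `n - 1`, not `z ^ n`. -/
private def QG2aRed (k : Type) [Field k] (m : ℕ) : Set (PD k (m + 2 + 1)) :=
  {P | P.1.coeff (m + 2) = 1 ∧ P.1.coeff (m + 1) = 0 ∧ ∃ i : Fin (m + 1), P.1.coeff i ≠ 0}

/-- The monic polynomial with given lower coefficients. -/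
private def QG2aP (m : ℕ) (v : Fin (m + 1) → k) : PD k (m + 2 + 1) :=
  (Polynomial.degreeLTEquiv k (m + 2 + 1)).symm
    (fun j => if h : (j : ℕ) < m + 1 then v ⟨j, h⟩ else if (j : ℕ) = m + 2 then 1 else 0)

omit [IsAlgClosed k] [CharZero k] in
private theorem QG2aP_coeff (m : ℕ) (v : Fin (m + 1) → k) (i : ℕ) :
    (QG2aP m v).1.coeff i = if h : i < m + 1 then v ⟨i, h⟩ else if i = m + 2 then 1 else 0 := by
  by_cases hi : i < m + 2 + 1
  · have h1 : Polynomial.degreeLTEquiv k (m + 2 + 1) (QG2aP m v) ⟨i, hi⟩ = (QG2aP m v).1.coeff i :=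
      rfl
    rw [← h1]
    unfold QG2aP
    rw [LinearEquiv.apply_symm_apply]
  · rw [QG2a_coeff_ge _ (by omega), dif_neg (by omega), if_neg (by omega)]

private theorem QG2aP_dm (m : ℕ) : DM k (fun v : Fin (m + 1) → k => QG2aP m v) := by
  refine DM.to_PD fun i => ?_
  by_cases hi : i < m + 1
  · have h1 : DM k (fun v : Fin (m + 1) → k => v ⟨i, hi⟩) := by fun_prop
    refine h1.congr fun v => ?_
    rw [QG2aP_coeff, dif_pos hi]
  · refine (DM.const' (if i = m + 2 then (1 : k) else 0)).congr fun v => ?_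
    rw [QG2aP_coeff, dif_neg hi]

private theorem QG2a_red_st (m : ℕ) : (sqact k (m + 2)).St (QG2aRed k m) where
  ds := by
    have h1 : DM k (fun P : PD k (m + 2 + 1) => P.1.coeff (m + 2) = 1) := by fun_prop
    have h2 : DM k (fun P : PD k (m + 2 + 1) => P.1.coeff (m + 1) = 0) := by fun_prop
    have h3 : DM k (fun P : PD k (m + 2 + 1) => ∃ i : Fin (m + 1), P.1.coeff i ≠ 0) :=
      DM.fex fun i => by fun_prop
    exact h1.and (h2.and h3)
  t_mem := by
    rintro c P ⟨h1, h2, i, h3⟩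
    refine ⟨?_, ?_, i, ?_⟩
    · rw [sqact_coeff (m + 2) c P (m + 2) le_rfl, h1]
      simp
    · rw [sqact_coeff (m + 2) c P (m + 1) (by omega), h2, mul_zero]
    · rw [sqact_coeff (m + 2) c P i (by have := i.2; omega)]
      exact mul_ne_zero (Units.ne_zero _) h3

private theorem QG2a_red_cl (m : ℕ) : tcl (sqact k (m + 2)) (QG2aRed k m) = br (m + 1) • ptc k := by
  rw [← wproj_cl (m + 1) (fun i => m + 2 - i) (fun i => by have := i.2; omega)]
  refine tcl_congr (QG2a_red_st m) (QG2a_wst _ _) (fun P i => P.1.coeff i)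
    (DM.pi fun i => by fun_prop) ⟨?_, ?_, ?_⟩ ?_
  · rintro P ⟨-, -, i, h3⟩ h0
    exact h3 (congrFun h0 i)
  · rintro P ⟨h1, h2, -⟩ Q ⟨h1', h2', -⟩ h
    apply Subtype.ext
    apply Polynomial.ext
    intro i
    by_cases hi : i < m + 1
    · exact congrFun h ⟨i, hi⟩
    · by_cases hi2 : i = m + 1
      · rw [hi2, h2, h2']
      · by_cases hi3 : i = m + 2
        · rw [hi3, h1, h1']
        · rw [QG2a_coeff_ge P (by omega), QG2a_coeff_ge Q (by omega)]
  · intro v hv
    obtain ⟨j, hj⟩ := Function.ne_iff.1 hv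
    refine ⟨QG2aP m v, ⟨?_, ?_, j, ?_⟩, ?_⟩
    · rw [QG2aP_coeff, dif_neg (by omega), if_pos rfl]
    · rw [QG2aP_coeff, dif_neg (by omega), if_neg (by omega)]
    · rw [QG2aP_coeff, dif_pos j.2]
      exact hj
    · funext i
      show (QG2aP m v).1.coeff i = v i
      rw [QG2aP_coeff, dif_pos i.2]
  · intro c P _
    funext i
    show ((sqact k (m + 2)).t c P).1.coeff i = ((c ^ (m + 2 - (i : ℕ)) : kˣ) : k) * P.1.coeff i
    rw [sqact_coeff (m + 2) c P i (by have := i.2; omega)]

omit [IsAlgClosed k] [CharZero k] in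
private theorem QG2a_natDegree {n : ℕ} (P : PD k (n + 1)) : P.1.natDegree < n + 1 := by
  have h1 := P.2
  rw [Polynomial.mem_degreeLT] at h1
  by_cases h0 : P.1 = 0
  · rw [h0]
    simp
  · rw [Polynomial.degree_eq_natDegree h0] at h1
    exact_mod_cast h1

omit [IsAlgClosed k] [CharZero k] in
private theorem QG2a_eval {n : ℕ} (P : PD k (n + 1)) (t : k) :
    P.1.eval t = ∑ i ∈ Finset.range (n + 1), P.1.coeff i * t ^ i :=
  Polynomial.eval_eq_sum_range' (QG2a_natDegree P) t

omit [IsAlgClosed k] [CharZero k] in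
private theorem QG2a_eval' {n : ℕ} (P : PD k (n + 1)) (t : k) :
    (derivative P.1).eval t =
      ∑ i ∈ Finset.range (n + 1), P.1.coeff (i + 1) * ((i : k) + 1) * t ^ i := by
  have h1 := QG2a_eval (QG2a_der P) t
  have h2 : (QG2a_der P).1 = derivative P.1 := rfl
  rw [h2] at h1
  rw [h1]
  refine Finset.sum_congr rfl fun i _ => ?_
  rw [Polynomial.coeff_derivative]

private theorem QG2a_split (m : ℕ) :
    tcl (sqact k (m + 2)) (Sq k (m + 2)) + tcl (sqact k (m + 2)) (QG2aRed k m \ Sq k (m + 2)) =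
      br (m + 1) • ptc k := by
  have hsub : Sq k (m + 2) ⊆ QG2aRed k m := by
    rintro P ⟨h1, h2, h3⟩
    refine ⟨h1, h2, ?_⟩
    by_contra hc
    push Not at hc
    have h4 : P.1 = X ^ (m + 2) := by
      apply Polynomial.ext
      intro i
      rw [Polynomial.coeff_X_pow]
      by_cases hi : i < m + 1
      · rw [if_neg (by omega)]
        exact hc ⟨i, hi⟩
      · by_cases hi2 : i = m + 1
        · rw [if_neg (by omega), hi2]
          exact h2
        · by_cases hi3 : i = m + 2
          · rw [if_pos hi3, hi3, h1]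
          · rw [if_neg hi3, QG2a_coeff_ge P (by omega)]
    rw [QG2a_nsq] at h3
    apply h3
    refine ⟨0, ?_, ?_⟩
    · rw [h4]
      simp
    · rw [h4]
      simp
  rw [← QG2a_red_cl m, ← tcl_union (Sq_st _) ((QG2a_red_st m).diff (Sq_st _)) disjoint_sdiff_self_right,
    Set.union_sdiff_cancel hsub]

private theorem QG2a_ns3 : tcl (sqact k 3) (QG2aRed k 1 \ Sq k 3) = ptc k := by
  have hst := (QG2a_red_st (k := k) 1).diff (Sq_st 3)
  have hsq : ∀ P : PD k 4, P ∈ QG2aRed k 1 \ Sq k 3 ↔ P ∈ QG2aRed k 1 ∧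
      ∃ t : k, P.1.eval t = 0 ∧ (derivative P.1).eval t = 0 := by
    intro P
    constructor
    · rintro ⟨h1, h2⟩
      refine ⟨h1, ?_⟩
      by_contra hc
      exact h2 ⟨h1.1, h1.2.1, (QG2a_nsq P.1).2 hc⟩
    · rintro ⟨h1, h2⟩
      refine ⟨h1, fun h3 => ?_⟩
      exact (QG2a_nsq P.1).1 h3.2.2 h2
  have c0 : (QG2aP 1 ![(2 : k), -3]).1.coeff 0 = 2 := by rw [QG2aP_coeff]; simp
  have c1 : (QG2aP 1 ![(2 : k), -3]).1.coeff 1 = -3 := by rw [QG2aP_coeff]; simp
  have c2 : (QG2aP 1 ![(2 : k), -3]).1.coeff 2 = 0 := by rw [QG2aP_coeff]; simp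
  have c3 : (QG2aP 1 ![(2 : k), -3]).1.coeff 3 = 1 := by rw [QG2aP_coeff]; simp
  have c4 : (QG2aP 1 ![(2 : k), -3]).1.coeff 4 = 0 := by rw [QG2aP_coeff]; simp
  refine clq_one_class hst.dq (QG2aP 1 ![2, -3]) ?_ ?_
  · rw [hsq]
    refine ⟨⟨c3, c2, 0, ?_⟩, 1, ?_, ?_⟩
    · show (QG2aP 1 ![(2 : k), -3]).1.coeff 0 ≠ 0
      rw [c0]
      norm_num
    · rw [QG2a_eval]
      simp only [Finset.sum_range_succ, Finset.sum_range_zero, c0, c1, c2, c3]
      norm_num
    · rw [QG2a_eval']
      simp only [Finset.sum_range_succ, Finset.sum_range_zero, c1, c2, c3, c4, zero_add,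
        Nat.reduceAdd]
      norm_num
  · intro P hP
    rw [hsq] at hP
    obtain ⟨⟨h1, h2, i, h3⟩, t, h4, h5⟩ := hP
    rw [QG2a_eval] at h4
    rw [QG2a_eval'] at h5
    have h1' : P.1.coeff 3 = 1 := h1
    have h2' : P.1.coeff 2 = 0 := h2
    have h6 : P.1.coeff 4 = 0 := QG2a_coeff_ge P le_rfl
    simp only [Finset.sum_range_succ, Finset.sum_range_zero, zero_add, Nat.reduceAdd, h1', h2',
      h6] at h4 h5
    have e1 : P.1.coeff 1 = -3 * t ^ 2 := by
      push_cast at h5
      linear_combination h5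
    have e0 : P.1.coeff 0 = 2 * t ^ 3 := by
      rw [e1] at h4
      linear_combination h4
    have ht : t ≠ 0 := by
      rintro rfl
      apply h3
      fin_cases i
      · show P.1.coeff 0 = 0
        rw [e0]
        ring
      · show P.1.coeff 1 = 0
        rw [e1]
        ring
    refine ⟨Units.mk0 t ht, ?_⟩
    apply Subtype.ext
    apply Polynomial.ext
    intro j
    rw [QG2a_tcoeff]
    have hu : (((Units.mk0 t ht)⁻¹ : kˣ) : k) = t⁻¹ := rfl
    rw [hu, Units.val_pow_eq_pow_val, Units.val_mk0]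
    by_cases hj : 4 ≤ j
    · rw [QG2a_coeff_ge P hj, QG2a_coeff_ge _ hj]
      ring
    · interval_cases j
      · rw [c0, e0]
        ring
      · rw [c1, e1]
        field_simp
      · rw [c2, h2']
        ring
      · rw [c3, h1']
        field_simp

theorem Sq3_cl : tcl (sqact k 3) (Sq k 3) = L • ptc k := by
  have h1 := QG2a_split (k := k) 1
  have h2 : tcl (sqact k 3) (Sq k 3) + ptc k = br 2 • ptc k := by
    have h3 := QG2a_ns3 (k := k)
    have h4 : tcl (sqact k 3) (Sq k 3) + tcl (sqact k 3) (QG2aRed k 1 \ Sq k 3) =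
      br 2 • ptc k := h1
    rw [h3] at h4
    exact h4
  rw [eq_sub_of_add_eq h2, br_two, add_smul, one_smul]
  abel

private theorem QG2a_ns4 : tcl (sqact k 4) (QG2aRed k 2 \ Sq k 4) = br 2 • ptc k := by
  have hst := (QG2a_red_st (k := k) 2).diff (Sq_st 4)
  have hsq : ∀ P : PD k 5, P ∈ QG2aRed k 2 \ Sq k 4 ↔ P ∈ QG2aRed k 2 ∧
      ∃ t : k, P.1.eval t = 0 ∧ (derivative P.1).eval t = 0 := by
    intro P
    constructor
    · rintro ⟨h1, h2⟩
      refine ⟨h1, ?_⟩
      by_contra hc
      exact h2 ⟨h1.1, h1.2.1, (QG2a_nsq P.1).2 hc⟩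
    · rintro ⟨h1, h2⟩
      refine ⟨h1, fun h3 => ?_⟩
      exact (QG2a_nsq P.1).1 h3.2.2 h2
  have hQ : ∃ Q : (Fin 2 → k) → PD k 5, DM k (fun v => Q v) ∧ (∀ v, (Q v).1.coeff 0 = v 0 ^ 2 * v 1) ∧
      (∀ v, (Q v).1.coeff 1 = 2 * v 0 * (v 0 ^ 2 - v 1)) ∧
      (∀ v, (Q v).1.coeff 2 = v 1 - 3 * v 0 ^ 2) ∧ (∀ v, (Q v).1.coeff 3 = 0) ∧
      (∀ v, (Q v).1.coeff 4 = 1) ∧ (∀ v, (Q v).1.coeff 5 = 0) := by
    refine ⟨fun v => QG2aP 2 ![v 0 ^ 2 * v 1, 2 * v 0 * (v 0 ^ 2 - v 1), v 1 - 3 * v 0 ^ 2],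
      ?_, ?_, ?_, ?_, ?_, ?_, ?_⟩
    · refine DM.comp (QG2aP_dm (k := k) 2) (DM.pi fun i => ?_)
      fin_cases i
      · exact (by fun_prop : DM k (fun v : Fin 2 → k => v 0 ^ 2 * v 1))
      · exact (by fun_prop : DM k (fun v : Fin 2 → k => 2 * v 0 * (v 0 ^ 2 - v 1)))
      · exact (by fun_prop : DM k (fun v : Fin 2 → k => v 1 - 3 * v 0 ^ 2))
    · intro v; rw [QG2aP_coeff]; simp
    · intro v; rw [QG2aP_coeff]; simp
    · intro v; rw [QG2aP_coeff]; simp
    · intro v; rw [QG2aP_coeff]; simp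
    · intro v; rw [QG2aP_coeff]; simp
    · intro v; rw [QG2aP_coeff]; simp
  obtain ⟨Q, dQ, c0, c1, c2, c3, c4, c5⟩ := hQ
  have hw : ∀ i : Fin 2, 1 ≤ (![1, 2] : Fin 2 → ℕ) i := by
    intro i
    fin_cases i <;> simp
  rw [← wproj_cl 2 ![1, 2] hw]
  symm
  have hQt : ∀ (c : kˣ) (v : Fin 2 → k), Q ((wact k 2 ![1, 2]).t c v) = (sqact k 4).t c (Q v) := by
    intro c v
    have w0 : (wact k 2 ![1, 2]).t c v 0 = c * v 0 := by simp
    have w1 : (wact k 2 ![1, 2]).t c v 1 = (c : k) ^ 2 * v 1 := by simp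
    apply Subtype.ext
    apply Polynomial.ext
    intro j
    by_cases hj : 5 ≤ j
    · rw [QG2a_coeff_ge _ hj, QG2a_coeff_ge _ hj]
    · rw [sqact_coeff 4 c _ j (by omega), Units.val_pow_eq_pow_val]
      interval_cases j
      · rw [c0, c0, w0, w1]
        ring
      · rw [c1, c1, w0, w1]
        ring
      · rw [c2, c2, w0, w1]
        ring
      · rw [c3, c3]
        ring
      · rw [c4, c4]
        ring
  refine clq_map (QG2a_wst 2 ![1, 2]).dq hst.dq Q dQ ?_ ?_ ?_
  · intro v hv
    rw [hsq]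
    refine ⟨⟨c4 v, c3 v, ?_⟩, v 0, ?_, ?_⟩
    · by_contra hc
      push Not at hc
      have e0 : (Q v).1.coeff 0 = 0 := hc 0
      have e1 : (Q v).1.coeff 1 = 0 := hc 1
      have e2 : (Q v).1.coeff 2 = 0 := hc 2
      rw [c0] at e0
      rw [c2] at e2
      have h1 : v 1 = 3 * v 0 ^ 2 := by linear_combination e2
      rw [h1] at e0
      have h2 : v 0 ^ 4 = 0 := by
        have h3 : (3 : k) * v 0 ^ 4 = 0 := by linear_combination e0
        exact (mul_eq_zero.1 h3).resolve_left (by norm_num)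
      have h3 : v 0 = 0 := by simpa using h2
      apply hv
      funext i
      fin_cases i
      · exact h3
      · show v 1 = 0
        rw [h1, h3]
        ring
    · rw [QG2a_eval]
      simp only [Finset.sum_range_succ, Finset.sum_range_zero, c0, c1, c2, c3, c4]
      ring
    · rw [QG2a_eval']
      simp only [Finset.sum_range_succ, Finset.sum_range_zero, c1, c2, c3, c4, c5, zero_add,
        Nat.reduceAdd]
      push_cast
      ring
  · intro v _ v' _
    constructor
    · rintro ⟨c, rfl⟩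
      exact ⟨c, (hQt c v).symm⟩
    · rintro ⟨c, hc⟩
      rw [← hQt] at hc
      have w0 : (wact k 2 ![1, 2]).t c v 0 = c * v 0 := by simp
      have w1 : (wact k 2 ![1, 2]).t c v 1 = (c : k) ^ 2 * v 1 := by simp
      have e0 : (Q ((wact k 2 ![1, 2]).t c v)).1.coeff 0 = (Q v').1.coeff 0 := by rw [hc]
      have e1 : (Q ((wact k 2 ![1, 2]).t c v)).1.coeff 1 = (Q v').1.coeff 1 := by rw [hc]
      have e2 : (Q ((wact k 2 ![1, 2]).t c v)).1.coeff 2 = (Q v').1.coeff 2 := by rw [hc]
      rw [c0, c0] at e0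
      rw [c1, c1] at e1
      rw [c2, c2] at e2
      set x := (wact k 2 ![1, 2]).t c v 0 with hx
      set y := (wact k 2 ![1, 2]).t c v 1 with hy
      have key : y = v' 1 ∧ (x = v' 0 ∨ x = -v' 0) := by
        have h1 : y = v' 1 - 3 * v' 0 ^ 2 + 3 * x ^ 2 := by linear_combination e2
        have h2 : (x ^ 2 - v' 0 ^ 2) * (v' 1 + 3 * x ^ 2) = 0 := by
          rw [h1] at e0
          linear_combination e0
        rcases mul_eq_zero.1 h2 with h3 | h3
        · have h4 : (x - v' 0) * (x + v' 0) = 0 := by linear_combination h3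
          refine ⟨by linear_combination h1 + 3 * h3, ?_⟩
          rcases mul_eq_zero.1 h4 with h5 | h5
          · exact Or.inl (sub_eq_zero.1 h5)
          · exact Or.inr (eq_neg_of_add_eq_zero_left h5)
        · have h4 : v' 1 = -3 * x ^ 2 := by linear_combination h3
          have h5 : y = -3 * v' 0 ^ 2 := by
            rw [h1, h4]
            ring
          have h6 : (x - v' 0) ^ 3 = 0 := by
            rw [h5, h4] at e1
            have h7 : (2 : k) * (x - v' 0) ^ 3 = 0 := by linear_combination e1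
            exact (mul_eq_zero.1 h7).resolve_left (by norm_num)
          have h7 : x = v' 0 := by
            have h8 : x - v' 0 = 0 := by simpa using h6
            exact sub_eq_zero.1 h8
          refine ⟨?_, Or.inl h7⟩
          rw [h5, h4, h7]
      obtain ⟨hk1, hk2 | hk2⟩ := key
      · refine ⟨c, ?_⟩
        funext i
        fin_cases i
        · exact hk2
        · exact hk1
      · refine ⟨-c, ?_⟩
        have w0' : (wact k 2 ![1, 2]).t (-c) v 0 = -x := by
          rw [w0]
          simp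
        have w1' : (wact k 2 ![1, 2]).t (-c) v 1 = y := by
          rw [w1]
          simp
        funext i
        fin_cases i
        · show (wact k 2 ![1, 2]).t (-c) v 0 = v' 0
          rw [w0', hk2, neg_neg]
        · show (wact k 2 ![1, 2]).t (-c) v 1 = v' 1
          rw [w1', hk1]
  · intro P hP
    have hP' := hP
    rw [hsq] at hP'
    obtain ⟨⟨h1, h2, i, h3⟩, t, h4, h5⟩ := hP'
    rw [QG2a_eval] at h4
    rw [QG2a_eval'] at h5
    have h1' : P.1.coeff 4 = 1 := h1
    have h2' : P.1.coeff 3 = 0 := h2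
    have h6 : P.1.coeff 5 = 0 := QG2a_coeff_ge P le_rfl
    simp only [Finset.sum_range_succ, Finset.sum_range_zero, zero_add, Nat.reduceAdd, h1', h2',
      h6] at h4 h5
    push_cast at h5
    have hPQ : Q ![t, P.1.coeff 2 + 3 * t ^ 2] = P := by
      apply Subtype.ext
      apply Polynomial.ext
      intro j
      by_cases hj : 5 ≤ j
      · rw [QG2a_coeff_ge _ hj, QG2a_coeff_ge _ hj]
      · interval_cases j
        · rw [c0]
          simp only [Matrix.cons_val_zero, Matrix.cons_val_one]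
          linear_combination t * h5 - h4
        · rw [c1]
          simp only [Matrix.cons_val_zero, Matrix.cons_val_one]
          linear_combination -h5
        · rw [c2]
          simp only [Matrix.cons_val_zero, Matrix.cons_val_one]
          ring
        · rw [c3, h2']
        · rw [c4, h1']
    refine ⟨![t, P.1.coeff 2 + 3 * t ^ 2], ?_, ?_⟩
    · intro h0
      rw [h0] at hPQ
      apply h3
      rw [← hPQ]
      fin_cases i
      · show (Q 0).1.coeff 0 = 0
        rw [c0]
        simp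
      · show (Q 0).1.coeff 1 = 0
        rw [c1]
        simp
      · show (Q 0).1.coeff 2 = 0
        rw [c2]
        simp
    · rw [hPQ]
      exact hst.dq.refl P hP

theorem Sq4_cl : tcl (sqact k 4) (Sq k 4) = (L ^ 2) • ptc k := by
  have h1 := QG2a_split (k := k) 2
  have h2 : tcl (sqact k 4) (Sq k 4) + br 2 • ptc k = br 3 • ptc k := by
    rw [← QG2a_ns4]
    exact h1
  rw [eq_sub_of_add_eq h2, ← sub_smul]
  congr 1
  rw [br_two, br_three]
  ring

/-! ### The second part: `conf4_B`, `rat_zero_orb`, `q4_zero` -/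

/-- The quartic form of a polynomial of degree at most `n`, where `n ≤ 4`. -/
private def qg2f (n : ℕ) (P : PD k (n + 1)) : Form k 4 := Form.of (fun i => P.1.coeff (i : ℕ))

private theorem qg2f_dm (n : ℕ) {f : X → PD k (n + 1)} (hf : DM k f) :
    DM k (fun x => qg2f n (f x)) := by
  unfold qg2f
  exact DM.form_of (DM.pi fun i => DM.pcoeff hf i)

private theorem qg2_coeff_gt {n : ℕ} (P : PD k (n + 1)) {i : ℕ} (h : n < i) :
    P.1.coeff i = 0 := by
  have h1 := Polynomial.mem_degreeLT.mp P.2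
  refine Polynomial.coeff_eq_zero_of_degree_lt (lt_of_lt_of_le h1 ?_)
  exact_mod_cast (by omega : n + 1 ≤ i)

private theorem qg2_monic {n : ℕ} (z : Fin n → k) :
    (∏ i, (Polynomial.X - Polynomial.C (z i))).Monic ∧
      (∏ i, (Polynomial.X - Polynomial.C (z i))).natDegree = n := by
  refine ⟨Polynomial.monic_prod_of_monic _ _ fun i _ => Polynomial.monic_X_sub_C _, ?_⟩
  rw [Polynomial.natDegree_prod_of_monic _ _ fun i _ => Polynomial.monic_X_sub_C _]
  simp

/-- The polynomial with given roots. -/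
private def qg2p {n : ℕ} (z : Fin n → k) : PD k (n + 1) :=
  ⟨∏ i, (Polynomial.X - Polynomial.C (z i)), by
    rw [Polynomial.mem_degreeLT, Polynomial.degree_eq_natDegree (qg2_monic z).1.ne_zero,
      (qg2_monic z).2]
    exact_mod_cast Nat.lt_succ_self n⟩

private theorem qg2p_coe {n : ℕ} (z : Fin n → k) :
    (qg2p z).1 = ∏ i, (Polynomial.X - Polynomial.C (z i)) := rfl

private theorem qg2p_top {n : ℕ} (z : Fin n → k) : (qg2p z).1.coeff n = 1 := by
  have h := (qg2_monic z).1
  rw [Polynomial.Monic, Polynomial.leadingCoeff, (qg2_monic z).2] at h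
  exact h

private theorem qg2p_sub {n : ℕ} (hn : 0 < n) (z : Fin n → k) :
    (qg2p z).1.coeff (n - 1) = - ∑ i, z i := by
  have h := Polynomial.prod_X_sub_C_coeff_card_pred (Finset.univ : Finset (Fin n)) z
    (by simpa using hn)
  rw [Finset.card_univ, Fintype.card_fin] at h
  exact h

private theorem qg2p_sq {n : ℕ} (z : Fin n → k) :
    Squarefree (qg2p z).1 ↔ Function.Injective z := by
  rw [qg2p_coe, ← PerfectField.separable_iff_squarefree, Polynomial.separable_prod_X_sub_C_iff]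

private theorem qg2p_mem {n : ℕ} (hn : 0 < n) (z : Fin n → k) (hz : Function.Injective z)
    (h0 : ∑ i, z i = 0) : qg2p z ∈ Sq k n :=
  ⟨qg2p_top z, by rw [qg2p_sub hn, h0, neg_zero], (qg2p_sq z).2 hz⟩

private theorem qg2p_ex {n : ℕ} (hn : 0 < n) {P : PD k (n + 1)} (h : P ∈ Sq k n) :
    ∃ z : Fin n → k, Function.Injective z ∧ ∑ i, z i = 0 ∧ P = qg2p z := by
  obtain ⟨h1, h2, h3⟩ := h
  have hdeg : P.1.natDegree = n := by
    apply le_antisymm
    · rw [Polynomial.natDegree_le_iff_coeff_eq_zero]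
      intro i hi
      exact qg2_coeff_gt P hi
    · refine Polynomial.le_natDegree_of_ne_zero ?_
      rw [h1]
      exact one_ne_zero
  have hmon : P.1.Monic := by
    rw [Polynomial.Monic, Polynomial.leadingCoeff, hdeg, h1]
  have hspl := IsAlgClosed.splits P.1
  have hcard : P.1.roots.toList.length = n := by
    rw [Multiset.length_toList]
    exact hspl.natDegree_eq_card_roots.symm.trans hdeg
  have hprod : P.1 = (P.1.roots.toList.map (fun a => Polynomial.X - Polynomial.C a)).prod := by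
    conv_lhs => rw [hspl.eq_prod_roots_of_monic hmon]
    rw [← Multiset.coe_toList P.1.roots, Multiset.map_coe, Multiset.prod_coe, Multiset.coe_toList]
  obtain ⟨l, hl⟩ : ∃ l, P.1.roots.toList = l := ⟨_, rfl⟩
  rw [hl] at hcard hprod
  subst hcard
  have hP : P = qg2p (fun i => l.get i) := by
    apply Subtype.ext
    rw [hprod, qg2p_coe]
    exact (Fin.prod_univ_fun_getElem l (fun a => Polynomial.X - Polynomial.C a)).symm
  refine ⟨fun i => l.get i, ?_, ?_, hP⟩
  · rw [hP] at h3
    exact (qg2p_sq _).1 h3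
  · rw [hP, qg2p_sub hn] at h2
    exact neg_eq_zero.mp h2

private theorem qg2_eval {n : ℕ} (hn : n ≤ 4) (P : PD k (n + 1)) (v : Fin 2 → k) :
    ((qg2f n P).1 v = ∑ i ∈ Finset.range 5, P.1.coeff i * v 0 ^ i * v 1 ^ (4 - i)) ∧
      ∀ x : k, P.1.eval x = ∑ i ∈ Finset.range 5, P.1.coeff i * x ^ i := by
  constructor
  · unfold qg2f
    rw [Form.of_apply]
    exact Fin.sum_univ_eq_sum_range (fun i => P.1.coeff i * v 0 ^ i * v 1 ^ (4 - i)) 5
  · intro x
    by_cases hP : P.1 = 0
    · rw [hP]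
      simp
    · refine Polynomial.eval_eq_sum_range' ?_ x
      have h1 := Polynomial.mem_degreeLT.mp P.2
      rw [Polynomial.degree_eq_natDegree hP] at h1
      have h2 : P.1.natDegree < n + 1 := by exact_mod_cast h1
      omega

/-- The values of the form. -/
private theorem qg2_val {n : ℕ} (hn : n ≤ 4) (z : Fin n → k) (v : Fin 2 → k) :
    (qg2f n (qg2p z)).1 v = v 1 ^ (4 - n) * ∏ i, (v 0 - z i * v 1) := by
  obtain ⟨E1, E2⟩ := qg2_eval hn (qg2p z) v
  rw [E1]
  by_cases hv : v 1 = 0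
  · rw [hv]
    simp only [mul_zero, sub_zero]
    rw [Finset.sum_eq_single 4]
    · rcases hn.eq_or_lt with rfl | hn'
      · rw [qg2p_top z]
        simp
      · rw [qg2_coeff_gt (qg2p z) hn', zero_pow (by omega : 4 - n ≠ 0)]
        simp
    · intro i hi hi4
      rw [Finset.mem_range] at hi
      rw [zero_pow (by omega : 4 - i ≠ 0), mul_zero]
    · intro h
      simp at h
  · have h0 : ∑ i ∈ Finset.range 5, (qg2p z).1.coeff i * v 0 ^ i * v 1 ^ (4 - i) =
        v 1 ^ 4 * (qg2p z).1.eval (v 0 / v 1) := by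
      rw [E2, Finset.mul_sum]
      refine Finset.sum_congr rfl fun i hi => ?_
      rw [Finset.mem_range] at hi
      have h1 : v 1 ^ 4 = v 1 ^ (4 - i) * v 1 ^ i := by
        rw [← pow_add]
        congr 1
        omega
      rw [h1, div_pow]
      field_simp
    rw [h0]
    have h1 : (qg2p z).1 = ∏ i, (Polynomial.X - Polynomial.C (z i)) := rfl
    rw [h1, Polynomial.eval_prod]
    have h2 : ∏ i, (v 0 - z i * v 1) = v 1 ^ n * ∏ i, (v 0 / v 1 - z i) := by
      have h3 : ∀ i : Fin n, v 0 - z i * v 1 = v 1 * (v 0 / v 1 - z i) := by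
        intro i
        field_simp
      rw [Finset.prod_congr rfl fun i _ => h3 i, Finset.prod_mul_distrib]
      simp
    rw [h2, ← mul_assoc, ← pow_add, Nat.sub_add_cancel hn]
    simp

/-- Uniqueness. -/
private theorem qg2_uniq {n : ℕ} (hn : n ≤ 4) {P P' : PD k (n + 1)} (h1 : P.1.coeff n = 1)
    (h1' : P'.1.coeff n = 1) {y : ℙ k (Form k 4)} (h : isrep (qg2f n P) y)
    (h' : isrep (qg2f n P') y) : P = P' := by
  obtain ⟨h0, h2⟩ := h
  obtain ⟨h0', h2'⟩ := h'
  rw [← h2', Projectivization.mk_eq_mk_iff'] at h2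
  obtain ⟨u, hu⟩ := h2
  have hc : ∀ i : Fin (4 + 1), u * P'.1.coeff (i : ℕ) = P.1.coeff (i : ℕ) := by
    intro i
    have h3 := congrArg (coeffE k 4) hu
    rw [map_smul] at h3
    unfold qg2f Form.of at h3
    rw [LinearEquiv.apply_symm_apply, LinearEquiv.apply_symm_apply] at h3
    exact congrFun h3 i
  have hu1 : u = 1 := by
    have h4 := hc ⟨n, by omega⟩
    simp only [h1, h1', mul_one] at h4
    exact h4
  apply Subtype.ext
  ext i
  by_cases hi : i < 4 + 1
  · have h5 := hc ⟨i, hi⟩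
    rw [hu1, one_mul] at h5
    exact h5.symm
  · rw [qg2_coeff_gt P (by omega), qg2_coeff_gt P' (by omega)]

private theorem qg2_isrep_eq {F : Form k 4} {y y' : ℙ k (Form k 4)} (h : isrep F y)
    (h' : isrep F y') : y = y' := by
  obtain ⟨_, rfl⟩ := h
  obtain ⟨_, rfl⟩ := h'
  rfl

private theorem qg2_affP_ptz (a : kˣ) (b z : k) : affP a b • ptz z = ptz (a * z + b) := by
  rw [affP_eq_gm, gm_smul_ptz _ (by simp)]
  simp

private theorem qg2_affP_ptI (a : kˣ) (b : k) : affP a b • ptI k = ptI k := by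
  rw [affP_eq_gm]
  exact gm_smul_ptI' _ rfl

/-- The action on polynomials with given roots. -/
private theorem qg2_act {n : ℕ} (c : kˣ) (z : Fin n → k) :
    (sqact k n).t c (qg2p z) = qg2p (fun i => c * z i) := by
  apply Subtype.ext
  show Polynomial.C ((c ^ n : kˣ) : k) * (qg2p z).1.comp
    (Polynomial.C ((c⁻¹ : kˣ) : k) * Polynomial.X) = _
  rw [qg2p_coe, qg2p_coe, Polynomial.prod_comp]
  have h1 : Polynomial.C ((c ^ n : kˣ) : k) = ∏ _i : Fin n, Polynomial.C (c : k) := by
    simp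
  rw [h1, ← Finset.prod_mul_distrib]
  refine Finset.prod_congr rfl fun i _ => ?_
  simp only [Polynomial.sub_comp, Polynomial.X_comp, Polynomial.C_comp, mul_sub]
  rw [← mul_assoc, ← Polynomial.C_mul, ← Polynomial.C_mul]
  simp

/-- The data of a family of tuples of points. -/
private structure QG2T (k : Type) [Field k] [IsAlgClosed k] [CharZero k] (n : ℕ)
    (τ : (Fin n → k) → (Fin 4 → PL k)) : Prop where
  n0 : 0 < n
  n4 : n ≤ 4
  rep : ∀ z, isrep (qg2f n (qg2p z)) (rootF (τ z))
  aff : ∀ (a : kˣ) (b : k) z, affP a b • rootF (τ z) = rootF (τ fun i => a * z i + b)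
  dm : DM k τ

/-- The set of forms. -/
private def qg2A (k : Type) [Field k] [IsAlgClosed k] [CharZero k] (n : ℕ)
    (τ : (Fin n → k) → (Fin 4 → PL k)) : Set (ℙ k (Form k 4)) :=
  {y | ∃ z : Fin n → k, Function.Injective z ∧ rootF (τ z) = y}

private theorem qg2_dm_rootF {f : X → Fin 4 → PL k} (hf : DM k f) :
    DM k (fun x => rootF (f x)) := DM.comp rootF_dm hf

private theorem qg2A_dm {n : ℕ} {τ : (Fin n → k) → (Fin 4 → PL k)} (h : QG2T k n τ) :
    DM k (fun y => y ∈ qg2A k n τ) := by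
  unfold qg2A Function.Injective
  simp only [Set.mem_ofPred_eq]
  refine DM.ex (DM.and ?_ ?_)
  · have h1 : ∀ i j : Fin n, DM k (fun p : ℙ k (Form k 4) × (Fin n → k) =>
        p.2 i = p.2 j → i = j) := by
      intro i j
      exact DM.imp (DM.eq (by fun_prop) (by fun_prop)) (DM.const' _)
    have h2 := DM_iff_DS.2 (DS.fall fun i => DS.fall fun j => DM_iff_DS.1 (h1 i j))
    exact h2
  · have h3 : DM k (fun p : ℙ k (Form k 4) × (Fin n → k) => rootF (τ p.2)) :=
      qg2_dm_rootF (DM.comp h.dm (DM.snd DM.id'))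
    exact DM.eq h3 (by fun_prop)

private theorem qg2A_st {n : ℕ} {τ : (Fin n → k) → (Fin 4 → PL k)} (h : QG2T k n τ) (a : kˣ)
    (b : k) {y : ℙ k (Form k 4)} (hy : y ∈ qg2A k n τ) : affP a b • y ∈ qg2A k n τ := by
  obtain ⟨z, hz, rfl⟩ := hy
  refine ⟨fun i => a * z i + b, ?_, (h.aff a b z).symm⟩
  intro i j hij
  apply hz
  simpa using hij

private theorem qg2_clq {n : ℕ} {τ : (Fin n → k) → (Fin 4 → PL k)} (h : QG2T k n τ)
    (hq : DQ k (qg2A k n τ) (relB k)) :
    tcl (sqact k n) (Sq k n) = clq k (qg2A k n τ) (relB k) := by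
  refine clq_corr (Sq_st n).dq hq
    (fun P y => ∃ b : k, isrep (qg2f n P) (affP (1 : kˣ) b • y)) ?_ ?_ ?_ ?_
  · refine DM.ex (DM.isrep (qg2f_dm n (by fun_prop)) ?_)
    fun_prop
  · intro P hP
    obtain ⟨z, hz, -, rfl⟩ := qg2p_ex h.n0 hP
    refine ⟨rootF (τ z), ⟨z, hz, rfl⟩, 0, ?_⟩
    rw [affP_one, one_smul]
    exact h.rep z
  · rintro y ⟨z, hz, rfl⟩
    have hn : (n : k) ≠ 0 := Nat.cast_ne_zero.2 h.n0.ne'
    set m : k := (∑ i, z i) / n with hm
    refine ⟨qg2p (fun i => z i + -m), qg2p_mem h.n0 _ ?_ ?_, -m, ?_⟩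
    · intro i j hij
      apply hz
      simpa using hij
    · rw [Finset.sum_add_distrib, Finset.sum_const, Finset.card_univ, Fintype.card_fin,
        nsmul_eq_mul, hm]
      field_simp
      ring
    · rw [h.aff]
      simp only [Units.val_one, one_mul]
      exact h.rep _
  · rintro P hP y hy ⟨b, hb⟩ P' hP' y' hy' ⟨b', hb'⟩
    obtain ⟨z, hz, hz0, rfl⟩ := qg2p_ex h.n0 hP
    obtain ⟨z', hz', hz0', rfl⟩ := qg2p_ex h.n0 hP'
    have e1 : affP (1 : kˣ) b • y = rootF (τ z) := qg2_isrep_eq hb (h.rep z)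
    have e1' : affP (1 : kˣ) b' • y' = rootF (τ z') := qg2_isrep_eq hb' (h.rep z')
    have key : relB k y y' ↔ relB k (rootF (τ z)) (rootF (τ z')) := by
      rw [← e1, ← e1']
      constructor
      · rintro ⟨a, c, rfl⟩
        refine ⟨a, a * (-b) + c + b', ?_⟩
        rw [← mul_smul, ← mul_smul, affP_mul, affP_mul]
        congr 2
        · simp
        · simp only [Units.val_one]
          ring
      · rintro ⟨a, c, hac⟩
        refine ⟨a, a * b + c - b', ?_⟩
        have h5 : y' = affP (1 : kˣ) (-b') • affP (1 : kˣ) b' • y' := by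
          rw [← mul_smul, affP_mul]
          simp [affP_one]
        rw [h5, ← hac, ← mul_smul, ← mul_smul, affP_mul, affP_mul]
        congr 2
        · simp
        · simp only [Units.val_one, one_mul]
          ring
    rw [key]
    constructor
    · rintro ⟨c, hc⟩
      refine ⟨c, 0, ?_⟩
      rw [qg2_act] at hc
      rw [h.aff]
      simp only [add_zero]
      refine qg2_isrep_eq (h.rep _) ?_
      rw [hc]
      exact h.rep z'
    · rintro ⟨a, c, hac⟩
      rw [h.aff] at hac
      have h6 : qg2p (fun i => (a : k) * z i + c) = qg2p z' := by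
        refine qg2_uniq h.n4 (qg2p_top _) (qg2p_top _) (h.rep _) ?_
        rw [hac]
        exact h.rep z'
      have h7 : c = 0 := by
        have h8 := congrArg (fun P : PD k (n + 1) => P.1.coeff (n - 1)) h6
        simp only [qg2p_sub h.n0, hz0'] at h8
        rw [Finset.sum_add_distrib, ← Finset.mul_sum, hz0, Finset.sum_const, Finset.card_univ,
          Fintype.card_fin, nsmul_eq_mul] at h8
        have hn : (n : k) ≠ 0 := Nat.cast_ne_zero.2 h.n0.ne'
        simpa [hn] using h8
      refine ⟨a, ?_⟩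
      rw [qg2_act, ← h6, h7]
      simp only [add_zero]

/-- Four finite roots. -/
private def qg2t4 (k : Type) [Field k] (z : Fin 4 → k) : Fin 4 → PL k := fun i => ptz (z i)

/-- Three finite roots and infinity. -/
private def qg2t3 (k : Type) [Field k] (z : Fin 3 → k) : Fin 4 → PL k :=
  Fin.cons (ptI k) (fun i => ptz (z i))

private theorem qg2_ptz_dm {f : X → k} (hf : DM k f) : DM k (fun x => ptz (f x)) := by
  unfold ptz
  refine DM.pmk ?_ _
  refine DM.pi (fun i => ?_)
  fin_cases i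
  · exact hf
  · exact DM.const' 1

private theorem qg2T4 : QG2T k 4 (qg2t4 k) where
  n0 := by norm_num
  n4 := le_rfl
  rep z := by
    have h1 : rootF (qg2t4 k z) = rootF (fun i => Projectivization.mk k ![z i, 1] (vec_ne (z i))) :=
      rfl
    rw [h1, rootF_mk]
    have h2 : qg2f 4 (qg2p z) = (⟨fun v => ∏ i, lin ![z i, 1] v, prod_lin_mem _⟩ : Form k 4) := by
      apply Subtype.ext
      funext v
      rw [qg2_val le_rfl]
      simp only [lin, Matrix.cons_val_zero, Matrix.cons_val_one, one_mul]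
      have h3 : ∀ i : Fin 4, z i * v 1 - v 0 = (-1) * (v 0 - z i * v 1) := fun i => by ring
      rw [Finset.prod_congr rfl fun i _ => h3 i, Finset.prod_mul_distrib, Finset.prod_const,
        Finset.card_univ, Fintype.card_fin]
      norm_num
    refine ⟨?_, ?_⟩
    · rw [h2]
      exact prod_lin_ne _ fun i => vec_ne (z i)
    · rw [Projectivization.mk_eq_mk_iff']
      exact ⟨1, by rw [one_smul, h2]⟩
  aff a b z := by
    rw [rootF_smul]
    congr 1
    funext i
    exact qg2_affP_ptz a b (z i)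
  dm := by
    unfold qg2t4
    exact DM.pi fun i => qg2_ptz_dm (DM.apply i)

private theorem qg2T3 : QG2T k 3 (qg2t3 k) where
  n0 := by norm_num
  n4 := by norm_num
  rep z := by
    have hne : ∀ i : Fin 4, (Fin.cons ![1, 0] (fun i : Fin 3 => ![z i, 1]) : Fin 4 → (Fin 2 → k)) i
        ≠ 0 := by
      intro i
      refine Fin.cases ?_ (fun j => ?_) i
      · exact vec_ne'
      · exact vec_ne (z j)
    have h1 : rootF (qg2t3 k z) = rootF (fun i => Projectivization.mk k
        ((Fin.cons ![1, 0] (fun i : Fin 3 => ![z i, 1]) : Fin 4 → (Fin 2 → k)) i) (hne i)) := by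
      congr 1
      funext i
      refine Fin.cases ?_ (fun j => ?_) i
      · rfl
      · rfl
    rw [h1, rootF_mk]
    have h2 : qg2f 3 (qg2p z) = (-1 : k) • (⟨fun v => ∏ i, lin
        ((Fin.cons ![1, 0] (fun i : Fin 3 => ![z i, 1]) : Fin 4 → (Fin 2 → k)) i) v,
        prod_lin_mem _⟩ : Form k 4) := by
      apply Subtype.ext
      funext v
      rw [qg2_val (by norm_num)]
      show _ = (-1 : k) * ∏ i, lin
        ((Fin.cons ![1, 0] (fun i : Fin 3 => ![z i, 1]) : Fin 4 → (Fin 2 → k)) i) v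
      have h4 : ∏ i, lin
          ((Fin.cons ![1, 0] (fun i : Fin 3 => ![z i, 1]) : Fin 4 → (Fin 2 → k)) i) v =
          lin ![1, 0] v * ∏ i : Fin 3, lin ![z i, 1] v := by
        rw [Fin.prod_univ_succ]
        rfl
      rw [h4]
      simp only [lin, Matrix.cons_val_zero, Matrix.cons_val_one, one_mul, zero_mul, sub_zero]
      have h3 : ∀ i : Fin 3, z i * v 1 - v 0 = (-1) * (v 0 - z i * v 1) := fun i => by ring
      rw [Finset.prod_congr rfl fun i _ => h3 i, Finset.prod_mul_distrib, Finset.prod_const,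
        Finset.card_univ, Fintype.card_fin]
      norm_num
    refine ⟨?_, ?_⟩
    · rw [h2]
      exact smul_ne_zero (by norm_num) (prod_lin_ne _ hne)
    · rw [Projectivization.mk_eq_mk_iff']
      exact ⟨-1, by rw [h2]⟩
  aff a b z := by
    rw [rootF_smul]
    congr 1
    funext i
    refine Fin.cases ?_ (fun j => ?_) i
    · exact qg2_affP_ptI a b
    · exact qg2_affP_ptz a b (z j)
  dm := by
    unfold qg2t3
    refine DM.pi fun i => ?_
    refine Fin.cases ?_ (fun j => ?_) i
    · exact DM.const' (ptI k)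
    · exact qg2_ptz_dm (DM.apply j)

private theorem qg2_Conf : Conf k 4 = qg2A k 4 (qg2t4 k) ∪ qg2A k 3 (qg2t3 k) := by
  ext y
  constructor
  · rintro ⟨a, ha, rfl⟩
    by_cases h : ∃ j, a j = ptI k
    · right
      obtain ⟨j, hj⟩ := h
      have h1 : rootF a = rootF (fun i => a (Equiv.swap 0 j i)) :=
        (rootF_eq _ _).2 ⟨Equiv.swap 0 j, fun i => rfl⟩
      have hb : Function.Injective (fun i => a (Equiv.swap 0 j i)) :=
        ha.comp (Equiv.swap 0 j).injective
      have hb0 : (fun i => a (Equiv.swap 0 j i)) 0 = ptI k := by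
        simp [hj]
      have h2 : ∀ i : Fin 3, ∃ z : k, (fun i => a (Equiv.swap 0 j i)) i.succ = ptz z := by
        intro i
        rcases pl_cases ((fun i => a (Equiv.swap 0 j i)) i.succ) with h3 | h3
        · exact absurd (hb (h3.trans hb0.symm)) (Fin.succ_ne_zero i)
        · exact h3
      choose z hz using h2
      refine ⟨z, ?_, ?_⟩
      · intro i i' hii
        have h4 : (fun i => a (Equiv.swap 0 j i)) i.succ =
            (fun i => a (Equiv.swap 0 j i)) i'.succ := by
          rw [hz, hz, hii]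
        exact Fin.succ_injective _ (hb h4)
      · rw [h1]
        congr 1
        funext i
        refine Fin.cases ?_ (fun i => ?_) i
        · exact hb0.symm
        · exact (hz i).symm
    · left
      have h2 : ∀ i : Fin 4, ∃ z : k, a i = ptz z := by
        intro i
        rcases pl_cases (a i) with h3 | h3
        · exact absurd ⟨i, h3⟩ h
        · exact h3
      choose z hz using h2
      refine ⟨z, ?_, ?_⟩
      · intro i i' hii
        apply ha
        rw [hz, hz, hii]
      · congr 1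
        funext i
        exact (hz i).symm
  · rintro (⟨z, hz, rfl⟩ | ⟨z, hz, rfl⟩)
    · exact ⟨_, fun i j hij => hz (ptz_inj.1 hij), rfl⟩
    · refine ⟨_, ?_, rfl⟩
      unfold qg2t3
      rw [Fin.cons_injective_iff]
      refine ⟨?_, fun i j hij => hz (ptz_inj.1 hij)⟩
      rintro ⟨i, hi⟩
      exact ptz_ne_ptI _ hi

private theorem qg2_disj {y : ℙ k (Form k 4)} (h : y ∈ qg2A k 4 (qg2t4 k))
    (h' : y ∈ qg2A k 3 (qg2t3 k)) : False := by
  obtain ⟨z, hz, rfl⟩ := h
  obtain ⟨z', hz', h1⟩ := h'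
  obtain ⟨σ, hσ⟩ := (rootF_eq _ _).1 h1.symm
  exact ptz_ne_ptI _ (hσ 0).symm

theorem conf4_B : clq k (Conf k 4) (relB k) =
    tcl (sqact k 4) (Sq k 4) + tcl (sqact k 3) (Sq k 3) := by
  have h := relB_dq (Conf_gset (k := k) 4)
  have h4 := qg2A_dm (qg2T4 (k := k))
  have h3 := qg2A_dm (qg2T3 (k := k))
  have s4 : qg2A k 4 (qg2t4 k) ⊆ Conf k 4 := by
    rw [qg2_Conf]
    exact Set.subset_union_left
  have s3 : qg2A k 3 (qg2t3 k) ⊆ Conf k 4 := by
    rw [qg2_Conf]
    exact Set.subset_union_right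
  rw [qg2_clq qg2T4 (h.mono h4 s4), qg2_clq qg2T3 (h.mono h3 s3), qg2_Conf]
  rw [qg2_Conf] at h
  refine clq_union h h4 h3 (fun y hy hy' => qg2_disj hy hy') ?_
  rintro x hx y hy ⟨a, b, rfl⟩
  exact qg2_disj (qg2A_st qg2T4 a b hx) hy

/-- Evaluation of constant pairs. -/
private def qg2e (k : Type) [Field k] [IsAlgClosed k] [CharZero k] :
    SM k 0 →ₗ[k] (Fin 2 → k) where
  toFun F := F.1 0
  map_add' _ _ := rfl
  map_smul' _ _ := rfl

private theorem qg2e_const (F : SM k 0) (v : Fin 2 → k) : F.1 v = F.1 0 := by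
  have h := sm_smul F 0 v
  rw [zero_smul, pow_zero, one_smul] at h
  exact h.symm

private theorem qg2e_inj : Function.Injective (qg2e k) := by
  intro F G h
  apply Subtype.ext
  funext v
  rw [qg2e_const F v, qg2e_const G v]
  exact h

private def qg2m (k : Type) [Field k] [IsAlgClosed k] [CharZero k] (p : ℙ k (SM k 0)) : PL k :=
  Projectivization.map (qg2e k) qg2e_inj p

private theorem qg2m_mk (F : SM k 0) (hF : F ≠ 0) (h : F.1 0 ≠ 0) :
    qg2m k (Projectivization.mk k F hF) = Projectivization.mk k (F.1 0) h := rfl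

private theorem qg2e_ne {F : SM k 0} (hF : F ≠ 0) : F.1 0 ≠ 0 := by
  intro h
  exact hF (qg2e_inj (h.trans (map_zero (qg2e k)).symm))

private theorem qg2m_dm : DM k (qg2m k) := by
  refine DM.of_graph (R := fun p q => ∃ F : SM k 0, isrep F p ∧ isrep (F.1 0) q) ?_ ?_
  · refine DM.ex (DM.and (DM.isrep (by fun_prop) (by fun_prop)) (DM.isrep ?_ (by fun_prop)))
    exact DM.sm_eval (by fun_prop) (DM.const' 0)
  · intro p q
    constructor
    · rintro ⟨F, ⟨hF, rfl⟩, ⟨h0, rfl⟩⟩
      rfl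
    · rintro rfl
      induction p using Projectivization.ind with
      | h F hF => exact ⟨F, ⟨hF, rfl⟩, ⟨qg2e_ne hF, rfl⟩⟩

private theorem qg2m_inj : Function.Injective (qg2m k) :=
  Projectivization.map_injective (qg2e k) qg2e_inj

private theorem qg2m_smul (g : PGL(2, k)) (p : ℙ k (SM k 0)) :
    qg2m k (g • p) = g • qg2m k p := by
  obtain ⟨g, rfl⟩ := Matrix.ProjGenLinGroup.mk_surjective g
  induction p using Projectivization.ind with
  | h F hF =>
    rw [sm_pgl_mk, qg2m_mk F hF (qg2e_ne hF),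
      qg2m_mk (g • F) _ (qg2e_ne ((smul_ne_zero_iff_ne g).mpr hF))]
    have h1 : (g • F).1 0 = g • F.1 0 := by
      rw [sm_gl_apply, qg2e_const]
    have h2 : (Matrix.ProjGenLinGroup.mk g : PGL(2, k)) •
        (Projectivization.mk k (F.1 0) (qg2e_ne hF) : PL k) =
        Projectivization.mk k (g • F.1 0) ((smul_ne_zero_iff_ne g).mpr (qg2e_ne hF)) := rfl
    rw [h2]
    congr 1

private theorem qg2_rat0 (p : ℙ k (SM k 0)) : p ∈ RatP k 0 := by
  induction p using Projectivization.ind with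
  | h F hF =>
    rw [mem_RatP]
    intro v _
    rw [qg2e_const]
    exact qg2e_ne hF

/-- A constant pair. -/
private theorem qg2m_surj (q : PL k) : ∃ p, qg2m k p = q := by
  induction q using Projectivization.ind with
  | h w hw =>
    have hmem : ∀ i : Fin 2, (fun _ : Fin 2 → k => w i) ∈ Form k 0 := by
      intro i
      have h1 := FORMA_mono (k := k) (n := 0) (i := 0) le_rfl
      have h2 := (Form k 0).smul_mem (w i) h1
      convert h2 using 1
      funext v
      simp
    have hF : (⟨fun _ => w, hmem⟩ : SM k 0) ≠ 0 := by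
      intro h
      apply hw
      have := congrArg (fun F : SM k 0 => F.1 0) h
      exact this
    exact ⟨Projectivization.mk k _ hF, rfl⟩

theorem rat_zero_orb {s : Set X} [MulAction PGL(2, k) X] [DAct k PGL(2, k) X]
    (h : GSet k PGL(2, k) s) :
    orb k PGL(2, k) (RatP k 0 ×ˢ s) = clq k s (relB k) := by
  rw [← orb_P1 h]
  have dm := qg2m_dm (k := k)
  refine orb_congr ((RatP_gset 0).prod h) (h.prod GSet.univ) (fun p => (p.2, qg2m k p.1)) ?_ ?_ ?_
  · exact DM.mk (by fun_prop) (DM.comp dm (by fun_prop))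
  · refine ⟨fun p hp => ⟨hp.2, trivial⟩, ?_, ?_⟩
    · rintro ⟨p, x⟩ _ ⟨p', x'⟩ _ e
      have e1 : x = x' := congrArg Prod.fst e
      have e2 : qg2m k p = qg2m k p' := congrArg Prod.snd e
      rw [e1, qg2m_inj e2]
    · rintro ⟨x, q⟩ ⟨hx, -⟩
      obtain ⟨p, rfl⟩ := qg2m_surj q
      exact ⟨(p, x), ⟨qg2_rat0 p, hx⟩, rfl⟩
  · rintro g ⟨p, x⟩ _
    exact Prod.ext rfl (qg2m_smul g p)

theorem q4_zero : orb k PGL(2, k) (RatP k 0 ×ˢ Conf k 4) = (L * ratPoly 0) • ptc k := by
  rw [rat_zero_orb (Conf_gset 4), conf4_B, Sq4_cl, Sq3_cl, ← add_smul]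
  congr 1
  rw [ratPoly, if_pos rfl]
  ring

end

end Pool.Agent.MRat
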