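import Pool.Agent.Lib.MP_923aff_ag.QB
/-!
# JOB QG3: quadruples of points, the `j`-line

`clq_corr` with the correspondence `F ~ t` iff there are `λ ≠ 0, 1` and `g` with `g • rootF ![∞, 0, 1, λ] = F` and
`(λ ^ 2 - λ + 1) ^ 3 = t * λ ^ 2 * (λ - 1) ^ 2`. `crossR_iff`: the 24 permutations (`rootF_eq`), each gives
one of the six values; conversely explicit elements `gm a b c d` for each of the six values.
`jeq_iff`: the difference of the two sides factors into the six factors.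
-/

set_option autoImplicit false

namespace Pool.Agent.MRat

open scoped MatrixGroups LinearAlgebra.Projectivization

noncomputable section

variable {k : Type} [Field k] [IsAlgClosed k] [CharZero k]

/-- The quadruple `∞, 0, 1, l`. -/
def quad (l : k) : Fin 4 → PL k := ![ptI k, ptz 0, ptz 1, ptz l]

theorem conf4_rep {F : ℙ k (Form k 4)} (hF : F ∈ Conf k 4) :
    ∃ (l : k) (g : PGL(2, k)), l ≠ 0 ∧ l ≠ 1 ∧ g • rootF (quad l) = F := by
  obtain ⟨a, ha, rfl⟩ := hF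
  obtain ⟨g, h0, h1, h2⟩ := trans_three (p := a 0) (q := a 1) (r := a 2)
    (ha.ne (by decide)) (ha.ne (by decide)) (ha.ne (by decide))
  rcases pl_cases (g⁻¹ • a 3) with h3 | ⟨l, h3⟩
  · exfalso
    have : a 3 = a 0 := by rw [← h0, ← h3, smul_inv_smul]
    exact ha.ne (by decide) this
  · have h3' : g • ptz l = a 3 := by rw [← h3, smul_inv_smul]
    refine ⟨l, g, ?_, ?_, ?_⟩
    · rintro rfl
      exact ha.ne (show (1 : Fin 4) ≠ 3 by decide) (h1.symm.trans h3')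
    · rintro rfl
      exact ha.ne (show (2 : Fin 4) ≠ 3 by decide) (h2.symm.trans h3')
    · rw [rootF_smul]
      congr 1
      funext i
      fin_cases i
      · exact h0
      · exact h1
      · exact h2
      · exact h3'

theorem jeq_iff {l m : k} (hl : l ≠ 0) (hl1 : l ≠ 1) (hm : m ≠ 0) (hm1 : m ≠ 1) :
    (l ^ 2 - l + 1) ^ 3 * (m ^ 2 * (m - 1) ^ 2) = (m ^ 2 - m + 1) ^ 3 * (l ^ 2 * (l - 1) ^ 2) ↔
      (m = l ∨ m = 1 - l ∨ m = l⁻¹ ∨ m = (1 - l)⁻¹ ∨ m = l / (l - 1) ∨ m = (l - 1) / l) := by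
  have h1l : 1 - l ≠ 0 := sub_ne_zero.2 (Ne.symm hl1)
  have hl1' : l - 1 ≠ 0 := sub_ne_zero.2 hl1
  have key : (l ^ 2 - l + 1) ^ 3 * (m ^ 2 * (m - 1) ^ 2) - (m ^ 2 - m + 1) ^ 3 * (l ^ 2 * (l - 1) ^ 2)
      = (m - l) * ((m - (1 - l)) * ((m * l - 1) * ((m * (1 - l) - 1) * ((m * (l - 1) - l) *
        (m * l - (l - 1)))))) := by ring
  rw [← sub_eq_zero, key]
  simp only [mul_eq_zero, sub_eq_zero]
  constructor
  · rintro (h | h | h | h | h | h)
    · exact Or.inl h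
    · exact Or.inr (Or.inl h)
    · right; right; left
      exact eq_inv_of_mul_eq_one_left h
    · right; right; right; left
      exact eq_inv_of_mul_eq_one_left h
    · right; right; right; right; left
      exact (eq_div_iff hl1').2 h
    · right; right; right; right; right
      exact (eq_div_iff hl).2 h
  · rintro (h | h | h | h | h | h)
    · exact Or.inl h
    · exact Or.inr (Or.inl h)
    · right; right; left
      rw [h, inv_mul_cancel₀ hl]
    · right; right; right; left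
      rw [h, inv_mul_cancel₀ h1l]
    · right; right; right; right; left
      rw [h, div_mul_cancel₀ _ hl1']
    · right; right; right; right; right
      rw [h, div_mul_cancel₀ _ hl]

/-- Determinant of two vectors of a quadruple. -/
private def QG3_D (v : Fin 4 → Fin 2 → k) (i j : Fin 4) : k := v i 0 * v j 1 - v i 1 * v j 0

private def QG3_S (v : Fin 4 → Fin 2 → k) : k :=
  (QG3_D v 0 1 * QG3_D v 2 3) ^ 2 + (QG3_D v 0 2 * QG3_D v 1 3) ^ 2 + (QG3_D v 0 3 * QG3_D v 1 2) ^ 2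

private def QG3_T (v : Fin 4 → Fin 2 → k) : k :=
  (QG3_D v 0 1 * QG3_D v 2 3) ^ 2 * (QG3_D v 0 2 * QG3_D v 1 3) ^ 2 * (QG3_D v 0 3 * QG3_D v 1 2) ^ 2

omit [IsAlgClosed k] [CharZero k] in
private theorem QG3_swap (v : Fin 4 → Fin 2 → k) (x y : Fin 4) :
    QG3_S (fun i => v (Equiv.swap x y i)) = QG3_S v ∧ QG3_T (fun i => v (Equiv.swap x y i)) = QG3_T v := by
  fin_cases x <;> fin_cases y <;>
    simp [QG3_S, QG3_T, QG3_D, Equiv.swap_apply_def] <;> constructor <;> ring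

omit [IsAlgClosed k] [CharZero k] in
private theorem QG3_perm (σ : Equiv.Perm (Fin 4)) : ∀ v : Fin 4 → Fin 2 → k,
    QG3_S (fun i => v (σ i)) = QG3_S v ∧ QG3_T (fun i => v (σ i)) = QG3_T v := by
  induction σ using Equiv.Perm.swap_induction_on with
  | one => intro v; exact ⟨rfl, rfl⟩
  | swap_mul f x y _ ih =>
    intro v
    have h1 := ih (fun i => v (Equiv.swap x y i))
    have h2 := QG3_swap v x y
    exact ⟨h1.1.trans h2.1, h1.2.trans h2.2⟩

omit [IsAlgClosed k] [CharZero k] in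
private theorem QG3_D_trans {v w : Fin 4 → Fin 2 → k} {a b c d : k} {u : Fin 4 → k}
    (h : ∀ i, w i 0 = u i * (a * v i 0 + b * v i 1) ∧ w i 1 = u i * (c * v i 0 + d * v i 1))
    (i j : Fin 4) : QG3_D w i j = u i * u j * (a * d - b * c) * QG3_D v i j := by
  unfold QG3_D
  rw [(h i).1, (h i).2, (h j).1, (h j).2]
  ring

omit [IsAlgClosed k] [CharZero k] in
private theorem QG3_inv {v w : Fin 4 → Fin 2 → k} {a b c d : k} {u : Fin 4 → k}
    (h : ∀ i, w i 0 = u i * (a * v i 0 + b * v i 1) ∧ w i 1 = u i * (c * v i 0 + d * v i 1)) :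
    QG3_S w ^ 3 * QG3_T v = QG3_S v ^ 3 * QG3_T w := by
  unfold QG3_S QG3_T
  simp only [QG3_D_trans h]
  ring

private def QG3_v (l : k) : Fin 4 → Fin 2 → k := ![![1, 0], ![0, 1], ![1, 1], ![l, 1]]

omit [IsAlgClosed k] [CharZero k] in
private theorem QG3_v_ne (l : k) (i : Fin 4) : QG3_v l i ≠ 0 := by
  fin_cases i
  · exact vec_ne'
  · exact vec_ne 0
  · exact vec_ne 1
  · exact vec_ne l

omit [IsAlgClosed k] [CharZero k] in
private theorem QG3_quad (l : k) (i : Fin 4) :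
    quad l i = Projectivization.mk k (QG3_v l i) (QG3_v_ne l i) := by
  fin_cases i <;> rfl

omit [IsAlgClosed k] [CharZero k] in
private theorem QG3_S_v (l : k) : QG3_S (QG3_v l) = 2 * (l ^ 2 - l + 1) := by
  simp [QG3_S, QG3_D, QG3_v]
  ring

omit [IsAlgClosed k] [CharZero k] in
private theorem QG3_T_v (l : k) : QG3_T (QG3_v l) = l ^ 2 * (l - 1) ^ 2 := by
  simp [QG3_T, QG3_D, QG3_v]
  ring

private theorem QG3_to {l m : k} (h : ∃ g : PGL(2, k), g • rootF (quad l) = rootF (quad m)) :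
    (l ^ 2 - l + 1) ^ 3 * (m ^ 2 * (m - 1) ^ 2) = (m ^ 2 - m + 1) ^ 3 * (l ^ 2 * (l - 1) ^ 2) := by
  obtain ⟨g, hg⟩ := h
  obtain ⟨a, b, c, d, hd, rfl⟩ := gm_surj g
  rw [rootF_smul, rootF_eq] at hg
  obtain ⟨σ, hσ⟩ := hg
  have h1 : ∀ i, ∃ u : k, QG3_v m i 0 = u * (a * QG3_v l (σ i) 0 + b * QG3_v l (σ i) 1) ∧
      QG3_v m i 1 = u * (c * QG3_v l (σ i) 0 + d * QG3_v l (σ i) 1) := by
    intro i
    have h2 := hσ i
    rw [QG3_quad m i, QG3_quad l (σ i), gm_smul_mk, Projectivization.mk_eq_mk_iff'] at h2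
    obtain ⟨u, hu⟩ := h2
    refine ⟨u, ?_, ?_⟩
    · have := congrFun hu 0
      simpa using this.symm
    · have := congrFun hu 1
      simpa using this.symm
  choose u hu using h1
  have h2 := QG3_inv (v := fun i => QG3_v l (σ i)) (w := QG3_v m) (a := a) (b := b) (c := c) (d := d)
    (u := u) hu
  obtain ⟨h3, h4⟩ := QG3_perm σ (QG3_v l)
  rw [h3, h4, QG3_S_v, QG3_S_v, QG3_T_v, QG3_T_v] at h2
  have h8 : (8 : k) ≠ 0 := by norm_num
  refine mul_left_cancel₀ h8 ?_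
  linear_combination -h2

private theorem QG3_symm {l m : k} (h : ∃ g : PGL(2, k), g • rootF (quad l) = rootF (quad m)) :
    ∃ g : PGL(2, k), g • rootF (quad m) = rootF (quad l) := by
  obtain ⟨g, hg⟩ := h
  exact ⟨g⁻¹, by rw [← hg, inv_smul_smul]⟩

private theorem QG3_trans {l m n : k} (h : ∃ g : PGL(2, k), g • rootF (quad l) = rootF (quad m))
    (h' : ∃ g : PGL(2, k), g • rootF (quad m) = rootF (quad n)) :
    ∃ g : PGL(2, k), g • rootF (quad l) = rootF (quad n) := by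
  obtain ⟨g, hg⟩ := h
  obtain ⟨g', hg'⟩ := h'
  exact ⟨g' * g, by rw [mul_smul, hg, hg']⟩

private theorem QG3_one_sub (l : k) :
    ∃ g : PGL(2, k), g • rootF (quad l) = rootF (quad (1 - l)) := by
  refine ⟨gm (-1) 1 0 1 (by simp), ?_⟩
  rw [rootF_smul, rootF_eq]
  refine ⟨Equiv.swap 1 2, fun i => ?_⟩
  fin_cases i
  · show ptI k = gm (-1) 1 0 1 _ • ptI k
    rw [gm_smul_ptI' _ rfl]
  · show ptz 0 = gm (-1) 1 0 1 _ • ptz 1
    rw [gm_smul_ptz _ (by simp)]
    simp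
  · show ptz 1 = gm (-1) 1 0 1 _ • ptz 0
    rw [gm_smul_ptz _ (by simp)]
    simp
  · show ptz (1 - l) = gm (-1) 1 0 1 _ • ptz l
    rw [gm_smul_ptz _ (by simp)]
    congr 1
    simp
    ring

private theorem QG3_invl {l : k} (hl : l ≠ 0) :
    ∃ g : PGL(2, k), g • rootF (quad l) = rootF (quad l⁻¹) := by
  refine ⟨gm l⁻¹ 0 0 1 (by simpa using hl), ?_⟩
  rw [rootF_smul, rootF_eq]
  refine ⟨Equiv.swap 2 3, fun i => ?_⟩
  fin_cases i
  · show ptI k = gm l⁻¹ 0 0 1 _ • ptI k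
    rw [gm_smul_ptI' _ rfl]
  · show ptz 0 = gm l⁻¹ 0 0 1 _ • ptz 0
    rw [gm_smul_ptz _ (by simp)]
    simp
  · show ptz 1 = gm l⁻¹ 0 0 1 _ • ptz l
    rw [gm_smul_ptz _ (by simp)]
    congr 1
    simp [hl]
  · show ptz l⁻¹ = gm l⁻¹ 0 0 1 _ • ptz 1
    rw [gm_smul_ptz _ (by simp)]
    simp

theorem crossR_iff {l m : k} (hl : l ≠ 0) (hl1 : l ≠ 1) (hm : m ≠ 0) (hm1 : m ≠ 1) :
    (∃ g : PGL(2, k), g • rootF (quad l) = rootF (quad m)) ↔
      (m = l ∨ m = 1 - l ∨ m = l⁻¹ ∨ m = (1 - l)⁻¹ ∨ m = l / (l - 1) ∨ m = (l - 1) / l) := by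
  have h1l : 1 - l ≠ 0 := sub_ne_zero.2 (Ne.symm hl1)
  have hl1' : l - 1 ≠ 0 := sub_ne_zero.2 hl1
  constructor
  · intro h
    exact (jeq_iff hl hl1 hm hm1).1 (QG3_to h)
  · rintro (rfl | rfl | rfl | rfl | h | h)
    · exact ⟨1, one_smul _ _⟩
    · exact QG3_one_sub l
    · exact QG3_invl hl
    · exact QG3_trans (QG3_one_sub l) (QG3_invl h1l)
    · have e : m = 1 - (1 - l)⁻¹ := by
        rw [h]
        field_simp
        ring
      rw [e]
      exact QG3_trans (QG3_trans (QG3_one_sub l) (QG3_invl h1l)) (QG3_one_sub _)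
    · have e : m = 1 - l⁻¹ := by
        rw [h]
        field_simp
      rw [e]
      exact QG3_trans (QG3_invl hl) (QG3_one_sub _)

private theorem QG3_quad_dm : DM k (fun l : k => quad l) := by
  refine DM.pi fun i => ?_
  fin_cases i
  · exact DM.const' (ptI k)
  · exact DM.const' (ptz (0 : k))
  · exact DM.const' (ptz (1 : k))
  · show DM k (fun l : k => ptz l)
    unfold ptz
    refine DM.pmk ?_ _
    refine DM.pi fun i => ?_
    fin_cases i
    · exact DM.id'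
    · exact DM.const' (1 : k)

private theorem QG3_quad_inj {l : k} (hl : l ≠ 0) (hl1 : l ≠ 1) : Function.Injective (quad l) := by
  have e1 : ptz (0 : k) ≠ ptz 1 := fun h => zero_ne_one (ptz_inj.1 h)
  have e2 : ptz (0 : k) ≠ ptz l := fun h => hl (ptz_inj.1 h).symm
  have e3 : ptz (1 : k) ≠ ptz l := fun h => hl1 (ptz_inj.1 h).symm
  have f0 := ptz_ne_ptI (0 : k)
  have f1 := ptz_ne_ptI (1 : k)
  have f2 := ptz_ne_ptI l
  intro i j hij
  fin_cases i <;> fin_cases j <;> first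
    | rfl
    | exact absurd hij e1
    | exact absurd hij e2
    | exact absurd hij e3
    | exact absurd hij.symm e1
    | exact absurd hij.symm e2
    | exact absurd hij.symm e3
    | exact absurd hij f0
    | exact absurd hij f1
    | exact absurd hij f2
    | exact absurd hij.symm f0
    | exact absurd hij.symm f1
    | exact absurd hij.symm f2

private theorem QG3_exists (t : k) :
    ∃ l : k, l ≠ 0 ∧ l ≠ 1 ∧ (l ^ 2 - l + 1) ^ 3 = t * (l ^ 2 * (l - 1) ^ 2) := by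
  let p : Polynomial k := (Polynomial.X ^ 2 - Polynomial.X + 1) ^ 3 -
    Polynomial.C t * (Polynomial.X ^ 2 * (Polynomial.X - 1) ^ 2)
  have hev : ∀ x : k, p.eval x = (x ^ 2 - x + 1) ^ 3 - t * (x ^ 2 * (x - 1) ^ 2) := by
    intro x
    simp [p]
  have hdeg : p.degree ≠ 0 := by
    intro h0
    obtain ⟨c, hc⟩ := Polynomial.natDegree_eq_zero.1 (Polynomial.natDegree_eq_of_degree_eq_some h0)
    have h1 : ∀ x : k, (x ^ 2 - x + 1) ^ 3 - t * (x ^ 2 * (x - 1) ^ 2) = c := by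
      intro x
      rw [← hev, ← hc]
      simp
    have e0 := h1 0
    have e2 := h1 2
    have e3 := h1 3
    have e0' : c = 1 := by rw [← e0]; ring
    have e2' : (27 : k) - 4 * t = 1 := by rw [← e0', ← e2]; ring
    have e3' : (343 : k) - 36 * t = 1 := by rw [← e0', ← e3]; ring
    have h5 : (108 : k) = 0 := by linear_combination e3' - 9 * e2'
    norm_num at h5
  obtain ⟨l, hl⟩ := IsAlgClosed.exists_root p hdeg
  rw [Polynomial.IsRoot, hev] at hl
  refine ⟨l, ?_, ?_, sub_eq_zero.1 hl⟩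
  · rintro rfl
    norm_num at hl
  · rintro rfl
    norm_num at hl

theorem conf4_orb : orb k PGL(2, k) (Conf k 4) = L • ptc k := by
  rw [← PolyCl.univ_k.cl]
  have hq := QG3_quad_dm (k := k)
  have hr := rootF_dm (k := k) (n := 4)
  refine clq_corr (Conf_gset 4).dq (DQ.eq (DM.const' True))
    (fun x t => ∃ l : k, ∃ g : PGL(2, k), l ≠ 0 ∧ l ≠ 1 ∧ g • rootF (quad l) = x ∧
      (l ^ 2 - l + 1) ^ 3 = t * (l ^ 2 * (l - 1) ^ 2)) ?_ ?_ ?_ ?_
  · fun_prop
  · intro x hx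
    obtain ⟨l, g, hl, hl1, hg⟩ := conf4_rep hx
    have h2 : l ^ 2 * (l - 1) ^ 2 ≠ 0 :=
      mul_ne_zero (pow_ne_zero 2 hl) (pow_ne_zero 2 (sub_ne_zero.2 hl1))
    exact ⟨(l ^ 2 - l + 1) ^ 3 / (l ^ 2 * (l - 1) ^ 2), trivial, l, g, hl, hl1, hg,
      (div_mul_cancel₀ _ h2).symm⟩
  · intro t _
    obtain ⟨l, hl, hl1, h⟩ := QG3_exists t
    exact ⟨rootF (quad l), ⟨quad l, QG3_quad_inj hl hl1, rfl⟩, l, 1, hl, hl1, one_smul _ _, h⟩
  · rintro x - t - ⟨l, g, hl, hl1, rfl, h⟩ x' - t' - ⟨m, g', hm, hm1, rfl, h'⟩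
    have e1 : orel PGL(2, k) (g • rootF (quad l)) (g' • rootF (quad m)) ↔
        ∃ g : PGL(2, k), g • rootF (quad l) = rootF (quad m) := by
      constructor
      · rintro ⟨h, hh⟩
        refine ⟨g'⁻¹ * (h * g), ?_⟩
        rw [mul_smul, mul_smul, hh, inv_smul_smul]
      · rintro ⟨h, hh⟩
        refine ⟨g' * h * g⁻¹, ?_⟩
        rw [mul_smul, inv_smul_smul, mul_smul, hh]
    rw [e1, crossR_iff hl hl1 hm hm1, ← jeq_iff hl hl1 hm hm1, h, h']
    have h2 : l ^ 2 * (l - 1) ^ 2 ≠ 0 :=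
      mul_ne_zero (pow_ne_zero 2 hl) (pow_ne_zero 2 (sub_ne_zero.2 hl1))
    have h3 : m ^ 2 * (m - 1) ^ 2 ≠ 0 :=
      mul_ne_zero (pow_ne_zero 2 hm) (pow_ne_zero 2 (sub_ne_zero.2 hm1))
    constructor
    · intro h4
      refine mul_right_cancel₀ (mul_ne_zero h2 h3) ?_
      linear_combination h4
    · rintro rfl
      ring

end

end Pool.Agent.MRat
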