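import Pool.Agent.Lib.MP_923aff_ag.RatDefs
import Pool.Agent.Lib.MP_923aff_ag.BrE
/-!
# JOB FINALQ: transfer of the main theorem to varieties
-/

set_option autoImplicit false

namespace Pool.Agent.MRat

open Polynomial

/-- TARGET of part 2. -/
def MainStatement (k : Type) [Field k] [IsAlgClosed k] [CharZero k] : Prop :=
  ∀ d : ℕ, 2 ≤ d → cls k (RatSet k d) (RatConj k d) = (X ^ (2 * d - 2) : ℤ[X]) • pt k

section aux

variable {k : Type} [Field k] [IsAlgClosed k] [CharZero k] {α : Type} [Amb k α]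

theorem finalq_pairMap (d : ℕ) {f : α → Fin ((d + 1) + (d + 1)) → k} {g : α → Fin 2 → k}
    (hf : DF k f) (hg : DF k g) : DF k (fun a => pairMap k d (f a) (g a)) := by
  refine DF.pi fun i => ?_
  fin_cases i
  · exact DF.sum (Finset.univ : Finset (Fin (d + 1)))
      (f := fun i a => f a (Fin.castAdd (d + 1) i) * g a 0 ^ (i : ℕ) * g a 1 ^ (d - (i : ℕ)))
      fun i _ => ((hf.apply _).mul ((hg.apply 0).pow _)).mul ((hg.apply 1).pow _)
  · exact DF.sum (Finset.univ : Finset (Fin (d + 1)))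
      (f := fun i a => f a (Fin.natAdd (d + 1) i) * g a 0 ^ (i : ℕ) * g a 1 ^ (d - (i : ℕ)))
      fun i _ => ((hf.apply _).mul ((hg.apply 0).pow _)).mul ((hg.apply 1).pow _)

theorem finalq_smul {n : ℕ} {c : α → k} {g : α → Fin n → k}
    (hc : DF k c) (hg : DF k g) : DF k (fun a => c a • g a) :=
  DF.pi fun i => hc.mul (hg.apply i)

theorem finalq_eval {n : ℕ} (p : MvPolynomial (Fin n) k) {f : α → Fin n → k} (hf : DF k f) :
    DF k (fun a => MvPolynomial.eval (f a) p) := by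
  induction p using MvPolynomial.induction_on with
  | C c => exact (DF.const c).congr fun a => by simp
  | add p q hp hq => exact (hp.add hq).congr fun a => by simp
  | mul_X p i hp => exact (hp.mul (hf.apply i)).congr fun a => by simp

/-- A regular map on a definable set agrees there with a definable map. -/
theorem finalq_regular {n m : ℕ} {S : Set (Fin n → k)} (hS : DP k (fun x => x ∈ S))
    {f : (Fin n → k) → (Fin m → k)} (hf : IsRegular k S f) :
    ∃ g : (Fin n → k) → (Fin m → k), DF k g ∧ ∀ x ∈ S, g x = f x := by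
  classical
  refine ⟨fun x j => if x ∈ S then f x j else 0, DF.pi fun j => ?_, fun x hx => by
    funext j; simp [hx]⟩
  -- admissible denominators
  let D : Set (MvPolynomial (Fin n) k) := {Q | ∃ P : MvPolynomial (Fin n) k, ∀ y ∈ S,
    MvPolynomial.eval y Q ≠ 0 → f y j = MvPolynomial.eval y P / MvPolynomial.eval y Q}
  have hfg : (Submodule.span (MvPolynomial (Fin n) k) D).FG := IsNoetherian.noetherian _
  obtain ⟨F, hFD, hFs⟩ := (Submodule.fg_span_iff_fg_span_finset_subset D).1 hfg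
  have hcov : ∀ x ∈ S, ∃ Q ∈ F, MvPolynomial.eval x Q ≠ 0 := by
    intro x hx
    obtain ⟨P, Q, hQ, hPQ⟩ := hf x hx j
    by_contra hcon
    push Not at hcon
    have hle : Submodule.span (MvPolynomial (Fin n) k) (F : Set (MvPolynomial (Fin n) k)) ≤
        RingHom.ker (MvPolynomial.eval x) := by
      rw [Submodule.span_le]
      intro q hq
      exact hcon q hq
    have hmem : Q ∈ Submodule.span (MvPolynomial (Fin n) k) D :=
      Submodule.subset_span ⟨P, hPQ⟩
    rw [hFs] at hmem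
    exact hQ (hle hmem)
  choose! num hnum using (fun Q (hQ : Q ∈ F) => hFD hQ :
    ∀ Q ∈ F, ∃ P : MvPolynomial (Fin n) k, ∀ y ∈ S,
      MvPolynomial.eval y Q ≠ 0 → f y j = MvPolynomial.eval y P / MvPolynomial.eval y Q)
  refine DF.of_graph (R := fun x y => (∃ Q : F, x ∈ S ∧ MvPolynomial.eval x Q.1 ≠ 0 ∧
    y * MvPolynomial.eval x Q.1 = MvPolynomial.eval x (num Q.1)) ∨ (x ∉ S ∧ y = 0)) ?_ ?_
  · have hS' : DP k (fun p : (Fin n → k) × k => p.1 ∈ S) := hS.comp DF.fst
    have hev : ∀ q : MvPolynomial (Fin n) k,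
        DF k (fun p : (Fin n → k) × k => MvPolynomial.eval p.1 q) :=
      fun q => finalq_eval q DF.fst
    refine DP.or (DP.fex fun Q => ?_) (hS'.not.and (DP.eq DF.snd (DF.const 0)))
    exact hS'.and ((DP.eq (hev Q.1) (DF.const 0)).not.and
      (DP.eq (DF.snd.mul (hev Q.1)) (hev (num Q.1))))
  · intro x y
    by_cases hx : x ∈ S
    · simp only [hx, not_true, false_and, or_false, true_and, if_true]
      constructor
      · rintro ⟨Q, hQ, hy⟩
        rw [hnum Q.1 Q.2 x hx hQ, eq_div_iff hQ, hy]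
      · intro hy
        obtain ⟨Q, hQF, hQ⟩ := hcov x hx
        refine ⟨⟨Q, hQF⟩, hQ, ?_⟩
        rw [hy, hnum Q hQF x hx hQ, div_mul_cancel₀ _ hQ]
    · simp [hx]

end aux

theorem good_ratConj (k : Type) [Field k] [IsAlgClosed k] [CharZero k] (d : ℕ) :
    Good k (RatSet k d) (RatConj k d) := by
  have hds : DP k (fun x => x ∈ RatSet k d) := by
    refine DP.all (P := fun (x : Fin ((d + 1) + (d + 1)) → k) (v : Fin 2 → k) =>
      v ≠ 0 → pairMap k d x v ≠ 0) ?_
    exact DP.imp (DP.not (DP.eq DF.snd (DF.const 0)))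
      (DP.not (DP.eq (finalq_pairMap d DF.fst DF.snd) (DF.const 0)))
  refine ⟨hds, ?_, ?_, ?_, ?_⟩
  · refine (hds.comp DF.fst).and ((hds.comp DF.snd).and ?_)
    refine DP.ex (P := fun (p : (Fin ((d + 1) + (d + 1)) → k) × (Fin ((d + 1) + (d + 1)) → k))
      (A : Matrix (Fin 2) (Fin 2) k) => ∃ c : k, A.det ≠ 0 ∧ c ≠ 0 ∧
        ∀ v : Fin 2 → k, pairMap k d p.2 (A.mulVec v) = c • A.mulVec (pairMap k d p.1 v)) ?_
    refine DP.ex (P := fun (q : ((Fin ((d + 1) + (d + 1)) → k) × (Fin ((d + 1) + (d + 1)) → k)) ×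
      Matrix (Fin 2) (Fin 2) k) (c : k) => q.2.det ≠ 0 ∧ c ≠ 0 ∧
        ∀ v : Fin 2 → k, pairMap k d q.1.2 (q.2.mulVec v) =
          c • q.2.mulVec (pairMap k d q.1.1 v)) ?_
    refine (DP.eq (DF.det (DF.snd' DF.fst)) (DF.const 0)).not.and
      ((DP.eq DF.snd (DF.const 0)).not.and ?_)
    refine DP.all (P := fun (t : (((Fin ((d + 1) + (d + 1)) → k) ×
      (Fin ((d + 1) + (d + 1)) → k)) × Matrix (Fin 2) (Fin 2) k) × k) (v : Fin 2 → k) =>
        pairMap k d t.1.1.2 (t.1.2.mulVec v) =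
          t.2 • t.1.2.mulVec (pairMap k d t.1.1.1 v)) ?_
    have hA : DF k (fun u : ((((Fin ((d + 1) + (d + 1)) → k) ×
      (Fin ((d + 1) + (d + 1)) → k)) × Matrix (Fin 2) (Fin 2) k) × k) × (Fin 2 → k) =>
        u.1.1.2) := DF.snd' (DF.fst' DF.fst)
    have hx : DF k (fun u : ((((Fin ((d + 1) + (d + 1)) → k) ×
      (Fin ((d + 1) + (d + 1)) → k)) × Matrix (Fin 2) (Fin 2) k) × k) × (Fin 2 → k) =>
        u.1.1.1.1) := DF.fst' (DF.fst' (DF.fst' DF.fst))
    have hy : DF k (fun u : ((((Fin ((d + 1) + (d + 1)) → k) ×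
      (Fin ((d + 1) + (d + 1)) → k)) × Matrix (Fin 2) (Fin 2) k) × k) × (Fin 2 → k) =>
        u.1.1.1.2) := DF.snd' (DF.fst' (DF.fst' DF.fst))
    exact DP.eq (finalq_pairMap d hy (hA.mulVec DF.snd))
      (finalq_smul (DF.snd' DF.fst) (hA.mulVec (finalq_pairMap d hx DF.snd)))
  · intro x _
    exact ⟨1, 1, by simp, one_ne_zero, fun v => by simp⟩
  · rintro x _ y _ ⟨A, c, hA, hc, h⟩
    have hu : IsUnit A.det := isUnit_iff_ne_zero.2 hA
    refine ⟨A⁻¹, c⁻¹, ?_, inv_ne_zero hc, fun v => ?_⟩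
    · rw [Matrix.det_nonsing_inv]
      simpa using hA
    · have h1 := h (A⁻¹.mulVec v)
      rw [Matrix.mulVec_mulVec, Matrix.mul_nonsing_inv A hu, Matrix.one_mulVec] at h1
      rw [h1, Matrix.mulVec_smul, Matrix.mulVec_mulVec, Matrix.nonsing_inv_mul A hu,
        Matrix.one_mulVec, smul_smul, inv_mul_cancel₀ hc, one_smul]
  · rintro x _ y _ z _ ⟨A, c, hA, hc, h⟩ ⟨B, e, hB, he, h'⟩
    refine ⟨B * A, e * c, ?_, mul_ne_zero he hc, fun v => ?_⟩
    · rw [Matrix.det_mul]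
      exact mul_ne_zero hB hA
    · rw [← Matrix.mulVec_mulVec, h', h, Matrix.mulVec_smul, Matrix.mulVec_mulVec, smul_smul]

theorem final_kvar (k : Type) [Field k] [IsAlgClosed k] [CharZero k] (d : ℕ)
    (h : cls k (RatSet k d) (RatConj k d) = (X ^ (2 * d - 2) : ℤ[X]) • pt k) (M : QVar k)
    (π : (Fin ((d + 1) + (d + 1)) → k) → (Fin M.n → k)) (hreg : IsRegular k (RatSet k d) π)
    (himg : π '' RatSet k d = M.carrier)
    (hfib : ∀ x ∈ RatSet k d, ∀ y ∈ RatSet k d, (π x = π y ↔ RatConj k d x y)) :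
    M.cl k = (QVar.aff k (2 * d - 2)).cl k := by
  obtain ⟨Φ, hΦ⟩ := exists_toKVar (k := k)
  have hgood := good_ratConj k d
  obtain ⟨g, hg, hgπ⟩ := finalq_regular hgood.ds hreg
  have hM : DP k (fun x => x ∈ M.carrier) := dp_pi_iff.2 (QVar.con M)
  have h1 : cls k (RatSet k d) (RatConj k d) = scl k M.carrier := by
    refine cls_map hgood (Good.eq hM) g hg ?_ ?_ ?_
    · intro x hx
      rw [hgπ x hx, ← himg]
      exact ⟨x, hx, rfl⟩
    · intro x hx y hy
      rw [hgπ x hx, hgπ y hy]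
      exact (hfib x hx y hy).symm
    · intro y hy
      rw [← himg] at hy
      obtain ⟨x, hx, rfl⟩ := hy
      exact ⟨x, hx, hgπ x hx⟩
  have h2 : scl k (QVar.aff k (2 * d - 2)).carrier = (X ^ (2 * d - 2) : ℤ[X]) • pt k :=
    scl_pow (2 * d - 2)
  rw [← hΦ M, ← hΦ (QVar.aff k (2 * d - 2)), ← h1, h, h2]

end Pool.Agent.MRat
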