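import Pool.Agent.Lib.MP_923aff_ag.FormsB
import Pool.Agent.Lib.MP_923aff_ag.FG
import Pool.Agent.Lib.MP_923aff_ag.UA
import Pool.Agent.Lib.MP_923aff_ag.UC
/-!
# JOB UD: translation orbits of rational maps, classes of the spaces of rational maps

`homP (P, Q)` is the pair of binary forms with affine parts `P`, `Q`. `RatP k d` is the disjoint union of
`{f ∞ ≠ ∞}`, in bijection by `F ↦ [homP F]` with `AA k d = {(P, Q) coprime, Q_d = 1}`, and of `{f ∞ = ∞}`, in bijection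
with `DD k d`. `AA k d`: `ga_slice` with `τ = P_d`; the slice is `DD k d` with exchanged components; as a set it is
`k × DD k d` by `(c, (P, Q)) ↦ (Q + c P, P)`.
-/

set_option autoImplicit false

namespace Pool.Agent.MRat

open Polynomial
open scoped MatrixGroups LinearAlgebra.Projectivization

noncomputable section

variable {k : Type} [Field k] [IsAlgClosed k] [CharZero k]
variable {X Y Z W : Type} [DT k X] [DT k Y] [DT k Z] [DT k W]

/-- Homogenisation. -/
def homog {d : ℕ} (P : PD k (d + 1)) : Form k d := Form.of (fun i => P.1.coeff (i : ℕ))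

/-- Homogenisation of pairs. -/
def homP {d : ℕ} (F : PD k (d + 1) × PD k (d + 1)) : SM k d := SM.pair (homog F.1) (homog F.2)

@[fun_prop]
theorem DM.homP {d : ℕ} {f : X → PD k (d + 1) × PD k (d + 1)} (hf : DM k f) :
    DM k (fun x => homP (f x)) := by
  unfold MRat.homP MRat.homog
  fun_prop

private theorem ud_coeff_ge {n : ℕ} (F : PD k n) {i : ℕ} (h : n ≤ i) : F.1.coeff i = 0 := by
  have h1 := F.2
  rw [Polynomial.mem_degreeLT] at h1
  exact Polynomial.coeff_eq_zero_of_degree_lt (h1.trans_le (by exact_mod_cast h))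

theorem homog_eval {d : ℕ} (P : PD k (d + 1)) (v : Fin 2 → k) (hv : v 1 ≠ 0) :
    (homog P).1 v = v 1 ^ d * P.1.eval (v 0 / v 1) := by
  unfold homog
  rw [Form.of_apply]
  have hd : P.1.natDegree < d + 1 := by
    have h1 := P.2
    rw [Polynomial.mem_degreeLT] at h1
    by_cases h0 : P.1 = 0
    · rw [h0, natDegree_zero]
      omega
    · exact (natDegree_lt_iff_degree_lt h0).2 h1
  rw [eval_eq_sum_range' hd, Finset.mul_sum,
    Fin.sum_univ_eq_sum_range (fun i => P.1.coeff i * v 0 ^ i * v 1 ^ (d - i)) (d + 1)]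
  refine Finset.sum_congr rfl fun i hi => ?_
  have hi' : i ≤ d := by have := Finset.mem_range.1 hi; omega
  have h2 : v 1 ^ d = v 1 ^ (d - i) * v 1 ^ i := by rw [← pow_add]; congr 1; omega
  rw [h2, div_pow]
  field_simp

theorem homog_inf {d : ℕ} (P : PD k (d + 1)) (c : k) :
    (homog P).1 ![c, 0] = c ^ d * P.1.coeff d := by
  unfold homog
  rw [Form.of_apply]
  simp only [Matrix.cons_val_zero, Matrix.cons_val_one]
  rw [Fin.sum_univ_eq_sum_range (fun i => P.1.coeff i * c ^ i * 0 ^ (d - i)) (d + 1),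
    Finset.sum_range_succ, Finset.sum_eq_zero, Nat.sub_self]
  · ring
  · intro i hi
    have hi' := Finset.mem_range.1 hi
    rw [zero_pow (by omega), mul_zero]

private def udE (k : Type) [Field k] [IsAlgClosed k] [CharZero k] (d : ℕ) :
    PD k (d + 1) ≃ₗ[k] Form k d :=
  (Polynomial.degreeLTEquiv k (d + 1)).trans (coeffE k d).symm

private theorem ud_homog {d : ℕ} (P : PD k (d + 1)) : homog P = udE k d P := rfl

theorem homP_bij {d : ℕ} : Function.Bijective (homP : PD k (d + 1) × PD k (d + 1) → SM k d) := by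
  have h : (homP : PD k (d + 1) × PD k (d + 1) → SM k d) =
      (smE k d).symm ∘ (Prod.map (udE k d) (udE k d)) := by
    funext F
    rfl
  rw [h]
  exact (smE k d).symm.bijective.comp ((udE k d).bijective.prodMap (udE k d).bijective)

theorem homP_smul {d : ℕ} (c : k) (F : PD k (d + 1) × PD k (d + 1)) : homP (c • F) = c • homP F := by
  apply Subtype.ext
  funext v i
  fin_cases i
  · show (homog (c • F.1)).1 v = c * (homog F.1).1 v
    rw [ud_homog, ud_homog, map_smul]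
    rfl
  · show (homog (c • F.2)).1 v = c * (homog F.2).1 v
    rw [ud_homog, ud_homog, map_smul]
    rfl

private theorem ud_app {d : ℕ} (F : PD k (d + 1) × PD k (d + 1)) (v : Fin 2 → k) :
    (homP F).1 v = ![(homog F.1).1 v, (homog F.2).1 v] := rfl

theorem homP_cop {d : ℕ} (F : PD k (d + 1) × PD k (d + 1)) :
    Cop (homP F).1 ↔ IsCoprime F.1.1 F.2.1 ∧ (F.1.1.coeff d ≠ 0 ∨ F.2.1.coeff d ≠ 0) := by
  rw [isCoprime_iff_aeval_ne_zero_of_isAlgClosed k k]
  constructor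
  · intro h
    constructor
    · intro a
      have h1 := h ![a, 1] (by
        intro h0
        have := congrFun h0 1
        simp at this)
      by_contra hcon
      rw [not_or, not_not, not_not] at hcon
      apply h1
      rw [ud_app, homog_eval _ _ (by simp), homog_eval _ _ (by simp)]
      simp only [Matrix.cons_val_zero, Matrix.cons_val_one, div_one]
      have e0 : F.1.1.eval a = 0 := by rw [← coe_aeval_eq_eval]; exact hcon.1
      have e1 : F.2.1.eval a = 0 := by rw [← coe_aeval_eq_eval]; exact hcon.2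
      rw [e0, e1]
      funext i
      fin_cases i <;> simp
    · have h1 := h ![1, 0] (by
        intro h0
        have := congrFun h0 0
        simp at this)
      by_contra hcon
      rw [not_or, not_not, not_not] at hcon
      apply h1
      rw [ud_app, homog_inf, homog_inf, hcon.1, hcon.2]
      funext i
      fin_cases i <;> simp
  · rintro ⟨h1, h2⟩ v hv h0
    rw [ud_app] at h0
    have e0 := congrFun h0 0
    have e1 := congrFun h0 1
    simp only [Matrix.cons_val_zero, Matrix.cons_val_one, Pi.zero_apply] at e0 e1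
    by_cases hv1 : v 1 = 0
    · have hv0 : v 0 ≠ 0 := by
        intro hv0
        apply hv
        funext i
        fin_cases i
        · exact hv0
        · exact hv1
      have hvv : v = ![v 0, 0] := by
        funext i
        fin_cases i
        · rfl
        · exact hv1
      rw [hvv, homog_inf] at e0 e1
      have hp : v 0 ^ d ≠ 0 := pow_ne_zero _ hv0
      rcases h2 with h2 | h2
      · exact mul_ne_zero hp h2 e0
      · exact mul_ne_zero hp h2 e1
    · rw [homog_eval _ _ hv1] at e0 e1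
      have hp : v 1 ^ d ≠ 0 := pow_ne_zero _ hv1
      rcases h1 (v 0 / v 1) with h3 | h3
      · rw [coe_aeval_eq_eval] at h3
        exact mul_ne_zero hp h3 e0
      · rw [coe_aeval_eq_eval] at h3
        exact mul_ne_zero hp h3 e1

private theorem ud_homog_ptr {d : ℕ} (b : k) (P : PD k (d + 1)) (v : Fin 2 → k) :
    (homog (ptr b P)).1 v = (homog P).1 ![v 0 - b * v 1, v 1] := by
  by_cases hv1 : v 1 = 0
  · have hvv : v = ![v 0, 0] := by
      funext i
      fin_cases i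
      · rfl
      · exact hv1
    have e : (![v 0 - b * v 1, v 1] : Fin 2 → k) = ![v 0, 0] := by
      rw [hv1]
      simp
    rw [e, homog_inf]
    conv_lhs => rw [hvv]
    rw [homog_inf, (ptr_coeff_top b P (j := d) (fun i hi => ud_coeff_ge P hi)).2.1]
  · rw [homog_eval _ _ hv1, homog_eval _ _ (by simpa using hv1), ptr_coe, taylor_eval]
    simp only [Matrix.cons_val_zero, Matrix.cons_val_one]
    congr 2
    field_simp
    ring

private theorem ud_gl_inv (b : k) (v : Fin 2 → k) :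
    (affGL (1 : kˣ) b)⁻¹ • v = ![v 0 - b * v 1, v 1] := by
  rw [inv_smul_eq_iff]
  show v = ((affGL (1 : kˣ) b : GL (Fin 2) k) : Matrix (Fin 2) (Fin 2) k).mulVec _
  have h : ((affGL (1 : kˣ) b : GL (Fin 2) k) : Matrix (Fin 2) (Fin 2) k) = !![1, b; 0, 1] := by
    simp [affGL]
  rw [h]
  funext i
  fin_cases i <;> simp [Matrix.mulVec, dotProduct, Fin.sum_univ_two]

/-- Conjugation by a translation. -/
theorem homP_tra {d : ℕ} (b : k) (F : PD k (d + 1) × PD k (d + 1)) :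
    homP (tra b F) = affGL 1 b • homP F := by
  apply Subtype.ext
  funext v
  rw [sm_gl_apply, ud_gl_inv]
  show _ = ((affGL (1 : kˣ) b : GL (Fin 2) k) : Matrix (Fin 2) (Fin 2) k).mulVec _
  have h : ((affGL (1 : kˣ) b : GL (Fin 2) k) : Matrix (Fin 2) (Fin 2) k) = !![1, b; 0, 1] := by
    simp [affGL]
  rw [h, ud_app, ud_app]
  have h1 : (homog (tra b F).1).1 v = (homog F.1).1 ![v 0 - b * v 1, v 1] +
      b * (homog F.2).1 ![v 0 - b * v 1, v 1] := by
    rw [← ud_homog_ptr, ← ud_homog_ptr]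
    unfold tra
    rw [ud_homog, ud_homog, ud_homog, map_add, map_smul]
    rfl
  have h2 : (homog (tra b F).2).1 v = (homog F.2).1 ![v 0 - b * v 1, v 1] := by
    rw [← ud_homog_ptr]
    rfl
  rw [h1, h2]
  funext i
  fin_cases i <;> simp [Matrix.mulVec, dotProduct, Fin.sum_univ_two]

/-- Coprime pairs `(P, Q)` of degree at most `d` with `Q` monic of degree `d`. -/
def AA (k : Type) [Field k] (d : ℕ) : Set (PD k (d + 1) × PD k (d + 1)) :=
  {F | F.2.1.coeff d = 1 ∧ IsCoprime F.1.1 F.2.1}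

private theorem ud_AA_dm (d : ℕ) : DM k (fun F => F ∈ AA k d) := by
  have h1 : DM k (fun F : PD k (d + 1) × PD k (d + 1) => F.2.1.coeff d = 1) :=
    DM.eq (by fun_prop) (by fun_prop)
  have h2 : DM k (fun F : PD k (d + 1) × PD k (d + 1) => IsCoprime F.1.1 F.2.1) :=
    DM.isCoprime (by fun_prop) (by fun_prop)
  exact (h1.and h2).congr_iff fun _ => Iff.rfl

private theorem ud_coprime {P Q : k[X]} (b : k) (h : IsCoprime P Q) :
    IsCoprime (taylor (-b) P + b • taylor (-b) Q) (taylor (-b) Q) := by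
  obtain ⟨u, v, huv⟩ := h
  have h1 : IsCoprime (taylor (-b) P) (taylor (-b) Q) := by
    refine ⟨taylor (-b) u, taylor (-b) v, ?_⟩
    rw [← taylor_mul, ← taylor_mul, ← map_add, huv, taylor_one]
    simp
  have h2 := h1.add_mul_right_left (C b)
  rw [Polynomial.smul_eq_C_mul]
  exact h2

private theorem ud_tra1 {d : ℕ} (b : k) (F : PD k (d + 1) × PD k (d + 1)) (i : ℕ) :
    (tra b F).1.1.coeff i = (ptr b F.1).1.coeff i + b * (ptr b F.2).1.coeff i := by
  unfold tra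
  simp

private theorem ud_top {d : ℕ} (b : k) (P : PD k (d + 1)) : (ptr b P).1.coeff d = P.1.coeff d :=
  (ptr_coeff_top b P (j := d) (fun i hi => ud_coeff_ge P hi)).2.1

private theorem ud_AA_tra {d : ℕ} {b : k} {F : PD k (d + 1) × PD k (d + 1)} (h : F ∈ AA k d) :
    tra b F ∈ AA k d := by
  refine ⟨?_, ud_coprime b h.2⟩
  show (ptr b F.2).1.coeff d = 1
  rw [ud_top]
  exact h.1

theorem AA_U (d : ℕ) {p : Polynomial ℤ} (h : PolyCl k (DD k d) p) :
    DQ k (AA k d) (trel k) ∧ clq k (AA k d) (trel k) = p • ptc k := by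
  have h1 := ga_slice (k := k) (ud_AA_dm d) (fun b F => tra b F) tra_dm
    (fun b x hx => ud_AA_tra hx) (fun x _ => tra_zero x)
    (fun b c x _ => tra_add b c x) (fun F => F.1.1.coeff d) (by fun_prop) (by
      intro b F hF
      rw [ud_tra1, ud_top, ud_top, hF.1, mul_one])
  refine ⟨h1.1, ?_⟩
  have h2 : clq k (AA k d) (trel k) = clq k (AA k d) (fun x y => ∃ b : k, tra b x = y) := rfl
  rw [h2, h1.2, ← h.cl]
  have hd : DM k (fun F => F ∈ AA k d ∩ {F | F.1.1.coeff d = 0}) := by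
    have h3 : DM k (fun F : PD k (d + 1) × PD k (d + 1) => F.1.1.coeff d = 0) :=
      DM.eq (by fun_prop) (by fun_prop)
    exact ((ud_AA_dm d).and h3).congr_iff fun _ => Iff.rfl
  refine cl_map hd h.ds (fun F => (F.2, F.1)) (by fun_prop) ⟨?_, ?_, ?_⟩
  · rintro F ⟨⟨h4, h5⟩, h6⟩
    exact ⟨⟨h4, h6⟩, h5.symm⟩
  · rintro F _ G _ hFG
    have h4 := (Prod.mk.inj hFG)
    exact Prod.ext h4.2 h4.1
  · rintro F ⟨⟨h4, h6⟩, h5⟩
    exact ⟨(F.2, F.1), ⟨⟨h4, h5.symm⟩, h6⟩, rfl⟩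

theorem AA_cl (d : ℕ) {p : Polynomial ℤ} (h : PolyCl k (DD k d) p) :
    PolyCl k (AA k d) (L * p) := by
  refine PolyCl.bij (PolyCl.prod PolyCl.univ_k h) (ud_AA_dm d)
    (fun x => (x.2.2 + x.1 • x.2.1, x.2.1)) ?_ ⟨?_, ?_, ?_⟩
  · refine DM.mk (DM.to_PD fun i => ?_) (by fun_prop)
    have h3 : DM k (fun x : k × (PD k (d + 1) × PD k (d + 1)) =>
      x.2.2.1.coeff i + x.1 * x.2.1.1.coeff i) := by fun_prop
    refine h3.congr fun x => ?_
    simp
  · rintro ⟨c, F⟩ ⟨_, ⟨h4, h5⟩, h6⟩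
    refine ⟨h4, ?_⟩
    show IsCoprime (F.2.1 + c • F.1.1) F.1.1
    rw [Polynomial.smul_eq_C_mul, mul_comm]
    exact h6.symm.add_mul_left_left (C c)
  · rintro ⟨c, F⟩ ⟨_, ⟨h4, h5⟩, h6⟩ ⟨c', F'⟩ ⟨_, ⟨h4', h5'⟩, h6'⟩ hFF
    have e1 := (Prod.mk.inj hFF).1
    have e2 : F.1 = F'.1 := (Prod.mk.inj hFF).2
    dsimp only at e1 h4 h5 h4' h5'
    have e3 := congrArg (fun P : PD k (d + 1) => P.1.coeff d) e1
    have e4 : c = c' := by
      simp only [Submodule.coe_add, Submodule.coe_smul, coeff_add, coeff_smul, smul_eq_mul,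
        h4, h5, h4', h5', mul_one, zero_add] at e3
      exact e3
    subst e4
    rw [e2] at e1
    have e5 : F.2 = F'.2 := by exact add_right_cancel e1
    rw [Prod.ext e2 e5]
  · rintro F ⟨h4, h5⟩
    refine ⟨(F.1.1.coeff d, (F.2, F.1 - F.1.1.coeff d • F.2)), ⟨trivial, ⟨h4, ?_⟩, ?_⟩, ?_⟩
    · show (F.1.1 - F.1.1.coeff d • F.2.1).coeff d = 0
      rw [coeff_sub, coeff_smul, h4, smul_eq_mul, mul_one, sub_self]
    · show IsCoprime F.2.1 (F.1.1 - F.1.1.coeff d • F.2.1)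
      rw [Polynomial.smul_eq_C_mul, sub_eq_add_neg, ← neg_mul, mul_comm]
      exact h5.symm.add_mul_left_right _
    · show (F.1 - F.1.1.coeff d • F.2 + F.1.1.coeff d • F.2, F.2) = F
      rw [sub_add_cancel]

private theorem ud_homP_zero {d : ℕ} : homP (0 : PD k (d + 1) × PD k (d + 1)) = 0 := by
  have h := homP_smul (0 : k) (0 : PD k (d + 1) × PD k (d + 1))
  rwa [zero_smul, zero_smul] at h

private theorem ud_ne (k : Type) [Field k] [IsAlgClosed k] [CharZero k] (d : ℕ) :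
    ∃ e : SM k d, e ≠ 0 := by
  have h1 : (1 : k[X]) ∈ degreeLT k (d + 1) := by
    rw [mem_degreeLT, degree_one]
    exact_mod_cast Nat.succ_pos d
  refine ⟨homP ((⟨1, h1⟩ : PD k (d + 1)), (0 : PD k (d + 1))), fun h => ?_⟩
  rw [← ud_homP_zero] at h
  have h2 := homP_bij.injective h
  have h3 := congrArg Subtype.val (congrArg Prod.fst h2)
  exact one_ne_zero h3

open Classical in
private def udf (k : Type) [Field k] [IsAlgClosed k] [CharZero k] (d : ℕ)
    (x : PD k (d + 1) × PD k (d + 1)) : ℙ k (SM k d) :=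
  Projectivization.mk k (if homP x = 0 then Classical.choose (ud_ne k d) else homP x) (by
    split_ifs with h
    · exact Classical.choose_spec (ud_ne k d)
    · exact h)

private theorem udf_dm (d : ℕ) : DM k (udf k d) := by
  unfold udf
  exact DM.pmk (DM.ite (DM.eq (by fun_prop) (by fun_prop)) (by fun_prop) (by fun_prop)) _

private theorem udf_eq {d : ℕ} {x : PD k (d + 1) × PD k (d + 1)} (h : homP x ≠ 0) :
    udf k d x = Projectivization.mk k (homP x) h := by
  unfold udf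
  congr 1
  rw [if_neg h]

private def udT (k : Type) [Field k] [IsAlgClosed k] [CharZero k] (d : ℕ) : Set (ℙ k (SM k d)) :=
  {p | ∃ F : SM k d, isrep F p ∧ F.1 ![1, 0] 1 ≠ 0}

private theorem udT_dm (d : ℕ) : DM k (fun p => p ∈ udT k d) := by
  have h : DM k (fun p : ℙ k (SM k d) => ∃ F : SM k d, isrep F p ∧ F.1 ![1, 0] 1 ≠ 0) := by
    refine DM.ex (DM.and (DM.isrep (by fun_prop) (by fun_prop)) (DM.ne ?_ (by fun_prop)))
    have h1 : DM k (fun q : ℙ k (SM k d) × SM k d => q.2.1 ![1, 0]) :=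
      DM.sm_eval (by fun_prop) (DM.const' _)
    exact DM.comp (DM.apply (1 : Fin 2)) h1
  exact h.congr_iff fun _ => Iff.rfl

private theorem udT_mk {d : ℕ} {F : SM k d} (hF : F ≠ 0) :
    Projectivization.mk k F hF ∈ udT k d ↔ F.1 ![1, 0] 1 ≠ 0 := by
  constructor
  · rintro ⟨G, ⟨hG, hGF⟩, h⟩ h0
    obtain ⟨a, rfl⟩ := (Projectivization.mk_eq_mk_iff' k _ _ hG hF).1 hGF
    apply h
    show a * F.1 ![1, 0] 1 = 0
    rw [h0, mul_zero]
  · intro h
    exact ⟨F, ⟨hF, rfl⟩, h⟩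

private theorem ud_inf {d : ℕ} (x : PD k (d + 1) × PD k (d + 1)) :
    (homP x).1 ![1, 0] = ![x.1.1.coeff d, x.2.1.coeff d] := by
  rw [ud_app, homog_inf, homog_inf, one_pow, one_mul, one_mul]

private theorem ud_cop_ne {d : ℕ} {F : SM k d} (h : Cop F.1) : F ≠ 0 := by
  rintro rfl
  refine h ![1, 0] ?_ rfl
  intro h0
  have := congrFun h0 0
  simp at this

private theorem ud_bij {d : ℕ} {S : Set (PD k (d + 1) × PD k (d + 1))} {T : Set (ℙ k (SM k d))}
    (h1 : ∀ x ∈ S, ∃ h : homP x ≠ 0, Projectivization.mk k (homP x) h ∈ T)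
    (h2 : ∀ x : PD k (d + 1) × PD k (d + 1), ∀ h : homP x ≠ 0,
      Projectivization.mk k (homP x) h ∈ T → ∃ y ∈ S, ∃ c : k, c • x = y)
    (h3 : ∀ x ∈ S, ∀ y ∈ S, ∀ c : k, c • y = x → x = y) : Set.BijOn (udf k d) S T := by
  refine ⟨?_, ?_, ?_⟩
  · intro x hx
    obtain ⟨hx0, hxT⟩ := h1 x hx
    rw [udf_eq hx0]
    exact hxT
  · intro x hx y hy hxy
    obtain ⟨hx0, hxT⟩ := h1 x hx
    obtain ⟨hy0, hyT⟩ := h1 y hy
    rw [udf_eq hx0, udf_eq hy0] at hxy
    obtain ⟨a, ha⟩ := (Projectivization.mk_eq_mk_iff' k _ _ hx0 hy0).1 hxy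
    rw [← homP_smul] at ha
    exact h3 x hx y hy a (homP_bij.injective ha)
  · intro p hp
    induction p using Projectivization.ind with
    | h G hG =>
      obtain ⟨x, rfl⟩ := homP_bij.surjective G
      obtain ⟨y, hy, c, hc⟩ := h2 x hG hp
      refine ⟨y, hy, ?_⟩
      obtain ⟨hy0, hyT⟩ := h1 y hy
      rw [udf_eq hy0]
      exact (Projectivization.mk_eq_mk_iff' k _ _ hy0 hG).2 ⟨c, by rw [← homP_smul, hc]⟩

private theorem ud_clq {d : ℕ} {S : Set (PD k (d + 1) × PD k (d + 1))} {T : Set (ℙ k (SM k d))}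
    (hS : DQ k S (trel k)) (hT : DQ k T (relU k)) (htra : ∀ b : k, ∀ x ∈ S, tra b x ∈ S)
    (h1 : ∀ x ∈ S, ∃ h : homP x ≠ 0, Projectivization.mk k (homP x) h ∈ T)
    (h2 : ∀ x : PD k (d + 1) × PD k (d + 1), ∀ h : homP x ≠ 0,
      Projectivization.mk k (homP x) h ∈ T → ∃ y ∈ S, ∃ c : k, c • x = y)
    (h3 : ∀ x ∈ S, ∀ y ∈ S, ∀ c : k, c • y = x → x = y) : clq k S (trel k) = clq k T (relU k) := by
  have hb := ud_bij h1 h2 h3
  have key : ∀ (b : k), ∀ x ∈ S, affP 1 b • udf k d x = udf k d (tra b x) := by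
    intro b x hx
    obtain ⟨hx0, hxT⟩ := h1 x hx
    obtain ⟨hy0, hyT⟩ := h1 _ (htra b x hx)
    rw [udf_eq hx0, udf_eq hy0]
    unfold affP
    rw [sm_pgl_mk]
    congr 1
    exact (homP_tra b x).symm
  refine clq_map hS hT (udf k d) (udf_dm d) hb.mapsTo ?_ ?_
  · intro x hx y hy
    constructor
    · rintro ⟨b, rfl⟩
      exact ⟨b, key b x hx⟩
    · rintro ⟨b, hb'⟩
      rw [key b x hx] at hb'
      exact ⟨b, hb.injOn (htra b x hx) hy hb'⟩
  · intro p hp
    obtain ⟨x, hx, rfl⟩ := hb.surjOn hp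
    exact ⟨x, hx, hT.refl _ hp⟩

private theorem ud_AA1 {d : ℕ} : ∀ x ∈ AA k d, ∃ h : homP x ≠ 0,
    Projectivization.mk k (homP x) h ∈ RatP k d ∩ udT k d := by
  rintro x ⟨h1, h2⟩
  have hc : Cop (homP x).1 := (homP_cop x).2 ⟨h2, Or.inr (by rw [h1]; exact one_ne_zero)⟩
  have h0 := ud_cop_ne hc
  refine ⟨h0, (mem_RatP h0).2 hc, (udT_mk h0).2 ?_⟩
  rw [ud_inf]
  simp [h1]

private theorem ud_DD1 {d : ℕ} : ∀ x ∈ DD k d, ∃ h : homP x ≠ 0,
    Projectivization.mk k (homP x) h ∈ RatP k d \ udT k d := by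
  rintro x ⟨⟨h1, h3⟩, h2⟩
  have hc : Cop (homP x).1 := (homP_cop x).2 ⟨h2, Or.inl (by rw [h1]; exact one_ne_zero)⟩
  have h0 := ud_cop_ne hc
  refine ⟨h0, (mem_RatP h0).2 hc, fun h => (udT_mk h0).1 h ?_⟩
  rw [ud_inf]
  simp [h3]

private theorem ud_smul_cop {d : ℕ} {x : PD k (d + 1) × PD k (d + 1)} {c : k} (hc : c ≠ 0)
    (h : Cop (homP x).1) : IsCoprime (c • x).1.1 (c • x).2.1 := by
  have h1 : Cop (homP (c • x)).1 := by
    intro v hv h0
    apply h v hv
    rw [homP_smul] at h0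
    have h2 : c • (homP x).1 v = 0 := h0
    exact (smul_eq_zero.1 h2).resolve_left hc
  exact ((homP_cop _).1 h1).1

private theorem ud_AA2 {d : ℕ} : ∀ x : PD k (d + 1) × PD k (d + 1), ∀ h : homP x ≠ 0,
    Projectivization.mk k (homP x) h ∈ RatP k d ∩ udT k d → ∃ y ∈ AA k d, ∃ c : k, c • x = y := by
  rintro x h0 ⟨h1, h2⟩
  rw [mem_RatP] at h1
  rw [udT_mk, ud_inf] at h2
  have h3 : x.2.1.coeff d ≠ 0 := by simpa using h2
  refine ⟨_, ⟨?_, ud_smul_cop (inv_ne_zero h3) h1⟩, (x.2.1.coeff d)⁻¹, rfl⟩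
  show ((x.2.1.coeff d)⁻¹ • x.2.1).coeff d = 1
  rw [coeff_smul, smul_eq_mul, inv_mul_cancel₀ h3]

private theorem ud_DD2 {d : ℕ} : ∀ x : PD k (d + 1) × PD k (d + 1), ∀ h : homP x ≠ 0,
    Projectivization.mk k (homP x) h ∈ RatP k d \ udT k d → ∃ y ∈ DD k d, ∃ c : k, c • x = y := by
  rintro x h0 ⟨h1, h2⟩
  rw [mem_RatP] at h1
  rw [udT_mk, ud_inf, not_not] at h2
  have h4 : x.2.1.coeff d = 0 := by simpa using h2
  have h3 : x.1.1.coeff d ≠ 0 := by
    rcases ((homP_cop x).1 h1).2 with h | h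
    · exact h
    · exact absurd h4 h
  refine ⟨_, ⟨⟨?_, ?_⟩, ud_smul_cop (inv_ne_zero h3) h1⟩, (x.1.1.coeff d)⁻¹, rfl⟩
  · show ((x.1.1.coeff d)⁻¹ • x.1.1).coeff d = 1
    rw [coeff_smul, smul_eq_mul, inv_mul_cancel₀ h3]
  · show ((x.1.1.coeff d)⁻¹ • x.2.1).coeff d = 0
    rw [coeff_smul, h4, smul_zero]

private theorem ud_AA3 {d : ℕ} : ∀ x ∈ AA k d, ∀ y ∈ AA k d, ∀ c : k, c • y = x → x = y := by
  rintro x ⟨hx, _⟩ y ⟨hy, _⟩ c rfl
  have h1 : (c • y.2.1).coeff d = 1 := hx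
  rw [coeff_smul, hy, smul_eq_mul, mul_one] at h1
  rw [h1, one_smul]

private theorem ud_DD3 {d : ℕ} : ∀ x ∈ DD k d, ∀ y ∈ DD k d, ∀ c : k, c • y = x → x = y := by
  rintro x ⟨⟨hx, _⟩, _⟩ y ⟨⟨hy, _⟩, _⟩ c rfl
  have h1 : (c • y.1.1).coeff d = 1 := hx
  rw [coeff_smul, hy, smul_eq_mul, mul_one] at h1
  rw [h1, one_smul]

private theorem ud_sat {d : ℕ} : ∀ x ∈ RatP k d, ∀ y ∈ RatP k d, relU k x y → x ∈ udT k d →
    y ∈ udT k d := by
  rintro x _ y _ ⟨b, rfl⟩ hx
  induction x using Projectivization.ind with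
  | h G hG =>
    obtain ⟨x, rfl⟩ := homP_bij.surjective G
    rw [udT_mk, ud_inf] at hx
    unfold affP
    rw [sm_pgl_mk, udT_mk, ← homP_tra, ud_inf]
    have h1 : (tra b x).2.1.coeff d = x.2.1.coeff d := ud_top b x.2
    simpa [h1] using hx

/-- The class of `Rat_d / U`. -/
theorem rat_U {d : ℕ} (hd : 2 ≤ d) :
    clq k (RatP k d) (relU k) = (L ^ (2 * d) - L ^ (2 * d - 2)) • ptc k := by
  have hR : DQ k (RatP k d) (relU k) := relU_dq (RatP_gset d)
  have hDD := DD_cl (k := k) (d := d) (by omega)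
  have hAA := AA_U (k := k) d hDD
  rw [clq_split hR (udT k d) (udT_dm d) ud_sat,
    ← ud_clq hAA.1 (hR.inter (udT_dm d)) (fun b x hx => ud_AA_tra hx) ud_AA1 ud_AA2 ud_AA3,
    ← ud_clq (DD_dq d) (hR.diff (udT_dm d)) (fun b x hx => tra_DD hx) ud_DD1 ud_DD2 ud_DD3,
    hAA.2, DD_U hd, ← add_smul]
  congr 1
  ring

private theorem ud_rat_cl {d : ℕ} {p : Polynomial ℤ} (h : PolyCl k (DD k d) p) :
    PolyCl k (RatP k d) (L * p + p) := by
  have hd : DM k (fun x => x ∈ RatP k d) := (RatP_gset d).ds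
  have h1 : DM k (fun x => x ∈ RatP k d ∩ udT k d) :=
    (hd.and (udT_dm d)).congr_iff fun _ => Iff.rfl
  have h2 : DM k (fun x => x ∈ RatP k d \ udT k d) :=
    (hd.and (udT_dm d).not).congr_iff fun _ => Iff.rfl
  have h3 := (AA_cl d h).bij h1 (udf k d) (udf_dm d) (ud_bij ud_AA1 ud_AA2 ud_AA3)
  have h4 := h.bij h2 (udf k d) (udf_dm d) (ud_bij ud_DD1 ud_DD2 ud_DD3)
  have h5 := h3.union h4 (Set.disjoint_left.2 fun x hx hx' => hx'.2 hx.2)
  rwa [Set.inter_union_sdiff] at h5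

/-- The class of `Rat_d`. -/
theorem rat_cl {d : ℕ} (hd : 1 ≤ d) :
    PolyCl k (RatP k d) (L ^ (2 * d + 1) - L ^ (2 * d - 1)) := by
  refine (ud_rat_cl (DD_cl hd)).cast ?_
  obtain ⟨e, rfl⟩ : ∃ e, d = e + 1 := ⟨d - 1, by omega⟩
  have h : 2 * (e + 1) - 1 = 2 * e + 1 := by omega
  rw [h]
  ring

theorem rat_cl_zero : PolyCl k (RatP k 0) (1 + L) := by
  refine (ud_rat_cl DD_cl_zero).cast ?_
  ring

end

end Pool.Agent.MRat
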