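import Pool.Agent.Lib.MP_923aff_ag.QG1
import Pool.Agent.Lib.MP_923aff_ag.QG2
import Pool.Agent.Lib.MP_923aff_ag.QG3
import Pool.Agent.Lib.MP_923aff_ag.QF
import Pool.Agent.Lib.MP_923aff_ag.UD
import Pool.Agent.Lib.MP_923aff_ag.RatFinal
/-!
# The main theorem from the projective bundle formulas
-/

set_option autoImplicit false

namespace Pool.Agent.MRat

open scoped MatrixGroups LinearAlgebra.Projectivization

noncomputable section

variable {k : Type} [Field k] [IsAlgClosed k] [CharZero k]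
variable {X Y Z W : Type} [DT k X] [DT k Y] [DT k Z] [DT k W]

/-- The projective bundle formulas (Theorem G, Theorem G⁻, and their version for maps with icosahedral
symmetry) and the class of `Rat_d / N`. -/
structure GData (k : Type) [Field k] [IsAlgClosed k] [CharZero k] : Prop where
  P1 : ∀ d, 2 ≤ d → Even d →
    orb k PGL(2, k) (RatP k d ×ˢ (Set.univ : Set (PL k))) = br 2 • orb k PGL(2, k) (RatP k d)
  F2 : ∀ d, 2 ≤ d → orb k PGL(2, k) (RatP k d ×ˢ (Set.univ : Set (ℙ k (Form k 2)))) =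
    br 3 • orb k PGL(2, k) (RatP k d)
  F4 : ∀ d, 2 ≤ d → orb k PGL(2, k) (RatP k d ×ˢ (Set.univ : Set (ℙ k (Form k 4)))) =
    br 5 • orb k PGL(2, k) (RatP k d)
  N : ∀ d, 2 ≤ d → clq k (RatP k d) (relN k) = (L ^ (2 * d)) • ptc k
  C : ∀ e g, Odd (e + g) →
    orb k PGL(2, k) ((RatP k e ×ˢ Conf k 4) ×ˢ (Set.univ : Set (ℙ k (Form k g)))) =
      br (g + 1) • orb k PGL(2, k) (RatP k e ×ˢ Conf k 4)
  S : ∀ d, Odd d → orb k PGL(2, k) (Conf k 4 ×ˢ (Set.univ : Set (ℙ k (SM k d)))) =
    br (2 * d + 2) • orb k PGL(2, k) (Conf k 4)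

theorem qmain_q4 (h : GData k) (d : ℕ) :
    orb k PGL(2, k) (RatP k d ×ˢ Conf k 4) = (L * ratPoly d) • ptc k := by
  refine q4_rec (fun e => orb k PGL(2, k) (RatP k e ×ˢ Conf k 4)) ?_ ?_ d
  · intro e he
    rcases Nat.eq_zero_or_pos e with rfl | hpos
    · exact q4_zero
    · have h2 : 2 ≤ e := by
        obtain ⟨m, rfl⟩ := he
        omega
      have hs := RatP_gset (k := k) e
      have fin := fun x hx => rat_stab_finite h2 (k := k) x hx
      have e1 : br 2 • orb k PGL(2, k) (RatP k e) = clq k (RatP k e) (relB k) := by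
        rw [← h.P1 e h2 he, orb_P1 hs]
      have e2 := h.F2 e h2
      rw [orb_form2 hs] at e2
      have e4 := h.F4 e h2
      rw [orb_form4 hs fin] at e4
      have hQ := final_even (d := e) (by omega) e1 e2.symm (relU_eq hs fin) (rat_U h2) (h.N e h2)
      exact q4_even (d := e) (by omega) e1 (h.N e h2) hQ (relT_eq hs fin)
        ((rat_cl (k := k) (by omega)).cl) e4.symm
  · intro d hd
    have h1 := h.S d hd
    rw [conf4_orb, smul_smul] at h1
    rw [← h1, gcd_orb (Conf_gset 4) d]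
    refine Finset.sum_congr rfl fun g hg => ?_
    rw [Finset.mem_range] at hg
    rw [h.C (d - g) g (by rw [Nat.sub_add_cancel (by omega)]; exact hd)]

theorem qmain_orb (h : GData k) {d : ℕ} (hd : 2 ≤ d) :
    orb k PGL(2, k) (RatP k d) = (L ^ (2 * d - 2)) • ptc k := by
  have hs := RatP_gset (k := k) d
  have fin := fun x hx => rat_stab_finite hd (k := k) x hx
  have e2 := h.F2 d hd
  rw [orb_form2 hs] at e2
  rcases Nat.even_or_odd d with he | ho
  · have e1 : br 2 • orb k PGL(2, k) (RatP k d) = clq k (RatP k d) (relB k) := by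
      rw [← h.P1 d hd he, orb_P1 hs]
    exact final_even (d := d) (by omega) e1 e2.symm (relU_eq hs fin) (rat_U hd) (h.N d hd)
  · have e4 := h.F4 d hd
    rw [orb_form4 hs fin] at e4
    exact final_odd (d := d) (by omega) e2.symm (relU_eq hs fin) (rat_U hd) (h.N d hd)
      (relT_eq hs fin) ((rat_cl (k := k) (by omega)).cl) e4.symm (qmain_q4 h d)

/-- The class in the sense of definable types agrees with the class in the sense of ambient types. -/
theorem clq_eq_cls {n : ℕ} (s : Set (Fin n → k)) (r : (Fin n → k) → (Fin n → k) → Prop) :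
    clq k s r = cls k s r := by
  have e1 : {a : Fin n → k | ∃ x : Fin n → k, (∀ i, x i = a i) ∧ x ∈ s} = s := by
    ext a
    constructor
    · rintro ⟨x, hx, h⟩
      rwa [← funext hx]
    · intro h
      exact ⟨a, fun _ => rfl, h⟩
  have e2 : (fun a b : Fin n → k => ∃ x y : Fin n → k, (∀ i, x i = a i) ∧ (∀ i, y i = b i) ∧ r x y) =
      r := by
    funext a b
    apply propext
    constructor
    · rintro ⟨x, y, hx, hy, h⟩
      rwa [← funext hx, ← funext hy]
    · intro h
      exact ⟨a, b, fun _ => rfl, fun _ => rfl, h⟩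
  show cls k {a : Fin n → k | ∃ x : Fin n → k, (∀ i, x i = a i) ∧ x ∈ s}
    (fun a b : Fin n → k => ∃ x y : Fin n → k, (∀ i, x i = a i) ∧ (∀ i, y i = b i) ∧ r x y) =
    cls k s r
  rw [e1, e2]

theorem ptc_eq_pt : ptc k = pt k := by
  have e1 : {a : Unit | ∃ x : Unit, x = a ∧ x ∈ (Set.univ : Set Unit)} = Set.univ := by
    ext a
    simp
  have e2 : (fun a b : Unit => ∃ x y : Unit, x = a ∧ y = b ∧ x = y) = (fun a b => a = b) := by
    funext a b
    simp
  show cls k {a : Unit | ∃ x : Unit, x = a ∧ x ∈ (Set.univ : Set Unit)}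
    (fun a b : Unit => ∃ x y : Unit, x = a ∧ y = b ∧ x = y) = pt k
  rw [e1, e2]
  rfl

/-- The pair of forms with a given vector of coefficients. -/
def smOf (d : ℕ) (x : Fin ((d + 1) + (d + 1)) → k) : SM k d :=
  SM.pair (Form.of fun i => x (Fin.castAdd (d + 1) i)) (Form.of fun i => x (Fin.natAdd (d + 1) i))

theorem smOf_apply (d : ℕ) (x : Fin ((d + 1) + (d + 1)) → k) : (smOf d x).1 = pairMap k d x := by
  funext v
  show ![(Form.of fun i => x (Fin.castAdd (d + 1) i)).1 v,
    (Form.of fun i => x (Fin.natAdd (d + 1) i)).1 v] = _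
  rw [Form.of_apply, Form.of_apply]
  rfl

theorem smOf_dm (d : ℕ) : DM k (smOf d : (Fin ((d + 1) + (d + 1)) → k) → SM k d) := by
  unfold smOf
  fun_prop

theorem smOf_surj (d : ℕ) (F : SM k d) : ∃ x, smOf d x = F := by
  refine ⟨Fin.append (coeffE k d (smE k d F).1) (coeffE k d (smE k d F).2), ?_⟩
  apply Subtype.ext
  funext v
  rw [smOf_apply]
  funext i
  fin_cases i
  · have h := form_eq (smE k d F).1 v
    show ∑ i : Fin (d + 1), Fin.append (coeffE k d (smE k d F).1) (coeffE k d (smE k d F).2)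
      (Fin.castAdd (d + 1) i) * v 0 ^ (i : ℕ) * v 1 ^ (d - (i : ℕ)) = F.1 v 0
    simp only [Fin.append_left]
    exact h.symm
  · have h := form_eq (smE k d F).2 v
    show ∑ i : Fin (d + 1), Fin.append (coeffE k d (smE k d F).1) (coeffE k d (smE k d F).2)
      (Fin.natAdd (d + 1) i) * v 0 ^ (i : ℕ) * v 1 ^ (d - (i : ℕ)) = F.1 v 1
    simp only [Fin.append_right]
    exact h.symm

theorem smOf_cop (d : ℕ) (x : Fin ((d + 1) + (d + 1)) → k) :
    x ∈ RatSet k d ↔ Cop (smOf d x).1 := by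
  rw [smOf_apply]
  exact Iff.rfl

theorem smOf_conj {d : ℕ} (x y : Fin ((d + 1) + (d + 1)) → k) :
    RatConj k d x y ↔ ∃ (g : GL (Fin 2) k) (c : kˣ), smOf d y = (c : k) • (g • smOf d x) := by
  constructor
  · rintro ⟨A, c, hA, hc, h⟩
    refine ⟨Matrix.GeneralLinearGroup.mkOfDetNeZero A hA, Units.mk0 c hc, ?_⟩
    apply Subtype.ext
    funext v
    set g : GL (Fin 2) k := Matrix.GeneralLinearGroup.mkOfDetNeZero A hA with hg
    have e := h (g⁻¹ • v)
    have e1 : A.mulVec (g⁻¹ • v) = v := by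
      have : g • (g⁻¹ • v) = v := smul_inv_smul g v
      exact this
    rw [e1] at e
    show (smOf d y).1 v = c • (g • (smOf d x).1 (g⁻¹ • v))
    rw [smOf_apply, smOf_apply]
    exact e
  · rintro ⟨g, c, h⟩
    refine ⟨(g : Matrix (Fin 2) (Fin 2) k), (c : k), g.det_ne_zero, c.ne_zero, fun v => ?_⟩
    have e := congrFun (congrArg Subtype.val h) (g • v)
    have e2 : ((c : k) • (g • smOf d x)).1 (g • v) = (c : k) • (g • (smOf d x).1 v) := by
      show (c : k) • (g • (smOf d x).1 (g⁻¹ • g • v)) = _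
      rw [inv_smul_smul]
    rw [e2, smOf_apply, smOf_apply] at e
    exact e

theorem dm_of_dp {n : ℕ} {P : (Fin n → k) → Prop} (h : DP k P) : DM k P := by
  rw [DM_iff_DS]
  refine DP.congr h fun a => ?_
  constructor
  · intro ha
    exact ⟨a, fun _ => rfl, ha⟩
  · rintro ⟨x, hx, h⟩
    have : x = a := funext hx
    rwa [← this]

theorem dm_of_dp2 {n : ℕ} {P : (Fin n → k) × (Fin n → k) → Prop} (h : DP k P) : DM k P := by
  rw [DM_iff_DS]
  refine DP.congr h fun a => ?_
  constructor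
  · intro ha
    exact ⟨a, ⟨fun _ => rfl, fun _ => rfl⟩, ha⟩
  · rintro ⟨x, ⟨hx, hx'⟩, h⟩
    have e1 : x.1 = a.1 := funext hx
    have e2 : x.2 = a.2 := funext hx'
    have : x = a := Prod.ext e1 e2
    rwa [← this]

theorem ratConj_dq (d : ℕ) : DQ k (RatSet k d) (RatConj k d) where
  ds := dm_of_dp (good_ratConj k d).ds
  dr := dm_of_dp2 (good_ratConj k d).dr
  refl := (good_ratConj k d).refl
  symm := (good_ratConj k d).symm
  trans := (good_ratConj k d).trans

theorem cop_ne {d : ℕ} {F : SM k d} (h : Cop F.1) : F ≠ 0 := by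
  rintro rfl
  exact h ![1, 0] (by simp) rfl

theorem rat_cls_orb (d : ℕ) : cls k (RatSet k d) (RatConj k d) = orb k PGL(2, k) (RatP k d) := by
  rw [← clq_eq_cls]
  refine clq_corr (ratConj_dq d) (RatP_gset d).dq (fun x p => isrep (smOf d x) p)
    (DM.isrep (DM.comp (smOf_dm d) (by fun_prop)) (by fun_prop)) ?_ ?_ ?_
  · intro x hx
    rw [smOf_cop] at hx
    exact ⟨Projectivization.mk k (smOf d x) (cop_ne hx), (mem_RatP _).2 hx, cop_ne hx, rfl⟩
  · intro p hp
    obtain ⟨x, hx⟩ := smOf_surj d p.rep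
    refine ⟨x, ?_, ?_⟩
    · rw [smOf_cop, hx]
      exact hp
    · rw [hx]
      exact ⟨p.rep_nonzero, p.mk_rep⟩
  · rintro x hx p hp ⟨h0, h1⟩ y hy q hq ⟨h0', h1'⟩
    subst h1 h1'
    rw [smOf_conj]
    constructor
    · rintro ⟨g, c, h⟩
      refine ⟨Matrix.ProjGenLinGroup.mk g, ?_⟩
      rw [sm_pgl_mk, Projectivization.mk_eq_mk_iff']
      refine ⟨((c⁻¹ : kˣ) : k), ?_⟩
      rw [h, smul_smul, Units.inv_mul, one_smul]
    · rintro ⟨g, hg⟩
      obtain ⟨g, rfl⟩ := Matrix.ProjGenLinGroup.mk_surjective g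
      rw [sm_pgl_mk, Projectivization.mk_eq_mk_iff'] at hg
      obtain ⟨a, ha⟩ := hg
      have ha0 : a ≠ 0 := by
        rintro rfl
        rw [zero_smul] at ha
        exact (smul_ne_zero_iff_ne g).2 h0 ha.symm
      refine ⟨g, (Units.mk0 a ha0)⁻¹, ?_⟩
      rw [← ha, smul_smul]
      have : (((Units.mk0 a ha0)⁻¹ : kˣ) : k) * a = 1 := by
        rw [Units.val_inv_eq_inv_val, Units.val_mk0, inv_mul_cancel₀ ha0]
      rw [this, one_smul]

theorem qmain (h : GData k) : MainStatement k := by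
  intro d hd
  rw [rat_cls_orb, qmain_orb h hd, ptc_eq_pt]

end

end Pool.Agent.MRat
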