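import Pool.Agent.Lib.MP_923aff_ag.RDefs
/-!
# JOB RA1: the gcd decomposition of `PPs` and `MMs` as `N`-spaces / `T`-spaces
-/

set_option autoImplicit false

namespace Pool.Agent.MRat

open scoped MatrixGroups LinearAlgebra.Projectivization

variable {k : Type} [Field k] [IsAlgClosed k] [CharZero k]
variable {X Y Z : Type} [DT k X] [DT k Y] [DT k Z]

/-- The piece of `s × PPs m` with a gcd of degree `g` (here `e = m - g`). -/
def pieceP (k : Type) [Field k] [IsAlgClosed k] [CharZero k] {Y : Type} (s : Set Y) (m g e : ℕ)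
    (h : g + e = m) : Set (Y × ℙ k (SM k m)) :=
  {p | p.1 ∈ s ∧ ∃ q ∈ Hs k g, ∃ r ∈ As k e, pmul h q r = p.2}

private theorem ra1_rep {g e m : ℕ} (h : g + e = m) (q : ℙ k (Form k g)) (r : ℙ k (SM k e))
    (v : Fin 2 → k) (i : Fin 2) :
    (pmul h q r).rep.1 v i ≠ 0 ↔ q.rep.1 v ≠ 0 ∧ r.rep.1 v i ≠ 0 := by
  unfold pmul
  rw [rep_ne_iff]
  show q.rep.1 v * r.rep.1 v i ≠ 0 ↔ _
  rw [mul_ne_zero_iff]

private theorem ra1_mem_PPs {g e m : ℕ} (h : g + e = m) (q : ℙ k (Form k g)) (r : ℙ k (SM k e)) :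
    pmul h q r ∈ PPs k m ↔ q ∈ Hs k g ∧ (r.rep.1 (e0 k) 0 ≠ 0 ∧ r.rep.1 (e1 k) 1 ≠ 0) := by
  show (pmul h q r).rep.1 (e0 k) 0 ≠ 0 ∧ (pmul h q r).rep.1 (e1 k) 1 ≠ 0 ↔
    (q.rep.1 (e0 k) ≠ 0 ∧ q.rep.1 (e1 k) ≠ 0) ∧ _
  rw [ra1_rep, ra1_rep]
  tauto

private theorem ra1_mem_MMs {g e m : ℕ} (h : g + e = m) (q : ℙ k (Form k g)) (r : ℙ k (SM k e))
    (hr : r ∈ RatP k e) :
    pmul h q r ∈ MMs k m ↔ q ∈ Hs k g ∧ r ∈ Ms k e := by
  show (pmul h q r).rep.1 (e0 k) 0 ≠ 0 ∧ (pmul h q r).rep.1 (e1 k) 0 ≠ 0 ∧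
    (pmul h q r).rep.1 (e1 k) 1 = 0 ↔
    (q.rep.1 (e0 k) ≠ 0 ∧ q.rep.1 (e1 k) ≠ 0) ∧
      (r ∈ RatP k e ∧ r.rep.1 (e0 k) 0 ≠ 0 ∧ r.rep.1 (e1 k) 1 = 0)
  have h1 := ra1_rep h q r (e0 k) 0
  have h2 := ra1_rep h q r (e1 k) 0
  have h3 := ra1_rep h q r (e1 k) 1
  have h4 : r.rep.1 (e1 k) 1 = 0 → r.rep.1 (e1 k) 0 ≠ 0 := by
    intro h5 h6
    have hne : (e1 k) ≠ 0 := by
      intro hc
      have := congrFun hc 1
      simp [e1] at this
    apply hr (e1 k) hne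
    funext i
    fin_cases i
    · exact h6
    · exact h5
  tauto

/-- `PPs` is the disjoint union of the pieces. -/
theorem pieceP_cover {s : Set Y} (m : ℕ) (p : Y × ℙ k (SM k m)) :
    p ∈ s ×ˢ PPs k m ↔ ∃ g e, ∃ h : g + e = m, p ∈ pieceP k s m g e h := by
  obtain ⟨y, x⟩ := p
  constructor
  · rintro ⟨hy, hx⟩
    obtain ⟨g, e, h, q, r, hr, hqr⟩ := gcd_exists x
    have hx' : pmul h q r ∈ PPs k m := by rw [hqr]; exact hx
    rw [ra1_mem_PPs] at hx'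
    exact ⟨g, e, h, hy, q, hx'.1, r, ⟨hr, hx'.2⟩, hqr⟩
  · rintro ⟨g, e, h, hy, q, hq, r, hr, hqr⟩
    refine ⟨hy, ?_⟩
    show x ∈ PPs k m
    have hqr' : pmul h q r = x := hqr
    rw [← hqr', ra1_mem_PPs]
    exact ⟨hq, hr.2⟩

theorem pieceP_disj {s : Set Y} (m g e g' e' : ℕ) (h : g + e = m) (h' : g' + e' = m)
    (p : Y × ℙ k (SM k m)) (hp : p ∈ pieceP k s m g e h) (hp' : p ∈ pieceP k s m g' e' h') :
    g = g' := by
  obtain ⟨_, q, _, r, hr, hqr⟩ := hp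
  obtain ⟨_, q', _, r', hr', hqr'⟩ := hp'
  exact gcd_deg h h' hr.1 hr'.1 (hqr.trans hqr'.symm)

private theorem ra1_pmul_zero {m : ℕ} (h : 0 + m = m) (q : ℙ k (Form k 0)) (r : ℙ k (SM k m)) :
    pmul h q r = r := by
  have hc : ∀ v, q.rep.1 v = coeffE k 0 q.rep 0 := by
    intro v
    rw [form_eq]
    simp
  have hne : coeffE k 0 q.rep 0 ≠ 0 := by
    intro h0
    apply q.rep_nonzero
    apply Subtype.ext
    funext v
    rw [hc, h0]; rfl
  conv_rhs => rw [← r.mk_rep]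
  unfold pmul
  rw [Projectivization.mk_eq_mk_iff']
  refine ⟨coeffE k 0 q.rep 0, ?_⟩
  apply Subtype.ext
  funext v
  show coeffE k 0 q.rep 0 • r.rep.1 v = q.rep.1 v • r.rep.1 v
  rw [hc v]

private theorem ra1_Hs_zero : ∃ q : ℙ k (Form k 0), q ∈ Hs k 0 := by
  have h1 : ∀ v, (Form.of (fun _ : Fin 1 => (1 : k))).1 v = 1 := by
    intro v
    rw [Form.of_apply]
    simp
  have hne : Form.of (fun _ : Fin 1 => (1 : k)) ≠ 0 := by
    intro hc
    have := h1 0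
    rw [hc] at this
    exact zero_ne_one this
  refine ⟨Projectivization.mk k _ hne, ?_⟩
  rw [mem_Hs, h1, h1]
  exact ⟨one_ne_zero, one_ne_zero⟩

theorem pieceP_zero {s : Set Y} (m : ℕ) (h : 0 + m = m) : pieceP k s m 0 m h = s ×ˢ As k m := by
  ext ⟨y, x⟩
  constructor
  · rintro ⟨hy, q, _, r, hr, hqr⟩
    rw [ra1_pmul_zero] at hqr
    have hqr' : r = x := hqr
    exact ⟨hy, hqr' ▸ hr⟩
  · rintro ⟨hy, hx⟩
    obtain ⟨q, hq⟩ := ra1_Hs_zero (k := k)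
    exact ⟨hy, q, hq, x, hx, ra1_pmul_zero h q x⟩

private theorem ra1_ptwo {g e m : ℕ} (h : g + e = m) (a b : GL (Fin 2) k) (q : ℙ k (Form k g))
    (r : ℙ k (SM k e)) :
    ptwo a b (pmul h q r) =
      pmul h ((Matrix.ProjGenLinGroup.mk b : PGL(2, k)) • q) (ptwo a b r) := by
  conv_rhs => rw [← q.mk_rep]
  rw [form_pgl_mk]
  unfold ptwo
  rw [pmul_mk]
  have h1 : pmul h q r = Projectivization.mk k (fmul h q.rep r.rep)
      (fmul_ne h q.rep_nonzero r.rep_nonzero) := rfl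
  have h2 := ptwo_mk a b (fmul_ne h q.rep_nonzero r.rep_nonzero)
  unfold ptwo at h2
  rw [h1, h2]
  congr 1
  apply Subtype.ext
  funext v
  show a • (q.rep.1 (b⁻¹ • v) • r.rep.1 (b⁻¹ • v)) = q.rep.1 (b⁻¹ • v) • (a • r.rep.1 (b⁻¹ • v))
  exact smul_comm _ _ _

private theorem ra1_t {g e m : ℕ} (h : g + e = m) (a : ℤ) (c : kˣ) (q : ℙ k (Form k g))
    (r : ℙ k (SM k e)) :
    (RA k m a).t c (pmul h q r) = pmul h ((FA k g).t c q) ((RA k e a).t c r) :=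
  ra1_ptwo h _ _ q r

private theorem ra1_w {g e m : ℕ} (h : g + e = m) (a : ℤ) (q : ℙ k (Form k g))
    (r : ℙ k (SM k e)) :
    (RA k m a).w (pmul h q r) = pmul h ((FA k g).w q) ((RA k e a).w r) :=
  ra1_ptwo h _ _ q r

theorem pieceP_st {A : NA k Y} {s : Set Y} (hs : A.St s) (m g e : ℕ) (h : g + e = m) (a : ℤ)
    (l : ℕ) : (A.prod ((RA k m a).pull l)).St (pieceP k s m g e h) := by
  refine ⟨⟨?_, ?_⟩, ?_⟩
  · have h1 := hs.ds
    have h2 := (Hs_st (k := k) g).ds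
    have h3 := (As_st (k := k) e a).ds
    show DM k (fun p : Y × ℙ k (SM k m) => p.1 ∈ s ∧ ∃ q, q ∈ Hs k g ∧ ∃ r, r ∈ As k e ∧
      pmul h q r = p.2)
    fun_prop
  · rintro c ⟨y, x⟩ ⟨hy, q, hq, r, hr, hqr⟩
    have hqr' : pmul h q r = x := hqr
    refine ⟨hs.t_mem c y hy, (FA k g).t (c ^ l) q, (Hs_st g).t_mem _ _ hq,
      (RA k e a).t (c ^ l) r, (As_st e a).t_mem _ _ hr, ?_⟩
    show _ = (RA k m a).t (c ^ l) x
    rw [← hqr', ra1_t]
  · rintro ⟨y, x⟩ ⟨hy, q, hq, r, hr, hqr⟩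
    have hqr' : pmul h q r = x := hqr
    refine ⟨hs.w_mem y hy, (FA k g).w q, (Hs_st g).w_mem _ hq,
      (RA k e a).w r, (As_st e a).w_mem _ hr, ?_⟩
    show _ = (RA k m a).w x
    rw [← hqr', ra1_w]

private theorem ra1_src_st {A : NA k Y} {s : Set Y} (hs : A.St s) (g e : ℕ) (a : ℤ) (l : ℕ) :
    ((A.prod ((RA k e a).pull l)).prod ((FA k g).pull l)).St ((s ×ˢ As k e) ×ˢ Hs k g) :=
  (hs.prod _ ((As_st e a).pull l)).prod _ ((Hs_st g).pull l)

private theorem ra1_bij {s : Set Y} (m g e : ℕ) (h : g + e = m) :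
    Set.BijOn (fun p : (Y × ℙ k (SM k e)) × ℙ k (Form k g) => (p.1.1, pmul h p.2 p.1.2))
      ((s ×ˢ As k e) ×ˢ Hs k g) (pieceP k s m g e h) := by
  refine ⟨?_, ?_, ?_⟩
  · rintro ⟨⟨y, r⟩, q⟩ ⟨⟨hy, hr⟩, hq⟩
    exact ⟨hy, q, hq, r, hr, rfl⟩
  · rintro ⟨⟨y, r⟩, q⟩ ⟨⟨hy, hr⟩, hq⟩ ⟨⟨y', r'⟩, q'⟩ ⟨⟨hy', hr'⟩, hq'⟩ heq
    obtain ⟨h1, h2⟩ := Prod.mk.inj heq
    have h1' : y = y' := h1
    have h2' : pmul h q r = pmul h q' r' := h2
    obtain ⟨h3, h4⟩ := gcd_inj h hr.1 hr'.1 h2'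
    have h4' : r = r' := h4
    rw [h1', h3, h4']
  · rintro ⟨y, x⟩ ⟨hy, q, hq, r, hr, hqr⟩
    have hqr' : pmul h q r = x := hqr
    exact ⟨((y, r), q), ⟨⟨hy, hr⟩, hq⟩, by simp [hqr']⟩

/-- Each piece is the product of the spaces of gcds and of coprime pairs. -/
theorem pieceP_iso {A : NA k Y} {s : Set Y} (hs : A.St s) (m g e : ℕ) (h : g + e = m) (a : ℤ)
    (l : ℕ) :
    ncl (A.prod ((RA k m a).pull l)) (pieceP k s m g e h) =
      ncl ((A.prod ((RA k e a).pull l)).prod ((FA k g).pull l)) ((s ×ˢ As k e) ×ˢ Hs k g) ∧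
    tcl (A.prod ((RA k m a).pull l)).toTA (pieceP k s m g e h) =
      tcl ((A.prod ((RA k e a).pull l)).prod ((FA k g).pull l)).toTA
        ((s ×ˢ As k e) ×ˢ Hs k g) ∧
    (NGood 1 ((A.prod ((RA k e a).pull l)).prod ((FA k g).pull l)) ((s ×ˢ As k e) ×ˢ Hs k g) →
      NGood 1 (A.prod ((RA k m a).pull l)) (pieceP k s m g e h)) := by
  have st1 := ra1_src_st hs g e a l
  have st2 := pieceP_st hs m g e h a l
  have hb := ra1_bij (k := k) (s := s) m g e h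
  have hf : DM k (fun p : (Y × ℙ k (SM k e)) × ℙ k (Form k g) =>
      (p.1.1, pmul h p.2 p.1.2)) := by fun_prop
  have ht : ∀ c : kˣ, ∀ p ∈ (s ×ˢ As k e) ×ˢ Hs k g,
      (fun p : (Y × ℙ k (SM k e)) × ℙ k (Form k g) => (p.1.1, pmul h p.2 p.1.2))
        (((A.prod ((RA k e a).pull l)).prod ((FA k g).pull l)).t c p) =
      (A.prod ((RA k m a).pull l)).t c
        ((fun p : (Y × ℙ k (SM k e)) × ℙ k (Form k g) => (p.1.1, pmul h p.2 p.1.2)) p) := by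
    rintro c ⟨⟨y, r⟩, q⟩ _
    show (A.t c y, pmul h ((FA k g).t (c ^ l) q) ((RA k e a).t (c ^ l) r)) =
      (A.t c y, (RA k m a).t (c ^ l) (pmul h q r))
    rw [ra1_t]
  have hw : ∀ p ∈ (s ×ˢ As k e) ×ˢ Hs k g,
      (fun p : (Y × ℙ k (SM k e)) × ℙ k (Form k g) => (p.1.1, pmul h p.2 p.1.2))
        (((A.prod ((RA k e a).pull l)).prod ((FA k g).pull l)).w p) =
      (A.prod ((RA k m a).pull l)).w
        ((fun p : (Y × ℙ k (SM k e)) × ℙ k (Form k g) => (p.1.1, pmul h p.2 p.1.2)) p) := by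
    rintro ⟨⟨y, r⟩, q⟩ _
    show (A.w y, pmul h ((FA k g).w q) ((RA k e a).w r)) =
      (A.w y, (RA k m a).w (pmul h q r))
    rw [ra1_w]
  refine ⟨(ncl_congr st1 st2 _ hf hb ht hw).symm, ?_, ?_⟩
  · exact (tcl_congr st1.toSt st2.toSt _ hf hb ht).symm
  · intro hg
    exact hg.congr st2 _ hf hb ht hw

/-- the pieces, with `e = m - g` -/
private def ra1Q (k : Type) [Field k] [IsAlgClosed k] [CharZero k] {Y : Type} (s : Set Y)
    (m g : ℕ) : Set (Y × ℙ k (SM k m)) :=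
  {p | ∃ h : g + (m - g) = m, p ∈ pieceP k s m g (m - g) h}

private theorem ra1Q_eq {s : Set Y} (m g : ℕ) (h : g + (m - g) = m) :
    ra1Q k s m g = pieceP k s m g (m - g) h := by
  ext p
  exact ⟨fun ⟨_, hp⟩ => hp, fun hp => ⟨h, hp⟩⟩

private theorem ra1Q_st {A : NA k Y} {s : Set Y} (hs : A.St s) (m g : ℕ) (hg : g ≤ m) (a : ℤ)
    (l : ℕ) : (A.prod ((RA k m a).pull l)).St (ra1Q k s m g) := by
  rw [ra1Q_eq m g (by omega)]
  exact pieceP_st hs m g (m - g) _ a l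

private theorem ra1Q_disj {s : Set Y} (m g g' : ℕ) (hne : g ≠ g') :
    Disjoint (ra1Q k s m g) (ra1Q k s m g') := by
  rw [Set.disjoint_left]
  rintro p ⟨h, hp⟩ ⟨h', hp'⟩
  exact hne (pieceP_disj m g (m - g) g' (m - g') h h' p hp hp')

private theorem ra1Q_zero {s : Set Y} (m : ℕ) : ra1Q k s m 0 = s ×ˢ As k m := by
  rw [ra1Q_eq m 0 (by omega)]
  exact pieceP_zero m _

private theorem ra1Q_cover {s : Set Y} (m : ℕ) :
    s ×ˢ PPs k m = ⋃ g ∈ Finset.range (m + 1), ra1Q k s m g := by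
  ext p
  rw [pieceP_cover]
  simp only [Set.mem_iUnion, Finset.mem_range]
  constructor
  · rintro ⟨g, e, h, hp⟩
    refine ⟨g, by omega, ?_⟩
    obtain rfl : e = m - g := by omega
    exact ⟨h, hp⟩
  · rintro ⟨g, _, h, hp⟩
    exact ⟨g, m - g, h, hp⟩

/-- Summary: the decomposition of classes. -/
theorem PP_sum {A : NA k Y} {s : Set Y} (hs : A.St s) (m : ℕ) (a : ℤ) (l : ℕ) :
    ncl (A.prod ((RA k m a).pull l)) (s ×ˢ PPs k m) =
      ncl (A.prod ((RA k m a).pull l)) (s ×ˢ As k m) +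
      ∑ g ∈ Finset.range m,
        ncl ((A.prod ((RA k (m - (g + 1)) a).pull l)).prod ((FA k (g + 1)).pull l))
          ((s ×ˢ As k (m - (g + 1))) ×ˢ Hs k (g + 1)) ∧
    tcl (A.prod ((RA k m a).pull l)).toTA (s ×ˢ PPs k m) =
      tcl (A.prod ((RA k m a).pull l)).toTA (s ×ˢ As k m) +
      ∑ g ∈ Finset.range m,
        tcl ((A.prod ((RA k (m - (g + 1)) a).pull l)).prod ((FA k (g + 1)).pull l)).toTA
          ((s ×ˢ As k (m - (g + 1))) ×ˢ Hs k (g + 1)) := by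
  have hst : ∀ g ∈ Finset.range (m + 1), (A.prod ((RA k m a).pull l)).St (ra1Q k s m g) := by
    intro g hg
    exact ra1Q_st hs m g (by have := Finset.mem_range.mp hg; omega) a l
  have hd : ∀ g ∈ Finset.range (m + 1), ∀ g' ∈ Finset.range (m + 1), g ≠ g' →
      Disjoint (ra1Q k s m g) (ra1Q k s m g') := fun g _ g' _ hne => ra1Q_disj m g g' hne
  constructor
  · rw [ra1Q_cover, ncl_sum _ _ hst hd, Finset.sum_range_succ', add_comm, ra1Q_zero]
    congr 1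
    apply Finset.sum_congr rfl
    intro g hg
    have hg' := Finset.mem_range.mp hg
    rw [ra1Q_eq m (g + 1) (by omega)]
    exact (pieceP_iso hs m (g + 1) (m - (g + 1)) _ a l).1
  · rw [ra1Q_cover, tcl_sum _ _ (fun g hg => (hst g hg).toSt) hd, Finset.sum_range_succ', add_comm,
      ra1Q_zero]
    congr 1
    apply Finset.sum_congr rfl
    intro g hg
    have hg' := Finset.mem_range.mp hg
    rw [ra1Q_eq m (g + 1) (by omega)]
    exact (pieceP_iso hs m (g + 1) (m - (g + 1)) _ a l).2.1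

/-- Summary: goodness. -/
theorem PP_good_diff {A : NA k Y} {s : Set Y} (hs : A.St s) (m : ℕ) (a : ℤ) (l : ℕ)
    (hP : NGood 1 (A.prod ((RA k m a).pull l)) (s ×ˢ PPs k m))
    (hg : ∀ g < m, NGood 1 ((A.prod ((RA k (m - (g + 1)) a).pull l)).prod ((FA k (g + 1)).pull l))
      ((s ×ˢ As k (m - (g + 1))) ×ˢ Hs k (g + 1))) :
    NGood 1 (A.prod ((RA k m a).pull l)) (s ×ˢ As k m) := by
  have hU : ∀ n ≤ m, NGood 1 (A.prod ((RA k m a).pull l))
      (⋃ g ∈ Finset.range n, ra1Q k s m (g + 1)) := by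
    intro n
    induction n with
    | zero =>
      intro _
      simp only [Finset.range_zero, Finset.notMem_empty, Set.iUnion_of_empty, Set.iUnion_empty]
      exact NGood.empty 1 _
    | succ n ih =>
      intro hn
      have h1 := ih (by omega)
      have h2 : NGood 1 (A.prod ((RA k m a).pull l)) (ra1Q k s m (n + 1)) := by
        rw [ra1Q_eq m (n + 1) (by omega)]
        exact (pieceP_iso hs m (n + 1) (m - (n + 1)) _ a l).2.2 (hg n (by omega))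
      have e : (⋃ g ∈ Finset.range (n + 1), ra1Q k s m (g + 1)) =
          (⋃ g ∈ Finset.range n, ra1Q k s m (g + 1)) ∪ ra1Q k s m (n + 1) := by
        ext p
        simp only [Set.mem_iUnion, Finset.mem_range, Set.mem_union]
        constructor
        · rintro ⟨g, hg1, hp⟩
          rcases Nat.lt_or_ge g n with h3 | h3
          · exact Or.inl ⟨g, h3, hp⟩
          · obtain rfl : g = n := by omega
            exact Or.inr hp
        · rintro (⟨g, hg1, hp⟩ | hp)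
          · exact ⟨g, by omega, hp⟩
          · exact ⟨n, by omega, hp⟩
      rw [e]
      apply h1.union h2
      rw [Set.disjoint_left]
      intro p hp hp'
      simp only [Set.mem_iUnion, Finset.mem_range] at hp
      obtain ⟨g, hg1, hp⟩ := hp
      exact Set.disjoint_left.mp (ra1Q_disj m (g + 1) (n + 1) (by omega)) hp hp'
  have h1 := hU m le_rfl
  have hsub : (⋃ g ∈ Finset.range m, ra1Q k s m (g + 1)) ⊆ s ×ˢ PPs k m := by
    rw [ra1Q_cover]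
    intro p hp
    simp only [Set.mem_iUnion, Finset.mem_range] at hp ⊢
    obtain ⟨g, hg1, hp⟩ := hp
    exact ⟨g + 1, by omega, hp⟩
  have h2 := hP.diff h1 hsub
  have e : (s ×ˢ PPs k m) \ (⋃ g ∈ Finset.range m, ra1Q k s m (g + 1)) = s ×ˢ As k m := by
    rw [← ra1Q_zero, ra1Q_cover]
    ext p
    simp only [Set.mem_sdiff, Set.mem_iUnion, Finset.mem_range]
    constructor
    · rintro ⟨⟨g, hg1, hp⟩, hno⟩
      rcases Nat.eq_zero_or_pos g with h0 | h0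
      · rw [h0] at hp; exact hp
      · exfalso
        apply hno
        obtain ⟨g', rfl⟩ : ∃ g', g = g' + 1 := ⟨g - 1, by omega⟩
        exact ⟨g', by omega, hp⟩
    · intro hp
      refine ⟨⟨0, by omega, hp⟩, ?_⟩
      rintro ⟨g, _, hp'⟩
      exact Set.disjoint_left.mp (ra1Q_disj m 0 (g + 1) (by omega)) hp hp'
  rw [e] at h2
  exact h2

private def ra1M (k : Type) [Field k] [IsAlgClosed k] [CharZero k]
    (m g : ℕ) : Set (ℙ k (SM k m)) :=
  {p | ∃ h : g + (m - g) = m, ∃ q ∈ Hs k g, ∃ r ∈ Ms k (m - g), pmul h q r = p}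

private theorem ra1M_st (m g : ℕ) (hg : g ≤ m) (a : ℤ) :
    (RA k m a).toTA.St (ra1M k m g) := by
  have h : g + (m - g) = m := by omega
  refine ⟨?_, ?_⟩
  · have h2 := (Hs_st (k := k) g).ds
    have h3 := (Ms_st (k := k) (m - g) a).ds
    have h4 : DM k (fun p : ℙ k (SM k m) => ∃ q, q ∈ Hs k g ∧ ∃ r, r ∈ Ms k (m - g) ∧
      pmul h q r = p) := by fun_prop
    refine h4.congr_iff ?_
    intro p
    exact ⟨fun hp => ⟨h, hp⟩, fun ⟨_, hp⟩ => hp⟩
  · rintro c x ⟨_, q, hq, r, hr, hqr⟩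
    refine ⟨h, (FA k g).t c q, (Hs_st g).t_mem _ _ hq,
      (RA k (m - g) a).t c r, (Ms_st (m - g) a).t_mem _ _ hr, ?_⟩
    show _ = (RA k m a).t c x
    rw [← hqr, ra1_t]

/-- The same for `MMs` and `T`-classes: the pieces are `Hs g × Ms (m - g)`. -/
theorem MM_sum (m : ℕ) (a : ℤ) :
    tcl (RA k m a).toTA (MMs k m) = tcl (RA k m a).toTA (Ms k m) +
      ∑ g ∈ Finset.range m,
        tcl ((RA k (m - (g + 1)) a).toTA.prod (FA k (g + 1)).toTA)
          (Ms k (m - (g + 1)) ×ˢ Hs k (g + 1)) := by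
  have hst : ∀ g ∈ Finset.range (m + 1), (RA k m a).toTA.St (ra1M k m g) := by
    intro g hg
    exact ra1M_st m g (by have := Finset.mem_range.mp hg; omega) a
  have hd : ∀ g ∈ Finset.range (m + 1), ∀ g' ∈ Finset.range (m + 1), g ≠ g' →
      Disjoint (ra1M k m g) (ra1M k m g') := by
    intro g _ g' _ hne
    rw [Set.disjoint_left]
    rintro p ⟨h, q, hq, r, hr, hqr⟩ ⟨h', q', hq', r', hr', hqr'⟩
    exact hne (gcd_deg h h' hr.1 hr'.1 (hqr.trans hqr'.symm))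
  have hcov : MMs k m = ⋃ g ∈ Finset.range (m + 1), ra1M k m g := by
    ext x
    simp only [Set.mem_iUnion, Finset.mem_range]
    constructor
    · intro hx
      obtain ⟨g, e, h, q, r, hr, hqr⟩ := gcd_exists x
      obtain rfl : e = m - g := by omega
      rw [← hqr, ra1_mem_MMs h q r hr] at hx
      exact ⟨g, by omega, h, q, hx.1, r, hx.2, hqr⟩
    · rintro ⟨g, _, h, q, hq, r, hr, hqr⟩
      rw [← hqr, ra1_mem_MMs h q r hr.1]
      exact ⟨hq, hr⟩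
  have h0 : ra1M k m 0 = Ms k m := by
    ext x
    constructor
    · rintro ⟨h, q, _, r, hr, hqr⟩
      have h2 : pmul (d := m) (show 0 + m = m by omega) q r = r := ra1_pmul_zero _ q r
      have h3 : r = x := h2.symm.trans hqr
      exact h3 ▸ hr
    · intro hx
      obtain ⟨q, hq⟩ := ra1_Hs_zero (k := k)
      exact ⟨by omega, q, hq, x, hx, ra1_pmul_zero _ q x⟩
  rw [hcov, tcl_sum _ _ hst hd, Finset.sum_range_succ', add_comm, h0]
  congr 1
  apply Finset.sum_congr rfl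
  intro g hg
  have hg' := Finset.mem_range.mp hg
  have h : (g + 1) + (m - (g + 1)) = m := by omega
  symm
  refine tcl_congr ((Ms_st (m - (g + 1)) a).prod _ (Hs_st (g + 1)).toSt) (hst (g + 1) (by
      rw [Finset.mem_range]; omega))
    (fun p : ℙ k (SM k (m - (g + 1))) × ℙ k (Form k (g + 1)) => pmul h p.2 p.1) (by fun_prop)
    ⟨?_, ?_, ?_⟩ ?_
  · rintro ⟨r, q⟩ ⟨hr, hq⟩
    exact ⟨h, q, hq, r, hr, rfl⟩
  · rintro ⟨r, q⟩ ⟨hr, hq⟩ ⟨r', q'⟩ ⟨hr', hq'⟩ heq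
    have h2' : pmul h q r = pmul h q' r' := heq
    obtain ⟨h3, h4⟩ := gcd_inj h hr.1 hr'.1 h2'
    have h4' : r = r' := h4
    rw [h3, h4']
  · rintro x ⟨_, q, hq, r, hr, hqr⟩
    exact ⟨(r, q), ⟨hr, hq⟩, hqr⟩
  · rintro c ⟨r, q⟩ _
    exact (ra1_t h a c q r).symm

end Pool.Agent.MRat
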