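import Pool.Agent.Lib.MP_923aff_ag.RDefs
/-!
# JOB RA2: the spaces `Hs`, `PPs`, `MMs` are vector bundles over `G_(j)`

`Hs g` (`g ≥ 1`): the coordinate `g_0 / g_g ∈ kˣ` has weight `± g`; the other coordinates `g_i / g_g` form
pairs `(i, g - i)` (and a single one if `g` is even), with `c = (g_0/g_g)⁻¹`.
`PPs m`: `q_0 / p_m ∈ kˣ` has weight `± (m - a)`; pairs `(p_i / p_m, q_(m-i) / p_m)`, `i < m`.
With the pull back along `t ↦ t^l` all weights are multiplied by `l`.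
-/

set_option autoImplicit false
set_option linter.unusedSectionVars false

namespace Pool.Agent.MRat

open scoped MatrixGroups LinearAlgebra.Projectivization

variable {k : Type} [Field k] [IsAlgClosed k] [CharZero k]
variable {X Y Z : Type} [DT k X] [DT k Y] [DT k Z]

section general

omit [IsAlgClosed k] [CharZero k] in
theorem ra2_ne {V : Type} [AddCommGroup V] [Module k V] {lam : V →ₗ[k] k} {v : V}
    (h : lam v = 1) : v ≠ 0 := by
  rintro rfl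
  rw [map_zero] at h
  exact zero_ne_one h

omit [IsAlgClosed k] [CharZero k] in
/-- The chart lemma: normalisation of one coordinate. -/
theorem ra2_bij0 {V : Type} [AddCommGroup V] [Module k V] {Z : Type}
    (lam : V →ₗ[k] k) (C : V → Prop) (hC : ∀ (a : k) (v : V), a ≠ 0 → C v → C (a • v))
    (Φ : Z → V) (h1 : ∀ z, lam (Φ z) = 1) (h2 : ∀ z, C (Φ z)) (inj : Function.Injective Φ)
    (sur : ∀ v, lam v = 1 → C v → ∃ z, Φ z = v) :
    Set.BijOn (fun z : Z => Projectivization.mk k (Φ z) (ra2_ne (h1 z))) (Set.univ : Set Z)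
      {p : ℙ k V | lam p.rep ≠ 0 ∧ C p.rep} := by
  have hrep : ∀ (v : V) (hv : v ≠ 0), ∃ a : kˣ, (Projectivization.mk k v hv).rep = a • v := by
    intro v hv
    obtain ⟨a, ha⟩ := Projectivization.exists_smul_eq_mk_rep k v hv
    exact ⟨a, ha.symm⟩
  refine ⟨?_, ?_, ?_⟩
  · rintro z -
    obtain ⟨a, ha⟩ := hrep (Φ z) (ra2_ne (h1 z))
    show lam (Projectivization.mk k (Φ z) _).rep ≠ 0 ∧ C (Projectivization.mk k (Φ z) _).rep
    rw [ha, Units.smul_def, map_smul, h1, smul_eq_mul, mul_one]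
    exact ⟨a.ne_zero, hC _ _ a.ne_zero (h2 z)⟩
  · rintro z - z' - h4
    simp only at h4
    rw [Projectivization.mk_eq_mk_iff] at h4
    obtain ⟨a, ha⟩ := h4
    have h5 := congrArg lam ha
    rw [Units.smul_def, map_smul, h1, h1, smul_eq_mul, mul_one] at h5
    have h6 : a = 1 := Units.ext h5
    rw [h6, one_smul] at ha
    exact inj ha.symm
  · rintro p ⟨hp1, hp2⟩
    have h3 : lam ((lam p.rep)⁻¹ • p.rep) = 1 := by
      rw [map_smul, smul_eq_mul, inv_mul_cancel₀ hp1]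
    obtain ⟨z, hz⟩ := sur _ h3 (hC _ _ (inv_ne_zero hp1) hp2)
    refine ⟨z, Set.mem_univ _, ?_⟩
    show Projectivization.mk k (Φ z) _ = p
    conv_rhs => rw [← Projectivization.mk_rep p]
    rw [Projectivization.mk_eq_mk_iff]
    refine ⟨Units.mk0 (lam p.rep)⁻¹ (inv_ne_zero hp1), ?_⟩
    rw [hz, Units.smul_def, Units.val_mk0]

theorem ra2_bijprod {Y Z Z' P : Type} {F : Z × Z' → P} {S : Set P} (s : Set Y)
    (h : Set.BijOn F Set.univ S) :
    Set.BijOn (fun p : (Y × Z) × Z' => (p.1.1, F (p.1.2, p.2)))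
      ((s ×ˢ (Set.univ : Set Z)) ×ˢ (Set.univ : Set Z')) (s ×ˢ S) := by
  refine ⟨?_, ?_, ?_⟩
  · rintro ⟨⟨y, z⟩, z'⟩ ⟨⟨hy, -⟩, -⟩
    exact ⟨hy, h.mapsTo (Set.mem_univ _)⟩
  · rintro ⟨⟨y, z⟩, z'⟩ - ⟨⟨y1, z1⟩, z1'⟩ - e
    simp only [Prod.mk.injEq] at e
    have := h.injOn (Set.mem_univ _) (Set.mem_univ _) e.2
    simp only [Prod.mk.injEq] at this
    rw [e.1, this.1, this.2]
  · rintro ⟨y, p⟩ ⟨hy, hp⟩
    obtain ⟨⟨z, z'⟩, -, hz⟩ := h.surjOn hp
    exact ⟨((y, z), z'), ⟨⟨hy, Set.mem_univ _⟩, Set.mem_univ _⟩, Prod.ext rfl hz⟩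

end general

section matrices

omit [IsAlgClosed k] [CharZero k] in
theorem ra2_dg_smul (a b : kˣ) (v : Fin 2 → k) : dg a b • v = ![(a : k) * v 0, (b : k) * v 1] := by
  show (!![(a : k), 0; 0, (b : k)]).mulVec v = _
  funext i
  fin_cases i <;> simp [Matrix.mulVec, dotProduct, Fin.sum_univ_two]

omit [IsAlgClosed k] [CharZero k] in
theorem ra2_sw_smul (v : Fin 2 → k) : sw k • v = ![v 1, v 0] := by
  show (!![(0 : k), 1; 1, 0]).mulVec v = _
  funext i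
  fin_cases i <;> simp [Matrix.mulVec, dotProduct, Fin.sum_univ_two]

omit [IsAlgClosed k] [CharZero k] in
theorem ra2_dg_inv_smul (a b : kˣ) (v : Fin 2 → k) :
    (dg a b)⁻¹ • v = ![(a : k)⁻¹ * v 0, (b : k)⁻¹ * v 1] := by
  rw [inv_smul_eq_iff, ra2_dg_smul]
  funext i
  fin_cases i <;> simp

omit [IsAlgClosed k] [CharZero k] in
theorem ra2_sw_inv_smul (v : Fin 2 → k) : (sw k)⁻¹ • v = ![v 1, v 0] := by
  rw [inv_smul_eq_iff, ra2_sw_smul]
  funext i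
  fin_cases i <;> simp

theorem ra2_of_e0 {n : ℕ} (c : Fin (n + 1) → k) : (Form.of c).1 (e0 k) = c (Fin.last n) := by
  rw [Form.of_apply, Finset.sum_eq_single (Fin.last n)]
  · simp [e0]
  · intro i _ hi
    have h1 : n - (i : ℕ) ≠ 0 := by
      have h2 : (i : ℕ) ≠ n := fun h => hi (Fin.ext h)
      have := i.2
      omega
    simp [e0, h1]
  · simp

theorem ra2_of_e1 {n : ℕ} (c : Fin (n + 1) → k) : (Form.of c).1 (e1 k) = c 0 := by
  rw [Form.of_apply, Finset.sum_eq_single 0]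
  · simp [e1]
  · intro i _ hi
    have h1 : (i : ℕ) ≠ 0 := fun h => hi (Fin.ext h)
    simp [e1, h1]
  · simp

theorem ra2_of_coeffE {n : ℕ} (F : Form k n) : Form.of (coeffE k n F) = F :=
  (coeffE k n).symm_apply_apply F

theorem ra2_of_inj {n : ℕ} {c d : Fin (n + 1) → k} (h : Form.of c = Form.of d) : c = d :=
  (coeffE k n).symm.injective h

theorem ra2_form_t {g : ℕ} (τ : kˣ) (d d' : Fin (g + 1) → k)
    (h : ∀ i : Fin (g + 1), d' i = ((τ ^ (g - (i : ℕ)) : kˣ) : k) * d i) :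
    (τ ^ g : kˣ) • (dg τ 1 • Form.of d) = Form.of d' := by
  apply Subtype.ext
  funext v
  show ((τ ^ g : kˣ) : k) * (Form.of d).1 ((dg τ 1)⁻¹ • v) = (Form.of d').1 v
  rw [Form.of_apply, Form.of_apply, ra2_dg_inv_smul, Finset.mul_sum]
  refine Finset.sum_congr rfl fun i _ => ?_
  rw [h i]
  simp only [Matrix.cons_val_zero, Matrix.cons_val_one, Units.val_one, inv_one, one_mul]
  have hi : (i : ℕ) ≤ g := Nat.lt_succ_iff.1 i.2
  obtain ⟨r, hr⟩ := Nat.exists_eq_add_of_le hi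
  have e : g - (i : ℕ) = r := by omega
  have hp : (τ ^ g : kˣ) = τ ^ (i : ℕ) * τ ^ r := by
    rw [← pow_add]
    exact congrArg (fun n : ℕ => τ ^ n) hr
  rw [e, hp, mul_pow]
  push_cast
  have : ((τ : k) ^ (i : ℕ)) * ((τ : k)⁻¹ ^ (i : ℕ)) = 1 := by
    rw [← mul_pow, mul_inv_cancel₀ τ.ne_zero, one_pow]
  calc (τ : k) ^ (i : ℕ) * (τ : k) ^ r * (d i * ((τ : k)⁻¹ ^ (i : ℕ) * v 0 ^ (i : ℕ)) * v 1 ^ r)
      = ((τ : k) ^ (i : ℕ) * ((τ : k)⁻¹ ^ (i : ℕ))) * ((τ : k) ^ r * d i * v 0 ^ (i : ℕ) *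
        v 1 ^ r) := by ring
    _ = _ := by rw [this, one_mul]

theorem ra2_form_w {g : ℕ} (u : kˣ) (d d' : Fin (g + 1) → k)
    (h : ∀ i : Fin (g + 1), d' i = (u : k) * d (Fin.rev i)) :
    u • (sw k • Form.of d) = Form.of d' := by
  apply Subtype.ext
  funext v
  show (u : k) * (Form.of d).1 ((sw k)⁻¹ • v) = (Form.of d').1 v
  rw [Form.of_apply, Form.of_apply, ra2_sw_inv_smul, Finset.mul_sum]
  rw [← Equiv.sum_comp Fin.revPerm]
  refine Finset.sum_congr rfl fun i _ => ?_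
  rw [h i]
  simp only [Fin.revPerm_apply, Matrix.cons_val_zero, Matrix.cons_val_one, Fin.val_rev]
  have hi : (i : ℕ) ≤ g := Nat.lt_succ_iff.1 i.2
  have e1 : g + 1 - ((i : ℕ) + 1) = g - i := by omega
  have e2 : g - (g - (i : ℕ)) = i := by omega
  rw [e1, e2]
  ring

theorem ra2_sm_t {m : ℕ} (τ : kˣ) (a : ℤ) (P Q P' Q' : Fin (m + 1) → k)
    (hP : ∀ i : Fin (m + 1), P' i = ((τ ^ ((m : ℤ) - (i : ℕ)) : kˣ) : k) * P i)
    (hQ : ∀ i : Fin (m + 1), Q' i = ((τ ^ ((m : ℤ) - (i : ℕ) - a) : kˣ) : k) * Q i) :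
    (τ ^ ((m : ℤ) - a) : kˣ) • SM.two (dg (τ ^ a) 1) (dg τ 1) (SM.pair (Form.of P) (Form.of Q)) =
      SM.pair (Form.of P') (Form.of Q') := by
  have key : ∀ i : ℕ, ((τ ^ ((m : ℤ) - a) : kˣ) : k) * ((τ : k)⁻¹ ^ i) =
      ((τ ^ ((m : ℤ) - i - a) : kˣ) : k) := by
    intro i
    have : (τ ^ ((m : ℤ) - i - a) : kˣ) = τ ^ ((m : ℤ) - a) * (τ⁻¹) ^ i := by
      rw [inv_pow, ← zpow_natCast, ← zpow_neg, ← zpow_add]
      congr 1
      ring
    rw [this]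
    push_cast
    rfl
  apply Subtype.ext
  funext v j
  have hL : ((τ ^ ((m : ℤ) - a) : kˣ) • SM.two (dg (τ ^ a) 1) (dg τ 1)
      (SM.pair (Form.of P) (Form.of Q))).1 v =
      ((τ ^ ((m : ℤ) - a) : kˣ) : k) • (dg (τ ^ a) 1 •
        ![(Form.of P).1 ((dg τ 1)⁻¹ • v), (Form.of Q).1 ((dg τ 1)⁻¹ • v)]) := rfl
  have hR : (SM.pair (Form.of P') (Form.of Q')).1 v = ![(Form.of P').1 v, (Form.of Q').1 v] := rfl
  rw [hL, hR, ra2_dg_smul, ra2_dg_inv_smul]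
  fin_cases j
  · simp only [Fin.zero_eta, Pi.smul_apply, Matrix.cons_val_zero, smul_eq_mul, Units.val_one,
      inv_one, one_mul]
    rw [Form.of_apply, Form.of_apply, Finset.mul_sum, Finset.mul_sum]
    refine Finset.sum_congr rfl fun i _ => ?_
    rw [hP i]
    simp only [Matrix.cons_val_zero, Matrix.cons_val_one]
    have e : ((τ ^ ((m : ℤ) - (i : ℕ)) : kˣ) : k) =
        ((τ ^ ((m : ℤ) - a) : kˣ) : k) * ((τ : k)⁻¹ ^ (i : ℕ)) * ((τ ^ a : kˣ) : k) := by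
      rw [key, ← Units.val_mul, ← zpow_add]
      congr 2
      ring
    rw [e, mul_pow]
    ring
  · simp only [Fin.mk_one, Pi.smul_apply, Matrix.cons_val_one, Matrix.cons_val_zero, smul_eq_mul,
      Units.val_one, inv_one, one_mul]
    rw [Form.of_apply, Form.of_apply, Finset.mul_sum]
    refine Finset.sum_congr rfl fun i _ => ?_
    rw [hQ i, ← key]
    simp only [Matrix.cons_val_zero, Matrix.cons_val_one]
    rw [mul_pow]
    ring

theorem ra2_sm_w {m : ℕ} (u : kˣ) (P Q P' Q' : Fin (m + 1) → k)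
    (hP : ∀ i : Fin (m + 1), P' i = (u : k) * Q (Fin.rev i))
    (hQ : ∀ i : Fin (m + 1), Q' i = (u : k) * P (Fin.rev i)) :
    u • SM.two (sw k) (sw k) (SM.pair (Form.of P) (Form.of Q)) =
      SM.pair (Form.of P') (Form.of Q') := by
  have key : ∀ (d d' : Fin (m + 1) → k) (v : Fin 2 → k)
      (_ : ∀ i : Fin (m + 1), d' i = (u : k) * d (Fin.rev i)),
      (u : k) * (Form.of d).1 ((sw k)⁻¹ • v) = (Form.of d').1 v := by
    intro d d' v h
    have := congrArg (fun F : Form k m => F.1 v) (ra2_form_w u d d' h)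
    exact this
  apply Subtype.ext
  funext v j
  have hL : (u • SM.two (sw k) (sw k) (SM.pair (Form.of P) (Form.of Q))).1 v =
      (u : k) • (sw k • ![(Form.of P).1 ((sw k)⁻¹ • v), (Form.of Q).1 ((sw k)⁻¹ • v)]) := rfl
  have hR : (SM.pair (Form.of P') (Form.of Q')).1 v = ![(Form.of P').1 v, (Form.of Q').1 v] := rfl
  rw [hL, hR, ra2_sw_smul]
  fin_cases j
  · simp only [Fin.zero_eta, Pi.smul_apply, Matrix.cons_val_zero, Matrix.cons_val_one, smul_eq_mul]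
    exact key Q P' v hP
  · simp only [Fin.mk_one, Pi.smul_apply, Matrix.cons_val_one, Matrix.cons_val_zero, smul_eq_mul]
    exact key P Q' v hQ

end matrices

section H

/-- block data for `Hs g` -/
noncomputable def ra2BH (k : Type) [Field k] (g l : ℕ) : Blk k where
  p := (g - 1) / 2
  q := g - 1 - 2 * ((g - 1) / 2)
  e := (l : ℤ) * g
  a i := l * ((g : ℤ) - ((i : ℕ) + 1))
  b i := l * (((i : ℕ) : ℤ) + 1)
  hab i := by ring
  h _ := l * ((g / 2 : ℕ) : ℤ)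
  hh j := by
    have hj := j.2
    have h1 : (2 : ℤ) * ((g / 2 : ℕ) : ℤ) = g := by
      have : 2 * (g / 2) = g := by omega
      exact_mod_cast this
    calc (2 : ℤ) * (l * ((g / 2 : ℕ) : ℤ)) = l * (2 * ((g / 2 : ℕ) : ℤ)) := by ring
      _ = _ := by rw [h1]
  ε _ := 1
  hε _ := one_mul 1

theorem ra2BH_dim (g l : ℕ) : (ra2BH k g l).dim = g - 1 := by
  show 2 * ((g - 1) / 2) + (g - 1 - 2 * ((g - 1) / 2)) = g - 1
  omega

/-- the coefficients of the normalised form -/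
def ra2cH (g l : ℕ) (x : kˣ) (w : (ra2BH k g l).W) (i : Fin (g + 1)) : k :=
  if (i : ℕ) = 0 then (x : k) else if (i : ℕ) = g then 1 else
  if h : (i : ℕ) - 1 < (g - 1) / 2 then (w.1 ⟨(i : ℕ) - 1, h⟩).1 else
  if h : g - (i : ℕ) - 1 < (g - 1) / 2 then (w.1 ⟨g - (i : ℕ) - 1, h⟩).2 else
  if h : 0 < g - 1 - 2 * ((g - 1) / 2) then w.2 ⟨0, h⟩ else 0

theorem ra2cH_t (g l : ℕ) (hg : 1 ≤ g) (c x : kˣ) (w : (ra2BH k g l).W) (i : Fin (g + 1)) :
    ra2cH g l (c ^ ((l : ℤ) * g) * x) ((ra2BH k g l).tv c w) i =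
      (((c ^ l) ^ (g - (i : ℕ)) : kˣ) : k) * ra2cH g l x w i := by
  have hi : (i : ℕ) ≤ g := Nat.lt_succ_iff.1 i.2
  have hz : ∀ n : ℤ, n = (l : ℤ) * ((g : ℤ) - (i : ℕ)) → (c ^ n : kˣ) = (c ^ l) ^ (g - (i : ℕ)) := by
    intro n hn
    rw [hn, ← pow_mul, ← zpow_natCast]
    congr 1
    push_cast [Nat.cast_sub hi]
    ring
  unfold ra2cH
  split_ifs with h1 h2 h3 h4 h5
  · rw [Units.val_mul, hz _ (by rw [h1]; simp)]
  · simp [h2]
  · show ((c ^ ((ra2BH k g l).a ⟨(i : ℕ) - 1, h3⟩) : kˣ) : k) * (w.1 ⟨(i : ℕ) - 1, h3⟩).1 = _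
    rw [hz]
    show (l : ℤ) * ((g : ℤ) - ((((i : ℕ) - 1 : ℕ) : ℤ) + 1)) = _
    have : (((i : ℕ) - 1 : ℕ) : ℤ) + 1 = (i : ℕ) := by omega
    rw [this]
  · show ((c ^ ((ra2BH k g l).b ⟨g - (i : ℕ) - 1, h4⟩) : kˣ) : k) *
      (w.1 ⟨g - (i : ℕ) - 1, h4⟩).2 = _
    rw [hz]
    show (l : ℤ) * (((g - (i : ℕ) - 1 : ℕ) : ℤ) + 1) = _
    have : ((g - (i : ℕ) - 1 : ℕ) : ℤ) + 1 = (g : ℤ) - (i : ℕ) := by omega
    rw [this]
  · show ((c ^ ((ra2BH k g l).h ⟨0, h5⟩) : kˣ) : k) * w.2 ⟨0, h5⟩ = _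
    rw [hz]
    show (l : ℤ) * ((g / 2 : ℕ) : ℤ) = _
    have : ((g / 2 : ℕ) : ℤ) = (g : ℤ) - (i : ℕ) := by omega
    rw [this]
  · simp

theorem ra2cH_w (g l : ℕ) (hg : 1 ≤ g) (x : kˣ) (w : (ra2BH k g l).W) (i : Fin (g + 1)) :
    ra2cH g l x⁻¹ (((x⁻¹ : kˣ) : k) • (ra2BH k g l).wv w) i =
      ((x⁻¹ : kˣ) : k) * ra2cH g l x w (Fin.rev i) := by
  have hi : (i : ℕ) ≤ g := Nat.lt_succ_iff.1 i.2
  have hr : ((Fin.rev i : Fin (g + 1)) : ℕ) = g - (i : ℕ) := by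
    rw [Fin.val_rev]; omega
  unfold ra2cH
  simp only [hr]
  by_cases h1 : (i : ℕ) = 0
  · simp only [h1, if_true]
    rw [if_neg (by omega), if_pos (by omega), mul_one]
  by_cases h2 : (i : ℕ) = g
  · rw [if_neg h1, if_pos h2, if_pos (by omega), ← Units.val_mul]
    simp
  rw [if_neg h1, if_neg h2, if_neg (by omega), if_neg (by omega)]
  by_cases h3 : (i : ℕ) - 1 < (g - 1) / 2
  · rw [dif_pos h3, dif_neg (by omega), dif_pos (by omega)]
    show ((x⁻¹ : kˣ) : k) * (w.1 ⟨(i : ℕ) - 1, h3⟩).2 = _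
    congr 3
    apply congrArg
    apply Fin.ext
    show (i : ℕ) - 1 = g - (g - (i : ℕ)) - 1
    omega
  by_cases h4 : g - (i : ℕ) - 1 < (g - 1) / 2
  · rw [dif_neg h3, dif_pos h4, dif_pos (by omega)]
    show ((x⁻¹ : kˣ) : k) * (w.1 ⟨g - (i : ℕ) - 1, h4⟩).1 = _
    rfl
  by_cases h5 : 0 < g - 1 - 2 * ((g - 1) / 2)
  · rw [dif_neg h3, dif_neg h4, dif_pos h5, dif_neg (by omega), dif_neg (by omega), dif_pos h5]
    show ((x⁻¹ : kˣ) : k) * (((1 : kˣ) : k) * w.2 ⟨0, h5⟩) = _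
    rw [Units.val_one, one_mul]
  · exfalso; omega

theorem ra2cH_inj (g l : ℕ) (hg : 1 ≤ g) :
    Function.Injective (fun z : kˣ × (ra2BH k g l).W => ra2cH g l z.1 z.2) := by
  rintro ⟨x, w⟩ ⟨x', w'⟩ h
  simp only at h
  have h0 := congrFun h 0
  have hx : x = x' := by
    unfold ra2cH at h0
    simp only [Fin.val_zero, if_true] at h0
    exact Units.ext h0
  refine Prod.ext hx (Prod.ext ?_ ?_)
  · funext i
    have hi : (i : ℕ) < (g - 1) / 2 := i.2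
    refine Prod.ext ?_ ?_
    · have h1 := congrFun h ⟨(i : ℕ) + 1, by omega⟩
      unfold ra2cH at h1
      simp only at h1
      rw [if_neg (by omega), if_neg (by omega), dif_pos (by omega), if_neg (by omega),
        if_neg (by omega), dif_pos (by omega)] at h1
      exact h1
    · have h1 := congrFun h ⟨g - ((i : ℕ) + 1), by omega⟩
      unfold ra2cH at h1
      simp only at h1
      rw [if_neg (by omega), if_neg (by omega), dif_neg (by omega), dif_pos (by omega),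
        if_neg (by omega), if_neg (by omega), dif_neg (by omega), dif_pos (by omega)] at h1
      have e : (⟨g - (g - ((i : ℕ) + 1)) - 1, by show _ < (g - 1) / 2; omega⟩ :
          Fin (ra2BH k g l).p) = i := Fin.ext (by show g - (g - ((i : ℕ) + 1)) - 1 = i; omega)
      rw [e] at h1
      exact h1
  · funext i
    have hi : (i : ℕ) < g - 1 - 2 * ((g - 1) / 2) := i.2
    have h1 := congrFun h ⟨g / 2, by omega⟩
    unfold ra2cH at h1
    simp only at h1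
    rw [if_neg (by omega), if_neg (by omega), dif_neg (by omega), dif_neg (by omega),
      dif_pos (by omega), if_neg (by omega), if_neg (by omega), dif_neg (by omega),
      dif_neg (by omega), dif_pos (by omega)] at h1
    have e : (⟨0, by show 0 < g - 1 - 2 * ((g - 1) / 2); omega⟩ :
        Fin (ra2BH k g l).q) = i := Fin.ext (by show 0 = (i : ℕ); omega)
    rw [e] at h1
    exact h1

theorem ra2cH_sur (g l : ℕ) (hg : 1 ≤ g) (d : Fin (g + 1) → k) (h0 : d 0 ≠ 0)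
    (h1 : d (Fin.last g) = 1) : ∃ z : kˣ × (ra2BH k g l).W, ra2cH g l z.1 z.2 = d := by
  refine ⟨(Units.mk0 (d 0) h0, (fun i => (d ⟨(i : ℕ) + 1, by
      have : (i : ℕ) < (g - 1) / 2 := i.2
      omega⟩, d ⟨g - ((i : ℕ) + 1), by omega⟩), fun i => d ⟨g / 2, by omega⟩)), ?_⟩
  funext i
  have hi : (i : ℕ) ≤ g := Nat.lt_succ_iff.1 i.2
  unfold ra2cH
  simp only [Units.val_mk0]
  split_ifs with h2 h3 h4 h5 h6
  · congr 1; exact Fin.ext h2.symm
  · rw [← h1]; congr 1; exact Fin.ext h3.symm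
  · congr 1; exact Fin.ext (by show (i : ℕ) - 1 + 1 = i; omega)
  · congr 1; exact Fin.ext (by show g - (g - (i : ℕ) - 1 + 1) = i; omega)
  · congr 1; exact Fin.ext (by show g / 2 = i; omega)
  · exfalso; omega

theorem ra2cH_dm (g l : ℕ) {f : X → kˣ} {w : X → (ra2BH k g l).W} (hf : DM k f) (hw : DM k w) :
    DM k (fun x => ra2cH g l (f x) (w x)) := by
  refine DM.pi (fun i => ?_)
  unfold ra2cH
  split_ifs <;> fun_prop

/-- evaluation of a form -/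
def ra2ev (k : Type) [Field k] (g : ℕ) (v : Fin 2 → k) : Form k g →ₗ[k] k :=
  (LinearMap.proj v).comp (Form k g).subtype

theorem ra2cH_last (g l : ℕ) (hg : 1 ≤ g) (z : kˣ × (ra2BH k g l).W) :
    ra2ev k g (e0 k) (Form.of (ra2cH g l z.1 z.2)) = 1 := by
  show (Form.of (ra2cH g l z.1 z.2)).1 (e0 k) = 1
  rw [ra2_of_e0]
  unfold ra2cH
  have h1 : ((Fin.last g : Fin (g + 1)) : ℕ) = g := Fin.val_last g
  rw [if_neg (by omega), if_pos h1]

theorem ra2cH_zero (g l : ℕ) (z : kˣ × (ra2BH k g l).W) :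
    (Form.of (ra2cH g l z.1 z.2)).1 (e1 k) ≠ 0 := by
  rw [ra2_of_e1]
  unfold ra2cH
  simp

theorem ra2_H_bij (g l : ℕ) (hg : 1 ≤ g) :
    Set.BijOn (fun z : kˣ × (ra2BH k g l).W => Projectivization.mk k
      (Form.of (ra2cH g l z.1 z.2)) (ra2_ne (ra2cH_last g l hg z))) Set.univ (Hs k g) := by
  refine ra2_bij0 (ra2ev k g (e0 k)) (fun F => F.1 (e1 k) ≠ 0) ?_ _ (ra2cH_last g l hg)
    (ra2cH_zero g l) ?_ ?_
  · intro a F ha h
    exact mul_ne_zero ha h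
  · intro z z' h
    exact ra2cH_inj g l hg (ra2_of_inj h)
  · intro F h1 h2
    have e : Form.of (coeffE k g F) = F := ra2_of_coeffE F
    have e0' := ra2_of_e0 (coeffE k g F)
    have e1' := ra2_of_e1 (coeffE k g F)
    rw [e] at e0' e1'
    obtain ⟨z, hz⟩ := ra2cH_sur g l hg (coeffE k g F) (by
      rw [← e1']; exact h2) (by
      rw [← e0']; exact h1)
    exact ⟨z, by rw [hz, e]⟩

theorem ra2_H {A : NA k Y} {s : Set Y} (hst : A.St s) (g l : ℕ) (hg : 1 ≤ g)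
    (h : NGood 1 (A.prod (Gm k ((l : ℤ) * g))) (s ×ˢ (Set.univ : Set kˣ))) :
    NGood 1 (A.prod ((FA k g).pull l)) (s ×ˢ Hs k g) ∧
    ncl (A.prod ((FA k g).pull l)) (s ×ˢ Hs k g) =
      (L ^ (g - 1)) • ncl (A.prod (Gm k ((l : ℤ) * g))) (s ×ˢ (Set.univ : Set kˣ)) ∧
    tcl (A.prod ((FA k g).pull l)).toTA (s ×ˢ Hs k g) =
      (L ^ (g - 1)) • tcl (A.prod (Gm k ((l : ℤ) * g))).toTA (s ×ˢ (Set.univ : Set kˣ)) := by
  have dc : DM k (fun p : Y × kˣ => p.2⁻¹) := by fun_prop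
  have cw : ∀ y : Y × kˣ, (fun p : Y × kˣ => p.2⁻¹) ((A.prod (Gm k ((l : ℤ) * g))).w y) *
      (fun p : Y × kˣ => p.2⁻¹) y = 1 := by
    rintro ⟨y, x⟩
    show (x⁻¹)⁻¹ * x⁻¹ = 1
    simp
  have ct : ∀ (τ : kˣ) (y : Y × kˣ), (fun p : Y × kˣ => p.2⁻¹)
      ((A.prod (Gm k ((l : ℤ) * g))).t τ y) =
      τ ^ (-(ra2BH k g l).e) * (fun p : Y × kˣ => p.2⁻¹) y := by
    rintro τ ⟨y, x⟩
    show (τ ^ ((l : ℤ) * g) * x)⁻¹ = τ ^ (-((l : ℤ) * g)) * x⁻¹
    rw [mul_inv, zpow_neg]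
  obtain ⟨g1, g2, g3⟩ := h.bun (ra2BH k g l) (fun i => by simp) _ dc cw ct
  rw [ra2BH_dim] at g2 g3
  have hst' : (A.prod ((FA k g).pull l)).St (s ×ˢ Hs k g) := hst.prod _ ((Hs_st g).pull l)
  have bij := ra2_bijprod s (ra2_H_bij (k := k) g l hg)
  set f : (Y × kˣ) × (ra2BH k g l).W → Y × ℙ k (Form k g) := fun p => (p.1.1,
    Projectivization.mk k (Form.of (ra2cH g l p.1.2 p.2)) (ra2_ne (ra2cH_last g l hg (p.1.2, p.2))))
    with hf
  have df : DM k f := by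
    refine DM.mk (by fun_prop) (DM.pmk (DM.form_of (ra2cH_dm g l (by fun_prop) (by fun_prop))) _)
  have ft : ∀ (c : kˣ) (y : (Y × kˣ) × (ra2BH k g l).W),
      f (((A.prod (Gm k ((l : ℤ) * g))).bun (ra2BH k g l) _ dc cw ct).t c y) =
        (A.prod ((FA k g).pull l)).t c (f y) := by
    rintro c ⟨⟨y, x⟩, w⟩
    refine Prod.ext rfl ?_
    show Projectivization.mk k (Form.of (ra2cH g l (c ^ ((l : ℤ) * g) * x)
      ((ra2BH k g l).tv c w))) _ = (Matrix.ProjGenLinGroup.mk (dg (c ^ l) 1) : PGL(2, k)) •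
        Projectivization.mk k (Form.of (ra2cH g l x w)) _
    rw [form_pgl_mk]
    exact (Projectivization.mk_eq_mk_iff k _ _ _ _).2
      ⟨(c ^ l) ^ g, ra2_form_t (c ^ l) _ _ (ra2cH_t g l hg c x w)⟩
  have fw : ∀ (y : (Y × kˣ) × (ra2BH k g l).W),
      f (((A.prod (Gm k ((l : ℤ) * g))).bun (ra2BH k g l) _ dc cw ct).w y) =
        (A.prod ((FA k g).pull l)).w (f y) := by
    rintro ⟨⟨y, x⟩, w⟩
    refine Prod.ext rfl ?_
    show Projectivization.mk k (Form.of (ra2cH g l x⁻¹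
      (((x⁻¹ : kˣ) : k) • (ra2BH k g l).wv w))) _ =
        (Matrix.ProjGenLinGroup.mk (sw k) : PGL(2, k)) •
        Projectivization.mk k (Form.of (ra2cH g l x w)) _
    rw [form_pgl_mk]
    exact (Projectivization.mk_eq_mk_iff k _ _ _ _).2
      ⟨x⁻¹, ra2_form_w x⁻¹ _ _ (ra2cH_w g l hg x w)⟩
  refine ⟨g1.congr hst' f df bij (fun c y _ => ft c y) (fun y _ => fw y), ?_, ?_⟩
  · rw [← g2]
    exact (ncl_congr g1.st hst' f df bij (fun c y _ => ft c y) (fun y _ => fw y)).symm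
  · rw [← g3]
    exact (tcl_congr g1.st.toSt hst'.toSt f df bij (fun c y _ => ft c y)).symm

theorem ra2_triv_good {i : ℤ} (hi : i ≠ 0) :
    NGood 1 ((NA.triv k).prod (Gm k i)) ((Set.univ : Set Unit) ×ˢ (Set.univ : Set kˣ)) ∧
    ncl ((NA.triv k).prod (Gm k i)) ((Set.univ : Set Unit) ×ˢ (Set.univ : Set kˣ)) = pt k ∧
    tcl ((NA.triv k).prod (Gm k i)).toTA ((Set.univ : Set Unit) ×ˢ (Set.univ : Set kˣ)) = pt k := by
  obtain ⟨h1, h2, h3⟩ := good_Gm (k := k) i hi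
  obtain ⟨t1, t2, t3⟩ := triv_prod (k := k) h1.st
  exact ⟨(t3 1).2 h1, by rw [t1, h2], by rw [t2, h3]⟩

theorem H_good {A : NA k Y} {s : Set Y} (h : NGood 1 A s) (g l : ℕ) (hg : 1 ≤ g) (hl : 1 ≤ l) :
    NGood 1 (A.prod ((FA k g).pull l)) (s ×ˢ Hs k g) ∧
    ncl (A.prod ((FA k g).pull l)) (s ×ˢ Hs k g) =
      (L ^ (g - 1)) • ((1 + L) • ncl A s - tcl A.toTA s) ∧
    tcl (A.prod ((FA k g).pull l)).toTA (s ×ˢ Hs k g) =
      ((L - 1) * L ^ (g - 1)) • tcl A.toTA s := by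
  obtain ⟨p1, p2, p3⟩ := h.prod_Gm ((l : ℤ) * g) (by simp)
  obtain ⟨q1, q2, q3⟩ := ra2_H h.st g l hg p1
  refine ⟨q1, ?_, ?_⟩
  · rw [q2, ← p2]; rfl
  · rw [q3, p3, smul_smul, mul_comm]

theorem H_good0 (g l : ℕ) (hg : 1 ≤ g) (hl : 1 ≤ l) :
    NGood 1 ((FA k g).pull l) (Hs k g) ∧
    ncl ((FA k g).pull l) (Hs k g) = (L ^ (g - 1)) • pt k ∧
    tcl ((FA k g).pull l).toTA (Hs k g) = (L ^ (g - 1)) • pt k := by
  have hi : (l : ℤ) * g ≠ 0 := by positivity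
  obtain ⟨p1, p2, p3⟩ := ra2_triv_good (k := k) hi
  obtain ⟨q1, q2, q3⟩ := ra2_H (NA.St.univ (NA.triv k)) g l hg p1
  obtain ⟨t1, t2, t3⟩ := triv_prod (k := k) ((Hs_st (k := k) g).pull l)
  exact ⟨(t3 1).1 q1, by rw [← t1, q2, p2], by rw [← t2, q3, p3]⟩

theorem ra2_form0 (F : Form k 0) (hF : F ≠ 0) (h1 : Form.of (fun _ : Fin (0 + 1) => (1 : k)) ≠ 0) :
    Projectivization.mk k F hF = Projectivization.mk k (Form.of (fun _ => (1 : k))) h1 := by
  have e : Form.of (coeffE k 0 F) = F := ra2_of_coeffE F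
  have hsub : ∀ i : Fin (0 + 1), i = 0 := fun i => Fin.ext (by have := i.2; omega)
  have hne : coeffE k 0 F 0 ≠ 0 := by
    intro h
    apply hF
    apply (coeffE k 0).injective
    rw [map_zero]
    funext i
    rw [hsub i]
    exact h
  refine (Projectivization.mk_eq_mk_iff k _ _ _ _).2 ⟨Units.mk0 _ hne, ?_⟩
  refine Eq.trans ?_ e
  show (coeffE k 0 F 0) • (coeffE k 0).symm (fun _ => (1 : k)) = (coeffE k 0).symm (coeffE k 0 F)
  rw [← map_smul]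
  congr 1
  funext i
  rw [hsub i]
  simp

theorem ra2_form1 : Form.of (fun _ : Fin (0 + 1) => (1 : k)) ≠ 0 := by
  intro h
  have h1 := ra2_of_e0 (n := 0) (fun _ : Fin (0 + 1) => (1 : k))
  rw [h] at h1
  exact zero_ne_one h1

/-- `Hs 0` is a point. -/
theorem H_zero {A : NA k Y} {s : Set Y} (h : A.St s) (l : ℕ) :
    ncl (A.prod ((FA k 0).pull l)) (s ×ˢ Hs k 0) = ncl A s ∧
    tcl (A.prod ((FA k 0).pull l)).toTA (s ×ˢ Hs k 0) = tcl A.toTA s := by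
  have hst' : (A.prod ((FA k 0).pull l)).St (s ×ˢ Hs k 0) := h.prod _ ((Hs_st 0).pull l)
  have bij : Set.BijOn (fun p : Y × ℙ k (Form k 0) => p.1) (s ×ˢ Hs k 0) s := by
    refine ⟨fun p hp => hp.1, ?_, ?_⟩
    · rintro ⟨y, p⟩ - ⟨y', p'⟩ - hyy
      simp only at hyy
      refine Prod.ext hyy ?_
      show p = p'
      induction p using Projectivization.ind with
      | h v hv =>
        induction p' using Projectivization.ind with
        | h v' hv' => rw [ra2_form0 v hv ra2_form1, ra2_form0 v' hv' ra2_form1]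
    · intro y hy
      refine ⟨(y, Projectivization.mk k _ ra2_form1), ⟨hy, ?_⟩, rfl⟩
      refine (mem_Hs ra2_form1).2 ⟨?_, ?_⟩
      · rw [ra2_of_e0]; exact one_ne_zero
      · rw [ra2_of_e1]; exact one_ne_zero
  exact ⟨ncl_congr hst' h _ (by fun_prop) bij (fun _ _ _ => rfl) (fun _ _ => rfl),
    tcl_congr hst'.toSt h.toSt _ (by fun_prop) bij (fun _ _ _ => rfl)⟩

end H

section P

/-- block data for `PPs m` -/
noncomputable def ra2BP (k : Type) [Field k] (m l : ℕ) (a : ℤ) : Blk k where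
  p := m
  q := 0
  e := (l : ℤ) * (m - a)
  a i := l * ((m : ℤ) - (i : ℕ))
  b i := l * (((i : ℕ) : ℤ) - a)
  hab i := by ring
  h j := j.elim0
  hh j := j.elim0
  ε _ := 1
  hε _ := one_mul 1

theorem ra2BP_dim (m l : ℕ) (a : ℤ) : (ra2BP k m l a).dim = 2 * m := rfl

/-- coefficients of `P` -/
def ra2cP (m l : ℕ) (a : ℤ) (w : (ra2BP k m l a).W) (i : Fin (m + 1)) : k :=
  if h : (i : ℕ) < m then (w.1 ⟨(i : ℕ), h⟩).1 else 1

/-- coefficients of `Q` -/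
def ra2cQ (m l : ℕ) (a : ℤ) (x : kˣ) (w : (ra2BP k m l a).W) (i : Fin (m + 1)) : k :=
  if h : (i : ℕ) = 0 then (x : k) else (w.1 ⟨m - (i : ℕ), by
    have := i.2
    show m - (i : ℕ) < m
    omega⟩).2

theorem ra2_zp (c : kˣ) (l : ℕ) (n z : ℤ) (h : n = (l : ℤ) * z) : (c ^ n : kˣ) = (c ^ l) ^ z := by
  rw [h, zpow_mul, zpow_natCast]

theorem ra2cP_t (m l : ℕ) (a : ℤ) (c : kˣ) (w : (ra2BP k m l a).W) (i : Fin (m + 1)) :
    ra2cP m l a ((ra2BP k m l a).tv c w) i =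
      (((c ^ l) ^ ((m : ℤ) - (i : ℕ)) : kˣ) : k) * ra2cP m l a w i := by
  have hi : (i : ℕ) ≤ m := Nat.lt_succ_iff.1 i.2
  unfold ra2cP
  by_cases h : (i : ℕ) < m
  · rw [dif_pos h, dif_pos h]
    show ((c ^ ((ra2BP k m l a).a ⟨(i : ℕ), h⟩) : kˣ) : k) * (w.1 ⟨(i : ℕ), h⟩).1 = _
    rw [ra2_zp c l ((ra2BP k m l a).a ⟨(i : ℕ), h⟩) ((m : ℤ) - (i : ℕ)) rfl]
  · rw [dif_neg h, dif_neg h]
    have : (m : ℤ) - (i : ℕ) = 0 := by omega
    rw [this]
    simp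

theorem ra2cQ_t (m l : ℕ) (a : ℤ) (c x : kˣ) (w : (ra2BP k m l a).W) (i : Fin (m + 1)) :
    ra2cQ m l a (c ^ ((l : ℤ) * (m - a)) * x) ((ra2BP k m l a).tv c w) i =
      (((c ^ l) ^ ((m : ℤ) - (i : ℕ) - a) : kˣ) : k) * ra2cQ m l a x w i := by
  have hi : (i : ℕ) ≤ m := Nat.lt_succ_iff.1 i.2
  unfold ra2cQ
  by_cases h : (i : ℕ) = 0
  · rw [dif_pos h, dif_pos h, Units.val_mul]
    rw [ra2_zp c l ((l : ℤ) * (m - a)) ((m : ℤ) - (i : ℕ) - a) (by rw [h]; push_cast; ring)]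
  · rw [dif_neg h, dif_neg h]
    have hlt : m - (i : ℕ) < m := by omega
    show ((c ^ ((ra2BP k m l a).b ⟨m - (i : ℕ), hlt⟩) : kˣ) : k) * (w.1 ⟨m - (i : ℕ), hlt⟩).2 = _
    rw [ra2_zp c l ((ra2BP k m l a).b ⟨m - (i : ℕ), hlt⟩) ((m : ℤ) - (i : ℕ) - a) (by
      show (l : ℤ) * (((m - (i : ℕ) : ℕ) : ℤ) - a) = _
      push_cast [Nat.cast_sub hi]
      ring)]

theorem ra2cP_w (m l : ℕ) (a : ℤ) (x : kˣ) (w : (ra2BP k m l a).W) (i : Fin (m + 1)) :
    ra2cP m l a (((x⁻¹ : kˣ) : k) • (ra2BP k m l a).wv w) i =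
      ((x⁻¹ : kˣ) : k) * ra2cQ m l a x w (Fin.rev i) := by
  have hi : (i : ℕ) ≤ m := Nat.lt_succ_iff.1 i.2
  have hr : ((Fin.rev i : Fin (m + 1)) : ℕ) = m - (i : ℕ) := by
    rw [Fin.val_rev]; omega
  unfold ra2cP ra2cQ
  by_cases h : (i : ℕ) < m
  · rw [dif_pos h, dif_neg (by omega)]
    show ((x⁻¹ : kˣ) : k) * (w.1 ⟨(i : ℕ), h⟩).2 = _
    congr 3
    apply congrArg
    apply Fin.ext
    show (i : ℕ) = m - ((Fin.rev i : Fin (m + 1)) : ℕ)
    omega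
  · rw [dif_neg h, dif_pos (by omega), ← Units.val_mul]
    simp

theorem ra2cQ_w (m l : ℕ) (a : ℤ) (x : kˣ) (w : (ra2BP k m l a).W) (i : Fin (m + 1)) :
    ra2cQ m l a x⁻¹ (((x⁻¹ : kˣ) : k) • (ra2BP k m l a).wv w) i =
      ((x⁻¹ : kˣ) : k) * ra2cP m l a w (Fin.rev i) := by
  have hi : (i : ℕ) ≤ m := Nat.lt_succ_iff.1 i.2
  have hr : ((Fin.rev i : Fin (m + 1)) : ℕ) = m - (i : ℕ) := by
    rw [Fin.val_rev]; omega
  unfold ra2cP ra2cQ
  by_cases h : (i : ℕ) = 0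
  · rw [dif_pos h, dif_neg (by omega), mul_one]
  · have hlt : m - (i : ℕ) < m := by omega
    rw [dif_neg h, dif_pos (by omega)]
    show ((x⁻¹ : kˣ) : k) * (w.1 ⟨m - (i : ℕ), hlt⟩).1 = _
    congr 3
    apply congrArg
    apply Fin.ext
    show m - (i : ℕ) = ((Fin.rev i : Fin (m + 1)) : ℕ)
    omega

/-- evaluation of a component of a pair -/
def ra2evS (k : Type) [Field k] (m : ℕ) (v : Fin 2 → k) (j : Fin 2) : SM k m →ₗ[k] k :=
  ((LinearMap.proj j).comp (LinearMap.proj v)).comp (SM k m).subtype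

/-- the normalised pair -/
noncomputable def ra2P (m l : ℕ) (a : ℤ) (z : kˣ × (ra2BP k m l a).W) : SM k m :=
  SM.pair (Form.of (ra2cP m l a z.2)) (Form.of (ra2cQ m l a z.1 z.2))

theorem ra2P_last (m l : ℕ) (a : ℤ) (z : kˣ × (ra2BP k m l a).W) :
    ra2evS k m (e0 k) 0 (ra2P m l a z) = 1 := by
  show (Form.of (ra2cP m l a z.2)).1 (e0 k) = 1
  rw [ra2_of_e0]
  unfold ra2cP
  rw [dif_neg (by simp)]

theorem ra2P_zero (m l : ℕ) (a : ℤ) (z : kˣ × (ra2BP k m l a).W) :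
    (ra2P m l a z).1 (e1 k) 1 ≠ 0 := by
  show (Form.of (ra2cQ m l a z.1 z.2)).1 (e1 k) ≠ 0
  rw [ra2_of_e1]
  unfold ra2cQ
  rw [dif_pos (by simp)]
  exact z.1.ne_zero

theorem ra2_pair_inj {m : ℕ} {P Q P' Q' : Form k m} (h : SM.pair P Q = SM.pair P' Q') :
    P = P' ∧ Q = Q' := by
  have h1 := congrArg (smE k m) h
  have e : ∀ P Q : Form k m, smE k m (SM.pair P Q) = (P, Q) := fun P Q =>
    (smE k m).right_inv (P, Q)
  rw [e, e] at h1
  exact ⟨congrArg Prod.fst h1, congrArg Prod.snd h1⟩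

theorem ra2_P_bij (m l : ℕ) (a : ℤ) :
    Set.BijOn (fun z : kˣ × (ra2BP k m l a).W => Projectivization.mk k
      (ra2P m l a z) (ra2_ne (ra2P_last m l a z))) Set.univ (PPs k m) := by
  refine ra2_bij0 (ra2evS k m (e0 k) 0) (fun F => F.1 (e1 k) 1 ≠ 0) ?_ _ (ra2P_last m l a)
    (ra2P_zero m l a) ?_ ?_
  · intro b F hb h
    exact mul_ne_zero hb h
  · rintro ⟨x, w⟩ ⟨x', w'⟩ h
    obtain ⟨h1, h2⟩ := ra2_pair_inj h
    have h3 := ra2_of_inj h1
    have h4 := ra2_of_inj h2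
    simp only at h3 h4
    refine Prod.ext ?_ (Prod.ext ?_ ?_)
    · have h5 := congrFun h4 0
      unfold ra2cQ at h5
      rw [dif_pos (by simp), dif_pos (by simp)] at h5
      exact Units.ext h5
    · funext i
      have hi : (i : ℕ) < m := i.2
      refine Prod.ext ?_ ?_
      · have h5 := congrFun h3 ⟨(i : ℕ), by omega⟩
        unfold ra2cP at h5
        rw [dif_pos hi, dif_pos hi] at h5
        exact h5
      · have h5 := congrFun h4 ⟨m - (i : ℕ), by omega⟩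
        unfold ra2cQ at h5
        rw [dif_neg (by show ¬ (m - (i : ℕ) = 0); omega),
          dif_neg (by show ¬ (m - (i : ℕ) = 0); omega)] at h5
        have e : (⟨m - (m - (i : ℕ)), by show m - (m - (i : ℕ)) < m; omega⟩ :
          Fin (ra2BP k m l a).p) = i := Fin.ext (by show m - (m - (i : ℕ)) = i; omega)
        simp only [e] at h5
        exact h5
    · funext i
      exact i.elim0
  · intro F h1 h2
    have eF : SM.pair (smE k m F).1 (smE k m F).2 = F := (smE k m).left_inv F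
    have e : Form.of (coeffE k m (smE k m F).1) = (smE k m F).1 := ra2_of_coeffE _
    have e' : Form.of (coeffE k m (smE k m F).2) = (smE k m F).2 := ra2_of_coeffE _
    have e0' := ra2_of_e0 (coeffE k m (smE k m F).1)
    have e1' := ra2_of_e1 (coeffE k m (smE k m F).2)
    rw [e] at e0'
    rw [e'] at e1'
    have h1' : coeffE k m (smE k m F).1 (Fin.last m) = 1 := by rw [← e0']; exact h1
    have h2' : coeffE k m (smE k m F).2 0 ≠ 0 := by rw [← e1']; exact h2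
    refine ⟨(Units.mk0 _ h2', (fun i => (coeffE k m (smE k m F).1 ⟨(i : ℕ), by
      have : (i : ℕ) < m := i.2
      omega⟩, coeffE k m (smE k m F).2 ⟨m - (i : ℕ), by omega⟩), fun i => i.elim0)), ?_⟩
    conv_rhs => rw [← eF, ← e, ← e']
    unfold ra2P
    congr 2
    · funext i
      have hi : (i : ℕ) ≤ m := Nat.lt_succ_iff.1 i.2
      unfold ra2cP
      by_cases h : (i : ℕ) < m
      · rw [dif_pos h]
      · rw [dif_neg h, ← h1']
        exact congrArg (coeffE k m (smE k m F).1) (Fin.ext (by show m = (i : ℕ); omega))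
    · funext i
      have hi : (i : ℕ) ≤ m := Nat.lt_succ_iff.1 i.2
      unfold ra2cQ
      by_cases h : (i : ℕ) = 0
      · rw [dif_pos h, Units.val_mk0]
        exact congrArg (coeffE k m (smE k m F).2) (Fin.ext h.symm)
      · rw [dif_neg h]
        exact congrArg (coeffE k m (smE k m F).2)
          (Fin.ext (by show m - (m - (i : ℕ)) = i; omega))

theorem ra2P_dm (m l : ℕ) (a : ℤ) {f : X → kˣ} {w : X → (ra2BP k m l a).W} (hf : DM k f)
    (hw : DM k w) : DM k (fun x => ra2P m l a (f x, w x)) := by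
  have h1 : DM k (fun x => ra2cP m l a (w x)) := by
    refine DM.pi (fun i => ?_)
    unfold ra2cP
    split_ifs <;> fun_prop
  have h2 : DM k (fun x => ra2cQ m l a (f x) (w x)) := by
    refine DM.pi (fun i => ?_)
    unfold ra2cQ
    split_ifs <;> fun_prop
  exact DM.sm_pair (DM.form_of h1) (DM.form_of h2)

theorem ra2_P {A : NA k Y} {s : Set Y} (hst : A.St s) (m l : ℕ) (a : ℤ)
    (h : NGood 1 (A.prod (Gm k ((l : ℤ) * (m - a)))) (s ×ˢ (Set.univ : Set kˣ))) :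
    NGood 1 (A.prod ((RA k m a).pull l)) (s ×ˢ PPs k m) ∧
    ncl (A.prod ((RA k m a).pull l)) (s ×ˢ PPs k m) =
      (L ^ (2 * m)) • ncl (A.prod (Gm k ((l : ℤ) * (m - a)))) (s ×ˢ (Set.univ : Set kˣ)) ∧
    tcl (A.prod ((RA k m a).pull l)).toTA (s ×ˢ PPs k m) =
      (L ^ (2 * m)) • tcl (A.prod (Gm k ((l : ℤ) * (m - a)))).toTA
        (s ×ˢ (Set.univ : Set kˣ)) := by
  have dc : DM k (fun p : Y × kˣ => p.2⁻¹) := by fun_prop
  have cw : ∀ y : Y × kˣ, (fun p : Y × kˣ => p.2⁻¹)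
      ((A.prod (Gm k ((l : ℤ) * (m - a)))).w y) * (fun p : Y × kˣ => p.2⁻¹) y = 1 := by
    rintro ⟨y, x⟩
    show (x⁻¹)⁻¹ * x⁻¹ = 1
    simp
  have ct : ∀ (τ : kˣ) (y : Y × kˣ), (fun p : Y × kˣ => p.2⁻¹)
      ((A.prod (Gm k ((l : ℤ) * (m - a)))).t τ y) =
      τ ^ (-(ra2BP k m l a).e) * (fun p : Y × kˣ => p.2⁻¹) y := by
    rintro τ ⟨y, x⟩
    show (τ ^ ((l : ℤ) * (m - a)) * x)⁻¹ = τ ^ (-((l : ℤ) * (m - a))) * x⁻¹
    rw [mul_inv, zpow_neg]
  obtain ⟨g1, g2, g3⟩ := h.bun (ra2BP k m l a) (fun i => by simp) _ dc cw ct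
  rw [ra2BP_dim] at g2 g3
  have hst' : (A.prod ((RA k m a).pull l)).St (s ×ˢ PPs k m) := hst.prod _ ((PPs_st m a).pull l)
  have bij := ra2_bijprod s (ra2_P_bij (k := k) m l a)
  set f : (Y × kˣ) × (ra2BP k m l a).W → Y × ℙ k (SM k m) := fun p => (p.1.1,
    Projectivization.mk k (ra2P m l a (p.1.2, p.2)) (ra2_ne (ra2P_last m l a (p.1.2, p.2))))
    with hf
  have df : DM k f := by
    refine DM.mk (by fun_prop) (DM.pmk (ra2P_dm m l a (by fun_prop) (by fun_prop)) _)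
  have ft : ∀ (c : kˣ) (y : (Y × kˣ) × (ra2BP k m l a).W),
      f (((A.prod (Gm k ((l : ℤ) * (m - a)))).bun (ra2BP k m l a) _ dc cw ct).t c y) =
        (A.prod ((RA k m a).pull l)).t c (f y) := by
    rintro c ⟨⟨y, x⟩, w⟩
    refine Prod.ext rfl ?_
    show Projectivization.mk k (ra2P m l a (c ^ ((l : ℤ) * (m - a)) * x,
      (ra2BP k m l a).tv c w)) _ = ptwo (dg ((c ^ l) ^ a) 1) (dg (c ^ l) 1)
        (Projectivization.mk k (ra2P m l a (x, w)) _)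
    rw [ptwo_mk]
    exact (Projectivization.mk_eq_mk_iff k _ _ _ _).2
      ⟨(c ^ l) ^ ((m : ℤ) - a), ra2_sm_t (c ^ l) a _ _ _ _ (ra2cP_t m l a c w)
        (ra2cQ_t m l a c x w)⟩
  have fw : ∀ (y : (Y × kˣ) × (ra2BP k m l a).W),
      f (((A.prod (Gm k ((l : ℤ) * (m - a)))).bun (ra2BP k m l a) _ dc cw ct).w y) =
        (A.prod ((RA k m a).pull l)).w (f y) := by
    rintro ⟨⟨y, x⟩, w⟩
    refine Prod.ext rfl ?_
    show Projectivization.mk k (ra2P m l a (x⁻¹,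
      ((x⁻¹ : kˣ) : k) • (ra2BP k m l a).wv w)) _ =
        ptwo (sw k) (sw k) (Projectivization.mk k (ra2P m l a (x, w)) _)
    rw [ptwo_mk]
    exact (Projectivization.mk_eq_mk_iff k _ _ _ _).2
      ⟨x⁻¹, ra2_sm_w x⁻¹ _ _ _ _ (ra2cP_w m l a x w) (ra2cQ_w m l a x w)⟩
  refine ⟨g1.congr hst' f df bij (fun c y _ => ft c y) (fun y _ => fw y), ?_, ?_⟩
  · rw [← g2]
    exact (ncl_congr g1.st hst' f df bij (fun c y _ => ft c y) (fun y _ => fw y)).symm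
  · rw [← g3]
    exact (tcl_congr g1.st.toSt hst'.toSt f df bij (fun c y _ => ft c y)).symm

theorem PP_good {A : NA k Y} {s : Set Y} (h : NGood 1 A s) (m l : ℕ) (a : ℤ) (hl : 1 ≤ l) :
    NGood 1 (A.prod ((RA k m a).pull l)) (s ×ˢ PPs k m) ∧
    ncl (A.prod ((RA k m a).pull l)) (s ×ˢ PPs k m) =
      (L ^ (2 * m)) • ((1 + L) • ncl A s - tcl A.toTA s) ∧
    tcl (A.prod ((RA k m a).pull l)).toTA (s ×ˢ PPs k m) =
      ((L - 1) * L ^ (2 * m)) • tcl A.toTA s := by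
  obtain ⟨p1, p2, p3⟩ := h.prod_Gm ((l : ℤ) * (m - a)) (by simp)
  obtain ⟨q1, q2, q3⟩ := ra2_P h.st m l a p1
  refine ⟨q1, ?_, ?_⟩
  · rw [q2, ← p2]; rfl
  · rw [q3, p3, smul_smul, mul_comm]

theorem PP_good0 (m l : ℕ) (a : ℤ) (hl : 1 ≤ l) (ha : (m : ℤ) ≠ a) :
    NGood 1 ((RA k m a).pull l) (PPs k m) ∧
    ncl ((RA k m a).pull l) (PPs k m) = (L ^ (2 * m)) • pt k ∧
    tcl ((RA k m a).pull l).toTA (PPs k m) = (L ^ (2 * m)) • pt k := by
  have hi : (l : ℤ) * (m - a) ≠ 0 := by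
    have h1 : (l : ℤ) ≠ 0 := by positivity
    have h2 : (m : ℤ) - a ≠ 0 := sub_ne_zero.2 ha
    exact mul_ne_zero h1 h2
  obtain ⟨p1, p2, p3⟩ := ra2_triv_good (k := k) hi
  obtain ⟨q1, q2, q3⟩ := ra2_P (NA.St.univ (NA.triv k)) m l a p1
  obtain ⟨t1, t2, t3⟩ := triv_prod (k := k) ((PPs_st (k := k) m a).pull l)
  exact ⟨(t3 1).1 q1, by rw [← t1, q2, p2], by rw [← t2, q3, p3]⟩

end P

section T

/-- The product of a `T`-space with a representation of `T`. -/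
def ra2TV (A : TA k Y) (n : ℕ) (a : Fin n → ℤ) : TA k (Y × (Fin n → k)) where
  t c p := (A.t c p.1, fun i => ((c ^ a i : kˣ) : k) * p.2 i)
  t_one p := by simp [A.t_one]
  t_mul x y p := by simp [A.t_mul, mul_zpow, mul_assoc]
  dt := by
    refine DM.mk (by fun_prop) (DM.pi (fun i => ?_))
    fun_prop

theorem ra2vec_st {A : TA k Y} {s : Set Y} (h : A.St s) (n : ℕ) (a : Fin n → ℤ) :
    (ra2TV A n a).St (s ×ˢ (Set.univ : Set (Fin n → k))) where
  ds := (DM.comp h.ds (DM.fst DM.id')).congr_iff fun p => by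
    constructor
    · exact fun hp => ⟨hp, Set.mem_univ _⟩
    · exact fun hp => hp.1
  t_mem c p hp := ⟨h.t_mem c _ hp.1, Set.mem_univ _⟩

theorem ra2vec_fin {A : TA k Y} {s : Set Y} (h : A.Fin s) (n : ℕ) (a : Fin n → ℤ) :
    (ra2TV A n a).Fin (s ×ˢ (Set.univ : Set (Fin n → k))) := by
  rintro ⟨y, v⟩ ⟨hy, -⟩
  refine (h y hy).subset ?_
  intro c hc
  exact congrArg Prod.fst hc

theorem ra2_vec {A : TA k Y} {s : Set Y} (h : A.St s) (fin : A.Fin s) (n : ℕ)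
    (a : Fin n → ℤ) :
    tcl (ra2TV A n a) (s ×ˢ (Set.univ : Set (Fin n → k))) = (L ^ n) • tcl A s := by
  induction n with
  | zero =>
    rw [pow_zero, one_smul]
    refine tcl_congr (ra2vec_st h 0 a) h (fun p => p.1) (by fun_prop) ?_ (fun _ _ _ => rfl)
    refine ⟨fun p hp => hp.1, ?_, ?_⟩
    · rintro ⟨y, v⟩ - ⟨y', v'⟩ - e
      exact Prod.ext e (funext fun i => i.elim0)
    · intro y hy
      exact ⟨(y, fun i => i.elim0), ⟨hy, Set.mem_univ _⟩, rfl⟩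
  | succ n ih =>
    have h1 := ra2vec_st h n (fun i => a i.succ)
    have h2 := tcl_prod_Kw (ra2TV A n (fun i => a i.succ)) h1
      (ra2vec_fin fin n (fun i => a i.succ)) (a 0)
    rw [ih (fun i => a i.succ), smul_smul] at h2
    rw [pow_succ', ← h2]
    refine tcl_congr (ra2vec_st h (n + 1) a) (h1.prod _ (TA.St.univ _))
      (fun p => ((p.1, fun i => p.2 i.succ), p.2 0)) ?_ ?_ (fun _ _ _ => rfl)
    · refine DM.mk (DM.mk (by fun_prop) (DM.pi (fun i => ?_))) ?_ <;> fun_prop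
    · refine ⟨fun p hp => ⟨⟨hp.1, Set.mem_univ _⟩, Set.mem_univ _⟩, ?_, ?_⟩
      · rintro ⟨y, v⟩ - ⟨y', v'⟩ - e
        simp only [Prod.mk.injEq] at e
        refine Prod.ext e.1.1 (funext fun i => ?_)
        refine Fin.cases ?_ (fun j => ?_) i
        · exact e.2
        · exact congrFun e.1.2 j
      · rintro ⟨⟨y, v⟩, u⟩ ⟨⟨hy, -⟩, -⟩
        exact ⟨(y, Fin.cons u v), ⟨hy, Set.mem_univ _⟩, rfl⟩

/-- coefficients for `MMs` -/
def ra2mP (m : ℕ) (hm : 1 ≤ m) (x : kˣ) (y : Fin (2 * m - 1) → k) (i : Fin (m + 1)) : k :=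
  if (i : ℕ) = 0 then (x : k) else if h : (i : ℕ) = m then 1 else y ⟨(i : ℕ) - 1, by
    have := i.2
    omega⟩

def ra2mQ (m : ℕ) (hm : 1 ≤ m) (y : Fin (2 * m - 1) → k) (i : Fin (m + 1)) : k :=
  if h : (i : ℕ) = 0 then 0 else y ⟨m + (i : ℕ) - 2, by
    have := i.2
    omega⟩

/-- weights for `MMs` -/
def ra2mW (m : ℕ) (a : ℤ) (j : Fin (2 * m - 1)) : ℤ :=
  if (j : ℕ) < m - 1 then (m : ℤ) - ((j : ℕ) + 1) else 2 * (m : ℤ) - 2 - (j : ℕ) - a

theorem ra2mP_t (m : ℕ) (hm : 1 ≤ m) (a : ℤ) (c x : kˣ) (y : Fin (2 * m - 1) → k)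
    (i : Fin (m + 1)) :
    ra2mP m hm (c ^ (m : ℤ) * x) (fun j => ((c ^ ra2mW m a j : kˣ) : k) * y j) i =
      ((c ^ ((m : ℤ) - (i : ℕ)) : kˣ) : k) * ra2mP m hm x y i := by
  have hi : (i : ℕ) ≤ m := Nat.lt_succ_iff.1 i.2
  unfold ra2mP
  split_ifs with h1 h2
  · rw [h1, Units.val_mul]; simp
  · have : (m : ℤ) - (i : ℕ) = 0 := by omega
    rw [this]; simp
  · simp only
    have : ra2mW m a ⟨(i : ℕ) - 1, by omega⟩ = (m : ℤ) - (i : ℕ) := by
      unfold ra2mW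
      rw [if_pos (by show (i : ℕ) - 1 < m - 1; omega)]
      show (m : ℤ) - ((((i : ℕ) - 1 : ℕ) : ℤ) + 1) = _
      omega
    rw [this]

theorem ra2mQ_t (m : ℕ) (hm : 1 ≤ m) (a : ℤ) (c : kˣ) (y : Fin (2 * m - 1) → k)
    (i : Fin (m + 1)) :
    ra2mQ m hm (fun j => ((c ^ ra2mW m a j : kˣ) : k) * y j) i =
      ((c ^ ((m : ℤ) - (i : ℕ) - a) : kˣ) : k) * ra2mQ m hm y i := by
  have hi : (i : ℕ) ≤ m := Nat.lt_succ_iff.1 i.2
  unfold ra2mQ
  split_ifs with h1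
  · simp
  · simp only
    have : ra2mW m a ⟨m + (i : ℕ) - 2, by omega⟩ = (m : ℤ) - (i : ℕ) - a := by
      unfold ra2mW
      rw [if_neg (by show ¬ (m + (i : ℕ) - 2 < m - 1); omega)]
      show 2 * (m : ℤ) - 2 - ((m + (i : ℕ) - 2 : ℕ) : ℤ) - a = _
      omega
    rw [this]

/-- the normalised pair -/
noncomputable def ra2M (m : ℕ) (hm : 1 ≤ m) (z : kˣ × (Fin (2 * m - 1) → k)) : SM k m :=
  SM.pair (Form.of (ra2mP m hm z.1 z.2)) (Form.of (ra2mQ m hm z.2))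

theorem ra2M_last (m : ℕ) (hm : 1 ≤ m) (z : kˣ × (Fin (2 * m - 1) → k)) :
    ra2evS k m (e0 k) 0 (ra2M m hm z) = 1 := by
  show (Form.of (ra2mP m hm z.1 z.2)).1 (e0 k) = 1
  rw [ra2_of_e0]
  unfold ra2mP
  have h1 : ((Fin.last m : Fin (m + 1)) : ℕ) = m := Fin.val_last m
  rw [if_neg (by omega), dif_pos h1]

theorem ra2M_zero (m : ℕ) (hm : 1 ≤ m) (z : kˣ × (Fin (2 * m - 1) → k)) :
    (ra2M m hm z).1 (e1 k) 0 ≠ 0 ∧ (ra2M m hm z).1 (e1 k) 1 = 0 := by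
  constructor
  · show (Form.of (ra2mP m hm z.1 z.2)).1 (e1 k) ≠ 0
    rw [ra2_of_e1]
    unfold ra2mP
    rw [if_pos (by simp)]
    exact z.1.ne_zero
  · show (Form.of (ra2mQ m hm z.2)).1 (e1 k) = 0
    rw [ra2_of_e1]
    unfold ra2mQ
    rw [dif_pos (by simp)]

theorem ra2_M_bij (m : ℕ) (hm : 1 ≤ m) :
    Set.BijOn (fun z : kˣ × (Fin (2 * m - 1) → k) => Projectivization.mk k
      (ra2M m hm z) (ra2_ne (ra2M_last m hm z))) Set.univ (MMs k m) := by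
  refine ra2_bij0 (ra2evS k m (e0 k) 0) (fun F => F.1 (e1 k) 0 ≠ 0 ∧ F.1 (e1 k) 1 = 0) ?_ _
    (ra2M_last m hm) (ra2M_zero m hm) ?_ ?_
  · rintro b F hb ⟨h, h'⟩
    exact ⟨mul_ne_zero hb h, by show b * F.1 (e1 k) 1 = 0; rw [h', mul_zero]⟩
  · rintro ⟨x, w⟩ ⟨x', w'⟩ h
    obtain ⟨h1, h2⟩ := ra2_pair_inj h
    have h3 := ra2_of_inj h1
    have h4 := ra2_of_inj h2
    simp only at h3 h4
    refine Prod.ext ?_ ?_
    · have h5 := congrFun h3 0
      unfold ra2mP at h5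
      rw [if_pos (by simp), if_pos (by simp)] at h5
      exact Units.ext h5
    · funext j
      have hj := j.2
      by_cases hjm : (j : ℕ) < m - 1
      · have h5 := congrFun h3 ⟨(j : ℕ) + 1, by omega⟩
        unfold ra2mP at h5
        rw [if_neg (by show ¬ ((j : ℕ) + 1 = 0); omega), if_neg (by show ¬ ((j : ℕ) + 1 = 0); omega),
          dif_neg (by show ¬ ((j : ℕ) + 1 = m); omega),
          dif_neg (by show ¬ ((j : ℕ) + 1 = m); omega)] at h5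
        exact h5
      · have h5 := congrFun h4 ⟨(j : ℕ) + 2 - m, by omega⟩
        unfold ra2mQ at h5
        rw [dif_neg (by show ¬ ((j : ℕ) + 2 - m = 0); omega),
          dif_neg (by show ¬ ((j : ℕ) + 2 - m = 0); omega)] at h5
        have e : (⟨m + ((j : ℕ) + 2 - m) - 2, by omega⟩ : Fin (2 * m - 1)) = j :=
          Fin.ext (by show m + ((j : ℕ) + 2 - m) - 2 = j; omega)
        simp only [e] at h5
        exact h5
  · rintro F h1 ⟨h2, h3⟩
    have eF : SM.pair (smE k m F).1 (smE k m F).2 = F := (smE k m).left_inv F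
    have e : Form.of (coeffE k m (smE k m F).1) = (smE k m F).1 := ra2_of_coeffE _
    have e' : Form.of (coeffE k m (smE k m F).2) = (smE k m F).2 := ra2_of_coeffE _
    have e0' := ra2_of_e0 (coeffE k m (smE k m F).1)
    have e1' := ra2_of_e1 (coeffE k m (smE k m F).1)
    have e2' := ra2_of_e1 (coeffE k m (smE k m F).2)
    rw [e] at e0' e1'
    rw [e'] at e2'
    have h1' : coeffE k m (smE k m F).1 (Fin.last m) = 1 := by rw [← e0']; exact h1
    have h2' : coeffE k m (smE k m F).1 0 ≠ 0 := by rw [← e1']; exact h2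
    have h3' : coeffE k m (smE k m F).2 0 = 0 := by rw [← e2']; exact h3
    refine ⟨(Units.mk0 _ h2', fun j => if hj : (j : ℕ) < m - 1 then
      coeffE k m (smE k m F).1 ⟨(j : ℕ) + 1, by omega⟩ else
      coeffE k m (smE k m F).2 ⟨(j : ℕ) + 2 - m, by have := j.2; omega⟩), ?_⟩
    conv_rhs => rw [← eF, ← e, ← e']
    unfold ra2M
    congr 2
    · funext i
      have hi : (i : ℕ) ≤ m := Nat.lt_succ_iff.1 i.2
      unfold ra2mP
      split_ifs with h4 h5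
      · rw [Units.val_mk0]
        exact congrArg (coeffE k m (smE k m F).1) (Fin.ext h4.symm)
      · rw [← h1']
        exact congrArg (coeffE k m (smE k m F).1) (Fin.ext h5.symm)
      · simp only
        rw [dif_pos (by omega)]
        exact congrArg (coeffE k m (smE k m F).1) (Fin.ext (by show (i : ℕ) - 1 + 1 = i; omega))
    · funext i
      have hi : (i : ℕ) ≤ m := Nat.lt_succ_iff.1 i.2
      unfold ra2mQ
      split_ifs with h4
      · rw [← h3']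
        exact congrArg (coeffE k m (smE k m F).2) (Fin.ext h4.symm)
      · simp only
        rw [dif_neg (by omega)]
        exact congrArg (coeffE k m (smE k m F).2)
          (Fin.ext (by show m + (i : ℕ) - 2 + 2 - m = i; omega))

theorem ra2M_dm (m : ℕ) (hm : 1 ≤ m) {f : X → kˣ} {w : X → Fin (2 * m - 1) → k} (hf : DM k f)
    (hw : DM k w) : DM k (fun x => ra2M m hm (f x, w x)) := by
  have h1 : DM k (fun x => ra2mP m hm (f x) (w x)) := by
    refine DM.pi (fun i => ?_)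
    unfold ra2mP
    split_ifs <;> fun_prop
  have h2 : DM k (fun x => ra2mQ m hm (w x)) := by
    refine DM.pi (fun i => ?_)
    unfold ra2mQ
    split_ifs <;> fun_prop
  exact DM.sm_pair (DM.form_of h1) (DM.form_of h2)

/-- `T`-classes for `MMs`: `p_0 / p_m ∈ kˣ` has weight `± m`, there are `2 m - 1` further coordinates. -/
theorem MM_class (m : ℕ) (a : ℤ) (hm : 1 ≤ m) :
    tcl (RA k m a).toTA (MMs k m) = (L ^ (2 * m - 1)) • pt k := by
  obtain ⟨h1, h2, h3⟩ := good_Gm (k := k) (m : ℤ) (by positivity)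
  have h4 := ra2_vec h1.st.toSt h1.fin (2 * m - 1) (ra2mW m a)
  rw [h3] at h4
  rw [← h4]
  have bij := ra2_M_bij (k := k) m hm
  have e : (Set.univ : Set (kˣ × (Fin (2 * m - 1) → k))) = Set.univ ×ˢ Set.univ :=
    Set.univ_prod_univ.symm
  rw [e] at bij
  refine (tcl_congr (ra2vec_st h1.st.toSt _ _) (MMs_st m a) _ ?_ bij ?_).symm
  · exact DM.pmk (ra2M_dm m hm (by fun_prop) (by fun_prop)) _
  · rintro c ⟨x, y⟩ -
    show Projectivization.mk k (ra2M m hm (c ^ (m : ℤ) * x,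
      fun j => ((c ^ ra2mW m a j : kˣ) : k) * y j)) _ = ptwo (dg (c ^ a) 1) (dg c 1)
        (Projectivization.mk k (ra2M m hm (x, y)) _)
    rw [ptwo_mk]
    exact (Projectivization.mk_eq_mk_iff k _ _ _ _).2
      ⟨c ^ ((m : ℤ) - a), ra2_sm_t c a _ _ _ _ (ra2mP_t m hm a c x y) (ra2mQ_t m hm a c y)⟩

/-- coefficients for `Hs` -/
def ra2tH (g : ℕ) (hg : 1 ≤ g) (x : kˣ) (y : Fin (g - 1) → k) (i : Fin (g + 1)) : k :=
  if h0 : (i : ℕ) = 0 then (x : k) else if h : (i : ℕ) = g then 1 else y ⟨(i : ℕ) - 1, by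
    have := i.2
    omega⟩

theorem ra2tH_t (g : ℕ) (hg : 1 ≤ g) (c x : kˣ) (y : Fin (g - 1) → k) (i : Fin (g + 1)) :
    ra2tH g hg (c ^ (g : ℤ) * x)
      (fun j => ((c ^ ((g : ℤ) - ((j : ℕ) + 1)) : kˣ) : k) * y j) i =
      ((c ^ (g - (i : ℕ)) : kˣ) : k) * ra2tH g hg x y i := by
  have hi : (i : ℕ) ≤ g := Nat.lt_succ_iff.1 i.2
  unfold ra2tH
  split_ifs with h1 h2
  · rw [h1, Units.val_mul]; simp
  · have : g - (i : ℕ) = 0 := by omega
    rw [this]; simp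
  · simp only
    have : (c ^ ((g : ℤ) - ((((i : ℕ) - 1 : ℕ) : ℤ) + 1)) : kˣ) = c ^ (g - (i : ℕ)) := by
      rw [← zpow_natCast]
      congr 1
      omega
    rw [this]

theorem ra2tH_last (g : ℕ) (hg : 1 ≤ g) (z : kˣ × (Fin (g - 1) → k)) :
    ra2ev k g (e0 k) (Form.of (ra2tH g hg z.1 z.2)) = 1 := by
  show (Form.of (ra2tH g hg z.1 z.2)).1 (e0 k) = 1
  rw [ra2_of_e0]
  unfold ra2tH
  have h1 : ((Fin.last g : Fin (g + 1)) : ℕ) = g := Fin.val_last g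
  rw [dif_neg (by omega), dif_pos h1]

theorem ra2_tH_bij (g : ℕ) (hg : 1 ≤ g) :
    Set.BijOn (fun z : kˣ × (Fin (g - 1) → k) => Projectivization.mk k
      (Form.of (ra2tH g hg z.1 z.2)) (ra2_ne (ra2tH_last g hg z))) Set.univ (Hs k g) := by
  refine ra2_bij0 (ra2ev k g (e0 k)) (fun F => F.1 (e1 k) ≠ 0) ?_ _ (ra2tH_last g hg) ?_ ?_ ?_
  · intro a F ha h
    exact mul_ne_zero ha h
  · intro z
    rw [ra2_of_e1]
    unfold ra2tH
    rw [dif_pos (by simp)]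
    exact z.1.ne_zero
  · rintro ⟨x, w⟩ ⟨x', w'⟩ h
    have h3 := ra2_of_inj h
    simp only at h3
    refine Prod.ext ?_ ?_
    · have h5 := congrFun h3 0
      unfold ra2tH at h5
      rw [dif_pos (by simp), dif_pos (by simp)] at h5
      exact Units.ext h5
    · funext j
      have hj := j.2
      have h5 := congrFun h3 ⟨(j : ℕ) + 1, by omega⟩
      unfold ra2tH at h5
      rw [dif_neg (by show ¬ ((j : ℕ) + 1 = 0); omega), dif_neg (by show ¬ ((j : ℕ) + 1 = g); omega),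
        dif_neg (by show ¬ ((j : ℕ) + 1 = 0); omega),
        dif_neg (by show ¬ ((j : ℕ) + 1 = g); omega)] at h5
      exact h5
  · intro F h1 h2
    have e : Form.of (coeffE k g F) = F := ra2_of_coeffE F
    have e0' := ra2_of_e0 (coeffE k g F)
    have e1' := ra2_of_e1 (coeffE k g F)
    rw [e] at e0' e1'
    have h1' : coeffE k g F (Fin.last g) = 1 := by rw [← e0']; exact h1
    have h2' : coeffE k g F 0 ≠ 0 := by rw [← e1']; exact h2
    refine ⟨(Units.mk0 _ h2', fun j => coeffE k g F ⟨(j : ℕ) + 1, by have := j.2; omega⟩), ?_⟩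
    conv_rhs => rw [← e]
    congr 1
    funext i
    have hi : (i : ℕ) ≤ g := Nat.lt_succ_iff.1 i.2
    unfold ra2tH
    split_ifs with h4 h5
    · rw [Units.val_mk0]
      exact congrArg (coeffE k g F) (Fin.ext h4.symm)
    · rw [← h1']
      exact congrArg (coeffE k g F) (Fin.ext h5.symm)
    · exact congrArg (coeffE k g F) (Fin.ext (by show (i : ℕ) - 1 + 1 = i; omega))

/-- For `T`-spaces with finite stabilisers. -/
theorem H_tclass {A : TA k Y} {s : Set Y} (h : A.St s) (fin : A.Fin s) (g : ℕ) (hg : 1 ≤ g) :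
    tcl (A.prod (FA k g).toTA) (s ×ˢ Hs k g) = ((L - 1) * L ^ (g - 1)) • tcl A s := by
  have h1 : (A.prod (Gm k (g : ℤ)).toTA).St (s ×ˢ (Set.univ : Set kˣ)) :=
    h.prod _ (TA.St.univ _)
  have f1 : (A.prod (Gm k (g : ℤ)).toTA).Fin (s ×ˢ (Set.univ : Set kˣ)) := by
    rintro ⟨y, x⟩ ⟨hy, -⟩
    refine (fin y hy).subset ?_
    intro c hc
    exact congrArg Prod.fst hc
  have h4 := ra2_vec h1 f1 (g - 1) (fun j => (g : ℤ) - ((j : ℕ) + 1))
  rw [tcl_prod_Gm A h fin, smul_smul, mul_comm] at h4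
  rw [← h4]
  have bij := ra2_bijprod s (ra2_tH_bij (k := k) g hg)
  have hst' : (A.prod (FA k g).toTA).St (s ×ˢ Hs k g) := h.prod _ (Hs_st g).toSt
  refine (tcl_congr (ra2vec_st h1 _ _) hst' _ ?_ bij ?_).symm
  · refine DM.mk (by fun_prop) (DM.pmk (DM.form_of (DM.pi (fun i => ?_))) _)
    unfold ra2tH
    split_ifs <;> fun_prop
  · rintro c ⟨⟨y, x⟩, w⟩ -
    refine Prod.ext rfl ?_
    show Projectivization.mk k (Form.of (ra2tH g hg (c ^ (g : ℤ) * x)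
      (fun j => ((c ^ ((g : ℤ) - ((j : ℕ) + 1)) : kˣ) : k) * w j))) _ =
        (Matrix.ProjGenLinGroup.mk (dg c 1) : PGL(2, k)) •
        Projectivization.mk k (Form.of (ra2tH g hg x w)) _
    rw [form_pgl_mk]
    exact (Projectivization.mk_eq_mk_iff k _ _ _ _).2
      ⟨c ^ g, ra2_form_t c _ _ (ra2tH_t g hg c x w)⟩

end T

end Pool.Agent.MRat
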