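import Pool.Agent.Lib.MP_923aff_ag.DTm
/-!
# JOB RAP: polynomial sequences and identities (no geometry)
-/

set_option autoImplicit false

namespace Pool.Agent.MRat

noncomputable section

/-- `th_m = Σ_{j ≤ 2m} (-L)^j`, generating function `(1 - L u) / ((1 - u)(1 - L² u))`. -/
def th (m : ℕ) : Polynomial ℤ := ∑ j ∈ Finset.range (2 * m + 1), (-L) ^ j

/-- `nu_m`, generating function `(1 - L u) / ((1 - u²)(1 - L² u))`:
`nu_0 = 1`, `nu_1 = L² - L`, `nu_(m+2) = nu_m + L^(2m+4) - L^(2m+3)`. -/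
def nu : ℕ → Polynomial ℤ
  | 0 => 1
  | 1 => L ^ 2 - L
  | (m + 2) => nu m + L ^ (2 * m + 4) - L ^ (2 * m + 3)

/-- `aa_m = L nu_m - nu_(m-1)`. -/
def aa (m : ℕ) : Polynomial ℤ := L * nu m - (if m = 0 then 0 else nu (m - 1))

/-- `mm_m = (L - 1) Σ_{i < m} L^(2i)`. -/
def mm (m : ℕ) : Polynomial ℤ := (L - 1) * ∑ i ∈ Finset.range m, L ^ (2 * i)

/-! Auxiliary recursions. -/

theorem r3p_th_zero : th 0 = 1 := by simp [th]

theorem r3p_th_succ (m : ℕ) : th (m + 1) = th m - L ^ (2 * m + 1) + L ^ (2 * m + 2) := by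
  unfold th
  rw [show 2 * (m + 1) + 1 = (2 * m + 1) + 1 + 1 by ring, Finset.sum_range_succ,
    Finset.sum_range_succ, Odd.neg_pow ⟨m, rfl⟩, Even.neg_pow ⟨m + 1, by ring⟩]
  ring

theorem r3p_mm_zero : mm 0 = 0 := by simp [mm]

theorem r3p_mm_succ (m : ℕ) : mm (m + 1) = mm m + (L - 1) * L ^ (2 * m) := by
  unfold mm
  rw [Finset.sum_range_succ]
  ring

theorem r3p_nu_zero : nu 0 = 1 := by rw [nu]

theorem r3p_nu_one : nu 1 = L ^ 2 - L := by rw [nu]

theorem r3p_nu_succ (m : ℕ) : nu (m + 2) = nu m + L ^ (2 * m + 4) - L ^ (2 * m + 3) := by rw [nu]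

/-- splitting off the first term of a convolution with the powers of `L` -/
theorem r3p_conv (A : ℕ → Polynomial ℤ) (m : ℕ) :
    ∑ g ∈ Finset.range (m + 1), L ^ g * A (m + 1 - (g + 1)) =
      A m + L * ∑ g ∈ Finset.range m, L ^ g * A (m - (g + 1)) := by
  rw [Finset.sum_range_succ', Finset.mul_sum, add_comm]
  congr 1
  · simp
  · refine Finset.sum_congr rfl fun g _ => ?_
    rw [show m + 1 - (g + 1 + 1) = m - (g + 1) by omega]
    ring

theorem r3p_S (m : ℕ) : (L - 1) * ∑ g ∈ Finset.range m, L ^ g * th (m - (g + 1)) =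
    L ^ (2 * m) - th m := by
  induction m with
  | zero => simp [r3p_th_zero]
  | succ m ih =>
    rw [r3p_conv th m, r3p_th_succ]
    linear_combination L * ih

theorem r3p_T (m : ℕ) : ∑ g ∈ Finset.range m, L ^ g * aa (m - (g + 1)) =
    L ^ (2 * m) - nu m := by
  induction m with
  | zero => simp [r3p_nu_zero]
  | succ m ih =>
    rw [r3p_conv aa m, ih]
    rcases m with _ | m
    · rw [r3p_nu_one]
      simp only [aa, if_true, r3p_nu_zero]
      ring
    · rw [r3p_nu_succ]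
      simp only [aa, Nat.succ_ne_zero, if_false, Nat.add_sub_cancel]
      ring

theorem r3p_th_eq (m : ℕ) : th (m + 1) = nu (m + 1) + nu m := by
  induction m with
  | zero =>
    rw [r3p_th_succ, r3p_th_zero, r3p_nu_one, r3p_nu_zero]
    ring
  | succ m ih =>
    rw [r3p_th_succ, ih, r3p_nu_succ]
    ring

theorem r3p_th_mm (m : ℕ) : th m + mm m = L ^ (2 * m) := by
  induction m with
  | zero => simp [r3p_th_zero, r3p_mm_zero]
  | succ m ih =>
    rw [r3p_th_succ, r3p_mm_succ]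
    linear_combination ih

/-! Polynomial identities (compare the generating functions; or induction on `m`). -/

theorem th_rec (m : ℕ) : L ^ (2 * m) = th m +
    ∑ g ∈ Finset.range m, (L - 1) * L ^ g * th (m - (g + 1)) := by
  have h := r3p_S m
  rw [Finset.mul_sum] at h
  simp only [← mul_assoc] at h
  rw [h]
  ring

theorem nu_rec (m : ℕ) : L ^ (2 * m) = nu m +
    ∑ g ∈ Finset.range m, L ^ g * aa (m - (g + 1)) := by
  rw [r3p_T]
  ring

theorem aa_rec (m : ℕ) : L ^ (2 * m + 1) = aa m +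
    ∑ g ∈ Finset.range m, L ^ g * ((1 + L) * aa (m - (g + 1)) - (L - 1) * th (m - (g + 1))) := by
  have h1 : ∑ g ∈ Finset.range m, L ^ g * ((1 + L) * aa (m - (g + 1)) -
      (L - 1) * th (m - (g + 1))) =
      (1 + L) * (∑ g ∈ Finset.range m, L ^ g * aa (m - (g + 1))) -
      (L - 1) * ∑ g ∈ Finset.range m, L ^ g * th (m - (g + 1)) := by
    rw [Finset.mul_sum, Finset.mul_sum, ← Finset.sum_sub_distrib]
    refine Finset.sum_congr rfl fun g _ => ?_
    ring
  rw [h1, r3p_S, r3p_T]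
  rcases m with _ | m
  · simp only [aa, if_true, r3p_nu_zero, r3p_th_zero]
    ring
  · rw [r3p_th_eq]
    simp only [aa, Nat.succ_ne_zero, if_false, Nat.add_sub_cancel]
    ring

theorem r3p_U (k : ℕ) : (L - 1) * ∑ g ∈ Finset.range k, L ^ g * mm (k - g) =
    L ^ (2 * k + 1) - L ^ k - mm (k + 1) := by
  induction k with
  | zero =>
    rw [r3p_mm_succ, r3p_mm_zero]
    simp
  | succ k ih =>
    have h1 : ∑ g ∈ Finset.range (k + 1), L ^ g * mm (k + 1 - g) =
        mm (k + 1) + L * ∑ g ∈ Finset.range k, L ^ g * mm (k - g) := by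
      rw [Finset.sum_range_succ', Finset.mul_sum, add_comm]
      congr 1
      · simp
      · refine Finset.sum_congr rfl fun g _ => ?_
        rw [show k + 1 - (g + 1) = k - g by omega]
        ring
    rw [h1, r3p_mm_succ (k + 1)]
    linear_combination L * ih

theorem mm_rec (m : ℕ) (hm : 1 ≤ m) : L ^ (2 * m - 1) = mm m + L ^ (m - 1) +
    ∑ g ∈ Finset.range (m - 1), (L - 1) * L ^ g * mm (m - (g + 1)) := by
  obtain ⟨k, rfl⟩ : ∃ k, m = k + 1 := ⟨m - 1, by omega⟩
  rw [show 2 * (k + 1) - 1 = 2 * k + 1 by omega, show k + 1 - 1 = k by omega]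
  have h := r3p_U k
  rw [Finset.mul_sum] at h
  have h2 : ∑ g ∈ Finset.range k, (L - 1) * L ^ g * mm (k + 1 - (g + 1)) =
      ∑ g ∈ Finset.range k, (L - 1) * (L ^ g * mm (k - g)) := by
    refine Finset.sum_congr rfl fun g _ => ?_
    rw [show k + 1 - (g + 1) = k - g by omega]
    ring
  rw [h2, h]
  ring

/-- The total for the action of `N` on `Rat_d`. -/
theorem nu_total (d : ℕ) (hd : 1 ≤ d) : nu d + nu (d - 1) + mm d = L ^ (2 * d) := by
  obtain ⟨k, rfl⟩ : ∃ k, d = k + 1 := ⟨d - 1, by omega⟩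
  rw [show k + 1 - 1 = k by omega, ← r3p_th_eq, r3p_th_mm]

theorem th_total (d : ℕ) (hd : 1 ≤ d) : th d + th (d - 1) + 2 * mm d =
    L ^ (2 * d) + L ^ (2 * d - 1) := by
  obtain ⟨k, rfl⟩ : ∃ k, d = k + 1 := ⟨d - 1, by omega⟩
  rw [show k + 1 - 1 = k by omega, show 2 * (k + 1) - 1 = 2 * k + 1 by omega]
  have h1 := r3p_th_mm (k + 1)
  have h2 := r3p_th_mm k
  have h3 := r3p_mm_succ k
  linear_combination h1 + h2 + h3

end

end Pool.Agent.MRat
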