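import Pool.Agent.Lib.MP_923aff_ag.R1
import Pool.Agent.Lib.MP_923aff_ag.R2
import Pool.Agent.Lib.MP_923aff_ag.R3P
/-!
# JOB RA3: the classes of `As`, `Ms` (recursion over the degree)
-/

set_option autoImplicit false
set_option linter.unusedSectionVars false

namespace Pool.Agent.MRat

open scoped MatrixGroups LinearAlgebra.Projectivization

noncomputable section

variable {k : Type} [Field k] [IsAlgClosed k] [CharZero k]
variable {X Y Z : Type} [DT k X] [DT k Y] [DT k Z]

/-- R3: products with a good `N`-space. Strong induction on `m` with `PP_sum`, `PP_good_diff`, `H_good`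
(applied to the good space `s × As (m - g - 1)`), `PP_good`. -/
theorem A_good {A : NA k Y} {s : Set Y} (h : NGood 1 A s) (m l : ℕ) (a : ℤ) (hl : 1 ≤ l) :
    NGood 1 (A.prod ((RA k m a).pull l)) (s ×ˢ As k m) ∧
    tcl (A.prod ((RA k m a).pull l)).toTA (s ×ˢ As k m) =
      ((L - 1) * th m) • tcl A.toTA s ∧
    (ncl A s = tcl A.toTA s →
      ncl (A.prod ((RA k m a).pull l)) (s ×ˢ As k m) = (aa m) • ncl A s) := by
  induction m using Nat.strong_induction_on with
  | _ m ih =>
    have hP := PP_good h m l a hl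
    have hpiece : ∀ g < m, _ := fun g (hg : g < m) =>
      H_good (ih (m - (g + 1)) (by omega)).1 (g + 1) l (by omega) hl
    have hsum := PP_sum h.st m a l
    refine ⟨PP_good_diff h.st m a l hP.1 (fun g hg => (hpiece g hg).1), ?_, ?_⟩
    · have e1 := hsum.2
      rw [hP.2.2] at e1
      have e2 : ∑ g ∈ Finset.range m,
          tcl ((A.prod ((RA k (m - (g + 1)) a).pull l)).prod ((FA k (g + 1)).pull l)).toTA
            ((s ×ˢ As k (m - (g + 1))) ×ˢ Hs k (g + 1)) =
          (∑ g ∈ Finset.range m, ((L - 1) * L ^ g * ((L - 1) * th (m - (g + 1))))) •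
            tcl A.toTA s := by
        rw [Finset.sum_smul]
        refine Finset.sum_congr rfl fun g hg => ?_
        have hg' : g < m := Finset.mem_range.1 hg
        rw [(hpiece g hg').2.2, (ih (m - (g + 1)) (by omega)).2.1, smul_smul,
          Nat.add_sub_cancel]
      rw [e2] at e1
      have e3 : tcl (A.prod ((RA k m a).pull l)).toTA (s ×ˢ As k m) =
          ((L - 1) * L ^ (2 * m)) • tcl A.toTA s -
          (∑ g ∈ Finset.range m, ((L - 1) * L ^ g * ((L - 1) * th (m - (g + 1))))) •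
            tcl A.toTA s := by
        rw [e1]
        abel
      rw [e3, ← sub_smul]
      congr 1
      have e4 : ∑ g ∈ Finset.range m, ((L - 1) * L ^ g * ((L - 1) * th (m - (g + 1)))) =
          (L - 1) * ∑ g ∈ Finset.range m, (L - 1) * L ^ g * th (m - (g + 1)) := by
        rw [Finset.mul_sum]
        exact Finset.sum_congr rfl fun g _ => by ring
      rw [e4, th_rec m]
      ring
    · intro hnt
      have e1 := hsum.1
      rw [hP.2.1, ← hnt] at e1
      have e0 : ((1 + L) • ncl A s - ncl A s : MK k) = L • ncl A s := by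
        rw [add_smul, one_smul]
        abel
      rw [e0, smul_smul, ← pow_succ] at e1
      have e2 : ∑ g ∈ Finset.range m,
          ncl ((A.prod ((RA k (m - (g + 1)) a).pull l)).prod ((FA k (g + 1)).pull l))
            ((s ×ˢ As k (m - (g + 1))) ×ˢ Hs k (g + 1)) =
          (∑ g ∈ Finset.range m, L ^ g * ((1 + L) * aa (m - (g + 1)) -
            (L - 1) * th (m - (g + 1)))) • ncl A s := by
        rw [Finset.sum_smul]
        refine Finset.sum_congr rfl fun g hg => ?_
        have hg' : g < m := Finset.mem_range.1 hg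
        have i1 := (ih (m - (g + 1)) (by omega)).2.1
        have i2 := (ih (m - (g + 1)) (by omega)).2.2 hnt
        rw [(hpiece g hg').2.1, i1, i2, ← hnt, smul_smul, ← sub_smul, smul_smul,
          Nat.add_sub_cancel]
      rw [e2] at e1
      have e3 : ncl (A.prod ((RA k m a).pull l)) (s ×ˢ As k m) =
          (L ^ (2 * m + 1)) • ncl A s -
          (∑ g ∈ Finset.range m, L ^ g * ((1 + L) * aa (m - (g + 1)) -
            (L - 1) * th (m - (g + 1)))) • ncl A s := by
        rw [e1]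
        abel
      rw [e3, ← sub_smul]
      congr 1
      rw [aa_rec m]
      ring

private theorem RA3_swap (e g l : ℕ) (a : ℤ) (hg : 1 ≤ g) (hl : 1 ≤ l) :
    NGood 1 (((NA.triv k).prod ((RA k e a).pull l)).prod ((FA k g).pull l))
      (((Set.univ : Set Unit) ×ˢ As k e) ×ˢ Hs k g) ∧
    ncl (((NA.triv k).prod ((RA k e a).pull l)).prod ((FA k g).pull l))
      (((Set.univ : Set Unit) ×ˢ As k e) ×ˢ Hs k g) = (L ^ (g - 1) * aa e) • pt k ∧
    tcl (((NA.triv k).prod ((RA k e a).pull l)).prod ((FA k g).pull l)).toTA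
      (((Set.univ : Set Unit) ×ˢ As k e) ×ˢ Hs k g) =
        ((L - 1) * L ^ (g - 1) * th e) • pt k := by
  have hH := H_good0 (k := k) g l hg hl
  have hA := A_good hH.1 e l a hl
  have hnt : ncl ((FA k g).pull l) (Hs k g) = tcl ((FA k g).pull l).toTA (Hs k g) := by
    rw [hH.2.1, hH.2.2]
  have st1 : (((NA.triv k).prod ((RA k e a).pull l)).prod ((FA k g).pull l)).St
      (((Set.univ : Set Unit) ×ˢ As k e) ×ˢ Hs k g) :=
    NA.St.prod (NA.St.prod (NA.St.univ _) _ ((As_st e a).pull l)) _ ((Hs_st g).pull l)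
  have bij : Set.BijOn (fun p : (Unit × ℙ k (SM k e)) × ℙ k (Form k g) => (p.2, p.1.2))
      (((Set.univ : Set Unit) ×ˢ As k e) ×ˢ Hs k g) (Hs k g ×ˢ As k e) := by
    refine ⟨?_, ?_, ?_⟩
    · intro p hp
      exact ⟨hp.2, hp.1.2⟩
    · rintro ⟨⟨u, x⟩, y⟩ - ⟨⟨u', x'⟩, y'⟩ - he
      simp only [Prod.mk.injEq] at he
      obtain ⟨rfl, rfl⟩ := he
      rfl
    · rintro ⟨y, x⟩ ⟨hy, hx⟩
      exact ⟨(((), x), y), ⟨⟨Set.mem_univ _, hx⟩, hy⟩, rfl⟩
  have df : DM k (fun p : (Unit × ℙ k (SM k e)) × ℙ k (Form k g) => (p.2, p.1.2)) := by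
    fun_prop
  refine ⟨NGood.congr' st1 hA.1 _ df bij (fun c y _ => rfl) (fun y _ => rfl), ?_, ?_⟩
  · rw [ncl_congr st1 hA.1.st _ df bij (fun c y _ => rfl) (fun y _ => rfl), hA.2.2 hnt, hH.2.1,
      smul_smul, mul_comm]
  · rw [tcl_congr (B := (((FA k g).pull l).prod ((RA k e a).pull l)).toTA) st1.toSt hA.1.st.toSt _
      df bij (fun c y _ => rfl), hA.2.1, hH.2.2, smul_smul]
    congr 1
    ring

/-- R3 for the space itself: use the decomposition with the one point space and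
`Hs g × As (m - g)` (for `g ≥ 1`, `Hs g` is a good space with `n = t = L^(g-1)`). -/
theorem A_good0 (m l : ℕ) (a : ℤ) (hl : 1 ≤ l) (ha : (m : ℤ) ≠ a) :
    NGood 1 ((RA k m a).pull l) (As k m) ∧
    ncl ((RA k m a).pull l) (As k m) = (nu m) • pt k ∧
    tcl ((RA k m a).pull l).toTA (As k m) = (th m) • pt k := by
  have hP := PP_good0 (k := k) m l a hl ha
  have stP : ((RA k m a).pull l).St (PPs k m) := (PPs_st m a).pull l
  have stA : ((RA k m a).pull l).St (As k m) := (As_st m a).pull l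
  have tP := triv_prod stP
  have tA := triv_prod stA
  have hsum := PP_sum (A := NA.triv k) (NA.St.univ _) m a l
  have hpiece : ∀ g < m, _ := fun g (_ : g < m) =>
    RA3_swap (k := k) (m - (g + 1)) (g + 1) l a (by omega) hl
  refine ⟨?_, ?_, ?_⟩
  · refine (tA.2.2 1).1 ?_
    refine PP_good_diff (NA.St.univ _) m a l ((tP.2.2 1).2 hP.1) ?_
    intro g hg
    exact (hpiece g hg).1
  · have e1 := hsum.1
    rw [tP.1, tA.1, hP.2.1] at e1
    have e2 : ∑ g ∈ Finset.range m,
        ncl (((NA.triv k).prod ((RA k (m - (g + 1)) a).pull l)).prod ((FA k (g + 1)).pull l))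
          (((Set.univ : Set Unit) ×ˢ As k (m - (g + 1))) ×ˢ Hs k (g + 1)) =
        (∑ g ∈ Finset.range m, L ^ g * aa (m - (g + 1))) • pt k := by
      rw [Finset.sum_smul]
      refine Finset.sum_congr rfl fun g hg => ?_
      rw [(hpiece g (Finset.mem_range.1 hg)).2.1, Nat.add_sub_cancel]
    rw [e2] at e1
    have e3 : ncl ((RA k m a).pull l) (As k m) = (L ^ (2 * m)) • pt k -
        (∑ g ∈ Finset.range m, L ^ g * aa (m - (g + 1))) • pt k := by
      rw [e1]
      abel
    rw [e3, ← sub_smul]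
    congr 1
    rw [nu_rec m]
    ring
  · have e1 := hsum.2
    rw [tP.2.1, tA.2.1, hP.2.2] at e1
    have e2 : ∑ g ∈ Finset.range m,
        tcl (((NA.triv k).prod ((RA k (m - (g + 1)) a).pull l)).prod
            ((FA k (g + 1)).pull l)).toTA
          (((Set.univ : Set Unit) ×ˢ As k (m - (g + 1))) ×ˢ Hs k (g + 1)) =
        (∑ g ∈ Finset.range m, (L - 1) * L ^ g * th (m - (g + 1))) • pt k := by
      rw [Finset.sum_smul]
      refine Finset.sum_congr rfl fun g hg => ?_
      rw [(hpiece g (Finset.mem_range.1 hg)).2.2, Nat.add_sub_cancel]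
    rw [e2] at e1
    have e3 : tcl ((RA k m a).pull l).toTA (As k m) = (L ^ (2 * m)) • pt k -
        (∑ g ∈ Finset.range m, (L - 1) * L ^ g * th (m - (g + 1))) • pt k := by
      rw [e1]
      abel
    rw [e3, ← sub_smul]
    congr 1
    rw [th_rec m]
    ring

private theorem RA3_dg_smul (a b : kˣ) (v : Fin 2 → k) :
    dg a b • v = ![(a : k) * v 0, (b : k) * v 1] := by
  unfold dg
  rw [Matrix.GeneralLinearGroup.fin_two_smul]
  funext i
  fin_cases i <;> simp

private theorem RA3_inv_e0 (c : kˣ) : (dg c 1)⁻¹ • e0 k = ((c⁻¹ : kˣ) : k) • e0 k := by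
  rw [inv_smul_eq_iff, RA3_dg_smul]
  funext i
  fin_cases i <;> simp [e0]

private theorem RA3_inv_e1 (c : kˣ) : (dg c 1)⁻¹ • e1 k = e1 k := by
  rw [inv_smul_eq_iff, RA3_dg_smul]
  funext i
  fin_cases i <;> simp [e1]

private theorem RA3_e1_ne : e1 k ≠ 0 := by
  intro h
  have := congrFun h 1
  simp [e1] at this

private theorem RA3_e0_ne : e0 k ≠ 0 := by
  intro h
  have := congrFun h 0
  simp [e0] at this

/-- `Ms m`, `m ≥ 1`, has finite stabilisers (the coordinate `p_0 / p_m`). -/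
theorem M_fin (m : ℕ) (a : ℤ) (hm : 1 ≤ m) : (RA k m a).toTA.Fin (Ms k m) := by
  intro p hp
  obtain ⟨hrat, h0, h1⟩ := hp
  have h2 : p.rep.1 (e1 k) 0 ≠ 0 := by
    intro h
    apply hrat (e1 k) RA3_e1_ne
    funext i
    fin_cases i
    · exact h
    · exact h1
  have : NeZero m := ⟨by omega⟩
  have hfin : Finite (rootsOfUnity m k) := inferInstance
  refine Set.Finite.subset (Set.finite_coe_iff.1 hfin) ?_
  intro c hc
  have hc' : Projectivization.mk k (SM.two (dg (c ^ a) 1) (dg c 1) p.rep)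
      (SM.two_ne _ _ p.rep_nonzero) = p := hc
  have hc2 : Projectivization.mk k (SM.two (dg (c ^ a) 1) (dg c 1) p.rep)
      (SM.two_ne _ _ p.rep_nonzero) = Projectivization.mk k p.rep p.rep_nonzero :=
    hc'.trans p.mk_rep.symm
  rw [Projectivization.mk_eq_mk_iff'] at hc2
  obtain ⟨u, hu⟩ := hc2
  have ev : ∀ v : Fin 2 → k, u * p.rep.1 v 0 =
      (dg (c ^ a) 1 • p.rep.1 ((dg c 1)⁻¹ • v)) 0 := by
    intro v
    have := congrArg (fun F : SM k m => F.1 v 0) hu
    exact this
  have ev0 := ev (e0 k)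
  have ev1 := ev (e1 k)
  rw [RA3_inv_e0, RA3_dg_smul, sm_smul] at ev0
  rw [RA3_inv_e1, RA3_dg_smul] at ev1
  simp only [Matrix.cons_val_zero, Pi.smul_apply, smul_eq_mul] at ev0 ev1
  have u1 : u = ((c ^ a : kˣ) : k) := mul_right_cancel₀ h2 ev1
  rw [u1] at ev0
  have hca : ((c ^ a : kˣ) : k) ≠ 0 := Units.ne_zero _
  have e3 : p.rep.1 (e0 k) 0 = ((c⁻¹ : kˣ) : k) ^ m * p.rep.1 (e0 k) 0 :=
    mul_left_cancel₀ hca ev0
  have e4 : ((c⁻¹ : kˣ) : k) ^ m = 1 := by
    have : (1 : k) * p.rep.1 (e0 k) 0 = ((c⁻¹ : kˣ) : k) ^ m * p.rep.1 (e0 k) 0 := by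
      rw [one_mul]
      exact e3
    exact (mul_right_cancel₀ h0 this).symm
  show c ∈ rootsOfUnity m k
  rw [mem_rootsOfUnity]
  have e5 : (c⁻¹) ^ m = 1 := by
    apply Units.ext
    rw [Units.val_pow_eq_pow_val, e4, Units.val_one]
  rw [inv_pow, inv_eq_one] at e5
  exact e5

private theorem RA3_const (F : SM k 0) (v w : Fin 2 → k) : F.1 v = F.1 w := by
  funext i
  have e : ∀ v : Fin 2 → k, F.1 v i = coeffE k 0 ⟨fun v => F.1 v i, F.2 i⟩ 0 := by
    intro v
    have := form_eq (⟨fun v => F.1 v i, F.2 i⟩ : Form k 0) v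
    simpa using this
  rw [e v, e w]

private theorem RA3_M0_unique {p q : ℙ k (SM k 0)} (hp : p ∈ Ms k 0) (hq : q ∈ Ms k 0) :
    p = q := by
  obtain ⟨-, hp0, hp1⟩ := hp
  obtain ⟨-, hq0, hq1⟩ := hq
  have e : Projectivization.mk k p.rep p.rep_nonzero =
      Projectivization.mk k q.rep q.rep_nonzero := by
    rw [Projectivization.mk_eq_mk_iff']
    refine ⟨p.rep.1 (e0 k) 0 / q.rep.1 (e0 k) 0, ?_⟩
    apply Subtype.ext
    funext v i
    show p.rep.1 (e0 k) 0 / q.rep.1 (e0 k) 0 * q.rep.1 v i = p.rep.1 v i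
    fin_cases i
    · show p.rep.1 (e0 k) 0 / q.rep.1 (e0 k) 0 * q.rep.1 v 0 = p.rep.1 v 0
      rw [RA3_const q.rep v (e0 k), RA3_const p.rep v (e0 k)]
      field_simp
    · show p.rep.1 (e0 k) 0 / q.rep.1 (e0 k) 0 * q.rep.1 v 1 = p.rep.1 v 1
      rw [RA3_const q.rep v (e1 k), RA3_const p.rep v (e1 k), hp1, hq1, mul_zero]
  rw [p.mk_rep, q.mk_rep] at e
  exact e

private theorem RA3_M0_exists : ∃ p : ℙ k (SM k 0), p ∈ Ms k 0 := by
  have hev : ∀ v : Fin 2 → k, (SM.pair (Form.of (fun _ : Fin (0 + 1) => (1 : k)))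
      (0 : Form k 0)).1 v = ![1, 0] := by
    intro v
    funext i
    fin_cases i
    · show (Form.of (fun _ : Fin (0 + 1) => (1 : k))).1 v = 1
      rw [Form.of_apply]
      simp
    · rfl
  have hne : SM.pair (Form.of (fun _ : Fin (0 + 1) => (1 : k))) (0 : Form k 0) ≠ 0 := by
    intro h
    have h1 := congrArg (fun F : SM k 0 => F.1 (e0 k) 0) h
    simp only [hev] at h1
    exact one_ne_zero h1
  refine ⟨Projectivization.mk k _ hne, ?_, ?_, ?_⟩
  · rw [mem_RatP]
    intro v _ h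
    rw [hev] at h
    have := congrFun h 0
    simp at this
  · rw [rep_ne_iff, hev]
    simp
  · by_contra h
    have h2 := (rep_ne_iff hne (e1 k) 1).1 h
    rw [hev] at h2
    simp at h2

theorem M_class (m : ℕ) (a : ℤ) (hm : 1 ≤ m) :
    tcl (RA k m a).toTA (Ms k m) = (mm m) • pt k := by
  induction m using Nat.strong_induction_on with
  | _ m ih =>
    have e1 := MM_sum (k := k) m a
    rw [MM_class m a hm] at e1
    have e2 : ∀ g ∈ Finset.range (m - 1),
        tcl ((RA k (m - (g + 1)) a).toTA.prod (FA k (g + 1)).toTA)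
          (Ms k (m - (g + 1)) ×ˢ Hs k (g + 1)) =
        ((L - 1) * L ^ g * mm (m - (g + 1))) • pt k := by
      intro g hg
      have hg' : g < m - 1 := Finset.mem_range.1 hg
      rw [H_tclass (Ms_st _ _) (M_fin _ _ (by omega)) (g + 1) (by omega),
        ih (m - (g + 1)) (by omega) (by omega), smul_smul, Nat.add_sub_cancel]
    have e3 : tcl ((RA k (m - (m - 1 + 1)) a).toTA.prod (FA k (m - 1 + 1)).toTA)
          (Ms k (m - (m - 1 + 1)) ×ˢ Hs k (m - 1 + 1)) = (L ^ (m - 1)) • pt k := by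
      have hm1 : m - (m - 1 + 1) = 0 := by omega
      rw [hm1]
      obtain ⟨p0, hp0⟩ := RA3_M0_exists (k := k)
      have st1 : ((RA k 0 a).toTA.prod (FA k (m - 1 + 1)).toTA).St
          (Ms k 0 ×ˢ Hs k (m - 1 + 1)) :=
        TA.St.prod (Ms_st 0 a) _ (Hs_st (m - 1 + 1)).toSt
      have st2 : ((FA k (m - 1 + 1)).pull 1).toTA.St (Hs k (m - 1 + 1)) :=
        ((Hs_st (m - 1 + 1)).pull 1).toSt
      have H := (H_good0 (k := k) (m - 1 + 1) 1 (by omega) le_rfl).2.2
      rw [tcl_congr st1 st2 (fun p => p.2) (by fun_prop) ?_ ?_, H]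
      · rfl
      · refine ⟨?_, ?_, ?_⟩
        · intro p hp
          exact hp.2
        · rintro ⟨x, y⟩ ⟨hx, -⟩ ⟨x', y'⟩ ⟨hx', -⟩ he
          simp only at he
          rw [he, RA3_M0_unique (show x ∈ Ms k 0 from hx) (show x' ∈ Ms k 0 from hx')]
        · intro y hy
          exact ⟨(p0, y), ⟨hp0, hy⟩, rfl⟩
      · intro c y _
        show (FA k (m - 1 + 1)).t c y.2 = (FA k (m - 1 + 1)).t (c ^ 1) y.2
        rw [pow_one]
    have e4 : ∑ g ∈ Finset.range m,
        tcl ((RA k (m - (g + 1)) a).toTA.prod (FA k (g + 1)).toTA)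
          (Ms k (m - (g + 1)) ×ˢ Hs k (g + 1)) =
        (∑ g ∈ Finset.range (m - 1), (L - 1) * L ^ g * mm (m - (g + 1))) • pt k +
          (L ^ (m - 1)) • pt k := by
      have hm2 : m = (m - 1) + 1 := by omega
      have e5 := Finset.sum_range_succ (fun g =>
        tcl ((RA k (m - (g + 1)) a).toTA.prod (FA k (g + 1)).toTA)
          (Ms k (m - (g + 1)) ×ˢ Hs k (g + 1))) (m - 1)
      rw [← hm2] at e5
      rw [← hm2] at e3
      rw [e5, Finset.sum_congr rfl e2, ← Finset.sum_smul, e3]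
    rw [e4] at e1
    have e6 : tcl (RA k m a).toTA (Ms k m) = (L ^ (2 * m - 1)) • pt k -
        ((∑ g ∈ Finset.range (m - 1), (L - 1) * L ^ g * mm (m - (g + 1))) • pt k +
          (L ^ (m - 1)) • pt k) := by
      rw [e1]
      abel
    rw [e6, ← add_smul, ← sub_smul]
    congr 1
    rw [mm_rec m hm]
    ring

end

end Pool.Agent.MRat
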