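import Pool.Agent.Lib.MP_923aff_ag.R3
/-!
# JOB RA5: `Rat_d` as an `N`-space
-/

set_option autoImplicit false

namespace Pool.Agent.MRat

open scoped MatrixGroups LinearAlgebra.Projectivization

variable {k : Type} [Field k] [IsAlgClosed k] [CharZero k]
variable {X Y Z : Type} [DT k X] [DT k Y] [DT k Z]

/-! ### Forms divisible by a coordinate -/

/-- multiplication by `v 1` on coefficients -/
private theorem RA5_m1 {n : ℕ} (F : Form k n) (v : Fin 2 → k) :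
    (Form.of (Fin.snoc (α := fun _ => k) (coeffE k n F) 0) : Form k (n + 1)).1 v =
      v 1 * F.1 v := by
  rw [Form.of_apply, form_eq F v, Fin.sum_univ_castSucc, Finset.mul_sum]
  simp only [Fin.snoc_castSucc, Fin.snoc_last, zero_mul, add_zero, Fin.val_castSucc]
  refine Finset.sum_congr rfl fun i _ => ?_
  have h : n + 1 - (i : ℕ) = (n - (i : ℕ)) + 1 := by have := i.2; omega
  rw [h, pow_succ]
  ring

private theorem RA5_m0 {n : ℕ} (F : Form k n) (v : Fin 2 → k) :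
    (Form.of (Fin.cons (α := fun _ => k) 0 (coeffE k n F)) : Form k (n + 1)).1 v =
      v 0 * F.1 v := by
  rw [Form.of_apply, form_eq F v, Fin.sum_univ_succ, Finset.mul_sum]
  simp only [Fin.cons_zero, Fin.cons_succ, zero_mul, zero_add, Fin.val_succ]
  refine Finset.sum_congr rfl fun i _ => ?_
  have h : n + 1 - ((i : ℕ) + 1) = n - (i : ℕ) := by omega
  rw [h, pow_succ]
  ring

private theorem RA5_of_coeff {n : ℕ} (F : Form k n) : Form.of (coeffE k n F) = F := by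
  unfold Form.of
  exact (coeffE k n).symm_apply_apply F

private theorem RA5_coeff_of {n : ℕ} (c : Fin (n + 1) → k) : coeffE k n (Form.of c) = c := by
  unfold Form.of
  exact (coeffE k n).apply_symm_apply c

private theorem RA5_inj1 {n : ℕ} {F G : Form k n} (h : ∀ v : Fin 2 → k, v 1 * F.1 v = v 1 * G.1 v) :
    F = G := by
  have h1 : (Form.of (Fin.snoc (α := fun _ => k) (coeffE k n F) 0) : Form k (n + 1)) =
      Form.of (Fin.snoc (α := fun _ => k) (coeffE k n G) 0) := by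
    apply Subtype.ext
    funext v
    rw [RA5_m1, RA5_m1, h]
  have h2 := congrArg (coeffE k (n + 1)) h1
  rw [RA5_coeff_of, RA5_coeff_of] at h2
  apply (coeffE k n).injective
  funext i
  have h3 := congrFun h2 (Fin.castSucc i)
  rwa [Fin.snoc_castSucc, Fin.snoc_castSucc] at h3

private theorem RA5_inj0 {n : ℕ} {F G : Form k n} (h : ∀ v : Fin 2 → k, v 0 * F.1 v = v 0 * G.1 v) :
    F = G := by
  have h1 : (Form.of (Fin.cons (α := fun _ => k) 0 (coeffE k n F)) : Form k (n + 1)) =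
      Form.of (Fin.cons (α := fun _ => k) 0 (coeffE k n G)) := by
    apply Subtype.ext
    funext v
    rw [RA5_m0, RA5_m0, h]
  have h2 := congrArg (coeffE k (n + 1)) h1
  rw [RA5_coeff_of, RA5_coeff_of] at h2
  apply (coeffE k n).injective
  funext i
  have h3 := congrFun h2 (Fin.succ i)
  rwa [Fin.cons_succ, Fin.cons_succ] at h3

private theorem RA5_surj1 {n : ℕ} (F : Form k (n + 1)) (h : F.1 (e0 k) = 0) :
    ∃ G : Form k n, ∀ v : Fin 2 → k, F.1 v = v 1 * G.1 v := by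
  have hc : coeffE k (n + 1) F (Fin.last (n + 1)) = 0 := by
    rw [form_eq, Fin.sum_univ_castSucc] at h
    rw [Finset.sum_eq_zero] at h
    · simpa [e0] using h
    · intro i _
      have h1 : n + 1 - (i : ℕ) ≠ 0 := by have := i.2; omega
      simp only [e0, Fin.val_castSucc]
      rw [show (![1, 0] : Fin 2 → k) 1 = 0 from rfl, zero_pow h1, mul_zero]
  refine ⟨Form.of (fun i => coeffE k (n + 1) F (Fin.castSucc i)), fun v => ?_⟩
  rw [← RA5_m1, RA5_coeff_of]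
  have : (Fin.snoc (α := fun _ => k) (fun i => coeffE k (n + 1) F (Fin.castSucc i)) 0 :
      Fin (n + 1 + 1) → k) = coeffE k (n + 1) F := by
    funext i
    refine Fin.lastCases ?_ (fun j => ?_) i
    · rw [Fin.snoc_last, hc]
    · rw [Fin.snoc_castSucc]
  rw [this, RA5_of_coeff]

private theorem RA5_surj0 {n : ℕ} (F : Form k (n + 1)) (h : F.1 (e1 k) = 0) :
    ∃ G : Form k n, ∀ v : Fin 2 → k, F.1 v = v 0 * G.1 v := by
  have hc : coeffE k (n + 1) F 0 = 0 := by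
    rw [form_eq, Fin.sum_univ_succ] at h
    rw [Finset.sum_eq_zero] at h
    · simpa [e1] using h
    · intro i _
      simp only [e1, Fin.val_succ]
      rw [show (![0, 1] : Fin 2 → k) 0 = 0 from rfl, zero_pow (Nat.succ_ne_zero _), mul_zero,
        zero_mul]
  refine ⟨Form.of (fun i => coeffE k (n + 1) F (Fin.succ i)), fun v => ?_⟩
  rw [← RA5_m0, RA5_coeff_of]
  have : (Fin.cons (α := fun _ => k) 0 (fun i => coeffE k (n + 1) F (Fin.succ i)) :
      Fin (n + 1 + 1) → k) = coeffE k (n + 1) F := by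
    funext i
    refine Fin.cases ?_ (fun j => ?_) i
    · rw [Fin.cons_zero, hc]
    · rw [Fin.cons_succ]
  rw [this, RA5_of_coeff]

/-! ### The map `h ↦ 1 / (z h)` -/

/-- `(G₀, G₁) ↦ (v₁ G₁, v₀ G₀)`. -/
noncomputable def RA5_bm {n : ℕ} (G : SM k n) : SM k (n + 1) :=
  SM.pair (Form.of (Fin.snoc (α := fun _ => k) (coeffE k n (smE k n G).2) 0))
    (Form.of (Fin.cons (α := fun _ => k) 0 (coeffE k n (smE k n G).1)))

private theorem RA5_bm0 {n : ℕ} (G : SM k n) (v : Fin 2 → k) :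
    (RA5_bm G).1 v 0 = v 1 * G.1 v 1 := RA5_m1 (smE k n G).2 v

private theorem RA5_bm1 {n : ℕ} (G : SM k n) (v : Fin 2 → k) :
    (RA5_bm G).1 v 1 = v 0 * G.1 v 0 := RA5_m0 (smE k n G).1 v

private theorem RA5_ext {n : ℕ} {F G : SM k n} (h : ∀ v i, F.1 v i = G.1 v i) : F = G := by
  apply Subtype.ext
  funext v i
  exact h v i

private theorem RA5_bm_inj {n : ℕ} {F G : SM k n} (h : RA5_bm F = RA5_bm G) : F = G := by
  have h0 : (smE k n F).1 = (smE k n G).1 := by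
    apply RA5_inj0
    intro v
    have : (RA5_bm F).1 v 1 = (RA5_bm G).1 v 1 := by rw [h]
    rwa [RA5_bm1, RA5_bm1] at this
  have h1 : (smE k n F).2 = (smE k n G).2 := by
    apply RA5_inj1
    intro v
    have : (RA5_bm F).1 v 0 = (RA5_bm G).1 v 0 := by rw [h]
    rwa [RA5_bm0, RA5_bm0] at this
  exact (smE k n).injective (Prod.ext h0 h1)

private theorem RA5_bm_smul {n : ℕ} (c : k) (G : SM k n) : RA5_bm (c • G) = c • RA5_bm G := by
  apply RA5_ext
  intro v i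
  fin_cases i
  · show (RA5_bm (c • G)).1 v 0 = c * (RA5_bm G).1 v 0
    rw [RA5_bm0, RA5_bm0]
    show v 1 * (c * G.1 v 1) = _
    ring
  · show (RA5_bm (c • G)).1 v 1 = c * (RA5_bm G).1 v 1
    rw [RA5_bm1, RA5_bm1]
    show v 0 * (c * G.1 v 0) = _
    ring

private theorem RA5_bm_zero {n : ℕ} : RA5_bm (0 : SM k n) = 0 := by
  have := RA5_bm_smul (0 : k) (0 : SM k n)
  rwa [zero_smul, zero_smul] at this

private theorem RA5_bm_ne {n : ℕ} {G : SM k n} (hG : G ≠ 0) : RA5_bm G ≠ 0 := by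
  intro h
  exact hG (RA5_bm_inj (h.trans RA5_bm_zero.symm))

private theorem RA5_bm_surj {n : ℕ} (F : SM k (n + 1)) (h0 : F.1 (e0 k) 0 = 0)
    (h1 : F.1 (e1 k) 1 = 0) : ∃ G : SM k n, RA5_bm G = F := by
  obtain ⟨P, hP⟩ := RA5_surj1 (smE k (n + 1) F).1 h0
  obtain ⟨Q, hQ⟩ := RA5_surj0 (smE k (n + 1) F).2 h1
  refine ⟨SM.pair Q P, ?_⟩
  apply RA5_ext
  intro v i
  fin_cases i
  · show (RA5_bm (SM.pair Q P)).1 v 0 = F.1 v 0
    rw [RA5_bm0]
    exact (hP v).symm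
  · show (RA5_bm (SM.pair Q P)).1 v 1 = F.1 v 1
    rw [RA5_bm1]
    exact (hQ v).symm

private theorem RA5_bm_dm {n : ℕ} : DM k (fun G : SM k n => RA5_bm G) := by
  unfold RA5_bm
  have hs : DM k (fun G : SM k n => smE k n G) := DM.smE DM.id'
  have hs1 : DM k (fun G : SM k n => coeffE k n (smE k n G).1) := DM.coeffE (DM.fst hs)
  have hs2 : DM k (fun G : SM k n => coeffE k n (smE k n G).2) := DM.coeffE (DM.snd hs)
  refine DM.sm_pair (DM.form_of (DM.pi fun i => ?_)) (DM.form_of (DM.pi fun i => ?_))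
  · refine Fin.lastCases ?_ (fun j => ?_) i
    · simp only [Fin.snoc_last]
      exact DM.const' 0
    · simp only [Fin.snoc_castSucc]
      exact DM.comp (DM.apply j) hs2
  · refine Fin.cases ?_ (fun j => ?_) i
    · simp only [Fin.cons_zero]
      exact DM.const' 0
    · simp only [Fin.cons_succ]
      exact DM.comp (DM.apply j) hs1

/-- The induced map on projective spaces. -/
noncomputable def RA5_P {n : ℕ} (p : ℙ k (SM k n)) : ℙ k (SM k (n + 1)) :=
  Projectivization.mk k (RA5_bm p.rep) (RA5_bm_ne p.rep_nonzero)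

private theorem RA5_P_mk {n : ℕ} {G : SM k n} (hG : G ≠ 0) :
    RA5_P (Projectivization.mk k G hG) = Projectivization.mk k (RA5_bm G) (RA5_bm_ne hG) := by
  unfold RA5_P
  obtain ⟨u, hu⟩ := Projectivization.exists_smul_eq_mk_rep k G hG
  rw [Projectivization.mk_eq_mk_iff]
  refine ⟨u, ?_⟩
  rw [← hu]
  exact (RA5_bm_smul (u : k) G).symm

private theorem RA5_P_dm {n : ℕ} : DM k (fun p : ℙ k (SM k n) => RA5_P p) := by
  refine DM.of_graph (R := fun (p : ℙ k (SM k n)) q => ∃ v : SM k n, MRat.isrep v p ∧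
    MRat.isrep (RA5_bm v) q) ?_ ?_
  · refine DM.ex (DM.and (DM.isrep (by fun_prop) (by fun_prop))
      (DM.isrep (DM.comp RA5_bm_dm (by fun_prop)) (by fun_prop)))
  · intro p q
    constructor
    · rintro ⟨v, ⟨hv, hp⟩, ⟨hw, hq⟩⟩
      rw [← hp, ← hq, RA5_P_mk]
    · rintro rfl
      induction p using Projectivization.ind with
      | h v hv => exact ⟨v, ⟨hv, rfl⟩, RA5_bm_ne hv, (RA5_P_mk hv).symm⟩

private theorem RA5_P_inj {n : ℕ} : Function.Injective (RA5_P (k := k) (n := n)) := by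
  intro p q h
  induction p using Projectivization.ind with
  | h v hv =>
    induction q using Projectivization.ind with
    | h w hw =>
      rw [RA5_P_mk, RA5_P_mk, Projectivization.mk_eq_mk_iff] at h
      obtain ⟨u, hu⟩ := h
      rw [Projectivization.mk_eq_mk_iff]
      refine ⟨u, ?_⟩
      apply RA5_bm_inj
      rw [← hu]
      exact RA5_bm_smul (u : k) w

/-! ### Membership -/

private theorem RA5_mem_As {n : ℕ} {G : SM k n} (hG : G ≠ 0) :
    Projectivization.mk k G hG ∈ As k n ↔ (∀ v : Fin 2 → k, v ≠ 0 → G.1 v ≠ 0) ∧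
      G.1 (e0 k) 0 ≠ 0 ∧ G.1 (e1 k) 1 ≠ 0 := by
  show _ ∈ RatP k n ∧ _ ↔ _
  rw [mem_RatP, rep_ne_iff, rep_ne_iff]

private theorem RA5_rep_eq {m : ℕ} {F : SM k m} (hF : F ≠ 0) (v : Fin 2 → k) (i : Fin 2) :
    (Projectivization.mk k F hF).rep.1 v i = 0 ↔ F.1 v i = 0 :=
  not_iff_not.1 (rep_ne_iff hF v i)

private theorem RA5_mem_Bs {n : ℕ} {G : SM k n} (hG : G ≠ 0) :
    Projectivization.mk k G hG ∈ Bs k n ↔ (∀ v : Fin 2 → k, v ≠ 0 → G.1 v ≠ 0) ∧
      G.1 (e0 k) 0 = 0 ∧ G.1 (e1 k) 1 = 0 := by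
  show _ ∈ RatP k n ∧ _ ↔ _
  rw [mem_RatP, RA5_rep_eq, RA5_rep_eq]

private theorem RA5_mem_Ms {n : ℕ} {G : SM k n} (hG : G ≠ 0) :
    Projectivization.mk k G hG ∈ Ms k n ↔ (∀ v : Fin 2 → k, v ≠ 0 → G.1 v ≠ 0) ∧
      G.1 (e0 k) 0 ≠ 0 ∧ G.1 (e1 k) 1 = 0 := by
  show _ ∈ RatP k n ∧ _ ↔ _
  rw [mem_RatP, rep_ne_iff, RA5_rep_eq]

private theorem RA5_mem_Ms' {n : ℕ} {G : SM k n} (hG : G ≠ 0) :
    Projectivization.mk k G hG ∈ Ms' k n ↔ (∀ v : Fin 2 → k, v ≠ 0 → G.1 v ≠ 0) ∧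
      G.1 (e0 k) 0 = 0 ∧ G.1 (e1 k) 1 ≠ 0 := by
  show _ ∈ RatP k n ∧ _ ↔ _
  rw [mem_RatP, rep_ne_iff, RA5_rep_eq]

private theorem RA5_ne_iff (u : Fin 2 → k) : u ≠ 0 ↔ (u 0 ≠ 0 ∨ u 1 ≠ 0) := by
  rw [← not_iff_not]
  push Not
  constructor
  · rintro rfl
    exact ⟨rfl, rfl⟩
  · rintro ⟨h0, h1⟩
    funext i
    fin_cases i
    · exact h0
    · exact h1

/-- The map preserves the nondegeneracy conditions. -/
private theorem RA5_P_mem {n : ℕ} {G : SM k n} (hG : G ≠ 0) :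
    Projectivization.mk k G hG ∈ As k n ↔
      Projectivization.mk k (RA5_bm G) (RA5_bm_ne hG) ∈ Bs k (n + 1) := by
  rw [RA5_mem_As, RA5_mem_Bs]
  have c0 : (RA5_bm G).1 (e0 k) 0 = 0 := by
    rw [RA5_bm0]
    simp [e0]
  have c1 : (RA5_bm G).1 (e1 k) 1 = 0 := by
    rw [RA5_bm1]
    simp [e1]
  constructor
  · rintro ⟨h, h0, h1⟩
    refine ⟨fun v hv => ?_, c0, c1⟩
    rw [RA5_ne_iff, RA5_bm0, RA5_bm1]
    by_contra hcon
    push Not at hcon
    obtain ⟨ha, hb⟩ := hcon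
    by_cases hv0 : v 0 = 0
    · -- `v` is a multiple of `e1`
      have hv1 : v 1 ≠ 0 := by
        rcases (RA5_ne_iff v).1 hv with h' | h'
        · exact absurd hv0 h'
        · exact h'
      have hve : v = v 1 • e1 k := by
        funext i
        fin_cases i
        · simp [e1, hv0]
        · simp [e1]
      have hG1 : G.1 v 1 = 0 := (mul_eq_zero.1 ha).resolve_left hv1
      rw [hve, sm_smul] at hG1
      rcases mul_eq_zero.1 (show v 1 ^ n * G.1 (e1 k) 1 = 0 from hG1) with h' | h'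
      · exact pow_ne_zero n hv1 h'
      · exact h1 h'
    · by_cases hv1 : v 1 = 0
      · have hve : v = v 0 • e0 k := by
          funext i
          fin_cases i
          · simp [e0]
          · simp [e0, hv1]
        have hG0 : G.1 v 0 = 0 := (mul_eq_zero.1 hb).resolve_left hv0
        rw [hve, sm_smul] at hG0
        rcases mul_eq_zero.1 (show v 0 ^ n * G.1 (e0 k) 0 = 0 from hG0) with h' | h'
        · exact pow_ne_zero n hv0 h'
        · exact h0 h'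
      · have hG1 : G.1 v 1 = 0 := (mul_eq_zero.1 ha).resolve_left hv1
        have hG0 : G.1 v 0 = 0 := (mul_eq_zero.1 hb).resolve_left hv0
        have := h v hv
        rw [RA5_ne_iff] at this
        rcases this with h' | h'
        · exact h' hG0
        · exact h' hG1
  · rintro ⟨h, -, -⟩
    have he0 : e0 k ≠ 0 := by
      rw [RA5_ne_iff]
      left
      simp [e0]
    have he1 : e1 k ≠ 0 := by
      rw [RA5_ne_iff]
      right
      simp [e1]
    refine ⟨fun v hv h' => ?_, ?_, ?_⟩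
    · apply h v hv
      by_contra hcon
      rw [← ne_eq, RA5_ne_iff, RA5_bm0, RA5_bm1, h'] at hcon
      simp at hcon
    · have h2 := h _ he0
      rw [RA5_ne_iff, c0, RA5_bm1] at h2
      rcases h2 with h2 | h2
      · exact absurd rfl h2
      · exact right_ne_zero_of_mul h2
    · have h2 := h _ he1
      rw [RA5_ne_iff, c1, RA5_bm0] at h2
      rcases h2 with h2 | h2
      · exact right_ne_zero_of_mul h2
      · exact absurd rfl h2

/-! ### Equivariance -/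

private theorem RA5_dg_smul (a b : kˣ) (v : Fin 2 → k) :
    dg a b • v = ![(a : k) * v 0, (b : k) * v 1] := by
  show (!![(a : k), 0; 0, (b : k)] : Matrix (Fin 2) (Fin 2) k).mulVec v = _
  funext i
  fin_cases i <;> simp [Matrix.mulVec, dotProduct, Fin.sum_univ_two]

private theorem RA5_sw_smul (v : Fin 2 → k) : sw k • v = ![v 1, v 0] := by
  show (!![(0 : k), 1; 1, 0] : Matrix (Fin 2) (Fin 2) k).mulVec v = _
  funext i
  fin_cases i <;> simp [Matrix.mulVec, dotProduct, Fin.sum_univ_two]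

private theorem RA5_dg_inv_smul (a b : kˣ) (v : Fin 2 → k) :
    (dg a b)⁻¹ • v = ![((a⁻¹ : kˣ) : k) * v 0, ((b⁻¹ : kˣ) : k) * v 1] := by
  rw [inv_smul_eq_iff, RA5_dg_smul]
  funext i
  fin_cases i <;> simp

private theorem RA5_sw_inv_smul (v : Fin 2 → k) : (sw k)⁻¹ • v = ![v 1, v 0] := by
  rw [inv_smul_eq_iff, RA5_sw_smul]
  funext i
  fin_cases i <;> simp

private theorem RA5_two_apply {m : ℕ} (a b : GL (Fin 2) k) (F : SM k m) (v : Fin 2 → k) :
    (SM.two a b F).1 v = a • F.1 (b⁻¹ • v) := rfl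

private theorem RA5_P_t {n : ℕ} (t : kˣ) (a : ℤ) (p : ℙ k (SM k n)) :
    RA5_P (ptwo (dg (t ^ (-a - 1)) 1) (dg t 1) p) = ptwo (dg (t ^ a) 1) (dg t 1) (RA5_P p) := by
  induction p using Projectivization.ind with
  | h G hG =>
    rw [ptwo_mk, RA5_P_mk, RA5_P_mk, ptwo_mk, Projectivization.mk_eq_mk_iff]
    refine ⟨t ^ (-a), ?_⟩
    apply RA5_ext
    intro v i
    have e1 : ((t ^ (-a) : kˣ) : k) * ((t ^ a : kˣ) : k) = 1 := by
      rw [← Units.val_mul, ← zpow_add, neg_add_cancel, zpow_zero, Units.val_one]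
    have e2 : ((t ^ (-a) : kˣ) : k) * ((t⁻¹ : kˣ) : k) = ((t ^ (-a - 1) : kˣ) : k) := by
      rw [← Units.val_mul, ← zpow_sub_one]
    have e3 : ((dg t 1)⁻¹ • v) 0 = ((t⁻¹ : kˣ) : k) * v 0 := by
      rw [RA5_dg_inv_smul]
      rfl
    have e4 : ((dg t 1)⁻¹ • v) 1 = v 1 := by
      rw [RA5_dg_inv_smul]
      simp
    have l0 : ∀ (b : kˣ) (m : ℕ) (F : SM k m), (SM.two (dg b 1) (dg t 1) F).1 v 0 =
        (b : k) * F.1 ((dg t 1)⁻¹ • v) 0 := by
      intro b m F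
      rw [RA5_two_apply, RA5_dg_smul]
      rfl
    have l1 : ∀ (b : kˣ) (m : ℕ) (F : SM k m), (SM.two (dg b 1) (dg t 1) F).1 v 1 =
        F.1 ((dg t 1)⁻¹ • v) 1 := by
      intro b m F
      rw [RA5_two_apply, RA5_dg_smul]
      simp
    fin_cases i
    · show ((t ^ (-a) : kˣ) : k) * (SM.two (dg (t ^ a) 1) (dg t 1) (RA5_bm G)).1 v 0 =
        (RA5_bm (SM.two (dg (t ^ (-a - 1)) 1) (dg t 1) G)).1 v 0
      rw [l0, RA5_bm0 (SM.two (dg (t ^ (-a - 1)) 1) (dg t 1) G) v, l1, RA5_bm0, ← mul_assoc, e1,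
        one_mul, e4]
    · show ((t ^ (-a) : kˣ) : k) * (SM.two (dg (t ^ a) 1) (dg t 1) (RA5_bm G)).1 v 1 =
        (RA5_bm (SM.two (dg (t ^ (-a - 1)) 1) (dg t 1) G)).1 v 1
      rw [l1, RA5_bm1 (SM.two (dg (t ^ (-a - 1)) 1) (dg t 1) G) v, l0, RA5_bm1, ← e2, e3]
      ring

private theorem RA5_P_w {n : ℕ} (p : ℙ k (SM k n)) :
    RA5_P (ptwo (sw k) (sw k) p) = ptwo (sw k) (sw k) (RA5_P p) := by
  induction p using Projectivization.ind with
  | h G hG =>
    rw [ptwo_mk, RA5_P_mk, RA5_P_mk, ptwo_mk, Projectivization.mk_eq_mk_iff]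
    refine ⟨1, ?_⟩
    rw [one_smul]
    apply RA5_ext
    intro v i
    have e3 : ((sw k)⁻¹ • v) 0 = v 1 := by
      rw [RA5_sw_inv_smul]
      rfl
    have e4 : ((sw k)⁻¹ • v) 1 = v 0 := by
      rw [RA5_sw_inv_smul]
      rfl
    have l0 : ∀ (m : ℕ) (F : SM k m), (SM.two (sw k) (sw k) F).1 v 0 =
        F.1 ((sw k)⁻¹ • v) 1 := by
      intro m F
      rw [RA5_two_apply, RA5_sw_smul]
      rfl
    have l1 : ∀ (m : ℕ) (F : SM k m), (SM.two (sw k) (sw k) F).1 v 1 =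
        F.1 ((sw k)⁻¹ • v) 0 := by
      intro m F
      rw [RA5_two_apply, RA5_sw_smul]
      rfl
    fin_cases i
    · show (SM.two (sw k) (sw k) (RA5_bm G)).1 v 0 = (RA5_bm (SM.two (sw k) (sw k) G)).1 v 0
      rw [l0, RA5_bm0 (SM.two (sw k) (sw k) G) v, l1, RA5_bm1, e3]
    · show (SM.two (sw k) (sw k) (RA5_bm G)).1 v 1 = (RA5_bm (SM.two (sw k) (sw k) G)).1 v 1
      rw [l1, RA5_bm1 (SM.two (sw k) (sw k) G) v, l0, RA5_bm0, e4]

/-- R4: `h ↦ 1 / (z h)`. -/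
theorem B_iso {A : NA k Y} {s : Set Y} (hs : A.St s) (m l : ℕ) (a : ℤ) (hm : 1 ≤ m) :
    ncl (A.prod ((RA k m a).pull l)) (s ×ˢ Bs k m) =
      ncl (A.prod ((RA k (m - 1) (-a - 1)).pull l)) (s ×ˢ As k (m - 1)) ∧
    tcl (A.prod ((RA k m a).pull l)).toTA (s ×ˢ Bs k m) =
      tcl (A.prod ((RA k (m - 1) (-a - 1)).pull l)).toTA (s ×ˢ As k (m - 1)) ∧
    (NGood 1 (A.prod ((RA k (m - 1) (-a - 1)).pull l)) (s ×ˢ As k (m - 1)) →
      NGood 1 (A.prod ((RA k m a).pull l)) (s ×ˢ Bs k m)) := by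
  obtain ⟨n, rfl⟩ : ∃ n, m = n + 1 := ⟨m - 1, by omega⟩
  show ncl (A.prod ((RA k (n + 1) a).pull l)) (s ×ˢ Bs k (n + 1)) =
      ncl (A.prod ((RA k n (-a - 1)).pull l)) (s ×ˢ As k n) ∧
    tcl (A.prod ((RA k (n + 1) a).pull l)).toTA (s ×ˢ Bs k (n + 1)) =
      tcl (A.prod ((RA k n (-a - 1)).pull l)).toTA (s ×ˢ As k n) ∧
    (NGood 1 (A.prod ((RA k n (-a - 1)).pull l)) (s ×ˢ As k n) →
      NGood 1 (A.prod ((RA k (n + 1) a).pull l)) (s ×ˢ Bs k (n + 1)))
  have h1 : (A.prod ((RA k n (-a - 1)).pull l)).St (s ×ˢ As k n) :=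
    hs.prod _ ((As_st n (-a - 1)).pull l)
  have h2 : (A.prod ((RA k (n + 1) a).pull l)).St (s ×ˢ Bs k (n + 1)) :=
    hs.prod _ ((Bs_st (n + 1) a).pull l)
  have hf : DM k (fun p : Y × ℙ k (SM k n) => (p.1, RA5_P p.2)) :=
    DM.mk (by fun_prop) (DM.comp RA5_P_dm (by fun_prop))
  have bij : Set.BijOn (fun p : Y × ℙ k (SM k n) => (p.1, RA5_P p.2)) (s ×ˢ As k n)
      (s ×ˢ Bs k (n + 1)) := by
    refine ⟨?_, ?_, ?_⟩
    · rintro ⟨y, p⟩ ⟨hy, hp⟩
      refine ⟨hy, ?_⟩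
      dsimp only at hp ⊢
      induction p using Projectivization.ind with
      | h G hG =>
        rw [RA5_P_mk]
        exact (RA5_P_mem hG).1 hp
    · rintro ⟨y, p⟩ - ⟨y', p'⟩ - h
      dsimp only at h
      rw [Prod.mk.injEq] at h
      rw [h.1, RA5_P_inj h.2]
    · rintro ⟨y, q⟩ ⟨hy, hq⟩
      dsimp only at hy hq
      induction q using Projectivization.ind with
      | h F hF =>
        obtain ⟨h, h0, h1⟩ := (RA5_mem_Bs hF).1 hq
        obtain ⟨G, rfl⟩ := RA5_bm_surj F h0 h1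
        have hG : G ≠ 0 := by
          rintro rfl
          exact hF RA5_bm_zero
        exact ⟨(y, Projectivization.mk k G hG), ⟨hy, (RA5_P_mem hG).2 hq⟩, by
          show (y, RA5_P (Projectivization.mk k G hG)) = _
          rw [RA5_P_mk]⟩
  have ft : ∀ c, ∀ y ∈ s ×ˢ As k n, (fun p : Y × ℙ k (SM k n) => (p.1, RA5_P p.2))
      ((A.prod ((RA k n (-a - 1)).pull l)).t c y) =
      (A.prod ((RA k (n + 1) a).pull l)).t c ((fun p : Y × ℙ k (SM k n) => (p.1, RA5_P p.2)) y) := by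
    rintro c ⟨y, p⟩ -
    show (A.t c y, RA5_P (ptwo (dg ((c ^ l) ^ (-a - 1)) 1) (dg (c ^ l) 1) p)) =
      (A.t c y, ptwo (dg ((c ^ l) ^ a) 1) (dg (c ^ l) 1) (RA5_P p))
    rw [RA5_P_t]
  have fw : ∀ y ∈ s ×ˢ As k n, (fun p : Y × ℙ k (SM k n) => (p.1, RA5_P p.2))
      ((A.prod ((RA k n (-a - 1)).pull l)).w y) =
      (A.prod ((RA k (n + 1) a).pull l)).w ((fun p : Y × ℙ k (SM k n) => (p.1, RA5_P p.2)) y) := by
    rintro ⟨y, p⟩ -
    show (A.w y, RA5_P (ptwo (sw k) (sw k) p)) = (A.w y, ptwo (sw k) (sw k) (RA5_P p))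
    rw [RA5_P_w]
  exact ⟨(ncl_congr h1 h2 _ hf bij ft fw).symm,
    (tcl_congr h1.toSt h2.toSt _ hf bij ft).symm,
    fun hg => NGood.congr hg h2 _ hf bij ft fw⟩

theorem B_iso0 (m l : ℕ) (a : ℤ) (hm : 1 ≤ m) :
    ncl ((RA k m a).pull l) (Bs k m) = ncl ((RA k (m - 1) (-a - 1)).pull l) (As k (m - 1)) ∧
    tcl ((RA k m a).pull l).toTA (Bs k m) =
      tcl ((RA k (m - 1) (-a - 1)).pull l).toTA (As k (m - 1)) ∧
    (NGood 1 ((RA k (m - 1) (-a - 1)).pull l) (As k (m - 1)) →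
      NGood 1 ((RA k m a).pull l) (Bs k m)) := by
  obtain ⟨h1, h2, h3⟩ := B_iso (NA.St.univ (NA.triv k)) m l a hm
  obtain ⟨a1, a2, a3⟩ := triv_prod ((Bs_st (k := k) m a).pull l)
  obtain ⟨b1, b2, b3⟩ := triv_prod ((As_st (k := k) (m - 1) (-a - 1)).pull l)
  refine ⟨?_, ?_, fun h => ?_⟩
  · rw [← a1, h1, b1]
  · rw [← a2, h2, b2]
  · exact (a3 1).1 (h3 ((b3 1).2 h))

/-- `Rat_0 = P¹`. -/
theorem B_zero : Bs k 0 = ∅ := by
  ext p
  simp only [Set.mem_empty_iff_false, iff_false]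
  intro hp
  induction p using Projectivization.ind with
  | h F hF =>
    obtain ⟨-, h0, h1⟩ := (RA5_mem_Bs hF).1 hp
    apply hF
    have key : ∀ G : Form k 0, ∀ v w : Fin 2 → k, G.1 v = G.1 w := by
      intro G v w
      rw [form_eq, form_eq]
      simp
    apply RA5_ext
    intro v i
    fin_cases i
    · exact (key (smE k 0 F).1 v (e0 k)).trans h0
    · exact (key (smE k 0 F).2 v (e1 k)).trans h1

/-! ### The induced part -/

private theorem RA5_e0_ne : e0 k ≠ 0 := by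
  rw [RA5_ne_iff]
  left
  simp [e0]

private theorem RA5_w_mem {m : ℕ} (a : ℤ) (p : ℙ k (SM k m)) :
    p ∈ Ms' k m ↔ (RA k m a).w p ∈ Ms k m := by
  have hst := RatP_st (k := k) m a
  have hrat : p ∈ RatP k m ↔ (RA k m a).w p ∈ RatP k m := by
    constructor
    · exact hst.w_mem p
    · intro h
      have := hst.w_mem _ h
      rwa [(RA k m a).w_w] at this
  induction p using Projectivization.ind with
  | h F hF =>
    have hw : (RA k m a).w (Projectivization.mk k F hF) =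
        Projectivization.mk k (SM.two (sw k) (sw k) F) (SM.two_ne _ _ hF) := by
      show ptwo (sw k) (sw k) (Projectivization.mk k F hF) = _
      rw [ptwo_mk]
    rw [hw] at hrat ⊢
    have e1' : (SM.two (sw k) (sw k) F).1 (e0 k) 0 = F.1 (e1 k) 1 := by
      rw [RA5_two_apply, RA5_sw_smul, RA5_sw_inv_smul]
      rfl
    have e2' : (SM.two (sw k) (sw k) F).1 (e1 k) 1 = F.1 (e0 k) 0 := by
      rw [RA5_two_apply, RA5_sw_smul, RA5_sw_inv_smul]
      rfl
    rw [RA5_mem_Ms', RA5_mem_Ms, e1', e2', ← mem_RatP hF, ← mem_RatP (SM.two_ne _ _ hF), hrat]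
    constructor
    · rintro ⟨x, y, z⟩
      exact ⟨x, z, y⟩
    · rintro ⟨x, y, z⟩
      exact ⟨x, z, y⟩

private theorem RA5_disj {m : ℕ} (p : ℙ k (SM k m)) (h : p ∈ Ms k m) : p ∉ Ms' k m :=
  fun h' => h.2.1 h'.2.1

private theorem RA5_M'_st {m : ℕ} (a : ℤ) : (RA k m a).toTA.St (Ms' k m) := by
  have hM := Ms_st (k := k) m a
  refine ⟨?_, ?_⟩
  · refine DM.congr_iff (P := fun p => (RA k m a).w p ∈ Ms k m) ?_
      (fun p => (RA5_w_mem a p).symm)
    exact DM.comp hM.ds (RA k m a).dw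
  · intro c y hy
    rw [RA5_w_mem a] at hy ⊢
    rw [(RA k m a).w_t]
    exact hM.t_mem _ _ hy

private theorem RA5_MM_st {m : ℕ} (a : ℤ) : (RA k m a).St (Ms k m ∪ Ms' k m) := by
  refine ⟨(Ms_st (k := k) m a).union (RA5_M'_st a), ?_⟩
  rintro y (hy | hy)
  · right
    rw [RA5_w_mem a, (RA k m a).w_w]
    exact hy
  · left
    exact (RA5_w_mem a y).1 hy

/-- The union of `Ms` and `Ms'` is induced. -/
theorem MM'_good {A : NA k Y} {s : Set Y} (h : A.St s) (fin : A.toTA.Fin s) (m l : ℕ) (a : ℤ)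
    (hl : 1 ≤ l) :
    NGood 1 (A.prod ((RA k m a).pull l)) (s ×ˢ (Ms k m ∪ Ms' k m)) := by
  have hst : (A.prod ((RA k m a).pull l)).St (s ×ˢ (Ms k m ∪ Ms' k m)) :=
    h.prod _ ((RA5_MM_st a).pull l)
  have hM : ((RA k m a).pull l).toTA.St (Ms k m) :=
    ⟨(Ms_st (k := k) m a).ds, fun c y hy => (Ms_st (k := k) m a).t_mem _ _ hy⟩
  have h0 : (A.prod ((RA k m a).pull l)).toTA.St (s ×ˢ Ms k m) := h.toSt.prod _ hM
  refine good_induced hst h0 ?_ ?_ ?_
  · rintro ⟨y, p⟩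
    constructor
    · rintro ⟨hy, hp | hp⟩
      · exact Or.inl ⟨hy, hp⟩
      · exact Or.inr ⟨h.w_mem y hy, (RA5_w_mem a p).1 hp⟩
    · rintro (⟨hy, hp⟩ | ⟨hy, hp⟩)
      · exact ⟨hy, Or.inl hp⟩
      · refine ⟨?_, Or.inr ((RA5_w_mem a p).2 hp)⟩
        have := h.w_mem _ hy
        have h2 : A.w (A.w y) ∈ s := this
        rwa [A.w_w] at h2
  · rintro ⟨y, p⟩ ⟨hy, hp⟩ ⟨-, hp'⟩
    exact RA5_disj p hp ((RA5_w_mem a p).2 hp')
  · rintro ⟨y, p⟩ ⟨hy, -⟩
    refine (fin y hy).subset ?_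
    intro c hc
    exact congrArg Prod.fst (show (A.t c y, _) = (y, p) from hc)

/-! ### Totals -/

private theorem RA5_cover (d : ℕ) : RatP k d = (As k d ∪ Bs k d) ∪ (Ms k d ∪ Ms' k d) := by
  ext p
  constructor
  · intro hp
    by_cases h0 : p.rep.1 (e0 k) 0 = 0 <;> by_cases h1 : p.rep.1 (e1 k) 1 = 0
    · exact Or.inl (Or.inr ⟨hp, h0, h1⟩)
    · exact Or.inr (Or.inr ⟨hp, h0, h1⟩)
    · exact Or.inr (Or.inl ⟨hp, h0, h1⟩)
    · exact Or.inl (Or.inl ⟨hp, h0, h1⟩)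
  · rintro ((h | h) | (h | h)) <;> exact h.1

private theorem RA5_disj1 (d : ℕ) : Disjoint (As k d) (Bs k d) :=
  Set.disjoint_left.2 fun _ h h' => h.2.1 h'.2.1

private theorem RA5_disj2 (d : ℕ) : Disjoint (As k d ∪ Bs k d) (Ms k d ∪ Ms' k d) := by
  refine Set.disjoint_left.2 ?_
  rintro p (h | h) (h' | h')
  · exact h.2.2 h'.2.2
  · exact h.2.1 h'.2.1
  · exact h'.2.1 h.2.1
  · exact h'.2.2 h.2.2

private theorem RA5_unpull {A : NA k Y} {m : ℕ} {s : Set Y} (hs : A.St s) :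
    (NGood m (A.pull 1) s → NGood m A s) ∧ ncl (A.pull 1) s = ncl A s ∧
      tcl (A.pull 1).toTA s = tcl A.toTA s := by
  have hst : (A.pull 1).St s := hs.pull 1
  have bij : Set.BijOn (fun y : Y => y) s s := Set.bijOn_id s
  have ft : ∀ c, ∀ y ∈ s, (fun y : Y => y) ((A.pull 1).t c y) = A.t c ((fun y : Y => y) y) := by
    intro c y _
    show A.t (c ^ 1) y = A.t c y
    rw [pow_one]
  have fw : ∀ y ∈ s, (fun y : Y => y) ((A.pull 1).w y) = A.w ((fun y : Y => y) y) :=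
    fun y _ => rfl
  exact ⟨fun h => NGood.congr h hs _ (by fun_prop) bij ft fw,
    ncl_congr hst hs _ (by fun_prop) bij ft fw,
    tcl_congr hst.toSt hs.toSt _ (by fun_prop) bij ft⟩

private theorem RA5_unpull_prod {A : NA k Y} {B : NA k Z} {m : ℕ} {s : Set Y} {t : Set Z}
    (hs : A.St s) (ht : B.St t) (h : NGood m (A.prod (B.pull 1)) (s ×ˢ t)) :
    NGood m (A.prod B) (s ×ˢ t) := by
  have hst : (A.prod B).St (s ×ˢ t) := hs.prod _ ht
  refine NGood.congr h hst (fun y => y) (by fun_prop) (Set.bijOn_id _) ?_ ?_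
  · rintro c ⟨y, z⟩ -
    show (A.t c y, B.t (c ^ 1) z) = (A.t c y, B.t c z)
    rw [pow_one]
  · rintro ⟨y, z⟩ -
    rfl

/-- R5, products. -/
theorem rat_prod_good {A : NA k Y} {s : Set Y} (h : NGood 1 A s) (d : ℕ) :
    NGood 1 (A.prod (RA k d 1)) (s ×ˢ RatP k d) := by
  have hA : NGood 1 (A.prod (RA k d 1)) (s ×ˢ As k d) :=
    RA5_unpull_prod h.st (As_st d 1) (A_good h d 1 1 le_rfl).1
  have hB : NGood 1 (A.prod (RA k d 1)) (s ×ˢ Bs k d) := by
    rcases Nat.eq_zero_or_pos d with rfl | hd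
    · rw [B_zero, Set.prod_empty]
      exact NGood.empty _ _
    · exact RA5_unpull_prod h.st (Bs_st d 1)
        ((B_iso h.st d 1 1 hd).2.2 (A_good h (d - 1) 1 (-1 - 1) le_rfl).1)
  have hM : NGood 1 (A.prod (RA k d 1)) (s ×ˢ (Ms k d ∪ Ms' k d)) :=
    RA5_unpull_prod h.st (RA5_MM_st 1) (MM'_good h.st h.fin d 1 1 le_rfl)
  rw [RA5_cover, Set.prod_union, Set.prod_union]
  refine NGood.union (NGood.union hA hB ?_) hM ?_
  · exact Set.Disjoint.set_prod_right (RA5_disj1 d) s s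
  · rw [← Set.prod_union]
    exact Set.Disjoint.set_prod_right (RA5_disj2 d) s s

/-- R5: the action of `N` by conjugation on `Rat_d`. -/
theorem rat_N (d : ℕ) (hd : 2 ≤ d) :
    NGood 1 (RA k d 1) (RatP k d) ∧
    ncl (RA k d 1) (RatP k d) = (L ^ (2 * d)) • pt k ∧
    tcl (RA k d 1).toTA (RatP k d) = (L ^ (2 * d) + L ^ (2 * d - 1)) • pt k := by
  have hA := A_good0 (k := k) d 1 1 le_rfl (by
    intro h
    have : (2 : ℤ) ≤ d := by exact_mod_cast hd
    omega)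
  have hB' := A_good0 (k := k) (d - 1) 1 (-1 - 1) le_rfl (by
    intro h
    have : (0 : ℤ) ≤ ((d - 1 : ℕ) : ℤ) := Int.natCast_nonneg _
    omega)
  have hB := B_iso0 (k := k) d 1 1 (by omega)
  have uA := RA5_unpull (m := 1) (As_st (k := k) d 1)
  have uB := RA5_unpull (m := 1) (Bs_st (k := k) d 1)
  have gA := uA.1 hA.1
  have nA := uA.2.1.symm.trans hA.2.1
  have tA := uA.2.2.symm.trans hA.2.2
  have gB := uB.1 (hB.2.2 hB'.1)
  have nB := (uB.2.1.symm.trans hB.1).trans hB'.2.1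
  have tB := (uB.2.2.symm.trans hB.2.1).trans hB'.2.2
  have hMst := RA5_MM_st (k := k) (m := d) 1
  have h0 := Ms_st (k := k) d 1
  have hs : ∀ y, y ∈ Ms k d ∪ Ms' k d ↔ (y ∈ Ms k d ∨ (RA k d 1).w y ∈ Ms k d) := fun y =>
    or_congr Iff.rfl (RA5_w_mem 1 y)
  have hdj : ∀ y ∈ Ms k d, (RA k d 1).w y ∉ Ms k d := fun y hy h' =>
    RA5_disj y hy ((RA5_w_mem 1 y).2 h')
  have hfin : (RA k d 1).toTA.Fin (Ms k d ∪ Ms' k d) := by
    have hF := M_fin (k := k) d 1 (by omega)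
    rintro y (hy | hy)
    · exact hF y hy
    · have h1 := hF _ ((RA5_w_mem 1 y).1 hy)
      have h2 : {c : kˣ | (RA k d 1).t c y = y} ⊆
          (fun c : kˣ => c⁻¹) '' {c : kˣ | (RA k d 1).t c ((RA k d 1).w y) = (RA k d 1).w y} := by
        intro c hc
        refine ⟨c⁻¹, ?_, inv_inv c⟩
        show (RA k d 1).t c⁻¹ ((RA k d 1).w y) = (RA k d 1).w y
        rw [← (RA k d 1).w_t]
        exact congrArg _ hc
      exact (h1.image _).subset h2
  have gM := good_induced hMst h0 hs hdj hfin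
  obtain ⟨nM, tM⟩ := n_induced hMst h0 hs hdj
  have cM := M_class (k := k) d 1 (by omega)
  rw [cM] at nM tM
  have hAB := gA.st.union gB.st
  refine ⟨?_, ?_, ?_⟩
  · rw [RA5_cover]
    exact NGood.union (NGood.union gA gB (RA5_disj1 d)) gM (RA5_disj2 d)
  · rw [RA5_cover, ncl_union hAB hMst (RA5_disj2 d), ncl_union gA.st gB.st (RA5_disj1 d), nA, nB,
      nM, ← add_smul, ← add_smul, nu_total d (by omega)]
  · rw [RA5_cover, tcl_union hAB.toSt hMst.toSt (RA5_disj2 d),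
      tcl_union gA.st.toSt gB.st.toSt (RA5_disj1 d), tA, tB, tM, smul_smul, ← add_smul,
      ← add_smul, th_total d (by omega)]

end Pool.Agent.MRat
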