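import Pool.Agent.Lib.MP_923aff_ag.R5
/-!
# JOB RA6: fixed loci of `μ_l` on `Rat_d`

`Rat_d^(μ_l) = {h : ζ h(ζ⁻¹ z) = h for ζ ∈ μ_l} = {z h₀(z^l)}`: with `h₀ ∈ As m` (`d = l m + 1`), `h₀ ∈ Bs m`
(`d = l m - 1`), `h₀ ∈ Ms m ∪ Ms' m` (`d = l m`). As an `N`-space this is the pull back under `t ↦ t^l` of
`Rat_m` with `a = 0`.
-/

set_option autoImplicit false
set_option linter.unusedSectionVars false

namespace Pool.Agent.MRat

open scoped MatrixGroups LinearAlgebra.Projectivization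

variable {k : Type} [Field k] [IsAlgClosed k] [CharZero k]
variable {X Y Z : Type} [DT k X] [DT k Y] [DT k Z]

/-! ### Correspondences -/

/-- Transport of goodness along an equivariant definable bijective correspondence. -/
private theorem RA6_corr {m : ℕ} {A : NA k Y} {B : NA k Z} {s : Set Y} {s' : Set Z}
    (hg : NGood m A s) (h' : B.St s') (F : Y → Z → Prop)
    (hF : DM k (fun p : Y × Z => F p.1 p.2))
    (left : ∀ y ∈ s, ∃! z, z ∈ s' ∧ F y z) (right : ∀ z ∈ s', ∃! y, y ∈ s ∧ F y z)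
    (ft : ∀ c, ∀ y ∈ s, ∀ z ∈ s', F y z → F (A.t c y) (B.t c z))
    (fw : ∀ y ∈ s, ∀ z ∈ s', F y z → F (A.w y) (B.w z)) : NGood m B s' := by
  rcases isEmpty_or_nonempty Z with hZ | hZ
  · have h0 : s' = ∅ := Set.eq_empty_of_isEmpty s'
    rw [h0]
    exact NGood.empty m B
  obtain ⟨f, hf, hff⟩ := DM.choice (k := k) hg.st.ds (R := fun y z => z ∈ s' ∧ F y z) (by
    have h1 : DM k (fun p : Y × Z => p.1 ∈ s) := DM.comp hg.st.ds (by fun_prop)
    have h2 : DM k (fun p : Y × Z => p.2 ∈ s') := DM.comp h'.ds (by fun_prop)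
    exact h1.and (h2.and hF)) left
  refine NGood.congr hg h' f hf ⟨fun y hy => (hff y hy).1, ?_, ?_⟩ ?_ ?_
  · intro y hy y' hy' heq
    obtain ⟨y0, _, h0⟩ := right (f y) (hff y hy).1
    rw [h0 y ⟨hy, (hff y hy).2⟩, h0 y' ⟨hy', by rw [heq]; exact (hff y' hy').2⟩]
  · intro z hz
    obtain ⟨y, ⟨hy, hyz⟩, _⟩ := right z hz
    exact ⟨y, hy, (left y hy).unique (hff y hy) ⟨hz, hyz⟩⟩
  · intro c y hy
    have h1 := hff y hy
    exact (left _ (hg.st.t_mem c y hy)).unique (hff _ (hg.st.t_mem c y hy))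
      ⟨h'.t_mem c _ h1.1, ft c y hy _ h1.1 h1.2⟩
  · intro y hy
    have h1 := hff y hy
    exact (left _ (hg.st.w_mem y hy)).unique (hff _ (hg.st.w_mem y hy))
      ⟨h'.w_mem _ h1.1, fw y hy _ h1.1 h1.2⟩

/-- The same for products. -/
private theorem RA6_prod {m : ℕ} {A : NA k Y} {B1 : NA k X} {B2 : NA k Z} {s : Set Y}
    {S : Set X} {S' : Set Z} (hs : A.St s) (hS' : B2.St S')
    (hg : NGood m (A.prod B1) (s ×ˢ S)) (G : X → Z → Prop)
    (hG : DM k (fun p : X × Z => G p.1 p.2))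
    (left : ∀ y ∈ S, ∃! z, z ∈ S' ∧ G y z) (right : ∀ z ∈ S', ∃! y, y ∈ S ∧ G y z)
    (ft : ∀ c, ∀ y ∈ S, ∀ z ∈ S', G y z → G (B1.t c y) (B2.t c z))
    (fw : ∀ y ∈ S, ∀ z ∈ S', G y z → G (B1.w y) (B2.w z)) :
    NGood m (A.prod B2) (s ×ˢ S') := by
  refine RA6_corr hg (hs.prod B2 hS') (fun p q => p.1 = q.1 ∧ G p.2 q.2) ?_ ?_ ?_ ?_ ?_
  · have h1 : DM k (fun p : (Y × X) × (Y × Z) => G p.1.2 p.2.2) :=
      DM.comp (f := fun p : (Y × X) × (Y × Z) => (p.1.2, p.2.2)) hG (by fun_prop)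
    exact (DM.eq (by fun_prop) (by fun_prop)).and h1
  · rintro ⟨y, x⟩ ⟨hy, hx⟩
    obtain ⟨z, ⟨hz, hxz⟩, hu⟩ := left x hx
    refine ⟨(y, z), ⟨⟨hy, hz⟩, rfl, hxz⟩, ?_⟩
    rintro ⟨y', z'⟩ ⟨⟨_, hz'⟩, h1, h2⟩
    dsimp only at h1 h2
    subst h1
    rw [hu z' ⟨hz', h2⟩]
  · rintro ⟨y, z⟩ ⟨hy, hz⟩
    obtain ⟨x, ⟨hx, hxz⟩, hu⟩ := right z hz
    refine ⟨(y, x), ⟨⟨hy, hx⟩, rfl, hxz⟩, ?_⟩
    rintro ⟨y', x'⟩ ⟨⟨_, hx'⟩, h1, h2⟩
    dsimp only at h1 h2
    subst h1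
    rw [hu x' ⟨hx', h2⟩]
  · rintro c ⟨y, x⟩ ⟨_, hx⟩ ⟨y', z⟩ ⟨_, hz⟩ ⟨h1, h2⟩
    dsimp only at h1 h2
    subst h1
    exact ⟨rfl, ft c x hx z hz h2⟩
  · rintro ⟨y, x⟩ ⟨_, hx⟩ ⟨y', z⟩ ⟨_, hz⟩ ⟨h1, h2⟩
    dsimp only at h1 h2
    subst h1
    exact ⟨rfl, fw x hx z hz h2⟩

/-! ### Forms -/

private theorem RA6_mono {n : ℕ} (a b : ℕ) (h : a + b = n) :
    (fun v : Fin 2 → k => v 0 ^ a * v 1 ^ b) ∈ Form k n := by
  refine ⟨Pi.single ⟨a, by omega⟩ 1, ?_⟩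
  funext v
  show ∑ i : Fin (n + 1), (Pi.single (⟨a, by omega⟩ : Fin (n + 1)) (1 : k) : Fin (n + 1) → k) i *
    v 0 ^ (i : ℕ) * v 1 ^ (n - (i : ℕ)) = _
  rw [Finset.sum_eq_single (⟨a, by omega⟩ : Fin (n + 1))]
  · have : n - a = b := by omega
    simp [this]
  · intro i _ hi
    rw [Pi.single_eq_of_ne hi]
    ring
  · intro h
    exact absurd (Finset.mem_univ _) h

/-- A form vanishing off the coordinate axes is zero. -/
private theorem RA6_zero {n : ℕ} (R : Form k n)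
    (h : ∀ v : Fin 2 → k, v 0 ≠ 0 → v 1 ≠ 0 → R.1 v = 0) : R = 0 := by
  have h1 : (∑ i : Fin (n + 1), Polynomial.C (coeffE k n R i) * Polynomial.X ^ (i : ℕ) :
      Polynomial k) = 0 := by
    refine Polynomial.eq_zero_of_infinite_isRoot _ ?_
    refine Set.Infinite.mono (s := {(0 : k)}ᶜ) ?_ (Set.finite_singleton (0 : k)).infinite_compl
    intro t ht
    have ht' : t ≠ 0 := ht
    have h2 := h ![t, 1] (by simpa using ht') (by simp)
    rw [form_eq] at h2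
    simp only [Set.mem_ofPred_eq, Polynomial.IsRoot.def, Polynomial.eval_finsetSum,
      Polynomial.eval_mul, Polynomial.eval_C, Polynomial.eval_pow, Polynomial.eval_X]
    simpa using h2
  have h3 : coeffE k n R = 0 := by
    funext i
    have h4 := congrArg (fun p => Polynomial.coeff p (i : ℕ)) h1
    simp only [Polynomial.finsetSum_coeff, Polynomial.coeff_C_mul_X_pow, Polynomial.coeff_zero]
      at h4
    rw [Finset.sum_eq_single i] at h4
    · simpa using h4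
    · intro j _ hj
      rw [if_neg]
      intro hh
      exact hj (Fin.ext hh.symm)
    · intro hh
      exact absurd (Finset.mem_univ _) hh
  exact (coeffE k n).map_eq_zero_iff.mp h3

private theorem RA6_up {d l n r s : ℕ} (hd : d = l * n + r + s) (P : Form k n) :
    (fun v : Fin 2 → k => v 0 ^ r * v 1 ^ s * P.1 ![v 0 ^ l, v 1 ^ l]) ∈ Form k d := by
  have h1 : (fun v : Fin 2 → k => v 0 ^ r * v 1 ^ s * P.1 ![v 0 ^ l, v 1 ^ l]) =
      ∑ i : Fin (n + 1), coeffE k n P i •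
        (fun v : Fin 2 → k => v 0 ^ (l * i + r) * v 1 ^ (l * (n - i) + s)) := by
    funext v
    rw [form_eq, Finset.mul_sum, Finset.sum_apply]
    refine Finset.sum_congr rfl (fun i _ => ?_)
    simp only [Pi.smul_apply, smul_eq_mul, Matrix.cons_val_zero, Matrix.cons_val_one]
    rw [← pow_mul, ← pow_mul, pow_add, pow_add]
    ring
  rw [h1]
  refine Submodule.sum_mem _ (fun i _ => Submodule.smul_mem _ _ (RA6_mono _ _ ?_))
  have hi : (i : ℕ) ≤ n := Nat.lt_succ_iff.mp i.2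
  have h2 : l * (i : ℕ) + l * (n - i) = l * n := by rw [← mul_add, Nat.add_sub_cancel' hi]
  omega

private theorem RA6_down {d l n r s : ℕ} (hl : 0 < l) (hd : d = l * n + r + s) (hr : r < l)
    (hs : s < l) (P : Form k d)
    (hP : ∀ i : Fin (d + 1), coeffE k d P i ≠ 0 → (i : ℕ) ≡ r [MOD l]) :
    ∃ P0 : Form k n, ∀ v : Fin 2 → k,
      P.1 v = v 0 ^ r * v 1 ^ s * P0.1 ![v 0 ^ l, v 1 ^ l] := by
  have hb : ∀ j : Fin (n + 1), l * (j : ℕ) + r < d + 1 := by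
    intro j
    have hj : (j : ℕ) ≤ n := Nat.lt_succ_iff.mp j.2
    have := Nat.mul_le_mul_left l hj
    omega
  refine ⟨Form.of (fun j => coeffE k d P ⟨l * j + r, hb j⟩), fun v => ?_⟩
  rw [form_eq, Form.of_apply, Finset.mul_sum]
  symm
  refine Finset.sum_of_injOn (fun j : Fin (n + 1) => (⟨l * j + r, hb j⟩ : Fin (d + 1)))
    ?_ ?_ ?_ ?_
  · intro j _ j' _ hjj
    have h1 : l * (j : ℕ) + r = l * (j' : ℕ) + r := congrArg Fin.val hjj
    exact Fin.ext (Nat.eq_of_mul_eq_mul_left hl (by omega))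
  · intro j _
    exact Finset.mem_univ _
  · intro i _ hi
    by_cases hc : coeffE k d P i = 0
    · rw [hc]; ring
    · exfalso
      apply hi
      have h1 := hP i hc
      have h2 : (i : ℕ) % l = r := by rw [h1, Nat.mod_eq_of_lt hr]
      have h3 := Nat.div_add_mod (i : ℕ) l
      rw [h2] at h3
      have h4 : (i : ℕ) / l ≤ n := by
        by_contra hlt
        push Not at hlt
        have h5 : l * (n + 1) ≤ l * ((i : ℕ) / l) := Nat.mul_le_mul_left l hlt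
        have h6 : (i : ℕ) ≤ d := Nat.lt_succ_iff.mp i.2
        rw [mul_add, mul_one] at h5
        omega
      exact ⟨⟨(i : ℕ) / l, by omega⟩, Finset.mem_coe.mpr (Finset.mem_univ _), Fin.ext h3⟩
  · intro j _
    have hj : (j : ℕ) ≤ n := Nat.lt_succ_iff.mp j.2
    have h2 : l * (j : ℕ) + l * (n - j) = l * n := by rw [← mul_add, Nat.add_sub_cancel' hj]
    have h3 : d - (l * (j : ℕ) + r) = l * (n - j) + s := by omega
    simp only [Matrix.cons_val_zero, Matrix.cons_val_one, h3]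
    rw [← pow_mul, ← pow_mul, pow_add, pow_add]
    ring

private theorem RA6_e0 {n : ℕ} (P : Form k n) : P.1 (e0 k) = coeffE k n P (Fin.last n) := by
  rw [form_eq, Fin.sum_univ_castSucc]
  simp only [e0, Matrix.cons_val_zero, Matrix.cons_val_one, one_pow, Fin.val_last, Nat.sub_self,
    pow_zero, mul_one, Fin.val_castSucc]
  rw [Finset.sum_eq_zero, zero_add]
  intro i _
  have : n - (i : ℕ) ≠ 0 := by have := i.2; omega
  rw [zero_pow this, mul_zero]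

private theorem RA6_e1 {n : ℕ} (P : Form k n) : P.1 (e1 k) = coeffE k n P 0 := by
  rw [form_eq, Fin.sum_univ_succ]
  simp only [e1, Matrix.cons_val_zero, Matrix.cons_val_one, one_pow, Fin.val_zero, pow_zero,
    mul_one, Fin.val_succ]
  rw [Finset.sum_eq_zero, add_zero]
  intro i _
  rw [zero_pow (Nat.succ_ne_zero _), mul_zero]

private theorem RA6_div1 {n : ℕ} (P : Form k (n + 1)) (h : P.1 (e0 k) = 0) :
    ∃ P' : Form k n, ∀ v : Fin 2 → k, P.1 v = v 1 * P'.1 v := by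
  refine ⟨Form.of (fun j => coeffE k (n + 1) P j.castSucc), fun v => ?_⟩
  rw [form_eq, Form.of_apply, Fin.sum_univ_castSucc, ← RA6_e0 P, h, zero_mul, zero_mul, add_zero,
    Finset.mul_sum]
  refine Finset.sum_congr rfl (fun i _ => ?_)
  have : n + 1 - (i : ℕ) = (n - i) + 1 := by have := i.2; omega
  rw [Fin.val_castSucc, this, pow_succ]
  ring

private theorem RA6_div0 {n : ℕ} (P : Form k (n + 1)) (h : P.1 (e1 k) = 0) :
    ∃ P' : Form k n, ∀ v : Fin 2 → k, P.1 v = v 0 * P'.1 v := by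
  refine ⟨Form.of (fun j => coeffE k (n + 1) P j.succ), fun v => ?_⟩
  rw [form_eq, Form.of_apply, Fin.sum_univ_succ, ← RA6_e1 P, h, zero_mul, zero_mul, zero_add,
    Finset.mul_sum]
  refine Finset.sum_congr rfl (fun i _ => ?_)
  have : n + 1 - ((i : ℕ) + 1) = n - i := by omega
  rw [Fin.val_succ, this, pow_succ]
  ring

/-! ### Matrices -/

private theorem RA6_dg (a b : kˣ) (v : Fin 2 → k) :
    dg a b • v = ![(a : k) * v 0, (b : k) * v 1] := by
  show (!![(a : k), 0; 0, (b : k)]).mulVec v = _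
  funext i
  fin_cases i <;> simp [Matrix.mulVec, dotProduct, Fin.sum_univ_two]

private theorem RA6_dgi (a b : kˣ) (v : Fin 2 → k) :
    (dg a b)⁻¹ • v = ![((a⁻¹ : kˣ) : k) * v 0, ((b⁻¹ : kˣ) : k) * v 1] := by
  rw [inv_smul_eq_iff, RA6_dg]
  funext i
  fin_cases i <;> simp

private theorem RA6_sw (v : Fin 2 → k) : sw k • v = ![v 1, v 0] := by
  show (!![(0 : k), 1; 1, 0]).mulVec v = _
  funext i
  fin_cases i <;> simp [Matrix.mulVec, dotProduct, Fin.sum_univ_two]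

private theorem RA6_swi (v : Fin 2 → k) : (sw k)⁻¹ • v = ![v 1, v 0] := by
  rw [inv_smul_eq_iff, RA6_sw]
  funext i
  fin_cases i <;> simp

private theorem RA6_two {d : ℕ} (a b : GL (Fin 2) k) (F : SM k d) (v : Fin 2 → k) :
    (SM.two a b F).1 v = a • F.1 (b⁻¹ • v) := rfl

private theorem RA6_smulv {d : ℕ} (u : kˣ) (F : SM k d) (v : Fin 2 → k) (i : Fin 2) :
    (u • F).1 v i = (u : k) * F.1 v i := rfl

/-- The comparison relation. -/
private def RA6_R (l e : ℕ) {d m : ℕ} (F0 : SM k m) (F : SM k d) : Prop :=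
  ∀ v : Fin 2 → k, (v 0 * v 1) ^ e * F.1 v 0 = v 0 * F0.1 ![v 0 ^ l, v 1 ^ l] 0 ∧
    (v 0 * v 1) ^ e * F.1 v 1 = v 1 * F0.1 ![v 0 ^ l, v 1 ^ l] 1

/-- The comparison relation on projective spaces. -/
private def RA6_G (l e : ℕ) {d m : ℕ} (p : ℙ k (SM k m)) (q : ℙ k (SM k d)) : Prop :=
  ∃ F0 : SM k m, ∃ F : SM k d, isrep F0 p ∧ isrep F q ∧ RA6_R l e F0 F

private theorem RA6_vec {f g : X → k} (hf : DM k f) (hg : DM k g) :
    DM k (fun x => ![f x, g x]) := by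
  refine DM.pi (fun i => ?_)
  fin_cases i
  · exact hf
  · exact hg

private theorem RA6_G_dm (l e : ℕ) {d m : ℕ} :
    DM k (fun p : ℙ k (SM k m) × ℙ k (SM k d) => RA6_G l e p.1 p.2) := by
  unfold RA6_G RA6_R
  refine DM.ex (DM.ex (DM.and (DM.isrep (by fun_prop) (by fun_prop)) (DM.and
    (DM.isrep (by fun_prop) (by fun_prop)) (DM.all (DM.and ?_ ?_)))))
  all_goals
    have hv : DM k (fun p : (((ℙ k (SM k m) × ℙ k (SM k d)) × SM k m) × SM k d) × (Fin 2 → k) =>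
      ![p.2 0 ^ l, p.2 1 ^ l]) := RA6_vec (by fun_prop) (by fun_prop)
    have h1 : DM k (fun p : (((ℙ k (SM k m) × ℙ k (SM k d)) × SM k m) × SM k d) × (Fin 2 → k) =>
      p.1.1.2.1 ![p.2 0 ^ l, p.2 1 ^ l]) := DM.sm_eval (by fun_prop) hv
    have h2 : DM k (fun p : (((ℙ k (SM k m) × ℙ k (SM k d)) × SM k m) × SM k d) × (Fin 2 → k) =>
      p.1.2.1 p.2) := DM.sm_eval (by fun_prop) (by fun_prop)
  · exact DM.eq (DM.mul (by fun_prop) (DM.comp (DM.apply 0) h2))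
      (DM.mul (by fun_prop) (DM.comp (DM.apply 0) h1))
  · exact DM.eq (DM.mul (by fun_prop) (DM.comp (DM.apply 1) h2))
      (DM.mul (by fun_prop) (DM.comp (DM.apply 1) h1))

private theorem RA6_ext {d : ℕ} (F F' : SM k d)
    (h : ∀ v : Fin 2 → k, v 0 ≠ 0 → v 1 ≠ 0 → F.1 v = F'.1 v) : F = F' := by
  apply Subtype.ext
  funext v i
  have h1 : (⟨fun v => F.1 v i, F.2 i⟩ - ⟨fun v => F'.1 v i, F'.2 i⟩ : Form k d) = 0 := by
    refine RA6_zero _ (fun v h0 h1 => ?_)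
    show F.1 v i - F'.1 v i = 0
    rw [h v h0 h1, sub_self]
  have h2 : F.1 v i - F'.1 v i = 0 := congrFun (congrArg Subtype.val h1) v
  exact sub_eq_zero.mp h2

private theorem RA6_root {l : ℕ} (hl : 0 < l) (w : Fin 2 → k) :
    ∃ v : Fin 2 → k, ![v 0 ^ l, v 1 ^ l] = w ∧ (v 0 ≠ 0 ↔ w 0 ≠ 0) ∧ (v 1 ≠ 0 ↔ w 1 ≠ 0) := by
  obtain ⟨a, ha⟩ := IsAlgClosed.exists_pow_nat_eq (w 0) hl
  obtain ⟨b, hb⟩ := IsAlgClosed.exists_pow_nat_eq (w 1) hl
  refine ⟨![a, b], ?_, ?_, ?_⟩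
  · funext i
    fin_cases i
    · exact ha
    · exact hb
  · show a ≠ 0 ↔ w 0 ≠ 0
    rw [← ha, ne_eq, ne_eq, pow_eq_zero_iff hl.ne']
  · show b ≠ 0 ↔ w 1 ≠ 0
    rw [← hb, ne_eq, ne_eq, pow_eq_zero_iff hl.ne']

private theorem RA6_R_smul {l e d m : ℕ} {F0 : SM k m} {F : SM k d} (h : RA6_R l e F0 F)
    (u : kˣ) : RA6_R l e (u • F0) (u • F) := by
  intro v
  have := h v
  simp only [RA6_smulv]
  constructor
  · linear_combination (u : k) * this.1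
  · linear_combination (u : k) * this.2

private theorem RA6_R_right {l e d m : ℕ} {F0 : SM k m} {F F' : SM k d} (h : RA6_R l e F0 F)
    (h' : RA6_R l e F0 F') : F = F' := by
  refine RA6_ext _ _ (fun v h0 h1 => ?_)
  have hne : (v 0 * v 1) ^ e ≠ 0 := pow_ne_zero _ (mul_ne_zero h0 h1)
  funext i
  fin_cases i
  · exact mul_left_cancel₀ hne ((h v).1.trans (h' v).1.symm)
  · exact mul_left_cancel₀ hne ((h v).2.trans (h' v).2.symm)

private theorem RA6_R_left {l e d m : ℕ} (hl : 0 < l) {F0 F0' : SM k m} {F : SM k d}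
    (h : RA6_R l e F0 F) (h' : RA6_R l e F0' F) : F0 = F0' := by
  refine RA6_ext _ _ (fun w h0 h1 => ?_)
  obtain ⟨v, rfl, hv0, hv1⟩ := RA6_root hl w
  have h0' := hv0.mpr h0
  have h1' := hv1.mpr h1
  funext i
  fin_cases i
  · exact mul_left_cancel₀ h0' ((h v).1.symm.trans (h' v).1)
  · exact mul_left_cancel₀ h1' ((h v).2.symm.trans (h' v).2)

private theorem RA6_R_zero {l e d m : ℕ} : RA6_R l e (0 : SM k m) (0 : SM k d) := by
  intro v
  constructor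
  · show _ * (0 : k) = _ * (0 : k)
    ring
  · show _ * (0 : k) = _ * (0 : k)
    ring

private theorem RA6_G_mk {l e d m : ℕ} {F0 : SM k m} {F : SM k d} (h0 : F0 ≠ 0) (h1 : F ≠ 0) :
    RA6_G l e (Projectivization.mk k F0 h0) (Projectivization.mk k F h1) ↔
      ∃ u : kˣ, RA6_R l e (u • F0) F := by
  constructor
  · rintro ⟨G0, G, ⟨hG0, h2⟩, ⟨hG, h3⟩, h4⟩
    rw [Projectivization.mk_eq_mk_iff] at h2 h3
    obtain ⟨a, ha⟩ := h2
    obtain ⟨b, hb⟩ := h3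
    refine ⟨b⁻¹ * a, ?_⟩
    have h5 := RA6_R_smul h4 b⁻¹
    rw [← ha, ← hb, inv_smul_smul, ← mul_smul] at h5
    exact h5
  · rintro ⟨u, hu⟩
    refine ⟨u • F0, F, ⟨?_, ?_⟩, ⟨h1, rfl⟩, hu⟩
    · exact (smul_ne_zero_iff_ne u).mpr h0
    · rw [Projectivization.mk_eq_mk_iff]
      exact ⟨u, rfl⟩

private theorem RA6_R_t {l e d m : ℕ} {F0 : SM k m} {F : SM k d} (h : RA6_R l e F0 F) (c : kˣ) :
    RA6_R l e (SM.two (dg ((c ^ l) ^ (0 : ℤ)) 1) (dg (c ^ l) 1) F0)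
      ((c ^ e)⁻¹ • SM.two (dg (c ^ (1 : ℤ)) 1) (dg c 1) F) := by
  intro v
  have h1 := h ![((c⁻¹ : kˣ) : k) * v 0, v 1]
  simp only [RA6_smulv, RA6_two, RA6_dg, RA6_dgi, Matrix.cons_val_zero, Matrix.cons_val_one,
    zpow_zero, zpow_one, inv_one, Units.val_one, one_mul] at h1 ⊢
  have hc : (c : k) * ((c⁻¹ : kˣ) : k) = 1 := by simp
  have e1 : (((c⁻¹ : kˣ) : k) * v 0) ^ l = (((c ^ l)⁻¹ : kˣ) : k) * v 0 ^ l := by
    rw [mul_pow]; simp
  rw [e1] at h1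
  have e2 : (((c⁻¹ : kˣ) : k) * v 0 * v 1) ^ e = (((c ^ e)⁻¹ : kˣ) : k) * (v 0 * v 1) ^ e := by
    rw [mul_assoc, mul_pow]; simp
  rw [e2] at h1
  constructor
  · linear_combination (c : k) * h1.1 + (v 0 * F0.1 ![(((c ^ l)⁻¹ : kˣ) : k) * v 0 ^ l, v 1 ^ l] 0) * hc
  · linear_combination h1.2

private theorem RA6_R_w {l e d m : ℕ} {F0 : SM k m} {F : SM k d} (h : RA6_R l e F0 F) :
    RA6_R l e (SM.two (sw k) (sw k) F0) (SM.two (sw k) (sw k) F) := by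
  intro v
  have h1 := h ![v 1, v 0]
  simp only [RA6_two, RA6_sw, RA6_swi, Matrix.cons_val_zero, Matrix.cons_val_one] at h1 ⊢
  rw [mul_comm (v 1) (v 0)] at h1
  exact ⟨h1.2, h1.1⟩

private theorem RA6_two_smul {d : ℕ} (a b : GL (Fin 2) k) (u : kˣ) (F : SM k d) :
    SM.two a b (u • F) = u • SM.two a b F := by
  apply Subtype.ext
  funext v
  show a • (u • F.1 (b⁻¹ • v)) = u • (a • F.1 (b⁻¹ • v))
  exact smul_comm _ _ _

/-- The abstract comparison. -/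
private theorem RA6_main {A : NA k Y} {s : Set Y} (hs : A.St s) {d l m e : ℕ} (hl : 0 < l)
    {S : Set (ℙ k (SM k m))} {S' : Set (ℙ k (SM k d))} (hS' : (RA k d 1).St S')
    (h : NGood 1 (A.prod ((RA k m 0).pull l)) (s ×ˢ S))
    (H1 : ∀ (F0 : SM k m) (h0 : F0 ≠ 0), Projectivization.mk k F0 h0 ∈ S →
      ∃ F : SM k d, RA6_R l e F0 F)
    (H2 : ∀ (F : SM k d) (h0 : F ≠ 0), Projectivization.mk k F h0 ∈ S' →
      ∃ F0 : SM k m, RA6_R l e F0 F)
    (H3 : ∀ (F0 : SM k m) (F : SM k d) (h0 : F0 ≠ 0) (h1 : F ≠ 0), RA6_R l e F0 F →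
      (Projectivization.mk k F0 h0 ∈ S ↔ Projectivization.mk k F h1 ∈ S')) :
    NGood 1 (A.prod (RA k d 1)) (s ×ˢ S') := by
  have nz1 : ∀ (F0 : SM k m) (F : SM k d), F0 ≠ 0 → RA6_R l e F0 F → F ≠ 0 := by
    rintro F0 F h0 h1 rfl
    exact h0 (RA6_R_left hl h1 RA6_R_zero)
  have nz2 : ∀ (F0 : SM k m) (F : SM k d), F ≠ 0 → RA6_R l e F0 F → F0 ≠ 0 := by
    rintro F0 F h0 h1 rfl
    exact h0 (RA6_R_right h1 RA6_R_zero)
  refine RA6_prod hs hS' h (RA6_G l e) (RA6_G_dm l e) ?_ ?_ ?_ ?_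
  · intro p hp
    induction p using Projectivization.ind with
    | h F0 h0 =>
      obtain ⟨F, hF⟩ := H1 F0 h0 hp
      have h1 := nz1 F0 F h0 hF
      refine ⟨Projectivization.mk k F h1, ⟨(H3 F0 F h0 h1 hF).mp hp,
        (RA6_G_mk h0 h1).mpr ⟨1, by rwa [one_smul]⟩⟩, ?_⟩
      rintro q ⟨_, hq⟩
      induction q using Projectivization.ind with
      | h F' h1' =>
        obtain ⟨u, hu⟩ := (RA6_G_mk h0 h1').mp hq
        rw [Projectivization.mk_eq_mk_iff]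
        exact ⟨u, RA6_R_right (RA6_R_smul hF u) hu⟩
  · intro q hq
    induction q using Projectivization.ind with
    | h F h1 =>
      obtain ⟨F0, hF⟩ := H2 F h1 hq
      have h0 := nz2 F0 F h1 hF
      refine ⟨Projectivization.mk k F0 h0, ⟨(H3 F0 F h0 h1 hF).mpr hq,
        (RA6_G_mk h0 h1).mpr ⟨1, by rwa [one_smul]⟩⟩, ?_⟩
      rintro p ⟨_, hp⟩
      induction p using Projectivization.ind with
      | h F0' h0' =>
        obtain ⟨u, hu⟩ := (RA6_G_mk h0' h1).mp hp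
        rw [Projectivization.mk_eq_mk_iff]
        refine ⟨u⁻¹, ?_⟩
        rw [inv_smul_eq_iff]
        exact RA6_R_left hl hF hu
  · intro c p _ q _ hpq
    induction p using Projectivization.ind with
    | h F0 h0 =>
      induction q using Projectivization.ind with
      | h F h1 =>
        obtain ⟨u, hu⟩ := (RA6_G_mk h0 h1).mp hpq
        have h2 := RA6_R_t hu c
        have h3 : ((RA k m 0).pull l).t c (Projectivization.mk k F0 h0) =
            ptwo (dg ((c ^ l) ^ (0 : ℤ)) 1) (dg (c ^ l) 1) (Projectivization.mk k F0 h0) := rfl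
        have h4 : (RA k d 1).t c (Projectivization.mk k F h1) =
            ptwo (dg (c ^ (1 : ℤ)) 1) (dg c 1) (Projectivization.mk k F h1) := rfl
        rw [h3, h4, ptwo_mk, ptwo_mk, RA6_G_mk]
        refine ⟨c ^ e * u, ?_⟩
        have h5 := RA6_R_smul h2 (c ^ e)
        rw [smul_inv_smul, RA6_two_smul, ← mul_smul] at h5
        exact h5
  · intro p _ q _ hpq
    induction p using Projectivization.ind with
    | h F0 h0 =>
      induction q using Projectivization.ind with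
      | h F h1 =>
        obtain ⟨u, hu⟩ := (RA6_G_mk h0 h1).mp hpq
        have h2 := RA6_R_w hu
        have h3 : ((RA k m 0).pull l).w (Projectivization.mk k F0 h0) =
            ptwo (sw k) (sw k) (Projectivization.mk k F0 h0) := rfl
        have h4 : (RA k d 1).w (Projectivization.mk k F h1) =
            ptwo (sw k) (sw k) (Projectivization.mk k F h1) := rfl
        rw [h3, h4, ptwo_mk, ptwo_mk, RA6_G_mk]
        refine ⟨u, ?_⟩
        rw [RA6_two_smul] at h2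
        exact h2

/-! ### Coprimality, membership -/

/-- No zero off the coordinate axes. -/
private def RA6_open {d : ℕ} (F : SM k d) : Prop :=
  ∀ v : Fin 2 → k, v 0 ≠ 0 → v 1 ≠ 0 → F.1 v ≠ 0

private theorem RA6_axis {d : ℕ} (F : SM k d) :
    (∀ v : Fin 2 → k, v ≠ 0 → F.1 v ≠ 0) ↔
      RA6_open F ∧ F.1 (e0 k) ≠ 0 ∧ F.1 (e1 k) ≠ 0 := by
  constructor
  · intro h
    refine ⟨fun v h0 _ => h v (by rintro rfl; exact h0 rfl), h _ ?_, h _ ?_⟩
    · intro hh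
      have := congrFun hh 0
      simp [e0] at this
    · intro hh
      have := congrFun hh 1
      simp [e1] at this
  · rintro ⟨h, h0, h1⟩ v hv
    by_cases hv0 : v 0 = 0
    · have hv1 : v 1 ≠ 0 := by
        intro hh
        apply hv
        funext i
        fin_cases i
        · exact hv0
        · exact hh
      have h2 : v = v 1 • e1 k := by
        funext i
        fin_cases i <;> simp [e1, hv0]
      rw [h2, sm_smul]
      exact smul_ne_zero (pow_ne_zero _ hv1) h1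
    · by_cases hv1 : v 1 = 0
      · have h2 : v = v 0 • e0 k := by
          funext i
          fin_cases i <;> simp [e0, hv1]
        rw [h2, sm_smul]
        exact smul_ne_zero (pow_ne_zero _ hv0) h0
      · exact h v hv0 hv1

private theorem RA6_open_iff {l e d m : ℕ} (hl : 0 < l) {F0 : SM k m} {F : SM k d}
    (h : RA6_R l e F0 F) : RA6_open F0 ↔ RA6_open F := by
  have key : ∀ v : Fin 2 → k, v 0 ≠ 0 → v 1 ≠ 0 →
      (F.1 v = 0 ↔ F0.1 ![v 0 ^ l, v 1 ^ l] = 0) := by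
    intro v h0 h1
    have hne : (v 0 * v 1) ^ e ≠ 0 := pow_ne_zero _ (mul_ne_zero h0 h1)
    have a := (h v).1
    have b := (h v).2
    constructor
    · intro hF
      rw [hF, Pi.zero_apply, mul_zero] at a b
      funext i
      fin_cases i
      · exact (mul_eq_zero.mp a.symm).resolve_left h0
      · exact (mul_eq_zero.mp b.symm).resolve_left h1
    · intro hF
      rw [hF, Pi.zero_apply, mul_zero] at a b
      funext i
      fin_cases i
      · exact (mul_eq_zero.mp a).resolve_left hne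
      · exact (mul_eq_zero.mp b).resolve_left hne
  constructor
  · intro ho v h0 h1 hF
    exact ho ![v 0 ^ l, v 1 ^ l] (pow_ne_zero l h0) (pow_ne_zero l h1) ((key v h0 h1).mp hF)
  · intro ho w h0 h1 hF
    obtain ⟨v, rfl, hv0, hv1⟩ := RA6_root hl w
    exact ho v (hv0.mpr h0) (hv1.mpr h1) ((key v (hv0.mpr h0) (hv1.mpr h1)).mpr hF)

private theorem RA6_ne0 (x : Fin 2 → k) : x ≠ 0 ↔ x 0 ≠ 0 ∨ x 1 ≠ 0 := by
  constructor
  · intro h
    by_contra hh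
    push Not at hh
    apply h
    funext i
    fin_cases i
    · exact hh.1
    · exact hh.2
  · rintro (h | h) rfl
    · exact h rfl
    · exact h rfl

private theorem RA6_memA {m : ℕ} {F : SM k m} (h : F ≠ 0) :
    Projectivization.mk k F h ∈ As k m ↔
      RA6_open F ∧ F.1 (e0 k) 0 ≠ 0 ∧ F.1 (e1 k) 1 ≠ 0 := by
  show (Projectivization.mk k F h ∈ RatP k m ∧ _ ∧ _) ↔ _
  rw [mem_RatP, rep_ne_iff, rep_ne_iff, RA6_axis]
  constructor
  · rintro ⟨⟨h1, _⟩, h2⟩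
    exact ⟨h1, h2⟩
  · rintro ⟨h1, h2, h3⟩
    exact ⟨⟨h1, (RA6_ne0 _).mpr (Or.inl h2), (RA6_ne0 _).mpr (Or.inr h3)⟩, h2, h3⟩

private theorem RA6_memB {m : ℕ} {F : SM k m} (h : F ≠ 0) :
    Projectivization.mk k F h ∈ Bs k m ↔
      RA6_open F ∧ (F.1 (e0 k) 0 = 0 ∧ F.1 (e1 k) 1 = 0) ∧
        F.1 (e0 k) 1 ≠ 0 ∧ F.1 (e1 k) 0 ≠ 0 := by
  have h0 : ∀ v i, (Projectivization.mk k F h).rep.1 v i = 0 ↔ F.1 v i = 0 :=
    fun v i => not_iff_not.mp (rep_ne_iff h v i)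
  show (Projectivization.mk k F h ∈ RatP k m ∧ _ ∧ _) ↔ _
  rw [mem_RatP, h0, h0, RA6_axis]
  constructor
  · rintro ⟨⟨h1, h2, h3⟩, h4, h5⟩
    refine ⟨h1, ⟨h4, h5⟩, ?_, ?_⟩
    · rcases (RA6_ne0 _).mp h2 with h6 | h6
      · exact absurd h4 h6
      · exact h6
    · rcases (RA6_ne0 _).mp h3 with h6 | h6
      · exact h6
      · exact absurd h5 h6
  · rintro ⟨h1, ⟨h2, h3⟩, h4, h5⟩
    exact ⟨⟨h1, (RA6_ne0 _).mpr (Or.inr h4), (RA6_ne0 _).mpr (Or.inl h5)⟩, h2, h3⟩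

private theorem RA6_fix_mk {d l : ℕ} {F : SM k d} (h : F ≠ 0) :
    Projectivization.mk k F h ∈ (RA k d 1).fixl l (RatP k d) ↔
      Projectivization.mk k F h ∈ RatP k d ∧ ∀ c : kˣ, c ^ l = 1 →
        ∃ u : kˣ, u • F = SM.two (dg (c ^ (1 : ℤ)) 1) (dg c 1) F := by
  have h4 : ∀ c, (RA k d 1).t c (Projectivization.mk k F h) =
      ptwo (dg (c ^ (1 : ℤ)) 1) (dg c 1) (Projectivization.mk k F h) := fun c => rfl
  show (Projectivization.mk k F h ∈ RatP k d ∧ ∀ c : kˣ, c ^ l = 1 →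
    (RA k d 1).t c (Projectivization.mk k F h) = Projectivization.mk k F h) ↔ _
  simp only [h4, ptwo_mk, Projectivization.mk_eq_mk_iff]

private theorem RA6_R_fix {l e d m : ℕ} {F0 : SM k m} {F : SM k d} (h : RA6_R l e F0 F)
    (c : kˣ) (hc : c ^ l = 1) : c ^ e • F = SM.two (dg (c ^ (1 : ℤ)) 1) (dg c 1) F := by
  have h1 := RA6_R_t h c
  rw [hc] at h1
  have h2 : SM.two (dg ((1 : kˣ) ^ (0 : ℤ)) 1) (dg 1 1) F0 = F0 := by
    refine RA6_ext _ _ (fun v _ _ => ?_)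
    rw [RA6_two, RA6_dg, RA6_dgi]
    have h3 : ![((1⁻¹ : kˣ) : k) * v 0, ((1⁻¹ : kˣ) : k) * v 1] = v := by
      funext i
      fin_cases i <;> simp
    rw [h3]
    funext i
    fin_cases i <;> simp
  rw [h2] at h1
  have h3 := RA6_R_right h h1
  rwa [eq_inv_smul_iff] at h3

/-! ### Coefficients of fixed points -/

private theorem RA6_coef1 {d : ℕ} (P : Form k d) (u a b : k)
    (h : ∀ v : Fin 2 → k, u * P.1 v = a * P.1 ![b * v 0, v 1]) (i : Fin (d + 1)) :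
    u * coeffE k d P i = a * b ^ (i : ℕ) * coeffE k d P i := by
  have h1 : (Form.of (fun i => u * coeffE k d P i - a * b ^ (i : ℕ) * coeffE k d P i) :
      Form k d) = 0 := by
    refine RA6_zero _ (fun v _ _ => ?_)
    have h2 := h v
    rw [form_eq, form_eq, Finset.mul_sum, Finset.mul_sum] at h2
    rw [Form.of_apply]
    rw [← sub_eq_zero, ← Finset.sum_sub_distrib] at h2
    rw [← h2]
    refine Finset.sum_congr rfl (fun j _ => ?_)
    simp only [Matrix.cons_val_zero, Matrix.cons_val_one]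
    rw [mul_pow]
    ring
  have h3 : (fun i : Fin (d + 1) => u * coeffE k d P i - a * b ^ (i : ℕ) * coeffE k d P i) = 0 := by
    have := congrArg (coeffE k d) h1
    rw [Form.of, LinearEquiv.apply_symm_apply, map_zero] at this
    exact this
  exact sub_eq_zero.mp (congrFun h3 i)

private theorem RA6_coef {d : ℕ} (F : SM k d) (c u : kˣ)
    (h : u • F = SM.two (dg (c ^ (1 : ℤ)) 1) (dg c 1) F) (i : Fin (d + 1)) :
    (coeffE k d ⟨fun v => F.1 v 0, F.2 0⟩ i ≠ 0 → u * c ^ (i : ℕ) = c) ∧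
    (coeffE k d ⟨fun v => F.1 v 1, F.2 1⟩ i ≠ 0 → u * c ^ (i : ℕ) = 1) := by
  have hv : ∀ (v : Fin 2 → k) (j : Fin 2), (u : k) * F.1 v j =
      (SM.two (dg (c ^ (1 : ℤ)) 1) (dg c 1) F).1 v j := by
    intro v j
    rw [← h, RA6_smulv]
  simp only [RA6_two, RA6_dg, RA6_dgi, inv_one, Units.val_one, one_mul, zpow_one] at hv
  constructor
  · intro hne
    have h1 := RA6_coef1 ⟨fun v => F.1 v 0, F.2 0⟩ (u : k) (c : k) ((c⁻¹ : kˣ) : k)
      (fun v => hv v 0) i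
    have h2 := mul_right_cancel₀ hne h1
    apply Units.ext
    rw [Units.val_mul, Units.val_pow_eq_pow_val, h2, mul_assoc, ← mul_pow]
    simp
  · intro hne
    have h1 := RA6_coef1 ⟨fun v => F.1 v 1, F.2 1⟩ (u : k) 1 ((c⁻¹ : kˣ) : k)
      (fun v => by
        have := hv v 1
        simp only [Matrix.cons_val_one] at this
        rw [one_mul]
        exact this) i
    have h2 := mul_right_cancel₀ hne h1
    apply Units.ext
    rw [Units.val_mul, Units.val_pow_eq_pow_val, h2, one_mul, ← mul_pow]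
    simp

private theorem RA6_prim (k : Type) [Field k] [IsAlgClosed k] [CharZero k] {l : ℕ}
    (hl : 0 < l) : ∃ ζ : kˣ, orderOf ζ = l := by
  have : NeZero (l : k) := ⟨Nat.cast_ne_zero.mpr hl.ne'⟩
  have : NeZero l := ⟨hl.ne'⟩
  obtain ⟨z, hz⟩ := HasEnoughRootsOfUnity.exists_primitiveRoot k l
  refine ⟨hz.toRootsOfUnity, ?_⟩
  rw [← orderOf_units]
  rw [hz.val_toRootsOfUnity_coe]
  exact hz.eq_orderOf.symm

private theorem RA6_fixA {d l : ℕ} (hl : 0 < l) (F : SM k d) (h0 : F ≠ 0)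
    (hF : Projectivization.mk k F h0 ∈ As k d ∩ (RA k d 1).fixl l (RatP k d)) :
    (∀ i : Fin (d + 1), coeffE k d ⟨fun v => F.1 v 0, F.2 0⟩ i ≠ 0 → (i : ℕ) ≡ 1 [MOD l]) ∧
    (∀ i : Fin (d + 1), coeffE k d ⟨fun v => F.1 v 1, F.2 1⟩ i ≠ 0 → (i : ℕ) ≡ 0 [MOD l]) ∧
    d ≡ 1 [MOD l] := by
  obtain ⟨hA, hf⟩ := hF
  rw [RA6_memA] at hA
  rw [RA6_fix_mk] at hf
  obtain ⟨ζ, hζ⟩ := RA6_prim k hl
  have hζl : ζ ^ l = 1 := by rw [← hζ, pow_orderOf_eq_one]
  obtain ⟨u, hu⟩ := hf.2 ζ hζl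
  have hc := RA6_coef F ζ u hu
  have h1 := (hc 0).2 (by rw [← RA6_e1]; exact hA.2.2)
  simp only [Fin.val_zero, pow_zero, mul_one] at h1
  subst h1
  have a1 : ∀ i : Fin (d + 1), coeffE k d ⟨fun v => F.1 v 0, F.2 0⟩ i ≠ 0 →
      (i : ℕ) ≡ 1 [MOD l] := by
    intro i hi
    have h2 := (hc i).1 hi
    rw [one_mul] at h2
    have h3 : ζ ^ (i : ℕ) = ζ ^ 1 := by rw [h2, pow_one]
    rwa [pow_eq_pow_iff_modEq, hζ] at h3
  refine ⟨a1, ?_, ?_⟩
  · intro i hi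
    have h2 := (hc i).2 hi
    rw [one_mul] at h2
    have h3 : ζ ^ (i : ℕ) = ζ ^ 0 := by rw [h2, pow_zero]
    rwa [pow_eq_pow_iff_modEq, hζ] at h3
  · exact a1 (Fin.last d) (by rw [← RA6_e0]; exact hA.2.1)

private theorem RA6_fixB {d l : ℕ} (hl : 0 < l) (F : SM k d) (h0 : F ≠ 0)
    (hF : Projectivization.mk k F h0 ∈ Bs k d ∩ (RA k d 1).fixl l (RatP k d)) :
    (∀ i : Fin (d + 1), coeffE k d ⟨fun v => F.1 v 0, F.2 0⟩ i ≠ 0 → (i : ℕ) ≡ 0 [MOD l]) ∧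
    (∀ i : Fin (d + 1), coeffE k d ⟨fun v => F.1 v 1, F.2 1⟩ i ≠ 0 → (i : ℕ) + 1 ≡ 0 [MOD l]) ∧
    d + 1 ≡ 0 [MOD l] := by
  obtain ⟨hA, hf⟩ := hF
  rw [RA6_memB] at hA
  rw [RA6_fix_mk] at hf
  obtain ⟨ζ, hζ⟩ := RA6_prim k hl
  have hζl : ζ ^ l = 1 := by rw [← hζ, pow_orderOf_eq_one]
  obtain ⟨u, hu⟩ := hf.2 ζ hζl
  have hc := RA6_coef F ζ u hu
  have h1 := (hc 0).1 (by rw [← RA6_e1]; exact hA.2.2.2)
  simp only [Fin.val_zero, pow_zero, mul_one] at h1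
  subst h1
  have a1 : ∀ i : Fin (d + 1), coeffE k d ⟨fun v => F.1 v 1, F.2 1⟩ i ≠ 0 →
      (i : ℕ) + 1 ≡ 0 [MOD l] := by
    intro i hi
    have h2 := (hc i).2 hi
    have h3 : u ^ ((i : ℕ) + 1) = u ^ 0 := by rw [pow_zero, pow_succ, mul_comm, h2]
    rwa [pow_eq_pow_iff_modEq, hζ] at h3
  refine ⟨?_, a1, ?_⟩
  · intro i hi
    have h2 := (hc i).1 hi
    have h3 : u ^ (i : ℕ) = u ^ 0 := by
      rw [pow_zero]
      exact mul_left_cancel (h2.trans (mul_one u).symm)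
    rwa [pow_eq_pow_iff_modEq, hζ] at h3
  · exact a1 (Fin.last d) (by rw [← RA6_e0]; exact hA.2.2.1)

/-! ### The two comparisons -/

private theorem RA6_we0 {l : ℕ} (hl : 0 < l) : ![(e0 k) 0 ^ l, (e0 k) 1 ^ l] = e0 k := by
  funext i
  fin_cases i
  · simp [e0]
  · simp [e0, hl.ne']

private theorem RA6_we1 {l : ℕ} (hl : 0 < l) : ![(e1 k) 0 ^ l, (e1 k) 1 ^ l] = e1 k := by
  funext i
  fin_cases i
  · simp [e1, hl.ne']
  · simp [e1]

private theorem RA6_eta (v : Fin 2 → k) : ![v 0, v 1] = v := by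
  funext i
  fin_cases i <;> rfl

private theorem RA6_mul {n : ℕ} (P : Form k n) (r s : ℕ) (h : r + s = 1) :
    (fun v : Fin 2 → k => v 0 ^ r * v 1 ^ s * P.1 v) ∈ Form k (n + 1) := by
  have h1 := RA6_up (k := k) (d := n + 1) (l := 1) (n := n) (r := r) (s := s) (by omega) P
  simp only [pow_one, RA6_eta] at h1
  exact h1

/-- The substitution `h₀ ↦ z h₀(z^l)`, for `h₀ ∈ Rat_m` with `h₀(0) ≠ ∞`, `h₀(∞) ≠ 0`. -/
theorem fix_A {A : NA k Y} {s : Set Y} (hs : A.St s) (d l m : ℕ) (hl : 2 ≤ l) (hd : d = l * m + 1)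
    (h : NGood 1 (A.prod ((RA k m 0).pull l)) (s ×ˢ As k m)) :
    NGood 1 (A.prod (RA k d 1)) (s ×ˢ (As k d ∩ (RA k d 1).fixl l (RatP k d))) := by
  have hl0 : 0 < l := by omega
  refine RA6_main hs (e := 0) hl0 ((As_st d 1).inter ((RatP_st d 1).fixl l)) h ?_ ?_ ?_
  · intro F0 h0 _
    refine ⟨SM.pair ⟨_, RA6_up (d := d) (l := l) (n := m) (r := 1) (s := 0) (by omega)
        ⟨fun v => F0.1 v 0, F0.2 0⟩⟩
      ⟨_, RA6_up (d := d) (l := l) (n := m) (r := 0) (s := 1) (by omega)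
        ⟨fun v => F0.1 v 1, F0.2 1⟩⟩, fun v => ⟨?_, ?_⟩⟩
    · show (v 0 * v 1) ^ 0 * (v 0 ^ 1 * v 1 ^ 0 * F0.1 ![v 0 ^ l, v 1 ^ l] 0) = _
      ring
    · show (v 0 * v 1) ^ 0 * (v 0 ^ 0 * v 1 ^ 1 * F0.1 ![v 0 ^ l, v 1 ^ l] 1) = _
      ring
  · intro F h0 hF
    obtain ⟨h1, h2, _⟩ := RA6_fixA hl0 F h0 hF
    obtain ⟨P0, hP0⟩ := RA6_down (n := m) hl0 (by omega : d = l * m + 1 + 0) (by omega) (by omega)
      _ h1
    obtain ⟨Q0, hQ0⟩ := RA6_down (n := m) hl0 (by omega : d = l * m + 0 + 1) (by omega) (by omega)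
      _ h2
    refine ⟨SM.pair P0 Q0, fun v => ⟨?_, ?_⟩⟩
    · have := hP0 v
      dsimp only at this
      rw [this]
      show _ = v 0 * P0.1 ![v 0 ^ l, v 1 ^ l]
      ring
    · have := hQ0 v
      dsimp only at this
      rw [this]
      show _ = v 1 * Q0.1 ![v 0 ^ l, v 1 ^ l]
      ring
  · intro F0 F h0 h1 hR
    have a0 : F.1 (e0 k) 0 = F0.1 (e0 k) 0 := by
      have := (hR (e0 k)).1
      rw [RA6_we0 hl0] at this
      simpa [e0] using this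
    have a1 : F.1 (e1 k) 1 = F0.1 (e1 k) 1 := by
      have := (hR (e1 k)).2
      rw [RA6_we1 hl0] at this
      simpa [e1] using this
    have key : Projectivization.mk k F0 h0 ∈ As k m ↔ Projectivization.mk k F h1 ∈ As k d := by
      rw [RA6_memA, RA6_memA, RA6_open_iff hl0 hR, a0, a1]
    rw [key]
    constructor
    · intro hA
      exact ⟨hA, (RA6_fix_mk h1).mpr ⟨hA.1, fun c hc => ⟨_, RA6_R_fix hR c hc⟩⟩⟩
    · exact fun hA => hA.1

theorem fix_A_empty (d l : ℕ) (hl : 2 ≤ l) (hd : ∀ m, d ≠ l * m + 1) :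
    As k d ∩ (RA k d 1).fixl l (RatP k d) = ∅ := by
  rw [Set.eq_empty_iff_forall_notMem]
  intro p hp
  induction p using Projectivization.ind with
  | h F h0 =>
    obtain ⟨_, _, h1⟩ := RA6_fixA (by omega : 0 < l) F h0 hp
    refine hd (d / l) ?_
    have h2 : d % l = 1 := by rw [h1, Nat.mod_eq_of_lt (by omega)]
    have h3 := Nat.div_add_mod d l
    omega

/-- The same for `h₀(0) = ∞`, `h₀(∞) = 0`. -/
theorem fix_B {A : NA k Y} {s : Set Y} (hs : A.St s) (d l m : ℕ) (hl : 2 ≤ l) (hd : d + 1 = l * m)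
    (h : NGood 1 (A.prod ((RA k m 0).pull l)) (s ×ˢ Bs k m)) :
    NGood 1 (A.prod (RA k d 1)) (s ×ˢ (Bs k d ∩ (RA k d 1).fixl l (RatP k d))) := by
  have hl0 : 0 < l := by omega
  obtain ⟨n, rfl⟩ : ∃ n, m = n + 1 := by
    rcases m with _ | n
    · omega
    · exact ⟨n, rfl⟩
  have hd' : d = l * n + (l - 1) := by
    rw [mul_add, mul_one] at hd
    omega
  have hll : ∀ x : k, x ^ l = x ^ (l - 1) * x := fun x => by
    rw [← pow_succ, Nat.sub_add_cancel (by omega)]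
  refine RA6_main hs (e := 1) hl0 ((Bs_st d 1).inter ((RatP_st d 1).fixl l)) h ?_ ?_ ?_
  · intro F0 h0 hB
    rw [RA6_memB] at hB
    obtain ⟨P, hP⟩ := RA6_div1 ⟨fun v => F0.1 v 0, F0.2 0⟩ hB.2.1.1
    obtain ⟨Q, hQ⟩ := RA6_div0 ⟨fun v => F0.1 v 1, F0.2 1⟩ hB.2.1.2
    dsimp only at hP hQ
    refine ⟨SM.pair ⟨_, RA6_up (d := d) (l := l) (n := n) (r := 0) (s := l - 1) (by omega) P⟩
      ⟨_, RA6_up (d := d) (l := l) (n := n) (r := l - 1) (s := 0) (by omega) Q⟩,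
      fun v => ⟨?_, ?_⟩⟩
    · show (v 0 * v 1) ^ 1 * (v 0 ^ 0 * v 1 ^ (l - 1) * P.1 ![v 0 ^ l, v 1 ^ l]) = _
      rw [hP]
      show _ = v 0 * (v 1 ^ l * P.1 ![v 0 ^ l, v 1 ^ l])
      have := hll (v 1)
      linear_combination (-(v 0 * P.1 ![v 0 ^ l, v 1 ^ l])) * this
    · show (v 0 * v 1) ^ 1 * (v 0 ^ (l - 1) * v 1 ^ 0 * Q.1 ![v 0 ^ l, v 1 ^ l]) = _
      rw [hQ]
      show _ = v 1 * (v 0 ^ l * Q.1 ![v 0 ^ l, v 1 ^ l])
      have := hll (v 0)
      linear_combination (-(v 1 * Q.1 ![v 0 ^ l, v 1 ^ l])) * this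
  · intro F h0 hF
    obtain ⟨h1, h2, _⟩ := RA6_fixB hl0 F h0 hF
    obtain ⟨P, hP⟩ := RA6_down (n := n) hl0 (by omega : d = l * n + 0 + (l - 1)) (by omega)
      (by omega) _ h1
    obtain ⟨Q, hQ⟩ := RA6_down (n := n) hl0 (by omega : d = l * n + (l - 1) + 0) (by omega)
      (by omega) _ (fun i hi => by
        have h3 := h2 i hi
        have h4 : (i : ℕ) + 1 ≡ (l - 1) + 1 [MOD l] := by
          refine h3.trans ?_
          rw [Nat.sub_add_cancel (by omega)]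
          exact (Nat.modEq_zero_iff_dvd.mpr (dvd_refl l)).symm
        exact Nat.ModEq.add_right_cancel' 1 h4)
    dsimp only at hP hQ
    refine ⟨SM.pair ⟨_, RA6_mul P 0 1 rfl⟩ ⟨_, RA6_mul Q 1 0 rfl⟩, fun v => ⟨?_, ?_⟩⟩
    · rw [hP]
      show _ = v 0 * ((v 0 ^ l) ^ 0 * (v 1 ^ l) ^ 1 * P.1 ![v 0 ^ l, v 1 ^ l])
      have := hll (v 1)
      linear_combination (-(v 0 * P.1 ![v 0 ^ l, v 1 ^ l])) * this
    · rw [hQ]
      show _ = v 1 * ((v 0 ^ l) ^ 1 * (v 1 ^ l) ^ 0 * Q.1 ![v 0 ^ l, v 1 ^ l])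
      have := hll (v 0)
      linear_combination (-(v 1 * Q.1 ![v 0 ^ l, v 1 ^ l])) * this
  · intro F0 F h0 h1 hR
    have b0 : ∀ v : Fin 2 → k, v 1 * F.1 v 0 = F0.1 ![v 0 ^ l, v 1 ^ l] 0 := by
      have h2 : (⟨_, RA6_mul ⟨fun v => F.1 v 0, F.2 0⟩ 0 1 rfl⟩ -
          ⟨_, RA6_up (d := d + 1) (l := l) (n := n + 1) (r := 0) (s := 0) (by omega)
            ⟨fun v => F0.1 v 0, F0.2 0⟩⟩ : Form k (d + 1)) = 0 := by
        refine RA6_zero _ (fun v hv0 hv1 => ?_)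
        show v 0 ^ 0 * v 1 ^ 1 * F.1 v 0 - v 0 ^ 0 * v 1 ^ 0 * F0.1 ![v 0 ^ l, v 1 ^ l] 0 = 0
        refine mul_left_cancel₀ hv0 ?_
        have := (hR v).1
        linear_combination this
      intro v
      have h3 : v 0 ^ 0 * v 1 ^ 1 * F.1 v 0 - v 0 ^ 0 * v 1 ^ 0 * F0.1 ![v 0 ^ l, v 1 ^ l] 0 = 0 :=
        congrFun (congrArg Subtype.val h2) v
      linear_combination h3
    have b1 : ∀ v : Fin 2 → k, v 0 * F.1 v 1 = F0.1 ![v 0 ^ l, v 1 ^ l] 1 := by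
      have h2 : (⟨_, RA6_mul ⟨fun v => F.1 v 1, F.2 1⟩ 1 0 rfl⟩ -
          ⟨_, RA6_up (d := d + 1) (l := l) (n := n + 1) (r := 0) (s := 0) (by omega)
            ⟨fun v => F0.1 v 1, F0.2 1⟩⟩ : Form k (d + 1)) = 0 := by
        refine RA6_zero _ (fun v hv0 hv1 => ?_)
        show v 0 ^ 1 * v 1 ^ 0 * F.1 v 1 - v 0 ^ 0 * v 1 ^ 0 * F0.1 ![v 0 ^ l, v 1 ^ l] 1 = 0
        refine mul_left_cancel₀ hv1 ?_
        have := (hR v).2
        linear_combination this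
      intro v
      have h3 : v 0 ^ 1 * v 1 ^ 0 * F.1 v 1 - v 0 ^ 0 * v 1 ^ 0 * F0.1 ![v 0 ^ l, v 1 ^ l] 1 = 0 :=
        congrFun (congrArg Subtype.val h2) v
      linear_combination h3
    have a0 : F0.1 (e0 k) 0 = 0 := by
      have := b0 (e0 k)
      rw [RA6_we0 hl0] at this
      simpa [e0] using this.symm
    have a1 : F0.1 (e1 k) 1 = 0 := by
      have := b1 (e1 k)
      rw [RA6_we1 hl0] at this
      simpa [e1] using this.symm
    have a2 : F0.1 (e1 k) 0 = F.1 (e1 k) 0 := by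
      have := b0 (e1 k)
      rw [RA6_we1 hl0] at this
      simpa [e1] using this.symm
    have a3 : F0.1 (e0 k) 1 = F.1 (e0 k) 1 := by
      have := b1 (e0 k)
      rw [RA6_we0 hl0] at this
      simpa [e0] using this.symm
    obtain ⟨ζ, hζ⟩ := RA6_prim k hl0
    have hζl : ζ ^ l = 1 := by rw [← hζ, pow_orderOf_eq_one]
    have hc := RA6_coef F ζ (ζ ^ 1) (RA6_R_fix hR ζ hζl)
    have a4 : F.1 (e0 k) 0 = 0 := by
      by_contra hne
      have h2 := (hc (Fin.last d)).1 (by rw [← RA6_e0]; exact hne)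
      rw [← pow_add, Fin.val_last] at h2
      have h3 : ζ ^ (1 + d) = ζ ^ 1 := by rw [h2, pow_one]
      have h4 : ζ ^ (1 + d) = 1 := by rw [add_comm, hd, pow_mul, hζl, one_pow]
      rw [h4, pow_one] at h3
      rw [← h3, orderOf_one] at hζ
      omega
    have a5 : F.1 (e1 k) 1 = 0 := by
      by_contra hne
      have h2 := (hc 0).2 (by rw [← RA6_e1]; exact hne)
      rw [Fin.val_zero, pow_zero, mul_one, pow_one] at h2
      rw [h2, orderOf_one] at hζ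
      omega
    have key : Projectivization.mk k F0 h0 ∈ Bs k (n + 1) ↔
        Projectivization.mk k F h1 ∈ Bs k d := by
      rw [RA6_memB, RA6_memB, RA6_open_iff hl0 hR, a0, a1, a2, a3, a4, a5]
    rw [key]
    constructor
    · intro hA
      exact ⟨hA, (RA6_fix_mk h1).mpr ⟨hA.1, fun c hc => ⟨_, RA6_R_fix hR c hc⟩⟩⟩
    · exact fun hA => hA.1

theorem fix_B_empty (d l : ℕ) (hl : 2 ≤ l) (hd : ∀ m, d + 1 ≠ l * m) :
    Bs k d ∩ (RA k d 1).fixl l (RatP k d) = ∅ := by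
  rw [Set.eq_empty_iff_forall_notMem]
  intro p hp
  induction p using Projectivization.ind with
  | h F h0 =>
    obtain ⟨_, _, h1⟩ := RA6_fixB (by omega : 0 < l) F h0 hp
    obtain ⟨m, hm⟩ := Nat.modEq_zero_iff_dvd.mp h1
    exact hd m hm

/-! ### The total -/

private theorem RA6_w_Ms (m : ℕ) (a : ℤ) (p : ℙ k (SM k m)) :
    (RA k m a).w p ∈ Ms k m ↔ p ∈ Ms' k m := by
  have hst : (RA k m a).w p ∈ RatP k m ↔ p ∈ RatP k m := by
    constructor
    · intro h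
      have := (RatP_st (k := k) m a).w_mem _ h
      rwa [(RA k m a).w_w] at this
    · exact (RatP_st (k := k) m a).w_mem p
  induction p using Projectivization.ind with
  | h F h0 =>
    have h4 : (RA k m a).w (Projectivization.mk k F h0) =
        ptwo (sw k) (sw k) (Projectivization.mk k F h0) := rfl
    have hz : ∀ {G : SM k m} (hG : G ≠ 0) (v i), (Projectivization.mk k G hG).rep.1 v i = 0 ↔
      G.1 v i = 0 := fun hG v i => not_iff_not.mp (rep_ne_iff hG v i)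
    show (_ ∧ _ ∧ _) ↔ (_ ∧ _ ∧ _)
    rw [hst, h4, ptwo_mk, rep_ne_iff, hz, hz, rep_ne_iff]
    have e1' : (SM.two (sw k) (sw k) F).1 (e0 k) 0 = F.1 (e1 k) 1 := by
      rw [RA6_two, RA6_sw, RA6_swi]
      rfl
    have e2' : (SM.two (sw k) (sw k) F).1 (e1 k) 1 = F.1 (e0 k) 0 := by
      rw [RA6_two, RA6_sw, RA6_swi]
      rfl
    rw [e1', e2']
    tauto

private theorem RA6_M {A : NA k Y} {s : Set Y} (hs : A.St s) (d l : ℕ)
    (fin : (A.prod (RA k d 1)).toTA.Fin (s ×ˢ RatP k d)) :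
    NGood 1 (A.prod (RA k d 1)) (s ×ˢ ((RA k d 1).fixl l (RatP k d) \ (As k d ∪ Bs k d))) := by
  have hS : (RA k d 1).St ((RA k d 1).fixl l (RatP k d)) := (RatP_st d 1).fixl l
  have hT : (RA k d 1).St ((RA k d 1).fixl l (RatP k d) \ (As k d ∪ Bs k d)) :=
    hS.diff ((As_st d 1).union (Bs_st d 1))
  have hM : (RA k d 1).toTA.St (Ms k d ∩ (RA k d 1).fixl l (RatP k d)) :=
    (Ms_st d 1).inter hS.toSt
  have hw : ∀ p, (RA k d 1).w p ∈ (RA k d 1).fixl l (RatP k d) ↔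
      p ∈ (RA k d 1).fixl l (RatP k d) := by
    intro p
    constructor
    · intro h
      have := hS.w_mem _ h
      rwa [(RA k d 1).w_w] at this
    · exact hS.w_mem p
  refine good_induced (s0 := s ×ˢ (Ms k d ∩ (RA k d 1).fixl l (RatP k d))) (hs.prod _ hT)
    (hs.toSt.prod _ hM) ?_ ?_ ?_
  · rintro ⟨y, p⟩
    have h1 : A.w y ∈ s ↔ y ∈ s := by
      constructor
      · intro h
        have := hs.w_mem _ h
        rwa [A.w_w] at this
      · exact hs.w_mem y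
    have h2 := RA6_w_Ms (k := k) d 1 p
    show (y ∈ s ∧ _ ∧ _) ↔ ((y ∈ s ∧ _ ∧ _) ∨ (A.w y ∈ s ∧ (RA k d 1).w p ∈ Ms k d ∧
      (RA k d 1).w p ∈ (RA k d 1).fixl l (RatP k d)))
    rw [h1, h2, hw]
    constructor
    · rintro ⟨hy, hf, hn⟩
      have hR : p ∈ RatP k d := hf.1
      by_cases ha : p.rep.1 (e0 k) 0 = 0
      · by_cases hb : p.rep.1 (e1 k) 1 = 0
        · exact absurd (Or.inr ⟨hR, ha, hb⟩) hn
        · exact Or.inr ⟨hy, ⟨hR, ha, hb⟩, hf⟩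
      · by_cases hb : p.rep.1 (e1 k) 1 = 0
        · exact Or.inl ⟨hy, ⟨hR, ha, hb⟩, hf⟩
        · exact absurd (Or.inl ⟨hR, ha, hb⟩) hn
    · rintro (⟨hy, ⟨hR, ha, hb⟩, hf⟩ | ⟨hy, ⟨hR, ha, hb⟩, hf⟩)
      · refine ⟨hy, hf, ?_⟩
        rintro (⟨_, _, hb'⟩ | ⟨_, ha', _⟩)
        · exact hb' hb
        · exact ha ha'
      · refine ⟨hy, hf, ?_⟩
        rintro (⟨_, ha', _⟩ | ⟨_, _, hb'⟩)
        · exact ha' ha
        · exact hb hb'
  · rintro ⟨y, p⟩ ⟨_, hp, _⟩ ⟨_, hp', _⟩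
    have h2 := (RA6_w_Ms (k := k) d 1 p).mp hp'
    exact hp.2.1 h2.2.1
  · rintro ⟨y, p⟩ ⟨hy, hp, _⟩
    exact fin (y, p) ⟨hy, hp.1⟩

private theorem RA6_total {A : NA k Y} {s : Set Y} (hs : A.St s) (d l : ℕ) (hl : 2 ≤ l)
    (fin : (A.prod (RA k d 1)).toTA.Fin (s ×ˢ RatP k d))
    (hA : ∀ m, d = l * m + 1 → NGood 1 (A.prod ((RA k m 0).pull l)) (s ×ˢ As k m))
    (hB : ∀ m, d + 1 = l * m → NGood 1 (A.prod ((RA k m 0).pull l)) (s ×ˢ Bs k m)) :
    NGood 1 (A.prod (RA k d 1)) (s ×ˢ (RA k d 1).fixl l (RatP k d)) := by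
  have g1 : NGood 1 (A.prod (RA k d 1)) (s ×ˢ (As k d ∩ (RA k d 1).fixl l (RatP k d))) := by
    by_cases h : ∃ m, d = l * m + 1
    · obtain ⟨m, hm⟩ := h
      exact fix_A hs d l m hl hm (hA m hm)
    · rw [fix_A_empty d l hl (fun m hm => h ⟨m, hm⟩), Set.prod_empty]
      exact NGood.empty 1 _
  have g2 : NGood 1 (A.prod (RA k d 1)) (s ×ˢ (Bs k d ∩ (RA k d 1).fixl l (RatP k d))) := by
    by_cases h : ∃ m, d + 1 = l * m
    · obtain ⟨m, hm⟩ := h
      exact fix_B hs d l m hl hm (hB m hm)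
    · rw [fix_B_empty d l hl (fun m hm => h ⟨m, hm⟩), Set.prod_empty]
      exact NGood.empty 1 _
  have g3 := RA6_M hs d l fin
  have d1 : Disjoint (s ×ˢ (As k d ∩ (RA k d 1).fixl l (RatP k d)))
      (s ×ˢ (Bs k d ∩ (RA k d 1).fixl l (RatP k d))) := by
    rw [Set.disjoint_left]
    rintro ⟨y, p⟩ ⟨_, h1, _⟩ ⟨_, h2, _⟩
    exact h1.2.1 h2.2.1
  have g4 := g1.union g2 d1
  have d2 : Disjoint ((s ×ˢ (As k d ∩ (RA k d 1).fixl l (RatP k d))) ∪
      (s ×ˢ (Bs k d ∩ (RA k d 1).fixl l (RatP k d))))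
      (s ×ˢ ((RA k d 1).fixl l (RatP k d) \ (As k d ∪ Bs k d))) := by
    rw [Set.disjoint_left]
    rintro ⟨y, p⟩ (⟨_, h1, _⟩ | ⟨_, h1, _⟩) ⟨_, _, h2⟩
    · exact h2 (Or.inl h1)
    · exact h2 (Or.inr h1)
  have g5 := g4.union g3 d2
  have heq : s ×ˢ (RA k d 1).fixl l (RatP k d) =
      ((s ×ˢ (As k d ∩ (RA k d 1).fixl l (RatP k d))) ∪
      (s ×ˢ (Bs k d ∩ (RA k d 1).fixl l (RatP k d)))) ∪
      (s ×ˢ ((RA k d 1).fixl l (RatP k d) \ (As k d ∪ Bs k d))) := by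
    ext ⟨y, p⟩
    simp only [Set.mem_prod, Set.mem_union, Set.mem_inter_iff, Set.mem_sdiff]
    tauto
  rw [heq]
  exact g5

/-- R6, products with a good space (all `d ≥ 0`). -/
theorem rat_fix_prod {A : NA k Y} {s : Set Y} (h : NGood 1 A s) (d l : ℕ) (hl : 2 ≤ l) :
    NGood 1 (A.prod (RA k d 1)) (s ×ˢ (RA k d 1).fixl l (RatP k d)) := by
  refine RA6_total h.st d l hl ?_ ?_ ?_
  · rintro ⟨y, p⟩ ⟨hy, _⟩
    refine (h.fin y hy).subset (fun c hc => ?_)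
    exact congrArg Prod.fst (hc : (A.prod (RA k d 1)).t c (y, p) = (y, p))
  · intro m _
    exact (A_good h m l 0 (by omega)).1
  · intro m hm
    have hm1 : 1 ≤ m := by
      rcases m with _ | m
      · omega
      · omega
    exact (B_iso h.st m l 0 hm1).2.2 (A_good h (m - 1) l (-0 - 1) (by omega)).1

/-- R6, `d ≥ 2`. -/
theorem rat_fix (d l : ℕ) (hd : 2 ≤ d) (hl : 2 ≤ l) :
    NGood 1 (RA k d 1) ((RA k d 1).fixl l (RatP k d)) := by
  have hu : (NA.triv k).St Set.univ := NA.St.univ _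
  refine ((triv_prod ((RatP_st d 1).fixl l)).2.2 1).mp ?_
  refine RA6_total hu d l hl ?_ ?_ ?_
  · rintro ⟨y, p⟩ ⟨_, hp⟩
    refine ((rat_N (k := k) d hd).1.fin p hp).subset (fun c hc => ?_)
    exact congrArg Prod.snd (hc : ((NA.triv k).prod (RA k d 1)).t c (y, p) = (y, p))
  · intro m hm
    refine ((triv_prod ((As_st m 0).pull l)).2.2 1).mpr (A_good0 m l 0 (by omega) ?_).1
    rintro h0
    have : m = 0 := by exact_mod_cast h0
    subst this
    omega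
  · intro m hm
    have hm1 : 1 ≤ m := by
      rcases m with _ | m
      · omega
      · omega
    refine ((triv_prod ((Bs_st m 0).pull l)).2.2 1).mpr ((B_iso0 m l 0 hm1).2.2
      (A_good0 (m - 1) l (-0 - 1) (by omega) ?_).1)
    omega

/-- The strata of `Rat_d`. -/
theorem rat_stl (d l : ℕ) (hd : 2 ≤ d) (hl : 2 ≤ l) :
    NGood 1 (RA k d 1) ((RA k d 1).stl l (RatP k d)) :=
  stl_good (rat_N d hd).1.st (rat_N d hd).1.fin (fun l hl => rat_fix d l hd hl) l hl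

end Pool.Agent.MRat
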