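import Pool.Agent.Lib.MP_923aff_ag.GCD
import Pool.Agent.Lib.MP_923aff_ag.NA5
import Pool.Agent.Lib.MP_923aff_ag.NA6
import Pool.Agent.Lib.MP_923aff_ag.QA
/-!
# JOB RDEF: rational functions as `N`-spaces (definitions and first properties)
-/

set_option autoImplicit false

namespace Pool.Agent.MRat

open scoped MatrixGroups LinearAlgebra.Projectivization

noncomputable section

variable {k : Type} [Field k] [IsAlgClosed k] [CharZero k]
variable {X Y Z : Type} [DT k X] [DT k Y] [DT k Z]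

/-- diagonal matrices -/
def dg (a b : kˣ) : GL (Fin 2) k :=
  Matrix.GeneralLinearGroup.mkOfDetNeZero !![(a : k), 0; 0, (b : k)]
    (by simp [Matrix.det_fin_two_of])

/-- the permutation matrix -/
def sw (k : Type) [Field k] : GL (Fin 2) k :=
  Matrix.GeneralLinearGroup.mkOfDetNeZero !![(0 : k), 1; 1, 0] (by simp [Matrix.det_fin_two_of])

/-! The torus `tor c = gm c 0 0 1` and the element `swp k = gm 0 1 1 0` of `PGL(2, k)` with their
properties `tor_one`, `tor_mul`, `tor_inj`, `swp_mul_self`, `swp_tor` are in `FGH.lean`. -/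

private theorem rdef_dg_coe (a b : kˣ) :
    ((dg a b : GL (Fin 2) k) : Matrix (Fin 2) (Fin 2) k) = !![(a : k), 0; 0, (b : k)] := rfl

private theorem rdef_sw_coe :
    ((sw k : GL (Fin 2) k) : Matrix (Fin 2) (Fin 2) k) = !![(0 : k), 1; 1, 0] := rfl

private theorem rdef_dg_one : dg (1 : kˣ) 1 = 1 := by
  apply Units.ext
  rw [rdef_dg_coe]
  ext i j
  fin_cases i <;> fin_cases j <;> simp

private theorem rdef_dg_mul (a b c d : kˣ) : dg (a * c) (b * d) = dg a b * dg c d := by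
  apply Units.ext
  rw [Units.val_mul, rdef_dg_coe, rdef_dg_coe, rdef_dg_coe]
  ext i j
  fin_cases i <;> fin_cases j <;> simp [Matrix.mul_apply, Fin.sum_univ_two]

private theorem rdef_sw_sw : sw k * sw k = 1 := by
  apply Units.ext
  rw [Units.val_mul, rdef_sw_coe]
  ext i j
  fin_cases i <;> fin_cases j <;> simp [Matrix.mul_apply, Fin.sum_univ_two]

private theorem rdef_sw_dg (a b : kˣ) : sw k * dg a b = dg b a * sw k := by
  apply Units.ext
  rw [Units.val_mul, Units.val_mul, rdef_dg_coe, rdef_dg_coe, rdef_sw_coe]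
  ext i j
  fin_cases i <;> fin_cases j <;> simp [Matrix.mul_apply, Fin.sum_univ_two]

private theorem rdef_scalar_coe (u : kˣ) :
    ((Matrix.GeneralLinearGroup.scalar (Fin 2) u : GL (Fin 2) k) : Matrix (Fin 2) (Fin 2) k) =
      !![(u : k), 0; 0, (u : k)] := by
  ext i j
  fin_cases i <;> fin_cases j <;> simp [Matrix.GeneralLinearGroup.coe_scalar]

private theorem rdef_scalar_comm (u : kˣ) (g : GL (Fin 2) k) :
    Matrix.GeneralLinearGroup.scalar (Fin 2) u * g =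
      g * Matrix.GeneralLinearGroup.scalar (Fin 2) u := by
  apply Units.ext
  rw [Units.val_mul, Units.val_mul, rdef_scalar_coe]
  ext i j
  fin_cases i <;> fin_cases j <;> simp [Matrix.mul_apply, Fin.sum_univ_two, mul_comm]

private theorem rdef_dg_scalar (a : kˣ) :
    dg a⁻¹ 1 * Matrix.GeneralLinearGroup.scalar (Fin 2) a = dg 1 a := by
  apply Units.ext
  rw [Units.val_mul, rdef_dg_coe, rdef_dg_coe, rdef_scalar_coe]
  ext i j
  fin_cases i <;> fin_cases j <;> simp [Matrix.mul_apply, Fin.sum_univ_two]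

theorem tor_eq (c : kˣ) : tor c = Matrix.ProjGenLinGroup.mk (dg c 1) := by
  unfold tor gm
  congr 1

theorem swp_eq : swp k = Matrix.ProjGenLinGroup.mk (sw k) := rfl

@[fun_prop]
theorem DM.dg {f g : X → kˣ} (hf : DM k f) (hg : DM k g) : DM k (fun x => dg (f x) (g x)) := by
  refine DM.to_gl (DM.matrix (fun i j => ?_))
  have h1 : DM k (fun x => ((f x : kˣ) : k)) := by fun_prop
  have h2 : DM k (fun x => ((g x : kˣ) : k)) := by fun_prop
  have h3 : DM k (fun _ : X => (0 : k)) := by fun_prop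
  fin_cases i <;> fin_cases j
  · exact h1.congr fun x => rfl
  · exact h3.congr fun x => rfl
  · exact h3.congr fun x => rfl
  · exact h2.congr fun x => rfl

/-- The `N`-space underlying a space with an action of `PGL₂`. -/
@[simps!] def NA.ofPGL (k Y : Type) [Field k] [IsAlgClosed k] [CharZero k] [DT k Y]
    [MulAction PGL(2, k) Y] [DAct k PGL(2, k) Y] : NA k Y where
  t c y := tor c • y
  t_one y := by rw [tor_one, one_smul]
  t_mul a b y := by rw [← tor_mul, mul_smul]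
  dt := by fun_prop
  w y := swp k • y
  w_w y := by rw [← mul_smul, swp_mul_self, one_smul]
  w_t a y := by
    rw [← swp_tor, mul_smul, mul_smul, ← mul_smul (swp k) (swp k), swp_mul_self, one_smul]
  dw := by fun_prop

/-- The `N`-space of forms of degree `g`. -/
abbrev FA (k : Type) [Field k] [IsAlgClosed k] [CharZero k] (g : ℕ) : NA k (ℙ k (Form k g)) :=
  NA.ofPGL k (ℙ k (Form k g))

/-- `F ↦ a F b⁻¹`. -/
def SM.two {m : ℕ} (a b : GL (Fin 2) k) (F : SM k m) : SM k m :=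
  ⟨fun v => a • F.1 (b⁻¹ • v), by
    intro i
    have h0 := form_comp (⟨fun v => F.1 v 0, F.2 0⟩ : Form k m)
      ((b⁻¹ : GL (Fin 2) k) : Matrix (Fin 2) (Fin 2) k)
    have h1 := form_comp (⟨fun v => F.1 v 1, F.2 1⟩ : Form k m)
      ((b⁻¹ : GL (Fin 2) k) : Matrix (Fin 2) (Fin 2) k)
    have h2 := (Form k m).add_mem
      ((Form k m).smul_mem ((a : Matrix (Fin 2) (Fin 2) k) i 0) h0)
      ((Form k m).smul_mem ((a : Matrix (Fin 2) (Fin 2) k) i 1) h1)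
    have e : (fun v => (a • F.1 (b⁻¹ • v)) i) =
        ((a : Matrix (Fin 2) (Fin 2) k) i 0) • (fun v => F.1
          (((b⁻¹ : GL (Fin 2) k) : Matrix (Fin 2) (Fin 2) k).mulVec v) 0) +
        ((a : Matrix (Fin 2) (Fin 2) k) i 1) • (fun v => F.1
          (((b⁻¹ : GL (Fin 2) k) : Matrix (Fin 2) (Fin 2) k).mulVec v) 1) := by
      funext v
      show ((a : Matrix (Fin 2) (Fin 2) k).mulVec (F.1 (b⁻¹ • v))) i = _
      rw [Matrix.mulVec, dotProduct, Fin.sum_univ_two]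
      rfl
    rw [e]
    exact h2⟩

private theorem rdef_two_apply {m : ℕ} (a b : GL (Fin 2) k) (F : SM k m) (v : Fin 2 → k) :
    (SM.two a b F).1 v = a • F.1 (b⁻¹ • v) := rfl

theorem SM.two_ne {m : ℕ} (a b : GL (Fin 2) k) {F : SM k m} (hF : F ≠ 0) : SM.two a b F ≠ 0 := by
  intro h
  apply hF
  apply Subtype.ext
  funext v
  have h1 := congrFun (congrArg Subtype.val h) (b • v)
  rw [rdef_two_apply, inv_smul_smul] at h1
  have h2 : a • F.1 v = 0 := h1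
  rw [smul_eq_zero_iff_eq] at h2
  exact h2

private theorem rdef_two_smul {m : ℕ} (a b : GL (Fin 2) k) (c : k) (F : SM k m) :
    SM.two a b (c • F) = c • SM.two a b F := by
  apply Subtype.ext
  funext v
  show a • (c • F.1 (b⁻¹ • v)) = c • (a • F.1 (b⁻¹ • v))
  exact smul_comm _ _ _

/-- The induced map on the projective space. -/
def ptwo {m : ℕ} (a b : GL (Fin 2) k) (p : ℙ k (SM k m)) : ℙ k (SM k m) :=
  Projectivization.mk k (SM.two a b p.rep) (SM.two_ne a b p.rep_nonzero)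

theorem ptwo_mk {m : ℕ} (a b : GL (Fin 2) k) {F : SM k m} (hF : F ≠ 0) :
    ptwo a b (Projectivization.mk k F hF) = Projectivization.mk k (SM.two a b F) (SM.two_ne a b hF)
    := by
  unfold ptwo
  obtain ⟨u, hu⟩ := Projectivization.exists_smul_eq_mk_rep k F hF
  rw [Projectivization.mk_eq_mk_iff]
  refine ⟨u, ?_⟩
  rw [Units.smul_def, ← rdef_two_smul, ← Units.smul_def, hu]

theorem ptwo_self {m : ℕ} (a : GL (Fin 2) k) (p : ℙ k (SM k m)) :
    ptwo a a p = (Matrix.ProjGenLinGroup.mk a : PGL(2, k)) • p := by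
  induction p using Projectivization.ind with
  | h F hF =>
    rw [ptwo_mk, sm_pgl_mk]
    rfl

theorem ptwo_ptwo {m : ℕ} (a b c d : GL (Fin 2) k) (p : ℙ k (SM k m)) :
    ptwo a b (ptwo c d p) = ptwo (a * c) (b * d) p := by
  induction p using Projectivization.ind with
  | h F hF =>
    rw [ptwo_mk, ptwo_mk, ptwo_mk]
    congr 1
    apply Subtype.ext
    funext v
    rw [rdef_two_apply, rdef_two_apply, rdef_two_apply, mul_inv_rev, mul_smul, mul_smul]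

private theorem rdef_ptwo_one {m : ℕ} (p : ℙ k (SM k m)) : ptwo 1 1 p = p := by
  induction p using Projectivization.ind with
  | h F hF =>
    rw [ptwo_mk]
    congr 1
    apply Subtype.ext
    funext v
    rw [rdef_two_apply, inv_one, one_smul, one_smul]

private theorem rdef_scalar_smul (u : kˣ) (v : Fin 2 → k) :
    Matrix.GeneralLinearGroup.scalar (Fin 2) u • v = (u : k) • v := by
  show ((Matrix.GeneralLinearGroup.scalar (Fin 2) u : GL (Fin 2) k) :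
    Matrix (Fin 2) (Fin 2) k).mulVec v = _
  rw [rdef_scalar_coe]
  funext i
  fin_cases i <;> simp [Matrix.mulVec, dotProduct, Fin.sum_univ_two]

theorem ptwo_scalar {m : ℕ} (a b : GL (Fin 2) k) (u v : kˣ) (p : ℙ k (SM k m)) :
    ptwo (a * Matrix.GeneralLinearGroup.scalar (Fin 2) u)
      (b * Matrix.GeneralLinearGroup.scalar (Fin 2) v) p = ptwo a b p := by
  induction p using Projectivization.ind with
  | h F hF =>
    rw [ptwo_mk, ptwo_mk, Projectivization.mk_eq_mk_iff]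
    refine ⟨u * v⁻¹ ^ m, ?_⟩
    apply Subtype.ext
    funext w
    have h1 : (b * Matrix.GeneralLinearGroup.scalar (Fin 2) v)⁻¹ • w =
        ((v⁻¹ : kˣ) : k) • (b⁻¹ • w) := by
      rw [mul_inv_rev, ← map_inv, mul_smul, rdef_scalar_smul]
    show ((u * v⁻¹ ^ m : kˣ) : k) • (a • F.1 (b⁻¹ • w)) =
      (a * Matrix.GeneralLinearGroup.scalar (Fin 2) u) •
        F.1 ((b * Matrix.GeneralLinearGroup.scalar (Fin 2) v)⁻¹ • w)
    have h2 : ∀ x : Fin 2 → k, (a * Matrix.GeneralLinearGroup.scalar (Fin 2) u) • x =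
        (u : k) • (a • x) := fun x => by
      rw [mul_smul, rdef_scalar_smul, smul_comm]
    rw [h1, sm_smul, h2, Units.val_mul, Units.val_pow_eq_pow_val, mul_smul, smul_comm a]

@[fun_prop]
theorem DM.ptwo {m : ℕ} {f g : X → GL (Fin 2) k} {h : X → ℙ k (SM k m)} (hf : DM k f)
    (hg : DM k g) (hh : DM k h) : DM k (fun x => ptwo (f x) (g x) (h x)) := by
  have htwo : DM k (fun q : (GL (Fin 2) k × GL (Fin 2) k) × SM k m =>
      SM.two q.1.1 q.1.2 q.2) := by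
    have hF : DM k (fun q : (GL (Fin 2) k × GL (Fin 2) k) × SM k m => MRat.smE k m q.2) := by fun_prop
    have hF0 : DM k (fun q : (GL (Fin 2) k × GL (Fin 2) k) × SM k m =>
        q.1.2 • (MRat.smE k m q.2).1) := DM.smul (by fun_prop) hF.fst
    have hF1 : DM k (fun q : (GL (Fin 2) k × GL (Fin 2) k) × SM k m =>
        q.1.2 • (MRat.smE k m q.2).2) := DM.smul (by fun_prop) hF.snd
    have ha : ∀ i j, DM k (fun q : (GL (Fin 2) k × GL (Fin 2) k) × SM k m =>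
        ((q.1.1 : GL (Fin 2) k) : Matrix (Fin 2) (Fin 2) k) i j) := fun i j =>
      DM.entry (by fun_prop) i j
    have h1 : DM k (fun q : (GL (Fin 2) k × GL (Fin 2) k) × SM k m => SM.pair
        (((q.1.1 : GL (Fin 2) k) : Matrix (Fin 2) (Fin 2) k) 0 0 • (q.1.2 • (MRat.smE k m q.2).1) +
          ((q.1.1 : GL (Fin 2) k) : Matrix (Fin 2) (Fin 2) k) 0 1 • (q.1.2 • (MRat.smE k m q.2).2))
        (((q.1.1 : GL (Fin 2) k) : Matrix (Fin 2) (Fin 2) k) 1 0 • (q.1.2 • (MRat.smE k m q.2).1) +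
          ((q.1.1 : GL (Fin 2) k) : Matrix (Fin 2) (Fin 2) k) 1 1 • (q.1.2 • (MRat.smE k m q.2).2))) :=
      DM.sm_pair (DM.vadd (V := Form k m) (DM.vsmul (V := Form k m) (ha 0 0) hF0)
          (DM.vsmul (V := Form k m) (ha 0 1) hF1))
        (DM.vadd (V := Form k m) (DM.vsmul (V := Form k m) (ha 1 0) hF0)
          (DM.vsmul (V := Form k m) (ha 1 1) hF1))
    refine h1.congr (fun q => ?_)
    apply Subtype.ext
    funext v i
    rw [rdef_two_apply]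
    show _ = ((q.1.1 : GL (Fin 2) k) : Matrix (Fin 2) (Fin 2) k).mulVec
      (q.2.1 (q.1.2⁻¹ • v)) i
    rw [Matrix.mulVec, dotProduct, Fin.sum_univ_two]
    fin_cases i <;> rfl
  refine DM.of_graph (R := fun x q => ∃ F : SM k m, MRat.isrep F (h x) ∧
    MRat.isrep (SM.two (f x) (g x) F) q) ?_ ?_
  · refine DM.ex (DM.and (DM.isrep (by fun_prop) (DM.comp hh (by fun_prop)))
      (DM.isrep ?_ (by fun_prop)))
    have hf' : DM k (fun q : (X × ℙ k (SM k m)) × SM k m => f q.1.1) := DM.comp hf (by fun_prop)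
    have hg' : DM k (fun q : (X × ℙ k (SM k m)) × SM k m => g q.1.1) := DM.comp hg (by fun_prop)
    have h3 : DM k (fun q : (X × ℙ k (SM k m)) × SM k m => ((f q.1.1, g q.1.1), q.2)) :=
      (hf'.mk hg').mk (DM.snd DM.id')
    have h4 := DM.comp htwo h3
    exact h4
  · intro x q
    constructor
    · rintro ⟨F, ⟨hF, hx⟩, ⟨hF', hq⟩⟩
      rw [← hq, ← hx, ptwo_mk]
    · rintro rfl
      refine ⟨(h x).rep, ⟨(h x).rep_nonzero, Projectivization.mk_rep _⟩, ⟨SM.two_ne _ _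
        (h x).rep_nonzero, rfl⟩⟩

/-- The `N`-space `Rat_m` with `T` acting by `h ↦ t^a h(t⁻¹ z)` and `w` by `h ↦ 1 / h(1/z)`. -/
@[simps!] def RA (k : Type) [Field k] [IsAlgClosed k] [CharZero k] (m : ℕ) (a : ℤ) :
    NA k (ℙ k (SM k m)) where
  t c p := ptwo (dg (c ^ a) 1) (dg c 1) p
  t_one p := by rw [one_zpow, rdef_dg_one, rdef_ptwo_one]
  t_mul c d p := by
    rw [ptwo_ptwo, ← rdef_dg_mul, ← rdef_dg_mul, mul_zpow, one_mul]
  dt := by fun_prop
  w p := ptwo (sw k) (sw k) p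
  w_w p := by rw [ptwo_ptwo, rdef_sw_sw, rdef_ptwo_one]
  w_t c p := by
    rw [ptwo_ptwo, ptwo_ptwo, rdef_sw_dg, rdef_sw_dg, ← rdef_dg_scalar (c ^ a),
      ← rdef_dg_scalar c, mul_assoc, mul_assoc, rdef_scalar_comm, rdef_scalar_comm, ← mul_assoc,
      ← mul_assoc, ptwo_scalar, inv_zpow]
  dw := by fun_prop

private theorem rdef_ext {A B : NA k Y} (ht : A.t = B.t) (hw : A.w = B.w) : A = B := by
  rcases A with ⟨⟨t, _, _, _⟩, w, _, _, _⟩
  rcases B with ⟨⟨t', _, _, _⟩, w', _, _, _⟩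
  have ht' : t = t' := ht
  have hw' : w = w' := hw
  subst ht' hw'
  rfl

theorem RA_one (m : ℕ) : RA k m 1 = NA.ofPGL k (ℙ k (SM k m)) := by
  refine rdef_ext ?_ ?_
  · funext c p
    show ptwo (dg (c ^ (1 : ℤ)) 1) (dg c 1) p = tor c • p
    rw [zpow_one, ptwo_self]
    rfl
  · funext p
    show ptwo (sw k) (sw k) p = swp k • p
    rw [ptwo_self]
    rfl

/-- the points `∞ = (1:0)` and `0 = (0:1)` -/
def e0 (k : Type) [Field k] : Fin 2 → k := ![1, 0]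
def e1 (k : Type) [Field k] : Fin 2 → k := ![0, 1]

/-- forms `G` with `G(0) ≠ 0`, `G(∞) ≠ 0` -/
def Hs (k : Type) [Field k] [IsAlgClosed k] [CharZero k] (g : ℕ) : Set (ℙ k (Form k g)) :=
  {p | p.rep.1 (e0 k) ≠ 0 ∧ p.rep.1 (e1 k) ≠ 0}

/-- pairs `(P, Q)` with `P(∞) ≠ 0`, `Q(0) ≠ 0` -/
def PPs (k : Type) [Field k] [IsAlgClosed k] [CharZero k] (m : ℕ) : Set (ℙ k (SM k m)) :=
  {p | p.rep.1 (e0 k) 0 ≠ 0 ∧ p.rep.1 (e1 k) 1 ≠ 0}

/-- `h(∞) ≠ 0`, `h(0) ≠ ∞` -/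
def As (k : Type) [Field k] [IsAlgClosed k] [CharZero k] (m : ℕ) : Set (ℙ k (SM k m)) :=
  {p | p ∈ RatP k m ∧ p.rep.1 (e0 k) 0 ≠ 0 ∧ p.rep.1 (e1 k) 1 ≠ 0}

/-- `h(∞) = 0`, `h(0) = ∞` -/
def Bs (k : Type) [Field k] [IsAlgClosed k] [CharZero k] (m : ℕ) : Set (ℙ k (SM k m)) :=
  {p | p ∈ RatP k m ∧ p.rep.1 (e0 k) 0 = 0 ∧ p.rep.1 (e1 k) 1 = 0}

/-- `h(∞) ≠ 0`, `h(0) = ∞` -/
def Ms (k : Type) [Field k] [IsAlgClosed k] [CharZero k] (m : ℕ) : Set (ℙ k (SM k m)) :=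
  {p | p ∈ RatP k m ∧ p.rep.1 (e0 k) 0 ≠ 0 ∧ p.rep.1 (e1 k) 1 = 0}

/-- `h(∞) = 0`, `h(0) ≠ ∞` -/
def Ms' (k : Type) [Field k] [IsAlgClosed k] [CharZero k] (m : ℕ) : Set (ℙ k (SM k m)) :=
  {p | p ∈ RatP k m ∧ p.rep.1 (e0 k) 0 = 0 ∧ p.rep.1 (e1 k) 1 ≠ 0}

/-- pairs `(P, Q)` with `P(∞) ≠ 0`, `P(0) ≠ 0`, `Q(0) = 0` -/
def MMs (k : Type) [Field k] [IsAlgClosed k] [CharZero k] (m : ℕ) : Set (ℙ k (SM k m)) :=
  {p | p.rep.1 (e0 k) 0 ≠ 0 ∧ p.rep.1 (e1 k) 0 ≠ 0 ∧ p.rep.1 (e1 k) 1 = 0}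

private theorem rdef_form_ne {g : ℕ} {F : Form k g} (hF : F ≠ 0) (v : Fin 2 → k) :
    (Projectivization.mk k F hF).rep.1 v ≠ 0 ↔ F.1 v ≠ 0 := by
  obtain ⟨u, hu⟩ := Projectivization.exists_smul_eq_mk_rep k F hF
  rw [← hu]
  show (u : k) * F.1 v ≠ 0 ↔ F.1 v ≠ 0
  rw [mul_ne_zero_iff]
  exact ⟨fun h => h.2, fun h => ⟨u.ne_zero, h⟩⟩

theorem mem_Hs {g : ℕ} {F : Form k g} (hF : F ≠ 0) :
    Projectivization.mk k F hF ∈ Hs k g ↔ F.1 (e0 k) ≠ 0 ∧ F.1 (e1 k) ≠ 0 := by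
  rw [← rdef_form_ne hF (e0 k), ← rdef_form_ne hF (e1 k)]
  rfl

/-- Conditions on the values of the components at points do not depend on the representative. -/
theorem rep_ne_iff {m : ℕ} {F : SM k m} (hF : F ≠ 0) (v : Fin 2 → k) (i : Fin 2) :
    (Projectivization.mk k F hF).rep.1 v i ≠ 0 ↔ F.1 v i ≠ 0 := by
  obtain ⟨u, hu⟩ := Projectivization.exists_smul_eq_mk_rep k F hF
  rw [← hu]
  show (u : k) * F.1 v i ≠ 0 ↔ F.1 v i ≠ 0
  rw [mul_ne_zero_iff]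
  exact ⟨fun h => h.2, fun h => ⟨u.ne_zero, h⟩⟩

theorem dm_rep_ne {m : ℕ} (v : Fin 2 → k) (i : Fin 2) :
    DM k (fun p : ℙ k (SM k m) => p.rep.1 v i ≠ 0) := by
  have h0 : DM k (fun q : ℙ k (SM k m) × SM k m => q.2.1 v) :=
    DM.sm_eval (by fun_prop) (by fun_prop)
  have h1 : DM k (fun q : ℙ k (SM k m) × SM k m => q.2.1 v i) := DM.comp (DM.apply i) h0
  have h2 : DM k (fun p : ℙ k (SM k m) => ∃ F : SM k m, MRat.isrep F p ∧ F.1 v i ≠ 0) :=
    DM.ex (DM.and (DM.isrep (by fun_prop) (by fun_prop)) (DM.ne h1 (by fun_prop)))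
  refine h2.congr_iff (fun p => ?_)
  constructor
  · rintro ⟨F, ⟨hF, rfl⟩, h⟩
    exact (rep_ne_iff hF v i).2 h
  · intro h
    exact ⟨p.rep, ⟨p.rep_nonzero, Projectivization.mk_rep p⟩, h⟩

private theorem rdef_dm_rep_eq {m : ℕ} (v : Fin 2 → k) (i : Fin 2) :
    DM k (fun p : ℙ k (SM k m) => p.rep.1 v i = 0) :=
  (dm_rep_ne v i).not.congr_iff (fun p => not_not)

private theorem rdef_dg_inv (c d : kˣ) : (dg c d)⁻¹ = dg c⁻¹ d⁻¹ := by
  rw [inv_eq_iff_mul_eq_one, ← rdef_dg_mul, mul_inv_cancel, mul_inv_cancel, rdef_dg_one]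

private theorem rdef_sw_inv : (sw k)⁻¹ = sw k := by
  rw [inv_eq_iff_mul_eq_one, rdef_sw_sw]

private theorem rdef_dg_smul (c d : kˣ) (v : Fin 2 → k) :
    dg c d • v = ![(c : k) * v 0, (d : k) * v 1] := by
  show ((dg c d : GL (Fin 2) k) : Matrix (Fin 2) (Fin 2) k).mulVec v = _
  rw [rdef_dg_coe]
  funext i
  fin_cases i <;> simp [Matrix.mulVec, dotProduct, Fin.sum_univ_two]

private theorem rdef_sw_smul (v : Fin 2 → k) : sw k • v = ![v 1, v 0] := by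
  show ((sw k : GL (Fin 2) k) : Matrix (Fin 2) (Fin 2) k).mulVec v = _
  rw [rdef_sw_coe]
  funext i
  fin_cases i <;> simp [Matrix.mulVec, dotProduct, Fin.sum_univ_two]

private theorem rdef_dg_e0 (c d : kˣ) : dg c d • e0 k = (c : k) • e0 k := by
  rw [rdef_dg_smul]
  funext i
  fin_cases i <;> simp [e0]

private theorem rdef_dg_e1 (c d : kˣ) : dg c d • e1 k = (d : k) • e1 k := by
  rw [rdef_dg_smul]
  funext i
  fin_cases i <;> simp [e1]

private theorem rdef_sw_e0 : sw k • e0 k = e1 k := by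
  rw [rdef_sw_smul]
  funext i
  fin_cases i <;> simp [e0, e1]

private theorem rdef_sw_e1 : sw k • e1 k = e0 k := by
  rw [rdef_sw_smul]
  funext i
  fin_cases i <;> simp [e0, e1]

/-- `T` does not change the vanishing at `e0`. -/
private theorem rdef_t0 {m : ℕ} (a : ℤ) (c : kˣ) (p : ℙ k (SM k m)) (i : Fin 2) :
    ((RA k m a).t c p).rep.1 (e0 k) i ≠ 0 ↔ p.rep.1 (e0 k) i ≠ 0 := by
  induction p using Projectivization.ind with
  | h F hF =>
    show (ptwo (dg (c ^ a) 1) (dg c 1) (Projectivization.mk k F hF)).rep.1 (e0 k) i ≠ 0 ↔ _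
    rw [ptwo_mk, rep_ne_iff, rep_ne_iff, rdef_two_apply, rdef_dg_inv, rdef_dg_e0, sm_smul,
      rdef_dg_smul]
    fin_cases i
    · simp only [Fin.zero_eta, Fin.isValue, Matrix.cons_val_zero, Pi.smul_apply, smul_eq_mul]
      rw [mul_ne_zero_iff, mul_ne_zero_iff]
      exact ⟨fun h => h.2.2, fun h => ⟨Units.ne_zero _, pow_ne_zero _ (Units.ne_zero _), h⟩⟩
    · simp

private theorem rdef_t1 {m : ℕ} (a : ℤ) (c : kˣ) (p : ℙ k (SM k m)) (i : Fin 2) :
    ((RA k m a).t c p).rep.1 (e1 k) i ≠ 0 ↔ p.rep.1 (e1 k) i ≠ 0 := by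
  induction p using Projectivization.ind with
  | h F hF =>
    show (ptwo (dg (c ^ a) 1) (dg c 1) (Projectivization.mk k F hF)).rep.1 (e1 k) i ≠ 0 ↔ _
    rw [ptwo_mk, rep_ne_iff, rep_ne_iff, rdef_two_apply, rdef_dg_inv, rdef_dg_e1, sm_smul,
      rdef_dg_smul]
    fin_cases i
    · simp only [Fin.zero_eta, Fin.isValue, Matrix.cons_val_zero, Pi.smul_apply, smul_eq_mul]
      rw [mul_ne_zero_iff, mul_ne_zero_iff]
      exact ⟨fun h => h.2.2, fun h => ⟨Units.ne_zero _, pow_ne_zero _ (Units.ne_zero _), h⟩⟩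
    · simp

private theorem rdef_w0 {m : ℕ} (a : ℤ) (p : ℙ k (SM k m)) :
    ((RA k m a).w p).rep.1 (e0 k) 0 ≠ 0 ↔ p.rep.1 (e1 k) 1 ≠ 0 := by
  induction p using Projectivization.ind with
  | h F hF =>
    show (ptwo (sw k) (sw k) (Projectivization.mk k F hF)).rep.1 (e0 k) 0 ≠ 0 ↔ _
    rw [ptwo_mk, rep_ne_iff, rep_ne_iff, rdef_two_apply, rdef_sw_inv, rdef_sw_e0, rdef_sw_smul]
    simp

private theorem rdef_w1 {m : ℕ} (a : ℤ) (p : ℙ k (SM k m)) :
    ((RA k m a).w p).rep.1 (e1 k) 1 ≠ 0 ↔ p.rep.1 (e0 k) 0 ≠ 0 := by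
  induction p using Projectivization.ind with
  | h F hF =>
    show (ptwo (sw k) (sw k) (Projectivization.mk k F hF)).rep.1 (e1 k) 1 ≠ 0 ↔ _
    rw [ptwo_mk, rep_ne_iff, rep_ne_iff, rdef_two_apply, rdef_sw_inv, rdef_sw_e1, rdef_sw_smul]
    simp

private theorem rdef_eq_of_ne_iff {x y : k} (h : x ≠ 0 ↔ y ≠ 0) (hy : y = 0) : x = 0 := by
  by_contra hx
  exact h.1 hx hy

private theorem rdef_RatP {m : ℕ} (a b : GL (Fin 2) k) {p : ℙ k (SM k m)} (hp : p ∈ RatP k m) :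
    ptwo a b p ∈ RatP k m := by
  induction p using Projectivization.ind with
  | h F hF =>
    rw [mem_RatP] at hp
    rw [ptwo_mk, mem_RatP]
    intro v hv h
    rw [rdef_two_apply, smul_eq_zero_iff_eq] at h
    exact hp _ ((smul_ne_zero_iff_ne b⁻¹).mpr hv) h

theorem Hs_st (g : ℕ) : (FA k g).St (Hs k g) where
  ds := by
    have h0 : ∀ v : Fin 2 → k, DM k (fun q : ℙ k (Form k g) × Form k g => q.2.1 v) := fun v =>
      DM.form_eval (by fun_prop) (by fun_prop)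
    have h2 : DM k (fun p : ℙ k (Form k g) => ∃ F : Form k g, MRat.isrep F p ∧
        (F.1 (e0 k) ≠ 0 ∧ F.1 (e1 k) ≠ 0)) :=
      DM.ex (DM.and (DM.isrep (by fun_prop) (by fun_prop))
        (DM.and (DM.ne (h0 _) (by fun_prop)) (DM.ne (h0 _) (by fun_prop))))
    refine h2.congr_iff (fun p => ?_)
    constructor
    · rintro ⟨F, ⟨hF, rfl⟩, h⟩
      exact (mem_Hs hF).2 h
    · intro h
      exact ⟨p.rep, ⟨p.rep_nonzero, Projectivization.mk_rep p⟩, h⟩
  t_mem := by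
    intro c p hp
    induction p using Projectivization.ind with
    | h F hF =>
      rw [mem_Hs] at hp
      show (Matrix.ProjGenLinGroup.mk (dg c 1) : PGL(2, k)) • Projectivization.mk k F hF ∈ Hs k g
      rw [form_pgl_mk, mem_Hs, form_gl_apply, form_gl_apply, rdef_dg_inv, rdef_dg_e0, rdef_dg_e1,
        form_smul, form_smul]
      exact ⟨mul_ne_zero (pow_ne_zero _ (Units.ne_zero _)) hp.1,
        mul_ne_zero (pow_ne_zero _ (Units.ne_zero _)) hp.2⟩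
  w_mem := by
    intro p hp
    induction p using Projectivization.ind with
    | h F hF =>
      rw [mem_Hs] at hp
      show (Matrix.ProjGenLinGroup.mk (sw k) : PGL(2, k)) • Projectivization.mk k F hF ∈ Hs k g
      rw [form_pgl_mk, mem_Hs, form_gl_apply, form_gl_apply, rdef_sw_inv, rdef_sw_e0, rdef_sw_e1]
      exact ⟨hp.2, hp.1⟩

theorem PPs_st (m : ℕ) (a : ℤ) : (RA k m a).St (PPs k m) where
  ds := (dm_rep_ne (e0 k) 0).and (dm_rep_ne (e1 k) 1)
  t_mem := fun c p hp => ⟨(rdef_t0 a c p 0).2 hp.1, (rdef_t1 a c p 1).2 hp.2⟩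
  w_mem := fun p hp => ⟨(rdef_w0 a p).2 hp.2, (rdef_w1 a p).2 hp.1⟩

theorem RatP_st (m : ℕ) (a : ℤ) : (RA k m a).St (RatP k m) where
  ds := (RatP_gset m).ds
  t_mem := fun c p hp => rdef_RatP _ _ hp
  w_mem := fun p hp => rdef_RatP _ _ hp

theorem As_st (m : ℕ) (a : ℤ) : (RA k m a).St (As k m) where
  ds := (RatP_gset m).ds.and ((dm_rep_ne (e0 k) 0).and (dm_rep_ne (e1 k) 1))
  t_mem := fun c p hp => ⟨rdef_RatP _ _ hp.1, (rdef_t0 a c p 0).2 hp.2.1,
    (rdef_t1 a c p 1).2 hp.2.2⟩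
  w_mem := fun p hp => ⟨rdef_RatP _ _ hp.1, (rdef_w0 a p).2 hp.2.2, (rdef_w1 a p).2 hp.2.1⟩

theorem Bs_st (m : ℕ) (a : ℤ) : (RA k m a).St (Bs k m) where
  ds := (RatP_gset m).ds.and ((rdef_dm_rep_eq (e0 k) 0).and (rdef_dm_rep_eq (e1 k) 1))
  t_mem := fun c p hp => ⟨rdef_RatP _ _ hp.1, rdef_eq_of_ne_iff (rdef_t0 a c p 0) hp.2.1,
    rdef_eq_of_ne_iff (rdef_t1 a c p 1) hp.2.2⟩
  w_mem := fun p hp => ⟨rdef_RatP _ _ hp.1, rdef_eq_of_ne_iff (rdef_w0 a p) hp.2.2,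
    rdef_eq_of_ne_iff (rdef_w1 a p) hp.2.1⟩

theorem Ms_st (m : ℕ) (a : ℤ) : (RA k m a).toTA.St (Ms k m) where
  ds := (RatP_gset m).ds.and ((dm_rep_ne (e0 k) 0).and (rdef_dm_rep_eq (e1 k) 1))
  t_mem := fun c p hp => ⟨rdef_RatP _ _ hp.1, (rdef_t0 a c p 0).2 hp.2.1,
    rdef_eq_of_ne_iff (rdef_t1 a c p 1) hp.2.2⟩

theorem MMs_st (m : ℕ) (a : ℤ) : (RA k m a).toTA.St (MMs k m) where
  ds := (dm_rep_ne (e0 k) 0).and ((dm_rep_ne (e1 k) 0).and (rdef_dm_rep_eq (e1 k) 1))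
  t_mem := fun c p hp => ⟨(rdef_t0 a c p 0).2 hp.1, (rdef_t1 a c p 0).2 hp.2.1,
    rdef_eq_of_ne_iff (rdef_t1 a c p 1) hp.2.2⟩

theorem NA.St.pull {A : NA k Y} {s : Set Y} (h : A.St s) (l : ℕ) : (A.pull l).St s where
  ds := h.ds
  t_mem := fun c y hy => h.t_mem (c ^ l) y hy
  w_mem := h.w_mem

/-- the one point space -/
@[simps!] def NA.triv (k : Type) [Field k] [IsAlgClosed k] [CharZero k] : NA k Unit where
  t _ y := y
  t_one _ := rfl
  t_mul _ _ _ := rfl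
  dt := by fun_prop
  w y := y
  w_w _ := rfl
  w_t _ _ := rfl
  dw := by fun_prop

theorem triv_prod {A : NA k Y} {s : Set Y} (h : A.St s) :
    ncl ((NA.triv k).prod A) ((Set.univ : Set Unit) ×ˢ s) = ncl A s ∧
    tcl ((NA.triv k).prod A).toTA ((Set.univ : Set Unit) ×ˢ s) = tcl A.toTA s ∧
    ∀ m, (NGood m ((NA.triv k).prod A) ((Set.univ : Set Unit) ×ˢ s) ↔ NGood m A s) := by
  have hs : ((NA.triv k).prod A).St ((Set.univ : Set Unit) ×ˢ s) :=
    (NA.St.univ (NA.triv k)).prod A h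
  have hb : Set.BijOn (fun q : Unit × Y => q.2) ((Set.univ : Set Unit) ×ˢ s) s := by
    refine ⟨fun q hq => hq.2, ?_, fun y hy => ⟨((), y), ⟨trivial, hy⟩, rfl⟩⟩
    rintro ⟨⟨⟩, y⟩ _ ⟨⟨⟩, y'⟩ _ hyy
    have hyy' : y = y' := hyy
    rw [hyy']
  have hb' : Set.BijOn (fun y : Y => ((), y)) s ((Set.univ : Set Unit) ×ˢ s) := by
    refine ⟨fun y hy => ⟨trivial, hy⟩, fun y _ y' _ hyy => (Prod.mk.inj hyy).2, ?_⟩
    rintro ⟨⟨⟩, y⟩ ⟨_, hy⟩
    exact ⟨y, hy, rfl⟩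
  refine ⟨?_, ?_, fun m => ⟨fun hg => ?_, fun hg => ?_⟩⟩
  · exact ncl_congr hs h (fun q => q.2) (by fun_prop) hb (fun c y _ => rfl) (fun y _ => rfl)
  · exact tcl_congr hs.toSt h.toSt (fun q => q.2) (by fun_prop) hb (fun c y _ => rfl)
  · exact hg.congr h (fun q => q.2) (by fun_prop) hb (fun c y _ => rfl) (fun y _ => rfl)
  · exact hg.congr hs (fun y => ((), y)) (by fun_prop) hb' (fun c y _ => rfl) (fun y _ => rfl)

end

end Pool.Agent.MRat
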