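import Pool.Agent.Lib.MP_923aff_ag.RDefs
import Pool.Agent.Lib.MP_923aff_ag.FADefs
/-!
# JOB REPS: the linear representations `Form k (2 m)`, `SM k (2 m + 1)` of `PGL₂` and `Form k n` of `GL₂`

`repF m`: `g ↦ (det g)^m • g`, on scalars `u`: `u^(2m) * (u⁻¹)^(2m) = 1`, so it factors through `PGL(2, k)`
(`Matrix.ProjGenLinGroup.lift`). `repS m`: `g ↦ (det g)^m • (g F g⁻¹)`, on scalars `u^(2m) * u * (u⁻¹)^(2m+1) = 1`.
-/

set_option autoImplicit false

namespace Pool.Agent.MRat

open scoped MatrixGroups LinearAlgebra.Projectivization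

noncomputable section

variable {k : Type} [Field k] [IsAlgClosed k] [CharZero k]
variable {X Y Z : Type} [DT k X] [DT k Y] [DT k Z]
variable {V : Type} [AddCommGroup V] [Module k V] [DT k V] [FDM k V]
variable {G : Type} [Group G] [DT k G]

instance (n : ℕ) : FDM k (Form k n) where
  ex := ⟨n + 1, coeffE k n, DM.coeffE DM.id', DM.form_of DM.id'⟩

/-- Pairs of forms as a linear equivalence. -/
def smL (k : Type) [Field k] [IsAlgClosed k] [CharZero k] (n : ℕ) :
    SM k n ≃ₗ[k] (Form k n × Form k n) :=
  { smE k n with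
    map_add' := fun _ _ => rfl
    map_smul' := fun _ _ => rfl }

instance (n : ℕ) : FDM k (SM k n) where
  ex := by
    obtain ⟨N, e, he, he'⟩ := FDM.ex (k := k) (V := Form k n × Form k n)
    refine ⟨N, (smL k n).trans e, ?_, ?_⟩
    · have h : DM k (fun F : SM k n => smE k n F) := DM.smE DM.id'
      have h2 := DM.comp he h
      exact h2
    · have h : DM k (fun x : Fin N → k => SM.pair (e.symm x).1 (e.symm x).2) :=
        DM.sm_pair (DM.fst he') (DM.snd he')
      exact h

theorem finrank_Form (n : ℕ) : Module.finrank k (Form k n) = n + 1 := by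
  rw [LinearEquiv.finrank_eq (coeffE k n), Module.finrank_fin_fun]

theorem finrank_SM (n : ℕ) : Module.finrank k (SM k n) = 2 * n + 2 := by
  have h1 : Module.Finite k (Form k n) := FDM.fin k _
  rw [LinearEquiv.finrank_eq (smL k n), Module.finrank_prod, finrank_Form]
  ring

/-- Matrix form of a definable representation. -/
theorem exists_matrix_rep (R : Representation k G V) (dR : DM k (fun p : G × V => R p.1 p.2))
    {N : ℕ} (E : V ≃ₗ[k] (Fin N → k)) (dE : DM k E) (dE' : DM k E.symm) :
    ∃ ρ : G →* GL (Fin N) k, DM k (fun g => ρ g) ∧ ∀ g v, E (R g v) = ρ g • E v := by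
  let f : G →* Matrix (Fin N) (Fin N) k :=
    { toFun := fun g => LinearMap.toMatrix' (E.toLinearMap ∘ₗ R g ∘ₗ E.symm.toLinearMap)
      map_one' := by
        have h : (E.toLinearMap ∘ₗ R 1 ∘ₗ E.symm.toLinearMap) = LinearMap.id :=
          LinearMap.ext fun x => by simp
        rw [h, LinearMap.toMatrix'_id]
      map_mul' := fun g h => by
        have e : (E.toLinearMap ∘ₗ R (g * h) ∘ₗ E.symm.toLinearMap) =
            (E.toLinearMap ∘ₗ R g ∘ₗ E.symm.toLinearMap) ∘ₗ
              (E.toLinearMap ∘ₗ R h ∘ₗ E.symm.toLinearMap) :=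
          LinearMap.ext fun x => by simp
        rw [e, LinearMap.toMatrix'_comp] }
  refine ⟨f.toHomUnits, ?_, ?_⟩
  · apply DM.to_gl
    have h : DM k (fun g => f g) := by
      refine DM.matrix (fun i j => ?_)
      have h1 : DM k (fun g : G => E (R g (E.symm (Pi.single j 1))) i) := by
        have h2 := DM.comp dR (f := fun g : G => (g, E.symm (Pi.single j 1))) (by fun_prop)
        have h3 := DM.comp dE h2
        have h4 := DM.comp (DM.apply (k := k) (Y := k) i) h3
        exact h4
      refine h1.congr (fun g => ?_)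
      show _ = LinearMap.toMatrix' (E.toLinearMap ∘ₗ R g ∘ₗ E.symm.toLinearMap) i j
      rw [LinearMap.toMatrix'_apply]
      rfl
    exact h
  · intro g v
    show _ = (f g).mulVec (E v)
    show _ = (LinearMap.toMatrix' (E.toLinearMap ∘ₗ R g ∘ₗ E.symm.toLinearMap)).mulVec (E v)
    rw [LinearMap.toMatrix'_mulVec]
    simp

theorem REPS_dq [MulAction G X] [DAct k G X] {s : Set X} (hs : GSet k G s)
    {W : Type} [AddCommGroup W] [Module k W] [DT k W] [DMod k W]
    (R : Representation k G W) (dR : DM k (fun p : G × W => R p.1 p.2)) :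
    DQ k (s ×ˢ (Set.univ : Set (ℙ k W)))
      (fun p q => ∃ g : G, g • p.1 = q.1 ∧ Projectivization.map (R g) (rep_inj R g) p.2 = q.2) := by
  have hmm : ∀ (g h : G) (p : ℙ k W), Projectivization.map (R (g * h)) (rep_inj R (g * h)) p =
      Projectivization.map (R g) (rep_inj R g) (Projectivization.map (R h) (rep_inj R h) p) := by
    intro g h p
    induction p using Projectivization.ind with
    | h v hv => simp [Projectivization.map_mk]
  have hm1 : ∀ p : ℙ k W, Projectivization.map (R 1) (rep_inj R 1) p = p := by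
    intro p
    induction p using Projectivization.ind with
    | h v hv => simp [Projectivization.map_mk]
  refine ⟨?_, ?_, ?_, ?_, ?_⟩
  · have h := DM.comp hs.ds (DM.fst (DM.id' (k := k) (X := X × ℙ k W)))
    refine h.congr_iff (fun p => ?_)
    simp
  · have h1 := DM.comp hs.ds (f := fun p : (X × ℙ k W) × (X × ℙ k W) => p.1.1) (by fun_prop)
    have h2 := DM.comp hs.ds (f := fun p : (X × ℙ k W) × (X × ℙ k W) => p.2.1) (by fun_prop)
    have h3 : DM k (fun p : (X × ℙ k W) × (X × ℙ k W) =>
        ∃ g : G, ∃ v : W, g • p.1.1 = p.2.1 ∧ isrep v p.1.2 ∧ isrep (R g v) p.2.2) := by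
      refine DM.ex (DM.ex (DM.and (by fun_prop) (DM.and (DM.isrep (by fun_prop) (by fun_prop))
        (DM.isrep ?_ (by fun_prop)))))
      have h := DM.comp dR (f := fun q : (((X × ℙ k W) × (X × ℙ k W)) × G) × W =>
        (q.1.2, q.2)) (by fun_prop)
      exact h
    refine (h1.and (h2.and h3)).congr_iff (fun p => ?_)
    simp only [Set.mem_prod, Set.mem_univ, and_true]
    refine and_congr_right fun _ => and_congr_right fun _ => exists_congr fun g => ?_
    constructor
    · rintro ⟨v, h1, ⟨hv, h2⟩, ⟨hv', h3⟩⟩
      refine ⟨h1, ?_⟩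
      rw [← h2, ← h3]
      rfl
    · rintro ⟨h1, h2⟩
      refine ⟨p.1.2.rep, h1, ⟨p.1.2.rep_nonzero, p.1.2.mk_rep⟩,
        ⟨rep_ne R g p.1.2.rep_nonzero, ?_⟩⟩
      rw [← h2]
      conv_rhs => rw [← p.1.2.mk_rep]
      rfl
  · intro p _
    exact ⟨1, one_smul _ _, hm1 _⟩
  · rintro p _ q _ ⟨g, h1, h2⟩
    refine ⟨g⁻¹, ?_, ?_⟩
    · rw [← h1, inv_smul_smul]
    · rw [← h2, ← hmm, inv_mul_cancel, hm1]
  · rintro p _ q _ r _ ⟨g, h1, h2⟩ ⟨g', h1', h2'⟩
    refine ⟨g' * g, ?_, ?_⟩
    · rw [mul_smul, h1, h1']
    · rw [hmm, h2, h2']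

/-- The projective bundle formula where the stabilisers act trivially on the representation. -/
theorem free_bundle [MulAction G X] [DAct k G X] {s : Set X} (hs : GSet k G s)
    (R : Representation k G V) (dR : DM k (fun p : G × V => R p.1 p.2))
    (free : ∀ x ∈ s, ∀ g : G, g • x = x → R g = 1) :
    clq k (s ×ˢ (Set.univ : Set (ℙ k V)))
      (fun p q => ∃ g : G, g • p.1 = q.1 ∧ Projectivization.map (R g) (rep_inj R g) p.2 = q.2) =
      (br (Module.finrank k V)) • orb k G s := by
  obtain ⟨N, E, dE, dE'⟩ := FDM.ex (k := k) (V := V)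
  obtain ⟨ρ, dρ, hρ⟩ := exists_matrix_rep R dR E dE dE'
  have hN : Module.finrank k V = N := by
    rw [LinearEquiv.finrank_eq E, Module.finrank_fin_fun]
  have hfree : ∀ x ∈ s, ∀ g : G, g • x = x → ρ g = 1 := by
    intro x hx g hg
    have h1 := free x hx g hg
    apply Units.ext
    apply (Matrix.toLin' (R := k)).injective
    refine LinearMap.ext fun w => ?_
    have h2 := hρ g (E.symm w)
    rw [h1, Module.End.one_apply, E.apply_symm_apply] at h2
    show (ρ g : Matrix (Fin N) (Fin N) k).mulVec w = (1 : Matrix (Fin N) (Fin N) k).mulVec w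
    rw [Matrix.one_mulVec]
    exact h2.symm
  rw [hN, ← proj_bundle_free hs ρ dρ hfree]
  -- the representation on k^N
  let R' : Representation k G (Fin N → k) :=
    { toFun := fun g => E.toLinearMap ∘ₗ R g ∘ₗ E.symm.toLinearMap
      map_one' := LinearMap.ext fun x => by simp
      map_mul' := fun g h => LinearMap.ext fun x => by simp }
  have hR' : ∀ g w, R' g w = ρ g • w := by
    intro g w
    have h := hρ g (E.symm w)
    rw [E.apply_symm_apply] at h
    exact h
  have dR' : DM k (fun p : G × (Fin N → k) => R' p.1 p.2) := by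
    have h : DM k (fun p : G × (Fin N → k) => ρ p.1 • p.2) := by
      have h1 := DM.comp dρ (DM.fst (DM.id' (k := k) (X := G × (Fin N → k))))
      fun_prop
    exact h.congr (fun p => (hR' p.1 p.2).symm)
  have d1 := REPS_dq hs R dR
  have d2 := REPS_dq hs R' dR'
  have e2 : ∀ (g : G) (p : ℙ k (Fin N → k)),
      Projectivization.map (R' g) (rep_inj R' g) p = ρ g • p := by
    intro g p
    induction p using Projectivization.ind with
    | h v hv =>
      rw [Projectivization.map_mk]
      have : Projectivization.mk k (R' g v) (rep_ne R' g hv) =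
          Projectivization.mk k (ρ g • v) (by rw [← hR']; exact rep_ne R' g hv) := by
        congr 1
        exact hR' g v
      exact this
  have d3 : DQ k (s ×ˢ (Set.univ : Set (ℙ k (Fin N → k))))
      (fun p q => ∃ g : G, g • p.1 = q.1 ∧ ρ g • p.2 = q.2) := by
    refine d2.congr (fun p _ q _ => ?_)
    refine exists_congr fun g => and_congr_right fun _ => ?_
    rw [e2]
  have hEinj : Function.Injective (E.toLinearMap) := E.injective
  have dEm : DM k (fun p : ℙ k V => Projectivization.map E.toLinearMap hEinj p) := by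
    refine DM.of_graph (R := fun p q => ∃ v : V, isrep v p ∧ isrep (E v) q) ?_ ?_
    · refine DM.ex (DM.and (DM.isrep (by fun_prop) (by fun_prop)) (DM.isrep ?_ (by fun_prop)))
      have h := DM.comp dE (DM.snd (DM.id' (k := k) (X := (ℙ k V × ℙ k (Fin N → k)) × V)))
      exact h
    · intro p q
      constructor
      · rintro ⟨v, ⟨hv, rfl⟩, ⟨hv', rfl⟩⟩
        rfl
      · rintro rfl
        induction p using Projectivization.ind with
        | h v hv => exact ⟨v, ⟨hv, rfl⟩, ⟨(map_ne_zero_iff _ E.injective).2 hv, rfl⟩⟩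
  have key : ∀ (g : G) (p : ℙ k V), Projectivization.map E.toLinearMap hEinj
      (Projectivization.map (R g) (rep_inj R g) p) =
      ρ g • Projectivization.map E.toLinearMap hEinj p := by
    intro g p
    induction p using Projectivization.ind with
    | h v hv =>
      rw [Projectivization.map_mk, Projectivization.map_mk, Projectivization.map_mk]
      have : Projectivization.mk k (E.toLinearMap (R g v)) (by
            exact (map_ne_zero_iff _ E.injective).2 (rep_ne R g hv)) =
          Projectivization.mk k (ρ g • (E.toLinearMap v)) (by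
            have := hρ g v
            rw [← LinearEquiv.coe_coe] at this
            rw [← this]
            exact (map_ne_zero_iff _ E.injective).2 (rep_ne R g hv)) := by
        congr 1
        exact hρ g v
      exact this
  refine clq_map d1 d3 (fun p => (p.1, Projectivization.map E.toLinearMap hEinj p.2)) ?_ ?_ ?_ ?_
  · have h := DM.comp dEm (DM.snd (DM.id' (k := k) (X := X × ℙ k V)))
    exact DM.mk (DM.fst DM.id') h
  · rintro ⟨x, p⟩ ⟨hx, -⟩
    exact ⟨hx, trivial⟩
  · rintro ⟨x, p⟩ - ⟨y, q⟩ -
    refine exists_congr fun g => and_congr_right fun _ => ?_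
    simp only [← key]
    exact (Projectivization.map_injective E.toLinearMap hEinj).eq_iff.symm
  · rintro ⟨x, q⟩ ⟨hx, -⟩
    induction q using Projectivization.ind with
    | h w hw =>
      refine ⟨(x, Projectivization.mk k (E.symm w) ((map_ne_zero_iff _ E.symm.injective).2 hw)),
        ⟨hx, trivial⟩, 1, one_smul _ _, ?_⟩
      rw [map_one, one_smul]
      show Projectivization.mk k (E.toLinearMap (E.symm w)) _ = Projectivization.mk k w hw
      rw [Projectivization.mk_eq_mk_iff']
      exact ⟨1, by simp⟩

/-- The representation of `GL₂` on forms. -/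
def glF (k : Type) [Field k] [IsAlgClosed k] [CharZero k] (n : ℕ) :
    Representation k (GL (Fin 2) k) (Form k n) where
  toFun g :=
    { toFun := fun F => g • F
      map_add' := fun F F' => smul_add g F F'
      map_smul' := fun c F => smul_comm g c F }
  map_one' := by
    ext F : 1
    exact one_smul _ F
  map_mul' g h := by
    ext F : 1
    exact mul_smul g h F

theorem glF_dm (n : ℕ) : DM k (fun p : GL (Fin 2) k × Form k n => glF k n p.1 p.2) := by
  have h : DM k (fun p : GL (Fin 2) k × Form k n => p.1 • p.2) := by fun_prop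
  exact h

theorem REPS_det (c : kˣ) : Matrix.GeneralLinearGroup.det
    (Matrix.GeneralLinearGroup.scalar (Fin 2) c) = c ^ 2 := by
  apply Units.ext
  rw [Matrix.GeneralLinearGroup.val_det_apply]
  simp [Matrix.GeneralLinearGroup.scalar]

theorem REPS_det_dm : DM k (fun g : GL (Fin 2) k => Matrix.GeneralLinearGroup.det g) := by
  apply DM.to_units
  have h : DM k (fun g : GL (Fin 2) k => ((g : Matrix (Fin 2) (Fin 2) k)).det) := by fun_prop
  exact h

/-- Representations of `GL₂` on which the scalars act trivially are representations of `PGL₂`. -/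
theorem REPS_lift (W : Type) [AddCommGroup W] [Module k W] [DT k W]
    (S : Representation k (GL (Fin 2) k) W)
    (h1 : ∀ c : kˣ, S (Matrix.GeneralLinearGroup.scalar (Fin 2) c) = 1)
    (dS : DM k (fun p : GL (Fin 2) k × W => S p.1 p.2)) :
    ∃ R : Representation k PGL(2, k) W, (∀ (g : GL (Fin 2) k) (F : W),
      R (Matrix.ProjGenLinGroup.mk g) F = S g F) ∧
      DM k (fun p : PGL(2, k) × W => R p.1 p.2) := by
  have hsurj : Function.Surjective (Matrix.ProjGenLinGroup.mk : GL (Fin 2) k → PGL(2, k)) :=
    Matrix.ProjGenLinGroup.mk_surjective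
  have key : ∀ (g : GL (Fin 2) k) (p : PGL(2, k)), Matrix.ProjGenLinGroup.mk g = p →
      S (Function.surjInv hsurj p) = S g := by
    intro g p hp
    have e : Matrix.ProjGenLinGroup.mk (Function.surjInv hsurj p) =
        (Matrix.ProjGenLinGroup.mk g : PGL(2, k)) := by
      rw [Function.surjInv_eq hsurj p, hp]
    obtain ⟨u, hu⟩ := Matrix.ProjGenLinGroup.mk_eq_mk_iff.1 e
    rw [← hu, map_mul, h1, mul_one]
  let R : Representation k PGL(2, k) W :=
    { toFun := fun p => S (Function.surjInv hsurj p)
      map_one' := by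
        rw [key 1 1 rfl, map_one]
      map_mul' := fun p q => by
        rw [key (Function.surjInv hsurj p * Function.surjInv hsurj q) (p * q) (by
          rw [map_mul, Function.surjInv_eq hsurj p, Function.surjInv_eq hsurj q]), map_mul] }
  have hR : ∀ (g : GL (Fin 2) k) (F : W), R (Matrix.ProjGenLinGroup.mk g) F = S g F := by
    intro g F
    show S (Function.surjInv hsurj (Matrix.ProjGenLinGroup.mk g)) F = S g F
    rw [key g _ rfl]
  refine ⟨R, hR, ?_⟩
  rw [DM.pgl_iff]
  exact dS.congr (fun p => (hR p.1 p.2).symm)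

/-- The representation of `PGL₂` on forms of even degree. -/
theorem exists_repF (k : Type) [Field k] [IsAlgClosed k] [CharZero k] (m : ℕ) :
    ∃ R : Representation k PGL(2, k) (Form k (2 * m)),
      (∀ (g : GL (Fin 2) k) (F : Form k (2 * m)), R (Matrix.ProjGenLinGroup.mk g) F =
        ((Matrix.GeneralLinearGroup.det g ^ m : kˣ) : k) • (g • F)) ∧
      DM k (fun p : PGL(2, k) × Form k (2 * m) => R p.1 p.2) := by
  obtain ⟨R, hR⟩ := REPS_lift (Form k (2 * m))
    { toFun := fun g =>
        { toFun := fun F => ((Matrix.GeneralLinearGroup.det g ^ m : kˣ) : k) • (g • F)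
          map_add' := fun F F' => by rw [smul_add, smul_add]
          map_smul' := fun c F => by
            rw [smul_comm g c F, smul_comm _ c, RingHom.id_apply] }
      map_one' := by
        ext F : 1
        show ((Matrix.GeneralLinearGroup.det (1 : GL (Fin 2) k) ^ m : kˣ) : k) •
          ((1 : GL (Fin 2) k) • F) = F
        rw [map_one, one_pow, Units.val_one, one_smul, one_smul]
      map_mul' := fun g h => by
        ext F : 1
        show ((Matrix.GeneralLinearGroup.det (g * h) ^ m : kˣ) : k) • ((g * h) • F) =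
          ((Matrix.GeneralLinearGroup.det g ^ m : kˣ) : k) •
            (g • (((Matrix.GeneralLinearGroup.det h ^ m : kˣ) : k) • (h • F)))
        rw [map_mul, mul_pow, Units.val_mul, mul_smul g h, mul_smul,
          smul_comm g ((Matrix.GeneralLinearGroup.det h ^ m : kˣ) : k) (h • F)] }
    (fun c => by
      ext F : 1
      show ((Matrix.GeneralLinearGroup.det (Matrix.GeneralLinearGroup.scalar (Fin 2) c) ^ m :
        kˣ) : k) • (Matrix.GeneralLinearGroup.scalar (Fin 2) c • F) = F
      rw [REPS_det, form_scalar, smul_smul, ← Units.val_mul]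
      have e : ((c ^ 2) ^ m * c⁻¹ ^ (2 * m) : kˣ) = 1 := by
        rw [← pow_mul, inv_pow, mul_inv_cancel]
      rw [e, Units.val_one, one_smul])
    (by
      refine DM.vsmul (V := Form k (2 * m)) ?_ (by fun_prop)
      have h := DM.comp REPS_det_dm (DM.fst (DM.id' (k := k) (X := GL (Fin 2) k × Form k (2 * m))))
      fun_prop)
  exact ⟨R, fun g F => hR.1 g F, hR.2⟩

def repF (k : Type) [Field k] [IsAlgClosed k] [CharZero k] (m : ℕ) :
    Representation k PGL(2, k) (Form k (2 * m)) := (exists_repF k m).choose

theorem repF_dm (m : ℕ) : DM k (fun p : PGL(2, k) × Form k (2 * m) => repF k m p.1 p.2) :=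
  (exists_repF k m).choose_spec.2

/-- The action of `PGL₂` on `P(Form)` is the projectivisation of `repF`. -/
theorem repF_map (m : ℕ) (g : PGL(2, k)) (p : ℙ k (Form k (2 * m))) :
    g • p = Projectivization.map (repF k m g) (rep_inj (repF k m) g) p := by
  obtain ⟨g, rfl⟩ := Matrix.ProjGenLinGroup.mk_surjective g
  induction p using Projectivization.ind with
  | h v hv =>
    rw [form_pgl_mk, Projectivization.map_mk, Projectivization.mk_eq_mk_iff']
    refine ⟨(((Matrix.GeneralLinearGroup.det g ^ m : kˣ)⁻¹ : kˣ) : k), ?_⟩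
    have h := (exists_repF k m).choose_spec.1 g v
    show _ • (exists_repF k m).choose (Matrix.ProjGenLinGroup.mk g) v = g • v
    rw [h, smul_smul, Units.inv_mul, one_smul]

/-- The representation of `PGL₂` on pairs of forms of odd degree. -/
theorem exists_repS (k : Type) [Field k] [IsAlgClosed k] [CharZero k] (m : ℕ) :
    ∃ R : Representation k PGL(2, k) (SM k (2 * m + 1)),
      (∀ (g : GL (Fin 2) k) (F : SM k (2 * m + 1)), R (Matrix.ProjGenLinGroup.mk g) F =
        ((Matrix.GeneralLinearGroup.det g ^ m : kˣ) : k) • (g • F)) ∧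
      DM k (fun p : PGL(2, k) × SM k (2 * m + 1) => R p.1 p.2) := by
  obtain ⟨R, hR⟩ := REPS_lift (SM k (2 * m + 1))
    { toFun := fun g =>
        { toFun := fun F => ((Matrix.GeneralLinearGroup.det g ^ m : kˣ) : k) • (g • F)
          map_add' := fun F F' => by rw [smul_add, smul_add]
          map_smul' := fun c F => by
            rw [smul_comm g c F, smul_comm _ c, RingHom.id_apply] }
      map_one' := by
        ext F : 1
        show ((Matrix.GeneralLinearGroup.det (1 : GL (Fin 2) k) ^ m : kˣ) : k) •
          ((1 : GL (Fin 2) k) • F) = F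
        rw [map_one, one_pow, Units.val_one, one_smul, one_smul]
      map_mul' := fun g h => by
        ext F : 1
        show ((Matrix.GeneralLinearGroup.det (g * h) ^ m : kˣ) : k) • ((g * h) • F) =
          ((Matrix.GeneralLinearGroup.det g ^ m : kˣ) : k) •
            (g • (((Matrix.GeneralLinearGroup.det h ^ m : kˣ) : k) • (h • F)))
        rw [map_mul, mul_pow, Units.val_mul, mul_smul g h, mul_smul,
          smul_comm g ((Matrix.GeneralLinearGroup.det h ^ m : kˣ) : k) (h • F)] }
    (fun c => by
      ext F : 1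
      show ((Matrix.GeneralLinearGroup.det (Matrix.GeneralLinearGroup.scalar (Fin 2) c) ^ m :
        kˣ) : k) • (Matrix.GeneralLinearGroup.scalar (Fin 2) c • F) = F
      rw [REPS_det, sm_scalar, smul_smul, ← Units.val_mul]
      have e : ((c ^ 2) ^ m * (c * c⁻¹ ^ (2 * m + 1)) : kˣ) = 1 := by
        rw [← pow_mul, ← mul_assoc, ← pow_succ, inv_pow, mul_inv_cancel]
      rw [e, Units.val_one, one_smul])
    (by
      refine DM.vsmul (V := SM k (2 * m + 1)) ?_ (by fun_prop)
      have h := DM.comp REPS_det_dm
        (DM.fst (DM.id' (k := k) (X := GL (Fin 2) k × SM k (2 * m + 1))))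
      fun_prop)
  exact ⟨R, fun g F => hR.1 g F, hR.2⟩

def repS (k : Type) [Field k] [IsAlgClosed k] [CharZero k] (m : ℕ) :
    Representation k PGL(2, k) (SM k (2 * m + 1)) := (exists_repS k m).choose

theorem repS_dm (m : ℕ) : DM k (fun p : PGL(2, k) × SM k (2 * m + 1) => repS k m p.1 p.2) :=
  (exists_repS k m).choose_spec.2

theorem repS_map (m : ℕ) (g : PGL(2, k)) (p : ℙ k (SM k (2 * m + 1))) :
    g • p = Projectivization.map (repS k m g) (rep_inj (repS k m) g) p := by
  obtain ⟨g, rfl⟩ := Matrix.ProjGenLinGroup.mk_surjective g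
  induction p using Projectivization.ind with
  | h v hv =>
    rw [sm_pgl_mk, Projectivization.map_mk, Projectivization.mk_eq_mk_iff']
    refine ⟨(((Matrix.GeneralLinearGroup.det g ^ m : kˣ)⁻¹ : kˣ) : k), ?_⟩
    have h := (exists_repS k m).choose_spec.1 g v
    show _ • (exists_repS k m).choose (Matrix.ProjGenLinGroup.mk g) v = g • v
    rw [h, smul_smul, Units.inv_mul, one_smul]

end

end Pool.Agent.MRat
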