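import Pool.Agent.Lib.MP_923aff_ag.FormsB
import Pool.Agent.Lib.MP_923aff_ag.FG
import Pool.Agent.Lib.MP_923aff_ag.FGH
/-!
# JOB RT: binary forms and unordered tuples of points of the projective line

`rootF a` is the form with roots `a 0, …, a (n - 1)`. `rootF_surj`: induction on `n` (`Form.exists_zero`, `Form.factor`).
`rootF_eq`: induction on `n`: `a 0` is a root of `rootF b`, so `a 0 = b j` for some `j`; cancel `lin (a 0)` (`Form.cancel`).
`rootF_smul`: `lin v0 (g⁻¹ v) = (det g)⁻¹ * lin (g v0) v`.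
-/

set_option autoImplicit false

namespace Pool.Agent.MRat

open scoped MatrixGroups LinearAlgebra.Projectivization

noncomputable section

variable {k : Type} [Field k] [IsAlgClosed k] [CharZero k]
variable {X Y Z W : Type} [DT k X] [DT k Y] [DT k Z] [DT k W]

theorem prod_lin_mem {n : ℕ} (v0 : Fin n → (Fin 2 → k)) :
    (fun v => ∏ i, lin (v0 i) v) ∈ Form k n := by
  induction n with
  | zero =>
    refine Form.mem_iff.2 ⟨fun _ => 1, fun v => ?_⟩
    simp
  | succ n ih =>
    have h := Form.mul_mem (Nat.add_comm 1 n) (lin_mem (v0 0)) (ih (fun i => v0 i.succ))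
    have e : (fun v => ∏ i, lin (v0 i) v) =
        fun v => lin (v0 0) v * ∏ i : Fin n, lin (v0 i.succ) v := by
      funext v
      rw [Fin.prod_univ_succ]
    rw [e]
    exact h

omit [IsAlgClosed k] [CharZero k] in
theorem RT_lin_ne {v0 : Fin 2 → k} (h : v0 ≠ 0) : lin v0 ≠ 0 := by
  intro e
  apply h
  have h1 := congrFun e ![1, 0]
  have h0 := congrFun e ![0, 1]
  simp [lin] at h0 h1
  funext i
  fin_cases i
  · exact h0
  · exact h1

theorem RT_prod_ne {n : ℕ} (v0 : Fin n → (Fin 2 → k)) (h : ∀ i, v0 i ≠ 0) :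
    (fun v => ∏ i, lin (v0 i) v) ≠ 0 := by
  induction n with
  | zero =>
    intro e
    have := congrFun e 0
    simp at this
  | succ n ih =>
    have e : (fun v => ∏ i, lin (v0 i) v) =
        fun v => lin (v0 0) v * ∏ i : Fin n, lin (v0 i.succ) v := by
      funext v
      rw [Fin.prod_univ_succ]
    rw [e]
    exact Form.mul_ne_zero (lin_mem (v0 0)) (prod_lin_mem (fun i => v0 i.succ)) (RT_lin_ne (h 0))
      (ih _ fun i => h i.succ)

theorem prod_lin_ne {n : ℕ} (v0 : Fin n → (Fin 2 → k)) (h : ∀ i, v0 i ≠ 0) :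
    (⟨fun v => ∏ i, lin (v0 i) v, prod_lin_mem v0⟩ : Form k n) ≠ 0 := by
  intro e
  exact RT_prod_ne v0 h (congrArg Subtype.val e)

/-- The form with given roots. -/
def rootF {n : ℕ} (a : Fin n → PL k) : ℙ k (Form k n) :=
  Projectivization.mk k ⟨fun v => ∏ i, lin (a i).rep v, prod_lin_mem _⟩
    (prod_lin_ne _ fun i => (a i).rep_nonzero)

omit [IsAlgClosed k] [CharZero k] in
theorem RT_lin_smul (c : k) (v0 v : Fin 2 → k) : lin (c • v0) v = c * lin v0 v := by
  simp only [lin, Pi.smul_apply, smul_eq_mul]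
  ring

theorem rootF_mk {n : ℕ} (v0 : Fin n → (Fin 2 → k)) (h : ∀ i, v0 i ≠ 0) :
    rootF (fun i => Projectivization.mk k (v0 i) (h i)) =
      Projectivization.mk k ⟨fun v => ∏ i, lin (v0 i) v, prod_lin_mem _⟩ (prod_lin_ne _ h) := by
  have h1 : ∀ i, ∃ c : kˣ, c • v0 i = (Projectivization.mk k (v0 i) (h i)).rep := by
    intro i
    exact Projectivization.exists_smul_eq_mk_rep k (v0 i) (h i)
  choose c hc using h1
  unfold rootF
  rw [Projectivization.mk_eq_mk_iff']
  refine ⟨∏ i, (c i : k), ?_⟩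
  apply Subtype.ext
  funext v
  show (∏ i, (c i : k)) * ∏ i, lin (v0 i) v = ∏ i, lin (Projectivization.mk k (v0 i) (h i)).rep v
  rw [← Finset.prod_mul_distrib]
  refine Finset.prod_congr rfl fun i _ => ?_
  rw [← hc i, ← RT_lin_smul]
  rfl

theorem RT_isrep {n : ℕ} (a : Fin n → PL k) (w : Fin n → (Fin 2 → k)) (hw : ∀ i, isrep (w i) (a i))
    (F : Form k n) (hF : ∀ v, F.1 v = ∏ i, lin (w i) v) (p : ℙ k (Form k n)) (hp : isrep F p) :
    p = rootF a := by
  choose hw0 hw1 using hw
  obtain ⟨hF0, hF1⟩ := hp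
  have ha : a = fun i => Projectivization.mk k (w i) (hw0 i) := by
    funext i
    exact (hw1 i).symm
  rw [ha, rootF_mk, ← hF1]
  congr 1
  exact Subtype.ext (funext hF)

theorem rootF_dm {n : ℕ} : DM k (rootF : (Fin n → PL k) → ℙ k (Form k n)) := by
  refine DM.of_graph (R := fun a p => ∃ w : Fin n → (Fin 2 → k), (∀ i, isrep (w i) (a i)) ∧
    ∃ F : Form k n, (∀ v : Fin 2 → k, F.1 v = ∏ i, (w i 0 * v 1 - w i 1 * v 0)) ∧ isrep F p) ?_ ?_
  · refine DM.ex (DM.and (DM.fall fun i => ?_) (DM.ex (DM.and (DM.all (DM.eq ?_ ?_)) ?_)))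
    · exact DM.isrep (by fun_prop) (by fun_prop)
    · fun_prop
    · exact DM.prod _ fun i _ => by fun_prop
    · exact DM.isrep (by fun_prop) (by fun_prop)
  · intro a p
    constructor
    · rintro ⟨w, hw, F, hF, hp⟩
      exact RT_isrep a w hw F hF p hp
    · rintro rfl
      refine ⟨fun i => (a i).rep, fun i => ⟨(a i).rep_nonzero, Projectivization.mk_rep _⟩,
        ⟨fun v => ∏ i, lin (a i).rep v, prod_lin_mem _⟩, fun v => rfl, ?_⟩
      exact ⟨prod_lin_ne _ fun i => (a i).rep_nonzero, rfl⟩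

theorem RT_lin_zero (p : PL k) (v : Fin 2 → k) (hv : v ≠ 0) :
    lin p.rep v = 0 ↔ p = Projectivization.mk k v hv := by
  rw [lin_eq_zero p.rep_nonzero]
  constructor
  · rintro ⟨c, hc⟩
    rw [← Projectivization.mk_rep p]
    symm
    rw [Projectivization.mk_eq_mk_iff']
    exact ⟨c, hc.symm⟩
  · rintro h
    have h1 : Projectivization.mk k v hv = Projectivization.mk k p.rep p.rep_nonzero := by
      rw [← h, Projectivization.mk_rep p]
    rw [Projectivization.mk_eq_mk_iff'] at h1
    obtain ⟨c, hc⟩ := h1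
    exact ⟨c, hc.symm⟩

theorem rootF_zero {n : ℕ} (a : Fin n → PL k) (v : Fin 2 → k) (hv : v ≠ 0) :
    (rootF a).rep.1 v = 0 ↔ ∃ i, a i = Projectivization.mk k v hv := by
  obtain ⟨c, hc⟩ := Projectivization.exists_smul_eq_mk_rep k
    (⟨fun v => ∏ i, lin (a i).rep v, prod_lin_mem _⟩ : Form k n)
    (prod_lin_ne _ fun i => (a i).rep_nonzero)
  have h1 : (rootF a).rep.1 v = (c : k) * ∏ i, lin (a i).rep v := by
    unfold rootF
    rw [← hc]
    rfl
  rw [h1]
  simp only [mul_eq_zero, Units.ne_zero, false_or, Finset.prod_eq_zero_iff, Finset.mem_univ,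
    true_and, RT_lin_zero _ _ hv]

theorem RT_factor (n : ℕ) (F : (Fin 2 → k) → k) (hF : F ∈ Form k n) (h0 : F ≠ 0) :
    ∃ (v0 : Fin n → (Fin 2 → k)) (c : k), (∀ i, v0 i ≠ 0) ∧ c ≠ 0 ∧
      ∀ v, F v = c * ∏ i, lin (v0 i) v := by
  induction n generalizing F with
  | zero =>
    obtain ⟨c, hc⟩ := Form.const hF
    refine ⟨fun i => i.elim0, c, fun i => i.elim0, ?_, ?_⟩
    · rintro rfl
      exact h0 (funext hc)
    · intro v
      rw [hc v]
      simp
  | succ n ih =>
    obtain ⟨w, hw, hz⟩ := Form.exists_zero hF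
    obtain ⟨G, hG, e⟩ := Form.factor hF hw hz
    have hG0 : G ≠ 0 := by
      rintro rfl
      apply h0
      funext v
      rw [e v]
      simp
    obtain ⟨v0, c, hv0, hc, h⟩ := ih G hG hG0
    refine ⟨Fin.cons w v0, c, ?_, hc, ?_⟩
    · intro i
      refine Fin.cases ?_ (fun j => ?_) i
      · simpa using hw
      · simpa using hv0 j
    · intro v
      rw [e v, h v, Fin.prod_univ_succ]
      simp only [Fin.cons_zero, Fin.cons_succ]
      ring

theorem rootF_surj (n : ℕ) : Function.Surjective (rootF : (Fin n → PL k) → ℙ k (Form k n)) := by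
  intro p
  induction p using Projectivization.ind with
  | h F hF =>
    obtain ⟨v0, c, hv0, hc, h⟩ := RT_factor n F.1 F.2 (fun e => hF (Subtype.ext e))
    refine ⟨fun i => Projectivization.mk k (v0 i) (hv0 i), ?_⟩
    rw [rootF_mk]
    symm
    rw [Projectivization.mk_eq_mk_iff']
    refine ⟨c, ?_⟩
    apply Subtype.ext
    funext v
    exact (h v).symm

theorem RT_eq (n : ℕ) (a b : Fin n → PL k) (c : k)
    (h : ∀ v, ∏ i, lin (a i).rep v = c * ∏ i, lin (b i).rep v) :
    ∃ σ : Equiv.Perm (Fin n), ∀ i, b i = a (σ i) := by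
  induction n with
  | zero => exact ⟨Equiv.refl _, fun i => i.elim0⟩
  | succ n ih =>
    have h1 : ∏ i, lin (a i).rep (b 0).rep = 0 := by
      rw [h]
      have : ∏ i, lin (b i).rep (b 0).rep = 0 := by
        refine Finset.prod_eq_zero (Finset.mem_univ 0) ?_
        rw [RT_lin_zero _ _ (b 0).rep_nonzero, Projectivization.mk_rep]
      rw [this, mul_zero]
    obtain ⟨j, _, hj⟩ := Finset.prod_eq_zero_iff.1 h1
    rw [RT_lin_zero _ _ (b 0).rep_nonzero, Projectivization.mk_rep] at hj
    have h2 : (fun v => ∏ i, lin (a (j.succAbove i)).rep v) =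
        fun v => c * ∏ i : Fin n, lin (b i.succ).rep v := by
      refine Form.cancel (lin_mem (b 0).rep) (RT_lin_ne (b 0).rep_nonzero)
        (prod_lin_mem fun i => (a (j.succAbove i)).rep)
        (Submodule.smul_mem _ c (prod_lin_mem fun i : Fin n => (b i.succ).rep)) ?_
      intro v
      have h3 := h v
      rw [Fin.prod_univ_succAbove _ j, Fin.prod_univ_succ, hj] at h3
      show lin (b 0).rep v * ∏ i, lin (a (j.succAbove i)).rep v =
        lin (b 0).rep v * (c * ∏ i : Fin n, lin (b i.succ).rep v)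
      rw [h3]
      ring
    obtain ⟨σ, hσ⟩ := ih (fun i => a (j.succAbove i)) (fun i => b i.succ) (fun v => congrFun h2 v)
    have hinj : Function.Injective
        (Fin.cons j (fun i => j.succAbove (σ i)) : Fin (n + 1) → Fin (n + 1)) := by
      rw [Fin.cons_injective_iff]
      constructor
      · rintro ⟨i, hi⟩
        exact Fin.succAbove_ne j (σ i) hi
      · intro x y hxy
        exact σ.injective (Fin.succAbove_right_injective hxy)
    refine ⟨Equiv.ofBijective _ (Finite.injective_iff_bijective.1 hinj), ?_⟩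
    intro i
    refine Fin.cases ?_ (fun i => ?_) i
    · simp [hj]
    · simpa using hσ i

theorem rootF_eq {n : ℕ} (a b : Fin n → PL k) :
    rootF a = rootF b ↔ ∃ σ : Equiv.Perm (Fin n), ∀ i, b i = a (σ i) := by
  constructor
  · intro h
    unfold rootF at h
    rw [Projectivization.mk_eq_mk_iff'] at h
    obtain ⟨c, hc⟩ := h
    refine RT_eq n a b c fun v => ?_
    have := congrFun (congrArg Subtype.val hc) v
    exact this.symm
  · rintro ⟨σ, hσ⟩
    unfold rootF
    congr 1
    apply Subtype.ext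
    funext v
    show ∏ i, lin (a i).rep v = ∏ i, lin (b i).rep v
    simp only [hσ]
    exact (Equiv.prod_comp σ fun i => lin (a i).rep v).symm

omit [IsAlgClosed k] [CharZero k] in
theorem RT_lin_gl (g : GL (Fin 2) k) (v0 v : Fin 2 → k) :
    lin (g • v0) v = g.1.det * lin v0 (g⁻¹ • v) := by
  obtain ⟨w, rfl⟩ : ∃ w, v = g • w := ⟨g⁻¹ • v, (smul_inv_smul g v).symm⟩
  rw [inv_smul_smul]
  simp only [lin, FORMA_gl_smul, Matrix.det_fin_two]
  ring

theorem rootF_smul {n : ℕ} (g : PGL(2, k)) (a : Fin n → PL k) :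
    g • rootF a = rootF (fun i => g • a i) := by
  obtain ⟨g, rfl⟩ := Matrix.ProjGenLinGroup.mk_surjective g
  have ha : a = fun i => Projectivization.mk k (a i).rep (a i).rep_nonzero := by
    funext i
    exact (Projectivization.mk_rep _).symm
  have h1 : (fun i => (Matrix.ProjGenLinGroup.mk g : PGL(2, k)) • a i) = fun i =>
      Projectivization.mk k (g • (a i).rep) ((smul_ne_zero_iff_ne g).mpr (a i).rep_nonzero) := by
    funext i
    conv_lhs => rw [← Projectivization.mk_rep (a i)]
    rw [Projectivization.PGL.mk_smul_mk]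
  rw [h1, rootF_mk]
  unfold rootF
  rw [form_pgl_mk]
  symm
  rw [Projectivization.mk_eq_mk_iff']
  refine ⟨g.1.det ^ n, ?_⟩
  apply Subtype.ext
  funext v
  show g.1.det ^ n * ∏ i, lin (a i).rep (g⁻¹ • v) = ∏ i, lin (g • (a i).rep) v
  simp only [RT_lin_gl, Finset.prod_mul_distrib, Finset.prod_const, Finset.card_univ,
    Fintype.card_fin]

end

end Pool.Agent.MRat
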