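import Pool.Agent.Lib.MP_923aff_ag.BrDefs
/-!
# Rational maps of the projective line and conjugation
-/

set_option autoImplicit false

namespace Pool.Agent.MRat

open Polynomial

/-- The pair of binary forms of degree `d` with coefficient vector `x`: the first `d + 1` coordinates
of `x` are the coefficients of the first form, the last `d + 1` those of the second one; evaluated at
the point `v` of `k ^ 2`. -/
def pairMap (k : Type) [Field k] (d : ℕ) (x : Fin ((d + 1) + (d + 1)) → k) (v : Fin 2 → k) :
    Fin 2 → k :=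
  ![∑ i : Fin (d + 1), x (Fin.castAdd (d + 1) i) * v 0 ^ (i : ℕ) * v 1 ^ (d - (i : ℕ)),
    ∑ i : Fin (d + 1), x (Fin.natAdd (d + 1) i) * v 0 ^ (i : ℕ) * v 1 ^ (d - (i : ℕ))]

/-- The pairs of binary forms of degree `d` without common zero on the projective line: the cone over
the space of rational maps of degree `d`. -/
def RatSet (k : Type) [Field k] (d : ℕ) : Set (Fin ((d + 1) + (d + 1)) → k) :=
  {x | ∀ v : Fin 2 → k, v ≠ 0 → pairMap k d x v ≠ 0}

/-- `x` and `y` define rational maps `f`, `g` with `g = A ∘ f ∘ A⁻¹` for some `A` in `PGL₂`. -/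
def RatConj (k : Type) [Field k] (d : ℕ) (x y : Fin ((d + 1) + (d + 1)) → k) : Prop :=
  ∃ (A : Matrix (Fin 2) (Fin 2) k) (c : k), A.det ≠ 0 ∧ c ≠ 0 ∧
    ∀ v : Fin 2 → k, pairMap k d y (A.mulVec v) = c • A.mulVec (pairMap k d x v)

end Pool.Agent.MRat
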