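import Pool.Agent.Lib.MP_923aff_ag.SchDefs
/-!
# JOB SA1: basic properties of the Grothendieck group of varieties

`cl_empty`: scissor with `Z = U = X`, `i = j = 𝟙`.
`cl_affine`: `X ≅ Spec Γ(X, ⊤) ≅ Spec B` (`Scheme.isoSpec`).
-/

set_option autoImplicit false

namespace Pool.Agent.MRat

open AlgebraicGeometry CategoryTheory

variable {k : Type} [Field k]

private theorem SA1_mk {z : FreeAbelianGroup (Var k)} (hz : VRel k z) :
    (QuotientAddGroup.mk z : FreeAbelianGroup (Var k) ⧸ AddSubgroup.closure {z | VRel k z}) = 0 :=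
  (QuotientAddGroup.eq_zero_iff z).2 (AddSubgroup.subset_closure hz)

theorem Var.cl_iso (X Y : Var k) (e : X.X ≅ Y.X) (he : e.hom ≫ Y.str = X.str) : X.cl = Y.cl := by
  have h := SA1_mk (VRel.iso X Y e he)
  rw [QuotientAddGroup.mk_sub, sub_eq_zero] at h
  exact h

theorem Var.cl_scissor (X Z U : Var k) (i : Z.X ⟶ X.X) (j : U.X ⟶ X.X) (hi : i ≫ X.str = Z.str)
    (hj : j ≫ X.str = U.str) (ci : IsClosedImmersion i) (oj : IsOpenImmersion j)
    (h : Set.range i = (Set.range j)ᶜ) : X.cl = Z.cl + U.cl := by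
  have h := SA1_mk (VRel.scissor X Z U i j hi hj ci oj h)
  rw [QuotientAddGroup.mk_sub, QuotientAddGroup.mk_sub, sub_sub, sub_eq_zero] at h
  exact h

theorem Var.cl_empty (X : Var k) (h : IsEmpty X.X) : X.cl = 0 := by
  have h1 := Var.cl_scissor X X X (𝟙 _) (𝟙 _) (Category.id_comp _) (Category.id_comp _)
    inferInstance inferInstance (Set.ext fun x => (h.false x).elim)
  exact left_eq_add.1 h1

/-- The structure map `k → Γ(X, U)`. -/
noncomputable def Var.kmap (X : Var k) (U : X.X.Opens) : k →+* Γ(X.X, U) :=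
  (X.X.presheaf.map (homOfLE le_top : U ⟶ ⊤).op).hom.comp
    ((X.str.appTop).hom.comp (Scheme.ΓSpecIso (CommRingCat.of k)).inv.hom)

private theorem SA1_str (X : Var k) : X.str = X.X.toSpecΓ ≫
    Spec.map (CommRingCat.ofHom (X.kmap ⊤)) := by
  have h1 : CommRingCat.ofHom (X.kmap ⊤) =
      (Scheme.ΓSpecIso (CommRingCat.of k)).inv ≫ X.str.appTop := by
    ext c
    show (X.X.presheaf.map (homOfLE le_top : (⊤ : X.X.Opens) ⟶ ⊤).op).hom _ = _
    have h2 : (homOfLE le_top : (⊤ : X.X.Opens) ⟶ ⊤) = 𝟙 _ := Subsingleton.elim _ _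
    rw [h2, op_id, X.X.presheaf.map_id]
    rfl
  rw [h1, Spec.map_comp, ← Scheme.toSpecΓ_naturality_assoc, toSpecΓ_SpecMap_ΓSpecIso_inv,
    Category.comp_id]

/-- An affine variety is determined by its coordinate ring. -/
theorem Var.cl_affine (X : Var k) [IsAffine X.X] (B : Type) [CommRing B] [Algebra k B]
    [Algebra.FiniteType k B] [_root_.IsReduced B] (φ : B ≃+* Γ(X.X, ⊤))
    (hφ : ∀ c : k, φ (algebraMap k B c) = X.kmap ⊤ c) : X.cl = (Var.ofAlg k B).cl := by
  let e : (CommRingCat.of B) ≅ Γ(X.X, ⊤) := RingEquiv.toCommRingCatIso φ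
  refine Var.cl_iso X (Var.ofAlg k B) (X.X.isoSpec ≪≫ Scheme.Spec.mapIso e.op) ?_
  show (X.X.isoSpec.hom ≫ Spec.map e.hom) ≫ Spec.map (CommRingCat.ofHom (algebraMap k B)) = X.str
  rw [Category.assoc, ← Spec.map_comp, SA1_str X]
  have h1 : CommRingCat.ofHom (algebraMap k B) ≫ e.hom = CommRingCat.ofHom (X.kmap ⊤) := by
    ext c
    exact hφ c
  rw [h1]
  rfl

/-- The coordinate ring of an affine variety is finitely generated. -/
theorem Var.gens (X : Var k) [IsAffine X.X] : ∃ (n : ℕ) (b : Fin n → Γ(X.X, ⊤)),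
    Function.Surjective (MvPolynomial.eval₂Hom (X.kmap ⊤) b) := by
  have h1 : LocallyOfFiniteType (Spec.map (CommRingCat.ofHom (X.kmap ⊤))) := by
    have h2 : Spec.map (CommRingCat.ofHom (X.kmap ⊤)) = X.X.isoSpec.inv ≫ X.str := by
      rw [SA1_str X]
      exact (Iso.inv_hom_id_assoc X.X.isoSpec _).symm
    rw [h2]
    infer_instance
  rw [HasRingHomProperty.Spec_iff (P := @LocallyOfFiniteType)] at h1
  let _ : Algebra k Γ(X.X, ⊤) := (X.kmap ⊤).toAlgebra
  have h3 : Algebra.FiniteType k Γ(X.X, ⊤) := h1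
  obtain ⟨n, f, hf⟩ := Algebra.FiniteType.iff_quotient_mvPolynomial''.1 h3
  refine ⟨n, fun i => f (MvPolynomial.X i), ?_⟩
  intro b
  obtain ⟨p, rfl⟩ := hf b
  refine ⟨p, ?_⟩
  have h4 : (MvPolynomial.eval₂Hom (X.kmap ⊤) fun i => f (MvPolynomial.X i)) =
      (f : MvPolynomial (Fin n) k →+* Γ(X.X, ⊤)) := by
    refine MvPolynomial.ringHom_ext ?_ ?_
    · intro c
      rw [MvPolynomial.eval₂Hom_C]
      exact (f.commutes c).symm
    · intro i
      rw [MvPolynomial.eval₂Hom_X']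
      rfl
  rw [h4]
  rfl

theorem ofAlg_congr {B C : Type} [CommRing B] [Algebra k B] [Algebra.FiniteType k B]
    [_root_.IsReduced B] [CommRing C] [Algebra k C] [Algebra.FiniteType k C] [_root_.IsReduced C]
    (e : B ≃ₐ[k] C) : (Var.ofAlg k B).cl = (Var.ofAlg k C).cl := by
  let e' : (CommRingCat.of C) ≅ (CommRingCat.of B) := RingEquiv.toCommRingCatIso e.symm.toRingEquiv
  refine Var.cl_iso _ _ (Scheme.Spec.mapIso e'.op) ?_
  show Spec.map e'.hom ≫ Spec.map (CommRingCat.ofHom (algebraMap k C)) =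
    Spec.map (CommRingCat.ofHom (algebraMap k B))
  rw [← Spec.map_comp]
  congr 1
  ext c
  exact e.symm.commutes c

end Pool.Agent.MRat
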