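import Pool.Agent.Lib.MP_923aff_ag.SA1
/-!
# JOB SA2: the scissor relation for affine varieties

`ofAlg_scissor`: the closed immersion `Spec.map φ` (`IsClosedImmersion.spec_of_surjective`, its range is the zero
locus of the kernel) and the open immersion `Spec.map ψ` (localization away from `p`, range `basicOpen p`).
-/

set_option autoImplicit false

namespace Pool.Agent.MRat

open AlgebraicGeometry CategoryTheory

variable {k : Type} [Field k]

/-- `Spec B` is the disjoint union of the zero locus `Spec C` of `p` and of `Spec D`, `D = B_p`. -/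
theorem ofAlg_scissor {B C D : Type} [CommRing B] [Algebra k B] [Algebra.FiniteType k B]
    [_root_.IsReduced B] [CommRing C] [Algebra k C] [Algebra.FiniteType k C] [_root_.IsReduced C]
    [CommRing D] [Algebra k D] [Algebra.FiniteType k D] [_root_.IsReduced D]
    (p : B) (φ : B →ₐ[k] C) (hφ : Function.Surjective φ) (hp : φ p = 0)
    (hker : ∀ b, φ b = 0 → b ∈ (Ideal.span {p}).radical)
    [Algebra B D] [IsScalarTower k B D] [IsLocalization.Away p D] :
    (Var.ofAlg k B).cl = (Var.ofAlg k C).cl + (Var.ofAlg k D).cl := by
  refine Var.cl_scissor (Var.ofAlg k B) (Var.ofAlg k C) (Var.ofAlg k D)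
    (Spec.map (CommRingCat.ofHom (φ : B →+* C)))
    (Spec.map (CommRingCat.ofHom (algebraMap B D))) ?_ ?_ ?_ ?_ ?_
  · show Spec.map _ ≫ Spec.map (CommRingCat.ofHom (algebraMap k B)) =
      Spec.map (CommRingCat.ofHom (algebraMap k C))
    rw [← Spec.map_comp]
    congr 1
    ext c
    exact φ.commutes c
  · show Spec.map _ ≫ Spec.map (CommRingCat.ofHom (algebraMap k B)) =
      Spec.map (CommRingCat.ofHom (algebraMap k D))
    rw [← Spec.map_comp]
    congr 1
    ext c
    exact (IsScalarTower.algebraMap_apply k B D c).symm
  · exact IsClosedImmersion.spec_of_surjective _ hφ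
  · exact IsOpenImmersion.of_isLocalization p
  · show Set.range (PrimeSpectrum.comap (φ : B →+* C)) =
      (Set.range (PrimeSpectrum.comap (algebraMap B D)))ᶜ
    rw [PrimeSpectrum.localization_away_comap_range D p, range_comap_of_surjective _ (φ : B →+* C) hφ,
      PrimeSpectrum.basicOpen_eq_zeroLocus_compl, compl_compl, ← PrimeSpectrum.zeroLocus_span {p},
      ← PrimeSpectrum.zeroLocus_radical (Ideal.span {p})]
    refine le_antisymm ?_ ?_
    · rw [PrimeSpectrum.zeroLocus_radical, PrimeSpectrum.zeroLocus_span]
      refine PrimeSpectrum.zeroLocus_anti_mono ?_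
      rintro x rfl
      exact hp
    · refine PrimeSpectrum.zeroLocus_anti_mono ?_
      intro b hb
      exact hker b hb

end Pool.Agent.MRat
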