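import Pool.Agent.Lib.MP_923aff_ag.SB1
/-!
# JOB SB2: localization and isomorphisms of rings of functions

`OA (A ∩ {p ≠ 0})` is the localization of `OA A` away from `p`: its elements are `P / (q p) ^ N` (`OA_piece`).
-/

set_option autoImplicit false

namespace Pool.Agent.MRat

open AlgebraicGeometry CategoryTheory

variable {k : Type} [Field k] {n m : ℕ} [IsAlgClosed k]

omit [IsAlgClosed k] in
private theorem SB2_inv {A : Set (Fin n → k)} (u : OA A) (hu : ∀ x, u.1 x ≠ 0) :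
    ∃ v : OA A, ∀ x, v.1 x = (u.1 x)⁻¹ := by
  obtain ⟨u, P, Q, h⟩ := u
  refine ⟨⟨fun x => (u x)⁻¹, Q, P, fun x => ⟨?_, ?_⟩⟩, fun x => rfl⟩
  · have h1 : u x ≠ 0 := hu x
    rw [(h x).2] at h1
    exact (div_ne_zero_iff.1 h1).1
  · show (u x)⁻¹ = _
    rw [(h x).2, inv_div]

theorem OA_loc {A : Set (Fin n → k)} (hA : IsPiece k A) (p : MvPolynomial (Fin n) k)
    (h : A ∩ {x | MvPolynomial.eval x p ≠ 0} ⊆ A) :
    @IsLocalization.Away _ _ (OA.of A p) (OA (A ∩ {x | MvPolynomial.eval x p ≠ 0})) _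
      (OA.res h).toRingHom.toAlgebra := by
  let : Algebra (OA A) (OA (A ∩ {x | MvPolynomial.eval x p ≠ 0})) :=
    (OA.res h).toRingHom.toAlgebra
  have halg : ∀ f : OA A, algebraMap (OA A) (OA (A ∩ {x | MvPolynomial.eval x p ≠ 0})) f =
      OA.res h f := fun f => rfl
  obtain ⟨I, q, hA⟩ := hA
  have hmem : ∀ x : A, (∀ p ∈ I, MvPolynomial.eval (x : Fin n → k) p = 0) ∧
      MvPolynomial.eval (x : Fin n → k) q ≠ 0 := by
    intro x
    have h : (x : Fin n → k) ∈ {x | (∀ p ∈ I, MvPolynomial.eval x p = 0) ∧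
      MvPolynomial.eval x q ≠ 0} := by
      rw [← hA]
      exact x.2
    exact h
  have hB : A ∩ {x | MvPolynomial.eval x p ≠ 0} =
      {x | (∀ p' ∈ I, MvPolynomial.eval x p' = 0) ∧ MvPolynomial.eval x (q * p) ≠ 0} := by
    ext x
    rw [hA]
    simp only [Set.mem_inter_iff, Set.mem_ofPred_eq, map_mul, mul_ne_zero_iff]
    tauto
  have hp : ∀ x : (A ∩ {x | MvPolynomial.eval x p ≠ 0} : Set (Fin n → k)),
      (OA.res h (OA.of A p)).1 x ≠ 0 := fun x => x.2.2
  have hu : IsUnit (OA.res h (OA.of A p)) := by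
    obtain ⟨v, hv⟩ := SB2_inv (OA.res h (OA.of A p)) hp
    refine IsUnit.of_mul_eq_one v ?_
    apply Subtype.ext
    funext x
    show (OA.res h (OA.of A p)).1 x * v.1 x = 1
    rw [hv x, mul_inv_cancel₀ (hp x)]
  refine IsLocalization.Away.mk (OA.of A p) ?_ ?_ ?_
  · rw [halg]
    exact hu
  · intro f
    obtain ⟨P, N, hf⟩ := OA_piece hB f
    refine ⟨N, ⟨fun x => MvPolynomial.eval (x : Fin n → k) P /
      MvPolynomial.eval (x : Fin n → k) q ^ N, P, q ^ N, fun x => ⟨?_, ?_⟩⟩, ?_⟩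
    · rw [map_pow]
      exact pow_ne_zero _ (hmem x).2
    · rw [map_pow]
    · apply Subtype.ext
      funext x
      have h1 := hf x
      have h2 := (hmem ⟨x, x.2.1⟩).2
      have h3 : MvPolynomial.eval (x : Fin n → k) p ≠ 0 := x.2.2
      show f.1 x * MvPolynomial.eval (x : Fin n → k) p ^ N =
        MvPolynomial.eval (x : Fin n → k) P / MvPolynomial.eval (x : Fin n → k) q ^ N
      rw [h1, map_mul, mul_pow]
      field_simp
  · intro a b hab
    refine ⟨1, ?_⟩
    rw [halg, halg] at hab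
    apply Subtype.ext
    funext x
    show MvPolynomial.eval (x : Fin n → k) p ^ 1 * a.1 x =
      MvPolynomial.eval (x : Fin n → k) p ^ 1 * b.1 x
    by_cases h3 : MvPolynomial.eval (x : Fin n → k) p = 0
    · rw [h3, pow_one, zero_mul, zero_mul]
    · have h4 := congrArg (fun u : OA (A ∩ {x | MvPolynomial.eval x p ≠ 0}) =>
        u.1 ⟨x, x.2, h3⟩) hab
      have h5 : a.1 x = b.1 x := h4
      rw [h5]

omit [IsAlgClosed k] in
private theorem SB2_comp {A : Set (Fin n → k)} {B : Set (Fin m → k)}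
    (g : (Fin m → k) → (Fin n → k)) (hg : RatlOn k B g) (hgA : ∀ y ∈ B, g y ∈ A) (f : OA A) :
    (fun y : B => f.1 ⟨g y, hgA y y.2⟩) ∈ OA B := by
  obtain ⟨f, P, Q, hf⟩ := f
  obtain ⟨P', Q', hg'⟩ := hg
  let G : Fin n → OA B := fun j => ⟨fun y => g y j, P' j, Q' j, fun y => hg' y y.2 j⟩
  have hG : ∀ (R : MvPolynomial (Fin n) k) (y : B),
      (MvPolynomial.aeval G R).1 y = MvPolynomial.eval (g y) R := by
    intro R y
    let ev : OA B →ₐ[k] k := (Pi.evalAlgHom k (fun _ : B => k) y).comp (OA B).val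
    show ev (MvPolynomial.aeval G R) = _
    rw [MvPolynomial.comp_aeval_apply]
    exact RingHom.congr_fun (MvPolynomial.coe_aeval_eq_eval (g y)) R
  have hQ : ∀ y, (MvPolynomial.aeval G Q : OA B).1 y ≠ 0 := by
    intro y
    rw [hG]
    exact (hf ⟨g y, hgA y y.2⟩).1
  obtain ⟨v, hv⟩ := SB2_inv (MvPolynomial.aeval G Q) hQ
  have h := (MvPolynomial.aeval G P * v).2
  have e : (fun y : B => f ⟨g y, hgA y y.2⟩) = (MvPolynomial.aeval G P * v : OA B).1 := by
    funext y
    show _ = (MvPolynomial.aeval G P : OA B).1 y * v.1 y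
    rw [hv, hG, hG, (hf ⟨g y, hgA y y.2⟩).2, div_eq_mul_inv]
  show (fun y : B => f ⟨g y, hgA y y.2⟩) ∈ OA B
  rw [e]
  exact h

/-- Rational bijections induce isomorphisms of the rings of functions. -/
theorem OA_iso {A : Set (Fin n → k)} {B : Set (Fin m → k)} (f : (Fin n → k) → (Fin m → k))
    (g : (Fin m → k) → (Fin n → k)) (hf : RatlOn k A f) (hg : RatlOn k B g)
    (hfg : ∀ x ∈ A, f x ∈ B ∧ g (f x) = x) (hgf : ∀ y ∈ B, g y ∈ A ∧ f (g y) = y) :
    Nonempty (OA A ≃ₐ[k] OA B) := by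
  have hgA : ∀ y ∈ B, g y ∈ A := fun y hy => (hgf y hy).1
  have hfB : ∀ x ∈ A, f x ∈ B := fun x hx => (hfg x hx).1
  exact ⟨{
    toFun := fun u => ⟨_, SB2_comp g hg hgA u⟩
    invFun := fun v => ⟨_, SB2_comp f hf hfB v⟩
    left_inv := fun u => by
      apply Subtype.ext
      funext x
      exact congrArg u.1 (Subtype.ext (hfg x x.2).2)
    right_inv := fun v => by
      apply Subtype.ext
      funext y
      exact congrArg v.1 (Subtype.ext (hgf y y.2).2)
    map_mul' := fun _ _ => rfl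
    map_add' := fun _ _ => rfl
    commutes' := fun _ => rfl }⟩

end Pool.Agent.MRat
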