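import Pool.Agent.Lib.MP_923aff_ag.SA2
import Pool.Agent.Lib.MP_923aff_ag.SB2
/-!
# JOB SB3: the additive invariant

`c n A = [Spec (OA A)]` for pieces, `0` otherwise. `add`: `ofAlg_scissor` with `OA_res_surj`, `OA_zero`, `OA_loc`.
`exists_toK0Var`: `PieceInv.exists_hom` (BrD.lean) and `PieceInv.cc_piece` (BrB.lean).
-/

set_option autoImplicit false

namespace Pool.Agent.MRat

open AlgebraicGeometry CategoryTheory

section aux

variable {k : Type} [Field k] {n : ℕ}

private theorem SB3_z {A : Set (Fin n → k)} (hA : IsPiece k A) (p : MvPolynomial (Fin n) k) :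
    IsPiece k (A ∩ {x | MvPolynomial.eval x p = 0}) :=
  hA.inter ⟨{p}, 1, by ext x; simp⟩

private theorem SB3_nz {A : Set (Fin n → k)} (hA : IsPiece k A) (p : MvPolynomial (Fin n) k) :
    IsPiece k (A ∩ {x | MvPolynomial.eval x p ≠ 0}) :=
  hA.inter ⟨∅, p, by ext x; simp⟩

open Classical in
/-- the class of a piece -/
private noncomputable def SB3_c (k : Type) [Field k] [IsAlgClosed k] (n : ℕ)
    (A : Set (Fin n → k)) : K0Var k :=
  if h : IsPiece k A then
    haveI := OA_ft h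
    (Var.ofAlg k (OA A)).cl
  else 0

private theorem SB3_c_eq [IsAlgClosed k] {A : Set (Fin n → k)} (h : IsPiece k A)
    [Algebra.FiniteType k (OA A)] : SB3_c k n A = (Var.ofAlg k (OA A)).cl := by
  unfold SB3_c
  rw [dif_pos h]

end aux

/-- The additive invariant `A ↦ [Spec O(A)]`. -/
theorem exists_schInv (k : Type) [Field k] [IsAlgClosed k] : ∃ c : PieceInv k (K0Var k),
    ∀ (n : ℕ) (A : Set (Fin n → k)), IsPiece k A → ∀ (B : Type) [CommRing B] [Algebra k B]
      [Algebra.FiniteType k B] [_root_.IsReduced B], Nonempty (B ≃ₐ[k] OA A) →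
      c.c n A = (Var.ofAlg k B).cl := by
  refine ⟨⟨SB3_c k, ?_, ?_⟩, ?_⟩
  · intro n A p hA
    have h0 : A ∩ {x | MvPolynomial.eval x p = 0} ⊆ A := Set.inter_subset_left
    have h1 : A ∩ {x | MvPolynomial.eval x p ≠ 0} ⊆ A := Set.inter_subset_left
    have i0 := OA_ft hA
    have i1 := OA_ft (SB3_z hA p)
    have i2 := OA_ft (SB3_nz hA p)
    rw [SB3_c_eq hA, SB3_c_eq (SB3_z hA p), SB3_c_eq (SB3_nz hA p)]
    letI : Algebra (OA A) (OA (A ∩ {x | MvPolynomial.eval x p ≠ 0})) :=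
      (OA.res h1).toRingHom.toAlgebra
    have i3 : IsScalarTower k (OA A) (OA (A ∩ {x | MvPolynomial.eval x p ≠ 0})) :=
      IsScalarTower.of_algebraMap_eq' (OA.res h1).comp_algebraMap.symm
    have i4 := OA_loc hA p h1
    refine ofAlg_scissor (OA.of A p) (OA.res h0) (OA_res_surj hA p h0) ?_ (OA_zero hA p h0)
    apply Subtype.ext
    funext x
    exact x.2.2
  · intro n m A B hA hB f g hf hg hfg hgf
    have i0 := OA_ft hA
    have i1 := OA_ft hB
    show SB3_c k n A = SB3_c k m B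
    rw [SB3_c_eq hA, SB3_c_eq hB]
    obtain ⟨e⟩ := OA_iso f g hf hg hfg hgf
    exact ofAlg_congr e
  · intro n A hA B _ _ _ _ ⟨e⟩
    have i0 := OA_ft hA
    show SB3_c k n A = _
    rw [SB3_c_eq hA]
    exact ofAlg_congr e.symm

/-- The homomorphism to the Grothendieck group of varieties. -/
theorem exists_toK0Var (k : Type) [Field k] [IsAlgClosed k] [CharZero k] :
    ∃ Φ : MK k →+ K0Var k, ∀ (n : ℕ) (A : Set (Fin n → k)), IsPiece k A →
      ∀ (B : Type) [CommRing B] [Algebra k B] [Algebra.FiniteType k B] [_root_.IsReduced B],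
        Nonempty (B ≃ₐ[k] OA A) → Φ (scl k A) = (Var.ofAlg k B).cl := by
  obtain ⟨c, hc⟩ := exists_schInv k
  obtain ⟨Φ, hΦ⟩ := c.exists_hom
  refine ⟨Φ, fun n A hA B _ _ _ _ he => ?_⟩
  rw [hΦ n A hA.con, c.cc_piece hA]
  exact hc n A hA B he

end Pool.Agent.MRat
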