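import Pool.Agent.Lib.MP_923aff_ag.SA1
/-!
# JOB SC1: closed subvarieties

`exists_closed`: the reduced closed subscheme: `I := (Scheme.IdealSheafData.ofClosed.. / the radical ideal sheaf with
support Z)`, see `Mathlib/AlgebraicGeometry/IdealSheaf/Basic.lean` (radical, vanishing ideal of a closed subset) and
`Subscheme.lean` (`subschemeι`, `range_subschemeι`). Reducedness: locally `Γ(X, U) / I(U)` with `I(U)` radical.
Alternatively: any closed subscheme with support `Z`, then its reduction.
-/

set_option autoImplicit false

namespace Pool.Agent.MRat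

open AlgebraicGeometry CategoryTheory

variable {k : Type} [Field k]

/-- The reduced closed subvariety with underlying set `Z`. -/
theorem exists_closed (X : Var k) (Z : Set X.X) (hZ : IsClosed Z) :
    ∃ (Y : Var k) (i : Y.X ⟶ X.X), i ≫ X.str = Y.str ∧ IsClosedImmersion i ∧ Set.range i = Z := by
  let I : X.X.IdealSheafData := Scheme.IdealSheafData.vanishingIdeal ⟨Z, hZ⟩
  have hred : IsReduced I.subscheme := by
    have hU : ∀ U : X.X.affineOpens,
        IsReduced (Spec (CommRingCat.of (Γ(X.X, U.1) ⧸ I.ideal U))) := by
      intro U
      have h1 : _root_.IsReduced (Γ(X.X, U.1) ⧸ I.ideal U) := by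
        rw [← Ideal.isRadical_iff_quotient_reduced]
        show (Scheme.IdealSheafData.ideal (Scheme.IdealSheafData.vanishingIdeal ⟨Z, hZ⟩) U).IsRadical
        rw [Scheme.IdealSheafData.vanishingIdeal_ideal]
        exact PrimeSpectrum.isRadical_vanishingIdeal _
      infer_instance
    have hU' : ∀ U : I.subschemeCover.openCover.I₀,
        IsReduced (I.subschemeCover.openCover.X U) := fun U => hU U
    exact IsReduced.of_openCover _ I.subschemeCover.openCover
  refine ⟨⟨I.subscheme, I.subschemeι ≫ X.str, hred, inferInstance, inferInstance,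
    inferInstance⟩, I.subschemeι, rfl, inferInstance, ?_⟩
  rw [Scheme.IdealSheafData.range_subschemeι]
  rfl

end Pool.Agent.MRat
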