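import Pool.Agent.Lib.MP_923aff_ag.SA1
/-!
# JOB SC2: affine open subvarieties
-/

set_option autoImplicit false

namespace Pool.Agent.MRat

open AlgebraicGeometry CategoryTheory

variable {k : Type} [Field k]

/-- The affine open subvariety. -/
noncomputable def Var.affOpen (X : Var k) (V : X.X.Opens) (hV : IsAffineOpen V) : Var k where
  X := V.toScheme
  str := V.ι ≫ X.str
  red := inferInstance
  sep := inferInstance
  lft := inferInstance
  qc := by
    haveI : IsAffine V.toScheme := hV
    infer_instance

theorem Var.affOpen_affine (X : Var k) (V : X.X.Opens) (hV : IsAffineOpen V) :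
    IsAffine (X.affOpen V hV).X := hV

/-- Finite affine open covers. -/
theorem exists_affine_cover (X : Var k) : ∃ T : Finset X.X.Opens, (∀ V ∈ T, IsAffineOpen V) ∧
    ∀ x : X.X, ∃ V ∈ T, x ∈ V := by
  classical
  haveI : CompactSpace X.X := by
    have h1 : QuasiCompact X.str := inferInstance
    exact (quasiCompact_iff_compactSpace (f := X.str)).1 h1
  obtain ⟨t, ht⟩ := isCompact_univ.elim_finite_subcover
    (fun V : X.X.affineOpens => (V.1 : Set X.X)) (fun V => V.1.2) (by
      intro x _
      have h2 : x ∈ (⨆ V : X.X.affineOpens, (V : X.X.Opens)) := by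
        rw [iSup_affineOpens_eq_top]
        trivial
      rw [TopologicalSpace.Opens.mem_iSup] at h2
      obtain ⟨V, hV⟩ := h2
      exact Set.mem_iUnion.2 ⟨V, hV⟩)
  refine ⟨t.image (fun V => V.1), ?_, ?_⟩
  · intro V hV
    obtain ⟨W, -, rfl⟩ := Finset.mem_image.1 hV
    exact W.2
  · intro x
    have h3 := ht (Set.mem_univ x)
    rw [Set.mem_iUnion₂] at h3
    obtain ⟨W, hW, hx⟩ := h3
    exact ⟨W.1, Finset.mem_image_of_mem _ hW, hx⟩

end Pool.Agent.MRat
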