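import Pool.Agent.Lib.MP_923aff_ag.SA1
import Pool.Agent.Lib.MP_923aff_ag.BrE
/-!
# JOB SD1 (val_exists) and SD2: varieties parametrised by definable sets: the affine case

Let `X` be affine, `b_1, .., b_r` generators of `Γ(X, ⊤)` (`Var.gens`), `J` the kernel of
`k[y_1, .., y_r] → Γ(X, ⊤)` (a radical ideal), `Y ⊆ k ^ r` its zero set (a piece). For a closed point `m` and a function
`b` there is a unique `c ∈ k` with `m ∉ basicOpen (b - c)` (`val_exists`: the residue field of `m` is `k`,
`residueFieldIsoBase` in `Mathlib/AlgebraicGeometry/AlgClosed/Basic.lean`, or the Nullstellensatz for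
`Γ(X, ⊤)`). So `β x = (b_i (p x))_i` is a definable map `S → k ^ r` with image `Y` and `β x = β y ↔ p x = p y`.
By `cls_map`: `cls k S (p x = p y) = scl k Y`, and `OA Y ≅ k[y] / J ≅ Γ(X, ⊤)`; use `Var.cl_affine`.
-/

set_option autoImplicit false

namespace Pool.Agent.MRat

open AlgebraicGeometry CategoryTheory

variable {k : Type} [Field k]

/-- The point-valued function `p` on `S` is regular (more precisely: definable) on the open subset `V`. -/
structure RegAt (X : Var k) {N : ℕ} (S : Set (Fin N → k)) (p : (Fin N → k) → X.X) (V : X.X.Opens) :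
    Prop where
  mem : DP k (fun x : Fin N → k => x ∈ S ∧ p x ∈ V)
  val : ∀ b : Γ(X.X, V), DP k (fun q : (Fin N → k) × k => q.1 ∈ S ∧ p q.1 ∈ V ∧
    p q.1 ∉ X.X.basicOpen (b - X.kmap V q.2))

variable [IsAlgClosed k]

private theorem sd1_inv (X : Var k) (m : X.X) (hm : IsClosed {m}) :
    (residueFieldIsoBase X.str m hm).inv =
      (Scheme.ΓSpecIso (CommRingCat.of k)).inv ≫ X.str.appTop ≫ X.X.Γevaluation m := by
  apply Spec.map_injective
  rw [SpecMap_residueFieldIsoBase_inv]
  show _ = Spec.map ((Scheme.ΓSpecIso (CommRingCat.of k)).inv ≫ X.str.appTop ≫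
    (X.X.presheaf.germ ⊤ m trivial ≫ X.X.residue m))
  rw [Spec.map_comp, Spec.map_comp, Spec.map_comp, Category.assoc, Category.assoc,
    ← Scheme.fromSpecStalk_toSpecΓ_assoc, ← Scheme.toSpecΓ_naturality_assoc]
  rw [← SpecMap_ΓSpecIso_hom]
  rw [← Spec.map_comp, Iso.inv_hom_id, Spec.map_id, Category.comp_id]
  rfl

private theorem sd1_eval (X : Var k) (V : X.X.Opens) (m : X.X) (hm : IsClosed {m})
    (hmV : m ∈ V) (c : k) :
    (X.X.evaluation V m hmV).hom (X.kmap V c) = (residueFieldIsoBase X.str m hm).inv.hom c := by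
  rw [sd1_inv X m hm]
  have h : X.X.presheaf.map (homOfLE le_top : V ⟶ ⊤).op ≫ X.X.evaluation V m hmV =
      X.X.Γevaluation m := by
    show X.X.presheaf.map (homOfLE le_top : V ⟶ ⊤).op ≫ X.X.presheaf.germ V m hmV ≫ _ =
      X.X.presheaf.germ ⊤ m trivial ≫ _
    rw [X.X.presheaf.germ_res_assoc (homOfLE le_top) m hmV]
  rw [← h]
  rfl

/-- The value of a function at a closed point. -/
theorem val_exists (X : Var k) (V : X.X.Opens) (b : Γ(X.X, V)) (m : X.X) (hm : IsClosed {m})
    (hmV : m ∈ V) : ∃! c : k, m ∉ X.X.basicOpen (b - X.kmap V c) := by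
  have hiff : ∀ c : k, m ∉ X.X.basicOpen (b - X.kmap V c) ↔
      (residueFieldIsoBase X.str m hm).inv.hom c = (X.X.evaluation V m hmV).hom b := by
    intro c
    rw [← Scheme.evaluation_eq_zero_iff_notMem_basicOpen X.X m hmV, ← sd1_eval X V m hm hmV c]
    show (X.X.evaluation V m hmV).hom (b - X.kmap V c) = 0 ↔ _
    rw [map_sub, sub_eq_zero]
    exact eq_comm
  have hinj : Function.Injective (residueFieldIsoBase X.str m hm).inv.hom :=
    (residueFieldIsoBase X.str m hm).symm.commRingCatIsoToRingEquiv.injective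
  have hsurj : Function.Surjective (residueFieldIsoBase X.str m hm).inv.hom :=
    (residueFieldIsoBase X.str m hm).symm.commRingCatIsoToRingEquiv.surjective
  obtain ⟨c, hc⟩ := hsurj ((X.X.evaluation V m hmV).hom b)
  exact ⟨c, (hiff c).2 hc, fun c' hc' => hinj (((hiff c').1 hc').trans hc.symm)⟩

end Pool.Agent.MRat
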