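import Pool.Agent.Lib.MP_923aff_ag.SD1
import Pool.Agent.Lib.MP_923aff_ag.SB3
/-!
# JOB SD2: varieties parametrised by definable sets: the affine case

See the header of SD1.lean.
-/

set_option autoImplicit false

namespace Pool.Agent.MRat

open AlgebraicGeometry CategoryTheory

section aux

variable {k : Type} [Field k]

/-- The point of an affine scheme, as a prime ideal of the ring of functions. -/
private noncomputable def SD2_P (X : Scheme.{0}) (m : X) : Ideal Γ(X, ⊤) :=
  (X.toSpecΓ m : PrimeSpectrum Γ(X, ⊤)).asIdeal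

private theorem SD2_P_prime (X : Scheme.{0}) (m : X) : (SD2_P X m).IsPrime :=
  (X.toSpecΓ m : PrimeSpectrum Γ(X, ⊤)).isPrime

private theorem SD2_mem_P (X : Scheme.{0}) (m : X) (s : Γ(X, ⊤)) :
    s ∈ SD2_P X m ↔ m ∉ X.basicOpen s := by
  have h := Scheme.toSpecΓ_preimage_basicOpen X s
  have h1 : m ∈ X.toSpecΓ ⁻¹ᵁ (PrimeSpectrum.basicOpen s) ↔ m ∈ X.basicOpen s := by rw [h]
  have h2 : m ∈ X.toSpecΓ ⁻¹ᵁ (PrimeSpectrum.basicOpen s) ↔
      s ∉ SD2_P X m := Iff.rfl
  rw [← h1, h2, not_not]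

private theorem SD2_P_inj (X : Scheme.{0}) [IsAffine X] {m m' : X} (h : SD2_P X m = SD2_P X m') :
    m = m' := by
  have h1 : X.toSpecΓ m = X.toSpecΓ m' := PrimeSpectrum.ext h
  exact (X.isoSpec.hom.homeomorph).injective h1

private theorem SD2_P_surj (X : Scheme.{0}) [IsAffine X] (M : Ideal Γ(X, ⊤)) (hM : M.IsMaximal) :
    ∃ m : X, IsClosed {m} ∧ SD2_P X m = M := by
  let z : PrimeSpectrum Γ(X, ⊤) := ⟨M, hM.isPrime⟩
  have hz : IsClosed ({z} : Set (PrimeSpectrum Γ(X, ⊤))) :=
    (PrimeSpectrum.isClosed_singleton_iff_isMaximal z).2 hM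
  obtain ⟨m, hm⟩ := (X.isoSpec.hom.homeomorph).surjective z
  refine ⟨m, ?_, ?_⟩
  · have h : ({m} : Set X) = (X.isoSpec.hom.homeomorph) ⁻¹' {z} := by
      ext m'
      simp only [Set.mem_singleton_iff, Set.mem_preimage]
      constructor
      · rintro rfl
        exact hm
      · intro h
        exact (X.isoSpec.hom.homeomorph).injective (h.trans hm.symm)
    rw [h]
    exact hz.preimage (X.isoSpec.hom.homeomorph).continuous
  · exact congrArg PrimeSpectrum.asIdeal hm

/-- At a point with values `v` the prime ideal is determined by `v`. -/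
private theorem SD2_value {G : Type} [CommRing G] (κ : k →+* G) {r : ℕ} (b : Fin r → G)
    (P : Ideal G) (v : Fin r → k) (hv : ∀ i, b i - κ (v i) ∈ P) (f : MvPolynomial (Fin r) k) :
    MvPolynomial.eval₂Hom κ b f - κ (MvPolynomial.eval v f) ∈ P := by
  rw [← Ideal.Quotient.eq_zero_iff_mem, map_sub, sub_eq_zero]
  induction f using MvPolynomial.induction_on with
  | C a => simp
  | add p q hp hq => simp only [map_add, hp, hq]
  | mul_X p i hp =>
    have h : (Ideal.Quotient.mk P) (b i) = (Ideal.Quotient.mk P) (κ (v i)) := by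
      rw [← sub_eq_zero, ← map_sub, Ideal.Quotient.eq_zero_iff_mem]
      exact hv i
    rw [map_mul, map_mul, map_mul, map_mul, map_mul, hp, MvPolynomial.eval₂Hom_X',
      MvPolynomial.eval_X, h]

private theorem SD2_value_iff {G : Type} [CommRing G] (κ : k →+* G) {r : ℕ} (b : Fin r → G)
    (P : Ideal G) [hP : P.IsPrime] (v : Fin r → k) (hv : ∀ i, b i - κ (v i) ∈ P)
    (f : MvPolynomial (Fin r) k) :
    MvPolynomial.eval₂Hom κ b f ∈ P ↔ MvPolynomial.eval v f = 0 := by
  have h := SD2_value κ b P v hv f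
  constructor
  · intro hf
    by_contra hne
    have h1 : κ (MvPolynomial.eval v f) ∈ P := by
      have := P.sub_mem hf h
      simpa using this
    have hu : IsUnit (κ (MvPolynomial.eval v f)) := (isUnit_iff_ne_zero.2 hne).map κ
    exact hP.ne_top (P.eq_top_of_isUnit_mem h1 hu)
  · intro hf
    rw [hf, map_zero, sub_zero] at h
    exact h

private theorem SD2_max {G : Type} [CommRing G] (κ : k →+* G) {r : ℕ} (b : Fin r → G)
    (hs : Function.Surjective (MvPolynomial.eval₂Hom κ b)) (y : Fin r → k)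
    (hy : ∀ f ∈ RingHom.ker (MvPolynomial.eval₂Hom κ b), MvPolynomial.eval y f = 0) :
    ∃ M : Ideal G, M.IsMaximal ∧ ∀ i, b i - κ (y i) ∈ M := by
  have hmax : (RingHom.ker (MvPolynomial.eval y)).IsMaximal :=
    RingHom.ker_isMaximal_of_surjective _ (fun c => ⟨MvPolynomial.C c, MvPolynomial.eval_C c⟩)
  refine ⟨Ideal.map (MvPolynomial.eval₂Hom κ b) (RingHom.ker (MvPolynomial.eval y)), ?_, ?_⟩
  · refine (Ideal.map_eq_top_or_isMaximal_of_surjective _ hs hmax).resolve_left fun h => ?_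
    have h1 := Ideal.comap_map_of_surjective _ hs (RingHom.ker (MvPolynomial.eval y))
    rw [h, Ideal.comap_top, ← RingHom.ker_eq_comap_bot, eq_comm, sup_eq_left.2] at h1
    · exact hmax.ne_top h1
    · intro f hf
      exact hy f hf
  · intro i
    have h : b i - κ (y i) = MvPolynomial.eval₂Hom κ b (MvPolynomial.X i - MvPolynomial.C (y i)) := by
      simp
    rw [h]
    refine Ideal.mem_map_of_mem _ ?_
    rw [RingHom.mem_ker]
    simp

variable [IsAlgClosed k]

private theorem SD2_null {r : ℕ} {J : Ideal (MvPolynomial (Fin r) k)} (hJ : J.IsRadical)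
    {f : MvPolynomial (Fin r) k}
    (h : ∀ x : Fin r → k, (∀ p ∈ J, MvPolynomial.eval x p = 0) → MvPolynomial.eval x f = 0) :
    f ∈ J := by
  have h1 : f ∈ MvPolynomial.vanishingIdeal k (MvPolynomial.zeroLocus k J) := by
    rw [MvPolynomial.mem_vanishingIdeal_iff]
    intro x hx
    rw [MvPolynomial.mem_zeroLocus_iff] at hx
    have h2 : ∀ p : MvPolynomial (Fin r) k, MvPolynomial.aeval x p = MvPolynomial.eval x p :=
      fun p => RingHom.congr_fun (MvPolynomial.coe_aeval_eq_eval x) p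
    rw [h2]
    refine h x fun p hp => ?_
    rw [← h2]
    exact hx p hp
  rw [MvPolynomial.vanishingIdeal_zeroLocus_eq_radical, hJ.radical] at h1
  exact h1

/-- The coordinate ring. -/
private theorem SD2_ring {G : Type} [CommRing G] [_root_.IsReduced G] (κ : k →+* G) {r : ℕ}
    (b : Fin r → G) (hs : Function.Surjective (MvPolynomial.eval₂Hom κ b)) {Y : Set (Fin r → k)}
    (hY : Y = {y | (∀ f ∈ (RingHom.ker (MvPolynomial.eval₂Hom κ b) :
      Set (MvPolynomial (Fin r) k)), MvPolynomial.eval y f = 0) ∧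
      MvPolynomial.eval y (1 : MvPolynomial (Fin r) k) ≠ 0}) :
    ∃ φ : OA Y ≃+* G, ∀ c : k, φ (algebraMap k (OA Y) c) = κ c := by
  let a : MvPolynomial (Fin r) k →+* OA Y :=
    { toFun := OA.of Y
      map_one' := by
        apply Subtype.ext
        funext x
        exact map_one _
      map_mul' := fun p q => by
        apply Subtype.ext
        funext x
        exact map_mul _ _ _
      map_zero' := by
        apply Subtype.ext
        funext x
        exact map_zero _
      map_add' := fun p q => by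
        apply Subtype.ext
        funext x
        exact map_add _ _ _ }
  have ha : Function.Surjective a := by
    intro f
    obtain ⟨P, N, hf⟩ := OA_piece hY f
    refine ⟨P, ?_⟩
    apply Subtype.ext
    funext x
    rw [hf x, map_one, one_pow, div_one]
    rfl
  have hrad : (RingHom.ker (MvPolynomial.eval₂Hom κ b)).IsRadical := by
    rintro f ⟨N, hN⟩
    rw [RingHom.mem_ker, map_pow] at hN
    rw [RingHom.mem_ker]
    exact eq_zero_of_pow_eq_zero hN
  have hker : RingHom.ker a = RingHom.ker (MvPolynomial.eval₂Hom κ b) := by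
    apply le_antisymm
    · intro f hf
      refine SD2_null hrad fun x hx => ?_
      have hxY : x ∈ Y := by
        rw [hY]
        exact ⟨hx, by rw [map_one]; exact one_ne_zero⟩
      rw [RingHom.mem_ker] at hf
      exact congrArg (fun u : OA Y => u.1 ⟨x, hxY⟩) hf
    · intro f hf
      rw [RingHom.mem_ker]
      apply Subtype.ext
      funext x
      have hx : (x : Fin r → k) ∈ {y | (∀ f ∈ (RingHom.ker (MvPolynomial.eval₂Hom κ b) :
          Set (MvPolynomial (Fin r) k)), MvPolynomial.eval y f = 0) ∧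
          MvPolynomial.eval y (1 : MvPolynomial (Fin r) k) ≠ 0} := by
        rw [← hY]
        exact x.2
      exact hx.1 f hf
  let φ : OA Y ≃+* G := ((RingHom.quotientKerEquivOfSurjective ha).symm.trans
    (Ideal.quotEquivOfEq hker)).trans (RingHom.quotientKerEquivOfSurjective hs)
  have hφ : ∀ f, φ (a f) = MvPolynomial.eval₂Hom κ b f := by
    intro f
    show (RingHom.quotientKerEquivOfSurjective hs) ((Ideal.quotEquivOfEq hker)
      ((RingHom.quotientKerEquivOfSurjective ha).symm (a f))) = _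
    have h1 : (RingHom.quotientKerEquivOfSurjective ha).symm (a f) = Ideal.Quotient.mk _ f := by
      rw [RingEquiv.symm_apply_eq, RingHom.quotientKerEquivOfSurjective_apply_mk]
    rw [h1, Ideal.quotEquivOfEq_mk, RingHom.quotientKerEquivOfSurjective_apply_mk]
  refine ⟨φ, fun c => ?_⟩
  have h : algebraMap k (OA Y) c = a (MvPolynomial.C c) := by
    apply Subtype.ext
    funext x
    exact (MvPolynomial.eval_C c).symm
  rw [h, hφ]
  simp

end aux

variable {k : Type} [Field k] [IsAlgClosed k] [CharZero k]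

theorem affine_case (X : Var k) [IsAffine X.X] {N : ℕ} (S : Set (Fin N → k))
    (p : (Fin N → k) → X.X) (hcl : ∀ x ∈ S, IsClosed {p x})
    (surj : ∀ m : X.X, IsClosed {m} → ∃ x ∈ S, p x = m) (reg : RegAt X S p ⊤)
    (Φ : MK k →+ K0Var k) (hΦ : ∀ (n : ℕ) (A : Set (Fin n → k)), IsPiece k A →
      ∀ (B : Type) [CommRing B] [Algebra k B] [Algebra.FiniteType k B] [_root_.IsReduced B],
        Nonempty (B ≃ₐ[k] OA A) → Φ (scl k A) = (Var.ofAlg k B).cl) :
    Good k S (fun x y => p x = p y) ∧ Φ (cls k S (fun x y => p x = p y)) = X.cl := by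
  obtain ⟨r, b, hb⟩ := X.gens
  have hS : DP k (fun x : Fin N → k => x ∈ S) := reg.mem.congr fun x => ⟨fun h => h.1, fun h => ⟨h, trivial⟩⟩
  -- the values
  have hval : ∀ x ∈ S, ∃! v : Fin r → k, ∀ i, b i - X.kmap ⊤ (v i) ∈ SD2_P X.X (p x) := by
    intro x hx
    have h := fun i => val_exists X ⊤ (b i) (p x) (hcl x hx) trivial
    choose v hv hv' using h
    refine ⟨v, fun i => (SD2_mem_P _ _ _).2 (hv i), fun w hw => ?_⟩
    funext i
    exact hv' i (w i) ((SD2_mem_P _ _ _).1 (hw i))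
  have hR : DP k (fun q : (Fin N → k) × (Fin r → k) => q.1 ∈ S ∧
      ∀ i, b i - X.kmap ⊤ (q.2 i) ∈ SD2_P X.X (p q.1)) := by
    have h1 : ∀ i, DP k (fun q : (Fin N → k) × (Fin r → k) => q.1 ∈ S ∧ p q.1 ∈ (⊤ : X.X.Opens) ∧
        p q.1 ∉ X.X.basicOpen (b i - X.kmap ⊤ (q.2 i))) := fun i =>
      (reg.val (b i)).comp (f := fun q : (Fin N → k) × (Fin r → k) => (q.1, q.2 i))
        (DF.fst.mk (DF.snd.apply i))
    refine ((hS.comp DF.fst).and (DP.fall h1)).congr fun q => ?_
    constructor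
    · rintro ⟨h2, h3⟩
      exact ⟨h2, fun i => (SD2_mem_P _ _ _).2 (h3 i).2.2⟩
    · rintro ⟨h2, h3⟩
      exact ⟨h2, fun i => ⟨h2, trivial, (SD2_mem_P _ _ _).1 (h3 i)⟩⟩
  have : Inhabited (Fin r → k) := ⟨0⟩
  obtain ⟨β, hβ, hβ'⟩ := DF.choice hS hR hval
  have hβu : ∀ x ∈ S, ∀ v : Fin r → k, (∀ i, b i - X.kmap ⊤ (v i) ∈ SD2_P X.X (p x)) → β x = v :=
    fun x hx v hv => (hval x hx).unique (hβ' x hx) hv
  have hpr : ∀ x, (SD2_P X.X (p x)).IsPrime := fun x => SD2_P_prime _ _
  have hiff : ∀ x ∈ S, ∀ y ∈ S, (p x = p y ↔ β x = β y) := by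
    intro x hx y hy
    constructor
    · intro h
      refine hβu x hx _ ?_
      rw [h]
      exact hβ' y hy
    · intro h
      apply SD2_P_inj
      ext s
      obtain ⟨f, rfl⟩ := hb s
      have := hpr x
      have := hpr y
      rw [SD2_value_iff _ b _ (β x) (hβ' x hx), SD2_value_iff _ b _ (β y) (hβ' y hy), h]
  have hG : Good k S (fun x y => p x = p y) :=
    { ds := hS
      dr := by
        have h1 : DP k (fun q : (Fin N → k) × (Fin N → k) => β q.1 = β q.2) :=
          DP.eq (hβ.comp DF.fst) (hβ.comp DF.snd)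
        refine ((hS.comp (f := fun q : (Fin N → k) × (Fin N → k) => q.1) DF.fst).and
          ((hS.comp (f := fun q : (Fin N → k) × (Fin N → k) => q.2) DF.snd).and h1)).congr
          fun q => ?_
        constructor
        · rintro ⟨h2, h3, h4⟩
          exact ⟨h2, h3, (hiff _ h2 _ h3).2 h4⟩
        · rintro ⟨h2, h3, h4⟩
          exact ⟨h2, h3, (hiff _ h2 _ h3).1 h4⟩
      refl := fun _ _ => rfl
      symm := fun _ _ _ _ h => h.symm
      trans := fun _ _ _ _ _ _ h h' => h.trans h' }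
  refine ⟨hG, ?_⟩
  obtain ⟨Y, hY⟩ : ∃ Y : Set (Fin r → k), Y = {y | (∀ f ∈ (RingHom.ker
    (MvPolynomial.eval₂Hom (X.kmap ⊤) b) : Set (MvPolynomial (Fin r) k)),
      MvPolynomial.eval y f = 0) ∧ MvPolynomial.eval y (1 : MvPolynomial (Fin r) k) ≠ 0} := ⟨_, rfl⟩
  have hYp : IsPiece k Y := ⟨_, _, hY⟩
  have hYmem : ∀ y, y ∈ Y ↔ ∀ f ∈ RingHom.ker (MvPolynomial.eval₂Hom (X.kmap ⊤) b),
      MvPolynomial.eval y f = 0 := by
    intro y
    rw [hY]
    constructor
    · rintro ⟨h1, h2⟩
      exact h1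
    · intro h1
      exact ⟨h1, by rw [map_one]; exact one_ne_zero⟩
  have hcls : cls k S (fun x y => p x = p y) = scl k Y := by
    refine cls_map hG (Good.eq (dp_pi_iff.2 hYp.con)) β hβ ?_ hiff ?_
    · intro x hx
      rw [hYmem]
      intro f hf
      have := hpr x
      rw [← SD2_value_iff (X.kmap ⊤) b _ (β x) (hβ' x hx), RingHom.mem_ker.1 hf]
      exact Ideal.zero_mem _
    · intro y hy
      obtain ⟨M, hM, hM'⟩ := SD2_max (X.kmap ⊤) b hb y ((hYmem y).1 hy)
      obtain ⟨m, hm, hmM⟩ := SD2_P_surj X.X M hM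
      obtain ⟨x, hx, rfl⟩ := surj m hm
      refine ⟨x, hx, hβu x hx y ?_⟩
      rw [hmM]
      exact hM'
  rw [hcls]
  have hred : _root_.IsReduced Γ(X.X, ⊤) := inferInstance
  obtain ⟨φ, hφ⟩ := SD2_ring (X.kmap ⊤) b hb hY
  have i0 := OA_ft hYp
  rw [hΦ r Y hYp (OA Y) ⟨AlgEquiv.refl⟩]
  exact (Var.cl_affine X (OA Y) φ hφ).symm

end Pool.Agent.MRat
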