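import Pool.Agent.Lib.MP_923aff_ag.SD2
import Pool.Agent.Lib.MP_923aff_ag.SC1
import Pool.Agent.Lib.MP_923aff_ag.SC2
/-!
# JOB SE: varieties parametrised by definable sets: the general case

Induction on the number of elements of the affine cover `T`. Empty cover: `X` is empty, `S` is empty.
Otherwise let `V ∈ T`, `S_V = {x ∈ S | p x ∈ V}`, `S' = S \ S_V`; `Z → X` the reduced closed subvariety with
underlying set `X \ V` (`exists_closed`) and `p' : S' → Z` the lift of `p`. `RegAt` for `Z` and the open sets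
`i ⁻¹ V'`, `V' ∈ T`, `V' ≠ V`: sections of `Z` over `i ⁻¹ V'` lift to sections of `X` over `V'` (`Scheme.Hom.app_surjective` for
affine `V'`), and `i ⁻¹ (basicOpen f) = basicOpen (i^# f)`. `[X] = [Z] + [V]` (`Var.cl_scissor`, `Var.affOpen`),
`[V]` by `affine_case`, and `cls k S ~ = cls k S_V ~ + cls k S' ~` by `cls_split`. Closed points: a point of `Z` is
closed iff its image in `X` is; a closed point of `V` is closed in `X` (the closed points of a scheme locally of
finite type over a field: `JacobsonSpace`).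
-/

set_option autoImplicit false

namespace Pool.Agent.MRat

open AlgebraicGeometry CategoryTheory

variable {k : Type} [Field k]

private theorem kmap_app {X Y : Var k} (f : Y.X ⟶ X.X) (hf : f ≫ X.str = Y.str)
    (W : X.X.Opens) (c : k) : f.app W (X.kmap W c) = Y.kmap (f ⁻¹ᵁ W) c := by
  have h1 : (X.X.presheaf.map (homOfLE le_top : W ⟶ ⊤).op) ≫ f.app W =
      f.app ⊤ ≫ Y.X.presheaf.map (homOfLE le_top : f ⁻¹ᵁ W ⟶ ⊤).op := f.naturality _
  have h2 : X.str.appTop ≫ f.appTop = Y.str.appTop := by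
    rw [← Scheme.Hom.comp_appTop, hf]
  unfold Var.kmap
  have h3 := congrArg (fun g => g.hom (X.str.appTop.hom
    ((Scheme.ΓSpecIso (CommRingCat.of k)).inv.hom c))) h1
  have h4 := congrArg (fun g => g.hom ((Scheme.ΓSpecIso (CommRingCat.of k)).inv.hom c)) h2
  simp only [CommRingCat.hom_comp, RingHom.comp_apply] at h3 h4 ⊢
  rw [h3]
  exact congrArg _ h4

variable [IsAlgClosed k] [CharZero k]

private theorem SE_pull {X Y : Var k} (f : Y.X ⟶ X.X) (hf : f ≫ X.str = Y.str) {N : ℕ}
    {S S' : Set (Fin N → k)} {p : (Fin N → k) → X.X} {p' : (Fin N → k) → Y.X}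
    (D : (Fin N → k) → Prop) (hD : DP k D) (hS' : ∀ x, x ∈ S' ↔ x ∈ S ∧ D x)
    (hp : ∀ x ∈ S', f (p' x) = p x) (W : X.X.Opens) (hsurj : Function.Surjective (f.app W))
    (h : RegAt X S p W) : RegAt Y S' p' (f ⁻¹ᵁ W) where
  mem := by
    refine (h.mem.and hD).congr fun x => ?_
    constructor
    · rintro ⟨⟨h1, h2⟩, h3⟩
      have h4 := (hS' x).2 ⟨h1, h3⟩
      refine ⟨h4, ?_⟩
      show f (p' x) ∈ W
      rw [hp x h4]
      exact h2
    · rintro ⟨h1, h2⟩
      have h4 : f (p' x) ∈ W := h2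
      rw [hp x h1] at h4
      exact ⟨⟨((hS' x).1 h1).1, h4⟩, ((hS' x).1 h1).2⟩
  val := by
    intro b
    obtain ⟨b', rfl⟩ := hsurj b
    have hD' : DP k (fun q : (Fin N → k) × k => D q.1) := hD.comp DF.fst
    refine ((h.val b').and hD').congr fun q => ?_
    have key : ∀ c : k, f ⁻¹ᵁ X.X.basicOpen (b' - X.kmap W c) =
        Y.X.basicOpen (f.app W b' - Y.kmap (f ⁻¹ᵁ W) c) := by
      intro c
      rw [Scheme.preimage_basicOpen]
      congr 1
      rw [← kmap_app f hf W c]
      exact map_sub (f.app W).hom _ _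
    constructor
    · rintro ⟨⟨h1, h2, h3⟩, h4⟩
      have h5 := (hS' q.1).2 ⟨h1, h4⟩
      refine ⟨h5, ?_, ?_⟩
      · show f (p' q.1) ∈ W
        rw [hp _ h5]
        exact h2
      · rw [← key]
        show f (p' q.1) ∉ X.X.basicOpen (b' - X.kmap W q.2)
        rw [hp _ h5]
        exact h3
    · rintro ⟨h1, h2, h3⟩
      have h5 := (hS' q.1).1 h1
      have h6 : f (p' q.1) ∈ W := h2
      rw [← key] at h3
      have h7 : f (p' q.1) ∉ X.X.basicOpen (b' - X.kmap W q.2) := h3
      rw [hp _ h1] at h6 h7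
      exact ⟨⟨h5.1, h6, h7⟩, h5.2⟩

omit [IsAlgClosed k] [CharZero k] in
private theorem SE_jac (X : Var k) : JacobsonSpace X.X :=
  LocallyOfFiniteType.jacobsonSpace X.str

private theorem SE_surj {X : Scheme.{0}} (V : X.Opens) : Function.Surjective (V.ι.app V) := by
  have h : IsIso (V.ι.app V) := by
    rw [Scheme.Opens.ι_app_self]
    exact inferInstanceAs (IsIso (X.presheaf.map (eqToHom _).op))
  exact (ConcreteCategory.bijective_of_isIso _).2

private theorem SE_main (Φ : MK k →+ K0Var k) (hΦ : ∀ (n : ℕ) (A : Set (Fin n → k)), IsPiece k A →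
      ∀ (B : Type) [CommRing B] [Algebra k B] [Algebra.FiniteType k B] [_root_.IsReduced B],
        Nonempty (B ≃ₐ[k] OA A) → Φ (scl k A) = (Var.ofAlg k B).cl) (n : ℕ) :
    ∀ (X : Var k) {N : ℕ} (S : Set (Fin N → k))
    (p : (Fin N → k) → X.X) (_ : ∀ x ∈ S, IsClosed {p x})
    (_ : ∀ m : X.X, IsClosed {m} → ∃ x ∈ S, p x = m) (T : Finset X.X.Opens) (_ : T.card ≤ n)
    (_ : ∀ V ∈ T, IsAffineOpen V) (_ : ∀ x : X.X, ∃ V ∈ T, x ∈ V)
    (_ : ∀ V ∈ T, RegAt X S p V),
    Good k S (fun x y => p x = p y) ∧ Φ (cls k S (fun x y => p x = p y)) = X.cl := by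
  classical
  induction n with
  | zero =>
    intro X N S p _ _ T hTn _ cover _
    obtain ⟨V, hV, -⟩ := cover (p 0)
    rw [Nat.le_zero, Finset.card_eq_zero] at hTn
    rw [hTn] at hV
    exact absurd hV (Finset.notMem_empty V)
  | succ n ih =>
    intro X N S p hcl surj T hTn hT cover reg
    obtain ⟨V, hV, hpV⟩ := cover (p 0)
    by_cases htop : V = ⊤
    · subst htop
      have : IsAffine X.X := by
        have h1 := hT ⊤ hV
        have h2 : IsAffine ((⊤ : X.X.Opens).toScheme) := h1
        exact IsAffine.of_isIso X.X.topIso.inv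
      exact affine_case X S p hcl surj (reg ⊤ hV) Φ hΦ
    have hjac := SE_jac X
    obtain ⟨Y, i, hi, ci, hri⟩ := exists_closed X ((V : Set X.X)ᶜ) V.isOpen.isClosed_compl
    have hVaff := hT V hV
    have oj : IsOpenImmersion V.ι := inferInstance
    have hsurjV := SE_surj V
    have hsc : X.cl = Y.cl + (X.affOpen V hVaff).cl := by
      refine Var.cl_scissor X Y (X.affOpen V hVaff) i V.ι hi rfl ci oj ?_
      rw [hri]
      congr 1
      exact (Scheme.Opens.range_ι V).symm
    have hUaff : IsAffine (X.affOpen V hVaff).X := X.affOpen_affine V hVaff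
    -- the open part
    obtain ⟨SV, hSV⟩ : ∃ SV : Set (Fin N → k), SV = {x | x ∈ S ∧ p x ∈ V} := ⟨_, rfl⟩
    have hmemV : ∀ x, x ∈ SV ↔ x ∈ S ∧ p x ∈ V := fun x => by rw [hSV]; rfl
    have hDV : DP k (fun x => x ∈ S ∧ p x ∈ V) := (reg V hV).mem
    have exU : ∀ x, ∃ u : (X.affOpen V hVaff).X, p x ∈ V → V.ι u = p x := by
      intro x
      by_cases h : p x ∈ V
      · exact ⟨⟨p x, h⟩, fun _ => rfl⟩
      · exact ⟨⟨p 0, hpV⟩, fun h' => absurd h' h⟩
    choose pU hpU using exU
    have hopen : Topology.IsOpenEmbedding V.ι := V.ι.isOpenEmbedding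
    have hU := affine_case (X.affOpen V hVaff) SV pU
      (by
        intro x hx
        have h1 : V.ι (pU x) = p x := hpU x ((hmemV x).1 hx).2
        have h2 : pU x ∈ V.ι ⁻¹' closedPoints X.X := by
          show IsClosed {V.ι (pU x)}
          rw [h1]
          exact hcl x ((hmemV x).1 hx).1
        exact preimage_closedPoints_subset hopen.injective hopen.continuous h2)
      (by
        intro m hm
        have h1 : m ∈ closedPoints V.toScheme := hm
        rw [← hopen.preimage_closedPoints] at h1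
        obtain ⟨x, hx, hxm⟩ := surj (V.ι m) h1
        have h2 : p x ∈ V := by
          rw [hxm]
          exact m.2
        exact ⟨x, (hmemV x).2 ⟨hx, h2⟩, hopen.injective ((hpU x h2).trans hxm)⟩)
      (by
        have h1 := SE_pull (X := X) (Y := X.affOpen V hVaff) V.ι rfl (p' := pU)
          (fun x => x ∈ S ∧ p x ∈ V) hDV (S' := SV) (fun x => by rw [hmemV]; tauto)
          (fun x hx => hpU x ((hmemV x).1 hx).2) V
          hsurjV (reg V hV)
        exact Eq.mp (congrArg (RegAt (X.affOpen V hVaff) SV pU) V.ι_preimage_self) h1)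
      Φ hΦ
    -- the closed part
    obtain ⟨x₀, hx₀⟩ : ∃ x₀ : X.X, x₀ ∉ V := by
      by_contra h
      push Not at h
      exact htop (top_unique fun x _ => h x)
    obtain ⟨y₀, -⟩ : ∃ y₀, i y₀ = x₀ := by
      have : x₀ ∈ Set.range i := by
        rw [hri]
        exact hx₀
      exact this
    have exY : ∀ x, ∃ y : Y.X, p x ∉ V → i y = p x := by
      intro x
      by_cases h : p x ∈ V
      · exact ⟨y₀, fun h' => absurd h h'⟩
      · have : p x ∈ Set.range i := by
          rw [hri]
          exact h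
        obtain ⟨y, hy⟩ := this
        exact ⟨y, fun _ => hy⟩
    choose pY hpY using exY
    have hiV : ∀ y : Y.X, i y ∉ V := by
      intro y
      have : i y ∈ Set.range i := ⟨y, rfl⟩
      rw [hri] at this
      exact this
    obtain ⟨SC, hSC⟩ : ∃ SC : Set (Fin N → k), SC = S \ SV := ⟨_, rfl⟩
    have hmemC : ∀ x, x ∈ SC ↔ x ∈ S ∧ p x ∉ V := by
      intro x
      rw [hSC, Set.mem_sdiff, hmemV]
      tauto
    have hclosed : Topology.IsClosedEmbedding i := i.isClosedEmbedding
    have hC := ih Y SC pY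
      (by
        intro x hx
        have h1 : i (pY x) = p x := hpY x ((hmemC x).1 hx).2
        have h2 : pY x ∈ i ⁻¹' closedPoints X.X := by
          show IsClosed {i (pY x)}
          rw [h1]
          exact hcl x ((hmemC x).1 hx).1
        exact preimage_closedPoints_subset hclosed.injective hclosed.continuous h2)
      (by
        intro m hm
        have h1 : m ∈ closedPoints Y.X := hm
        rw [← hclosed.preimage_closedPoints] at h1
        obtain ⟨x, hx, hxm⟩ := surj (i m) h1
        have h2 : p x ∉ V := by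
          rw [hxm]
          exact hiV m
        exact ⟨x, (hmemC x).2 ⟨hx, h2⟩, hclosed.injective ((hpY x h2).trans hxm)⟩)
      ((T.erase V).image (fun W => i ⁻¹ᵁ W))
      (by
        refine Finset.card_image_le.trans ?_
        rw [Finset.card_erase_of_mem hV]
        omega)
      (by
        intro W' hW'
        obtain ⟨W, hW, rfl⟩ := Finset.mem_image.1 hW'
        exact (hT W (Finset.mem_of_mem_erase hW)).preimage i)
      (by
        intro y
        obtain ⟨W, hW, hyW⟩ := cover (i y)
        refine ⟨i ⁻¹ᵁ W, Finset.mem_image.2 ⟨W, Finset.mem_erase.2 ⟨?_, hW⟩, rfl⟩, hyW⟩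
        rintro rfl
        exact hiV y hyW)
      (by
        intro W' hW'
        obtain ⟨W, hW, rfl⟩ := Finset.mem_image.1 hW'
        have hWT := Finset.mem_of_mem_erase hW
        refine SE_pull (X := X) (Y := Y) i hi (S' := SC) (fun x => ¬ (x ∈ S ∧ p x ∈ V)) hDV.not
          (fun x => by rw [hmemC]; tauto) (fun x hx => hpY x ((hmemC x).1 hx).2) W
          (i.app_surjective W (hT W hWT)) (reg W hWT))
    -- the equivalence relation
    have hrelU : ∀ x ∈ SV, ∀ y ∈ SV, (pU x = pU y ↔ p x = p y) := by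
      intro x hx y hy
      rw [← hpU x ((hmemV x).1 hx).2, ← hpU y ((hmemV y).1 hy).2]
      exact hopen.injective.eq_iff.symm
    have hrelC : ∀ x ∈ SC, ∀ y ∈ SC, (pY x = pY y ↔ p x = p y) := by
      intro x hx y hy
      rw [← hpY x ((hmemC x).1 hx).2, ← hpY y ((hmemC y).1 hy).2]
      exact hclosed.injective.eq_iff.symm
    have gU : Good k SV (fun x y => p x = p y) := hU.1.congr hrelU
    have gC : Good k SC (fun x y => p x = p y) := hC.1.congr hrelC
    have hgood : Good k S (fun x y => p x = p y) :=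
      { ds := (gU.ds.or gC.ds).congr fun x => by
          rw [hmemV, hmemC]
          tauto
        dr := (gU.dr.or gC.dr).congr fun q => by
          rw [hmemV, hmemC, hmemV, hmemC]
          constructor
          · rintro (⟨h1, h2, h3⟩ | ⟨h1, h2, h3⟩)
            · exact ⟨h1.1, h2.1, h3⟩
            · exact ⟨h1.1, h2.1, h3⟩
          · rintro ⟨h1, h2, h3⟩
            by_cases h4 : p q.1 ∈ V
            · exact Or.inl ⟨⟨h1, h4⟩, ⟨h2, h3 ▸ h4⟩, h3⟩
            · exact Or.inr ⟨⟨h1, h4⟩, ⟨h2, h3 ▸ h4⟩, h3⟩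
        refl := fun _ _ => rfl
        symm := fun _ _ _ _ h => h.symm
        trans := fun _ _ _ _ _ _ h h' => h.trans h' }
    refine ⟨hgood, ?_⟩
    have hsub : SV ⊆ S := fun x hx => ((hmemV x).1 hx).1
    rw [cls_split hgood SV gU.ds (by
      intro x hx y hy hxy hxV
      rw [hmemV] at hxV ⊢
      exact ⟨hy, hxy ▸ hxV.2⟩), Set.inter_eq_right.2 hsub, ← hSC, map_add,
      cls_congr gU (fun x hx y hy => (hrelU x hx y hy).symm),
      cls_congr gC (fun x hx y hy => (hrelC x hx y hy).symm), hU.2, hC.2, hsc, add_comm]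

theorem general_case (X : Var k) {N : ℕ} (S : Set (Fin N → k))
    (p : (Fin N → k) → X.X) (hcl : ∀ x ∈ S, IsClosed {p x})
    (surj : ∀ m : X.X, IsClosed {m} → ∃ x ∈ S, p x = m) (T : Finset X.X.Opens)
    (hT : ∀ V ∈ T, IsAffineOpen V) (cover : ∀ x : X.X, ∃ V ∈ T, x ∈ V)
    (reg : ∀ V ∈ T, RegAt X S p V)
    (Φ : MK k →+ K0Var k) (hΦ : ∀ (n : ℕ) (A : Set (Fin n → k)), IsPiece k A →
      ∀ (B : Type) [CommRing B] [Algebra k B] [Algebra.FiniteType k B] [_root_.IsReduced B],
        Nonempty (B ≃ₐ[k] OA A) → Φ (scl k A) = (Var.ofAlg k B).cl) :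
    Good k S (fun x y => p x = p y) ∧ Φ (cls k S (fun x y => p x = p y)) = X.cl :=
  SE_main Φ hΦ T.card X S p hcl surj T le_rfl hT cover reg

end Pool.Agent.MRat
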