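import Pool.Agent.Lib.MP_923aff_ag.SE
import Pool.Agent.Lib.MP_923aff_ag.SF2
import Pool.Agent.Lib.MP_923aff_ag.SH
import Pool.Agent.Lib.MP_923aff_ag.RatFinal
/-!
# The main theorem for schemes
-/

set_option autoImplicit false

namespace Pool.Agent.MRat

open AlgebraicGeometry CategoryTheory

variable (k : Type) [Field k] [IsAlgClosed k] [CharZero k]

/-- The polynomial functions on affine space. -/
private theorem SG_univ (n : ℕ) :
    Nonempty (MvPolynomial (Fin n) k ≃ₐ[k] OA (Set.univ : Set (Fin n → k))) := by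
  let f : MvPolynomial (Fin n) k →ₐ[k] OA (Set.univ : Set (Fin n → k)) :=
    { toFun := fun p => OA.of Set.univ p
      map_one' := Subtype.ext (funext fun x => map_one _)
      map_mul' := fun p q => Subtype.ext (funext fun x => map_mul _ _ _)
      map_zero' := Subtype.ext (funext fun x => map_zero _)
      map_add' := fun p q => Subtype.ext (funext fun x => map_add _ _ _)
      commutes' := fun c => Subtype.ext (funext fun x => MvPolynomial.eval_C _) }
  refine ⟨AlgEquiv.ofBijective f ⟨?_, ?_⟩⟩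
  · intro p q h
    refine MvPolynomial.funext fun x => ?_
    exact congrFun (congrArg Subtype.val h) ⟨x, trivial⟩
  · intro g
    obtain ⟨P, N, h⟩ := OA_piece (I := ∅) (q := 1) (A := Set.univ) (by ext x; simp) g
    refine ⟨P, Subtype.ext (funext fun x => ?_)⟩
    rw [h x]
    simp [f, OA.of]

/-- JOB SG. -/
theorem sch_final (h : MainStatement k) (d : ℕ) (hd : 2 ≤ d) (M : Var k)
    (π : (ratOpen k d).toScheme ⟶ M.X)
    (hπ : π ≫ M.str = (ratOpen k d).ι ≫ (Var.aff k ((d + 1) + (d + 1))).str)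
    (hsurj : ∀ m : M.X, IsClosed {m} → ∃ (u : (ratOpen k d).toScheme)
      (x : Fin ((d + 1) + (d + 1)) → k), (ratOpen k d).ι u = ptA k x ∧ π u = m)
    (hfib : ∀ (u v : (ratOpen k d).toScheme) (x y : Fin ((d + 1) + (d + 1)) → k),
      (ratOpen k d).ι u = ptA k x → (ratOpen k d).ι v = ptA k y →
        (π u = π v ↔ RatConj k d x y)) :
    M.cl = (Var.aff k (2 * d - 2)).cl := by
  classical
  obtain ⟨Φ, hΦ⟩ := exists_toK0Var k
  have hpt : ∀ x : Fin ((d + 1) + (d + 1)) → k, x ∈ RatSet k d →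
      ∃ u : (ratOpen k d).toScheme, (ratOpen k d).ι u = ptA k x := by
    intro x hx
    exact ⟨⟨ptA k x, (mem_ratOpen d x).2 hx⟩, rfl⟩
  have hpt' : ∀ (x : Fin ((d + 1) + (d + 1)) → k) (u : (ratOpen k d).toScheme),
      (ratOpen k d).ι u = ptA k x → x ∈ RatSet k d := by
    intro x u hu
    rw [← mem_ratOpen, ← hu]
    exact u.2
  have hinj : ∀ u v : (ratOpen k d).toScheme, (ratOpen k d).ι u = (ratOpen k d).ι v → u = v :=
    fun u v huv => (ratOpen k d).ι.isOpenEmbedding.injective huv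
  -- a point of `RatSet`
  have hne : ∃ x : Fin ((d + 1) + (d + 1)) → k, x ∈ RatSet k d := by
    refine ⟨Fin.append (fun i => if i = Fin.last d then 1 else 0) (fun i => if i = 0 then 1 else 0),
      fun v hv h0 => hv ?_⟩
    have e0 := congrFun h0 0
    have e1 := congrFun h0 1
    simp only [pairMap, Matrix.cons_val_zero, Matrix.cons_val_one, Fin.append_left,
      Fin.append_right, ite_mul, one_mul, zero_mul, Finset.sum_ite_eq', Finset.mem_univ, if_true,
      Fin.val_last, Fin.val_zero, pow_zero, Nat.sub_zero, Nat.sub_self, mul_one, Pi.zero_apply]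
      at e0 e1
    funext i
    fin_cases i
    · exact pow_eq_zero_iff (by omega) |>.1 e0
    · exact pow_eq_zero_iff (by omega) |>.1 e1
  obtain ⟨x0, hx0⟩ := hne
  obtain ⟨u0, hu0⟩ := hpt x0 hx0
  let p : (Fin ((d + 1) + (d + 1)) → k) → M.X := fun x =>
    if hx : ∃ u : (ratOpen k d).toScheme, (ratOpen k d).ι u = ptA k x then π hx.choose else π u0
  have hp : ∀ (u : (ratOpen k d).toScheme) (x : Fin ((d + 1) + (d + 1)) → k),
      (ratOpen k d).ι u = ptA k x → p x = π u := by
    intro u x hu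
    have hx : ∃ u : (ratOpen k d).toScheme, (ratOpen k d).ι u = ptA k x := ⟨u, hu⟩
    show (if hx : _ then _ else _) = _
    rw [dif_pos hx, hinj hx.choose u (hx.choose_spec.trans hu.symm)]
  obtain ⟨T, hT, cover⟩ := exists_affine_cover M
  have hS : {x | ptA k x ∈ ratOpen k d} = RatSet k d := Set.ext fun x => mem_ratOpen d x
  have hreg : ∀ V ∈ T, RegAt M (RatSet k d) p V := by
    intro V _
    rw [← hS]
    exact reg_of_morphism (ratOpen k d) M π hπ p hp V
  have hcl : ∀ x ∈ RatSet k d, IsClosed {p x} := by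
    intro x hx
    obtain ⟨u, hu⟩ := hpt x hx
    rw [hp u x hu]
    exact map_closed (ratOpen k d) M π hπ u x hu
  have hsj : ∀ m : M.X, IsClosed {m} → ∃ x ∈ RatSet k d, p x = m := by
    intro m hm
    obtain ⟨u, x, hu, hum⟩ := hsurj m hm
    exact ⟨x, hpt' x u hu, (hp u x hu).trans hum⟩
  obtain ⟨hg, hcls⟩ := general_case M (RatSet k d) p hcl hsj T hT cover hreg Φ hΦ
  have h1 : cls k (RatSet k d) (fun x y => p x = p y) = cls k (RatSet k d) (RatConj k d) := by
    refine cls_congr hg ?_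
    intro x hx y hy
    obtain ⟨u, hu⟩ := hpt x hx
    obtain ⟨v, hv⟩ := hpt y hy
    rw [hp u x hu, hp v y hv]
    exact hfib u v x y hu hv
  rw [← hcls, h1, h d hd]
  have h2 : scl k (Set.univ : Set (Fin (2 * d - 2) → k)) =
      (Polynomial.X ^ (2 * d - 2) : Polynomial ℤ) • pt k := scl_pow (2 * d - 2)
  rw [← h2]
  exact hΦ (2 * d - 2) Set.univ ⟨∅, 1, by ext x; simp⟩ (MvPolynomial (Fin (2 * d - 2)) k)
    (SG_univ k _)

end Pool.Agent.MRat
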