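import Pool.Agent.Lib.MP_923aff_ag.TDefs
/-!
# JOB SYA: five points and their quintic form

`Y5_cl`: `clq_corr` with the correspondence `(p, q) ~ ((F, δ), q)` iff there are representatives `v i` of `p i` with
`F = ∏ lin (v i)`, `δ = ∏_{i<j} lin (v i) (v j)`. Facts: `lin (M v) (M u) = det M * lin v u`; replacing `v i` by `c i • v i` multiplies `F` by
`∏ c i` and `δ` by `(∏ c i) ^ 4`; a permutation `σ` of the points multiplies `δ` by `sign σ`; `F` determines the points up to a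
permutation, and `δ ≠ 0`. The scalar matrix `t` maps `(F, δ)` to `(t⁻⁵ F, t⁻²⁰ δ)`.
`Y5_sq`: `δ` is determined by `F` up to sign, and both signs occur.
`Y5_disc`: for every vector `w` with `F w ≠ 0` and `v` as in the definition of `Y5`, the derivative of `F` at `v i` in the
direction `w` is `lin (v i) w * ∏_{j ≠ i} lin (v j) (v i)`, so `δ² F(w) = ∏ i, (∂_w F)(v i)`; stated with polynomials in one
variable: `D i` is the coefficient of `t` in `F (v i + t w)`.
-/

set_option autoImplicit false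

namespace Pool.Agent.MRat

open scoped MatrixGroups LinearAlgebra.Projectivization

variable {k : Type} [Field k] [IsAlgClosed k] [CharZero k]

section SYAaux

omit [IsAlgClosed k] [CharZero k]

theorem SYA_smul_left (c : k) (a b : Fin 2 → k) : lin (c • a) b = c * lin a b := by
  simp only [lin, Pi.smul_apply, smul_eq_mul]
  ring

theorem SYA_smul_right (c : k) (a b : Fin 2 → k) : lin a (c • b) = c * lin a b := by
  simp only [lin, Pi.smul_apply, smul_eq_mul]
  ring

theorem SYA_self (a : Fin 2 → k) : lin a a = 0 := by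
  simp only [lin]
  ring

theorem SYA_anti (a b : Fin 2 → k) : lin a b = - lin b a := by
  simp only [lin]
  ring

theorem SYA_zero (b : Fin 2 → k) : lin 0 b = 0 := by
  simp [lin]

theorem SYA_add_right (a b c : Fin 2 → k) : lin a (b + c) = lin a b + lin a c := by
  simp only [lin, Pi.add_apply]
  ring

/-- The determinant of `M`. -/
theorem SYA_gl (M : GL (Fin 2) k) (a b : Fin 2 → k) :
    lin (M • a) (M • b) = Matrix.det (M : Matrix (Fin 2) (Fin 2) k) * lin a b := by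
  simp only [lin, FORMA_gl_smul, Matrix.det_fin_two]
  ring

theorem SYA_det_ne (M : GL (Fin 2) k) : Matrix.det (M : Matrix (Fin 2) (Fin 2) k) ≠ 0 := by
  have h := (Matrix.GeneralLinearGroup.det M).ne_zero
  exact h

theorem SYA_gl_inv (M : GL (Fin 2) k) (a b : Fin 2 → k) :
    lin a (M⁻¹ • b) = (Matrix.det (M : Matrix (Fin 2) (Fin 2) k))⁻¹ * lin (M • a) b := by
  have h := SYA_gl M a (M⁻¹ • b)
  rw [smul_inv_smul] at h
  rw [h, ← mul_assoc, inv_mul_cancel₀ (SYA_det_ne M), one_mul]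

/-- The product of the differences. -/
def SYA_vd (v : Fin 5 → (Fin 2 → k)) : k := ∏ i, ∏ j ∈ Finset.Ioi i, lin (v i) (v j)

theorem SYA_vd_perm (v : Fin 5 → (Fin 2 → k)) (σ : Equiv.Perm (Fin 5)) :
    SYA_vd (fun i => v (σ i)) = ((Equiv.Perm.sign σ : ℤ) : k) * SYA_vd v :=
  Equiv.Perm.prod_Ioi_comp_eq_sign_mul_prod σ (f := fun i j => lin (v i) (v j))
    (fun i j => SYA_anti _ _)

theorem SYA_vd_expand (v : Fin 5 → (Fin 2 → k)) : SYA_vd v =
    lin (v 0) (v 1) * lin (v 0) (v 2) * lin (v 0) (v 3) * lin (v 0) (v 4) *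
    lin (v 1) (v 2) * lin (v 1) (v 3) * lin (v 1) (v 4) *
    lin (v 2) (v 3) * lin (v 2) (v 4) * lin (v 3) (v 4) := by
  have h0 : Finset.Ioi (0 : Fin 5) = {1, 2, 3, 4} := by decide
  have h1 : Finset.Ioi (1 : Fin 5) = {2, 3, 4} := by decide
  have h2 : Finset.Ioi (2 : Fin 5) = {3, 4} := by decide
  have h3 : Finset.Ioi (3 : Fin 5) = {4} := by decide
  have h4 : Finset.Ioi (4 : Fin 5) = ∅ := by decide
  rw [SYA_vd, Fin.prod_univ_five, h0, h1, h2, h3, h4]
  rw [Finset.prod_insert (by decide), Finset.prod_insert (by decide),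
    Finset.prod_insert (by decide), Finset.prod_singleton,
    Finset.prod_insert (by decide), Finset.prod_insert (by decide), Finset.prod_singleton,
    Finset.prod_insert (by decide), Finset.prod_singleton, Finset.prod_singleton,
    Finset.prod_empty]
  ring

theorem SYA_vd_smul (c : Fin 5 → k) (v : Fin 5 → (Fin 2 → k)) :
    SYA_vd (fun i => c i • v i) = (∏ i, c i) ^ 4 * SYA_vd v := by
  rw [SYA_vd_expand, SYA_vd_expand, Fin.prod_univ_five]
  simp only [SYA_smul_left, SYA_smul_right]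
  ring

theorem SYA_vd_gl (M : GL (Fin 2) k) (v : Fin 5 → (Fin 2 → k)) :
    SYA_vd (fun i => M • v i) =
      Matrix.det (M : Matrix (Fin 2) (Fin 2) k) ^ 10 * SYA_vd v := by
  rw [SYA_vd_expand, SYA_vd_expand]
  simp only [SYA_gl]
  ring

theorem SYA_vd_ne {v : Fin 5 → (Fin 2 → k)} (h : ∀ i j, i ≠ j → lin (v i) (v j) ≠ 0) :
    SYA_vd v ≠ 0 := by
  rw [SYA_vd]
  refine Finset.prod_ne_zero_iff.2 fun i _ => Finset.prod_ne_zero_iff.2 fun j hj => ?_
  exact h i j (Finset.mem_Ioi.1 hj).ne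

theorem SYA_ne_zero {v : Fin 5 → (Fin 2 → k)} (h : ∀ i j, i ≠ j → lin (v i) (v j) ≠ 0)
    (i : Fin 5) : v i ≠ 0 := by
  obtain ⟨j, hj⟩ : ∃ j : Fin 5, i ≠ j := by
    by_cases hi : i = 0
    · exact ⟨1, by rw [hi]; decide⟩
    · exact ⟨0, hi⟩
  intro h0
  exact h i j hj (by rw [h0, SYA_zero])

/-- The form determines the points. -/
theorem SYA_unique {v w : Fin 5 → (Fin 2 → k)} (hv : ∀ i j, i ≠ j → lin (v i) (v j) ≠ 0)
    (hw : ∀ i j, i ≠ j → lin (w i) (w j) ≠ 0)
    (h : ∀ u, ∏ i, lin (v i) u = 0 → ∏ i, lin (w i) u = 0)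
    (h' : ∀ u, ∏ i, lin (w i) u = 0 → ∏ i, lin (v i) u = 0) :
    ∃ (σ : Equiv.Perm (Fin 5)) (c : Fin 5 → k), (∀ i, c i ≠ 0) ∧ ∀ i, w i = c i • v (σ i) := by
  have h1 : ∀ i, ∃ j, ∃ c : k, c ≠ 0 ∧ w i = c • v j := by
    intro i
    have h2 : ∏ j, lin (w j) (w i) = 0 :=
      Finset.prod_eq_zero (Finset.mem_univ i) (SYA_self _)
    obtain ⟨j, -, hj⟩ := Finset.prod_eq_zero_iff.1 (h' _ h2)
    obtain ⟨c, hc⟩ := (lin_eq_zero (SYA_ne_zero hv j)).1 hj
    refine ⟨j, c, ?_, hc⟩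
    rintro rfl
    exact SYA_ne_zero hw i (by rw [hc, zero_smul])
  choose f c hc hf using h1
  have hinj : Function.Injective f := by
    intro i j hij
    by_contra hne
    refine hw i j hne ?_
    rw [hf i, hf j, hij, SYA_smul_left, SYA_smul_right, SYA_self, mul_zero, mul_zero]
  exact ⟨Equiv.ofBijective f (Finite.injective_iff_bijective.1 hinj), c, hc, hf⟩

theorem SYA_prod_smul (c : Fin 5 → k) (v : Fin 5 → (Fin 2 → k)) (u : Fin 2 → k) :
    ∏ i, lin (c i • v i) u = (∏ i, c i) * ∏ i, lin (v i) u := by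
  rw [← Finset.prod_mul_distrib]
  exact Finset.prod_congr rfl fun i _ => SYA_smul_left _ _ _

theorem SYA_prod_perm (σ : Equiv.Perm (Fin 5)) (v : Fin 5 → (Fin 2 → k)) (u : Fin 2 → k) :
    ∏ i, lin (v (σ i)) u = ∏ i, lin (v i) u :=
  Equiv.prod_comp σ (fun i => lin (v i) u)

theorem SYA_prod_gl (M : GL (Fin 2) k) (v : Fin 5 → (Fin 2 → k)) (u : Fin 2 → k) :
    ∏ i, lin (v i) (M⁻¹ • u) =
      ((Matrix.det (M : Matrix (Fin 2) (Fin 2) k))⁻¹) ^ 5 * ∏ i, lin (M • v i) u := by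
  have h : ∀ i ∈ Finset.univ, lin (v i) (M⁻¹ • u) =
      (Matrix.det (M : Matrix (Fin 2) (Fin 2) k))⁻¹ * lin (M • v i) u :=
    fun i _ => SYA_gl_inv M _ _
  rw [Finset.prod_congr rfl h, Finset.prod_mul_distrib, Finset.prod_const, Finset.card_univ,
    Fintype.card_fin]

theorem SYA_mem {F : Form k 5} {d : k} : (F, d) ∈ Y5 k ↔
    ∃ v : Fin 5 → (Fin 2 → k), (∀ i j, i ≠ j → lin (v i) (v j) ≠ 0) ∧
    (∀ u, F.1 u = ∏ i, lin (v i) u) ∧ d = SYA_vd v := Iff.rfl

end SYAaux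

theorem DM.SYA_lin {X : Type} [DT k X] {f g : X → (Fin 2 → k)} (hf : DM k f) (hg : DM k g) :
    DM k (fun x => lin (f x) (g x)) := by
  unfold lin
  fun_prop

theorem Y5_dm : DM k (fun p => p ∈ Y5 k) := by
  refine DM.ex (DM.and ?_ (DM.and ?_ ?_))
  · refine DM.fall fun i => DM.fall fun j => DM.imp (DM.const' _) (DM.ne (DM.SYA_lin ?_ ?_)
      (DM.const' _))
    · fun_prop
    · fun_prop
  · refine DM.all (DM.eq (by fun_prop) (DM.prod _ fun i _ => DM.SYA_lin (by fun_prop)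
      (by fun_prop)))
  · refine DM.eq (by fun_prop) (DM.prod _ fun i _ => DM.prod _ fun j _ =>
      DM.SYA_lin (by fun_prop) (by fun_prop))

theorem relRG_dq {s : Set ((Form k 5 × k) × PL k)} (ds : DM k (fun x => x ∈ s)) :
    DQ k s (relRG k) where
  ds := ds
  dr := by
    refine DM.and (DM.comp ds (f := fun p : ((Form k 5 × k) × PL k) × ((Form k 5 × k) × PL k) =>
      p.1) (by fun_prop)) (DM.and (DM.comp ds (f := fun p : ((Form k 5 × k) × PL k) ×
      ((Form k 5 × k) × PL k) => p.2) (by fun_prop)) ?_)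
    unfold relRG
    fun_prop
  refl x _ := by
    refine ⟨1, ?_, ?_, ?_⟩
    · rw [one_smul]
    · simp
    · rw [map_one, one_smul]
  symm x _ y _ := by
    rintro ⟨M, h1, h2, h3⟩
    refine ⟨M⁻¹, ?_, ?_, ?_⟩
    · rw [h1, inv_smul_smul]
    · have hd : Matrix.det ((M⁻¹ : GL (Fin 2) k) : Matrix (Fin 2) (Fin 2) k) =
          (Matrix.det (M : Matrix (Fin 2) (Fin 2) k))⁻¹ := by
        rw [Matrix.coe_units_inv, Matrix.det_nonsing_inv, Ring.inverse_eq_inv']
      rw [hd, ← h2, mul_assoc, ← mul_pow, mul_inv_cancel₀ (SYA_det_ne M), one_pow, mul_one]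
    · rw [map_inv, h3, inv_smul_smul]
  trans x _ y _ z _ := by
    rintro ⟨M, h1, h2, h3⟩ ⟨N, h4, h5, h6⟩
    refine ⟨N * M, ?_, ?_, ?_⟩
    · rw [h4, h1, mul_smul]
    · rw [← h2, ← h5, Units.val_mul, Matrix.det_mul]
      ring
    · rw [h6, h3, map_mul, mul_smul]

/-- `Y5` is stable. -/
theorem Y5_smul {F : Form k 5} {d d' : k} (h : (F, d) ∈ Y5 k) (M : GL (Fin 2) k)
    (hd : d' * (Matrix.det (M : Matrix (Fin 2) (Fin 2) k)) ^ 10 = d) : (M • F, d') ∈ Y5 k := by
  rw [SYA_mem] at h ⊢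
  obtain ⟨v, h1, h2, h3⟩ := h
  have hM := SYA_det_ne M
  set D := Matrix.det (M : Matrix (Fin 2) (Fin 2) k) with hD
  refine ⟨fun i => D⁻¹ • (M • v i), ?_, ?_, ?_⟩
  · intro i j hij
    rw [SYA_smul_left, SYA_smul_right, SYA_gl, ← hD]
    exact mul_ne_zero (inv_ne_zero hM) (mul_ne_zero (inv_ne_zero hM)
      (mul_ne_zero hM (h1 i j hij)))
  · intro u
    rw [form_gl_apply, h2, SYA_prod_gl, ← hD, SYA_prod_smul]
    simp
  · rw [SYA_vd_smul (fun _ => D⁻¹) (fun i => M • v i), SYA_vd_gl, ← hD, ← h3, ← hd]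
    simp only [Finset.prod_const, Finset.card_univ, Fintype.card_fin]
    field_simp

theorem SYA_compare {F : Form k 5} {v w : Fin 5 → (Fin 2 → k)}
    (hv : ∀ i j, i ≠ j → lin (v i) (v j) ≠ 0)
    (hw : ∀ i j, i ≠ j → lin (w i) (w j) ≠ 0) (C : k) (hC : C ≠ 0)
    (h1 : ∀ u, F.1 u = C * ∏ i, lin (v i) u) (h2 : ∀ u, F.1 u = ∏ i, lin (w i) u) :
    ∃ (σ : Equiv.Perm (Fin 5)) (c : Fin 5 → k), (∀ i, c i ≠ 0) ∧ (∀ i, w i = c i • v (σ i)) ∧
      (∏ i, c i) = C ∧ SYA_vd w = C ^ 4 * (((Equiv.Perm.sign σ : ℤ) : k) * SYA_vd v) := by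
  obtain ⟨σ, c, hc, h⟩ := SYA_unique hv hw
    (fun u hu => by rw [← h2, h1, hu, mul_zero])
    (fun u hu => by
      rw [← h2, h1] at hu
      exact (mul_eq_zero.1 hu).resolve_left hC)
  obtain ⟨u, hu⟩ : ∃ u, ∏ i, lin (v i) u ≠ 0 := by
    by_contra hcon
    have hcon : ∀ u, ∏ i, lin (v i) u = 0 := fun u => by
      by_contra h
      exact hcon ⟨u, h⟩
    classical
    obtain ⟨u, hu0, hu⟩ := gcd_exists_off (Finset.univ.image v)
    obtain ⟨i, -, hi⟩ := Finset.prod_eq_zero_iff.1 (hcon u)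
    obtain ⟨a, ha⟩ := (lin_eq_zero (SYA_ne_zero hv i)).1 hi
    exact hu (v i) (Finset.mem_image_of_mem _ (Finset.mem_univ i)) a ha
  have h3 : (∏ i, c i) = C := by
    have h4 : ∏ i, lin (w i) u = (∏ i, c i) * ∏ i, lin (v i) u := by
      have h5 : w = fun i => c i • v (σ i) := funext h
      rw [h5, SYA_prod_smul c (fun i => v (σ i)), SYA_prod_perm]
    have h6 := h1 u
    rw [h2 u, h4] at h6
    exact mul_right_cancel₀ hu h6
  refine ⟨σ, c, hc, h, h3, ?_⟩
  have h5 : w = fun i => c i • v (σ i) := funext h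
  rw [h5, SYA_vd_smul c (fun i => v (σ i)), SYA_vd_perm, h3]

theorem SYA_sign_sq (σ : Equiv.Perm (Fin 5)) : (((Equiv.Perm.sign σ : ℤ) : k)) ^ 2 = 1 := by
  rcases Int.units_eq_one_or (Equiv.Perm.sign σ) with h | h <;> simp [h]

theorem Y5_sq {F : Form k 5} {d d' : k} (h : (F, d) ∈ Y5 k) :
    (F, d') ∈ Y5 k ↔ d' ^ 2 = d ^ 2 := by
  rw [SYA_mem] at h ⊢
  obtain ⟨v, h1, h2, h3⟩ := h
  constructor
  · rintro ⟨w, g1, g2, g3⟩
    obtain ⟨σ, c, -, -, -, h4⟩ := SYA_compare h1 g1 1 one_ne_zero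
      (fun u => by rw [h2, one_mul]) g2
    rw [g3, h4, ← h3, one_pow, one_mul, mul_pow, SYA_sign_sq, one_mul]
  · intro hd
    rcases sq_eq_sq_iff_eq_or_eq_neg.1 hd with h4 | h4
    · exact ⟨v, h1, h2, by rw [h4, h3]⟩
    · refine ⟨fun i => v (Equiv.swap 0 1 i), ?_, ?_, ?_⟩
      · intro i j hij
        exact h1 _ _ (fun h5 => hij ((Equiv.swap (0 : Fin 5) 1).injective h5))
      · intro u
        rw [h2, SYA_prod_perm]
      · rw [SYA_vd_perm, h4, h3, Equiv.Perm.sign_swap (by decide)]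
        simp

theorem Y5_ne {F : Form k 5} {d : k} (h : (F, d) ∈ Y5 k) : d ≠ 0 := by
  rw [SYA_mem] at h
  obtain ⟨v, h1, h2, h3⟩ := h
  rw [h3]
  exact SYA_vd_ne h1

/-- The discriminant in terms of derivatives at the zeros. -/
theorem Y5_disc {F : Form k 5} {v : Fin 5 → (Fin 2 → k)} (hF : ∀ u, F.1 u = ∏ i, lin (v i) u)
    (w : Fin 2 → k) (D : Fin 5 → k) (R : Fin 5 → Polynomial k)
    (hD : ∀ i, ∀ t : k, F.1 (v i + t • w) = t * D i + t ^ 2 * (R i).eval t) :
    (∏ i, ∏ j ∈ Finset.Ioi i, lin (v i) (v j)) ^ 2 * F.1 w = ∏ i, D i := by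
  have h1 : ∀ i, D i = lin (v i) w * ∏ j ∈ Finset.univ.erase i, lin (v j) (v i) := by
    intro i
    have h2 : (Polynomial.X * Polynomial.C (D i) + Polynomial.X ^ 2 * R i : Polynomial k) =
        Polynomial.X * (Polynomial.C (lin (v i) w) * ∏ j ∈ Finset.univ.erase i,
          (Polynomial.C (lin (v j) (v i)) + Polynomial.X * Polynomial.C (lin (v j) w))) := by
      apply Polynomial.funext
      intro t
      have h3 := hD i t
      rw [hF, ← Finset.mul_prod_erase Finset.univ _ (Finset.mem_univ i)] at h3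
      simp only [SYA_add_right, SYA_smul_right, SYA_self, zero_add] at h3
      simp only [Polynomial.eval_add, Polynomial.eval_mul, Polynomial.eval_X, Polynomial.eval_C,
        Polynomial.eval_pow, Polynomial.eval_prod]
      rw [← h3]
      ring
    have h4 : (Polynomial.C (D i) + Polynomial.X * R i : Polynomial k) =
        (Polynomial.C (lin (v i) w) * ∏ j ∈ Finset.univ.erase i,
          (Polynomial.C (lin (v j) (v i)) + Polynomial.X * Polynomial.C (lin (v j) w))) := by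
      apply mul_left_cancel₀ (Polynomial.X_ne_zero (R := k))
      rw [← h2]
      ring
    have h5 := congrArg (Polynomial.eval 0) h4
    simpa only [Polynomial.eval_add, Polynomial.eval_mul, Polynomial.eval_X, Polynomial.eval_C,
        Polynomial.eval_pow, Polynomial.eval_prod, zero_mul, add_zero] using h5
  change (SYA_vd v) ^ 2 * F.1 w = _
  rw [hF w, SYA_vd_expand, Fin.prod_univ_five, Fin.prod_univ_five, h1 0, h1 1, h1 2, h1 3, h1 4]
  have e0 : Finset.univ.erase (0 : Fin 5) = {1, 2, 3, 4} := by decide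
  have e1 : Finset.univ.erase (1 : Fin 5) = {0, 2, 3, 4} := by decide
  have e2 : Finset.univ.erase (2 : Fin 5) = {0, 1, 3, 4} := by decide
  have e3 : Finset.univ.erase (3 : Fin 5) = {0, 1, 2, 4} := by decide
  have e4 : Finset.univ.erase (4 : Fin 5) = {0, 1, 2, 3} := by decide
  have e : ∀ (a b c d : Fin 5) (f : Fin 5 → k), a ≠ b → a ≠ c → a ≠ d → b ≠ c → b ≠ d → c ≠ d →
      ∏ j ∈ ({a, b, c, d} : Finset (Fin 5)), f j = f a * (f b * (f c * f d)) := by
    intro a b c d f h1 h2 h3 h4 h5 h6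
    rw [Finset.prod_insert (by simp [h1, h2, h3]), Finset.prod_insert (by simp [h4, h5]),
      Finset.prod_insert (by simp [h6]), Finset.prod_singleton]
  rw [e0, e1, e2, e3, e4]
  rw [e _ _ _ _ _ (by decide) (by decide) (by decide) (by decide) (by decide) (by decide),
    e _ _ _ _ _ (by decide) (by decide) (by decide) (by decide) (by decide) (by decide),
    e _ _ _ _ _ (by decide) (by decide) (by decide) (by decide) (by decide) (by decide),
    e _ _ _ _ _ (by decide) (by decide) (by decide) (by decide) (by decide) (by decide),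
    e _ _ _ _ _ (by decide) (by decide) (by decide) (by decide) (by decide) (by decide)]
  rw [SYA_anti (v 1) (v 0), SYA_anti (v 2) (v 0), SYA_anti (v 3) (v 0), SYA_anti (v 4) (v 0),
    SYA_anti (v 2) (v 1), SYA_anti (v 3) (v 1), SYA_anti (v 4) (v 1), SYA_anti (v 3) (v 2),
    SYA_anti (v 4) (v 2), SYA_anti (v 4) (v 3)]
  ring

/-- The relation on quintuples is a definable equivalence relation. -/
theorem SYA_E5_dq : DQ k (E5 k) (relGA k) where
  ds := by
    have h : DM k (fun p : (Fin 5 → PL k) × PL k => ∀ i j : Fin 5, i ≠ j → p.1 i ≠ p.1 j) := by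
      refine DM.fall fun i => DM.fall fun j => DM.imp (DM.const' _) (DM.ne ?_ ?_)
      · fun_prop
      · fun_prop
    refine h.congr_iff fun p => ?_
    constructor
    · intro h1 i j hij
      by_contra hne
      exact h1 i j hne hij
    · intro h1 i j hij h2
      exact hij (h1 h2)
  dr := by
    have h : DM k (fun p : (Fin 5 → PL k) × PL k => p ∈ E5 k) := by
      have h : DM k (fun p : (Fin 5 → PL k) × PL k => ∀ i j : Fin 5, i ≠ j → p.1 i ≠ p.1 j) := by
        refine DM.fall fun i => DM.fall fun j => DM.imp (DM.const' _) (DM.ne ?_ ?_)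
        · fun_prop
        · fun_prop
      refine h.congr_iff fun p => ?_
      constructor
      · intro h1 i j hij
        by_contra hne
        exact h1 i j hne hij
      · intro h1 i j hij h2
        exact hij (h1 h2)
    refine DM.and (DM.comp h (f := fun p : ((Fin 5 → PL k) × PL k) × ((Fin 5 → PL k) × PL k) =>
      p.1) (by fun_prop)) (DM.and (DM.comp h (f := fun p : ((Fin 5 → PL k) × PL k) ×
      ((Fin 5 → PL k) × PL k) => p.2) (by fun_prop)) ?_)
    unfold relGA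
    refine DM.ex (DM.fex fun σ => DM.and (DM.const' _) (DM.and (DM.fall fun i => ?_) ?_))
    · fun_prop
    · fun_prop
  refl x _ := ⟨1, 1, one_mem _, fun i => by rw [one_smul]; rfl, by rw [one_smul]⟩
  symm x _ y _ := by
    rintro ⟨g, σ, h1, h2, h3⟩
    refine ⟨g⁻¹, σ⁻¹, inv_mem h1, fun i => ?_, ?_⟩
    · rw [h2, inv_smul_smul]
      simp
    · rw [h3, inv_smul_smul]
  trans x _ y _ z _ := by
    rintro ⟨g, σ, h1, h2, h3⟩ ⟨g', σ', h1', h2', h3'⟩
    refine ⟨g' * g, σ * σ', mul_mem h1 h1', fun i => ?_, ?_⟩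
    · rw [h2', h2, mul_smul]
      rfl
    · rw [h3', h3, mul_smul]

/-- The correspondence. -/
def SYA_R (p : (Fin 5 → PL k) × PL k) (y : (Form k 5 × k) × PL k) : Prop :=
  p.2 = y.2 ∧ ∃ v : Fin 5 → (Fin 2 → k), (∀ i, isrep (v i) (p.1 i)) ∧
    (∀ u, y.1.1.1 u = ∏ i, lin (v i) u) ∧ y.1.2 = SYA_vd v

theorem SYA_R_dm : DM k (fun p : ((Fin 5 → PL k) × PL k) × ((Form k 5 × k) × PL k) =>
    SYA_R p.1 p.2) := by
  unfold SYA_R SYA_vd
  refine DM.and (by fun_prop) (DM.ex (DM.and ?_ (DM.and ?_ ?_)))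
  · refine DM.fall fun i => DM.isrep (by fun_prop) (by fun_prop)
  · refine DM.all (DM.eq (by fun_prop) (DM.prod _ fun i _ => DM.SYA_lin (by fun_prop)
      (by fun_prop)))
  · refine DM.eq (by fun_prop) (DM.prod _ fun i _ => DM.prod _ fun j _ =>
      DM.SYA_lin (by fun_prop) (by fun_prop))

omit [IsAlgClosed k] [CharZero k] in
theorem SYA_isrep_eq {v w : Fin 2 → k} {p : PL k} (hv : isrep v p) (hw : isrep w p) :
    ∃ c : k, c ≠ 0 ∧ w = c • v := by
  obtain ⟨h1, h2⟩ := hv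
  obtain ⟨h3, h4⟩ := hw
  rw [← h2, Projectivization.mk_eq_mk_iff] at h4
  obtain ⟨a, ha⟩ := h4
  exact ⟨a, a.ne_zero, ha.symm⟩

omit [IsAlgClosed k] [CharZero k] in
theorem SYA_isrep_smul {v : Fin 2 → k} {p : PL k} (hv : isrep v p) (M : GL (Fin 2) k) :
    isrep (M • v) ((Matrix.ProjGenLinGroup.mk M : PGL(2, k)) • p) := by
  obtain ⟨h1, rfl⟩ := hv
  exact ⟨(smul_ne_zero_iff_ne M).mpr h1, rfl⟩

omit [IsAlgClosed k] [CharZero k] in
theorem SYA_isrep_c {v : Fin 2 → k} {p : PL k} (hv : isrep v p) {c : k} (hc : c ≠ 0) :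
    isrep (c • v) p := by
  obtain ⟨h1, rfl⟩ := hv
  refine ⟨smul_ne_zero hc h1, ?_⟩
  rw [Projectivization.mk_eq_mk_iff']
  exact ⟨c, rfl⟩

omit [IsAlgClosed k] [CharZero k] in
theorem SYA_lin_ne {p : Fin 5 → PL k} (hp : Function.Injective p) {v : Fin 5 → (Fin 2 → k)}
    (hv : ∀ i, isrep (v i) (p i)) : ∀ i j, i ≠ j → lin (v i) (v j) ≠ 0 := by
  intro i j hij h
  obtain ⟨h1, h2⟩ := hv i
  obtain ⟨h3, h4⟩ := hv j
  obtain ⟨c, hc⟩ := (lin_eq_zero h1).1 h
  refine hij (hp ?_)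
  rw [← h2, ← h4, eq_comm, Projectivization.mk_eq_mk_iff']
  exact ⟨c, hc.symm⟩

theorem Y5_cl : clq k (E5 k) (relGA k) =
    clq k (Y5 k ×ˢ (Set.univ : Set (PL k))) (relRG k) := by
  have hdm : DM k (fun x : (Form k 5 × k) × PL k => x ∈ Y5 k ×ˢ (Set.univ : Set (PL k))) := by
    refine (DM.comp Y5_dm (f := fun x : (Form k 5 × k) × PL k => x.1) (by fun_prop)).congr_iff
      fun x => ?_
    simp
  refine clq_corr SYA_E5_dq (relRG_dq hdm) SYA_R SYA_R_dm ?_ ?_ ?_
  · rintro ⟨p, q⟩ hp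
    choose v hv using fun i => (⟨(p i).rep, (p i).rep_nonzero, (p i).mk_rep⟩ :
      ∃ v : Fin 2 → k, isrep v (p i))
    have hne := SYA_lin_ne hp hv
    have hmem : (fun u => ∏ i, lin (v i) u) ∈ Form k 5 := by
      have h := Form.mul_mem (l := 5) rfl (Form.mul_mem (l := 4) rfl (Form.mul_mem (l := 3) rfl
        (Form.mul_mem (l := 2) rfl (lin_mem (v 0)) (lin_mem (v 1))) (lin_mem (v 2)))
        (lin_mem (v 3))) (lin_mem (v 4))
      have e : (fun u => ∏ i, lin (v i) u) = fun u => lin (v 0) u * lin (v 1) u * lin (v 2) u *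
          lin (v 3) u * lin (v 4) u := by
        funext u
        rw [Fin.prod_univ_five]
      rw [e]
      exact h
    refine ⟨((⟨_, hmem⟩, SYA_vd v), q), ⟨⟨v, hne, fun u => rfl, rfl⟩, trivial⟩, rfl, v, hv,
      fun u => rfl, rfl⟩
  · rintro ⟨⟨F, d⟩, q⟩ ⟨⟨v, h1, h2, h3⟩, -⟩
    refine ⟨(fun i => Projectivization.mk k (v i) (SYA_ne_zero h1 i), q), ?_, rfl, v,
      fun i => ⟨SYA_ne_zero h1 i, rfl⟩, h2, h3⟩
    intro i j hij
    by_contra hne
    rw [Projectivization.mk_eq_mk_iff'] at hij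
    obtain ⟨a, ha⟩ := hij
    exact h1 i j hne (by rw [← ha, SYA_smul_left, SYA_self, mul_zero])
  · rintro ⟨p, q⟩ hp ⟨⟨F, d⟩, q1⟩ - ⟨hq, v, h1, h2, h3⟩ ⟨p', q'⟩ hp' ⟨⟨F', d'⟩, q1'⟩ -
      ⟨hq', v', h1', h2', h3'⟩
    dsimp only at hq hq' h1 h2 h3 h1' h2' h3'
    subst hq hq'
    have hv := SYA_lin_ne hp h1
    have hv' := SYA_lin_ne hp' h1'
    constructor
    · rintro ⟨g, σ, g1, g2, g3⟩
      obtain ⟨M, rfl⟩ := Matrix.ProjGenLinGroup.mk_surjective g
      dsimp only at g2 g3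
      have hc : ∀ i, ∃ c : k, c ≠ 0 ∧ v' i = c • (M • v (σ i)) := by
        intro i
        refine SYA_isrep_eq (p := p' i) ?_ (h1' i)
        rw [g2 i]
        exact SYA_isrep_smul (h1 (σ i)) M
      choose c hc0 hc using hc
      have hM := SYA_det_ne M
      set D := Matrix.det (M : Matrix (Fin 2) (Fin 2) k) with hD
      set C := ∏ i, c i with hC
      have hC0 : C ≠ 0 := Finset.prod_ne_zero_iff.2 fun i _ => hc0 i
      obtain ⟨t, ht⟩ := IsAlgClosed.exists_pow_nat_eq (C⁻¹ * (D⁻¹) ^ 5) (n := 5) (by norm_num)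
      have ht0 : t ≠ 0 := by
        rintro rfl
        rw [zero_pow (by norm_num)] at ht
        exact mul_ne_zero (inv_ne_zero hC0) (pow_ne_zero _ (inv_ne_zero hM)) ht.symm
      have hfun : v' = fun i => c i • (M • v (σ i)) := funext hc
      have hF' : ∀ u, F'.1 u = C * ∏ i, lin (M • v i) u := by
        intro u
        rw [h2', hfun, SYA_prod_smul c (fun i => M • v (σ i)), ← hC,
          SYA_prod_perm σ (fun i => M • v i)]
      have hd' : d' = C ^ 4 * (D ^ 10 * d) := by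
        rw [h3', hfun, SYA_vd_smul c (fun i => M • v (σ i)), ← hC,
          SYA_vd_perm (fun i => M • v i) σ, SYA_vd_gl, ← hD, ← h3,
          Equiv.Perm.mem_alternatingGroup.1 g1]
        simp
      refine ⟨Matrix.GeneralLinearGroup.scalar (Fin 2) (Units.mk0 t ht0) * M, ?_, ?_, ?_⟩
      · apply Subtype.ext
        funext u
        dsimp only
        rw [mul_smul, form_scalar]
        show F'.1 u = (((Units.mk0 t ht0)⁻¹ ^ 5 : kˣ) : k) * (M • F).1 u
        rw [form_gl_apply, h2, SYA_prod_gl, ← hD, hF']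
        simp only [Units.val_pow_eq_pow_val, Units.val_inv_eq_inv_val, Units.val_mk0, inv_pow, ht]
        field_simp
      · dsimp only
        rw [Units.val_mul, Matrix.det_mul, ← hD, Matrix.GeneralLinearGroup.coe_scalar,
          Matrix.scalar_apply, Matrix.det_diagonal, hd']
        simp only [Finset.prod_const, Finset.card_univ, Fintype.card_fin, Units.val_mk0]
        have e : t ^ 2 * D = t ^ 2 * D := rfl
        have e1 : (t ^ 2 * D) ^ 10 = (t ^ 5) ^ 4 * D ^ 10 := by ring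
        rw [e1, ht]
        field_simp
      · dsimp only
        rw [g3, map_mul]
        congr 1
        rw [eq_comm, mul_eq_right]
        exact Matrix.ProjGenLinGroup.mk_scalar _
    · rintro ⟨M, g1, g2, g3⟩
      dsimp only at g1 g2 g3
      have hM := SYA_det_ne M
      set D := Matrix.det (M : Matrix (Fin 2) (Fin 2) k) with hD
      have hMv : ∀ i j, i ≠ j → lin (M • v i) (M • v j) ≠ 0 := by
        intro i j hij
        rw [SYA_gl]
        exact mul_ne_zero hM (hv i j hij)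
      obtain ⟨σ, c, hc0, hc, hC, h4⟩ := SYA_compare hMv hv' (F := F') ((D⁻¹) ^ 5)
        (pow_ne_zero _ (inv_ne_zero hM)) (fun u => by
          rw [g1, form_gl_apply, h2, SYA_prod_gl, ← hD]) h2'
      have hd0 : d ≠ 0 := by rw [h3]; exact SYA_vd_ne hv
      have h5 : d' = ((D⁻¹) ^ 5) ^ 4 * (((Equiv.Perm.sign σ : ℤ) : k) * (D ^ 10 * d)) := by
        rw [h3', h4, SYA_vd_gl, ← hD, ← h3]
      have h6 : ((Equiv.Perm.sign σ : ℤ) : k) = 1 := by
        rw [h5] at g2
        have h7 : ((Equiv.Perm.sign σ : ℤ) : k) * d = 1 * d := by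
          rw [one_mul]
          conv_rhs => rw [← g2]
          field_simp
        exact mul_right_cancel₀ hd0 h7
      refine ⟨Matrix.ProjGenLinGroup.mk M, σ, ?_, ?_, g3⟩
      · rw [Equiv.Perm.mem_alternatingGroup]
        rcases Int.units_eq_one_or (Equiv.Perm.sign σ) with h | h
        · exact h
        · exfalso
          rw [h] at h6
          norm_num at h6
      · intro i
        dsimp only
        obtain ⟨a1, a2⟩ := SYA_isrep_c (SYA_isrep_smul (h1 (σ i)) M) (hc0 i)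
        obtain ⟨a3, a4⟩ := h1' i
        rw [← a2, ← a4]
        congr 1
        exact hc i

end Pool.Agent.MRat
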