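import Pool.Agent.Lib.MP_923aff_ag.SYA
/-!
# JOB SYB: Sylvester's normal forms for quintic forms (existence)

`sylvester`: write `F = ∑ binom(5, i) a_i x^(5-i) y^i` (`x = u 0`, `y = u 1`) and take `c ≠ 0` in `k⁴` with
`c_0 a_i + c_1 a_(i+1) + c_2 a_(i+2) + c_3 a_(i+3) = 0` for `i = 0, 1, 2`: a linear recurrence for `a_0, …, a_5`. Let
`c(z) = c_0 + c_1 z + c_2 z² + c_3 z³`. If `c` has degree three with distinct roots `r_j` then `a_i = ∑ α_j r_j^i`, i.e.
`F = ∑ α_j (x + r_j y)⁵`; a double root `r` and a simple root `s`: `a_i = (α + β i) r^i + γ s^i` (careful for `r = 0`), i.e. `F` is in the span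
of `(x + r y)⁵, (x + r y)⁴ y, (x + s y)⁵`; a triple root: `F` is divisible by `(x + r y)³`. Lower degree of `c`: one of the roots is
infinite, the corresponding linear form is `y`: degree two: `a_i` for `i ≤ 4` satisfies the recurrence of order two, `a_5` is free, and so on.
(One may avoid the infinite roots by first applying a suitable element of `GL₂` to `F`.)
`Y5_normal`: the first case with all coefficients non-zero: `x, y, z` pairwise independent linear forms satisfy a linear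
relation with non-zero coefficients, rescale it to `x + y + z = 0` and apply the element of `GL₂` mapping `x, y` to the coordinates;
with one coefficient zero, and in the second case with the coefficient of `x y⁴` zero: `N3`; otherwise `N2` after scaling `x, y` (choose
fifth and fourth roots); two coefficients zero, `y⁴ (β x + γ y)`, or `y³ Q`: a multiple zero, impossible for `F` in `Y5`.
-/

set_option autoImplicit false

namespace Pool.Agent.MRat

open scoped MatrixGroups LinearAlgebra.Projectivization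

variable {k : Type} [Field k] [IsAlgClosed k] [CharZero k]

/-! ### Linear recurrences -/

/-- The operator of the linear form `lin v` on coefficient sequences. -/
private def sybT (v : Fin 2 → k) (b : ℕ → k) : ℕ → k := fun i => v 1 * b i + v 0 * b (i + 1)

omit [IsAlgClosed k] [CharZero k] in
private theorem sybT_comm (v w : Fin 2 → k) (b : ℕ → k) :
    sybT v (sybT w b) = sybT w (sybT v b) := by
  funext i
  unfold sybT
  ring

omit [IsAlgClosed k] [CharZero k] in
private theorem sybT_smul (c : k) (v : Fin 2 → k) (b : ℕ → k) :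
    sybT (c • v) b = fun i => c * sybT v b i := by
  funext i
  unfold sybT
  simp only [Pi.smul_apply, smul_eq_mul]
  ring

/-- The sequence of `lin v ^ n`. -/
private def sybS (n : ℕ) (v : Fin 2 → k) : ℕ → k := fun i => (-v 1) ^ i * v 0 ^ (n - i)

omit [IsAlgClosed k] [CharZero k] in
private theorem sybT_S (n : ℕ) (v w : Fin 2 → k) {i : ℕ} (hi : i ≤ n) :
    sybT w (sybS (n + 1) v) i = lin v w * sybS n v i := by
  unfold sybT sybS lin
  have h1 : n + 1 - i = (n - i) + 1 := by omega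
  have h2 : n + 1 - (i + 1) = n - i := by omega
  rw [h1, h2]
  ring

omit [IsAlgClosed k] [CharZero k] in
/-- The kernel of `T`. -/
private theorem syb_ker {v : Fin 2 → k} (hv : v ≠ 0) (n : ℕ) (b : ℕ → k)
    (h : ∀ i < n, sybT v b i = 0) : ∃ β : k, ∀ i ≤ n, b i = β * sybS n v i := by
  unfold sybT at h
  by_cases h0 : v 0 = 0
  · have h1 : v 1 ≠ 0 := by
      intro h1
      apply hv
      funext i
      fin_cases i
      · exact h0
      · exact h1
    refine ⟨b n / (-v 1) ^ n, fun i hi => ?_⟩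
    unfold sybS
    rw [h0]
    rcases Nat.lt_or_ge i n with hlt | hge
    · have h2 := h i hlt
      rw [h0, zero_mul, add_zero] at h2
      have h3 : b i = 0 := (mul_eq_zero.1 h2).resolve_left h1
      rw [h3, zero_pow (by omega : n - i ≠ 0)]
      ring
    · have h2 : i = n := by omega
      subst h2
      rw [Nat.sub_self, pow_zero, mul_one, div_mul_cancel₀]
      exact pow_ne_zero _ (neg_ne_zero.2 h1)
  · refine ⟨b 0 / v 0 ^ n, fun i hi => ?_⟩
    induction i with
    | zero =>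
        unfold sybS
        rw [pow_zero, one_mul, Nat.sub_zero, div_mul_cancel₀]
        exact pow_ne_zero _ h0
    | succ i ih =>
        have h2 := h i (by omega)
        have h3 := ih (by omega)
        unfold sybS at h3 ⊢
        have h4 : n - i = (n - (i + 1)) + 1 := by omega
        rw [h4] at h3
        rw [h3] at h2
        have h5 : v 0 * b (i + 1) = v 0 * (b 0 / v 0 ^ n * ((-v 1) ^ (i + 1) *
            v 0 ^ (n - (i + 1)))) := by
          linear_combination h2
        exact mul_left_cancel₀ h0 h5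

omit [IsAlgClosed k] [CharZero k] in
private theorem sybT_sub (v : Fin 2 → k) (b b' : ℕ → k) (i : ℕ) :
    sybT v (fun j => b j - b' j) i = sybT v b i - sybT v b' i := by
  unfold sybT
  ring

omit [IsAlgClosed k] [CharZero k] in
private theorem sybT_mul (v : Fin 2 → k) (c : k) (b : ℕ → k) (i : ℕ) :
    sybT v (fun j => c * b j) i = c * sybT v b i := by
  unfold sybT
  ring

omit [IsAlgClosed k] [CharZero k] in
private theorem syb_one {v1 v2 v3 : Fin 2 → k} (h12 : lin v1 v2 ≠ 0) (h13 : lin v1 v3 ≠ 0)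
    (h23 : lin v2 v3 ≠ 0) (n1 : v1 ≠ 0) (n2 : v2 ≠ 0) (n3 : v3 ≠ 0) {b : ℕ → k}
    (h : ∀ i < 3, sybT v1 (sybT v2 (sybT v3 b)) i = 0) :
    ∃ x y z : k, ∀ i ≤ 5, b i = x * sybS 5 v1 i + y * sybS 5 v2 i + z * sybS 5 v3 i := by
  obtain ⟨α, hα⟩ := syb_ker n1 3 _ h
  obtain ⟨β, hβ⟩ := syb_ker n2 4 (fun j => sybT v3 b j - α / lin v1 v2 * sybS 4 v1 j) (by
    intro i hi
    rw [sybT_sub, sybT_mul, sybT_S 3 v1 v2 (by omega), hα i (by omega)]
    field_simp
    ring)
  obtain ⟨γ, hγ⟩ := syb_ker n3 5 (fun j => b j -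
      (α / lin v1 v2 / lin v1 v3 * sybS 5 v1 j + β / lin v2 v3 * sybS 5 v2 j)) (by
    intro i hi
    have e1 := sybT_S 4 v1 v3 (show i ≤ 4 by omega)
    have e2 := sybT_S 4 v2 v3 (show i ≤ 4 by omega)
    have e3 := hβ i (by omega)
    rw [sybT_sub]
    have e4 : sybT v3 (fun j => α / lin v1 v2 / lin v1 v3 * sybS 5 v1 j +
        β / lin v2 v3 * sybS 5 v2 j) i = α / lin v1 v2 / lin v1 v3 * sybT v3 (sybS 5 v1) i +
        β / lin v2 v3 * sybT v3 (sybS 5 v2) i := by
      unfold sybT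
      ring
    rw [e4, e1, e2]
    have e5 : sybT v3 b i = α / lin v1 v2 * sybS 4 v1 i + β * sybS 4 v2 i := by
      linear_combination e3
    rw [e5]
    field_simp
    ring)
  refine ⟨α / lin v1 v2 / lin v1 v3, β / lin v2 v3, γ, fun i hi => ?_⟩
  have h1 := hγ i hi
  linear_combination h1

/-- The sequence of `lin w ^ 4 * lin s`. -/
private def sybA (w s : Fin 2 → k) : ℕ → k
  | 0 => w 0 ^ 4 * s 0
  | 1 => (4 * w 0 ^ 3 * (-w 1) * s 0 + w 0 ^ 4 * (-s 1)) / 5
  | 2 => (3 * w 0 ^ 2 * (-w 1) ^ 2 * s 0 + 2 * w 0 ^ 3 * (-w 1) * (-s 1)) / 5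
  | 3 => (2 * w 0 * (-w 1) ^ 3 * s 0 + 3 * w 0 ^ 2 * (-w 1) ^ 2 * (-s 1)) / 5
  | 4 => ((-w 1) ^ 4 * s 0 + 4 * w 0 * (-w 1) ^ 3 * (-s 1)) / 5
  | _ => (-w 1) ^ 4 * (-s 1)

omit [IsAlgClosed k] in
private theorem sybT_A (w s : Fin 2 → k) {i : ℕ} (hi : i ≤ 4) :
    sybT w (sybA w s) i = lin s w / 5 * sybS 4 w i := by
  unfold sybT sybS lin
  have h5 : (5 : k) ≠ 0 := by norm_num
  interval_cases i <;> simp only [sybA] <;> field_simp <;> ring

/-- The sequence of `lin w ^ 3 * lin s`. -/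
private def sybA4 (w s : Fin 2 → k) : ℕ → k
  | 0 => w 0 ^ 3 * s 0
  | 1 => (3 * w 0 ^ 2 * (-w 1) * s 0 + w 0 ^ 3 * (-s 1)) / 4
  | 2 => (2 * w 0 * (-w 1) ^ 2 * s 0 + 2 * w 0 ^ 2 * (-w 1) * (-s 1)) / 4
  | 3 => ((-w 1) ^ 3 * s 0 + 3 * w 0 * (-w 1) ^ 2 * (-s 1)) / 4
  | _ => (-w 1) ^ 3 * (-s 1)

omit [IsAlgClosed k] in
private theorem sybT_A4 (w s : Fin 2 → k) {i : ℕ} (hi : i ≤ 3) :
    sybT w (sybA4 w s) i = lin s w / 4 * sybS 3 w i := by
  unfold sybT sybS lin
  have h4 : (4 : k) ≠ 0 := by norm_num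
  interval_cases i <;> simp only [sybA4] <;> field_simp <;> ring

/-- The sequence of `lin w ^ 3 * lin s ^ 2`. -/
private def sybB (w s : Fin 2 → k) : ℕ → k
  | 0 => w 0 ^ 3 * s 0 ^ 2
  | 1 => (3 * w 0 ^ 2 * (-w 1) * s 0 ^ 2 + 2 * w 0 ^ 3 * s 0 * (-s 1)) / 5
  | 2 => (3 * w 0 * (-w 1) ^ 2 * s 0 ^ 2 + 6 * w 0 ^ 2 * (-w 1) * s 0 * (-s 1) +
      w 0 ^ 3 * (-s 1) ^ 2) / 10
  | 3 => ((-w 1) ^ 3 * s 0 ^ 2 + 6 * w 0 * (-w 1) ^ 2 * s 0 * (-s 1) +
      3 * w 0 ^ 2 * (-w 1) * (-s 1) ^ 2) / 10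
  | 4 => (2 * (-w 1) ^ 3 * s 0 * (-s 1) + 3 * w 0 * (-w 1) ^ 2 * (-s 1) ^ 2) / 5
  | _ => (-w 1) ^ 3 * (-s 1) ^ 2

omit [IsAlgClosed k] in
private theorem sybT_B (w s : Fin 2 → k) {i : ℕ} (hi : i ≤ 4) :
    sybT w (sybB w s) i = 2 * lin s w / 5 * sybA4 w s i := by
  unfold sybT lin
  have h5 : (5 : k) ≠ 0 := by norm_num
  have h4 : (4 : k) ≠ 0 := by norm_num
  have h10 : (10 : k) ≠ 0 := by norm_num
  interval_cases i <;> simp only [sybA4, sybB] <;> field_simp <;> ring

omit [IsAlgClosed k] in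
private theorem syb_two {w s : Fin 2 → k} (hsw : lin s w ≠ 0) (hws : lin w s ≠ 0) (n1 : w ≠ 0)
    (n2 : s ≠ 0) {b : ℕ → k} (h : ∀ i < 3, sybT s (sybT w (sybT w b)) i = 0) :
    ∃ x y z : k, ∀ i ≤ 5, b i = x * sybS 5 s i + y * sybA w s i + z * sybS 5 w i := by
  have h5 : (5 : k) ≠ 0 := by norm_num
  obtain ⟨α, hα⟩ := syb_ker n2 3 _ h
  obtain ⟨β, hβ⟩ := syb_ker n1 4 (fun j => sybT w b j - α / lin s w * sybS 4 s j) (by
    intro i hi
    rw [sybT_sub, sybT_mul, sybT_S 3 s w (by omega), hα i (by omega)]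
    field_simp
    ring)
  obtain ⟨γ, hγ⟩ := syb_ker n1 5 (fun j => b j -
      (α / lin s w / lin s w * sybS 5 s j + 5 * β / lin s w * sybA w s j)) (by
    intro i hi
    have e1 := sybT_S 4 s w (show i ≤ 4 by omega)
    have e2 := sybT_A w s (show i ≤ 4 by omega)
    have e3 := hβ i (by omega)
    rw [sybT_sub]
    have e4 : sybT w (fun j => α / lin s w / lin s w * sybS 5 s j +
        5 * β / lin s w * sybA w s j) i = α / lin s w / lin s w * sybT w (sybS 5 s) i +
        5 * β / lin s w * sybT w (sybA w s) i := by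
      unfold sybT
      ring
    rw [e4, e1, e2]
    have e5 : sybT w b i = α / lin s w * sybS 4 s i + β * sybS 4 w i := by
      linear_combination e3
    rw [e5]
    field_simp
    ring)
  refine ⟨α / lin s w / lin s w, 5 * β / lin s w, γ, fun i hi => ?_⟩
  have h1 := hγ i hi
  linear_combination h1

omit [IsAlgClosed k] in
private theorem syb_three {w s : Fin 2 → k} (hsw : lin s w ≠ 0) (n1 : w ≠ 0)
    {b : ℕ → k} (h : ∀ i < 3, sybT w (sybT w (sybT w b)) i = 0) :
    ∃ x y z : k, ∀ i ≤ 5, b i = x * sybB w s i + y * sybA w s i + z * sybS 5 w i := by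
  have h5 : (5 : k) ≠ 0 := by norm_num
  have h4 : (4 : k) ≠ 0 := by norm_num
  obtain ⟨α, hα⟩ := syb_ker n1 3 _ h
  obtain ⟨β, hβ⟩ := syb_ker n1 4 (fun j => sybT w b j - 4 * α / lin s w * sybA4 w s j) (by
    intro i hi
    rw [sybT_sub, sybT_mul, sybT_A4 w s (by omega), hα i (by omega)]
    field_simp
    ring)
  obtain ⟨γ, hγ⟩ := syb_ker n1 5 (fun j => b j -
      (10 * α / lin s w / lin s w * sybB w s j + 5 * β / lin s w * sybA w s j)) (by
    intro i hi
    have e1 := sybT_B w s (show i ≤ 4 by omega)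
    have e2 := sybT_A w s (show i ≤ 4 by omega)
    have e3 := hβ i (by omega)
    rw [sybT_sub]
    have e4' : sybT w (fun j => 10 * α / lin s w / lin s w * sybB w s j +
        5 * β / lin s w * sybA w s j) i = 10 * α / lin s w / lin s w * sybT w (sybB w s) i +
        5 * β / lin s w * sybT w (sybA w s) i := by
      unfold sybT
      ring
    rw [e4', e1, e2]
    have e5 : sybT w b i = 4 * α / lin s w * sybA4 w s i + β * sybS 4 w i := by
      linear_combination e3
    rw [e5]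
    field_simp
    ring)
  refine ⟨10 * α / lin s w / lin s w, 5 * β / lin s w, γ, fun i hi => ?_⟩
  have h1 := hγ i hi
  linear_combination h1

omit [IsAlgClosed k] [CharZero k] in
private theorem syb_lin_symm (v w : Fin 2 → k) : lin w v = -lin v w := by
  unfold lin
  ring

omit [IsAlgClosed k] [CharZero k] in
private theorem syb_compl {w : Fin 2 → k} (hw : w ≠ 0) : ∃ s : Fin 2 → k, lin s w ≠ 0 := by
  by_cases h0 : w 0 = 0
  · have h1 : w 1 ≠ 0 := by
      intro h1
      apply hw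
      funext i
      fin_cases i
      · exact h0
      · exact h1
    refine ⟨![1, 0], ?_⟩
    simpa [lin] using h1
  · refine ⟨![0, 1], ?_⟩
    simpa [lin] using h0

omit [IsAlgClosed k] in
/-- Sequences: the three cases. -/
private theorem syb_cases {v1 v2 v3 : Fin 2 → k} (n1 : v1 ≠ 0) (n2 : v2 ≠ 0) (n3 : v3 ≠ 0)
    {b : ℕ → k} (h : ∀ i < 3, sybT v1 (sybT v2 (sybT v3 b)) i = 0) :
    (∃ (u1 u2 u3 : Fin 2 → k) (x y z : k), lin u1 u2 ≠ 0 ∧ lin u1 u3 ≠ 0 ∧ lin u2 u3 ≠ 0 ∧
      ∀ i ≤ 5, b i = x * sybS 5 u1 i + y * sybS 5 u2 i + z * sybS 5 u3 i) ∨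
    (∃ (w s : Fin 2 → k) (x y z : k), lin s w ≠ 0 ∧
      ∀ i ≤ 5, b i = x * sybS 5 s i + y * sybA w s i + z * sybS 5 w i) ∨
    (∃ (w s : Fin 2 → k) (x y z : k), w ≠ 0 ∧
      ∀ i ≤ 5, b i = x * sybB w s i + y * sybA w s i + z * sybS 5 w i) := by
  -- two parallel vectors
  have key : ∀ w s : Fin 2 → k, w ≠ 0 → s ≠ 0 →
      (∀ i < 3, sybT s (sybT w (sybT w b)) i = 0) →
      (∃ (w s : Fin 2 → k) (x y z : k), lin s w ≠ 0 ∧
        ∀ i ≤ 5, b i = x * sybS 5 s i + y * sybA w s i + z * sybS 5 w i) ∨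
      (∃ (w s : Fin 2 → k) (x y z : k), w ≠ 0 ∧
        ∀ i ≤ 5, b i = x * sybB w s i + y * sybA w s i + z * sybS 5 w i) := by
    intro w s hw hs h
    by_cases hsw : lin s w = 0
    · right
      obtain ⟨c, hc⟩ := (lin_eq_zero hs).1 hsw
      have hc0 : c ≠ 0 := by
        rintro rfl
        rw [zero_smul] at hc
        exact hw hc
      have h' : ∀ i < 3, sybT w (sybT w (sybT w b)) i = 0 := by
        intro i hi
        have h1 := h i hi
        have h2 : sybT w (sybT w (sybT w b)) i = c * sybT s (sybT w (sybT w b)) i := by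
          conv_lhs => rw [hc]
          rw [sybT_smul]
          simp only [← hc]
        rw [h2, h1, mul_zero]
      obtain ⟨m, hm⟩ := syb_compl hw
      obtain ⟨x, y, z, hxyz⟩ := syb_three hm hw h'
      exact ⟨w, m, x, y, z, hw, hxyz⟩
    · left
      have hws : lin w s ≠ 0 := by
        rw [syb_lin_symm]
        exact neg_ne_zero.2 hsw
      obtain ⟨x, y, z, hxyz⟩ := syb_two hsw hws hw hs h
      exact ⟨w, s, x, y, z, hsw, hxyz⟩
  by_cases h12 : lin v1 v2 = 0
  · right
    obtain ⟨c, hc⟩ := (lin_eq_zero n1).1 h12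
    have hc0 : c ≠ 0 := by
      rintro rfl
      rw [zero_smul] at hc
      exact n2 hc
    apply key v1 v3 n1 n3
    intro i hi
    have h1 := h i hi
    rw [hc, sybT_smul] at h1
    rw [sybT_mul] at h1
    have h2 := (mul_eq_zero.1 h1).resolve_left hc0
    have e : sybT v3 (sybT v1 (sybT v1 b)) = sybT v1 (sybT v1 (sybT v3 b)) := by
      rw [sybT_comm v3 v1, sybT_comm v3 v1]
    rw [e]
    exact h2
  · by_cases h13 : lin v1 v3 = 0
    · right
      obtain ⟨c, hc⟩ := (lin_eq_zero n1).1 h13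
      have hc0 : c ≠ 0 := by
        rintro rfl
        rw [zero_smul] at hc
        exact n3 hc
      apply key v1 v2 n1 n2
      intro i hi
      have h1 := h i hi
      have e : sybT v1 (sybT v2 (sybT v3 b)) = sybT v3 (sybT v2 (sybT v1 b)) := by
        rw [sybT_comm v2 v3, sybT_comm v1 v3, sybT_comm v1 v2]
      rw [e, hc, sybT_smul] at h1
      have h2 := (mul_eq_zero.1 h1).resolve_left hc0
      have e' : sybT v2 (sybT v1 (sybT v1 b)) = sybT v1 (sybT v2 (sybT v1 b)) := by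
        rw [sybT_comm v2 v1]
      rw [e']
      exact h2
    · by_cases h23 : lin v2 v3 = 0
      · right
        obtain ⟨c, hc⟩ := (lin_eq_zero n2).1 h23
        have hc0 : c ≠ 0 := by
          rintro rfl
          rw [zero_smul] at hc
          exact n3 hc
        apply key v2 v1 n2 n1
        intro i hi
        have h1 := h i hi
        have e : sybT v1 (sybT v2 (sybT v3 b)) = sybT v3 (sybT v1 (sybT v2 b)) := by
          rw [sybT_comm v2 v3, sybT_comm v1 v3]
        rw [e, hc, sybT_smul] at h1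
        have h2 := (mul_eq_zero.1 h1).resolve_left hc0
        have e' : sybT v1 (sybT v2 (sybT v2 b)) = sybT v2 (sybT v1 (sybT v2 b)) := by
          rw [sybT_comm v1 v2]
        rw [e']
        exact h2
      · left
        obtain ⟨x, y, z, hxyz⟩ := syb_one h12 h13 h23 n1 n2 n3 h
        exact ⟨v1, v2, v3, x, y, z, h12, h13, h23, hxyz⟩

/-- A nonzero cubic form is a product of three linear forms. -/
private theorem syb_cubic {F : (Fin 2 → k) → k} (hF : F ∈ Form k 3) (h0 : F ≠ 0) :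
    ∃ v1 v2 v3 : Fin 2 → k, v1 ≠ 0 ∧ v2 ≠ 0 ∧ v3 ≠ 0 ∧ ∃ e : k, e ≠ 0 ∧
      ∀ u, F u = e * (lin v1 u * (lin v2 u * lin v3 u)) := by
  obtain ⟨v1, n1, z1⟩ := Form.exists_zero (n := 2) hF
  obtain ⟨G1, hG1, e1⟩ := Form.factor hF n1 z1
  obtain ⟨v2, n2, z2⟩ := Form.exists_zero (n := 1) hG1
  obtain ⟨G2, hG2, e2⟩ := Form.factor hG1 n2 z2
  obtain ⟨v3, n3, z3⟩ := Form.exists_zero (n := 0) hG2
  obtain ⟨G3, hG3, e3⟩ := Form.factor hG2 n3 z3
  obtain ⟨e, he⟩ := Form.const hG3
  refine ⟨v1, v2, v3, n1, n2, n3, e, ?_, ?_⟩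
  · rintro rfl
    apply h0
    funext u
    rw [e1, e2, e3, he]
    simp
  · intro u
    rw [e1, e2, e3, he]
    ring

/-- The recurrence. -/
private theorem syb_rec (b : ℕ → k) : ∃ v1 v2 v3 : Fin 2 → k, v1 ≠ 0 ∧ v2 ≠ 0 ∧ v3 ≠ 0 ∧
    ∀ i < 3, sybT v1 (sybT v2 (sybT v3 b)) i = 0 := by
  -- a vector in the kernel
  obtain ⟨f, hf⟩ : ∃ f : (Fin 4 → k) →ₗ[k] (Fin 3 → k), ∀ c i,
      f c i = ∑ j : Fin 4, c j * b (i + j) := by
    refine ⟨{ toFun := fun c i => ∑ j : Fin 4, c j * b (i + j), map_add' := ?_, map_smul' := ?_ },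
      fun c i => rfl⟩
    · intro c d
      funext i
      simp only [Pi.add_apply, ← Finset.sum_add_distrib]
      exact Finset.sum_congr rfl fun j _ => by ring
    · intro a c
      funext i
      simp only [Pi.smul_apply, smul_eq_mul, RingHom.id_apply, Finset.mul_sum]
      exact Finset.sum_congr rfl fun j _ => by ring
  have hker : LinearMap.ker f ≠ ⊥ := f.ker_ne_bot_of_finrank_lt (by simp)
  obtain ⟨c, hc, hc0⟩ := Submodule.exists_mem_ne_zero_of_ne_bot hker
  rw [LinearMap.mem_ker] at hc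
  have hFne : (Form.of c : Form k 3).1 ≠ 0 := by
    intro h
    have h1 : (Form.of c : Form k 3) = 0 := Subtype.ext h
    apply hc0
    have h2 : (coeffE k 3).symm c = 0 := h1
    exact (LinearEquiv.map_eq_zero_iff _).1 h2
  obtain ⟨w1, w2, w3, n1, n2, n3, e, he0, he⟩ := syb_cubic (Form.of c : Form k 3).2 hFne
  -- the coefficients
  have hcoef : c = ![e * (w1 0 * w2 0 * w3 0),
      e * (-(w1 1 * w2 0 * w3 0 + w1 0 * w2 1 * w3 0 + w1 0 * w2 0 * w3 1)),
      e * (w1 1 * w2 1 * w3 0 + w1 1 * w2 0 * w3 1 + w1 0 * w2 1 * w3 1),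
      e * (-(w1 1 * w2 1 * w3 1))] := by
    have h1 : (Form.of c : Form k 3) = Form.of ![e * (w1 0 * w2 0 * w3 0),
      e * (-(w1 1 * w2 0 * w3 0 + w1 0 * w2 1 * w3 0 + w1 0 * w2 0 * w3 1)),
      e * (w1 1 * w2 1 * w3 0 + w1 1 * w2 0 * w3 1 + w1 0 * w2 1 * w3 1),
      e * (-(w1 1 * w2 1 * w3 1))] := by
      apply Subtype.ext
      funext u
      rw [he, Form.of_apply]
      simp [Fin.sum_univ_succ, lin]
      ring
    exact (coeffE k 3).symm.injective h1
  have hne : ∀ w : Fin 2 → k, w ≠ 0 → (![-w 1, w 0] : Fin 2 → k) ≠ 0 := by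
    intro w hw h
    apply hw
    funext i
    fin_cases i
    · have := congrFun h 1
      simpa using this
    · have := congrFun h 0
      simpa using this
  refine ⟨![-w1 1, w1 0], ![-w2 1, w2 0], ![-w3 1, w3 0], hne _ n1, hne _ n2, hne _ n3, ?_⟩
  intro i hi
  have h1 := congrFun hc ⟨i, hi⟩
  rw [hf, hcoef] at h1
  simp only [Fin.sum_univ_succ, Fin.sum_univ_zero, Pi.zero_apply] at h1
  simp only [Matrix.cons_val_zero, Matrix.cons_val_succ, Matrix.cons_val_fin_one,
    Fin.val_zero, Fin.val_succ, add_zero] at h1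
  have h2 : e * sybT ![-w1 1, w1 0] (sybT ![-w2 1, w2 0] (sybT ![-w3 1, w3 0] b)) i = 0 := by
    unfold sybT
    simp only [Matrix.cons_val_zero, Matrix.cons_val_one]
    have a1 : i + 1 + 1 = i + (0 + 1 + 1) := by omega
    have a2 : i + 1 + 1 + 1 = i + (0 + 1 + 1 + 1) := by omega
    have a3 : i + 1 = i + (0 + 1) := by omega
    rw [a2, a1, a3]
    linear_combination h1
  exact (mul_eq_zero.1 h2).resolve_left he0

/-- The coefficient sequence of a quintic form. -/
private theorem syb_seq (F : Form k 5) : ∃ b : ℕ → k, ∀ u : Fin 2 → k,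
    F.1 u = b 0 * u 1 ^ 5 + 5 * b 1 * u 0 * u 1 ^ 4 + 10 * b 2 * u 0 ^ 2 * u 1 ^ 3 +
      10 * b 3 * u 0 ^ 3 * u 1 ^ 2 + 5 * b 4 * u 0 ^ 4 * u 1 + b 5 * u 0 ^ 5 := by
  have h5 : (5 : k) ≠ 0 := by norm_num
  have h10 : (10 : k) ≠ 0 := by norm_num
  refine ⟨fun i => match i with
    | 0 => coeffE k 5 F 0
    | 1 => coeffE k 5 F 1 / 5
    | 2 => coeffE k 5 F 2 / 10
    | 3 => coeffE k 5 F 3 / 10
    | 4 => coeffE k 5 F 4 / 5
    | _ => coeffE k 5 F 5, fun u => ?_⟩
  rw [form_eq]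
  simp [Fin.sum_univ_succ]
  have e2 : (Fin.succ (Fin.succ (0 : Fin 4)) : Fin 6) = 2 := rfl
  have e3 : (Fin.succ (Fin.succ (Fin.succ (0 : Fin 3))) : Fin 6) = 3 := rfl
  have e4 : (Fin.succ (Fin.succ (Fin.succ (Fin.succ (0 : Fin 2)))) : Fin 6) = 4 := rfl
  have e5 : (Fin.succ (Fin.succ (Fin.succ (Fin.succ (Fin.succ (0 : Fin 1))))) : Fin 6) = 5 := rfl
  try simp only [e2, e3, e4, e5]
  field_simp
  ring

theorem sylvester (F : Form k 5) :
    (∃ (v : Fin 3 → (Fin 2 → k)) (a : Fin 3 → k), (∀ i j, i ≠ j → lin (v i) (v j) ≠ 0) ∧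
      ∀ u, F.1 u = ∑ i, a i * lin (v i) u ^ 5) ∨
    (∃ (v w : Fin 2 → k) (a b c : k), lin v w ≠ 0 ∧
      ∀ u, F.1 u = a * lin v u ^ 5 + b * lin v u * lin w u ^ 4 + c * lin w u ^ 5) ∨
    (∃ (v : Fin 2 → k) (Q : Form k 2), v ≠ 0 ∧ ∀ u, F.1 u = lin v u ^ 3 * Q.1 u) := by
  obtain ⟨b, hb⟩ := syb_seq F
  obtain ⟨v1, v2, v3, n1, n2, n3, h⟩ := syb_rec b
  have h5 : (5 : k) ≠ 0 := by norm_num
  have h10 : (10 : k) ≠ 0 := by norm_num
  rcases syb_cases n1 n2 n3 h with ⟨u1, u2, u3, x, y, z, h12, h13, h23, hxyz⟩ |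
    ⟨w, s, x, y, z, hsw, hxyz⟩ | ⟨w, s, x, y, z, hw, hxyz⟩
  · left
    refine ⟨![u1, u2, u3], ![x, y, z], ?_, ?_⟩
    · have s12 : lin u2 u1 ≠ 0 := by rw [syb_lin_symm]; exact neg_ne_zero.2 h12
      have s13 : lin u3 u1 ≠ 0 := by rw [syb_lin_symm]; exact neg_ne_zero.2 h13
      have s23 : lin u3 u2 ≠ 0 := by rw [syb_lin_symm]; exact neg_ne_zero.2 h23
      intro i j hij
      fin_cases i <;> fin_cases j
      · exact absurd rfl hij
      · exact h12
      · exact h13
      · exact s12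
      · exact absurd rfl hij
      · exact h23
      · exact s13
      · exact s23
      · exact absurd rfl hij
    · intro u
      rw [hb, hxyz 0 (by norm_num), hxyz 1 (by norm_num), hxyz 2 (by norm_num),
        hxyz 3 (by norm_num), hxyz 4 (by norm_num), hxyz 5 (by norm_num)]
      simp only [sybS, Fin.sum_univ_three, Matrix.cons_val_zero, Matrix.cons_val_one,
        Matrix.cons_val, lin]
      ring
  · right
    left
    refine ⟨s, w, x, y, z, hsw, fun u => ?_⟩
    rw [hb, hxyz 0 (by norm_num), hxyz 1 (by norm_num), hxyz 2 (by norm_num),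
      hxyz 3 (by norm_num), hxyz 4 (by norm_num), hxyz 5 (by norm_num)]
    simp only [sybS, sybA, lin]
    field_simp
    ring
  · right
    right
    have hQ : (fun u => x * (lin s u * lin s u) + y * (lin w u * lin s u) +
        z * (lin w u * lin w u)) ∈ Form k 2 := by
      have m1 := FORMA_mul (k := k) (show 1 + 1 = 2 by norm_num) (lin_mem s) (lin_mem s)
      have m2 := FORMA_mul (k := k) (show 1 + 1 = 2 by norm_num) (lin_mem w) (lin_mem s)
      have m3 := FORMA_mul (k := k) (show 1 + 1 = 2 by norm_num) (lin_mem w) (lin_mem w)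
      exact (Form k 2).add_mem ((Form k 2).add_mem ((Form k 2).smul_mem x m1)
        ((Form k 2).smul_mem y m2)) ((Form k 2).smul_mem z m3)
    refine ⟨w, ⟨_, hQ⟩, hw, fun u => ?_⟩
    show F.1 u = lin w u ^ 3 * (x * (lin s u * lin s u) + y * (lin w u * lin s u) +
        z * (lin w u * lin w u))
    rw [hb, hxyz 0 (by norm_num), hxyz 1 (by norm_num), hxyz 2 (by norm_num),
      hxyz 3 (by norm_num), hxyz 4 (by norm_num), hxyz 5 (by norm_num)]
    simp only [sybS, sybA, sybB, lin]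
    field_simp
    ring

/-- No multiple zeros. -/
theorem Y5_no_double {F : Form k 5} {d : k} (h : (F, d) ∈ Y5 k) {v : Fin 2 → k} (hv : v ≠ 0)
    (G : Form k 3) : ¬ ∀ u, F.1 u = lin v u ^ 2 * G.1 u := by
  intro hFG
  obtain ⟨w, hw, hF, -⟩ := h
  have hvv : lin v v = 0 := by unfold lin; ring
  have h1 : ∏ i, lin (w i) v = 0 := by
    rw [← hF v]
    show F.1 v = 0
    rw [hFG v, hvv]
    ring
  obtain ⟨i, -, hi⟩ := Finset.prod_eq_zero_iff.1 h1
  have hwne : ∀ i, w i ≠ 0 := by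
    intro i h0
    obtain ⟨j, hj⟩ : ∃ j : Fin 5, i ≠ j := by
      by_cases hi0 : i = 0
      · exact ⟨1, by rw [hi0]; decide⟩
      · exact ⟨0, hi0⟩
    apply hw i j hj
    rw [h0]
    unfold lin
    simp
  obtain ⟨c, hc⟩ := (lin_eq_zero (hwne i)).1 hi
  have hc0 : c ≠ 0 := by
    rintro rfl
    rw [zero_smul] at hc
    exact hv hc
  -- cancel one factor
  have hlinv : ∀ u, lin v u = c * lin (w i) u := by
    intro u
    rw [hc]
    unfold lin
    simp only [Pi.smul_apply, smul_eq_mul]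
    ring
  have hcancel : ∀ u, lin (w i) u * (∏ j ∈ Finset.univ.erase i, lin (w j) u) =
      lin (w i) u * (c ^ 2 * (lin (w i) u * G.1 u)) := by
    intro u
    rw [Finset.mul_prod_erase Finset.univ (fun j => lin (w j) u) (Finset.mem_univ i)]
    have h2 : F.1 u = ∏ j, lin (w j) u := hF u
    rw [← h2, hFG u, hlinv u]
    ring
  have hlin0 : lin (w i) ≠ 0 := by
    intro h0
    obtain ⟨j, hj⟩ : ∃ j : Fin 5, i ≠ j := by
      by_cases hi0 : i = 0
      · exact ⟨1, by rw [hi0]; decide⟩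
      · exact ⟨0, hi0⟩
    exact hw i j hj (congrFun h0 (w j))
  have hmem1 : ∀ s : Finset (Fin 5), (fun u => ∏ j ∈ s, lin (w j) u) ∈ Form k s.card := by
    intro s
    induction s using Finset.induction_on with
    | empty =>
        rw [Finset.card_empty]
        have h3 := FORMA_mono (k := k) (n := 0) (i := 0) le_rfl
        simpa using h3
    | insert a s ha ih =>
        rw [Finset.card_insert_of_notMem ha]
        have h3 := FORMA_mul (k := k) (show 1 + s.card = s.card + 1 by omega) (lin_mem (w a)) ih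
        have e : (fun u => ∏ j ∈ insert a s, lin (w j) u) =
            fun u => lin (w a) u * ∏ j ∈ s, lin (w j) u := by
          funext u
          rw [Finset.prod_insert ha]
        rw [e]
        exact h3
  have hm1 : (fun u => ∏ j ∈ Finset.univ.erase i, lin (w j) u) ∈ Form k 4 := by
    have h3 := hmem1 (Finset.univ.erase i)
    rwa [Finset.card_erase_of_mem (Finset.mem_univ i)] at h3
  have hm2 : (fun u => c ^ 2 * (lin (w i) u * G.1 u)) ∈ Form k 4 :=
    (Form k 4).smul_mem (c ^ 2) (FORMA_mul (show 1 + 3 = 4 by norm_num) (lin_mem (w i)) G.2)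
  have hEq := Form.cancel (lin_mem (w i)) hlin0 hm1 hm2 hcancel
  have h4 := congrFun hEq (w i)
  have h5 : lin (w i) (w i) = 0 := by unfold lin; ring
  simp only [h5, zero_mul, mul_zero] at h4
  obtain ⟨j, hj, hj'⟩ := Finset.prod_eq_zero_iff.1 h4
  exact hw j i (Finset.ne_of_mem_erase hj) hj'

omit [IsAlgClosed k] [CharZero k] in
private theorem syb_GL {v w : Fin 2 → k} (h : lin v w ≠ 0) :
    ∃ M : GL (Fin 2) k, ∀ u : Fin 2 → k, lin v (M⁻¹ • u) = u 0 ∧ lin w (M⁻¹ • u) = u 1 := by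
  obtain ⟨A, hA⟩ : ∃ A : Matrix (Fin 2) (Fin 2) k, A = !![-v 1, v 0; -w 1, w 0] := ⟨_, rfl⟩
  have hdet : A.det ≠ 0 := by
    rw [hA, Matrix.det_fin_two_of]
    intro h'
    apply h
    unfold lin
    linear_combination h'
  refine ⟨Matrix.GeneralLinearGroup.mkOfDetNeZero A hdet, fun u => ?_⟩
  obtain ⟨M, hM⟩ : ∃ M, Matrix.GeneralLinearGroup.mkOfDetNeZero A hdet = M := ⟨_, rfl⟩
  have hMA : (M : Matrix (Fin 2) (Fin 2) k) = A := by
    rw [← hM]
    rfl
  rw [hM]
  have h1 : M • (M⁻¹ • u) = u := smul_inv_smul M u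
  have h2 := FORMA_gl_smul M (M⁻¹ • u) 0
  have h3 := FORMA_gl_smul M (M⁻¹ • u) 1
  rw [h1, hMA, hA] at h2 h3
  simp only [Matrix.of_apply, Matrix.cons_val', Matrix.cons_val_zero, Matrix.cons_val_one,
    Matrix.cons_val_fin_one] at h2 h3
  unfold lin
  constructor
  · linear_combination -h2
  · linear_combination -h3

omit [IsAlgClosed k] [CharZero k] in
private theorem syb_lin_smul (c : k) (v u : Fin 2 → k) : lin (c • v) u = c * lin v u := by
  unfold lin
  simp only [Pi.smul_apply, smul_eq_mul]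
  ring

omit [IsAlgClosed k] [CharZero k] in
private theorem syb_lin_smul' (c : k) (v u : Fin 2 → k) : lin v (c • u) = c * lin v u := by
  unfold lin
  simp only [Pi.smul_apply, smul_eq_mul]
  ring

/-- Two fifth powers. -/
private theorem syb_N3 {F : Form k 5} {v w : Fin 2 → k} {a b : k} (h : lin v w ≠ 0) (ha : a ≠ 0)
    (hb : b ≠ 0) (hF : ∀ u, F.1 u = a * lin v u ^ 5 + b * lin w u ^ 5) :
    ∃ M : GL (Fin 2) k, M • F = N3 k := by
  obtain ⟨α, hα⟩ := IsAlgClosed.exists_pow_nat_eq a (n := 5) (by norm_num)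
  obtain ⟨β, hβ⟩ := IsAlgClosed.exists_pow_nat_eq b (n := 5) (by norm_num)
  have hα0 : α ≠ 0 := by
    rintro rfl
    apply ha
    rw [← hα]
    ring
  have hβ0 : β ≠ 0 := by
    rintro rfl
    apply hb
    rw [← hβ]
    ring
  obtain ⟨M, hM⟩ := syb_GL (v := α • v) (w := β • w) (by
    rw [syb_lin_smul, syb_lin_smul']
    exact mul_ne_zero hα0 (mul_ne_zero hβ0 h))
  refine ⟨M, Subtype.ext (funext fun u => ?_)⟩
  rw [form_gl_apply, hF, N3_apply]
  obtain ⟨h1, h2⟩ := hM u
  rw [syb_lin_smul] at h1 h2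
  rw [← h1, ← h2, ← hα, ← hβ]
  ring

/-- At most one fifth power: impossible. -/
private theorem syb_no_one {F : Form k 5} {d : k} (h : (F, d) ∈ Y5 k) {v : Fin 2 → k}
    (hv : v ≠ 0) (a : k) (hF : ∀ u, F.1 u = a * lin v u ^ 5) : False := by
  have hm : (fun u => a * (lin v u * (lin v u * lin v u))) ∈ Form k 3 :=
    (Form k 3).smul_mem a (FORMA_mul (show 1 + 2 = 3 by norm_num) (lin_mem v)
      (FORMA_mul (show 1 + 1 = 2 by norm_num) (lin_mem v) (lin_mem v)))
  apply Y5_no_double h hv ⟨_, hm⟩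
  intro u
  rw [hF]
  show a * lin v u ^ 5 = lin v u ^ 2 * (a * (lin v u * (lin v u * lin v u)))
  ring

theorem Y5_normal {F : Form k 5} {d : k} (h : (F, d) ∈ Y5 k) :
    (∃ (M : GL (Fin 2) k) (a : Fin 3 → k), (∀ i, a i ≠ 0) ∧ M • F = N1 a) ∨
    (∃ (M : GL (Fin 2) k) (a : k), M • F = N2 a) ∨ (∃ M : GL (Fin 2) k, M • F = N3 k) := by
  have hne_of : ∀ v w : Fin 2 → k, lin v w ≠ 0 → v ≠ 0 := by
    rintro v w h rfl
    apply h
    unfold lin
    simp
  rcases sylvester F with ⟨v, a, hv, hF⟩ | ⟨v, w, a, b, c, hvw, hF⟩ | ⟨v, Q, hv, hF⟩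
  · have hF' : ∀ u, F.1 u = a 0 * lin (v 0) u ^ 5 + a 1 * lin (v 1) u ^ 5 +
        a 2 * lin (v 2) u ^ 5 := by
      intro u
      rw [hF, Fin.sum_univ_three]
    have l01 := hv 0 1 (by decide)
    have l12 := hv 1 2 (by decide)
    have l02 := hv 0 2 (by decide)
    have l20 := hv 2 0 (by decide)
    by_cases a0 : a 0 = 0
    · right
      right
      by_cases a1 : a 1 = 0
      · exfalso
        refine syb_no_one h (hne_of _ _ l20) (a 2) fun u => ?_
        rw [hF', a0, a1]
        ring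
      · by_cases a2 : a 2 = 0
        · exfalso
          refine syb_no_one h (hne_of _ _ l12) (a 1) fun u => ?_
          rw [hF', a0, a2]
          ring
        · exact syb_N3 l12 a1 a2 fun u => by rw [hF', a0]; ring
    · by_cases a1 : a 1 = 0
      · right
        right
        by_cases a2 : a 2 = 0
        · exfalso
          refine syb_no_one h (hne_of _ _ l01) (a 0) fun u => ?_
          rw [hF', a1, a2]
          ring
        · exact syb_N3 l02 a0 a2 fun u => by rw [hF', a1]; ring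
      · by_cases a2 : a 2 = 0
        · right
          right
          exact syb_N3 l01 a0 a1 fun u => by rw [hF', a2]; ring
        · left
          obtain ⟨x, hx⟩ : ∃ x, lin (v 1) (v 2) = x := ⟨_, rfl⟩
          obtain ⟨y, hy⟩ : ∃ y, lin (v 2) (v 0) = y := ⟨_, rfl⟩
          obtain ⟨z, hz⟩ : ∃ z, lin (v 0) (v 1) = z := ⟨_, rfl⟩
          rw [hx] at l12
          rw [hy] at l20
          rw [hz] at l01
          obtain ⟨M, hM⟩ := syb_GL (v := x • v 0) (w := y • v 1) (by
            rw [syb_lin_smul, syb_lin_smul', hz]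
            exact mul_ne_zero l12 (mul_ne_zero l20 l01))
          refine ⟨M, ![a 0 / x ^ 5, a 1 / y ^ 5, a 2 / z ^ 5], ?_, Subtype.ext (funext fun u => ?_)⟩
          · intro i
            fin_cases i
            · exact div_ne_zero a0 (pow_ne_zero 5 l12)
            · exact div_ne_zero a1 (pow_ne_zero 5 l20)
            · exact div_ne_zero a2 (pow_ne_zero 5 l01)
          · rw [form_gl_apply, hF', N1_apply]
            obtain ⟨h1, h2⟩ := hM u
            rw [syb_lin_smul] at h1 h2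
            obtain ⟨u', hu'⟩ : ∃ u', M⁻¹ • u = u' := ⟨_, rfl⟩
            rw [hu'] at h1 h2 ⊢
            have h3 : x * lin (v 0) u' + y * lin (v 1) u' + z * lin (v 2) u' = 0 := by
              rw [← hx, ← hy, ← hz]
              unfold lin
              ring
            have h4 : -(u 0 + u 1) = z * lin (v 2) u' := by
              rw [← h1, ← h2]
              linear_combination -h3
            rw [h4, ← h1, ← h2]
            simp only [Matrix.cons_val_zero, Matrix.cons_val_one, Matrix.cons_val]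
            field_simp
  · have hv0 : v ≠ 0 := hne_of _ _ hvw
    have hw0 : w ≠ 0 := by
      rintro rfl
      apply hvw
      unfold lin
      simp
    by_cases ha : a = 0
    · exfalso
      have hm : (fun u => b * (lin v u * (lin w u * lin w u)) +
          c * (lin w u * (lin w u * lin w u))) ∈ Form k 3 :=
        (Form k 3).add_mem ((Form k 3).smul_mem b (FORMA_mul (show 1 + 2 = 3 by norm_num)
          (lin_mem v) (FORMA_mul (show 1 + 1 = 2 by norm_num) (lin_mem w) (lin_mem w))))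
          ((Form k 3).smul_mem c (FORMA_mul (show 1 + 2 = 3 by norm_num)
          (lin_mem w) (FORMA_mul (show 1 + 1 = 2 by norm_num) (lin_mem w) (lin_mem w))))
      apply Y5_no_double h hw0 ⟨_, hm⟩
      intro u
      rw [hF, ha]
      show 0 * lin v u ^ 5 + b * lin v u * lin w u ^ 4 + c * lin w u ^ 5 = lin w u ^ 2 *
        (b * (lin v u * (lin w u * lin w u)) + c * (lin w u * (lin w u * lin w u)))
      ring
    · right
      by_cases hb : b = 0
      · right
        by_cases hc : c = 0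
        · exfalso
          refine syb_no_one h hv0 a fun u => ?_
          rw [hF, hb, hc]
          ring
        · exact syb_N3 hvw ha hc fun u => by rw [hF, hb]; ring
      · left
        obtain ⟨α, hα⟩ := IsAlgClosed.exists_pow_nat_eq a (n := 5) (by norm_num)
        have hα0 : α ≠ 0 := by
          rintro rfl
          apply ha
          rw [← hα]
          ring
        obtain ⟨β, hβ⟩ := IsAlgClosed.exists_pow_nat_eq (b / (5 * α)) (n := 4) (by norm_num)
        have h5 : (5 : k) ≠ 0 := by norm_num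
        have hβ0 : β ≠ 0 := by
          rintro rfl
          have h6 : b / (5 * α) ≠ 0 := div_ne_zero hb (mul_ne_zero h5 hα0)
          apply h6
          rw [← hβ]
          ring
        have hβ' : 5 * α * β ^ 4 = b := by
          rw [hβ]
          field_simp
        obtain ⟨M, hM⟩ := syb_GL (v := α • v) (w := β • w) (by
          rw [syb_lin_smul, syb_lin_smul']
          exact mul_ne_zero hα0 (mul_ne_zero hβ0 hvw))
        refine ⟨M, c / β ^ 5, Subtype.ext (funext fun u => ?_)⟩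
        rw [form_gl_apply, hF, N2_apply]
        obtain ⟨h1, h2⟩ := hM u
        rw [syb_lin_smul] at h1 h2
        rw [← h1, ← h2, ← hα, ← hβ']
        field_simp
  · exfalso
    have hm : (fun u => lin v u * Q.1 u) ∈ Form k 3 :=
      FORMA_mul (show 1 + 2 = 3 by norm_num) (lin_mem v) Q.2
    apply Y5_no_double h hv ⟨_, hm⟩
    intro u
    rw [hF]
    show lin v u ^ 3 * Q.1 u = lin v u ^ 2 * (lin v u * Q.1 u)
    ring

end Pool.Agent.MRat
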