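import Pool.Agent.Lib.MP_923aff_ag.TDefs
/-!
# JOB SYC: Sylvester's normal forms for quintic forms (uniqueness)

`pow5_indep`: at most six fifth powers of pairwise independent linear forms are linearly independent (Vandermonde, or
successive elimination with the forms `∏ lin`); `pow5_indep'`: the version with `y⁵` and `x y⁴`. With these, comparing two normal forms of
the same quintic shows that the linear forms agree up to scalars and order.
`S3mat`: `ρ3 σ` permutes the three linear forms `u 0, u 1, -(u 0 + u 1)`.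
-/

set_option autoImplicit false

namespace Pool.Agent.MRat

open scoped MatrixGroups LinearAlgebra.Projectivization

variable {k : Type} [Field k] [IsAlgClosed k] [CharZero k]

/-- The fifth difference of a function. -/
def SYCpol (f : (Fin 2 → k) → k) (x : Fin 5 → (Fin 2 → k)) : k :=
    f (x 0 + x 1 + x 2 + x 3 + x 4) - f (x 0 + x 1 + x 2 + x 3) - f (x 0 + x 1 + x 2 + x 4) -
    f (x 0 + x 1 + x 3 + x 4) - f (x 0 + x 2 + x 3 + x 4) - f (x 1 + x 2 + x 3 + x 4) + f (x 0
    + x 1 + x 2) + f (x 0 + x 1 + x 3) + f (x 0 + x 1 + x 4) + f (x 0 + x 2 + x 3) + f (x 0 +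
    x 2 + x 4) + f (x 0 + x 3 + x 4) + f (x 1 + x 2 + x 3) + f (x 1 + x 2 + x 4) + f (x 1 + x
    3 + x 4) + f (x 2 + x 3 + x 4) - f (x 0 + x 1) - f (x 0 + x 2) - f (x 0 + x 3) - f (x 0 +
    x 4) - f (x 1 + x 2) - f (x 1 + x 3) - f (x 1 + x 4) - f (x 2 + x 3) - f (x 2 + x 4) - f
    (x 3 + x 4) + f (x 0) + f (x 1) + f (x 2) + f (x 3) + f (x 4)

theorem SYClin_add (v x y : Fin 2 → k) : lin v (x + y) = lin v x + lin v y := by
  simp only [lin, Pi.add_apply]; ring

theorem SYClin_smul (v x : Fin 2 → k) (c : k) : lin v (c • x) = c * lin v x := by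
  simp only [lin, Pi.smul_apply, smul_eq_mul]; ring

theorem SYClin_self (v : Fin 2 → k) : lin v v = 0 := by
  simp only [lin]; ring

theorem SYClin_swap (v w : Fin 2 → k) : lin v w = - lin w v := by
  simp only [lin]; ring

theorem SYCpol_lin (w w' : Fin 2 → k) (x : Fin 5 → (Fin 2 → k)) :
    SYCpol (fun u => lin w u ^ 4 * lin w' u) x = 24 * (
      lin w' (x 0) * lin w (x 1) * lin w (x 2) * lin w (x 3) * lin w (x 4) +
      lin w (x 0) * lin w' (x 1) * lin w (x 2) * lin w (x 3) * lin w (x 4) +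
      lin w (x 0) * lin w (x 1) * lin w' (x 2) * lin w (x 3) * lin w (x 4) +
      lin w (x 0) * lin w (x 1) * lin w (x 2) * lin w' (x 3) * lin w (x 4) +
      lin w (x 0) * lin w (x 1) * lin w (x 2) * lin w (x 3) * lin w' (x 4)) := by
  simp only [SYCpol, SYClin_add]
  generalize lin w (x 0) = A0
  generalize lin w (x 1) = A1
  generalize lin w (x 2) = A2
  generalize lin w (x 3) = A3
  generalize lin w (x 4) = A4
  generalize lin w' (x 0) = B0
  generalize lin w' (x 1) = B1
  generalize lin w' (x 2) = B2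
  generalize lin w' (x 3) = B3
  generalize lin w' (x 4) = B4
  ring

theorem SYCpol_pow (w : Fin 2 → k) (x : Fin 5 → (Fin 2 → k)) :
    SYCpol (fun u => lin w u ^ 5) x = 24 * (5 * ∏ j, lin w (x j)) := by
  have h := SYCpol_lin w w x
  have e : (fun u => lin w u ^ 4 * lin w u) = fun u => lin w u ^ 5 := by
    funext u; ring
  rw [e] at h
  rw [h, Fin.prod_univ_five]
  ring

theorem SYCpol_add (f g : (Fin 2 → k) → k) (x : Fin 5 → (Fin 2 → k)) :
    SYCpol (fun u => f u + g u) x = SYCpol f x + SYCpol g x := by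
  simp only [SYCpol]; ring

theorem SYCpol_mul (c : k) (f : (Fin 2 → k) → k) (x : Fin 5 → (Fin 2 → k)) :
    SYCpol (fun u => c * f u) x = c * SYCpol f x := by
  simp only [SYCpol]; ring

theorem SYCpol_zero (x : Fin 5 → (Fin 2 → k)) :
    SYCpol (fun _ => (0 : k)) x = 0 := by
  simp only [SYCpol]; ring

theorem SYCpol_sum {ι : Type} (s : Finset ι) (a : ι → k) (f : ι → (Fin 2 → k) → k)
    (x : Fin 5 → (Fin 2 → k)) :
    SYCpol (fun u => ∑ i ∈ s, a i * f i u) x = ∑ i ∈ s, a i * SYCpol (f i) x := by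
  classical
  induction s using Finset.induction_on with
  | empty => simpa using SYCpol_zero x
  | insert i s hi ih =>
    simp only [Finset.sum_insert hi]
    rw [SYCpol_add, SYCpol_mul, ih]

/-- The derivative of the product. -/
def SYCd (w w' : Fin 2 → k) (x : Fin 5 → (Fin 2 → k)) : k :=
      lin w' (x 0) * lin w (x 1) * lin w (x 2) * lin w (x 3) * lin w (x 4) +
      lin w (x 0) * lin w' (x 1) * lin w (x 2) * lin w (x 3) * lin w (x 4) +
      lin w (x 0) * lin w (x 1) * lin w' (x 2) * lin w (x 3) * lin w (x 4) +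
      lin w (x 0) * lin w (x 1) * lin w (x 2) * lin w' (x 3) * lin w (x 4) +
      lin w (x 0) * lin w (x 1) * lin w (x 2) * lin w (x 3) * lin w' (x 4)

theorem SYCgen {m : ℕ} (v : Fin m → (Fin 2 → k)) (a : Fin m → k) (w w' z z' : Fin 2 → k)
    (b c b2 c2 : k)
    (h : ∀ u, (∑ i, a i * lin (v i) u ^ 5) + b * lin w u ^ 5 + c * (lin w u ^ 4 * lin w' u) +
      b2 * lin z u ^ 5 + c2 * (lin z u ^ 4 * lin z' u) = 0) (x : Fin 5 → (Fin 2 → k)) :
    (∑ i, a i * (5 * ∏ j, lin (v i) (x j))) + b * (5 * ∏ j, lin w (x j)) + c * SYCd w w' x +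
      b2 * (5 * ∏ j, lin z (x j)) + c2 * SYCd z z' x = 0 := by
  have h1 : SYCpol (fun u => (∑ i, a i * lin (v i) u ^ 5) + b * lin w u ^ 5 +
      c * (lin w u ^ 4 * lin w' u) + b2 * lin z u ^ 5 + c2 * (lin z u ^ 4 * lin z' u)) x = 0 := by
    have : (fun u => (∑ i, a i * lin (v i) u ^ 5) + b * lin w u ^ 5 +
      c * (lin w u ^ 4 * lin w' u) + b2 * lin z u ^ 5 + c2 * (lin z u ^ 4 * lin z' u)) =
      fun _ => 0 := funext h
    rw [this, SYCpol_zero]
  rw [SYCpol_add, SYCpol_add, SYCpol_add, SYCpol_add, SYCpol_mul, SYCpol_mul, SYCpol_mul,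
    SYCpol_mul, SYCpol_sum Finset.univ a (fun i u => lin (v i) u ^ 5)] at h1
  simp only [SYCpol_pow, SYCpol_lin] at h1
  have h24 : (24 : k) ≠ 0 := by norm_num
  apply mul_left_cancel₀ h24
  rw [mul_zero, ← h1]
  unfold SYCd
  have e : ∀ i, a i * (24 * (5 * ∏ j, lin (v i) (x j))) =
      24 * (a i * (5 * ∏ j, lin (v i) (x j))) := fun i => by ring
  simp only [e, ← Finset.mul_sum]
  ring

/-- Elimination. -/
theorem SYCkey {m : ℕ} (hm : m ≤ 6) (v : Fin m → (Fin 2 → k)) (a : Fin m → k)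
    (h : ∀ u, ∑ i, a i * lin (v i) u ^ 5 = 0) (i : Fin m) (hv0 : v i ≠ 0)
    (hv : ∀ j, j ≠ i → lin (v i) (v j) ≠ 0) : a i = 0 := by
  classical
  obtain ⟨w, hw⟩ : ∃ w, lin (v i) w ≠ 0 := by
    by_contra hno
    push Not at hno
    apply hv0
    have h0 := hno ![0, 1]
    have h1 := hno ![1, 0]
    simp [lin] at h0 h1
    funext j
    fin_cases j <;> simp [h0, h1]
  have hg := SYCgen v a 0 0 0 0 0 0 0 0 (fun u => by simpa using h u)
    (fun j => if hj : (if (j : ℕ) < i then (j : ℕ) else (j : ℕ) + 1) < m then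
      v ⟨_, hj⟩ else w)
  simp only [zero_mul, add_zero] at hg
  rw [Finset.sum_eq_single i] at hg
  · rcases mul_eq_zero.1 hg with h1 | h1
    · exact h1
    · exfalso
      rcases mul_eq_zero.1 h1 with h1 | h1
      · norm_num at h1
      · rw [Finset.prod_eq_zero_iff] at h1
        obtain ⟨j, -, hj⟩ := h1
        split_ifs at hj with h2 h3 h3
        · refine hv _ (fun h4 => ?_) hj
          have := congrArg Fin.val h4
          simp only at this
          omega
        · exact hw hj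
        · refine hv _ (fun h4 => ?_) hj
          have := congrArg Fin.val h4
          simp only at this
          omega
        · exact hw hj
  · intro l _ hl
    have hl' : (l : ℕ) ≠ i := fun h => hl (Fin.ext h)
    have hlm := l.2
    have him := i.2
    have : ∏ j : Fin 5, lin (v l) ((fun j : Fin 5 => if hj : (if (j : ℕ) < i then (j : ℕ) else (j : ℕ) + 1) < m then
      v ⟨_, hj⟩ else w) j) = 0 := by
      by_cases hlt : (l : ℕ) < i
      · have h5 : (l : ℕ) < 5 := by omega
        refine Finset.prod_eq_zero (Finset.mem_univ (⟨l, h5⟩ : Fin 5)) ?_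
        simp only [hlt, if_true, hlm, dite_true]
        exact SYClin_self _
      · have h5 : (l : ℕ) - 1 < 5 := by omega
        refine Finset.prod_eq_zero (Finset.mem_univ (⟨(l : ℕ) - 1, h5⟩ : Fin 5)) ?_
        have h6 : ¬ ((l : ℕ) - 1 < i) := by omega
        have h7 : (l : ℕ) - 1 + 1 = l := by omega
        simp only [h6, if_false, h7, hlm, dite_true]
        exact SYClin_self _
    rw [this]; ring
  · intro h; exact absurd (Finset.mem_univ _) h

theorem pow5_indep {m : ℕ} (hm : m ≤ 6) (v : Fin m → (Fin 2 → k))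
    (hv : ∀ i j, i ≠ j → lin (v i) (v j) ≠ 0) (hv0 : ∀ i, v i ≠ 0) (a : Fin m → k)
    (h : ∀ u, ∑ i, a i * lin (v i) u ^ 5 = 0) : ∀ i, a i = 0 := fun i =>
  SYCkey hm v a h i (hv0 i) (fun j hj => hv i j hj.symm)

/-- Elimination at a double point, with a further double point. -/
theorem SYCkey2 (v : Fin 2 → (Fin 2 → k)) (a : Fin 2 → k)
    (w w' z z' : Fin 2 → k) (hw : lin w w' ≠ 0) (hwz : lin w z ≠ 0) (b c b2 c2 : k)
    (h : ∀ u, (∑ i, a i * lin (v i) u ^ 5) + b * lin w u ^ 5 + c * (lin w u ^ 4 * lin w' u) +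
      b2 * lin z u ^ 5 + c2 * (lin z u ^ 4 * lin z' u) = 0) : c = 0 := by
  classical
  have hg := SYCgen v a w w' z z' b c b2 c2 h
    ![w, z, z, if lin w (v 0) ≠ 0 then v 0 else w', if lin w (v 1) ≠ 0 then v 1 else w']
  simp only [SYCd, Fin.sum_univ_two, Fin.prod_univ_five, Matrix.cons_val_zero, Matrix.cons_val_one,
    Matrix.cons_val, SYClin_self, mul_zero, zero_mul, add_zero, zero_add] at hg
  have e0 : lin (v 0) w * lin (v 0) z * lin (v 0) z *
      lin (v 0) (if lin w (v 0) ≠ 0 then v 0 else w') = 0 := by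
    split_ifs with h0
    · rw [SYClin_self, mul_zero]
    · push Not at h0
      rw [SYClin_swap, h0]; ring
  have e1 : lin (v 1) w * lin (v 1) z * lin (v 1) z *
      lin (v 1) (if lin w (v 0) ≠ 0 then v 0 else w') * 
      lin (v 1) (if lin w (v 1) ≠ 0 then v 1 else w') = 0 := by
    generalize (if lin w (v 0) ≠ 0 then v 0 else w') = y
    split_ifs with h1
    · rw [SYClin_self, mul_zero]
    · push Not at h1
      rw [SYClin_swap (v 1) w, h1]; ring
  rw [e0, e1] at hg
  simp only [mul_zero, zero_mul, add_zero, zero_add] at hg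
  rcases mul_eq_zero.1 hg with h1 | h1
  · exact h1
  · exfalso
    have hf : ∀ i, lin w (if lin w (v i) ≠ 0 then v i else w') ≠ 0 := by
      intro i
      split_ifs with h0
      · exact h0
      · exact hw
    have hw2 : lin w' w ≠ 0 := by rw [SYClin_swap]; exact neg_ne_zero.2 hw
    exact mul_ne_zero (mul_ne_zero (mul_ne_zero (mul_ne_zero hw2 hwz) hwz) (hf 0)) (hf 1) h1

/-- Elimination at a double point. -/
theorem SYCkey1 {m : ℕ} (hm : m ≤ 4) (v : Fin m → (Fin 2 → k)) (a : Fin m → k)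
    (w w' : Fin 2 → k) (hw : lin w w' ≠ 0) (b c : k)
    (h : ∀ u, (∑ i, a i * lin (v i) u ^ 5) + b * lin w u ^ 5 + c * (lin w u ^ 4 * lin w' u) = 0) :
    c = 0 := by
  classical
  have hf : ∀ y, ∃ t, lin w t ≠ 0 ∧ (lin y w ≠ 0 → lin y t = 0) := by
    intro y
    by_cases h0 : lin w y = 0
    · refine ⟨w', hw, fun h1 => ?_⟩
      rw [SYClin_swap, h0, neg_zero] at h1
      exact absurd rfl h1
    · exact ⟨y, h0, fun _ => SYClin_self y⟩
  choose f hf1 hf2 using hf
  let x : Fin 5 → (Fin 2 → k) := Fin.cons w (fun j : Fin 4 => if hj : (j : ℕ) < m then f (v ⟨j, hj⟩) else w')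
  have hg := SYCgen v a w w' 0 0 b c 0 0 (fun u => by simpa using h u) x
  have e0 : ∀ i, ∏ j, lin (v i) (x j) = 0 := by
    intro i
    by_cases h0 : lin (v i) w = 0
    · exact Finset.prod_eq_zero (Finset.mem_univ 0) h0
    · have hi : (i : ℕ) < 4 := lt_of_lt_of_le i.2 hm
      refine Finset.prod_eq_zero (Finset.mem_univ (Fin.succ ⟨i, hi⟩)) ?_
      have hx : x (Fin.succ ⟨i, hi⟩) = f (v i) := by
        simp only [x, Fin.cons_succ, i.2, dite_true]
      rw [hx]
      exact hf2 _ h0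
  have e1 : ∏ j, lin w (x j) = 0 := Finset.prod_eq_zero (Finset.mem_univ 0) (SYClin_self w)
  have hx0 : x 0 = w := rfl
  have hx : ∀ j : Fin 4, lin w (x j.succ) ≠ 0 := by
    intro j
    simp only [x, Fin.cons_succ]
    split_ifs with h0
    · exact hf1 _
    · exact hw
  simp only [e0, e1, mul_zero, zero_mul, add_zero, zero_add, Finset.sum_const_zero, SYCd,
    hx0, SYClin_self] at hg
  rcases mul_eq_zero.1 hg with h1 | h1
  · exact h1
  · exfalso
    have hw2 : lin w' w ≠ 0 := by rw [SYClin_swap]; exact neg_ne_zero.2 hw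
    exact mul_ne_zero (mul_ne_zero (mul_ne_zero (mul_ne_zero hw2 (hx 0)) (hx 1)) (hx 2)) (hx 3) h1

/-- The version with a double point. -/
theorem pow5_indep' {m : ℕ} (hm : m ≤ 4) (v : Fin m → (Fin 2 → k))
    (hv : ∀ i j, i ≠ j → lin (v i) (v j) ≠ 0) (hv0 : ∀ i, v i ≠ 0) (a : Fin m → k)
    (w w' : Fin 2 → k) (hw : lin w w' ≠ 0) (hvw : ∀ i, lin (v i) w ≠ 0) (b c : k)
    (h : ∀ u, (∑ i, a i * lin (v i) u ^ 5) + b * lin w u ^ 5 + c * lin w u ^ 4 * lin w' u = 0) :
    (∀ i, a i = 0) ∧ b = 0 ∧ c = 0 := by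
  have hc : c = 0 := SYCkey1 hm v a w w' hw b c (fun u => by rw [← h u]; ring)
  subst hc
  have hw0 : w ≠ 0 := by
    rintro rfl
    apply hw
    simp [lin]
  have h2 : ∀ u, ∑ i : Fin (m + 1), (Fin.cons b a : Fin (m + 1) → k) i *
      lin ((Fin.cons w v : Fin (m + 1) → (Fin 2 → k)) i) u ^ 5 = 0 := by
    intro u
    rw [Fin.sum_univ_succ]
    simp only [Fin.cons_zero, Fin.cons_succ]
    rw [← h u]; ring
  have h3 := pow5_indep (m := m + 1) (by omega) (Fin.cons w v) (by
    intro i j hij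
    induction i using Fin.cases with
    | zero =>
      induction j using Fin.cases with
      | zero => exact absurd rfl hij
      | succ j =>
        simp only [Fin.cons_zero, Fin.cons_succ]
        rw [SYClin_swap]
        exact neg_ne_zero.2 (hvw j)
    | succ i =>
      induction j using Fin.cases with
      | zero =>
        simp only [Fin.cons_zero, Fin.cons_succ]
        exact hvw i
      | succ j =>
        simp only [Fin.cons_succ]
        exact hv i j (fun h => hij (by rw [h]))) (by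
    intro i
    induction i using Fin.cases with
    | zero => simpa using hw0
    | succ i => simpa using hv0 i) (Fin.cons b a) h2
  exact ⟨fun i => by simpa using h3 i.succ, by simpa using h3 0, rfl⟩

/-- The three linear forms. -/
def el (i : Fin 3) (u : Fin 2 → k) : k := ![u 0, u 1, -(u 0 + u 1)] i

theorem SYCel_sum (u : Fin 2 → k) : ∑ i, el i u = 0 := by
  simp [Fin.sum_univ_three, el]

theorem SYCel_sum' (σ : Equiv.Perm (Fin 3)) (u : Fin 2 → k) : ∑ i, el (σ i) u = 0 := by
  rw [Equiv.sum_comp σ (fun i => el i u), SYCel_sum]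

theorem SYCel_ext {u w : Fin 2 → k} (h : ∀ i, el i u = el i w) : u = w := by
  funext i
  fin_cases i
  · simpa [el] using h 0
  · simpa [el] using h 1

/-- The value of the representation. -/
def SYCrho (σ : Equiv.Perm (Fin 3)) (u : Fin 2 → k) : Fin 2 → k :=
  ![el (σ⁻¹ 0) u, el (σ⁻¹ 1) u]

theorem SYCrho_spec (σ : Equiv.Perm (Fin 3)) (u : Fin 2 → k) (i : Fin 3) :
    el i (SYCrho σ u) = el (σ⁻¹ i) u := by
  fin_cases i
  · simp [el, SYCrho]
  · simp [el, SYCrho]
  · have h := SYCel_sum' σ⁻¹ u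
    rw [Fin.sum_univ_three] at h
    show -(el (σ⁻¹ 0) u + el (σ⁻¹ 1) u) = el (σ⁻¹ 2) u
    linear_combination -h

theorem SYCel_add (i : Fin 3) (u w : Fin 2 → k) : el i (u + w) = el i u + el i w := by
  fin_cases i
  · simp [el]
  · simp [el]
  · simp [el]; ring

theorem SYCel_smul (i : Fin 3) (c : k) (u : Fin 2 → k) : el i (c • u) = c * el i u := by
  fin_cases i
  · simp [el]
  · simp [el]
  · simp [el]; ring

/-- The two-dimensional representation of the symmetric group on three letters. -/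
theorem exists_rho3 : ∃ ρ : Representation k (Equiv.Perm (Fin 3)) (Fin 2 → k),
    ∀ σ u i, el i (ρ σ u) = el (σ⁻¹ i) u := by
  refine ⟨{
    toFun := fun σ => {
      toFun := SYCrho σ
      map_add' := fun u w => ?_
      map_smul' := fun c u => ?_ }
    map_one' := ?_
    map_mul' := ?_ }, ?_⟩
  · apply SYCel_ext
    intro i
    rw [SYCel_add]
    simp only [SYCrho_spec, SYCel_add]
  · apply SYCel_ext
    intro i
    rw [SYCel_smul]
    simp only [SYCrho_spec, SYCel_smul, RingHom.id_apply]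
  · refine LinearMap.ext fun u => ?_
    apply SYCel_ext
    intro i
    show el i (SYCrho 1 u) = el i u
    rw [SYCrho_spec]
    rfl
  · intro σ τ
    refine LinearMap.ext fun u => ?_
    apply SYCel_ext
    intro i
    show el i (SYCrho (σ * τ) u) = el i (SYCrho σ (SYCrho τ u))
    rw [SYCrho_spec, SYCrho_spec, SYCrho_spec, mul_inv_rev]
    rfl
  · intro σ u i
    exact SYCrho_spec σ u i

/-- The two-dimensional representation of the symmetric group on three letters. -/
noncomputable def ρ3 (k : Type) [Field k] [IsAlgClosed k] [CharZero k] :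
    Representation k (Equiv.Perm (Fin 3)) (Fin 2 → k) := Classical.choose (exists_rho3 (k := k))

theorem ρ3_spec (σ : Equiv.Perm (Fin 3)) (u : Fin 2 → k) (i : Fin 3) :
    el i (ρ3 k σ u) = el (σ⁻¹ i) u := Classical.choose_spec (exists_rho3 (k := k)) σ u i

theorem SYCN1_apply (a : Fin 3 → k) (u : Fin 2 → k) :
    (N1 a).1 u = ∑ i, a i * el i u ^ 5 := by
  rw [N1_apply, Fin.sum_univ_three]
  simp [el]

/-- The matrix of `ρ3 σ`. -/
theorem exists_S3mat (σ : Equiv.Perm (Fin 3)) :
    ∃ M : GL (Fin 2) k, (∀ u : Fin 2 → k, M • u = ρ3 k σ u) ∧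
      (Matrix.det (M : Matrix (Fin 2) (Fin 2) k)) ^ 2 = 1 ∧
      ∀ a : Fin 3 → k, M • N1 a = N1 (permRep k 3 σ a) := by
  let M : GL (Fin 2) k :=
    ⟨LinearMap.toMatrix' (ρ3 k σ), LinearMap.toMatrix' (ρ3 k σ⁻¹),
      by rw [← LinearMap.toMatrix'_mul, ← map_mul, mul_inv_cancel, map_one,
        LinearMap.toMatrix'_one],
      by rw [← LinearMap.toMatrix'_mul, ← map_mul, inv_mul_cancel, map_one,
        LinearMap.toMatrix'_one]⟩
  have hM : ∀ u : Fin 2 → k, M • u = ρ3 k σ u := fun u =>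
    LinearMap.toMatrix'_mulVec _ _
  refine ⟨M, hM, ?_, ?_⟩
  · have h0 : ∀ (u : Fin 2 → k), M 0 0 * u 0 + M 0 1 * u 1 = el (σ⁻¹ 0) u := by
      intro u
      rw [← FORMA_gl_smul, hM, ← ρ3_spec]
      rfl
    have h1 : ∀ (u : Fin 2 → k), M 1 0 * u 0 + M 1 1 * u 1 = el (σ⁻¹ 1) u := by
      intro u
      rw [← FORMA_gl_smul, hM, ← ρ3_spec]
      rfl
    have h00 := h0 ![1, 0]
    have h01 := h0 ![0, 1]
    have h10 := h1 ![1, 0]
    have h11 := h1 ![0, 1]
    simp only [Matrix.cons_val_zero, Matrix.cons_val_one, mul_one, mul_zero, add_zero,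
      zero_add] at h00 h01 h10 h11
    rw [Matrix.det_fin_two]
    rw [h00, h01, h10, h11]
    have hne : σ⁻¹ 0 ≠ σ⁻¹ 1 := fun h => by
      have := σ⁻¹.injective h
      exact absurd this (by decide)
    generalize σ⁻¹ 0 = p at *
    generalize σ⁻¹ 1 = q at *
    fin_cases p <;> fin_cases q <;> simp [el] at hne ⊢
  · intro a
    apply Subtype.ext
    funext u
    rw [form_gl_apply, SYCN1_apply, SYCN1_apply]
    have hi : M⁻¹ • u = ρ3 k σ⁻¹ u := by
      rw [inv_smul_eq_iff, hM, ← Module.End.mul_apply, ← map_mul, mul_inv_cancel, map_one]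
      rfl
    rw [hi, ← Equiv.sum_comp σ (fun i => permRep k 3 σ a i * el i u ^ 5)]
    refine Finset.sum_congr rfl fun i _ => ?_
    have e : σ⁻¹ (σ i) = i := σ.symm_apply_apply i
    rw [ρ3_spec, permRep_apply, e, inv_inv]

theorem SYCtr {M : GL (Fin 2) k} {F G : Form k 5} (h : M • F = G) (u : Fin 2 → k) :
    F.1 u = G.1 (M • u) := by
  rw [← h, form_gl_apply, inv_smul_smul]

/-- The three vectors. -/
def SYCE (k : Type) [Field k] (i : Fin 3) : Fin 2 → k := ![![0, -1], ![1, 0], ![-1, 1]] i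

theorem SYCE_el (i : Fin 3) (u : Fin 2 → k) : el i u = lin (SYCE k i) u := by
  fin_cases i
  · simp [el, SYCE, lin]
  · simp [el, SYCE, lin]
  · simp [el, SYCE, lin]; ring

theorem SYCE_ne {i j : Fin 3} (h : i ≠ j) : lin (SYCE k i) (SYCE k j) ≠ 0 := by
  fin_cases i <;> fin_cases j <;> simp [SYCE, lin] at h ⊢

theorem SYCE_ne0 (i : Fin 3) : SYCE k i ≠ 0 := by
  intro h
  fin_cases i
  · have := SYCE_ne (k := k) (i := 0) (j := 1) (by decide)
    apply this
    show lin (SYCE k 0) _ = 0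
    have h' : SYCE k 0 = 0 := h
    rw [h']; simp [lin]
  · have := SYCE_ne (k := k) (i := 1) (j := 0) (by decide)
    apply this
    have h' : SYCE k 1 = 0 := h
    rw [h']; simp [lin]
  · have := SYCE_ne (k := k) (i := 2) (j := 0) (by decide)
    apply this
    have h' : SYCE k 2 = 0 := h
    rw [h']; simp [lin]

/-- The adjugate. -/
def SYCT (M : GL (Fin 2) k) (v : Fin 2 → k) : Fin 2 → k :=
  ![v 0 * M 1 1 - v 1 * M 0 1, v 1 * M 0 0 - v 0 * M 1 0]

theorem SYCT_lin (M : GL (Fin 2) k) (v u : Fin 2 → k) : lin v (M • u) = lin (SYCT M v) u := by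
  simp only [lin, FORMA_gl_smul, SYCT, Matrix.cons_val_zero, Matrix.cons_val_one]
  ring

theorem SYCT_det (M : GL (Fin 2) k) (v w : Fin 2 → k) :
    lin (SYCT M v) (SYCT M w) = Matrix.det (M : Matrix (Fin 2) (Fin 2) k) * lin v w := by
  rw [Matrix.det_fin_two]
  simp only [lin, SYCT, Matrix.cons_val_zero, Matrix.cons_val_one]
  ring

theorem SYCdet_ne (M : GL (Fin 2) k) : Matrix.det (M : Matrix (Fin 2) (Fin 2) k) ≠ 0 := by
  have h := congrArg Matrix.det M.mul_inv
  rw [Matrix.det_mul, Matrix.det_one] at h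
  intro h0
  rw [h0, zero_mul] at h
  exact zero_ne_one h

theorem SYCT_ne (M : GL (Fin 2) k) {v w : Fin 2 → k} (h : lin v w ≠ 0) :
    lin (SYCT M v) (SYCT M w) ≠ 0 := by
  rw [SYCT_det]
  exact mul_ne_zero (SYCdet_ne M) h

theorem SYCpar {p q r : Fin 2 → k} (hq : q ≠ 0) (h1 : lin p q = 0) (h2 : lin q r = 0) :
    lin p r = 0 := by
  obtain ⟨c, rfl⟩ := (lin_eq_zero hq).1 h2
  rw [SYClin_smul, h1, mul_zero]

theorem SYCne_left {p q : Fin 2 → k} (h : lin p q ≠ 0) : p ≠ 0 := by
  rintro rfl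
  apply h
  simp [lin]

theorem SYCkeyA {m n : ℕ} (hmn : m + n ≤ 6) (v : Fin m → (Fin 2 → k)) (w : Fin n → (Fin 2 → k))
    (a : Fin m → k) (b : Fin n → k)
    (h : ∀ u, ∑ i, a i * lin (v i) u ^ 5 = ∑ i, b i * lin (w i) u ^ 5) (i : Fin n)
    (hw0 : w i ≠ 0) (hw : ∀ j, j ≠ i → lin (w i) (w j) ≠ 0) (hv : ∀ j, lin (w i) (v j) ≠ 0) :
    b i = 0 := by
  have h1 := SYCkey hmn (Fin.append v w) (Fin.append a (fun i => - b i)) (by
    intro u
    rw [Fin.sum_univ_add]
    simp only [Fin.append_left, Fin.append_right]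
    rw [h u]
    simp) (Fin.natAdd m i) (by rw [Fin.append_right]; exact hw0) (by
    intro j hj
    rw [Fin.append_right]
    induction j using Fin.addCases with
    | left j => rw [Fin.append_left]; exact hv j
    | right j =>
      rw [Fin.append_right]
      exact hw j (fun h => hj (by rw [h])))
  rw [Fin.append_right] at h1
  simpa using h1

theorem uniq11 {M : GL (Fin 2) k} {a b : Fin 3 → k} (ha : ∀ i, a i ≠ 0) (hb : ∀ i, b i ≠ 0)
    (h : M • N1 a = N1 b) : ∃ (t : kˣ) (σ : Equiv.Perm (Fin 3)),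
      (∀ u : Fin 2 → k, M • u = (t : k) • ρ3 k σ u) ∧ ∀ i, (t : k) ^ 5 * b i = a (σ⁻¹ i) := by
  have h1 : ∀ u, ∑ i, a i * lin (SYCE k i) u ^ 5 = ∑ i, b i * lin (SYCT M (SYCE k i)) u ^ 5 := by
    intro u
    have := SYCtr h u
    rw [SYCN1_apply, SYCN1_apply] at this
    simpa only [SYCE_el, SYCT_lin] using this
  have hTne : ∀ i j, j ≠ i → lin (SYCT M (SYCE k i)) (SYCT M (SYCE k j)) ≠ 0 := fun i j hij =>
    SYCT_ne M (SYCE_ne hij.symm)
  have hT0 : ∀ i, SYCT M (SYCE k i) ≠ 0 := by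
    intro i
    have : ∃ j : Fin 3, j ≠ i := by
      fin_cases i
      · exact ⟨1, by decide⟩
      · exact ⟨0, by decide⟩
      · exact ⟨0, by decide⟩
    obtain ⟨j, hj⟩ := this
    exact SYCne_left (hTne i j hj)
  have h2 : ∀ i, ∃ j, lin (SYCT M (SYCE k i)) (SYCE k j) = 0 := by
    intro i
    by_contra hno
    push Not at hno
    exact hb i (SYCkeyA (by norm_num) _ _ a b h1 i (hT0 i) (hTne i) hno)
  choose τ hτ using h2
  have hinj : Function.Injective τ := by
    intro i j hij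
    by_contra hne
    apply hTne i j (fun h => hne h.symm)
    refine SYCpar (q := SYCE k (τ i)) (SYCE_ne0 _) (hτ i) ?_
    rw [SYClin_swap, hij, hτ j, neg_zero]
  have hbij : Function.Bijective τ := Finite.injective_iff_bijective.1 hinj
  let π : Equiv.Perm (Fin 3) := Equiv.ofBijective τ hbij
  have hc : ∀ i, ∃ c : k, SYCT M (SYCE k i) = c • SYCE k (τ i) := by
    intro i
    refine (lin_eq_zero (SYCE_ne0 (τ i))).1 ?_
    rw [SYClin_swap, hτ i, neg_zero]
  choose c hc using hc
  have hsum : ∀ u, ∑ i, lin (SYCT M (SYCE k i)) u = 0 := by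
    intro u
    simp only [← SYCT_lin, ← SYCE_el]
    exact SYCel_sum _
  have hd : ∀ u, ∑ j, c (π.symm j) * el j u = 0 := by
    intro u
    rw [← hsum u, ← Equiv.sum_comp π]
    refine Finset.sum_congr rfl fun i _ => ?_
    rw [Equiv.symm_apply_apply, hc i, SYCE_el]
    show _ = lin (c i • SYCE k (π i)) u
    simp only [lin, Pi.smul_apply, smul_eq_mul]
    ring
  have hd1 := hd ![1, 0]
  have hd2 := hd ![0, 1]
  rw [Fin.sum_univ_three] at hd1 hd2
  simp only [el, Matrix.cons_val_zero, Matrix.cons_val_one, Matrix.cons_val, mul_one, mul_zero,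
    add_zero, zero_add] at hd1 hd2
  have hall : ∀ j, c (π.symm j) = c (π.symm 2) := by
    intro j
    fin_cases j
    · show c (π.symm 0) = _
      linear_combination hd1
    · show c (π.symm 1) = _
      linear_combination hd2
    · rfl
  set t := c (π.symm 2) with ht
  have hct : ∀ i, c i = t := fun i => by
    have := hall (π i)
    rwa [Equiv.symm_apply_apply] at this
  have ht0 : t ≠ 0 := by
    intro h0
    apply hT0 0
    rw [hc 0, hct 0, h0, zero_smul]
  have hM : ∀ u i, el i (M • u) = t * el (π i) u := by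
    intro u i
    rw [SYCE_el, SYCT_lin, hc i, hct i, SYCE_el]
    show lin (t • SYCE k (π i)) u = _
    simp only [lin, Pi.smul_apply, smul_eq_mul]
    ring
  refine ⟨Units.mk0 t ht0, π⁻¹, ?_, ?_⟩
  · intro u
    apply SYCel_ext
    intro i
    rw [SYCel_smul, ρ3_spec, inv_inv, hM]
    rfl
  · have h3 : ∀ u, ∑ j, (a j - t ^ 5 * b (π.symm j)) * lin (SYCE k j) u ^ 5 = 0 := by
      intro u
      have h4 := SYCtr h u
      rw [SYCN1_apply, SYCN1_apply] at h4
      simp only [hM] at h4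
      rw [← Equiv.sum_comp π (fun j => (a j - t ^ 5 * b (π.symm j)) * lin (SYCE k j) u ^ 5)]
      rw [← Equiv.sum_comp π (fun j => a j * el j u ^ 5)] at h4
      rw [← sub_eq_zero, ← Finset.sum_sub_distrib] at h4
      rw [← h4]
      refine Finset.sum_congr rfl fun i _ => ?_
      rw [Equiv.symm_apply_apply, ← SYCE_el]
      ring
    have h5 := pow5_indep (by norm_num) (SYCE k) (fun i j hij => SYCE_ne hij) SYCE_ne0 _ h3
    intro i
    have h6 := h5 (π i)
    rw [Equiv.symm_apply_apply] at h6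
    rw [inv_inv, Units.val_mk0]
    linear_combination -h6

theorem uniq22 {M : GL (Fin 2) k} {a b : k} (h : M • N2 a = N2 b) :
    ∃ t z : kˣ, t ^ 5 = 1 ∧ z ^ 4 = 1 ∧
      (∀ u : Fin 2 → k, M • u = ![(t : k) * u 0, t * z * u 1]) ∧ (z : k) * b = a := by
  have h5 : (5 : k) ≠ 0 := by norm_num
  have h1 : ∀ u : Fin 2 → k, u 0 ^ 5 + 5 * u 0 * u 1 ^ 4 + a * u 1 ^ 5 =
      (M 0 0 * u 0 + M 0 1 * u 1) ^ 5 + 5 * (M 0 0 * u 0 + M 0 1 * u 1) *
        (M 1 0 * u 0 + M 1 1 * u 1) ^ 4 + b * (M 1 0 * u 0 + M 1 1 * u 1) ^ 5 := by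
    intro u
    have := SYCtr h u
    rwa [N2_apply, N2_apply, FORMA_gl_smul, FORMA_gl_smul] at this
  have hdet := SYCdet_ne M
  rw [Matrix.det_fin_two] at hdet
  have hg : ∀ u, (∑ i : Fin 2, (![1, -1] : Fin 2 → k) i *
      lin ((![![0, -1], ![M 0 1, - M 0 0]] : Fin 2 → (Fin 2 → k)) i) u ^ 5) +
      a * lin ![1, 0] u ^ 5 + 5 * (lin ![1, 0] u ^ 4 * lin ![0, -1] u) +
      (-b) * lin ![M 1 1, - M 1 0] u ^ 5 +
      (-5) * (lin ![M 1 1, - M 1 0] u ^ 4 * lin ![M 0 1, - M 0 0] u) = 0 := by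
    intro u
    have := h1 u
    simp only [Fin.sum_univ_two, lin, Matrix.cons_val_zero, Matrix.cons_val_one]
    linear_combination this
  have h10 : M 1 0 = 0 := by
    by_contra hne
    apply h5
    refine SYCkey2 _ _ ![1, 0] ![0, -1] ![M 1 1, - M 1 0] ![M 0 1, - M 0 0] ?_ ?_ _ _ _ _ hg
    · simp [lin]
    · simpa [lin] using hne
  have h00 : M 0 0 ≠ 0 := by
    intro h0; apply hdet; rw [h0, h10]; ring
  have h11 : M 1 1 ≠ 0 := by
    intro h0; apply hdet; rw [h0, h10]; ring
  have h01 : M 0 1 = 0 := by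
    have hg2 := SYCgen _ _ _ _ _ _ _ _ _ _ hg ![![1, 0], ![1, 0], ![1, 0], ![1, 0], ![0, 1]]
    simp only [SYCd, Fin.sum_univ_two, Fin.prod_univ_five, lin, Matrix.cons_val_zero,
      Matrix.cons_val_one, Matrix.cons_val, h10] at hg2
    have h3 : M 0 0 ^ 4 * M 0 1 = 0 := by
      apply mul_left_cancel₀ h5
      linear_combination -hg2
    rcases mul_eq_zero.1 h3 with h4 | h4
    · exact absurd (pow_eq_zero_iff (by norm_num) |>.1 h4) h00
    · exact h4
  have e1 := h1 ![1, 0]
  have e2 := h1 ![0, 1]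
  have e3 := h1 ![1, 1]
  simp only [Matrix.cons_val_zero, Matrix.cons_val_one, h10, h01] at e1 e2 e3
  have f1 : M 0 0 ^ 5 = 1 := by linear_combination -e1
  have f2 : a = b * M 1 1 ^ 5 := by linear_combination e2
  have f3 : M 0 0 * M 1 1 ^ 4 = 1 := by
    apply mul_left_cancel₀ h5
    linear_combination e1 + e2 - e3
  refine ⟨Units.mk0 _ h00, Units.mk0 _ h11 / Units.mk0 _ h00, ?_, ?_, ?_, ?_⟩
  · apply Units.ext
    simpa using f1
  · apply Units.ext
    simp only [Units.val_pow_eq_pow_val, Units.val_div_eq_div_val, Units.val_mk0, Units.val_one]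
    rw [div_pow, div_eq_one_iff_eq (pow_ne_zero _ h00)]
    apply mul_left_cancel₀ h00
    rw [f3]
    linear_combination -f1
  · intro u
    funext i
    rw [FORMA_gl_smul]
    fin_cases i
    · simp [h01]
    · simp only [Fin.mk_one, Fin.isValue, h10, zero_mul, zero_add, Units.val_mk0,
        Units.val_div_eq_div_val, Matrix.cons_val_one]
      rw [mul_div_cancel₀ _ h00]
      simp
  · simp only [Units.val_div_eq_div_val, Units.val_mk0]
    rw [f2, div_mul_eq_mul_div, div_eq_iff h00]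
    linear_combination (-(b * M 1 1)) * f3

theorem uniq33 {M : GL (Fin 2) k} (h : M • N3 k = N3 k) :
    ∃ s t : kˣ, s ^ 5 = 1 ∧ t ^ 5 = 1 ∧ ((∀ u : Fin 2 → k, M • u = ![(s : k) * u 0, t * u 1]) ∨
      ∀ u : Fin 2 → k, M • u = ![(s : k) * u 1, t * u 0]) := by
  have h1 : ∀ u : Fin 2 → k, u 0 ^ 5 + u 1 ^ 5 =
      (M 0 0 * u 0 + M 0 1 * u 1) ^ 5 + (M 1 0 * u 0 + M 1 1 * u 1) ^ 5 := by
    intro u
    have := SYCtr h u
    rwa [N3_apply, N3_apply, FORMA_gl_smul, FORMA_gl_smul] at this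
  have hdet := SYCdet_ne M
  rw [Matrix.det_fin_two] at hdet
  have hg : ∀ u, ∑ i : Fin 2, (![1, 1] : Fin 2 → k) i *
      lin ((![![0, -1], ![1, 0]] : Fin 2 → (Fin 2 → k)) i) u ^ 5 =
      ∑ i : Fin 2, (![1, 1] : Fin 2 → k) i *
      lin ((![![M 0 1, - M 0 0], ![M 1 1, - M 1 0]] : Fin 2 → (Fin 2 → k)) i) u ^ 5 := by
    intro u
    have := h1 u
    simp only [Fin.sum_univ_two, lin, Matrix.cons_val_zero, Matrix.cons_val_one]
    linear_combination this
  have hA : M 0 0 * M 0 1 = 0 := by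
    by_contra hne
    rw [mul_eq_zero, not_or] at hne
    have := SYCkeyA (by norm_num) _ _ _ _ hg 0 (by
      intro h0
      have := congrFun h0 0
      exact hne.2 (by simpa using this)) (by
      intro j hj
      fin_cases j
      · exact absurd rfl hj
      · simp only [lin, Fin.mk_one, Fin.isValue, Matrix.cons_val_zero, Matrix.cons_val_one]
        intro h0; apply hdet; linear_combination h0) (by
      intro j
      fin_cases j
      · simpa [lin] using hne.2
      · simpa [lin] using hne.1)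
    simp at this
  have hB : M 1 0 * M 1 1 = 0 := by
    by_contra hne
    rw [mul_eq_zero, not_or] at hne
    have := SYCkeyA (by norm_num) _ _ _ _ hg 1 (by
      intro h0
      have := congrFun h0 0
      exact hne.2 (by simpa using this)) (by
      intro j hj
      fin_cases j
      · simp only [lin, Fin.zero_eta, Fin.isValue, Matrix.cons_val_zero, Matrix.cons_val_one]
        intro h0; apply hdet; linear_combination -h0
      · exact absurd rfl hj) (by
      intro j
      fin_cases j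
      · simpa [lin] using hne.2
      · simpa [lin] using hne.1)
    simp at this
  have e1 := h1 ![1, 0]
  have e2 := h1 ![0, 1]
  simp only [Matrix.cons_val_zero, Matrix.cons_val_one] at e1 e2
  by_cases h00 : M 0 0 = 0
  · have h01 : M 0 1 ≠ 0 := by
      intro h0; apply hdet; rw [h0, h00]; ring
    have h10 : M 1 0 ≠ 0 := by
      intro h0; apply hdet; rw [h0, h00]; ring
    have h11 : M 1 1 = 0 := (mul_eq_zero.1 hB).resolve_left h10
    rw [h00] at e1
    rw [h11] at e2
    refine ⟨Units.mk0 _ h01, Units.mk0 _ h10, ?_, ?_, Or.inr ?_⟩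
    · apply Units.ext
      simp only [Units.val_pow_eq_pow_val, Units.val_mk0, Units.val_one]
      linear_combination -e2
    · apply Units.ext
      simp only [Units.val_pow_eq_pow_val, Units.val_mk0, Units.val_one]
      linear_combination -e1
    · intro u
      funext i
      rw [FORMA_gl_smul]
      fin_cases i
      · simp [h00]
      · simp [h11]
  · have h01 : M 0 1 = 0 := (mul_eq_zero.1 hA).resolve_left h00
    have h11 : M 1 1 ≠ 0 := by
      intro h0; apply hdet; rw [h0, h01]; ring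
    have h10 : M 1 0 = 0 := (mul_eq_zero.1 hB).resolve_right h11
    rw [h10] at e1
    rw [h01] at e2
    refine ⟨Units.mk0 _ h00, Units.mk0 _ h11, ?_, ?_, Or.inl ?_⟩
    · apply Units.ext
      simp only [Units.val_pow_eq_pow_val, Units.val_mk0, Units.val_one]
      linear_combination -e1
    · apply Units.ext
      simp only [Units.val_pow_eq_pow_val, Units.val_mk0, Units.val_one]
      linear_combination -e2
    · intro u
      funext i
      rw [FORMA_gl_smul]
      fin_cases i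
      · simp [h01]
      · simp [h10]

theorem disj12 {M : GL (Fin 2) k} {a : Fin 3 → k} {b : k} (ha : ∀ i, a i ≠ 0) :
    M • N1 a ≠ N2 b := by
  intro h
  have h1 := SYCtr h
  have hg : ∀ u, (∑ i : Fin 4, (![a 0, a 1, a 2, -1] : Fin 4 → k) i *
      lin ((![SYCE k 0, SYCE k 1, SYCE k 2, SYCT M ![0, -1]] : Fin 4 → (Fin 2 → k)) i) u ^ 5) +
      (-b) * lin (SYCT M ![1, 0]) u ^ 5 +
      (-5) * (lin (SYCT M ![1, 0]) u ^ 4 * lin (SYCT M ![0, -1]) u) = 0 := by
    intro u
    have h2 := h1 u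
    rw [SYCN1_apply, N2_apply, Fin.sum_univ_three, SYCE_el, SYCE_el, SYCE_el] at h2
    have e0 : (M • u) 0 = lin (SYCT M ![0, -1]) u := by
      rw [← SYCT_lin]; simp [lin]
    have e1 : (M • u) 1 = lin (SYCT M ![1, 0]) u := by
      rw [← SYCT_lin]; simp [lin]
    rw [e0, e1] at h2
    rw [Fin.sum_univ_four]
    simp only [Matrix.cons_val_zero, Matrix.cons_val_one, Matrix.cons_val]
    linear_combination h2
  have := SYCkey1 (by norm_num) _ _ _ _ (SYCT_ne M (by simp [lin])) _ _ hg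
  norm_num at this

theorem disj13 {M : GL (Fin 2) k} {a : Fin 3 → k} (ha : ∀ i, a i ≠ 0) :
    M • N1 a ≠ N3 k := by
  intro h
  have h1 := SYCtr h
  have hg : ∀ u, ∑ i : Fin 2, (![1, 1] : Fin 2 → k) i *
      lin ((![SYCT M ![0, -1], SYCT M ![1, 0]] : Fin 2 → (Fin 2 → k)) i) u ^ 5 =
      ∑ i, a i * lin (SYCE k i) u ^ 5 := by
    intro u
    have h2 := h1 u
    rw [SYCN1_apply, N3_apply] at h2
    simp only [SYCE_el] at h2
    have e0 : (M • u) 0 = lin (SYCT M ![0, -1]) u := by
      rw [← SYCT_lin]; simp [lin]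
    have e1 : (M • u) 1 = lin (SYCT M ![1, 0]) u := by
      rw [← SYCT_lin]; simp [lin]
    rw [e0, e1] at h2
    rw [h2, Fin.sum_univ_two]
    simp only [Matrix.cons_val_zero, Matrix.cons_val_one]
    ring
  have h3 : ∀ i : Fin 3, ∃ j : Fin 2, lin (SYCE k i)
      ((![SYCT M ![0, -1], SYCT M ![1, 0]] : Fin 2 → (Fin 2 → k)) j) = 0 := by
    intro i
    by_contra hno
    push Not at hno
    exact ha i (SYCkeyA (by norm_num) _ _ _ a hg i (SYCE_ne0 i)
      (fun j hj => SYCE_ne hj.symm) hno)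
  choose f hf using h3
  obtain ⟨i, j, hij, hfij⟩ := Fintype.exists_ne_map_eq_of_card_lt f (by simp)
  apply SYCE_ne (k := k) hij
  refine SYCpar (q := (![SYCT M ![0, -1], SYCT M ![1, 0]] : Fin 2 → (Fin 2 → k)) (f i)) ?_
    (hf i) ?_
  · have hne : lin (SYCT M ![0, -1]) (SYCT M ![1, 0]) ≠ 0 := SYCT_ne M (by simp [lin])
    generalize f i = l
    fin_cases l
    · exact SYCne_left hne
    · refine SYCne_left (q := SYCT M ![0, -1]) ?_
      show lin (SYCT M ![1, 0]) (SYCT M ![0, -1]) ≠ 0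
      rw [SYClin_swap]
      exact neg_ne_zero.2 hne
  · rw [SYClin_swap, hfij, hf j, neg_zero]

theorem disj23 {M : GL (Fin 2) k} {a : k} : M • N2 a ≠ N3 k := by
  intro h
  have h1 := SYCtr h
  have hg : ∀ u, (∑ i : Fin 3, (![1, -1, -1] : Fin 3 → k) i *
      lin ((![![0, -1], SYCT M ![0, -1], SYCT M ![1, 0]] : Fin 3 → (Fin 2 → k)) i) u ^ 5) +
      a * lin ![1, 0] u ^ 5 + 5 * (lin ![1, 0] u ^ 4 * lin ![0, -1] u) = 0 := by
    intro u
    have h2 := h1 u
    rw [N2_apply, N3_apply] at h2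
    have e0 : (M • u) 0 = lin (SYCT M ![0, -1]) u := by
      rw [← SYCT_lin]; simp [lin]
    have e1 : (M • u) 1 = lin (SYCT M ![1, 0]) u := by
      rw [← SYCT_lin]; simp [lin]
    rw [e0, e1] at h2
    rw [Fin.sum_univ_three]
    simp only [Matrix.cons_val_zero, Matrix.cons_val_one, Matrix.cons_val]
    have e2 : lin ![1, 0] u = u 1 := by simp [lin]
    have e3 : lin ![0, -1] u = u 0 := by simp [lin]
    rw [e2, e3]
    linear_combination h2
  have := SYCkey1 (by norm_num) _ _ _ _ (by simp [lin]) _ _ hg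
  norm_num at this

end Pool.Agent.MRat
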