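import Pool.Agent.Lib.MP_923aff_ag.SYA
/-!
# JOB SYD: discriminants of the normal forms

Use `Y5_disc`. If the derivative `G` of `F` in the direction `w` splits as `G = ∏ l, lin (w l)`, then the product of the
values of `G` at the zeros of `F` is `∏ l, F (w l)` (`SYD_split`).
-/

set_option autoImplicit false

namespace Pool.Agent.MRat

open scoped MatrixGroups LinearAlgebra.Projectivization

variable {k : Type} [Field k] [IsAlgClosed k] [CharZero k]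

omit [IsAlgClosed k] [CharZero k] in
theorem SYD_lin_smul (c : k) (v u : Fin 2 → k) : lin (c • v) u = c * lin v u := by
  unfold lin
  simp only [Pi.smul_apply, smul_eq_mul]
  ring

omit [IsAlgClosed k] [CharZero k] in
theorem SYD_lin_self (v : Fin 2 → k) : lin v v = 0 := by
  unfold lin
  ring

omit [IsAlgClosed k] [CharZero k] in
theorem SYD_lin_swap (v w : Fin 2 → k) : lin v w = - lin w v := by
  unfold lin
  ring

omit [CharZero k] in
theorem SYD_form_split (n : ℕ) {F : (Fin 2 → k) → k} (hF : F ∈ Form k n) (h0 : F ≠ 0) :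
    ∃ (c : k) (v : Fin n → (Fin 2 → k)), c ≠ 0 ∧ (∀ i, v i ≠ 0) ∧
      ∀ u, F u = c * ∏ i, lin (v i) u := by
  induction n generalizing F with
  | zero =>
    obtain ⟨c, hc⟩ := Form.const hF
    refine ⟨c, fun i => i.elim0, ?_, fun i => i.elim0, fun u => ?_⟩
    · rintro rfl
      exact h0 (funext hc)
    · rw [hc u, Finset.univ_eq_empty, Finset.prod_empty, mul_one]
  | succ n ih =>
    obtain ⟨v0, hv0, hz⟩ := Form.exists_zero hF
    obtain ⟨G, hG, hFG⟩ := Form.factor hF hv0 hz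
    have hG0 : G ≠ 0 := by
      rintro rfl
      apply h0
      funext u
      rw [hFG u, Pi.zero_apply, mul_zero]
    obtain ⟨c, v, hc, hv, hGv⟩ := ih hG hG0
    refine ⟨c, Fin.cons v0 v, hc, ?_, ?_⟩
    · intro i
      refine Fin.cases ?_ (fun j => ?_) i
      · exact hv0
      · exact hv j
    · intro u
      rw [Fin.prod_univ_succ, hFG u, hGv u, Fin.cons_zero]
      simp only [Fin.cons_succ]
      ring

/-- Every form of degree five is a product of five linear forms (up to the zero form). -/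
theorem form5_split {F : Form k 5} (hF : F ≠ 0) : ∃ v : Fin 5 → (Fin 2 → k), (∀ i, v i ≠ 0) ∧
    ∀ u, F.1 u = ∏ i, lin (v i) u := by
  obtain ⟨c, v, hc, hv, h⟩ := SYD_form_split 5 F.2 (fun h => hF (Subtype.ext h))
  refine ⟨Fin.cons (c • v 0) (fun i => v i.succ), ?_, ?_⟩
  · intro i
    refine Fin.cases ?_ (fun j => ?_) i
    · exact smul_ne_zero hc (hv 0)
    · exact hv _
  · intro u
    rw [h u, Fin.prod_univ_succ, Fin.prod_univ_succ (n := 4), Fin.cons_zero]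
    simp only [Fin.cons_succ, SYD_lin_smul]
    ring

omit [IsAlgClosed k] [CharZero k] in
/-- The product of the values of a split quartic form at the zeros of `F`. -/
theorem SYD_split {F : (Fin 2 → k) → k} {v : Fin 5 → (Fin 2 → k)}
    (hF : ∀ u, F u = ∏ i, lin (v i) u) (w : Fin 4 → (Fin 2 → k)) :
    ∏ i, ∏ l, lin (w l) (v i) = ∏ l, F (w l) := by
  rw [Finset.prod_comm]
  have h1 : ∀ l, ∏ i, lin (w l) (v i) = - F (w l) := by
    intro l
    rw [hF]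
    have h2 : ∀ i, lin (w l) (v i) = -1 * lin (v i) (w l) := fun i => by
      rw [SYD_lin_swap]; ring
    rw [Finset.prod_congr rfl fun i _ => h2 i, Finset.prod_mul_distrib, Finset.prod_const]
    simp
    ring
  rw [Finset.prod_congr rfl fun l _ => h1 l]
  simp only [Fin.prod_univ_four]
  ring

/-- Taylor remainder of a fifth power. -/
noncomputable def SYD_r (c l m : k) : Polynomial k :=
  Polynomial.C (10 * c * l ^ 3 * m ^ 2) + Polynomial.C (10 * c * l ^ 2 * m ^ 3) * Polynomial.X +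
    Polynomial.C (5 * c * l * m ^ 4) * Polynomial.X ^ 2 + Polynomial.C (c * m ^ 5) * Polynomial.X ^ 3

omit [IsAlgClosed k] [CharZero k] in
theorem SYD_r_eval (c l m t : k) : (SYD_r c l m).eval t =
    10 * c * l ^ 3 * m ^ 2 + 10 * c * l ^ 2 * m ^ 3 * t + 5 * c * l * m ^ 4 * t ^ 2 +
      c * m ^ 5 * t ^ 3 := by
  unfold SYD_r
  simp only [Polynomial.eval_add, Polynomial.eval_mul, Polynomial.eval_C, Polynomial.eval_X,
    Polynomial.eval_pow]

omit [IsAlgClosed k] [CharZero k] in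
theorem SYD_zero {F : (Fin 2 → k) → k} {v : Fin 5 → (Fin 2 → k)}
    (hF : ∀ u, F u = ∏ i, lin (v i) u) (i : Fin 5) : F (v i) = 0 := by
  rw [hF]
  exact Finset.prod_eq_zero (Finset.mem_univ i) (SYD_lin_self _)

/-- The discriminant of `N1` by the derivative in the direction `w`. -/
theorem SYD_N1_disc {a : Fin 3 → k} {v : Fin 5 → (Fin 2 → k)}
    (hF : ∀ u, (N1 a).1 u = ∏ i, lin (v i) u) (w : Fin 2 → k) (g : Fin 4 → (Fin 2 → k)) (c : k)
    (hg : ∀ u : Fin 2 → k, a 0 * w 0 * u 0 ^ 4 + a 1 * w 1 * u 1 ^ 4 -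
      a 2 * (w 0 + w 1) * (u 0 + u 1) ^ 4 = c * ∏ l, lin (g l) u) :
    (∏ i, ∏ j ∈ Finset.Ioi i, lin (v i) (v j)) ^ 2 * (N1 a).1 w =
      3125 * c ^ 5 * ∏ l, (N1 a).1 (g l) := by
  rw [Y5_disc hF w (fun i => 5 * (c * ∏ l, lin (g l) (v i)))
    (fun i => SYD_r (a 0) (v i 0) (w 0) + SYD_r (a 1) (v i 1) (w 1) +
      SYD_r (- a 2) (v i 0 + v i 1) (w 0 + w 1))]
  · have h1 := SYD_split hF g
    rw [← h1, Finset.prod_mul_distrib, Finset.prod_mul_distrib, Finset.prod_const, Finset.prod_const]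
    simp
    ring
  · intro i t
    have h0 := SYD_zero hF i
    rw [N1_apply] at h0
    rw [← hg, N1_apply, Polynomial.eval_add, Polynomial.eval_add, SYD_r_eval, SYD_r_eval,
      SYD_r_eval]
    simp only [Pi.add_apply, Pi.smul_apply, smul_eq_mul]
    linear_combination h0

omit [CharZero k] in
theorem SYD_exists_I : ∃ I : k, I ^ 2 = -1 := by
  obtain ⟨z, hz⟩ := IsAlgClosed.exists_pow_nat_eq (-1 : k) (n := 2) two_pos
  exact ⟨z, hz⟩

omit [IsAlgClosed k] [CharZero k] in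
theorem SYD_pair (x z b : k) :
    (x ^ 4 * z ^ 5 + z ^ 4 * x ^ 5 - b * (x + z) ^ 5) *
      (x ^ 4 * (-z) ^ 5 + z ^ 4 * x ^ 5 - b * (x - z) ^ 5) =
    (x ^ 2 - z ^ 2) * ((x ^ 4 * z ^ 4) ^ 2 -
      2 * b * (x ^ 4 * z ^ 4) * (x ^ 4 + 6 * x ^ 2 * z ^ 2 + z ^ 4) +
      b ^ 2 * (x ^ 2 - z ^ 2) ^ 4) := by
  ring

omit [IsAlgClosed k] [CharZero k] in
/-- The product of the four values, in terms of the fourth powers. -/
theorem SYD_quad {x z I b : k} (hI : I ^ 2 = -1) :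
    ((x ^ 4 * z ^ 5 + z ^ 4 * x ^ 5 - b * (x + z) ^ 5) *
      (x ^ 4 * (-z) ^ 5 + z ^ 4 * x ^ 5 - b * (x - z) ^ 5)) *
    ((x ^ 4 * (I * z) ^ 5 + (I * z) ^ 4 * x ^ 5 - b * (x + (I * z)) ^ 5) *
      (x ^ 4 * (-(I * z)) ^ 5 + (I * z) ^ 4 * x ^ 5 - b * (x - (I * z)) ^ 5)) =
    (x ^ 4 - z ^ 4) *
      (((x ^ 4 * b + b * z ^ 4 + z ^ 4 * x ^ 4) ^ 2 -
        4 * (x ^ 4 + b + z ^ 4) * (x ^ 4 * b * z ^ 4)) ^ 2 -
      128 * (x ^ 4 * b + b * z ^ 4 + z ^ 4 * x ^ 4) * (x ^ 4 * b * z ^ 4) ^ 2) := by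
  rw [SYD_pair, SYD_pair]
  have h2 : (I * z) ^ 2 = - z ^ 2 := by rw [mul_pow, hI]; ring
  have h4 : (I * z) ^ 4 = z ^ 4 := by
    have : (I * z) ^ 4 = ((I * z) ^ 2) ^ 2 := by ring
    rw [this, h2]; ring
  rw [h2, h4]
  ring

omit [IsAlgClosed k] [CharZero k] in
theorem SYD_I4 {z I : k} (hI : I ^ 2 = -1) : (I * z) ^ 4 = z ^ 4 := by
  have : (I * z) ^ 4 = (I ^ 2) ^ 2 * z ^ 4 := by ring
  rw [this, hI]; ring

/-- The first generic case. -/
theorem SYD_N1_gen {a : Fin 3 → k} {v : Fin 5 → (Fin 2 → k)}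
    (hF : ∀ u, (N1 a).1 u = ∏ i, lin (v i) u) (h : a 0 ≠ a 2) :
    (∏ i, ∏ j ∈ Finset.Ioi i, lin (v i) (v j)) ^ 2 = 3125 * D1 a := by
  obtain ⟨x, hx⟩ := IsAlgClosed.exists_pow_nat_eq (a 0) (n := 4) (by norm_num)
  obtain ⟨z, hz⟩ := IsAlgClosed.exists_pow_nat_eq (a 2) (n := 4) (by norm_num)
  obtain ⟨I, hI⟩ := SYD_exists_I (k := k)
  have h1 := SYD_N1_disc hF ![1, 0]
    ![![z, -(x + z)], ![-z, -(x - z)], ![I * z, -(x + I * z)], ![-(I * z), -(x - I * z)]] 1 (by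
      intro u
      simp only [Fin.prod_univ_four, lin, Matrix.cons_val_zero, Matrix.cons_val_one,
        Matrix.cons_val]
      rw [← hx, ← hz]
      linear_combination (z ^ 2 * (u 0 + u 1) ^ 2 * x ^ 2 * u 0 ^ 2 -
        z ^ 4 * (u 0 + u 1) ^ 4) * hI)
  simp only [Fin.prod_univ_four (M := k), N1_apply, Matrix.cons_val_zero, Matrix.cons_val_one,
    Matrix.cons_val] at h1
  have h2 := SYD_quad (x := x) (z := z) (b := a 1) hI
  have h4 := SYD_I4 (z := z) hI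
  have h3 : (a 0 - a 2) * (∏ i, ∏ j ∈ Finset.Ioi i, lin (v i) (v j)) ^ 2 =
      (a 0 - a 2) * (3125 * D1 a) := by
    unfold D1
    rw [← hx, ← hz] at h1 ⊢
    have h5 : (x ^ 4 - z ^ 4) * (3125 * (((x ^ 4 * a 1 + a 1 * z ^ 4 + z ^ 4 * x ^ 4) ^ 2 -
        4 * (x ^ 4 + a 1 + z ^ 4) * (x ^ 4 * a 1 * z ^ 4)) ^ 2 -
      128 * (x ^ 4 * a 1 + a 1 * z ^ 4 + z ^ 4 * x ^ 4) * (x ^ 4 * a 1 * z ^ 4) ^ 2)) =
      3125 * ((x ^ 4 - z ^ 4) * ((((x ^ 4 * a 1 + a 1 * z ^ 4 + z ^ 4 * x ^ 4) ^ 2 -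
        4 * (x ^ 4 + a 1 + z ^ 4) * (x ^ 4 * a 1 * z ^ 4)) ^ 2 -
      128 * (x ^ 4 * a 1 + a 1 * z ^ 4 + z ^ 4 * x ^ 4) * (x ^ 4 * a 1 * z ^ 4) ^ 2))) := by ring
    rw [h5, ← h2, h4]
    have h6 : (x ^ 4 - z ^ 4) * (∏ i, ∏ j ∈ Finset.Ioi i, lin (v i) (v j)) ^ 2 =
      (∏ i, ∏ j ∈ Finset.Ioi i, lin (v i) (v j)) ^ 2 *
        (x ^ 4 * 1 ^ 5 + a 1 * 0 ^ 5 + z ^ 4 * (-(1 + 0)) ^ 5) := by ring
    rw [h6, h1]
    ring
  exact mul_left_cancel₀ (sub_ne_zero.2 h) h3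

/-- The second generic case. -/
theorem SYD_N1_gen' {a : Fin 3 → k} {v : Fin 5 → (Fin 2 → k)}
    (hF : ∀ u, (N1 a).1 u = ∏ i, lin (v i) u) (h : a 0 ≠ a 1) :
    (∏ i, ∏ j ∈ Finset.Ioi i, lin (v i) (v j)) ^ 2 = 3125 * D1 a := by
  obtain ⟨x, hx⟩ := IsAlgClosed.exists_pow_nat_eq (a 0) (n := 4) (by norm_num)
  obtain ⟨z, hz⟩ := IsAlgClosed.exists_pow_nat_eq (a 1) (n := 4) (by norm_num)
  obtain ⟨I, hI⟩ := SYD_exists_I (k := k)
  have h1 := SYD_N1_disc hF ![1, -1]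
    ![![z, -x], ![-z, -x], ![I * z, -x], ![-(I * z), -x]] 1 (by
      intro u
      simp only [Fin.prod_univ_four, lin, Matrix.cons_val_zero, Matrix.cons_val_one,
        Matrix.cons_val]
      rw [← hx, ← hz]
      linear_combination (z ^ 2 * (u 1) ^ 2 * x ^ 2 * u 0 ^ 2 -
        z ^ 4 * (u 1) ^ 4) * hI)
  simp only [Fin.prod_univ_four (M := k), N1_apply, Matrix.cons_val_zero, Matrix.cons_val_one,
    Matrix.cons_val] at h1
  have h2 := SYD_quad (x := -x) (z := z) (b := a 2) hI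
  have h4 := SYD_I4 (z := z) hI
  have h3 : (a 0 - a 1) * (∏ i, ∏ j ∈ Finset.Ioi i, lin (v i) (v j)) ^ 2 =
      (a 0 - a 1) * (3125 * D1 a) := by
    unfold D1
    rw [← hx, ← hz] at h1 ⊢
    have h5 : (x ^ 4 - z ^ 4) * (3125 * (((x ^ 4 * z ^ 4 + z ^ 4 * a 2 + a 2 * x ^ 4) ^ 2 -
        4 * (x ^ 4 + z ^ 4 + a 2) * (x ^ 4 * z ^ 4 * a 2)) ^ 2 -
      128 * (x ^ 4 * z ^ 4 + z ^ 4 * a 2 + a 2 * x ^ 4) * (x ^ 4 * z ^ 4 * a 2) ^ 2)) =
      3125 * (((-x) ^ 4 - z ^ 4) * (((((-x) ^ 4 * a 2 + a 2 * z ^ 4 + z ^ 4 * (-x) ^ 4) ^ 2 -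
        4 * ((-x) ^ 4 + a 2 + z ^ 4) * ((-x) ^ 4 * a 2 * z ^ 4)) ^ 2 -
      128 * ((-x) ^ 4 * a 2 + a 2 * z ^ 4 + z ^ 4 * (-x) ^ 4) * ((-x) ^ 4 * a 2 * z ^ 4) ^ 2))) := by
      ring
    rw [h5, ← h2, h4]
    have h6 : (x ^ 4 - z ^ 4) * (∏ i, ∏ j ∈ Finset.Ioi i, lin (v i) (v j)) ^ 2 =
      (∏ i, ∏ j ∈ Finset.Ioi i, lin (v i) (v j)) ^ 2 *
        (x ^ 4 * 1 ^ 5 + z ^ 4 * (-1) ^ 5 + a 2 * (-(1 + -1)) ^ 5) := by ring
    rw [h6, h1]
    ring
  exact mul_left_cancel₀ (sub_ne_zero.2 h) h3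

omit [IsAlgClosed k] [CharZero k] in
/-- The value at a root of a palindromic quadratic polynomial. -/
theorem SYD_palin {r S : k} (h : r ^ 2 - S * r + 1 = 0) :
    (r * (r + 1) * (r ^ 2 + r + 1)) * ((S - r) * ((S - r) + 1) * ((S - r) ^ 2 + (S - r) + 1)) =
      (S + 2) * (S + 1) ^ 2 := by
  have h1 : r * (S - r) = 1 := by linear_combination -h
  have e : (r * (r + 1) * (r ^ 2 + r + 1)) *
      ((S - r) * ((S - r) + 1) * ((S - r) ^ 2 + (S - r) + 1)) =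
      (r * (S - r)) * (r * (S - r) + S + 1) *
        ((r * (S - r)) ^ 2 + (r * (S - r)) * S + (S ^ 2 - 2 * (r * (S - r))) + r * (S - r) +
          S + 1) := by ring
  rw [e, h1]
  ring

theorem SYD_N1_eq {b : k} (hb : b ≠ 0) {v : Fin 5 → (Fin 2 → k)}
    (hF : ∀ u, (N1 (fun _ => b)).1 u = ∏ i, lin (v i) u) :
    (∏ i, ∏ j ∈ Finset.Ioi i, lin (v i) (v j)) ^ 2 = 3125 * D1 (fun _ => b) := by
  obtain ⟨r, hr⟩ := IsAlgClosed.exists_pow_nat_eq (6 : k) (n := 2) (by norm_num)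
  have hq : ∀ S : k, ∃ x : k, x ^ 2 - S * x + 1 = 0 := by
    intro S
    obtain ⟨y, hy⟩ := IsAlgClosed.exists_pow_nat_eq (S ^ 2 / 4 - 1 : k) (n := 2) (by norm_num)
    refine ⟨y + S / 2, ?_⟩
    have h4 : (4 : k) ≠ 0 := by norm_num
    have h2 : (2 : k) ≠ 0 := by norm_num
    field_simp at hy ⊢
    linear_combination hy
  obtain ⟨p, hp⟩ := hq (r - 4)
  obtain ⟨q, hq⟩ := hq (-r - 4)
  have h1 := SYD_N1_disc hF ![1, 1]
    ![![-p, -1], ![-(r - 4 - p), -1], ![-q, -1], ![-(-r - 4 - q), -1]] (-b) (by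
      intro u
      simp only [Fin.prod_univ_four, lin, Matrix.cons_val_zero, Matrix.cons_val_one,
        Matrix.cons_val]
      have e1 : (-p * u 1 - -1 * u 0) * (-(r - 4 - p) * u 1 - -1 * u 0) =
          u 0 ^ 2 - (r - 4) * u 0 * u 1 + u 1 ^ 2 := by
        linear_combination (- u 1 ^ 2) * hp
      have e2 : (-q * u 1 - -1 * u 0) * (-(-r - 4 - q) * u 1 - -1 * u 0) =
          u 0 ^ 2 - (-r - 4) * u 0 * u 1 + u 1 ^ 2 := by
        linear_combination (- u 1 ^ 2) * hq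
      have e3 : (-p * u 1 - -1 * u 0) * (-(r - 4 - p) * u 1 - -1 * u 0) *
          (-q * u 1 - -1 * u 0) * (-(-r - 4 - q) * u 1 - -1 * u 0) =
          (u 0 ^ 2 - (r - 4) * u 0 * u 1 + u 1 ^ 2) *
            (u 0 ^ 2 - (-r - 4) * u 0 * u 1 + u 1 ^ 2) := by
        rw [← e1, ← e2]; ring
      rw [e3]
      linear_combination (- b * u 0 ^ 2 * u 1 ^ 2) * hr)
  simp only [Fin.prod_univ_four (M := k), N1_apply, Matrix.cons_val_zero, Matrix.cons_val_one,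
    Matrix.cons_val] at h1
  have h2 := SYD_palin hp
  have h3 := SYD_palin hq
  have hval : ∀ x : k, b * (-x) ^ 5 + b * (-1) ^ 5 + b * (-(-x + -1)) ^ 5 =
      5 * b * (x * (x + 1) * (x ^ 2 + x + 1)) := by
    intro x; ring
  rw [hval, hval, hval, hval] at h1
  have h5 : (r - 4 + 2) * (r - 4 + 1) ^ 2 * ((-r - 4 + 2) * (-r - 4 + 1) ^ 2) = -18 := by
    have : (r - 4 + 2) * (r - 4 + 1) ^ 2 * ((-r - 4 + 2) * (-r - 4 + 1) ^ 2) =
      - (r ^ 2 - 4) * (r ^ 2 - 9) ^ 2 := by ring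
    rw [this, hr]
    norm_num
  have h6 : (-30 * b) * (∏ i, ∏ j ∈ Finset.Ioi i, lin (v i) (v j)) ^ 2 =
      (-30 * b) * (3125 * D1 (fun _ => b)) := by
    have h7 : (-30 * b) * (∏ i, ∏ j ∈ Finset.Ioi i, lin (v i) (v j)) ^ 2 =
      (∏ i, ∏ j ∈ Finset.Ioi i, lin (v i) (v j)) ^ 2 *
        (b * 1 ^ 5 + b * 1 ^ 5 + b * (-(1 + 1)) ^ 5) := by ring
    rw [h7, h1]
    have h8 : 3125 * (-b) ^ 5 * (5 * b * (p * (p + 1) * (p ^ 2 + p + 1)) *
        (5 * b * ((r - 4 - p) * (r - 4 - p + 1) * ((r - 4 - p) ^ 2 + (r - 4 - p) + 1))) *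
        (5 * b * (q * (q + 1) * (q ^ 2 + q + 1))) *
        (5 * b * ((-r - 4 - q) * (-r - 4 - q + 1) * ((-r - 4 - q) ^ 2 + (-r - 4 - q) + 1)))) =
      3125 * (-b) ^ 5 * 625 * b ^ 4 * ((p * (p + 1) * (p ^ 2 + p + 1) *
        ((r - 4 - p) * (r - 4 - p + 1) * ((r - 4 - p) ^ 2 + (r - 4 - p) + 1))) *
        (q * (q + 1) * (q ^ 2 + q + 1) *
        ((-r - 4 - q) * (-r - 4 - q + 1) * ((-r - 4 - q) ^ 2 + (-r - 4 - q) + 1)))) := by ring
    rw [h8, h2, h3, h5]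
    unfold D1
    ring
  refine mul_left_cancel₀ (mul_ne_zero (by norm_num) hb) h6

omit [IsAlgClosed k] in
/-- If a product of linear forms vanishes, then one of the linear forms does. -/
theorem SYD_zero_form {v : Fin 5 → (Fin 2 → k)} (hF : ∀ u, 0 = ∏ i, lin (v i) u) :
    ∃ i, v i = 0 := by
  have h1 : (∏ i, (Polynomial.C (v i 0) * Polynomial.X - Polynomial.C (v i 1)) : Polynomial k) = 0 := by
    apply Polynomial.funext
    intro t
    rw [Polynomial.eval_prod, Polynomial.eval_zero, hF ![1, t]]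
    refine Finset.prod_congr rfl fun i _ => ?_
    simp [lin]
  rw [Finset.prod_eq_zero_iff] at h1
  obtain ⟨i, _, h⟩ := h1
  refine ⟨i, ?_⟩
  have h0 := congrArg (fun q => Polynomial.coeff q 0) h
  have h2 := congrArg (fun q => Polynomial.coeff q 1) h
  simp at h0 h2
  funext j
  fin_cases j
  · exact h2
  · exact h0

omit [IsAlgClosed k] [CharZero k] in
theorem SYD_prod_zero {v : Fin 5 → (Fin 2 → k)} {i : Fin 5} (h : v i = 0) :
    (∏ i, ∏ j ∈ Finset.Ioi i, lin (v i) (v j)) = 0 := by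
  have h0 : ∀ w : Fin 2 → k, lin (0 : Fin 2 → k) w = 0 := fun w => by simp [lin]
  have h1 : ∀ w : Fin 2 → k, lin w (0 : Fin 2 → k) = 0 := fun w => by simp [lin]
  by_cases hi : i = 4
  · subst hi
    refine Finset.prod_eq_zero (Finset.mem_univ (0 : Fin 5)) ?_
    exact Finset.prod_eq_zero (i := (4 : Fin 5)) (by simp) (by rw [h, h1])
  · refine Finset.prod_eq_zero (Finset.mem_univ i) ?_
    refine Finset.prod_eq_zero (i := (4 : Fin 5)) ?_ (by rw [h, h0])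
    rw [Finset.mem_Ioi]
    exact lt_of_le_of_ne (Fin.le_last i) hi

/-- The square of the discriminant product for `N1`, for all factorisations. -/
theorem N1_prod {a : Fin 3 → k} {v : Fin 5 → (Fin 2 → k)}
    (hF : ∀ u, (N1 a).1 u = ∏ i, lin (v i) u) :
    (∏ i, ∏ j ∈ Finset.Ioi i, lin (v i) (v j)) ^ 2 = 3125 * D1 a := by
  by_cases h : a 0 = a 2
  · by_cases h' : a 0 = a 1
    · have ha : a = fun _ => a 0 := by
        funext i
        fin_cases i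
        · rfl
        · exact h'.symm
        · exact h.symm
      by_cases hb : a 0 = 0
      · have ha0 : a = fun _ => 0 := by rw [ha, hb]
        subst ha0
        obtain ⟨i, hi⟩ := SYD_zero_form (v := v) (by
          intro u
          rw [← hF u, N1_apply]
          ring)
        rw [SYD_prod_zero hi]
        unfold D1
        ring
      · rw [ha] at hF ⊢
        exact SYD_N1_eq hb hF
    · exact SYD_N1_gen' hF h'
  · exact SYD_N1_gen hF h

theorem N2_prod {a : k} {v : Fin 5 → (Fin 2 → k)}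
    (hF : ∀ u, (N2 a).1 u = ∏ i, lin (v i) u) :
    (∏ i, ∏ j ∈ Finset.Ioi i, lin (v i) (v j)) ^ 2 = 3125 * (a ^ 4 + 256) := by
  obtain ⟨z, hz⟩ := IsAlgClosed.exists_pow_nat_eq (-1 : k) (n := 4) (by norm_num)
  obtain ⟨I, hI⟩ := SYD_exists_I (k := k)
  have hg : ∀ u : Fin 2 → k, u 0 ^ 4 + u 1 ^ 4 = ∏ l, lin ((![![z, 1], ![-z, 1], ![I * z, 1],
      ![-(I * z), 1]] : Fin 4 → (Fin 2 → k)) l) u := by
    intro u
    simp only [Fin.prod_univ_four, lin, Matrix.cons_val_zero, Matrix.cons_val_one,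
      Matrix.cons_val]
    linear_combination (z ^ 2 * (u 1) ^ 2 * u 0 ^ 2 - z ^ 4 * (u 1) ^ 4) * hI + (u 1) ^ 4 * hz
  have h1 := Y5_disc hF ![1, 0] (fun i => 5 * (∏ l, lin ((![![z, 1], ![-z, 1], ![I * z, 1],
      ![-(I * z), 1]] : Fin 4 → (Fin 2 → k)) l) (v i)))
    (fun i => SYD_r 1 (v i 0) 1) (by
      intro i t
      have h0 := SYD_zero hF i
      rw [N2_apply] at h0
      rw [← hg, N2_apply, SYD_r_eval]
      simp only [Pi.add_apply, Pi.smul_apply, smul_eq_mul, Matrix.cons_val_zero,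
        Matrix.cons_val_one]
      linear_combination h0)
  rw [Finset.prod_mul_distrib, SYD_split hF, Finset.prod_const] at h1
  simp only [Fin.prod_univ_four (M := k), N2_apply, Matrix.cons_val_zero, Matrix.cons_val_one,
    Matrix.cons_val, Finset.card_univ, Fintype.card_fin] at h1
  have h2 : (∏ i, ∏ j ∈ Finset.Ioi i, lin (v i) (v j)) ^ 2 =
    (∏ i, ∏ j ∈ Finset.Ioi i, lin (v i) (v j)) ^ 2 * (1 ^ 5 + 5 * 1 * 0 ^ 4 + a * 0 ^ 5) := by ring
  rw [h2, h1]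
  have e1 : ∀ y : k, y ^ 4 = -1 → y ^ 5 + 5 * y * 1 ^ 4 + a * 1 ^ 5 = 4 * y + a := by
    intro y hy
    linear_combination y * hy
  have h4 := SYD_I4 (z := z) hI
  rw [e1 z hz, e1 (-z) (by linear_combination hz), e1 (I * z) (by rw [h4, hz]),
    e1 (-(I * z)) (by linear_combination h4 + hz)]
  have e2 : (4 * z + a) * (4 * -z + a) * (4 * (I * z) + a) * (4 * -(I * z) + a) =
      (a ^ 2 - 16 * z ^ 2) * (a ^ 2 - 16 * I ^ 2 * z ^ 2) := by ring
  rw [e2, hI]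
  linear_combination (-5 ^ 5 * 256) * hz

theorem N3_prod {v : Fin 5 → (Fin 2 → k)} (hF : ∀ u, (N3 k).1 u = ∏ i, lin (v i) u) :
    (∏ i, ∏ j ∈ Finset.Ioi i, lin (v i) (v j)) ^ 2 = 3125 := by
  have hg : ∀ u : Fin 2 → k, u 0 ^ 4 = ∏ l : Fin 4,
      lin ((fun _ => ![0, 1] : Fin 4 → (Fin 2 → k)) l) u := by
    intro u
    simp only [Fin.prod_univ_four, lin, Matrix.cons_val_zero, Matrix.cons_val_one]
    ring
  have h1 := Y5_disc hF ![1, 0] (fun i => 5 * (∏ l : Fin 4,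
      lin ((fun _ => ![0, 1] : Fin 4 → (Fin 2 → k)) l) (v i)))
    (fun i => SYD_r 1 (v i 0) 1) (by
      intro i t
      have h0 := SYD_zero hF i
      rw [N3_apply] at h0
      rw [← hg, N3_apply, SYD_r_eval]
      simp only [Pi.add_apply, Pi.smul_apply, smul_eq_mul, Matrix.cons_val_zero,
        Matrix.cons_val_one]
      linear_combination h0)
  rw [Finset.prod_mul_distrib, SYD_split hF, Finset.prod_const] at h1
  simp only [Fin.prod_univ_four (M := k), N3_apply, Matrix.cons_val_zero, Matrix.cons_val_one,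
    Finset.card_univ, Fintype.card_fin] at h1
  have h2 : (∏ i, ∏ j ∈ Finset.Ioi i, lin (v i) (v j)) ^ 2 =
    (∏ i, ∏ j ∈ Finset.Ioi i, lin (v i) (v j)) ^ 2 * (1 ^ 5 + 0 ^ 5) := by ring
  rw [h2, h1]
  norm_num

/-- The converse direction. -/
theorem SYD_mem {F : Form k 5} {P d : k} (hF : F ≠ 0)
    (h : ∀ v : Fin 5 → (Fin 2 → k), (∀ u, F.1 u = ∏ i, lin (v i) u) →
      (∏ i, ∏ j ∈ Finset.Ioi i, lin (v i) (v j)) ^ 2 = P) :
    (F, d) ∈ Y5 k ↔ d ≠ 0 ∧ d ^ 2 = P := by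
  constructor
  · intro hd
    refine ⟨Y5_ne hd, ?_⟩
    obtain ⟨v, _, h2, h3⟩ := hd
    have h3 : d = ∏ i, ∏ j ∈ Finset.Ioi i, lin (v i) (v j) := h3
    rw [h3]
    exact h v h2
  · rintro ⟨hd, hP⟩
    obtain ⟨v, _, hv⟩ := form5_split hF
    have h1 := h v hv
    have h2 : (∏ i, ∏ j ∈ Finset.Ioi i, lin (v i) (v j)) ≠ 0 := by
      intro h0
      rw [h0] at h1
      apply hd
      have : d ^ 2 = 0 := by rw [hP, ← h1]; ring
      simpa using this
    have h3 : (F, ∏ i, ∏ j ∈ Finset.Ioi i, lin (v i) (v j)) ∈ Y5 k := by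
      refine ⟨v, ?_, hv, rfl⟩
      have h4 : ∀ i j, i < j → lin (v i) (v j) ≠ 0 := by
        intro i j hij
        rw [Finset.prod_ne_zero_iff] at h2
        have := h2 i (Finset.mem_univ i)
        rw [Finset.prod_ne_zero_iff] at this
        exact this j (Finset.mem_Ioi.2 hij)
      intro i j hij
      rcases lt_or_gt_of_ne hij with h5 | h5
      · exact h4 i j h5
      · rw [SYD_lin_swap]
        exact neg_ne_zero.2 (h4 j i h5)
    rw [Y5_sq h3, hP, h1]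

theorem disc1 {a : Fin 3 → k} {d : k} :
    (N1 a, d) ∈ Y5 k ↔ d ≠ 0 ∧ d ^ 2 = 3125 * D1 a := by
  by_cases hF : N1 a = 0
  · have h1 : ∀ u : Fin 2 → k, a 0 * u 0 ^ 5 + a 1 * u 1 ^ 5 + a 2 * (-(u 0 + u 1)) ^ 5 = 0 := by
      intro u
      rw [← N1_apply, hF]
      rfl
    have h2 := h1 ![1, -1]
    have h3 := h1 ![1, 0]
    have h4 := h1 ![1, 1]
    simp only [Matrix.cons_val_zero, Matrix.cons_val_one] at h2 h3 h4
    have a2 : a 2 = 0 := by
      have : (-30 : k) * a 2 = 0 := by linear_combination h4 - 2 * h3 + h2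
      simpa using this
    have a0 : a 0 = 0 := by linear_combination h3 + a2
    have a1 : a 1 = 0 := by linear_combination a0 - h2
    constructor
    · rintro ⟨v, h5, h6, _⟩
      exfalso
      obtain ⟨i, hi⟩ := SYD_zero_form (v := v) (by
        intro u
        rw [← h6 u]
        show 0 = (N1 a).1 u
        rw [hF]
        rfl)
      have hne : i ≠ i + 1 := by
        intro h
        have := congrArg Fin.val h
        revert this
        fin_cases i <;> simp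
      apply h5 i (i + 1) hne
      rw [hi]
      simp [lin]
    · rintro ⟨hd, h⟩
      exfalso
      apply hd
      have : d ^ 2 = 0 := by
        rw [h]
        unfold D1
        rw [a0, a1, a2]
        ring
      simpa using this
  · exact SYD_mem hF fun v hv => N1_prod hv

theorem disc2 {a d : k} : (N2 a, d) ∈ Y5 k ↔ d ≠ 0 ∧ d ^ 2 = 3125 * (a ^ 4 + 256) := by
  refine SYD_mem ?_ fun v hv => N2_prod hv
  intro h
  have h1 : (N2 a).1 ![1, 0] = 0 := by rw [h]; rfl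
  rw [N2_apply] at h1
  simp at h1

theorem disc3 {d : k} : (N3 k, d) ∈ Y5 k ↔ d ^ 2 = 3125 := by
  have h0 : N3 k ≠ 0 := by
    intro h
    have h1 : (N3 k).1 ![1, 0] = 0 := by rw [h]; rfl
    rw [N3_apply] at h1
    simp at h1
  rw [SYD_mem h0 fun v hv => N3_prod hv]
  constructor
  · exact fun h => h.2
  · intro h
    refine ⟨?_, h⟩
    rintro rfl
    norm_num at h

end Pool.Agent.MRat
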