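import Pool.Agent.Lib.MP_923aff_ag.TDefs
/-!
# JOB SYF: the base spaces of the three normal forms of quintic forms

`base1`: the quotient by the permutations is given by the elementary symmetric functions `s1, s2, s3` of `a`; the condition is `s3 ≠ 0`,
`s3² = 3125 ((s2² - 4 s1 s3)² - 128 s2 s3²)`; with `w = s2² - 4 s1 s3` this is `s2 = (w² - s3² / 3125) / (128 s3²)`,
`s1 = (s2² - w) / (4 s3)`, so `a ↦ (w, s3)` identifies the quotient with `k × kˣ` (surjectivity: three roots of a cubic polynomial).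
`base2`: `a = 0`: the two values of `d` form one orbit; `a ≠ 0`: the invariants `z = a ^ 4`, `w = a ^ 2 * d` satisfy `w ^ 2 = 3125 z (z + 256)`, `z ≠ 0`,
`w ≠ 0`; with `s = w / z`, `s² z = 3125 (z + 256)`, i.e. `z = 800000 / (s² - 3125)`: `s` is any element with `s² ≠ 3125`, `s ≠ 0`: class `L - 3`.
-/

set_option autoImplicit false

namespace Pool.Agent.MRat

open scoped MatrixGroups LinearAlgebra.Projectivization

variable {k : Type} [Field k] [IsAlgClosed k] [CharZero k]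
variable {F : Type} [Group F]
variable {V : Type} [AddCommGroup V] [Module k V] [DT k V] [FDM k V]

/-- The linear action of a representation. -/
@[simps] def VRep (ρ : Representation k F V) : FAct k F V where
  a g v := ρ g v
  a_one v := by simp
  a_mul g h v := by simp
  d g := lin_dm (ρ g)

/-- The base space of `N1`. -/
def B1 (k : Type) [Field k] [IsAlgClosed k] [CharZero k] : Set (Fin 3 → k) :=
  {a | (∀ i, a i ≠ 0) ∧ (a 0 * a 1 * a 2) ^ 2 = 3125 * D1 a}

private def SYFe1 (a : Fin 3 → k) : k := a 0 + a 1 + a 2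
private def SYFe2 (a : Fin 3 → k) : k := a 0 * a 1 + a 1 * a 2 + a 2 * a 0
private def SYFe3 (a : Fin 3 → k) : k := a 0 * a 1 * a 2
private def SYFw (a : Fin 3 → k) : k := SYFe2 a ^ 2 - 4 * SYFe1 a * SYFe3 a

private theorem SYF_inv (σ : Equiv.Perm (Fin 3)) (a : Fin 3 → k) :
    SYFe1 (permRep k 3 σ a) = SYFe1 a ∧ SYFe2 (permRep k 3 σ a) = SYFe2 a ∧
      SYFe3 (permRep k 3 σ a) = SYFe3 a := by
  have h1 : SYFe1 (permRep k 3 σ a) = SYFe1 a := by
    have h := Equiv.sum_comp (σ⁻¹ : Equiv.Perm (Fin 3)) (fun i => a i)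
    rw [Fin.sum_univ_three, Fin.sum_univ_three] at h
    exact h
  have h3 : SYFe3 (permRep k 3 σ a) = SYFe3 a := by
    have h := Equiv.prod_comp (σ⁻¹ : Equiv.Perm (Fin 3)) (fun i => a i)
    rw [Fin.prod_univ_three, Fin.prod_univ_three] at h
    exact h
  refine ⟨h1, ?_, h3⟩
  have h := Equiv.sum_comp (σ⁻¹ : Equiv.Perm (Fin 3)) (fun i => a i ^ 2)
  rw [Fin.sum_univ_three, Fin.sum_univ_three] at h
  have h' : permRep k 3 σ a 0 ^ 2 + permRep k 3 σ a 1 ^ 2 + permRep k 3 σ a 2 ^ 2 =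
      a 0 ^ 2 + a 1 ^ 2 + a 2 ^ 2 := h
  have h1' : permRep k 3 σ a 0 + permRep k 3 σ a 1 + permRep k 3 σ a 2 = a 0 + a 1 + a 2 := h1
  have h2 : (2 : k) * SYFe2 (permRep k 3 σ a) = 2 * SYFe2 a := by
    unfold SYFe2
    linear_combination (permRep k 3 σ a 0 + permRep k 3 σ a 1 + permRep k 3 σ a 2 +
      (a 0 + a 1 + a 2)) * h1' - h'
  exact mul_left_cancel₀ two_ne_zero h2

omit [IsAlgClosed k] [CharZero k] in
private theorem SYF_six {a b c x y z : k} (h1 : x + y + z = a + b + c)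
    (h2 : x * y + y * z + z * x = a * b + b * c + c * a) (h3 : x * y * z = a * b * c) :
    (x = a ∧ y = b ∧ z = c) ∨ (x = a ∧ y = c ∧ z = b) ∨ (x = b ∧ y = a ∧ z = c) ∨
      (x = b ∧ y = c ∧ z = a) ∨ (x = c ∧ y = a ∧ z = b) ∨ (x = c ∧ y = b ∧ z = a) := by
  have hx : (x - a) * ((x - b) * (x - c)) = 0 := by
    linear_combination x ^ 2 * h1 - x * h2 + h3
  rcases mul_eq_zero.1 hx with hx | hx
  · have hx' : x = a := sub_eq_zero.1 hx
    subst hx'
    have hy : (y - b) * (y - c) = 0 := by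
      linear_combination (y + x) * h1 - h2
    rcases mul_eq_zero.1 hy with hy | hy
    · have hy' := sub_eq_zero.1 hy
      subst hy'
      exact Or.inl ⟨rfl, rfl, by linear_combination h1⟩
    · have hy' := sub_eq_zero.1 hy
      subst hy'
      exact Or.inr (Or.inl ⟨rfl, rfl, by linear_combination h1⟩)
  rcases mul_eq_zero.1 hx with hx | hx
  · have hx' : x = b := sub_eq_zero.1 hx
    subst hx'
    have hy : (y - a) * (y - c) = 0 := by
      linear_combination (y + x) * h1 - h2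
    rcases mul_eq_zero.1 hy with hy | hy
    · have hy' := sub_eq_zero.1 hy
      subst hy'
      exact Or.inr (Or.inr (Or.inl ⟨rfl, rfl, by linear_combination h1⟩))
    · have hy' := sub_eq_zero.1 hy
      subst hy'
      exact Or.inr (Or.inr (Or.inr (Or.inl ⟨rfl, rfl, by linear_combination h1⟩)))
  · have hx' : x = c := sub_eq_zero.1 hx
    subst hx'
    have hy : (y - a) * (y - b) = 0 := by
      linear_combination (y + x) * h1 - h2
    rcases mul_eq_zero.1 hy with hy | hy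
    · have hy' := sub_eq_zero.1 hy
      subst hy'
      exact Or.inr (Or.inr (Or.inr (Or.inr (Or.inl ⟨rfl, rfl, by linear_combination h1⟩))))
    · have hy' := sub_eq_zero.1 hy
      subst hy'
      exact Or.inr (Or.inr (Or.inr (Or.inr (Or.inr ⟨rfl, rfl, by linear_combination h1⟩))))

private theorem SYF_rel {a b : Fin 3 → k} (h1 : SYFe1 b = SYFe1 a) (h2 : SYFe2 b = SYFe2 a)
    (h3 : SYFe3 b = SYFe3 a) : (VRep (permRep k 3)).rel a b := by
  have key : ∀ i j l : Fin 3, (∃ σ : Equiv.Perm (Fin 3), σ 0 = i ∧ σ 1 = j ∧ σ 2 = l) →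
      b 0 = a i ∧ b 1 = a j ∧ b 2 = a l → (VRep (permRep k 3)).rel a b := by
    rintro i j l ⟨σ, rfl, rfl, rfl⟩ ⟨e0, e1, e2⟩
    refine ⟨σ⁻¹, ?_⟩
    funext m
    show a (σ⁻¹⁻¹ m) = b m
    rw [inv_inv]
    fin_cases m
    · exact e0.symm
    · exact e1.symm
    · exact e2.symm
  rcases SYF_six h1 h2 h3 with h | h | h | h | h | h
  · exact key 0 1 2 (by decide) h
  · exact key 0 2 1 (by decide) h
  · exact key 1 0 2 (by decide) h
  · exact key 1 2 0 (by decide) h
  · exact key 2 0 1 (by decide) h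
  · exact key 2 1 0 (by decide) h

omit [CharZero k] in
/-- Triples with given elementary symmetric functions. -/
private theorem SYF_ex (s1 s2 s3 : k) : ∃ a : Fin 3 → k, SYFe1 a = s1 ∧ SYFe2 a = s2 ∧
    SYFe3 a = s3 := by
  obtain ⟨x, hx⟩ := IsAlgClosed.exists_root
    (Polynomial.X ^ 3 - Polynomial.C s1 * Polynomial.X ^ 2 + Polynomial.C s2 * Polynomial.X -
      Polynomial.C s3 : Polynomial k) (by
      have h : (Polynomial.X ^ 3 - Polynomial.C s1 * Polynomial.X ^ 2 +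
        Polynomial.C s2 * Polynomial.X - Polynomial.C s3 : Polynomial k).degree = 3 := by
        compute_degree!
      rw [h]
      decide)
  obtain ⟨y, hy⟩ := IsAlgClosed.exists_root
    (Polynomial.X ^ 2 - Polynomial.C (s1 - x) * Polynomial.X + Polynomial.C (s2 - x * (s1 - x)) :
      Polynomial k) (by
      have h : (Polynomial.X ^ 2 - Polynomial.C (s1 - x) * Polynomial.X +
        Polynomial.C (s2 - x * (s1 - x)) : Polynomial k).degree = 2 := by
        compute_degree!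
      rw [h]
      decide)
  simp only [Polynomial.IsRoot.def, Polynomial.eval_sub, Polynomial.eval_add, Polynomial.eval_mul,
    Polynomial.eval_pow, Polynomial.eval_X, Polynomial.eval_C] at hx hy
  refine ⟨![x, y, s1 - x - y], ?_, ?_, ?_⟩
  · show x + y + (s1 - x - y) = s1
    ring
  · show x * y + y * (s1 - x - y) + (s1 - x - y) * x = s2
    linear_combination -hy
  · show x * y * (s1 - x - y) = s3
    linear_combination -x * hy + hx

private theorem SYF_D1 (a : Fin 3 → k) :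
    D1 a = SYFw a ^ 2 - 128 * SYFe2 a * SYFe3 a ^ 2 := rfl

private theorem SYF_mem {a : Fin 3 → k} : a ∈ B1 k ↔
    SYFe3 a ≠ 0 ∧ SYFe3 a ^ 2 = 3125 * (SYFw a ^ 2 - 128 * SYFe2 a * SYFe3 a ^ 2) := by
  constructor
  · rintro ⟨h1, h2⟩
    exact ⟨mul_ne_zero (mul_ne_zero (h1 0) (h1 1)) (h1 2), h2⟩
  · rintro ⟨h1, h2⟩
    refine ⟨fun i hi => h1 ?_, h2⟩
    unfold SYFe3
    fin_cases i
    · have hi' : a 0 = 0 := hi
      rw [hi', zero_mul, zero_mul]
    · have hi' : a 1 = 0 := hi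
      rw [hi', mul_zero, zero_mul]
    · have hi' : a 2 = 0 := hi
      rw [hi', mul_zero]

theorem B1_st : (VRep (permRep k 3)).St (B1 k) where
  ds := by
    have h : DM k (fun a : Fin 3 → k => (∀ i, a i ≠ 0) ∧ (a 0 * a 1 * a 2) ^ 2 = 3125 *
      (((a 0 * a 1 + a 1 * a 2 + a 2 * a 0) ^ 2 -
        4 * (a 0 + a 1 + a 2) * (a 0 * a 1 * a 2)) ^ 2 -
      128 * (a 0 * a 1 + a 1 * a 2 + a 2 * a 0) * (a 0 * a 1 * a 2) ^ 2)) := by
      refine DM.and (DM.fall fun i => ?_) (by fun_prop)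
      fun_prop
    exact h
  st := by
    intro σ a ha
    rw [SYF_mem] at ha ⊢
    show SYFe3 (permRep k 3 σ a) ≠ 0 ∧ SYFe3 (permRep k 3 σ a) ^ 2 =
      3125 * (SYFw (permRep k 3 σ a) ^ 2 - 128 * SYFe2 (permRep k 3 σ a) *
        SYFe3 (permRep k 3 σ a) ^ 2)
    obtain ⟨h1, h2, h3⟩ := SYF_inv σ a
    unfold SYFw at ha ⊢
    rw [h1, h2, h3]
    exact ha

theorem base1 : fcl (VRep (permRep k 3)) (B1 k) = (L ^ 2 - L) • ptc k := by
  have hP : PolyCl k ((Set.univ : Set k) ×ˢ ({x | x ≠ 0} : Set k)) (L ^ 2 - L) :=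
    (PolyCl.prod PolyCl.univ_k PolyCl.ne_zero).cast (by ring)
  rw [← hP.cl]
  have hw : DM k (fun a : Fin 3 → k => (SYFw a, SYFe3 a)) := by
    unfold SYFw SYFe1 SYFe2 SYFe3
    fun_prop
  refine clq_map B1_st.dq (DQ.eq hP.ds) (fun a => (SYFw a, SYFe3 a)) hw ?_ ?_ ?_
  · intro a ha
    exact ⟨trivial, (SYF_mem.1 ha).1⟩
  · intro a ha b hb
    constructor
    · rintro ⟨σ, rfl⟩
      obtain ⟨h1, h2, h3⟩ := SYF_inv σ a
      show (SYFw a, SYFe3 a) = (SYFw (permRep k 3 σ a), SYFe3 (permRep k 3 σ a))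
      unfold SYFw
      rw [h1, h2, h3]
    · intro h
      obtain ⟨hw, h3⟩ := Prod.mk.injEq _ _ _ _ ▸ h
      obtain ⟨ha0, ha1⟩ := SYF_mem.1 ha
      obtain ⟨hb0, hb1⟩ := SYF_mem.1 hb
      rw [← hw, ← h3] at hb1
      have e2 : SYFe2 b = SYFe2 a := by
        have h4 : (3125 * 128 * SYFe3 a ^ 2) * SYFe2 b = (3125 * 128 * SYFe3 a ^ 2) * SYFe2 a := by
          linear_combination hb1 - ha1
        exact mul_left_cancel₀ (mul_ne_zero (by norm_num) (pow_ne_zero 2 ha0)) h4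
      have e1 : SYFe1 b = SYFe1 a := by
        have h4 : (4 * SYFe3 a) * SYFe1 b = (4 * SYFe3 a) * SYFe1 a := by
          unfold SYFw at hw
          rw [e2, ← h3] at hw
          linear_combination hw
        exact mul_left_cancel₀ (mul_ne_zero (by norm_num) ha0) h4
      exact SYF_rel e1 e2 h3.symm
  · rintro ⟨w, t⟩ ⟨-, ht⟩
    have ht0 : t ≠ 0 := ht
    obtain ⟨a, h1, h2, h3⟩ := SYF_ex (k := k)
      ((((w ^ 2 - t ^ 2 / 3125) / (128 * t ^ 2)) ^ 2 - w) / (4 * t))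
      ((w ^ 2 - t ^ 2 / 3125) / (128 * t ^ 2)) t
    have hwa : SYFw a = w := by
      unfold SYFw
      rw [h1, h2, h3]
      field_simp
      ring
    refine ⟨a, ?_, ?_⟩
    · rw [SYF_mem, hwa, h2, h3]
      refine ⟨ht0, ?_⟩
      field_simp
      ring
    · show (SYFw a, SYFe3 a) = (w, t)
      rw [hwa, h3]

/-- The action of the fourth roots of unity on the base space of `N2`. -/
@[simps] def A2 (k : Type) [Field k] [IsAlgClosed k] [CharZero k] :
    FAct k (rootsOfUnity 4 k) (k × k) where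
  a z p := (((z⁻¹ : rootsOfUnity 4 k) : kˣ) * p.1, ((z⁻¹ : rootsOfUnity 4 k) : kˣ) ^ 2 * p.2)
  a_one p := by simp
  a_mul g h p := by
    ext
    · simp [mul_comm, mul_left_comm]
    · simp [mul_pow, mul_comm, mul_left_comm]
  d g := by fun_prop

/-- The base space of `N2`. -/
def B2 (k : Type) [Field k] : Set (k × k) :=
  {p | p.2 ≠ 0 ∧ p.2 ^ 2 = 3125 * (p.1 ^ 4 + 256)}

private theorem SYF_root (z : rootsOfUnity 4 k) : (((z : kˣ) : k)) ^ 4 = 1 := by
  have h := z.2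
  rw [mem_rootsOfUnity] at h
  have h1 := congrArg (fun u : kˣ => (u : k)) h
  simpa using h1

private theorem SYF_mk {c : k} (hc : c ^ 4 = 1) : ∃ z : rootsOfUnity 4 k, ((z : kˣ) : k) = c := by
  have h0 : c ≠ 0 := by
    rintro rfl
    norm_num at hc
  refine ⟨⟨Units.mk0 c h0, ?_⟩, rfl⟩
  rw [mem_rootsOfUnity]
  apply Units.ext
  simpa using hc

theorem B2_st : (A2 k).St (B2 k) where
  ds := by
    have h : DM k (fun p : k × k => p.2 ≠ 0 ∧ p.2 ^ 2 = 3125 * (p.1 ^ 4 + 256)) := by fun_prop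
    exact h
  st := by
    rintro z ⟨a, d⟩ ⟨h1, h2⟩
    have h3 := SYF_root z⁻¹
    dsimp only at h1 h2
    refine ⟨mul_ne_zero (pow_ne_zero _ (Units.ne_zero _)) h1, ?_⟩
    show (((z⁻¹ : rootsOfUnity 4 k) : kˣ) ^ 2 * d : k) ^ 2 =
      3125 * ((((z⁻¹ : rootsOfUnity 4 k) : kˣ) * a : k) ^ 4 + 256)
    linear_combination (d ^ 2 - 3125 * a ^ 4) * h3 + h2

private theorem SYF_rel2 {a d a' d' : k} (c : k) (hc : c ^ 4 = 1) (h1 : a' = c * a)
    (h2 : d' = c ^ 2 * d) : (A2 k).rel (a, d) (a', d') := by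
  obtain ⟨z, hz⟩ := SYF_mk hc
  refine ⟨z⁻¹, ?_⟩
  rw [A2_a, inv_inv, hz, h1, h2]

private theorem SYF_sqrt : ∃ c : k, c ^ 2 = 3125 ∧ c ≠ 0 := by
  obtain ⟨c, hc⟩ := IsAlgClosed.exists_pow_nat_eq (3125 : k) (n := 2) (by norm_num)
  refine ⟨c, hc, ?_⟩
  rintro rfl
  norm_num at hc

private theorem SYF_two : PolyCl k ({d | d ^ 2 = 3125} : Set k) 2 := by
  obtain ⟨c, hc, hc0⟩ := SYF_sqrt (k := k)
  have h := PolyCl.union (PolyCl.singleton (k := k) c) (PolyCl.singleton (k := k) (-c)) (by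
    rw [Set.disjoint_singleton]
    intro h
    have h1 : 2 * c = 0 := by linear_combination h
    exact hc0 ((mul_eq_zero.1 h1).resolve_left two_ne_zero))
  have e : ({d | d ^ 2 = 3125} : Set k) = {c} ∪ {-c} := by
    ext d
    simp only [Set.mem_setOf_eq, Set.mem_union, Set.mem_singleton_iff]
    rw [← hc, sq_eq_sq_iff_eq_or_eq_neg]
  rw [e]
  exact h.cast (by norm_num)

theorem base2 : fcl (A2 k) (B2 k) = (L - 2) • ptc k := by
  have hst : (A2 k).St {p : k × k | p.1 = 0 ∧ p.2 ^ 2 = 3125 * 256} :=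
    { ds := by
        have h : DM k (fun p : k × k => p.1 = 0 ∧ p.2 ^ 2 = 3125 * 256) := by fun_prop
        exact h
      st := by
        rintro z ⟨a, d⟩ ⟨h1, h2⟩
        have h3 := SYF_root z⁻¹
        dsimp only at h1 h2
        refine ⟨?_, ?_⟩
        · show (((z⁻¹ : rootsOfUnity 4 k) : kˣ) * a : k) = 0
          rw [h1, mul_zero]
        · show (((z⁻¹ : rootsOfUnity 4 k) : kˣ) ^ 2 * d : k) ^ 2 = 3125 * 256
          linear_combination d ^ 2 * h3 + h2 }
  have hsub : {p : k × k | p.1 = 0 ∧ p.2 ^ 2 = 3125 * 256} ⊆ B2 k := by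
    rintro ⟨a, d⟩ ⟨h1, h2⟩
    dsimp only at h1 h2
    refine ⟨?_, ?_⟩
    · intro h
      have h' : d = 0 := h
      rw [h'] at h2
      norm_num at h2
    · show d ^ 2 = 3125 * (a ^ 4 + 256)
      rw [h1, h2]
      ring
  rw [fcl_split B2_st hst hsub]
  have hone : fcl (A2 k) {p : k × k | p.1 = 0 ∧ p.2 ^ 2 = 3125 * 256} = ptc k := by
    obtain ⟨c, hc⟩ := IsAlgClosed.exists_pow_nat_eq (3125 * 256 : k) (n := 2) (by norm_num)
    refine clq_one_class hst.dq (0, c) ⟨rfl, hc⟩ ?_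
    rintro ⟨a, d⟩ ⟨h1, h2⟩
    dsimp only at h1 h2
    subst h1
    have h3 : d ^ 2 = c ^ 2 := by rw [h2, hc]
    rcases sq_eq_sq_iff_eq_or_eq_neg.1 h3 with h4 | h4
    · exact SYF_rel2 1 (by norm_num) (by ring) (by rw [h4]; ring)
    · obtain ⟨i, hi⟩ := IsAlgClosed.exists_pow_nat_eq (-1 : k) (n := 2) (by norm_num)
      refine SYF_rel2 i ?_ (by ring) (by rw [h4, hi]; ring)
      calc i ^ 4 = (i ^ 2) ^ 2 := by ring
        _ = 1 := by rw [hi]; norm_num
  have hP : PolyCl k ((Set.univ : Set k) \ ({d | d ^ 2 = 3125} ∪ {0})) (L - 3) := by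
    have h1 := PolyCl.union (SYF_two (k := k)) (PolyCl.singleton (k := k) (0 : k)) (by
      rw [Set.disjoint_singleton_right]
      intro h
      have h' : (0 : k) ^ 2 = 3125 := h
      norm_num at h')
    exact (PolyCl.diff PolyCl.univ_k h1 (Set.subset_univ _)).cast (by ring)
  have hthree : fcl (A2 k) (B2 k \ {p : k × k | p.1 = 0 ∧ p.2 ^ 2 = 3125 * 256}) =
      (L - 3) • ptc k := by
    rw [← hP.cl]
    have hmem : ∀ p : k × k, p ∈ B2 k \ {p : k × k | p.1 = 0 ∧ p.2 ^ 2 = 3125 * 256} ↔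
        p.1 ≠ 0 ∧ p.2 ≠ 0 ∧ p.2 ^ 2 = 3125 * (p.1 ^ 4 + 256) := by
      rintro ⟨a, d⟩
      constructor
      · rintro ⟨⟨h1, h2⟩, h3⟩
        dsimp only at h1 h2 ⊢
        refine ⟨?_, h1, h2⟩
        rintro rfl
        exact h3 ⟨rfl, by show d ^ 2 = 3125 * 256; rw [h2]; ring⟩
      · rintro ⟨h1, h2, h3⟩
        exact ⟨⟨h2, h3⟩, fun h => h1 h.1⟩
    have hf : DM k (fun p : k × k => p.2 / p.1 ^ 2) := by fun_prop
    refine clq_map (B2_st.diff hst).dq (DQ.eq hP.ds) (fun p => p.2 / p.1 ^ 2) hf ?_ ?_ ?_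
    · rintro ⟨a, d⟩ hp
      obtain ⟨h1, h2, h3⟩ := (hmem _).1 hp
      dsimp only at h1 h2 h3 ⊢
      refine ⟨trivial, ?_⟩
      rintro (h | h)
      · have h' : (d / a ^ 2) ^ 2 = 3125 := h
        rw [div_pow, div_eq_iff (pow_ne_zero _ (pow_ne_zero _ h1)), h3] at h'
        have h4 : (3125 * 256 : k) = 0 := by linear_combination h'
        norm_num at h4
      · have h' : d / a ^ 2 = 0 := h
        exact div_ne_zero h2 (pow_ne_zero _ h1) h'
    · rintro ⟨a, d⟩ hp ⟨a', d'⟩ hq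
      obtain ⟨h1, h2, h3⟩ := (hmem _).1 hp
      obtain ⟨h1', h2', h3'⟩ := (hmem _).1 hq
      dsimp only at h1 h2 h3 h1' h2' h3' ⊢
      constructor
      · rintro ⟨z, hz⟩
        rw [A2_a, Prod.mk.injEq] at hz
        rw [← hz.1, ← hz.2]
        have h4 : (((z⁻¹ : rootsOfUnity 4 k) : kˣ) : k) ≠ 0 := Units.ne_zero _
        rw [mul_pow, mul_div_mul_left _ _ (pow_ne_zero _ h4)]
      · intro h
        -- `a' = c a`
        set t := d / a ^ 2 with ht
        have e1 : d = t * a ^ 2 := by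
          rw [ht]
          field_simp
        have e2 : d' = t * a' ^ 2 := by
          rw [h]
          field_simp
        have e3 : (t ^ 2 - 3125) * a ^ 4 = 3125 * 256 := by
          rw [e1] at h3
          linear_combination h3
        have e4 : (t ^ 2 - 3125) * a' ^ 4 = 3125 * 256 := by
          rw [e2] at h3'
          linear_combination h3'
        have e5 : t ^ 2 - 3125 ≠ 0 := by
          intro h5
          rw [h5, zero_mul] at e3
          norm_num at e3
        have e6 : a' ^ 4 = a ^ 4 := mul_left_cancel₀ e5 (e4.trans e3.symm)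
        refine SYF_rel2 (a' / a) ?_ (by field_simp) ?_
        · rw [div_pow, e6, div_self (pow_ne_zero _ h1)]
        · rw [e1, e2]
          field_simp
    · rintro t ⟨-, ht⟩
      have ht1 : t ^ 2 ≠ 3125 := fun h => ht (Or.inl h)
      have ht0 : t ≠ 0 := fun h => ht (Or.inr h)
      have ht2 : t ^ 2 - 3125 ≠ 0 := sub_ne_zero.2 ht1
      obtain ⟨a, ha⟩ := IsAlgClosed.exists_pow_nat_eq (3125 * 256 / (t ^ 2 - 3125) : k) (n := 4)
        (by norm_num)
      have ha' : (t ^ 2 - 3125) * a ^ 4 = 3125 * 256 := by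
        rw [ha]
        field_simp
      have ha0 : a ≠ 0 := by
        rintro rfl
        norm_num at ha'
      refine ⟨(a, t * a ^ 2), (hmem _).2 ⟨ha0, mul_ne_zero ht0 (pow_ne_zero _ ha0), ?_⟩, ?_⟩
      · show (t * a ^ 2) ^ 2 = 3125 * (a ^ 4 + 256)
        linear_combination ha'
      · show t * a ^ 2 / a ^ 2 = t
        field_simp
  rw [hone, hthree]
  have e : (L - 2 : Polynomial ℤ) = 1 + (L - 3) := by ring
  rw [e, add_smul, one_smul]

theorem base3 : cl k {d : k | d ^ 2 = 3125} = (2 : Polynomial ℤ) • ptc k := SYF_two.cl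

end Pool.Agent.MRat
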