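import Pool.Agent.Lib.MP_923aff_ag.TPA
import Pool.Agent.Lib.MP_923aff_ag.QA
/-!
# JOB TPC: five points and a further point; projective classes of quintuples

`E5_split`: if the further point is not one of the five, move it to `∞` (the elements of `PGL₂` fixing `∞` are the affine maps,
`fix_ptI`; the other points are `ptz (a i)`): class `clq (InjT 5) relAA`. If it is one of the five, an even permutation moves it
to the last place, then move it to `∞`: class `clq (InjT 4) relAA` (even permutations of five fixing the last one =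
even permutations of four).
`P5_cl`: the map `{a | Σ a = 0, a ≠ 0} × k → P(k⁵)`, `(a, e) ↦ [a + e]` and `line_DT` with the arrows
`R a a' c ↔ ∃ σ even, a' = c • a ∘ σ` (finite isotropy: `c` is a root of unity of bounded order) give `L •` the class of
`{a | Σ a = 0, a ≠ 0}` up to scaling and even permutations, which is `clq (NC 5) relAA` (centre the tuple).
-/

set_option autoImplicit false

namespace Pool.Agent.MRat

open scoped MatrixGroups LinearAlgebra.Projectivization

variable {k : Type} [Field k] [IsAlgClosed k] [CharZero k]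

private theorem TPC_inj_dm {X Y : Type} [DT k X] [DT k Y] {n : ℕ} {f : X → Fin n → Y}
    (hf : DM k f) : DM k (fun x => Function.Injective (f x)) := by
  have h1 : DM k (fun x => ∀ i j : Fin n, f x i = f x j → i = j) := by
    refine DM.fall (fun i => DM.fall (fun j => DM.imp ?_ (DM.const' _)))
    exact DM.eq (DM.comp (DM.apply i) hf) (DM.comp (DM.apply j) hf)
  refine h1.congr_iff (fun x => ?_)
  exact ⟨fun h i j hij => h i j hij, fun h i j hij => h hij⟩

private theorem TPC_ptz_dm {X : Type} [DT k X] {f : X → k} (hf : DM k f) :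
    DM k (fun x => ptz (f x)) := by
  unfold ptz
  refine DM.pmk ?_ _
  refine DM.pi (fun i => ?_)
  fin_cases i
  · exact hf
  · exact DM.const' 1

private theorem TPC_ai {n : ℕ} (σ : Equiv.Perm (Fin n)) (i : Fin n) : σ (σ⁻¹ i) = i :=
  Equiv.apply_symm_apply σ i

private theorem TPC_ia {n : ℕ} (σ : Equiv.Perm (Fin n)) (i : Fin n) : σ⁻¹ (σ i) = i :=
  Equiv.symm_apply_apply σ i

theorem E5_dq : DQ k (E5 k) (relGA k) where
  ds := TPC_inj_dm (DM.fst DM.id')
  dr := by
    have h1 : DM k (fun p : ((Fin 5 → PL k) × PL k) × ((Fin 5 → PL k) × PL k) =>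
        Function.Injective p.1.1) := TPC_inj_dm (by fun_prop)
    have h2 : DM k (fun p : ((Fin 5 → PL k) × PL k) × ((Fin 5 → PL k) × PL k) =>
        Function.Injective p.2.1) := TPC_inj_dm (by fun_prop)
    refine DM.and h1 (DM.and h2 ?_)
    refine DM.ex (P := fun (p : ((Fin 5 → PL k) × PL k) × ((Fin 5 → PL k) × PL k))
      (g : PGL(2, k)) => ∃ σ : Equiv.Perm (Fin 5), σ ∈ alternatingGroup (Fin 5) ∧
      (∀ i, p.2.1 i = g • p.1.1 (σ i)) ∧ p.2.2 = g • p.1.2) ?_
    refine DM.fex (fun σ => DM.and (DM.const' _) (DM.and (DM.fall (fun i => ?_)) ?_))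
    · fun_prop
    · fun_prop
  refl := fun p _ => ⟨1, 1, one_mem _, fun i => by simp, by simp⟩
  symm := by
    rintro p _ q _ ⟨g, σ, hσ, h1, h2⟩
    refine ⟨g⁻¹, σ⁻¹, inv_mem hσ, fun i => ?_, ?_⟩
    · rw [h1, inv_smul_smul, TPC_ai]
    · rw [h2, inv_smul_smul]
  trans := by
    rintro p _ q _ r _ ⟨g, σ, hσ, h1, h2⟩ ⟨g', σ', hσ', h1', h2'⟩
    refine ⟨g' * g, σ * σ', mul_mem hσ hσ', fun i => ?_, ?_⟩
    · rw [h1', h1, mul_smul, Equiv.Perm.mul_apply]
    · rw [h2', h2, mul_smul]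

private theorem TPC_affP_ptz (a : kˣ) (b z : k) : affP a b • ptz z = ptz (a * z + b) := by
  rw [affP_eq_gm, gm_smul_ptz _ (by simp)]
  congr 1
  simp

private theorem TPC_affP_ptI (a : kˣ) (b : k) : affP a b • ptI k = ptI k := by
  rw [affP_eq_gm]
  exact gm_smul_ptI' _ rfl

private theorem TPC_fix {g : PGL(2, k)} (h : ptI k = g • ptI k) :
    ∃ (a : kˣ) (b : k), g = affP a b := by
  obtain ⟨a, b, ha, rfl⟩ := fix_ptI h.symm
  exact ⟨Units.mk0 a ha, b, rfl⟩

private theorem TPC_move (q : PL k) : ∃ g : PGL(2, k), g • ptI k = q := by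
  by_cases hz : q = ptI k
  · exact ⟨1, by rw [one_smul, hz]⟩
  · obtain ⟨g, h1, -⟩ := trans_two hz
    exact ⟨g, h1⟩

/-- Points different from `q` in the coordinate with `q` at infinity. -/
private theorem TPC_coord {g : PGL(2, k)} {q p : PL k} (hg : g • ptI k = q) (hp : p ≠ q) :
    ∃ z : k, p = g • ptz z := by
  have h1 : g⁻¹ • p ≠ ptI k := by
    intro h
    apply hp
    rw [← hg, ← h, smul_inv_smul]
  obtain ⟨z, hz⟩ := (pl_cases (g⁻¹ • p)).resolve_left h1
  exact ⟨z, by rw [← hz, smul_inv_smul]⟩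

/-- Extension of a permutation by a fixed last point. -/
private noncomputable def TPC_ext (σ : Equiv.Perm (Fin 4)) : Equiv.Perm (Fin 5) :=
  σ.viaFintypeEmbedding (Fin.castSuccEmb (n := 4))

private theorem TPC_ext_cast (σ : Equiv.Perm (Fin 4)) (i : Fin 4) :
    TPC_ext σ (Fin.castSucc i) = Fin.castSucc (σ i) :=
  Equiv.Perm.viaFintypeEmbedding_apply_image σ (Fin.castSuccEmb (n := 4)) i

private theorem TPC_ext_last (σ : Equiv.Perm (Fin 4)) :
    TPC_ext σ (Fin.last 4) = Fin.last 4 := by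
  refine Equiv.Perm.viaFintypeEmbedding_apply_notMem_range σ
    (Fin.castSuccEmb (n := 4)) ?_
  rintro ⟨i, hi⟩
  exact absurd hi (Fin.castSucc_lt_last i).ne

private theorem TPC_ext_mem (σ : Equiv.Perm (Fin 4)) :
    TPC_ext σ ∈ alternatingGroup (Fin 5) ↔ σ ∈ alternatingGroup (Fin 4) := by
  rw [Equiv.Perm.mem_alternatingGroup, Equiv.Perm.mem_alternatingGroup, TPC_ext,
    Equiv.Perm.viaFintypeEmbedding_sign]

private theorem TPC_restr (σ : Equiv.Perm (Fin 5)) (h : σ (Fin.last 4) = Fin.last 4) :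
    ∃ τ : Equiv.Perm (Fin 4), σ = TPC_ext τ := by
  have h1 : ∀ i : Fin 4, σ (Fin.castSucc i) ≠ Fin.last 4 := by
    intro i hi
    have h2 := σ.injective (hi.trans h.symm)
    exact absurd h2 (Fin.castSucc_lt_last i).ne
  let s : Fin 4 → Fin 4 := fun i => Fin.castPred (σ (Fin.castSucc i)) (h1 i)
  have hs : ∀ i, Fin.castSucc (s i) = σ (Fin.castSucc i) := fun i => Fin.castSucc_castPred _ (h1 i)
  have hinj : Function.Injective s := by
    intro i j hij
    have h2 : σ (Fin.castSucc i) = σ (Fin.castSucc j) := by rw [← hs, ← hs, hij]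
    exact Fin.castSucc_injective 4 (σ.injective h2)
  refine ⟨Equiv.ofBijective s (Finite.injective_iff_bijective.1 hinj), ?_⟩
  ext i : 1
  refine Fin.lastCases ?_ (fun i => ?_) i
  · rw [TPC_ext_last, h]
  · rw [TPC_ext_cast, Equiv.ofBijective_apply, hs]

/-- Four points of the affine line and the point at infinity. -/
private def TPC_snoc (a : Fin 4 → k) : Fin 5 → PL k :=
  Fin.snoc (α := fun _ => PL k) (fun i => ptz (a i)) (ptI k)

private theorem TPC_snoc_cast (a : Fin 4 → k) (i : Fin 4) :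
    TPC_snoc a (Fin.castSucc i) = ptz (a i) := by
  unfold TPC_snoc
  rw [Fin.snoc_castSucc]

private theorem TPC_snoc_last (a : Fin 4 → k) : TPC_snoc a (Fin.last 4) = ptI k := by
  unfold TPC_snoc
  rw [Fin.snoc_last]

private theorem TPC_snoc_dm : DM k (fun a : Fin 4 → k => TPC_snoc a) := by
  refine DM.pi (fun i => ?_)
  refine Fin.lastCases ?_ (fun i => ?_) i
  · simp only [TPC_snoc_last]
    exact DM.const' _
  · simp only [TPC_snoc_cast]
    exact TPC_ptz_dm (DM.apply i)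

private theorem TPC_snoc_inj {a : Fin 4 → k} (ha : Function.Injective a) :
    Function.Injective (TPC_snoc a) := by
  intro i j hij
  induction i using Fin.lastCases with
  | last =>
    induction j using Fin.lastCases with
    | last => rfl
    | cast j =>
      rw [TPC_snoc_last, TPC_snoc_cast] at hij
      exact absurd hij.symm (ptz_ne_ptI _)
  | cast i =>
    induction j using Fin.lastCases with
    | last =>
      rw [TPC_snoc_last, TPC_snoc_cast] at hij
      exact absurd hij (ptz_ne_ptI _)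
    | cast j =>
      rw [TPC_snoc_cast, TPC_snoc_cast, ptz_inj] at hij
      rw [ha hij]

/-- An even permutation moving the last place to a given place. -/
private theorem TPC_even (j : Fin 5) : ∃ σ ∈ alternatingGroup (Fin 5), σ (Fin.last 4) = j := by
  have h1 : ∀ τ : Equiv.Perm (Fin 5), τ (Fin.last 4) = j → Equiv.Perm.sign τ = 1 →
      ∃ σ ∈ alternatingGroup (Fin 5), σ (Fin.last 4) = j := fun τ h h' =>
    ⟨τ, Equiv.Perm.mem_alternatingGroup.2 h', h⟩
  fin_cases j
  · exact h1 (Equiv.swap 4 0 * Equiv.swap 1 2) (by decide) (by decide)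
  · exact h1 (Equiv.swap 4 1 * Equiv.swap 0 2) (by decide) (by decide)
  · exact h1 (Equiv.swap 4 2 * Equiv.swap 0 1) (by decide) (by decide)
  · exact h1 (Equiv.swap 4 3 * Equiv.swap 0 1) (by decide) (by decide)
  · exact h1 1 (by decide) (by decide)

private theorem TPC_part1 : clq k (InjT k 5) (relAA k 5) =
    clq k (E5 k ∩ {p | ∀ i, p.1 i ≠ p.2}) (relGA k) := by
  have ht : DM k (fun p : (Fin 5 → PL k) × PL k => ∀ i, p.1 i ≠ p.2) :=
    DM.fall (fun i => by fun_prop)
  refine clq_map (relAA_dq (InjT_dm 5)) (E5_dq.inter ht)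
    (fun a => ((fun i => ptz (a i)), ptI k)) ?_ ?_ ?_ ?_
  · exact DM.mk (DM.pi (fun i => TPC_ptz_dm (DM.apply i))) (DM.const' _)
  · intro a ha
    refine ⟨?_, fun i => ptz_ne_ptI _⟩
    intro i j hij
    exact ha (ptz_inj.1 hij)
  · intro a _ b _
    constructor
    · rintro ⟨c, e, σ, hσ, h⟩
      refine ⟨affP c e, σ, hσ, fun i => ?_, (TPC_affP_ptI c e).symm⟩
      show ptz (b i) = affP c e • ptz (a (σ i))
      rw [TPC_affP_ptz, h]
    · rintro ⟨g, σ, hσ, h1, h2⟩
      obtain ⟨c, e, rfl⟩ := TPC_fix h2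
      refine ⟨c, e, σ, hσ, fun i => ?_⟩
      have h3 : ptz (b i) = affP c e • ptz (a (σ i)) := h1 i
      rw [TPC_affP_ptz, ptz_inj] at h3
      exact h3
  · rintro ⟨p, q⟩ ⟨hp, hpq⟩
    obtain ⟨g, hg⟩ := TPC_move q
    have h1 : ∀ i, ∃ z : k, p i = g • ptz z := fun i => TPC_coord hg (hpq i)
    choose a ha using h1
    refine ⟨a, ?_, g, 1, one_mem _, fun i => ?_, hg.symm⟩
    · intro i j hij
      have h2 : p i = p j := by rw [ha, ha, hij]
      exact hp h2
    · exact ha i

private theorem TPC_part2 : clq k (InjT k 4) (relAA k 4) =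
    clq k (E5 k \ {p | ∀ i, p.1 i ≠ p.2}) (relGA k) := by
  have ht : DM k (fun p : (Fin 5 → PL k) × PL k => ∀ i, p.1 i ≠ p.2) :=
    DM.fall (fun i => by fun_prop)
  refine clq_map (relAA_dq (InjT_dm 4)) (E5_dq.diff ht)
    (fun a => (TPC_snoc a, ptI k)) ?_ ?_ ?_ ?_
  · exact DM.mk TPC_snoc_dm (DM.const' _)
  · intro a ha
    exact ⟨TPC_snoc_inj ha, fun h => h (Fin.last 4) (TPC_snoc_last a)⟩
  · intro a ha b hb
    constructor
    · rintro ⟨c, e, σ, hσ, h⟩
      refine ⟨affP c e, TPC_ext σ, (TPC_ext_mem σ).2 hσ, fun i => ?_, (TPC_affP_ptI c e).symm⟩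
      show TPC_snoc b i = affP c e • TPC_snoc a (TPC_ext σ i)
      refine Fin.lastCases ?_ (fun i => ?_) i
      · rw [TPC_ext_last, TPC_snoc_last, TPC_snoc_last, TPC_affP_ptI]
      · rw [TPC_ext_cast, TPC_snoc_cast, TPC_snoc_cast, TPC_affP_ptz, h]
    · rintro ⟨g, σ, hσ, h1, h2⟩
      have h1' : ∀ i, TPC_snoc b i = g • TPC_snoc a (σ i) := h1
      have h2' : ptI k = g • ptI k := h2
      obtain ⟨c, e, rfl⟩ := TPC_fix h2'
      have h3 : σ (Fin.last 4) = Fin.last 4 := by
        have h4 := h1' (Fin.last 4)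
        rw [TPC_snoc_last] at h4
        nth_rewrite 1 [h2'] at h4
        have h5 := smul_left_cancel _ h4
        rw [← TPC_snoc_last a] at h5
        exact (TPC_snoc_inj ha h5).symm
      obtain ⟨τ, rfl⟩ := TPC_restr σ h3
      refine ⟨c, e, τ, (TPC_ext_mem τ).1 hσ, fun i => ?_⟩
      have h4 := h1' (Fin.castSucc i)
      rw [TPC_ext_cast, TPC_snoc_cast, TPC_snoc_cast, TPC_affP_ptz, ptz_inj] at h4
      exact h4
  · rintro ⟨p, q⟩ ⟨hp, hpq⟩
    have hp' : Function.Injective p := hp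
    have h0 : ∃ j, p j = q := by
      by_contra hcon
      push Not at hcon
      exact hpq hcon
    obtain ⟨j, hj⟩ := h0
    obtain ⟨σ, hσ, hσj⟩ := TPC_even j
    obtain ⟨g, hg⟩ := TPC_move q
    have h1 : ∀ i : Fin 4, ∃ z : k, p (σ (Fin.castSucc i)) = g • ptz z := by
      intro i
      refine TPC_coord hg (fun h => ?_)
      rw [← hj, ← hσj] at h
      have h2 := σ.injective (hp' h)
      exact absurd h2 (Fin.castSucc_lt_last i).ne
    choose a ha using h1
    refine ⟨a, ?_, g, σ⁻¹, inv_mem hσ, fun i => ?_, hg.symm⟩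
    · intro i j hij
      have h2 : p (σ (Fin.castSucc i)) = p (σ (Fin.castSucc j)) := by rw [ha, ha, hij]
      exact Fin.castSucc_injective 4 (σ.injective (hp' h2))
    · show p i = g • TPC_snoc a (σ⁻¹ i)
      obtain ⟨i, rfl⟩ := σ.surjective i
      rw [TPC_ia]
      refine Fin.lastCases ?_ (fun i => ?_) i
      · rw [TPC_snoc_last, hσj, hj, hg]
      · rw [TPC_snoc_cast, ha]

theorem E5_split : clq k (E5 k) (relGA k) =
    clq k (InjT k 5) (relAA k 5) + clq k (InjT k 4) (relAA k 4) := by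
  have ht : DM k (fun p : (Fin 5 → PL k) × PL k => ∀ i, p.1 i ≠ p.2) :=
    DM.fall (fun i => by fun_prop)
  rw [TPC_part1, TPC_part2]
  refine clq_split E5_dq _ ht ?_
  rintro p _ q _ ⟨g, σ, hσ, h1, h2⟩ h i hi
  rw [h1, h2] at hi
  exact h (σ i) (smul_left_cancel _ hi)

/-- Non-constant quintuples up to scaling. -/
def P5 (k : Type) [Field k] : Set (ℙ k (Fin 5 → k)) :=
  {p | ∃ i j, p.rep i ≠ p.rep j}

/-- The permutation action of the alternating group on `P(k⁵)`. -/
noncomputable def A5act (k : Type) [Field k] [IsAlgClosed k] [CharZero k] :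
    FAct k (alternatingGroup (Fin 5)) (ℙ k (Fin 5 → k)) :=
  PRep ((permRep k 5).comp (alternatingGroup (Fin 5)).subtype)

private theorem TPC_mem {v : Fin 5 → k} {p : ℙ k (Fin 5 → k)} (h : isrep v p) :
    p ∈ P5 k ↔ ∃ i j, v i ≠ v j := by
  obtain ⟨hv, rfl⟩ := h
  obtain ⟨a, ha⟩ := Projectivization.exists_smul_eq_mk_rep k v hv
  have h1 : ∀ i, (Projectivization.mk k v hv).rep i = (a : k) * v i := by
    intro i
    rw [← ha]
    rfl
  have h2 : Projectivization.mk k v hv ∈ P5 k ↔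
      ∃ i j, (Projectivization.mk k v hv).rep i ≠ (Projectivization.mk k v hv).rep j := Iff.rfl
  rw [h2]
  simp only [h1]
  constructor
  · rintro ⟨i, j, hij⟩
    exact ⟨i, j, fun h => hij (by rw [h])⟩
  · rintro ⟨i, j, hij⟩
    exact ⟨i, j, fun h => hij (mul_left_cancel₀ a.ne_zero h)⟩

private theorem TPC_rep (p : ℙ k (Fin 5 → k)) : ∃ v, isrep v p :=
  ⟨p.rep, p.rep_nonzero, p.mk_rep⟩

private theorem TPC_act {v : Fin 5 → k} {p : ℙ k (Fin 5 → k)} (h : isrep v p)
    (g : alternatingGroup (Fin 5)) :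
    isrep (fun i => v ((g : Equiv.Perm (Fin 5))⁻¹ i)) ((A5act k).a g p) := by
  obtain ⟨hv, rfl⟩ := h
  have h1 := PRep_mk ((permRep k 5).comp (alternatingGroup (Fin 5)).subtype) g hv
  exact ⟨rep_ne ((permRep k 5).comp (alternatingGroup (Fin 5)).subtype) g hv, h1.symm⟩

theorem P5_st : (A5act k).St (P5 k) where
  ds := by
    have h1 : DM k (fun p : ℙ k (Fin 5 → k) => ∃ v : Fin 5 → k, isrep v p ∧ ∃ i j, v i ≠ v j) := by
      refine DM.ex (DM.and (DM.isrep (by fun_prop) (by fun_prop)) ?_)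
      exact DM.fex (fun i => DM.fex (fun j => by fun_prop))
    refine h1.congr_iff (fun p => ?_)
    constructor
    · rintro ⟨v, hv, h⟩
      exact (TPC_mem hv).2 h
    · intro h
      obtain ⟨v, hv⟩ := TPC_rep p
      exact ⟨v, hv, (TPC_mem hv).1 h⟩
  st := by
    intro g p hp
    obtain ⟨v, hv⟩ := TPC_rep p
    obtain ⟨i, j, hij⟩ := (TPC_mem hv).1 hp
    refine (TPC_mem (TPC_act hv g)).2 ⟨(g : Equiv.Perm (Fin 5)) i, (g : Equiv.Perm (Fin 5)) j, ?_⟩
    simpa using hij

/-- Centred quintuples. -/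
private def TPC_S (k : Type) [Field k] : Set (Fin 5 → k) := {a | ∑ i, a i = 0 ∧ a ≠ 0}

private theorem TPC_S_dm : DM k (fun a => a ∈ TPC_S k) := by
  have h1 : DM k (fun a : Fin 5 → k => ∑ i, a i = 0) := by
    refine DM.eq (DM.sum _ (fun i _ => DM.apply i)) (DM.const' _)
  exact DM.and h1 (by fun_prop)

/-- Permutations and scaling as arrows. -/
private def TPC_R (a b : Fin 5 → k) (c : kˣ) : Prop :=
  ∃ σ : Equiv.Perm (Fin 5), σ ∈ alternatingGroup (Fin 5) ∧ ∀ i, b i = c * a (σ i)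

private theorem TPC_mult : DMult k (TPC_S k) TPC_R where
  ds := TPC_S_dm
  dR := by
    have h1 : DM k (fun p : (Fin 5 → k) × (Fin 5 → k) × kˣ => p.1 ∈ TPC_S k) :=
      DM.comp TPC_S_dm (by fun_prop)
    have h2 : DM k (fun p : (Fin 5 → k) × (Fin 5 → k) × kˣ => p.2.1 ∈ TPC_S k) :=
      DM.comp TPC_S_dm (by fun_prop)
    refine DM.and h1 (DM.and h2 ?_)
    exact DM.fex (fun σ => DM.and (DM.const' _) (DM.fall (fun i => by fun_prop)))
  one := fun a _ => ⟨1, one_mem _, fun i => by simp⟩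
  inv := by
    rintro a _ b _ c ⟨σ, hσ, h⟩
    refine ⟨σ⁻¹, inv_mem hσ, fun i => ?_⟩
    rw [h, TPC_ai, ← mul_assoc, Units.inv_mul, one_mul]
  comp := by
    rintro a _ b _ d _ c c' ⟨σ, hσ, h⟩ ⟨σ', hσ', h'⟩
    refine ⟨σ * σ', mul_mem hσ hσ', fun i => ?_⟩
    rw [h', h, Units.val_mul, mul_assoc, Equiv.Perm.mul_apply]
  fin := by
    rintro a ⟨-, ha⟩
    obtain ⟨i, hi⟩ := Function.ne_iff.1 ha
    have h1 : {c : kˣ | TPC_R a a c} ⊆
        ⋃ σ : Equiv.Perm (Fin 5), {c : kˣ | a i = c * a (σ i)} := by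
      rintro c ⟨σ, -, h⟩
      exact Set.mem_iUnion.2 ⟨σ, h i⟩
    refine Set.Finite.subset (Set.finite_iUnion (fun σ => ?_)) h1
    refine Set.Subsingleton.finite ?_
    intro c hc c' hc'
    have hc1 : a i = c * a (σ i) := hc
    have hc2 : a i = c' * a (σ i) := hc'
    have h3 : a (σ i) ≠ 0 := by
      intro h0
      rw [h0, mul_zero] at hc1
      exact hi hc1
    have h4 : (c : k) = c' := mul_right_cancel₀ h3 (hc1.symm.trans hc2)
    exact Units.ext h4

private theorem TPC_five : (5 : k) ≠ 0 := by norm_num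

private theorem TPC_sum_add (a : Fin 5 → k) (e : k) : ∑ i, (a i + e) = (∑ i, a i) + 5 * e := by
  rw [Finset.sum_add_distrib, Finset.sum_const, Finset.card_univ, Fintype.card_fin, nsmul_eq_mul]
  norm_num

/-- Non-constant tuples and centred tuples. -/
private theorem TPC_nc {a : Fin 5 → k} (ha : a ∈ TPC_S k) (e : k) : ∃ i j, a i + e ≠ a j + e := by
  by_contra hcon
  push Not at hcon
  apply ha.2
  funext i
  have h1 : ∀ j, a j = a i := fun j => add_right_cancel (hcon j i)
  have h2 : ∑ j, a j = 5 * a i := by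
    rw [Finset.sum_congr rfl (fun j _ => h1 j), Finset.sum_const, Finset.card_univ,
      Fintype.card_fin, nsmul_eq_mul]
    norm_num
  rw [ha.1] at h2
  have h3 : a i = 0 := by
    rcases mul_eq_zero.1 h2.symm with h | h
    · exact absurd h TPC_five
    · exact h
  exact h3

private theorem TPC_centre (v : Fin 5 → k) (hv : ∃ i j, v i ≠ v j) :
    ∃ a ∈ TPC_S k, ∃ e : k, ∀ i, v i = a i + e := by
  refine ⟨fun i => v i + -((∑ j, v j) / 5), ⟨?_, ?_⟩, (∑ j, v j) / 5, fun i => by ring⟩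
  · rw [TPC_sum_add]
    have := TPC_five (k := k)
    field_simp
    ring
  · intro h
    obtain ⟨i, j, hij⟩ := hv
    apply hij
    have h1 := congrFun h i
    have h2 := congrFun h j
    simp only [Pi.zero_apply] at h1 h2
    linear_combination h1 - h2

private theorem TPC_perm_sum (a : Fin 5 → k) (σ : Equiv.Perm (Fin 5)) :
    ∑ i, a (σ i) = ∑ i, a i := Equiv.sum_comp σ a

private theorem TPC_cl1 : clq k (TPC_S k) (fun x y => ∃ c, TPC_R x y c) =
    clq k (NC k 5) (relAA k 5) := by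
  refine clq_map (line_DT TPC_mult).1 (relAA_dq (NC_dm 5)) (fun a => a) (DM.id') ?_ ?_ ?_
  · intro a ha
    obtain ⟨i, j, hij⟩ := TPC_nc ha 0
    exact ⟨i, j, by simpa using hij⟩
  · intro a ha b hb
    constructor
    · rintro ⟨c, σ, hσ, h⟩
      exact ⟨c, 0, σ, hσ, fun i => by rw [h, add_zero]⟩
    · rintro ⟨c, e, σ, hσ, h⟩
      refine ⟨c, σ, hσ, fun i => ?_⟩
      have h1 : ∑ i, b i = c * (∑ i, a (σ i)) + 5 * e := by
        rw [Finset.sum_congr rfl (fun i _ => h i), TPC_sum_add, Finset.mul_sum]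
      rw [hb.1, TPC_perm_sum, ha.1, mul_zero, zero_add] at h1
      have h2 : e = 0 := by
        rcases mul_eq_zero.1 h1.symm with h | h
        · exact absurd h TPC_five
        · exact h
      rw [h, h2, add_zero]
  · intro v hv
    obtain ⟨a, ha, e, h⟩ := TPC_centre v hv
    exact ⟨a, ha, 1, e, 1, one_mem _, fun i => by rw [h]; simp⟩

theorem P5_cl : fcl (A5act k) (P5 k) = L • clq k (NC k 5) (relAA k 5) := by
  obtain ⟨-, h2, h3⟩ := line_DT (TPC_mult (k := k))
  rw [← TPC_cl1, ← h3]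
  symm
  have hdq : DQ k (P5 k) (A5act k).rel := by
    constructor
    · exact P5_st.ds
    · have hs := P5_st (k := k).ds
      have h4 : DM k (fun p : ℙ k (Fin 5 → k) × ℙ k (Fin 5 → k) =>
          ∃ g : alternatingGroup (Fin 5), (A5act k).a g p.1 = p.2) := by
        refine DM.fex (fun g => ?_)
        exact DM.eq (DM.comp ((A5act k).d g) (DM.fst DM.id')) (DM.snd DM.id')
      exact DM.and (DM.comp hs (DM.fst DM.id')) (DM.and (DM.comp hs (DM.snd DM.id')) h4)
    · intro p _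
      exact ⟨1, (A5act k).a_one p⟩
    · rintro p _ q _ ⟨g, rfl⟩
      exact ⟨g⁻¹, by rw [← (A5act k).a_mul, inv_mul_cancel, (A5act k).a_one]⟩
    · rintro p _ q _ r _ ⟨g, rfl⟩ ⟨g', rfl⟩
      exact ⟨g' * g, (A5act k).a_mul g' g p⟩
  refine clq_corr h2 hdq (fun (p : (Fin 5 → k) × k) (q : ℙ k (Fin 5 → k)) =>
    isrep (fun i => p.1 i + p.2) q) ?_ ?_ ?_ ?_
  · refine DM.isrep (DM.pi (fun i => ?_)) (by fun_prop)
    fun_prop
  · rintro ⟨a, e⟩ ⟨ha, -⟩
    have hne : (fun i => a i + e) ≠ 0 := by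
      intro h
      obtain ⟨i, j, hij⟩ := TPC_nc ha e
      exact hij ((congrFun h i).trans (congrFun h j).symm)
    have hr : isrep (fun i => a i + e) (Projectivization.mk k (fun i => a i + e) hne) :=
      ⟨hne, rfl⟩
    exact ⟨_, (TPC_mem hr).2 (TPC_nc ha e), hr⟩
  · intro p hp
    obtain ⟨v, hv⟩ := TPC_rep p
    obtain ⟨a, ha, e, h⟩ := TPC_centre v ((TPC_mem hv).1 hp)
    refine ⟨(a, e), ⟨ha, trivial⟩, ?_⟩
    have h4 : (fun i => a i + e) = v := by
      funext i
      rw [h]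
    show isrep (fun i => a i + e) p
    rw [h4]
    exact hv
  · rintro ⟨a, e⟩ ⟨ha, -⟩ p hp hap ⟨a', e'⟩ ⟨ha', -⟩ p' hp' hap'
    dsimp only at ha ha' hap hap' ⊢
    constructor
    · rintro ⟨c, ⟨σ, hσ, h⟩, he⟩
      refine ⟨⟨σ⁻¹, inv_mem hσ⟩, ?_⟩
      obtain ⟨h5, h6⟩ := TPC_act hap ⟨σ⁻¹, inv_mem hσ⟩
      obtain ⟨h7, rfl⟩ := hap'
      rw [← h6, Projectivization.mk_eq_mk_iff]
      refine ⟨c⁻¹, ?_⟩
      funext i
      show ((c⁻¹ : kˣ) : k) * (a' i + e') = a ((σ⁻¹)⁻¹ i) + e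
      rw [inv_inv, h, he, ← mul_add, ← mul_assoc, Units.inv_mul, one_mul]
    · rintro ⟨g, hg⟩
      obtain ⟨h5, h6⟩ := TPC_act hap g
      obtain ⟨h7, rfl⟩ := hap'
      rw [hg, Projectivization.mk_eq_mk_iff] at h6
      obtain ⟨u, hu⟩ := h6
      have h8 : ∀ i, (u : k) * (a' i + e') = a ((g : Equiv.Perm (Fin 5))⁻¹ i) + e := fun i =>
        congrFun hu i
      have h9 : (u : k) * e' = e := by
        have h10 : ∑ i, (u : k) * (a' i + e') =
            ∑ i, (a ((g : Equiv.Perm (Fin 5))⁻¹ i) + e) :=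
          Finset.sum_congr rfl (fun i _ => h8 i)
        rw [← Finset.mul_sum, TPC_sum_add, TPC_sum_add, TPC_perm_sum, ha.1, ha'.1] at h10
        have := TPC_five (k := k)
        have h11 : (5 : k) * ((u : k) * e' - e) = 0 := by linear_combination h10
        rcases mul_eq_zero.1 h11 with h | h
        · exact absurd h this
        · exact sub_eq_zero.1 h
      refine ⟨u⁻¹, ⟨(g : Equiv.Perm (Fin 5))⁻¹, inv_mem g.2, fun i => ?_⟩, ?_⟩
      · have h12 := h8 i
        have h13 : a ((g : Equiv.Perm (Fin 5))⁻¹ i) = u * a' i := by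
          linear_combination h9 - h12
        rw [h13, ← mul_assoc, Units.inv_mul, one_mul]
      · show e' = ((u⁻¹ : kˣ) : k) * e
        rw [← h9, ← mul_assoc, Units.inv_mul, one_mul]

end Pool.Agent.MRat
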