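import Pool.Agent.Lib.MP_923aff_ag.SYB
import Pool.Agent.Lib.MP_923aff_ag.SYC
import Pool.Agent.Lib.MP_923aff_ag.SYD
import Pool.Agent.Lib.MP_923aff_ag.SYF
import Pool.Agent.Lib.MP_923aff_ag.TPC
/-!
# JOB SYE: the class of five points and a further point

`Z1_slice`: `clq_map` along `(a, q) ↦ ((N1 a, a0 a1 a2), q)` from `B1 × P¹` with the group of permutations; equivalence: `uniq11`
(`det M ^ 10 = t ^ 20`, and `t ^ 5 = 1` because of the second component); surjectivity: `M • F = N1 a`, replace `M` by `s M`, which multiplies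
`a` by `s⁻⁵` and `δ` by `s⁻²⁰`. `Z2_slice`: `(p, q) ↦ ((N2 p.1, p.2), q)`, `uniq22`. `Z3_slice`: `(d, q) ↦ ((N3, d), q)`, `uniq33`.
The classes: `niceOn_dihedral` (`m = 3` for the permutations of `Fin 3`, `m = 5` for the dihedral group), `niceOn_comm`, and `base1`, `base2`, `base3`.
-/

set_option autoImplicit false

namespace Pool.Agent.MRat

open scoped MatrixGroups LinearAlgebra.Projectivization

variable {k : Type} [Field k] [IsAlgClosed k] [CharZero k]

def Z1 (k : Type) [Field k] [IsAlgClosed k] [CharZero k] : Set (Form k 5 × k) :=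
  {p ∈ Y5 k | ∃ (M : GL (Fin 2) k) (a : Fin 3 → k), (∀ i, a i ≠ 0) ∧ M • p.1 = N1 a}

def Z2 (k : Type) [Field k] [IsAlgClosed k] [CharZero k] : Set (Form k 5 × k) :=
  {p ∈ Y5 k | ∃ (M : GL (Fin 2) k) (a : k), M • p.1 = N2 a}

def Z3 (k : Type) [Field k] [IsAlgClosed k] [CharZero k] : Set (Form k 5 × k) :=
  {p ∈ Y5 k | ∃ M : GL (Fin 2) k, M • p.1 = N3 k}

private theorem syeN1_dm : DM k (fun a : Fin 3 → k => N1 a) := by
  unfold N1
  refine DM.form_of (DM.pi fun i => ?_)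
  fin_cases i
  · show DM k (fun a : Fin 3 → k => a 1 - a 2)
    fun_prop
  · show DM k (fun a : Fin 3 → k => -5 * a 2)
    fun_prop
  · show DM k (fun a : Fin 3 → k => -10 * a 2)
    fun_prop
  · show DM k (fun a : Fin 3 → k => -10 * a 2)
    fun_prop
  · show DM k (fun a : Fin 3 → k => -5 * a 2)
    fun_prop
  · show DM k (fun a : Fin 3 → k => a 0 - a 2)
    fun_prop

private theorem syeN2_dm : DM k (fun a : k => N2 a) := by
  unfold N2
  refine DM.form_of (DM.pi fun i => ?_)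
  fin_cases i
  · exact DM.id'
  · exact DM.const' (5 : k)
  · exact DM.const' (0 : k)
  · exact DM.const' (0 : k)
  · exact DM.const' (0 : k)
  · exact DM.const' (1 : k)

private theorem syeZ1_dm : DM k (fun p : Form k 5 × k => p ∈ Z1 k) := by
  have h : DM k (fun q : ((Form k 5 × k) × GL (Fin 2) k) × (Fin 3 → k) =>
      (∀ i, q.2 i ≠ 0) ∧ q.1.2 • q.1.1.1 = N1 q.2) := by
    refine DM.and (DM.fall fun i => by fun_prop) (DM.eq ?_ (DM.comp syeN1_dm (DM.snd DM.id')))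
    exact DM.smul (DM.snd (DM.fst DM.id')) (DM.fst (DM.fst (DM.fst DM.id')))
  exact DM.and Y5_dm (DM.ex (DM.ex h))

private theorem syeZ2_dm : DM k (fun p : Form k 5 × k => p ∈ Z2 k) := by
  have h : DM k (fun q : ((Form k 5 × k) × GL (Fin 2) k) × k =>
      q.1.2 • q.1.1.1 = N2 q.2) := by
    refine DM.eq ?_ (DM.comp syeN2_dm (DM.snd DM.id'))
    exact DM.smul (DM.snd (DM.fst DM.id')) (DM.fst (DM.fst (DM.fst DM.id')))
  exact DM.and Y5_dm (DM.ex (DM.ex h))

private theorem syeZ3_dm : DM k (fun p : Form k 5 × k => p ∈ Z3 k) := by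
  have h : DM k (fun q : (Form k 5 × k) × GL (Fin 2) k => q.2 • q.1.1 = N3 k) := by
    refine DM.eq ?_ (DM.const' _)
    exact DM.smul (DM.snd DM.id') (DM.fst (DM.fst DM.id'))
  exact DM.and Y5_dm (DM.ex h)

private theorem syeU_dm {Z : Set (Form k 5 × k)} (h : DM k (fun p => p ∈ Z)) :
    DM k (fun x : (Form k 5 × k) × PL k => x ∈ Z ×ˢ (Set.univ : Set (PL k))) :=
  (DM.comp h (f := fun x : (Form k 5 × k) × PL k => x.1) (DM.fst DM.id')).congr_iff
    fun x => by simp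

/-- Transport of normal forms along the action. -/
private theorem syeNF {F F' N : Form k 5} {M M' : GL (Fin 2) k} (h : F' = M • F)
    (hN : M' • F = N) : (M' * M⁻¹) • F' = N := by
  rw [h, mul_smul, inv_smul_smul, hN]

theorem Y5_strata : clq k (Y5 k ×ˢ (Set.univ : Set (PL k))) (relRG k) =
    clq k (Z1 k ×ˢ (Set.univ : Set (PL k))) (relRG k) +
    clq k (Z2 k ×ˢ (Set.univ : Set (PL k))) (relRG k) +
    clq k (Z3 k ×ˢ (Set.univ : Set (PL k))) (relRG k) := by
  have h0 : DQ k (Y5 k ×ˢ (Set.univ : Set (PL k))) (relRG k) := relRG_dq (syeU_dm Y5_dm)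
  have e12 : ∀ p, p ∈ Z1 k → p ∉ Z2 k := by
    rintro p ⟨_, M, a, ha, h1⟩ ⟨_, M', b, h2⟩
    exact disj12 (M := M' * M⁻¹) ha (syeNF h1.symm h2)
  have e13 : ∀ p, p ∈ Z1 k → p ∉ Z3 k := by
    rintro p ⟨_, M, a, ha, h1⟩ ⟨_, M', h2⟩
    exact disj13 (M := M' * M⁻¹) ha (syeNF h1.symm h2)
  have e23 : ∀ p, p ∈ Z2 k → p ∉ Z3 k := by
    rintro p ⟨_, M, a, h1⟩ ⟨_, M', h2⟩
    exact disj23 (M := M' * M⁻¹) (syeNF h1.symm h2)
  have s1 := clq_split h0 (Z1 k ×ˢ (Set.univ : Set (PL k))) (syeU_dm syeZ1_dm) (by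
    rintro ⟨⟨F, d⟩, q⟩ _ ⟨⟨F', d'⟩, q'⟩ hy ⟨M, h1, h2, h3⟩ ⟨⟨_, M', a, ha, h4⟩, _⟩
    exact ⟨⟨hy.1, _, a, ha, syeNF h1 h4⟩, trivial⟩)
  have s2 := clq_split (h0.diff (syeU_dm syeZ1_dm)) (Z2 k ×ˢ (Set.univ : Set (PL k)))
    (syeU_dm syeZ2_dm) (by
    rintro ⟨⟨F, d⟩, q⟩ _ ⟨⟨F', d'⟩, q'⟩ hy ⟨M, h1, h2, h3⟩ ⟨⟨_, M', a, h4⟩, _⟩
    exact ⟨⟨hy.1.1, _, a, syeNF h1 h4⟩, trivial⟩)
  have i1 : (Y5 k ×ˢ (Set.univ : Set (PL k))) ∩ (Z1 k ×ˢ (Set.univ : Set (PL k))) =
      Z1 k ×ˢ (Set.univ : Set (PL k)) := by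
    ext ⟨p, q⟩
    constructor
    · exact fun h => h.2
    · exact fun h => ⟨⟨h.1.1, trivial⟩, h⟩
  have i2 : ((Y5 k ×ˢ (Set.univ : Set (PL k))) \ (Z1 k ×ˢ (Set.univ : Set (PL k)))) ∩
      (Z2 k ×ˢ (Set.univ : Set (PL k))) = Z2 k ×ˢ (Set.univ : Set (PL k)) := by
    ext ⟨p, q⟩
    constructor
    · exact fun h => h.2
    · exact fun h => ⟨⟨⟨h.1.1, trivial⟩, fun h' => e12 p h'.1 h.1⟩, h⟩
  have i3 : ((Y5 k ×ˢ (Set.univ : Set (PL k))) \ (Z1 k ×ˢ (Set.univ : Set (PL k)))) \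
      (Z2 k ×ˢ (Set.univ : Set (PL k))) = Z3 k ×ˢ (Set.univ : Set (PL k)) := by
    ext ⟨⟨F, d⟩, q⟩
    constructor
    · rintro ⟨⟨⟨hY, _⟩, h1⟩, h2⟩
      rcases Y5_normal hY with ⟨M, a, ha, h⟩ | ⟨M, a, h⟩ | ⟨M, h⟩
      · exact absurd ⟨⟨hY, M, a, ha, h⟩, trivial⟩ h1
      · exact absurd ⟨⟨hY, M, a, h⟩, trivial⟩ h2
      · exact ⟨⟨hY, M, h⟩, trivial⟩
    · intro h
      exact ⟨⟨⟨h.1.1, trivial⟩, fun h' => e13 _ h'.1 h.1⟩, fun h' => e23 _ h'.1 h.1⟩
  rw [s1, i1, s2, i2, i3, add_assoc]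

/-! ### Slices -/

private theorem sye_mat {M : GL (Fin 2) k} {a b c d : k}
    (h : ∀ u : Fin 2 → k, M • u = ![a * u 0 + b * u 1, c * u 0 + d * u 1]) :
    Matrix.det (M : Matrix (Fin 2) (Fin 2) k) = a * d - b * c := by
  have h1 := h ![1, 0]
  have h2 := h ![0, 1]
  have e00 := congrFun h1 0
  have e10 := congrFun h1 1
  have e01 := congrFun h2 0
  have e11 := congrFun h2 1
  rw [FORMA_gl_smul] at e00 e10 e01 e11
  simp at e00 e10 e01 e11
  rw [Matrix.det_fin_two, e00, e10, e01, e11]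

private theorem sye_entries (M : GL (Fin 2) k) (u : Fin 2 → k) :
    M • u = ![M 0 0 * u 0 + M 0 1 * u 1, M 1 0 * u 0 + M 1 1 * u 1] := by
  funext i
  rw [FORMA_gl_smul]
  fin_cases i <;> rfl

private theorem sye_det {M M' : GL (Fin 2) k} {t : k}
    (h : ∀ u : Fin 2 → k, M • u = t • (M' • u)) :
    Matrix.det (M : Matrix (Fin 2) (Fin 2) k) =
      t ^ 2 * Matrix.det (M' : Matrix (Fin 2) (Fin 2) k) := by
  have h1 : ∀ u : Fin 2 → k, M • u = ![(t * M' 0 0) * u 0 + (t * M' 0 1) * u 1,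
      (t * M' 1 0) * u 0 + (t * M' 1 1) * u 1] := by
    intro u
    rw [h, sye_entries M']
    funext i
    fin_cases i
    · simp; ring
    · simp; ring
  rw [sye_mat h1, Matrix.det_fin_two]
  ring

private theorem sye_det_ne (M : GL (Fin 2) k) :
    Matrix.det (M : Matrix (Fin 2) (Fin 2) k) ≠ 0 := M.det.ne_zero

private theorem sye_eq {M : GL (Fin 2) k} {F G : Form k 5}
    (h : ∀ u : Fin 2 → k, G.1 (M • u) = F.1 u) : M • F = G := by
  apply Subtype.ext
  funext u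
  rw [form_gl_apply, ← h, smul_inv_smul]

private theorem sye_slice {F : Type} [Group F] [Finite F] {X : Type} [DT k X] {A : FAct k F X}
    {s : Set X} (hs : A.St s) (ρ : Representation k F (Fin 2 → k)) (φ : X → Form k 5 × k)
    (hφ : DM k φ) {Z : Set (Form k 5 × k)} (hZ : DM k (fun p => p ∈ Z))
    (maps : ∀ x ∈ s, φ x ∈ Z)
    (fwd : ∀ g, ∀ x ∈ s, ∃ M : GL (Fin 2) k, (∀ u : Fin 2 → k, M • u = ρ g u) ∧
      (φ (A.a g x)).1 = M • (φ x).1 ∧
      (φ (A.a g x)).2 * (Matrix.det (M : Matrix (Fin 2) (Fin 2) k)) ^ 10 = (φ x).2)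
    (bwd : ∀ x ∈ s, ∀ y ∈ s, ∀ M : GL (Fin 2) k, (φ y).1 = M • (φ x).1 →
      (φ y).2 * (Matrix.det (M : Matrix (Fin 2) (Fin 2) k)) ^ 10 = (φ x).2 →
      ∃ (g : F) (t : k), A.a g x = y ∧ ∀ u : Fin 2 → k, M • u = t • ρ g u)
    (surj : ∀ p ∈ Z, ∃ x ∈ s, ∃ M : GL (Fin 2) k, (φ x).1 = M • p.1 ∧
      (φ x).2 * (Matrix.det (M : Matrix (Fin 2) (Fin 2) k)) ^ 10 = p.2) :
    clq k (Z ×ˢ (Set.univ : Set (PL k))) (relRG k) =
      fcl (A.prod (PRep ρ)) (s ×ˢ (Set.univ : Set (PL k))) := by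
  have hst := hs.prod (FAct.St.univ (PRep ρ))
  symm
  refine clq_map hst.dq (relRG_dq (syeU_dm hZ)) (fun p => (φ p.1, p.2)) ?_ ?_ ?_ ?_
  · exact DM.mk (DM.comp hφ (DM.fst DM.id')) (DM.snd DM.id')
  · rintro ⟨x, q⟩ ⟨hx, _⟩
    exact ⟨maps x hx, trivial⟩
  · rintro ⟨x, q⟩ ⟨hx, _⟩ ⟨y, q'⟩ ⟨hy, _⟩
    constructor
    · rintro ⟨g, hg⟩
      have g1 : A.a g x = y := congrArg Prod.fst hg
      have g2 : (PRep ρ).a g q = q' := congrArg Prod.snd hg
      obtain ⟨M, m1, m2, m3⟩ := fwd g x hx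
      rw [g1] at m2 m3
      refine ⟨M, m2, m3, ?_⟩
      show q' = (Matrix.ProjGenLinGroup.mk M : PGL(2, k)) • q
      rw [← g2]
      induction q using Projectivization.ind with
      | h v hv =>
          rw [PRep_mk, Projectivization.PGL.mk_smul_mk, Projectivization.mk_eq_mk_iff']
          exact ⟨1, by rw [one_smul, m1]⟩
    · rintro ⟨M, m2, m3, m4⟩
      obtain ⟨g, t, g1, g2⟩ := bwd x hx y hy M m2 m3
      refine ⟨g, Prod.ext g1 ?_⟩
      show (PRep ρ).a g q = q'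
      have m4' : q' = (Matrix.ProjGenLinGroup.mk M : PGL(2, k)) • q := m4
      rw [m4']
      induction q using Projectivization.ind with
      | h v hv =>
          rw [PRep_mk, Projectivization.PGL.mk_smul_mk, Projectivization.mk_eq_mk_iff]
          have ht : t ≠ 0 := by
            rintro rfl
            have h1 := g2 v
            rw [zero_smul] at h1
            exact hv ((smul_eq_zero_iff_eq M).1 h1)
          refine ⟨(Units.mk0 t ht)⁻¹, ?_⟩
          rw [g2 v]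
          show ((Units.mk0 t ht)⁻¹ : kˣ) • (Units.mk0 t ht) • ρ g v = ρ g v
          rw [inv_smul_smul]
  · rintro ⟨p, q⟩ ⟨hp, _⟩
    obtain ⟨x, hx, M, m1, m2⟩ := surj p hp
    refine ⟨(x, (Matrix.ProjGenLinGroup.mk M : PGL(2, k)) • q), ⟨hx, trivial⟩, M⁻¹, ?_, ?_, ?_⟩
    · show p.1 = M⁻¹ • (φ x).1
      rw [m1, inv_smul_smul]
    · show p.2 * (Matrix.det ((M⁻¹ : GL (Fin 2) k) : Matrix (Fin 2) (Fin 2) k)) ^ 10 = (φ x).2
      have h1 : Matrix.det (M : Matrix (Fin 2) (Fin 2) k) *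
          Matrix.det ((M⁻¹ : GL (Fin 2) k) : Matrix (Fin 2) (Fin 2) k) = 1 := by
        rw [← Matrix.det_mul, ← Units.val_mul, mul_inv_cancel, Units.val_one, Matrix.det_one]
      rw [← m2, mul_assoc, ← mul_pow, h1, one_pow, mul_one]
    · show q = (Matrix.ProjGenLinGroup.mk M⁻¹ : PGL(2, k)) •
        ((Matrix.ProjGenLinGroup.mk M : PGL(2, k)) • q)
      rw [map_inv, inv_smul_smul]

private theorem sye_scalar_det (t : kˣ) (M : GL (Fin 2) k) :
    Matrix.det ((Matrix.GeneralLinearGroup.scalar (Fin 2) t * M : GL (Fin 2) k) :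
      Matrix (Fin 2) (Fin 2) k) = (t : k) ^ 2 * Matrix.det (M : Matrix (Fin 2) (Fin 2) k) := by
  apply sye_det
  intro u
  rw [mul_smul, FORMA_scalar]

private theorem sye_N1_smul (c : k) (a : Fin 3 → k) : c • N1 a = N1 (c • a) := by
  apply Subtype.ext
  funext u
  show c * (N1 a).1 u = (N1 (c • a)).1 u
  rw [N1_apply, N1_apply]
  simp only [Pi.smul_apply, smul_eq_mul]
  ring

private theorem sye_perm_prod (σ : Equiv.Perm (Fin 3)) (a : Fin 3 → k) :
    a (σ 0) * a (σ 1) * a (σ 2) = a 0 * a 1 * a 2 := by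
  have h := Equiv.prod_comp σ a
  rw [Fin.prod_univ_three, Fin.prod_univ_three] at h
  exact h

theorem Z1_slice : clq k (Z1 k ×ˢ (Set.univ : Set (PL k))) (relRG k) =
    fcl ((VRep (permRep k 3)).prod (PRep (ρ3 k))) (B1 k ×ˢ (Set.univ : Set (PL k))) := by
  refine sye_slice B1_st (ρ3 k) (fun a => (N1 a, a 0 * a 1 * a 2)) ?_ syeZ1_dm ?_ ?_ ?_ ?_
  · exact DM.mk syeN1_dm (by fun_prop)
  · rintro a ⟨ha, ha'⟩
    refine ⟨disc1.2 ⟨?_, ha'⟩, 1, a, ha, one_smul _ _⟩
    exact mul_ne_zero (mul_ne_zero (ha 0) (ha 1)) (ha 2)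
  · rintro σ a ⟨ha, ha'⟩
    obtain ⟨M, h1, h2, h3⟩ := exists_S3mat (k := k) σ
    refine ⟨M, h1, (h3 a).symm, ?_⟩
    show permRep k 3 σ a 0 * permRep k 3 σ a 1 * permRep k 3 σ a 2 * _ = a 0 * a 1 * a 2
    rw [permRep_apply, permRep_apply, permRep_apply, sye_perm_prod]
    have h4 : (Matrix.det (M : Matrix (Fin 2) (Fin 2) k)) ^ 10 =
        ((Matrix.det (M : Matrix (Fin 2) (Fin 2) k)) ^ 2) ^ 5 := by ring
    rw [h4, h2, one_pow, mul_one]
  · rintro a ⟨ha, ha'⟩ b ⟨hb, hb'⟩ M h1 h2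
    obtain ⟨t, σ, h3, h4⟩ := uniq11 ha hb (h1.symm)
    obtain ⟨M', h5, h6, -⟩ := exists_S3mat (k := k) σ
    refine ⟨σ, (t : k), ?_, h3⟩
    have h7 : Matrix.det (M : Matrix (Fin 2) (Fin 2) k) =
        (t : k) ^ 2 * Matrix.det (M' : Matrix (Fin 2) (Fin 2) k) := by
      apply sye_det
      intro u
      rw [h3, h5]
    have h8 : (Matrix.det (M : Matrix (Fin 2) (Fin 2) k)) ^ 10 = (t : k) ^ 20 := by
      have : (Matrix.det (M : Matrix (Fin 2) (Fin 2) k)) ^ 10 =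
          (t : k) ^ 20 * ((Matrix.det (M' : Matrix (Fin 2) (Fin 2) k)) ^ 2) ^ 5 := by
        rw [h7]; ring
      rw [this, h6, one_pow, mul_one]
    have h2' : b 0 * b 1 * b 2 * (t : k) ^ 20 = a 0 * a 1 * a 2 := by
      rw [← h8]; exact h2
    have h9 : (t : k) ^ 15 * (b 0 * b 1 * b 2) = a 0 * a 1 * a 2 := by
      have h10 := sye_perm_prod σ⁻¹ a
      rw [← h4 0, ← h4 1, ← h4 2] at h10
      rw [← h10]
      ring
    have hne : b 0 * b 1 * b 2 ≠ 0 := mul_ne_zero (mul_ne_zero (hb 0) (hb 1)) (hb 2)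
    have ht : (t : k) ^ 5 = 1 := by
      have h11 : (t : k) ^ 15 * (b 0 * b 1 * b 2) * ((t : k) ^ 5 - 1) = 0 := by
        linear_combination h2' - h9
      rcases mul_eq_zero.1 h11 with h12 | h12
      · exact absurd h12 (mul_ne_zero (pow_ne_zero _ t.ne_zero) hne)
      · exact sub_eq_zero.1 h12
    show permRep k 3 σ a = b
    funext i
    rw [permRep_apply, ← h4 i, ht, one_mul]
  · rintro ⟨F, d⟩ ⟨hY, M, a, ha, h1⟩
    have hP : a 0 * a 1 * a 2 ≠ 0 := mul_ne_zero (mul_ne_zero (ha 0) (ha 1)) (ha 2)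
    have hd := Y5_ne hY
    have hD := sye_det_ne M
    set D := Matrix.det (M : Matrix (Fin 2) (Fin 2) k) with hDd
    obtain ⟨s, hs⟩ := IsAlgClosed.exists_pow_nat_eq (d / (a 0 * a 1 * a 2 * D ^ 10))
      (n := 5) (by norm_num)
    have hs0 : s ≠ 0 := by
      rintro rfl
      rw [zero_pow (by norm_num)] at hs
      exact div_ne_zero hd (mul_ne_zero hP (pow_ne_zero _ hD)) hs.symm
    let u : kˣ := Units.mk0 s hs0
    have hu : (u : k) = s := rfl
    have e1 : (Matrix.GeneralLinearGroup.scalar (Fin 2) u * M) • F =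
        N1 (((u⁻¹ ^ 5 : kˣ) : k) • a) := by
      have h1' : M • F = N1 a := h1
      rw [mul_smul, h1', form_scalar, sye_N1_smul]
    have e2 : Matrix.det ((Matrix.GeneralLinearGroup.scalar (Fin 2) u * M : GL (Fin 2) k) :
        Matrix (Fin 2) (Fin 2) k) = s ^ 2 * D := sye_scalar_det u M
    have e3 : (((u⁻¹ ^ 5 : kˣ) : k)) = (s ^ 5)⁻¹ := by
      rw [Units.val_pow_eq_pow_val, Units.val_inv_eq_inv_val, hu, inv_pow]
    have e4 : ((((u⁻¹ ^ 5 : kˣ) : k) • a) 0 * (((u⁻¹ ^ 5 : kˣ) : k) • a) 1 *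
        (((u⁻¹ ^ 5 : kˣ) : k) • a) 2) * (s ^ 2 * D) ^ 10 = d := by
      simp only [Pi.smul_apply, smul_eq_mul, e3]
      have h5 : s ^ 5 * (a 0 * a 1 * a 2 * D ^ 10) = d := by
        rw [hs, div_mul_cancel₀ _ (mul_ne_zero hP (pow_ne_zero _ hD))]
      rw [← h5]
      field_simp
    have e5 := Y5_smul hY (Matrix.GeneralLinearGroup.scalar (Fin 2) u * M)
      (d' := ((((u⁻¹ ^ 5 : kˣ) : k) • a) 0 * (((u⁻¹ ^ 5 : kˣ) : k) • a) 1 *
        (((u⁻¹ ^ 5 : kˣ) : k) • a) 2)) (by rw [e2]; exact e4)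
    rw [e1] at e5
    have e6 := disc1.1 e5
    refine ⟨((u⁻¹ ^ 5 : kˣ) : k) • a, ⟨?_, e6.2⟩,
      Matrix.GeneralLinearGroup.scalar (Fin 2) u * M, e1.symm, ?_⟩
    · intro i
      exact mul_ne_zero (Units.ne_zero _) (ha i)
    · show _ * (Matrix.det ((Matrix.GeneralLinearGroup.scalar (Fin 2) u * M : GL (Fin 2) k) :
        Matrix (Fin 2) (Fin 2) k)) ^ 10 = d
      rw [e2]
      exact e4

/-- diagonal and antidiagonal maps -/
private def syeD (a b : k) : (Fin 2 → k) →ₗ[k] (Fin 2 → k) where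
  toFun u := ![a * u 0, b * u 1]
  map_add' u v := by
    funext i
    fin_cases i
    · simp [mul_add]
    · simp [mul_add]
  map_smul' c u := by
    funext i
    fin_cases i
    · simp [mul_left_comm]
    · simp [mul_left_comm]

private def syeA (a b : k) : (Fin 2 → k) →ₗ[k] (Fin 2 → k) where
  toFun u := ![a * u 1, b * u 0]
  map_add' u v := by
    funext i
    fin_cases i
    · simp [mul_add]
    · simp [mul_add]
  map_smul' c u := by
    funext i
    fin_cases i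
    · simp [mul_left_comm]
    · simp [mul_left_comm]

private theorem syeD_apply (a b : k) (u : Fin 2 → k) : syeD a b u = ![a * u 0, b * u 1] := rfl

private theorem syeA_apply (a b : k) (u : Fin 2 → k) : syeA a b u = ![a * u 1, b * u 0] := rfl

private theorem syeDD (a b c d : k) : (syeD a b : Module.End k (Fin 2 → k)) * syeD c d =
    syeD (a * c) (b * d) := by
  apply LinearMap.ext
  intro u
  rw [Module.End.mul_apply, syeD_apply, syeD_apply, syeD_apply]
  funext i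
  fin_cases i <;> simp [mul_assoc]

private theorem syeDA (a b c d : k) : (syeD a b : Module.End k (Fin 2 → k)) * syeA c d =
    syeA (a * c) (b * d) := by
  apply LinearMap.ext
  intro u
  rw [Module.End.mul_apply, syeD_apply, syeA_apply, syeA_apply]
  funext i
  fin_cases i <;> simp [mul_assoc]

private theorem syeAD (a b c d : k) : (syeA a b : Module.End k (Fin 2 → k)) * syeD c d =
    syeA (a * d) (b * c) := by
  apply LinearMap.ext
  intro u
  rw [Module.End.mul_apply, syeA_apply, syeD_apply, syeA_apply]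
  funext i
  fin_cases i <;> simp [mul_assoc]

private theorem syeAA (a b c d : k) : (syeA a b : Module.End k (Fin 2 → k)) * syeA c d =
    syeD (a * d) (b * c) := by
  apply LinearMap.ext
  intro u
  rw [Module.End.mul_apply, syeA_apply, syeA_apply, syeD_apply]
  funext i
  fin_cases i <;> simp [mul_assoc]

private theorem syeD_one : (syeD 1 1 : Module.End k (Fin 2 → k)) = 1 := by
  apply LinearMap.ext
  intro u
  rw [syeD_apply, Module.End.one_apply]
  funext i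
  fin_cases i <;> simp

/-- The representation of the fourth roots of unity by the matrices `diag(1, z)`. -/
theorem exists_rep4 : ∃ ρ : Representation k (rootsOfUnity 4 k) (Fin 2 → k),
    ∀ (z : rootsOfUnity 4 k) (u : Fin 2 → k), ρ z u = ![u 0, ((z : kˣ) : k) * u 1] := by
  refine ⟨{ toFun := fun z => syeD 1 ((z : kˣ) : k), map_one' := ?_, map_mul' := ?_ }, ?_⟩
  · exact syeD_one
  · intro z w
    rw [syeDD, mul_one]
    rfl
  · intro z u
    show syeD 1 ((z : kˣ) : k) u = _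
    rw [syeD_apply, one_mul]

theorem Z2_slice {ρ : Representation k (rootsOfUnity 4 k) (Fin 2 → k)}
    (hρ : ∀ (z : rootsOfUnity 4 k) (u : Fin 2 → k), ρ z u = ![u 0, ((z : kˣ) : k) * u 1]) :
    clq k (Z2 k ×ˢ (Set.univ : Set (PL k))) (relRG k) =
    fcl ((A2 k).prod (PRep ρ)) (B2 k ×ˢ (Set.univ : Set (PL k))) := by
  have z4 : ∀ z : rootsOfUnity 4 k, (((z : kˣ) : k)) ^ 4 = 1 := by
    intro z
    have h := z.2
    rw [mem_rootsOfUnity] at h
    rw [← Units.val_pow_eq_pow_val, h, Units.val_one]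
  refine sye_slice B2_st ρ (fun p => (N2 p.1, p.2)) ?_ syeZ2_dm ?_ ?_ ?_ ?_
  · exact DM.mk (DM.comp syeN2_dm (DM.fst DM.id')) (DM.snd DM.id')
  · rintro p hp
    exact ⟨disc2.2 hp, 1, p.1, one_smul _ _⟩
  · rintro z ⟨a, d⟩ hp
    have hz := z4 z
    have hz0 : ((z : kˣ) : k) ≠ 0 := (z : kˣ).ne_zero
    have hM : ∀ u : Fin 2 → k, glm (1 : k) 0 0 ((z : kˣ) : k) (by simp) • u =
        ![u 0, ((z : kˣ) : k) * u 1] := by
      intro u
      rw [sye_entries]
      funext i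
      fin_cases i <;> simp [glm]
    have hdet : Matrix.det ((glm (1 : k) 0 0 ((z : kˣ) : k) (by simp) : GL (Fin 2) k) :
        Matrix (Fin 2) (Fin 2) k) = ((z : kˣ) : k) := by
      rw [sye_mat (a := 1) (b := 0) (c := 0) (d := ((z : kˣ) : k))]
      · ring
      · intro u
        rw [hM]
        simp
    have hinv : ((((z⁻¹ : rootsOfUnity 4 k) : kˣ)) : k) * ((z : kˣ) : k) = 1 := by
      rw [← Units.val_mul]
      simp
    refine ⟨glm (1 : k) 0 0 ((z : kˣ) : k) (by simp), ?_, ?_, ?_⟩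
    · intro u
      rw [hM, hρ]
    · symm
      apply sye_eq
      intro u
      rw [hM]
      show (N2 ((((z⁻¹ : rootsOfUnity 4 k) : kˣ) : k) * a)).1 _ = (N2 a).1 u
      rw [N2_apply, N2_apply]
      simp only [Matrix.cons_val_zero, Matrix.cons_val_one]
      linear_combination (5 * u 0 * u 1 ^ 4 + a * u 1 ^ 5) * hz +
        (a * ((z : kˣ) : k) ^ 4 * u 1 ^ 5) * hinv
    · rw [hdet]
      show (((z⁻¹ : rootsOfUnity 4 k) : kˣ) : k) ^ 2 * d * ((z : kˣ) : k) ^ 10 = d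
      calc (((z⁻¹ : rootsOfUnity 4 k) : kˣ) : k) ^ 2 * d * ((z : kˣ) : k) ^ 10 =
          ((((z⁻¹ : rootsOfUnity 4 k) : kˣ) : k) * ((z : kˣ) : k)) ^ 2 *
            (((z : kˣ) : k) ^ 4) ^ 2 * d := by ring
        _ = d := by rw [hinv, hz]; ring
  · rintro ⟨a, d⟩ hx ⟨b, e⟩ hy M h1 h2
    obtain ⟨t, z, ht, hz, hM, hb⟩ := uniq22 h1.symm
    have hz' : z ∈ rootsOfUnity 4 k := hz
    have ht' : (t : k) ^ 5 = 1 := by rw [← Units.val_pow_eq_pow_val, ht, Units.val_one]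
    have hzk : (z : k) ^ 4 = 1 := by rw [← Units.val_pow_eq_pow_val, hz, Units.val_one]
    have hinv : ((z⁻¹ : kˣ) : k) * (z : k) = 1 := by
      rw [← Units.val_mul]
      simp
    refine ⟨⟨z, hz'⟩, (t : k), ?_, ?_⟩
    · have hdet : Matrix.det (M : Matrix (Fin 2) (Fin 2) k) = (t : k) * (t * z) := by
        rw [sye_mat (a := (t : k)) (b := 0) (c := 0) (d := (t : k) * z)]
        · ring
        · intro u
          rw [hM]
          simp
      rw [hdet] at h2
      have h2' : e * ((t : k) * (t * z)) ^ 10 = d := h2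
      have h3 : e * (z : k) ^ 2 = d := by
        rw [← h2']
        calc e * (z : k) ^ 2 = e * ((t : k) ^ 5) ^ 4 * ((z : k) ^ 4) ^ 2 * z ^ 2 := by
              rw [ht', hzk]; ring
          _ = e * ((t : k) * (t * z)) ^ 10 := by ring
      refine Prod.ext ?_ ?_
      · show ((z⁻¹ : kˣ) : k) * a = b
        have hb' : (z : k) * b = a := hb
        rw [← hb', ← mul_assoc, hinv, one_mul]
      · show ((z⁻¹ : kˣ) : k) ^ 2 * d = e
        rw [← h3]
        calc ((z⁻¹ : kˣ) : k) ^ 2 * (e * (z : k) ^ 2) = (((z⁻¹ : kˣ) : k) * (z : k)) ^ 2 * e := by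
              ring
          _ = e := by rw [hinv]; ring
    · intro u
      rw [hM, hρ]
      funext i
      fin_cases i <;> simp [mul_assoc]
  · rintro ⟨F, d⟩ ⟨hY, M, a, h1⟩
    have hD := sye_det_ne M
    have e4 : d / (Matrix.det (M : Matrix (Fin 2) (Fin 2) k)) ^ 10 *
        (Matrix.det (M : Matrix (Fin 2) (Fin 2) k)) ^ 10 = d :=
      div_mul_cancel₀ _ (pow_ne_zero _ hD)
    have e5 := Y5_smul hY M e4
    have h1' : M • F = N2 a := h1
    rw [h1'] at e5
    exact ⟨(a, _), disc2.1 e5, M, h1'.symm, e4⟩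

/-- The standard representation of the dihedral group of order ten. -/
theorem exists_rep5 {ζ : kˣ} (hζ : ζ ^ 5 = 1) :
    ∃ ρ : Representation k (DihedralGroup 5) (Fin 2 → k),
      (∀ u, ρ (DihedralGroup.r 1) u = ![(ζ : k) * u 0, ((ζ⁻¹ : kˣ) : k) * u 1]) ∧
      ∀ u, ρ (DihedralGroup.sr 0) u = ![u 1, u 0] := by
  let e : ZMod 5 → kˣ := fun i => ζ ^ i.val
  have e_add : ∀ i j, e (i + j) = e i * e j := by
    intro i j
    show ζ ^ (i + j).val = ζ ^ i.val * ζ ^ j.val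
    rw [ZMod.val_add, ← pow_add]
    exact (pow_eq_pow_mod _ hζ).symm
  have e_zero : e 0 = 1 := by
    show ζ ^ (0 : ZMod 5).val = 1
    simp
  have e_neg : ∀ i, e (-i) = (e i)⁻¹ := by
    intro i
    rw [eq_inv_iff_mul_eq_one, ← e_add, neg_add_cancel, e_zero]
  let f : DihedralGroup 5 → Module.End k (Fin 2 → k) := fun g =>
    match g with
    | DihedralGroup.r i => syeD (e i : k) (e (-i) : k)
    | DihedralGroup.sr i => syeA (e (-i) : k) (e i : k)
  have fr : ∀ i, f (DihedralGroup.r i) = syeD (e i : k) (e (-i) : k) := fun i => rfl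
  have fs : ∀ i, f (DihedralGroup.sr i) = syeA (e (-i) : k) (e i : k) := fun i => rfl
  refine ⟨{ toFun := f, map_one' := ?_, map_mul' := ?_ }, ?_, ?_⟩
  · rw [DihedralGroup.one_def, fr, neg_zero, e_zero, Units.val_one, syeD_one]
  · rintro (i | i) (j | j)
    · rw [DihedralGroup.r_mul_r, fr, fr, fr, syeDD, neg_add, e_add, e_add, Units.val_mul,
        Units.val_mul]
    · rw [DihedralGroup.r_mul_sr, fr, fs, fs, syeDA, neg_sub, sub_eq_add_neg, sub_eq_add_neg,
        e_add, e_add, Units.val_mul, Units.val_mul, mul_comm (e j : k)]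
    · rw [DihedralGroup.sr_mul_r, fs, fr, fs, syeAD, neg_add, e_add, e_add, Units.val_mul,
        Units.val_mul]
    · rw [DihedralGroup.sr_mul_sr, fs, fs, fr, syeAA, neg_sub, sub_eq_add_neg, sub_eq_add_neg,
        e_add, e_add, Units.val_mul, Units.val_mul, mul_comm (e j : k)]
  · intro u
    show syeD (e 1 : k) (e (-1) : k) u = _
    have h1 : e 1 = ζ := by
      show ζ ^ (1 : ZMod 5).val = ζ
      have : (1 : ZMod 5).val = 1 := rfl
      rw [this, pow_one]
    rw [syeD_apply, e_neg, h1]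
  · intro u
    show syeA (e (-0) : k) (e 0 : k) u = _
    rw [syeA_apply, neg_zero, e_zero, Units.val_one, one_mul, one_mul]

private theorem sye_dih (g : DihedralGroup 5) :
    ∃ i : ℕ, g = DihedralGroup.r 1 ^ i ∨ g = DihedralGroup.r 1 ^ i * DihedralGroup.sr 0 := by
  rcases g with i | i
  · refine ⟨i.val, Or.inl ?_⟩
    rw [DihedralGroup.r_one_pow, ZMod.natCast_zmod_val]
  · refine ⟨(-i).val, Or.inr ?_⟩
    rw [DihedralGroup.r_one_pow, ZMod.natCast_zmod_val, DihedralGroup.r_mul_sr]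
    congr 1
    ring

private theorem syeB3_st : (FAct.triv k (DihedralGroup 5) k).St {d : k | d ^ 2 = 3125} := by
  refine ⟨?_, fun g x hx => hx⟩
  show DM k (fun d : k => d ^ 2 = 3125)
  fun_prop

theorem Z3_slice {ζ : kˣ} (hζ : IsPrimitiveRoot ζ 5)
    {ρ : Representation k (DihedralGroup 5) (Fin 2 → k)}
    (h1 : ∀ u, ρ (DihedralGroup.r 1) u = ![(ζ : k) * u 0, ((ζ⁻¹ : kˣ) : k) * u 1])
    (h2 : ∀ u, ρ (DihedralGroup.sr 0) u = ![u 1, u 0]) :
    clq k (Z3 k ×ˢ (Set.univ : Set (PL k))) (relRG k) =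
    fcl ((FAct.triv k (DihedralGroup 5) k).prod (PRep ρ))
      ({d : k | d ^ 2 = 3125} ×ˢ (Set.univ : Set (PL k))) := by
  have hpow : ∀ (i : ℕ) (u : Fin 2 → k), ρ (DihedralGroup.r 1 ^ i) u =
      ![((ζ ^ i : kˣ) : k) * u 0, (((ζ ^ i)⁻¹ : kˣ) : k) * u 1] := by
    intro i
    induction i with
    | zero =>
        intro u
        rw [pow_zero, map_one, Module.End.one_apply]
        funext j
        fin_cases j <;> simp
    | succ i ih =>
        intro u
        rw [pow_succ', map_mul, Module.End.mul_apply, ih, h1, pow_succ' ζ, mul_inv]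
        funext j
        fin_cases j <;> simp [mul_assoc]
  refine sye_slice syeB3_st ρ (fun d => (N3 k, d)) ?_ syeZ3_dm ?_ ?_ ?_ ?_
  · exact DM.mk (DM.const' _) DM.id'
  · rintro d hd
    exact ⟨disc3.2 hd, 1, one_smul _ _⟩
  · rintro g d hd
    have key : ∀ z : kˣ, z ^ 5 = 1 → ∃ M : GL (Fin 2) k,
        (∀ u : Fin 2 → k, M • u = ![(z : k) * u 0, ((z⁻¹ : kˣ) : k) * u 1]) ∧ N3 k = M • N3 k ∧
        Matrix.det (M : Matrix (Fin 2) (Fin 2) k) = 1 := by
      intro z hz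
      have hM : ∀ u : Fin 2 → k, glm (z : k) 0 0 ((z⁻¹ : kˣ) : k) (by simp) • u =
          ![(z : k) * u 0, ((z⁻¹ : kˣ) : k) * u 1] := by
        intro u
        rw [sye_entries]
        funext i
        fin_cases i <;> simp [glm]
      refine ⟨_, hM, ?_, ?_⟩
      · symm
        apply sye_eq
        intro u
        rw [hM, N3_apply, N3_apply]
        simp only [Matrix.cons_val_zero, Matrix.cons_val_one]
        have e1 : (z : k) ^ 5 = 1 := by rw [← Units.val_pow_eq_pow_val, hz, Units.val_one]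
        have e2 : ((z⁻¹ : kˣ) : k) ^ 5 = 1 := by
          rw [← Units.val_pow_eq_pow_val, inv_pow, hz, inv_one, Units.val_one]
        rw [mul_pow, mul_pow, e1, e2, one_mul, one_mul]
      · rw [sye_mat (a := (z : k)) (b := 0) (c := 0) (d := ((z⁻¹ : kˣ) : k))]
        · rw [Units.mul_inv]; ring
        · intro u
          rw [hM]
          simp
    have hz5 : ∀ i : ℕ, (ζ ^ i) ^ 5 = 1 := by
      intro i
      rw [← pow_mul, mul_comm, pow_mul, hζ.pow_eq_one, one_pow]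
    obtain ⟨i, hi | hi⟩ := sye_dih g
    · obtain ⟨M, m1, m2, m3⟩ := key (ζ ^ i) (hz5 i)
      refine ⟨M, ?_, m2, ?_⟩
      · intro u
        rw [m1, hi, hpow]
      · show d * (Matrix.det (M : Matrix (Fin 2) (Fin 2) k)) ^ 10 = d
        rw [m3, one_pow, mul_one]
    · obtain ⟨M, m1, m2, m3⟩ := key (ζ ^ i) (hz5 i)
      have hM : ∀ u : Fin 2 → k, glm (0 : k) 1 1 0 (by simp) • u = ![u 1, u 0] := by
        intro u
        rw [sye_entries]
        funext i
        fin_cases i <;> simp [glm]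
      have hS : glm (0 : k) 1 1 0 (by simp) • N3 k = N3 k := by
        apply sye_eq
        intro u
        rw [hM, N3_apply, N3_apply]
        simp only [Matrix.cons_val_zero, Matrix.cons_val_one]
        ring
      have hdS : Matrix.det ((glm (0 : k) 1 1 0 (by simp) : GL (Fin 2) k) :
          Matrix (Fin 2) (Fin 2) k) = -1 := by
        rw [sye_mat (a := 0) (b := 1) (c := 1) (d := 0)]
        · ring
        · intro u
          rw [hM]
          simp
      refine ⟨M * glm (0 : k) 1 1 0 (by simp), ?_, ?_, ?_⟩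
      · intro u
        rw [mul_smul, m1, hM, hi, map_mul, Module.End.mul_apply, hpow, h2]
      · show N3 k = _ • N3 k
        rw [mul_smul, hS, ← m2]
      · show d * (Matrix.det ((M * glm (0 : k) 1 1 0 (by simp) : GL (Fin 2) k) :
          Matrix (Fin 2) (Fin 2) k)) ^ 10 = d
        rw [Units.val_mul, Matrix.det_mul, m3, hdS]
        ring
  · rintro d hd d' hd' M m1 m2
    obtain ⟨s, t, hs, ht, hM⟩ := uniq33 m1.symm
    have st5 : (s * t) ^ 5 = 1 := by rw [mul_pow, hs, ht, one_mul]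
    -- the scalar and the rotation
    have l5 : (s ^ 3 * t ^ 2) ^ 5 = 1 := by
      calc (s ^ 3 * t ^ 2) ^ 5 = (s ^ 5) ^ 3 * (t ^ 5) ^ 2 := by
            rw [mul_pow, ← pow_mul, ← pow_mul, ← pow_mul, ← pow_mul]
        _ = 1 := by rw [hs, ht, one_pow, one_pow, one_mul]
    have l5' : ((s ^ 3 * t ^ 2 : kˣ) : k) ^ 5 = 1 := by
      rw [← Units.val_pow_eq_pow_val, l5, Units.val_one]
    obtain ⟨i, -, hi'⟩ := (IsPrimitiveRoot.coe_units_iff.2 hζ).eq_pow_of_pow_eq_one l5'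
    have hi : ζ ^ i = s ^ 3 * t ^ 2 := by
      apply Units.ext
      rw [Units.val_pow_eq_pow_val]
      exact hi'
    have es : (s * t) ^ 3 * (s ^ 3 * t ^ 2) = s := by
      calc (s * t) ^ 3 * (s ^ 3 * t ^ 2) = s * s ^ 5 * t ^ 5 := by
            rw [mul_pow]
            have e1 : s * s ^ 5 = s ^ 3 * s ^ 3 := by rw [← pow_succ', ← pow_add]
            have e2 : t ^ 5 = t ^ 3 * t ^ 2 := by rw [← pow_add]
            rw [e1, e2]
            exact mul_mul_mul_comm _ _ _ _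
        _ = s := by rw [hs, ht, mul_one, mul_one]
    have et : (s * t) ^ 3 * (s ^ 3 * t ^ 2)⁻¹ = t := by
      rw [mul_inv_eq_iff_eq_mul, mul_pow]
      have e1 : s ^ 3 * t ^ 3 = s ^ 3 * (t * t ^ 2) := by rw [← pow_succ']
      rw [e1, ← mul_assoc, ← mul_assoc, mul_comm (s ^ 3) t]
    have dets : Matrix.det (M : Matrix (Fin 2) (Fin 2) k) ^ 10 = 1 := by
      have st5' : ((s : k) * t) ^ 5 = 1 := by
        rw [← Units.val_mul, ← Units.val_pow_eq_pow_val, st5, Units.val_one]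
      rcases hM with hM | hM
      · rw [sye_mat (a := (s : k)) (b := 0) (c := 0) (d := (t : k))]
        · calc ((s : k) * t - 0 * 0) ^ 10 = (((s : k) * t) ^ 5) ^ 2 := by ring
            _ = 1 := by rw [st5', one_pow]
        · intro u
          rw [hM]
          simp
      · rw [sye_mat (a := 0) (b := (s : k)) (c := (t : k)) (d := 0)]
        · calc ((0 : k) * 0 - s * t) ^ 10 = (((s : k) * t) ^ 5) ^ 2 := by ring
            _ = 1 := by rw [st5', one_pow]
        · intro u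
          rw [hM]
          simp
    have hdd : d = d' := by
      have m2' : d' * Matrix.det (M : Matrix (Fin 2) (Fin 2) k) ^ 10 = d := m2
      rw [← m2', dets, mul_one]
    have rot : ∀ u : Fin 2 → k, (((s * t) ^ 3 : kˣ) : k) • ρ (DihedralGroup.r 1 ^ i) u =
        ![(s : k) * u 0, (t : k) * u 1] := by
      intro u
      rw [hpow, hi]
      funext j
      fin_cases j
      · show (((s * t) ^ 3 : kˣ) : k) * (((s ^ 3 * t ^ 2 : kˣ) : k) * u 0) = (s : k) * u 0
        rw [← mul_assoc, ← Units.val_mul, es]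
      · show (((s * t) ^ 3 : kˣ) : k) * ((((s ^ 3 * t ^ 2)⁻¹ : kˣ) : k) * u 1) = (t : k) * u 1
        rw [← mul_assoc, ← Units.val_mul, et]
    rcases hM with hM | hM
    · refine ⟨DihedralGroup.r 1 ^ i, (((s * t) ^ 3 : kˣ) : k), hdd, ?_⟩
      intro u
      rw [hM, rot]
    · refine ⟨DihedralGroup.r 1 ^ i * DihedralGroup.sr 0, (((s * t) ^ 3 : kˣ) : k), hdd, ?_⟩
      intro u
      rw [hM, map_mul, Module.End.mul_apply, rot, h2]
      simp
  · rintro ⟨F, d⟩ ⟨hY, M, h3⟩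
    have hD := sye_det_ne M
    have e4 : d / (Matrix.det (M : Matrix (Fin 2) (Fin 2) k)) ^ 10 *
        (Matrix.det (M : Matrix (Fin 2) (Fin 2) k)) ^ 10 = d :=
      div_mul_cancel₀ _ (pow_ne_zero _ hD)
    have e5 := Y5_smul hY M e4
    have h3' : M • F = N3 k := h3
    rw [h3'] at e5
    exact ⟨_, disc3.1 e5, M, h3'.symm, e4⟩

theorem E5_cl : clq k (E5 k) (relGA k) = (L ^ 2 * (1 + L)) • ptc k := by
  have hbr : br (Module.finrank k (Fin 2 → k)) = 1 + L := by
    rw [Module.finrank_fin_fun]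
    simp [br, Finset.sum_range_succ]
  obtain ⟨ρ4, h4⟩ := exists_rep4 (k := k)
  have hζ : ∃ ζ : kˣ, IsPrimitiveRoot ζ 5 := by
    obtain ⟨z, hz⟩ := HasEnoughRootsOfUnity.exists_primitiveRoot k 5
    exact ⟨hz.toRootsOfUnity.1, by
      rw [← IsPrimitiveRoot.coe_units_iff]
      exact hz⟩
  obtain ⟨ζ, hζ⟩ := hζ
  obtain ⟨ρ5, h51, h52⟩ := exists_rep5 hζ.pow_eq_one
  -- the three pieces
  have q1 : Nice (VRep (permRep k 3)) (B1 k) (ρ3 k) := by
    refine niceOn_dihedral (finRotate 3) (Equiv.swap 0 1) 3 Nat.prime_three (by norm_num)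
      (by decide) (by decide) (by decide) ?_ (ρ3 k) _ _ _ B1_st (by simp)
    intro g
    have : ∀ g : Equiv.Perm (Fin 3), ∃ i : Fin 3, g = finRotate 3 ^ (i : ℕ) ∨
        g = finRotate 3 ^ (i : ℕ) * Equiv.swap 0 1 := by decide
    obtain ⟨i, hi⟩ := this g
    exact ⟨i, hi⟩
  have q2 : Nice (A2 k) (B2 k) ρ4 :=
    niceOn_comm (fun g h => mul_comm g h) ρ4 _ _ _ B2_st (by simp)
  have q3 : Nice (FAct.triv k (DihedralGroup 5) k) {d : k | d ^ 2 = 3125} ρ5 := by
    refine niceOn_dihedral (DihedralGroup.r 1) (DihedralGroup.sr 0) 5 Nat.prime_five (by norm_num)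
      (by decide) (by decide) (by decide) sye_dih ρ5 _ _ _ syeB3_st (by simp)
  unfold Nice at q1 q2 q3
  have q4 : fcl (FAct.triv k (DihedralGroup 5) k) {d : k | d ^ 2 = 3125} =
      (2 : Polynomial ℤ) • ptc k := by
    rw [fcl_trivial (fun g x _ => rfl)]
    exact base3
  rw [Y5_cl, Y5_strata, Z1_slice, Z2_slice h4, Z3_slice hζ h51 h52, q1, q2, q3, hbr, base1, base2,
    q4, smul_smul, smul_smul, smul_smul, ← add_smul, ← add_smul]
  congr 1
  ring

end Pool.Agent.MRat
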