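import Pool.Agent.Lib.MP_923aff_ag.RatDefs
/-!
# Varieties over a field as schemes and their Grothendieck group

Definitions only.
-/

set_option autoImplicit false

namespace Pool.Agent.MRat

open AlgebraicGeometry CategoryTheory

/-- A variety over `k`: a reduced separated scheme of finite type over `k`. -/
structure Var (k : Type) [Field k] where
  X : Scheme.{0}
  str : X ⟶ Spec (CommRingCat.of k)
  red : IsReduced X
  sep : IsSeparated str
  lft : LocallyOfFiniteType str
  qc : QuasiCompact str

attribute [instance] Var.red Var.sep Var.lft Var.qc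

/-- The defining relations of the Grothendieck group of varieties: isomorphisms over `k`, and
`[X] = [Z] + [U]` for a closed subvariety `Z` of `X` with open complement `U`. -/
inductive VRel (k : Type) [Field k] : FreeAbelianGroup (Var k) → Prop
  | iso (X Y : Var k) (e : X.X ≅ Y.X) (he : e.hom ≫ Y.str = X.str) :
      VRel k (FreeAbelianGroup.of X - FreeAbelianGroup.of Y)
  | scissor (X Z U : Var k) (i : Z.X ⟶ X.X) (j : U.X ⟶ X.X) (hi : i ≫ X.str = Z.str)
      (hj : j ≫ X.str = U.str) (ci : IsClosedImmersion i) (oj : IsOpenImmersion j)
      (h : Set.range i = (Set.range j)ᶜ) :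
      VRel k (FreeAbelianGroup.of X - FreeAbelianGroup.of Z - FreeAbelianGroup.of U)

/-- The Grothendieck group `K₀(Var_k)`. -/
def K0Var (k : Type) [Field k] : Type 1 :=
  FreeAbelianGroup (Var k) ⧸ AddSubgroup.closure {z | VRel k z}

noncomputable instance (k : Type) [Field k] : AddCommGroup (K0Var k) :=
  inferInstanceAs (AddCommGroup (FreeAbelianGroup (Var k) ⧸ AddSubgroup.closure {z | VRel k z}))

/-- The class of a variety. -/
def Var.cl {k : Type} [Field k] (X : Var k) : K0Var k :=
  QuotientAddGroup.mk (FreeAbelianGroup.of X)

/-- The affine variety with coordinate ring `B`. -/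
noncomputable def Var.ofAlg (k : Type) [Field k] (B : Type) [CommRing B] [Algebra k B]
    [Algebra.FiniteType k B] [_root_.IsReduced B] : Var k where
  X := Spec (CommRingCat.of B)
  str := Spec.map (CommRingCat.ofHom (algebraMap k B))
  red := inferInstance
  sep := inferInstance
  lft := by
    rw [HasRingHomProperty.Spec_iff (P := @LocallyOfFiniteType)]
    exact (RingHom.finiteType_algebraMap).2 inferInstance
  qc := inferInstance

/-- Affine space `𝔸ⁿ`. -/
noncomputable def Var.aff (k : Type) [Field k] (n : ℕ) : Var k :=
  Var.ofAlg k (MvPolynomial (Fin n) k)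

/-- The point of affine space with coordinates `x`. -/
noncomputable def ptA (k : Type) [Field k] {n : ℕ} (x : Fin n → k) : (Var.aff k n).X :=
  (⟨RingHom.ker (MvPolynomial.eval x), RingHom.ker_isPrime _⟩ :
    PrimeSpectrum (MvPolynomial (Fin n) k))

/-- The variety of pairs of binary forms of degree `d` without common zero, the cone over the space
`Rat_d` of rational maps of degree `d`: the largest open subscheme of `𝔸^(2d+2)` all of whose
`k`-points are pairs of forms without common zero. -/
noncomputable def ratOpen (k : Type) [Field k] (d : ℕ) : (Var.aff k ((d + 1) + (d + 1))).X.Opens :=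
  sSup {W | ∀ x : Fin ((d + 1) + (d + 1)) → k, ptA k x ∈ W → x ∈ RatSet k d}

end Pool.Agent.MRat
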