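import Pool.Agent.Lib.MP_923aff_ag.FA8
import Pool.Agent.Lib.MP_923aff_ag.FA9
import Pool.Agent.Lib.MP_923aff_ag.ICE
import Pool.Agent.Lib.MP_923aff_ag.FG
/-!
# Tuples of points, quintic forms: definitions
-/

set_option autoImplicit false

namespace Pool.Agent.MRat

open scoped MatrixGroups LinearAlgebra.Projectivization

section defs
variable (k : Type) [Field k]

/-- Even permutations and affine maps. -/
def relAA (n : ℕ) (a b : Fin n → k) : Prop :=
  ∃ (c : kˣ) (e : k) (σ : Equiv.Perm (Fin n)), σ ∈ alternatingGroup (Fin n) ∧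
    ∀ i, b i = c * a (σ i) + e

/-- Permutations and scaling. -/
def relMS (n : ℕ) (a b : Fin n → k) : Prop :=
  ∃ (c : kˣ) (σ : Equiv.Perm (Fin n)), ∀ i, b i = c * a (σ i)

/-- Tuples of distinct elements. -/
def InjT (n : ℕ) : Set (Fin n → k) := {a | Function.Injective a}

/-- Non-constant tuples. -/
def NC (n : ℕ) : Set (Fin n → k) := {a | ∃ i j, a i ≠ a j}

/-- Five distinct points and one further point of the projective line. -/
def E5 : Set ((Fin 5 → PL k) × PL k) := {p | Function.Injective p.1}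

/-- Even permutations of the five points and the action of `PGL₂`. -/
def relGA (p q : (Fin 5 → PL k) × PL k) : Prop :=
  ∃ (g : PGL(2, k)) (σ : Equiv.Perm (Fin 5)), σ ∈ alternatingGroup (Fin 5) ∧
    (∀ i, q.1 i = g • p.1 (σ i)) ∧ q.2 = g • p.2

end defs

section
variable {k : Type} [Field k] [IsAlgClosed k] [CharZero k]

/-- Quintic forms with five different zeros, together with a square root of the discriminant. -/
def Y5 (k : Type) [Field k] : Set (Form k 5 × k) :=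
  {p | ∃ v : Fin 5 → (Fin 2 → k), (∀ i j, i ≠ j → lin (v i) (v j) ≠ 0) ∧
    (∀ u, p.1.1 u = ∏ i, lin (v i) u) ∧ p.2 = ∏ i, ∏ j ∈ Finset.Ioi i, lin (v i) (v j)}

/-- The action of `GL₂` on pairs in `Y5` and points of the projective line. -/
def relRG (k : Type) [Field k] [IsAlgClosed k] [CharZero k]
    (p q : (Form k 5 × k) × PL k) : Prop :=
  ∃ M : GL (Fin 2) k, q.1.1 = M • p.1.1 ∧
    q.1.2 * (Matrix.det (M : Matrix (Fin 2) (Fin 2) k)) ^ 10 = p.1.2 ∧
    q.2 = (Matrix.ProjGenLinGroup.mk M : PGL(2, k)) • p.2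

/-- `a0 x⁵ + a1 y⁵ + a2 z⁵`, `x + y + z = 0`. -/
noncomputable def N1 (a : Fin 3 → k) : Form k 5 :=
  Form.of ![a 1 - a 2, -5 * a 2, -10 * a 2, -10 * a 2, -5 * a 2, a 0 - a 2]

/-- `x⁵ + 5 x y⁴ + a y⁵`. -/
noncomputable def N2 (a : k) : Form k 5 := Form.of ![a, 5, 0, 0, 0, 1]

/-- `x⁵ + y⁵`. -/
noncomputable def N3 (k : Type) [Field k] [IsAlgClosed k] [CharZero k] : Form k 5 :=
  Form.of ![1, 0, 0, 0, 0, 1]

theorem N1_apply (a : Fin 3 → k) (u : Fin 2 → k) :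
    (N1 a).1 u = a 0 * u 0 ^ 5 + a 1 * u 1 ^ 5 + a 2 * (-(u 0 + u 1)) ^ 5 := by
  rw [N1, Form.of_apply]
  simp [Fin.sum_univ_succ]
  ring

theorem N2_apply (a : k) (u : Fin 2 → k) :
    (N2 a).1 u = u 0 ^ 5 + 5 * u 0 * u 1 ^ 4 + a * u 1 ^ 5 := by
  rw [N2, Form.of_apply]
  simp [Fin.sum_univ_succ]
  ring

theorem N3_apply (u : Fin 2 → k) : (N3 k).1 u = u 0 ^ 5 + u 1 ^ 5 := by
  rw [N3, Form.of_apply]
  simp [Fin.sum_univ_succ]
  ring

/-- The discriminant of `N1 a` is `3125` times this polynomial. -/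
def D1 (a : Fin 3 → k) : k :=
  ((a 0 * a 1 + a 1 * a 2 + a 2 * a 0) ^ 2 -
      4 * (a 0 + a 1 + a 2) * (a 0 * a 1 * a 2)) ^ 2 -
    128 * (a 0 * a 1 + a 1 * a 2 + a 2 * a 0) * (a 0 * a 1 * a 2) ^ 2

end

end Pool.Agent.MRat
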