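import Pool.Agent.Lib.MP_923aff_ag.QA
import Pool.Agent.Lib.MP_923aff_ag.FGM
/-!
# JOB TG1: strata of a `PGL₂`-space according to the type of the (finite) stabilisers

`stab x` is the stabiliser in `PGL(2, k)`. Parts of a stable set `s`: `sF` trivial stabiliser, `sA` stabiliser with
a canonical axis, `sV` with a canonical Klein four group, `sI` conjugate to the icosahedral group.

`stab_smul`: `MulAction.stabilizer_smul_eq_stabilizer_map_conj`. `ax_dm`: for finite `Γ = stab x`, `Nat.card Γ = 2` and `3 ≤ se Γ p`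
are first order statements (existence of two or three different elements, ...); `DM.congr_iff` and `fun_prop`.
`sV_iff`: `v4_conj`, `canV_conj`. `sA_iff`: `trans_two`, `axPair_conj`. `tg_part`: `pgl_classification`; disjointness
by `ico_not_ax` and cardinalities.
-/

set_option autoImplicit false

namespace Pool.Agent.MRat

open scoped MatrixGroups LinearAlgebra.Projectivization

noncomputable section

variable {k : Type} [Field k] [IsAlgClosed k] [CharZero k]
variable {X Y Z : Type} [DT k X] [DT k Y] [DT k Z]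
variable [MulAction PGL(2, k) X] [MulAction PGL(2, k) Z]

/-- The stabiliser in `PGL₂`. -/
abbrev stab (k : Type) [Field k] {X : Type} [MulAction PGL(2, k) X] (x : X) : Subgroup PGL(2, k) :=
  MulAction.stabilizer PGL(2, k) x

/-- All stabilisers of points of `s` are finite. -/
def FinS (k : Type) [Field k] {X : Type} [MulAction PGL(2, k) X] (s : Set X) : Prop :=
  ∀ x ∈ s, {g : PGL(2, k) | g • x = x}.Finite

/-- Trivial stabiliser. -/
def sF (k : Type) [Field k] {X : Type} [MulAction PGL(2, k) X] (s : Set X) : Set X :=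
  {x ∈ s | stab k x = ⊥}

/-- The stabiliser has a canonical axis. -/
def sA (k : Type) [Field k] {X : Type} [MulAction PGL(2, k) X] (s : Set X) : Set X :=
  {x ∈ s | ∃ p q : PL k, AxPair (stab k x) p q}

/-- The canonical axis is `{∞, 0}`. -/
def sA0 (k : Type) [Field k] {X : Type} [MulAction PGL(2, k) X] (s : Set X) : Set X :=
  {x ∈ s | AxPair (stab k x) (ptI k) (ptz (0 : k))}

/-- The stabiliser has a canonical Klein four group. -/
def sV (k : Type) [Field k] {X : Type} [MulAction PGL(2, k) X] (s : Set X) : Set X :=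
  {x ∈ s | ∃ V : Subgroup PGL(2, k), CanV (PL k) (stab k x) V}

/-- The canonical Klein four group is the standard one. -/
def sV0 (k : Type) [Field k] {X : Type} [MulAction PGL(2, k) X] (s : Set X) : Set X :=
  {x ∈ s | CanV (PL k) (stab k x) (V4std k)}

/-- The stabiliser is conjugate to the icosahedral group. -/
def sI (k : Type) [Field k] {X : Type} [MulAction PGL(2, k) X] (s : Set X) : Set X :=
  {x ∈ s | ∃ g : PGL(2, k), (stab k x).map (MulAut.conj g).toMonoidHom = Ico k}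

/-- The stabiliser is the icosahedral group. -/
def sI0 (k : Type) [Field k] {X : Type} [MulAction PGL(2, k) X] (s : Set X) : Set X :=
  {x ∈ s | stab k x = Ico k}

omit [DT k X] in
theorem FinS.fin {s : Set X} (fin : FinS k s) {x : X} (hx : x ∈ s) : Finite (stab k x) := by
  have h := fin x hx
  exact h.to_subtype

omit [DT k X] in
theorem FinS.mono {s t : Set X} (fin : FinS k s) (hts : t ⊆ s) : FinS k t :=
  fun x hx => fin x (hts hx)

omit [DT k X] in
theorem stab_smul (g : PGL(2, k)) (x : X) :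
    stab k (g • x) = (stab k x).map (MulAut.conj g).toMonoidHom := by
  exact MulAction.stabilizer_smul_eq_stabilizer_map_conj g x

variable [DAct k PGL(2, k) X] [DAct k PGL(2, k) Z]

private theorem TG1a_card2 {G : Type} [Group G] (P : G → Prop) (h1 : P 1) :
    Nat.card {g // P g} = 2 ↔ ∃ g, g ≠ 1 ∧ P g ∧ ∀ h, ¬ P h ∨ (h = 1 ∨ h = g) := by
  have e : Nat.card {g // P g} = ({g | P g} : Set G).ncard := Nat.card_coe_set_eq {g | P g}
  rw [e, Set.ncard_eq_two]
  constructor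
  · rintro ⟨x, y, hxy, h⟩
    have hx : P x := by
      have : x ∈ ({g | P g} : Set G) := by rw [h]; simp
      exact this
    have hy : P y := by
      have : y ∈ ({g | P g} : Set G) := by rw [h]; simp
      exact this
    have hm : ∀ z, P z → z = x ∨ z = y := fun z hz => by
      have : z ∈ ({g | P g} : Set G) := hz
      rw [h] at this
      simpa using this
    rcases hm 1 h1 with h2 | h2
    · refine ⟨y, fun h3 => hxy (by rw [← h2, h3]), hy, fun h => ?_⟩
      by_cases hh : P h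
      · right
        rcases hm h hh with h4 | h4
        · left; rw [h4, h2]
        · right; exact h4
      · left; exact hh
    · refine ⟨x, fun h3 => hxy (by rw [← h2, h3]), hx, fun h => ?_⟩
      by_cases hh : P h
      · right
        rcases hm h hh with h4 | h4
        · right; exact h4
        · left; rw [h4, h2]
      · left; exact hh
  · rintro ⟨g, hg1, hg, hall⟩
    refine ⟨1, g, hg1.symm, ?_⟩
    ext z
    simp only [Set.mem_setOf_eq, Set.mem_insert_iff, Set.mem_singleton_iff]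
    constructor
    · intro hz
      exact (hall z).resolve_left (not_not.2 hz)
    · rintro (rfl | rfl)
      · exact h1
      · exact hg

private theorem TG1a_card3 {G : Type} [Group G] (P : G → Prop) (h1 : P 1)
    (fin : ({g | P g} : Set G).Finite) :
    3 ≤ Nat.card {g // P g} ↔ ∃ g h, g ≠ 1 ∧ h ≠ 1 ∧ g ≠ h ∧ P g ∧ P h := by
  have e : Nat.card {g // P g} = ({g | P g} : Set G).ncard := Nat.card_coe_set_eq {g | P g}
  rw [e]
  have e2 := Set.two_lt_ncard fin
  constructor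
  · intro h
    obtain ⟨a, ha, b, hb, c, hc, hab, hac, hbc⟩ := e2.1 h
    simp only [Set.mem_setOf_eq] at ha hb hc
    by_cases h2 : a = 1
    · subst h2
      exact ⟨b, c, hab.symm, hac.symm, hbc, hb, hc⟩
    · by_cases h3 : b = 1
      · subst h3
        exact ⟨a, c, h2, hbc.symm, hac, ha, hc⟩
      · exact ⟨a, b, h2, h3, hab, ha, hb⟩
  · rintro ⟨g, h, hg1, hh1, hgh, hg, hh⟩
    exact e2.2 ⟨1, h1, g, hg, h, hh, hg1.symm, hh1.symm, hgh⟩

theorem ax_dm {s : Set X} (hs : GSet k PGL(2, k) s) (fin : FinS k s) :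
    DM k (fun p : X × PL k => p.1 ∈ s ∧ Ax (stab k p.1) p.2) := by
  classical
  have hsd : DM k (fun p : X × PL k => p.1 ∈ s) := by
    have h := DM.comp hs.ds (DM.fst (DM.id' (k := k) (X := X × PL k)))
    exact h
  have key : DM k (fun p : X × PL k =>
      ((∃ g : PGL(2, k), g ≠ 1 ∧ g • p.1 = p.1 ∧ ∀ h : PGL(2, k), ¬ (h • p.1 = p.1) ∨
          (h = 1 ∨ h = g)) ∧
        (∃ g : PGL(2, k), g ≠ 1 ∧ (g • p.1 = p.1 ∧ g • p.2 = p.2) ∧
          ∀ h : PGL(2, k), ¬ (h • p.1 = p.1 ∧ h • p.2 = p.2) ∨ (h = 1 ∨ h = g))) ∨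
      ((∃ g h : PGL(2, k), g ≠ 1 ∧ h ≠ 1 ∧ g ≠ h ∧ (g • p.1 = p.1 ∧ g • p.2 = p.2) ∧
          (h • p.1 = p.1 ∧ h • p.2 = p.2)) ∧
        ∀ x : PL k, ¬ (∃ g h : PGL(2, k), g ≠ 1 ∧ h ≠ 1 ∧ g ≠ h ∧
          (g • p.1 = p.1 ∧ g • x = x) ∧ (h • p.1 = p.1 ∧ h • x = x)) ∨
          ∀ g : PGL(2, k), ¬ (g • p.1 = p.1) ∨ (¬ (g • p.2 = p.2) ∨ g • x = x))) := by
    refine DM.or (DM.and ?_ ?_) (DM.and ?_ ?_)
    · refine DM.ex (DM.and (by fun_prop) (DM.and (by fun_prop) (DM.all ?_)))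
      fun_prop
    · refine DM.ex (DM.and (by fun_prop) (DM.and (by fun_prop) (DM.all ?_)))
      fun_prop
    · refine DM.ex (DM.ex ?_)
      fun_prop
    · refine DM.all (DM.or (DM.not (DM.ex (DM.ex ?_))) (DM.all ?_))
      · fun_prop
      · fun_prop
  refine (hsd.and key).congr_iff (fun p => and_congr_right fun hx => ?_)
  haveI := fin.fin hx
  have c2 : Nat.card (stab k p.1) = 2 ↔ ∃ g : PGL(2, k), g ≠ 1 ∧ g • p.1 = p.1 ∧
      ∀ h : PGL(2, k), ¬ (h • p.1 = p.1) ∨ (h = 1 ∨ h = g) :=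
    TG1a_card2 (fun g : PGL(2, k) => g • p.1 = p.1) (one_smul _ _)
  have s2 : se (stab k p.1) p.2 = 2 ↔ ∃ g : PGL(2, k), g ≠ 1 ∧ (g • p.1 = p.1 ∧ g • p.2 = p.2) ∧
          ∀ h : PGL(2, k), ¬ (h • p.1 = p.1 ∧ h • p.2 = p.2) ∨ (h = 1 ∨ h = g) :=
    TG1a_card2 (fun g : PGL(2, k) => g • p.1 = p.1 ∧ g • p.2 = p.2) ⟨one_smul _ _, one_smul _ _⟩
  have s3 : ∀ x : PL k, 3 ≤ se (stab k p.1) x ↔ ∃ g h : PGL(2, k), g ≠ 1 ∧ h ≠ 1 ∧ g ≠ h ∧
      (g • p.1 = p.1 ∧ g • x = x) ∧ (h • p.1 = p.1 ∧ h • x = x) := fun x =>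
    TG1a_card3 (fun g : PGL(2, k) => g • p.1 = p.1 ∧ g • x = x) ⟨one_smul _ _, one_smul _ _⟩
      ((fin p.1 hx).subset fun g hg => hg.1)
  unfold Ax
  rw [c2, s2, s3 p.2]
  refine or_congr Iff.rfl (and_congr Iff.rfl (forall_congr' fun x => ?_))
  rw [s3 x, imp_iff_not_or]
  refine or_congr Iff.rfl (forall_congr' fun g => ?_)
  rw [imp_iff_not_or, imp_iff_not_or]
  exact Iff.rfl

theorem axPair_dm {s : Set X} (hs : GSet k PGL(2, k) s) (fin : FinS k s) :
    DM k (fun p : X × PL k × PL k => p.1 ∈ s ∧ AxPair (stab k p.1) p.2.1 p.2.2) := by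
  have h1 := ax_dm hs fin
  have e1 := DM.comp h1 (f := fun p : X × PL k × PL k => (p.1, p.2.1)) (by fun_prop)
  have e2 := DM.comp h1 (f := fun p : X × PL k × PL k => (p.1, p.2.2)) (by fun_prop)
  have e3 : DM k (fun p : X × PL k × PL k => p.2.1 ≠ p.2.2) :=
    DM.ne (DM.fst (DM.snd DM.id')) (DM.snd (DM.snd DM.id'))
  refine ((e3.and e1).and e2).congr_iff (fun p => ?_)
  constructor
  · rintro ⟨⟨h1, h2⟩, h3⟩
    exact ⟨h2.1, h1, h2.2, h3.2⟩
  · rintro ⟨h1, h2, h3, h4⟩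
    exact ⟨⟨h2, h1, h3⟩, h1, h4⟩

theorem sA0_dm {s : Set X} (hs : GSet k PGL(2, k) s) (fin : FinS k s) :
    DM k (fun x => x ∈ sA0 k s) := by
  have h := DM.comp (axPair_dm hs fin) (f := fun x : X => (x, ptI k, ptz (0 : k))) (by fun_prop)
  exact h

theorem sV0_dm {s : Set X} (hs : GSet k PGL(2, k) s) (fin : FinS k s) :
    DM k (fun x => x ∈ sV0 k s) := by
  have h1 : DM k (fun x : X => ∃ p : PL k, x ∈ s ∧ Ax (stab k x) p) := DM.ex (ax_dm hs fin)
  have hV : DM k (fun g : PGL(2, k) => g ∈ V4std k) := by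
    have h : DM k (fun g : PGL(2, k) => g = 1 ∨ g = tor (-1) ∨ g = swp k ∨
      g = tor (-1) * swp k) := by fun_prop
    exact h.congr_iff (fun g => mem_V4std.symm)
  have hN : DM k (fun g : PGL(2, k) => g ∈ Subgroup.normalizer
      ((V4std k : Subgroup PGL(2, k)) : Set PGL(2, k))) := by
    have e1 := DM.comp hV (DM.snd (DM.id' (k := k) (X := PGL(2, k) × PGL(2, k))))
    have e2 := DM.comp hV (f := fun p : PGL(2, k) × PGL(2, k) => p.1 * p.2 * p.1⁻¹) (by fun_prop)
    have e3 : DM k (fun g : PGL(2, k) => ∀ h : PGL(2, k), h ∈ V4std k ↔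
      g * h * g⁻¹ ∈ V4std k) := DM.all (DM.iff e1 e2)
    refine e3.congr_iff (fun g => ?_)
    rw [Subgroup.mem_normalizer_iff]
  have h2 : DM k (fun x : X => (tor (-1 : kˣ) • x = x ∧ swp k • x = x)) := by fun_prop
  have h3 : DM k (fun x : X => ∀ g : PGL(2, k), ¬ (g • x = x) ∨ g ∈ Subgroup.normalizer
      ((V4std k : Subgroup PGL(2, k)) : Set PGL(2, k))) := by
    refine DM.all (DM.or (by fun_prop) ?_)
    have h := DM.comp hN (DM.snd (DM.id' (k := k) (X := X × PGL(2, k))))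
    exact h
  refine (hs.ds.and (h1.not.and (h2.and h3))).congr_iff (fun x => ?_)
  constructor
  · rintro ⟨hx, h1, h2, h3⟩
    refine ⟨hx, fun ⟨p, hp⟩ => h1 ⟨p, hx, hp⟩, isV4_V4std, ?_, ?_⟩
    · intro g hg
      rw [mem_V4std] at hg
      have m1 : tor (-1 : kˣ) ∈ stab k x := h2.1
      have m2 : swp k ∈ stab k x := h2.2
      rcases hg with rfl | rfl | rfl | rfl
      · exact Subgroup.one_mem _
      · exact m1
      · exact m2
      · exact Subgroup.mul_mem _ m1 m2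
    · intro g hg
      exact (h3 g).resolve_left (not_not.2 hg)
  · rintro ⟨hx, h1, -, h2, h3⟩
    refine ⟨hx, fun ⟨p, hp⟩ => h1 ⟨p, hp.2⟩, ⟨?_, ?_⟩, ?_⟩
    · exact h2 (mem_V4std.2 (Or.inr (Or.inl rfl)))
    · exact h2 (mem_V4std.2 (Or.inr (Or.inr (Or.inl rfl))))
    · intro g
      by_cases hg : g • x = x
      · exact Or.inr (h3 hg)
      · exact Or.inl hg

theorem sI0_dm {s : Set X} (hs : GSet k PGL(2, k) s) : DM k (fun x => x ∈ sI0 k s) := by
  have hI : DM k (fun g : PGL(2, k) => g ∈ Ico k) := by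
    have h : DM k (fun g : PGL(2, k) => ∃ i : Ico k, g = i) :=
      DM.fex (fun i => by fun_prop)
    refine h.congr_iff (fun g => ⟨?_, fun hg => ⟨⟨g, hg⟩, rfl⟩⟩)
    rintro ⟨i, rfl⟩
    exact i.2
  have h1 : DM k (fun x : X => ∀ g : PGL(2, k), g • x = x ↔ g ∈ Ico k) := by
    refine DM.all (DM.iff (by fun_prop) ?_)
    have h := DM.comp hI (DM.snd (DM.id' (k := k) (X := X × PGL(2, k))))
    exact h
  refine (hs.ds.and h1).congr_iff (fun x => and_congr_right fun _ => ?_)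
  constructor
  · intro h
    ext g
    exact h g
  · intro h g
    rw [← h]
    exact Iff.rfl

theorem sF_gset {s : Set X} (hs : GSet k PGL(2, k) s) : GSet k PGL(2, k) (sF k s) := by
  constructor
  · have h1 : DM k (fun x : X => ∀ g : PGL(2, k), ¬ (g • x = x) ∨ g = 1) := by
      refine DM.all ?_
      fun_prop
    refine (hs.ds.and h1).congr_iff (fun x => and_congr_right fun _ => ?_)
    rw [Subgroup.eq_bot_iff_forall]
    refine forall_congr' fun g => ?_
    rw [← imp_iff_not_or]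
    exact Iff.rfl
  · rintro g x ⟨hx, hb⟩
    refine ⟨hs.st g x hx, ?_⟩
    rw [stab_smul, hb, Subgroup.map_bot]

theorem sA_iff {s : Set X} (hs : GSet k PGL(2, k) s) (x : X) :
    x ∈ sA k s ↔ ∃ g : PGL(2, k), g • x ∈ sA0 k s := by
  constructor
  · rintro ⟨hx, p, q, h⟩
    obtain ⟨g, hp, hq⟩ := trans_two h.1
    refine ⟨g⁻¹, hs.st _ x hx, ?_⟩
    rw [stab_smul]
    have e1 : ptI k = g⁻¹ • p := by rw [← hp, inv_smul_smul]
    have e2 : ptz (0 : k) = g⁻¹ • q := by rw [← hq, inv_smul_smul]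
    rw [e1, e2, axPair_conj]
    exact h
  · rintro ⟨g, hgx, h⟩
    refine ⟨?_, g⁻¹ • ptI k, g⁻¹ • ptz 0, ?_⟩
    · have := hs.st g⁻¹ _ hgx
      rwa [inv_smul_smul] at this
    · have e : stab k x = (stab k (g • x)).map (MulAut.conj g⁻¹).toMonoidHom := by
        rw [← stab_smul, inv_smul_smul]
      rw [e, axPair_conj]
      exact h

theorem sV_iff {s : Set X} (hs : GSet k PGL(2, k) s) (x : X) :
    x ∈ sV k s ↔ ∃ g : PGL(2, k), g • x ∈ sV0 k s := by
  constructor
  · rintro ⟨hx, V, h⟩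
    obtain ⟨g, hg⟩ := v4_conj h.2.1
    refine ⟨g, hs.st _ x hx, ?_⟩
    rw [stab_smul, ← hg, canV_conj]
    exact h
  · rintro ⟨g, hgx, h⟩
    refine ⟨?_, (V4std k).map (MulAut.conj g⁻¹).toMonoidHom, ?_⟩
    · have := hs.st g⁻¹ _ hgx
      rwa [inv_smul_smul] at this
    · have e : stab k x = (stab k (g • x)).map (MulAut.conj g⁻¹).toMonoidHom := by
        rw [← stab_smul, inv_smul_smul]
      rw [e, canV_conj]
      exact h

theorem sI_iff {s : Set X} (hs : GSet k PGL(2, k) s) (x : X) :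
    x ∈ sI k s ↔ ∃ g : PGL(2, k), g • x ∈ sI0 k s := by
  constructor
  · rintro ⟨hx, g, h⟩
    refine ⟨g, hs.st _ x hx, ?_⟩
    rw [stab_smul]
    exact h
  · rintro ⟨g, hgx, h⟩
    refine ⟨?_, g, ?_⟩
    · have := hs.st g⁻¹ _ hgx
      rwa [inv_smul_smul] at this
    · rw [← stab_smul]
      exact h

theorem sA_gset {s : Set X} (hs : GSet k PGL(2, k) s) (fin : FinS k s) :
    GSet k PGL(2, k) (sA k s) := by
  constructor
  · have h0 := sA0_dm hs fin
    have h1 : DM k (fun x : X => ∃ g : PGL(2, k), g • x ∈ sA0 k s) := by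
      refine DM.ex ?_
      have h2 := DM.comp h0 (f := fun p : X × PGL(2, k) => p.2 • p.1) (by fun_prop)
      exact h2
    exact h1.congr_iff (fun x => (sA_iff hs x).symm)
  · intro g x hx
    rw [sA_iff hs] at hx ⊢
    obtain ⟨h, hh⟩ := hx
    refine ⟨h * g⁻¹, ?_⟩
    rwa [mul_smul, inv_smul_smul]

theorem sV_gset {s : Set X} (hs : GSet k PGL(2, k) s) (fin : FinS k s) :
    GSet k PGL(2, k) (sV k s) := by
  constructor
  · have h0 := sV0_dm hs fin
    have h1 : DM k (fun x : X => ∃ g : PGL(2, k), g • x ∈ sV0 k s) := by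
      refine DM.ex ?_
      have h2 := DM.comp h0 (f := fun p : X × PGL(2, k) => p.2 • p.1) (by fun_prop)
      exact h2
    exact h1.congr_iff (fun x => (sV_iff hs x).symm)
  · intro g x hx
    rw [sV_iff hs] at hx ⊢
    obtain ⟨h, hh⟩ := hx
    refine ⟨h * g⁻¹, ?_⟩
    rwa [mul_smul, inv_smul_smul]

theorem sI_gset {s : Set X} (hs : GSet k PGL(2, k) s) : GSet k PGL(2, k) (sI k s) := by
  constructor
  · have h0 := sI0_dm hs
    have h1 : DM k (fun x : X => ∃ g : PGL(2, k), g • x ∈ sI0 k s) := by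
      refine DM.ex ?_
      have h2 := DM.comp h0 (f := fun p : X × PGL(2, k) => p.2 • p.1) (by fun_prop)
      exact h2
    exact h1.congr_iff (fun x => (sI_iff hs x).symm)
  · intro g x hx
    rw [sI_iff hs] at hx ⊢
    obtain ⟨h, hh⟩ := hx
    refine ⟨h * g⁻¹, ?_⟩
    rwa [mul_smul, inv_smul_smul]

omit [DT k X] [DAct k PGL(2, k) X] in
/-- The four parts cover `s`. -/
theorem tg_cover {s : Set X} (fin : FinS k s) :
    s = ((sF k s ∪ sA k s) ∪ sV k s) ∪ sI k s := by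
  ext x
  constructor
  · intro hx
    by_cases hb : stab k x = ⊥
    · exact Or.inl (Or.inl (Or.inl ⟨hx, hb⟩))
    · haveI := fin.fin hx
      rcases pgl_classification (stab k x) hb with h | h | h
      · exact Or.inl (Or.inl (Or.inr ⟨hx, h⟩))
      · exact Or.inl (Or.inr ⟨hx, h⟩)
      · exact Or.inr ⟨hx, h⟩
  · rintro (((h | h) | h) | h) <;> exact h.1

omit [DT k X] [DAct k PGL(2, k) X] in
/-- The four parts are disjoint. -/
theorem tg_disj {s : Set X} (fin : FinS k s) : Disjoint (sF k s) (sA k s) ∧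
    Disjoint (sF k s ∪ sA k s) (sV k s) ∧ Disjoint ((sF k s ∪ sA k s) ∪ sV k s) (sI k s) := by
  have hF : ∀ x ∈ sF k s, (¬ ∃ p q : PL k, AxPair (stab k x) p q) ∧
      (¬ ∃ V : Subgroup PGL(2, k), CanV (PL k) (stab k x) V) ∧
      ¬ ∃ g : PGL(2, k), (stab k x).map (MulAut.conj g).toMonoidHom = Ico k := by
    rintro x ⟨hx, hb⟩
    refine ⟨?_, ?_, ?_⟩
    · rintro ⟨p, q, h⟩
      haveI := fin.fin hx
      have h1 := ((pol_pgl (stab k x)).axPair_inv h).2.1
      rw [one_lt_se_iff] at h1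
      obtain ⟨g, hg, hne, -⟩ := h1
      rw [hb, Subgroup.mem_bot] at hg
      exact hne hg
    · rintro ⟨V, -, hV, hle, -⟩
      rw [hb, le_bot_iff] at hle
      have h1 := hV.1
      rw [hle, Subgroup.card_bot] at h1
      norm_num at h1
    · rintro ⟨g, hg⟩
      rw [hb, Subgroup.map_bot] at hg
      have h1 := ico_card (k := k)
      rw [← hg, Subgroup.card_bot] at h1
      norm_num at h1
  refine ⟨?_, ?_, ?_⟩
  · rw [Set.disjoint_left]
    intro x hx hA
    exact (hF x hx).1 hA.2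
  · rw [Set.disjoint_left]
    rintro x (hx | hx) hV
    · exact (hF x hx).2.1 hV.2
    · obtain ⟨-, p, q, h⟩ := hx
      obtain ⟨-, V, hV⟩ := hV
      exact hV.1 ⟨p, h.2.1⟩
  · rw [Set.disjoint_left]
    rintro x ((hx | hx) | hx) hI
    · exact (hF x hx).2.2 hI.2
    · obtain ⟨-, p, q, h⟩ := hx
      obtain ⟨-, g, hg⟩ := hI
      exact (ico_not_ax hg).1 ⟨p, h.2.1⟩
    · obtain ⟨-, g, hg⟩ := hI
      exact (ico_not_ax hg).2 hx.2

/-- Decomposition of the class of orbits. -/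
theorem tg_split {s : Set X} (hs : GSet k PGL(2, k) s) (fin : FinS k s) :
    orb k PGL(2, k) s = orb k PGL(2, k) (sF k s) + orb k PGL(2, k) (sA k s) +
      orb k PGL(2, k) (sV k s) + orb k PGL(2, k) (sI k s) := by
  have hF := sF_gset hs
  have hA := sA_gset hs fin
  have hV := sV_gset hs fin
  have hI := sI_gset hs
  obtain ⟨d1, d2, d3⟩ := tg_disj fin
  have u1 : GSet k PGL(2, k) (sF k s ∪ sA k s) :=
    ⟨(hF.ds.or hA.ds), fun g x hx => hx.imp (hF.st g x) (hA.st g x)⟩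
  have u2 : GSet k PGL(2, k) ((sF k s ∪ sA k s) ∪ sV k s) :=
    ⟨(u1.ds.or hV.ds), fun g x hx => hx.imp (u1.st g x) (hV.st g x)⟩
  conv_lhs => rw [tg_cover fin]
  rw [orb_union u2 hI d3, orb_union u1 hV d2, orb_union hF hA d1]

theorem tg_split_prod {s : Set X} (hs : GSet k PGL(2, k) s) (fin : FinS k s) {t : Set Z}
    (ht : GSet k PGL(2, k) t) :
    orb k PGL(2, k) (s ×ˢ t) = orb k PGL(2, k) (sF k s ×ˢ t) + orb k PGL(2, k) (sA k s ×ˢ t) +
      orb k PGL(2, k) (sV k s ×ˢ t) + orb k PGL(2, k) (sI k s ×ˢ t) := by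
  have hF := (sF_gset hs).prod ht
  have hA := (sA_gset hs fin).prod ht
  have hV := (sV_gset hs fin).prod ht
  have hI := (sI_gset hs).prod ht
  obtain ⟨d1, d2, d3⟩ := tg_disj fin
  have u1 : GSet k PGL(2, k) (sF k s ×ˢ t ∪ sA k s ×ˢ t) :=
    ⟨(hF.ds.or hA.ds), fun g x hx => hx.imp (hF.st g x) (hA.st g x)⟩
  have u2 : GSet k PGL(2, k) ((sF k s ×ˢ t ∪ sA k s ×ˢ t) ∪ sV k s ×ˢ t) :=
    ⟨(u1.ds.or hV.ds), fun g x hx => hx.imp (u1.st g x) (hV.st g x)⟩
  have e : s ×ˢ t = ((sF k s ×ˢ t ∪ sA k s ×ˢ t) ∪ sV k s ×ˢ t) ∪ sI k s ×ˢ t := by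
    conv_lhs => rw [tg_cover fin]
    rw [Set.union_prod, Set.union_prod, Set.union_prod]
  have D1 : Disjoint (sF k s ×ˢ t) (sA k s ×ˢ t) := by
    rw [Set.disjoint_left] at d1 ⊢
    exact fun p hp hq => d1 hp.1 hq.1
  have D2 : Disjoint (sF k s ×ˢ t ∪ sA k s ×ˢ t) (sV k s ×ˢ t) := by
    rw [← Set.union_prod]
    rw [Set.disjoint_left] at d2 ⊢
    exact fun p hp hq => d2 hp.1 hq.1
  have D3 : Disjoint ((sF k s ×ˢ t ∪ sA k s ×ˢ t) ∪ sV k s ×ˢ t) (sI k s ×ˢ t) := by
    rw [← Set.union_prod, ← Set.union_prod]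
    rw [Set.disjoint_left] at d3 ⊢
    exact fun p hp hq => d3 hp.1 hq.1
  rw [e, orb_union u2 hI D3, orb_union u1 hV D2, orb_union hF hA D1]

end

end Pool.Agent.MRat
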