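import Pool.Agent.Lib.MP_923aff_ag.TPE
import Pool.Agent.Lib.MP_923aff_ag.TG1
/-!
# The icosahedral stratum
-/

set_option autoImplicit false

namespace Pool.Agent.MRat

open scoped MatrixGroups LinearAlgebra.Projectivization

variable {k : Type} [Field k] [IsAlgClosed k] [CharZero k]
variable {X Z : Type} [DT k X] [DT k Z]
variable [MulAction PGL(2, k) X] [MulAction PGL(2, k) Z]
variable [DAct k PGL(2, k) X] [DAct k PGL(2, k) Z]

omit [DT k X] [DAct k PGL(2, k) X] in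
/-- An element between two points with stabiliser `Ico` belongs to `Ico`. -/
theorem ti_mem {s : Set X} {x y : X} (hx : x ∈ sI0 k s) (hy : y ∈ sI0 k s) {g : PGL(2, k)}
    (h : g • x = y) : g ∈ Ico k ∧ x = y := by
  have h1 := stab_smul (k := k) g x
  rw [h, hx.2, hy.2] at h1
  have h2 : g ∈ Ico k := ico_normalizer h1.symm
  refine ⟨h2, ?_⟩
  have h3 : g ∈ stab k x := by rw [hx.2]; exact h2
  rw [← h]
  exact (MulAction.mem_stabilizer_iff.1 h3).symm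

theorem ti_rel (H : Subgroup PGL(2, k)) (x y : Z) :
    (∃ g ∈ H, g • x = y) ↔ (FAct.ofPGL H Z).rel x y := by
  constructor
  · rintro ⟨g, hg, h⟩
    exact ⟨⟨g, hg⟩, h⟩
  · rintro ⟨g, h⟩
    exact ⟨g.1, g.2, h⟩

theorem ti_dq {s : Set X} (hs : GSet k PGL(2, k) s) :
    DQ k (sI0 k s ×ˢ (Set.univ : Set Z))
      (fun p q => p.1 = q.1 ∧ ∃ g ∈ Ico k, g • p.2 = q.2) := by
  refine clq_prod_dq (DQ.eq (sI0_dm hs)) (r' := fun x y => ∃ g ∈ Ico k, g • x = y) ?_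
  exact (FAct.St.univ (FAct.ofPGL (Ico k) Z)).dq.congr (fun x _ y _ => (ti_rel (Ico k) x y).symm)

theorem ti_orb_prod {s : Set X} (hs : GSet k PGL(2, k) s) :
    orb k PGL(2, k) (sI k s ×ˢ (Set.univ : Set Z)) =
      clq k (sI0 k s ×ˢ (Set.univ : Set Z))
        (fun p q => p.1 = q.1 ∧ ∃ g ∈ Ico k, g • p.2 = q.2) := by
  symm
  refine clq_map (ti_dq hs) ((sI_gset hs).prod (GSet.univ (k := k) (G := PGL(2, k)) (X := Z))).dq
    (fun x => x) DM.id' ?_ ?_ ?_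
  · rintro ⟨x, z⟩ hx
    exact ⟨(sI_iff hs x).2 ⟨1, by rw [one_smul]; exact hx.1⟩, trivial⟩
  · rintro ⟨x, z⟩ hx ⟨y, w⟩ hy
    constructor
    · rintro ⟨h1, g, hg, h2⟩
      refine ⟨g, Prod.ext ?_ h2⟩
      have h3 : g ∈ stab k x := by rw [hx.1.2]; exact hg
      exact (MulAction.mem_stabilizer_iff.1 h3).trans h1
    · rintro ⟨g, hg⟩
      have h1 : g • x = y := congrArg Prod.fst hg
      have h2 : g • z = w := congrArg Prod.snd hg
      obtain ⟨h3, h4⟩ := ti_mem hx.1 hy.1 h1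
      exact ⟨h4, g, h3, h2⟩
  · rintro ⟨y, w⟩ ⟨hy, -⟩
    obtain ⟨g, hg⟩ := (sI_iff hs y).1 hy
    refine ⟨(g • y, g • w), ⟨hg, trivial⟩, g⁻¹, ?_⟩
    exact Prod.ext (inv_smul_smul _ _) (inv_smul_smul _ _)

theorem ti_orb {s : Set X} (hs : GSet k PGL(2, k) s) :
    orb k PGL(2, k) (sI k s) = clq k (sI0 k s) (fun x y => x = y) := by
  symm
  refine clq_map (DQ.eq (sI0_dm hs)) (sI_gset hs).dq (fun x => x) DM.id' ?_ ?_ ?_
  · intro x hx
    exact (sI_iff hs x).2 ⟨1, by rwa [one_smul]⟩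
  · intro x hx y hy
    constructor
    · intro h
      exact ⟨1, (one_smul _ _).trans h⟩
    · rintro ⟨g, hg⟩
      have hg' : g • x = y := hg
      exact (ti_mem hx hy hg').2
  · intro y hy
    obtain ⟨g, hg⟩ := (sI_iff hs y).1 hy
    exact ⟨g • y, hg, ⟨g⁻¹, inv_smul_smul _ _⟩⟩

theorem ico_stratum {s : Set X} (hs : GSet k PGL(2, k) s) {n : ℕ} (hn : n = 2 ∨ n = 4) :
    orb k PGL(2, k) (sI k s ×ˢ (Set.univ : Set (ℙ k (Form k n)))) =
      br (n + 1) • orb k PGL(2, k) (sI k s) := by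
  rw [ti_orb_prod hs, ti_orb hs]
  rcases hn with rfl | rfl
  · exact ico_form2 (DQ.eq (sI0_dm hs))
  · exact ico_form4 (DQ.eq (sI0_dm hs))

end Pool.Agent.MRat
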