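import Pool.Agent.Lib.MP_923aff_ag.TM
import Pool.Agent.Lib.MP_923aff_ag.TI
import Pool.Agent.Lib.MP_923aff_ag.SG
/-!
# The main theorem
-/

set_option autoImplicit false

namespace Pool.Agent.MRat

theorem icoData (k : Type) [Field k] [IsAlgClosed k] [CharZero k] : IcoData k :=
  fun d _ _ hn => ico_stratum (RatP_gset d) hn

theorem mainStatement (k : Type) [Field k] [IsAlgClosed k] [CharZero k] : MainStatement k :=
  qmain (gdata (icoData k))

end Pool.Agent.MRat
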