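import Pool.Agent.Lib.MP_923aff_ag.TG1
import Pool.Agent.Lib.MP_923aff_ag.BL
/-!
# JOB TG2: the part with a canonical axis

`A = NA.ofPGL k X` is the `N`-space of `X`: `A.t c x = tor c • x`, `A.w x = swp k • x`.

`tgA_orb`: `clq_map` for the inclusion of `sA0 k s ×ˢ t` into `sA k s ×ˢ t` (`tgA_res`, `sA_iff`).
`tgA_good`: for `l ≥ 2` a point `x` of `A.stl l s` has `se (stab k x) (ptI k) = l` (`tor_mem_iff`; `tor ζ ∈ stab k x` for a root of unity
`ζ ≠ 1` of order `l`). Let `D` be the set of the points of `A.stl l s \ sA0 k s` with `A.t c (A.w x) = x` for some `c`, and `E` the rest of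
`A.stl l s \ sA0 k s`. `D` is good by `good_dihedral`. By `Pol.swap` for `x ∈ E` one has `l = 3`, or `l = 2` and `tor (-1)` exchanges the
two points of the canonical axis. In the second case `E` is good by `tgA_good2`. In the first case `E` is
even-good by `good_odd`; if `m = 1` then `E` is empty by `tgA_three`. Hence `A.stl l (sA0 k s) = A.stl l s \ (D ∪ E)` is good (`NGood.diff`),
and `good_of_stl` finishes the proof.
-/

set_option autoImplicit false

namespace Pool.Agent.MRat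

open scoped MatrixGroups LinearAlgebra.Projectivization

noncomputable section

variable {k : Type} [Field k] [IsAlgClosed k] [CharZero k]
variable {X Y Z : Type} [DT k X] [DT k Y] [DT k Z]
variable [MulAction PGL(2, k) X] [MulAction PGL(2, k) Z]

/-- Without Klein four groups an axis of order three is the canonical axis. -/
theorem tgA_three (Γ : Subgroup PGL(2, k)) [Finite Γ] (hV : ∀ V : Subgroup PGL(2, k), IsV4 V → ¬ V ≤ Γ)
    {g₀ : PGL(2, k)} (hg₀ : g₀ ∈ Γ) (h1 : g₀ ≠ 1) {p q : PL k} (hpq : p ≠ q) (hp : g₀ • p = p)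
    (hq : g₀ • q = q) (h3 : se Γ p = 3) : AxPair Γ p q := by
  have hP := pol_pgl Γ
  have hne : Γ ≠ ⊥ := by
    rintro rfl
    exact h1 (Subgroup.mem_bot.1 hg₀)
  rcases pgl_classification Γ hne with ⟨p', q', hax⟩ | ⟨V, hCV⟩ | ⟨g, hg⟩
  · obtain ⟨hinv, hse1, hse⟩ := hP.axPair_inv hax
    rcases hax.2.1 with ⟨hc, -⟩ | ⟨h3', hall⟩
    · exfalso
      have hd := se_dvd (Γ := Γ) p
      rw [h3, hc] at hd
      norm_num at hd
    · obtain ⟨g, hg, hg1, hgp⟩ := (one_lt_se_iff p').1 hse1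
      have hgq : g • q' = q' := hall q' (by rw [← hse]; exact h3') g hg hgp
      have hgpp : g • p = p := hall p (by rw [h3]) g hg hgp
      have hgqq : g • q = q := (hP.same hg hg₀ hg1 h1 hgpp hp q).2 hq
      obtain ⟨u, v, huv, hfix⟩ := hP.fix2 g hg hg1
      have a1 := (hfix p').1 hgp
      have a2 := (hfix q').1 hgq
      have a3 := (hfix p).1 hgpp
      have a4 := (hfix q).1 hgqq
      have hne' := hax.1
      have hsym := AxPair.symm hax
      rcases a1 with rfl | rfl <;> rcases a2 with rfl | rfl <;> rcases a3 with rfl | rfl <;>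
        rcases a4 with rfl | rfl <;>
        (first
          | exact absurd rfl hpq
          | exact absurd rfl hne'
          | exact hax
          | exact hsym)
  · exact absurd hCV.2.2.1 (hV V hCV.2.1)
  · exfalso
    obtain ⟨V, hV4, hle⟩ := ico_v4 (k := k)
    rw [← hg] at hle
    refine hV (V.map (MulAut.conj g⁻¹).toMonoidHom) ?_ ?_
    · refine ⟨?_, ?_⟩
      · rw [← hV4.1]
        exact Nat.card_congr (V.equivMapOfInjective _ (MulAut.conj g⁻¹).injective).symm.toEquiv
      · rintro _ ⟨v, hv, rfl⟩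
        rw [← map_mul, hV4.2 v hv, map_one]
    · rintro _ ⟨v, hv, rfl⟩
      obtain ⟨w, hw, rfl⟩ := hle hv
      have e : (MulAut.conj g⁻¹).toMonoidHom ((MulAut.conj g).toMonoidHom w) = w := by
        simp [MulAut.conj_apply, mul_assoc]
      rw [e]
      exact hw

omit [DT k X] in
/-- Elements mapping points with canonical axis `{∞, 0}` to each other are in `N`. -/
theorem tgA_res {s : Set X} (fin : FinS k s) {x y : X} (hx : x ∈ sA0 k s) (hy : y ∈ sA0 k s)
    {g : PGL(2, k)} (h : g • x = y) : (∃ c : kˣ, g = tor c) ∨ ∃ c : kˣ, g = tor c * swp k := by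
  have := fin.fin hy.1
  have h1 : AxPair (stab k y) (g • ptI k) (g • ptz (0 : k)) := by
    rw [← h, stab_smul, axPair_conj]
    exact hx.2
  rcases (pol_pgl (stab k y)).axPair_unique hy.2 h1 with ⟨e1, e2⟩ | ⟨e1, e2⟩
  · exact Or.inl (fix_pair e1 e2)
  · exact Or.inr (swap_pair e1 e2)

/-- The coordinate `ψ = p²` of a canonical axis `{p, -p}` which is exchanged by `tor (-1)`. -/
theorem tgA_coord {p q : PL k} (hpq : p ≠ q) (h : tor (-1 : kˣ) • p = q) :
    ∃ u : kˣ, (p = ptz (u : k) ∧ q = ptz (-(u : k))) ∧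
      ∀ v : kˣ, ((p = ptz (v : k) ∧ q = ptz (-(v : k))) ∨ (q = ptz (v : k) ∧ p = ptz (-(v : k)))) →
        v ^ 2 = u ^ 2 := by
  rcases pl_cases p with rfl | ⟨z, rfl⟩
  · rw [tor_smul_ptI] at h
    exact absurd h hpq
  · rw [tor_smul_ptz] at h
    have e : ((-1 : kˣ) : k) * z = -z := by simp
    rw [e] at h
    subst h
    have hz : z ≠ 0 := by
      rintro rfl
      exact hpq (by rw [neg_zero])
    refine ⟨Units.mk0 z hz, ⟨rfl, rfl⟩, ?_⟩
    rintro v (⟨h1, -⟩ | ⟨h1, -⟩)
    · rw [ptz_inj] at h1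
      have : v = Units.mk0 z hz := Units.ext h1.symm
      rw [this]
    · rw [ptz_inj] at h1
      apply Units.ext
      simp only [Units.val_pow_eq_pow_val, Units.val_mk0]
      rw [← h1]
      ring

variable [DAct k PGL(2, k) X] [DAct k PGL(2, k) Z]

theorem sA0_st {s : Set X} (hs : GSet k PGL(2, k) s) (fin : FinS k s) :
    (NA.ofPGL k X).St (sA0 k s) := by
  refine ⟨⟨sA0_dm hs fin, ?_⟩, ?_⟩
  · rintro c x ⟨hx, h⟩
    refine ⟨hs.st _ x hx, ?_⟩
    show AxPair (stab k (tor c • x)) _ _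
    rw [stab_smul]
    have e1 : ptI k = tor c • ptI k := (tor_smul_ptI c).symm
    have e2 : ptz (0 : k) = tor c • ptz (0 : k) := by rw [tor_smul_ptz, mul_zero]
    rw [e1, e2, axPair_conj]
    exact h
  · rintro x ⟨hx, h⟩
    refine ⟨hs.st _ x hx, ?_⟩
    show AxPair (stab k (swp k • x)) _ _
    rw [stab_smul]
    have e1 : ptI k = swp k • ptz (0 : k) := swp_smul_zero.symm
    have e2 : ptz (0 : k) = swp k • ptI k := swp_smul_ptI.symm
    have h2 : AxPair ((stab k x).map (MulAut.conj (swp k)).toMonoidHom) (swp k • ptz (0 : k))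
        (swp k • ptI k) := by
      rw [axPair_conj]
      exact AxPair.symm h
    rw [← e1, ← e2] at h2
    exact h2

theorem gset_st {s : Set X} (hs : GSet k PGL(2, k) s) : (NA.ofPGL k X).St s := by
  exact ⟨⟨hs.ds, fun c y hy => hs.st _ y hy⟩, fun y hy => hs.st _ y hy⟩

theorem sA0_fin {s : Set X} (fin : FinS k s) : (NA.ofPGL k X).toTA.Fin (sA0 k s) := by
  intro y hy
  have h := fin y hy.1
  have hinj : Function.Injective (fun c : kˣ => tor c) := fun a b hab => tor_inj.1 hab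
  exact h.preimage (f := fun c : kˣ => tor c) (hinj.injOn)

theorem tgA_orb {s : Set X} (hs : GSet k PGL(2, k) s) (fin : FinS k s) {t : Set Z}
    (ht : GSet k PGL(2, k) t) :
    orb k PGL(2, k) (sA k s ×ˢ t) =
      ncl ((NA.ofPGL k X).prod (NA.ofPGL k Z)) (sA0 k s ×ˢ t) := by
  have hA := (sA_gset hs fin).prod ht
  have h0 := (sA0_st hs fin).prod (NA.ofPGL k Z) (gset_st ht)
  symm
  refine clq_map h0.dq hA.dq (fun p => p) DM.id' ?_ ?_ ?_
  · rintro ⟨x, z⟩ ⟨hx, hz⟩
    exact ⟨⟨hx.1, _, _, hx.2⟩, hz⟩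
  · rintro ⟨x, z⟩ ⟨hx, hz⟩ ⟨y, w⟩ ⟨hy, hw⟩
    constructor
    · rintro ⟨c, h | h⟩
      · exact ⟨tor c, h⟩
      · refine ⟨tor c * swp k, ?_⟩
        rw [mul_smul]
        exact h
    · rintro ⟨g, h⟩
      have hg1 : g • x = y := congrArg Prod.fst h
      rcases tgA_res fin hx hy hg1 with ⟨c, rfl⟩ | ⟨c, rfl⟩
      · exact ⟨c, Or.inl h⟩
      · refine ⟨c, Or.inr ?_⟩
        rw [mul_smul] at h
        exact h
  · rintro ⟨y, w⟩ ⟨hy, hw⟩
    obtain ⟨g, hg⟩ := (sA_iff hs y).1 hy
    refine ⟨(g • y, g • w), ⟨hg, ht.st g w hw⟩, g⁻¹, ?_⟩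
    exact Prod.ext (inv_smul_smul g y) (inv_smul_smul g w)

theorem tgA_orb' {s : Set X} (hs : GSet k PGL(2, k) s) (fin : FinS k s) :
    orb k PGL(2, k) (sA k s) = ncl (NA.ofPGL k X) (sA0 k s) := by
  have hA := sA_gset hs fin
  have h0 := sA0_st hs fin
  symm
  refine clq_map h0.dq hA.dq (fun p => p) DM.id' ?_ ?_ ?_
  · rintro x hx
    exact ⟨hx.1, _, _, hx.2⟩
  · rintro x hx y hy
    constructor
    · rintro ⟨c, h | h⟩
      · exact ⟨tor c, h⟩
      · refine ⟨tor c * swp k, ?_⟩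
        rw [mul_smul]
        exact h
    · rintro ⟨g, h⟩
      rcases tgA_res fin hx hy h with ⟨c, rfl⟩ | ⟨c, rfl⟩
      · exact ⟨c, Or.inl h⟩
      · refine ⟨c, Or.inr ?_⟩
        rw [mul_smul] at h
        exact h
  · rintro y hy
    obtain ⟨g, hg⟩ := (sA_iff hs y).1 hy
    exact ⟨g • y, hg, g⁻¹, inv_smul_smul g y⟩

omit [DT k X] in
private theorem TG2a_sq {s : Set X} (fin : FinS k s) {x : X} (hx : x ∈ s) {u v : kˣ}
    (hu : AxPair (stab k x) (ptz (u : k)) (ptz (-(u : k))))
    (hv : AxPair (stab k x) (ptz (v : k)) (ptz (-(v : k)))) : v ^ 2 = u ^ 2 := by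
  have := fin.fin hx
  rcases (pol_pgl (stab k x)).axPair_unique hu hv with ⟨h, -⟩ | ⟨h, -⟩
  · rw [ptz_inj] at h
    rw [Units.ext h]
  · rw [ptz_inj] at h
    apply Units.ext
    rw [Units.val_pow_eq_pow_val, Units.val_pow_eq_pow_val, h]
    ring

theorem TG2a_fin [DAct k PGL(2, k) X] {s : Set X} (fin : FinS k s) :
    (NA.ofPGL k X).toTA.Fin s := by
  intro y hy
  have h := fin y hy
  have hinj : Function.Injective (fun c : kˣ => tor c) := fun a b hab => tor_inj.1 hab
  exact h.preimage (f := fun c : kˣ => tor c) (hinj.injOn)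

/-- Points with a secondary axis of order two: the coordinate `ψ` of `tgA_coord` (`DM.choice`, `axPair_dm`, `axPair_unique`) and
`good_over_Gm` with `i = 2`. -/
theorem tgA_good2 {s : Set X} (hs : GSet k PGL(2, k) s) (fin : FinS k s) {E : Set X}
    (hE : (NA.ofPGL k X).St E)
    (hEs : ∀ x ∈ E, x ∈ s ∧ ∃ p q : PL k, AxPair (stab k x) p q ∧
      tor (-1 : kˣ) • p = q ∧ tor (-1 : kˣ) • q = p)
    (triv : ∀ x ∈ E, ∀ c : kˣ, c ^ 2 = 1 → tor c • x = x) : NGood 1 (NA.ofPGL k X) E := by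
  have hzd : DM k (fun v : kˣ => ptz (v : k)) := by
    refine DM.pmk ?_ _
    refine DM.pi (fun i => ?_)
    fin_cases i
    · exact DM.coe DM.id'
    · exact DM.const' 1
  have hzd' : DM k (fun v : kˣ => ptz (-(v : k))) := by
    refine DM.pmk ?_ _
    refine DM.pi (fun i => ?_)
    fin_cases i
    · exact DM.neg (DM.coe DM.id')
    · exact DM.const' 1
  have finE : FinS k E := fun x hx => fin x (hEs x hx).1
  obtain ⟨ψ, dψ, hψ⟩ := DM.choice (k := k) (X := X) (Y := kˣ) (s := E) hE.ds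
    (R := fun x u => ∃ v : kˣ, (x ∈ s ∧ AxPair (stab k x) (ptz (v : k)) (ptz (-(v : k)))) ∧
      u = v ^ 2) (by
    refine DM.and (DM.comp hE.ds (DM.fst DM.id')) (DM.ex (DM.and ?_ (by fun_prop)))
    have h1 := DM.comp hzd (DM.snd (DM.id' (k := k) (X := (X × kˣ) × kˣ)))
    have h2 := DM.comp hzd' (DM.snd (DM.id' (k := k) (X := (X × kˣ) × kˣ)))
    have h3 : DM k (fun p : (X × kˣ) × kˣ => p.1.1) := by fun_prop
    have h := DM.comp (axPair_dm hs fin) (DM.mk h3 (DM.mk h1 h2))
    exact h) (by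
    intro x hx
    obtain ⟨hxs, p, q, hax, hpq, hqp⟩ := hEs x hx
    obtain ⟨u, ⟨hu1, hu2⟩, -⟩ := tgA_coord hax.1 hpq
    subst hu1 hu2
    refine ⟨u ^ 2, ⟨u, ⟨hxs, hax⟩, rfl⟩, ?_⟩
    rintro w ⟨v, ⟨-, hv⟩, rfl⟩
    exact TG2a_sq fin hxs hax hv)
  have uniq : ∀ x ∈ E, ∀ v : kˣ, AxPair (stab k x) (ptz (v : k)) (ptz (-(v : k))) →
      ψ x = v ^ 2 := by
    intro x hx v hv
    obtain ⟨v', ⟨hxs, hv'⟩, he⟩ := hψ x hx
    rw [he]
    exact TG2a_sq fin hxs hv hv'
  refine good_over_Gm hE (TG2a_fin finE) 2 (by norm_num) ψ dψ ?_ ?_ ?_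
  · intro c x hx
    obtain ⟨v, ⟨hxs, hv⟩, he⟩ := hψ x hx
    rw [he]
    have h1 : AxPair (stab k (tor c • x)) (ptz ((c * v : kˣ) : k)) (ptz (-((c * v : kˣ) : k))) := by
      have h2 : AxPair ((stab k x).map (MulAut.conj (tor c)).toMonoidHom)
          (tor c • ptz (v : k)) (tor c • ptz (-(v : k))) := by
        rw [axPair_conj]
        exact hv
      rw [← stab_smul, tor_smul_ptz, tor_smul_ptz] at h2
      rw [Units.val_mul]
      convert h2 using 2
      ring
    have h3 := uniq _ (hE.t_mem c x hx) _ h1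
    rw [mul_pow] at h3
    exact h3
  · intro x hx
    obtain ⟨v, ⟨hxs, hv⟩, he⟩ := hψ x hx
    rw [he]
    have h1 : AxPair (stab k (swp k • x)) (ptz ((v⁻¹ : kˣ) : k)) (ptz (-((v⁻¹ : kˣ) : k))) := by
      have h2 : AxPair ((stab k x).map (MulAut.conj (swp k)).toMonoidHom)
          (swp k • ptz (v : k)) (swp k • ptz (-(v : k))) := by
        rw [axPair_conj]
        exact hv
      rw [← stab_smul, swp_smul_ptz v.ne_zero, swp_smul_ptz (neg_ne_zero.2 v.ne_zero),
        inv_neg] at h2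
      rw [Units.val_inv_eq_inv_val]
      exact h2
    have h3 := uniq _ (hE.w_mem x hx) _ h1
    rw [inv_pow] at h3
    exact h3
  · intro c hc x hx
    exact triv x hx c hc

private theorem TG2a_prim (m : ℕ) (hm : 1 ≤ m) : ∃ c : kˣ, IsPrimitiveRoot c m := by
  have : NeZero m := ⟨by omega⟩
  have : NeZero (m : k) := ⟨Nat.cast_ne_zero.2 (by omega)⟩
  obtain ⟨c, hc⟩ := HasEnoughRootsOfUnity.exists_primitiveRoot k m
  refine ⟨Units.mk0 c (hc.ne_zero (by omega)), ?_⟩
  rw [← IsPrimitiveRoot.coe_units_iff]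
  exact hc

private theorem TG2a_eq {a b : ℕ} (ha : 1 ≤ a) (hb : 1 ≤ b) (h : ∀ t : kˣ, t ^ a = 1 ↔ t ^ b = 1) :
    a = b := by
  obtain ⟨c, hc⟩ := TG2a_prim (k := k) a ha
  obtain ⟨d, hd⟩ := TG2a_prim (k := k) b hb
  apply Nat.dvd_antisymm
  · exact hc.dvd_of_pow_eq_one b ((h c).1 hc.pow_eq_one)
  · exact hd.dvd_of_pow_eq_one a ((h d).2 hd.pow_eq_one)

private theorem TG2a_neg {z : kˣ} (h : z ^ 2 = 1) (h1 : z ≠ 1) : z = -1 := by
  have h2 : (z : k) ^ 2 = 1 := by
    rw [← Units.val_pow_eq_pow_val, h, Units.val_one]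
  have h4 : ((z : k) - 1) * ((z : k) + 1) = 0 := by linear_combination h2
  rcases mul_eq_zero.1 h4 with h3 | h3
  · exact absurd (Units.ext (sub_eq_zero.1 h3)) h1
  · apply Units.ext
    rw [Units.val_neg, Units.val_one]
    exact eq_neg_of_add_eq_zero_left h3

theorem tgA_good {m : ℕ} (hm : m = 1 ∨ m = 2) {s : Set X} (hs : GSet k PGL(2, k) s)
    (fin : FinS k s) (hl : ∀ l, 2 ≤ l → NGood m (NA.ofPGL k X) ((NA.ofPGL k X).stl l s))
    (h1 : m = 1 → ∀ x ∈ s, ∀ V : Subgroup PGL(2, k), IsV4 V → ¬ V ≤ stab k x) :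
    NGood m (NA.ofPGL k X) (sA0 k s) := by
  set A := NA.ofPGL k X with hA
  have hs0 := sA0_st hs fin
  have hss := gset_st (X := X) hs
  have finA : A.toTA.Fin s := TG2a_fin fin
  refine good_of_stl hs0 (sA0_fin fin) ?_ ?_
  · ext x
    simp only [Set.mem_empty_iff_false, iff_false]
    rintro ⟨hx, hst⟩
    have := fin.fin hx.1
    have hP := pol_pgl (stab k x)
    obtain ⟨hinv, hse1, -⟩ := hP.axPair_inv hx.2
    obtain ⟨g, hg, hg1, hgp⟩ := (one_lt_se_iff (ptI k)).1 hse1
    rcases hinv g hg with ⟨h1, h2⟩ | ⟨h1, -⟩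
    · obtain ⟨c, rfl⟩ := fix_pair h1 h2
      have h3 := (hst c).1 hg
      rw [pow_one] at h3
      exact hg1 (by rw [h3, tor_one])
    · rw [hgp] at h1
      exact (ptz_ne_ptI (0 : k)) h1.symm
  · intro l h2
    obtain ⟨ζ, hζ⟩ := TG2a_prim (k := k) l (by omega)
    have hζ1 : ζ ≠ 1 := hζ.ne_one (by omega)
    have hst := hss.stl l
    have dD : A.St {x ∈ A.stl l s | x ∉ sA0 k s ∧ ∃ c : kˣ, A.t c (A.w x) = x} := by
      have h1 : A.St {x : X | ∃ c : kˣ, A.t c (A.w x) = x} := by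
        refine ⟨⟨?_, ?_⟩, ?_⟩
        · have h : DM k (fun x : X => ∃ c : kˣ, A.t c (A.w x) = x) := by fun_prop
          exact h
        · rintro b x ⟨c, hc⟩
          refine ⟨b * c * b, ?_⟩
          rw [A.w_t, A.t_mul, A.t_mul, ← A.t_mul b b⁻¹, mul_inv_cancel, A.t_one, hc]
        · rintro x ⟨c, hc⟩
          refine ⟨c⁻¹, ?_⟩
          have h3 := congrArg A.w hc
          rw [A.w_t] at h3
          exact h3
      have h4 := (hst.diff hs0).inter h1
      have e : {x ∈ A.stl l s | x ∉ sA0 k s ∧ ∃ c : kˣ, A.t c (A.w x) = x} =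
          (A.stl l s \ sA0 k s) ∩ {x : X | ∃ c : kˣ, A.t c (A.w x) = x} := by
        ext x
        constructor
        · rintro ⟨a, b, c⟩
          exact ⟨⟨a, b⟩, c⟩
        · rintro ⟨⟨a, b⟩, c⟩
          exact ⟨a, b, c⟩
      rw [e]
      exact h4
    set D : Set X := {x ∈ A.stl l s | x ∉ sA0 k s ∧ ∃ c : kˣ, A.t c (A.w x) = x} with hD
    set E : Set X := (A.stl l s \ sA0 k s) \ D with hE
    have dE : A.St E := (hst.diff hs0).diff dD
    have gD : NGood m A D := by
      have h : NGood 1 A D := good_dihedral dD (fun x hx => finA x hx.1.1) (fun x hx => hx.2.2)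
      exact h.mono (one_dvd m)
    have key : ∀ x ∈ E, l = 3 ∨ (l = 2 ∧ ∃ p q : PL k, AxPair (stab k x) p q ∧
        tor (-1 : kˣ) • p = q ∧ tor (-1 : kˣ) • q = p) := by
      rintro x ⟨⟨⟨hx, hxl⟩, hx0⟩, hxD⟩
      have := fin.fin hx
      have hP := pol_pgl (stab k x)
      have hmem : tor ζ ∈ stab k x := (hxl ζ).2 hζ.pow_eq_one
      obtain ⟨hall, -, hse1⟩ := tor_mem_iff (stab k x) hζ1 hmem
      have hsel : se (stab k x) (ptI k) = l := by
        apply TG2a_eq (k := k)
        · omega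
        · omega
        · intro t
          rw [← hall t]
          exact hxl t
      have hne : tor ζ ≠ 1 := fun h => hζ1 (tor_inj.1 (h.trans tor_one.symm))
      have hnax : ¬ AxPair (stab k x) (ptI k) (ptz (0 : k)) := fun h => hx0 ⟨hx, h⟩
      rcases hP.swap hmem hne (ptz_ne_ptI (0 : k)).symm (tor_smul_ptI ζ)
        (by rw [tor_smul_ptz, mul_zero]) hnax with ⟨g, hg, hg1, hg2⟩ | h3 | ⟨h2', p, q, hax, -, hpq,
          hqp⟩
      · exfalso
        obtain ⟨t, rfl⟩ := swap_pair hg1 hg2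
        apply hxD
        refine ⟨⟨hx, hxl⟩, hx0, t, ?_⟩
        have h5 : (tor t * swp k) • x = x := hg
        rw [mul_smul] at h5
        exact h5
      · left
        rw [← hsel, h3]
      · right
        have hl2 : l = 2 := by rw [← hsel, h2']
        refine ⟨hl2, p, q, hax, ?_⟩
        have hz : ζ = -1 := by
          rw [hl2] at hζ
          exact TG2a_neg hζ.pow_eq_one hζ1
        rw [← hz]
        exact ⟨hpq, hqp⟩
    have gE : NGood m A E := by
      rcases Nat.lt_trichotomy l 3 with h | h | h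
      · have hl2 : l = 2 := by omega
        subst hl2
        have h : NGood 1 A E := by
          refine tgA_good2 hs fin dE (fun x hx => ⟨hx.1.1.1, ?_⟩) ?_
          · rcases key x hx with h | h
            · omega
            · exact h.2
          · intro x hx c hc
            exact (hx.1.1.2 c).2 hc
        exact h.mono (one_dvd m)
      · subst h
        rcases hm with rfl | rfl
        · have hempty : E = ∅ := by
            ext x
            simp only [Set.mem_empty_iff_false, iff_false]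
            rintro ⟨⟨⟨hx, hxl⟩, hx0⟩, hxD⟩
            have := fin.fin hx
            have hmem : tor ζ ∈ stab k x := (hxl ζ).2 hζ.pow_eq_one
            obtain ⟨hall, -, hse1⟩ := tor_mem_iff (stab k x) hζ1 hmem
            have hsel : se (stab k x) (ptI k) = 3 := by
              apply TG2a_eq (k := k)
              · omega
              · omega
              · intro t
                rw [← hall t]
                exact hxl t
            have hne : tor ζ ≠ 1 := fun h => hζ1 (tor_inj.1 (h.trans tor_one.symm))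
            exact hx0 ⟨hx, tgA_three (stab k x) (h1 rfl x hx) hmem hne (ptz_ne_ptI (0 : k)).symm
              (tor_smul_ptI ζ) (by rw [tor_smul_ptz, mul_zero]) hsel⟩
          rw [hempty]
          exact NGood.empty _ _
        · refine good_odd dE 3 (by decide) (fun x hx c => hx.1.1.2 c) ?_
          intro x hx c hc
          exact hx.2 ⟨hx.1.1, hx.1.2, c, hc⟩
      · have hempty : E = ∅ := by
          ext x
          simp only [Set.mem_empty_iff_false, iff_false]
          intro hx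
          rcases key x hx with h | h
          · omega
          · omega
        rw [hempty]
        exact NGood.empty _ _
    have hdisj : Disjoint D E := by
      rw [Set.disjoint_left]
      intro x hx hx'
      exact hx'.2 hx
    have e : A.stl l (sA0 k s) = A.stl l s \ (D ∪ E) := by
      ext x
      constructor
      · rintro ⟨hx, hxl⟩
        refine ⟨⟨hx.1, hxl⟩, ?_⟩
        rintro (h | h)
        · exact h.2.1 hx
        · exact h.1.2 hx
      · rintro ⟨⟨hx, hxl⟩, hn⟩
        refine ⟨?_, hxl⟩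
        by_contra h0
        apply hn
        by_cases hxD : x ∈ D
        · exact Or.inl hxD
        · exact Or.inr ⟨⟨⟨hx, hxl⟩, h0⟩, hxD⟩
    rw [e]
    refine (hl l h2).diff (gD.union gE hdisj) ?_
    rintro x (h | h)
    · exact h.1
    · exact h.1.1

/-- The projective bundle formula for forms on the part with a canonical axis. -/
theorem tgA_form {m : ℕ} {s : Set X} (hs : GSet k PGL(2, k) s) (fin : FinS k s)
    (hg : NGood m (NA.ofPGL k X) (sA0 k s)) (n : ℕ) (hm : m = 1 ∨ (m = 2 ∧ Even n)) :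
    orb k PGL(2, k) (sA k s ×ˢ (Set.univ : Set (ℙ k (Form k n)))) =
      br (n + 1) • orb k PGL(2, k) (sA k s) := by
  rw [tgA_orb hs fin GSet.univ, tgA_orb' hs fin, (bl_form hg n hm).1]

theorem tgA_sm {m : ℕ} {s : Set X} (hs : GSet k PGL(2, k) s) (fin : FinS k s)
    (hg : NGood m (NA.ofPGL k X) (sA0 k s)) (d : ℕ) (hm : m = 1 ∨ (m = 2 ∧ Odd d)) :
    orb k PGL(2, k) (sA k s ×ˢ (Set.univ : Set (ℙ k (SM k d)))) =
      br (2 * d + 2) • orb k PGL(2, k) (sA k s) := by
  rw [tgA_orb hs fin GSet.univ, tgA_orb' hs fin, (bl_sm hg d hm).1]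

end

end Pool.Agent.MRat
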