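import Pool.Agent.Lib.MP_923aff_ag.TG1
import Pool.Agent.Lib.MP_923aff_ag.REPS
/-!
# JOB TG3: the free part; `GL₂`-torsors on which the scalars act with weight one

`tgF_form`, `tgF_sm`: `free_bundle` for `repF`, `repS`; `clq_congr` with `repF_map`, `repS_map`.
`OddLin.orb_eq`: `clq_corr` with the relation `P`.
`tgF_odd`: let `st' = {u ∈ o.st | ∃ x ∈ sF k s, o.P u x}` with the action of `GL₂` (`letI`); `free_bundle` for `glF k n`: if `g • u = u` then
`mk g` fixes `x`, so `mk g = 1`, `g` is scalar and `g = 1` by `o.free`. Both sides are compared with `clq_corr`; on projective spaces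
`mk g • [F] = [g • F]` (`form_pgl_mk`).
-/

set_option autoImplicit false

namespace Pool.Agent.MRat

open scoped MatrixGroups LinearAlgebra.Projectivization

noncomputable section

variable {k : Type} [Field k] [IsAlgClosed k] [CharZero k]
variable {X Y Z : Type} [DT k X] [DT k Y] [DT k Z]
variable [MulAction PGL(2, k) X] [MulAction PGL(2, k) Z]

/-- A scalar matrix. -/
abbrev scal (c : kˣ) : GL (Fin 2) k := Matrix.GeneralLinearGroup.scalar (Fin 2) c

/-- A `GL₂`-space `st` over the `PGL₂`-space `s`, which is a torsor under the scalars. -/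
structure OddLin (k : Type) [Field k] [IsAlgClosed k] [CharZero k] {X : Type} [DT k X]
    [MulAction PGL(2, k) X] (s : Set X) where
  Xt : Type
  dt : DT k Xt
  a : GL (Fin 2) k → Xt → Xt
  a_one : ∀ u, a 1 u = u
  a_mul : ∀ g h u, a (g * h) u = a g (a h u)
  da : DM k (fun p : GL (Fin 2) k × Xt => a p.1 p.2)
  st : Set Xt
  ds : DM k (fun u => u ∈ st)
  a_mem : ∀ g, ∀ u ∈ st, a g u ∈ st
  P : Xt → X → Prop
  dP : DM k (fun p : Xt × X => P p.1 p.2)
  left : ∀ u ∈ st, ∃ x ∈ s, P u x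
  right : ∀ x ∈ s, ∃ u ∈ st, P u x
  uniq : ∀ u ∈ st, ∀ x ∈ s, ∀ x' ∈ s, P u x → P u x' → x = x'
  fib : ∀ u ∈ st, ∀ u' ∈ st, ∀ x ∈ s, P u x → P u' x → ∃ c : kˣ, u' = a (scal c) u
  equi : ∀ g : GL (Fin 2) k, ∀ u ∈ st, ∀ x ∈ s, P u x → P (a g u) (Matrix.ProjGenLinGroup.mk g • x)
  free : ∀ c : kˣ, ∀ u ∈ st, a (scal c) u = u → c = 1

omit [DT k X] in
/-- The stabiliser of a point does not contain Klein four groups. -/
theorem scal_mk (c : kˣ) : (Matrix.ProjGenLinGroup.mk (scal c) : PGL(2, k)) = 1 :=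
  Matrix.ProjGenLinGroup.mk_scalar c

theorem mk_eq_one {g : GL (Fin 2) k} (h : (Matrix.ProjGenLinGroup.mk g : PGL(2, k)) = 1) :
    ∃ c : kˣ, g = scal c := by
  rw [← Matrix.ProjGenLinGroup.mk_one, eq_comm, Matrix.ProjGenLinGroup.mk_eq_mk_iff] at h
  obtain ⟨u, hu⟩ := h
  exact ⟨u, by rw [← hu, one_mul]⟩

variable [DAct k PGL(2, k) X] [DAct k PGL(2, k) Z]

private theorem TG3_one {s : Set X} {x : X} (hx : x ∈ sF k s) {g : PGL(2, k)} (hg : g • x = x) :
    g = 1 := by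
  have h1 : g ∈ stab k x := hg
  rw [hx.2] at h1
  exact Subgroup.mem_bot.1 h1

theorem tgF_form {s : Set X} (hs : GSet k PGL(2, k) s) (m : ℕ) :
    orb k PGL(2, k) (sF k s ×ˢ (Set.univ : Set (ℙ k (Form k (2 * m))))) =
      br (2 * m + 1) • orb k PGL(2, k) (sF k s) := by
  have h1 := free_bundle (sF_gset hs) (repF k m) (repF_dm m) (by
    intro x hx g hg
    rw [TG3_one hx hg, map_one])
  rw [finrank_Form] at h1
  rw [← h1]
  apply clq_congr
  rintro ⟨x, p⟩ - ⟨y, q⟩ -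
  constructor
  · rintro ⟨g, hg⟩
    exact ⟨g, congrArg Prod.fst hg, (repF_map m g p).symm.trans (congrArg Prod.snd hg)⟩
  · rintro ⟨g, hg1, hg2⟩
    exact ⟨g, Prod.ext hg1 ((repF_map m g p).trans hg2)⟩

theorem tgF_sm {s : Set X} (hs : GSet k PGL(2, k) s) (m : ℕ) :
    orb k PGL(2, k) (sF k s ×ˢ (Set.univ : Set (ℙ k (SM k (2 * m + 1))))) =
      br (2 * (2 * m + 1) + 2) • orb k PGL(2, k) (sF k s) := by
  have h1 := free_bundle (sF_gset hs) (repS k m) (repS_dm m) (by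
    intro x hx g hg
    rw [TG3_one hx hg, map_one])
  rw [finrank_SM] at h1
  rw [← h1]
  apply clq_congr
  rintro ⟨x, p⟩ - ⟨y, q⟩ -
  constructor
  · rintro ⟨g, hg⟩
    exact ⟨g, congrArg Prod.fst hg, (repS_map m g p).symm.trans (congrArg Prod.snd hg)⟩
  · rintro ⟨g, hg1, hg2⟩
    exact ⟨g, Prod.ext hg1 ((repS_map m g p).trans hg2)⟩

/-- Stabilisers of points of a space with an `OddLin` structure contain no Klein four groups: for `x ∈ s` choose `u` over
`x`; `H = {g : GL₂ | mk g ∈ stab k x}` has the character `χ` with `a g u = a (scal (χ g)) u`; `no_v4_of_char`. -/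
theorem OddLin.noV4 {s : Set X} (hs : GSet k PGL(2, k) s) (o : OddLin k s) :
    ∀ x ∈ s, ∀ V : Subgroup PGL(2, k), IsV4 V → ¬ V ≤ stab k x := by
  intro x hx V hV hle
  obtain ⟨u, hu, hux⟩ := o.right x hx
  let H : Subgroup (GL (Fin 2) k) := (stab k x).comap Matrix.ProjGenLinGroup.mk
  have hH : ∀ g : H, Matrix.ProjGenLinGroup.mk (g : GL (Fin 2) k) • x = x := fun g => g.2
  have hex : ∀ g : H, ∃ c : kˣ, o.a g u = o.a (scal c) u := by
    intro g
    have h1 := o.equi g u hu x hx hux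
    rw [hH g] at h1
    exact o.fib u hu _ (o.a_mem g u hu) x hx hux h1
  have huni : ∀ c c' : kˣ, o.a (scal c) u = o.a (scal c') u → c = c' := by
    intro c c' h
    have h1 : o.a (scal (c'⁻¹ * c)) u = u := by
      have h2 : scal (c'⁻¹ * c) = scal c'⁻¹ * scal c := map_mul _ _ _
      rw [h2, o.a_mul, h, ← o.a_mul]
      have h3 : scal c'⁻¹ * scal c' = 1 := by
        show Matrix.GeneralLinearGroup.scalar (Fin 2) c'⁻¹ *
          Matrix.GeneralLinearGroup.scalar (Fin 2) c' = 1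
        rw [← map_mul, inv_mul_cancel, map_one]
      rw [h3, o.a_one]
    have h4 := o.free _ u hu h1
    exact (inv_mul_eq_one.1 h4).symm
  choose χ hχ using hex
  have hmul : ∀ g h : H, χ (g * h) = χ g * χ h := by
    intro g h
    apply huni
    rw [← hχ]
    have h1 : ((g * h : H) : GL (Fin 2) k) = (g : GL (Fin 2) k) * (h : GL (Fin 2) k) := rfl
    have h2 : (g : GL (Fin 2) k) * scal (χ h) = scal (χ h) * (g : GL (Fin 2) k) :=
      (Matrix.GeneralLinearGroup.scalar_commute (χ h) (g : GL (Fin 2) k)).symm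
    have h3 : scal (χ g * χ h) = scal (χ h) * scal (χ g) := by
      rw [mul_comm]
      exact map_mul _ _ _
    rw [h1, o.a_mul, hχ h, ← o.a_mul, h2, o.a_mul, hχ g, ← o.a_mul, h3]
  have hone : χ 1 = 1 := by
    have := hmul 1 1
    rw [mul_one] at this
    exact (mul_eq_left.1 this.symm)
  have hsc : ∀ c : kˣ, Matrix.GeneralLinearGroup.scalar (Fin 2) c ∈ H := by
    intro c
    show Matrix.ProjGenLinGroup.mk (Matrix.GeneralLinearGroup.scalar (Fin 2) c) ∈ stab k x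
    rw [Matrix.ProjGenLinGroup.mk_scalar]
    exact one_mem _
  refine no_v4_of_char (H := H) ⟨⟨χ, hone⟩, hmul⟩ hsc ?_ V hV ?_
  · intro c
    exact (huni _ _ (hχ ⟨_, hsc c⟩)).symm
  · have h1 : H.map Matrix.ProjGenLinGroup.mk = stab k x :=
      Subgroup.map_comap_eq_self_of_surjective Matrix.ProjGenLinGroup.mk_surjective _
    rw [h1]
    exact hle

theorem tgF_odd {s : Set X} (hs : GSet k PGL(2, k) s) (o : OddLin k s) (n : ℕ) :
    orb k PGL(2, k) (sF k s ×ˢ (Set.univ : Set (ℙ k (Form k n)))) =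
      br (n + 1) • orb k PGL(2, k) (sF k s) := by
  letI := o.dt
  letI act : MulAction (GL (Fin 2) k) o.Xt :=
    { smul := o.a
      one_smul := o.a_one
      mul_smul := o.a_mul }
  have hact : ∀ (g : GL (Fin 2) k) (u : o.Xt), g • u = o.a g u := fun _ _ => rfl
  haveI : DAct k (GL (Fin 2) k) o.Xt := ⟨o.da⟩
  have hF := sF_gset hs
  have hsub : ∀ x ∈ sF k s, x ∈ s := fun x hx => hx.1
  let st' : Set o.Xt := {u | u ∈ o.st ∧ ∃ x, x ∈ sF k s ∧ o.P u x}
  have hst : GSet k (GL (Fin 2) k) st' := by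
    constructor
    · have h1 := o.ds
      have h2 := hF.ds
      have h3 := o.dP
      have h4 : DM k (fun p : o.Xt × X => p.2 ∈ sF k s ∧ o.P p.1 p.2) :=
        DM.and (DM.comp h2 (DM.snd DM.id')) h3
      exact DM.and h1 (DM.ex (P := fun u x => x ∈ sF k s ∧ o.P u x) h4)
    · rintro g u ⟨hu, x, hx, hux⟩
      exact ⟨o.a_mem g u hu, Matrix.ProjGenLinGroup.mk g • x, hF.st _ x hx,
        o.equi g u hu x hx.1 hux⟩
  have hleft : ∀ u ∈ st', ∃ x ∈ sF k s, o.P u x := by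
    rintro u ⟨hu, x, hx, hux⟩
    exact ⟨x, hx, hux⟩
  have hright : ∀ x ∈ sF k s, ∃ u ∈ st', o.P u x := by
    intro x hx
    obtain ⟨u, hu, hux⟩ := o.right x hx.1
    exact ⟨u, ⟨hu, x, hx, hux⟩, hux⟩
  have hlift : ∀ u ∈ st', ∀ x ∈ sF k s, o.P u x → ∀ u' ∈ st', ∀ x' ∈ sF k s, o.P u' x' →
      ∀ g : GL (Fin 2) k, Matrix.ProjGenLinGroup.mk g • x = x' →
        ∃ c : kˣ, (scal c * g) • u = u' := by
    intro u hu x hx hux u' hu' x' hx' hux' g hg
    have h1 := o.equi g u hu.1 x hx.1 hux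
    rw [hg] at h1
    obtain ⟨c, hc⟩ := o.fib _ (o.a_mem g u hu.1) u' hu'.1 x' hx'.1 h1 hux'
    exact ⟨c, by rw [hact, o.a_mul, ← hc]⟩
  have hdown : ∀ u ∈ st', ∀ x ∈ sF k s, o.P u x → ∀ u' ∈ st', ∀ x' ∈ sF k s, o.P u' x' →
      ∀ g : GL (Fin 2) k, g • u = u' → Matrix.ProjGenLinGroup.mk g • x = x' := by
    intro u hu x hx hux u' hu' x' hx' hux' g hg
    have h1 := o.equi g u hu.1 x hx.1 hux
    rw [← hact, hg] at h1
    exact o.uniq u' hu'.1 _ (hs.st _ x hx.1) x' hx'.1 h1 hux'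
  have hfree : ∀ u ∈ st', ∀ g : GL (Fin 2) k, g • u = u → glF k n g = 1 := by
    intro u hu g hg
    obtain ⟨x, hx, hux⟩ := hleft u hu
    have h1 := hdown u hu x hx hux u hu x hx hux g hg
    obtain ⟨c, rfl⟩ := mk_eq_one (TG3_one hx h1)
    rw [o.free c u hu.1 hg]
    have h2 : scal (1 : kˣ) = 1 := map_one _
    rw [h2, map_one]
  have h1 := free_bundle hst (glF k n) (glF_dm n) hfree
  rw [finrank_Form] at h1
  have h2 : orb k (GL (Fin 2) k) st' = orb k PGL(2, k) (sF k s) := by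
    refine clq_corr hst.dq hF.dq o.P o.dP hleft hright ?_
    intro u hu x hx hux u' hu' x' hx' hux'
    constructor
    · rintro ⟨g, hg⟩
      exact ⟨Matrix.ProjGenLinGroup.mk g, hdown u hu x hx hux u' hu' x' hx' hux' g hg⟩
    · rintro ⟨g, hg⟩
      obtain ⟨g, rfl⟩ := Matrix.ProjGenLinGroup.mk_surjective g
      obtain ⟨c, hc⟩ := hlift u hu x hx hux u' hu' x' hx' hux' g hg
      exact ⟨_, hc⟩
  have hmap : ∀ (g : GL (Fin 2) k) (p : ℙ k (Form k n)),
      Projectivization.map (glF k n g) (rep_inj (glF k n) g) p =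
        (Matrix.ProjGenLinGroup.mk g : PGL(2, k)) • p := by
    intro g p
    induction p using Projectivization.ind with
    | h F hF => rfl
  have h3 : orb k (GL (Fin 2) k) (st' ×ˢ (Set.univ : Set (ℙ k (Form k n)))) =
      orb k PGL(2, k) (sF k s ×ˢ (Set.univ : Set (ℙ k (Form k n)))) := by
    refine clq_corr (hst.prod GSet.univ).dq (hF.prod GSet.univ).dq
      (fun p q => o.P p.1 q.1 ∧ p.2 = q.2) ?_ ?_ ?_ ?_
    · refine DM.and ?_ (by fun_prop)
      exact DM.comp o.dP (f := fun p : (o.Xt × ℙ k (Form k n)) × (X × ℙ k (Form k n)) =>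
        (p.1.1, p.2.1)) (by fun_prop)
    · rintro ⟨u, p⟩ ⟨hu, -⟩
      obtain ⟨x, hx, hux⟩ := hleft u hu
      exact ⟨(x, p), ⟨hx, trivial⟩, hux, rfl⟩
    · rintro ⟨x, p⟩ ⟨hx, -⟩
      obtain ⟨u, hu, hux⟩ := hright x hx
      exact ⟨(u, p), ⟨hu, trivial⟩, hux, rfl⟩
    · rintro ⟨u, p⟩ ⟨hu, -⟩ ⟨x, q⟩ ⟨hx, -⟩ ⟨hux, hpq⟩ ⟨u', p'⟩ ⟨hu', -⟩ ⟨x', q'⟩ ⟨hx', -⟩
        ⟨hux', hpq'⟩
      dsimp only at hu hx hux hpq hu' hx' hux' hpq'
      subst hpq hpq'
      constructor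
      · rintro ⟨g, hg⟩
        refine ⟨Matrix.ProjGenLinGroup.mk g, Prod.ext
          (hdown u hu x hx hux u' hu' x' hx' hux' g (congrArg Prod.fst hg)) ?_⟩
        have h4 : g • p = p' := congrArg Prod.snd hg
        exact h4
      · rintro ⟨g, hg⟩
        obtain ⟨g, rfl⟩ := Matrix.ProjGenLinGroup.mk_surjective g
        obtain ⟨c, hc⟩ := hlift u hu x hx hux u' hu' x' hx' hux' g (congrArg Prod.fst hg)
        refine ⟨scal c * g, Prod.ext hc ?_⟩
        have h4 : (Matrix.ProjGenLinGroup.mk g : PGL(2, k)) • p = p' := congrArg Prod.snd hg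
        have h5 : (Matrix.ProjGenLinGroup.mk (scal c * g) : PGL(2, k)) • p = p' := by
          rw [map_mul, scal_mk, one_mul, h4]
        exact h5
  rw [← h3, ← h2, ← h1]
  apply clq_congr
  rintro ⟨u, p⟩ - ⟨u', p'⟩ -
  constructor
  · rintro ⟨g, hg⟩
    exact ⟨g, congrArg Prod.fst hg, (hmap g p).trans (congrArg Prod.snd hg)⟩
  · rintro ⟨g, hg1, hg2⟩
    exact ⟨g, Prod.ext hg1 ((hmap g p).symm.trans hg2)⟩

end

end Pool.Agent.MRat
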