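import Pool.Agent.Lib.MP_923aff_ag.TG1
import Pool.Agent.Lib.MP_923aff_ag.REPS
import Pool.Agent.Lib.MP_923aff_ag.FA8
/-!
# JOBS TG4a, TG4b: the part with a canonical Klein four group

TG4a: the normaliser of `V4std` is the octahedral group. `v1 = tor (-1)`, `v2 = swp k`, with `i² = -1`:
`c = gm 1 i 1 (-i)` (`z ↦ (z + i) / (z - i)`), `τ = gm 0 (-i) 1 0` (`z ↦ -i / z`). For `gen`: `g v1 g⁻¹` is one of the three
involutions; multiply by a power of `c` to get an element centralising `v1`, then possibly by `τ` to get an element centralising `V4std`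
(`v4_cent`). `O4_finite` from `gen`.

TG4b: `tgV_orb`: `clq_map` for the inclusion of `sV0 k s ×ˢ t` into `sV k s ×ˢ t` (`sV_iff`, `canV_unique`, `canV_conj`).
`tgV_form`: `niceOn_S4` for the restriction of `repF` (`repF_map` identifies the actions).
-/

set_option autoImplicit false

namespace Pool.Agent.MRat

open scoped MatrixGroups LinearAlgebra.Projectivization

noncomputable section

variable {k : Type} [Field k] [IsAlgClosed k] [CharZero k]
variable {X Y Z : Type} [DT k X] [DT k Y] [DT k Z]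
variable [MulAction PGL(2, k) X] [MulAction PGL(2, k) Z]

/-- The normaliser of the standard Klein four group. -/
abbrev O4 (k : Type) [Field k] [IsAlgClosed k] [CharZero k] : Subgroup PGL(2, k) :=
  Subgroup.normalizer ((V4std k : Subgroup PGL(2, k)) : Set PGL(2, k))

omit [IsAlgClosed k] in
private theorem TG4a_det {i : k} (hi : i * i = -1) : (1 : k) * (-i) - i * 1 ≠ 0 := by
  intro h
  have h1 : (2 : k) * i = 0 := by linear_combination -h
  rcases mul_eq_zero.1 h1 with h2 | h2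
  · exact two_ne_zero h2
  · rw [h2, mul_zero] at hi
    exact one_ne_zero (neg_eq_zero.1 hi.symm)

omit [IsAlgClosed k] [CharZero k] in
private theorem TG4a_ne {i : k} (hi : i * i = -1) : i ≠ 0 := by
  intro h1
  rw [h1, mul_zero] at hi
  exact one_ne_zero (neg_eq_zero.1 hi.symm)

omit [IsAlgClosed k] [CharZero k] in
private theorem TG4a_det' {i : k} (hi : i * i = -1) : (0 : k) * 0 - (-i) * 1 ≠ 0 := by
  intro h
  exact TG4a_ne hi (by linear_combination h)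

/-- The element of order three. -/
private def TG4a_c (i : k) (hi : i * i = -1) : PGL(2, k) := gm 1 i 1 (-i) (TG4a_det hi)

/-- The involution. -/
private def TG4a_t (i : k) (hi : i * i = -1) : PGL(2, k) := gm 0 (-i) 1 0 (TG4a_det' hi)

omit [IsAlgClosed k] in
private theorem TG4a_v1 : (tor (-1 : kˣ) : PGL(2, k)) = gm (-1) 0 0 1 (by simp) := by
  unfold tor
  rw [gm_eq_iff]
  exact ⟨1, one_ne_zero, by simp, by simp, by simp, by simp⟩

omit [IsAlgClosed k] in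
private theorem TG4a_c3 (i : k) (hi : i * i = -1) : TG4a_c i hi ^ 3 = 1 := by
  rw [pow_succ, pow_two, TG4a_c, gm_mul, gm_mul, ← gm_one]
  symm
  rw [gm_eq_iff]
  have hne : (2 : k) + 2 * i ≠ 0 := by
    intro h
    have h1 : i = -1 := by
      have h2 : (2 : k) * (i + 1) = 0 := by linear_combination h
      rcases mul_eq_zero.1 h2 with h3 | h3
      · exact absurd h3 two_ne_zero
      · linear_combination h3
    rw [h1] at hi
    have h2 : (2 : k) = 0 := by linear_combination hi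
    exact two_ne_zero h2
  refine ⟨2 + 2 * i, hne, ?_, ?_, ?_, ?_⟩
  · linear_combination (-1 : k) * hi
  · linear_combination i * hi
  · linear_combination (1 : k) * hi
  · linear_combination (-(i + 2)) * hi

omit [IsAlgClosed k] in
private theorem TG4a_cv1 (i : k) (hi : i * i = -1) :
    TG4a_c i hi * tor (-1) * (TG4a_c i hi)⁻¹ = swp k := by
  rw [mul_inv_eq_iff_eq_mul, TG4a_v1, TG4a_c, swp, gm_mul, gm_mul, gm_eq_iff]
  refine ⟨-1, by simp, by ring, by ring, by ring, by ring⟩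

omit [IsAlgClosed k] in
private theorem TG4a_cv2 (i : k) (hi : i * i = -1) :
    TG4a_c i hi * swp k * (TG4a_c i hi)⁻¹ = tor (-1) * swp k := by
  rw [mul_inv_eq_iff_eq_mul, TG4a_v1, TG4a_c, swp, gm_mul, gm_mul, gm_mul, gm_eq_iff]
  refine ⟨i, TG4a_ne hi, by linear_combination (-1 : k) * hi, by ring,
    by linear_combination (1 : k) * hi, by ring⟩

omit [IsAlgClosed k] [CharZero k] in
private theorem TG4a_tt (i : k) (hi : i * i = -1) : TG4a_t i hi * TG4a_t i hi = 1 := by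
  rw [TG4a_t, gm_mul, ← gm_one]
  symm
  rw [gm_eq_iff]
  refine ⟨-i, neg_ne_zero.2 (TG4a_ne hi), by ring, by ring, by ring, by ring⟩

omit [IsAlgClosed k] in
private theorem TG4a_tc (i : k) (hi : i * i = -1) :
    TG4a_t i hi * TG4a_c i hi * TG4a_t i hi = (TG4a_c i hi)⁻¹ := by
  refine eq_inv_of_mul_eq_one_left ?_
  rw [TG4a_t, TG4a_c, gm_mul, gm_mul, gm_mul, ← gm_one]
  symm
  rw [gm_eq_iff]
  refine ⟨-2, by simp, by linear_combination (2 : k) * hi, by ring, by ring,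
    by linear_combination (2 : k) * hi⟩

omit [IsAlgClosed k] in
private theorem TG4a_tv1 (i : k) (hi : i * i = -1) :
    TG4a_t i hi * tor (-1) * TG4a_t i hi = tor (-1) := by
  rw [TG4a_v1, TG4a_t, gm_mul, gm_mul, gm_eq_iff]
  refine ⟨-i, neg_ne_zero.2 (TG4a_ne hi), by linear_combination (-1 : k) * hi, by ring, by ring,
    by linear_combination (1 : k) * hi⟩

omit [IsAlgClosed k] in
private theorem TG4a_tv2 (i : k) (hi : i * i = -1) :
    TG4a_t i hi * swp k * TG4a_t i hi = tor (-1) * swp k := by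
  rw [TG4a_v1, TG4a_t, swp, gm_mul, gm_mul, gm_mul, gm_eq_iff]
  refine ⟨1, one_ne_zero, by ring, by linear_combination (-1 : k) * hi, by ring, by ring⟩

private theorem TG4a_norm {g : PGL(2, k)} (h : ∀ v ∈ V4std k, g * v * g⁻¹ ∈ V4std k)
    (h' : ∀ v ∈ V4std k, g⁻¹ * v * g ∈ V4std k) : g ∈ O4 k := by
  rw [Subgroup.mem_normalizer_iff]
  intro v
  refine ⟨h v, fun h1 => ?_⟩
  have h2 := h' _ h1
  have e : g⁻¹ * (g * v * g⁻¹) * g = v := by group
  rwa [e] at h2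

private theorem TG4a_stab {g : PGL(2, k)} (h1 : g * tor (-1) * g⁻¹ ∈ V4std k)
    (h2 : g * swp k * g⁻¹ ∈ V4std k) : ∀ v ∈ V4std k, g * v * g⁻¹ ∈ V4std k := by
  intro v hv
  rcases mem_V4std.1 hv with rfl | rfl | rfl | rfl
  · rw [mul_one, mul_inv_cancel]
    exact one_mem _
  · exact h1
  · exact h2
  · have e : g * (tor (-1) * swp k) * g⁻¹ = (g * tor (-1) * g⁻¹) * (g * swp k * g⁻¹) := by group
    rw [e]
    exact mul_mem h1 h2

private theorem TG4a_m1 : (tor (-1) : PGL(2, k)) ∈ V4std k := mem_V4std.2 (Or.inr (Or.inl rfl))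

private theorem TG4a_m2 : swp k ∈ V4std k := mem_V4std.2 (Or.inr (Or.inr (Or.inl rfl)))

private theorem TG4a_c_mem (i : k) (hi : i * i = -1) : TG4a_c i hi ∈ O4 k := by
  have h1 : ∀ v ∈ V4std k, TG4a_c i hi * v * (TG4a_c i hi)⁻¹ ∈ V4std k := by
    refine TG4a_stab ?_ ?_
    · rw [TG4a_cv1]
      exact TG4a_m2
    · rw [TG4a_cv2]
      exact mul_mem TG4a_m1 TG4a_m2
  refine TG4a_norm h1 ?_
  intro v hv
  have h2 := h1 _ (h1 v hv)
  have h3 := TG4a_c3 i hi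
  have e : TG4a_c i hi * (TG4a_c i hi * v * (TG4a_c i hi)⁻¹) * (TG4a_c i hi)⁻¹ =
      (TG4a_c i hi)⁻¹ * v * TG4a_c i hi := by
    have h4 : TG4a_c i hi * TG4a_c i hi = (TG4a_c i hi)⁻¹ := by
      refine eq_inv_of_mul_eq_one_left ?_
      rw [← h3, pow_succ, pow_two]
    have h5 : (TG4a_c i hi)⁻¹ * (TG4a_c i hi)⁻¹ = TG4a_c i hi :=
      (congrArg (fun x => (TG4a_c i hi)⁻¹ * x) h4.symm).trans (inv_mul_cancel_left _ _)
    calc TG4a_c i hi * (TG4a_c i hi * v * (TG4a_c i hi)⁻¹) * (TG4a_c i hi)⁻¹ =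
        (TG4a_c i hi * TG4a_c i hi) * v * ((TG4a_c i hi)⁻¹ * (TG4a_c i hi)⁻¹) := by group
      _ = _ := by rw [h4, h5]
  rwa [e] at h2

private theorem TG4a_t_mem (i : k) (hi : i * i = -1) : TG4a_t i hi ∈ O4 k := by
  have ht : (TG4a_t i hi)⁻¹ = TG4a_t i hi := inv_eq_of_mul_eq_one_left (TG4a_tt i hi)
  have h1 : ∀ v ∈ V4std k, TG4a_t i hi * v * (TG4a_t i hi)⁻¹ ∈ V4std k := by
    refine TG4a_stab ?_ ?_
    · rw [ht, TG4a_tv1]
      exact TG4a_m1
    · rw [ht, TG4a_tv2]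
      exact mul_mem TG4a_m1 TG4a_m2
  refine TG4a_norm h1 ?_
  intro v hv
  have h2 := h1 v hv
  rw [ht] at h2 ⊢
  exact h2

/-- An element of `O4` centralising `v1` is in `V4std` or in `V4std τ`. -/
private theorem TG4a_cent (i : k) (hi : i * i = -1) {h : PGL(2, k)} (hh : h ∈ O4 k)
    (h1 : h * tor (-1) * h⁻¹ = tor (-1)) : h ∈ V4std k ∨ h * TG4a_t i hi ∈ V4std k := by
  have key : ∀ g : PGL(2, k), g * tor (-1) * g⁻¹ = tor (-1) → g * swp k * g⁻¹ = swp k →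
      g ∈ V4std k := by
    intro g g1 g2
    rw [mul_inv_eq_iff_eq_mul] at g1 g2
    apply v4_cent
    intro v hv
    rcases mem_V4std.1 hv with rfl | rfl | rfl | rfl
    · rw [mul_one, one_mul]
    · exact g1
    · exact g2
    · rw [← mul_assoc, g1, mul_assoc, g2, mul_assoc]
  have h2 : h * swp k * h⁻¹ ∈ V4std k := (Subgroup.mem_normalizer_iff.1 hh _).1 TG4a_m2
  have ne1 : swp k ≠ 1 := by
    rw [← tor_one, ← one_mul (swp k), ← tor_one]
    exact (FGJ_tS 1 1).symm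
  have ne2 : swp k ≠ tor (-1) := by
    have e : swp k = tor 1 * swp k := by rw [tor_one, one_mul]
    rw [e]
    exact (FGJ_tS _ _).symm
  rcases mem_V4std.1 h2 with h3 | h3 | h3 | h3
  · exfalso
    apply ne1
    rw [mul_inv_eq_one] at h3
    exact mul_left_cancel (h3.trans (mul_one h).symm)
  · exfalso
    apply ne2
    rw [← h1] at h3
    exact mul_left_cancel (mul_right_cancel h3)
  · exact Or.inl (key h h1 h3)
  · right
    have ht : (TG4a_t i hi)⁻¹ = TG4a_t i hi := inv_eq_of_mul_eq_one_left (TG4a_tt i hi)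
    refine key _ ?_ ?_
    · have e : h * TG4a_t i hi * tor (-1) * (h * TG4a_t i hi)⁻¹ =
          h * (TG4a_t i hi * tor (-1) * (TG4a_t i hi)⁻¹) * h⁻¹ := by group
      rw [e, ht, TG4a_tv1, h1]
    · have e : h * TG4a_t i hi * swp k * (h * TG4a_t i hi)⁻¹ =
          h * (TG4a_t i hi * swp k * (TG4a_t i hi)⁻¹) * h⁻¹ := by group
      have e2 : h * (tor (-1) * swp k) * h⁻¹ = (h * tor (-1) * h⁻¹) * (h * swp k * h⁻¹) := by
        group
      rw [e, ht, TG4a_tv2, e2, h1, h3, ← mul_assoc, FGJ_TT, one_mul]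

private theorem TG4a_gen (i : k) (hi : i * i = -1) {g : PGL(2, k)} (hg : g ∈ O4 k) :
    ∃ v ∈ V4std k, ∃ j : ℕ, g = v * TG4a_c i hi ^ j ∨ g = v * TG4a_c i hi ^ j * TG4a_t i hi := by
  -- some power of `c` moves `v1` to `g v1 g⁻¹`
  have h1 : ∃ j : ℕ, TG4a_c i hi ^ j * tor (-1) * (TG4a_c i hi ^ j)⁻¹ = g * tor (-1) * g⁻¹ := by
    have h2 : g * tor (-1) * g⁻¹ ∈ V4std k := (Subgroup.mem_normalizer_iff.1 hg _).1 TG4a_m1
    rcases mem_V4std.1 h2 with h3 | h3 | h3 | h3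
    · exfalso
      rw [mul_inv_eq_one] at h3
      exact FGJ_T1 (mul_left_cancel (h3.trans (mul_one g).symm))
    · exact ⟨0, by rw [h3, pow_zero, one_mul, inv_one, mul_one]⟩
    · exact ⟨1, by rw [h3, pow_one, TG4a_cv1]⟩
    · refine ⟨2, ?_⟩
      have e : TG4a_c i hi ^ 2 * tor (-1) * (TG4a_c i hi ^ 2)⁻¹ =
          TG4a_c i hi * (TG4a_c i hi * tor (-1) * (TG4a_c i hi)⁻¹) * (TG4a_c i hi)⁻¹ := by
        rw [pow_two, mul_inv_rev]
        simp only [mul_assoc]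
      rw [h3, e, TG4a_cv1, TG4a_cv2]
  obtain ⟨j, hj⟩ := h1
  have hc := pow_mem (TG4a_c_mem i hi) j
  have h4 : ∀ v ∈ V4std k, TG4a_c i hi ^ j * v * (TG4a_c i hi ^ j)⁻¹ ∈ V4std k :=
    fun v hv => (Subgroup.mem_normalizer_iff.1 hc v).1 hv
  have h5 : ((TG4a_c i hi ^ j)⁻¹ * g) * tor (-1) * ((TG4a_c i hi ^ j)⁻¹ * g)⁻¹ = tor (-1) := by
    have e : ((TG4a_c i hi ^ j)⁻¹ * g) * tor (-1) * ((TG4a_c i hi ^ j)⁻¹ * g)⁻¹ =
        (TG4a_c i hi ^ j)⁻¹ * (g * tor (-1) * g⁻¹) * (TG4a_c i hi ^ j) := by group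
    rw [e, ← hj]
    group
  rcases TG4a_cent i hi (mul_mem (inv_mem hc) hg) h5 with h6 | h6
  · refine ⟨_, h4 _ h6, j, Or.inl ?_⟩
    group
  · refine ⟨_, h4 _ h6, j, Or.inr ?_⟩
    have ht := TG4a_tt i hi
    have e : TG4a_c i hi ^ j * ((TG4a_c i hi ^ j)⁻¹ * g * TG4a_t i hi) * (TG4a_c i hi ^ j)⁻¹ *
        TG4a_c i hi ^ j * TG4a_t i hi = g * (TG4a_t i hi * TG4a_t i hi) := by group
    rw [e, ht, mul_one]

theorem O4_data : ∃ v1 v2 c τ : O4 k, S4Data v1 v2 c τ ∧ (v1 : PGL(2, k)) = tor (-1 : kˣ) ∧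
    (v2 : PGL(2, k)) = swp k := by
  obtain ⟨i, hi0⟩ := IsAlgClosed.exists_pow_nat_eq (-1 : k) (n := 2) (by norm_num)
  have hi : i * i = -1 := by rw [← pow_two, hi0]
  have hV : ∀ v ∈ V4std k, v ∈ O4 k := fun v hv => Subgroup.le_normalizer hv
  refine ⟨⟨tor (-1), hV _ TG4a_m1⟩, ⟨swp k, hV _ TG4a_m2⟩, ⟨TG4a_c i hi, TG4a_c_mem i hi⟩,
    ⟨TG4a_t i hi, TG4a_t_mem i hi⟩, ?_, rfl, rfl⟩
  refine
    { h11 := Subtype.ext FGJ_TT
      h22 := Subtype.ext swp_mul_self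
      h12 := Subtype.ext FGJ_ST.symm
      c3 := Subtype.ext (TG4a_c3 i hi)
      cv1 := Subtype.ext (TG4a_cv1 i hi)
      cv2 := Subtype.ext (TG4a_cv2 i hi)
      ττ := Subtype.ext (TG4a_tt i hi)
      τc := Subtype.ext (TG4a_tc i hi)
      τv1 := Subtype.ext (TG4a_tv1 i hi)
      τv2 := Subtype.ext (TG4a_tv2 i hi)
      gen := ?_ }
  rintro ⟨g, hg⟩
  obtain ⟨v, hv, j, hj⟩ := TG4a_gen i hi hg
  refine ⟨⟨v, hV v hv⟩, ?_, j, ?_⟩
  · rcases mem_V4std.1 hv with h | h | h | h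
    · exact Or.inl (Subtype.ext h)
    · exact Or.inr (Or.inl (Subtype.ext h))
    · exact Or.inr (Or.inr (Or.inl (Subtype.ext h)))
    · exact Or.inr (Or.inr (Or.inr (Subtype.ext h)))
  · rcases hj with h | h
    · exact Or.inl (Subtype.ext h)
    · exact Or.inr (Subtype.ext h)

instance O4_finite : Finite (O4 k) := by
  obtain ⟨v1, v2, c, τ, h, -, -⟩ := O4_data (k := k)
  refine Finite.of_surjective (fun p : Fin 4 × Fin 3 × Fin 2 =>
    (![1, v1, v2, v1 * v2] : Fin 4 → O4 k) p.1 * c ^ (p.2.1 : ℕ) * τ ^ (p.2.2 : ℕ)) ?_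
  intro g
  obtain ⟨v, hv, j, hj⟩ := h.gen g
  have h1 : ∃ a : Fin 4, (![1, v1, v2, v1 * v2] : Fin 4 → O4 k) a = v := by
    rcases hv with rfl | rfl | rfl | rfl
    · exact ⟨0, rfl⟩
    · exact ⟨1, rfl⟩
    · exact ⟨2, rfl⟩
    · exact ⟨3, rfl⟩
  obtain ⟨a, rfl⟩ := h1
  have h2 : c ^ j = c ^ (j % 3) := pow_eq_pow_mod j h.c3
  rcases hj with rfl | rfl
  · refine ⟨(a, ⟨j % 3, Nat.mod_lt _ (by norm_num)⟩, 0), ?_⟩
    rw [h2]
    show _ * c ^ (j % 3) * τ ^ 0 = _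
    rw [pow_zero, mul_one]
  · refine ⟨(a, ⟨j % 3, Nat.mod_lt _ (by norm_num)⟩, 1), ?_⟩
    rw [h2]
    show _ * c ^ (j % 3) * τ ^ 1 = _
    rw [pow_one]

variable [DAct k PGL(2, k) X] [DAct k PGL(2, k) Z]

/-- The action of `O4` on a `PGL₂`-space. -/
@[simps] def O4act (k X : Type) [Field k] [IsAlgClosed k] [CharZero k] [DT k X]
    [MulAction PGL(2, k) X] [DAct k PGL(2, k) X] : FAct k (O4 k) X where
  a g x := (g : PGL(2, k)) • x
  a_one x := one_smul _ x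
  a_mul g h x := mul_smul _ _ x
  d g := by
    have h := DM.smul (k := k) (DM.const' (k := k) (X := X) (g : PGL(2, k))) (DM.id' (k := k) (X := X))
    exact h

theorem TG4b_norm {g : PGL(2, k)} (hg : g ∈ O4 k) :
    (V4std k).map (MulAut.conj g).toMonoidHom = V4std k := by
  rw [Subgroup.mem_normalizer_iff] at hg
  ext v
  constructor
  · rintro ⟨w, hw, rfl⟩
    exact (hg w).1 hw
  · intro hv
    refine ⟨g⁻¹ * v * g, ?_, by simp [MulAut.conj_apply, mul_assoc]⟩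
    have h := (hg (g⁻¹ * v * g)).2
    have e : g * (g⁻¹ * v * g) * g⁻¹ = v := by group
    rw [e] at h
    exact h hv

omit [DT k X] in
/-- Elements mapping points with canonical Klein four group `V4std` to each other are in `O4`. -/
theorem tgV_res {s : Set X} (fin : FinS k s) {x y : X} (hx : x ∈ sV0 k s) (hy : y ∈ sV0 k s)
    {g : PGL(2, k)} (h : g • x = y) : g ∈ O4 k := by
  have := fin.fin hy.1
  have h1 : CanV (PL k) (stab k y) ((V4std k).map (MulAut.conj g).toMonoidHom) := by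
    rw [← h, stab_smul, canV_conj]
    exact hx.2
  have e := canV_unique h1 hy.2
  rw [Subgroup.mem_normalizer_iff]
  intro v
  constructor
  · intro hv
    have h2 : g * v * g⁻¹ ∈ (V4std k).map (MulAut.conj g).toMonoidHom := ⟨v, hv, rfl⟩
    rw [e] at h2
    exact h2
  · intro hv
    have h2 : g * v * g⁻¹ ∈ (V4std k).map (MulAut.conj g).toMonoidHom := by
      rw [e]
      exact hv
    obtain ⟨w, hw, hw'⟩ := h2
    have h3 : g * w * g⁻¹ = g * v * g⁻¹ := hw'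
    have h4 : w = v := mul_left_cancel (mul_right_cancel h3)
    rw [← h4]
    exact hw

theorem sV0_st {s : Set X} (hs : GSet k PGL(2, k) s) (fin : FinS k s) :
    (O4act k X).St (sV0 k s) := by
  refine ⟨sV0_dm hs fin, ?_⟩
  rintro g x ⟨hx, h⟩
  refine ⟨hs.st _ x hx, ?_⟩
  show CanV (PL k) (stab k ((g : PGL(2, k)) • x)) (V4std k)
  rw [stab_smul]
  have e : (V4std k).map (MulAut.conj (g : PGL(2, k))).toMonoidHom = V4std k := TG4b_norm g.2
  have h1 := (canV_conj (P := PL k) (Γ := stab k x) (g : PGL(2, k)) (V4std k)).2 h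
  rw [e] at h1
  exact h1

theorem O4act_st {s : Set X} (hs : GSet k PGL(2, k) s) : (O4act k X).St s :=
  ⟨hs.ds, fun g x hx => hs.st _ x hx⟩

theorem tgV_orb {s : Set X} (hs : GSet k PGL(2, k) s) (fin : FinS k s) {t : Set Z}
    (ht : GSet k PGL(2, k) t) :
    orb k PGL(2, k) (sV k s ×ˢ t) = fcl ((O4act k X).prod (O4act k Z)) (sV0 k s ×ˢ t) := by
  have hA := (sV_gset hs fin).prod ht
  have h0 := (sV0_st hs fin).prod (O4act_st ht)
  symm
  refine clq_map h0.dq hA.dq (fun p => p) DM.id' ?_ ?_ ?_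
  · rintro ⟨x, z⟩ ⟨hx, hz⟩
    exact ⟨⟨hx.1, _, hx.2⟩, hz⟩
  · rintro ⟨x, z⟩ ⟨hx, hz⟩ ⟨y, w⟩ ⟨hy, hw⟩
    constructor
    · rintro ⟨c, h⟩
      exact ⟨(c : PGL(2, k)), h⟩
    · rintro ⟨g, h⟩
      exact ⟨⟨g, tgV_res fin hx hy (congrArg Prod.fst h)⟩, h⟩
  · rintro ⟨y, w⟩ ⟨hy, hw⟩
    obtain ⟨g, hg⟩ := (sV_iff hs y).1 hy
    refine ⟨(g • y, g • w), ⟨hg, ht.st g w hw⟩, g⁻¹, ?_⟩
    exact Prod.ext (inv_smul_smul g y) (inv_smul_smul g w)

theorem tgV_orb' {s : Set X} (hs : GSet k PGL(2, k) s) (fin : FinS k s) :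
    orb k PGL(2, k) (sV k s) = fcl (O4act k X) (sV0 k s) := by
  have hA := sV_gset hs fin
  have h0 := sV0_st hs fin
  symm
  refine clq_map h0.dq hA.dq (fun p => p) DM.id' ?_ ?_ ?_
  · rintro x hx
    exact ⟨hx.1, _, hx.2⟩
  · rintro x hx y hy
    constructor
    · rintro ⟨c, h⟩
      exact ⟨(c : PGL(2, k)), h⟩
    · rintro ⟨g, h⟩
      exact ⟨⟨g, tgV_res fin hx hy h⟩, h⟩
  · rintro y hy
    obtain ⟨g, hg⟩ := (sV_iff hs y).1 hy
    exact ⟨g • y, hg, g⁻¹, inv_smul_smul g y⟩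

theorem TG4b_ext {F : Type} [Group F] {A B : FAct k F X} (h : ∀ g x, A.a g x = B.a g x) :
    A = B := by
  cases A
  cases B
  congr
  funext g x
  exact h g x

theorem TG4b_nice {V : Type} [AddCommGroup V] [Module k V] [DT k V] [FDM k V] {s : Set X}
    (hs : GSet k PGL(2, k) s) (fin : FinS k s) (ρ : Representation k (O4 k) V) :
    Nice (O4act k X) (sV0 k s) ρ := by
  obtain ⟨v1, v2, c, τ, hd, e1, e2⟩ := O4_data (k := k)
  refine niceOn_S4 hd ρ X (O4act k X) (sV0 k s) (sV0_st hs fin) ?_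
  rintro h hh x ⟨hx, -, -, hle, -⟩
  rcases hh with rfl | rfl
  · show (h : PGL(2, k)) • x = x
    rw [e1]
    exact hle (mem_V4std.2 (Or.inr (Or.inl rfl)))
  · show (h : PGL(2, k)) • x = x
    rw [e2]
    exact hle (mem_V4std.2 (Or.inr (Or.inr (Or.inl rfl))))

theorem tgV_form {s : Set X} (hs : GSet k PGL(2, k) s) (fin : FinS k s) (m : ℕ) :
    orb k PGL(2, k) (sV k s ×ˢ (Set.univ : Set (ℙ k (Form k (2 * m))))) =
      br (2 * m + 1) • orb k PGL(2, k) (sV k s) := by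
  rw [tgV_orb hs fin GSet.univ, tgV_orb' hs fin]
  have e : O4act k (ℙ k (Form k (2 * m))) = PRep ((repF k m).comp (O4 k).subtype) := by
    refine TG4b_ext (fun g p => ?_)
    exact repF_map m (g : PGL(2, k)) p
  rw [e, ← finrank_Form (k := k) (2 * m)]
  exact TG4b_nice hs fin _

theorem tgV_sm {s : Set X} (hs : GSet k PGL(2, k) s) (fin : FinS k s) (m : ℕ) :
    orb k PGL(2, k) (sV k s ×ˢ (Set.univ : Set (ℙ k (SM k (2 * m + 1))))) =
      br (2 * (2 * m + 1) + 2) • orb k PGL(2, k) (sV k s) := by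
  rw [tgV_orb hs fin GSet.univ, tgV_orb' hs fin]
  have e : O4act k (ℙ k (SM k (2 * m + 1))) = PRep ((repS k m).comp (O4 k).subtype) := by
    refine TG4b_ext (fun g p => ?_)
    exact repS_map m (g : PGL(2, k)) p
  rw [e, ← finrank_SM (k := k) (2 * m + 1)]
  exact TG4b_nice hs fin _

end

end Pool.Agent.MRat
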