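import Pool.Agent.Lib.MP_923aff_ag.TG2
import Pool.Agent.Lib.MP_923aff_ag.TG3
import Pool.Agent.Lib.MP_923aff_ag.TG4
import Pool.Agent.Lib.MP_923aff_ag.RT
/-!
# JOB TG5: the projective bundle formulas (Theorem G)

`tg_split`, `tg_split_prod` and the formulas for the four parts. In the odd case `sV` and `sI` are empty (`OddLin.noV4`; `ico_v4`).
`thmGm_P1`: `PL k` is isomorphic to `ℙ k (Form k 1)` by `p ↦ rootF (fun _ : Fin 1 => p)`.
-/

set_option autoImplicit false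

namespace Pool.Agent.MRat

open scoped MatrixGroups LinearAlgebra.Projectivization

noncomputable section

variable {k : Type} [Field k] [IsAlgClosed k] [CharZero k]
variable {X Y Z : Type} [DT k X] [DT k Y] [DT k Z]
variable [MulAction PGL(2, k) X] [MulAction PGL(2, k) Z]
variable [DAct k PGL(2, k) X] [DAct k PGL(2, k) Z]

theorem NGood.even {A : NA k Y} {s : Set Y} (h : NGood 1 A s) : NGood 2 A s :=
  h.mono (one_dvd 2)

/-- Theorem G for forms of even degree. -/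
theorem thmG_form {s : Set X} (hs : GSet k PGL(2, k) s) (fin : FinS k s)
    (hl : ∀ l, 2 ≤ l → NGood 1 (NA.ofPGL k X) ((NA.ofPGL k X).stl l s)) {n : ℕ} (hn : Even n)
    (hI : orb k PGL(2, k) (sI k s ×ˢ (Set.univ : Set (ℙ k (Form k n)))) =
      br (n + 1) • orb k PGL(2, k) (sI k s)) :
    orb k PGL(2, k) (s ×ˢ (Set.univ : Set (ℙ k (Form k n)))) =
      br (n + 1) • orb k PGL(2, k) s := by
  obtain ⟨m, hm⟩ := hn
  obtain rfl : n = 2 * m := by omega
  have hg : NGood 2 (NA.ofPGL k X) (sA0 k s) :=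
    tgA_good (Or.inr rfl) hs fin (fun l h2 => (hl l h2).even) (fun h => absurd h (by norm_num))
  rw [tg_split_prod hs fin GSet.univ, tg_split hs fin, tgF_form hs m,
    tgA_form hs fin hg (2 * m) (Or.inr ⟨rfl, by simp⟩), tgV_form hs fin m, hI]
  simp only [smul_add]

/-- Theorem G for pairs of forms of odd degree. -/
theorem thmG_sm {s : Set X} (hs : GSet k PGL(2, k) s) (fin : FinS k s)
    (hl : ∀ l, 2 ≤ l → NGood 1 (NA.ofPGL k X) ((NA.ofPGL k X).stl l s)) {d : ℕ} (hd : Odd d)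
    (hI : orb k PGL(2, k) (sI k s ×ˢ (Set.univ : Set (ℙ k (SM k d)))) =
      br (2 * d + 2) • orb k PGL(2, k) (sI k s)) :
    orb k PGL(2, k) (s ×ˢ (Set.univ : Set (ℙ k (SM k d)))) =
      br (2 * d + 2) • orb k PGL(2, k) s := by
  obtain ⟨m, rfl⟩ := hd
  have hg : NGood 2 (NA.ofPGL k X) (sA0 k s) :=
    tgA_good (Or.inr rfl) hs fin (fun l h2 => (hl l h2).even) (fun h => absurd h (by norm_num))
  rw [tg_split_prod hs fin GSet.univ, tg_split hs fin, tgF_sm hs m,
    tgA_sm hs fin hg (2 * m + 1) (Or.inr ⟨rfl, ⟨m, rfl⟩⟩), tgV_sm hs fin m, hI]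
  simp only [smul_add]

theorem oddLin_empty {s : Set X} (hs : GSet k PGL(2, k) s) (o : OddLin k s) :
    sV k s = ∅ ∧ sI k s = ∅ := by
  constructor
  · ext x
    simp only [Set.mem_empty_iff_false, iff_false]
    rintro ⟨hx, V, -, hV, hle, -⟩
    exact o.noV4 hs x hx V hV hle
  · ext x
    simp only [Set.mem_empty_iff_false, iff_false]
    intro hx
    obtain ⟨g, hg, he⟩ := (sI_iff hs x).1 hx
    obtain ⟨V, hV, hle⟩ := ico_v4 (k := k)
    exact o.noV4 hs _ hg V hV (by rw [he]; exact hle)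

/-- Theorem G for all forms on spaces with an `OddLin` structure. -/
theorem thmGm_form {s : Set X} (hs : GSet k PGL(2, k) s) (fin : FinS k s)
    (hl : ∀ l, 2 ≤ l → NGood 1 (NA.ofPGL k X) ((NA.ofPGL k X).stl l s)) (o : OddLin k s) (n : ℕ) :
    orb k PGL(2, k) (s ×ˢ (Set.univ : Set (ℙ k (Form k n)))) =
      br (n + 1) • orb k PGL(2, k) s := by
  have hg : NGood 1 (NA.ofPGL k X) (sA0 k s) :=
    tgA_good (Or.inl rfl) hs fin hl (fun _ => o.noV4 hs)
  obtain ⟨hV, hI⟩ := oddLin_empty hs o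
  have e0 : orb k PGL(2, k) ((∅ : Set X) ×ˢ (Set.univ : Set (ℙ k (Form k n)))) = 0 := by
    rw [Set.empty_prod]
    exact clq_empty _
  have e1 : orb k PGL(2, k) (∅ : Set X) = 0 := clq_empty _
  rw [tg_split_prod hs fin GSet.univ, tg_split hs fin, tgF_odd hs o n,
    tgA_form hs fin hg n (Or.inl rfl), hV, hI, e0, e1]
  simp only [smul_add, smul_zero]

theorem thmGm_P1 {s : Set X} (hs : GSet k PGL(2, k) s) (fin : FinS k s)
    (hl : ∀ l, 2 ≤ l → NGood 1 (NA.ofPGL k X) ((NA.ofPGL k X).stl l s)) (o : OddLin k s) :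
    orb k PGL(2, k) (s ×ˢ (Set.univ : Set (PL k))) = br 2 • orb k PGL(2, k) s := by
  rw [← thmGm_form hs fin hl o 1]
  have hb : Function.Bijective (fun p : PL k => rootF (fun _ : Fin 1 => p)) := by
    constructor
    · intro p q h
      obtain ⟨σ, hσ⟩ := (rootF_eq _ _).1 h
      exact (hσ 0).symm
    · intro F
      obtain ⟨a, rfl⟩ := rootF_surj 1 F
      refine ⟨a 0, congrArg rootF (funext fun i => ?_)⟩
      rw [Subsingleton.elim i 0]
  have hd : DM k (fun p : PL k => rootF (fun _ : Fin 1 => p)) := by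
    have h := DM.comp (rootF_dm (k := k) (n := 1)) (f := fun p : PL k => fun _ : Fin 1 => p)
      (by fun_prop)
    exact h
  refine clq_map (hs.prod GSet.univ).dq (hs.prod GSet.univ).dq
    (fun p => (p.1, rootF (fun _ : Fin 1 => p.2))) ?_ ?_ ?_ ?_
  · have h := DM.comp hd (DM.snd (DM.id' (k := k) (X := X × PL k)))
    exact DM.mk (DM.fst DM.id') h
  · rintro ⟨x, p⟩ ⟨hx, -⟩
    exact ⟨hx, trivial⟩
  · rintro ⟨x, p⟩ - ⟨y, q⟩ -
    constructor
    · rintro ⟨g, hg⟩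
      refine ⟨g, ?_⟩
      simp only [Prod.smul_mk, Prod.mk.injEq] at hg ⊢
      refine ⟨hg.1, ?_⟩
      rw [rootF_smul, hg.2]
    · rintro ⟨g, hg⟩
      refine ⟨g, ?_⟩
      simp only [Prod.smul_mk, Prod.mk.injEq] at hg ⊢
      refine ⟨hg.1, ?_⟩
      rw [rootF_smul] at hg
      exact hb.1 hg.2
  · rintro ⟨x, F⟩ ⟨hx, -⟩
    obtain ⟨p, hp⟩ := hb.2 F
    refine ⟨(x, p), ⟨hx, trivial⟩, 1, ?_⟩
    rw [one_smul]
    exact Prod.ext rfl hp

end

end Pool.Agent.MRat
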