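import Pool.Agent.Lib.MP_923aff_ag.TG3
import Pool.Agent.Lib.MP_923aff_ag.FormsB
/-!
# JOB TL: `OddLin` structures

`oddRat`: for `e = 2 m` let `Xt = SM k e`, `a g F = (det g) ^ m • (g • F)`, so that the scalar `c` acts by `c ^ (2 m) * c * c⁻¹ ^ (2 m) = c` (`sm_scalar`);
`st` the set of all `F` without common zeros, `P F p` the relation `isrep F p`.
`OddLin.prod`: `Xt × Z`, `a g (u, z) = (a g u, mk g • z)`.
-/

set_option autoImplicit false

namespace Pool.Agent.MRat

open scoped MatrixGroups LinearAlgebra.Projectivization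

noncomputable section

variable {k : Type} [Field k] [IsAlgClosed k] [CharZero k]
variable {X Y Z : Type} [DT k X] [DT k Y] [DT k Z]
variable [MulAction PGL(2, k) X] [MulAction PGL(2, k) Z]
variable [DAct k PGL(2, k) X] [DAct k PGL(2, k) Z]

theorem TL_det (c : kˣ) : Matrix.GeneralLinearGroup.det (scal c) = c ^ 2 := by
  apply Units.ext
  rw [Matrix.GeneralLinearGroup.val_det_apply]
  simp [scal, Matrix.GeneralLinearGroup.scalar]

theorem TL_det_dm : DM k (fun g : GL (Fin 2) k => Matrix.GeneralLinearGroup.det g) := by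
  apply DM.to_units
  have h : DM k (fun g : GL (Fin 2) k => ((g : Matrix (Fin 2) (Fin 2) k)).det) := by fun_prop
  exact h

/-- The twisted action on pairs of forms of degree `2 m`. -/
def TL_a (m : ℕ) (g : GL (Fin 2) k) (F : SM k (2 * m)) : SM k (2 * m) :=
  ((Matrix.GeneralLinearGroup.det g ^ m : kˣ) : k) • (g • F)

theorem TL_a_scal (m : ℕ) (c : kˣ) (F : SM k (2 * m)) : TL_a m (scal c) F = (c : k) • F := by
  unfold TL_a
  rw [TL_det, sm_scalar, smul_smul, ← Units.val_mul]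
  congr 2
  rw [← pow_mul, inv_pow, mul_left_comm, mul_inv_cancel, mul_one]

theorem TL_a_val (m : ℕ) (g : GL (Fin 2) k) (F : SM k (2 * m)) (v : Fin 2 → k) :
    (TL_a m g F).1 v = ((Matrix.GeneralLinearGroup.det g ^ m : kˣ) : k) • (g • F.1 (g⁻¹ • v)) :=
  rfl

theorem TL_ne {m : ℕ} {F : SM k (2 * m)} (h : ∀ v : Fin 2 → k, v ≠ 0 → F.1 v ≠ 0) : F ≠ 0 := by
  rintro rfl
  exact h ![1, 0] (by simp) rfl

def oddRat (k : Type) [Field k] [IsAlgClosed k] [CharZero k] (m : ℕ) :
    OddLin k (RatP k (2 * m)) where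
  Xt := SM k (2 * m)
  dt := inferInstance
  a g F := TL_a m g F
  a_one F := by
    unfold TL_a
    rw [map_one, one_pow, Units.val_one, one_smul, one_smul]
  a_mul g h F := by
    unfold TL_a
    rw [map_mul, mul_pow, Units.val_mul, mul_smul g h, mul_smul, ← smul_comm g]
  da := by
    unfold TL_a
    refine DM.vsmul (V := SM k (2 * m)) ?_ (by fun_prop)
    have h := DM.comp TL_det_dm (DM.fst (DM.id' (k := k) (X := GL (Fin 2) k × SM k (2 * m))))
    fun_prop
  st := {F | ∀ v : Fin 2 → k, v ≠ 0 → F.1 v ≠ 0}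
  ds := by
    have h : DM k (fun F : SM k (2 * m) => ∀ v : Fin 2 → k, ¬ (v ≠ 0) ∨ F.1 v ≠ 0) := by
      refine DM.all (DM.or (by fun_prop) (DM.ne ?_ (by fun_prop)))
      exact DM.sm_eval DM.id'.fst DM.id'.snd
    refine h.congr_iff (fun F => forall_congr' fun v => ?_)
    rw [← imp_iff_not_or]
  a_mem g F hF v hv := by
    rw [TL_a_val]
    refine smul_ne_zero (Units.ne_zero _) ?_
    rw [smul_ne_zero_iff_ne]
    refine hF _ ?_
    rw [smul_ne_zero_iff_ne]
    exact hv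
  P F p := isrep F p
  dP := DM.isrep (by fun_prop) (by fun_prop)
  left F hF := ⟨Projectivization.mk k F (TL_ne hF), (mem_RatP _).2 hF, TL_ne hF, rfl⟩
  right p hp := ⟨p.rep, hp, p.rep_nonzero, p.mk_rep⟩
  uniq := by
    rintro u - x - x' - ⟨h, rfl⟩ ⟨h', rfl⟩
    rfl
  fib := by
    rintro u - u' - x - ⟨h, rfl⟩ ⟨h', h2⟩
    rw [Projectivization.mk_eq_mk_iff] at h2
    obtain ⟨c, hc⟩ := h2
    refine ⟨c, ?_⟩
    rw [TL_a_scal]
    exact hc.symm
  equi := by
    rintro g u hu x - ⟨h, rfl⟩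
    have h1 : TL_a m g u ≠ 0 := by
      unfold TL_a
      refine smul_ne_zero (Units.ne_zero _) ?_
      rw [smul_ne_zero_iff_ne]
      exact h
    refine ⟨h1, ?_⟩
    rw [sm_pgl_mk, Projectivization.mk_eq_mk_iff']
    exact ⟨_, rfl⟩
  free := by
    intro c u hu h
    rw [TL_a_scal] at h
    have h0 : u.1 ![1, 0] ≠ 0 := hu _ (by simp)
    obtain ⟨i, hi⟩ := Function.ne_iff.1 h0
    have h1 : (c : k) * u.1 ![1, 0] i = u.1 ![1, 0] i :=
      congrFun (congrFun (congrArg Subtype.val h) ![1, 0]) i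
    have h2 : ((c : k) - 1) * u.1 ![1, 0] i = 0 := by rw [sub_mul, one_mul, h1, sub_self]
    rcases mul_eq_zero.1 h2 with h3 | h3
    · exact Units.ext (sub_eq_zero.1 h3)
    · exact absurd h3 hi

def OddLin.prod {s : Set X} (o : OddLin k s) {t : Set Z} (ht : GSet k PGL(2, k) t) :
    OddLin k (s ×ˢ t) :=
  letI := o.dt
  { Xt := o.Xt × Z
    dt := inferInstance
    a := fun g p => (o.a g p.1, (Matrix.ProjGenLinGroup.mk g : PGL(2, k)) • p.2)
    a_one := fun p => by
      rw [o.a_one, map_one, one_smul]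
    a_mul := fun g h p => by
      rw [o.a_mul, map_mul, mul_smul]
    da := by
      refine DM.mk ?_ (by fun_prop)
      have h := DM.comp o.da (f := fun p : GL (Fin 2) k × (o.Xt × Z) => (p.1, p.2.1))
        (by fun_prop)
      exact h
    st := o.st ×ˢ t
    ds := by
      have h1 := DM.comp o.ds (DM.fst (DM.id' (k := k) (X := o.Xt × Z)))
      have h2 := DM.comp ht.ds (DM.snd (DM.id' (k := k) (X := o.Xt × Z)))
      exact h1.and h2
    a_mem := fun g p hp => ⟨o.a_mem g _ hp.1, ht.st _ _ hp.2⟩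
    P := fun p q => o.P p.1 q.1 ∧ p.2 = q.2
    dP := by
      refine DM.and ?_ (by fun_prop)
      have h := DM.comp o.dP (f := fun p : (o.Xt × Z) × (X × Z) => (p.1.1, p.2.1))
        (by fun_prop)
      exact h
    left := fun p hp => by
      obtain ⟨x, hx, h⟩ := o.left p.1 hp.1
      exact ⟨(x, p.2), ⟨hx, hp.2⟩, h, rfl⟩
    right := fun q hq => by
      obtain ⟨u, hu, h⟩ := o.right q.1 hq.1
      exact ⟨(u, q.2), ⟨hu, hq.2⟩, h, rfl⟩
    uniq := fun p hp x hx x' hx' h h' =>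
      Prod.ext (o.uniq p.1 hp.1 x.1 hx.1 x'.1 hx'.1 h.1 h'.1) (h.2.symm.trans h'.2)
    fib := fun p hp p' hp' x hx h h' => by
      obtain ⟨c, hc⟩ := o.fib p.1 hp.1 p'.1 hp'.1 x.1 hx.1 h.1 h'.1
      refine ⟨c, Prod.ext hc ?_⟩
      show p'.2 = (Matrix.ProjGenLinGroup.mk (scal c) : PGL(2, k)) • p.2
      rw [scal_mk, one_smul, h.2, h'.2]
    equi := fun g p hp x hx h => ⟨o.equi g p.1 hp.1 x.1 hx.1 h.1, congrArg _ h.2⟩
    free := fun c p hp h => o.free c p.1 hp.1 (congrArg Prod.fst h) }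

end

end Pool.Agent.MRat
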