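import Pool.Agent.Lib.MP_923aff_ag.QB
import Pool.Agent.Lib.MP_923aff_ag.RDefs
/-!
# JOB ZF: finite stabilisers

`pgl_fix3`: an element of `PGL₂` fixing three different points is trivial: use `trans_three` and the lemmas
about the stabiliser of `∞`, `0`, `1` in `FGA.lean`, `FGH.lean` (look for them with grep: fixing `∞` and `0`
means `tor t`, and `tor t • 1 = t`).
`conf_fin`: `g` fixing `rootF a` permutes the range of `a` (`rootF_smul`, `rootF_eq`); the map
`{g | g • rootF a = rootF a} → (Fin n → Fin n)` is injective by `pgl_fix3`.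
-/

set_option autoImplicit false

namespace Pool.Agent.MRat

open scoped MatrixGroups LinearAlgebra.Projectivization

noncomputable section

variable {k : Type} [Field k] [IsAlgClosed k] [CharZero k]
variable {X Y Z : Type} [DT k X] [DT k Y] [DT k Z]

theorem pgl_fix3 (g : PGL(2, k)) (a b c : PL k) (hab : a ≠ b) (hac : a ≠ c) (hbc : b ≠ c)
    (ha : g • a = a) (hb : g • b = b) (hc : g • c = c) : g = 1 := by
  obtain ⟨h, h1, h2, h3⟩ := trans_three hab hac hbc
  have e1 : (h⁻¹ * g * h) • ptI k = ptI k := by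
    rw [mul_smul, mul_smul, h1, ha, ← h1, inv_smul_smul]
  have e2 : (h⁻¹ * g * h) • ptz (0 : k) = ptz 0 := by
    rw [mul_smul, mul_smul, h2, hb, ← h2, inv_smul_smul]
  have e3 : (h⁻¹ * g * h) • ptz (1 : k) = ptz 1 := by
    rw [mul_smul, mul_smul, h3, hc, ← h3, inv_smul_smul]
  have e4 := fix_three e1 e2 e3
  have e5 : g = h * (h⁻¹ * g * h) * h⁻¹ := by group
  rw [e5, e4, mul_one, mul_inv_cancel]

theorem conf_fin (n : ℕ) (hn : 3 ≤ n) (x : ℙ k (Form k n)) (hx : x ∈ Conf k n) :
    {g : PGL(2, k) | g • x = x}.Finite := by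
  obtain ⟨a, ha, rfl⟩ := hx
  have hfin : (Set.range fun σ : Equiv.Perm (Fin n) => fun i => a (σ i)).Finite :=
    Set.finite_range _
  refine Set.Finite.of_finite_image (f := fun (g : PGL(2, k)) => fun i => g • a i) ?_ ?_
  · refine hfin.subset ?_
    rintro _ ⟨g, hg, rfl⟩
    have h1 : rootF a = rootF (fun i => g • a i) := by
      rw [← rootF_smul]
      exact hg.symm
    obtain ⟨σ, hσ⟩ := (rootF_eq a _).1 h1
    exact ⟨σ, funext fun i => (hσ i).symm⟩
  · intro g _ g' _ hgg'
    have h1 : ∀ i, g • a i = g' • a i := fun i => congrFun hgg' i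
    have h2 : ∀ i, (g'⁻¹ * g) • a i = a i := fun i => by
      rw [mul_smul, h1 i, inv_smul_smul]
    have h3 := pgl_fix3 (g'⁻¹ * g) (a ⟨0, by omega⟩) (a ⟨1, by omega⟩) (a ⟨2, by omega⟩)
      (fun h => by have := congrArg Fin.val (ha h); simp at this)
      (fun h => by have := congrArg Fin.val (ha h); simp at this)
      (fun h => by have := congrArg Fin.val (ha h); simp at this) (h2 _) (h2 _) (h2 _)
    exact (inv_mul_eq_one.1 h3).symm

/-- Finite stabilisers in `PGL₂` give finite stabilisers in the torus. -/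
theorem tfin_of_fin [MulAction PGL(2, k) Y] [DAct k PGL(2, k) Y] {s : Set Y}
    (h : ∀ x ∈ s, {g : PGL(2, k) | g • x = x}.Finite) : (NA.ofPGL k Y).toTA.Fin s := by
  intro y hy
  have h1 : {c : kˣ | (NA.ofPGL k Y).toTA.t c y = y} =
      (tor : kˣ → PGL(2, k)) ⁻¹' {g : PGL(2, k) | g • y = y} := rfl
  rw [h1]
  exact (h y hy).preimage fun a _ b _ hab => tor_inj.1 hab

theorem prod_fin [MulAction PGL(2, k) Y] [MulAction PGL(2, k) Z] {s : Set Y} {s' : Set Z}
    (h : ∀ x ∈ s', {g : PGL(2, k) | g • x = x}.Finite) :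
    ∀ x ∈ s ×ˢ s', {g : PGL(2, k) | g • x = x}.Finite := by
  rintro ⟨y, z⟩ ⟨_, hz⟩
  refine (h z hz).subset ?_
  intro g hg
  exact congrArg Prod.snd hg

theorem ratconf_fin (e : ℕ) : ∀ x ∈ RatP k e ×ˢ Conf k 4, {g : PGL(2, k) | g • x = x}.Finite :=
  prod_fin fun x hx => conf_fin 4 (by norm_num) x hx

end

end Pool.Agent.MRat
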