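import Pool.Agent.Lib.MP_923aff_ag.ZA
import Pool.Agent.Lib.MP_923aff_ag.ZF
import Pool.Agent.Lib.MP_923aff_ag.R6
import Pool.Agent.Lib.MP_923aff_ag.BL
/-!
# JOB ZB: the fixed loci of `μ_l` on quartic forms with four different roots are good

`l = 2`: `fixl 2` is the union of
* `P = {a x^4 + b x^2 y^2 + c y^4 : a, c ≠ 0} \ {(x^2 - u y^2)^2 : u ≠ 0}`. The first set is the image of
  `(FA k 2).pull 2` on `Hs k 2` under the bijective equivariant map `[G] ↦ [G (x^2, y^2)]`; it is good by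
  `H_good0 2 2` and `NGood.congr`. The second is the image of `Gm k 2` under `u ↦ pt5 ![u^2, 0, -2u, 0, 1]`; good by
  `good_Gm`. Use `NGood.diff`.
* `Q = {x y (a x^2 + c y^2)}`, the image of `Gm k 2` under `u ↦ pt5 ![0, -u, 0, 1, 0]`.
Use `NGood.union`.

`l = 3`: `good_induced` with `s0 = {pt5 ![c, 0, 0, a, 0]}`. `l = 4`: the image of `Gm k 4` under
`u ↦ pt5 ![-u, 0, 0, 0, 1]`. `l ≥ 5`: empty.

In all these maps the action of `t` on `u` is `u ↦ t ^ l u` and `w` sends `u` to `u⁻¹` (`pt5_tor`, `pt5_swp`, `pt5_eq`).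
-/

set_option autoImplicit false

namespace Pool.Agent.MRat

open scoped MatrixGroups LinearAlgebra.Projectivization

noncomputable section

variable {k : Type} [Field k] [IsAlgClosed k] [CharZero k]
variable {X Y Z : Type} [DT k X] [DT k Y] [DT k Z]

/-! ### Auxiliary lemmas -/

private theorem zb_vec5 {a b c d e : X → k} (ha : DM k a) (hb : DM k b) (hc : DM k c)
    (hd : DM k d) (he : DM k e) :
    DM k (fun x => (![a x, b x, c x, d x, e x] : Fin 5 → k)) := by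
  refine DM.pi (fun i => ?_)
  fin_cases i
  · exact ha
  · exact hb
  · exact hc
  · exact hd
  · exact he

/-- The image of a good space under an injective equivariant map is good. -/
private theorem zb_image {m : ℕ} {A : NA k Y} {B : NA k Z} {s : Set Y} (hg : NGood m A s)
    (f : Y → Z) (hf : DM k f) (inj : Set.InjOn f s)
    (ft : ∀ c, ∀ y ∈ s, f (A.t c y) = B.t c (f y)) (fw : ∀ y ∈ s, f (A.w y) = B.w (f y)) :
    NGood m B (f '' s) := by
  refine hg.congr ?_ f hf ⟨Set.mapsTo_image f s, inj, Set.surjOn_image f s⟩ ft fw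
  refine ⟨⟨?_, ?_⟩, ?_⟩
  · have h1 : DM k (fun z : Z => ∃ y : Y, y ∈ s ∧ f y = z) := by
      have h2 : DM k (fun y : Y => y ∈ s) := hg.st.ds
      refine DM.ex (DM.and ?_ (DM.eq ?_ (by fun_prop)))
      · exact DM.comp (f := fun q : Z × Y => q.2) h2 (by fun_prop)
      · exact DM.comp (f := fun q : Z × Y => q.2) hf (by fun_prop)
    exact h1
  · rintro c _ ⟨y, hy, rfl⟩
    exact ⟨A.t c y, hg.st.t_mem c y hy, ft c y hy⟩
  · rintro _ ⟨y, hy, rfl⟩
    exact ⟨A.w y, hg.st.w_mem y hy, fw y hy⟩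

private theorem zb_conf_st : (FA k 4).St (Conf k 4) where
  ds := (Conf_gset 4).ds
  t_mem := fun c y hy => (Conf_gset 4).st (tor c) y hy
  w_mem := fun y hy => (Conf_gset 4).st (swp k) y hy

private theorem zb_conf_fin : (FA k 4).toTA.Fin (Conf k 4) :=
  tfin_of_fin (conf_fin 4 (by norm_num))

private theorem zb_ne {c : Fin 5 → k} (i : Fin 5) (h : c i ≠ 0) : c ≠ 0 := by
  rintro rfl
  exact h rfl

/-! ### `l = 4` -/

private def zbf4 (u : kˣ) : ℙ k (Form k 4) := pt5 ![(u : k), 0, 0, 0, 1]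

private theorem zbf4_ne (u : kˣ) : (![(u : k), 0, 0, 0, 1] : Fin 5 → k) ≠ 0 :=
  zb_ne 4 (by simp)

theorem conf4_good4 : NGood 1 (FA k 4) ((FA k 4).fixl 4 (Conf k 4)) := by
  have e : (FA k 4).fixl 4 (Conf k 4) = zbf4 '' (Set.univ : Set kˣ) := by
    ext p
    rw [conf4_fix4_iff]
    constructor
    · rintro ⟨a, c, ha, hc, rfl⟩
      refine ⟨Units.mk0 (c / a) (div_ne_zero hc ha), trivial, ?_⟩
      rw [zbf4, pt5_eq (zbf4_ne _) (zb_ne 4 (by simpa using ha))]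
      refine ⟨Units.mk0 a ha, fun i => ?_⟩
      fin_cases i <;> simp [mul_div_cancel₀ _ ha]
    · rintro ⟨u, _, rfl⟩
      exact ⟨1, u, one_ne_zero, u.ne_zero, rfl⟩
  rw [e]
  refine zb_image (A := Gm k 4) (good_Gm 4 (by norm_num)).1 zbf4 ?_ ?_ ?_ ?_
  · exact pt5_dm (zb_vec5 (by fun_prop) (by fun_prop) (by fun_prop) (by fun_prop) (by fun_prop))
  · intro u _ v _ h
    rw [zbf4, zbf4, pt5_eq (zbf4_ne _) (zbf4_ne _)] at h
    obtain ⟨x, hx⟩ := h
    have h4 := hx 4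
    have h0 := hx 0
    simp at h4 h0
    apply Units.ext
    rw [h0, ← h4, one_mul]
  · intro c u _
    show zbf4 (c ^ (4 : ℤ) * u) = tor c • zbf4 u
    rw [zbf4, zbf4, pt5_tor (zbf4_ne _), eq_comm,
      pt5_eq (zb_ne 0 (by simp)) (zbf4_ne _)]
    refine ⟨c ^ 4, fun i => ?_⟩
    fin_cases i <;> simp
  · intro u _
    show zbf4 (u⁻¹) = swp k • zbf4 u
    rw [zbf4, zbf4, pt5_swp (zbf4_ne _), eq_comm,
      pt5_eq (zb_ne 0 (by simp [Fin.rev])) (zbf4_ne _)]
    refine ⟨u⁻¹, fun i => ?_⟩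
    fin_cases i <;> simp [Fin.rev]

/-! ### `l = 3` -/

private def zbS0 (k : Type) [Field k] [IsAlgClosed k] [CharZero k] : Set (ℙ k (Form k 4)) :=
  {p | ∃ q : k × k, q.1 ≠ 0 ∧ q.2 ≠ 0 ∧ p = pt5 ![q.2, 0, 0, q.1, 0]}

private theorem zb_S0_swp {a c : k} (ha : a ≠ 0) :
    swp k • pt5 ![c, 0, 0, a, 0] = pt5 ![0, a, 0, 0, c] := by
  rw [pt5_swp (zb_ne 3 (by simpa using ha))]
  congr 1
  funext i
  fin_cases i <;> simp [Fin.rev]

private theorem zb_S0_swp' {a c : k} (ha : a ≠ 0) :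
    swp k • pt5 ![0, a, 0, 0, c] = pt5 ![c, 0, 0, a, 0] := by
  rw [pt5_swp (zb_ne 1 (by simpa using ha))]
  congr 1
  funext i
  fin_cases i <;> simp [Fin.rev]

theorem conf4_good3 : NGood 1 (FA k 4) ((FA k 4).fixl 3 (Conf k 4)) := by
  refine good_induced (s0 := zbS0 k) (zb_conf_st.fixl 3) ⟨?_, ?_⟩ ?_ ?_ ?_
  · have h1 : DM k (fun p : ℙ k (Form k 4) => ∃ q : k × k, q.1 ≠ 0 ∧ q.2 ≠ 0 ∧
        p = pt5 ![q.2, 0, 0, q.1, 0]) := by
      refine DM.ex (DM.and (by fun_prop) (DM.and (by fun_prop) (DM.eq (by fun_prop) ?_)))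
      exact pt5_dm (zb_vec5 (by fun_prop) (by fun_prop) (by fun_prop) (by fun_prop)
        (by fun_prop))
    exact h1
  · rintro c _ ⟨⟨a, b⟩, ha, hb, rfl⟩
    dsimp only at ha hb
    have hne : (![b, 0, 0, a, 0] : Fin 5 → k) ≠ 0 := zb_ne 3 (by simpa using ha)
    refine ⟨(((c⁻¹ ^ 3 : kˣ) : k) * a, b), mul_ne_zero (Units.ne_zero _) ha, hb, ?_⟩
    show tor c • pt5 ![b, 0, 0, a, 0] = _
    rw [pt5_tor hne]
    congr 1
    funext i
    fin_cases i <;> simp
  · intro y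
    rw [conf4_fix3_iff]
    constructor
    · rintro (⟨a, c, ha, hc, rfl⟩ | ⟨a, c, ha, hc, rfl⟩)
      · exact Or.inl ⟨(a, c), ha, hc, rfl⟩
      · refine Or.inr ⟨(c, a), hc, ha, ?_⟩
        show swp k • pt5 ![0, c, 0, 0, a] = _
        exact zb_S0_swp' hc
    · rintro (⟨⟨a, c⟩, ha, hc, rfl⟩ | ⟨⟨a, c⟩, ha, hc, h⟩)
      · exact Or.inl ⟨a, c, ha, hc, rfl⟩
      · refine Or.inr ⟨c, a, hc, ha, ?_⟩
        have h2 : (FA k 4).w ((FA k 4).w y) = (FA k 4).w (pt5 ![c, 0, 0, a, 0]) := by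
          rw [h]
        rw [(FA k 4).w_w] at h2
        rw [h2]
        show swp k • pt5 ![c, 0, 0, a, 0] = _
        exact zb_S0_swp ha
  · rintro _ ⟨⟨a, b⟩, ha, hb, rfl⟩ ⟨⟨a', b'⟩, ha', hb', h⟩
    dsimp only at ha hb ha' hb'
    have h1 : swp k • pt5 ![b, 0, 0, a, 0] = pt5 ![b', 0, 0, a', 0] := h
    rw [zb_S0_swp ha, pt5_eq (zb_ne 1 (by simpa using ha)) (zb_ne 3 (by simpa using ha'))] at h1
    obtain ⟨u, hu⟩ := h1
    have h0 := hu 0
    simp at h0
    exact hb' h0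
  · exact fun y hy => zb_conf_fin y hy.1

/-! ### `l = 2` -/

private theorem zb_tor_mk {g : ℕ} (τ : kˣ) (d d' : Fin (g + 1) → k)
    (h : ∀ i : Fin (g + 1), d' i = ((τ ^ (g - (i : ℕ)) : kˣ) : k) * d i)
    (hd : (Form.of d : Form k g) ≠ 0) (hd' : (Form.of d' : Form k g) ≠ 0) :
    tor τ • Projectivization.mk k (Form.of d) hd = Projectivization.mk k (Form.of d') hd' := by
  rw [tor_eq, form_pgl_mk, eq_comm, Projectivization.mk_eq_mk_iff]
  exact ⟨τ ^ g, ra2_form_t τ d d' h⟩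

private theorem zb_swp_mk {g : ℕ} (d d' : Fin (g + 1) → k)
    (h : ∀ i : Fin (g + 1), d' i = d (Fin.rev i))
    (hd : (Form.of d : Form k g) ≠ 0) (hd' : (Form.of d' : Form k g) ≠ 0) :
    swp k • Projectivization.mk k (Form.of d) hd = Projectivization.mk k (Form.of d') hd' := by
  rw [swp_eq, form_pgl_mk, eq_comm, Projectivization.mk_eq_mk_iff]
  refine ⟨1, ra2_form_w 1 d d' fun i => ?_⟩
  rw [h i, Units.val_one, one_mul]

/-- `[G] ↦ [G (x ^ 2, y ^ 2)]` -/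
private def zbE (p : ℙ k (Form k 2)) : ℙ k (Form k 4) :=
  pt5 ![coeffE k 2 p.rep 0, 0, coeffE k 2 p.rep 1, 0, coeffE k 2 p.rep 2]

private theorem zb_of_ne {g : ℕ} {d : Fin (g + 1) → k} (h : d ≠ 0) :
    (Form.of d : Form k g) ≠ 0 := by
  intro h2
  apply h
  have h3 := congrArg (coeffE k g) h2
  rw [map_zero] at h3
  rw [← h3]
  exact ((coeffE k g).apply_symm_apply d).symm

private theorem zb_three_ne {d : Fin 3 → k} (h : d ≠ 0) :
    (![d 0, 0, d 1, 0, d 2] : Fin 5 → k) ≠ 0 := by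
  intro h2
  apply h
  funext i
  have e0 := congrFun h2 0
  have e2 := congrFun h2 2
  have e4 := congrFun h2 4
  fin_cases i
  · simpa using e0
  · simpa using e2
  · simpa using e4

private theorem zbE_mk {d : Fin 3 → k} (h : d ≠ 0) :
    zbE (Projectivization.mk k (Form.of d : Form k 2) (zb_of_ne h)) =
      pt5 ![d 0, 0, d 1, 0, d 2] := by
  obtain ⟨u, hu⟩ := Projectivization.exists_smul_eq_mk_rep k (Form.of d : Form k 2) (zb_of_ne h)
  have h1 : coeffE k 2 (Projectivization.mk k (Form.of d : Form k 2) (zb_of_ne h)).rep =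
      (u : k) • d := by
    rw [← hu]
    have h2 : (u • (Form.of d : Form k 2)) = (u : k) • (Form.of d : Form k 2) := rfl
    rw [h2, map_smul]
    congr 1
    exact (coeffE k 2).apply_symm_apply d
  unfold zbE
  rw [h1, eq_comm, pt5_eq (zb_three_ne h)]
  · refine ⟨u, fun i => ?_⟩
    fin_cases i <;> simp
  · have h3 : (u : k) • d ≠ 0 := smul_ne_zero u.ne_zero h
    exact zb_three_ne h3

private theorem zb_ind (p : ℙ k (Form k 2)) : ∃ (d : Fin 3 → k) (h : d ≠ 0),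
    p = Projectivization.mk k (Form.of d : Form k 2) (zb_of_ne h) := by
  induction p using Projectivization.ind with
  | h F hF =>
    have h1 : Form.of (coeffE k 2 F) = F := ra2_of_coeffE F
    have h2 : coeffE k 2 F ≠ 0 := by
      intro h
      apply hF
      exact (LinearEquiv.map_eq_zero_iff (coeffE k 2)).1 h
    refine ⟨coeffE k 2 F, h2, ?_⟩
    congr 1
    exact h1.symm

private theorem zb_Hs {d : Fin 3 → k} (h : d ≠ 0) :
    Projectivization.mk k (Form.of d : Form k 2) (zb_of_ne h) ∈ Hs k 2 ↔ d 2 ≠ 0 ∧ d 0 ≠ 0 := by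
  rw [mem_Hs, ra2_of_e0, ra2_of_e1]
  rfl

private theorem zbE_dm : DM k (zbE : ℙ k (Form k 2) → ℙ k (Form k 4)) := by
  refine DM.of_graph (R := fun p q => ∃ F : Form k 2, MRat.isrep F p ∧
    q = pt5 ![coeffE k 2 F 0, 0, coeffE k 2 F 1, 0, coeffE k 2 F 2]) ?_ ?_
  · have hc : ∀ i : Fin 3, DM k (fun q : (ℙ k (Form k 2) × ℙ k (Form k 4)) × Form k 2 =>
        coeffE k 2 q.2 i) := fun i =>
      DM.comp (DM.apply i) (f := fun q : (ℙ k (Form k 2) × ℙ k (Form k 4)) × Form k 2 =>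
        coeffE k 2 q.2) (by fun_prop)
    refine DM.ex (DM.and (DM.isrep (by fun_prop) (by fun_prop)) (DM.eq (by fun_prop) ?_))
    exact pt5_dm (zb_vec5 (hc 0) (by fun_prop) (hc 1) (by fun_prop) (hc 2))
  · intro p q
    constructor
    · rintro ⟨F, ⟨hF, rfl⟩, rfl⟩
      have h1 : Form.of (coeffE k 2 F) = F := ra2_of_coeffE F
      have h2 : coeffE k 2 F ≠ 0 := by
        intro h
        apply hF
        exact (LinearEquiv.map_eq_zero_iff (coeffE k 2)).1 h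
      rw [← zbE_mk h2]
      congr 2
    · rintro rfl
      exact ⟨p.rep, ⟨p.rep_nonzero, Projectivization.mk_rep p⟩, rfl⟩

private theorem zbE_good : NGood 1 (FA k 4) (zbE '' Hs k 2) := by
  refine zb_image (H_good0 (k := k) 2 2 (by norm_num) (by norm_num)).1 zbE zbE_dm ?_ ?_ ?_
  · intro p _ q _ h
    obtain ⟨d, hd, rfl⟩ := zb_ind p
    obtain ⟨d', hd', rfl⟩ := zb_ind q
    rw [zbE_mk hd, zbE_mk hd', pt5_eq (zb_three_ne hd) (zb_three_ne hd')] at h
    obtain ⟨u, hu⟩ := h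
    rw [eq_comm, Projectivization.mk_eq_mk_iff]
    refine ⟨u, ?_⟩
    have h1 : d' = (u : k) • d := by
      funext i
      have e0 := hu 0
      have e2 := hu 2
      have e4 := hu 4
      fin_cases i
      · simpa using e0
      · simpa using e2
      · simpa using e4
    rw [h1]
    have h2 : (u • (Form.of d : Form k 2)) = (u : k) • (Form.of d : Form k 2) := rfl
    rw [h2]
    exact (map_smul (coeffE k 2).symm (u : k) d).symm
  · intro c p _
    obtain ⟨d, hd, rfl⟩ := zb_ind p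
    have hd' : (fun i : Fin 3 => (((c ^ 2) ^ (2 - (i : ℕ)) : kˣ) : k) * d i) ≠ 0 := by
      intro h
      apply hd
      funext i
      have h1 := congrFun h i
      exact (mul_eq_zero.1 h1).resolve_left (Units.ne_zero _)
    show zbE (tor (c ^ 2) • Projectivization.mk k (Form.of d : Form k 2) (zb_of_ne hd)) =
      tor c • zbE (Projectivization.mk k (Form.of d : Form k 2) (zb_of_ne hd))
    rw [zb_tor_mk (c ^ 2) d (fun i : Fin 3 => (((c ^ 2) ^ (2 - (i : ℕ)) : kˣ) : k) * d i)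
      (fun i => rfl) (zb_of_ne hd) (zb_of_ne hd'), zbE_mk hd', zbE_mk hd,
      pt5_tor (zb_three_ne hd), eq_comm, pt5_eq]
    · refine ⟨c ^ 4, fun i => ?_⟩
      fin_cases i <;> simp
      · left
        ring
      · rw [← mul_assoc]
        congr 1
        field_simp
    · intro h
      apply zb_three_ne hd
      funext i
      have h1 := congrFun h i
      exact (mul_eq_zero.1 h1).resolve_left (Units.ne_zero _)
    · exact zb_three_ne hd'
  · intro p _
    obtain ⟨d, hd, rfl⟩ := zb_ind p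
    have hd' : (fun i : Fin 3 => d (Fin.rev i)) ≠ 0 := by
      intro h
      apply hd
      funext i
      have h1 := congrFun h (Fin.rev i)
      simpa using h1
    show zbE (swp k • Projectivization.mk k (Form.of d : Form k 2) (zb_of_ne hd)) =
      swp k • zbE (Projectivization.mk k (Form.of d : Form k 2) (zb_of_ne hd))
    rw [zb_swp_mk d (fun i : Fin 3 => d (Fin.rev i)) (fun i => rfl) (zb_of_ne hd)
      (zb_of_ne hd'), zbE_mk hd', zbE_mk hd, pt5_swp (zb_three_ne hd)]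
    congr 1
    funext i
    fin_cases i <;> simp [Fin.rev]

private def zbf2 (u : kˣ) : ℙ k (Form k 4) := pt5 ![(u : k) ^ 2, 0, -(2 * (u : k)), 0, 1]

private theorem zbf2_ne (u : kˣ) : (![(u : k) ^ 2, 0, -(2 * (u : k)), 0, 1] : Fin 5 → k) ≠ 0 :=
  zb_ne 4 (by simp)

private theorem zbf2_good : NGood 1 (FA k 4) (zbf2 '' (Set.univ : Set kˣ)) := by
  refine zb_image (A := Gm k 2) (good_Gm 2 (by norm_num)).1 zbf2 ?_ ?_ ?_ ?_
  · exact pt5_dm (zb_vec5 (by fun_prop) (by fun_prop) (by fun_prop) (by fun_prop) (by fun_prop))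
  · intro u _ v _ h
    rw [zbf2, zbf2, pt5_eq (zbf2_ne _) (zbf2_ne _)] at h
    obtain ⟨x, hx⟩ := h
    have h4 := hx 4
    have h2 := hx 2
    simp at h4 h2
    rw [← h4] at h2
    apply Units.ext
    have h5 : (2 : k) * v = 2 * u := by
      rw [← neg_inj, h2]
      ring
    exact (mul_left_cancel₀ two_ne_zero h5).symm
  · intro c u _
    show zbf2 (c ^ (2 : ℤ) * u) = tor c • zbf2 u
    rw [zbf2, zbf2, pt5_tor (zbf2_ne _), eq_comm,
      pt5_eq (zb_ne 0 (by simp)) (zbf2_ne _)]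
    refine ⟨c ^ 4, fun i => ?_⟩
    fin_cases i <;> simp
    · norm_cast
      rw [mul_pow, ← pow_mul]
    · norm_cast
      push_cast
      field_simp
  · intro u _
    show zbf2 (u⁻¹) = swp k • zbf2 u
    rw [zbf2, zbf2, pt5_swp (zbf2_ne _), eq_comm,
      pt5_eq (zb_ne 0 (by simp [Fin.rev])) (zbf2_ne _)]
    refine ⟨u⁻¹ ^ 2, fun i => ?_⟩
    fin_cases i <;> simp [Fin.rev]
    field_simp

private def zbfQ (u : kˣ) : ℙ k (Form k 4) := pt5 ![0, (u : k), 0, 1, 0]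

private theorem zbfQ_ne (u : kˣ) : (![0, (u : k), 0, 1, 0] : Fin 5 → k) ≠ 0 :=
  zb_ne 3 (by simp)

private theorem zbfQ_good : NGood 1 (FA k 4) (zbfQ '' (Set.univ : Set kˣ)) := by
  refine zb_image (A := Gm k 2) (good_Gm 2 (by norm_num)).1 zbfQ ?_ ?_ ?_ ?_
  · exact pt5_dm (zb_vec5 (by fun_prop) (by fun_prop) (by fun_prop) (by fun_prop) (by fun_prop))
  · intro u _ v _ h
    rw [zbfQ, zbfQ, pt5_eq (zbfQ_ne _) (zbfQ_ne _)] at h
    obtain ⟨x, hx⟩ := h
    have h3 := hx 3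
    have h1 := hx 1
    simp at h3 h1
    apply Units.ext
    rw [h1, ← h3, one_mul]
  · intro c u _
    show zbfQ (c ^ (2 : ℤ) * u) = tor c • zbfQ u
    rw [zbfQ, zbfQ, pt5_tor (zbfQ_ne _), eq_comm,
      pt5_eq (zb_ne 1 (by simp)) (zbfQ_ne _)]
    refine ⟨c ^ 3, fun i => ?_⟩
    fin_cases i <;> simp
    rw [← mul_assoc]
    congr 1
    field_simp
  · intro u _
    show zbfQ (u⁻¹) = swp k • zbfQ u
    rw [zbfQ, zbfQ, pt5_swp (zbfQ_ne _), eq_comm,
      pt5_eq (zb_ne 1 (by simp [Fin.rev])) (zbfQ_ne _)]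
    refine ⟨u⁻¹, fun i => ?_⟩
    fin_cases i <;> simp [Fin.rev]

private theorem zb_mem_E (p : ℙ k (Form k 4)) : p ∈ zbE '' Hs k 2 ↔
    ∃ a b c : k, a ≠ 0 ∧ c ≠ 0 ∧ p = pt5 ![c, 0, b, 0, a] := by
  constructor
  · rintro ⟨q, hq, rfl⟩
    obtain ⟨d, hd, rfl⟩ := zb_ind q
    rw [zb_Hs hd] at hq
    rw [zbE_mk hd]
    exact ⟨d 2, d 1, d 0, hq.1, hq.2, rfl⟩
  · rintro ⟨a, b, c, ha, hc, rfl⟩
    have hd : (![c, b, a] : Fin 3 → k) ≠ 0 := by
      intro h
      exact hc (congrFun h 0)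
    refine ⟨Projectivization.mk k (Form.of ![c, b, a] : Form k 2) (zb_of_ne hd), ?_, ?_⟩
    · rw [zb_Hs hd]
      exact ⟨ha, hc⟩
    · rw [zbE_mk hd]
      rfl

theorem conf4_good2 : NGood 1 (FA k 4) ((FA k 4).fixl 2 (Conf k 4)) := by
  have e : (FA k 4).fixl 2 (Conf k 4) =
      ((zbE '' Hs k 2) \ (zbf2 '' (Set.univ : Set kˣ))) ∪ (zbfQ '' (Set.univ : Set kˣ)) := by
    ext p
    rw [conf4_fix2_iff]
    constructor
    · rintro (⟨a, b, c, ha, hc, hb, rfl⟩ | ⟨a, c, ha, hc, rfl⟩)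
      · refine Or.inl ⟨(zb_mem_E _).2 ⟨a, b, c, ha, hc, rfl⟩, ?_⟩
        rintro ⟨u, _, h⟩
        rw [zbf2, pt5_eq (zbf2_ne _) (zb_ne 4 (by simpa using ha))] at h
        obtain ⟨x, hx⟩ := h
        have h4 := hx 4
        have h2 := hx 2
        have h0 := hx 0
        simp at h4 h2 h0
        apply hb
        rw [h4, h2, h0]
        ring
      · refine Or.inr ⟨Units.mk0 (c / a) (div_ne_zero hc ha), trivial, ?_⟩
        rw [zbfQ, pt5_eq (zbfQ_ne _) (zb_ne 3 (by simpa using ha))]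
        refine ⟨Units.mk0 a ha, fun i => ?_⟩
        fin_cases i <;> simp [mul_div_cancel₀ _ ha]
    · rintro (⟨h1, h2⟩ | ⟨u, _, rfl⟩)
      · obtain ⟨a, b, c, ha, hc, rfl⟩ := (zb_mem_E _).1 h1
        refine Or.inl ⟨a, b, c, ha, hc, ?_, rfl⟩
        intro hb
        apply h2
        have hb0 : b ≠ 0 := by
          rintro rfl
          have : 4 * a * c = 0 := by rw [← hb]; ring
          exact (mul_ne_zero (mul_ne_zero (by norm_num : (4 : k) ≠ 0) ha) hc) this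
        have hu : -b / (2 * a) ≠ 0 :=
          div_ne_zero (neg_ne_zero.2 hb0) (mul_ne_zero two_ne_zero ha)
        refine ⟨Units.mk0 (-b / (2 * a)) hu, trivial, ?_⟩
        rw [zbf2, pt5_eq (zbf2_ne _) (zb_ne 4 (by simpa using ha))]
        refine ⟨Units.mk0 a ha, fun i => ?_⟩
        fin_cases i <;> simp
        · field_simp
          linear_combination (-1 : k) * hb
        · field_simp
      · exact Or.inr ⟨1, u, one_ne_zero, u.ne_zero, rfl⟩
  rw [e]
  refine NGood.union (NGood.diff zbE_good zbf2_good ?_) zbfQ_good ?_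
  · rintro _ ⟨u, _, rfl⟩
    rw [zb_mem_E]
    exact ⟨1, -(2 * (u : k)), (u : k) ^ 2, one_ne_zero, pow_ne_zero _ u.ne_zero, rfl⟩
  · rw [Set.disjoint_left]
    rintro p ⟨h1, _⟩ ⟨u, _, hu⟩
    obtain ⟨a, b, c, ha, hc, rfl⟩ := (zb_mem_E _).1 h1
    rw [zbfQ, pt5_eq (zbfQ_ne _) (zb_ne 4 (by simpa using ha))] at hu
    obtain ⟨x, hx⟩ := hu
    have h4 := hx 4
    simp at h4
    exact ha h4

theorem conf4_fix (l : ℕ) (hl : 2 ≤ l) : NGood 1 (FA k 4) ((FA k 4).fixl l (Conf k 4)) := by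
  rcases Nat.lt_or_ge l 5 with h | h
  · interval_cases l
    · exact conf4_good2
    · exact conf4_good3
    · exact conf4_good4
  · rw [conf4_fix5 l h]
    exact NGood.empty 1 _

/-- The strata of the space of quartic forms with four different roots are good. -/
theorem conf4_stl (l : ℕ) (hl : 2 ≤ l) :
    NGood 1 (NA.ofPGL k (ℙ k (Form k 4))) ((NA.ofPGL k (ℙ k (Form k 4))).stl l (Conf k 4)) :=
  stl_good zb_conf_st zb_conf_fin conf4_fix l hl

theorem fixl_prod (A : NA k Y) (B : NA k Z) (l : ℕ) (s : Set Y) (s' : Set Z) :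
    (A.prod B).fixl l (s ×ˢ s') = A.fixl l s ×ˢ B.fixl l s' := by
  ext ⟨y, z⟩
  constructor
  · rintro ⟨⟨hy, hz⟩, h⟩
    exact ⟨⟨hy, fun c hc => congrArg Prod.fst (h c hc)⟩,
      ⟨hz, fun c hc => congrArg Prod.snd (h c hc)⟩⟩
  · rintro ⟨⟨hy, h1⟩, ⟨hz, h2⟩⟩
    exact ⟨⟨hy, hz⟩, fun c hc => Prod.ext (h1 c hc) (h2 c hc)⟩

/-- The order of the factors does not matter. -/
theorem NGood.swap {m : ℕ} {A : NA k Y} {B : NA k Z} {s : Set Y} {s' : Set Z}
    (h : NGood m (A.prod B) (s ×ˢ s')) : NGood m (B.prod A) (s' ×ˢ s) := by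
  have e : s' ×ˢ s = (fun q : Y × Z => (q.2, q.1)) '' (s ×ˢ s') := by
    ext ⟨z, y⟩
    constructor
    · rintro ⟨hz, hy⟩
      exact ⟨(y, z), ⟨hy, hz⟩, rfl⟩
    · rintro ⟨⟨y', z'⟩, ⟨hy, hz⟩, h⟩
      rw [Prod.mk.injEq] at h
      obtain ⟨rfl, rfl⟩ := h
      exact ⟨hz, hy⟩
  rw [e]
  refine zb_image h _ (by fun_prop) ?_ (fun c y _ => rfl) (fun y _ => rfl)
  rintro ⟨y, z⟩ _ ⟨y', z'⟩ _ h
  rw [Prod.mk.injEq] at h
  exact Prod.ext h.2 h.1

/-- The strata of `Rat_e × Conf 4` are good: the fixed loci are products, `conf4_fix`, `rat_fix_prod`. -/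
theorem ratconf_stl (e l : ℕ) (hl : 2 ≤ l) :
    NGood 1 (NA.ofPGL k (ℙ k (SM k e) × ℙ k (Form k 4)))
      ((NA.ofPGL k (ℙ k (SM k e) × ℙ k (Form k 4))).stl l (RatP k e ×ˢ Conf k 4)) := by
  have hst : (NA.ofPGL k (ℙ k (SM k e) × ℙ k (Form k 4))).St (RatP k e ×ˢ Conf k 4) := by
    rw [ofPGL_prod, ← RA_one]
    exact (RatP_st e 1).prod _ zb_conf_st
  refine stl_good hst (tfin_of_fin (ratconf_fin e)) ?_ l hl
  intro l hl
  rw [ofPGL_prod, ← RA_one]
  have h := (rat_fix_prod (conf4_fix (k := k) l hl) e l hl).swap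
  have h2 := fixl_prod (RA k e 1) (FA k 4) l (RatP k e) (Conf k 4)
  rw [h2]
  exact h

/-- The strata of `Rat_d`, `d ≥ 2`, are good (`rat_stl`, `RA_one`). -/
theorem ratd_stl (d l : ℕ) (hd : 2 ≤ d) (hl : 2 ≤ l) :
    NGood 1 (NA.ofPGL k (ℙ k (SM k d))) ((NA.ofPGL k (ℙ k (SM k d))).stl l (RatP k d)) := by
  rw [← RA_one]
  exact rat_stl d l hd hl

end

end Pool.Agent.MRat
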