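import Pool.Agent.Lib.MP_923aff_ag.TG5
import Pool.Agent.Lib.MP_923aff_ag.TL
import Pool.Agent.Lib.MP_923aff_ag.ZB
import Pool.Agent.Lib.MP_923aff_ag.QMain
/-!
# JOB TM: the data `GData`

Points of `Conf k 4` are not fixed by elements of order five: `conf4_fix5` (`tor_mem_ico`), hence `sI` is empty.
-/

set_option autoImplicit false

namespace Pool.Agent.MRat

open scoped MatrixGroups LinearAlgebra.Projectivization

noncomputable section

variable {k : Type} [Field k] [IsAlgClosed k] [CharZero k]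

theorem sI_conf : sI k (Conf k 4) = ∅ := by
  ext x
  simp only [Set.mem_empty_iff_false, iff_false]
  intro hx
  obtain ⟨g, hg, he⟩ := (sI_iff (Conf_gset 4) x).1 hx
  have h5 := conf4_fix5 (k := k) 5 le_rfl
  have : g • x ∈ (FA k 4).fixl 5 (Conf k 4) := by
    refine ⟨hg, fun c hc => ?_⟩
    have h1 : tor c ∈ stab k (g • x) := by
      rw [he]
      exact tor_mem_ico hc
    exact h1
  rw [h5] at this
  exact this

theorem sI_ratconf (e : ℕ) : sI k (RatP k e ×ˢ Conf k 4) = ∅ := by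
  ext x
  simp only [Set.mem_empty_iff_false, iff_false]
  intro hx
  obtain ⟨g, hg, he⟩ := (sI_iff ((RatP_gset e).prod (Conf_gset 4)) x).1 hx
  have h5 := conf4_fix5 (k := k) 5 le_rfl
  have : g • x.2 ∈ (FA k 4).fixl 5 (Conf k 4) := by
    refine ⟨hg.2, fun c hc => ?_⟩
    have h1 : tor c ∈ stab k (g • x) := by
      rw [he]
      exact tor_mem_ico hc
    have h2 : tor c • (g • x) = g • x := h1
    exact congrArg Prod.snd h2
  rw [h5] at this
  exact this

/-- The icosahedral stratum (helper8). -/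
def IcoData (k : Type) [Field k] [IsAlgClosed k] [CharZero k] : Prop :=
  ∀ d, 2 ≤ d → ∀ n, (n = 2 ∨ n = 4) →
    orb k PGL(2, k) (sI k (RatP k d) ×ˢ (Set.univ : Set (ℙ k (Form k n)))) =
      br (n + 1) • orb k PGL(2, k) (sI k (RatP k d))

theorem gdata_P1 : ∀ d, 2 ≤ d → Even d →
    orb k PGL(2, k) (RatP k d ×ˢ (Set.univ : Set (PL k))) = br 2 • orb k PGL(2, k) (RatP k d) := by
  rintro d hd ⟨m, hm⟩
  obtain rfl : d = 2 * m := by omega
  exact thmGm_P1 (RatP_gset _) (fun x hx => rat_stab_finite hd x hx)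
    (fun l hl => ratd_stl _ l hd hl) (oddRat k m)

theorem gdata_F (hI : IcoData k) : ∀ d, 2 ≤ d → ∀ n, (n = 2 ∨ n = 4) →
    orb k PGL(2, k) (RatP k d ×ˢ (Set.univ : Set (ℙ k (Form k n)))) =
      br (n + 1) • orb k PGL(2, k) (RatP k d) := by
  intro d hd n hn
  have hne : Even n := by
    rcases hn with rfl | rfl
    · exact ⟨1, rfl⟩
    · exact ⟨2, rfl⟩
  exact thmG_form (RatP_gset _) (fun x hx => rat_stab_finite hd x hx)
    (fun l hl => ratd_stl _ l hd hl) hne (hI d hd n hn)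

theorem gdata_N : ∀ d, 2 ≤ d → clq k (RatP k d) (relN k) = (L ^ (2 * d)) • ptc k := by
  intro d hd
  rw [← ncl_relN, ← RA_one, (rat_N d hd).2.1, ptc_eq_pt]

theorem gdata_C : ∀ e g, Odd (e + g) →
    orb k PGL(2, k) ((RatP k e ×ˢ Conf k 4) ×ˢ (Set.univ : Set (ℙ k (Form k g)))) =
      br (g + 1) • orb k PGL(2, k) (RatP k e ×ˢ Conf k 4) := by
  intro e g hodd
  have hs := (RatP_gset (k := k) e).prod (Conf_gset (k := k) 4)
  have hl := fun l (h2 : 2 ≤ l) => ratconf_stl (k := k) e l h2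
  rcases Nat.even_or_odd e with he | he
  · obtain ⟨m, hm⟩ := he
    obtain rfl : e = 2 * m := by omega
    exact thmGm_form hs (ratconf_fin _) hl ((oddRat k m).prod (Conf_gset 4)) g
  · have hg : Even g := by
      rcases Nat.even_or_odd g with h | h
      · exact h
      · exact absurd (he.add_odd h) (Nat.not_even_iff_odd.2 hodd)
    refine thmG_form hs (ratconf_fin _) hl hg ?_
    rw [sI_ratconf, Set.empty_prod]
    have e0 : orb k PGL(2, k) (∅ : Set ((ℙ k (SM k e) × ℙ k (Form k 4)) × ℙ k (Form k g))) = 0 :=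
      clq_empty _
    have e1 : orb k PGL(2, k) (∅ : Set (ℙ k (SM k e) × ℙ k (Form k 4))) = 0 := clq_empty _
    rw [e0, e1, smul_zero]

theorem gdata_S : ∀ d, Odd d → orb k PGL(2, k) (Conf k 4 ×ˢ (Set.univ : Set (ℙ k (SM k d)))) =
    br (2 * d + 2) • orb k PGL(2, k) (Conf k 4) := by
  intro d hd
  refine thmG_sm (Conf_gset 4) (fun x hx => conf_fin 4 (by norm_num) x hx)
    (fun l hl => conf4_stl l hl) hd ?_
  rw [sI_conf, Set.empty_prod]
  have e0 : orb k PGL(2, k) (∅ : Set (ℙ k (Form k 4) × ℙ k (SM k d))) = 0 := clq_empty _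
  have e1 : orb k PGL(2, k) (∅ : Set (ℙ k (Form k 4))) = 0 := clq_empty _
  rw [e0, e1, smul_zero]

theorem gdata (hI : IcoData k) : GData k where
  P1 := gdata_P1
  F2 d hd := gdata_F hI d hd 2 (Or.inl rfl)
  F4 d hd := gdata_F hI d hd 4 (Or.inr rfl)
  N := gdata_N
  C := gdata_C
  S := gdata_S

end

end Pool.Agent.MRat
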