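import Pool.Agent.Lib.MP_923aff_ag.TDefs
/-!
# JOB TPA: unordered tuples up to scaling; degenerate quadruples and quintuples

`relMS_cl`: the map to the non-leading coefficients of `∏ (z - h i)` is onto, its fibres are the orbits of the permutations,
weights `1, …, n`: `wproj`. `Q2_cl`, `Q3_cl`: the complement of the injective tuples in `{h ≠ 0}`: `n = 2`: one point;
`n = 3`: the tuples `(r, r, s)`, `(r, s) ≠ 0`, up to scaling (`wproj 2`), class `[2]`.
`ND4_cl`, `ND5_cl`: write the multiset as `G² H` with `H` squarefree (the multiplicities divided by two, and their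
parities). For a tuple with two equal entries `relAA` is the same as the relation with all permutations.
`n = 4`: `(g, g, h1, h2)` with `h1 ≠ h2`: translate `g` to `0`: class `Q2_cl`; `(g1, g1, g2, g2)`, `g1 ≠ g2`: one point. `n = 5`:
`(g, g, h1, h2, h3)` with `h` injective, `g = 0`: class `Q3_cl`; `(g1, g1, g2, g2, h)`, `h = 0`, `(g1, g2) ≠ 0`: `relMS_cl` for `n = 2`.
(`clq_corr` or `clq_map` along the inclusions of the normalised tuples.)
-/

set_option autoImplicit false
set_option linter.unusedSectionVars false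

namespace Pool.Agent.MRat

variable {k : Type} [Field k] [IsAlgClosed k] [CharZero k]

/-- The multiset of the entries. -/
private def Ms {k : Type} {n : ℕ} (a : Fin n → k) : Multiset k := Finset.univ.val.map a

private theorem TPA_perm {k : Type} {n : ℕ} {a b : Fin n → k} (h : Ms b = Ms a) :
    ∃ σ : Equiv.Perm (Fin n), ∀ i, b i = a (σ i) := by
  classical
  have e : ∀ c, Nonempty ({i // b i = c} ≃ {i // a i = c}) := by
    intro c
    rw [← Fintype.card_eq, Fintype.card_subtype, Fintype.card_subtype]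
    have := congrArg (Multiset.count c) h
    rw [Ms, Ms, Multiset.count_map, Multiset.count_map] at this
    simpa [Finset.card, eq_comm] using this
  exact ⟨Equiv.ofFiberEquiv (fun c => (e c).some), fun i => (Equiv.ofFiberEquiv_map _ i).symm⟩

private theorem TPA_Ms_comp {k : Type} {n : ℕ} (a : Fin n → k) (σ : Equiv.Perm (Fin n)) :
    Ms (fun i => a (σ i)) = Ms a := by
  unfold Ms
  have h1 : Finset.univ.val.map (fun i => a (σ i)) = (Finset.univ.val.map σ).map a := by
    rw [Multiset.map_map]; rfl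
  rw [h1]
  congr 1
  simp

private theorem TPA_Ms_map {k : Type} {n : ℕ} (a : Fin n → k) (f : k → k) :
    Ms (fun i => f (a i)) = (Ms a).map f := by
  unfold Ms
  rw [Multiset.map_map]; rfl

omit [IsAlgClosed k] [CharZero k] in
private theorem TPA_relMS {n : ℕ} {a b : Fin n → k} :
    relMS k n a b ↔ ∃ c : kˣ, Ms b = (Ms a).map (fun z => (c : k) * z) := by
  constructor
  · rintro ⟨c, σ, h⟩
    refine ⟨c, ?_⟩
    have : b = fun i => (fun i => (c : k) * a i) (σ i) := funext h
    rw [this]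
    exact (TPA_Ms_comp (fun i => (c : k) * a i) σ).trans (TPA_Ms_map a (fun z => (c : k) * z))
  · rintro ⟨c, h⟩
    rw [← TPA_Ms_map] at h
    obtain ⟨σ, hσ⟩ := TPA_perm h
    exact ⟨c, σ, hσ⟩

omit [IsAlgClosed k] [CharZero k] in
private theorem TPA_relAA {n : ℕ} {a b : Fin n → k} (ha : ¬ Function.Injective a) :
    relAA k n a b ↔ ∃ (c : kˣ) (e : k), Ms b = (Ms a).map (fun z => (c : k) * z + e) := by
  constructor
  · rintro ⟨c, e, σ, -, h⟩
    refine ⟨c, e, ?_⟩
    have : b = fun i => (fun i => (c : k) * a i + e) (σ i) := funext h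
    rw [this]
    exact (TPA_Ms_comp (fun i => (c : k) * a i + e) σ).trans
      (TPA_Ms_map a (fun z => (c : k) * z + e))
  · rintro ⟨c, e, h⟩
    rw [← TPA_Ms_map] at h
    obtain ⟨σ, hσ⟩ := TPA_perm h
    by_cases hs : σ ∈ alternatingGroup (Fin n)
    · exact ⟨c, e, σ, hs, hσ⟩
    · rw [Function.Injective] at ha
      push Not at ha
      obtain ⟨i, j, hij, hne⟩ := ha
      refine ⟨c, e, Equiv.swap i j * σ, ?_, fun l => ?_⟩
      · rw [Equiv.Perm.mem_alternatingGroup] at hs ⊢
        rw [Equiv.Perm.sign_mul, Equiv.Perm.sign_swap hne]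
        rcases Int.units_eq_one_or (Equiv.Perm.sign σ) with h1 | h1
        · exact absurd h1 hs
        · rw [h1]; rfl
      · rw [hσ l, Equiv.Perm.mul_apply]
        congr 2
        by_cases h1 : σ l = i
        · rw [h1, Equiv.swap_apply_left, hij]
        · by_cases h2 : σ l = j
          · rw [h2, Equiv.swap_apply_right, hij]
          · rw [Equiv.swap_apply_of_ne_of_ne h1 h2]

/-- Uniqueness of the square part and the squarefree part. -/
private theorem TPA_parts {α : Type} {G G' H H' : Multiset α} (hH : H.Nodup) (hH' : H'.Nodup)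
    (h : G + G + H = G' + G' + H') : G = G' ∧ H = H' := by
  classical
  have key : ∀ z, G.count z = G'.count z ∧ H.count z = H'.count z := by
    intro z
    have h1 := congrArg (Multiset.count z) h
    simp only [Multiset.count_add] at h1
    have h2 := Multiset.nodup_iff_count_le_one.1 hH z
    have h3 := Multiset.nodup_iff_count_le_one.1 hH' z
    omega
  exact ⟨Multiset.ext.2 fun z => (key z).1, Multiset.ext.2 fun z => (key z).2⟩

theorem relAA_dq {n : ℕ} {s : Set (Fin n → k)} (ds : DM k (fun x => x ∈ s)) :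
    DQ k s (relAA k n) where
  ds := ds
  dr := by
    have h1 : DM k (fun p : (Fin n → k) × (Fin n → k) => relAA k n p.1 p.2) := by
      unfold relAA
      refine DM.ex ?_
      refine DM.ex ?_
      refine DM.fex (fun σ => ?_)
      refine DM.and (DM.const' _) ?_
      refine DM.fall (fun i => ?_)
      fun_prop
    exact (DM.comp ds (f := fun p : (Fin n → k) × (Fin n → k) => p.1) (DM.fst DM.id')).and
      ((DM.comp ds (f := fun p : (Fin n → k) × (Fin n → k) => p.2) (DM.snd DM.id')).and h1)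
  refl := fun x _ => ⟨1, 0, 1, one_mem _, fun i => by simp⟩
  symm := by
    rintro x - y - ⟨c, e, σ, hσ, h⟩
    refine ⟨c⁻¹, -((c⁻¹ : kˣ) : k) * e, σ⁻¹, inv_mem hσ, fun i => ?_⟩
    have h1 := h (σ⁻¹ i)
    rw [show σ (σ⁻¹ i) = i from σ.apply_symm_apply i] at h1
    rw [h1]
    have h2 : ((c⁻¹ : kˣ) : k) * (c : k) = 1 := Units.inv_mul c
    linear_combination (-(x i)) * h2
  trans := by
    rintro x - y - z - ⟨c, e, σ, hσ, h⟩ ⟨c', e', σ', hσ', h'⟩
    refine ⟨c' * c, c' * e + e', σ * σ', mul_mem hσ hσ', fun i => ?_⟩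
    rw [h' i, h (σ' i), Units.val_mul, Equiv.Perm.mul_apply]
    ring

theorem relMS_dq {n : ℕ} {s : Set (Fin n → k)} (ds : DM k (fun x => x ∈ s)) :
    DQ k s (relMS k n) where
  ds := ds
  dr := by
    have h1 : DM k (fun p : (Fin n → k) × (Fin n → k) => relMS k n p.1 p.2) := by
      unfold relMS
      refine DM.ex ?_
      refine DM.fex (fun σ => ?_)
      refine DM.fall (fun i => ?_)
      fun_prop
    exact (DM.comp ds (f := fun p : (Fin n → k) × (Fin n → k) => p.1) (DM.fst DM.id')).and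
      ((DM.comp ds (f := fun p : (Fin n → k) × (Fin n → k) => p.2) (DM.snd DM.id')).and h1)
  refl := fun x _ => ⟨1, 1, fun i => by simp⟩
  symm := by
    rintro x - y - ⟨c, σ, h⟩
    refine ⟨c⁻¹, σ⁻¹, fun i => ?_⟩
    have h1 := h (σ⁻¹ i)
    rw [show σ (σ⁻¹ i) = i from σ.apply_symm_apply i] at h1
    rw [h1]
    have h2 : ((c⁻¹ : kˣ) : k) * (c : k) = 1 := Units.inv_mul c
    linear_combination (-(x i)) * h2
  trans := by
    rintro x - y - z - ⟨c, σ, h⟩ ⟨c', σ', h'⟩
    refine ⟨c' * c, σ * σ', fun i => ?_⟩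
    rw [h' i, h (σ' i), Units.val_mul, Equiv.Perm.mul_apply]
    ring

theorem InjT_dm (n : ℕ) : DM k (fun x => x ∈ InjT k n) := by
  have h1 : DM k (fun x : Fin n → k => ∀ i j : Fin n, x i = x j → i = j) := by
    refine DM.fall (fun i => DM.fall (fun j => DM.imp ?_ (DM.const' _)))
    fun_prop
  exact h1

theorem NC_dm (n : ℕ) : DM k (fun x => x ∈ NC k n) := by
  have h1 : DM k (fun x : Fin n → k => ∃ i j : Fin n, x i ≠ x j) := by
    refine DM.fex (fun i => DM.fex (fun j => ?_))
    fun_prop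
  exact h1

/-- `c` are the non-leading coefficients of `∏ (z - h i)`. -/
private def TPA_F {n : ℕ} (h c : Fin n → k) : Prop :=
  ∀ z : k, ∏ i, (z - h i) = z ^ n + ∑ j : Fin n, c j * z ^ (n - 1 - (j : ℕ))

private theorem TPA_F_dm (n : ℕ) : DM k (fun p : (Fin n → k) × (Fin n → k) => TPA_F p.1 p.2) := by
  unfold TPA_F
  refine DM.all ?_
  refine DM.eq ?_ ?_
  · exact DM.prod _ (fun i _ => by fun_prop)
  · refine DM.add (by fun_prop) ?_
    exact DM.sum _ (fun i _ => by fun_prop)

private noncomputable def TPA_P {n : ℕ} (c : Fin n → k) : Polynomial k :=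
  Polynomial.X ^ n + ∑ j : Fin n, Polynomial.C (c j) * Polynomial.X ^ (n - 1 - (j : ℕ))

private theorem TPA_P_eval {n : ℕ} (c : Fin n → k) (z : k) :
    (TPA_P c).eval z = z ^ n + ∑ j : Fin n, c j * z ^ (n - 1 - (j : ℕ)) := by
  simp [TPA_P, Polynomial.eval_finsetSum]

private theorem TPA_P_lt {n : ℕ} (c : Fin n → k) :
    (∑ j : Fin n, Polynomial.C (c j) * Polynomial.X ^ (n - 1 - (j : ℕ)) : Polynomial k).degree <
      n := by
  refine (Polynomial.degree_sum_le _ _).trans_lt ?_
  refine (Finset.sup_lt_iff (WithBot.bot_lt_coe n)).2 ?_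
  intro j _
  refine (Polynomial.degree_C_mul_X_pow_le _ _).trans_lt ?_
  have h : n - 1 - (j : ℕ) < n := by
    have := j.2
    omega
  exact WithBot.coe_lt_coe.2 h

private theorem TPA_P_monic {n : ℕ} (c : Fin n → k) : (TPA_P c).Monic :=
  Polynomial.monic_X_pow_add (TPA_P_lt c)

private theorem TPA_P_deg {n : ℕ} (c : Fin n → k) : (TPA_P c).natDegree = n := by
  have : (TPA_P c).degree = n := by
    rw [TPA_P, Polynomial.degree_add_eq_left_of_degree_lt, Polynomial.degree_X_pow]
    rw [Polynomial.degree_X_pow]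
    exact TPA_P_lt c
  exact Polynomial.natDegree_eq_of_degree_eq_some this

private theorem TPA_P_coeff {n : ℕ} (c : Fin n → k) (j : Fin n) :
    (TPA_P c).coeff (n - 1 - (j : ℕ)) = c j := by
  have hj := j.2
  rw [TPA_P, Polynomial.coeff_add, Polynomial.coeff_X_pow, if_neg (by omega), zero_add,
    Polynomial.finsetSum_coeff, Finset.sum_eq_single j]
  · rw [Polynomial.coeff_C_mul, Polynomial.coeff_X_pow, if_pos rfl, mul_one]
  · intro i _ hi
    have hi2 := i.2
    rw [Polynomial.coeff_C_mul, Polynomial.coeff_X_pow, if_neg, mul_zero]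
    intro h
    exact hi (Fin.ext (by omega))
  · intro h; exact absurd (Finset.mem_univ j) h

private theorem TPA_F_inj {n : ℕ} {h c c' : Fin n → k} (h1 : TPA_F h c) (h2 : TPA_F h c') :
    c = c' := by
  have : TPA_P c = TPA_P c' := Polynomial.funext fun z => by
    rw [TPA_P_eval, TPA_P_eval, ← h1 z, ← h2 z]
  funext j
  rw [← TPA_P_coeff c j, this, TPA_P_coeff]

private theorem TPA_F_left {n : ℕ} (h : Fin n → k) : ∃ c, TPA_F h c := by
  set P : Polynomial k := ∏ i, (Polynomial.X - Polynomial.C (h i)) with hP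
  have hm : P.Monic := Polynomial.monic_prod_of_monic _ _ fun i _ => Polynomial.monic_X_sub_C _
  have hd : P.natDegree = n := by
    rw [hP, Polynomial.natDegree_prod_of_monic _ _ fun i _ => Polynomial.monic_X_sub_C _]
    simp
  refine ⟨fun j => P.coeff (n - 1 - (j : ℕ)), fun z => ?_⟩
  have h1 : P.eval z = ∏ i, (z - h i) := by
    rw [hP, Polynomial.eval_prod]
    simp
  rw [← h1, Polynomial.eval_eq_sum_range, hd, Finset.sum_range_succ, add_comm]
  congr 1
  · have : P.coeff n = 1 := by
      have := hm.coeff_natDegree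
      rwa [hd] at this
    rw [this, one_mul]
  · rw [Fin.sum_univ_eq_sum_range (fun j => P.coeff (n - 1 - j) * z ^ (n - 1 - j)) n]
    exact (Finset.sum_range_reflect (fun i => P.coeff i * z ^ i) n).symm

private theorem TPA_F_right {n : ℕ} (c : Fin n → k) : ∃ h, TPA_F h c := by
  have hs : (TPA_P c).Splits := IsAlgClosed.splits _
  have h1 := hs.eq_prod_roots_of_monic (TPA_P_monic c)
  have h2 : Multiset.card (TPA_P c).roots = n := by
    rw [← hs.natDegree_eq_card_roots, TPA_P_deg]
  obtain ⟨l, hl⟩ := Quot.exists_rep (TPA_P c).roots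
  have hl' : (l : Multiset k) = (TPA_P c).roots := hl
  have h3 : l.length = n := by rw [← h2, ← hl', Multiset.coe_card]
  subst h3
  refine ⟨l.get, fun z => ?_⟩
  rw [← TPA_P_eval, h1, Polynomial.eval_multiset_prod, ← hl']
  simp only [Multiset.map_coe, Multiset.prod_coe, List.map_map]
  rw [← List.prod_ofFn]
  congr 1
  apply List.ext_get
  · simp
  · intro i _ _
    simp

private theorem TPA_F_perm {n : ℕ} {h h' c : Fin n → k} (h1 : TPA_F h c) (h2 : TPA_F h' c) :
    Ms h = Ms h' := by
  have : ((Ms h).map fun a => Polynomial.X - Polynomial.C a).prod =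
      ((Ms h').map fun a => Polynomial.X - Polynomial.C a).prod := by
    apply Polynomial.funext
    intro z
    have e : ∀ h : Fin n → k, (((Ms h).map fun a => Polynomial.X - Polynomial.C a).prod).eval z =
        ∏ i, (z - h i) := by
      intro h
      rw [Polynomial.eval_multiset_prod, Ms, Multiset.map_map, Multiset.map_map]
      simp only [Function.comp_def, Polynomial.eval_sub, Polynomial.eval_X, Polynomial.eval_C]
      rfl
    rw [e, e, h1 z, h2 z]
  have h3 := congrArg Polynomial.roots this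
  rwa [Polynomial.roots_multiset_prod_X_sub_C, Polynomial.roots_multiset_prod_X_sub_C] at h3

private theorem TPA_F_scale {n : ℕ} {h c : Fin n → k} (h1 : TPA_F h c) (u : kˣ) :
    TPA_F (fun i => (u : k) * h i) (fun j => (u : k) ^ ((j : ℕ) + 1) * c j) := by
  intro z
  have hu : (u : k) ≠ 0 := u.ne_zero
  have e1 : ∏ i, (z - (u : k) * h i) = (u : k) ^ n * ∏ i, (z / u - h i) := by
    have : ∀ i, z - (u : k) * h i = u * (z / u - h i) := fun i => by field_simp
    simp only [this, Finset.prod_mul_distrib, Finset.prod_const, Finset.card_univ,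
      Fintype.card_fin]
  rw [e1, h1 (z / u), mul_add, Finset.mul_sum]
  congr 1
  · rw [div_pow]; field_simp
  · refine Finset.sum_congr rfl (fun j _ => ?_)
    have hj := j.2
    have : (u : k) ^ n = (u : k) ^ ((j : ℕ) + 1) * (u : k) ^ (n - 1 - (j : ℕ)) := by
      rw [← pow_add]; congr 1; omega
    rw [this, div_pow]
    field_simp

private theorem TPA_F_zero {n : ℕ} {h c : Fin n → k} (h1 : TPA_F h c) : h = 0 ↔ c = 0 := by
  have h0 : TPA_F (0 : Fin n → k) 0 := by
    intro z
    simp
  constructor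
  · rintro rfl
    exact TPA_F_inj h1 h0
  · rintro rfl
    have := TPA_perm (TPA_F_perm h1 h0)
    obtain ⟨σ, hσ⟩ := this
    funext i
    exact hσ i

private theorem TPA_ne_dm (n : ℕ) : DM k (fun x : Fin n → k => x ∈ {h : Fin n → k | h ≠ 0}) := by
  have h1 : DM k (fun v : Fin n → k => v ≠ 0) := DM.ne DM.id' (DM.const' 0)
  exact h1

theorem relMS_cl (n : ℕ) : clq k {h : Fin n → k | h ≠ 0} (relMS k n) = br n • ptc k := by
  obtain ⟨h1, h2⟩ := wproj (k := k) n (fun j => (j : ℕ) + 1) (fun j => by omega)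
  rw [← h2]
  refine clq_corr (relMS_dq (TPA_ne_dm n)) h1 TPA_F (TPA_F_dm n) ?_ ?_ ?_
  · intro h hh
    obtain ⟨c, hc⟩ := TPA_F_left h
    exact ⟨c, fun h0 => hh ((TPA_F_zero hc).2 h0), hc⟩
  · intro c hc
    obtain ⟨h, hh⟩ := TPA_F_right c
    exact ⟨h, fun h0 => hc ((TPA_F_zero hh).1 h0), hh⟩
  · intro h _ c _ hc h' _ c' _ hc'
    rw [TPA_relMS]
    constructor
    · rintro ⟨u, hu⟩
      refine ⟨u, ?_⟩
      have e1 := TPA_F_scale hc u
      rw [← TPA_Ms_map h (fun z => (u : k) * z)] at hu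
      have e2 : TPA_F h' (fun j => (u : k) ^ ((j : ℕ) + 1) * c j) := by
        intro z
        rw [← e1 z]
        obtain ⟨σ, hσ⟩ := TPA_perm hu
        simp only [hσ]
        exact Equiv.prod_comp σ (fun i => z - (u : k) * h i)
      intro j
      exact congrFun (TPA_F_inj hc' e2) j
    · rintro ⟨u, hu⟩
      refine ⟨u, ?_⟩
      have e1 := TPA_F_scale hc u
      rw [← TPA_Ms_map h (fun z => (u : k) * z)]
      have e2 : c' = (fun j : Fin n => (u : k) ^ ((j : ℕ) + 1) * c j) := funext hu
      rw [e2] at hc'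
      exact TPA_F_perm hc' e1

/-! ### small tuples -/

private theorem TPA_Ms2 {α : Type} (a : Fin 2 → α) : Ms a = {a 0, a 1} := rfl
private theorem TPA_Ms3 {α : Type} (a : Fin 3 → α) : Ms a = {a 0, a 1, a 2} := rfl
private theorem TPA_Ms4 {α : Type} (a : Fin 4 → α) : Ms a = {a 0, a 1, a 2, a 3} := rfl
private theorem TPA_Ms5 {α : Type} (a : Fin 5 → α) : Ms a = {a 0, a 1, a 2, a 3, a 4} := rfl

private theorem TPA_pair {α : Type} (x : α) (s : Multiset α) : x ::ₘ x ::ₘ s = {x} + {x} + s := by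
  rw [add_assoc, Multiset.singleton_add, Multiset.singleton_add]

private theorem TPA_pair2 {α : Type} (x y : α) (s : Multiset α) :
    x ::ₘ x ::ₘ y ::ₘ y ::ₘ s = {x, y} + {x, y} + s := by
  classical
  refine Multiset.ext.2 fun z => ?_
  simp only [Multiset.count_cons, Multiset.count_add, Multiset.insert_eq_cons,
    Multiset.count_singleton]
  ring

private theorem TPA_two_perm {n : ℕ} (i j : Fin (n + 2)) (hij : i ≠ j) :
    ∃ σ : Equiv.Perm (Fin (n + 2)), σ 0 = i ∧ σ 1 = j := by
  refine ⟨Equiv.swap 0 i * Equiv.swap 1 (Equiv.swap 0 i j), ?_, ?_⟩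
  · have h1 : Equiv.swap 1 (Equiv.swap 0 i j) 0 = 0 := by
      refine Equiv.swap_apply_of_ne_of_ne Fin.zero_ne_one ?_
      intro h
      have : Equiv.swap 0 i i = Equiv.swap 0 i j := by rw [Equiv.swap_apply_right, ← h]
      exact hij ((Equiv.swap 0 i).injective this)
    rw [Equiv.Perm.mul_apply, h1, Equiv.swap_apply_left]
  · rw [Equiv.Perm.mul_apply, Equiv.swap_apply_left]
    exact Equiv.swap_apply_self 0 i j

private theorem TPA_nodup_map {s : Multiset k} (hs : s.Nodup) (c : kˣ) (e : k) :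
    (s.map fun z => (c : k) * z + e).Nodup := by
  refine hs.map ?_
  intro x y h
  have h1 : (c : k) * x = c * y := add_right_cancel h
  exact mul_left_cancel₀ c.ne_zero h1

private theorem TPA_nodup_of_inj {n : ℕ} {h : Fin n → k} (hh : h ∈ InjT k n) : (Ms h).Nodup :=
  (Finset.univ.nodup).map hh

private theorem TPA_inj_of_nodup {n : ℕ} {h : Fin n → k} (hh : (Ms h).Nodup) :
    Function.Injective h := by
  intro i j hij
  exact Multiset.inj_on_of_nodup_map hh i (Finset.mem_univ i) j (Finset.mem_univ j) hij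

theorem Q2_cl : clq k (InjT k 2) (relMS k 2) = L • ptc k := by
  have h1 := relMS_cl (k := k) 2
  have hd := relMS_dq (k := k) (TPA_ne_dm 2)
  rw [clq_split hd (InjT k 2) (InjT_dm 2) (by
    rintro x - y - ⟨c, σ, h⟩ hx i j hij
    rw [h i, h j] at hij
    exact σ.injective (hx (mul_left_cancel₀ c.ne_zero hij)))] at h1
  have e1 : {h : Fin 2 → k | h ≠ 0} ∩ InjT k 2 = InjT k 2 := by
    refine Set.inter_eq_right.2 ?_
    intro h hh h0
    have : h 0 = h 1 := by rw [h0]; rfl
    exact Fin.zero_ne_one (hh this)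
  have e2 : clq k ({h : Fin 2 → k | h ≠ 0} \ InjT k 2) (relMS k 2) = ptc k := by
    refine clq_one_class (hd.diff (InjT_dm 2)) (fun _ => 1) ⟨?_, ?_⟩ ?_
    · intro h
      exact one_ne_zero (congrFun h 0)
    · intro h
      exact Fin.zero_ne_one (h (a₁ := 0) (a₂ := 1) rfl)
    · rintro y ⟨hy0, hy⟩
      have h01 : y 0 = y 1 := by
        by_contra hne
        apply hy
        intro i j hij
        fin_cases i <;> fin_cases j
        · rfl
        · exact absurd hij hne
        · exact absurd hij.symm hne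
        · rfl
      have hy1 : y 0 ≠ 0 := by
        intro h0
        apply hy0
        funext i
        fin_cases i
        · exact h0
        · exact h01.symm.trans h0
      refine ⟨Units.mk0 (y 0) hy1, 1, fun i => ?_⟩
      fin_cases i
      · simp
      · simp [h01]
  rw [e1, e2] at h1
  have h2 : br 2 • ptc k = L • ptc k + ptc k := by
    rw [br, Finset.sum_range_succ, Finset.sum_range_one, pow_zero, pow_one, add_smul, one_smul,
      add_comm]
  rw [h2] at h1
  exact add_right_cancel h1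

theorem Q3_cl : clq k (InjT k 3) (relMS k 3) = L ^ 2 • ptc k := by
  have h1 := relMS_cl (k := k) 3
  have hd := relMS_dq (k := k) (TPA_ne_dm 3)
  rw [clq_split hd (InjT k 3) (InjT_dm 3) (by
    rintro x - y - ⟨c, σ, h⟩ hx i j hij
    rw [h i, h j] at hij
    exact σ.injective (hx (mul_left_cancel₀ c.ne_zero hij)))] at h1
  have e1 : {h : Fin 3 → k | h ≠ 0} ∩ InjT k 3 = InjT k 3 := by
    refine Set.inter_eq_right.2 ?_
    intro h hh h0
    have : h 0 = h 1 := by rw [h0]; rfl
    exact Fin.zero_ne_one (hh this)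
  have e2 : clq k ({h : Fin 3 → k | h ≠ 0} \ InjT k 3) (relMS k 3) = br 2 • ptc k := by
    obtain ⟨w1, w2⟩ := wproj (k := k) 2 (fun _ => 1) (fun _ => le_rfl)
    rw [← w2]
    symm
    refine clq_map w1 (hd.diff (InjT_dm 3)) (fun v => ![v 0, v 0, v 1]) ?_ ?_ ?_ ?_
    · refine DM.pi (fun i => ?_)
      fin_cases i
      · exact DM.apply 0
      · exact DM.apply 0
      · exact DM.apply 1
    · intro v hv
      refine ⟨fun h0 => hv ?_, fun h => ?_⟩
      · funext i
        fin_cases i
        · exact congrFun h0 0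
        · exact congrFun h0 2
      · exact absurd (h (a₁ := 0) (a₂ := 1) rfl) (by decide)
    · intro v hv u hu
      rw [TPA_relMS]
      constructor
      · rintro ⟨c, h⟩
        refine ⟨c, ?_⟩
        rw [TPA_Ms3, TPA_Ms3]
        have h0 := h 0
        have h1 := h 1
        simp only [pow_one] at h0 h1
        simp [h0, h1]
      · rintro ⟨c, h⟩
        refine ⟨c, ?_⟩
        rw [TPA_Ms3, TPA_Ms3] at h
        have h' : ({u 0} : Multiset k) + {u 0} + {u 1} =
            {(c : k) * v 0} + {(c : k) * v 0} + {(c : k) * v 1} := by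
          simpa using h
        obtain ⟨h2, h3⟩ := TPA_parts (Multiset.nodup_singleton _) (Multiset.nodup_singleton _) h'
        rw [Multiset.singleton_inj] at h2 h3
        intro i
        fin_cases i
        · simpa using h2
        · simpa using h3
    · rintro y ⟨hy0, hy⟩
      have hy' : ¬ Function.Injective y := hy
      rw [Function.Injective] at hy'
      push Not at hy'
      obtain ⟨i, j, hij, hne⟩ := hy'
      obtain ⟨σ, hσ0, hσ1⟩ := TPA_two_perm (n := 1) i j hne
      refine ⟨![y i, y (σ 2)], ?_, ?_⟩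
      · intro h0
        apply hy0
        have h1 : y i = 0 := congrFun h0 0
        have h2 : y (σ 2) = 0 := congrFun h0 1
        have h3 : ∀ l, y (σ l) = 0 := by
          intro l
          fin_cases l
          · exact (congrArg y hσ0).trans h1
          · exact (congrArg y hσ1).trans (hij.symm.trans h1)
          · exact h2
        funext l
        have := h3 (σ⁻¹ l)
        rwa [show σ (σ⁻¹ l) = l from σ.apply_symm_apply l] at this
      · refine (relMS_dq (s := Set.univ) ((DM.const' True).congr_iff fun x => by simp)).symm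
          _ trivial _ trivial ⟨1, σ, fun l => ?_⟩
        fin_cases l
        · simp [hσ0]
        · simp [hσ1, hij]
        · simp
  rw [e1, e2] at h1
  have h2 : br 3 • ptc k = L ^ 2 • ptc k + br 2 • ptc k := by
    rw [br, Finset.sum_range_succ, ← br, add_smul, add_comm]
  rw [h2] at h1
  exact add_right_cancel h1

/-- Two disjoint pairs of equal entries. -/
private def TPA_tB (k : Type) {n : ℕ} (i0 i1 i2 i3 : Fin n) : Set (Fin n → k) :=
  {a | ∃ σ : Equiv.Perm (Fin n), a (σ i0) = a (σ i1) ∧ a (σ i2) = a (σ i3)}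

private theorem TPA_tB_dm {n : ℕ} (i0 i1 i2 i3 : Fin n) :
    DM k (fun x => x ∈ TPA_tB k i0 i1 i2 i3) := by
  have h1 : DM k (fun a : Fin n → k => ∃ σ : Equiv.Perm (Fin n),
      a (σ i0) = a (σ i1) ∧ a (σ i2) = a (σ i3)) := DM.fex (fun σ => by fun_prop)
  exact h1

private theorem TPA_tB_sat {n : ℕ} (i0 i1 i2 i3 : Fin n) {a b : Fin n → k}
    (h : relAA k n a b) (ha : a ∈ TPA_tB k i0 i1 i2 i3) : b ∈ TPA_tB k i0 i1 i2 i3 := by
  obtain ⟨c, e, σ, -, h⟩ := h
  obtain ⟨τ, h1, h2⟩ := ha
  refine ⟨σ⁻¹ * τ, ?_, ?_⟩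
  · simp only [Equiv.Perm.mul_apply, h, show ∀ l, σ (σ⁻¹ l) = l from σ.apply_symm_apply, h1]
  · simp only [Equiv.Perm.mul_apply, h, show ∀ l, σ (σ⁻¹ l) = l from σ.apply_symm_apply, h2]

private theorem TPA_A {p n : ℕ} {a b : Fin n → k} {h h' : Fin p → k}
    (ha : Ms a = {0} + {0} + Ms h) (hb : Ms b = {0} + {0} + Ms h') (hh : h ∈ InjT k p)
    (hh' : h' ∈ InjT k p) (hni : ¬ Function.Injective a) :
    relMS k p h h' ↔ relAA k n a b := by
  rw [TPA_relMS, TPA_relAA hni]
  constructor
  · rintro ⟨c, hc⟩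
    refine ⟨c, 0, ?_⟩
    rw [ha, hb, hc]
    simp
  · rintro ⟨c, e, hc⟩
    rw [ha, hb, Multiset.map_add, Multiset.map_add, Multiset.map_singleton] at hc
    obtain ⟨h1, h2⟩ := TPA_parts (TPA_nodup_of_inj hh') (TPA_nodup_map (TPA_nodup_of_inj hh) c e) hc
    rw [Multiset.singleton_inj, mul_zero, zero_add] at h1
    refine ⟨c, ?_⟩
    rw [h2, ← h1]
    simp

private theorem TPA_B {p n : ℕ} {a b : Fin n → k} {v v' : Fin p → k}
    (ha : Ms a = Ms v + Ms v + {0}) (hb : Ms b = Ms v' + Ms v' + {0})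
    (hni : ¬ Function.Injective a) : relMS k p v v' ↔ relAA k n a b := by
  rw [TPA_relMS, TPA_relAA hni]
  constructor
  · rintro ⟨c, hc⟩
    refine ⟨c, 0, ?_⟩
    rw [ha, hb, hc]
    simp
  · rintro ⟨c, e, hc⟩
    rw [ha, hb, Multiset.map_add, Multiset.map_add, Multiset.map_singleton] at hc
    obtain ⟨h1, h2⟩ := TPA_parts (Multiset.nodup_singleton _) (Multiset.nodup_singleton _) hc
    rw [Multiset.singleton_inj, mul_zero, zero_add] at h2
    refine ⟨c, ?_⟩
    rw [h1, ← h2]
    simp

private theorem TPA_noninj {n : ℕ} {a : Fin n → k} {i j : Fin n} (hij : i ≠ j)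
    (h : a i = a j) : ¬ Function.Injective a := fun hi => hij (hi h)

theorem ND4_cl : clq k (NC k 4 \ InjT k 4) (relAA k 4) = br 2 • ptc k := by
  have hs : DM k (fun x => x ∈ NC k 4 \ InjT k 4) := (NC_dm 4).and (InjT_dm 4).not
  have hd := relAA_dq hs
  rw [clq_split hd (TPA_tB k 0 1 2 3) (TPA_tB_dm 0 1 2 3)
    (fun x _ y _ h hx => TPA_tB_sat 0 1 2 3 h hx)]
  have e1 : clq k ((NC k 4 \ InjT k 4) ∩ TPA_tB k 0 1 2 3) (relAA k 4) = ptc k := by
    have hni : ¬ Function.Injective (![0, 0, 1, 1] : Fin 4 → k) :=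
      TPA_noninj (i := 0) (j := 1) (by decide) rfl
    refine clq_one_class (hd.inter (TPA_tB_dm 0 1 2 3)) ![0, 0, 1, 1] ⟨⟨⟨0, 2, ?_⟩, hni⟩, 1, ?_⟩ ?_
    · exact zero_ne_one
    · simp
    · rintro y ⟨⟨⟨i, j, hy⟩, -⟩, σ, h1, h2⟩
      have hne : y (σ 2) - y (σ 0) ≠ 0 := by
        intro h0
        have h3 : ∀ l, y (σ l) = y (σ 0) := by
          intro l
          fin_cases l
          · rfl
          · exact h1.symm
          · exact sub_eq_zero.1 h0
          · exact h2.symm.trans (sub_eq_zero.1 h0)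
        apply hy
        have h4 := h3 (σ⁻¹ i)
        have h5 := h3 (σ⁻¹ j)
        rw [show σ (σ⁻¹ i) = i from σ.apply_symm_apply i] at h4
        rw [show σ (σ⁻¹ j) = j from σ.apply_symm_apply j] at h5
        rw [h4, h5]
      rw [TPA_relAA hni]
      refine ⟨Units.mk0 _ hne, y (σ 0), ?_⟩
      rw [← TPA_Ms_comp y σ, TPA_Ms4, TPA_Ms4]
      simp [← h1, ← h2]
  have e2 : clq k ((NC k 4 \ InjT k 4) \ TPA_tB k 0 1 2 3) (relAA k 4) = L • ptc k := by
    rw [← Q2_cl]
    symm
    have hMs : ∀ h : Fin 2 → k, Ms (![0, 0, h 0, h 1] : Fin 4 → k) = {0} + {0} + Ms h := by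
      intro h
      rw [TPA_Ms4, ← TPA_pair]
      rfl
    have hni : ∀ h : Fin 2 → k, ¬ Function.Injective (![0, 0, h 0, h 1] : Fin 4 → k) := fun h =>
      TPA_noninj (i := 0) (j := 1) (by decide) rfl
    refine clq_map (relMS_dq (InjT_dm 2)) (hd.diff (TPA_tB_dm 0 1 2 3))
      (fun h => ![0, 0, h 0, h 1]) ?_ ?_ ?_ ?_
    · refine DM.pi (fun i => ?_)
      fin_cases i
      · exact DM.const' 0
      · exact DM.const' 0
      · exact DM.apply 0
      · exact DM.apply 1
    · intro h hh
      refine ⟨⟨⟨2, 3, fun h0 => ?_⟩, hni h⟩, ?_⟩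
      · exact Fin.zero_ne_one (hh h0)
      · rintro ⟨σ, h1, h2⟩
        have h3 : Ms (![0, 0, h 0, h 1] : Fin 4 → k) =
            {(![0, 0, h 0, h 1] : Fin 4 → k) (σ 0), (![0, 0, h 0, h 1] : Fin 4 → k) (σ 2)} +
            {(![0, 0, h 0, h 1] : Fin 4 → k) (σ 0), (![0, 0, h 0, h 1] : Fin 4 → k) (σ 2)} +
              0 := by
          rw [← TPA_pair2, ← TPA_Ms_comp _ σ, TPA_Ms4]
          simp only [← h1, ← h2]
          rfl
        rw [hMs] at h3
        have h4 := (TPA_parts (TPA_nodup_of_inj hh) Multiset.nodup_zero h3).2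
        rw [TPA_Ms2] at h4
        have := congrArg Multiset.card h4
        simp at this
    · intro h hh h' hh'
      exact TPA_A (hMs h) (hMs h') hh hh' (hni h)
    · rintro y ⟨⟨-, hy⟩, hyB⟩
      have hy' : ¬ Function.Injective y := hy
      rw [Function.Injective] at hy'
      push Not at hy'
      obtain ⟨i, j, hij, hne⟩ := hy'
      obtain ⟨σ, hσ0, hσ1⟩ := TPA_two_perm (n := 2) i j hne
      have h01 : y (σ 0) = y (σ 1) := by rw [hσ0, hσ1, hij]
      have h23 : y (σ 2) ≠ y (σ 3) := fun h => hyB ⟨σ, h01, h⟩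
      refine ⟨![y (σ 2) - y (σ 0), y (σ 3) - y (σ 0)], ?_, ?_⟩
      · intro a b hab
        fin_cases a <;> fin_cases b
        · rfl
        · exact absurd (sub_left_injective hab) h23
        · exact absurd (sub_left_injective hab).symm h23
        · rfl
      · rw [TPA_relAA (hni _)]
        refine ⟨1, y (σ 0), ?_⟩
        rw [← TPA_Ms_comp y σ, TPA_Ms4, TPA_Ms4]
        simp [← h01]
  rw [e1, e2, br, Finset.sum_range_succ, Finset.sum_range_one, pow_zero, pow_one, add_smul,
    one_smul]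

theorem ND5_cl : clq k (NC k 5 \ InjT k 5) (relAA k 5) = br 3 • ptc k := by
  have hs : DM k (fun x => x ∈ NC k 5 \ InjT k 5) := (NC_dm 5).and (InjT_dm 5).not
  have hd := relAA_dq hs
  rw [clq_split hd (TPA_tB k 0 1 2 3) (TPA_tB_dm 0 1 2 3)
    (fun x _ y _ h hx => TPA_tB_sat 0 1 2 3 h hx)]
  have e1 : clq k ((NC k 5 \ InjT k 5) ∩ TPA_tB k 0 1 2 3) (relAA k 5) = br 2 • ptc k := by
    rw [← relMS_cl]
    symm
    have hMs : ∀ v : Fin 2 → k, Ms (![v 0, v 0, v 1, v 1, 0] : Fin 5 → k) =
        Ms v + Ms v + {0} := by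
      intro v
      rw [TPA_Ms5, TPA_Ms2, ← TPA_pair2]
      rfl
    have hni : ∀ v : Fin 2 → k, ¬ Function.Injective (![v 0, v 0, v 1, v 1, 0] : Fin 5 → k) :=
      fun v => TPA_noninj (i := 0) (j := 1) (by decide) rfl
    refine clq_map (relMS_dq (TPA_ne_dm 2)) (hd.inter (TPA_tB_dm 0 1 2 3))
      (fun v => ![v 0, v 0, v 1, v 1, 0]) ?_ ?_ ?_ ?_
    · refine DM.pi (fun i => ?_)
      fin_cases i
      · exact DM.apply 0
      · exact DM.apply 0
      · exact DM.apply 1
      · exact DM.apply 1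
      · exact DM.const' 0
    · intro v hv
      refine ⟨⟨?_, hni v⟩, 1, rfl, rfl⟩
      by_cases h0 : v 0 = 0
      · refine ⟨2, 4, fun h1 => hv ?_⟩
        funext i
        fin_cases i
        · exact h0
        · exact h1
      · exact ⟨0, 4, fun h1 => h0 h1⟩
    · intro v _ v' _
      exact TPA_B (hMs v) (hMs v') (hni v)
    · rintro y ⟨⟨⟨i, j, hy⟩, -⟩, σ, h1, h2⟩
      refine ⟨![y (σ 0) - y (σ 4), y (σ 2) - y (σ 4)], ?_, ?_⟩
      · intro h0
        have g0 : y (σ 0) = y (σ 4) := sub_eq_zero.1 (congrFun h0 0)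
        have g2 : y (σ 2) = y (σ 4) := sub_eq_zero.1 (congrFun h0 1)
        have h3 : ∀ l, y (σ l) = y (σ 4) := by
          intro l
          fin_cases l
          · exact g0
          · exact h1.symm.trans g0
          · exact g2
          · exact h2.symm.trans g2
          · rfl
        apply hy
        have h4 := h3 (σ⁻¹ i)
        have h5 := h3 (σ⁻¹ j)
        rw [show σ (σ⁻¹ i) = i from σ.apply_symm_apply i] at h4
        rw [show σ (σ⁻¹ j) = j from σ.apply_symm_apply j] at h5
        rw [h4, h5]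
      · rw [TPA_relAA (hni _)]
        refine ⟨1, y (σ 4), ?_⟩
        rw [← TPA_Ms_comp y σ, TPA_Ms5, TPA_Ms5]
        simp [← h1, ← h2]
  have e2 : clq k ((NC k 5 \ InjT k 5) \ TPA_tB k 0 1 2 3) (relAA k 5) = L ^ 2 • ptc k := by
    rw [← Q3_cl]
    symm
    have hMs : ∀ h : Fin 3 → k, Ms (![0, 0, h 0, h 1, h 2] : Fin 5 → k) = {0} + {0} + Ms h := by
      intro h
      rw [TPA_Ms5, ← TPA_pair]
      rfl
    have hni : ∀ h : Fin 3 → k, ¬ Function.Injective (![0, 0, h 0, h 1, h 2] : Fin 5 → k) :=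
      fun h => TPA_noninj (i := 0) (j := 1) (by decide) rfl
    refine clq_map (relMS_dq (InjT_dm 3)) (hd.diff (TPA_tB_dm 0 1 2 3))
      (fun h => ![0, 0, h 0, h 1, h 2]) ?_ ?_ ?_ ?_
    · refine DM.pi (fun i => ?_)
      fin_cases i
      · exact DM.const' 0
      · exact DM.const' 0
      · exact DM.apply 0
      · exact DM.apply 1
      · exact DM.apply 2
    · intro h hh
      refine ⟨⟨⟨2, 3, fun h0 => ?_⟩, hni h⟩, ?_⟩
      · exact absurd (hh h0) (by decide)
      · rintro ⟨σ, h1, h2⟩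
        have h3 : Ms (![0, 0, h 0, h 1, h 2] : Fin 5 → k) =
            {(![0, 0, h 0, h 1, h 2] : Fin 5 → k) (σ 0),
              (![0, 0, h 0, h 1, h 2] : Fin 5 → k) (σ 2)} +
            {(![0, 0, h 0, h 1, h 2] : Fin 5 → k) (σ 0),
              (![0, 0, h 0, h 1, h 2] : Fin 5 → k) (σ 2)} +
              {(![0, 0, h 0, h 1, h 2] : Fin 5 → k) (σ 4)} := by
          rw [← TPA_pair2, ← TPA_Ms_comp _ σ, TPA_Ms5]
          simp only [← h1, ← h2]
          rfl
        rw [hMs] at h3
        have h4 := (TPA_parts (TPA_nodup_of_inj hh) (Multiset.nodup_singleton _) h3).2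
        rw [TPA_Ms3] at h4
        have := congrArg Multiset.card h4
        simp at this
    · intro h hh h' hh'
      exact TPA_A (hMs h) (hMs h') hh hh' (hni h)
    · rintro y ⟨⟨-, hy⟩, hyB⟩
      have hy' : ¬ Function.Injective y := hy
      rw [Function.Injective] at hy'
      push Not at hy'
      obtain ⟨i, j, hij, hne⟩ := hy'
      obtain ⟨σ, hσ0, hσ1⟩ := TPA_two_perm (n := 3) i j hne
      have h01 : y (σ 0) = y (σ 1) := by rw [hσ0, hσ1, hij]
      have h23 : y (σ 2) ≠ y (σ 3) := fun h => hyB ⟨σ, h01, h⟩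
      have h24 : y (σ 2) ≠ y (σ 4) := fun h => hyB ⟨σ * Equiv.swap 3 4, by
        constructor
        · simpa [Equiv.Perm.mul_apply, Equiv.swap_apply_def] using h01
        · simpa [Equiv.Perm.mul_apply, Equiv.swap_apply_def] using h⟩
      have h34 : y (σ 3) ≠ y (σ 4) := fun h => hyB ⟨σ * Equiv.swap 2 4, by
        constructor
        · simpa [Equiv.Perm.mul_apply, Equiv.swap_apply_def] using h01
        · simpa [Equiv.Perm.mul_apply, Equiv.swap_apply_def] using h.symm⟩
      refine ⟨![y (σ 2) - y (σ 0), y (σ 3) - y (σ 0), y (σ 4) - y (σ 0)], ?_, ?_⟩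
      · intro a b hab
        fin_cases a <;> fin_cases b
        · rfl
        · exact absurd (sub_left_injective hab) h23
        · exact absurd (sub_left_injective hab) h24
        · exact absurd (sub_left_injective hab).symm h23
        · rfl
        · exact absurd (sub_left_injective hab) h34
        · exact absurd (sub_left_injective hab).symm h24
        · exact absurd (sub_left_injective hab).symm h34
        · rfl
      · rw [TPA_relAA (hni _)]
        refine ⟨1, y (σ 0), ?_⟩
        rw [← TPA_Ms_comp y σ, TPA_Ms5, TPA_Ms5]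
        simp [← h01]
  rw [e1, e2, ← add_smul]
  congr 1
  rw [br, br, Finset.sum_range_succ (fun i => L ^ i) 2]

end Pool.Agent.MRat
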