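import Pool.Agent.Lib.MP_923aff_ag.TDefs
/-!
# JOB TPB: quadruples up to affine maps and even permutations

`x = (b0 + b1 - b2 - b3, b0 - b1 + b2 - b3, b0 - b1 - b2 + b3)` identifies the non-constant quadruples up to translation with
`k³ \ 0`; the alternating group acts linearly on `x`. So `clq (NC 4) relAA` is the class of `P(k³)` modulo the alternating group,
which is `br 3` by `niceOn_A4` over the one point space (`A4Data` for `alternatingGroup (Fin 4)`: `v1 = (0 1)(2 3)`,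
`v2 = c v1 c⁻¹`, `c = (1 2 3)` or its inverse; the relations and `gen` by `decide`).
-/

set_option autoImplicit false

namespace Pool.Agent.MRat

open scoped MatrixGroups LinearAlgebra.Projectivization

variable {k : Type} [Field k] [IsAlgClosed k] [CharZero k]

private abbrev TPB_p1 : Equiv.Perm (Fin 4) := Equiv.swap 0 1 * Equiv.swap 2 3
private abbrev TPB_p2 : Equiv.Perm (Fin 4) := Equiv.swap 0 2 * Equiv.swap 1 3
private abbrev TPB_pc : Equiv.Perm (Fin 4) := Equiv.swap 1 2 * Equiv.swap 2 3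

private theorem TPB_gen : ∀ g : Equiv.Perm (Fin 4), Equiv.Perm.sign g = 1 →
    ∃ a b : Bool, ∃ i : Fin 3,
      g = (cond a TPB_p1 1) * (cond b TPB_p2 1) * TPB_pc ^ (i : ℕ) := by decide

private theorem TPB_rels : TPB_p1 * TPB_p1 = 1 ∧ TPB_p2 * TPB_p2 = 1 ∧
    TPB_p1 * TPB_p2 = TPB_p2 * TPB_p1 ∧ TPB_pc ^ 3 = 1 ∧
    TPB_pc * TPB_p1 * TPB_pc⁻¹ = TPB_p2 ∧ TPB_pc * TPB_p2 * TPB_pc⁻¹ = TPB_p1 * TPB_p2 := by
  decide

theorem A4_alt : ∃ v1 v2 c : alternatingGroup (Fin 4), A4Data v1 v2 c := by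
  have m1 : TPB_p1 ∈ alternatingGroup (Fin 4) := Equiv.Perm.mem_alternatingGroup.2 (by decide)
  have m2 : TPB_p2 ∈ alternatingGroup (Fin 4) := Equiv.Perm.mem_alternatingGroup.2 (by decide)
  have mc : TPB_pc ∈ alternatingGroup (Fin 4) := Equiv.Perm.mem_alternatingGroup.2 (by decide)
  obtain ⟨r1, r2, r3, r4, r5, r6⟩ := TPB_rels
  refine ⟨⟨TPB_p1, m1⟩, ⟨TPB_p2, m2⟩, ⟨TPB_pc, mc⟩, ⟨Subtype.ext r1, Subtype.ext r2,
    Subtype.ext r3, Subtype.ext r4, Subtype.ext r5, Subtype.ext r6, ?_⟩⟩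
  rintro ⟨g, hg⟩
  obtain ⟨a, b, i, h⟩ := TPB_gen g (Equiv.Perm.mem_alternatingGroup.1 hg)
  cases a <;> cases b
  · exact ⟨1, Or.inl rfl, i, Subtype.ext (h.trans (by simp))⟩
  · exact ⟨⟨TPB_p2, m2⟩, Or.inr (Or.inr (Or.inl rfl)), i, Subtype.ext (h.trans (by simp))⟩
  · exact ⟨⟨TPB_p1, m1⟩, Or.inr (Or.inl rfl), i, Subtype.ext (h.trans (by simp))⟩
  · exact ⟨⟨TPB_p1, m1⟩ * ⟨TPB_p2, m2⟩, Or.inr (Or.inr (Or.inr rfl)), i,
      Subtype.ext (h.trans (by simp))⟩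

/-- The coordinates of a quadruple modulo constants. -/
private def TPB_Q (k : Type) [Field k] : (Fin 4 → k) →ₗ[k] (Fin 3 → k) where
  toFun b := ![b 0 + b 1 - b 2 - b 3, b 0 - b 1 + b 2 - b 3, b 0 - b 1 - b 2 + b 3]
  map_add' a b := by
    ext i
    fin_cases i <;> simp <;> ring
  map_smul' c b := by
    ext i
    fin_cases i <;> simp <;> ring

/-- A section. -/
private def TPB_S (k : Type) [Field k] [CharZero k] : (Fin 3 → k) →ₗ[k] (Fin 4 → k) where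
  toFun x := ![(x 0 + x 1 + x 2) / 4, (x 0 - x 1 - x 2) / 4, (-x 0 + x 1 - x 2) / 4,
    (-x 0 - x 1 + x 2) / 4]
  map_add' a b := by
    ext i
    fin_cases i <;> simp <;> ring
  map_smul' c b := by
    ext i
    fin_cases i <;> simp <;> ring

omit [IsAlgClosed k] in
private theorem TPB_QS (x : Fin 3 → k) : TPB_Q k (TPB_S k x) = x := by
  ext i
  fin_cases i <;> simp [TPB_Q, TPB_S] <;> ring

omit [IsAlgClosed k] in
private theorem TPB_SQ (b : Fin 4 → k) :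
    TPB_S k (TPB_Q k b) = fun i => b i - (b 0 + b 1 + b 2 + b 3) / 4 := by
  ext i
  fin_cases i <;> simp [TPB_Q, TPB_S] <;> ring

omit [IsAlgClosed k] [CharZero k] in
private theorem TPB_Q_const (b : Fin 4 → k) (c : k) : TPB_Q k (fun i => b i - c) = TPB_Q k b := by
  ext i
  fin_cases i <;> simp [TPB_Q] <;> ring

private def TPB_rho (k : Type) [Field k] [CharZero k] :
    Representation k (Equiv.Perm (Fin 4)) (Fin 3 → k) where
  toFun σ := (TPB_Q k).comp ((LinearMap.funLeft k k (σ⁻¹ : Equiv.Perm (Fin 4))).comp (TPB_S k))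
  map_one' := by
    refine LinearMap.ext fun x => ?_
    exact TPB_QS x
  map_mul' σ τ := by
    refine LinearMap.ext fun x => ?_
    have h1 : TPB_S k (TPB_Q k (fun i => TPB_S k x (τ⁻¹ i))) = fun i =>
        TPB_S k x (τ⁻¹ i) - (TPB_S k x (τ⁻¹ 0) + TPB_S k x (τ⁻¹ 1) + TPB_S k x (τ⁻¹ 2) +
          TPB_S k x (τ⁻¹ 3)) / 4 := TPB_SQ _
    have h2 : TPB_Q k (fun i => TPB_S k (TPB_Q k (fun i => TPB_S k x (τ⁻¹ i))) (σ⁻¹ i)) =
        TPB_Q k (fun i => TPB_S k x ((σ * τ)⁻¹ i)) := by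
      rw [h1]
      have h3 := TPB_Q_const (fun i => TPB_S k x (τ⁻¹ (σ⁻¹ i)))
        ((TPB_S k x (τ⁻¹ 0) + TPB_S k x (τ⁻¹ 1) + TPB_S k x (τ⁻¹ 2) + TPB_S k x (τ⁻¹ 3)) / 4)
      rw [mul_inv_rev]
      exact h3
    exact h2.symm

omit [IsAlgClosed k] in
private theorem TPB_rho_Q (σ : Equiv.Perm (Fin 4)) (b : Fin 4 → k) :
    TPB_rho k σ (TPB_Q k b) = TPB_Q k (fun i => b (σ⁻¹ i)) := by
  have h1 : TPB_rho k σ (TPB_Q k b) = TPB_Q k (fun i => TPB_S k (TPB_Q k b) (σ⁻¹ i)) := rfl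
  rw [h1, TPB_SQ]
  exact TPB_Q_const (fun i => b (σ⁻¹ i)) _

/-- The representation of the permutations on quadruples modulo constants, in the coordinates `x`. -/
theorem exists_quad_rep : ∃ ρ : Representation k (Equiv.Perm (Fin 4)) (Fin 3 → k),
    ∀ (σ : Equiv.Perm (Fin 4)) (b : Fin 4 → k),
      ρ σ ![b 0 + b 1 - b 2 - b 3, b 0 - b 1 + b 2 - b 3, b 0 - b 1 - b 2 + b 3] =
        ![b (σ⁻¹ 0) + b (σ⁻¹ 1) - b (σ⁻¹ 2) - b (σ⁻¹ 3),
          b (σ⁻¹ 0) - b (σ⁻¹ 1) + b (σ⁻¹ 2) - b (σ⁻¹ 3),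
          b (σ⁻¹ 0) - b (σ⁻¹ 1) - b (σ⁻¹ 2) + b (σ⁻¹ 3)] :=
  ⟨TPB_rho k, fun σ b => TPB_rho_Q σ b⟩

omit [IsAlgClosed k] in
private theorem TPB_Q_zero {b : Fin 4 → k} (h : TPB_Q k b = 0) (i j : Fin 4) : b i = b j := by
  have h1 := TPB_SQ b
  rw [h, map_zero] at h1
  have h2 := congrFun h1 i
  have h3 := congrFun h1 j
  simp only [Pi.zero_apply] at h2 h3
  exact (sub_eq_zero.1 h2.symm).trans (sub_eq_zero.1 h3.symm).symm

omit [IsAlgClosed k] in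
private theorem TPB_NC {b : Fin 4 → k} : b ∈ NC k 4 ↔ TPB_Q k b ≠ 0 := by
  constructor
  · rintro ⟨i, j, hij⟩ h
    exact hij (TPB_Q_zero h i j)
  · intro h
    by_contra hc
    apply h
    have h1 : ∀ i j, b i = b j := fun i j => by
      by_contra hij
      exact hc ⟨i, j, hij⟩
    ext i
    fin_cases i <;> simp [TPB_Q, h1 1 0, h1 2 0, h1 3 0]

private theorem TPB_NC_dm : DM k (fun b : Fin 4 → k => b ∈ NC k 4) :=
  DM.fex fun i => DM.fex fun j => DM.ne (DM.apply i) (DM.apply j)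

private theorem TPB_dq : DQ k (NC k 4) (relAA k 4) where
  ds := TPB_NC_dm
  dr := by
    have h1 : DM k (fun p : (Fin 4 → k) × (Fin 4 → k) => relAA k 4 p.1 p.2) := by
      have h2 : DM k (fun p : (Fin 4 → k) × (Fin 4 → k) => ∃ (c : kˣ) (e : k),
          ∃ σ : Equiv.Perm (Fin 4), σ ∈ alternatingGroup (Fin 4) ∧
            ∀ i, p.2 i = c * p.1 (σ i) + e) := by
        refine DM.ex (DM.ex (DM.fex fun σ => DM.and (DM.const' _) (DM.fall fun i => ?_)))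
        fun_prop
      exact h2
    have h3 : DM k (fun p : (Fin 4 → k) × (Fin 4 → k) => p.1 ∈ NC k 4) :=
      DM.comp TPB_NC_dm (f := fun p : (Fin 4 → k) × (Fin 4 → k) => p.1) (by fun_prop)
    have h4 : DM k (fun p : (Fin 4 → k) × (Fin 4 → k) => p.2 ∈ NC k 4) :=
      DM.comp TPB_NC_dm (f := fun p : (Fin 4 → k) × (Fin 4 → k) => p.2) (by fun_prop)
    exact h3.and (h4.and h1)
  refl := fun x _ => ⟨1, 0, 1, Subgroup.one_mem _, fun i => by simp⟩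
  symm := by
    rintro x _ y _ ⟨c, e, σ, hσ, h⟩
    refine ⟨c⁻¹, -(((c⁻¹ : kˣ) : k) * e), σ⁻¹, Subgroup.inv_mem _ hσ, fun i => ?_⟩
    have h1 : σ (σ⁻¹ i) = i := σ.apply_symm_apply i
    rw [h (σ⁻¹ i), h1, mul_add, ← mul_assoc, Units.inv_mul, one_mul]
    ring
  trans := by
    rintro x _ y _ z _ ⟨c, e, σ, hσ, h⟩ ⟨c', e', σ', hσ', h'⟩
    refine ⟨c' * c, ((c' : kˣ) : k) * e + e', σ * σ', Subgroup.mul_mem _ hσ hσ', fun i => ?_⟩
    rw [h' i, h (σ' i), Equiv.Perm.mul_apply, Units.val_mul]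
    ring

theorem NC4_cl : clq k (NC k 4) (relAA k 4) = br 3 • ptc k := by
  obtain ⟨v1, v2, c, hd⟩ := A4_alt
  let F := alternatingGroup (Fin 4)
  let ρ : Representation k F (Fin 3 → k) := (TPB_rho k).comp (Subgroup.subtype F)
  have hρ : ∀ (g : F) (b : Fin 4 → k), ρ g (TPB_Q k b) =
      TPB_Q k (fun i => b ((g : Equiv.Perm (Fin 4))⁻¹ i)) := fun g b => TPB_rho_Q _ _
  let A : FAct k F Unit := FAct.triv k F Unit
  have h1 : fcl (A.prod (PRep ρ)) ((Set.univ : Set Unit) ×ˢ (Set.univ : Set (ℙ k (Fin 3 → k)))) =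
      br (Module.finrank k (Fin 3 → k)) • fcl A Set.univ :=
    niceOn_A4 hd ρ Unit A Set.univ (FAct.St.univ A) (fun _ _ _ _ => rfl)
  have h0 : fcl A (Set.univ : Set Unit) = cl k (Set.univ : Set Unit) :=
    fcl_trivial (fun _ _ _ => rfl)
  rw [Module.finrank_fin_fun, h0] at h1
  rw [show ptc k = cl k (Set.univ : Set Unit) from rfl, ← h1]
  have hst : (A.prod (PRep ρ)).St ((Set.univ : Set Unit) ×ˢ (Set.univ : Set (ℙ k (Fin 3 → k)))) :=
    (FAct.St.univ A).prod (FAct.St.univ _)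
  refine clq_corr TPB_dq hst.dq (fun b p => isrep (TPB_Q k b) p.2) ?_ ?_ ?_ ?_
  · have h2 : DM k (fun p : (Fin 4 → k) × (Unit × ℙ k (Fin 3 → k)) => TPB_Q k p.1) :=
      DM.comp (lin_dm (TPB_Q k)) (by fun_prop)
    exact DM.isrep h2 (by fun_prop)
  · intro b hb
    exact ⟨((), Projectivization.mk k _ (TPB_NC.1 hb)), ⟨trivial, trivial⟩, TPB_NC.1 hb, rfl⟩
  · rintro ⟨⟨⟩, p⟩ _
    refine ⟨TPB_S k p.rep, TPB_NC.2 ?_, ?_, ?_⟩
    · rw [TPB_QS]; exact p.rep_nonzero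
    · rw [TPB_QS]; exact p.rep_nonzero
    · show Projectivization.mk k (TPB_Q k (TPB_S k p.rep)) _ = p
      simp only [TPB_QS]
      exact p.mk_rep
  · rintro b hb ⟨⟨⟩, p⟩ _ ⟨hb0, rfl⟩ b' hb' ⟨⟨⟩, p'⟩ _ ⟨hb0', rfl⟩
    constructor
    · rintro ⟨c, e, σ, hσ, h⟩
      refine ⟨⟨σ⁻¹, Subgroup.inv_mem _ hσ⟩, ?_⟩
      refine Prod.ext rfl ?_
      show (PRep ρ).a _ (Projectivization.mk k (TPB_Q k b) hb0) = _
      rw [PRep_mk, Projectivization.mk_eq_mk_iff]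
      refine ⟨c⁻¹, ?_⟩
      rw [hρ]
      have h3 : b' = fun i => (c : k) • (fun i => b (σ i)) i - (-e) := by
        funext i
        rw [h i]
        simp
      rw [h3, TPB_Q_const]
      have h4 : (fun i => (c : k) • (fun i => b (σ i)) i) = (c : k) • (fun i => b (σ i)) := rfl
      rw [h4, map_smul, Units.smul_def, smul_smul, Units.inv_mul, one_smul]
      simp
    · rintro ⟨⟨g, hg⟩, h⟩
      have h2 : (PRep ρ).a ⟨g, hg⟩ (Projectivization.mk k (TPB_Q k b) hb0) =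
        Projectivization.mk k (TPB_Q k b') hb0' := congrArg Prod.snd h
      rw [PRep_mk, Projectivization.mk_eq_mk_iff] at h2
      obtain ⟨c, hc⟩ := h2
      rw [hρ] at hc
      have h3 := congrArg (TPB_S k) hc
      rw [Units.smul_def, map_smul, TPB_SQ, TPB_SQ] at h3
      refine ⟨c⁻¹, (b' 0 + b' 1 + b' 2 + b' 3) / 4 - ((c⁻¹ : kˣ) : k) *
        ((b (g⁻¹ 0) + b (g⁻¹ 1) + b (g⁻¹ 2) + b (g⁻¹ 3)) / 4), g⁻¹,
        Subgroup.inv_mem _ hg, fun i => ?_⟩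
      have h4 : (c : k) * (b' i - (b' 0 + b' 1 + b' 2 + b' 3) / 4) = b (g⁻¹ i) -
        (b (g⁻¹ 0) + b (g⁻¹ 1) + b (g⁻¹ 2) + b (g⁻¹ 3)) / 4 := congrFun h3 i
      have h5 : b (g⁻¹ i) = (c : k) * (b' i - (b' 0 + b' 1 + b' 2 + b' 3) / 4) +
        (b (g⁻¹ 0) + b (g⁻¹ 1) + b (g⁻¹ 2) + b (g⁻¹ 3)) / 4 := by rw [h4]; ring
      rw [h5, mul_add, ← mul_assoc, Units.inv_mul, one_mul]
      ring

end Pool.Agent.MRat
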