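import Pool.Agent.Lib.MP_923aff_ag.SYE
import Pool.Agent.Lib.MP_923aff_ag.TPB
/-!
# JOB TPD: the class of non-constant quintuples up to scaling and even permutations

`NC4_cl` and `ND4_cl` give the class of `InjT 4`; `E5_cl` and `E5_split` then give the class `L³` of `InjT 5`; then `ND5_cl`, `P5_cl`.
-/

set_option autoImplicit false

namespace Pool.Agent.MRat

open scoped MatrixGroups LinearAlgebra.Projectivization

variable {k : Type} [Field k] [IsAlgClosed k] [CharZero k]

theorem NC_split (n : ℕ) (hn : 2 ≤ n) : clq k (NC k n) (relAA k n) =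
    clq k (InjT k n) (relAA k n) + clq k (NC k n \ InjT k n) (relAA k n) := by
  have h := clq_split (relAA_dq (k := k) (NC_dm n)) (InjT k n) (InjT_dm n) ?_
  · have e : NC k n ∩ InjT k n = InjT k n := by
      ext a
      constructor
      · exact fun h => h.2
      · intro h
        refine ⟨⟨⟨0, by omega⟩, ⟨1, by omega⟩, fun e => ?_⟩, h⟩
        have := h e
        simp at this
    rwa [e] at h
  · rintro a _ b _ ⟨c, e, σ, _, hb⟩ ha i j hij
    rw [hb i, hb j] at hij
    have h1 : a (σ i) = a (σ j) := by
      have h2 : (c : k) * a (σ i) = c * a (σ j) := by simpa using hij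
      exact mul_left_cancel₀ c.ne_zero h2
    exact σ.injective (ha h1)

omit [IsAlgClosed k] [CharZero k] in
private theorem tpd_cancel {a b c : MK k} (h : a = b + c) : b = a - c := by
  rw [h, add_sub_cancel_right]

theorem InjT4_cl : clq k (InjT k 4) (relAA k 4) = L ^ 2 • ptc k := by
  have h := tpd_cancel (NC_split (k := k) 4 (by norm_num))
  rw [NC4_cl, ND4_cl, ← sub_smul] at h
  rw [h]
  congr 1
  simp [br, Finset.sum_range_succ]

theorem InjT5_cl : clq k (InjT k 5) (relAA k 5) = L ^ 3 • ptc k := by
  have h := tpd_cancel (E5_split (k := k))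
  rw [E5_cl, InjT4_cl, ← sub_smul] at h
  rw [h]
  congr 1
  ring

theorem NC5_cl : clq k (NC k 5) (relAA k 5) = br 4 • ptc k := by
  rw [NC_split 5 (by norm_num), InjT5_cl, ND5_cl, ← add_smul]
  congr 1
  simp [br, Finset.sum_range_succ]
  ring

theorem P5_class : fcl (A5act k) (P5 k) = (L * br 4) • ptc k := by
  rw [P5_cl, NC5_cl, smul_smul]

end Pool.Agent.MRat
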