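import Pool.Agent.Lib.MP_923aff_ag.TPD
import Pool.Agent.Lib.MP_923aff_ag.ICC
import Pool.Agent.Lib.MP_923aff_ag.KLC
/-!
# JOB TPE: the icosahedral group acting on quadratic and quartic forms

`form4_class`: let `x3, x5, y` be the classes of `P(Form 2)`, `P(Form 4)`, `P5` modulo `Ico` (`ico_alt` for the action on the latter:
`φ : Ico k →* Equiv.Perm (Fin 5)` with range the alternating group; `fcl_comap`). `ico_nice` over these three spaces (no fixed points:
`ico_nofix_form`, `perm_nofix`) and the symmetry of products (`fcl_congr` with `Prod.swap`, `formRep_act`) give `br 5 • x3 = br 3 • x5`, and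
`br 5 • y = (L * br 4) • x5` (over `P(Form 4)` with the representation `permRep`: `P(k⁵)` is `P5` and a fixed point).
With `x3 = br 3 • ptc` and `y = (L * br 4) • ptc`, and `1 = L² (L * br 4) - (L⁴ + L - 1) br 3`.
`ico_form2`, `ico_form4`: `clq_prod_poly`.
-/

set_option autoImplicit false

namespace Pool.Agent.MRat

open scoped MatrixGroups LinearAlgebra.Projectivization

variable {k : Type} [Field k] [IsAlgClosed k] [CharZero k]
variable {X : Type} [DT k X]

private theorem TPE_swap {F Y Z : Type} [Group F] [Finite F] [DT k Y] [DT k Z]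
    {A : FAct k F Y} {B : FAct k F Z} {s : Set Y} {t : Set Z} (hs : A.St s) (ht : B.St t) :
    fcl (A.prod B) (s ×ˢ t) = fcl (B.prod A) (t ×ˢ s) := by
  refine fcl_congr (hs.prod ht) (ht.prod hs) (fun p => (p.2, p.1)) (by fun_prop) ?_ ?_
  · refine ⟨?_, ?_, ?_⟩
    · rintro ⟨x, y⟩ ⟨hx, hy⟩
      exact ⟨hy, hx⟩
    · rintro ⟨x, y⟩ - ⟨x', y'⟩ - h
      exact Prod.ext (congrArg Prod.snd h) (congrArg Prod.fst h)
    · rintro ⟨y, x⟩ ⟨hy, hx⟩
      exact ⟨(x, y), ⟨hx, hy⟩, rfl⟩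
  · rintro g ⟨x, y⟩ -
    rfl

/-- The three identities give the class. -/
private theorem TPE_alg {x3 x5 y : MK k} (h3 : x3 = br 3 • ptc k) (hy : y = (L * br 4) • ptc k)
    (e1 : br 5 • x3 = br 3 • x5) (e2 : br 5 • x5 = br 5 • y + x5) : x5 = br 5 • ptc k := by
  have hb5 : br 5 = 1 + L * br 4 := by
    simp only [br, Finset.sum_range_succ, Finset.sum_range_zero]
    ring
  have hid : L ^ 2 * (L * br 4) - (L ^ 4 + L - 1) * br 3 = 1 := by
    simp only [br, Finset.sum_range_succ, Finset.sum_range_zero]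
    ring
  have e3 : br 3 • (x5 - br 5 • ptc k) = 0 := by
    rw [smul_sub, ← e1, h3, smul_smul, smul_smul, mul_comm, sub_self]
  have e4 : (L * br 4) • (x5 - br 5 • ptc k) = 0 := by
    have h1 : (L * br 4) • x5 = br 5 • y := by
      have h2 : br 5 • x5 = x5 + (L * br 4) • x5 := by
        rw [hb5, add_smul, one_smul]
      rw [h2] at e2
      have h3 : x5 + (L * br 4) • x5 = x5 + br 5 • y := by rw [e2, add_comm]
      exact add_left_cancel h3
    rw [smul_sub, h1, hy, smul_smul, smul_smul, mul_comm, sub_self]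
  have e5 : x5 - br 5 • ptc k = 0 := by
    have h1 : (1 : Polynomial ℤ) • (x5 - br 5 • ptc k) = 0 := by
      rw [← hid, sub_smul, mul_smul (L ^ 2), mul_smul (L ^ 4 + L - 1), e4, e3, smul_zero,
        smul_zero, sub_zero]
    rwa [one_smul] at h1
  exact sub_eq_zero.1 e5

/-- The point of constant vectors. -/
private theorem TPE_one_ne : (fun _ => 1 : Fin 5 → k) ≠ 0 := by
  intro h
  exact one_ne_zero (congrFun h 0)

private theorem TPE_compl {p : ℙ k (Fin 5 → k)} (hp : p ∉ P5 k) :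
    p = Projectivization.mk k (fun _ => 1 : Fin 5 → k) TPE_one_ne := by
  have h1 : ∀ i j, p.rep i = p.rep j := by
    intro i j
    by_contra h
    exact hp ⟨i, j, h⟩
  rw [← p.mk_rep, Projectivization.mk_eq_mk_iff']
  refine ⟨p.rep 0, ?_⟩
  funext i
  rw [Pi.smul_apply, smul_eq_mul, mul_one]
  exact h1 0 i

private theorem TPE_one_not : Projectivization.mk k (fun _ => 1 : Fin 5 → k) TPE_one_ne ∉ P5 k := by
  rintro ⟨i, j, hij⟩
  obtain ⟨a, ha⟩ := Projectivization.exists_smul_eq_mk_rep k (fun _ => 1 : Fin 5 → k) TPE_one_ne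
  apply hij
  rw [← ha]
  rfl

/-- The icosahedral group maps onto the alternating group. -/
private theorem TPE_phi (k : Type) [Field k] [IsAlgClosed k] [CharZero k] :
    ∃ φ : Ico k →* alternatingGroup (Fin 5), Function.Surjective φ := by
  obtain ⟨φ, -, hr⟩ := ico_alt (k := k)
  refine ⟨φ.codRestrict (alternatingGroup (Fin 5)) (fun g => ?_), ?_⟩
  · rw [← hr]
    exact ⟨g, rfl⟩
  · rintro ⟨σ, hσ⟩
    have h1 := hσ
    rw [← hr] at h1
    obtain ⟨g, hg⟩ := h1
    exact ⟨g, Subtype.ext hg⟩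

theorem form4_class : clq k (Set.univ : Set (ℙ k (Form k 4)))
    (fun p q => ∃ g ∈ Ico k, g • p = q) = br 5 • ptc k := by
  let A3 : FAct k (Ico k) (ℙ k (Form k 2)) := FAct.ofPGL (Ico k) (ℙ k (Form k 2))
  let A5 : FAct k (Ico k) (ℙ k (Form k 4)) := FAct.ofPGL (Ico k) (ℙ k (Form k 4))
  have h2 : (2 : ℕ) = 2 * 1 := rfl
  have h4 : (4 : ℕ) = 2 * 2 := rfl
  let ρ2 : Representation k (Ico k) (Form k 2) := (formRep (k := k) h2).comp (Ico k).subtype
  let ρ4 : Representation k (Ico k) (Form k 4) := (formRep (k := k) h4).comp (Ico k).subtype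
  have hA3 : PRep ρ2 = A3 := formRep_act h2 (Ico k)
  have hA5 : PRep ρ4 = A5 := formRep_act h4 (Ico k)
  obtain ⟨φ, hφ⟩ := TPE_phi k
  let ρ5 : Representation k (alternatingGroup (Fin 5)) (Fin 5 → k) :=
    (permRep k 5).comp (alternatingGroup (Fin 5)).subtype
  let ρp : Representation k (Ico k) (Fin 5 → k) := ρ5.comp φ
  let Ap : FAct k (Ico k) (ℙ k (Fin 5 → k)) := (A5act k).comap φ
  have hAp : PRep ρp = Ap := rfl
  have hnf3 : ∀ x ∈ (Set.univ : Set (ℙ k (Form k 2))), ∃ g, A3.a g x ≠ x := by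
    intro x _
    obtain ⟨g, hg, h⟩ := ico_nofix_form (n := 2) (by norm_num) (by norm_num) x
    exact ⟨⟨g, hg⟩, h⟩
  have hnf5 : ∀ x ∈ (Set.univ : Set (ℙ k (Form k 4))), ∃ g, A5.a g x ≠ x := by
    intro x _
    obtain ⟨g, hg, h⟩ := ico_nofix_form (n := 4) (by norm_num) (by norm_num) x
    exact ⟨⟨g, hg⟩, h⟩
  have stp : Ap.St (P5 k) := P5_st.comap φ
  have hnfp : ∀ x ∈ P5 k, ∃ g, Ap.a g x ≠ x := by
    rintro x ⟨i, j, hij⟩
    obtain ⟨σ, hσ, hc⟩ := perm_nofix x.rep ⟨i, j, hij⟩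
    obtain ⟨g, hg⟩ := hφ ⟨σ, hσ⟩
    refine ⟨g, fun h => ?_⟩
    have h5 : (PRep ρp).a g (Projectivization.mk k x.rep x.rep_nonzero) =
        Projectivization.mk k (ρp g x.rep) (rep_ne ρp g x.rep_nonzero) :=
      PRep_mk ρp g x.rep_nonzero
    rw [x.mk_rep] at h5
    have h6 : (PRep ρp).a g x = x := h
    rw [h5] at h6
    have h7 := h6.trans x.mk_rep.symm
    rw [Projectivization.mk_eq_mk_iff'] at h7
    obtain ⟨c, h8⟩ := h7
    have h9 : ρp g x.rep = permRep k 5 σ x.rep := by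
      show (permRep k 5) ((φ g : alternatingGroup (Fin 5)) : Equiv.Perm (Fin 5)) x.rep = _
      rw [hg]
    rw [h9] at h8
    exact hc c h8.symm
  have n1 := ico_nice (FAct.St.univ A3) hnf3 ρ4
  have n2 := ico_nice (FAct.St.univ A5) hnf5 ρ2
  have n3 := ico_nice (FAct.St.univ A5) hnf5 ρp
  have n4 := ico_nice stp hnfp ρ4
  unfold Nice at n1 n2 n3 n4
  rw [hA5, finrank_form] at n1 n4
  rw [hA3, finrank_form] at n2
  rw [hAp, Module.finrank_fin_fun] at n3
  have s1 := TPE_swap (FAct.St.univ A3) (FAct.St.univ A5)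
  have s2 := TPE_swap (FAct.St.univ A5) stp
  have e1 : br 5 • fcl A3 Set.univ = br 3 • fcl A5 Set.univ := by
    rw [← n1, ← n2]
    exact s1
  have e2 : br 5 • fcl A5 Set.univ = br 5 • fcl Ap (P5 k) + fcl A5 Set.univ := by
    rw [← n3]
    have h5 : (A5.prod Ap).St ((Set.univ : Set (ℙ k (Form k 4))) ×ˢ (Set.univ : Set _)) :=
      (FAct.St.univ A5).prod (FAct.St.univ Ap)
    have h6 : (A5.prod Ap).St ((Set.univ : Set (ℙ k (Form k 4))) ×ˢ P5 k) :=
      (FAct.St.univ A5).prod stp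
    rw [fcl_split h5 h6 (Set.prod_mono_right (Set.subset_univ _)), s2, n4]
    congr 1
    refine fcl_congr (h5.diff h6) (FAct.St.univ A5) (fun p => p.1) (by fun_prop) ?_ ?_
    · have hm : ∀ p : ℙ k (Form k 4) × ℙ k (Fin 5 → k),
          p ∈ (Set.univ : Set (ℙ k (Form k 4))) ×ˢ (Set.univ : Set (ℙ k (Fin 5 → k))) \
            (Set.univ : Set (ℙ k (Form k 4))) ×ˢ P5 k → p.2 ∉ P5 k :=
        fun p hp h => hp.2 ⟨trivial, h⟩
      refine ⟨fun _ _ => trivial, ?_, ?_⟩
      · intro p hp q hq h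
        refine Prod.ext h ?_
        rw [TPE_compl (hm p hp), TPE_compl (hm q hq)]
      · intro x _
        exact ⟨(x, Projectivization.mk k (fun _ => 1 : Fin 5 → k) TPE_one_ne),
          ⟨⟨trivial, trivial⟩, fun h => TPE_one_not h.2⟩, rfl⟩
    · rintro g ⟨x, y⟩ -
      rfl
  have h3 : fcl A3 Set.univ = br 3 • ptc k := by
    rw [← klein_class]
    exact fcl_ofPGL (Ico k) Set.univ
  have hy : fcl Ap (P5 k) = (L * br 4) • ptc k := by
    rw [← P5_class]
    exact fcl_comap (A5act k) φ hφ (P5 k)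
  rw [← TPE_alg h3 hy e1 e2]
  exact (fcl_ofPGL (Ico k) Set.univ).symm

private theorem TPE_dq (X : Type) [DT k X] [MulAction PGL(2, k) X] [DAct k PGL(2, k) X] :
    DQ k (Set.univ : Set X) (fun p q => ∃ g ∈ Ico k, g • p = q) := by
  refine (FAct.St.univ (FAct.ofPGL (Ico k) X)).dq.congr ?_
  intro x _ y _
  constructor
  · rintro ⟨g, h⟩
    exact ⟨g, g.2, h⟩
  · rintro ⟨g, hg, h⟩
    exact ⟨⟨g, hg⟩, h⟩

/-- Products with a space on which the icosahedral group acts trivially. -/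
theorem ico_form2 {s : Set X} {r : X → X → Prop} (h : DQ k s r) :
    clq k (s ×ˢ (Set.univ : Set (ℙ k (Form k 2))))
      (fun p q => r p.1 q.1 ∧ ∃ g ∈ Ico k, g • p.2 = q.2) = br 3 • clq k s r :=
  clq_prod_poly h (TPE_dq (ℙ k (Form k 2))) klein_class

theorem ico_form4 {s : Set X} {r : X → X → Prop} (h : DQ k s r) :
    clq k (s ×ˢ (Set.univ : Set (ℙ k (Form k 4))))
      (fun p q => r p.1 q.1 ∧ ∃ g ∈ Ico k, g • p.2 = q.2) = br 5 • clq k s r :=
  clq_prod_poly h (TPE_dq (ℙ k (Form k 4))) form4_class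

end Pool.Agent.MRat
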