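import Pool.Agent.Lib.MP_923aff_ag.PO
/-!
# JOB UB: monic pairs, greatest common divisors, classes

`Mn k g`: monic polynomials of degree `g`. `QQ k d`: pairs `(P, Q)` with `P` monic of degree `d` and `deg Q < d`.
`DD k d`: the coprime ones. `QG k d g`: those whose greatest common divisor has degree `g`; multiplication
`Mn k g × DD k (d - g) → QG k d g` is bijective (`EuclideanDomain.gcd`, normalised).
`DD_cl`: strong induction on `d` from `PolyCl.sum` over `g ≤ d` (`L ^ (2 d) = ∑ g, L ^ g * [DD (d - g)]`) and `PolyCl.diff`.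
-/

set_option autoImplicit false

namespace Pool.Agent.MRat

open Polynomial
open scoped MatrixGroups LinearAlgebra.Projectivization

section
variable (k : Type) [Field k]

/-- Monic polynomials of degree `g`. -/
def Mn (g : ℕ) : Set (PD k (g + 1)) := {h | h.1.coeff g = 1}

/-- Pairs `(P, Q)`, `P` monic of degree `d` and `deg Q < d`. -/
def QQ (d : ℕ) : Set (PD k (d + 1) × PD k (d + 1)) := {F | F.1.1.coeff d = 1 ∧ F.2.1.coeff d = 0}

/-- Coprime pairs `(P, Q)`, `P` monic of degree `d` and `deg Q < d`. -/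
def DD (d : ℕ) : Set (PD k (d + 1) × PD k (d + 1)) := {F ∈ QQ k d | IsCoprime F.1.1 F.2.1}

/-- The product of a polynomial and a pair, as a relation. -/
def prel {g e d : ℕ} (p : PD k (g + 1) × (PD k (e + 1) × PD k (e + 1)))
    (F : PD k (d + 1) × PD k (d + 1)) : Prop := p.1.1 * p.2.1.1 = F.1.1 ∧ p.1.1 * p.2.2.1 = F.2.1

/-- Pairs in `QQ k d` whose greatest common divisor has degree `g`. -/
def QG (d g : ℕ) : Set (PD k (d + 1) × PD k (d + 1)) :=
  {F | ∃ p : PD k (g + 1) × (PD k (d - g + 1) × PD k (d - g + 1)),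
    p.1 ∈ Mn k g ∧ p.2 ∈ DD k (d - g) ∧ prel k p F}

end

section
variable {k : Type} [Field k] [IsAlgClosed k] [CharZero k]

private theorem UB_top (g : ℕ) (c : k) :
    PolyCl k {h : PD k (g + 1) | h.1.coeff g = c} (L ^ g) := by
  have h := PolyCl.PD_box (k := k) (n := g + 1)
    (A := fun i => if i < g then (Set.univ : Set k) else {c})
    (p := fun i => if i < g then L else 1) (by
      intro i _
      by_cases hi : i < g
      · simp only [hi, if_true]
        exact PolyCl.univ_k
      · simp only [hi, if_false]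
        exact PolyCl.singleton c)
  have e : {F : PD k (g + 1) | ∀ i < g + 1, F.1.coeff i ∈
      (if i < g then (Set.univ : Set k) else {c})} = {h : PD k (g + 1) | h.1.coeff g = c} := by
    ext F
    constructor
    · intro h
      have := h g (Nat.lt_succ_self g)
      simpa using this
    · intro h i hi
      by_cases hig : i < g
      · simp [hig]
      · have : i = g := by omega
        subst this
        simpa using h
  rw [e] at h
  refine h.cast ?_
  rw [Finset.prod_range_succ]
  simp only [lt_self_iff_false, if_false, mul_one]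
  rw [Finset.prod_congr rfl (g := fun _ => L) (fun i hi => by
    rw [if_pos (Finset.mem_range.1 hi)])]
  simp

theorem Mn_cl (g : ℕ) : PolyCl k (Mn k g) (L ^ g) := UB_top g 1

/-- Monic polynomials of degree `g` without term of degree `g - 1`. -/
theorem Mn_slice_cl {g : ℕ} (hg : 1 ≤ g) :
    PolyCl k {h ∈ Mn k g | h.1.coeff (g - 1) = 0} (L ^ (g - 1)) := by
  have h := PolyCl.PD_box (k := k) (n := g + 1)
    (A := fun i => if i < g - 1 then (Set.univ : Set k) else if i < g then {0} else {1})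
    (p := fun i => if i < g - 1 then L else 1) (by
      intro i _
      by_cases hi : i < g - 1
      · simp only [hi, if_true]
        exact PolyCl.univ_k
      · simp only [hi, if_false]
        by_cases hi' : i < g
        · simp only [hi', if_true]
          exact PolyCl.singleton 0
        · simp only [hi', if_false]
          exact PolyCl.singleton 1)
  have e : {F : PD k (g + 1) | ∀ i < g + 1, F.1.coeff i ∈
      (if i < g - 1 then (Set.univ : Set k) else if i < g then {0} else {1})} =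
      {h ∈ Mn k g | h.1.coeff (g - 1) = 0} := by
    ext F
    constructor
    · intro h
      have h1 := h g (Nat.lt_succ_self g)
      have h2 := h (g - 1) (by omega)
      have h3 : ¬ (g < g - 1) := by omega
      have h4 : g - 1 < g := by omega
      rw [if_neg h3, if_neg (lt_irrefl g)] at h1
      rw [if_neg (lt_irrefl _), if_pos h4] at h2
      exact ⟨h1, h2⟩
    · rintro ⟨h1, h2⟩ i hi
      by_cases hig : i < g - 1
      · simp [hig]
      · by_cases hig' : i < g
        · have : i = g - 1 := by omega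
          subst this
          simp only [lt_self_iff_false, if_false, hig', if_true]
          exact h2
        · have : i = g := by omega
          subst this
          simp only [hig, if_false, lt_self_iff_false]
          exact h1
  rw [e] at h
  refine h.cast ?_
  have hg' : g + 1 = (g - 1) + 1 + 1 := by omega
  rw [hg', Finset.prod_range_succ, Finset.prod_range_succ]
  have h3 : ¬ (g - 1 + 1 < g - 1) := by omega
  rw [if_neg (lt_irrefl _), if_neg h3, mul_one, mul_one,
    Finset.prod_congr rfl (g := fun _ => L) (fun i hi => by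
    rw [if_pos (Finset.mem_range.1 hi)])]
  simp

theorem QQ_cl (d : ℕ) : PolyCl k (QQ k d) (L ^ (2 * d)) := by
  have h := PolyCl.prod (UB_top (k := k) d 1) (UB_top (k := k) d 0)
  have h' : PolyCl k (QQ k d) (L ^ d * L ^ d) := h
  exact h'.cast (by ring)

theorem DD_dm (d : ℕ) : DM k (fun F => F ∈ DD k d) := by
  have h1 : DM k (fun F : PD k (d + 1) × PD k (d + 1) => F.1.1.coeff d = 1 ∧ F.2.1.coeff d = 0) :=
    by fun_prop
  have h2 : DM k (fun F : PD k (d + 1) × PD k (d + 1) => IsCoprime F.1.1 F.2.1) :=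
    DM.isCoprime (f := fun F : PD k (d + 1) × PD k (d + 1) => F.1) (g := fun F => F.2)
      (by fun_prop) (by fun_prop)
  exact h1.and h2

private theorem UB_mul_dm {m n l : ℕ} {X : Type} [DT k X] {f : X → PD k m} {g : X → PD k n}
    {h : X → PD k l} (hf : DM k f) (hg : DM k g) (hh : DM k h) :
    DM k (fun x => (f x).1 * (g x).1 = (h x).1) := by
  have h1 : DM k (fun x => ∀ t : k, (f x).1.eval t * (g x).1.eval t = (h x).1.eval t) := by
    refine DM.all ?_
    have e1 : DM k (fun p : X × k => f p.1) := DM.comp hf (by fun_prop)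
    have e2 : DM k (fun p : X × k => g p.1) := DM.comp hg (by fun_prop)
    have e3 : DM k (fun p : X × k => h p.1) := DM.comp hh (by fun_prop)
    have d1 : DM k (fun p : X × k => (f p.1).1.eval p.2) := DM.peval e1 (by fun_prop)
    have d2 : DM k (fun p : X × k => (g p.1).1.eval p.2) := DM.peval e2 (by fun_prop)
    have d3 : DM k (fun p : X × k => (h p.1).1.eval p.2) := DM.peval e3 (by fun_prop)
    exact DM.eq (d1.mul d2) d3
  refine h1.congr_iff fun x => ?_
  constructor
  · intro hx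
    apply Polynomial.funext
    intro t
    rw [eval_mul]
    exact hx t
  · intro hx t
    rw [← hx, eval_mul]

theorem prel_dm {g e d : ℕ} : DM k (fun q : (PD k (g + 1) × (PD k (e + 1) × PD k (e + 1))) ×
    (PD k (d + 1) × PD k (d + 1)) => prel k q.1 q.2) := by
  refine DM.and ?_ ?_
  · exact UB_mul_dm (f := fun q : (PD k (g + 1) × (PD k (e + 1) × PD k (e + 1))) ×
      (PD k (d + 1) × PD k (d + 1)) => q.1.1) (g := fun q => q.1.2.1) (h := fun q => q.2.1)
      (by fun_prop) (by fun_prop) (by fun_prop)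
  · exact UB_mul_dm (f := fun q : (PD k (g + 1) × (PD k (e + 1) × PD k (e + 1))) ×
      (PD k (d + 1) × PD k (d + 1)) => q.1.1) (g := fun q => q.1.2.2) (h := fun q => q.2.2)
      (by fun_prop) (by fun_prop) (by fun_prop)

omit [IsAlgClosed k] [CharZero k] in
private theorem UB_deg {n : ℕ} (F : PD k (n + 1)) : F.1.natDegree ≤ n := by
  have h := Polynomial.mem_degreeLT.1 F.2
  by_cases h0 : F.1 = 0
  · rw [h0]; simp
  · exact Nat.lt_succ_iff.1 ((Polynomial.natDegree_lt_iff_degree_lt h0).2 h)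

omit [IsAlgClosed k] [CharZero k] in
private theorem UB_mem {n : ℕ} {P : k[X]} (h : P.natDegree ≤ n) : P ∈ Polynomial.degreeLT k (n + 1) := by
  rw [Polynomial.mem_degreeLT]
  refine (Polynomial.degree_le_of_natDegree_le h).trans_lt ?_
  exact_mod_cast Nat.lt_succ_self n

omit [IsAlgClosed k] [CharZero k] in
private theorem UB_monic {n : ℕ} (F : PD k (n + 1)) (h : F.1.coeff n = 1) :
    F.1.Monic ∧ F.1.natDegree = n :=
  ⟨Polynomial.monic_of_natDegree_le_of_coeff_eq_one n (UB_deg F) h,
    Polynomial.natDegree_eq_of_le_of_coeff_ne_zero (UB_deg F) (by rw [h]; exact one_ne_zero)⟩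

omit [IsAlgClosed k] [CharZero k] in
private theorem UB_coeff {d g : ℕ} (hg : g ≤ d) (A : PD k (g + 1)) (B : PD k (d - g + 1)) :
    (A.1 * B.1).coeff d = A.1.coeff g * B.1.coeff (d - g) := by
  have h := Polynomial.coeff_mul_add_eq_of_natDegree_le (UB_deg A) (UB_deg B)
  rwa [Nat.add_sub_cancel' hg] at h

omit [IsAlgClosed k] [CharZero k] in
private theorem UB_prod_mem {d g : ℕ} (hg : g ≤ d) (A : PD k (g + 1)) (B : PD k (d - g + 1)) :
    A.1 * B.1 ∈ Polynomial.degreeLT k (d + 1) := by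
  apply UB_mem
  refine Polynomial.natDegree_mul_le.trans ?_
  have h1 := UB_deg A
  have h2 := UB_deg B
  omega

theorem prel_left {d g : ℕ} (hg : g ≤ d) {p : PD k (g + 1) × (PD k (d - g + 1) × PD k (d - g + 1))}
    (h1 : p.1 ∈ Mn k g) (h2 : p.2 ∈ QQ k (d - g)) : ∃ F ∈ QQ k d, prel k p F := by
  have e1 : p.1.1.coeff g = 1 := h1
  refine ⟨(⟨_, UB_prod_mem hg p.1 p.2.1⟩, ⟨_, UB_prod_mem hg p.1 p.2.2⟩), ⟨?_, ?_⟩, rfl, rfl⟩
  · show (p.1.1 * p.2.1.1).coeff d = 1
    rw [UB_coeff hg, e1, h2.1, mul_one]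
  · show (p.1.1 * p.2.2.1).coeff d = 0
    rw [UB_coeff hg, h2.2, mul_zero]

/-- Uniqueness of the greatest common divisor. -/
theorem prel_unique {d g g' : ℕ} (hg : g ≤ d) (hg' : g' ≤ d)
    {p : PD k (g + 1) × (PD k (d - g + 1) × PD k (d - g + 1))}
    {p' : PD k (g' + 1) × (PD k (d - g' + 1) × PD k (d - g' + 1))}
    {F : PD k (d + 1) × PD k (d + 1)} (h1 : p.1 ∈ Mn k g) (h2 : p.2 ∈ DD k (d - g))
    (h1' : p'.1 ∈ Mn k g') (h2' : p'.2 ∈ DD k (d - g')) (h : prel k p F) (h' : prel k p' F) :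
    g = g' ∧ p.1.1 = p'.1.1 ∧ p.2.1.1 = p'.2.1.1 ∧ p.2.2.1 = p'.2.2.1 := by
  obtain ⟨hm, hd⟩ := UB_monic p.1 h1
  obtain ⟨hm', hd'⟩ := UB_monic p'.1 h1'
  obtain ⟨u, v, huv⟩ := h2.2
  obtain ⟨u', v', huv'⟩ := h2'.2
  have hdvd : p'.1.1 ∣ p.1.1 := by
    refine ⟨u * p'.2.1.1 + v * p'.2.2.1, ?_⟩
    have e1 : p.1.1 = u * F.1.1 + v * F.2.1 := by
      rw [← h.1, ← h.2]
      linear_combination (-p.1.1) * huv
    rw [e1, ← h'.1, ← h'.2]
    ring
  have hdvd' : p.1.1 ∣ p'.1.1 := by
    refine ⟨u' * p.2.1.1 + v' * p.2.2.1, ?_⟩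
    have e1 : p'.1.1 = u' * F.1.1 + v' * F.2.1 := by
      rw [← h'.1, ← h'.2]
      linear_combination (-p'.1.1) * huv'
    rw [e1, ← h.1, ← h.2]
    ring
  have he : p.1.1 = p'.1.1 :=
    Polynomial.eq_of_monic_of_associated hm hm' (associated_of_dvd_dvd hdvd' hdvd)
  have hne : p.1.1 ≠ 0 := hm.ne_zero
  refine ⟨?_, he, ?_, ?_⟩
  · rw [← hd, ← hd', he]
  · apply mul_left_cancel₀ hne
    rw [h.1, ← h'.1, he]
  · apply mul_left_cancel₀ hne
    rw [h.2, ← h'.2, he]

theorem QG_cover {d : ℕ} {F : PD k (d + 1) × PD k (d + 1)} :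
    F ∈ QQ k d ↔ ∃ g ∈ Finset.range (d + 1), F ∈ QG k d g := by
  classical
  constructor
  · rintro ⟨hF1, hF2⟩
    obtain ⟨hm, hd⟩ := UB_monic F.1 hF1
    set P := F.1.1 with hP
    set Q := F.2.1 with hQ
    have hP0 : P ≠ 0 := hm.ne_zero
    set G := EuclideanDomain.gcd P Q with hG
    have hG0 : G ≠ 0 := by
      intro h0
      have := EuclideanDomain.gcd_dvd_left P Q
      rw [← hG, h0, zero_dvd_iff] at this
      exact hP0 this
    have hlc : G.leadingCoeff ≠ 0 := Polynomial.leadingCoeff_ne_zero.2 hG0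
    set h := G * C (G.leadingCoeff)⁻¹ with hh
    have hhm : h.Monic := Polynomial.monic_mul_leadingCoeff_inv hG0
    have hunit : C (G.leadingCoeff)⁻¹ * C (G.leadingCoeff) = 1 := by
      rw [← C_mul, inv_mul_cancel₀ hlc, C_1]
    have hGh : G = h * C G.leadingCoeff := by
      rw [hh, mul_assoc, hunit, mul_one]
    obtain ⟨A, hA⟩ := EuclideanDomain.gcd_dvd_left P Q
    obtain ⟨B, hB⟩ := EuclideanDomain.gcd_dvd_right P Q
    rw [← hG] at hA hB
    set P' := C G.leadingCoeff * A with hP'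
    set Q' := C G.leadingCoeff * B with hQ'
    have eP : P = h * P' := by rw [hA, hGh, hP', mul_assoc]
    have eQ : Q = h * Q' := by rw [hB, hGh, hQ', mul_assoc]
    have hP'm : P'.Monic := by
      apply Polynomial.Monic.of_mul_monic_left hhm
      rw [← eP]; exact hm
    have hdeg : h.natDegree + P'.natDegree = d := by
      rw [← hd, eP, hhm.natDegree_mul hP'm]
    have hcop : IsCoprime P' Q' := by
      have hb := EuclideanDomain.gcd_eq_gcd_ab P Q
      rw [← hG] at hb
      refine ⟨EuclideanDomain.gcdA P Q * C (G.leadingCoeff)⁻¹,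
        EuclideanDomain.gcdB P Q * C (G.leadingCoeff)⁻¹, ?_⟩
      apply mul_left_cancel₀ hhm.ne_zero
      have : h * (EuclideanDomain.gcdA P Q * C (G.leadingCoeff)⁻¹ * P' +
          EuclideanDomain.gcdB P Q * C (G.leadingCoeff)⁻¹ * Q') =
          (P * EuclideanDomain.gcdA P Q + Q * EuclideanDomain.gcdB P Q) *
            C (G.leadingCoeff)⁻¹ := by
        rw [eP, eQ]
        ring
      rw [this, ← hb, mul_one]
    have hQ'deg : Q'.natDegree ≤ d - h.natDegree ∧ Q'.coeff (d - h.natDegree) = 0 := by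
      by_cases hQ0 : Q' = 0
      · rw [hQ0]; simp
      · have h1 : Q.natDegree = h.natDegree + Q'.natDegree := by
          rw [eQ]
          exact Polynomial.natDegree_mul hhm.ne_zero hQ0
        have hQne : Q ≠ 0 := by
          rw [eQ]; exact mul_ne_zero hhm.ne_zero hQ0
        have h2 : Q.natDegree ≤ d := UB_deg F.2
        have h3 : Q.natDegree ≠ d := by
          intro h3
          have h4 : Q.leadingCoeff = 0 := by
            rw [Polynomial.leadingCoeff, h3]
            exact hF2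
          exact hQne (Polynomial.leadingCoeff_eq_zero.1 h4)
        refine ⟨by omega, ?_⟩
        apply Polynomial.coeff_eq_zero_of_natDegree_lt
        omega
    refine ⟨h.natDegree, Finset.mem_range.2 (by omega),
      (⟨h, UB_mem le_rfl⟩, ⟨P', UB_mem (by omega)⟩, ⟨Q', UB_mem hQ'deg.1⟩), ?_, ?_, ?_⟩
    · exact hhm
    · refine ⟨⟨?_, hQ'deg.2⟩, hcop⟩
      show P'.coeff (d - h.natDegree) = 1
      have : d - h.natDegree = P'.natDegree := by omega
      rw [this]
      exact hP'm
    · exact ⟨eP.symm, eQ.symm⟩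
  · rintro ⟨g, hg, p, h1, h2, h3⟩
    have hg' : g ≤ d := Nat.lt_succ_iff.1 (Finset.mem_range.1 hg)
    have e1 : p.1.1.coeff g = 1 := h1
    refine ⟨?_, ?_⟩
    · rw [← h3.1, UB_coeff hg', e1, h2.1.1, mul_one]
    · rw [← h3.2, UB_coeff hg', h2.1.2, mul_zero]

theorem QG_zero (d : ℕ) : QG k d 0 = DD k d := by
  ext F
  constructor
  · rintro ⟨p, h1, h2, h3⟩
    obtain ⟨hm, hd⟩ := UB_monic p.1 h1
    have e : p.1.1 = 1 := by
      rw [Polynomial.eq_C_of_natDegree_eq_zero hd]
      have : p.1.1.coeff 0 = 1 := h1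
      rw [this, C_1]
    have e1 : p.2.1.1 = F.1.1 := by rw [← h3.1, e, one_mul]
    have e2 : p.2.2.1 = F.2.1 := by rw [← h3.2, e, one_mul]
    refine ⟨⟨?_, ?_⟩, ?_⟩
    · rw [← e1]; exact h2.1.1
    · rw [← e2]; exact h2.1.2
    · rw [← e1, ← e2]; exact h2.2
  · intro h
    refine ⟨(⟨1, UB_mem (by simp)⟩, F), ?_, h, ?_⟩
    · show (1 : k[X]).coeff 0 = 1
      simp
    · exact ⟨one_mul _, one_mul _⟩

private theorem UB_dm1 (d g : ℕ) : DM k (fun q : (PD k (d + 1) × PD k (d + 1)) ×
    (PD k (g + 1) × (PD k (d - g + 1) × PD k (d - g + 1))) => q.2.1.1.coeff g = 1) := by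
  fun_prop

private theorem UB_dm2 (d g : ℕ) : DM k (fun q : (PD k (d + 1) × PD k (d + 1)) ×
    (PD k (g + 1) × (PD k (d - g + 1) × PD k (d - g + 1))) => q.2.2) := by fun_prop

private theorem UB_dm3 (d g : ℕ) : DM k (fun q : (PD k (d + 1) × PD k (d + 1)) ×
    (PD k (g + 1) × (PD k (d - g + 1) × PD k (d - g + 1))) => (q.2, q.1)) := by fun_prop

private theorem UB_dm4 (d g : ℕ) : DM k (fun q : (PD k (d + 1) × PD k (d + 1)) ×
    (PD k (g + 1) × (PD k (d - g + 1) × PD k (d - g + 1))) => q.2.1.1.coeff g = 1 ∧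
    q.2.2 ∈ DD k (d - g) ∧ prel k q.2 q.1) := by
  have e2 := UB_dm2 (k := k) d g
  have h2 := DM.comp (DD_dm (k := k) (d - g)) e2
  have e3 := UB_dm3 (k := k) d g
  have h3 := DM.comp (prel_dm (k := k) (g := g) (e := d - g) (d := d)) e3
  have h1 := UB_dm1 (k := k) d g
  exact h1.and (h2.and h3)

private theorem UB_QG_dm (d g : ℕ) : DM k (fun F => F ∈ QG k d g) := by
  have h4 := DM.ex (P := fun (F : PD k (d + 1) × PD k (d + 1))
    (p : PD k (g + 1) × (PD k (d - g + 1) × PD k (d - g + 1))) =>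
    p.1.1.coeff g = 1 ∧ p.2 ∈ DD k (d - g) ∧ prel k p F) (UB_dm4 d g)
  exact h4.congr_iff fun F => Iff.rfl

theorem QG_cl {d g : ℕ} (hg : g ≤ d) {p : Polynomial ℤ} (h : PolyCl k (DD k (d - g)) p) :
    PolyCl k (QG k d g) (L ^ g * p) := by
  have hl : (g + 1) + (d - g + 1) ≤ (d + 1) + 1 := by omega
  refine PolyCl.bij (PolyCl.prod (Mn_cl g) h) (UB_QG_dm d g)
    (fun p => (pdmul hl p.1 p.2.1, pdmul hl p.1 p.2.2)) ?_ ?_
  · refine DM.mk ?_ ?_
    · exact DM.pdmul hl (by fun_prop) (by fun_prop)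
    · exact DM.pdmul hl (by fun_prop) (by fun_prop)
  · refine ⟨?_, ?_, ?_⟩
    · rintro p ⟨h1, h2⟩
      exact ⟨p, h1, h2, rfl, rfl⟩
    · rintro p ⟨h1, h2⟩ p' ⟨h1', h2'⟩ he
      have he1 : pdmul hl p.1 p.2.1 = pdmul hl p'.1 p'.2.1 := congrArg Prod.fst he
      have he2 : pdmul hl p.1 p.2.2 = pdmul hl p'.1 p'.2.2 := congrArg Prod.snd he
      obtain ⟨-, e1, e2, e3⟩ := prel_unique hg hg h1 h2 h1' h2'
        (F := (pdmul hl p.1 p.2.1, pdmul hl p.1 p.2.2)) ⟨rfl, rfl⟩
        ⟨(congrArg Subtype.val he1).symm, (congrArg Subtype.val he2).symm⟩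
      exact Prod.ext (Subtype.ext e1) (Prod.ext (Subtype.ext e2) (Subtype.ext e3))
    · rintro F ⟨p, h1, h2, h3⟩
      exact ⟨p, ⟨h1, h2⟩, Prod.ext (Subtype.ext h3.1) (Subtype.ext h3.2)⟩

theorem DD_cl_zero : PolyCl k (DD k 0) 1 := by
  have h := QQ_cl (k := k) 0
  have e : QQ k 0 = DD k 0 := by
    ext F
    constructor
    · intro hF
      refine ⟨hF, ?_⟩
      obtain ⟨hm, hd⟩ := UB_monic F.1 hF.1
      have e : F.1.1 = 1 := by
        rw [Polynomial.eq_C_of_natDegree_eq_zero hd, hF.1, C_1]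
      rw [e]
      exact isCoprime_one_left
    · intro hF
      exact hF.1
  rw [e] at h
  exact h.cast (by simp)

/-- The polynomials of the classes. -/
private noncomputable def UB_q (m : ℕ) : Polynomial ℤ :=
  if m = 0 then 1 else L ^ (2 * m) - L ^ (2 * m - 1)

private theorem UB_sum (d : ℕ) :
    ∑ m ∈ Finset.range (d + 1), L ^ (d + 1 - m) * UB_q m = L ^ (2 * d + 1) := by
  induction d with
  | zero => simp [UB_q]
  | succ d ih =>
    rw [Finset.sum_range_succ]
    have h1 : ∑ m ∈ Finset.range (d + 1), L ^ (d + 1 + 1 - m) * UB_q m =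
        L * ∑ m ∈ Finset.range (d + 1), L ^ (d + 1 - m) * UB_q m := by
      rw [Finset.mul_sum]
      refine Finset.sum_congr rfl fun m hm => ?_
      have hm' := Finset.mem_range.1 hm
      have e : d + 1 + 1 - m = (d + 1 - m) + 1 := by omega
      rw [e, pow_succ]
      ring
    rw [h1, ih]
    have e1 : d + 1 + 1 - (d + 1) = 1 := by omega
    have e2 : 2 * (d + 1) - 1 = 2 * d + 1 := by omega
    unfold UB_q
    rw [if_neg (Nat.succ_ne_zero d), e1, e2]
    ring

theorem DD_cl {d : ℕ} (hd : 1 ≤ d) : PolyCl k (DD k d) (L ^ (2 * d) - L ^ (2 * d - 1)) := by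
  induction d using Nat.strong_induction_on with
  | _ d ih =>
    have hq : ∀ m < d, PolyCl k (DD k m) (UB_q m) := by
      intro m hm
      unfold UB_q
      by_cases h0 : m = 0
      · rw [if_pos h0, h0]
        exact DD_cl_zero
      · rw [if_neg h0]
        exact ih m hm (Nat.one_le_iff_ne_zero.2 h0)
    have hdisj : ∀ g ≤ d, ∀ g' ≤ d, g ≠ g' → Disjoint (QG k d g) (QG k d g') := by
      intro g hg g' hg' hne
      rw [Set.disjoint_left]
      rintro F ⟨p, h1, h2, h3⟩ ⟨p', h1', h2', h3'⟩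
      exact hne (prel_unique hg hg' h1 h2 h1' h2' h3 h3').1
    have hs := PolyCl.sum (k := k) (Finset.range d)
      (t := {F | ∃ m ∈ Finset.range d, F ∈ QG k d (d - m)}) (fun m => QG k d (d - m))
      (fun m => L ^ (d - m) * UB_q m)
      (by
        intro m hm
        have hm' := Finset.mem_range.1 hm
        refine QG_cl (Nat.sub_le d m) ?_
        rw [Nat.sub_sub_self hm'.le]
        exact hq m hm')
      (by
        intro m hm m' hm' hne
        have h1 := Finset.mem_range.1 hm
        have h2 := Finset.mem_range.1 hm'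
        exact hdisj _ (Nat.sub_le d m) _ (Nat.sub_le d m') (by omega))
      (fun F => Iff.rfl)
    have hsum : ∑ m ∈ Finset.range d, L ^ (d - m) * UB_q m = L ^ (2 * d - 1) := by
      obtain ⟨e, rfl⟩ : ∃ e, d = e + 1 := ⟨d - 1, by omega⟩
      rw [UB_sum]
      congr 1
    rw [hsum] at hs
    have hsub : {F | ∃ m ∈ Finset.range d, F ∈ QG k d (d - m)} ⊆ QQ k d := by
      rintro F ⟨m, hm, hF⟩
      exact QG_cover.2 ⟨d - m, Finset.mem_range.2 (by omega), hF⟩
    have hdiff := PolyCl.diff (QQ_cl (k := k) d) hs hsub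
    have e : QQ k d \ {F | ∃ m ∈ Finset.range d, F ∈ QG k d (d - m)} = DD k d := by
      ext F
      constructor
      · rintro ⟨hF, hn⟩
        obtain ⟨g, hg, hFg⟩ := QG_cover.1 hF
        by_cases h0 : g = 0
        · rw [h0, QG_zero] at hFg
          exact hFg
        · exfalso
          have hg' := Finset.mem_range.1 hg
          apply hn
          refine ⟨d - g, Finset.mem_range.2 (by omega), ?_⟩
          have e : d - (d - g) = g := by omega
          rw [e]
          exact hFg
      · intro hF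
        refine ⟨hF.1, ?_⟩
        rintro ⟨m, hm, hFm⟩
        have hm' := Finset.mem_range.1 hm
        rw [← QG_zero] at hF
        exact Set.disjoint_left.1 (hdisj 0 (Nat.zero_le d) (d - m) (Nat.sub_le d m) (by omega))
          hF hFm
    rw [e] at hdiff
    exact hdiff

end

end Pool.Agent.MRat
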