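import Pool.Agent.Lib.MP_923aff_ag.QB
import Pool.Agent.Lib.MP_923aff_ag.RDefs
/-!
# JOB ZA: quartic forms with four different roots fixed by `μ_l`

`mem_Conf_iff`: `rootF_zero`, `rootF_surj`, `rootF_eq`.

`F = Form.of ![c0, c1, c2, c3, c4] = c4 x^4 + c3 x^3 y + c2 x^2 y^2 + c1 x y^3 + c0 y^4` (`x = v0`, `y = v1`).
`tor c • [F] = [F (c⁻¹ x, y)]` (`tor_eq`, `form_pgl_mk`, `form_gl_apply`), i.e. `c_i ↦ c ^ (-i) c_i`; it is equal to `[F]`
for a primitive `l`-th root of unity `c` iff the indices `i` with `c_i ≠ 0` are congruent modulo `l`.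

No double roots: if `c0 = c1 = 0` then `F` has at most `3` roots (`F = x^2 G` with `G` of degree 2), same for
`c3 = c4 = 0`. For `F = a x^4 + b x^2 y^2 + c y^4` with `b^2 = 4ac`: `a F = (a x^2 + b y^2 / 2)^2` has at most two roots.
Conversely `a x^4 + b x^2 y^2 + c y^4 = a (x^2 - u y^2) (x^2 - u' y^2)` with `u ≠ u'` non-zero has the four roots
`± √u`, `± √u'`, and so on.
-/

set_option autoImplicit false

namespace Pool.Agent.MRat

open scoped MatrixGroups LinearAlgebra.Projectivization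

noncomputable section

variable {k : Type} [Field k] [IsAlgClosed k] [CharZero k]

/-- `F` has `n` different roots. -/
theorem mem_Conf_iff {n : ℕ} (p : ℙ k (Form k n)) :
    p ∈ Conf k n ↔ ∃ a : Fin n → PL k, Function.Injective a ∧ ∀ i, p.rep.1 (a i).rep = 0 := by
  constructor
  · rintro ⟨a, ha, rfl⟩
    refine ⟨a, ha, fun i => ?_⟩
    rw [rootF_zero a (a i).rep (a i).rep_nonzero]
    exact ⟨i, (Projectivization.mk_rep (a i)).symm⟩
  · rintro ⟨a, ha, h⟩
    obtain ⟨b, rfl⟩ := rootF_surj n p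
    have h1 : ∀ i, ∃ j, b j = a i := by
      intro i
      obtain ⟨j, hj⟩ := (rootF_zero b (a i).rep (a i).rep_nonzero).1 (h i)
      exact ⟨j, by rw [hj, Projectivization.mk_rep]⟩
    choose σ hσ using h1
    have hinj : Function.Injective σ := by
      intro i j hij
      apply ha
      rw [← hσ i, ← hσ j, hij]
    have hsurj : Function.Surjective σ := Finite.injective_iff_surjective.1 hinj
    refine ⟨b, ?_, rfl⟩
    intro i j hij
    obtain ⟨i', rfl⟩ := hsurj i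
    obtain ⟨j', rfl⟩ := hsurj j
    rw [hσ, hσ] at hij
    rw [ha hij]

theorem of5_ne {c : Fin 5 → k} {i : Fin 5} (h : c i ≠ 0) : (Form.of c : Form k 4) ≠ 0 := by
  intro h0
  apply h
  have h1 : c = 0 := by
    have h2 : (coeffE k 4).symm c = 0 := h0
    exact (LinearEquiv.map_eq_zero_iff _).1 h2
  rw [h1]
  rfl

open Classical in
/-- The point of the projective space of quartic forms with the given coefficients (junk `[y^4]` if all
coefficients are zero). -/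
def pt5 (c : Fin 5 → k) : ℙ k (Form k 4) :=
  if h : c = 0 then Projectivization.mk k (Form.of ![1, 0, 0, 0, 0])
    (of5_ne (c := ![1, 0, 0, 0, 0]) (i := 0) (by simp))
  else Projectivization.mk k (Form.of c) (by
    obtain ⟨i, hi⟩ := Function.ne_iff.mp h
    exact of5_ne hi)

private theorem ZAa_of_ne {c : Fin 5 → k} (h : c ≠ 0) : (Form.of c : Form k 4) ≠ 0 := by
  obtain ⟨i, hi⟩ := Function.ne_iff.mp h
  exact of5_ne hi

private theorem ZAa_pt5 {c : Fin 5 → k} (h : c ≠ 0) :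
    pt5 c = Projectivization.mk k (Form.of c) (ZAa_of_ne h) := by
  unfold pt5
  rw [dif_neg h]

private theorem ZAa_isrep (c : Fin 5 → k) (p : ℙ k (Form k 4)) :
    ((c = 0 ∧ isrep (Form.of ![1, 0, 0, 0, 0] : Form k 4) p) ∨
      (c ≠ 0 ∧ isrep (Form.of c : Form k 4) p)) ↔ p = pt5 c := by
  constructor
  · rintro (⟨h, h1, h2⟩ | ⟨h, h1, h2⟩)
    · unfold pt5
      rw [dif_pos h, ← h2]
    · rw [ZAa_pt5 h, ← h2]
  · rintro rfl
    by_cases h : c = 0
    · refine Or.inl ⟨h, of5_ne (c := ![1, 0, 0, 0, 0]) (i := 0) (by simp), ?_⟩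
      unfold pt5
      rw [dif_pos h]
    · exact Or.inr ⟨h, ZAa_of_ne h, (ZAa_pt5 h).symm⟩

theorem pt5_dm {X : Type} [DT k X] {f : X → Fin 5 → k} (hf : DM k f) : DM k (fun x => pt5 (f x)) := by
  refine DM.of_graph (R := fun x p =>
    ((f x = 0 ∧ isrep (Form.of ![1, 0, 0, 0, 0] : Form k 4) p) ∨
      (f x ≠ 0 ∧ isrep (Form.of (f x) : Form k 4) p))) ?_ (fun x p => ZAa_isrep (f x) p)
  have hf1 : DM k (fun q : X × ℙ k (Form k 4) => f q.1) := by fun_prop
  have h0 : DM k (fun q : X × ℙ k (Form k 4) => f q.1 = 0) := DM.eq hf1 (DM.const' _)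
  refine DM.or (DM.and h0 (DM.isrep (DM.const' _) (by fun_prop)))
    (DM.and (DM.not h0) (DM.isrep (by fun_prop) (by fun_prop)))

theorem pt5_surj (p : ℙ k (Form k 4)) : ∃ c : Fin 5 → k, c ≠ 0 ∧ p = pt5 c := by
  induction p using Projectivization.ind with
  | h F hF =>
    have hc : coeffE k 4 F ≠ 0 := fun h => hF ((LinearEquiv.map_eq_zero_iff _).1 h)
    refine ⟨coeffE k 4 F, hc, ?_⟩
    rw [ZAa_pt5 hc]
    congr 1
    exact ((coeffE k 4).symm_apply_apply F).symm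

theorem pt5_eq {c d : Fin 5 → k} (hc : c ≠ 0) (hd : d ≠ 0) :
    pt5 c = pt5 d ↔ ∃ u : kˣ, ∀ i, d i = u * c i := by
  rw [eq_comm, ZAa_pt5 hc, ZAa_pt5 hd, Projectivization.mk_eq_mk_iff]
  constructor
  · rintro ⟨u, hu⟩
    refine ⟨u, fun i => ?_⟩
    have h1 : (coeffE k 4).symm ((u : k) • c) = (coeffE k 4).symm d := by
      rw [map_smul]
      exact hu
    have h2 := (coeffE k 4).symm.injective h1
    exact (congrFun h2 i).symm
  · rintro ⟨u, hu⟩
    refine ⟨u, ?_⟩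
    have h1 : d = (u : k) • c := funext hu
    show (u : k) • (coeffE k 4).symm c = (coeffE k 4).symm d
    rw [h1, map_smul]

private theorem ZAa_dg_inv_smul (a : kˣ) (v : Fin 2 → k) :
    (dg a 1)⁻¹ • v = ![((a⁻¹ : kˣ) : k) * v 0, v 1] := by
  rw [inv_smul_eq_iff]
  show v = ((dg a 1 : GL (Fin 2) k) : Matrix (Fin 2) (Fin 2) k).mulVec _
  have h1 : ((dg a 1 : GL (Fin 2) k) : Matrix (Fin 2) (Fin 2) k) =
      !![(a : k), 0; 0, ((1 : kˣ) : k)] := rfl
  rw [h1]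
  funext i
  fin_cases i <;> simp [Matrix.mulVec, dotProduct, Fin.sum_univ_two]

private theorem ZAa_sw_inv_smul (v : Fin 2 → k) : (sw k)⁻¹ • v = ![v 1, v 0] := by
  rw [inv_smul_eq_iff]
  show v = ((sw k : GL (Fin 2) k) : Matrix (Fin 2) (Fin 2) k).mulVec _
  have h1 : ((sw k : GL (Fin 2) k) : Matrix (Fin 2) (Fin 2) k) = !![(0 : k), 1; 1, 0] := rfl
  rw [h1]
  funext i
  fin_cases i <;> simp [Matrix.mulVec, dotProduct, Fin.sum_univ_two]

private theorem ZAa_tor_ne {c : Fin 5 → k} (hc : c ≠ 0) (a : kˣ) :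
    (fun i : Fin 5 => ((a⁻¹ ^ (i : ℕ) : kˣ) : k) * c i) ≠ 0 := by
  obtain ⟨i, hi⟩ := Function.ne_iff.mp hc
  intro h
  have h1 := congrFun h i
  simp only [Pi.zero_apply] at h1 hi
  exact mul_ne_zero (Units.ne_zero _) hi h1

theorem pt5_tor {c : Fin 5 → k} (hc : c ≠ 0) (a : kˣ) :
    tor a • pt5 c = pt5 (fun i => ((a⁻¹ ^ (i : ℕ) : kˣ) : k) * c i) := by
  rw [ZAa_pt5 hc, ZAa_pt5 (ZAa_tor_ne hc a), tor_eq, form_pgl_mk]
  congr 1
  apply Subtype.ext
  funext v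
  rw [form_gl_apply, ZAa_dg_inv_smul, Form.of_apply, Form.of_apply]
  refine Finset.sum_congr rfl fun i _ => ?_
  simp only [Matrix.cons_val_zero, Matrix.cons_val_one, Units.val_pow_eq_pow_val]
  ring

theorem pt5_swp {c : Fin 5 → k} (hc : c ≠ 0) :
    swp k • pt5 c = pt5 (fun i => c (Fin.rev i)) := by
  have hc' : (fun i : Fin 5 => c (Fin.rev i)) ≠ 0 := by
    obtain ⟨i, hi⟩ := Function.ne_iff.mp hc
    intro h
    have h1 := congrFun h (Fin.rev i)
    simp only [Fin.rev_rev, Pi.zero_apply] at h1 hi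
    exact hi h1
  rw [ZAa_pt5 hc, ZAa_pt5 hc', swp_eq, form_pgl_mk]
  congr 1
  apply Subtype.ext
  funext v
  rw [form_gl_apply, ZAa_sw_inv_smul, Form.of_apply, Form.of_apply]
  rw [Fin.sum_univ_five, Fin.sum_univ_five]
  have r0 : Fin.rev (0 : Fin 5) = 4 := rfl
  have r1 : Fin.rev (1 : Fin 5) = 3 := rfl
  have r2 : Fin.rev (2 : Fin 5) = 2 := rfl
  have r3 : Fin.rev (3 : Fin 5) = 1 := rfl
  have r4 : Fin.rev (4 : Fin 5) = 0 := rfl
  have v0 : ((0 : Fin 5) : ℕ) = 0 := rfl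
  have v1 : ((1 : Fin 5) : ℕ) = 1 := rfl
  have v2 : ((2 : Fin 5) : ℕ) = 2 := rfl
  have v3 : ((3 : Fin 5) : ℕ) = 3 := rfl
  have v4 : ((4 : Fin 5) : ℕ) = 4 := rfl
  rw [r0, r1, r2, r3, r4, v0, v1, v2, v3, v4]
  simp only [Matrix.cons_val_zero, Matrix.cons_val_one]
  ring



omit [IsAlgClosed k] [CharZero k] in
private theorem ZAb_three {x y z : k} (hxy : x ≠ y) (hxz : x ≠ z) (hyz : y ≠ z)
    {A B C : k} (h1 : A + B * x + C * x ^ 2 = 0) (h2 : A + B * y + C * y ^ 2 = 0)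
    (h3 : A + B * z + C * z ^ 2 = 0) : A = 0 ∧ B = 0 ∧ C = 0 := by
  have e1 : B + C * (x + y) = 0 := by
    have : (x - y) * (B + C * (x + y)) = 0 := by linear_combination h1 - h2
    exact (mul_eq_zero.1 this).resolve_left (sub_ne_zero.2 hxy)
  have e2 : B + C * (x + z) = 0 := by
    have : (x - z) * (B + C * (x + z)) = 0 := by linear_combination h1 - h3
    exact (mul_eq_zero.1 this).resolve_left (sub_ne_zero.2 hxz)
  have e3 : C = 0 := by
    have : (y - z) * C = 0 := by linear_combination e1 - e2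
    exact (mul_eq_zero.1 this).resolve_left (sub_ne_zero.2 hyz)
  have e4 : B = 0 := by rw [e3] at e1; simpa using e1
  refine ⟨?_, e4, e3⟩
  rw [e3, e4] at h1
  simpa using h1

private theorem ZAb_pt {c : Fin 5 → k} (hc : c ≠ 0) : ∃ u : kˣ, ∀ v, (pt5 c).rep.1 v =
    (u : k) * (Form.of c : Form k 4).1 v := by
  have hne : (Form.of c : Form k 4) ≠ 0 := by
    obtain ⟨i, hi⟩ := Function.ne_iff.mp hc
    exact of5_ne hi
  have h1 : pt5 c = Projectivization.mk k (Form.of c) hne := by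
    unfold pt5
    rw [dif_neg hc]
  obtain ⟨u, hu⟩ := Projectivization.exists_smul_eq_mk_rep k (Form.of c : Form k 4) hne
  refine ⟨u, fun v => ?_⟩
  rw [h1, ← hu]
  rfl

private theorem ZAb_ev (c : Fin 5 → k) (v : Fin 2 → k) : (Form.of c : Form k 4).1 v =
    c 0 * v 1 ^ 4 + c 1 * v 0 * v 1 ^ 3 + c 2 * v 0 ^ 2 * v 1 ^ 2 + c 3 * v 0 ^ 3 * v 1
      + c 4 * v 0 ^ 4 := by
  rw [Form.of_apply]
  simp [Fin.sum_univ_five]

/-- the value at a point of the projective line vanishes -/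
private def ZAb_Z (c : Fin 5 → k) (p : PL k) : Prop :=
  (p = ptI k ∧ c 4 = 0) ∨ ∃ z, p = ptz z ∧ c 0 + c 1 * z + c 2 * z ^ 2 + c 3 * z ^ 3 + c 4 * z ^ 4 = 0

private theorem ZAb_Z_iff (c : Fin 5 → k) (p : PL k) :
    (Form.of c : Form k 4).1 p.rep = 0 ↔ ZAb_Z c p := by
  rcases pl_cases p with rfl | ⟨z, rfl⟩
  · obtain ⟨u, hu⟩ := Projectivization.exists_smul_eq_mk_rep k (![1, 0] : Fin 2 → k) vec_ne'
    have h1 : (ptI k).rep = u • (![1, 0] : Fin 2 → k) := hu.symm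
    have h2 : (Form.of c : Form k 4).1 (ptI k).rep = (u : k) ^ 4 * c 4 := by
      rw [h1, ZAb_ev]
      simp [Units.smul_def]
      ring
    rw [h2]
    constructor
    · intro h
      left
      exact ⟨rfl, (mul_eq_zero.1 h).resolve_left (pow_ne_zero _ u.ne_zero)⟩
    · rintro (⟨-, h⟩ | ⟨z, h, -⟩)
      · rw [h, mul_zero]
      · exact absurd h.symm (ptz_ne_ptI z)
  · obtain ⟨u, hu⟩ := Projectivization.exists_smul_eq_mk_rep k (![z, 1] : Fin 2 → k) (vec_ne z)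
    have h1 : (ptz z).rep = u • (![z, 1] : Fin 2 → k) := hu.symm
    have h2 : (Form.of c : Form k 4).1 (ptz z).rep = (u : k) ^ 4 *
        (c 0 + c 1 * z + c 2 * z ^ 2 + c 3 * z ^ 3 + c 4 * z ^ 4) := by
      rw [h1, ZAb_ev]
      simp [Units.smul_def]
      ring
    rw [h2]
    constructor
    · intro h
      right
      exact ⟨z, rfl, (mul_eq_zero.1 h).resolve_left (pow_ne_zero _ u.ne_zero)⟩
    · rintro (⟨h, -⟩ | ⟨w, h, hw⟩)
      · exact absurd h (ptz_ne_ptI z)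
      · rw [ptz_inj] at h
        subst h
        rw [hw, mul_zero]

private theorem ZAb_iff {c : Fin 5 → k} (hc : c ≠ 0) : pt5 c ∈ Conf k 4 ↔
    ∃ a : Fin 4 → PL k, Function.Injective a ∧ ∀ i, ZAb_Z c (a i) := by
  rw [mem_Conf_iff]
  obtain ⟨u, hu⟩ := ZAb_pt hc
  simp only [hu, mul_eq_zero, u.ne_zero, false_or, ZAb_Z_iff]

private theorem ZAb_sub (P : Fin 4 → Prop) (h : ∀ i j, P i → P j → i = j) :
    ∃ f : Fin 3 → Fin 4, Function.Injective f ∧ ∀ i, ¬ P (f i) := by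
  by_cases h0 : ∃ i, P i
  · obtain ⟨i, hi⟩ := h0
    refine ⟨i.succAbove, Fin.succAbove_right_injective, fun j hj => ?_⟩
    exact Fin.succAbove_ne i j (h _ _ hj hi)
  · refine ⟨Fin.succ, Fin.succ_injective _, fun j hj => h0 ⟨_, hj⟩⟩

private theorem ZAb_end {c : Fin 5 → k} (hc : c ≠ 0) (h : pt5 c ∈ Conf k 4) :
    c 0 ≠ 0 ∨ c 1 ≠ 0 := by
  by_contra hcon
  push Not at hcon
  obtain ⟨h0, h1⟩ := hcon
  obtain ⟨a, ha, hz⟩ := (ZAb_iff hc).1 h
  obtain ⟨f, hf, hfz⟩ := ZAb_sub (fun i => a i = ptz 0) (fun i j hi hj => ha (hi.trans hj.symm))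
  -- coordinates `w = 1 / z` of the three points
  have key : ∀ i, ∃ w : k, ((w = 0 ∧ a (f i) = ptI k) ∨ (w ≠ 0 ∧ a (f i) = ptz w⁻¹)) ∧
      c 4 + c 3 * w + c 2 * w ^ 2 = 0 := by
    intro i
    rcases hz (f i) with ⟨e, e4⟩ | ⟨z, e, e4⟩
    · exact ⟨0, Or.inl ⟨rfl, e⟩, by rw [e4]; ring⟩
    · have hz0 : z ≠ 0 := by
        rintro rfl
        exact hfz i e
      refine ⟨z⁻¹, Or.inr ⟨inv_ne_zero hz0, by rw [inv_inv]; exact e⟩, ?_⟩
      rw [h0, h1] at e4
      field_simp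
      have : z ^ 2 * (c 4 * z ^ 2 + c 3 * z + c 2) = 0 := by linear_combination e4
      have h3 := (mul_eq_zero.1 this).resolve_left (pow_ne_zero _ hz0)
      linear_combination h3
  choose w hw hw2 using key
  have hinj : ∀ i j, w i = w j → i = j := by
    intro i j hij
    apply hf
    apply ha
    rcases hw i with ⟨e, e'⟩ | ⟨e, e'⟩ <;> rcases hw j with ⟨g, g'⟩ | ⟨g, g'⟩
    · rw [e', g']
    · exact absurd (hij.symm.trans e) g
    · exact absurd (hij.trans g) e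
    · rw [e', g', hij]
  obtain ⟨e4, e3, e2⟩ := ZAb_three (x := w 0) (y := w 1) (z := w 2)
    (fun h => by have := hinj _ _ h; simp at this) (fun h => by have := hinj _ _ h; simp at this)
    (fun h => by have := hinj _ _ h; simp at this) (hw2 0) (hw2 1) (hw2 2)
  apply hc
  funext i
  fin_cases i
  · exact h0
  · exact h1
  · exact e2
  · exact e3
  · exact e4

/-- Necessary conditions. -/
theorem pt5_Conf_ends {c : Fin 5 → k} (hc : c ≠ 0) (h : pt5 c ∈ Conf k 4) :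
    (c 0 ≠ 0 ∨ c 1 ≠ 0) ∧ (c 4 ≠ 0 ∨ c 3 ≠ 0) := by
  refine ⟨ZAb_end hc h, ?_⟩
  have h1 : pt5 (fun i => c (Fin.rev i)) ∈ Conf k 4 := by
    rw [← pt5_swp hc]
    exact (Conf_gset 4).st _ _ h
  have h2 : (fun i => c (Fin.rev i)) ≠ 0 := by
    intro e
    apply hc
    funext i
    have := congrFun e (Fin.rev i)
    simpa using this
  exact ZAb_end h2 h1

/-- Fixed by `μ_l`: the indices are congruent modulo `l`. -/
theorem pt5_fix {c : Fin 5 → k} (hc : c ≠ 0) {l : ℕ} (hl : 2 ≤ l)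
    (h : ∀ a : kˣ, a ^ l = 1 → tor a • pt5 c = pt5 c) (i j : Fin 5) (hi : c i ≠ 0) (hj : c j ≠ 0) :
    (i : ℕ) ≡ (j : ℕ) [MOD l] := by
  have : NeZero l := ⟨by omega⟩
  have : NeZero (l : k) := ⟨Nat.cast_ne_zero.2 (by omega)⟩
  obtain ⟨z, hz⟩ := HasEnoughRootsOfUnity.exists_primitiveRoot k l
  have hz0 : z ≠ 0 := hz.ne_zero (by omega)
  have hz1 : IsPrimitiveRoot (Units.mk0 z hz0) l := by
    rw [← IsPrimitiveRoot.coe_units_iff]
    exact hz
  have h1 := h (Units.mk0 z hz0) hz1.pow_eq_one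
  rw [pt5_tor hc, pt5_eq (ZAa_tor_ne hc _) hc] at h1
  obtain ⟨u, hu⟩ := h1
  have key : ∀ m : Fin 5, c m ≠ 0 → u = Units.mk0 z hz0 ^ (m : ℕ) := by
    intro m hm
    have h2 := hu m
    have h3 : (1 : k) = (u : k) * (((Units.mk0 z hz0)⁻¹ ^ (m : ℕ) : kˣ) : k) := by
      apply mul_right_cancel₀ hm
      rw [one_mul, mul_assoc]
      exact h2
    have h4 : (1 : kˣ) = u * (Units.mk0 z hz0)⁻¹ ^ (m : ℕ) := by
      apply Units.ext
      rw [Units.val_mul, Units.val_one]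
      exact h3
    rw [inv_pow] at h4
    exact (mul_inv_eq_one.1 h4.symm)
  have h5 : Units.mk0 z hz0 ^ (i : ℕ) = Units.mk0 z hz0 ^ (j : ℕ) := by
    rw [← key i hi, ← key j hj]
  have h6 := pow_eq_pow_iff_modEq.1 h5
  rwa [← hz1.eq_orderOf] at h6

theorem pt5_fix' {c : Fin 5 → k} (hc : c ≠ 0) {l : ℕ}
    (h : ∀ i j : Fin 5, c i ≠ 0 → c j ≠ 0 → (i : ℕ) ≡ (j : ℕ) [MOD l]) (a : kˣ) (ha : a ^ l = 1) :
    tor a • pt5 c = pt5 c := by
  rw [pt5_tor hc, pt5_eq (ZAa_tor_ne hc _) hc]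
  obtain ⟨i0, hi0⟩ := Function.ne_iff.mp hc
  refine ⟨a ^ (i0 : ℕ), fun i => ?_⟩
  by_cases hi : c i = 0
  · rw [hi, mul_zero, mul_zero]
  · have h1 := h i0 i hi0 hi
    have h2 : a ^ (i0 : ℕ) = a ^ (i : ℕ) := by
      rw [pow_eq_pow_iff_modEq]
      exact h1.of_dvd (orderOf_dvd_of_pow_eq_one ha)
    rw [h2, ← mul_assoc, ← Units.val_mul, inv_pow, mul_inv_cancel, Units.val_one, one_mul]


omit [IsAlgClosed k] [CharZero k] in
private theorem ZAb_ne0 {c : Fin 5 → k} (i : Fin 5) (h : c i ≠ 0) : c ≠ 0 := by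
  rintro rfl
  exact h rfl

private theorem ZAb_fin {c : Fin 5 → k} (hc : c ≠ 0) (z : Fin 4 → k) (hz : Function.Injective z)
    (h : ∀ i, c 0 + c 1 * z i + c 2 * z i ^ 2 + c 3 * z i ^ 3 + c 4 * z i ^ 4 = 0) :
    pt5 c ∈ Conf k 4 := by
  rw [ZAb_iff hc]
  exact ⟨fun i => ptz (z i), fun i j hij => hz (ptz_inj.1 hij), fun i => Or.inr ⟨_, rfl, h i⟩⟩

private theorem ZAb_inf {c : Fin 5 → k} (hc : c ≠ 0) (h4 : c 4 = 0) (z : Fin 3 → k)
    (hz : Function.Injective z)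
    (h : ∀ i, c 0 + c 1 * z i + c 2 * z i ^ 2 + c 3 * z i ^ 3 + c 4 * z i ^ 4 = 0) :
    pt5 c ∈ Conf k 4 := by
  rw [ZAb_iff hc]
  refine ⟨Fin.cons (ptI k) (fun i => ptz (z i)), ?_, ?_⟩
  · rw [Fin.cons_injective_iff]
    refine ⟨?_, fun i j hij => hz (ptz_inj.1 hij)⟩
    rintro ⟨i, hi⟩
    exact ptz_ne_ptI _ hi
  · intro i
    refine Fin.cases ?_ (fun j => ?_) i
    · exact Or.inl ⟨rfl, h4⟩
    · exact Or.inr ⟨_, rfl, h j⟩

/-- `n` different `n`-th roots. -/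
private theorem ZAb_roots (n : ℕ) [NeZero n] (w : k) (hw : w ≠ 0) :
    ∃ z : Fin n → k, Function.Injective z ∧ ∀ i, z i ^ n = w := by
  obtain ⟨s, hs⟩ := IsAlgClosed.exists_pow_nat_eq w (Nat.pos_of_ne_zero (NeZero.ne n))
  have hn : NeZero (n : k) := ⟨Nat.cast_ne_zero.2 (NeZero.ne n)⟩
  obtain ⟨ζ, hζ⟩ := HasEnoughRootsOfUnity.exists_primitiveRoot k n
  have hs0 : s ≠ 0 := by
    rintro rfl
    rw [zero_pow (NeZero.ne n)] at hs
    exact hw hs.symm
  refine ⟨fun i => s * ζ ^ (i : ℕ), fun i j hij => ?_, fun i => ?_⟩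
  · have h1 : ζ ^ (i : ℕ) = ζ ^ (j : ℕ) := mul_left_cancel₀ hs0 hij
    exact Fin.ext (hζ.pow_inj i.2 j.2 h1)
  · rw [mul_pow, hs, ← pow_mul, mul_comm (i : ℕ), pow_mul, hζ.pow_eq_one, one_pow, mul_one]

/-- Sufficient conditions. -/
theorem Conf_even (a b c : k) (ha : a ≠ 0) (hc : c ≠ 0) :
    pt5 ![c, 0, b, 0, a] ∈ Conf k 4 ↔ b ^ 2 ≠ 4 * a * c := by
  have hne : (![c, 0, b, 0, a] : Fin 5 → k) ≠ 0 := ZAb_ne0 0 hc
  constructor
  · intro h hb
    obtain ⟨p, hp, hz⟩ := (ZAb_iff hne).1 h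
    have key : ∀ i, ∃ z, p i = ptz z ∧ 2 * a * z ^ 2 + b = 0 := by
      intro i
      rcases hz i with ⟨-, e⟩ | ⟨z, e, e4⟩
      · exact absurd e ha
      · refine ⟨z, e, ?_⟩
        have e5 : c + b * z ^ 2 + a * z ^ 4 = 0 := by
          have : c + 0 * z + b * z ^ 2 + 0 * z ^ 3 + a * z ^ 4 = 0 := e4
          linear_combination this
        have : (2 * a * z ^ 2 + b) ^ 2 = 0 := by linear_combination 4 * a * e5 + hb
        exact pow_eq_zero_iff (two_ne_zero) |>.1 this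
    choose z hz1 hz2 using key
    have hinj : ∀ i j, z i = z j → i = j := fun i j hij => hp (by rw [hz1, hz1, hij])
    obtain ⟨-, -, e2⟩ := ZAb_three (x := z 0) (y := z 1) (z := z 2) (A := b) (B := 0) (C := 2 * a)
      (fun h => by have := hinj _ _ h; simp at this) (fun h => by have := hinj _ _ h; simp at this)
      (fun h => by have := hinj _ _ h; simp at this)
      (by linear_combination hz2 0) (by linear_combination hz2 1) (by linear_combination hz2 2)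
    exact ha ((mul_eq_zero.1 e2).resolve_left two_ne_zero)
  · intro hb
    obtain ⟨d, hd⟩ := IsAlgClosed.exists_pow_nat_eq (b ^ 2 - 4 * a * c) (n := 2) (by norm_num)
    have hd0 : d ≠ 0 := by
      rintro rfl
      apply hb
      linear_combination -hd
    have h2a : (2 * a) ≠ 0 := mul_ne_zero two_ne_zero ha
    have hu : ∀ e : k, e ^ 2 = d ^ 2 → (-b + e) / (2 * a) ≠ 0 := by
      intro e he h0
      have h1 : -b + e = 0 := (div_eq_zero_iff.1 h0).resolve_right h2a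
      have h2 : 4 * a * c = 0 := by
        have : e = b := by linear_combination h1
        rw [this] at he
        linear_combination he + hd
      exact mul_ne_zero (mul_ne_zero (by norm_num : (4 : k) ≠ 0) ha) hc h2
    obtain ⟨s, hs⟩ := IsAlgClosed.exists_pow_nat_eq ((-b + d) / (2 * a)) (n := 2) (by norm_num)
    obtain ⟨t, ht⟩ := IsAlgClosed.exists_pow_nat_eq ((-b + -d) / (2 * a)) (n := 2) (by norm_num)
    have hs0 : s ≠ 0 := by
      rintro rfl
      exact hu d rfl (by rw [← hs]; simp)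
    have ht0 : t ≠ 0 := by
      rintro rfl
      exact hu (-d) (by ring) (by rw [← ht]; simp)
    have hst : s ^ 2 ≠ t ^ 2 := by
      intro h
      rw [hs, ht, div_left_inj' h2a] at h
      apply hd0
      have : (2 : k) * d = 0 := by linear_combination h
      exact (mul_eq_zero.1 this).resolve_left two_ne_zero
    have hss : s ≠ -s := fun h => hs0 (by
      have : (2 : k) * s = 0 := by linear_combination h
      exact (mul_eq_zero.1 this).resolve_left two_ne_zero)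
    have htt : t ≠ -t := fun h => ht0 (by
      have : (2 : k) * t = 0 := by linear_combination h
      exact (mul_eq_zero.1 this).resolve_left two_ne_zero)
    have e1 : s ≠ t := fun h => hst (by rw [h])
    have e2 : s ≠ -t := fun h => hst (by rw [h]; ring)
    have e3 : -s ≠ t := fun h => hst (by rw [← h]; ring)
    have e4 : -s ≠ -t := fun h => hst (by have : s = t := by linear_combination -h
                                          rw [this])
    have q : ∀ z : k, (z ^ 2 = (-b + d) / (2 * a) ∨ z ^ 2 = (-b + -d) / (2 * a)) →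
        c + b * z ^ 2 + a * z ^ 4 = 0 := by
      rintro z (h | h)
      · have h5 : 2 * a * z ^ 2 = -b + d := by rw [h]; field_simp
        have : (4 * a) * (c + b * z ^ 2 + a * z ^ 4) = 0 := by
          linear_combination (2 * a * z ^ 2 + b + d) * h5 + hd
        exact (mul_eq_zero.1 this).resolve_left (mul_ne_zero (by norm_num : (4 : k) ≠ 0) ha)
      · have h5 : 2 * a * z ^ 2 = -b + -d := by rw [h]; field_simp
        have : (4 * a) * (c + b * z ^ 2 + a * z ^ 4) = 0 := by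
          linear_combination (2 * a * z ^ 2 + b - d) * h5 + hd
        exact (mul_eq_zero.1 this).resolve_left (mul_ne_zero (by norm_num : (4 : k) ≠ 0) ha)
    refine ZAb_fin hne ![s, -s, t, -t] ?_ ?_
    · intro i j hij
      fin_cases i <;> fin_cases j <;> first
        | rfl
        | (exfalso; first
            | exact hss hij
            | exact hss hij.symm
            | exact htt hij
            | exact htt hij.symm
            | exact e1 hij
            | exact e1 hij.symm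
            | exact e2 hij
            | exact e2 hij.symm
            | exact e3 hij
            | exact e3 hij.symm
            | exact e4 hij
            | exact e4 hij.symm)
    · intro i
      have : ∀ z : k, (z ^ 2 = (-b + d) / (2 * a) ∨ z ^ 2 = (-b + -d) / (2 * a)) →
          c + 0 * z + b * z ^ 2 + 0 * z ^ 3 + a * z ^ 4 = 0 := fun z hz => by
        linear_combination q z hz
      fin_cases i
      · exact this s (Or.inl hs)
      · exact this (-s) (Or.inl (by rw [neg_sq, hs]))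
      · exact this t (Or.inr ht)
      · exact this (-t) (Or.inr (by rw [neg_sq, ht]))

theorem Conf_13 (a c : k) (ha : a ≠ 0) (hc : c ≠ 0) : pt5 ![0, c, 0, a, 0] ∈ Conf k 4 := by
  obtain ⟨z, hz, hz2⟩ := ZAb_roots 2 (-c / a) (div_ne_zero (neg_ne_zero.2 hc) ha)
  refine ZAb_inf (ZAb_ne0 1 hc) rfl (Fin.cons 0 z) ?_ ?_
  · rw [Fin.cons_injective_iff]
    refine ⟨?_, hz⟩
    rintro ⟨i, hi⟩
    have := hz2 i
    rw [hi] at this
    exact div_ne_zero (neg_ne_zero.2 hc) ha (by rw [← this]; simp)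
  · intro i
    show (0 : k) + c * _ + 0 * _ ^ 2 + a * _ ^ 3 + 0 * _ ^ 4 = 0
    refine Fin.cases ?_ (fun j => ?_) i
    · simp
    · have h1 : a * z j ^ 2 = -c := by rw [hz2 j]; field_simp
      show (0 : k) + c * z j + 0 * z j ^ 2 + a * z j ^ 3 + 0 * z j ^ 4 = 0
      linear_combination z j * h1

theorem Conf_03 (a c : k) (ha : a ≠ 0) (hc : c ≠ 0) : pt5 ![c, 0, 0, a, 0] ∈ Conf k 4 := by
  obtain ⟨z, hz, hz2⟩ := ZAb_roots 3 (-c / a) (div_ne_zero (neg_ne_zero.2 hc) ha)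
  refine ZAb_inf (ZAb_ne0 0 hc) rfl z hz ?_
  intro j
  have h1 : a * z j ^ 3 = -c := by rw [hz2 j]; field_simp
  show c + 0 * z j + 0 * z j ^ 2 + a * z j ^ 3 + 0 * z j ^ 4 = 0
  linear_combination h1

theorem Conf_14 (a c : k) (ha : a ≠ 0) (hc : c ≠ 0) : pt5 ![0, c, 0, 0, a] ∈ Conf k 4 := by
  obtain ⟨z, hz, hz2⟩ := ZAb_roots 3 (-c / a) (div_ne_zero (neg_ne_zero.2 hc) ha)
  refine ZAb_fin (ZAb_ne0 1 hc) (Fin.cons 0 z) ?_ ?_
  · rw [Fin.cons_injective_iff]
    refine ⟨?_, hz⟩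
    rintro ⟨i, hi⟩
    have := hz2 i
    rw [hi] at this
    exact div_ne_zero (neg_ne_zero.2 hc) ha (by rw [← this]; simp)
  · intro i
    refine Fin.cases ?_ (fun j => ?_) i
    · show (0 : k) + c * 0 + 0 * 0 ^ 2 + 0 * 0 ^ 3 + a * 0 ^ 4 = 0
      simp
    · have h1 : a * z j ^ 3 = -c := by rw [hz2 j]; field_simp
      show (0 : k) + c * z j + 0 * z j ^ 2 + 0 * z j ^ 3 + a * z j ^ 4 = 0
      linear_combination z j * h1

theorem Conf_04 (a c : k) (ha : a ≠ 0) (hc : c ≠ 0) : pt5 ![c, 0, 0, 0, a] ∈ Conf k 4 := by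
  obtain ⟨z, hz, hz2⟩ := ZAb_roots 4 (-c / a) (div_ne_zero (neg_ne_zero.2 hc) ha)
  refine ZAb_fin (ZAb_ne0 0 hc) z hz ?_
  intro j
  have h1 : a * z j ^ 4 = -c := by rw [hz2 j]; field_simp
  show c + 0 * z j + 0 * z j ^ 2 + 0 * z j ^ 3 + a * z j ^ 4 = 0
  linear_combination h1

omit [Field k] [IsAlgClosed k] [CharZero k] in
private theorem ZAb_vec (c : Fin 5 → k) : c = ![c 0, c 1, c 2, c 3, c 4] := by
  funext i
  fin_cases i <;> rfl

private theorem ZAb_fix_iff (p : ℙ k (Form k 4)) (l : ℕ) : p ∈ (FA k 4).fixl l (Conf k 4) ↔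
    p ∈ Conf k 4 ∧ ∀ a : kˣ, a ^ l = 1 → tor a • p = p := Iff.rfl

/-- The fixed points of `μ_2`. -/
theorem conf4_fix2_iff (p : ℙ k (Form k 4)) : p ∈ (FA k 4).fixl 2 (Conf k 4) ↔
    (∃ a b c : k, a ≠ 0 ∧ c ≠ 0 ∧ b ^ 2 ≠ 4 * a * c ∧ p = pt5 ![c, 0, b, 0, a]) ∨
    (∃ a c : k, a ≠ 0 ∧ c ≠ 0 ∧ p = pt5 ![0, c, 0, a, 0]) := by
  rw [ZAb_fix_iff]
  constructor
  · rintro ⟨hp, hf⟩
    obtain ⟨c, hc, rfl⟩ := pt5_surj p
    have hmod := fun i j => pt5_fix hc (le_refl 2) hf i j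
    obtain ⟨he1, he2⟩ := pt5_Conf_ends hc hp
    have z : ∀ i j : Fin 5, c i ≠ 0 → ¬ ((i : ℕ) ≡ (j : ℕ) [MOD 2]) → c j = 0 := by
      intro i j hi hij
      by_contra hj
      exact hij (hmod i j hi hj)
    by_cases h0 : c 0 = 0
    · right
      have h1 : c 1 ≠ 0 := he1.resolve_left (fun h => h h0)
      have h2 : c 2 = 0 := z 1 2 h1 (by decide)
      have h4 : c 4 = 0 := z 1 4 h1 (by decide)
      have h3 : c 3 ≠ 0 := he2.resolve_left (fun h => h h4)
      refine ⟨c 3, c 1, h3, h1, ?_⟩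
      conv_lhs => rw [ZAb_vec c, h0, h2, h4]
    · left
      have h1 : c 1 = 0 := z 0 1 h0 (by decide)
      have h3 : c 3 = 0 := z 0 3 h0 (by decide)
      have h4 : c 4 ≠ 0 := he2.resolve_right (fun h => h h3)
      have e : c = ![c 0, 0, c 2, 0, c 4] := by
        conv_lhs => rw [ZAb_vec c, h1, h3]
      refine ⟨c 4, c 2, c 0, h4, h0, ?_, congrArg pt5 e⟩
      rw [e] at hp
      exact (Conf_even (c 4) (c 2) (c 0) h4 h0).1 hp
  · rintro (⟨a, b, c, ha, hc, hb, rfl⟩ | ⟨a, c, ha, hc, rfl⟩)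
    · refine ⟨(Conf_even a b c ha hc).2 hb, fun t ht => ?_⟩
      refine pt5_fix' (ZAb_ne0 0 hc) ?_ t ht
      intro i j
      fin_cases i <;> fin_cases j <;> simp (decide := true)
    · refine ⟨Conf_13 a c ha hc, fun t ht => ?_⟩
      refine pt5_fix' (ZAb_ne0 1 hc) ?_ t ht
      intro i j
      fin_cases i <;> fin_cases j <;> simp (decide := true)

theorem conf4_fix3_iff (p : ℙ k (Form k 4)) : p ∈ (FA k 4).fixl 3 (Conf k 4) ↔
    (∃ a c : k, a ≠ 0 ∧ c ≠ 0 ∧ p = pt5 ![c, 0, 0, a, 0]) ∨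
    (∃ a c : k, a ≠ 0 ∧ c ≠ 0 ∧ p = pt5 ![0, c, 0, 0, a]) := by
  rw [ZAb_fix_iff]
  constructor
  · rintro ⟨hp, hf⟩
    obtain ⟨c, hc, rfl⟩ := pt5_surj p
    have hmod := fun i j => pt5_fix hc (by norm_num : 2 ≤ 3) hf i j
    obtain ⟨he1, he2⟩ := pt5_Conf_ends hc hp
    have z : ∀ i j : Fin 5, c i ≠ 0 → ¬ ((i : ℕ) ≡ (j : ℕ) [MOD 3]) → c j = 0 := by
      intro i j hi hij
      by_contra hj
      exact hij (hmod i j hi hj)
    by_cases h0 : c 0 = 0
    · right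
      have h1 : c 1 ≠ 0 := he1.resolve_left (fun h => h h0)
      have h2 : c 2 = 0 := z 1 2 h1 (by decide)
      have h3 : c 3 = 0 := z 1 3 h1 (by decide)
      have h4 : c 4 ≠ 0 := he2.resolve_right (fun h => h h3)
      refine ⟨c 4, c 1, h4, h1, ?_⟩
      conv_lhs => rw [ZAb_vec c, h0, h2, h3]
    · left
      have h1 : c 1 = 0 := z 0 1 h0 (by decide)
      have h2 : c 2 = 0 := z 0 2 h0 (by decide)
      have h4 : c 4 = 0 := z 0 4 h0 (by decide)
      have h3 : c 3 ≠ 0 := he2.resolve_left (fun h => h h4)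
      refine ⟨c 3, c 0, h3, h0, ?_⟩
      conv_lhs => rw [ZAb_vec c, h1, h2, h4]
  · rintro (⟨a, c, ha, hc, rfl⟩ | ⟨a, c, ha, hc, rfl⟩)
    · refine ⟨Conf_03 a c ha hc, fun t ht => ?_⟩
      refine pt5_fix' (ZAb_ne0 0 hc) ?_ t ht
      intro i j
      fin_cases i <;> fin_cases j <;> simp (decide := true)
    · refine ⟨Conf_14 a c ha hc, fun t ht => ?_⟩
      refine pt5_fix' (ZAb_ne0 1 hc) ?_ t ht
      intro i j
      fin_cases i <;> fin_cases j <;> simp (decide := true)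

theorem conf4_fix4_iff (p : ℙ k (Form k 4)) : p ∈ (FA k 4).fixl 4 (Conf k 4) ↔
    ∃ a c : k, a ≠ 0 ∧ c ≠ 0 ∧ p = pt5 ![c, 0, 0, 0, a] := by
  rw [ZAb_fix_iff]
  constructor
  · rintro ⟨hp, hf⟩
    obtain ⟨c, hc, rfl⟩ := pt5_surj p
    have hmod := fun i j => pt5_fix hc (by norm_num : 2 ≤ 4) hf i j
    obtain ⟨he1, he2⟩ := pt5_Conf_ends hc hp
    have z : ∀ i j : Fin 5, c i ≠ 0 → ¬ ((i : ℕ) ≡ (j : ℕ) [MOD 4]) → c j = 0 := by
      intro i j hi hij
      by_contra hj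
      exact hij (hmod i j hi hj)
    have h0 : c 0 ≠ 0 := by
      intro h0
      have h1 : c 1 ≠ 0 := he1.resolve_left (fun h => h h0)
      rcases he2 with h | h
      · exact h (z 1 4 h1 (by decide))
      · exact h (z 1 3 h1 (by decide))
    have h1 : c 1 = 0 := z 0 1 h0 (by decide)
    have h2 : c 2 = 0 := z 0 2 h0 (by decide)
    have h3 : c 3 = 0 := z 0 3 h0 (by decide)
    have h4 : c 4 ≠ 0 := he2.resolve_right (fun h => h h3)
    refine ⟨c 4, c 0, h4, h0, ?_⟩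
    conv_lhs => rw [ZAb_vec c, h1, h2, h3]
  · rintro ⟨a, c, ha, hc, rfl⟩
    refine ⟨Conf_04 a c ha hc, fun t ht => ?_⟩
    refine pt5_fix' (ZAb_ne0 0 hc) ?_ t ht
    intro i j
    fin_cases i <;> fin_cases j <;> simp (decide := true)

theorem conf4_fix5 (l : ℕ) (hl : 5 ≤ l) : (FA k 4).fixl l (Conf k 4) = ∅ := by
  rw [Set.eq_empty_iff_forall_notMem]
  intro p hp
  rw [ZAb_fix_iff] at hp
  obtain ⟨hp, hf⟩ := hp
  obtain ⟨c, hc, rfl⟩ := pt5_surj p
  have hmod := fun i j => pt5_fix hc (le_trans (by norm_num) hl : 2 ≤ l) hf i j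
  obtain ⟨he1, he2⟩ := pt5_Conf_ends hc hp
  have z : ∀ i j : Fin 5, c i ≠ 0 → c j ≠ 0 → i = j := by
    intro i j hi hj
    have h1 := hmod i j hi hj
    have h2 : (i : ℕ) < l := lt_of_lt_of_le i.2 hl
    have h3 : (j : ℕ) < l := lt_of_lt_of_le j.2 hl
    exact Fin.ext (Nat.ModEq.eq_of_lt_of_lt h1 h2 h3)
  rcases he1 with h | h <;> rcases he2 with g | g
  · exact absurd (z _ _ h g) (by decide)
  · exact absurd (z _ _ h g) (by decide)
  · exact absurd (z _ _ h g) (by decide)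
  · exact absurd (z _ _ h g) (by decide)

end

end Pool.Agent.MRat
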